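import Pool.Agent.EN.Ground

/-!
# Joint ground (helper77)

In a frame (star rule, rank rule) two disjoint unbalanced sets need not be skew (lift matroids), so
a ground which consists of cycles must be joint: `JU M S ends I F` says that the union of the
elements inside the sets `F i`, `i ∈ I`, has full rank `∑ |F i|`.  The relative version
`UnR M S ends R A`: `A` is unbalanced over the set `R` of elements.
-/

open Set
open scoped Matroid

namespace EN

open BIC Gad

variable {α V ι : Type*}

/-- `A` is unbalanced over the set `R` of elements. -/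
def UnR (M : Matroid α) (S : Set α) (ends : α → Sym2 V) (R : Set α) (A : Set V) : Prop :=
  A.ncard + BIC.rk M R ≤ BIC.rk M (R ∪ ins S ends A)

/-- Joint ground: the elements inside the sets `F i` have full rank together. -/
def JU (M : Matroid α) (S : Set α) (ends : α → Sym2 V) (I : Finset ι) (F : ι → Set V) : Prop :=
  ∑ i ∈ I, (F i).ncard ≤ BIC.rk M (⋃ i ∈ I, ins S ends (F i))

section

variable {M : Matroid α} {S : Set α} {ends : α → Sym2 V}

/-- A set of elements avoids a set of vertices. -/
def Avd (ends : α → Sym2 V) (R : Set α) (B : Set V) : Prop := ∀ e ∈ R, ∀ v ∈ ends e, v ∉ B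

lemma Avd.mono {R R' : Set α} {B B' : Set V} (h : Avd ends R B) (hR : R' ⊆ R) (hB : B' ⊆ B) :
    Avd ends R' B' := fun e he v hv hvB => h e (hR he) v hv (hB hvB)

/-- Growing a connected set over `R`. -/
lemma Frm.grow_over [M.Finite] (hF : Frm M S ends) {R : Set α} (hR : R ⊆ S) {A B : Set V}
    (hB : B.Finite) (hAB : A ⊆ B) (hA : A.Nonempty) (hc : VConn S ends B)
    (hRB : Avd ends R B) :
    BIC.rk M (R ∪ ins S ends A) + B.ncard ≤ BIC.rk M (R ∪ ins S ends B) + A.ncard := by
  obtain ⟨E, hE1, hE2, hE3, _, hE5⟩ := grow hB hAB hA hc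
  obtain ⟨K, hK⟩ := M.exists_isBasis (R ∪ ins S ends A)
    (union_subset (hR.trans hF.sub) (fun e he => hF.sub he.1))
  have hKS : K ⊆ S := hK.subset.trans (union_subset hR fun e he => he.1)
  have h1 := hE5 M hF K hKS hK.indep (by
    intro e he v hv hvB
    rcases hK.subset he with h | h
    · exact absurd hvB (hRB e h v hv)
    · exact h.2 v hv)
  have hKE : Disjoint K E := by
    rw [Set.disjoint_left]
    intro e he he'
    rcases hK.subset he with h | h
    · obtain ⟨v, hv⟩ := exists_mem_ends ends e
      exact hRB e h v hv ((hE1 he').2 v hv)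
    · exact Set.disjoint_left.1 hE2 he' h
  have hfin : (K ∪ E).Finite := M.ground_finite.subset h1.subset_ground
  have hKf : K.Finite := hfin.subset subset_union_left
  have hEf : E.Finite := hfin.subset subset_union_right
  have hAf : A.Finite := hB.subset hAB
  have h2 : BIC.rk M (R ∪ ins S ends A) = K.ncard := by
    have h3 := hK.eRk_eq_encard
    rw [← cast_rk, ← hKf.cast_ncard_eq] at h3
    exact_mod_cast h3
  have h3 : E.ncard + A.ncard = B.ncard := by
    rw [← hEf.cast_ncard_eq, ← hAf.cast_ncard_eq, ← hB.cast_ncard_eq] at hE3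
    exact_mod_cast hE3
  have h4 : K.ncard + E.ncard ≤ BIC.rk M (R ∪ ins S ends B) := by
    rw [← ncard_union_eq hKE hKf hEf, ← rk_indep h1]
    refine rk_mono M (union_subset ?_ ?_)
    · exact hK.subset.trans (union_subset_union_right _ (ins_mono hAB))
    · exact hE1.trans subset_union_right
  omega

/-- The rank of a connected set over `R`. -/
lemma Frm.conn_over [M.Finite] (hF : Frm M S ends) {R : Set α} (hR : R ⊆ S) {B : Set V}
    (hB : B.Finite) (hne : B.Nonempty) (hc : VConn S ends B) (hRB : Avd ends R B) :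
    BIC.rk M R + B.ncard ≤ BIC.rk M (R ∪ ins S ends B) + 1 := by
  obtain ⟨b, hb⟩ := hne
  have h1 := hF.grow_over hR hB (singleton_subset_iff.2 hb) (singleton_nonempty b) hc hRB
  have h2 : BIC.rk M R ≤ BIC.rk M (R ∪ ins S ends {b}) := rk_mono M subset_union_left
  rw [ncard_singleton] at h1
  omega

/-- A larger connected set. -/
lemma UnR.mono [M.Finite] (hF : Frm M S ends) {R : Set α} (hR : R ⊆ S) {A B : Set V}
    (hB : B.Finite) (hAB : A ⊆ B) (hA : A.Nonempty) (hc : VConn S ends B)
    (hRB : Avd ends R B) (h : UnR M S ends R A) : UnR M S ends R B := by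
  have h1 := hF.grow_over hR hB hAB hA hc hRB
  unfold UnR at h ⊢
  omega

/-- Less below. -/
lemma UnR.anti [M.Finite] {R R' : Set α} {A : Set V} (h : UnR M S ends R A) (hR : R' ⊆ R) :
    UnR M S ends R' A := by
  have h1 := rk_submod M (R' ∪ ins S ends A) R
  have h2 : BIC.rk M R' ≤ BIC.rk M ((R' ∪ ins S ends A) ∩ R) :=
    rk_mono M (subset_inter subset_union_left hR)
  have h3 : BIC.rk M (R ∪ ins S ends A) ≤ BIC.rk M (R' ∪ ins S ends A ∪ R) :=
    rk_mono M (union_subset subset_union_right (subset_union_right.trans subset_union_left))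
  unfold UnR at h ⊢
  omega

/-- **Splitting** (submodularity). -/
lemma UnR.modu [M.Finite] (hF : Frm M S ends) {R : Set α} (hR : R ⊆ S) {A B : Set V}
    (hA : A.Finite) (hB : B.Finite) (hne : (A ∩ B).Nonempty) (hc : VConn S ends (A ∩ B))
    (hAB : ins S ends (A ∪ B) ⊆ ins S ends A ∪ ins S ends B) (hRA : Avd ends R A)
    (h : UnR M S ends R (A ∪ B)) : UnR M S ends R A ∨ UnR M S ends R B := by
  by_contra hcon
  rw [not_or] at hcon
  unfold UnR at hcon h
  have h1 := rk_submod M (R ∪ ins S ends A) (R ∪ ins S ends B)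
  have h2 : BIC.rk M (R ∪ ins S ends (A ∩ B)) ≤
      BIC.rk M ((R ∪ ins S ends A) ∩ (R ∪ ins S ends B)) :=
    rk_mono M (subset_inter (union_subset_union_right _ (ins_mono inter_subset_left))
      (union_subset_union_right _ (ins_mono inter_subset_right)))
  have h3 : BIC.rk M (R ∪ ins S ends (A ∪ B)) ≤
      BIC.rk M (R ∪ ins S ends A ∪ (R ∪ ins S ends B)) := by
    refine rk_mono M (union_subset (subset_union_left.trans subset_union_left) ?_)
    refine hAB.trans (union_subset ?_ ?_)
    · exact subset_union_right.trans subset_union_left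
    · exact subset_union_right.trans subset_union_right
  have h4 := hF.conn_over hR (hA.subset inter_subset_left) hne hc
    (hRA.mono (subset_refl _) inter_subset_left)
  have h5 := ncard_union_add_ncard_inter A B hA hB
  omega

/-! ### Families -/

lemma rk_union_two [M.Finite] (X Y : Set α) :
    BIC.rk M (X ∪ Y) ≤ BIC.rk M X + BIC.rk M Y := by
  have := rk_submod M X Y
  omega

lemma Frm.rk_ins [M.Finite] (hF : Frm M S ends) {W : Set V} (hW : W.Finite) :
    BIC.rk M (ins S ends W) ≤ W.ncard := by
  have h := hF.rk W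
  rw [← cast_rk, ← hW.cast_ncard_eq] at h
  exact_mod_cast h

/-- The elements inside the sets of a family. -/
def Ufm (S : Set α) (ends : α → Sym2 V) (I : Finset ι) (F : ι → Set V) : Set α :=
  ⋃ i ∈ I, ins S ends (F i)

lemma mem_Ufm {I : Finset ι} {F : ι → Set V} {e : α} :
    e ∈ Ufm S ends I F ↔ ∃ i ∈ I, e ∈ ins S ends (F i) := by
  simp only [Ufm, mem_iUnion, exists_prop]

lemma Ufm_sub (I : Finset ι) (F : ι → Set V) : Ufm S ends I F ⊆ S := by
  intro e he
  obtain ⟨i, _, h⟩ := mem_Ufm.1 he
  exact h.1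

lemma Ufm_mono {I J : Finset ι} {F G : ι → Set V} (hIJ : I ⊆ J) (h : ∀ i ∈ I, F i ⊆ G i) :
    Ufm S ends I F ⊆ Ufm S ends J G := by
  intro e he
  obtain ⟨i, hi, h1⟩ := mem_Ufm.1 he
  exact mem_Ufm.2 ⟨i, hIJ hi, ins_mono (h i hi) h1⟩

lemma Ufm_insert [DecidableEq ι] (i : ι) (I : Finset ι) (F : ι → Set V) :
    Ufm S ends (insert i I) F = Ufm S ends I F ∪ ins S ends (F i) := by
  ext e
  rw [mem_union, mem_Ufm, mem_Ufm]
  constructor
  · rintro ⟨j, hj, h⟩
    rcases Finset.mem_insert.1 hj with rfl | hj
    · exact Or.inr h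
    · exact Or.inl ⟨j, hj, h⟩
  · rintro (⟨j, hj, h⟩ | h)
    · exact ⟨j, Finset.mem_insert_of_mem hj, h⟩
    · exact ⟨i, Finset.mem_insert_self _ _, h⟩

lemma Ufm_congr {I : Finset ι} {F G : ι → Set V} (h : ∀ i ∈ I, F i = G i) :
    Ufm S ends I F = Ufm S ends I G := by
  ext e
  rw [mem_Ufm, mem_Ufm]
  constructor
  · rintro ⟨i, hi, h1⟩
    exact ⟨i, hi, by rwa [← h i hi]⟩
  · rintro ⟨i, hi, h1⟩
    exact ⟨i, hi, by rwa [h i hi]⟩

lemma Ufm_avd {I : Finset ι} {F : ι → Set V} {B : Set V} (h : ∀ i ∈ I, Disjoint (F i) B) :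
    Avd ends (Ufm S ends I F) B := by
  intro e he v hv hvB
  obtain ⟨i, hi, h1⟩ := mem_Ufm.1 he
  exact Set.disjoint_left.1 (h i hi) (h1.2 v hv) hvB

lemma JU_def {I : Finset ι} {F : ι → Set V} : JU M S ends I F ↔
    ∑ i ∈ I, (F i).ncard ≤ BIC.rk M (Ufm S ends I F) := Iff.rfl

lemma JU.congr {I : Finset ι} {F G : ι → Set V} (h : ∀ i ∈ I, F i = G i)
    (hJ : JU M S ends I F) : JU M S ends I G := by
  have h1 : ∑ i ∈ I, (F i).ncard = ∑ i ∈ I, (G i).ncard :=
    Finset.sum_congr rfl fun i hi => by rw [h i hi]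
  rw [JU_def, ← Ufm_congr h, ← h1]
  exact hJ

lemma Frm.rk_Ufm [M.Finite] (hF : Frm M S ends) (I : Finset ι) {F : ι → Set V}
    (hf : ∀ i ∈ I, (F i).Finite) : BIC.rk M (Ufm S ends I F) ≤ ∑ i ∈ I, (F i).ncard := by
  classical
  induction I using Finset.induction_on with
  | empty =>
    have h1 : Ufm S ends (∅ : Finset ι) F = ∅ := by
      ext e
      rw [mem_Ufm]
      simp
    have h2 := rk_le_ncard M (finite_empty (α := α))
    rw [ncard_empty] at h2
    rw [h1, Finset.sum_empty]
    exact h2
  | insert i I hi ih =>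
    rw [Ufm_insert, Finset.sum_insert hi]
    have h1 := rk_union_two (M := M) (Ufm S ends I F) (ins S ends (F i))
    have h2 := ih fun j hj => hf j (Finset.mem_insert_of_mem hj)
    have h3 := hF.rk_ins (hf i (Finset.mem_insert_self _ _))
    omega

/-- Subfamilies. -/
lemma JU.restr [M.Finite] (hF : Frm M S ends) {I J : Finset ι} {F : ι → Set V}
    (hf : ∀ i ∈ I, (F i).Finite) (hJI : J ⊆ I) (h : JU M S ends I F) : JU M S ends J F := by
  classical
  rw [JU_def] at h ⊢
  have h1 : Ufm S ends I F ⊆ Ufm S ends J F ∪ Ufm S ends (I \ J) F := by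
    intro e he
    obtain ⟨i, hi, h1⟩ := mem_Ufm.1 he
    by_cases hiJ : i ∈ J
    · exact Or.inl (mem_Ufm.2 ⟨i, hiJ, h1⟩)
    · exact Or.inr (mem_Ufm.2 ⟨i, Finset.mem_sdiff.2 ⟨hi, hiJ⟩, h1⟩)
  have h2 := rk_mono M h1
  have h3 := rk_union_two (M := M) (Ufm S ends J F) (Ufm S ends (I \ J) F)
  have h4 := hF.rk_Ufm (I \ J) (F := F) fun i hi => hf i (Finset.mem_sdiff.1 hi).1
  have h5 := Finset.sum_sdiff (f := fun i => (F i).ncard) hJI
  omega

/-- One more set. -/
lemma JU.insert_iff [M.Finite] [DecidableEq ι] (hF : Frm M S ends) {I : Finset ι} {i : ι}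
    (hi : i ∉ I) {F : ι → Set V} (hf : ∀ j ∈ insert i I, (F j).Finite) :
    JU M S ends (insert i I) F ↔ JU M S ends I F ∧ UnR M S ends (Ufm S ends I F) (F i) := by
  have h2 := hF.rk_Ufm I (F := F) fun j hj => hf j (Finset.mem_insert_of_mem hj)
  constructor
  · intro h
    have h1 := h.restr hF hf (Finset.subset_insert i I)
    refine ⟨h1, ?_⟩
    rw [JU_def] at h h1
    rw [Ufm_insert, Finset.sum_insert hi] at h
    unfold UnR
    omega
  · rintro ⟨h, h1⟩
    rw [JU_def] at h ⊢
    rw [Ufm_insert, Finset.sum_insert hi]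
    unfold UnR at h1
    omega

lemma JU.rel [M.Finite] [DecidableEq ι] (hF : Frm M S ends) {I : Finset ι} {i : ι}
    (hi : i ∈ I) {F : ι → Set V} (hf : ∀ j ∈ I, (F j).Finite) :
    JU M S ends I F ↔
      JU M S ends (I.erase i) F ∧ UnR M S ends (Ufm S ends (I.erase i) F) (F i) := by
  have h1 := JU.insert_iff (M := M) (F := F) hF (Finset.notMem_erase i I) (by
    rw [Finset.insert_erase hi]; exact hf)
  rw [Finset.insert_erase hi] at h1
  exact h1

/-- One set. -/
lemma JU.single [M.Finite] (hF : Frm M S ends) {I : Finset ι} {F : ι → Set V}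
    (hf : ∀ i ∈ I, (F i).Finite) (h : JU M S ends I F) {i : ι} (hi : i ∈ I) :
    (F i).ncard ≤ BIC.rk M (ins S ends (F i)) := by
  have h1 := h.restr hF hf (Finset.singleton_subset_iff.2 hi)
  have h2 : Ufm S ends {i} F = ins S ends (F i) := by
    ext e
    rw [mem_Ufm]
    simp
  rw [JU_def, h2, Finset.sum_singleton] at h1
  exact h1

/-- **(mono)** One set is enlarged. -/
lemma JU.update_mono [M.Finite] [DecidableEq ι] (hF : Frm M S ends) {I : Finset ι} {i : ι}
    (hi : i ∈ I) {F : ι → Set V} (hf : ∀ j ∈ I, (F j).Finite) {B : Set V} (hB : B.Finite)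
    (hFB : F i ⊆ B) (hne : (F i).Nonempty) (hc : VConn S ends B)
    (hd : ∀ j ∈ I, j ≠ i → Disjoint (F j) B) (h : JU M S ends I F) :
    JU M S ends I (Function.update F i B) := by
  have e0 : ∀ j ∈ I.erase i, F j = Function.update F i B j := by
    intro j hj
    rw [Function.update_of_ne (Finset.mem_erase.1 hj).1]
  rw [JU.rel hF hi (F := Function.update F i B)]
  · obtain ⟨h1, h2⟩ := (JU.rel hF hi hf).1 h
    refine ⟨h1.congr e0, ?_⟩
    rw [← Ufm_congr e0, Function.update_self]
    exact h2.mono hF (Ufm_sub _ _) hB hFB hne hc (Ufm_avd fun j hj =>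
      hd j (Finset.mem_erase.1 hj).2 (Finset.mem_erase.1 hj).1)
  · intro j hj
    by_cases hji : j = i
    · rw [hji, Function.update_self]
      exact hB
    · rw [Function.update_of_ne hji]
      exact hf j hj

/-- **(modu)** One set is split. -/
lemma JU.update_modu [M.Finite] [DecidableEq ι] (hF : Frm M S ends) {I : Finset ι} {i : ι}
    (hi : i ∈ I) {F : ι → Set V} (hf : ∀ j ∈ I, (F j).Finite) {A B : Set V}
    (hAB : F i = A ∪ B) (hne : (A ∩ B).Nonempty) (hc : VConn S ends (A ∩ B))
    (hins : ins S ends (A ∪ B) ⊆ ins S ends A ∪ ins S ends B)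
    (hd : ∀ j ∈ I, j ≠ i → Disjoint (F j) (F i)) (h : JU M S ends I F) :
    JU M S ends I (Function.update F i A) ∨ JU M S ends I (Function.update F i B) := by
  have hfi := hf i hi
  rw [hAB] at hfi
  have hAf : A.Finite := hfi.subset subset_union_left
  have hBf : B.Finite := hfi.subset subset_union_right
  have e0 : ∀ X : Set V, ∀ j ∈ I.erase i, F j = Function.update F i X j := by
    intro X j hj
    rw [Function.update_of_ne (Finset.mem_erase.1 hj).1]
  have hfX : ∀ X : Set V, X.Finite → ∀ j ∈ I, (Function.update F i X j).Finite := by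
    intro X hX j hj
    by_cases hji : j = i
    · rw [hji, Function.update_self]
      exact hX
    · rw [Function.update_of_ne hji]
      exact hf j hj
  obtain ⟨h1, h2⟩ := (JU.rel hF hi hf).1 h
  rw [hAB] at h2
  have hav : Avd ends (Ufm S ends (I.erase i) F) A := Ufm_avd fun j hj => by
    have := hd j (Finset.mem_erase.1 hj).2 (Finset.mem_erase.1 hj).1
    rw [hAB] at this
    exact this.mono_right subset_union_left
  rw [JU.rel hF hi (hfX A hAf), JU.rel hF hi (hfX B hBf), ← Ufm_congr (e0 A), ← Ufm_congr (e0 B),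
    Function.update_self, Function.update_self]
  rcases h2.modu hF (Ufm_sub _ _) hAf hBf hne hc hins hav with h3 | h3
  · exact Or.inl ⟨h1.congr (e0 A), h3⟩
  · exact Or.inr ⟨h1.congr (e0 B), h3⟩

/-- **(loc)** Smaller sets, each of them unbalanced over the others. -/
lemma JU.loc [M.Finite] [DecidableEq ι] (hF : Frm M S ends) {I : Finset ι} {F A : ι → Set V}
    (hf : ∀ j ∈ I, (F j).Finite) (hAF : ∀ i ∈ I, A i ⊆ F i)
    (h : ∀ i ∈ I, UnR M S ends (Ufm S ends (I.erase i) F) (A i)) : JU M S ends I A := by
  have key : ∀ J : Finset ι, J ⊆ I → JU M S ends J A := by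
    intro J
    induction J using Finset.induction_on with
    | empty =>
      intro _
      rw [JU_def, Finset.sum_empty]
      exact Nat.zero_le _
    | insert j J hj ih =>
      intro hJ
      have hjI : j ∈ I := hJ (Finset.mem_insert_self _ _)
      have hJI : J ⊆ I := fun x hx => hJ (Finset.mem_insert_of_mem hx)
      rw [JU.insert_iff hF hj fun x hx => (hf x (hJ hx)).subset (hAF x (hJ hx))]
      refine ⟨ih hJI, (h j hjI).anti (Ufm_mono ?_ fun i hi => hAF i (hJI hi))⟩
      intro x hx
      refine Finset.mem_erase.2 ⟨?_, hJI hx⟩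
      rintro rfl
      exact hj hx
  exact key I (Finset.Subset.refl _)

lemma JU.unR_of_update [M.Finite] [DecidableEq ι] (hF : Frm M S ends) {I : Finset ι} {i : ι}
    (hi : i ∈ I) {F : ι → Set V} (hf : ∀ j ∈ I, (F j).Finite) {A : Set V} (hA : A.Finite)
    (h : JU M S ends I (Function.update F i A)) : UnR M S ends (Ufm S ends (I.erase i) F) A := by
  have e0 : ∀ j ∈ I.erase i, F j = Function.update F i A j := by
    intro j hj
    rw [Function.update_of_ne (Finset.mem_erase.1 hj).1]
  have h1 := ((JU.rel hF hi (F := Function.update F i A) (by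
    intro j hj
    by_cases hji : j = i
    · rw [hji, Function.update_self]
      exact hA
    · rw [Function.update_of_ne hji]
      exact hf j hj)).1 h).2
  rw [← Ufm_congr e0, Function.update_self] at h1
  exact h1

/-- All the sets are enlarged at once. -/
lemma JU.mono_all [M.Finite] (hF : Frm M S ends) {I : Finset ι} {F G : ι → Set V}
    (hG : ∀ i ∈ I, (G i).Finite) (hFG : ∀ i ∈ I, F i ⊆ G i) (hne : ∀ i ∈ I, (F i).Nonempty)
    (hc : ∀ i ∈ I, VConn S ends (G i)) (hd : ∀ i ∈ I, ∀ j ∈ I, i ≠ j → Disjoint (G i) (G j))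
    (h : JU M S ends I F) : JU M S ends I G := by
  classical
  have key : ∀ J : Finset ι, J ⊆ I →
      JU M S ends I (fun i => if i ∈ J then G i else F i) := by
    intro J
    induction J using Finset.induction_on with
    | empty =>
      intro _
      refine h.congr fun i _ => ?_
      simp
    | insert j J hj ih =>
      intro hJ
      have hjI : j ∈ I := hJ (Finset.mem_insert_self _ _)
      have h1 := ih fun x hx => hJ (Finset.mem_insert_of_mem hx)
      have h2 := h1.update_mono hF hjI (B := G j) (fun i hi => by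
        split_ifs
        · exact hG i hi
        · exact (hG i hi).subset (hFG i hi)) (hG j hjI)
        (by simp only [if_neg hj]; exact hFG j hjI) (by simp only [if_neg hj]; exact hne j hjI)
        (hc j hjI) (fun i hi hij => by
          have h3 := hd i hi j hjI hij
          split_ifs
          · exact h3
          · exact h3.mono_left (hFG i hi))
      refine h2.congr fun i _ => ?_
      by_cases hij : i = j
      · rw [hij, Function.update_self, if_pos (Finset.mem_insert_self _ _)]
      · rw [Function.update_of_ne hij]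
        simp only [Finset.mem_insert, hij, false_or]
  refine (key I (Finset.Subset.refl _)).congr fun i hi => ?_
  rw [if_pos hi]

/-- Reindexing. -/
lemma JU.image {ι' : Type*} [DecidableEq ι] {I : Finset ι'} {f : ι' → ι}
    (hinj : Set.InjOn f (I : Set ι')) {F : ι → Set V} :
    JU M S ends (I.image f) F ↔ JU M S ends I (fun i => F (f i)) := by
  have h1 : Ufm S ends (I.image f) F = Ufm S ends I (fun i => F (f i)) := by
    ext e
    rw [mem_Ufm, mem_Ufm]
    simp only [Finset.mem_image]
    constructor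
    · rintro ⟨_, ⟨i, hi, rfl⟩, h⟩
      exact ⟨i, hi, h⟩
    · rintro ⟨i, hi, h⟩
      exact ⟨f i, ⟨i, hi, rfl⟩, h⟩
  rw [JU_def, JU_def, h1, Finset.sum_image hinj]

lemma exists_arb {W : Set V} (hW : W.Finite) (hne : W.Nonempty) (hc : VConn S ends W) :
    ∃ τ, Arb S ends W τ := by
  obtain ⟨b, hb⟩ := hne
  obtain ⟨E, _, _, _, h4, _⟩ := grow hW (singleton_subset_iff.2 hb) (singleton_nonempty b) hc
  exact ⟨_, h4 _ (Arb.single b)⟩

/-- **Joints**: trees and one more element in every set, independent together. -/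
theorem JU.joints [M.Finite] (hF : Frm M S ends) {I : Finset ι} (hI : I.Nonempty)
    {F : ι → Set V} (hf : ∀ i ∈ I, (F i).Finite) (hne : ∀ i ∈ I, (F i).Nonempty)
    (hc : ∀ i ∈ I, VConn S ends (F i)) (hd : ∀ i ∈ I, ∀ j ∈ I, i ≠ j → Disjoint (F i) (F j))
    (h : JU M S ends I F) : ∃ (τ : ι → Set α) (j : ι → α), (∀ i ∈ I, Arb S ends (F i) (τ i)) ∧
      (∀ i ∈ I, j i ∈ ins S ends (F i) ∧ j i ∉ τ i) ∧
      M.Indep (⋃ i ∈ I, insert (j i) (τ i)) := by
  classical
  have hα : Nonempty α := by
    obtain ⟨i, hi⟩ := hI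
    have h1 := h.single hF hf hi
    have h2 : 0 < (F i).ncard := (ncard_pos (hf i hi)).2 (hne i hi)
    by_contra hcon
    rw [not_nonempty_iff] at hcon
    have h3 : ins S ends (F i) = ∅ := eq_empty_of_isEmpty _
    have h4 := rk_le_ncard M (finite_empty (α := α))
    rw [ncard_empty] at h4
    rw [h3] at h1
    omega
  have key : ∀ J : Finset ι, J ⊆ I → ∃ (τ : ι → Set α) (j : ι → α),
      (∀ i ∈ J, Arb S ends (F i) (τ i)) ∧ (∀ i ∈ J, j i ∈ ins S ends (F i) ∧ j i ∉ τ i) ∧
      M.Indep (⋃ i ∈ J, insert (j i) (τ i)) ∧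
      (⋃ i ∈ J, insert (j i) (τ i)).ncard = ∑ i ∈ J, (F i).ncard := by
    intro J
    induction J using Finset.induction_on with
    | empty =>
      intro _
      refine ⟨fun _ => ∅, fun _ => Classical.choice hα, by simp, by simp, ?_, ?_⟩
      · simp
      · simp
    | insert a J ha ih =>
      intro hJ
      have haI : a ∈ I := hJ (Finset.mem_insert_self _ _)
      have hJI : J ⊆ I := fun x hx => hJ (Finset.mem_insert_of_mem hx)
      obtain ⟨τ, j, h1, h2, h3, h4⟩ := ih hJI
      set T : Set α := ⋃ i ∈ J, insert (j i) (τ i) with hT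
      have hTU : T ⊆ Ufm S ends J F := by
        intro e he
        obtain ⟨i, hi, h5⟩ := mem_iUnion₂.1 he
        refine mem_Ufm.2 ⟨i, hi, ?_⟩
        rcases h5 with rfl | h5
        · exact (h2 i hi).1
        · exact (h1 i hi).1 h5
      have hTf : T.Finite := M.ground_finite.subset h3.subset_ground
      obtain ⟨τa, hτa⟩ := exists_arb (hf a haI) (hne a haI) (hc a haI)
      obtain ⟨b, hb⟩ := hne a haI
      have hav : Avd ends T (F a) := (Ufm_avd (S := S) (I := J) (F := F) fun i hi =>
        hd i (hJI hi) a haI (by rintro rfl; exact ha hi)).mono hTU (subset_refl _)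
      have h5 := hF.indep_arb (hf a haI) hτa hb h3 (hTU.trans (Ufm_sub _ _))
        (fun e he v hv hvF => absurd hvF (hav e he v hv))
      have hTτ : Disjoint T τa := by
        rw [Set.disjoint_left]
        intro e he he'
        obtain ⟨v, hv⟩ := exists_mem_ends ends e
        exact hav e he v hv ((hτa.1 he').2 v hv)
      obtain ⟨hτf, hτc⟩ := arb_ncard (hf a haI) hτa
      have h6 : (T ∪ τa).ncard + 1 = (F a).ncard + ∑ i ∈ J, (F i).ncard := by
        rw [ncard_union_eq hTτ hTf hτf, h4]
        omega
      have hJU := h.restr hF hf hJ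
      rw [JU_def, Ufm_insert, Finset.sum_insert ha] at hJU
      -- the previous sets are spanned
      have h7 : Ufm S ends J F ⊆ M.closure T := by
        refine span_of_card h3 hTU ((Ufm_sub _ _).trans hF.sub) ?_
        rw [h4]
        exact hF.rk_Ufm J fun i hi => hf i (hJI hi)
      obtain ⟨e, he, hecl⟩ : ∃ e ∈ Ufm S ends J F ∪ ins S ends (F a), e ∉ M.closure (T ∪ τa) := by
        by_contra hcon
        push Not at hcon
        have h8 : BIC.rk M (Ufm S ends J F ∪ ins S ends (F a)) ≤ BIC.rk M (T ∪ τa) := by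
          rw [← rk_closure (M := M) (T ∪ τa)]
          exact rk_mono M hcon
        rw [rk_indep h5] at h8
        omega
      have hea : e ∈ ins S ends (F a) := by
        rcases he with he | he
        · exact absurd (M.closure_subset_closure subset_union_left (h7 he)) hecl
        · exact he
      have heE : e ∈ M.E := hF.sub hea.1
      have heT : e ∉ T ∪ τa := fun h8 => hecl (M.subset_closure _ h5.subset_ground h8)
      have h8 : M.Indep (insert e (T ∪ τa)) := (h5.notMem_closure_iff_of_notMem heT heE).1 hecl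
      have hne' : ∀ i ∈ J, i ≠ a := by
        rintro i hi rfl
        exact ha hi
      have e1 : (⋃ i ∈ insert a J, insert (Function.update j a e i) (Function.update τ a τa i)) =
          insert e (T ∪ τa) := by
        ext f
        simp only [mem_iUnion, exists_prop, mem_insert_iff, mem_union, Finset.mem_insert, hT]
        constructor
        · rintro ⟨i, rfl | hi, h9⟩
          · rw [Function.update_self, Function.update_self] at h9
            rcases h9 with h9 | h9
            · exact Or.inl h9
            · exact Or.inr (Or.inr h9)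
          · rw [Function.update_of_ne (hne' i hi), Function.update_of_ne (hne' i hi)] at h9
            exact Or.inr (Or.inl ⟨i, hi, h9⟩)
        · rintro (h9 | ⟨i, hi, h9⟩ | h9)
          · exact ⟨a, Or.inl rfl, by rw [Function.update_self]; exact Or.inl h9⟩
          · refine ⟨i, Or.inr hi, ?_⟩
            rw [Function.update_of_ne (hne' i hi), Function.update_of_ne (hne' i hi)]
            exact h9
          · exact ⟨a, Or.inl rfl, by
              rw [Function.update_self, Function.update_self]; exact Or.inr h9⟩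
      refine ⟨Function.update τ a τa, Function.update j a e, ?_, ?_, ?_, ?_⟩
      · intro i hi
        rcases Finset.mem_insert.1 hi with rfl | hi
        · rw [Function.update_self]
          exact hτa
        · rw [Function.update_of_ne (hne' i hi)]
          exact h1 i hi
      · intro i hi
        rcases Finset.mem_insert.1 hi with rfl | hi
        · rw [Function.update_self, Function.update_self]
          exact ⟨hea, fun h9 => heT (Or.inr h9)⟩
        · rw [Function.update_of_ne (hne' i hi), Function.update_of_ne (hne' i hi)]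
          exact h2 i hi
      · rw [e1]
        exact h8
      · rw [e1, ncard_insert_of_notMem heT (hTf.union hτf), h6, Finset.sum_insert ha]
  obtain ⟨τ, j, h1, h2, h3, _⟩ := key I (Finset.Subset.refl _)
  exact ⟨τ, j, h1, h2, h3⟩

end

end EN
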