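import Pool.Agent.EN.LinkDef

/-!
# Pruning the contraction set
-/

open Set BIC BICS
open scoped Matroid

namespace EN

universe u

variable {α : Type u}

/-- The rank of a set with a basis. -/
lemma rk_isBasis {M : Matroid α} {I X : Set α} (h : M.IsBasis I X) : rk M X = I.ncard := by
  unfold rk
  rw [← h.encard_eq_eRk]
  rfl

/-- A circuit inside `N` lies on one side of a separation of `M | N`. -/
lemma circuit_side {M : Matroid α} [M.Finite] {N X K : Set α} (hX : X ⊆ N) (hN : N ⊆ M.E)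
    (h : rk M X + rk M (N \ X) ≤ rk M N) (hK : M.IsCircuit K) (hKN : K ⊆ N) :
    K ⊆ X ∨ K ⊆ N \ X := by
  by_contra hcon
  push Not at hcon
  obtain ⟨h1, h2⟩ := hcon
  obtain ⟨a, haK, haX⟩ := not_subset.mp h1
  obtain ⟨b, hbK, hbX⟩ := not_subset.mp h2
  have hbX' : b ∈ X := by
    by_contra hb
    exact hbX ⟨hKN hbK, hb⟩
  have hi1 : M.Indep (K ∩ X) := hK.ssubset_indep ⟨inter_subset_left, fun hh => haX (hh haK).2⟩
  have hi2 : M.Indep (K ∩ (N \ X)) :=
    hK.ssubset_indep ⟨inter_subset_left, fun hh => hbX (hh hbK).2⟩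
  obtain ⟨I, hI, hKI⟩ := hi1.subset_isBasis_of_subset inter_subset_right (hX.trans hN)
  obtain ⟨I', hI', hKI'⟩ := hi2.subset_isBasis_of_subset inter_subset_right
    (sdiff_subset.trans hN)
  have hfin : M.E.Finite := M.ground_finite
  have hIE : I ⊆ M.E := hI.indep.subset_ground
  have hI'E : I' ⊆ M.E := hI'.indep.subset_ground
  have hbI : b ∈ I := hKI ⟨hbK, hbX'⟩
  have hKsub : K ⊆ I ∪ I' := by
    intro x hx
    by_cases hxX : x ∈ X
    · exact Or.inl (hKI ⟨hx, hxX⟩)
    · exact Or.inr (hKI' ⟨hx, hKN hx, hxX⟩)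
  have hcl1 : M.closure ((I ∪ I') \ {b}) = M.closure (I ∪ I') := by
    apply le_antisymm (M.closure_subset_closure sdiff_subset)
    have h3 : I ∪ I' ⊆ M.closure ((I ∪ I') \ {b}) := by
      intro x hx
      by_cases hxb : x = b
      · subst hxb
        exact M.closure_subset_closure (sdiff_subset_sdiff_left hKsub)
          (hK.mem_closure_sdiff_singleton_of_mem hbK)
      · exact M.mem_closure_of_mem ⟨hx, hxb⟩ (sdiff_subset.trans (union_subset hIE hI'E))
    exact M.closure_subset_closure_of_subset_closure h3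
  have hNsub : N ⊆ M.closure ((I ∪ I') \ {b}) := by
    rw [hcl1]
    intro x hx
    by_cases hxX : x ∈ X
    · exact M.closure_subset_closure subset_union_left (hI.subset_closure hxX)
    · exact M.closure_subset_closure subset_union_right (hI'.subset_closure ⟨hx, hxX⟩)
  have hr1 : rk M N ≤ rk M ((I ∪ I') \ {b}) := by
    rw [← rk_closure ((I ∪ I') \ {b})]
    exact rk_mono _ hNsub
  have hfU : ((I ∪ I') \ {b}).Finite := hfin.subset (sdiff_subset.trans (union_subset hIE hI'E))
  have hr2 : rk M ((I ∪ I') \ {b}) ≤ ((I ∪ I') \ {b}).ncard := rk_le_ncard _ hfU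
  have hr3 : ((I ∪ I') \ {b}).ncard + 1 = (I ∪ I').ncard :=
    ncard_sdiff_singleton_add_one (Or.inl hbI) (hfin.subset (union_subset hIE hI'E))
  have hr4 : (I ∪ I').ncard ≤ I.ncard + I'.ncard := ncard_union_le _ _
  have hr5 := rk_isBasis hI
  have hr6 := rk_isBasis hI'
  omega

/-- A circuit inside the closure of an independent set that is skew to `D₀` stays a circuit. -/
lemma circuit_contract {M : Matroid α} [M.Finite] {I D₀ : Set α} {e : α} (hD : D₀ ⊆ M.E)
    (hi : (M ／ D₀).Indep I) (he : e ∈ M.closure I) (heI : e ∉ I) (heD : e ∉ D₀) :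
    (M ／ D₀).IsCircuit (M.fundCircuit e I) := by
  have hiM : M.Indep I := hi.of_contract
  have hID : Disjoint I D₀ := by
    have := hi.subset_ground
    rw [Matroid.contract_ground] at this
    exact disjoint_left.mpr fun x hx hxD => (this hx).2 hxD
  have hK : M.IsCircuit (M.fundCircuit e I) := hiM.fundCircuit_isCircuit he heI
  have hKsub : M.fundCircuit e I ⊆ insert e I := M.fundCircuit_subset_insert e I
  have hKD : Disjoint D₀ (M.fundCircuit e I) := by
    refine disjoint_left.mpr fun x hxD hx => ?_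
    rcases hKsub hx with rfl | hx'
    · exact heD hxD
    · exact disjoint_left.mp hID hx' hxD
  obtain ⟨B, hB⟩ := M.exists_isBasis D₀ hD
  have hIB : M.Indep (I ∪ B) := (hB.contract_indep_iff.mp hi).1
  have heIB : e ∉ I ∪ B := by
    rintro (h | h)
    · exact heI h
    · exact heD (hB.subset h)
  have heclIB : e ∈ M.closure (I ∪ B) := M.closure_subset_closure subset_union_left he
  have hKeq : M.fundCircuit e I = M.fundCircuit e (I ∪ B) :=
    hK.eq_fundCircuit_of_subset hIB (hKsub.trans (insert_subset_insert subset_union_left))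
  rw [Matroid.isCircuit_iff_dep_forall_sdiff_singleton_indep]
  refine ⟨hK.contract_dep hKD, fun x hx => ?_⟩
  rw [hB.contract_indep_iff]
  refine ⟨?_, hKD.mono_right sdiff_subset⟩
  have hx' : x ∈ M.fundCircuit e (I ∪ B) := hKeq ▸ hx
  rw [hIB.mem_fundCircuit_iff heclIB heIB] at hx'
  refine hx'.subset ?_
  rintro y (⟨hy, hyx⟩ | hy)
  · refine ⟨?_, hyx⟩
    rcases hKsub hy with rfl | hy'
    · exact Or.inl rfl
    · exact Or.inr (Or.inl hy')
  · refine ⟨Or.inr (Or.inr hy), ?_⟩
    rintro rfl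
    exact disjoint_left.mp hKD (hB.subset hy) hx

/-- The grid is connected: a property that is the same on neighbouring cells is constant. -/
lemma cl_induction {t : ℕ} {P : ℕ × ℕ → Prop} (h : ∀ c c', Gad.Nb t c c' → (P c ↔ P c'))
    {c : ℕ × ℕ} (hc : c ∈ Gad.Cl t) : P c ↔ P (0, 0) := by
  obtain ⟨a, b⟩ := c
  obtain ⟨ha, hb⟩ := hc
  simp only at ha hb
  have h1 : ∀ b', b' < t → (P (a, b') ↔ P (a, 0)) := by
    intro b'
    induction b' with
    | zero => intro _; rfl
    | succ n ih =>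
      intro hn
      rw [← ih (by omega)]
      refine (h (a, n) (a, n + 1) ⟨⟨ha, ?_⟩, ⟨ha, hn⟩, Or.inl ⟨rfl, Or.inl rfl⟩⟩).symm
      simp only
      omega
  have h2 : ∀ a', a' < t → (P (a', 0) ↔ P (0, 0)) := by
    intro a'
    induction a' with
    | zero => intro _; rfl
    | succ n ih =>
      intro hn
      rw [← ih (by omega)]
      refine (h (n, 0) (n + 1, 0) ⟨⟨?_, ?_⟩, ⟨hn, ?_⟩, Or.inr ⟨rfl, Or.inl rfl⟩⟩).symm <;>
        simp only <;> omega
  rw [h1 b hb, h2 a ha]

/-- **Pruning.**  `C` can be made smaller so that the group is connected; the grid with joints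
stays. -/
theorem prune {M : Matroid α} [M.Finite] {C S D₀ : Set α} {t : ℕ} {j : ℕ × ℕ → α}
    {ed : ℕ × ℕ → ℕ × ℕ → α} (ht : 1 ≤ t) (hD : D₀ ⊆ M.E) (hDN : Disjoint D₀ (C ∪ S))
    (hi : (M ／ D₀).Indep (C ∪ j '' Gad.Cl t)) (hCS : Disjoint C S)
    (h1 : Gad.JGrid (M ／ C) S t j ed) (h2 : Gad.JGrid (M ／ D₀ ／ C) S t j ed) :
    ∃ C' ⊆ C, ∃ S' ⊆ S, Gad.JGrid (M ／ C') S' t j ed ∧ ConnR (M ／ D₀) (C' ∪ S') ∧
      (M ／ D₀ ／ C').Indep (j '' Gad.Cl t) := by
  classical
  have hiM : M.Indep (C ∪ j '' Gad.Cl t) := hi.of_contract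
  have hJS : j '' Gad.Cl t ⊆ S := h1.basis.subset
  have hCJ : Disjoint C (j '' Gad.Cl t) := hCS.mono_right hJS
  set K : ℕ × ℕ → ℕ × ℕ → Set α := fun c c' => M.fundCircuit (ed c c') ({j c, j c'} ∪ C) with hKdef
  have hjc : ∀ {c}, c ∈ Gad.Cl t → j c ∈ j '' Gad.Cl t := fun {c} hc => ⟨c, hc, rfl⟩
  have hsub : ∀ c c', Gad.Nb t c c' → ({j c, j c'} ∪ C : Set α) ⊆ C ∪ j '' Gad.Cl t := by
    intro c c' hn
    rintro x ((rfl | rfl) | hx)
    · exact Or.inr (hjc hn.1)
    · exact Or.inr (hjc hn.2.1)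
    · exact Or.inl hx
  have heM : ∀ c c', Gad.Nb t c c' → ed c c' ∈ M.closure ({j c, j c'} ∪ C) := by
    intro c c' hn
    have := h1.h1 c c' hn
    rw [Matroid.contract_closure_eq] at this
    exact this.1
  have heC : ∀ c c', Gad.Nb t c c' → ed c c' ∉ C := fun c c' hn hh =>
    disjoint_left.mp hCS hh (h1.mem c c' hn)
  have heJ : ∀ c c', Gad.Nb t c c' → ed c c' ∉ j '' Gad.Cl t := by
    intro c c' hn
    have hGJ : (M ／ C).Indep (j '' Gad.Cl t) := h1.basis.indep
    have : (M ／ C).Finite := ⟨M.ground_finite.subset sdiff_subset⟩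
    exact h1.ed_notMem hGJ Subset.rfl hn
  have heI : ∀ c c', Gad.Nb t c c' → ed c c' ∉ ({j c, j c'} ∪ C : Set α) := by
    intro c c' hn hh
    rcases hsub c c' hn hh with h | h
    · exact heC c c' hn h
    · exact heJ c c' hn h
  have heD : ∀ c c', Gad.Nb t c c' → ed c c' ∉ D₀ := fun c c' hn hh =>
    disjoint_left.mp hDN hh (Or.inr (h1.mem c c' hn))
  have hKc : ∀ c c', Gad.Nb t c c' → M.IsCircuit (K c c') := fun c c' hn =>
    (hiM.subset (hsub c c' hn)).fundCircuit_isCircuit (heM c c' hn) (heI c c' hn)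
  have hKcD : ∀ c c', Gad.Nb t c c' → (M ／ D₀).IsCircuit (K c c') := fun c c' hn =>
    circuit_contract hD (hi.subset (hsub c c' hn)) (heM c c' hn) (heI c c' hn) (heD c c' hn)
  have hKsub : ∀ c c', K c c' ⊆ insert (ed c c') ({j c, j c'} ∪ C) := fun c c' =>
    M.fundCircuit_subset_insert _ _
  have hKe : ∀ c c', ed c c' ∈ K c c' := fun c c' => M.mem_fundCircuit _ _
  have hne : ∀ c c', Gad.Nb t c c' → j c ≠ j c' := fun c c' hn hh =>
    hn.ne (h1.inj hn.1 hn.2.1 hh)
  -- the joints are in the circuit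
  have hKj : ∀ c c', Gad.Nb t c c' → j c ∈ K c c' := by
    intro c c' hn
    by_contra hcon
    have h3 : ed c c' ∈ M.closure ({j c'} ∪ C) := by
      refine M.closure_subset_closure ?_ ((hKc c c' hn).mem_closure_sdiff_singleton_of_mem
        (hKe c c'))
      rintro x ⟨hx, hxe⟩
      rcases hKsub c c' hx with h | (h | h) | h
      · exact absurd h hxe
      · exact absurd (h ▸ hx) hcon
      · exact Or.inl h
      · exact Or.inr h
    have h4 := h1.h2 c c' hn
    rw [Matroid.contract_closure_eq] at h4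
    have hIE : C ∪ j '' Gad.Cl t ⊆ M.E := hiM.subset_ground
    have h5 : j c ∈ M.closure ({j c'} ∪ C) := by
      refine M.closure_subset_closure_of_subset_closure ?_ h4.1
      have hsE : ({j c'} ∪ C : Set α) ⊆ M.E := by
        rintro x (rfl | hx)
        · exact hIE (Or.inr (hjc hn.2.1))
        · exact hIE (Or.inl hx)
      rintro x ((rfl | rfl) | hx)
      · exact M.mem_closure_of_mem (Or.inl rfl) hsE
      · exact h3
      · exact M.mem_closure_of_mem (Or.inr hx) hsE
    refine hiM.notMem_closure_sdiff_of_mem (Or.inr (hjc hn.1)) (M.closure_subset_closure ?_ h5)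
    rintro x (rfl | hx)
    · exact ⟨Or.inr (hjc hn.2.1), fun hh => hne c c' hn (by simpa using hh.symm)⟩
    · refine ⟨Or.inl hx, ?_⟩
      rintro rfl
      exact disjoint_left.mp hCJ hx (hjc hn.1)
  have hKj' : ∀ c c', Gad.Nb t c c' → j c' ∈ K c c' := by
    intro c c' hn
    by_contra hcon
    have h3 : ed c c' ∈ M.closure ({j c} ∪ C) := by
      refine M.closure_subset_closure ?_ ((hKc c c' hn).mem_closure_sdiff_singleton_of_mem
        (hKe c c'))
      rintro x ⟨hx, hxe⟩
      rcases hKsub c c' hx with h | (h | h) | h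
      · exact absurd h hxe
      · exact Or.inl h
      · exact absurd (h ▸ hx) hcon
      · exact Or.inr h
    have h4 := h1.h3 c c' hn
    rw [Matroid.contract_closure_eq] at h4
    have hIE : C ∪ j '' Gad.Cl t ⊆ M.E := hiM.subset_ground
    have h5 : j c' ∈ M.closure ({j c} ∪ C) := by
      refine M.closure_subset_closure_of_subset_closure ?_ h4.1
      have hsE : ({j c} ∪ C : Set α) ⊆ M.E := by
        rintro x (rfl | hx)
        · exact hIE (Or.inr (hjc hn.1))
        · exact hIE (Or.inl hx)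
      rintro x ((rfl | rfl) | hx)
      · exact M.mem_closure_of_mem (Or.inl rfl) hsE
      · exact h3
      · exact M.mem_closure_of_mem (Or.inr hx) hsE
    refine hiM.notMem_closure_sdiff_of_mem (Or.inr (hjc hn.2.1)) (M.closure_subset_closure ?_ h5)
    rintro x (rfl | hx)
    · exact ⟨Or.inr (hjc hn.1), fun hh => hne c c' hn (by simpa using hh)⟩
    · refine ⟨Or.inl hx, ?_⟩
      rintro rfl
      exact disjoint_left.mp hCJ hx (hjc hn.2.1)
  -- the sets
  set C' : Set α := {x | x ∈ C ∧ ∃ c c', Gad.Nb t c c' ∧ x ∈ K c c'} with hC'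
  set S' : Set α := j '' Gad.Cl t ∪ {x | ∃ c c', Gad.Nb t c c' ∧ x = ed c c'} with hS'
  have hC'C : C' ⊆ C := fun x hx => hx.1
  have hS'S : S' ⊆ S := by
    rintro x (hx | ⟨c, c', hn, rfl⟩)
    · exact hJS hx
    · exact h1.mem c c' hn
  have hKsub' : ∀ c c', Gad.Nb t c c' → K c c' ⊆ insert (ed c c') ({j c, j c'} ∪ C') := by
    intro c c' hn x hx
    rcases hKsub c c' hx with h | h | h
    · exact Or.inl h
    · exact Or.inr (Or.inl h)
    · exact Or.inr (Or.inr ⟨h, c, c', hn, hx⟩)
  have hKN : ∀ c c', Gad.Nb t c c' → K c c' ⊆ C' ∪ S' := by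
    intro c c' hn x hx
    rcases hKsub' c c' hn hx with h | (h | h) | h
    · exact Or.inr (Or.inr ⟨c, c', hn, h⟩)
    · exact Or.inr (Or.inl (h ▸ hjc hn.1))
    · exact Or.inr (Or.inl (h ▸ hjc hn.2.1))
    · exact Or.inl h
  have hC'J : Disjoint C' (j '' Gad.Cl t) := hCJ.mono_left hC'C
  have hiC' : M.Indep C' := hiM.subset (hC'C.trans subset_union_left)
  have hiM' : M.Indep (j '' Gad.Cl t ∪ C') :=
    hiM.subset (union_subset subset_union_right (hC'C.trans subset_union_left))
  have hclC' : ∀ c c', Gad.Nb t c c' → ed c c' ∈ (M ／ C').closure {j c, j c'} := by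
    intro c c' hn
    rw [Matroid.contract_closure_eq]
    refine ⟨M.closure_subset_closure ?_ ((hKc c c' hn).mem_closure_sdiff_singleton_of_mem
      (hKe c c')), fun hh => heC c c' hn (hC'C hh)⟩
    rintro x ⟨hx, hxe⟩
    rcases hKsub' c c' hn hx with h | h
    · exact absurd h hxe
    · exact h
  have hJindep : (M ／ C').Indep (j '' Gad.Cl t) := by
    rw [hiC'.contract_indep_iff]
    exact ⟨hC'J.symm, hiM'⟩
  have hgrid : Gad.JGrid (M ／ C') S' t j ed := by
    refine ⟨h1.inj, ?_, ?_, hclC', ?_, ?_⟩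
    · refine hJindep.isBasis_of_subset_of_subset_closure subset_union_left ?_
      rintro x (hx | ⟨c, c', hn, rfl⟩)
      · exact (M ／ C').mem_closure_of_mem hx hJindep.subset_ground
      · refine (M ／ C').closure_subset_closure ?_ (hclC' c c' hn)
        rintro x (rfl | rfl)
        · exact hjc hn.1
        · exact hjc hn.2.1
    · exact fun c c' hn => Or.inr ⟨c, c', hn, rfl⟩
    · intro c c' hn
      rw [Matroid.contract_closure_eq]
      refine ⟨M.closure_subset_closure ?_ ((hKc c c' hn).mem_closure_sdiff_singleton_of_mem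
        (hKj c c' hn)), fun hh => disjoint_left.mp hC'J hh (hjc hn.1)⟩
      rintro x ⟨hx, hxe⟩
      rcases hKsub' c c' hn hx with h | (h | h) | h
      · exact Or.inl (Or.inr h)
      · exact absurd h hxe
      · exact Or.inl (Or.inl h)
      · exact Or.inr h
    · intro c c' hn
      rw [Matroid.contract_closure_eq]
      refine ⟨M.closure_subset_closure ?_ ((hKc c c' hn).mem_closure_sdiff_singleton_of_mem
        (hKj' c c' hn)), fun hh => disjoint_left.mp hC'J hh (hjc hn.2.1)⟩
      rintro x ⟨hx, hxe⟩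
      rcases hKsub' c c' hn hx with h | (h | h) | h
      · exact Or.inl (Or.inr h)
      · exact Or.inl (Or.inl h)
      · exact absurd h hxe
      · exact Or.inr h
  refine ⟨C', hC'C, S', hS'S, hgrid, ?_, ?_⟩
  · -- connected
    intro X hXN hXne hXN'
    by_contra hcon
    have : (M ／ D₀).Finite := ⟨M.ground_finite.subset sdiff_subset⟩
    have hNE : C' ∪ S' ⊆ (M ／ D₀).E := by
      rw [Matroid.contract_ground]
      intro x hx
      refine ⟨?_, ?_⟩
      · rcases hx with hx | hx
        · exact hiC'.subset_ground hx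
        · have := hgrid.basis.subset_ground hx
          rw [Matroid.contract_ground] at this
          exact this.1
      · intro hxD
        refine disjoint_left.mp hDN hxD ?_
        rcases hx with hx | hx
        · exact Or.inl (hC'C hx)
        · exact Or.inr (hS'S hx)
    have hside : ∀ c c', Gad.Nb t c c' → K c c' ⊆ X ∨ K c c' ⊆ (C' ∪ S') \ X := fun c c' hn =>
      circuit_side hXN hNE (by omega) (hKcD c c' hn) (hKN c c' hn)
    have hall : ∀ c c', Gad.Nb t c c' → ∀ x ∈ K c c', (x ∈ X ↔ j c ∈ X) := by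
      intro c c' hn x hx
      rcases hside c c' hn with h | h
      · exact ⟨fun _ => h (hKj c c' hn), fun _ => h hx⟩
      · exact ⟨fun hh => absurd hh (h hx).2, fun hh => absurd hh (h (hKj c c' hn)).2⟩
    have hgr : ∀ c ∈ Gad.Cl t, (j c ∈ X ↔ j (0, 0) ∈ X) := fun c hc =>
      cl_induction (P := fun c => j c ∈ X)
        (fun c c' hn => (hall c c' hn _ (hKj' c c' hn)).symm) hc
    have hfinal : ∀ x ∈ C' ∪ S', (x ∈ X ↔ j (0, 0) ∈ X) := by
      rintro x (⟨hxC, c, c', hn, hx⟩ | ⟨c, hc, rfl⟩ | ⟨c, c', hn, rfl⟩)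
      · exact (hall c c' hn x hx).trans (hgr c hn.1)
      · exact hgr c hc
      · exact (hall c c' hn _ (hKe c c')).trans (hgr c hn.1)
    by_cases h0 : j (0, 0) ∈ X
    · exact hXN' (Subset.antisymm hXN fun x hx => (hfinal x hx).mpr h0)
    · obtain ⟨x, hx⟩ := hXne
      exact h0 ((hfinal x (hXN hx)).mp hx)
  · have hiC'D : (M ／ D₀).Indep C' := hi.subset (hC'C.trans subset_union_left)
    rw [hiC'D.contract_indep_iff]
    exact ⟨hC'J.symm, hi.subset (union_subset subset_union_right
      (hC'C.trans subset_union_left))⟩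

end EN
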