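import Pool.Agent.EN.LinkC
import Pool.Agent.Helper53.BQ.Rk

/-!
# The grid with joints of a piece that is exact modulo other pieces
-/

open Set BIC BICS
open scoped Matroid

namespace EN

universe u

variable {α : Type u}

/-- Independence in a contraction, by ranks. -/
lemma indep_con_iff {M : Matroid α} [M.Finite] {Z I : Set α} (hZ : Z ⊆ M.E) (hI : I ⊆ M.E \ Z) :
    (M ／ Z).Indep I ↔ I.ncard + rk M Z ≤ rk M (I ∪ Z) := by
  have hfin : (M ／ Z).Finite := BIC.BQ.fin_contract Z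
  have h1 := BIC.BQ.rk_con hZ hI
  constructor
  · intro h
    have h2 := rk_indep h
    omega
  · intro h
    exact indep_of_rk hI (by omega)

/-- A grid with joints depends only on the restriction to its set. -/
lemma jgrid_of_restrict {M N : Matroid α} {S : Set α} {t : ℕ} {j : ℕ × ℕ → α}
    {ed : ℕ × ℕ → ℕ × ℕ → α} (hM : S ⊆ M.E) (hN : S ⊆ N.E)
    (h : ∀ I ⊆ S, M.Indep I → N.Indep I) (h' : ∀ I ⊆ S, N.Indep I → M.Indep I)
    (hJ : Gad.JGrid M S t j ed) : Gad.JGrid N S t j ed := by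
  have heq : M ↾ S = N ↾ S := by
    refine Matroid.ext_indep rfl fun I hI => ?_
    rw [Matroid.restrict_ground_eq] at hI
    rw [Matroid.restrict_indep_iff, Matroid.restrict_indep_iff]
    exact ⟨fun hh => ⟨h I hI hh.1, hh.2⟩, fun hh => ⟨h' I hI hh.1, hh.2⟩⟩
  have hcl : ∀ X ⊆ S, ∀ e ∈ S, e ∈ M.closure X → e ∈ N.closure X := by
    intro X hX e he hcl
    have h1 : e ∈ (M ↾ S).closure X := by
      rw [Matroid.restrict_closure_eq M hX hM]
      exact ⟨hcl, he⟩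
    rw [heq, Matroid.restrict_closure_eq N hX hN] at h1
    exact h1.1
  have hJS : j '' Gad.Cl t ⊆ S := hJ.basis.subset
  have hj : ∀ c ∈ Gad.Cl t, j c ∈ S := fun c hc => hJS ⟨c, hc, rfl⟩
  refine ⟨hJ.inj, ?_, hJ.mem, ?_, ?_, ?_⟩
  · have h1 : (M ↾ S).IsBase (j '' Gad.Cl t) := hJ.basis.restrict_isBase
    rw [heq] at h1
    exact (Matroid.isBase_restrict_iff hN).mp h1
  · intro c c' hn
    refine hcl _ ?_ _ (hJ.mem c c' hn) (hJ.h1 c c' hn)
    rintro x (rfl | rfl)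
    · exact hj c hn.1
    · exact hj c' hn.2.1
  · intro c c' hn
    refine hcl _ ?_ _ (hj c hn.1) (hJ.h2 c c' hn)
    rintro x (rfl | rfl)
    · exact hj c' hn.2.1
    · exact hJ.mem c c' hn
  · intro c c' hn
    refine hcl _ ?_ _ (hj c' hn.2.1) (hJ.h3 c c' hn)
    rintro x (rfl | rfl)
    · exact hj c hn.1
    · exact hJ.mem c c' hn

/-- Skewness passes to subsets. -/
lemma skew_sub' {M : Matroid α} [M.Finite] {N R D X : Set α} (hX : X ⊆ N)
    (h : rk M (N ∪ R) + rk M (D ∪ R) ≤ rk M (N ∪ R ∪ D) + rk M R) :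
    rk M (X ∪ R) + rk M (D ∪ R) = rk M (X ∪ R ∪ D) + rk M R := by
  have e1 := rk_submod M (X ∪ R ∪ D) (N ∪ R)
  have e2 : rk M (X ∪ R) ≤ rk M ((X ∪ R ∪ D) ∩ (N ∪ R)) :=
    rk_mono _ (subset_inter subset_union_left (union_subset_union_left _ hX))
  have e3 : rk M (N ∪ R ∪ D) ≤ rk M ((X ∪ R ∪ D) ∪ (N ∪ R)) := by
    refine rk_mono _ ?_
    rintro x ((hx | hx) | hx)
    · exact Or.inr (Or.inl hx)
    · exact Or.inr (Or.inr hx)
    · exact Or.inl (Or.inr hx)
  have e4 := rk_submod M (X ∪ R) (D ∪ R)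
  have e5 : rk M R ≤ rk M ((X ∪ R) ∩ (D ∪ R)) :=
    rk_mono _ (subset_inter subset_union_right subset_union_right)
  have e6 : rk M (X ∪ R ∪ D) ≤ rk M ((X ∪ R) ∪ (D ∪ R)) := by
    refine rk_mono _ ?_
    rintro x ((hx | hx) | hx)
    · exact Or.inl (Or.inl hx)
    · exact Or.inl (Or.inr hx)
    · exact Or.inr (Or.inl hx)
  omega

/-- A piece which is exact modulo other pieces: the grid with joints of `M ／ D₀` is a grid with
joints of `M ／ (C ∪ R)`, `R` = the other pieces of the group. -/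
theorem jgrid_of_skew {M : Matroid α} [M.Finite] {C S R D₀ : Set α} {t : ℕ} {j : ℕ × ℕ → α}
    {ed : ℕ × ℕ → ℕ × ℕ → α} (hE : C ∪ S ∪ R ∪ D₀ ⊆ M.E)
    (hd : Disjoint (C ∪ S) (R ∪ D₀)) (hRD : Disjoint R D₀) (hCS : Disjoint C S)
    (h1 : Gad.JGrid (M ／ D₀ ／ C) S t j ed)
    -- `N = C ∪ S` has the same rank modulo `R` and modulo `R ∪ D₀`
    (h2 : rk M (C ∪ S ∪ R) + rk M (D₀ ∪ R) ≤ rk M (C ∪ S ∪ R ∪ D₀) + rk M R)
    (h3 : rk M (C ∪ S ∪ D₀) + rk M (D₀ ∪ R) ≤ rk M (C ∪ S ∪ R ∪ D₀) + rk M D₀) :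
    Gad.JGrid (M ／ (C ∪ R)) S t j ed := by
  have hCE : C ⊆ M.E := fun x hx => hE (Or.inl (Or.inl (Or.inl hx)))
  have hSE : S ⊆ M.E := fun x hx => hE (Or.inl (Or.inl (Or.inr hx)))
  have hRE : R ⊆ M.E := fun x hx => hE (Or.inl (Or.inr hx))
  have hDE : D₀ ⊆ M.E := fun x hx => hE (Or.inr hx)
  have hSd : ∀ x ∈ S, x ∉ C ∧ x ∉ R ∧ x ∉ D₀ := fun x hx =>
    ⟨fun hh => disjoint_left.mp hCS hh hx,
      fun hh => disjoint_left.mp hd (Or.inr hx) (Or.inl hh),
      fun hh => disjoint_left.mp hd (Or.inr hx) (Or.inr hh)⟩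
  have key : ∀ X ⊆ C ∪ S, rk M (X ∪ R) + rk M D₀ = rk M (X ∪ D₀) + rk M R := by
    intro X hX
    have e1 := skew_sub' hX h2
    have h3' : rk M (C ∪ S ∪ D₀) + rk M (R ∪ D₀) ≤ rk M (C ∪ S ∪ D₀ ∪ R) + rk M D₀ := by
      rw [union_comm R D₀, union_right_comm (C ∪ S) D₀ R]
      exact h3
    have e2 := skew_sub' hX h3'
    rw [union_comm R D₀, union_right_comm X D₀ R] at e2
    omega
  rw [Matroid.contract_contract] at h1
  have hcard : ∀ I ⊆ S, ((M ／ (D₀ ∪ C)).Indep I ↔ (M ／ (C ∪ R)).Indep I) := by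
    intro I hI
    rw [indep_con_iff (union_subset hDE hCE), indep_con_iff (union_subset hCE hRE)]
    · have k1 := key (I ∪ C) (union_subset (hI.trans subset_union_right) subset_union_left)
      have k2 := key C subset_union_left
      rw [union_comm D₀ C, ← union_assoc, ← union_assoc]
      omega
    · intro x hx
      refine ⟨hSE (hI hx), ?_⟩
      rintro (hh | hh)
      · exact (hSd x (hI hx)).1 hh
      · exact (hSd x (hI hx)).2.1 hh
    · intro x hx
      refine ⟨hSE (hI hx), ?_⟩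
      rintro (hh | hh)
      · exact (hSd x (hI hx)).2.2 hh
      · exact (hSd x (hI hx)).1 hh
  refine jgrid_of_restrict ?_ ?_ (fun I hI => (hcard I hI).mp) (fun I hI => (hcard I hI).mpr) h1
  · rw [Matroid.contract_ground]
    intro x hx
    refine ⟨hSE hx, ?_⟩
    rintro (hh | hh)
    · exact (hSd x hx).2.2 hh
    · exact (hSd x hx).1 hh
  · rw [Matroid.contract_ground]
    intro x hx
    refine ⟨hSE hx, ?_⟩
    rintro (hh | hh)
    · exact (hSd x hx).1 hh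
    · exact (hSd x hx).2.1 hh

end EN
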