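import Pool.Agent.EN.LinkDef2
import Pool.Agent.EN.LinkC
import Pool.Agent.EN.LinkP2
import Pool.Agent.BICS.Asm

/-!
# Tools for the main theorem of LINK (helper51)
-/

open Set BIC BICS
open scoped Matroid

namespace EN

universe u

variable {α V : Type*}

lemma kge_mono {M : Matroid α} {A A' B B' : Set α} {n n' : ℕ} (h : KGe M A B n) (hA : A ⊆ A')
    (hB : B ⊆ B') (hn : n' ≤ n) : KGe M A' B' n' := by
  intro X h1 h2
  have h3 := h X (hA.trans h1) (h2.trans (sdiff_subset_sdiff_right hB))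
  omega

/-- Connectivity does not grow under contraction. -/
lemma kge_of_contract {M : Matroid α} [M.Finite] {C C' A B : Set α} {n : ℕ} (hC : C ⊆ C')
    (hC' : C' ⊆ M.E) (hA : Disjoint A C') (h : KGe (M ／ C') A B n) :
    KGe (M ／ C) A B n := by
  intro X hAX hX
  have hCE : C ⊆ M.E := hC.trans hC'
  have hXE : X ⊆ M.E \ C := fun x hx => (hX hx).1
  set Y : Set α := (M ／ C).E \ X with hY
  have hYE : Y ⊆ M.E \ C := fun x hx => hx.1
  have h1 := h (X \ C') (fun x hx => ⟨hAX hx, fun h2 => Set.disjoint_left.1 hA hx h2⟩)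
    (fun x hx => ⟨⟨(hXE hx.1).1, hx.2⟩, (hX hx.1).2⟩)
  have e1 : (M ／ C').E \ (X \ C') = Y \ C' := by
    ext x
    simp only [Matroid.contract_ground, mem_sdiff, hY]
    constructor
    · rintro ⟨⟨h2, h3⟩, h4⟩
      exact ⟨⟨⟨h2, fun h5 => h3 (hC h5)⟩, fun h5 => h4 ⟨h5, h3⟩⟩, h3⟩
    · rintro ⟨⟨⟨h2, _⟩, h4⟩, h3⟩
      exact ⟨⟨h2, h3⟩, fun h5 => h4 h5.1⟩
  rw [e1] at h1
  have hfin' := BQ.fin_contract (M := M) C'
  have hfin := BQ.fin_contract (M := M) C
  have r1 := BQ.rk_con hC' (X := X \ C') (fun x hx => ⟨(hXE hx.1).1, hx.2⟩)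
  have r2 := BQ.rk_con hC' (X := Y \ C') (fun x hx => ⟨(hYE hx.1).1, hx.2⟩)
  have r3 := BQ.rk_con hC' (X := M.E \ C') (subset_refl _)
  have r4 := BQ.rk_con hCE hXE
  have r5 := BQ.rk_con hCE hYE
  have r6 := BQ.rk_con hCE (X := M.E \ C) (subset_refl _)
  rw [sdiff_union_self, union_eq_self_of_subset_right hC'] at r3
  rw [sdiff_union_self, union_eq_self_of_subset_right hCE] at r6
  rw [sdiff_union_self] at r1 r2
  -- submodularity
  have hXY : X ∪ Y = M.E \ C := by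
    rw [hY, Matroid.contract_ground]
    exact union_sdiff_cancel hXE
  have s1 := rk_submod M (X ∪ C) C'
  have s2 := rk_submod M (Y ∪ C) C'
  have s3 := rk_submod M ((X ∪ C) ∩ C') ((Y ∪ C) ∩ C')
  have m1 : rk M (X ∪ C') ≤ rk M ((X ∪ C) ∪ C') :=
    rk_mono M (by
      rintro x (hx | hx)
      · exact Or.inl (Or.inl hx)
      · exact Or.inr hx)
  have m2 : rk M (Y ∪ C') ≤ rk M ((Y ∪ C) ∪ C') :=
    rk_mono M (by
      rintro x (hx | hx)
      · exact Or.inl (Or.inl hx)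
      · exact Or.inr hx)
  have m3 : rk M C' ≤ rk M ((X ∪ C) ∩ C' ∪ (Y ∪ C) ∩ C') := by
    refine rk_mono M fun x hx => ?_
    by_cases hxC : x ∈ C
    · exact Or.inl ⟨Or.inr hxC, hx⟩
    · have h2 : x ∈ X ∪ Y := by
        rw [hXY]
        exact ⟨hC' hx, hxC⟩
      rcases h2 with h2 | h2
      · exact Or.inl ⟨Or.inl h2, hx⟩
      · exact Or.inr ⟨Or.inl h2, hx⟩
  have m4 : rk M C ≤ rk M ((X ∪ C) ∩ C' ∩ ((Y ∪ C) ∩ C')) :=
    rk_mono M fun x hx => ⟨⟨Or.inr hx, hC hx⟩, ⟨Or.inr hx, hC hx⟩⟩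
  rw [Matroid.contract_ground] at h1 ⊢
  omega

/-- Skew families: subfamilies and subsets. -/
lemma skew_fam {M : Matroid α} [M.Finite] {P G : Finset ℕ} {A N : ℕ → Set α} (hG : G ⊆ P)
    (hN : ∀ p ∈ G, N p ⊆ A p) (hs : ∑ p ∈ P, rk M (A p) ≤ rk M (⋃ p ∈ P, A p)) :
    ∑ p ∈ G, rk M (N p) ≤ rk M (⋃ p ∈ G, N p) := by
  classical
  set N' : ℕ → Set α := fun p => if p ∈ G then N p else ∅ with hN'
  have h1 := skew_sub (M := M) (P := P) (A := A) (N := N') (fun p hp => by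
    simp only [hN']
    split_ifs with h
    · exact hN p h
    · exact empty_subset _) hs
  have h2 : ∑ p ∈ P, rk M (N' p) = ∑ p ∈ G, rk M (N p) := by
    rw [← Finset.sum_subset hG (fun p _ hp => ?_)]
    · refine Finset.sum_congr rfl fun p hp => ?_
      simp only [hN', if_pos hp]
    · simp only [hN', if_neg hp]
      exact rk_emp
  have h3 : (⋃ p ∈ P, N' p) = ⋃ p ∈ G, N p := by
    ext x
    simp only [mem_iUnion, hN']
    constructor
    · rintro ⟨p, _, hx⟩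
      split_ifs at hx with h
      · exact ⟨p, h, hx⟩
      · exact absurd hx (notMem_empty x)
    · rintro ⟨p, hp, hx⟩
      exact ⟨p, hG hp, by rw [if_pos hp]; exact hx⟩
  rw [h2, h3] at h1
  exact h1

lemma rk_biUnion_le {M : Matroid α} [M.Finite] (G : Finset ℕ) (N : ℕ → Set α) :
    rk M (⋃ p ∈ G, N p) ≤ ∑ p ∈ G, rk M (N p) := by
  classical
  induction G using Finset.induction_on with
  | empty => simp [rk_emp]
  | insert p G hp ih =>
    rw [Finset.set_biUnion_insert, Finset.sum_insert hp]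
    have := rk_union_two (M := M) (N p) (⋃ p ∈ G, N p)
    omega

/-- A plain grid depends on the ranks only. -/
lemma pgrid_of_rk {N N' : Matroid α} [N.Finite] [N'.Finite] {R : Set α} {s : ℕ} (h : PGrid N R s)
    (hR : R ⊆ N'.E) (hr : ∀ X ⊆ R, rk N' X = rk N X) : PGrid N' R s := by
  obtain ⟨V, ends, p, hE, vE, hB, hG⟩ := h
  exact ⟨V, ends, p, hE, vE, Bic_of_rk hB hR hr, hG⟩

/-- The dual grid survives the contraction of `C`. -/
lemma pgrid_contract {M : Matroid α} [M.Finite] {Q D₂ C : Set α} {s : ℕ} (hQ : Q ⊆ M.E)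
    (hD₂ : D₂ ⊆ M.E \ Q) (hCQ : Disjoint C (Q ∪ D₂)) (h : PGrid (M✶ ／ D₂) Q s) :
    PGrid ((M ／ C)✶ ／ D₂) Q s := by
  have f1 : (M✶).Finite := inferInstance
  have f2 : (M✶ ／ D₂).Finite := BQ.fin_contract _
  have f3 : (M ／ C).Finite := BQ.fin_contract _
  have f4 : ((M ／ C)✶).Finite := inferInstance
  have f5 : ((M ／ C)✶ ／ D₂).Finite := BQ.fin_contract _
  have f6 : (M✶ ／ D₂ ＼ C).Finite := BQ.fin_delete _
  have hCQ' : Disjoint C Q := hCQ.mono_right subset_union_left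
  have hCD : Disjoint C D₂ := hCQ.mono_right subset_union_right
  have e1 : (M ／ C)✶ ／ D₂ = M✶ ／ D₂ ＼ C := by
    rw [Matroid.dual_contract, Matroid.contract_delete_comm _ hCD.symm]
  have hQ' : Q ⊆ (M✶ ／ D₂).E \ C := fun x hx =>
    ⟨⟨hQ hx, fun h1 => (hD₂ h1).2 hx⟩, fun h1 => Set.disjoint_left.1 hCQ' h1 hx⟩
  refine pgrid_of_rk h ?_ ?_
  · rw [e1, Matroid.delete_ground]
    exact hQ'
  · intro X hX
    rw [e1, rk_delete (hX.trans hQ')]

/-- Enumeration of a finite set with a prescribed first element. -/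
lemma enum_zero {G : Finset ℕ} {r : ℕ} (hG : G.card = r) {p₀ : ℕ} (hp : p₀ ∈ G) :
    ∃ e : ℕ → ℕ, e 0 = p₀ ∧ (∀ i < r, e i ∈ G) ∧ (∀ i < r, ∀ j < r, e i = e j → i = j) ∧
      ∀ p ∈ G, ∃ i < r, e i = p := by
  classical
  obtain ⟨φ⟩ : Nonempty (Fin r ≃ G) := ⟨(G.equivFinOfCardEq hG).symm⟩
  have hr : 0 < r := by
    rw [← hG]
    exact Finset.card_pos.2 ⟨p₀, hp⟩
  set i₀ : Fin r := φ.symm ⟨p₀, hp⟩ with hi₀
  set ψ : Fin r ≃ G := (Equiv.swap ⟨0, hr⟩ i₀).trans φ with hψ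
  refine ⟨fun i => if h : i < r then ψ ⟨i, h⟩ else p₀, ?_, ?_, ?_, ?_⟩
  · simp only [dif_pos hr]
    rw [hψ, Equiv.trans_apply, Equiv.swap_apply_left, hi₀, Equiv.apply_symm_apply]
  · intro i hi
    simp only [dif_pos hi]
    exact (ψ ⟨i, hi⟩).2
  · intro i hi j hj h
    simp only [dif_pos hi, dif_pos hj] at h
    have h1 := ψ.injective (Subtype.ext h)
    simpa using h1
  · intro p hp
    refine ⟨ψ.symm ⟨p, hp⟩, (ψ.symm ⟨p, hp⟩).2, ?_⟩
    simp only [Fin.is_lt, dite_true, Fin.eta, Equiv.apply_symm_apply]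

/-- A finite set of `m * r` elements consists of `m` groups of `r` elements. -/
lemma groups_split : ∀ (m r : ℕ) (P : Finset ℕ), m * r ≤ P.card →
    ∃ G : ℕ → Finset ℕ, (∀ g < m, G g ⊆ P ∧ (G g).card = r) ∧
      ∀ g < m, ∀ h < m, g ≠ h → Disjoint (G g) (G h) := by
  classical
  intro m
  induction m with
  | zero => intro r P _; exact ⟨fun _ => ∅, fun g hg => absurd hg (by omega), fun g hg => absurd hg (by omega)⟩
  | succ m ih =>
    intro r P hP
    rw [Nat.succ_mul] at hP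
    obtain ⟨G₀, hG₀, hc⟩ := Finset.exists_subset_card_eq (s := P) (n := r) (by omega)
    obtain ⟨G, h1, h2⟩ := ih r (P \ G₀) (by
      have := Finset.card_sdiff_add_card_eq_card hG₀
      omega)
    refine ⟨fun g => if g < m then G g else G₀, ?_, ?_⟩
    · intro g hg
      by_cases h : g < m
      · simp only [if_pos h]
        exact ⟨(h1 g h).1.trans Finset.sdiff_subset, (h1 g h).2⟩
      · simp only [if_neg h]
        exact ⟨hG₀, hc⟩
    · intro g hg h hh hgh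
      by_cases h3 : g < m <;> by_cases h4 : h < m
      · simp only [if_pos h3, if_pos h4]
        exact h2 g h3 h h4 hgh
      · simp only [if_pos h3, if_neg h4]
        exact Finset.disjoint_of_subset_left (h1 g h3).1 Finset.sdiff_disjoint
      · simp only [if_neg h3, if_pos h4]
        exact (Finset.disjoint_of_subset_left (h1 h h4).1 Finset.sdiff_disjoint).symm
      · omega

end EN
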