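import Pool.Agent.EN.UModel

/-!
# Models with jointly unbalanced branch sets

`U d f` says that the classes of the partial colouring `f` of the host of depth `d` are jointly
unbalanced.  In the applications this is a statement about ranks; only the properties in `Jnt` are
used.  The predicate `gd` of the host is not used: it is assumed to hold everywhere.
-/

open Relation

namespace Mdj

open Mdl Mdu

variable {V σ X : Type*}

open Classical in
/-- Restriction of the class of `y` to `A`. -/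
noncomputable def cut (f : HV V σ → Option X) (y : X) (A : Set (HV V σ)) :
    HV V σ → Option X := fun w => if f w = some y ∧ w ∉ A then none else f w

/-- Admissible colourings. -/
structure Ok (H : Host V σ) (d : ℤ) (f : HV V σ → Option X) : Prop where
  sup : ∀ s c b, f (Sum.inr (s, c, b)) ≠ none → c < H.len s ∧ -d ≤ b ∧ b ≤ d
  fin : {u | f u ≠ none}.Finite
  con : ∀ y, Co H d {w | f w = some y}

/-- Properties of jointly unbalanced colourings. -/
structure Jnt (H : Host V σ) (N : ℤ) (U : ℤ → (HV V σ → Option X) → Prop) : Prop where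
  ne : ∀ d f y, 0 ≤ d → d ≤ N → U d f → ∃ w, f w = some y
  mono : ∀ d f f', 0 ≤ d → d ≤ N → Ok H d f' → (∀ w y, f w = some y → f' w = some y) →
    U d f → U d f'
  modu : ∀ d f y A B, 0 ≤ d → d ≤ N → Ok H d f → {w | f w = some y} = A ∪ B →
    Co H d A → Co H d B → (A ∩ B).Nonempty → Co H d (A ∩ B) →
    (∀ a ∈ A, ∀ b ∈ B, a ∉ B → b ∉ A → ¬ H.Adj d a b) → U d f →
    U d (cut f y A) ∨ U d (cut f y B)
  page : ∀ d f y s, 0 ≤ d → d ≤ N → Ok H d f → U d f →
    ¬ ∀ w, f w = some y → ∃ c b, w = Sum.inr (s, c, b)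
  str : ∀ d k f, 0 ≤ d → 0 ≤ k → d + k ≤ N → Ok H d f → U d f → U (d + k) (fun w => f (Pz k w))
  loc : ∀ d f (A : X → Set (HV V σ)), 0 ≤ d → d ≤ N → Ok H d f → (∀ y, ∀ w ∈ A y, f w = some y) →
    (∀ y, (A y).Nonempty) → (∀ y, Co H d (A y)) → (∀ y, U d (cut f y (A y))) →
    ∀ f', (∀ w y, f' w = some y ↔ w ∈ A y) → U d f'

section

variable {G : SimpleGraph X} {H : Host V σ} {N d k : ℤ} {U : ℤ → (HV V σ → Option X) → Prop}
  {f : HV V σ → Option X} {y z : X} {A B : Set (HV V σ)}

lemma cut_eq (hA : ∀ w ∈ A, f w = some y) {w : HV V σ} : cut f y A w = some y ↔ w ∈ A := by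
  unfold cut
  split_ifs with h
  · constructor
    · intro h4; exact absurd h4 (by simp)
    · intro h4; exact absurd h4 h.2
  · constructor
    · intro h4
      by_contra h5
      exact h ⟨h4, h5⟩
    · intro h4
      exact hA w h4

lemma cut_set (hA : ∀ w ∈ A, f w = some y) : {w | cut f y A w = some y} = A :=
  Set.ext (fun _ => cut_eq hA)

lemma cut_ne (hz : z ≠ y) {w : HV V σ} : cut f y A w = some z ↔ f w = some z := by
  unfold cut
  split_ifs with h
  · rw [h.1]
    constructor
    · intro h3; exact absurd h3 (by simp)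
    · intro h3; exact absurd (Option.some.inj h3).symm hz
  · exact Iff.rfl

lemma cut_set_ne (hz : z ≠ y) : {w | cut f y A w = some z} = {w | f w = some z} :=
  Set.ext (fun _ => cut_ne hz)

lemma cut_le {w : HV V σ} (h : cut f y A w ≠ none) : cut f y A w = f w := by
  unfold cut at h ⊢
  split_ifs at h ⊢ with h1
  · exact absurd rfl h
  · rfl

lemma cut_some {w : HV V σ} (h : cut f y A w = some z) : f w = some z := by
  have h1 : cut f y A w ≠ none := by
    rw [h]
    simp
  exact (cut_le h1).symm.trans h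

lemma cut_cut (hAB : A ⊆ B) : cut (cut f y B) y A = cut f y A := by
  funext w
  by_cases h1 : f w = some y
  · by_cases h2 : w ∈ A
    · have h3 : w ∈ B := hAB h2
      simp [cut, h1, h2, h3]
    · by_cases h3 : w ∈ B
      · simp [cut, h1, h2, h3]
      · simp [cut, h1, h2, h3]
  · simp [cut, h1]

lemma Ok.cut (hf : Ok H d f) (hA : ∀ w ∈ A, f w = some y) (hc : Co H d A) :
    Ok H d (Mdj.cut f y A) where
  sup := by
    intro s c b h
    apply hf.sup
    rw [← cut_le h]
    exact h
  fin := by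
    refine hf.fin.subset ?_
    intro w hw
    have hw' : Mdj.cut f y A w ≠ none := hw
    change f w ≠ none
    rw [← cut_le hw']
    exact hw'
  con := by
    intro z
    by_cases hz : z = y
    · rw [hz, cut_set hA]
      exact hc
    · rw [cut_set_ne hz]
      exact hf.con z

lemma Model.ok (hf : Model G H d f) : Ok H d f := ⟨hf.sup, hf.fin, fun y => Model.co hf y⟩

/-- A class of a jointly unbalanced colouring contains an outside vertex. -/
lemma Jnt.inl (hB : Jnt H N U) (hd : 0 ≤ d) (hdN : d ≤ N) (hf : Ok H d f) (hU : U d f) (y : X) :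
    ∃ v, f (Sum.inl v) = some y := by
  by_contra hcon
  have hall : ∀ u, f u = some y → ∃ s c b, u = Sum.inr (s, c, b) := by
    rintro (v | ⟨s, c, b⟩) hu
    · exact absurd ⟨v, hu⟩ hcon
    · exact ⟨s, c, b, rfl⟩
  obtain ⟨u, hu⟩ := hB.ne d f y hd hdN hU
  obtain ⟨s, c, b, rfl⟩ := hall u hu
  refine hB.page d f y s hd hdN hf hU ?_
  intro v hv
  have h1 := hf.con y _ hu v hv
  unfold Pa at h1
  induction h1 with
  | refl => exact ⟨c, b, rfl⟩
  | tail _ hbc ih =>
    rename_i p q _
    obtain ⟨c', b', rfl⟩ := ih hbc.2.1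
    obtain ⟨s'', c'', b'', rfl⟩ := hall q hbc.2.2
    rcases hbc.1 with h2 | h2
    · rw [← h2.1]
      exact ⟨c'', b'', rfl⟩
    · rw [h2.1]
      exact ⟨c'', b'', rfl⟩

/-- Models with jointly unbalanced branch sets. -/
structure JModel (G : SimpleGraph X) (H : Host V σ) (U : ℤ → (HV V σ → Option X) → Prop) (d : ℤ)
    (f : HV V σ → Option X) : Prop where
  mod : Model G H d f
  unb : U d f

/-- Dropping. -/
theorem JModel.drop (hB : Jnt H N U) (hgd : ∀ v, H.gd v) (hd : 0 ≤ d) (hdN : d ≤ N)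
    (hf : JModel G H U d f) {s : σ} {c : ℕ} (hu : f (Sum.inr (s, c, 0)) = some y)
    (Q : Set (HV V σ)) (hQ : ∀ w ∈ Q, f w = some y ∧ w ≠ Sum.inr (s, c, 0)) (hc : Co H d Q)
    (hUQ : U d (cut f y Q))
    (hed : ∀ z, G.Adj y z → ∃ v w, v ∈ Q ∧ H.Adj d v w ∧ f w = some z) :
    ∃ f', JModel G H U d f' ∧ mm f' < mm f := by
  classical
  have hQ' : ∀ w ∈ Q, f w = some y := fun w hw => (hQ w hw).1
  have hok : Ok H d (cut f y Q) := (Model.ok hf.mod).cut hQ' hc
  refine ⟨cut f y Q, ⟨⟨hok.sup, hok.fin, ?_, ?_, ?_⟩, hUQ⟩, ?_⟩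
  · intro z a b ha hb
    exact Pa.cn (hok.con z a ha b hb)
  · have key : ∀ z, G.Adj y z → ∃ v w, H.Adj d v w ∧ cut f y Q v = some y ∧
        cut f y Q w = some z := by
      intro z hz
      obtain ⟨v, w, hv', hvw, hw⟩ := hed z hz
      exact ⟨v, w, hvw, (cut_eq hQ').2 hv', (cut_ne hz.ne').2 hw⟩
    intro a b hab
    by_cases ha : a = y
    · rw [ha] at hab ⊢
      exact key b hab
    · by_cases hb : b = y
      · rw [hb] at hab ⊢
        obtain ⟨v, w, h8, h9, h10⟩ := key a hab.symm
        exact ⟨w, v, h8.symm, h10, h9⟩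
      · obtain ⟨v, w, h8, h9, h10⟩ := hf.mod.edg a b hab
        exact ⟨v, w, h8, (cut_ne ha).2 h9, (cut_ne hb).2 h10⟩
  · intro z
    obtain ⟨v, hv⟩ := hB.inl hd hdN hok hUQ z
    exact ⟨v, hv, hgd v⟩
  · unfold mm
    refine Set.ncard_lt_ncard ?_ hf.mod.fin0
    rw [Set.ssubset_iff_of_subset]
    · refine ⟨(s, c), ?_, ?_⟩
      · change f (Sum.inr (s, c, 0)) ≠ none
        rw [hu]
        simp
      · change ¬ (cut f y Q (Sum.inr (s, c, 0)) ≠ none)
        rw [not_not]
        by_contra h9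
        have h10 := cut_le h9
        rw [hu] at h10
        exact (hQ _ ((cut_eq hQ').1 h10)).2 rfl
    · rintro ⟨a, b⟩ h
      change cut f y Q _ ≠ none at h
      change f _ ≠ none
      rw [← cut_le h]
      exact h

/-- The classes stay jointly unbalanced if a vertex inside of a page set is removed. -/
lemma JModel.unb_del (hB : Jnt H N U) (hd : 0 ≤ d) (hdN : d ≤ N)
    (hf : JModel G H U d f) {s : σ} {u : HV V σ}
    (hA : Co H d {w | f w = some y ∧ w ≠ u}) (Q : Set (HV V σ)) (huQ : u ∈ Q)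
    (hQ : ∀ w ∈ Q, f w = some y) (hQs : ∀ w ∈ Q, ∃ c b, w = Sum.inr (s, c, b))
    (hQc : Co H d Q) (hQc' : Co H d {w | w ∈ Q ∧ w ≠ u}) (hne : ∃ w ∈ Q, w ≠ u)
    (hnb : ∀ w, f w = some y → H.Adj d w u → w ∈ Q) :
    U d (cut f y {w | f w = some y ∧ w ≠ u}) := by
  have e1 : {w | f w = some y} = {w | f w = some y ∧ w ≠ u} ∪ Q := by
    ext w
    constructor
    · intro h
      by_cases hwu : w = u
      · right; rw [hwu]; exact huQ
      · left; exact ⟨h, hwu⟩
    · rintro (h | h)
      · exact h.1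
      · exact hQ w h
  have e2 : {w | f w = some y ∧ w ≠ u} ∩ Q = {w | w ∈ Q ∧ w ≠ u} := by
    ext w
    constructor
    · rintro ⟨h1, h2⟩
      exact ⟨h2, h1.2⟩
    · rintro ⟨h1, h2⟩
      exact ⟨⟨hQ w h1, h2⟩, h1⟩
  obtain ⟨w₀, hw₀, hw₀'⟩ := hne
  have h1 := hB.modu d f y {w | f w = some y ∧ w ≠ u} Q hd hdN (Model.ok hf.mod) e1 hA hQc
    (by rw [e2]; exact ⟨w₀, hw₀, hw₀'⟩) (by rw [e2]; exact hQc')
    (by
      intro a ha b hb haQ hbA hab
      have hbu : b = u := by
        by_contra hbu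
        exact hbA ⟨hQ b hb, hbu⟩
      rw [hbu] at hab
      exact haQ (hnb a ha.1 hab)) hf.unb
  rcases h1 with h1 | h1
  · exact h1
  · exfalso
    refine hB.page d _ y s hd hdN ((Model.ok hf.mod).cut hQ hQc) h1 ?_
    intro w hw
    exact hQs w ((cut_eq hQ).1 hw)

/-- Stretching. -/
theorem JModel.stretch (hB : Jnt H N U) (hf : JModel G H U d f) (hd : 0 ≤ d) (hk : 0 ≤ k)
    (hN : d + k ≤ N) : JModel G H U (d + k) (fun w => f (Pz k w)) where
  mod := hf.mod.stretch hd hk
  unb := hB.str d k f hd hk hN (Model.ok hf.mod) hf.unb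

/-- A model which is straight in the windows `-K ≤ b ≤ K` and uses as few vertices of the window
`0` as possible. -/
theorem exists_straight (hB : Jnt H N U) {K : ℤ} (hK : 0 ≤ K) (n : ℕ) :
    ∀ (d : ℤ) (f : HV V σ → Option X), 0 ≤ d → d + (n + 1) * K ≤ N →
    JModel G H U d f → mm f ≤ n → ∃ (D : ℤ) (f' : HV V σ → Option X), d + K ≤ D ∧
      D ≤ d + (n + 1) * K ∧ JModel G H U D f' ∧ mm f' ≤ n ∧
      (∀ s c (b : ℤ), -K ≤ b → b ≤ K → f' (Sum.inr (s, c, b)) = f' (Sum.inr (s, c, 0))) ∧
      ∀ f'', JModel G H U D f'' → mm f' ≤ mm f'' := by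
  induction n with
  | zero =>
    intro d f hd hN hf hn
    refine ⟨d + K, _, le_refl _, by push_cast; linarith, hf.stretch hB hd hK (by
      push_cast at hN; linarith), ?_, ?_, ?_⟩
    · rw [mm_stretch hK]; exact hn
    · intro s c b h1 h2
      simp only [Pz]
      rw [pz_mid h1 h2, pz_mid (by omega) hK]
    · intro f'' _
      rw [mm_stretch hK]
      omega
  | succ n ih =>
    intro d f hd hN hf hn
    have hN' : d + K ≤ N := by
      push_cast at hN
      nlinarith
    by_cases h : ∃ f'', JModel G H U (d + K) f'' ∧ mm f'' ≤ n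
    · obtain ⟨f'', h1, h2⟩ := h
      obtain ⟨D, f', h3, h4, h5, h6, h7, h8⟩ := ih (d + K) f'' (by omega) (by
        push_cast at hN ⊢
        linarith) h1 h2
      refine ⟨D, f', by omega, ?_, h5, by omega, h7, h8⟩
      push_cast at h4 ⊢
      linarith
    · push Not at h
      refine ⟨d + K, _, le_refl _, ?_, hf.stretch hB hd hK hN', ?_, ?_, ?_⟩
      · push_cast
        nlinarith
      · rw [mm_stretch hK]; exact hn
      · intro s c b h1 h2
        simp only [Pz]
        rw [pz_mid h1 h2, pz_mid (by omega) hK]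
      · intro f'' h1
        rw [mm_stretch hK]
        have := h f'' h1
        omega

end

end Mdj
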