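import Pool.Agent.EN.WallRob
import Pool.Agent.EN.JModel

/-!
# Models with jointly unbalanced branch sets from coarse classes
-/

open Relation

namespace Mdj

open Mdl

variable {V σ X : Type*} {G : SimpleGraph X} {H : Host V σ} {N d : ℤ}
  {U : ℤ → (HV V σ → Option X) → Prop} {f f' : HV V σ → Option X}

/-- Coarse classes are admissible. -/
lemma Ok.of_pre (hp : Pre G H d f) : Ok H d f :=
  ⟨hp.sup, hp.fin, fun y u hu v hv => hp.con y u v hu hv⟩

/-- A model with jointly unbalanced classes: it is enough that a smaller colouring is jointly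
unbalanced. -/
theorem JModel.of_pre (hB : Jnt H N U) (hd : 0 ≤ d) (hdN : d ≤ N) (hgd : ∀ v, H.gd v)
    (hp : Pre G H d f) (hle : ∀ w y, f' w = some y → f w = some y) (hU : U d f') :
    JModel G H U d f := by
  have hok : Ok H d f := Ok.of_pre hp
  have hU' : U d f := hB.mono d f' f hd hdN hok hle hU
  refine ⟨⟨hp.sup, hp.fin, hp.con, hp.edg, ?_⟩, hU'⟩
  intro y
  obtain ⟨v, hv⟩ := hB.inl hd hdN hok hU' y
  exact ⟨v, hv, hgd v⟩

end Mdj
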