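import Pool.Agent.EN.EmbU
import Pool.Agent.EN.WallJModel

/-!
# Definitions for row C7 of T-star (text of helper34's skeleton)
-/

open Set BIC
open scoped Matroid

namespace TSK

universe u

open Mdl Mdj EN Gad

section defs

variable {α : Type u} {V σ : Type}

/-- What is used about the predicate `U` (joint ground) at the end. -/
def ULast {X : Type} (M' : Matroid α) (S : Set α) (ends : α → Sym2 (HV V σ)) (H : Host V σ) (N : ℤ)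
    (U : ℤ → (HV V σ → Option X) → Prop) : Prop :=
  ∀ (D : ℤ) (f : HV V σ → Option X), 0 ≤ D → D ≤ N → U D f → ∀ I : Finset X,
    (∀ y ∈ I, ∀ w, f w = some y → NZ H D w) →
    JU M' S ends I (fun y => shf (N - D) '' {w | f w = some y})

/-- The wall (blocks in `Z` are missing) in the host. -/
structure WallD (M' : Matroid α) (S : Set α) (ends : α → Sym2 (HV V σ)) (H : Host V σ) (N d : ℤ)
    (g : ℕ → ℕ) {h : ℕ} (Z : Finset (EN.Wall.WV h)) (f f' : HV V σ → Option (WZ Z))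
    (U : ℤ → (HV V σ → Option (WZ Z)) → Prop) : Prop where
  d0 : 0 ≤ d
  deep : d + g (mm f) ≤ N
  pre : Pre (GZ Z) H d f
  le : ∀ w y, f' w = some y → f w = some y
  unb : U d f'
  jnt : Jnt H N U
  last : ULast M' S ends H N U

/-- The pages `P j` are (one half of) the sheets. -/
def PgH (H : Host V σ) (N : ℤ) (P : ℕ → ℕ × ℕ → HV V σ) (lo hi : ℕ → ℕ) (n : ℕ) : Prop :=
  ∀ j x, lo j ≤ x → x ≤ hi j → ∃ s, x < H.len s ∧ ∀ c < H.len s, lo j ≤ c ∧ c ≤ hi j ∧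
    ∀ b ≤ n, ∃ b' : ℤ, -N ≤ b' ∧ b' ≤ N ∧ b' ≠ 0 ∧ P j (c, b) = Sum.inr (s, c, b')

/-- OUT1: a pattern. -/
def PatOut (M' : Matroid α) (S : Set α) (ends : α → Sym2 (HV V σ)) (H : Host V σ) (N : ℤ)
    (Nn mp t n₁ : ℕ) : Prop :=
  ∃ (κ : Type) (Y : EN.Sys κ) (P : ℕ → ℕ × ℕ → HV V σ) (lo hi : ℕ → ℕ) (n : ℕ)
      (B : κ → Set (HV V σ)) (col : ℕ → ℕ) (D : ℕ), Y.Ax D ∧
      RealU Y M' S ends P lo hi n B col ∧ n₁ ≤ n ∧ PgH H N P lo hi n ∧ Y.Pat Nn mp t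

/-- OUT2: many floating rectangles in one big wall model. -/
def FloatOut (M' : Matroid α) (S Sf : Set α) (ends : α → Sym2 (HV V σ)) (H : Host V σ) (N : ℤ)
    {h : ℕ} (Z : Finset (EN.Wall.WV h)) (q w : ℕ) : Prop :=
  ∃ (B : WZ Z → Set (HV V σ)) (a : ℕ → ℕ × ℕ), (∀ y, (B y).Finite) ∧ (∀ y, VConn Sf ends (B y)) ∧
    (∀ y, ∃ v, Sum.inl v ∈ B y) ∧ (∀ y z, y ≠ z → Disjoint (B y) (B z)) ∧
    (∀ y z, (GZ Z).Adj y z → Lnk Sf ends (B y) (B z)) ∧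
    (∀ i < q, ∀ y : EN.Wall.WV h, (a i).1 ≤ y.1.val → y.1.val < (a i).1 + 2 * w →
      (a i).2 ≤ y.2.val → y.2.val < (a i).2 + w → y ∉ Z) ∧
    (∀ i < q, (a i).1 + 2 * w ≤ 2 * h ∧ (a i).2 + w ≤ 2 * h) ∧
    (∀ i < q, ∀ j < q, i ≠ j → ∀ y : EN.Wall.WV h,
      ¬ ((a i).1 ≤ y.1.val ∧ y.1.val < (a i).1 + 2 * w ∧ (a i).2 ≤ y.2.val ∧
        y.2.val < (a i).2 + w ∧ (a j).1 ≤ y.1.val ∧ y.1.val < (a j).1 + 2 * w ∧
        (a j).2 ≤ y.2.val ∧ y.2.val < (a j).2 + w)) ∧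
    ∃ R : Finset (WZ Z), (∀ y, y ∈ R ↔ ∃ i < q, (a i).1 ≤ y.1.1.val ∧
      y.1.1.val < (a i).1 + 2 * w ∧ (a i).2 ≤ y.1.2.val ∧ y.1.2.val < (a i).2 + w) ∧
      (∀ y ∈ R, VConn S ends (B y) ∧ ∀ v ∈ B y, NZ H N v) ∧
      (∀ y ∈ R, ∀ z ∈ R, (GZ Z).Adj y z → Lnk S ends (B y) (B z)) ∧ JU M' S ends R B

end defs

end TSK
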