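import Pool.Agent.EN.TwoLink
import Pool.Agent.EN.PatDefs

/-!
# The exceptional vertices of the statement alpha are bounded by a constant (T-star, row D2)

`VB` is a component of the graph of the elements outside of `X` and contains a whole column of
every sheet.  If every vertex of `A` has two column ends of its own then `VB` contains all vertices
of `A` with at most `k₁ + u` exceptions.
-/

open Set BIC
open scoped Matroid

namespace TSK

universe u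

open Mdl Mdj EN Gad

variable {α V σ : Type*}

/-- The half of the column `(s, c)` on one side. -/
def HC (N : ℤ) (s : σ) (c : ℕ) (ε : ℤ) : Set (HV V σ) :=
  (fun i : ℕ => (Sum.inr (s, c, ε * (i + 1)) : HV V σ)) '' {i | i ≤ (N - 1).toNat}

/-- One level between two columns. -/
def LV (s : σ) (c c' : ℕ) (b : ℤ) : Set (HV V σ) :=
  (fun i : ℕ => (Sum.inr (s, min c c' + i, b) : HV V σ)) '' {i | i ≤ max c c' - min c c'}

lemma mem_HC {N : ℤ} (hN : 1 ≤ N) {s : σ} {c : ℕ} {ε : ℤ} {w : HV V σ} :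
    w ∈ HC N s c ε ↔ ∃ b : ℤ, 1 ≤ b ∧ b ≤ N ∧ w = Sum.inr (s, c, ε * b) := by
  constructor
  · rintro ⟨i, hi, rfl⟩
    have hi' : i ≤ (N - 1).toNat := hi
    exact ⟨i + 1, by omega, by omega, rfl⟩
  · rintro ⟨b, h1, h2, rfl⟩
    refine ⟨(b - 1).toNat, ?_, ?_⟩
    · show (b - 1).toNat ≤ (N - 1).toNat
      omega
    · have : (((b - 1).toNat : ℤ) + 1) = b := by omega
      show (Sum.inr (s, c, ε * (((b - 1).toNat : ℤ) + 1)) : HV V σ) = _
      rw [this]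

lemma mem_LV {s : σ} {c c' : ℕ} {b : ℤ} {w : HV V σ} :
    w ∈ LV s c c' b ↔ ∃ x, min c c' ≤ x ∧ x ≤ max c c' ∧ w = Sum.inr (s, x, b) := by
  constructor
  · rintro ⟨i, hi, rfl⟩
    have hi' : i ≤ max c c' - min c c' := hi
    have h3 := min_le_max (a := c) (b := c')
    exact ⟨min c c' + i, by omega, by omega, rfl⟩
  · rintro ⟨x, h1, h2, rfl⟩
    refine ⟨x - min c c', ?_, ?_⟩
    · show x - min c c' ≤ max c c' - min c c'
      omega
    · show (Sum.inr (s, min c c' + (x - min c c'), b) : HV V σ) = _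
      have : min c c' + (x - min c c') = x := by omega
      rw [this]

section

variable {S Sf : Set α} {ends : α → Sym2 (HV V σ)} {H : Host V σ} {N : ℤ}

lemma vconn_up {A : Set (HV V σ)} (hS : S ⊆ Sf) (hA : VConn S ends A) : VConn Sf ends A := by
  intro x hx y hy
  have h := hA x hx y hy
  induction h with
  | refl => exact Relation.ReflTransGen.refl
  | tail _ h2 ih =>
    obtain ⟨⟨e, he, hee⟩, h3, h4⟩ := h2
    exact (ih h3).tail ⟨⟨e, hS he, hee⟩, h3, h4⟩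

lemma LV_conn (hE : Emb S ends H N id) {s : σ} {c c' : ℕ} (hc : c < H.len s) (hc' : c' < H.len s)
    {b : ℤ} (h1 : -N ≤ b) (h2 : b ≤ N) (h3 : b ≠ 0) :
    VConn S ends (LV s c c' b : Set (HV V σ)) := by
  refine vconn_path _ _ fun i hi => ?_
  have hm : max c c' < H.len s := max_lt hc hc'
  have h4 := min_le_max (a := c) (b := c')
  refine hE.adj (Sum.inr (s, min c c' + i, b)) (Sum.inr (s, min c c' + (i + 1), b))
    ⟨by omega, h1, h2, h3⟩ ⟨by omega, h1, h2, h3⟩ (Or.inl ⟨rfl, by omega, h1, h2, Or.inr ?_⟩)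
  exact ⟨rfl, rfl, h3⟩

lemma HC_conn (hE : Emb S ends H N id) {s : σ} {c : ℕ} (hc : c < H.len s) (hN : 1 ≤ N) {ε : ℤ}
    (hε : ε = 1 ∨ ε = -1) : VConn S ends (HC N s c ε : Set (HV V σ)) := by
  refine vconn_path _ _ fun i hi => ?_
  have h0 : i < (N - 1).toNat := hi
  rcases hε with rfl | rfl
  · refine hE.adj (Sum.inr (s, c, 1 * ((i : ℤ) + 1))) (Sum.inr (s, c, 1 * (((i + 1 : ℕ) : ℤ) + 1)))
      ⟨hc, by omega, by omega, by omega⟩ ⟨hc, by omega, by omega, by omega⟩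
      (Or.inl ⟨rfl, hc, by omega, by omega, Or.inl ⟨rfl, by push_cast; ring⟩⟩)
  · refine hE.adj (Sum.inr (s, c, -1 * ((i : ℤ) + 1))) (Sum.inr (s, c, -1 * (((i + 1 : ℕ) : ℤ) + 1)))
      ⟨hc, by omega, by omega, by omega⟩ ⟨hc, by omega, by omega, by omega⟩
      (Or.inr ⟨rfl, hc, by omega, by omega, Or.inl ⟨rfl, by push_cast; ring⟩⟩)

variable {M : Matroid α} {u k₁ : ℕ}

/-- Every half column meets `VB`. -/
theorem half_meets [M.Finite] (hF : FrmU M Sf ends u) (hS : S ⊆ Sf) (hE : Emb S ends H N id)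
    {X : Set α} (hX : X ⊆ M.E) (hr : BIC.rk M X + BIC.rk M (M.E \ X) < BIC.rk M M.E + k₁)
    {VB : Set (HV V σ)} (hBf : VB.Finite) (hB : VConn (Sf \ X) ends VB)
    (hmax : ∀ e ∈ Sf, e ∉ X → ∀ v ∈ ends e, v ∈ VB → ∀ w ∈ ends e, w ∈ VB) {s : σ} {c₀ : ℕ}
    (hc₀ : c₀ < H.len s) (hcol : ∀ b : ℤ, -N ≤ b → b ≤ N → b ≠ 0 → Sum.inr (s, c₀, b) ∈ VB)
    (hN : 2 * ((k₁ : ℤ) + u + 1) ≤ N) {c : ℕ} (hc : c < H.len s) {ε : ℤ} (hε : ε = 1 ∨ ε = -1) :
    (HC N s c ε ∩ VB).Nonempty := by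
  classical
  by_contra hne
  have hN1 : 1 ≤ N := by omega
  have hno : ∀ b : ℤ, 1 ≤ b → b ≤ N → (Sum.inr (s, c, ε * b) : HV V σ) ∉ VB := by
    intro b h1 h2 h3
    exact hne ⟨_, (mem_HC hN1).2 ⟨b, h1, h2, rfl⟩, h3⟩
  have hin : ∀ b : ℤ, 1 ≤ b → b ≤ N → (Sum.inr (s, c₀, ε * b) : HV V σ) ∈ VB := by
    intro b h1 h2
    rcases hε with rfl | rfl
    · exact hcol _ (by omega) (by omega) (by omega)
    · exact hcol _ (by omega) (by omega) (by omega)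
  have hlev : ∀ b : ℤ, 1 ≤ b → b ≤ N → -N ≤ ε * b ∧ ε * b ≤ N ∧ ε * b ≠ 0 := by
    intro b h1 h2
    rcases hε with rfl | rfl
    · exact ⟨by omega, by omega, by omega⟩
    · exact ⟨by omega, by omega, by omega⟩
  have hεi : ∀ a b : ℤ, ε * a = ε * b → a = b := by
    intro a b h
    rcases hε with rfl | rfl <;> omega
  have key := hF.two_paths hX hBf ⟨_, hin 1 le_rfl hN1⟩ hB hmax (Finset.range (k₁ + u + 1))
    (Q := fun i => LV s c c₀ (ε * (2 * i + 1))) (Q' := fun i => LV s c c₀ (ε * (2 * i + 2)))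
    (p := fun i => Sum.inr (s, c, ε * (2 * i + 1))) (p' := fun i => Sum.inr (s, c, ε * (2 * i + 2)))
    ?_ ?_ ?_ ?_ ?_ ?_ ?_ ?_ ?_ ?_ ?_
  · rw [Finset.card_range] at key
    omega
  · intro i _
    exact (finite_le_nat _).image _
  · intro i _
    exact (finite_le_nat _).image _
  · intro i hi
    have hi' := Finset.mem_range.1 hi
    obtain ⟨h1, h2, h3⟩ := hlev (2 * i + 1) (by omega) (by omega)
    exact vconn_up hS (LV_conn hE hc hc₀ h1 h2 h3)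
  · intro i hi
    have hi' := Finset.mem_range.1 hi
    obtain ⟨h1, h2, h3⟩ := hlev (2 * i + 2) (by omega) (by omega)
    exact vconn_up hS (LV_conn hE hc hc₀ h1 h2 h3)
  · intro i hi
    have hi' := Finset.mem_range.1 hi
    exact ⟨_, mem_LV.2 ⟨c₀, min_le_right _ _, le_max_right _ _, rfl⟩,
      hin _ (by omega) (by omega)⟩
  · intro i hi
    have hi' := Finset.mem_range.1 hi
    exact ⟨_, mem_LV.2 ⟨c₀, min_le_right _ _, le_max_right _ _, rfl⟩,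
      hin _ (by omega) (by omega)⟩
  · intro i hi
    have hi' := Finset.mem_range.1 hi
    exact ⟨mem_LV.2 ⟨c, min_le_left _ _, le_max_left _ _, rfl⟩, hno _ (by omega) (by omega)⟩
  · intro i hi
    have hi' := Finset.mem_range.1 hi
    exact ⟨mem_LV.2 ⟨c, min_le_left _ _, le_max_left _ _, rfl⟩, hno _ (by omega) (by omega)⟩
  · intro i hi
    have hi' := Finset.mem_range.1 hi
    obtain ⟨h1, h2, h3⟩ := hlev (2 * i + 1) (by omega) (by omega)
    obtain ⟨g1, g2, g3⟩ := hlev (2 * i + 2) (by omega) (by omega)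
    right
    have h5 : H.Adj N (Sum.inr (s, c, ε * (2 * (i : ℤ) + 1)) : HV V σ)
        (Sum.inr (s, c, ε * (2 * (i : ℤ) + 2))) := by
      rcases hε with rfl | rfl
      · exact Or.inl ⟨rfl, hc, h1, g2, Or.inl ⟨rfl, by ring⟩⟩
      · exact Or.inr ⟨rfl, hc, g1, h2, Or.inl ⟨rfl, by ring⟩⟩
    obtain ⟨e, he, hee⟩ := hE.adj _ _ (show NZ H N (Sum.inr (s, c, ε * (2 * (i : ℤ) + 1)) : HV V σ)
      from ⟨hc, h1, h2, h3⟩) (show NZ H N (Sum.inr (s, c, ε * (2 * (i : ℤ) + 2)) : HV V σ)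
      from ⟨hc, g1, g2, g3⟩) h5
    exact ⟨e, hS he, hee⟩
  · intro i hi v hv hv'
    obtain ⟨x, _, _, rfl⟩ := mem_LV.1 hv
    obtain ⟨x', _, _, h⟩ := mem_LV.1 hv'
    simp only [Sum.inr.injEq, Prod.mk.injEq, true_and] at h
    have := hεi _ _ h.2
    omega
  · intro i hi j hj hij
    rw [Set.disjoint_left]
    rintro v (hv | hv) (hw | hw)
    all_goals
      obtain ⟨x, _, _, rfl⟩ := mem_LV.1 hv
      obtain ⟨x', _, _, h⟩ := mem_LV.1 hw
      simp only [Sum.inr.injEq, Prod.mk.injEq, true_and] at h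
      have := hεi _ _ h.2
      omega

/-- Two column ends of their own for the vertices of `A`. -/
structure INL (Sf : Set α) (ends : α → Sym2 (HV V σ)) (H : Host V σ) (N : ℤ) (A : Set V)
    (pt : V → Bool → σ × ℕ × ℤ) : Prop where
  lt : ∀ v ∈ A, ∀ i, (pt v i).2.1 < H.len (pt v i).1
  sgn : ∀ v ∈ A, ∀ i, (pt v i).2.2 = 1 ∨ (pt v i).2.2 = -1
  adj : ∀ v ∈ A, ∀ i, GAdj Sf ends (Sum.inl v)
    (Sum.inr ((pt v i).1, (pt v i).2.1, (pt v i).2.2 * N))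
  inj : ∀ v ∈ A, ∀ w ∈ A, ∀ i j, pt v i = pt w j → v = w ∧ i = j

/-- **The number of exceptional vertices is bounded by a constant.** -/
theorem alpha_const [M.Finite] (hF : FrmU M Sf ends u) (hS : S ⊆ Sf) (hE : Emb S ends H N id)
    {A : Set V} (hA : A.Finite) {pt : V → Bool → σ × ℕ × ℤ} (hI : INL Sf ends H N A pt)
    {X : Set α} (hX : X ⊆ M.E) (hr : BIC.rk M X + BIC.rk M (M.E \ X) < BIC.rk M M.E + k₁)
    {VB : Set (HV V σ)} (hBf : VB.Finite) (hB : VConn (Sf \ X) ends VB)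
    (hmax : ∀ e ∈ Sf, e ∉ X → ∀ v ∈ ends e, v ∈ VB → ∀ w ∈ ends e, w ∈ VB)
    (hcol : ∀ s, 0 < H.len s → ∃ c < H.len s, ∀ b : ℤ, -N ≤ b → b ≤ N → b ≠ 0 →
      Sum.inr (s, c, b) ∈ VB)
    (hN : 2 * ((k₁ : ℤ) + u + 1) ≤ N) :
    {v ∈ A | (Sum.inl v : HV V σ) ∉ VB}.ncard ≤ k₁ + u := by
  classical
  have hN1 : 1 ≤ N := by omega
  set T : Set V := {v ∈ A | (Sum.inl v : HV V σ) ∉ VB} with hT
  have hTf : T.Finite := hA.subset fun v hv => hv.1
  rcases T.eq_empty_or_nonempty with h0 | ⟨v₀, hv₀⟩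
  · rw [h0, ncard_empty]
    exact Nat.zero_le _
  have hmeet : ∀ v ∈ A, ∀ i, (HC N (pt v i).1 (pt v i).2.1 (pt v i).2.2 ∩ VB).Nonempty := by
    intro v hv i
    have h1 := hI.lt v hv i
    obtain ⟨c₀, hc₀, hcc⟩ := hcol _ (lt_of_le_of_lt (Nat.zero_le _) h1)
    exact half_meets hF hS hE hX hr hBf hB hmax hc₀ hcc hN h1 (hI.sgn v hv i)
  have hconn : ∀ v ∈ A, ∀ i, VConn Sf ends
      ({Sum.inl v} ∪ HC N (pt v i).1 (pt v i).2.1 (pt v i).2.2 : Set (HV V σ)) := by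
    intro v hv i
    refine vc_lnk ?_ ?_ ?_
    · rintro a rfl b rfl
      exact Relation.ReflTransGen.refl
    · exact vconn_up hS (HC_conn hE (hI.lt v hv i) hN1 (hI.sgn v hv i))
    · obtain ⟨e, he, hee⟩ := hI.adj v hv i
      exact ⟨e, he, _, rfl, _, (mem_HC hN1).2 ⟨N, hN1, le_rfl, rfl⟩, hee⟩
  have hdis : ∀ v ∈ A, ∀ w ∈ A, ∀ i j, ∀ z : HV V σ,
      z ∈ HC N (pt v i).1 (pt v i).2.1 (pt v i).2.2 →
      z ∈ HC N (pt w j).1 (pt w j).2.1 (pt w j).2.2 → v = w ∧ i = j := by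
    intro v hv w hw i j z hz hz'
    refine hI.inj v hv w hw i j ?_
    obtain ⟨b, h1, h2, rfl⟩ := (mem_HC hN1).1 hz
    obtain ⟨b', h1', h2', h⟩ := (mem_HC hN1).1 hz'
    simp only [Sum.inr.injEq, Prod.mk.injEq] at h
    obtain ⟨g1, g2, g3⟩ := h
    refine Prod.ext g1 (Prod.ext g2 ?_)
    rcases hI.sgn v hv i with h3 | h3 <;> rcases hI.sgn w hw j with h4 | h4 <;>
      rw [h3, h4] at g3 ⊢ <;> omega
  have hinr : ∀ (v : V) (s : σ) (c : ℕ) (ε : ℤ), (Sum.inl v : HV V σ) ∉ HC N s c ε := by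
    intro v s c ε h
    obtain ⟨b, _, _, h⟩ := (mem_HC hN1).1 h
    exact absurd h (by simp)
  have key := hF.two_paths hX hBf ⟨_, (hmeet v₀ hv₀.1 true).choose_spec.2⟩ hB hmax hTf.toFinset
    (Q := fun v => {Sum.inl v} ∪ HC N (pt v true).1 (pt v true).2.1 (pt v true).2.2)
    (Q' := fun v => {Sum.inl v} ∪ HC N (pt v false).1 (pt v false).2.1 (pt v false).2.2)
    (p := fun v => Sum.inl v) (p' := fun v => Sum.inl v)
    ?_ ?_ ?_ ?_ ?_ ?_ ?_ ?_ ?_ ?_ ?_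
  · rw [← ncard_eq_toFinset_card _ hTf] at key
    omega
  · intro v _
    exact (finite_singleton _).union ((finite_le_nat _).image _)
  · intro v _
    exact (finite_singleton _).union ((finite_le_nat _).image _)
  · intro v hv
    exact hconn v (hTf.mem_toFinset.1 hv).1 true
  · intro v hv
    exact hconn v (hTf.mem_toFinset.1 hv).1 false
  · intro v hv
    obtain ⟨w, h1, h2⟩ := hmeet v (hTf.mem_toFinset.1 hv).1 true
    exact ⟨w, Or.inr h1, h2⟩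
  · intro v hv
    obtain ⟨w, h1, h2⟩ := hmeet v (hTf.mem_toFinset.1 hv).1 false
    exact ⟨w, Or.inr h1, h2⟩
  · intro v hv
    exact ⟨Or.inl rfl, (hTf.mem_toFinset.1 hv).2⟩
  · intro v hv
    exact ⟨Or.inl rfl, (hTf.mem_toFinset.1 hv).2⟩
  · intro v _
    exact Or.inl rfl
  · intro v hv z hz hz'
    have hv' := hTf.mem_toFinset.1 hv
    rcases hz with hz | hz
    · rw [mem_singleton_iff.1 hz]
      exact hv'.2
    · rcases hz' with hz' | hz'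
      · rw [mem_singleton_iff.1 hz']
        exact hv'.2
      · exact absurd (hdis v hv'.1 v hv'.1 _ _ z hz hz').2 (by simp)
  · intro v hv w hw hvw
    have hv' := hTf.mem_toFinset.1 hv
    have hw' := hTf.mem_toFinset.1 hw
    rw [Set.disjoint_left]
    rintro z ((h1 | h1) | (h1 | h1)) ((h2 | h2) | (h2 | h2))
    all_goals first
      | exact hvw (Sum.inl.inj ((mem_singleton_iff.1 h1).symm.trans (mem_singleton_iff.1 h2)))
      | (rw [mem_singleton_iff.1 h1] at h2; exact hinr _ _ _ _ h2)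
      | (rw [mem_singleton_iff.1 h2] at h1; exact hinr _ _ _ _ h1)
      | exact hvw (hdis v hv'.1 w hw'.1 _ _ z h1 h2).1

/-- **alpha, column form.**  The piece `VB` contains a whole column of every sheet. -/
def AlphaC (M : Matroid α) (E₂ Sf : Set α) (ends : α → Sym2 (HV V σ)) (H : Host V σ) (N : ℤ)
    (k₁ : ℕ) : Prop :=
  ∀ X ⊆ M.E, Disjoint X E₂ → BIC.rk M X + BIC.rk M (M.E \ X) < BIC.rk M M.E + k₁ →
    ∃ (VB : Set (HV V σ)) (B : Set α), VB.Finite ∧ B ⊆ Sf ∧ Disjoint B X ∧ VConn B ends VB ∧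
      ∀ s, 0 < H.len s → ∃ c < H.len s, ∀ b : ℤ, -N ≤ b → b ≤ N → b ≠ 0 → Sum.inr (s, c, b) ∈ VB

/-- A connected piece grows to a component. -/
lemma exists_comp [M.Finite] {V' : Type*} {ends : α → Sym2 V'} {VB : Set V'} {B X : Set α}
    (hSM : Sf ⊆ M.E) (hf : VB.Finite) (hBS : B ⊆ Sf) (hBX : Disjoint B X)
    (hc : VConn B ends VB) : ∃ VC : Set V', VB ⊆ VC ∧ VC.Finite ∧ VConn (Sf \ X) ends VC ∧
      ∀ e ∈ Sf, e ∉ X → ∀ v ∈ ends e, v ∈ VC → ∀ w ∈ ends e, w ∈ VC := by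
  classical
  set r : V' → V' → Prop := fun x y => GAdj (Sf \ X) ends x y with hr
  set VC : Set V' := {w | ∃ v ∈ VB, Relation.ReflTransGen r v w} with hVC
  have hsymm : ∀ x y, r x y → r y x := fun x y h => GAdj.symm h
  have hin : ∀ {v w}, v ∈ VC → Relation.ReflTransGen r v w →
      Relation.ReflTransGen (fun x y => GAdj (Sf \ X) ends x y ∧ x ∈ VC ∧ y ∈ VC) v w := by
    intro v w hv h
    obtain ⟨v₀, hv₀, h₀⟩ := hv
    induction h with
    | refl => exact Relation.ReflTransGen.refl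
    | tail h1 h2 ih =>
      exact ih.tail ⟨h2, ⟨v₀, hv₀, h₀.trans h1⟩, ⟨v₀, hv₀, (h₀.trans h1).tail h2⟩⟩
  have hrev : ∀ {v w}, Relation.ReflTransGen r v w → Relation.ReflTransGen r w v := by
    intro v w h
    induction h with
    | refl => exact Relation.ReflTransGen.refl
    | tail _ h2 ih => exact Relation.ReflTransGen.head (hsymm _ _ h2) ih
  have hVB : ∀ v ∈ VB, ∀ w ∈ VB, Relation.ReflTransGen r v w := by
    intro v hv w hw
    have h := hc v hv w hw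
    induction h with
    | refl => exact Relation.ReflTransGen.refl
    | tail _ h2 ih =>
      obtain ⟨⟨e, he, hee⟩, h3, h4⟩ := h2
      exact (ih h3).tail ⟨e, ⟨hBS he, Set.disjoint_left.1 hBX he⟩, hee⟩
  refine ⟨VC, fun v hv => ⟨v, hv, Relation.ReflTransGen.refl⟩, ?_, ?_, ?_⟩
  · have hSf : Sf.Finite := M.ground_finite.subset hSM
    have h1 : (⋃ e ∈ Sf, {v | v ∈ ends e}).Finite := by
      refine hSf.biUnion fun e _ => ?_
      obtain ⟨a, b, hab⟩ : ∃ a b, ends e = s(a, b) := ⟨(ends e).out.1, (ends e).out.2,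
        (Quot.out_eq (ends e)).symm⟩
      refine ((finite_singleton a).union (finite_singleton b)).subset fun v hv => ?_
      rw [mem_ofPred_eq, hab, Sym2.mem_iff] at hv
      exact hv
    refine (hf.union h1).subset ?_
    rintro w ⟨v, hv, h⟩
    rcases Relation.ReflTransGen.cases_tail h with h | ⟨x, _, ⟨e, he, hee⟩⟩
    · exact Or.inl (h ▸ hv)
    · exact Or.inr (mem_iUnion₂.2 ⟨e, he.1, by
        show w ∈ ends e
        rw [hee]
        exact Sym2.mem_mk_right _ _⟩)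
  · intro x hx y hy
    obtain ⟨v, hv, h1⟩ := hx
    obtain ⟨w, hw, h2⟩ := hy
    exact hin ⟨v, hv, h1⟩ (((hrev h1).trans (hVB v hv w hw)).trans h2)
  · intro e he heX v hv hvC w hw
    by_cases hvw : v = w
    · exact hvw ▸ hvC
    · obtain ⟨v₀, hv₀, h₀⟩ := hvC
      exact ⟨v₀, hv₀, h₀.tail ⟨e, ⟨he, heX⟩, (Sym2.mem_and_mem_iff hvw).1 ⟨hv, hw⟩⟩⟩

/-- **alpha with the bound for the exceptional vertices.** -/
theorem AlphaC.alpha [M.Finite] {E₂ : Set α} (h : AlphaC M E₂ Sf ends H N k₁)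
    (hF : FrmU M Sf ends u) (hS : S ⊆ Sf) (hE : Emb S ends H N id) {A : Set V} (hA : A.Finite)
    {pt : V → Bool → σ × ℕ × ℤ} (hI : INL Sf ends H N A pt) (hN : 2 * ((k₁ : ℤ) + u + 1) ≤ N)
    {X : Set α} (hX : X ⊆ M.E) (hd : Disjoint X E₂)
    (hr : BIC.rk M X + BIC.rk M (M.E \ X) < BIC.rk M M.E + k₁) :
    ∃ (VB : Set (HV V σ)) (B : Set α), VB.Finite ∧ B ⊆ Sf ∧ Disjoint B X ∧ B ⊆ ins Sf ends VB ∧
      VConn B ends VB ∧
      (∀ s, 0 < H.len s → ∃ c < H.len s, ∀ b : ℤ, -N ≤ b → b ≤ N → b ≠ 0 →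
        Sum.inr (s, c, b) ∈ VB) ∧
      (∀ e ∈ Sf, e ∉ X → ∀ v ∈ ends e, v ∈ VB → ∀ w ∈ ends e, w ∈ VB) ∧
      {v ∈ A | (Sum.inl v : HV V σ) ∉ VB}.ncard ≤ k₁ + u := by
  obtain ⟨VB, B, h1, h2, h3, h4, h5⟩ := h X hX hd hr
  obtain ⟨VC, g1, g2, g3, g4⟩ := exists_comp (M := M) hF.sub h1 h2 h3 h4
  have hcol : ∀ s, 0 < H.len s → ∃ c < H.len s, ∀ b : ℤ, -N ≤ b → b ≤ N → b ≠ 0 →
      Sum.inr (s, c, b) ∈ VC := by
    intro s hs
    obtain ⟨c, hc, hcc⟩ := h5 s hs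
    exact ⟨c, hc, fun b b1 b2 b3 => g1 (hcc b b1 b2 b3)⟩
  refine ⟨VC, ins (Sf \ X) ends VC, g2, fun e he => he.1.1,
    Set.disjoint_left.2 fun e he => he.1.2, fun e he => ⟨he.1.1, he.2⟩, ?_, hcol, g4,
    alpha_const hF hS hE hA hI hX hr g2 g3 g4 hcol hN⟩
  intro x hx y hy
  have hxy := g3 x hx y hy
  induction hxy with
  | refl => exact Relation.ReflTransGen.refl
  | tail _ h2 ih =>
    obtain ⟨⟨e, he, hee⟩, h3, h4⟩ := h2
    refine (ih h3).tail ⟨⟨e, ⟨he, fun v hv => ?_⟩, hee⟩, h3, h4⟩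
    rw [hee, Sym2.mem_iff] at hv
    rcases hv with rfl | rfl
    · exact h3
    · exact h4

/-- **alpha for a set `A` of outside vertices.** -/
def AlphaA (M : Matroid α) (E₂ Sf : Set α) (ends : α → Sym2 (HV V σ)) (H : Host V σ) (N : ℤ)
    (k₁ : ℕ) (A : Set V) (e : ℕ) : Prop :=
  ∀ X ⊆ M.E, Disjoint X E₂ → BIC.rk M X + BIC.rk M (M.E \ X) < BIC.rk M M.E + k₁ →
    ∃ (VB : Set (HV V σ)) (B : Set α), VB.Finite ∧ B ⊆ Sf ∧ Disjoint B X ∧ B ⊆ ins Sf ends VB ∧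
      VConn B ends VB ∧
      (∀ s, 0 < H.len s → ∃ c < H.len s, ∀ b : ℤ, -N ≤ b → b ≤ N → b ≠ 0 →
        Sum.inr (s, c, b) ∈ VB) ∧ {v ∈ A | (Sum.inl v : HV V σ) ∉ VB}.ncard ≤ e

lemma AlphaA.mono {E₂ : Set α} {A A' : Set V} {k₂ e e' : ℕ} (hA : A.Finite)
    (h : AlphaA M E₂ Sf ends H N k₁ A e) (hk : k₂ ≤ k₁) (hAA : A' ⊆ A) (he : e ≤ e') :
    AlphaA M E₂ Sf ends H N k₂ A' e' := by
  intro X hX hd hr
  obtain ⟨VB, B, h1, h2, h3, h4, h5, h6, h7⟩ := h X hX hd (by omega)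
  have h8 : {v ∈ A' | (Sum.inl v : HV V σ) ∉ VB} ⊆ {v ∈ A | (Sum.inl v : HV V σ) ∉ VB} :=
    fun v hv => ⟨hAA hv.1, hv.2⟩
  exact ⟨VB, B, h1, h2, h3, h4, h5, h6,
    ((ncard_le_ncard h8 (hA.subset fun v hv => hv.1)).trans h7).trans he⟩

/-- **Vertices with two column ends are free of charge.** -/
theorem AlphaA.join [M.Finite] {E₂ : Set α} {A₀ A₁ : Set V} {e₀ : ℕ}
    (h : AlphaA M E₂ Sf ends H N k₁ A₀ e₀) (hF : FrmU M Sf ends u) (hS : S ⊆ Sf)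
    (hE : Emb S ends H N id) (hA₀ : A₀.Finite) (hA : A₁.Finite) {pt : V → Bool → σ × ℕ × ℤ}
    (hI : INL Sf ends H N A₁ pt) (hN : 2 * ((k₁ : ℤ) + u + 1) ≤ N) :
    AlphaA M E₂ Sf ends H N k₁ (A₀ ∪ A₁) (e₀ + (k₁ + u)) := by
  intro X hX hd hr
  obtain ⟨VB, B, h1, h2, h3, h4, h5, h6, h7⟩ := h X hX hd hr
  obtain ⟨VC, g1, g2, g3, g4⟩ := exists_comp (M := M) hF.sub h1 h2 h3 h5
  have hcol : ∀ s, 0 < H.len s → ∃ c < H.len s, ∀ b : ℤ, -N ≤ b → b ≤ N → b ≠ 0 →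
      Sum.inr (s, c, b) ∈ VC := by
    intro s hs
    obtain ⟨c, hc, hcc⟩ := h6 s hs
    exact ⟨c, hc, fun b b1 b2 b3 => g1 (hcc b b1 b2 b3)⟩
  refine ⟨VC, ins (Sf \ X) ends VC, g2, fun e he => he.1.1,
    Set.disjoint_left.2 fun e he => he.1.2, fun e he => ⟨he.1.1, he.2⟩, ?_, hcol, ?_⟩
  · intro x hx y hy
    have hxy := g3 x hx y hy
    induction hxy with
    | refl => exact Relation.ReflTransGen.refl
    | tail _ h2 ih =>
      obtain ⟨⟨e, he, hee⟩, h3, h4⟩ := h2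
      refine (ih h3).tail ⟨⟨e, ⟨he, fun v hv => ?_⟩, hee⟩, h3, h4⟩
      rw [hee, Sym2.mem_iff] at hv
      rcases hv with rfl | rfl
      · exact h3
      · exact h4
  · have h8 := alpha_const hF hS hE hA hI hX hr g2 g3 g4 hcol hN
    have h9' : {v ∈ A₀ | (Sum.inl v : HV V σ) ∉ VC} ⊆ {v ∈ A₀ | (Sum.inl v : HV V σ) ∉ VB} :=
      fun v hv => ⟨hv.1, fun h => hv.2 (g1 h)⟩
    have h9 := (ncard_le_ncard h9' (hA₀.subset fun v hv => hv.1)).trans h7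
    have h10 : {v ∈ A₀ ∪ A₁ | (Sum.inl v : HV V σ) ∉ VC} ⊆
        {v ∈ A₀ | (Sum.inl v : HV V σ) ∉ VC} ∪ {v ∈ A₁ | (Sum.inl v : HV V σ) ∉ VC} := by
      rintro v ⟨hv | hv, hv'⟩
      · exact Or.inl ⟨hv, hv'⟩
      · exact Or.inr ⟨hv, hv'⟩
    have h11 := ncard_le_ncard h10 ((hA₀.subset fun v hv => hv.1).union
      (hA.subset fun v hv => hv.1))
    have h12 := ncard_union_le {v ∈ A₀ | (Sum.inl v : HV V σ) ∉ VC}
      {v ∈ A₁ | (Sum.inl v : HV V σ) ∉ VC}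
    omega

end

end TSK
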