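import Pool.Agent.EN.Heights

/-!
# Reductions of states: (A1), kisses, forests, (A2)
-/

open Relation

namespace Mdl

variable {V σ X : Type*}

section

variable {G : SimpleGraph X} {H : Host V σ} {D K : ℤ} {g : HV V σ → Option X}
  {us : Set (σ × ℕ)} {h : σ → ℕ → ℤ} {f : HV V σ → Option X} {y z : X}

lemma exc_del {s₀ : σ} {c₀ : ℕ} (h0 : (s₀, c₀) ∈ us) (hh0 : h s₀ c₀ = 0) :
    Exc H K g us h (del (rz H K g us h) (Sum.inr (s₀, c₀, 0))) := by
  intro w hw
  rcases eq_or_ne w (Sum.inr (s₀, c₀, 0)) with h1 | h1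
  · exact ⟨s₀, c₀, h1, h0, hh0⟩
  · rw [del_ne h1] at hw
    exact absurd rfl hw

/-- Connections lift to the realization without `(s₀, c₀, 0)` if the jump at this column does. -/
lemma St.lift_del (hS : State G H D K g us) (hh : Hts G K g us h) (hK : 0 < K) (hKD : K ≤ D)
    {s₀ : σ} {c₀ : ℕ} (h0 : (s₀, c₀) ∈ us) (hh0 : h s₀ c₀ = 0)
    (hj : g (Sum.inr (s₀, c₀, -K)) = some y → g (Sum.inr (s₀, c₀, K)) = some y →
      Cn H D (del (rz H K g us h) (Sum.inr (s₀, c₀, 0))) y (Sum.inr (s₀, c₀, -K))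
        (Sum.inr (s₀, c₀, K))) {u v : HV V σ} (huv : St H D K g us y u v) :
    Cn H D (del (rz H K g us h) (Sum.inr (s₀, c₀, 0))) y u v := by
  have he : Exc H K g us h (del (rz H K g us h) (Sum.inr (s₀, c₀, 0))) := exc_del h0 hh0
  induction huv with
  | refl => exact ReflTransGen.refl
  | tail _ hbc ih =>
    refine ih.trans ?_
    rcases hbc with h1 | ⟨s, c, h1, h2, h3, h4⟩
    · exact he.oa hK h1
    · have h5 : Cn H D (del (rz H K g us h) (Sum.inr (s₀, c₀, 0))) y (Sum.inr (s, c, -K))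
          (Sum.inr (s, c, K)) := by
        by_cases h6 : (s, c) = (s₀, c₀)
        · obtain ⟨rfl, rfl⟩ := Prod.mk.inj h6
          exact hj h2 h3
        · refine he.jump hS hh hK hKD h1 h2 h3 (del_ne ?_)
          intro h7
          simp only [Sum.inr.injEq, Prod.mk.injEq] at h7
          exact h6 (by rw [h7.1, h7.2.1])
      rcases h4 with ⟨rfl, rfl⟩ | ⟨rfl, rfl⟩
      · exact h5
      · exact h5.symm

/-- **(A1)** -/
theorem State.a1 [Finite σ]
    (h4 : ∀ a b c d, G.Adj a b → G.Adj b c → G.Adj c d → G.Adj d a → a = c ∨ b = d)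
    (hS : State G H D K g us) (hK : 2 * us.ncard + 4 ≤ K) (hKD : K ≤ D) {s : σ} {i j : ℕ}
    (hij : Cons us s i j) (hi : g (Sum.inr (s, i, -K)) = some y)
    (hj : g (Sum.inr (s, j, -K)) = some y) : ∃ f', Model G H D f' ∧ mm f' < us.ncard := by
  classical
  have hiu := hij.2.1
  have hju := hij.2.2.1
  have hjl := hS.lt hju
  obtain ⟨c, hjc, hl⟩ := hij.lu
  have hcl : c < H.len s := by omega
  obtain ⟨h, hh, hh0, hst⟩ := exists_hts h4 hS hK s j
    (fun s' j' => if s' = s ∧ j' = j then some (-2) else none) (by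
      intro s' i' j' x hc hx
      split_ifs at hx with h1
      rw [Option.some.injEq] at hx
      subst hx
      obtain ⟨rfl, rfl⟩ := h1
      have h2 := hc.uniq hij
      subst h2
      refine ⟨by norm_num, fun _ => rfl, fun h3 => ?_⟩
      exfalso
      obtain ⟨a, a', b, b', h5, _, h6, _, _, _, _, _, h7⟩ := h3
      rw [hi, Option.some.injEq] at h5
      rw [hj, Option.some.injEq] at h6
      exact h7 (h5.symm.trans h6))
  have hhi : h s i = 2 := by
    have := hst s i j (-2) hij (if_pos ⟨rfl, rfl⟩)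
    omega
  obtain ⟨_, y₀, _, hy₀, _⟩ := hS.own s j hju
  obtain ⟨v₀, hv₀, hg⟩ := hS.gnd y₀
  have he : Exc H K g us h (del (rz H K g us h) (Sum.inr (s, j, 0))) := exc_del hju hh0
  have hlo : ∀ s i, (s, i) ∈ us → -K < h s i := fun s i hi => by have := hh.lo s i hi; omega
  have hhi' : ∀ s i, (s, i) ∈ us → h s i ≤ K := fun s i hi => by have := hh.hi s i hi; omega
  have hK1 : 4 ≤ K := by omega
  have hne : ∀ (c' : ℕ) (b : ℤ), b ≠ 0 →
      (Sum.inr (s, c', b) : HV V σ) ≠ Sum.inr (s, j, 0) := by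
    intro c' b hb h1
    simp only [Sum.inr.injEq, Prod.mk.injEq] at h1
    exact hb h1.2.2
  -- the previous column in the windows -1 and 1
  have hc1 : ∀ b : ℤ, b ≠ 0 → b < 2 → -K < b → rz H K g us h (Sum.inr (s, c, b)) = some y := by
    intro b hb1 hb2 hb3
    rw [rz_lo hb3 (by omega) hcl (Or.inl hb1) hl (by omega)]
    exact hi
  have hc2 : ∀ b : ℤ, b ≠ 0 → b < 2 → -K < b →
      Cn H D (del (rz H K g us h) (Sum.inr (s, j, 0))) y (Sum.inr (s, c, b))
        (Sum.inr (s, i, -K)) := by
    intro b hb1 hb2 hb3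
    obtain ⟨i', h5, _, _, h6⟩ := he.rep hKD hlo hhi' hb3 (by omega) c
      (by rw [del_ne (hne c b hb1)]; exact hc1 b hb1 hb2 hb3) (del_ne (hne c b hb1))
    rw [hl, Option.some.injEq] at h5
    subst h5
    rcases h6 with ⟨_, _, h6⟩ | ⟨h6, _, _⟩
    · exact h6
    · omega
  have hjr : rz H K g us h (Sum.inr (s, j, 1)) = some y₀ := by
    rw [rz_right hju hjl (hlo s j hju) (by omega) (by omega)]
    exact hy₀
  have hjr' : Cn H D (del (rz H K g us h) (Sum.inr (s, j, 0))) y₀ (Sum.inr (s, j, 1))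
      (Sum.inr (s, j, K)) :=
    he.right hKD hju hjl (hlo s j hju) (by omega) (by omega) hy₀ (del_ne (hne j 1 (by omega)))
  have hjump : g (Sum.inr (s, j, -K)) = some y₀ → g (Sum.inr (s, j, K)) = some y₀ →
      Cn H D (del (rz H K g us h) (Sum.inr (s, j, 0))) y₀ (Sum.inr (s, j, -K))
        (Sum.inr (s, j, K)) := by
    intro h5 _
    rw [hj, Option.some.injEq] at h5
    subst h5
    have h6 : Cn H D (del (rz H K g us h) (Sum.inr (s, j, 0))) y (Sum.inr (s, j, -1))
        (Sum.inr (s, j, -K)) :=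
      he.left hKD hju hjl (hhi' s j hju) (by omega) (by omega) hj
    have h7 : Cn H D (del (rz H K g us h) (Sum.inr (s, j, 0))) y (Sum.inr (s, c, -1))
        (Sum.inr (s, j, -1)) := by
      subst hjc
      refine Cn.one (Host.hor hjl (by omega) (by omega) (by omega)) ?_ ?_
      · rw [del_ne (hne c (-1) (by omega))]
        exact hc1 (-1) (by omega) (by omega) (by omega)
      · rw [del_ne (hne (c + 1) (-1) (by omega)),
          rz_left hju hjl (hhi' _ _ hju) (by omega) (by omega)]
        exact hj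
    have h8 : Cn H D (del (rz H K g us h) (Sum.inr (s, j, 0))) y (Sum.inr (s, c, 1))
        (Sum.inr (s, j, 1)) := by
      subst hjc
      refine Cn.one (Host.hor hjl (by omega) (by omega) (by omega)) ?_ ?_
      · rw [del_ne (hne c 1 (by omega))]
        exact hc1 1 (by omega) (by omega) (by omega)
      · rw [del_ne (hne (c + 1) 1 (by omega))]
        exact hjr
    exact ((((h6.symm.trans h7.symm).trans (hc2 (-1) (by omega) (by omega) (by omega))).trans
      (hc2 1 (by omega) (by omega) (by omega)).symm).trans h8).trans hjr'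
  have hcon : ∀ p, Out K p → g p = some y₀ →
      Cn H D (del (rz H K g us h) (Sum.inr (s, j, 0))) y₀ (Sum.inl v₀) p := by
    intro p hp hgp
    exact St.lift_del hS hh (by omega) hKD hju hh0 hjump
      (hS.con y₀ (Sum.inl v₀) p trivial hp hv₀ hgp)
  refine hS.dropCol hh (by omega) hKD hju hh0 hy₀ hv₀ hg hcon ?_
  intro z _ hz
  rw [hj, Option.some.injEq] at hz
  subst hz
  refine ⟨Sum.inr (s, j, 1), Sum.inr (s, c, 1), (hcon _ out_right hy₀).trans hjr'.symm, ?_,
    hc1 1 (by omega) (by omega) (by omega)⟩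
  subst hjc
  exact (Host.hor hjl (by omega) (by omega) (by omega)).symm

/-- Every edge is kissed at most once. -/
theorem State.kiss1 [Finite σ]
    (h4 : ∀ a b c d, G.Adj a b → G.Adj b c → G.Adj c d → G.Adj d a → a = c ∨ b = d)
    (hS : State G H D K g us) (hK : 2 * us.ncard + 4 ≤ K) (hKD : K ≤ D) {s s' : σ} {i j : ℕ}
    (hi : (s, i) ∈ us) (hj : (s', j) ∈ us) (hne : (s, i) ≠ (s', j)) (hyz : y ≠ z)
    (h1 : g (Sum.inr (s, i, -K)) = some z) (h2 : g (Sum.inr (s, i, K)) = some y)
    (h3 : (g (Sum.inr (s', j, -K)) = some y ∧ g (Sum.inr (s', j, K)) = some z) ∨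
      (g (Sum.inr (s', j, -K)) = some z ∧ g (Sum.inr (s', j, K)) = some y)) :
    ∃ f', Model G H D f' ∧ mm f' < us.ncard := by
  classical
  obtain ⟨h, hh, hh0, _⟩ := exists_hts h4 hS hK s i (fun _ _ => none)
    (fun _ _ _ _ _ hx => absurd hx (by simp))
  obtain ⟨v₀, hv₀, hg⟩ := hS.gnd y
  have he : Exc H K g us h (del (rz H K g us h) (Sum.inr (s, i, 0))) := exc_del hi hh0
  have hlo : ∀ s i, (s, i) ∈ us → -K < h s i := fun s i hi => by have := hh.lo s i hi; omega
  have hhi' : ∀ s i, (s, i) ∈ us → h s i ≤ K := fun s i hi => by have := hh.hi s i hi; omega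
  have hcon : ∀ p, Out K p → g p = some y →
      Cn H D (del (rz H K g us h) (Sum.inr (s, i, 0))) y (Sum.inl v₀) p := by
    intro p hp hgp
    refine St.lift_del hS hh (by omega) hKD hi hh0 ?_
      (hS.con y (Sum.inl v₀) p trivial hp hv₀ hgp)
    intro h5 _
    rw [h1, Option.some.injEq] at h5
    exact absurd h5.symm hyz
  refine hS.dropCol hh (by omega) hKD hi hh0 h2 hv₀ hg hcon ?_
  intro z' _ hz'
  rw [h1, Option.some.injEq] at hz'
  subst hz'
  have hjl := hS.lt hj
  have h5 := hh.lo s' j hj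
  have h6 := hh.hi s' j hj
  have hdn : ∀ b : ℤ, (Sum.inr (s', j, b) : HV V σ) ≠ Sum.inr (s, i, 0) := by
    intro b h7
    simp only [Sum.inr.injEq, Prod.mk.injEq] at h7
    exact hne (by rw [h7.1, h7.2.1])
  rcases h3 with ⟨h3, h3'⟩ | ⟨h3, h3'⟩
  · obtain ⟨h7, h8, h9⟩ := edge_kiss hS hh hKD hj h3 h3'
    refine ⟨_, _, ?_, h7, h9⟩
    exact (hcon _ out_left h3).trans
      (he.left hKD hj hjl (hhi' _ _ hj) (by omega) (by omega) h3).symm
  · obtain ⟨h7, h8, h9⟩ := edge_kiss hS hh hKD hj h3 h3'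
    refine ⟨_, _, ?_, h7.symm, h8⟩
    exact (hcon _ out_right h3').trans
      (he.right hKD hj hjl (hlo _ _ hj) (by omega) (by omega) h3' (del_ne (hdn _))).symm

/-- Connection in a class without the jump at `(s₀, c₀)`. -/
def St' (H : Host V σ) (D K : ℤ) (g : HV V σ → Option X) (us : Set (σ × ℕ)) (s₀ : σ) (c₀ : ℕ)
    (y : X) : HV V σ → HV V σ → Prop :=
  St H D K g (us \ {(s₀, c₀)}) y

lemma St'.lift (hS : State G H D K g us) (hh : Hts G K g us h) (hK : 0 < K) (hKD : K ≤ D)
    {s₀ : σ} {c₀ : ℕ} (h0 : (s₀, c₀) ∈ us) (hh0 : h s₀ c₀ = 0) {u v : HV V σ}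
    (huv : St' H D K g us s₀ c₀ y u v) :
    Cn H D (del (rz H K g us h) (Sum.inr (s₀, c₀, 0))) y u v := by
  have he : Exc H K g us h (del (rz H K g us h) (Sum.inr (s₀, c₀, 0))) := exc_del h0 hh0
  unfold St' at huv
  induction huv with
  | refl => exact ReflTransGen.refl
  | tail _ hbc ih =>
    refine ih.trans ?_
    rcases hbc with h1 | ⟨s, c, h1, h2, h3, h4⟩
    · exact he.oa hK h1
    · have h5 : Cn H D (del (rz H K g us h) (Sum.inr (s₀, c₀, 0))) y (Sum.inr (s, c, -K))
          (Sum.inr (s, c, K)) := by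
        refine he.jump hS hh hK hKD h1.1 h2 h3 (del_ne ?_)
        intro h7
        simp only [Sum.inr.injEq, Prod.mk.injEq] at h7
        exact h1.2 (by rw [h7.1, h7.2.1]; rfl)
      rcases h4 with ⟨rfl, rfl⟩ | ⟨rfl, rfl⟩
      · exact h5
      · exact h5.symm

/-- Full columns are bridges. -/
theorem State.bridge [Finite σ]
    (h4 : ∀ a b c d, G.Adj a b → G.Adj b c → G.Adj c d → G.Adj d a → a = c ∨ b = d)
    (hS : State G H D K g us) (hK : 2 * us.ncard + 4 ≤ K) (hKD : K ≤ D) {s : σ} {i : ℕ}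
    (hi : (s, i) ∈ us) (h1 : g (Sum.inr (s, i, -K)) = some y)
    (h2 : g (Sum.inr (s, i, K)) = some y)
    (h3 : St' H D K g us s i y (Sum.inr (s, i, -K)) (Sum.inr (s, i, K))) :
    ∃ f', Model G H D f' ∧ mm f' < us.ncard := by
  classical
  obtain ⟨h, hh, hh0, _⟩ := exists_hts h4 hS hK s i (fun _ _ => none)
    (fun _ _ _ _ _ hx => absurd hx (by simp))
  obtain ⟨v₀, hv₀, hg⟩ := hS.gnd y
  refine hS.dropCol hh (by omega) hKD hi hh0 h2 hv₀ hg ?_ ?_
  · intro p hp hgp
    refine St.lift_del hS hh (by omega) hKD hi hh0 ?_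
      (hS.con y (Sum.inl v₀) p trivial hp hv₀ hgp)
    intro _ _
    exact h3.lift hS hh (by omega) hKD hi hh0
  · intro z hyz hz
    rw [h1, Option.some.injEq] at hz
    exact absurd hz hyz.ne

/-! ### Leaves -/

/-- Component of `p` in the outside part of its class. -/
def Cp (H : Host V σ) (D K : ℤ) (g : HV V σ → Option X) (y : X) (p : HV V σ) : Set (HV V σ) :=
  {w | ReflTransGen (OA H D K g y) p w}

lemma OA.symm {u v : HV V σ} (h1 : OA H D K g y u v) : OA H D K g y v u :=
  ⟨h1.2.1, h1.1, h1.2.2.1.symm, h1.2.2.2.2, h1.2.2.2.1⟩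

lemma Cp.step {p u v : HV V σ} (hu : u ∈ Cp H D K g y p) (h1 : OA H D K g y u v) :
    v ∈ Cp H D K g y p := ReflTransGen.tail hu h1

lemma Cp.col {p u : HV V σ} (hp : g p = some y) (hu : u ∈ Cp H D K g y p) : g u = some y := by
  rcases ReflTransGen.cases_tail hu with h1 | ⟨w, _, h2⟩
  · rw [h1]; exact hp
  · exact h2.2.2.2.2

lemma Cp.out {p u : HV V σ} (hp : Out K p) (hu : u ∈ Cp H D K g y p) : Out K u := by
  rcases ReflTransGen.cases_tail hu with h1 | ⟨w, _, h2⟩
  · rw [h1]; exact hp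
  · exact h2.2.1

/-- The connector at the left end of `(s, i)` has no other port. -/
def One (H : Host V σ) (D K : ℤ) (g : HV V σ → Option X) (us : Set (σ × ℕ)) (s : σ) (i : ℕ)
    (y : X) : Prop :=
  ∀ s' c', (s', c') ∈ us → ((Sum.inr (s', c', -K) : HV V σ) ∈ Cp H D K g y (Sum.inr (s, i, -K)) →
    (s', c') = (s, i)) ∧ (Sum.inr (s', c', K) : HV V σ) ∉ Cp H D K g y (Sum.inr (s, i, -K))

lemma leaf_split {s : σ} {i : ℕ} (hone : One H D K g us s i y) {u p : HV V σ}
    (hu : u ∉ Cp H D K g y (Sum.inr (s, i, -K))) (hup : St H D K g us y u p) :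
    (p ∉ Cp H D K g y (Sum.inr (s, i, -K)) → St' H D K g us s i y u p) ∧
      (p ∈ Cp H D K g y (Sum.inr (s, i, -K)) →
        St' H D K g us s i y u (Sum.inr (s, i, K))) := by
  induction hup with
  | refl => exact ⟨fun _ => ReflTransGen.refl, fun h1 => absurd h1 hu⟩
  | tail _ hbc ih =>
    rename_i b c _
    rcases hbc with h1 | ⟨s', c', h1, h2, h3, h4⟩
    · by_cases hb : b ∈ Cp H D K g y (Sum.inr (s, i, -K))
      · exact ⟨fun h5 => absurd (Cp.step hb h1) h5, fun _ => ih.2 hb⟩
      · refine ⟨fun _ => ReflTransGen.tail (ih.1 hb) (Or.inl h1), fun h5 => ?_⟩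
        exact absurd (Cp.step h5 h1.symm) hb
    · have hstep : ∀ a b : HV V σ, ((a = Sum.inr (s', c', -K) ∧ b = Sum.inr (s', c', K)) ∨
          (a = Sum.inr (s', c', K) ∧ b = Sum.inr (s', c', -K))) → (s', c') ≠ (s, i) →
          St' H D K g us s i y u a → St' H D K g us s i y u b := by
        intro a b hab hne ha
        exact ReflTransGen.tail ha (Or.inr ⟨s', c', ⟨h1, hne⟩, h2, h3, hab⟩)
      rcases h4 with ⟨rfl, rfl⟩ | ⟨rfl, rfl⟩
      · refine ⟨fun _ => ?_, fun h5 => absurd h5 (hone s' c' h1).2⟩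
        by_cases hb : (Sum.inr (s', c', -K) : HV V σ) ∈ Cp H D K g y (Sum.inr (s, i, -K))
        · obtain ⟨rfl, rfl⟩ := Prod.mk.inj ((hone s' c' h1).1 hb)
          exact ih.2 hb
        · refine hstep _ _ (Or.inl ⟨rfl, rfl⟩) ?_ (ih.1 hb)
          intro h5
          obtain ⟨rfl, rfl⟩ := Prod.mk.inj h5
          exact hb ReflTransGen.refl
      · have hb := (hone s' c' h1).2
        refine ⟨fun h5 => ?_, fun h5 => ?_⟩
        · refine hstep _ _ (Or.inr ⟨rfl, rfl⟩) ?_ (ih.1 hb)
          intro h6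
          obtain ⟨rfl, rfl⟩ := Prod.mk.inj h6
          exact h5 ReflTransGen.refl
        · obtain ⟨rfl, rfl⟩ := Prod.mk.inj ((hone s' c' h1).1 h5)
          exact ih.1 hb

/-- The column of an ungrounded leaf is full. -/
lemma leaf_full (hS : State G H D K g us) {s : σ} {i : ℕ} (hone : One H D K g us s i y)
    (h1 : g (Sum.inr (s, i, -K)) = some y) {v₀ : V} (hv₀ : g (Sum.inl v₀) = some y)
    (hv₁ : (Sum.inl v₀ : HV V σ) ∉ Cp H D K g y (Sum.inr (s, i, -K))) :
    g (Sum.inr (s, i, K)) = some y := by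
  by_contra hcon
  apply hv₁
  have h2 := hS.con y (Sum.inr (s, i, -K)) (Sum.inl v₀) out_left trivial h1 hv₀
  have key : ∀ p, St H D K g us y (Sum.inr (s, i, -K)) p →
      p ∈ Cp H D K g y (Sum.inr (s, i, -K)) := by
    intro p hp
    induction hp with
    | refl => exact ReflTransGen.refl
    | tail _ hbc ih =>
      rcases hbc with h3 | ⟨s', c', h3, h4, h5, h6⟩
      · exact Cp.step ih h3
      · rcases h6 with ⟨rfl, rfl⟩ | ⟨rfl, rfl⟩
        · obtain ⟨rfl, rfl⟩ := Prod.mk.inj ((hone s' c' h3).1 ih)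
          exact absurd h5 hcon
        · exact absurd ih (hone s' c' h3).2
  exact key _ h2

/-- **(A2)**, no contact. -/
theorem State.leaf0 [Finite σ]
    (h4 : ∀ a b c d, G.Adj a b → G.Adj b c → G.Adj c d → G.Adj d a → a = c ∨ b = d)
    (hS : State G H D K g us) (hK : 2 * us.ncard + 4 ≤ K) (hKD : K ≤ D) {s : σ} {i : ℕ}
    (hi : (s, i) ∈ us) (hone : One H D K g us s i y)
    (h1 : g (Sum.inr (s, i, -K)) = some y) {v₀ : V} (hv₀ : g (Sum.inl v₀) = some y)
    (hg : H.gd v₀) (hv₁ : (Sum.inl v₀ : HV V σ) ∉ Cp H D K g y (Sum.inr (s, i, -K)))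
    (hct : ∀ z, G.Adj y z → Ein K g us y z ∨ ∃ u v, u ∉ Cp H D K g y (Sum.inr (s, i, -K)) ∧
      Out K u ∧ Out K v ∧ H.Adj D u v ∧ g u = some y ∧ g v = some z) :
    ∃ f', Model G H D f' ∧ mm f' < us.ncard := by
  classical
  have h2 := leaf_full hS hone h1 hv₀ hv₁
  have hil := hS.lt hi
  obtain ⟨h, hh, hh0, hst⟩ := exists_hts h4 hS hK s i
    (fun s' j' => if s' = s ∧ j' = i then some (-2) else
      if s' = s ∧ Cons us s i j' then some 2 else none) (by
      intro s' i' j' x hc hx
      split_ifs at hx with h5 h6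
      · rw [Option.some.injEq] at hx
        subst hx
        obtain ⟨rfl, rfl⟩ := h5
        refine ⟨by norm_num, fun h3 => rfl, fun h3 => ?_⟩
        exfalso
        obtain ⟨a, a', b, b', _, _, h6, h7, _, _, h8, _, _⟩ := h3
        rw [h1, Option.some.injEq] at h6
        rw [h2, Option.some.injEq] at h7
        exact h8 (h6.symm.trans h7)
      · rw [Option.some.injEq] at hx
        subst hx
        obtain ⟨rfl, h6⟩ := h6
        have h7 := h6.uniq hc
        subst h7
        refine ⟨by norm_num, fun h3 => ?_, fun h3 => rfl⟩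
        exfalso
        obtain ⟨a, a', b, b', h6, h7, _, _, _, h8, _, _, _⟩ := h3
        rw [h1, Option.some.injEq] at h6
        rw [h2, Option.some.injEq] at h7
        exact h8 (h6.symm.trans h7))
  have hprev : ∀ j, Cons us s j i → h s j = 2 := by
    intro j hj
    have := hst s j i (-2) hj (if_pos ⟨rfl, rfl⟩)
    omega
  have hnext : ∀ j, Cons us s i j → h s j = 2 := by
    intro j hj
    have := hst s i j 2 hj (by
      rw [if_neg, if_pos ⟨rfl, hj⟩]
      rintro ⟨_, h5⟩
      have := hj.1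
      omega)
    omega
  have he : Exc H K g us h (del (rz H K g us h) (Sum.inr (s, i, 0))) := exc_del hi hh0
  have hlo : ∀ s i, (s, i) ∈ us → -K < h s i := fun s i hi => by have := hh.lo s i hi; omega
  have hhi : ∀ s i, (s, i) ∈ us → h s i ≤ K := fun s i hi => by have := hh.hi s i hi; omega
  have hK1 : 4 ≤ K := by omega
  have hcon : ∀ p, Out K p → g p = some y → p ∉ Cp H D K g y (Sum.inr (s, i, -K)) →
      Cn H D (del (rz H K g us h) (Sum.inr (s, i, 0))) y (Sum.inl v₀) p := by
    intro p hp hgp hpk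
    exact St'.lift hS hh (by omega) hKD hi hh0
      ((leaf_split hone hv₁ (hS.con y (Sum.inl v₀) p trivial hp hv₀ hgp)).1 hpk)
  have page : ∀ s' c k b, lu us s' c = some k → -K < b → b < K →
      rz H K g us h (Sum.inr (s', c, b)) = some y →
      ((s', k) ≠ (s, i) ∨ 0 < b) →
      Cn H D (del (rz H K g us h) (Sum.inr (s, i, 0))) y (Sum.inl v₀) (Sum.inr (s', c, b)) := by
    intro s' c k b hl hb1 hb2 hr hne
    have hne' : (Sum.inr (s', c, b) : HV V σ) ≠ Sum.inr (s, i, 0) := by
      intro h5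
      simp only [Sum.inr.injEq, Prod.mk.injEq] at h5
      rcases hne with h6 | h6
      · rw [h5.1, h5.2.1, lu_used hi, Option.some.injEq] at hl
        exact h6 (by rw [h5.1, hl])
      · omega
    obtain ⟨k', h5, h6, _, h7⟩ := he.rep hKD hlo hhi hb1 hb2 c (by rw [del_ne hne']; exact hr)
      (del_ne hne')
    rw [hl, Option.some.injEq] at h5
    subst h5
    rcases h7 with ⟨h8, h9, h10⟩ | ⟨_, h9, h10⟩
    · have hne2 : (s', k) ≠ (s, i) := by
        rcases hne with h11 | h11
        · exact h11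
        · intro h12
          obtain ⟨rfl, rfl⟩ := Prod.mk.inj h12
          omega
      exact (hcon _ out_left h9 (fun h11 => hne2 ((hone s' k h6).1 h11))).trans h10.symm
    · exact (hcon _ out_right h9 (hone s' k h6).2).trans h10.symm
  have kiss : ∀ z, G.Adj y z → ∀ s' k, (s', k) ∈ us →
      ((g (Sum.inr (s', k, -K)) = some y ∧ g (Sum.inr (s', k, K)) = some z) ∨
        (g (Sum.inr (s', k, -K)) = some z ∧ g (Sum.inr (s', k, K)) = some y)) →
      ∃ v w, Cn H D (del (rz H K g us h) (Sum.inr (s, i, 0))) y (Sum.inl v₀) v ∧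
        H.Adj D v w ∧ rz H K g us h w = some z := by
    intro z hyz s' k hk h5
    have hsk : (s', k) ≠ (s, i) := by
      intro h6
      obtain ⟨rfl, rfl⟩ := Prod.mk.inj h6
      rcases h5 with ⟨_, h7⟩ | ⟨h7, _⟩
      · rw [h2, Option.some.injEq] at h7
        exact hyz.ne h7
      · rw [h1, Option.some.injEq] at h7
        exact hyz.ne h7
    have h6 := hh.lo s' k hk
    have h7 := hh.hi s' k hk
    rcases h5 with ⟨h5, h5'⟩ | ⟨h5, h5'⟩
    · obtain ⟨h8, h9, h10⟩ := edge_kiss hS hh hKD hk h5 h5'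
      exact ⟨_, _, page s' k k _ (lu_used hk) (by omega) (by omega) h9 (Or.inl hsk), h8, h10⟩
    · obtain ⟨h8, h9, h10⟩ := edge_kiss hS hh hKD hk h5 h5'
      exact ⟨_, _, page s' k k _ (lu_used hk) (by omega) (by omega) h10 (Or.inl hsk),
        h8.symm, h9⟩
  have hmod := hS.model hh (by omega) hKD
  rw [← mm_rz hS (h := h) (by omega)]
  refine hmod.drop (s := s) (c := i) (y := y) (v₀ := v₀) ?_ hv₀ hg ?_
  · rw [rz_right hi hil (hlo _ _ hi) (by omega) (by omega)]
    exact h2
  · intro z hyz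
    rcases hct z hyz with h5 | ⟨u, v, h5, h6, h7, h8, h9, h10⟩
    · obtain ⟨s', i', j', h5 | h5 | h5, h6, h7⟩ := h5
      · subst h5
        apply kiss z hyz s' i' h6.1
        rcases h6.2 with h8 | h8
        · rcases h7.2 with h9 | h9
          · rw [h8, Option.some.injEq] at h9
            exact absurd h9 hyz.ne
          · exact Or.inl ⟨h8, h9⟩
        · rcases h7.2 with h9 | h9
          · exact Or.inr ⟨h9, h8⟩
          · rw [h8, Option.some.injEq] at h9
            exact absurd h9 hyz.ne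
      · by_cases hsi : (s', i') = (s, i)
        · obtain ⟨rfl, rfl⟩ := Prod.mk.inj hsi
          obtain ⟨c, hjc, hl⟩ := h5.lu
          have hjl := hS.lt h7.1
          have hhj := hnext j' h5
          have hj2 := hh.hi s' j' h7.1
          subst hjc
          rcases h7.2 with h8 | h8
          · have e1 : rz H K g us h (Sum.inr (s', c, 1)) = some y := by
              rw [rz_hi (by omega) (by omega) (by omega) (Or.inl (by omega)) hl (by omega)]
              exact h2
            refine ⟨_, _, page s' c i' 1 hl (by omega) (by omega) e1 (Or.inr (by omega)),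
              Host.hor hjl (by omega) (by omega) (by omega), ?_⟩
            rw [rz_lo (by omega) (by omega) hjl (Or.inr h7.1) (lu_used h7.1) (by omega)]
            exact h8
          · have e1 : rz H K g us h (Sum.inr (s', c, K - 1)) = some y := by
              rw [rz_hi (by omega) (by omega) (by omega) (Or.inl (by omega)) hl (by omega)]
              exact h2
            refine ⟨_, _, page s' c i' (K - 1) hl (by omega) (by omega) e1 (Or.inr (by omega)),
              Host.hor hjl (by omega) (by omega) (by omega), ?_⟩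
            rw [rz_hi (by omega) (by omega) hjl (Or.inr h7.1) (lu_used h7.1) (by omega)]
            exact h8
        · rcases edge_cons hS hh (by omega) h5 h6 h7 hyz with
            ⟨c, b, rfl, hl, h8, h9, h10, h11, h12⟩ | h8
          · exact ⟨_, _, page s' c i' b hl h9 h10 h11 (Or.inl hsi),
              Host.hor (hS.lt h7.1) (by omega) (by omega) h8, h12⟩
          · obtain ⟨k, _, h8, h9⟩ := h8
            exact kiss z hyz s' k h8 h9
      · by_cases hsi : (s', i') = (s, i)
        · obtain ⟨rfl, rfl⟩ := Prod.mk.inj hsi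
          obtain ⟨c, hjc, hl⟩ := h5.lu
          have hhj := hprev j' h5
          have hj2 := hh.hi s' j' h7.1
          subst hjc
          rcases h7.2 with h8 | h8
          · have e1 : rz H K g us h (Sum.inr (s', c + 1, 1)) = some y := by
              rw [rz_right hi hil (hlo _ _ hi) (by omega) (by omega)]
              exact h2
            refine ⟨_, _, page s' (c + 1) (c + 1) 1 (lu_used hi) (by omega) (by omega) e1
              (Or.inr (by omega)),
              (Host.hor hil (by omega) (by omega) (by omega)).symm, ?_⟩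
            rw [rz_lo (by omega) (by omega) (by omega) (Or.inl (by omega)) hl (by omega)]
            exact h8
          · have e1 : rz H K g us h (Sum.inr (s', c + 1, K - 1)) = some y := by
              rw [rz_right hi hil (hlo _ _ hi) (by omega) (by omega)]
              exact h2
            refine ⟨_, _, page s' (c + 1) (c + 1) (K - 1) (lu_used hi) (by omega) (by omega) e1
              (Or.inr (by omega)),
              (Host.hor hil (by omega) (by omega) (by omega)).symm, ?_⟩
            rw [rz_hi (by omega) (by omega) (by omega) (Or.inl (by omega)) hl (by omega)]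
            exact h8
        · rcases edge_cons hS hh (by omega) h5 h7 h6 hyz.symm with
            ⟨c, b, rfl, hl, h8, h9, h10, h11, h12⟩ | h8
          · exact ⟨_, _, page s' (c + 1) (c + 1) b (lu_used h6.1) h9 h10 h12 (Or.inl hsi),
              (Host.hor (hS.lt h6.1) (by omega) (by omega) h8).symm, h11⟩
          · obtain ⟨k, _, h8, h9⟩ := h8
            exact kiss z hyz s' k h8 h9.symm
    · exact ⟨u, v, hcon u h6 h9 h5, h8, by rw [rz_out h7]; exact h10⟩

end

end Mdl
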