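import Pool.Agent.EN.PicJ

/-!
# The picture (MS): crossing bands in series on one page

Band number `g`: strands `u 1 g < … < u m g < v 1 g < … < v m g`, connectors `J k g` joining
`(u k g, 0)` and `(v k g, 0)`; free strands `t i` before the bands `2 i`.
-/

open Set
open scoped Matroid

namespace EN

open BIC Gad

variable {α V : Type*} {M : Matroid α} {S : Set α} {ends : α → Sym2 V}

lemma Fat.mono {N N' m m' : ℕ} {T L : ℕ → ℕ → Set V} (h : Fat S ends N m T L) (hN : N' ≤ N)
    (hm : m' ≤ m) : Fat S ends N' m' T L where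
  finT := fun s i h1 h2 h3 => h.finT s i h1 (by omega) (by omega)
  finL := fun s i h1 h2 h3 => h.finL s i h1 (by omega) (by omega)
  neT := fun s i h1 h2 h3 => h.neT s i h1 (by omega) (by omega)
  conT := fun s i h1 h2 h3 => h.conT s i h1 (by omega) (by omega)
  conTL := fun s i h1 h2 h3 => h.conTL s i h1 (by omega) (by omega)
  conLT := fun s i h1 h2 h3 => h.conLT s i h1 (by omega) (by omega)
  lnk1 := fun s i h1 h2 h3 => h.lnk1 s i h1 (by omega) (by omega)
  lnk2 := fun s i h1 h2 h3 => h.lnk2 s i h1 (by omega) (by omega)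
  ver := fun s i h1 h2 h3 => h.ver s i h1 (by omega) (by omega)
  dTT := fun s i s' i' h1 h2 h3 h1' h2' h3' => h.dTT s i s' i' h1 (by omega) (by omega) h1'
    (by omega) (by omega)
  dTL := fun s i s' i' h1 h2 h3 h1' h2' h3' => h.dTL s i s' i' h1 (by omega) (by omega) h1'
    (by omega) (by omega)
  dLL := fun s i s' i' h1 h2 h3 h1' h2' h3' => h.dLL s i s' i' h1 (by omega) (by omega) h1'
    (by omega) (by omega)

/-- Crossing bands in series. -/
structure Bnd (S : Set α) (ends : α → Sym2 V) (P : ℕ × ℕ → V) (l r n m N : ℕ)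
    (u v : ℕ → ℕ → ℕ) (t : ℕ → ℕ) (J : ℕ → ℕ → Set V) : Prop where
  page : Page S ends P l r n
  dep : m ≤ n
  lt0 : l ≤ t 0
  rt0 : t N ≤ r
  um : ∀ g < 2 * N, ∀ k, 1 ≤ k → k < m → u k g < u (k + 1) g
  vm' : ∀ g < 2 * N, ∀ k, 1 ≤ k → k < m → v k g < v (k + 1) g
  uv : ∀ g < 2 * N, u m g < v 1 g
  tu : ∀ i < N, t i < u 1 (2 * i)
  vu : ∀ i < N, v m (2 * i) < u 1 (2 * i + 1)
  vt : ∀ i < N, v m (2 * i + 1) < t (i + 1)
  finJ : ∀ k g, 1 ≤ k → k ≤ m → g < 2 * N → (J k g).Finite
  conJ : ∀ k g, 1 ≤ k → k ≤ m → g < 2 * N → VConn S ends (J k g ∪ {P (u k g, 0), P (v k g, 0)})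
  dJJ : ∀ k g k' g', 1 ≤ k → k ≤ m → g < 2 * N → 1 ≤ k' → k' ≤ m → g' < 2 * N →
    (k, g) ≠ (k', g') → Disjoint (J k g) (J k' g')
  pJ : ∀ k g, 1 ≤ k → k ≤ m → g < 2 * N → ∀ c ∈ Reg l r n, P c ∉ J k g

/-- Coordinates of the lane `k` in the block `i`, columns from `x` to `y`. -/
def lB (m : ℕ) (u v : ℕ → ℕ → ℕ) (k i x y : ℕ) : Set (ℕ × ℕ) :=
  ((Vert (u k (2 * i)) 0 k ∪ HRow x (u k (2 * i)) k) ∪
    ((Vert (v k (2 * i)) 0 (m + 1 - k) ∪
      HRow (v k (2 * i)) (u (m + 1 - k) (2 * i + 1)) (m + 1 - k)) ∪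
      Vert (u (m + 1 - k) (2 * i + 1)) 0 (m + 1 - k))) ∪
    (Vert (v (m + 1 - k) (2 * i + 1)) 0 k ∪ HRow (v (m + 1 - k) (2 * i + 1)) y k)

/-- The connectors of the lane `k` in the block `i`. -/
def jB (m : ℕ) (J : ℕ → ℕ → Set V) (k i : ℕ) : Set V := J k (2 * i) ∪ J (m + 1 - k) (2 * i + 1)

section

variable {P : ℕ × ℕ → V} {l r n m N : ℕ} {u v : ℕ → ℕ → ℕ} {t : ℕ → ℕ} {J : ℕ → ℕ → Set V}

lemma Bnd.uu (h : Bnd S ends P l r n m N u v t J) {g : ℕ} (hg : g < 2 * N) :
    ∀ k k', 1 ≤ k → k < k' → k' ≤ m → u k g < u k' g := by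
  intro k k' h1 h2 h3
  induction k' with
  | zero => omega
  | succ q ih =>
    rcases Nat.lt_or_ge k q with h4 | h4
    · exact (ih h4 (by omega)).trans (h.um g hg q (by omega) (by omega))
    · have : k = q := by omega
      rw [this]
      exact h.um g hg q (by omega) (by omega)

lemma Bnd.vv (h : Bnd S ends P l r n m N u v t J) {g : ℕ} (hg : g < 2 * N) :
    ∀ k k', 1 ≤ k → k < k' → k' ≤ m → v k g < v k' g := by
  intro k k' h1 h2 h3
  induction k' with
  | zero => omega
  | succ q ih =>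
    rcases Nat.lt_or_ge k q with h4 | h4
    · exact (ih h4 (by omega)).trans (h.vm' g hg q (by omega) (by omega))
    · have : k = q := by omega
      rw [this]
      exact h.vm' g hg q (by omega) (by omega)

/-- All inequalities inside the block `i` for the lane `k`. -/
lemma Bnd.blk (h : Bnd S ends P l r n m N u v t J) {i k : ℕ} (hi : i < N) (h1 : 1 ≤ k)
    (h2 : k ≤ m) : t i < u k (2 * i) ∧ u k (2 * i) < v k (2 * i) ∧
      v k (2 * i) < u (m + 1 - k) (2 * i + 1) ∧
      u (m + 1 - k) (2 * i + 1) < v (m + 1 - k) (2 * i + 1) ∧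
      v (m + 1 - k) (2 * i + 1) < t (i + 1) := by
  have g0 : 2 * i < 2 * N := by omega
  have g1 : 2 * i + 1 < 2 * N := by omega
  have a0 : ∀ g < 2 * N, ∀ q, 1 ≤ q → q ≤ m → u 1 g ≤ u q g ∧ u q g ≤ u m g ∧ v 1 g ≤ v q g ∧
      v q g ≤ v m g := by
    intro g hg q hq1 hq2
    refine ⟨?_, ?_, ?_, ?_⟩
    · rcases Nat.lt_or_ge 1 q with h5 | h5
      · exact (h.uu hg 1 q (le_refl _) h5 hq2).le
      · have : q = 1 := by omega
        rw [this]
    · rcases Nat.lt_or_ge q m with h5 | h5
      · exact (h.uu hg q m hq1 h5 (le_refl _)).le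
      · have : q = m := by omega
        rw [this]
    · rcases Nat.lt_or_ge 1 q with h5 | h5
      · exact (h.vv hg 1 q (le_refl _) h5 hq2).le
      · have : q = 1 := by omega
        rw [this]
    · rcases Nat.lt_or_ge q m with h5 | h5
      · exact (h.vv hg q m hq1 h5 (le_refl _)).le
      · have : q = m := by omega
        rw [this]
  have b0 := a0 _ g0 k h1 h2
  have b1 := a0 _ g1 (m + 1 - k) (by omega) (by omega)
  have c0 := h.uv _ g0
  have c1 := h.uv _ g1
  have d0 := h.tu i hi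
  have d1 := h.vu i hi
  have d2 := h.vt i hi
  omega

lemma Bnd.tt (h : Bnd S ends P l r n m N u v t J) (hm : 1 ≤ m) {i j : ℕ} (hij : i < j)
    (hj : j ≤ N) : t i < t j := by
  induction j with
  | zero => omega
  | succ q ih =>
    have h2 := h.blk (i := q) (k := 1) (by omega) (le_refl _) hm
    rcases Nat.lt_or_ge i q with h4 | h4
    · have := ih h4 (by omega)
      omega
    · have : i = q := by omega
      rw [this]
      omega

lemma Bnd.tR (h : Bnd S ends P l r n m N u v t J) (hm : 1 ≤ m) {i : ℕ} (hi : i ≤ N) :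
    l ≤ t i ∧ t i ≤ r := by
  have h1 := h.lt0
  have h2 := h.rt0
  constructor
  · rcases Nat.eq_zero_or_pos i with h3 | h3
    · rw [h3]; exact h1
    · exact h1.trans (h.tt hm h3 hi).le
  · rcases Nat.lt_or_ge i N with h3 | h3
    · exact (h.tt hm h3 (le_refl _)).le.trans h2
    · have : i = N := by omega
      rw [this]; exact h2

lemma lB_mem {k i x y : ℕ} {c : ℕ × ℕ} : c ∈ lB m u v k i x y ↔
    (c.1 = u k (2 * i) ∧ c.2 ≤ k) ∨ (c.2 = k ∧ x ≤ c.1 ∧ c.1 ≤ u k (2 * i)) ∨
    (c.1 = v k (2 * i) ∧ c.2 ≤ m + 1 - k) ∨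
    (c.2 = m + 1 - k ∧ v k (2 * i) ≤ c.1 ∧ c.1 ≤ u (m + 1 - k) (2 * i + 1)) ∨
    (c.1 = u (m + 1 - k) (2 * i + 1) ∧ c.2 ≤ m + 1 - k) ∨
    (c.1 = v (m + 1 - k) (2 * i + 1) ∧ c.2 ≤ k) ∨
    (c.2 = k ∧ v (m + 1 - k) (2 * i + 1) ≤ c.1 ∧ c.1 ≤ y) := by
  unfold lB
  simp only [mem_union, mem_Vert, mem_HRow, Nat.zero_le, true_and]
  constructor
  · rintro (((h | h) | ((h | h) | h)) | (h | h))
    · exact Or.inl h
    · exact Or.inr (Or.inl h)
    · exact Or.inr (Or.inr (Or.inl h))
    · exact Or.inr (Or.inr (Or.inr (Or.inl h)))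
    · exact Or.inr (Or.inr (Or.inr (Or.inr (Or.inl h))))
    · exact Or.inr (Or.inr (Or.inr (Or.inr (Or.inr (Or.inl h)))))
    · exact Or.inr (Or.inr (Or.inr (Or.inr (Or.inr (Or.inr h)))))
  · rintro (h | h | h | h | h | h | h)
    · exact Or.inl (Or.inl (Or.inl h))
    · exact Or.inl (Or.inl (Or.inr h))
    · exact Or.inl (Or.inr (Or.inl (Or.inl h)))
    · exact Or.inl (Or.inr (Or.inl (Or.inr h)))
    · exact Or.inl (Or.inr (Or.inr h))
    · exact Or.inr (Or.inl h)
    · exact Or.inr (Or.inr h)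

/-- The lane `k` in the block `i` is connected. -/
lemma Bnd.conn (h : Bnd S ends P l r n m N u v t J) {k i x y : ℕ} (hi : i < N) (h1 : 1 ≤ k)
    (h2 : k ≤ m) (hx1 : l ≤ x) (hx2 : x ≤ u k (2 * i)) (hy1 : v (m + 1 - k) (2 * i + 1) ≤ y)
    (hy2 : y ≤ r) : VConn S ends (jB m J k i ∪ P '' lB m u v k i x y) := by
  have hP := h.page
  have hd := h.dep
  have b := h.blk hi h1 h2
  have t1 := h.tR (by omega) (i := i) (by omega)
  have t2 := h.tR (by omega) (i := i + 1) (by omega)
  have c1 : VConn S ends (P '' (Vert (u k (2 * i)) 0 k ∪ HRow x (u k (2 * i)) k)) :=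
    hP.strand_row (by omega) (by omega) (by omega) hx1 (by omega) h1 (by omega) (le_refl _)
      hx2 (le_refl _)
  have c2 : VConn S ends (P '' ((Vert (v k (2 * i)) 0 (m + 1 - k) ∪
      HRow (v k (2 * i)) (u (m + 1 - k) (2 * i + 1)) (m + 1 - k)) ∪
      Vert (u (m + 1 - k) (2 * i + 1)) 0 (m + 1 - k))) := by
    rw [image_union]
    exact vc_union (hP.strand_row (by omega) (by omega) (by omega) (by omega) (by omega)
      (by omega) (by omega) (le_refl _) (le_refl _) (by omega))
      (hP.vconn_ver (by omega) (by omega) (by omega))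
      (c := P (u (m + 1 - k) (2 * i + 1), m + 1 - k))
      ⟨_, Or.inr (hm (by omega) (le_refl _)), rfl⟩ ⟨_, vm (by omega) (le_refl _), rfl⟩
  have c3 : VConn S ends (P '' (Vert (v (m + 1 - k) (2 * i + 1)) 0 k ∪
      HRow (v (m + 1 - k) (2 * i + 1)) y k)) :=
    hP.strand_row (by omega) (by omega) (by omega) (by omega) hy2 h1 (by omega) (le_refl _)
      (le_refl _) hy1
  have d1 := blob_jump (P := P) (Q := P) (h.conJ k (2 * i) h1 h2 (by omega))
    (Or.inl (vm (le_refl 0) (by omega))) (Or.inl (Or.inl (vm (le_refl 0) (by omega)))) c1 c2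
  have d2 := blob_jump (P := P) (Q := P) (h.conJ (m + 1 - k) (2 * i + 1) (by omega) (by omega)
    (by omega)) (Or.inr (vm (le_refl 0) (by omega))) (Or.inl (vm (le_refl 0) (by omega))) c2 c3
  have d3 := blob_union d1 d2 (a := (v k (2 * i), 0)) (Or.inr (Or.inl (Or.inl (vm (le_refl 0)
    (by omega))))) (Or.inl (Or.inl (Or.inl (vm (le_refl 0) (by omega)))))
  refine vconn_congr d3 (fun w => ?_)
  rw [mem_blob]
  constructor
  · rintro (g | ⟨c, (hc | hc) | (hc | hc), g⟩ | ⟨c, hc, _⟩)
    · exact Or.inl g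
    · exact Or.inr ⟨c, Or.inl (Or.inl hc), g⟩
    · exact Or.inr ⟨c, Or.inl (Or.inr hc), g⟩
    · exact Or.inr ⟨c, Or.inl (Or.inr hc), g⟩
    · exact Or.inr ⟨c, Or.inr hc, g⟩
    · rcases hc with hc | hc <;> exact absurd hc (by simp)
  · rintro (g | ⟨c, (hc | hc) | hc, g⟩)
    · exact Or.inl g
    · exact Or.inr (Or.inl ⟨c, Or.inl (Or.inl hc), g⟩)
    · exact Or.inr (Or.inl ⟨c, Or.inl (Or.inr hc), g⟩)
    · exact Or.inr (Or.inl ⟨c, Or.inr (Or.inr hc), g⟩)

/-- Position and height of a lane. -/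
lemma Bnd.lB_col (h : Bnd S ends P l r n m N u v t J) {k i : ℕ} (hi : i < N) (h1 : 1 ≤ k)
    (h2 : k ≤ m) {c : ℕ × ℕ} (hc : c ∈ lB m u v k i (t i + 1) (t (i + 1) - 1)) :
    t i < c.1 ∧ c.1 < t (i + 1) ∧ c.2 ≤ m := by
  have b := h.blk hi h1 h2
  rw [lB_mem] at hc
  rcases hc with hc | hc | hc | hc | hc | hc | hc <;> omega

lemma Bnd.lB_reg (h : Bnd S ends P l r n m N u v t J) {k i : ℕ} (hi : i < N) (h1 : 1 ≤ k)
    (h2 : k ≤ m) : lB m u v k i (t i + 1) (t (i + 1) - 1) ⊆ Reg l r n := by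
  intro c hc
  have g1 := h.lB_col hi h1 h2 hc
  have t1 := h.tR (by omega) (i := i) (by omega)
  have t2 := h.tR (by omega) (i := i + 1) (by omega)
  have hd := h.dep
  rw [mem_Reg]
  omega

/-- Two lanes in one block are disjoint. -/
lemma Bnd.lB_disj (h : Bnd S ends P l r n m N u v t J) {k k' i : ℕ} (hi : i < N) (h1 : 1 ≤ k)
    (hk : k < k') (h2 : k' ≤ m) {c : ℕ × ℕ}
    (hc : c ∈ lB m u v k i (t i + 1) (t (i + 1) - 1))
    (hc' : c ∈ lB m u v k' i (t i + 1) (t (i + 1) - 1)) : False := by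
  have b := h.blk hi h1 (by omega : k ≤ m)
  have b' := h.blk hi (by omega : 1 ≤ k') h2
  have g0 : 2 * i < 2 * N := by omega
  have g1 : 2 * i + 1 < 2 * N := by omega
  have e1 := h.uu g0 k k' h1 hk h2
  have e2 := h.vv g0 k k' h1 hk h2
  have e3 := h.uu g1 (m + 1 - k') (m + 1 - k) (by omega) (by omega) (by omega)
  have e4 := h.vv g1 (m + 1 - k') (m + 1 - k) (by omega) (by omega) (by omega)
  have f1 : u k' (2 * i) < v k (2 * i) := by
    have a1 := h.uv _ g0
    have a2 : u k' (2 * i) ≤ u m (2 * i) := by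
      rcases Nat.lt_or_ge k' m with h5 | h5
      · exact (h.uu g0 k' m (by omega) h5 (le_refl _)).le
      · have : k' = m := by omega
        rw [this]
    have a3 : v 1 (2 * i) ≤ v k (2 * i) := by
      rcases Nat.lt_or_ge 1 k with h5 | h5
      · exact (h.vv g0 1 k (le_refl _) h5 (by omega)).le
      · have : k = 1 := by omega
        rw [this]
    omega
  have f2 : u (m + 1 - k) (2 * i + 1) < v (m + 1 - k') (2 * i + 1) := by
    have a1 := h.uv _ g1
    have a2 : u (m + 1 - k) (2 * i + 1) ≤ u m (2 * i + 1) := by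
      rcases Nat.lt_or_ge (m + 1 - k) m with h5 | h5
      · exact (h.uu g1 (m + 1 - k) m (by omega) h5 (le_refl _)).le
      · have : m + 1 - k = m := by omega
        rw [this]
    have a3 : v 1 (2 * i + 1) ≤ v (m + 1 - k') (2 * i + 1) := by
      rcases Nat.lt_or_ge 1 (m + 1 - k') with h5 | h5
      · exact (h.vv g1 1 (m + 1 - k') (le_refl _) h5 (by omega)).le
      · have : m + 1 - k' = 1 := by omega
        rw [this]
    omega
  have f3 : v k' (2 * i) < u (m + 1 - k') (2 * i + 1) := b'.2.2.1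
  rw [lB_mem] at hc hc'
  rcases hc with hc | hc | hc | hc | hc | hc | hc <;>
    rcases hc' with hc' | hc' | hc' | hc' | hc' | hc' | hc' <;> omega

/-- The posts of the lanes. -/
def tB (P : ℕ × ℕ → V) (m : ℕ) (t : ℕ → ℕ) (s i : ℕ) : Set V := {P (t i, m + 1 - s)}

/-- The pieces of the lanes. -/
def pB (P : ℕ × ℕ → V) (m : ℕ) (u v : ℕ → ℕ → ℕ) (t : ℕ → ℕ) (J : ℕ → ℕ → Set V) (s i : ℕ) :
    Set V :=
  jB m J (m + 1 - s) i ∪ P '' lB m u v (m + 1 - s) i (t i + 1) (t (i + 1) - 1)

lemma Bnd.jB_fin (h : Bnd S ends P l r n m N u v t J) {k i : ℕ} (hi : i < N) (h1 : 1 ≤ k)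
    (h2 : k ≤ m) : (jB m J k i).Finite :=
  (h.finJ k (2 * i) h1 h2 (by omega)).union (h.finJ (m + 1 - k) (2 * i + 1) (by omega) (by omega)
    (by omega))

lemma Bnd.jB_page (h : Bnd S ends P l r n m N u v t J) {k i : ℕ} (hi : i < N) (h1 : 1 ≤ k)
    (h2 : k ≤ m) {c : ℕ × ℕ} (hc : c ∈ Reg l r n) : P c ∉ jB m J k i := by
  rintro (h3 | h3)
  · exact h.pJ k (2 * i) h1 h2 (by omega) c hc h3
  · exact h.pJ (m + 1 - k) (2 * i + 1) (by omega) (by omega) (by omega) c hc h3

lemma Bnd.jB_disj (h : Bnd S ends P l r n m N u v t J) {k i k' i' : ℕ} (hi : i < N) (h1 : 1 ≤ k)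
    (h2 : k ≤ m) (hi' : i' < N) (h1' : 1 ≤ k') (h2' : k' ≤ m) (hne : (k, i) ≠ (k', i')) :
    Disjoint (jB m J k i) (jB m J k' i') := by
  have h3 : ¬ (k = k' ∧ i = i') := fun h4 => hne (by rw [h4.1, h4.2])
  unfold jB
  rw [Set.disjoint_union_left, Set.disjoint_union_right, Set.disjoint_union_right]
  refine ⟨⟨?_, ?_⟩, ?_, ?_⟩
  · refine h.dJJ _ _ _ _ h1 h2 (by omega) h1' h2' (by omega) ?_
    rw [Ne, Prod.mk.injEq]
    omega
  · refine h.dJJ _ _ _ _ h1 h2 (by omega) (by omega) (by omega) (by omega) ?_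
    rw [Ne, Prod.mk.injEq]
    omega
  · refine h.dJJ _ _ _ _ (by omega) (by omega) (by omega) h1' h2' (by omega) ?_
    rw [Ne, Prod.mk.injEq]
    omega
  · refine h.dJJ _ _ _ _ (by omega) (by omega) (by omega) (by omega) (by omega) (by omega) ?_
    rw [Ne, Prod.mk.injEq]
    omega

lemma Bnd.pB_page (h : Bnd S ends P l r n m N u v t J) {s i : ℕ} (hi : i < N) (h1 : 1 ≤ s)
    (h2 : s ≤ m) {c : ℕ × ℕ} (hc : c ∈ Reg l r n) (hc' : P c ∈ pB P m u v t J s i) :
    t i < c.1 ∧ c.1 < t (i + 1) ∧ c.2 ≤ m := by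
  rcases hc' with h3 | ⟨c', h3, h4⟩
  · exact absurd h3 (h.jB_page hi (by omega) (by omega) hc)
  · have g2 := h.lB_reg hi (by omega) (by omega) h3
    have g3 := h.page.inj c' c g2.1 g2.2.1 g2.2.2 hc.1 hc.2.1 hc.2.2 h4
    rw [g3] at h3
    exact h.lB_col hi (by omega) (by omega) h3

/-- **Bands in series form a fat half plane.** -/
theorem Bnd.fat (h : Bnd S ends P l r n m N u v t J) :
    Fat S ends (N + 1) m (tB P m t) (pB P m u v t J) where
  finT := fun s i _ _ _ => Set.finite_singleton _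
  finL := fun s i h1 h2 h3 =>
    (h.jB_fin (k := m + 1 - s) (i := i) (by omega) (by omega) (by omega)).union
    (((reg_finite _ _ _).subset (h.lB_reg (k := m + 1 - s) (i := i) (by omega) (by omega)
      (by omega))).image _)
  neT := fun s i _ _ _ => ⟨_, rfl⟩
  conT := fun s i _ _ _ => vconn_singleton _
  conTL := by
    intro s i h1 h2 h3
    have hi : i < N := by omega
    have b := h.blk hi (k := m + 1 - s) (by omega) (by omega)
    have t1 := h.tR (by omega) (i := i) (by omega)
    have t2 := h.tR (by omega) (i := i + 1) (by omega)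
    refine vconn_congr (h.conn (k := m + 1 - s) (x := t i) (y := t (i + 1) - 1) hi (by omega) (by omega) t1.1
      (by omega) (by omega) (by omega)) (fun w => ?_)
    constructor
    · rintro (g | ⟨c, hc, g⟩)
      · exact Or.inr (Or.inl g)
      · rcases Nat.lt_or_ge (t i) c.1 with h5 | h5
        · refine Or.inr (Or.inr ⟨c, ?_, g⟩)
          rw [lB_mem] at hc ⊢
          rcases hc with hc | hc | hc | hc | hc | hc | hc
          · exact Or.inl hc
          · exact Or.inr (Or.inl (by omega))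
          · exact Or.inr (Or.inr (Or.inl hc))
          · exact Or.inr (Or.inr (Or.inr (Or.inl hc)))
          · exact Or.inr (Or.inr (Or.inr (Or.inr (Or.inl hc))))
          · exact Or.inr (Or.inr (Or.inr (Or.inr (Or.inr (Or.inl hc)))))
          · exact Or.inr (Or.inr (Or.inr (Or.inr (Or.inr (Or.inr hc)))))
        · left
          have h6 : c = (t i, m + 1 - s) := by
            rw [lB_mem] at hc
            apply Prod.ext <;> simp only <;>
              rcases hc with hc | hc | hc | hc | hc | hc | hc <;> omega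
          rw [h6] at g
          exact g.symm
    · rintro (g | g | ⟨c, hc, g⟩)
      · refine Or.inr ⟨(t i, m + 1 - s), ?_, g.symm⟩
        rw [lB_mem]
        exact Or.inr (Or.inl ⟨rfl, le_refl _, b.1.le⟩)
      · exact Or.inl g
      · refine Or.inr ⟨c, ?_, g⟩
        rw [lB_mem] at hc ⊢
        rcases hc with hc | hc | hc | hc | hc | hc | hc
        · exact Or.inl hc
        · exact Or.inr (Or.inl (by omega))
        · exact Or.inr (Or.inr (Or.inl hc))
        · exact Or.inr (Or.inr (Or.inr (Or.inl hc)))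
        · exact Or.inr (Or.inr (Or.inr (Or.inr (Or.inl hc))))
        · exact Or.inr (Or.inr (Or.inr (Or.inr (Or.inr (Or.inl hc)))))
        · exact Or.inr (Or.inr (Or.inr (Or.inr (Or.inr (Or.inr hc)))))
  conLT := by
    intro s i h1 h2 h3
    have hi : i < N := by omega
    have b := h.blk hi (k := m + 1 - s) (by omega) (by omega)
    have t1 := h.tR (by omega) (i := i) (by omega)
    have t2 := h.tR (by omega) (i := i + 1) (by omega)
    refine vconn_congr (h.conn (k := m + 1 - s) (x := t i + 1) (y := t (i + 1)) hi (by omega)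
      (by omega) (by omega) (by omega) (by omega) (by omega)) (fun w => ?_)
    constructor
    · rintro (g | ⟨c, hc, g⟩)
      · exact Or.inl (Or.inl g)
      · rcases Nat.lt_or_ge c.1 (t (i + 1)) with h5 | h5
        · refine Or.inl (Or.inr ⟨c, ?_, g⟩)
          rw [lB_mem] at hc ⊢
          rcases hc with hc | hc | hc | hc | hc | hc | hc
          · exact Or.inl hc
          · exact Or.inr (Or.inl hc)
          · exact Or.inr (Or.inr (Or.inl hc))
          · exact Or.inr (Or.inr (Or.inr (Or.inl hc)))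
          · exact Or.inr (Or.inr (Or.inr (Or.inr (Or.inl hc))))
          · exact Or.inr (Or.inr (Or.inr (Or.inr (Or.inr (Or.inl hc)))))
          · exact Or.inr (Or.inr (Or.inr (Or.inr (Or.inr (Or.inr (by omega))))))
        · right
          have h6 : c = (t (i + 1), m + 1 - s) := by
            rw [lB_mem] at hc
            apply Prod.ext <;> simp only <;>
              rcases hc with hc | hc | hc | hc | hc | hc | hc <;> omega
          rw [h6] at g
          exact g.symm
    · rintro ((g | ⟨c, hc, g⟩) | g)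
      · exact Or.inl g
      · refine Or.inr ⟨c, ?_, g⟩
        rw [lB_mem] at hc ⊢
        rcases hc with hc | hc | hc | hc | hc | hc | hc
        · exact Or.inl hc
        · exact Or.inr (Or.inl hc)
        · exact Or.inr (Or.inr (Or.inl hc))
        · exact Or.inr (Or.inr (Or.inr (Or.inl hc)))
        · exact Or.inr (Or.inr (Or.inr (Or.inr (Or.inl hc))))
        · exact Or.inr (Or.inr (Or.inr (Or.inr (Or.inr (Or.inl hc)))))
        · exact Or.inr (Or.inr (Or.inr (Or.inr (Or.inr (Or.inr (by omega))))))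
      · refine Or.inr ⟨(t (i + 1), m + 1 - s), ?_, g.symm⟩
        rw [lB_mem]
        exact Or.inr (Or.inr (Or.inr (Or.inr (Or.inr (Or.inr ⟨rfl, b.2.2.2.2.le, le_refl _⟩)))))
  lnk1 := by
    intro s i h1 h2 h3
    have hi : i < N := by omega
    have hd := h.dep
    have b := h.blk hi (k := m + 1 - s) (by omega) (by omega)
    have t1 := h.tR (by omega) (i := i) (by omega)
    have t2 := h.tR (by omega) (i := i + 1) (by omega)
    obtain ⟨e, he, hee⟩ := h.page.hor (t i) (m + 1 - s) (by omega) (by omega) (by omega)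
      (by omega)
    refine ⟨e, he, _, rfl, P (t i + 1, m + 1 - s), Or.inl (Or.inr ⟨_, ?_, rfl⟩), hee⟩
    rw [lB_mem]
    exact Or.inr (Or.inl ⟨rfl, le_refl _, b.1⟩)
  lnk2 := by
    intro s i h1 h2 h3
    have hi : i < N := by omega
    have hd := h.dep
    have b := h.blk hi (k := m + 1 - s) (by omega) (by omega)
    have t1 := h.tR (by omega) (i := i) (by omega)
    have t2 := h.tR (by omega) (i := i + 1) (by omega)
    obtain ⟨e, he, hee⟩ := h.page.hor (t (i + 1) - 1) (m + 1 - s) (by omega) (by omega) (by omega)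
      (by omega)
    rw [Nat.sub_add_cancel (by omega)] at hee
    refine ⟨e, he, P (t (i + 1) - 1, m + 1 - s), Or.inr (Or.inr ⟨_, ?_, rfl⟩), _, rfl, hee⟩
    rw [lB_mem]
    exact Or.inr (Or.inr (Or.inr (Or.inr (Or.inr (Or.inr ⟨rfl, Nat.le_sub_one_of_lt b.2.2.2.2, le_refl _⟩)))))
  ver := by
    intro s i h1 h2 h3
    have hd := h.dep
    have t1 := h.tR (by omega) (i := i) (by omega)
    obtain ⟨e, he, hee⟩ := h.page.ver (t i) (m - s) (by omega) (by omega) (by omega)
    have e1 : m - s + 1 = m + 1 - s := by omega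
    have e2 : m + 1 - (s + 1) = m - s := by omega
    rw [e1] at hee
    refine ⟨e, he, _, rfl, P (t i, m + 1 - (s + 1)), rfl, ?_⟩
    rw [e2, hee, Sym2.eq_swap]
  dTT := by
    intro s i s' i' h1 h2 h3 h1' h2' h3' hne
    have hd := h.dep
    have t1 := h.tR (by omega) (i := i) (by omega)
    have t1' := h.tR (by omega) (i := i') (by omega)
    rw [Set.disjoint_left]
    rintro x hx hx'
    have e1 : P (t i, m + 1 - s) = P (t i', m + 1 - s') :=
      (mem_singleton_iff.1 hx).symm.trans (mem_singleton_iff.1 hx')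
    have e2 := h.page.inj _ _ (by simp only; omega) (by simp only; omega) (by simp only; omega)
      (by simp only; omega) (by simp only; omega) (by simp only; omega) e1
    rw [Prod.mk.injEq] at e2
    apply hne
    rw [Prod.mk.injEq]
    refine ⟨by omega, ?_⟩
    rcases Nat.lt_trichotomy i i' with h4 | h4 | h4
    · have := h.tt (by omega) h4 (by omega)
      omega
    · exact h4
    · have := h.tt (by omega) h4 (by omega)
      omega
  dTL := by
    intro s i s' i' h1 h2 h3 h1' h2' h3'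
    have hd := h.dep
    have t1 := h.tR (by omega) (i := i) (by omega)
    rw [Set.disjoint_left]
    rintro x hx hx'
    rw [mem_singleton_iff.1 hx] at hx'
    have hR : (t i, m + 1 - s) ∈ Reg l r n := by
      rw [mem_Reg]; simp only; omega
    have g4 := h.pB_page (by omega) h1' h2' hR hx'
    simp only at g4
    rcases Nat.lt_trichotomy i i' with h4 | h4 | h4
    · have := h.tt (by omega) h4 (by omega)
      omega
    · subst h4
      omega
    · rcases Nat.lt_or_ge (i' + 1) i with h5 | h5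
      · have := h.tt (by omega) h5 (by omega)
        omega
      · have : i = i' + 1 := by omega
        subst this
        omega
  dLL := by
    intro s i s' i' h1 h2 h3 h1' h2' h3' hne
    have hne' : ¬ (s = s' ∧ i = i') := fun h4 => hne (by rw [h4.1, h4.2])
    rw [Set.disjoint_left]
    rintro x (hx | ⟨c, hc, rfl⟩) (hx' | ⟨c', hc', g'⟩)
    · refine Set.disjoint_left.1 (h.jB_disj (k := m + 1 - s) (k' := m + 1 - s') (by omega)
        (by omega) (by omega) (by omega) (by omega) (by omega) ?_) hx hx'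
      rw [Ne, Prod.mk.injEq]
      omega
    · rw [← g'] at hx
      exact h.jB_page (k := m + 1 - s) (i := i) (by omega) (by omega) (by omega)
        (h.lB_reg (k := m + 1 - s') (i := i') (by omega) (by omega) (by omega) hc') hx
    · exact h.jB_page (k := m + 1 - s') (i := i') (by omega) (by omega) (by omega)
        (h.lB_reg (k := m + 1 - s) (i := i) (by omega) (by omega) (by omega) hc) hx'
    · have r1 := h.lB_reg (k := m + 1 - s) (i := i) (by omega) (by omega) (by omega) hc
      have r2 := h.lB_reg (k := m + 1 - s') (i := i') (by omega) (by omega) (by omega) hc'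
      have g3 := h.page.inj c' c r2.1 r2.2.1 r2.2.2 r1.1 r1.2.1 r1.2.2 g'
      rw [g3] at hc'
      have k1 := h.lB_col (k := m + 1 - s) (i := i) (by omega) (by omega) (by omega) hc
      have k2 := h.lB_col (k := m + 1 - s') (i := i') (by omega) (by omega) (by omega) hc'
      rcases Nat.lt_trichotomy i i' with h4 | h4 | h4
      · rcases Nat.lt_or_ge (i + 1) i' with h5 | h5
        · have := h.tt (by omega) h5 (by omega)
          omega
        · have : i' = i + 1 := by omega
          subst this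
          omega
      · subst h4
        rcases Nat.lt_trichotomy s s' with h5 | h5 | h5
        · exact h.lB_disj (k := m + 1 - s') (k' := m + 1 - s) (by omega) (by omega) (by omega)
            (by omega) hc' hc
        · exact hne' ⟨h5, rfl⟩
        · exact h.lB_disj (k := m + 1 - s) (k' := m + 1 - s') (by omega) (by omega) (by omega)
            (by omega) hc hc'
      · rcases Nat.lt_or_ge (i' + 1) i with h5 | h5
        · have := h.tt (by omega) h5 (by omega)
          omega
        · have : i = i' + 1 := by omega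
          subst this
          omega

/-- **(MS).**  Crossing bands in series on one page. -/
theorem ms {w N m : ℕ} (hw : 1 ≤ w) (hN : N = (2 * w) * (2 * w))
    (hm' : 2 * w + 1 ≤ m) (h : Bnd S ends P l r n m N u v t J) (hn : m + 1 + 2 * w ≤ n) :
    GmF S ends P l r n (2 * w) := by
  subst hN
  have hP := h.page
  have hf := h.fat
  have hN1 : 1 ≤ (2 * w) * (2 * w) := Nat.one_le_iff_ne_zero.2 (by
    intro h1
    rcases Nat.mul_eq_zero.1 h1 with h2 | h2 <;> omega)
  have hst : ∀ i < (2 * w) * (2 * w), t i < t (i + 1) := fun i hi =>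
    h.tt (by omega) (Nat.lt_succ_self i) hi
  -- the lower half plane
  have hPl : ∀ s i, 1 ≤ s → s ≤ m → i < (2 * w) * (2 * w) + 1 → ∀ c ∈ Upr l r n (m + 1),
      P c ∉ tB P m t s i := by
    intro s i h1 h2 h3 c hc hv
    rw [mem_Upr] at hc
    have t1 := h.tR (by omega) (i := i) (by omega)
    have e := hP.inj _ _ (by omega) (by omega) (by omega) (by simp only; omega)
      (by simp only; omega) (by simp only; omega) (mem_singleton_iff.1 hv)
    rw [e] at hc
    simp only at hc
    omega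
  have hPL : ∀ s i, 1 ≤ s → s ≤ m → i < (2 * w) * (2 * w) → ∀ c ∈ Upr l r n (m + 1),
      P c ∉ pB P m u v t J s i := by
    intro s i h1 h2 h3 c hc hv
    have h4 := h.pB_page h3 h1 h2 hc.1 hv
    rw [mem_Upr] at hc
    omega
  have hXU : ∀ i < (2 * w) * (2 * w), (t i, m + 1) ∈ Upr l r n (m + 1) := by
    intro i hi
    have t1 := h.tR (by omega) (i := i) (by omega)
    rw [mem_Upr]
    simp only
    omega
  have hUD : ∀ c ∈ Upr l r n (m + 1), P c ∉ {x | ∃ s i, 1 ≤ s ∧ s ≤ 2 * w ∧
      i < (2 * w) * (2 * w) ∧ (x ∈ tB P m t s i ∨ x ∈ pB P m u v t J s i)} := by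
    rintro c hc ⟨s, i, h1, h2, h3, h4 | h4⟩
    · exact hPl s i h1 (by omega) (by omega) c hc h4
    · exact hPL s i h1 (by omega) h3 c hc h4
  have hZD : ∀ x, x ∈ P '' Upr l r n (m + 1) ∪ {x | ∃ s i, 1 ≤ s ∧ s ≤ 2 * w ∧
      i < (2 * w) * (2 * w) ∧ (x ∈ tB P m t s i ∨ x ∈ pB P m u v t J s i)} →
      ∀ i < (2 * w) * (2 * w), x ∈ tB P m t m i ∪ pB P m u v t J m i → False := by
    rintro x (⟨c, hc, rfl⟩ | ⟨s, i, h1, h2, h3, h4⟩) i' hi' hx
    · rcases hx with hx | hx
      · exact hPl m i' (by omega) (le_refl _) (by omega) c hc hx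
      · exact hPL m i' (by omega) (le_refl _) hi' c hc hx
    · rcases h4 with h4 | h4 <;> rcases hx with hx | hx
      · refine Set.disjoint_left.1 (hf.dTT s i m i' h1 (by omega) (by omega) (by omega) (le_refl _)
          (by omega) ?_) h4 hx
        rw [Ne, Prod.mk.injEq]
        omega
      · exact Set.disjoint_left.1 (hf.dTL s i m i' h1 (by omega) (by omega) (by omega) (le_refl _)
          (by omega)) h4 hx
      · exact Set.disjoint_left.1 (hf.dTL m i' s i (by omega) (le_refl _) (by omega) h1 (by omega)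
          (by omega)) hx h4
      · refine Set.disjoint_left.1 (hf.dLL s i m i' h1 (by omega) (by omega) (by omega) (le_refl _)
          (by omega) ?_) h4 hx
        rw [Ne, Prod.mk.injEq]
        omega
  have ho := book_fat (w := 2 * w) (by omega) hP (b₀ := m + 1) (by omega) (by omega) t hst h.lt0
    (by have := h.rt0; omega) (hf.mono (N' := (2 * w) * (2 * w)) (m' := 2 * w) (by omega)
    (by omega)) {x | ∃ s i, 1 ≤ s ∧ s ≤ 2 * w ∧ i < (2 * w) * (2 * w) ∧
      (x ∈ tB P m t s i ∨ x ∈ pB P m u v t J s i)}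
    (fun s i h1 h2 h3 x hx => ⟨s, i, h1, h2, h3, Or.inl hx⟩)
    (fun s i h1 h2 h3 x hx => ⟨s, i, h1, h2, by omega, Or.inr hx⟩) hUD
    (fun i => {P (t i, m + 1)}) (fun i hi => finite_singleton _) (fun i hi => vconn_singleton _)
    (fun i hi => rfl) ?_ ?_ ?_ ?_
  · obtain ⟨Vs, As, hs, hV, hA⟩ := ho
    refine hs.jgridZ hw (⋃ i ∈ Finset.range ((2 * w) * (2 * w)),
      (tB P m t m i ∪ pB P m u v t J m i)) ?_ ?_ ?_ ?_ ?_ (n := n) (b := m + 1) (by omega) ?_ ?_
    · refine Set.Finite.biUnion (Finset.finite_toSet _) (fun i hi => ?_)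
      have hi' : i < (2 * w) * (2 * w) := Finset.mem_range.1 (Finset.mem_coe.1 hi)
      exact (hf.finT m i (by omega) (le_refl _) (by omega)).union
        (hf.finL m i (by omega) (le_refl _) (by omega))
    · refine vconn_chain (fun i => tB P m t m i ∪ pB P m u v t J m i)
        (fun i hi => hf.conTL m i (by omega) (le_refl _) (by omega)) (fun i hi => ?_)
      exact (hf.lnk2 m i (by omega) (le_refl _) (by omega)).mono (subset_refl _) (subset_refl _)
        subset_union_left
    · intro i hi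
      rw [Set.disjoint_left]
      intro x hx hx'
      obtain ⟨i', hi', hx'⟩ := mem_iUnion₂.1 hx'
      rw [Finset.mem_range] at hi'
      refine hZD x ?_ i' hi' hx'
      rcases (hV i hi).2.2 hx with h1 | h1
      · exact Or.inl ⟨_, hXU i hi, (mem_singleton_iff.1 h1).symm⟩
      · exact h1
    · intro r' s h1 h2 h3 h4
      rw [Set.disjoint_left]
      intro x hx hx'
      obtain ⟨i', hi', hx'⟩ := mem_iUnion₂.1 hx'
      rw [Finset.mem_range] at hi'
      exact hZD x (hA r' s h1 h2 h3 h4 hx) i' hi' hx'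
    · intro i hi
      have b := h.blk hi (k := 1) (le_refl _) (by omega)
      have t1 := h.tR (by omega) (i := i) (by omega)
      have t2 := h.tR (by omega) (i := i + 1) (by omega)
      obtain ⟨e, he, hee⟩ := hP.ver (v 1 (2 * i)) m (by omega) (by omega) (by omega)
      refine ⟨e, he, P (v 1 (2 * i), m + 1), (hV i hi).2.1 ⟨_, hm (by omega) (by omega), rfl⟩,
        P (v 1 (2 * i), m), ?_, by rw [hee, Sym2.eq_swap]⟩
      refine mem_iUnion₂.2 ⟨i, Finset.mem_range.2 hi, Or.inr (Or.inr ⟨_, ?_, rfl⟩)⟩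
      have e1 : m + 1 - m = 1 := by omega
      rw [e1, lB_mem]
      exact Or.inr (Or.inr (Or.inl ⟨rfl, by simp only; omega⟩))
    · intro i hi
      have t1 := h.tR (by omega) (i := i) (by omega)
      have g1 := (hXU i hi).1
      exact ⟨t i, g1.1, g1.2.1, (hV i hi).1 rfl⟩
    · intro x j g1 g2 h1 h2 hx'
      obtain ⟨i', hi', hx'⟩ := mem_iUnion₂.1 hx'
      rw [Finset.mem_range] at hi'
      refine hZD _ (Or.inl ⟨(x, j), ?_, rfl⟩) i' hi' hx'
      rw [mem_Upr]
      exact ⟨⟨g1, g2, h2⟩, h1⟩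
  · intro i hi j hj hij
    rw [Set.disjoint_singleton]
    intro h'
    have g1 := (hXU i hi).1
    have g2 := (hXU j hj).1
    have g3 := hP.inj _ _ g1.1 g1.2.1 g1.2.2 g2.1 g2.2.1 g2.2.2 h'
    rw [Prod.mk.injEq] at g3
    rcases Nat.lt_or_gt_of_ne hij with h4 | h4
    · have := h.tt (by omega) h4 (by omega)
      omega
    · have := h.tt (by omega) h4 (by omega)
      omega
  · intro i hi c hc hx
    have g1 := (hXU i hi).1
    have g2 := hc.1
    have g3 := hP.inj _ _ g2.1 g2.2.1 g2.2.2 g1.1 g1.2.1 g1.2.2 (mem_singleton_iff.1 hx)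
    rw [g3]
    exact ⟨le_refl _, hst i hi, le_refl _⟩
  · intro i hi
    rw [Set.disjoint_singleton_left]
    exact hUD _ (hXU i hi)
  · intro i hi
    have g1 := (hXU i hi).1
    obtain ⟨e, he, hee⟩ := hP.ver (t i) m g1.1 g1.2.1 (by omega)
    exact ⟨e, he, _, rfl, P (t i, m), rfl, by rw [hee, Sym2.eq_swap]⟩

end

end EN
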