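import Pool.Agent.EN.Ends
import Pool.Agent.GL.EndPlus

/-!
# END+, one pass: assembly

Blobs instead of single vertices, the two outcomes of `EndP.endPlus`, and the theorem
`end_single`: a brick wall with spokes which crosses a window of a page exactly once in every row
gives the grid with junction elements (`JGrid`) without using the window.
-/

open Set
open scoped Matroid

namespace EN

open BIC Gad

variable {α V : Type*} {M : Matroid α} {S : Set α} {ends : α → Sym2 V}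

/-- The piece of a page joining the columns `a` and `b` in row `1`. -/
def UU (a b : ℕ) : Set (ℕ × ℕ) :=
  Vert a 0 1 ∪ HRow (min a b) (max a b) 1 ∪ Vert b 0 1

lemma UU_box {a b : ℕ} {c : ℕ × ℕ} (hc : c ∈ UU a b) :
    min a b ≤ c.1 ∧ c.1 ≤ max a b ∧ c.2 ≤ 1 := by
  rcases hc with (hc | hc) | hc
  · rw [mem_Vert] at hc; omega
  · rw [mem_HRow] at hc; omega
  · rw [mem_Vert] at hc; omega

lemma UU_left {a b c : ℕ} (hc : c ≤ 1) : (a, c) ∈ UU a b := Or.inl (Or.inl (vm (by omega) hc))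

lemma UU_right {a b c : ℕ} (hc : c ≤ 1) : (b, c) ∈ UU a b := Or.inr (vm (by omega) hc)

lemma UU_min {a b : ℕ} : (min a b, 1) ∈ UU a b := Or.inl (Or.inr (hm (by omega) (by omega)))

lemma UU_finite (a b : ℕ) : (UU a b).Finite :=
  ((vert_finite _ _ _).union (hrow_finite _ _ _)).union (vert_finite _ _ _)

lemma UU_conn {P : ℕ × ℕ → V} {l r n : ℕ} (hP : Page S ends P l r n) (hn : 1 ≤ n) {a b : ℕ}
    (h1 : l ≤ a) (h2 : a ≤ r) (h3 : l ≤ b) (h4 : b ≤ r) : VConn S ends (P '' UU a b) := by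
  unfold UU
  rw [image_union, image_union]
  exact vc_union (vc_union (hP.vconn_ver h1 h2 (by omega))
    (hP.vconn_hor (by omega) (by omega) (le_refl _) (by omega)) (c := P (a, 1))
    ⟨_, vm (by omega) (by omega), rfl⟩ ⟨_, hm (by omega) (by omega), rfl⟩)
    (hP.vconn_ver h3 h4 (by omega)) (c := P (b, 1))
    (Or.inr ⟨_, hm (by omega) (by omega), rfl⟩) ⟨_, vm (by omega) (by omega), rfl⟩

lemma mon_ne {N : ℕ} {y : ℕ → ℕ} (h : Mon N y) : ∀ i < N, ∀ j < N, y i = y j → i = j := by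
  intro i hi j hj h0
  rcases Nat.lt_trichotomy i j with h1 | h1 | h1
  · rcases h with h2 | h2
    · have := h2 i j h1 hj; omega
    · have := h2 i j h1 hj; omega
  · exact h1
  · rcases h with h2 | h2
    · have := h2 j i h1 hi; omega
    · have := h2 j i h1 hi; omega

/-- Two pages, sets `K i` joined through the first page between the columns `a i` and `b i`. -/
theorem book_K {w N : ℕ} (hw : 1 ≤ w) (hN : N = (2 * w) * (2 * w))
    {P Q : ℕ × ℕ → V} {lP rP nP lQ rQ nQ : ℕ} (hP : Page S ends P lP rP nP)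
    (hQ : Page S ends Q lQ rQ nQ)
    (hPQ : ∀ c ∈ Reg lP rP nP, ∀ c' ∈ Reg lQ rQ nQ, P c ≠ Q c')
    (hn₀ : 1 + 2 * w ≤ nP) (hn₁ : 2 * w ≤ nQ) (a b y : ℕ → ℕ)
    (hab : ∀ i < N, lP ≤ a i ∧ a i ≤ rP ∧ lP ≤ b i ∧ b i ≤ rP)
    (hmon : (∀ i j, i < j → j < N → max (a i) (b i) < min (a j) (b j)) ∨
      (∀ i j, i < j → j < N → max (a j) (b j) < min (a i) (b i)))
    (hy : ∀ i < N, lQ ≤ y i ∧ y i ≤ rQ) (hym : Mon N y)
    (K : ℕ → Set V) (hKf : ∀ i < N, (K i).Finite)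
    (hXc : ∀ i < N, VConn S ends (K i ∪ P '' UU (a i) (b i) ∪ {Q (y i, 0)}))
    (hKK : ∀ i < N, ∀ j < N, i ≠ j → Disjoint (K i) (K j))
    (hKP : ∀ i < N, ∀ c ∈ Reg lP rP nP, P c ∉ K i) (hKQ : ∀ i < N, ∀ c ∈ Reg lQ rQ nQ, Q c ∉ K i)
    (Z : Set V) (hZf : Z.Finite) (hZc : VConn S ends Z) (hZP : ∀ c ∈ Reg lP rP nP, P c ∉ Z)
    (hZQ : ∀ c ∈ Reg lQ rQ nQ, Q c ∉ Z) (hKZ : ∀ i < N, Disjoint (K i) Z)
    (hadj : ∀ i < N, Lnk S ends (K i ∪ P '' UU (a i) (b i) ∪ {Q (y i, 0)}) Z) :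
    GmF S ends P lP rP nP (2 * w) := by
  have hyR : ∀ i < N, (y i, 0) ∈ Reg lQ rQ nQ := fun i hi => by
    have := hy i hi
    rw [mem_Reg]; simp only; omega
  have hUR : ∀ i < N, UU (a i) (b i) ⊆ Reg lP rP nP := by
    intro i hi c hc
    have h1 := UU_box hc
    have h2 := hab i hi
    rw [mem_Reg]
    omega
  have hUU : ∀ i < N, ∀ j < N, i ≠ j → ∀ c ∈ UU (a i) (b i), c ∉ UU (a j) (b j) := by
    intro i hi j hj hij c hc hc'
    have h1 := UU_box hc
    have h2 := UU_box hc'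
    rcases Nat.lt_or_gt_of_ne hij with h | h
    · rcases hmon with h3 | h3
      · have := h3 i j h hj; omega
      · have := h3 i j h hj; omega
    · rcases hmon with h3 | h3
      · have := h3 j i h hi; omega
      · have := h3 j i h hi; omega
  set X : ℕ → Set V := fun i => K i ∪ P '' UU (a i) (b i) ∪ {Q (y i, 0)} with hX
  refine book_int hw hN hP hQ hPQ (b₀ := 1) (b₁ := 0) (le_refl _) (by omega) (by omega)
    (fun i => min (a i) (b i)) (fun i => max (a i) (b i)) y ?_ hmon hy hym X ?_ hXc ?_ ?_ ?_ ?_ ?_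
    Z hZf hZc hZP hZQ ?_ hadj
  · intro i hi
    have := hab i hi
    omega
  · intro i hi
    exact ((hKf i hi).union ((UU_finite _ _).image _)).union (finite_singleton _)
  · intro i _
    exact Or.inl (Or.inr ⟨_, UU_min, rfl⟩)
  · intro i _
    exact Or.inr rfl
  · intro i hi j hj hij
    rw [Set.disjoint_left]
    rintro u ((hu | ⟨c, hc, rfl⟩) | hu) ((hu' | ⟨c', hc', h'⟩) | hu')
    · exact Set.disjoint_left.1 (hKK i hi j hj hij) hu hu'
    · rw [← h'] at hu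
      exact hKP i hi c' (hUR j hj hc') hu
    · rw [mem_singleton_iff] at hu'
      rw [hu'] at hu
      exact hKQ i hi _ (hyR j hj) hu
    · exact hKP j hj c (hUR i hi hc) hu'
    · have h1 := hUR i hi hc
      have h2 := hUR j hj hc'
      have h3 := hP.inj c' c h2.1 h2.2.1 h2.2.2 h1.1 h1.2.1 h1.2.2 h'
      rw [h3] at hc'
      exact hUU i hi j hj hij c hc hc'
    · rw [mem_singleton_iff] at hu'
      exact hPQ c (hUR i hi hc) _ (hyR j hj) hu'
    · rw [mem_singleton_iff] at hu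
      rw [hu] at hu'
      exact hKQ j hj _ (hyR i hi) hu'
    · rw [mem_singleton_iff] at hu
      exact hPQ c' (hUR j hj hc') _ (hyR i hi) (h'.trans hu)
    · rw [mem_singleton_iff] at hu hu'
      have h1 := hyR i hi
      have h2 := hyR j hj
      have h3 := hQ.inj _ _ h1.1 h1.2.1 h1.2.2 h2.1 h2.2.1 h2.2.2 (hu.symm.trans hu')
      rw [Prod.mk.injEq] at h3
      exact hij (mon_ne hym i hi j hj h3.1)
  · rintro i hi c hc ((hu | ⟨c', hc', h⟩) | hu)
    · exact absurd hu (hKP i hi c hc)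
    · have h2 := hUR i hi hc'
      have h3 := hP.inj c' c h2.1 h2.2.1 h2.2.2 hc.1 hc.2.1 hc.2.2 h
      rw [← h3]
      exact UU_box hc'
    · exact absurd hu (hPQ c hc _ (hyR i hi))
  · rintro i hi c hc ((hu | ⟨c', hc', h⟩) | hu)
    · exact absurd hu (hKQ i hi c hc)
    · exact absurd h (hPQ c' (hUR i hi hc') c hc)
    · have h2 := hyR i hi
      have h3 := hQ.inj c _ hc.1 hc.2.1 hc.2.2 h2.1 h2.2.1 h2.2.2 hu
      rw [h3]
      exact ⟨le_refl _, fun _ => rfl⟩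
  · intro i hi
    rw [Set.disjoint_left]
    rintro u ((hu | ⟨c, hc, rfl⟩) | hu) hu'
    · exact Set.disjoint_left.1 (hKZ i hi) hu hu'
    · exact hZP c (hUR i hi hc) hu'
    · rw [mem_singleton_iff] at hu
      rw [hu] at hu'
      exact hZQ _ (hyR i hi) hu'

/-- A system of disjoint pages, every page with its own column interval. -/
structure Pgs (S : Set α) (ends : α → Sym2 V) {σ : Type*} (P : σ → ℕ × ℕ → V) (lo hi : σ → ℕ)
    (n : ℕ) : Prop where
  page : ∀ s, Page S ends (P s) (lo s) (hi s) n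
  dis : ∀ s s', s ≠ s' → ∀ c ∈ Reg (lo s) (hi s) n, ∀ c' ∈ Reg (lo s') (hi s') n,
    P s c ≠ P s' c'

section

variable {σ : Type*} {P : σ → ℕ × ℕ → V} {lo hi : σ → ℕ} {n : ℕ}

lemma Pgs.ne (hP : Pgs S ends P lo hi n) {s s' : σ} {l r l' r' : ℕ} (hl : lo s ≤ l)
    (hr : r ≤ hi s) (hl' : lo s' ≤ l') (hr' : r' ≤ hi s') (h : s ≠ s' ∨ r < l' ∨ r' < l) :
    ∀ c ∈ Reg l r n, ∀ c' ∈ Reg l' r' n, P s c ≠ P s' c' := by
  intro c hc c' hc'
  rw [mem_Reg] at hc hc'
  by_cases hs : s = s'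
  · subst hs
    intro h1
    have h2 := (hP.page s).inj c c' (by omega) (by omega) hc.2.2 (by omega) (by omega) hc'.2.2 h1
    rw [h2] at hc
    rcases h with h | h | h
    · exact h rfl
    · omega
    · omega
  · exact hP.dis s s' hs c (by rw [mem_Reg]; omega) c' (by rw [mem_Reg]; omega)

/-- Dropping the first and the last member: the intervals between `y` and `c` are separated from
`z` when `y` is. -/
lemma near_sep {N : ℕ} {s₀ s₁ : σ} {y c z : ℕ → ℕ}
    (hyc : (∀ i j, i < j → j < N + 2 → max (y i) (c i) < min (y j) (c j)) ∨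
      (∀ i j, i < j → j < N + 2 → max (y j) (c j) < min (y i) (c i)))
    (h : Sepd (N + 2) s₀ y s₁ z) : s₀ ≠ s₁ ∨
      (∀ i < N, ∀ j < N, max (y (i + 1)) (c (i + 1)) < z (j + 1)) ∨
      (∀ i < N, ∀ j < N, z (j + 1) < min (y (i + 1)) (c (i + 1))) := by
  rcases h with h | h | h
  · exact Or.inl h
  · right; left
    intro i hi j hj
    have h1 := h (i + 1) (by omega) (j + 1) (by omega)
    have h2 := h i (by omega) (j + 1) (by omega)
    have h3 := h (i + 2) (by omega) (j + 1) (by omega)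
    rcases hyc with h4 | h4
    · have := h4 (i + 1) (i + 2) (by omega) (by omega)
      omega
    · have := h4 i (i + 1) (by omega) (by omega)
      omega
  · right; right
    intro i hi j hj
    have h1 := h (i + 1) (by omega) (j + 1) (by omega)
    have h2 := h i (by omega) (j + 1) (by omega)
    have h3 := h (i + 2) (by omega) (j + 1) (by omega)
    rcases hyc with h4 | h4
    · have := h4 i (i + 1) (by omega) (by omega)
      omega
    · have := h4 (i + 1) (i + 2) (by omega) (by omega)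
      omega

lemma mon_shift {N : ℕ} {y : ℕ → ℕ} (h : Mon (N + 2) y) : Mon N (fun i => y (i + 1)) := by
  rcases h with h | h
  · left
    intro i j hij hj
    exact h (i + 1) (j + 1) (by omega) (by omega)
  · right
    intro i j hij hj
    exact h (i + 1) (j + 1) (by omega) (by omega)

/-- **Outcome (A), blobs.** -/
theorem gA {w N : ℕ} (hw : 1 ≤ w) (hN : N = (2 * w) * (2 * w))
    (hP : Pgs S ends P lo hi n) (hn : 2 * w + 1 ≤ n) (B : ℕ → Set V)
    (hBf : ∀ i < N + 2, (B i).Finite) (hBc : ∀ i < N + 2, VConn S ends (B i))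
    (hBB : ∀ i < N + 2, ∀ j < N + 2, i ≠ j → Disjoint (B i) (B j))
    (hBP : ∀ i < N + 2, ∀ s, ∀ c ∈ Reg (lo s) (hi s) n, P s c ∉ B i)
    (G : Set V) (hGf : G.Finite) (hGc : VConn S ends G)
    (hGP : ∀ s, ∀ c ∈ Reg (lo s) (hi s) n, P s c ∉ G) (hBG : ∀ i < N + 2, Disjoint (B i) G)
    (s₀ s₁ : σ) (y z q : ℕ → ℕ)
    (hy : ∀ i < N + 2, lo s₀ ≤ y i ∧ y i ≤ hi s₀) (hq : ∀ i < N + 2, lo s₀ ≤ q i ∧ q i ≤ hi s₀)
    (hz : ∀ i < N + 2, lo s₁ ≤ z i ∧ z i ≤ hi s₁)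
    (hyq : (∀ i j, i < j → j < N + 2 → max (y i) (q i) < min (y j) (q j)) ∨
      (∀ i j, i < j → j < N + 2 → max (y j) (q j) < min (y i) (q i)))
    (hzm : Mon (N + 2) z)
    (hvy : ∀ i < N + 2, Lnk S ends (B i) {P s₀ (y i, 0)})
    (hvz : ∀ i < N + 2, Lnk S ends (B i) {P s₁ (z i, 0)})
    (hgq : ∀ i < N + 2, Lnk S ends G {P s₀ (q i, 0)})
    (hyz : Sepd (N + 2) s₀ y s₁ z) :
    Gm1 S ends P lo hi n (2 * w) := by
  have hNpos : 0 < N := by
    rw [hN]; exact Nat.mul_pos (by omega) (by omega)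
  have hsep := near_sep hyq hyz
  obtain ⟨lm, _, hm1, hm2, _⟩ := hull hNpos (fun i => min (y (i + 1)) (q (i + 1)))
  obtain ⟨_, rm, hM1, _, hM3⟩ := hull hNpos (fun i => max (y (i + 1)) (q (i + 1)))
  obtain ⟨lz, rz, hz1, hz2, hz3⟩ := hull hNpos (fun i => z (i + 1))
  have hx1 : ∀ i < N, lm ≤ y (i + 1) ∧ y (i + 1) ≤ rm ∧ lm ≤ q (i + 1) ∧ q (i + 1) ≤ rm := by
    intro i hi
    have h1 := hm1 i hi
    have h2 := hM1 i hi
    omega
  have hlm : lo s₀ ≤ lm := by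
    obtain ⟨i, hi, h⟩ := hm2
    have h1 := hy (i + 1) (by omega)
    have h2 := hq (i + 1) (by omega)
    omega
  have hrm : rm ≤ hi s₀ := by
    obtain ⟨i, hi, h⟩ := hM3
    have h1 := hy (i + 1) (by omega)
    have h2 := hq (i + 1) (by omega)
    omega
  have hlz : lo s₁ ≤ lz := by
    obtain ⟨i, hi, rfl⟩ := hz2; exact (hz _ (by omega)).1
  have hrz : rz ≤ hi s₁ := by
    obtain ⟨i, hi, rfl⟩ := hz3; exact (hz _ (by omega)).2
  have hint : s₀ ≠ s₁ ∨ rm < lz ∨ rz < lm := by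
    obtain ⟨a, ha, ha'⟩ := hm2
    obtain ⟨b, hb, hb'⟩ := hM3
    obtain ⟨c, hc, hc'⟩ := hz2
    obtain ⟨d, hd, hd'⟩ := hz3
    rcases hsep with h | h | h
    · exact Or.inl h
    · have := h b hb c hc
      omega
    · have := h a ha d hd
      omega
  have hPQ := hP.ne hlm hrm hlz hrz hint
  have hpP := (hP.page s₀).sub hlm hrm (le_refl n)
  have hpQ := (hP.page s₁).sub hlz hrz (le_refl n)
  have hR0 : ∀ c ∈ Reg lm rm n, c ∈ Reg (lo s₀) (hi s₀) n := by
    intro c hc; rw [mem_Reg] at hc ⊢; omega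
  have hR1 : ∀ c ∈ Reg lz rz n, c ∈ Reg (lo s₁) (hi s₁) n := by
    intro c hc; rw [mem_Reg] at hc ⊢; omega
  refine Gm1.of' ?_ hlm hrm
  refine book_K hw hN hpP hpQ hPQ (by omega) (by omega) (fun i => y (i + 1))
    (fun i => q (i + 1)) (fun i => z (i + 1)) hx1 ?_ hz1 (mon_shift hzm) (fun i => B (i + 1))
    (fun i hi => hBf _ (by omega)) ?_ (fun i hi j hj hij => hBB _ (by omega) _ (by omega)
    (by omega)) (fun i hi c hc => hBP _ (by omega) _ c (hR0 c hc))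
    (fun i hi c hc => hBP _ (by omega) _ c (hR1 c hc)) G hGf hGc
    (fun c hc => hGP _ c (hR0 c hc)) (fun c hc => hGP _ c (hR1 c hc))
    (fun i hi => hBG _ (by omega)) ?_
  · rcases hyq with h | h
    · left
      intro i j hij hj
      exact h (i + 1) (j + 1) (by omega) (by omega)
    · right
      intro i j hij hj
      exact h (i + 1) (j + 1) (by omega) (by omega)
  · intro i hi
    have h1 := hx1 i hi
    refine vc_lnk (vc_lnk (hBc _ (by omega)) (UU_conn hpP (by omega) h1.1 h1.2.1 h1.2.2.1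
      h1.2.2.2) ((hvy (i + 1) (by omega)).mono (le_refl _) (le_refl _) ?_)) (vconn_singleton _)
      ((hvz (i + 1) (by omega)).mono (le_refl _) subset_union_left (le_refl _))
    rw [singleton_subset_iff]
    exact ⟨_, UU_left (by omega), rfl⟩
  · intro i hi
    refine ((hgq (i + 1) (by omega)).mono (le_refl _) (le_refl _) ?_).symm
    rw [singleton_subset_iff]
    exact Or.inl (Or.inr ⟨_, UU_right (by omega), rfl⟩)

/-- **Outcome (B), blobs.** -/
theorem gB {w N : ℕ} (hw : 1 ≤ w) (hN : N = (2 * w) * (2 * w))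
    (hP : Pgs S ends P lo hi n) (hn : 2 * w + 1 ≤ n) (B B' : ℕ → Set V)
    (hBf : ∀ i < N + 2, (B i).Finite) (hBc : ∀ i < N + 2, VConn S ends (B i))
    (hBf' : ∀ i < N + 2, (B' i).Finite) (hBc' : ∀ i < N + 2, VConn S ends (B' i))
    (hBB : ∀ i < N + 2, ∀ j < N + 2, i ≠ j → Disjoint (B i ∪ B' i) (B j ∪ B' j))
    (hBP : ∀ i < N + 2, ∀ s, ∀ c ∈ Reg (lo s) (hi s) n, P s c ∉ B i ∪ B' i)
    (s₀ s₁ s₂ : σ) (y z c d : ℕ → ℕ)
    (hy : ∀ i < N + 2, lo s₀ ≤ y i ∧ y i ≤ hi s₀) (hc : ∀ i < N + 2, lo s₀ ≤ c i ∧ c i ≤ hi s₀)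
    (hz : ∀ i < N + 2, lo s₁ ≤ z i ∧ z i ≤ hi s₁) (hd : ∀ i < N + 2, lo s₂ ≤ d i ∧ d i ≤ hi s₂)
    (hyc : (∀ i j, i < j → j < N + 2 → max (y i) (c i) < min (y j) (c j)) ∨
      (∀ i j, i < j → j < N + 2 → max (y j) (c j) < min (y i) (c i)))
    (hzm : Mon (N + 2) z) (hdm : Mon (N + 2) d)
    (hvy : ∀ i < N + 2, Lnk S ends (B i) {P s₀ (y i, 0)})
    (hvz : ∀ i < N + 2, Lnk S ends (B i) {P s₁ (z i, 0)})
    (hwc : ∀ i < N + 2, Lnk S ends (B' i) {P s₀ (c i, 0)})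
    (hwd : ∀ i < N + 2, Lnk S ends (B' i) {P s₂ (d i, 0)})
    (hyz : Sepd (N + 2) s₀ y s₁ z) (hyd : Sepd (N + 2) s₀ y s₂ d)
    (hzd : Sepd (N + 2) s₁ z s₂ d) :
    Gm1 S ends P lo hi n (2 * w) := by
  have hNpos : 0 < N := by
    rw [hN]; exact Nat.mul_pos (by omega) (by omega)
  have hsep := near_sep hyc hyz
  have hsep' := near_sep hyc hyd
  obtain ⟨lm, _, hm1, hm2, _⟩ := hull hNpos (fun i => min (y (i + 1)) (c (i + 1)))
  obtain ⟨_, rm, hM1, _, hM3⟩ := hull hNpos (fun i => max (y (i + 1)) (c (i + 1)))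
  obtain ⟨lz, rz, hz1, hz2, hz3⟩ := hull hNpos (fun i => z (i + 1))
  obtain ⟨ld, rd, hd1, hd2, hd3⟩ := hull hNpos (fun i => d (i + 1))
  have hx1 : ∀ i < N, lm ≤ y (i + 1) ∧ y (i + 1) ≤ rm ∧ lm ≤ c (i + 1) ∧ c (i + 1) ≤ rm := by
    intro i hi
    have h1 := hm1 i hi
    have h2 := hM1 i hi
    omega
  have hlm : lo s₀ ≤ lm := by
    obtain ⟨i, hi, h⟩ := hm2
    have h1 := hy (i + 1) (by omega)
    have h2 := hc (i + 1) (by omega)
    omega
  have hrm : rm ≤ hi s₀ := by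
    obtain ⟨i, hi, h⟩ := hM3
    have h1 := hy (i + 1) (by omega)
    have h2 := hc (i + 1) (by omega)
    omega
  have hlz : lo s₁ ≤ lz := by
    obtain ⟨i, hi, rfl⟩ := hz2; exact (hz _ (by omega)).1
  have hrz : rz ≤ hi s₁ := by
    obtain ⟨i, hi, rfl⟩ := hz3; exact (hz _ (by omega)).2
  have hld : lo s₂ ≤ ld := by
    obtain ⟨i, hi, rfl⟩ := hd2; exact (hd _ (by omega)).1
  have hrd : rd ≤ hi s₂ := by
    obtain ⟨i, hi, rfl⟩ := hd3; exact (hd _ (by omega)).2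
  have hint : ∀ {s : σ} {x : ℕ → ℕ} {l r : ℕ}, (∃ i < N, x i = l) → (∃ i < N, x i = r) →
      (s₀ ≠ s ∨ (∀ i < N, ∀ j < N, max (y (i + 1)) (c (i + 1)) < x j) ∨
        (∀ i < N, ∀ j < N, x j < min (y (i + 1)) (c (i + 1)))) → s₀ ≠ s ∨ rm < l ∨ r < lm := by
    rintro s x l r ⟨e, he, he'⟩ ⟨f, hf, hf'⟩ hs
    obtain ⟨a, ha, ha'⟩ := hm2
    obtain ⟨b, hb, hb'⟩ := hM3
    rcases hs with h | h | h
    · exact Or.inl h
    · have := h b hb e he
      omega
    · have := h a ha f hf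
      omega
  have hPQ := hP.ne hlm hrm hlz hrz (hint hz2 hz3 hsep)
  have hPR := hP.ne hlm hrm hld hrd (hint hd2 hd3 hsep')
  have hzd' : Sepd N s₁ (fun i => z (i + 1)) s₂ (fun i => d (i + 1)) := by
    rcases hzd with h | h | h
    · exact Or.inl h
    · exact Or.inr (Or.inl fun i hi j hj => h _ (by omega) _ (by omega))
    · exact Or.inr (Or.inr fun i hi j hj => h _ (by omega) _ (by omega))
  have hQR := hP.ne hlz hrz hld hrd (sepd_int hzd' hz2 hz3 hd2 hd3)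
  have hpP := (hP.page s₀).sub hlm hrm (le_refl n)
  have hpQ := (hP.page s₁).sub hlz hrz (le_refl n)
  have hpR := (hP.page s₂).sub hld hrd (le_refl n)
  have hR0 : ∀ c ∈ Reg lm rm n, c ∈ Reg (lo s₀) (hi s₀) n := by
    intro c hc; rw [mem_Reg] at hc ⊢; omega
  have hR1 : ∀ c ∈ Reg lz rz n, c ∈ Reg (lo s₁) (hi s₁) n := by
    intro c hc; rw [mem_Reg] at hc ⊢; omega
  have hR2 : ∀ c ∈ Reg ld rd n, c ∈ Reg (lo s₂) (hi s₂) n := by
    intro c hc; rw [mem_Reg] at hc ⊢; omega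
  have hdR : ∀ i < N, (d (i + 1), 0) ∈ Reg ld rd n := fun i hi => by
    have := hd1 i hi
    rw [mem_Reg]; simp only; omega
  have hrow : HRow ld rd 1 ⊆ Reg ld rd n := by
    intro c hc
    rw [mem_HRow] at hc
    rw [mem_Reg]
    omega
  refine Gm1.of' ?_ hlm hrm
  refine book_K hw hN hpP hpQ hPQ (by omega) (by omega) (fun i => y (i + 1))
    (fun i => c (i + 1)) (fun i => z (i + 1)) hx1 ?_ hz1 (mon_shift hzm)
    (fun i => B (i + 1) ∪ B' (i + 1) ∪ {P s₂ (d (i + 1), 0)}) ?_ ?_ ?_ ?_ ?_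
    (P s₂ '' HRow ld rd 1) ((hrow_finite _ _ _).image _)
    (hpR.vconn_hor (le_refl _) (le_refl _) (le_refl _) (by omega)) ?_ ?_ ?_ ?_
  · rcases hyc with h | h
    · left
      intro i j hij hj
      exact h (i + 1) (j + 1) (by omega) (by omega)
    · right
      intro i j hij hj
      exact h (i + 1) (j + 1) (by omega) (by omega)
  · intro i hi
    exact ((hBf _ (by omega)).union (hBf' _ (by omega))).union (finite_singleton _)
  · intro i hi
    have h1 := hx1 i hi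
    have h2 := UU_conn hpP (by omega) h1.1 h1.2.1 h1.2.2.1 h1.2.2.2
    have h3 : VConn S ends (B (i + 1) ∪ P s₀ '' UU (y (i + 1)) (c (i + 1))) := by
      refine vc_lnk (hBc _ (by omega)) h2 ((hvy (i + 1) (by omega)).mono (le_refl _) (le_refl _) ?_)
      rw [singleton_subset_iff]
      exact ⟨_, UU_left (by omega), rfl⟩
    have h4 : VConn S ends (B (i + 1) ∪ P s₀ '' UU (y (i + 1)) (c (i + 1)) ∪ B' (i + 1)) := by
      refine vc_lnk h3 (hBc' _ (by omega)) ((hwc (i + 1) (by omega)).mono (le_refl _) (le_refl _)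
        ?_).symm
      rw [singleton_subset_iff]
      exact Or.inr ⟨_, UU_right (by omega), rfl⟩
    have h5 : VConn S ends (B (i + 1) ∪ P s₀ '' UU (y (i + 1)) (c (i + 1)) ∪ B' (i + 1) ∪
        {P s₂ (d (i + 1), 0)}) :=
      vc_lnk h4 (vconn_singleton _) ((hwd (i + 1) (by omega)).mono (le_refl _)
        subset_union_right (le_refl _))
    have h6 : VConn S ends (B (i + 1) ∪ P s₀ '' UU (y (i + 1)) (c (i + 1)) ∪ B' (i + 1) ∪
        {P s₂ (d (i + 1), 0)} ∪ {P s₁ (z (i + 1), 0)}) :=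
      vc_lnk h5 (vconn_singleton _) ((hvz (i + 1) (by omega)).mono (le_refl _)
        (fun v hv => Or.inl (Or.inl (Or.inl hv))) (le_refl _))
    rw [union_right_comm (B (i + 1) ∪ B' (i + 1)) {P s₂ (d (i + 1), 0)},
      union_right_comm (B (i + 1)) (B' (i + 1))]
    exact h6
  · intro i hi j hj hij
    have h1 := hBB (i + 1) (by omega) (j + 1) (by omega) (by omega)
    rw [Set.disjoint_left] at h1 ⊢
    rintro u (hu | hu) (hu' | hu')
    · exact h1 hu hu'
    · rw [mem_singleton_iff] at hu'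
      rw [hu'] at hu
      exact hBP _ (by omega) _ _ (hR2 _ (hdR j hj)) hu
    · rw [mem_singleton_iff] at hu
      rw [hu] at hu'
      exact hBP _ (by omega) _ _ (hR2 _ (hdR i hi)) hu'
    · rw [mem_singleton_iff] at hu hu'
      have h2 := hdR i hi
      have h3 := hdR j hj
      have h4 := hpR.inj _ _ h2.1 h2.2.1 h2.2.2 h3.1 h3.2.1 h3.2.2 (hu.symm.trans hu')
      rw [Prod.mk.injEq] at h4
      exact hij (mon_ne (mon_shift hdm) i hi j hj h4.1)
  · rintro i hi u hu (h | h)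
    · exact hBP _ (by omega) _ _ (hR0 u hu) h
    · exact hPR u hu _ (hdR i hi) h
  · rintro i hi u hu (h | h)
    · exact hBP _ (by omega) _ _ (hR1 u hu) h
    · exact hQR u hu _ (hdR i hi) h
  · rintro u hu ⟨c', hc', h⟩
    exact hPR u hu c' (hrow hc') h.symm
  · rintro u hu ⟨c', hc', h⟩
    exact hQR u hu c' (hrow hc') h.symm
  · intro i hi
    rw [Set.disjoint_left]
    rintro _ hu ⟨c', hc', rfl⟩
    rcases hu with h | h
    · exact hBP _ (by omega) _ _ (hR2 _ (hrow hc')) h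
    · have h1 := hrow hc'
      have h2 := hdR i hi
      have h3 := hpR.inj _ _ h1.1 h1.2.1 h1.2.2 h2.1 h2.2.1 h2.2.2 h
      rw [h3, mem_HRow] at hc'
      simp only at hc'
      omega
  · intro i hi
    have h1 := hd1 i hi
    obtain ⟨e, he, hee⟩ := hpR.ver (d (i + 1)) 0 h1.1 h1.2 (by omega)
    exact ⟨e, he, _, Or.inl (Or.inl (Or.inr rfl)), _, ⟨(d (i + 1), 0 + 1), hm h1.1 h1.2, rfl⟩, hee⟩

end

/-! ### The assembly -/

open EndP

/-- A row of the wall avoiding the bad vertices ends at `v`. -/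
def Used (h : ℕ) (bad : Finset Bv) (sd : Rw → Bool) (v : Vx) : Prop :=
  ∃ r τ, Ok h bad r ∧ At sd v r τ

/-- The wall with spokes outside a window: pages `P (side, sheet)` with columns numbered by the
positions, blobs `B v`, ground `G`. -/
structure Sng (S : Set α) (ends : α → Sym2 V) (h : ℕ) (bad : Finset Bv) (pos : Rw → ℕ)
    (sd : Rw → Bool) (sh : Rw → ℕ) (P : Bool × ℕ → ℕ × ℕ → V) (lo hi : Bool × ℕ → ℕ) (n : ℕ)
    (B : Vx → Set V) (G : Set V) : Prop where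
  pgs : Pgs S ends P lo hi n
  rng : ∀ r, Ok h bad r → ∀ τ, lo (τ, sh r) ≤ pos r ∧ pos r ≤ hi (τ, sh r)
  Bfin : ∀ v, Used h bad sd v → (B v).Finite
  Bcon : ∀ v, Used h bad sd v → VConn S ends (B v)
  Bdis : ∀ v v', Used h bad sd v → Used h bad sd v' → v ≠ v' → Disjoint (B v) (B v')
  Bpg : ∀ v, Used h bad sd v → ∀ s, ∀ c ∈ Reg (lo s) (hi s) n, P s c ∉ B v
  Gfin : G.Finite
  Gcon : VConn S ends G
  Gdis : ∀ v, Used h bad sd v → Disjoint (B v) G
  Gpg : ∀ s, ∀ c ∈ Reg (lo s) (hi s) n, P s c ∉ G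
  lat : ∀ v r τ, Ok h bad r → At sd v r τ → Lnk S ends (B v) {P (τ, sh r) (pos r, 0)}
  lgr : ∀ r τ, Ok h bad r → Gr sd r τ → Lnk S ends G {P (τ, sh r) (pos r, 0)}

lemma near_minmax {N : ℕ} {y z : ℕ → ℕ} (h : RamP.Near N y z) :
    (∀ i j, i < j → j < N → max (y i) (z i) < min (y j) (z j)) ∨
      (∀ i j, i < j → j < N → max (y j) (z j) < min (y i) (z i)) := by
  rcases h with h | h
  · left
    intro i j hij hj
    have := h i j hij hj
    omega
  · right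
    intro i j hij hj
    have := h i j hij hj
    omega

lemma sepd_of {N : ℕ} {τ υ : Bool} {a b : ℕ} {y z : ℕ → ℕ} (h : τ ≠ υ ∨ RamP.Sep N y z) :
    Sepd N (τ, a) y (υ, b) z := by
  rcases h with h | h | h
  · refine Or.inl (fun h' => h ?_)
    rw [Prod.mk.injEq] at h'
    exact h'.1
  · exact Or.inr (Or.inl fun i hi j hj => h i j hi hj)
  · exact Or.inr (Or.inr fun i hi j hj => h i j hi hj)

/-- **END+, one pass.** -/
theorem end_single_mod (w q t : ℕ) (hw : 1 ≤ w) : ∃ h₀ : ℕ, ∀ h, h₀ ≤ h →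
    ∀ {α V : Type*} {S : Set α} {ends : α → Sym2 V},
    ∀ (bad : Finset Bv) (pos : Rw → ℕ) (sd : Rw → Bool) (sh : Rw → ℕ), bad.card ≤ t →
    Hyp h q bad pos sd sh →
    ∀ (P : Bool × ℕ → ℕ × ℕ → V) (lo hi : Bool × ℕ → ℕ) (n : ℕ) (B : Vx → Set V) (G : Set V),
    2 * w + 1 ≤ n → Sng S ends h bad pos sd sh P lo hi n B G →
    GmZ S ends (2 * w) := by
  obtain ⟨N, hN⟩ : ∃ N, N = (2 * w) * (2 * w) := ⟨_, rfl⟩
  obtain ⟨h₀, hh⟩ := endPlus (N + 2) q t
  refine ⟨h₀, ?_⟩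
  intro h hh₀ α V S ends bad pos sd sh hbad hyp P lo hi n B G hn H
  rcases hh h hh₀ bad pos sd sh hbad hyp with
    ⟨v, y, z, g, σ, τ, a, b, h1, h2, h3, ⟨h4, h5, h6⟩, h7, h8, h9⟩ |
    ⟨v, w', y, z, c, d, σ, τ, υ, a, b, a', h1, h2, h3, ⟨h4, h5, h6, h6'⟩, h7, h8, h8', h8'', h9,
      h10, h11⟩
  · have hu : ∀ i < N + 2, Used h bad sd (v i) := fun i hi => ⟨_, _, (h2 i hi).1, (h1 i hi).1⟩
    refine Gm1.gmZ (P := P) (lo := lo) (hi := hi) (n := n) ?_
    refine gA hw hN H.pgs hn (fun i => B (v i)) (fun i hi => H.Bfin _ (hu i hi))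
      (fun i hi => H.Bcon _ (hu i hi)) (fun i hi j hj hij => H.Bdis _ _ (hu i hi) (hu j hj)
      (h9 i j hi hj hij)) (fun i hi => H.Bpg _ (hu i hi)) G H.Gfin H.Gcon H.Gpg
      (fun i hi => H.Gdis _ (hu i hi)) (σ, a) (τ, b) (fun i => pos (y i)) (fun i => pos (z i))
      (fun i => pos (g i)) ?_ ?_ ?_ (near_minmax h7) h5 ?_ ?_ ?_ (sepd_of h8)
    · intro i hi
      have := H.rng _ (h2 i hi).1 σ
      rwa [(h3 i hi).1] at this
    · intro i hi
      have := H.rng _ (h2 i hi).2.2 σ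
      rwa [(h3 i hi).2.2] at this
    · intro i hi
      have := H.rng _ (h2 i hi).2.1 τ
      rwa [(h3 i hi).2.1] at this
    · intro i hi
      have := H.lat _ _ _ (h2 i hi).1 (h1 i hi).1
      rwa [(h3 i hi).1] at this
    · intro i hi
      have := H.lat _ _ _ (h2 i hi).2.1 (h1 i hi).2.1
      rwa [(h3 i hi).2.1] at this
    · intro i hi
      have := H.lgr _ _ (h2 i hi).2.2 (h1 i hi).2.2
      rwa [(h3 i hi).2.2] at this
  · have hu : ∀ i < N + 2, Used h bad sd (v i) := fun i hi => ⟨_, _, (h2 i hi).1, (h1 i hi).1⟩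
    have hu' : ∀ i < N + 2, Used h bad sd (w' i) := fun i hi =>
      ⟨_, _, (h2 i hi).2.2.1, (h1 i hi).2.2.1⟩
    have hvw : ∀ i < N + 2, ∀ j < N + 2, i ≠ j → w' i ≠ v j := by
      intro i hi j hj hij
      rcases h11 with h11 | h11
      · rw [(h11 i hi).1]
        exact h9 i j hi hj hij
      · exact h11 i j hi hj
    refine Gm1.gmZ (P := P) (lo := lo) (hi := hi) (n := n) ?_
    refine gB hw hN H.pgs hn (fun i => B (v i)) (fun i => B (w' i))
      (fun i hi => H.Bfin _ (hu i hi)) (fun i hi => H.Bcon _ (hu i hi))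
      (fun i hi => H.Bfin _ (hu' i hi)) (fun i hi => H.Bcon _ (hu' i hi)) ?_ ?_
      (σ, a) (τ, b) (υ, a') (fun i => pos (y i)) (fun i => pos (z i)) (fun i => pos (c i))
      (fun i => pos (d i)) ?_ ?_ ?_ ?_ (near_minmax h7) h5 h6' ?_ ?_ ?_ ?_ (sepd_of h8)
      (sepd_of h8') (sepd_of h8'')
    · intro i hi j hj hij
      rw [Set.disjoint_union_left, Set.disjoint_union_right, Set.disjoint_union_right]
      exact ⟨⟨H.Bdis _ _ (hu i hi) (hu j hj) (h9 i j hi hj hij),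
        H.Bdis _ _ (hu i hi) (hu' j hj) (hvw j hj i hi hij.symm).symm⟩,
        ⟨H.Bdis _ _ (hu' i hi) (hu j hj) (hvw i hi j hj hij),
        H.Bdis _ _ (hu' i hi) (hu' j hj) (h10 i j hi hj hij)⟩⟩
    · rintro i hi s c' hc' (h' | h')
      · exact H.Bpg _ (hu i hi) s c' hc' h'
      · exact H.Bpg _ (hu' i hi) s c' hc' h'
    · intro i hi
      have := H.rng _ (h2 i hi).1 σ
      rwa [(h3 i hi).1] at this
    · intro i hi
      have := H.rng _ (h2 i hi).2.2.1 σ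
      rwa [(h3 i hi).2.2.1] at this
    · intro i hi
      have := H.rng _ (h2 i hi).2.1 τ
      rwa [(h3 i hi).2.1] at this
    · intro i hi
      have := H.rng _ (h2 i hi).2.2.2 υ
      rwa [(h3 i hi).2.2.2] at this
    · intro i hi
      have := H.lat _ _ _ (h2 i hi).1 (h1 i hi).1
      rwa [(h3 i hi).1] at this
    · intro i hi
      have := H.lat _ _ _ (h2 i hi).2.1 (h1 i hi).2.1
      rwa [(h3 i hi).2.1] at this
    · intro i hi
      have := H.lat _ _ _ (h2 i hi).2.2.1 (h1 i hi).2.2.1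
      rwa [(h3 i hi).2.2.1] at this
    · intro i hi
      have := H.lat _ _ _ (h2 i hi).2.2.2 (h1 i hi).2.2.2
      rwa [(h3 i hi).2.2.2] at this

/-- **END+, one pass**, the grid with joints. -/
theorem end_single (w q t : ℕ) (hw : 1 ≤ w) : ∃ h₀ : ℕ, ∀ h, h₀ ≤ h →
    ∀ {α V : Type*} {M : Matroid α} {S : Set α} {ends : α → Sym2 V}, Frm M S ends →
    ∀ (bad : Finset Bv) (pos : Rw → ℕ) (sd : Rw → Bool) (sh : Rw → ℕ), bad.card ≤ t →
    Hyp h q bad pos sd sh →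
    ∀ (P : Bool × ℕ → ℕ × ℕ → V) (lo hi : Bool × ℕ → ℕ) (n : ℕ) (B : Vx → Set V) (G : Set V),
    2 * w + 1 ≤ n → Sng S ends h bad pos sd sh P lo hi n B G →
    ∃ (C S' : Set α) (j : ℕ × ℕ → α) (ed : ℕ × ℕ → ℕ × ℕ → α), C ⊆ S ∧ S' ⊆ S ∧ Disjoint C S' ∧
      M.Indep (C ∪ j '' Cl w) ∧ JGrid (M ／ C) S' w j ed := by
  obtain ⟨h₀, hh⟩ := end_single_mod w q t hw
  refine ⟨h₀, ?_⟩
  intro h hh₀ α V M S ends hF bad pos sd sh hbad hyp P lo hi n B G hn H
  have h1 : GMod M S ends w := Or.inl (hh h hh₀ bad pos sd sh hbad hyp P lo hi n B G hn H)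
  exact h1.jgrid hF hw

end EN
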