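import Pool.Agent.EN.Fat
import Pool.Agent.EN.Single

/-!
# Books: a page above the spine, a fat half plane (or a page) below
-/

open Set
open scoped Matroid

namespace EN

open BIC Gad

variable {α V : Type*} {M : Matroid α} {S : Set α} {ends : α → Sym2 V}

/-- The part of a page from the row `b` on. -/
def Upr (l r n b : ℕ) : Set (ℕ × ℕ) := {c | c ∈ Reg l r n ∧ b ≤ c.2}

lemma mem_Upr {l r n b : ℕ} {c : ℕ × ℕ} : c ∈ Upr l r n b ↔
    (l ≤ c.1 ∧ c.1 ≤ r ∧ c.2 ≤ n) ∧ b ≤ c.2 := Iff.rfl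

section

variable {P : ℕ × ℕ → V} {l r n : ℕ}

/-- A page is a fat half plane over chosen columns. -/
lemma Page.fat (hP : Page S ends P l r n) {N m b₀ : ℕ} (hb : b₀ + m ≤ n) (f : ℕ → ℕ)
    (hf : ∀ i, i + 1 < N → f i < f (i + 1)) (hr : ∀ i < N, l ≤ f i ∧ f i ≤ r) :
    Fat S ends N m (fun s i => {P (f i, b₀ + s)})
      (fun s i => P '' HRow (f i + 1) (f (i + 1) - 1) (b₀ + s)) := by
  have hfs : ∀ i j, i < j → j < N → f i < f j := by
    intro i j hij hj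
    exact strict_of_step (m := N - 1) (fun i hi => hf i (by omega)) i j hij (by omega)
  have e1 : ∀ s i, i + 1 < N → {P (f i, b₀ + s)} ∪ P '' HRow (f i + 1) (f (i + 1) - 1) (b₀ + s) =
      P '' HRow (f i) (f (i + 1) - 1) (b₀ + s) := by
    intro s i hi
    have h1 := hf i hi
    rw [← image_singleton, ← image_union]
    congr 1
    ext c
    simp only [mem_union, mem_singleton_iff, mem_HRow, Prod.ext_iff]
    omega
  have e2 : ∀ s i, i + 1 < N → P '' HRow (f i + 1) (f (i + 1) - 1) (b₀ + s) ∪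
      {P (f (i + 1), b₀ + s)} = P '' HRow (f i + 1) (f (i + 1)) (b₀ + s) := by
    intro s i hi
    have h1 := hf i hi
    rw [← image_singleton, ← image_union]
    congr 1
    ext c
    simp only [mem_union, mem_singleton_iff, mem_HRow, Prod.ext_iff]
    omega
  have hreg : ∀ s i, s ≤ m → i + 1 < N → ∀ c ∈ HRow (f i) (f (i + 1)) (b₀ + s),
      c ∈ Reg l r n := by
    intro s i hs hi c hc
    have h1 := hr i (by omega)
    have h2 := hr (i + 1) hi
    rw [mem_HRow] at hc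
    rw [mem_Reg]
    omega
  have hreg' : ∀ s i, s ≤ m → i < N → (f i, b₀ + s) ∈ Reg l r n := by
    intro s i hs hi
    have h1 := hr i hi
    rw [mem_Reg]
    simp only
    omega
  refine ⟨?_, ?_, ?_, ?_, ?_, ?_, ?_, ?_, ?_, ?_, ?_, ?_⟩
  · intro s i _ _ _; exact finite_singleton _
  · intro s i _ _ _; exact (hrow_finite _ _ _).image _
  · intro s i _ _ _; exact singleton_nonempty _
  · intro s i _ _ _; exact vconn_singleton _
  · intro s i h1 h2 h3
    rw [e1 s i h3]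
    have h4 := hr i (by omega)
    have h5 := hr (i + 1) h3
    exact hP.vconn_hor h4.1 (by omega) (by omega) (by omega)
  · intro s i h1 h2 h3
    rw [e2 s i h3]
    have h4 := hr i (by omega)
    have h5 := hr (i + 1) h3
    exact hP.vconn_hor (by omega) h5.2 (by omega) (by omega)
  · intro s i h1 h2 h3
    have h4 := hr i (by omega)
    have h5 := hr (i + 1) h3
    have h6 := hf i h3
    obtain ⟨e, he, hee⟩ := hP.hor (f i) (b₀ + s) h4.1 (by omega) (by omega) (by omega)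
    rw [e2 s i h3]
    exact ⟨e, he, _, rfl, _, ⟨(f i + 1, b₀ + s), hm (by omega) (by omega), rfl⟩, hee⟩
  · intro s i h1 h2 h3
    have h4 := hr i (by omega)
    have h5 := hr (i + 1) h3
    have h6 := hf i h3
    obtain ⟨e, he, hee⟩ := hP.hor (f (i + 1) - 1) (b₀ + s) (by omega) (by omega) (by omega)
      (by omega)
    rw [Nat.sub_add_cancel (by omega)] at hee
    rw [e1 s i h3]
    exact ⟨e, he, _, ⟨(f (i + 1) - 1, b₀ + s), hm (by omega) (by omega), rfl⟩, _, rfl, hee⟩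
  · intro s i h1 h2 h3
    have h4 := hr i h3
    obtain ⟨e, he, hee⟩ := hP.ver (f i) (b₀ + s) h4.1 h4.2 (by omega)
    exact ⟨e, he, _, rfl, _, rfl, by rw [hee, add_assoc]⟩
  · intro s i s' i' h1 h2 h3 h1' h2' h3' hne
    rw [Set.disjoint_singleton]
    intro h
    have h4 := hreg' s i h2 h3
    have h5 := hreg' s' i' h2' h3'
    have h6 := hP.inj _ _ h4.1 h4.2.1 h4.2.2 h5.1 h5.2.1 h5.2.2 h
    rw [Prod.mk.injEq] at h6
    apply hne
    have h7 : i = i' := by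
      rcases Nat.lt_trichotomy i i' with h7 | h7 | h7
      · have := hfs i i' h7 h3'; omega
      · exact h7
      · have := hfs i' i h7 h3; omega
    rw [h7, Prod.mk.injEq]
    exact ⟨by omega, rfl⟩
  · intro s i s' i' h1 h2 h3 h1' h2' h3'
    rw [Set.disjoint_singleton_left]
    rintro ⟨c, hc, h⟩
    have h4 := hreg' s i h2 h3
    have h0 := hf i' h3'
    have h5 := hreg s' i' h2' h3' c (by rw [mem_HRow] at hc ⊢; omega)
    have h6 := hP.inj _ _ h5.1 h5.2.1 h5.2.2 h4.1 h4.2.1 h4.2.2 h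
    rw [h6, mem_HRow] at hc
    simp only at hc
    rcases Nat.lt_trichotomy i i' with h7 | h7 | h7
    · have := hfs i i' h7 (by omega); omega
    · rw [h7] at hc; omega
    · rcases Nat.lt_or_ge (i' + 1) i with h8 | h8
      · have := hfs (i' + 1) i h8 h3; omega
      · have : i = i' + 1 := by omega
        rw [this] at hc
        omega
  · intro s i s' i' h1 h2 h3 h1' h2' h3' hne
    have h0 := hf i h3
    have h0' := hf i' h3'
    refine hP.disj (fun c hc => hreg s i h2 h3 c (by rw [mem_HRow] at hc ⊢; omega))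
      (fun c hc => hreg s' i' h2' h3' c (by rw [mem_HRow] at hc ⊢; omega)) (fun c hc hc' => ?_)
    rw [mem_HRow] at hc hc'
    have hss : s = s' := by omega
    rcases Nat.lt_trichotomy i i' with h7 | h7 | h7
    · rcases Nat.lt_or_ge (i + 1) i' with h8 | h8
      · have := hfs (i + 1) i' h8 (by omega); omega
      · have : i' = i + 1 := by omega
        rw [this] at hc'
        omega
    · exact hne (by rw [hss, h7])
    · rcases Nat.lt_or_ge (i' + 1) i with h8 | h8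
      · have := hfs (i' + 1) i h8 (by omega); omega
      · have : i = i' + 1 := by omega
        rw [this] at hc
        omega

/-- **A page above, a fat half plane below.** -/
theorem book_fat {w : ℕ} (hw : 1 ≤ w) (hP : Page S ends P l r n) {b₀ : ℕ} (hb₀ : 1 ≤ b₀)
    (hn : b₀ + w ≤ n) (p : ℕ → ℕ) (hp : ∀ i < w * w, p i < p (i + 1)) (hp0 : l ≤ p 0)
    (hp1 : p (w * w) ≤ r + 1) {T' L' : ℕ → ℕ → Set V} (h' : Fat S ends (w * w) w T' L')
    (D' : Set V) (hTD' : ∀ s i, 1 ≤ s → s ≤ w → i < w * w → T' s i ⊆ D')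
    (hLD' : ∀ s i, 1 ≤ s → s ≤ w → i + 1 < w * w → L' s i ⊆ D')
    (hPD' : ∀ c ∈ Upr l r n b₀, P c ∉ D') (X : ℕ → Set V)
    (hXf : ∀ i < w * w, (X i).Finite) (hXc : ∀ i < w * w, VConn S ends (X i))
    (hXp : ∀ i < w * w, P (p i, b₀) ∈ X i)
    (hXX : ∀ i < w * w, ∀ j < w * w, i ≠ j → Disjoint (X i) (X j))
    (hXP : ∀ i < w * w, ∀ c ∈ Upr l r n b₀, P c ∈ X i → p i ≤ c.1 ∧ c.1 < p (i + 1) ∧ c.2 ≤ b₀)
    (hXD' : ∀ i < w * w, Disjoint (X i) D') (hXT' : ∀ i < w * w, Lnk S ends (X i) (T' 1 i)) :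
    ∃ (Vs : ℕ → Set V) (As : ℕ → ℕ → Set V), Spine S ends w Vs As ∧
      (∀ i < w * w, X i ⊆ Vs i ∧ P '' HRow (p i) (p (i + 1) - 1) b₀ ⊆ Vs i ∧
        Vs i ⊆ X i ∪ (P '' Upr l r n b₀ ∪ D')) ∧
      ∀ r' s, 1 ≤ r' → r' < w → 2 ≤ s → s ≤ w → As r' s ⊆ P '' Upr l r n b₀ ∪ D' := by
  have hps := strict_of_step hp
  have hpm : ∀ i, i ≤ w * w → l ≤ p i := by
    intro i hi
    rcases Nat.eq_zero_or_pos i with h | h
    · rw [h]; exact hp0
    · exact hp0.trans (hps 0 i h hi).le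
  have hpM : ∀ i < w * w, p i ≤ r := by
    intro i hi
    have := hps i (w * w) hi (le_refl _)
    omega
  have hpM' : ∀ i < w * w, p (i + 1) - 1 ≤ r := by
    intro i hi
    rcases Nat.lt_or_ge (i + 1) (w * w) with h | h
    · have := hpM (i + 1) h
      omega
    · have : i + 1 = w * w := by omega
      rw [this]
      omega
  have hcol : ∀ i < w * w, ∀ j < w * w, ∀ a, p i ≤ a → a < p (i + 1) → p j ≤ a →
      a < p (j + 1) → i = j := by
    intro i hi j hj a h1 h2 h3 h4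
    rcases Nat.lt_trichotomy i j with h | h | h
    · have : p (i + 1) ≤ p j := by
        rcases Nat.lt_or_ge (i + 1) j with h5 | h5
        · exact (hps (i + 1) j h5 (by omega)).le
        · have : i + 1 = j := by omega
          rw [this]
      omega
    · exact h
    · have : p (j + 1) ≤ p i := by
        rcases Nat.lt_or_ge (j + 1) i with h5 | h5
        · exact (hps (j + 1) i h5 (by omega)).le
        · have : j + 1 = i := by omega
          rw [this]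
      omega
  have hrowU : ∀ i < w * w, HRow (p i) (p (i + 1) - 1) b₀ ⊆ Upr l r n b₀ := by
    intro i hi c hc
    have h1 := hpm i hi.le
    have h2 := hpM' i hi
    rw [mem_HRow] at hc
    rw [mem_Upr]
    omega
  have hrow2 : ∀ i < w * w, ∀ c ∈ HRow (p i) (p (i + 1) - 1) b₀, p i ≤ c.1 ∧ c.1 < p (i + 1) ∧
      c.2 = b₀ := by
    intro i hi c hc
    have h1 := hp i hi
    rw [mem_HRow] at hc
    omega
  have hUR : Upr l r n b₀ ⊆ Reg l r n := fun c hc => hc.1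
  have hU1 : ∀ c ∈ Upr l r n (b₀ + 1), c ∈ Upr l r n b₀ := by
    intro c hc
    rw [mem_Upr] at hc ⊢
    omega
  refine Exists.elim (spine2 hw
    (hP.fat (N := w * w) (m := w) hn p (fun i hi => hp i (by omega))
      (fun i hi => ⟨hpm i hi.le, hpM i hi⟩)) h'
    (fun i => X i ∪ P '' HRow (p i) (p (i + 1) - 1) b₀) (P '' Upr l r n (b₀ + 1)) D' ?_ ?_ hTD'
    hLD' ?_ ?_ ?_ ?_ ?_ ?_ ?_ ?_ ?_) ?_
  · rintro s i g1 g2 g3 v hv
    rw [mem_singleton_iff] at hv
    have g4 := hpm i g3.le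
    have g5 := hpM i g3
    refine ⟨_, ?_, hv.symm⟩
    rw [mem_Upr]
    simp only
    omega
  · rintro s i g1 g2 g3 v ⟨c, hc, rfl⟩
    have g4 := hpm i (by omega)
    have g5 := hpM (i + 1) g3
    refine ⟨c, ?_, rfl⟩
    rw [mem_HRow] at hc
    rw [mem_Upr]
    omega
  · rw [Set.disjoint_left]
    rintro _ ⟨c, hc, rfl⟩ hv
    exact hPD' c (hU1 c hc) hv
  · intro i hi
    exact (hXf i hi).union ((hrow_finite _ _ _).image _)
  · intro i hi
    have g1 := hp i hi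
    refine vc_union (hXc i hi) (hP.vconn_hor (hpm i hi.le) (hpM' i hi) hb₀ (by omega))
      (c := P (p i, b₀)) (hXp i hi) ⟨_, hm (by omega) (by omega), rfl⟩
  · intro i hi j hj hij
    rw [Set.disjoint_union_left, Set.disjoint_union_right, Set.disjoint_union_right]
    have key : ∀ i < w * w, ∀ j < w * w, i ≠ j →
        Disjoint (X i) (P '' HRow (p j) (p (j + 1) - 1) b₀) := by
      intro i hi j hj hij
      rw [Set.disjoint_left]
      rintro _ hv ⟨c, hc, rfl⟩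
      have g1 := hXP i hi c (hrowU j hj hc) hv
      have g2 := hrow2 j hj c hc
      exact hij (hcol i hi j hj c.1 g1.1 g1.2.1 g2.1 g2.2.1)
    refine ⟨⟨hXX i hi j hj hij, key i hi j hj hij⟩, (key j hj i hi hij.symm).symm, ?_⟩
    refine hP.disj ((hrowU i hi).trans hUR) ((hrowU j hj).trans hUR) (fun c hc hc' => ?_)
    have g1 := hrow2 i hi c hc
    have g2 := hrow2 j hj c hc'
    exact hij (hcol i hi j hj c.1 g1.1 g1.2.1 g2.1 g2.2.1)
  · intro i hi
    rw [Set.disjoint_union_left]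
    constructor
    · rw [Set.disjoint_left]
      rintro _ hv ⟨c, hc, rfl⟩
      have g1 := hXP i hi c (hU1 c hc) hv
      rw [mem_Upr] at hc
      omega
    · refine hP.disj ((hrowU i hi).trans hUR) (fun c hc => hUR (hU1 c hc)) (fun c hc hc' => ?_)
      have g2 := hrow2 i hi c hc
      rw [mem_Upr] at hc'
      omega
  · intro i hi
    rw [Set.disjoint_union_left]
    refine ⟨hXD' i hi, ?_⟩
    rw [Set.disjoint_left]
    rintro _ ⟨c, hc, rfl⟩ hv
    exact hPD' c (hrowU i hi hc) hv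
  · intro i hi
    have g1 := hp i (by omega)
    have g2 := hpm i (by omega)
    have g3 := hpM (i + 1) hi
    obtain ⟨e, he, hee⟩ := hP.hor (p (i + 1) - 1) b₀ (by omega) (by omega) hb₀ (by omega)
    rw [Nat.sub_add_cancel (by omega)] at hee
    exact ⟨e, he, _, Or.inr ⟨(p (i + 1) - 1, b₀), hm (by omega) (by omega), rfl⟩, _,
      Or.inl (hXp (i + 1) hi), hee⟩
  · intro i hi
    have g2 := hpm i hi.le
    have g3 := hpM i hi
    obtain ⟨e, he, hee⟩ := hP.ver (p i) b₀ g2 g3 (by omega)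
    exact ⟨e, he, _, Or.inl (hXp i hi), _, rfl, hee⟩
  · intro i hi
    exact (hXT' i hi).mono (subset_refl _) subset_union_left (subset_refl _)
  · rintro Vs ⟨As, h1, h2, h3⟩
    refine ⟨Vs, As, h1, ?_, ?_⟩
    · intro i hi
      refine ⟨fun v hv => (h2 i hi).1 (Or.inl hv), fun v hv => (h2 i hi).1 (Or.inr hv), ?_⟩
      intro v hv
      rcases (h2 i hi).2 hv with ((h4 | ⟨c, hc, rfl⟩) | ⟨c, hc, rfl⟩) | h4
      · exact Or.inl h4
      · exact Or.inr (Or.inl ⟨c, hrowU i hi hc, rfl⟩)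
      · exact Or.inr (Or.inl ⟨c, hU1 c hc, rfl⟩)
      · exact Or.inr (Or.inr h4)
    · intro r' s g1 g2 g3 g4 v hv
      rcases h3 r' s g1 g2 g3 g4 hv with ⟨c, hc, rfl⟩ | h4
      · exact Or.inl ⟨c, hU1 c hc, rfl⟩
      · exact Or.inr h4

end

/-- The output of a book. -/
def BookOut (S : Set α) (ends : α → Sym2 V) (w : ℕ) (X : ℕ → Set V) (D : Set V) : Prop :=
  ∃ (Vs : ℕ → Set V) (As : ℕ → ℕ → Set V) (τ : ℕ → ℕ), Spine S ends w Vs As ∧
    (∀ i < w * w, τ i < w * w ∧ X (τ i) ⊆ Vs i ∧ Vs i ⊆ X (τ i) ∪ D) ∧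
    (∀ i < w * w, ∀ j < w * w, τ i = τ j → i = j) ∧
    ∀ r s, 1 ≤ r → r < w → 2 ≤ s → s ≤ w → As r s ⊆ D

theorem BookOut.jgridZ {w : ℕ} (hw : 1 ≤ w) {X : ℕ → Set V} {D : Set V}
    (h : BookOut S ends (2 * w) X D) (Z : Set V) (hZf : Z.Finite) (hZc : VConn S ends Z)
    (hXZ : ∀ i < (2 * w) * (2 * w), Disjoint (X i) Z) (hDZ : Disjoint D Z)
    (hadj : ∀ i < (2 * w) * (2 * w), Lnk S ends (X i) Z) {P : ℕ × ℕ → V} {l r n b : ℕ}
    (hb : b ≤ n) (hT : ∀ i < (2 * w) * (2 * w), ∃ x, l ≤ x ∧ x ≤ r ∧ P (x, b) ∈ X i)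
    (hTZ : ∀ x j, l ≤ x → x ≤ r → b ≤ j → j ≤ n → P (x, j) ∉ Z) :
    GmF S ends P l r n (2 * w) := by
  obtain ⟨Vs, As, τ, h1, h2, _, h4⟩ := h
  refine h1.jgridZ hw Z hZf hZc (fun i hi => ?_) (fun r s g1 g2 g3 g4 => ?_) (fun i hi => ?_) hb
    (fun i hi => ?_) hTZ
  · obtain ⟨g1, _, g3⟩ := h2 i hi
    exact Disjoint.mono_left g3 ((hXZ _ g1).sup_left hDZ)
  · exact Disjoint.mono_left (h4 r s g1 g2 g3 g4) hDZ
  · obtain ⟨g1, g2, _⟩ := h2 i hi
    exact (hadj _ g1).mono (subset_refl _) g2 (subset_refl _)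
  · obtain ⟨g1, g2, _⟩ := h2 i hi
    obtain ⟨x, g3, g4, g5⟩ := hT _ g1
    exact ⟨x, g3, g4, g2 g5⟩

/-- The output of a book with the upper part of a page: the columns are exposed. -/
theorem BookOut.jgridE {w : ℕ} (hw : 1 ≤ w) {X : ℕ → Set V} {P : ℕ × ℕ → V} {l r n b : ℕ}
    {D : Set V} (h : BookOut S ends (2 * w) X (P '' Upr l r n b ∪ D)) (hb : b ≤ n) (x : ℕ → ℕ)
    (hx : ∀ i < (2 * w) * (2 * w), l ≤ x i ∧ x i ≤ r)
    (hxX : ∀ i < (2 * w) * (2 * w), P (x i, b) ∈ X i) (Z : Set V) (hZf : Z.Finite)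
    (hZc : VConn S ends Z) (hXZ : ∀ i < (2 * w) * (2 * w), Disjoint (X i) Z)
    (hDZ : Disjoint (P '' Upr l r n b ∪ D) Z)
    (hadj : ∀ i < (2 * w) * (2 * w), Lnk S ends (X i) Z) :
    GmF S ends P l r n (2 * w) := by
  refine h.jgridZ hw Z hZf hZc hXZ hDZ hadj hb
    (fun i hi => ⟨x i, (hx i hi).1, (hx i hi).2, hxX i hi⟩) fun x j g1 g2 h1 h2 hv => ?_
  refine Set.disjoint_left.1 hDZ (Or.inl ⟨(x, j), ?_, rfl⟩) hv
  rw [mem_Upr]
  exact ⟨⟨g1, g2, h2⟩, h1⟩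

theorem BookOut.jgridU (hF : Frm M S ends) {w : ℕ} {X : ℕ → Set V} {D : Set V}
    (h : BookOut S ends w X D) (K : ℕ → Set V) (τ₀ : ℕ → Set α) (j : ℕ → α)
    (hK : ∀ i < w * w, K i ⊆ X i) (hτ₀ : ∀ i < w * w, Arb S ends (K i) (τ₀ i))
    (hj : ∀ i < w * w, j i ∈ ins S ends (K i) ∧ j i ∉ τ₀ i)
    (hI : M.Indep (⋃ i ∈ Finset.range (w * w), insert (j i) (τ₀ i))) {P : ℕ × ℕ → V}
    {l r n b : ℕ} (hb : b ≤ n) (hT : ∀ i < w * w, ∃ x, l ≤ x ∧ x ≤ r ∧ P (x, b) ∈ X i) :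
    GmV M S ends P l r n w := by
  obtain ⟨Vs, As, τ, h1, h2, _, h4⟩ := h
  refine h1.jgrid hF (fun i => K (τ i)) (fun i => τ₀ (τ i)) (fun i => j (τ i)) (fun i hi => ?_)
    (fun i hi => hτ₀ _ (h2 i hi).1) (fun i hi => hj _ (h2 i hi).1) (hI.subset ?_) hb
    (fun i hi => ?_)
  · exact (hK _ (h2 i hi).1).trans (h2 i hi).2.1
  · intro e he
    obtain ⟨i, hi, hei⟩ := mem_iUnion₂.1 he
    exact mem_iUnion₂.2 ⟨τ i, Finset.mem_range.2 (h2 i (Finset.mem_range.1 hi)).1, hei⟩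
  · obtain ⟨x, g3, g4, g5⟩ := hT _ (h2 i hi).1
    exact ⟨x, g3, g4, (h2 i hi).2.1 g5⟩

lemma upr_mirror {Q : ℕ × ℕ → V} {l r n b : ℕ} :
    (fun c : ℕ × ℕ => Q (l + r - c.1, c.2)) '' Upr l r n b = Q '' Upr l r n b := by
  ext v
  constructor
  · rintro ⟨c, hc, rfl⟩
    rw [mem_Upr] at hc
    refine ⟨(l + r - c.1, c.2), ?_, rfl⟩
    rw [mem_Upr]
    simp only
    omega
  · rintro ⟨c, hc, rfl⟩
    rw [mem_Upr] at hc
    refine ⟨(l + r - c.1, c.2), ?_, ?_⟩
    · rw [mem_Upr]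
      simp only
      omega
    · simp only
      rw [show l + r - (l + r - c.1) = c.1 by omega]

/-- **Two pages.** Blobs `X i` over the column intervals `[lx i, rx i]`, in either direction. -/
theorem book_two {w N : ℕ} (hw : 1 ≤ w) (hN : N = w * w) {P Q : ℕ × ℕ → V}
    {lP rP nP lQ rQ nQ : ℕ} (hP : Page S ends P lP rP nP) (hQ : Page S ends Q lQ rQ nQ)
    (hPQ : ∀ c ∈ Reg lP rP nP, ∀ c' ∈ Reg lQ rQ nQ, P c ≠ Q c') {b₀ b₁ : ℕ} (hb₀ : 1 ≤ b₀)
    (hn₀ : b₀ + w ≤ nP) (hn₁ : b₁ + w ≤ nQ) (lx rx q : ℕ → ℕ)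
    (hlr : ∀ i < N, lP ≤ lx i ∧ lx i ≤ rx i ∧ rx i ≤ rP)
    (hmon : (∀ i j, i < j → j < N → rx i < lx j) ∨ (∀ i j, i < j → j < N → rx j < lx i))
    (hq : ∀ i < N, lQ ≤ q i ∧ q i ≤ rQ) (hqm : Mon N q)
    (X : ℕ → Set V) (hXf : ∀ i < N, (X i).Finite) (hXc : ∀ i < N, VConn S ends (X i))
    (hXp : ∀ i < N, P (lx i, b₀) ∈ X i) (hXq : ∀ i < N, Q (q i, b₁) ∈ X i)
    (hXX : ∀ i < N, ∀ j < N, i ≠ j → Disjoint (X i) (X j))
    (hXP : ∀ i < N, ∀ c ∈ Upr lP rP nP b₀, P c ∈ X i → lx i ≤ c.1 ∧ c.1 ≤ rx i ∧ c.2 ≤ b₀)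
    (hXQ : ∀ i < N, ∀ c ∈ Reg lQ rQ nQ, Q c ∈ X i → c.2 ≤ b₁) :
    BookOut S ends w X (P '' Upr lP rP nP b₀ ∪ Q '' Upr lQ rQ nQ (b₁ + 1)) := by
  have hNpos : 0 < N := by
    rw [hN]; exact Nat.mul_pos (by omega) (by omega)
  -- increasing intervals, increasing `q`
  have key1 : ∀ (Q : ℕ × ℕ → V) (q : ℕ → ℕ) (lx rx : ℕ → ℕ) (X : ℕ → Set V),
      Page S ends Q lQ rQ nQ → (∀ c ∈ Reg lP rP nP, ∀ c' ∈ Reg lQ rQ nQ, P c ≠ Q c') →
      (∀ i < N, lP ≤ lx i ∧ lx i ≤ rx i ∧ rx i ≤ rP) → (∀ i j, i < j → j < N → rx i < lx j) →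
      (∀ i < N, lQ ≤ q i ∧ q i ≤ rQ) → (∀ i j, i < j → j < N → q i < q j) →
      (∀ i < N, (X i).Finite) → (∀ i < N, VConn S ends (X i)) →
      (∀ i < N, P (lx i, b₀) ∈ X i) → (∀ i < N, Q (q i, b₁) ∈ X i) →
      (∀ i < N, ∀ j < N, i ≠ j → Disjoint (X i) (X j)) →
      (∀ i < N, ∀ c ∈ Upr lP rP nP b₀, P c ∈ X i → lx i ≤ c.1 ∧ c.1 ≤ rx i ∧ c.2 ≤ b₀) →
      (∀ i < N, ∀ c ∈ Reg lQ rQ nQ, Q c ∈ X i → c.2 ≤ b₁) →
      ∃ (Vs : ℕ → Set V) (As : ℕ → ℕ → Set V), Spine S ends w Vs As ∧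
        (∀ i < w * w, X i ⊆ Vs i ∧ Vs i ⊆ X i ∪ (P '' Upr lP rP nP b₀ ∪
          Q '' Upr lQ rQ nQ (b₁ + 1))) ∧
        ∀ r s, 1 ≤ r → r < w → 2 ≤ s → s ≤ w → As r s ⊆ P '' Upr lP rP nP b₀ ∪
          Q '' Upr lQ rQ nQ (b₁ + 1) := by
    intro Q q lx rx X hQ hPQ hlr hmon hq hqm hXf hXc hXp hXq hXX hXP hXQ
    subst hN
    set p : ℕ → ℕ := fun i => if i < w * w then lx i else rP + 1 with hp
    have hp1 : ∀ i < w * w, p i = lx i := fun i hi => if_pos hi
    have hp2 : p (w * w) = rP + 1 := if_neg (lt_irrefl _)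
    have hp3 : ∀ i < w * w, rx i < p (i + 1) := by
      intro i hi
      rcases Nat.lt_or_ge (i + 1) (w * w) with h | h
      · rw [hp1 _ h]
        exact hmon i (i + 1) (by omega) h
      · have : i + 1 = w * w := by omega
        rw [this, hp2]
        have := hlr i hi
        omega
    obtain ⟨Vs, As, h1, h2, h3⟩ := book_fat hw hP hb₀ hn₀ p
      (fun i hi => by
        rw [hp1 i hi]
        have := hp3 i hi
        have := hlr i hi
        omega) (by rw [hp1 0 hNpos]; exact (hlr 0 hNpos).1) hp2.le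
      (hQ.fat (N := w * w) (m := w) hn₁ q (fun i hi => hqm i (i + 1) (by omega) hi) hq)
      (Q '' Upr lQ rQ nQ (b₁ + 1)) (by
        rintro s i g1 g2 g3 v hv
        rw [mem_singleton_iff] at hv
        have g4 := hq i g3
        refine ⟨_, ?_, hv.symm⟩
        rw [mem_Upr]
        simp only
        omega) (by
        rintro s i g1 g2 g3 v ⟨c, hc, rfl⟩
        have g4 := hq i (by omega)
        have g5 := hq (i + 1) g3
        refine ⟨c, ?_, rfl⟩
        rw [mem_HRow] at hc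
        rw [mem_Upr]
        omega) (by
        rintro c hc ⟨c', hc', h⟩
        exact hPQ c hc.1 c' hc'.1 h.symm) X hXf hXc (fun i hi => by rw [hp1 i hi]; exact hXp i hi)
      hXX (fun i hi c hc h => by
        have h1 := hXP i hi c hc h
        have h2 := hp3 i hi
        rw [hp1 i hi]
        omega) (fun i hi => by
        rw [Set.disjoint_left]
        rintro _ hv ⟨c, hc, rfl⟩
        have g1 := hXQ i hi c hc.1 hv
        rw [mem_Upr] at hc
        omega) (fun i hi => by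
        have g4 := hq i hi
        obtain ⟨e, he, hee⟩ := hQ.ver (q i) b₁ g4.1 g4.2 (by omega)
        exact ⟨e, he, _, hXq i hi, _, rfl, hee⟩)
    exact ⟨Vs, As, h1, fun i hi => ⟨(h2 i hi).1, (h2 i hi).2.2⟩, h3⟩
  -- increasing intervals, any direction of `q`
  have key2 : ∀ (q : ℕ → ℕ) (lx rx : ℕ → ℕ) (X : ℕ → Set V),
      (∀ i < N, lP ≤ lx i ∧ lx i ≤ rx i ∧ rx i ≤ rP) → (∀ i j, i < j → j < N → rx i < lx j) →
      (∀ i < N, lQ ≤ q i ∧ q i ≤ rQ) → Mon N q →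
      (∀ i < N, (X i).Finite) → (∀ i < N, VConn S ends (X i)) →
      (∀ i < N, P (lx i, b₀) ∈ X i) → (∀ i < N, Q (q i, b₁) ∈ X i) →
      (∀ i < N, ∀ j < N, i ≠ j → Disjoint (X i) (X j)) →
      (∀ i < N, ∀ c ∈ Upr lP rP nP b₀, P c ∈ X i → lx i ≤ c.1 ∧ c.1 ≤ rx i ∧ c.2 ≤ b₀) →
      (∀ i < N, ∀ c ∈ Reg lQ rQ nQ, Q c ∈ X i → c.2 ≤ b₁) →
      ∃ (Vs : ℕ → Set V) (As : ℕ → ℕ → Set V), Spine S ends w Vs As ∧
        (∀ i < w * w, X i ⊆ Vs i ∧ Vs i ⊆ X i ∪ (P '' Upr lP rP nP b₀ ∪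
          Q '' Upr lQ rQ nQ (b₁ + 1))) ∧
        ∀ r s, 1 ≤ r → r < w → 2 ≤ s → s ≤ w → As r s ⊆ P '' Upr lP rP nP b₀ ∪
          Q '' Upr lQ rQ nQ (b₁ + 1) := by
    intro q lx rx X hlr hmon hq hqm hXf hXc hXp hXq hXX hXP hXQ
    rcases hqm with hqm | hqm
    · exact key1 Q q lx rx X hQ hPQ hlr hmon hq hqm hXf hXc hXp hXq hXX hXP hXQ
    · have hreg : ∀ c ∈ Reg lQ rQ nQ, (lQ + rQ - c.1, c.2) ∈ Reg lQ rQ nQ := by
        intro c hc
        rw [mem_Reg] at hc ⊢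
        simp only
        omega
      have hk := key1 (fun c => Q (lQ + rQ - c.1, c.2)) (fun i => lQ + rQ - q i) lx rx X hQ.mirror
        (fun c hc c' hc' => hPQ c hc _ (hreg c' hc')) hlr hmon
        (fun i hi => by
          have := hq i hi
          omega)
        (fun i j hij hj => by
          have h1 := hqm i j hij hj
          have h2 := hq i (by omega)
          have h3 := hq j hj
          omega) hXf hXc hXp
        (fun i hi => by
          have := hq i hi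
          simp only
          rw [show lQ + rQ - (lQ + rQ - q i) = q i by omega]
          exact hXq i hi) hXX hXP
        (fun i hi c hc h => hXQ i hi (lQ + rQ - c.1, c.2) (hreg c hc) h)
      rw [upr_mirror] at hk
      exact hk
  rcases hmon with hmon | hmon
  · obtain ⟨Vs, As, h1, h2, h3⟩ := key2 q lx rx X hlr hmon hq hqm hXf hXc hXp hXq hXX hXP hXQ
    exact ⟨Vs, As, id, h1, fun i hi => ⟨hi, h2 i hi⟩, fun i _ j _ h => h, h3⟩
  · have hlt : ∀ i < N, N - 1 - i < N := fun i _ => by omega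
    obtain ⟨Vs, As, h1, h2, h3⟩ := key2 (fun i => q (N - 1 - i)) (fun i => lx (N - 1 - i))
      (fun i => rx (N - 1 - i))
      (fun i => X (N - 1 - i)) (fun i hi => hlr _ (hlt i hi))
      (fun i j hij hj => hmon (N - 1 - j) (N - 1 - i) (by omega) (by omega))
      (fun i hi => hq _ (hlt i hi)) (by
        rcases hqm with hqm | hqm
        · right
          intro i j hij hj
          exact hqm (N - 1 - j) (N - 1 - i) (by omega) (by omega)
        · left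
          intro i j hij hj
          exact hqm (N - 1 - j) (N - 1 - i) (by omega) (by omega))
      (fun i hi => hXf _ (hlt i hi)) (fun i hi => hXc _ (hlt i hi)) (fun i hi => hXp _ (hlt i hi))
      (fun i hi => hXq _ (hlt i hi)) (fun i hi j hj hij => hXX _ (hlt i hi) _ (hlt j hj)
        (by omega)) (fun i hi => hXP _ (hlt i hi))
      (fun i hi => hXQ _ (hlt i hi))
    subst hN
    exact ⟨Vs, As, fun i => w * w - 1 - i, h1, fun i hi => ⟨hlt i hi, h2 i hi⟩,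
      fun i hi j hj h => by dsimp only at h; omega, h3⟩

end EN
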