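import Mathlib

/-!
# Dense graphs have complete minors (weak form of Mader's theorem), for families of branch sets

`r` is a symmetric relation on `ι`.  `Mdr.Cn r A`: the finite set `A` is connected.
`Mdr.mader`: a family of pairwise disjoint connected sets with at least `c_t` times as many linked
(ordered) pairs as members contains a `K_t` model whose branch sets are unions of members.
-/

open Finset

namespace Mdr

variable {ι : Type*}

/-- Two finite sets are linked. -/
def Lk (r : ι → ι → Prop) (A B : Finset ι) : Prop := ∃ a ∈ A, ∃ b ∈ B, r a b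

lemma Lk.mono {r : ι → ι → Prop} {A B A' B' : Finset ι} (h : Lk r A B) (hA : A ⊆ A')
    (hB : B ⊆ B') : Lk r A' B' := by
  obtain ⟨a, ha, b, hb, h⟩ := h
  exact ⟨a, hA ha, b, hB hb, h⟩

lemma Lk.symm {r : ι → ι → Prop} (hr : ∀ a b, r a b → r b a) {A B : Finset ι}
    (h : Lk r A B) : Lk r B A := by
  obtain ⟨a, ha, b, hb, h⟩ := h
  exact ⟨b, hb, a, ha, hr _ _ h⟩

variable [DecidableEq ι]

/-- Connected finite sets. -/
inductive Cn (r : ι → ι → Prop) : Finset ι → Prop
  | single (a : ι) : Cn r {a}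
  | join {A B : Finset ι} (hA : Cn r A) (hB : Cn r B) (h : Lk r A B) : Cn r (A ∪ B)

lemma Lk.union_left {r : ι → ι → Prop} {A B C : Finset ι} (h : Lk r (A ∪ B) C) :
    Lk r A C ∨ Lk r B C := by
  obtain ⟨a, ha, b, hb, h⟩ := h
  rcases Finset.mem_union.1 ha with ha | ha
  · exact Or.inl ⟨a, ha, b, hb, h⟩
  · exact Or.inr ⟨a, ha, b, hb, h⟩

lemma Cn.nonempty {r : ι → ι → Prop} {A : Finset ι} (h : Cn r A) : A.Nonempty := by
  induction h with
  | single a => exact Finset.singleton_nonempty a
  | join _ _ _ hA _ => exact hA.mono Finset.subset_union_left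

/-- A model of the complete graph on `t` vertices. -/
structure KM (r : ι → ι → Prop) (t : ℕ) (F : Finset (Finset ι)) (K : Fin t → Finset ι) : Prop where
  cn : ∀ i, Cn r (K i)
  dis : ∀ i j, i ≠ j → Disjoint (K i) (K j)
  lk : ∀ i j, i ≠ j → Lk r (K i) (K j)
  sub : ∀ i, K i ⊆ F.biUnion id
  mem : ∀ i, ∃ A ∈ F, A ⊆ K i

open scoped Classical in
/-- The ordered pairs of linked members. -/
noncomputable def prs (r : ι → ι → Prop) (F : Finset (Finset ι)) : Finset (Finset ι × Finset ι) :=
  (F ×ˢ F).filter (fun p => p.1 ≠ p.2 ∧ Lk r p.1 p.2)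

open scoped Classical in
/-- The members linked to `A`. -/
noncomputable def nbs (r : ι → ι → Prop) (F : Finset (Finset ι)) (A : Finset ι) :
    Finset (Finset ι) :=
  F.filter (fun B => B ≠ A ∧ Lk r A B)

/-- The constant. -/
def cst : ℕ → ℕ
  | 0 => 0
  | 1 => 0
  | t + 2 => 2 * cst (t + 1) + 2

lemma card_prs {r : ι → ι → Prop} (F : Finset (Finset ι)) :
    (prs r F).card = ∑ A ∈ F, (nbs r F A).card := by
  classical
  unfold prs nbs
  rw [Finset.card_filter, Finset.sum_product]
  refine Finset.sum_congr rfl (fun A _ => ?_)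
  rw [Finset.card_filter]
  refine Finset.sum_congr rfl (fun B _ => ?_)
  simp only [ne_eq, eq_comm]

/-- Members of a family coarser than `F`. -/
structure Crs (r : ι → ι → Prop) (F G : Finset (Finset ι)) : Prop where
  cn : ∀ A ∈ G, Cn r A
  dis : ∀ A ∈ G, ∀ B ∈ G, A ≠ B → Disjoint A B
  sub : ∀ A ∈ G, A ⊆ F.biUnion id
  mem : ∀ A ∈ G, ∃ B ∈ F, B ⊆ A

/-- Merging two linked members. -/
noncomputable def mrg (G : Finset (Finset ι)) (A B : Finset ι) : Finset (Finset ι) :=
  insert (A ∪ B) ((G.erase A).erase B)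

lemma Crs.mrg {r : ι → ι → Prop} {F G : Finset (Finset ι)} (h : Crs r F G) {A B : Finset ι}
    (hA : A ∈ G) (hB : B ∈ G) (hl : Lk r A B) : Crs r F (mrg G A B) := by
  have hmem : ∀ C ∈ Mdr.mrg G A B, C = A ∪ B ∨ (C ∈ G ∧ C ≠ A ∧ C ≠ B) := by
    intro C hC
    rcases Finset.mem_insert.1 hC with h1 | h1
    · exact Or.inl h1
    · obtain ⟨h2, h3⟩ := Finset.mem_erase.1 h1
      obtain ⟨h4, h5⟩ := Finset.mem_erase.1 h3
      exact Or.inr ⟨h5, h4, h2⟩
  refine ⟨?_, ?_, ?_, ?_⟩
  · intro C hC
    rcases hmem C hC with rfl | ⟨h1, _, _⟩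
    · exact Cn.join (h.cn A hA) (h.cn B hB) hl
    · exact h.cn C h1
  · intro C hC D hD hCD
    rcases hmem C hC with rfl | ⟨h1, h2, h3⟩
    · rcases hmem D hD with rfl | ⟨h4, h5, h6⟩
      · exact absurd rfl hCD
      · exact Finset.disjoint_union_left.2 ⟨h.dis A hA D h4 (Ne.symm h5),
          h.dis B hB D h4 (Ne.symm h6)⟩
    · rcases hmem D hD with rfl | ⟨h4, h5, h6⟩
      · exact Finset.disjoint_union_right.2 ⟨h.dis C h1 A hA h2, h.dis C h1 B hB h3⟩
      · exact h.dis C h1 D h4 hCD
  · intro C hC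
    rcases hmem C hC with rfl | ⟨h1, _, _⟩
    · exact Finset.union_subset (h.sub A hA) (h.sub B hB)
    · exact h.sub C h1
  · intro C hC
    rcases hmem C hC with rfl | ⟨h1, _, _⟩
    · obtain ⟨D, hD, hDA⟩ := h.mem A hA
      exact ⟨D, hD, hDA.trans Finset.subset_union_left⟩
    · exact h.mem C h1

lemma Crs.union_notMem {r : ι → ι → Prop} {F G : Finset (Finset ι)} (h : Crs r F G)
    {A B : Finset ι} (hA : A ∈ G) :
    A ∪ B ∉ (G.erase A).erase B := by
  intro hC
  obtain ⟨h2, h3⟩ := Finset.mem_erase.1 hC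
  obtain ⟨h4, h5⟩ := Finset.mem_erase.1 h3
  have h6 := h.dis (A ∪ B) h5 A hA h4
  obtain ⟨a, ha⟩ := (h.cn A hA).nonempty
  exact Finset.disjoint_left.1 h6 (Finset.mem_union_left _ ha) ha

lemma Crs.card_mrg {r : ι → ι → Prop} {F G : Finset (Finset ι)} (h : Crs r F G) {A B : Finset ι}
    (hA : A ∈ G) (hB : B ∈ G) (hAB : A ≠ B) : (Mdr.mrg G A B).card + 1 = G.card := by
  unfold Mdr.mrg
  rw [Finset.card_insert_of_notMem (h.union_notMem hA)]
  have h1 : B ∈ G.erase A := Finset.mem_erase.2 ⟨Ne.symm hAB, hB⟩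
  have h2 := Finset.card_erase_add_one h1
  have h3 := Finset.card_erase_add_one hA
  omega

/-- The pairs after merging. -/
lemma Crs.prs_mrg {r : ι → ι → Prop} (hr : ∀ a b, r a b → r b a) {F G : Finset (Finset ι)}
    (h : Crs r F G) {A B : Finset ι} (hA : A ∈ G) (hB : B ∈ G) (hAB : A ≠ B) :
    (prs r G).card ≤ (prs r (Mdr.mrg G A B)).card + 2 * (nbs r (nbs r G A) B).card + 2 := by
  classical
  set G₀ := (G.erase A).erase B with hG₀
  have hnot : A ∪ B ∉ G₀ := h.union_notMem hA
  have hG : G = insert A (insert B G₀) := by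
    rw [hG₀, Finset.insert_erase (Finset.mem_erase.2 ⟨Ne.symm hAB, hB⟩), Finset.insert_erase hA]
  have hAG₀ : A ∉ G₀ := by
    intro h1
    exact (Finset.mem_erase.1 (Finset.mem_erase.1 h1).2).1 rfl
  have hBG₀ : B ∉ G₀ := fun h1 => (Finset.mem_erase.1 h1).1 rfl
  have hAins : A ∉ insert B G₀ := by
    rw [Finset.mem_insert, not_or]
    exact ⟨hAB, hAG₀⟩
  -- indicator
  set f : Finset ι → Finset ι → ℕ := fun X Y => if X ≠ Y ∧ Lk r X Y then 1 else 0 with hf
  have hfs : ∀ X Y, f X Y = f Y X := by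
    intro X Y
    simp only [hf]
    refine if_congr ?_ rfl rfl
    constructor
    · rintro ⟨h1, h2⟩; exact ⟨Ne.symm h1, h2.symm hr⟩
    · rintro ⟨h1, h2⟩; exact ⟨Ne.symm h1, h2.symm hr⟩
  have hp : ∀ H : Finset (Finset ι), (prs r H).card = ∑ X ∈ H, ∑ Y ∈ H, f X Y := by
    intro H
    unfold prs
    rw [Finset.card_filter, Finset.sum_product]
  have hfx : ∀ X, f X X = 0 := by
    intro X
    simp [hf]
  -- the sum over `insert`
  have hins : ∀ (H : Finset (Finset ι)) (Z : Finset ι), Z ∉ H →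
      ∑ X ∈ insert Z H, ∑ Y ∈ insert Z H, f X Y =
        2 * (∑ Y ∈ H, f Z Y) + ∑ X ∈ H, ∑ Y ∈ H, f X Y := by
    intro H Z hZ
    rw [Finset.sum_insert hZ, Finset.sum_insert hZ, hfx]
    have h1 : ∑ X ∈ H, ∑ Y ∈ insert Z H, f X Y = ∑ X ∈ H, (f X Z + ∑ Y ∈ H, f X Y) :=
      Finset.sum_congr rfl (fun X _ => by rw [Finset.sum_insert hZ])
    rw [h1, Finset.sum_add_distrib]
    have h2 : ∑ X ∈ H, f X Z = ∑ Y ∈ H, f Z Y := Finset.sum_congr rfl (fun X _ => hfs X Z)
    rw [h2]
    ring
  have hG1 : (prs r G).card = 2 * (∑ Y ∈ insert B G₀, f A Y) + (2 * (∑ Y ∈ G₀, f B Y) +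
      ∑ X ∈ G₀, ∑ Y ∈ G₀, f X Y) := by
    rw [hp, hG, hins _ _ hAins, hins _ _ hBG₀]
  have hG2 : (prs r (Mdr.mrg G A B)).card = 2 * (∑ Y ∈ G₀, f (A ∪ B) Y) +
      ∑ X ∈ G₀, ∑ Y ∈ G₀, f X Y := by
    rw [hp]
    exact hins _ _ hnot
  have hAB1 : f A B ≤ 1 := by
    simp only [hf]
    split_ifs <;> omega
  rw [Finset.sum_insert hBG₀] at hG1
  -- termwise
  have hterm : ∀ Y ∈ G₀, f A Y + f B Y ≤ f (A ∪ B) Y +
      (if Lk r A Y ∧ Lk r B Y then 1 else 0) := by
    intro Y hY
    have hYne : A ∪ B ≠ Y := fun h1 => hnot (h1 ▸ hY)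
    simp only [hf]
    by_cases h1 : Lk r A Y
    · by_cases h2 : Lk r B Y
      · have h3 : Lk r (A ∪ B) Y := h1.mono Finset.subset_union_left (subset_refl _)
        simp only [h1, h2, h3, hYne, and_true, ne_eq, not_false_eq_true, if_true]
        split_ifs <;> omega
      · have h3 : Lk r (A ∪ B) Y := h1.mono Finset.subset_union_left (subset_refl _)
        simp only [h1, h2, h3, hYne, and_true, ne_eq, not_false_eq_true, if_true, and_false,
          if_false]
        split_ifs <;> omega
    · by_cases h2 : Lk r B Y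
      · have h3 : Lk r (A ∪ B) Y := h2.mono Finset.subset_union_right (subset_refl _)
        simp only [h1, h2, h3, hYne, and_true, ne_eq, not_false_eq_true, if_true, and_false,
          if_false]
        split_ifs <;> omega
      · simp only [h1, h2, and_false, if_false]
        omega
  have hsum := Finset.sum_le_sum hterm
  rw [Finset.sum_add_distrib, Finset.sum_add_distrib] at hsum
  have hcom : ∑ Y ∈ G₀, (if Lk r A Y ∧ Lk r B Y then 1 else 0) ≤ (nbs r (nbs r G A) B).card := by
    rw [← Finset.card_filter]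
    refine Finset.card_le_card ?_
    intro Y hY
    obtain ⟨hY1, hY2, hY3⟩ := Finset.mem_filter.1 hY
    have hYA : Y ≠ A := fun h1 => hAG₀ (h1 ▸ hY1)
    have hYB : Y ≠ B := fun h1 => hBG₀ (h1 ▸ hY1)
    have hYG : Y ∈ G := by
      rw [hG]
      exact Finset.mem_insert_of_mem (Finset.mem_insert_of_mem hY1)
    unfold nbs
    rw [Finset.mem_filter, Finset.mem_filter]
    exact ⟨⟨hYG, hYA, hY2⟩, hYB, hY3⟩
  omega

/-- **Dense families contain complete models.** -/
theorem mader {r : ι → ι → Prop} (hr : ∀ a b, r a b → r b a) (t : ℕ) :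
    ∀ F : Finset (Finset ι), F.Nonempty → (∀ A ∈ F, Cn r A) →
      (∀ A ∈ F, ∀ B ∈ F, A ≠ B → Disjoint A B) →
      cst t * F.card ≤ (prs r F).card → ∃ K : Fin t → Finset ι, KM r t F K := by
  classical
  induction t with
  | zero =>
    intro F _ _ _ _
    exact ⟨fun i => i.elim0, fun i => i.elim0, fun i => i.elim0, fun i => i.elim0,
      fun i => i.elim0, fun i => i.elim0⟩
  | succ t ih =>
    intro F hF hFc hFd hcard
    rcases t with _ | t
    · -- one branch set
      obtain ⟨A, hA⟩ := hF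
      refine ⟨fun _ => A, fun _ => hFc A hA, ?_, ?_, ?_, fun _ => ⟨A, hA, subset_refl _⟩⟩
      · intro i j hij
        exact absurd (Fin.ext (by omega)) hij
      · intro i j hij
        exact absurd (Fin.ext (by omega)) hij
      · intro _
        exact Finset.subset_biUnion_of_mem id hA
    · -- a coarsest family
      have hex : ∃ n, ∃ G : Finset (Finset ι), G.Nonempty ∧ Crs r F G ∧
          cst (t + 2) * G.card ≤ (prs r G).card ∧ G.card = n :=
        ⟨F.card, F, hF, ⟨hFc, hFd, fun A hA => Finset.subset_biUnion_of_mem id hA,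
          fun A hA => ⟨A, hA, subset_refl _⟩⟩, hcard, rfl⟩
      obtain ⟨G, hGne, hG, hGc, hGn⟩ := Nat.find_spec hex
      have hmin : ∀ H : Finset (Finset ι), H.Nonempty → Crs r F H → H.card < G.card →
          (prs r H).card < cst (t + 2) * H.card := by
        intro H hH hHC hHG
        by_contra hcon
        push Not at hcon
        rw [hGn] at hHG
        exact Nat.find_min hex hHG ⟨H, hH, hHC, hcon, rfl⟩
      have hcst : cst (t + 2) = 2 * cst (t + 1) + 2 := rfl
      have hGpos : 0 < G.card := Finset.card_pos.2 hGne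
      -- many common neighbours
      have hcom : ∀ A ∈ G, ∀ B ∈ nbs r G A, cst (t + 1) ≤ (nbs r (nbs r G A) B).card := by
        intro A hA B hB
        obtain ⟨hBG, hBA, hl⟩ := Finset.mem_filter.1 hB
        have hAB : A ≠ B := Ne.symm hBA
        have h1 := hG.card_mrg hA hBG hAB
        have h2 := hmin (mrg G A B) ⟨A ∪ B, Finset.mem_insert_self _ _⟩
          (hG.mrg hA hBG hl) (by omega)
        have h3 := hG.prs_mrg hr hA hBG hAB
        have h4 : cst (t + 2) * G.card = cst (t + 2) * (mrg G A B).card + cst (t + 2) := by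
          rw [← h1]; ring
        omega
      -- a member with a neighbour
      have hpos : 0 < (prs r G).card := by
        have h1 : 1 * 1 ≤ cst (t + 2) * G.card := Nat.mul_le_mul (by rw [hcst]; omega) hGpos
        omega
      obtain ⟨A, hA, hAn⟩ : ∃ A ∈ G, (nbs r G A).Nonempty := by
        rw [card_prs] at hpos
        obtain ⟨A, hA, h1⟩ := Finset.exists_ne_zero_of_sum_ne_zero (Nat.pos_iff_ne_zero.1 hpos)
        exact ⟨A, hA, Finset.card_pos.1 (Nat.pos_of_ne_zero h1)⟩
      have hNG : nbs r G A ⊆ G := Finset.filter_subset _ _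
      obtain ⟨K, hK⟩ := ih (nbs r G A) hAn (fun B hB => hG.cn B (hNG hB))
        (fun B hB C hC => hG.dis B (hNG hB) C (hNG hC)) (by
          rw [card_prs, mul_comm, ← smul_eq_mul, ← Finset.sum_const]
          exact Finset.sum_le_sum (hcom A hA))
      have hKA : ∀ i, Disjoint A (K i) := by
        intro i
        rw [Finset.disjoint_left]
        intro a haA haK
        obtain ⟨B, hB, haB⟩ := Finset.mem_biUnion.1 (hK.sub i haK)
        obtain ⟨hBG, hBA, _⟩ := Finset.mem_filter.1 hB
        exact Finset.disjoint_left.1 (hG.dis A hA B hBG (Ne.symm hBA)) haA haB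
      have hKl : ∀ i, Lk r A (K i) := by
        intro i
        obtain ⟨B, hB, hBK⟩ := hK.mem i
        obtain ⟨_, _, hl⟩ := Finset.mem_filter.1 hB
        exact hl.mono (subset_refl _) hBK
      refine ⟨Fin.cons A K, ?_, ?_, ?_, ?_, ?_⟩
      · intro i
        refine Fin.cases ?_ (fun i => ?_) i
        · exact hG.cn A hA
        · exact hK.cn i
      · intro i j
        refine Fin.cases ?_ (fun i => ?_) i
        · refine Fin.cases ?_ (fun j => ?_) j
          · intro h1; exact absurd rfl h1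
          · intro _; exact hKA j
        · refine Fin.cases ?_ (fun j => ?_) j
          · intro _; exact (hKA i).symm
          · intro h1
            exact hK.dis i j (fun h2 => h1 (by rw [h2]))
      · intro i j
        refine Fin.cases ?_ (fun i => ?_) i
        · refine Fin.cases ?_ (fun j => ?_) j
          · intro h1; exact absurd rfl h1
          · intro _; exact hKl j
        · refine Fin.cases ?_ (fun j => ?_) j
          · intro _; exact (hKl i).symm hr
          · intro h1
            exact hK.lk i j (fun h2 => h1 (by rw [h2]))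
      · intro i
        refine Fin.cases ?_ (fun i => ?_) i
        · exact hG.sub A hA
        · intro a ha
          obtain ⟨B, hB, haB⟩ := Finset.mem_biUnion.1 (hK.sub i ha)
          exact hG.sub B (hNG hB) haB
      · intro i
        refine Fin.cases ?_ (fun i => ?_) i
        · exact hG.mem A hA
        · obtain ⟨B, hB, hBK⟩ := hK.mem i
          obtain ⟨C, hC, hCB⟩ := hG.mem B (hNG hB)
          exact ⟨C, hC, hCB.trans hBK⟩

end Mdr
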