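import Pool.Agent.GL.RamseyP
import Pool.Agent.EN.Mader

/-!
# Ports, connectors and contacts: the common data, and the list of patterns

All ports of all shores are numbered along one line `0, …, L - 1`; `sh x` is the shore of the port
`x` (monotone, so every shore is an interval of the line).  `own x` is the connector at the port
`x`.  Two connectors may be in contact, a connector may be grounded.
A LINK is a pair of ports which belong to the same connector or to connectors in contact.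
-/

namespace EN

/-- Ports, connectors, contacts, grounds. -/
structure Sys (κ : Type*) where
  /-- number of ports -/
  L : ℕ
  /-- number of shores -/
  R : ℕ
  /-- shore of a port -/
  sh : ℕ → ℕ
  /-- connector at a port -/
  own : ℕ → κ
  /-- contacts -/
  ct : κ → κ → Prop
  /-- grounded connectors -/
  gr : κ → Prop

namespace Sys

variable {κ : Type*} (Y : Sys κ)

/-- The axioms of a taut state. -/
structure Ax (D : ℕ) : Prop where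
  mono : ∀ x y, x ≤ y → y < Y.L → Y.sh x ≤ Y.sh y
  lt : ∀ x < Y.L, Y.sh x < Y.R
  symm : ∀ k k', Y.ct k k' → Y.ct k' k
  irr : ∀ k, ¬ Y.ct k k
  a1 : ∀ x, x + 1 < Y.L → Y.sh x = Y.sh (x + 1) → Y.own x ≠ Y.own (x + 1)
  a2 : ∀ x < Y.L, ¬ Y.gr (Y.own x) → (∀ y < Y.L, Y.own y = Y.own x → y = x) →
    (∃ k₁ k₂, k₁ ≠ k₂ ∧ Y.ct (Y.own x) k₁ ∧ Y.ct (Y.own x) k₂) ∨
      ∃ k₁, Y.ct (Y.own x) k₁ ∧ Y.gr k₁
  a3 : ∀ x, x + 1 < Y.L → Y.sh x = Y.sh (x + 1) → Y.ct (Y.own x) (Y.own (x + 1)) →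
    Y.gr (Y.own x) ∨ Y.gr (Y.own (x + 1))
  a4 : ∀ k k', Y.ct k k' → ∃ x < Y.L, Y.own x = k'
  a5 : ∀ k, ∀ A : Finset ℕ, (∀ x ∈ A, x < Y.L ∧ Y.own x = k) → A.card ≤ D
  a6 : ∀ k, ∀ A : Finset κ, (∀ k' ∈ A, Y.ct k k') → A.card ≤ D

/-- A link. -/
def Lk (x y : ℕ) : Prop :=
  x < Y.L ∧ y < Y.L ∧ x ≠ y ∧ (Y.own x = Y.own y ∨ Y.ct (Y.own x) (Y.own y))

/-- Different connectors. -/
def Dj (l l' : List ℕ) : Prop := ∀ x ∈ l, ∀ y ∈ l', Y.own x ≠ Y.own y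

/-- Different connectors at different times. -/
def Dis (N : ℕ) (l : ℕ → List ℕ) : Prop := ∀ i < N, ∀ j < N, i ≠ j → Y.Dj (l i) (l j)

/-- All on one shore. -/
def OnSh (N : ℕ) (l : ℕ → List ℕ) : Prop := ∃ s, ∀ i < N, ∀ x ∈ l i, x < Y.L ∧ Y.sh x = s

end Sys

/-- In series (increasing). -/
def Ser (N : ℕ) (l : ℕ → List ℕ) : Prop := ∀ i j, i < j → j < N → ∀ x ∈ l i, ∀ y ∈ l j, x < y

/-- Separated families. -/
def Far (N : ℕ) (l l' : ℕ → List ℕ) : Prop :=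
  (∀ i < N, ∀ j < N, ∀ x ∈ l i, ∀ y ∈ l' j, x < y) ∨
    (∀ i < N, ∀ j < N, ∀ x ∈ l i, ∀ y ∈ l' j, y < x)

namespace Sys

variable {κ : Type*} (Y : Sys κ)

/-- **(A)** A rung `x – z` and a grounded connector at `q` next to `x`. -/
structure PA (N : ℕ) (x z q : ℕ → ℕ) : Prop where
  lk : ∀ i < N, Y.Lk (x i) (z i)
  gr : ∀ i < N, Y.gr (Y.own (q i))
  ser : Ser N (fun i => [x i, q i])
  mon : RamP.Mon N z
  far : Far N (fun i => [x i, q i]) (fun i => [z i])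
  onP : Y.OnSh N (fun i => [x i, q i])
  onQ : Y.OnSh N (fun i => [z i])
  dis : Y.Dis N (fun i => [x i, q i, z i])

/-- **(B)** Rungs `x – z` and `c – d` to two different places. -/
structure PB (N : ℕ) (x z c d : ℕ → ℕ) : Prop where
  lk : ∀ i < N, Y.Lk (x i) (z i)
  lk' : ∀ i < N, Y.Lk (c i) (d i)
  ser : Ser N (fun i => [x i, c i])
  mon : RamP.Mon N z
  mon' : RamP.Mon N d
  far : Far N (fun i => [x i, c i]) (fun i => [z i])
  far' : Far N (fun i => [x i, c i]) (fun i => [d i])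
  far'' : Far N (fun i => [z i]) (fun i => [d i])
  onP : Y.OnSh N (fun i => [x i, c i])
  onZ : Y.OnSh N (fun i => [z i])
  onD : Y.OnSh N (fun i => [d i])
  dis : Y.Dis N (fun i => [x i, z i, c i, d i])

/-- **(SJ)** A chord `y – z` over the foot `p` of a rung `p – q`. -/
structure PJ (N : ℕ) (p q y z : ℕ → ℕ) : Prop where
  lk : ∀ i < N, Y.Lk (p i) (q i)
  lk' : ∀ i < N, Y.Lk (y i) (z i)
  yp : ∀ i < N, y i < p i
  pz : ∀ i < N, p i < z i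
  ser : Ser N (fun i => [y i, p i, z i])
  mon : RamP.Mon N q
  far : Far N (fun i => [y i, p i, z i]) (fun i => [q i])
  onP : Y.OnSh N (fun i => [y i, p i, z i])
  onQ : Y.OnSh N (fun i => [q i])
  dis : Y.Dis N (fun i => [p i, q i, y i, z i])
  dj : ∀ i < N, Y.Dj [p i, q i] [y i, z i]

/-- **(SJ')** Crossing rungs `p – q`, `y – z` and a return rung `p' – q'`. -/
structure PX (N : ℕ) (p q y z p' q' : ℕ → ℕ) : Prop where
  lk : ∀ i < N, Y.Lk (p i) (q i)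
  lk' : ∀ i < N, Y.Lk (y i) (z i)
  lk'' : ∀ i < N, Y.Lk (p' i) (q' i)
  yp : ∀ i < N, y i < p i
  pp : ∀ i < N, p i < p' i
  ser : Ser N (fun i => [y i, p i, p' i])
  cr : ((∀ i < N, q i < z i ∧ z i < q' i) ∧ Ser N (fun i => [q i, z i, q' i])) ∨
    ((∀ i < N, q' i < z i ∧ z i < q i) ∧
      ∀ i j, i < j → j < N → ∀ u ∈ [q i, z i, q' i], ∀ v ∈ [q j, z j, q' j], v < u)
  far : Far N (fun i => [y i, p i, p' i]) (fun i => [q i, z i, q' i])
  onP : Y.OnSh N (fun i => [y i, p i, p' i])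
  onQ : Y.OnSh N (fun i => [q i, z i, q' i])
  dis : Y.Dis N (fun i => [p i, q i, y i, z i, p' i, q' i])
  dj : ∀ i < N, Y.Dj [p i, q i] [y i, z i]
  dj' : ∀ i < N, Y.Dj [p i, q i] [p' i, q' i]

/-- **(CR)** A rung `a – b` next to crossing chords `y – z`, `v – v'`. -/
structure PC (N : ℕ) (a b y z v v' : ℕ → ℕ) : Prop where
  lk : ∀ i < N, Y.Lk (a i) (b i)
  lk' : ∀ i < N, Y.Lk (y i) (z i)
  lk'' : ∀ i < N, Y.Lk (v i) (v' i)
  ord : ∀ i < N, a i < y i ∧ y i < v i ∧ v i < z i ∧ z i < v' i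
  ser : Ser N (fun i => [a i, y i, v i, z i, v' i])
  mon : RamP.Mon N b
  far : Far N (fun i => [a i, y i, v i, z i, v' i]) (fun i => [b i])
  onP : Y.OnSh N (fun i => [a i, y i, v i, z i, v' i])
  onQ : Y.OnSh N (fun i => [b i])
  dis : Y.Dis N (fun i => [a i, b i, y i, z i, v i, v' i])
  dj : ∀ i < N, Y.Dj [a i, b i, y i, z i] [v i, v' i]

/-- **(MS)** Crossing bands in series: band `g < N`, strands `k < m`. -/
structure PM (N m : ℕ) (u v : ℕ → ℕ → ℕ) : Prop where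
  lk : ∀ g < N, ∀ k < m, Y.Lk (u k g) (v k g)
  um : ∀ g < N, ∀ k, k + 1 < m → u k g < u (k + 1) g
  vm : ∀ g < N, ∀ k, k + 1 < m → v k g < v (k + 1) g
  uv : ∀ g < N, ∀ k < m, ∀ k' < m, u k g < v k' g
  ser : ∀ g g', g < g' → g' < N → ∀ k < m, ∀ k' < m, v k g < u k' g'
  on : ∃ s, ∀ g < N, ∀ k < m, Y.sh (u k g) = s ∧ Y.sh (v k g) = s
  dis : ∀ g < N, ∀ k < m, ∀ g' < N, ∀ k' < m, (g, k) ≠ (g', k') →
    Y.Dj [u k g, v k g] [u k' g', v k' g']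

/-- Nests in series: nest `g < N`, levels `s < m`, level `0` is the innermost one. -/
structure Ns (N m : ℕ) (a b : ℕ → ℕ → ℕ) : Prop where
  lk : ∀ g < N, ∀ s < m, Y.Lk (a s g) (b s g)
  am : ∀ g < N, ∀ s, s + 1 < m → a (s + 1) g < a s g
  bm : ∀ g < N, ∀ s, s + 1 < m → b s g < b (s + 1) g
  ab : ∀ g < N, a 0 g < b 0 g
  ser : ∀ g g', g < g' → g' < N → ∀ s < m, ∀ s' < m, b s g < a s' g'
  on : ∃ s₀, ∀ g < N, ∀ s < m, Y.sh (a s g) = s₀ ∧ Y.sh (b s g) = s₀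
  dis : ∀ g < N, ∀ s < m, ∀ g' < N, ∀ s' < m, (g, s) ≠ (g', s') →
    Y.Dj [a s g, b s g] [a s' g', b s' g']

/-- **(PS)** A grounded connector in every pocket. -/
structure PS (N m : ℕ) (a b : ℕ → ℕ → ℕ) (x : ℕ → ℕ) : Prop where
  ns : Y.Ns N m a b
  px : ∀ g < N, a 0 g < x g ∧ x g < b 0 g
  gr : ∀ g < N, Y.gr (Y.own (x g))
  dis : Y.Dis N (fun g => [x g])
  dj : ∀ g < N, ∀ g' < N, ∀ s < m, Y.Dj [x g] [a s g', b s g']

/-- **(PSJ)** Links from the pockets to another place. -/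
structure PSF (N m : ℕ) (a b : ℕ → ℕ → ℕ) (x z : ℕ → ℕ) : Prop where
  ns : Y.Ns N m a b
  px : ∀ g < N, a 0 g < x g ∧ x g < b 0 g
  lk : ∀ g < N, Y.Lk (x g) (z g)
  mon : RamP.Mon N z
  far : ∀ s < m, Far N (fun g => [a s g, b s g]) (fun g => [z g])
  onQ : Y.OnSh N (fun g => [z g])
  dis : Y.Dis N (fun g => [x g, z g])
  dj : ∀ g < N, ∀ g' < N, ∀ s < m, Y.Dj [x g, z g] [a s g', b s g']

/-- **(PSJ)** Links from the pockets to the next (`d = true`) or to the previous gap. -/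
structure PSG (N m : ℕ) (d : Bool) (a b : ℕ → ℕ → ℕ) (x z : ℕ → ℕ) : Prop where
  ns : Y.Ns N m a b
  px : ∀ g < N, a 0 g < x g ∧ x g < b 0 g
  lk : ∀ g < N, Y.Lk (x g) (z g)
  sh : ∀ g < N, Y.sh (z g) = Y.sh (x g)
  out : ∀ g < N, ∀ s < m, if d then b s g < z g else z g < a s g
  gap : ∀ g, g + 1 < N → ∀ s < m,
    if d then z g < a s (g + 1) else b s g < z (g + 1)
  dis : Y.Dis N (fun g => [x g, z g])
  dj : ∀ g < N, ∀ g' < N, ∀ s < m, Y.Dj [x g, z g] [a s g', b s g']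

/-- **(PSC)** Crossing chords `y – z`, `v – v'` in the pockets. -/
structure PSC (N m : ℕ) (a b : ℕ → ℕ → ℕ) (y z v v' : ℕ → ℕ) : Prop where
  ns : Y.Ns N m a b
  lk : ∀ g < N, Y.Lk (y g) (z g)
  lk' : ∀ g < N, Y.Lk (v g) (v' g)
  ord : ∀ g < N, a 0 g < y g ∧ y g < v g ∧ v g < z g ∧ z g < v' g ∧ v' g < b 0 g
  dis : Y.Dis N (fun g => [y g, z g, v g, v' g])
  djc : ∀ g < N, Y.Dj [y g, z g] [v g, v' g]
  dj : ∀ g < N, ∀ g' < N, ∀ s < m, Y.Dj [y g, z g, v g, v' g] [a s g', b s g']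

/-- Adjacency of ports and connectors. -/
def adj : ℕ ⊕ κ → ℕ ⊕ κ → Prop
  | Sum.inl x, Sum.inl y => x < Y.L ∧ y < Y.L ∧ Y.sh x = Y.sh y ∧ (x = y + 1 ∨ y = x + 1)
  | Sum.inl x, Sum.inr k => x < Y.L ∧ Y.own x = k
  | Sum.inr k, Sum.inl x => x < Y.L ∧ Y.own x = k
  | Sum.inr k, Sum.inr k' => Y.ct k k'

open scoped Classical in
/-- **(K_t)** A model of the complete graph in the graph of ports and connectors. -/
def KT (t : ℕ) : Prop :=
  ∃ K : Fin t → Finset (ℕ ⊕ κ), (∀ i, Mdr.Cn Y.adj (K i)) ∧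
    (∀ i j, i ≠ j → Disjoint (K i) (K j)) ∧ (∀ i j, i ≠ j → Mdr.Lk Y.adj (K i) (K j)) ∧
    ∀ i, ∀ x, Sum.inl x ∈ K i → x < Y.L

/-- **Some pattern of multiplicity `N` with `m` levels, or a complete minor of order `t`.** -/
def Pat (N m t : ℕ) : Prop :=
  (∃ x z q, Y.PA N x z q) ∨ (∃ x z c d, Y.PB N x z c d) ∨ (∃ p q y z, Y.PJ N p q y z) ∨
  (∃ p q y z p' q', Y.PX N p q y z p' q') ∨ (∃ a b y z v v', Y.PC N a b y z v v') ∨
  (∃ u v, Y.PM N m u v) ∨ (∃ a b x, Y.PS N m a b x) ∨ (∃ a b x z, Y.PSF N m a b x z) ∨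
  (∃ d a b x z, Y.PSG N m d a b x z) ∨ (∃ a b y z v v', Y.PSC N m a b y z v v') ∨ Y.KT t

end Sys

end EN
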