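import Pool.Agent.EN.Sweep
import Pool.Agent.EN.Sys

/-!
Glue for T-star: the output of II.3 (strips and residual intervals on the line of ports) and the
output of module I (columns, members, edges) give the bound of module III.
-/

set_option autoImplicit false

open Finset EN.Walk EN.Sweep
open scoped Classical

namespace EN.GlueS

/-- strips: the output of II.3 -/
structure Strips {κ : Type*} (Y : EN.Sys κ) (cut : Finset ℕ) (C : Set ℕ) (φ : ℕ → ℕ) (M : ℕ) :
    Prop where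
  lt : ∀ x, x ∈ C → x < Y.L
  memC : ∀ x, x ∈ C → φ x ∈ C
  inv : ∀ x, x ∈ C → φ (φ x) = x
  const : ∀ x, x + 1 < Y.L → Y.sh x = Y.sh (x + 1) → x ∉ cut → (x ∈ C ↔ x + 1 ∈ C)
  step : ∀ x, x + 1 < Y.L → Y.sh x = Y.sh (x + 1) → x ∉ cut → x ∈ C →
    (φ (x + 1) = φ x + 1 ∧ Y.sh (φ x) = Y.sh (φ x + 1) ∧ φ x ∉ cut) ∨
    (φ x = φ (x + 1) + 1 ∧ Y.sh (φ (x + 1)) = Y.sh (φ (x + 1) + 1) ∧ φ (x + 1) ∉ cut)
  two : ∀ x, x ∈ C → ∀ y, y < Y.L → Y.own y = Y.own x → y = x ∨ y = φ x
  ngr : ∀ x, x ∈ C → ¬ Y.gr (Y.own x)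
  noct : ∀ x, x ∈ C → ∀ k, Y.ct (Y.own x) k → k = Y.own (φ x) ∨
    ∃ p, p < Y.L ∧ Y.sh p = Y.sh (φ x) ∧ (p = φ x + 1 ∨ p + 1 = φ x) ∧ k = Y.own p
  res : ∀ x y, x ≤ y → y < Y.L → Y.sh x = Y.sh y → (∀ z, x ≤ z → z ≤ y → z ∉ C) →
    (∀ z, x ≤ z → z < y → z ∉ cut) →
    ¬ ∃ u v : ℕ → ℕ, (∀ i, i < M → x ≤ u i ∧ u i ≤ y ∧ ¬ (x ≤ v i ∧ v i ≤ y) ∧
      Y.Lk (u i) (v i)) ∧ Y.Dis M (fun i => [u i, v i])

/-- the ports of columns on the line -/
structure Place {κ : Type*} (Y : EN.Sys κ) {P : ℕ} (pos : Pt P → ℕ) (B : ℕ) : Prop where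
  inj : Function.Injective pos
  lt : ∀ p, pos p < Y.L
  surj : ∀ x, x < Y.L → ∃ p, pos p = x
  nb : ∀ p p', Nb p p' → Y.sh (pos p) = Y.sh (pos p') → pos p' = pos p + 1 ∨ pos p = pos p' + 1
  nb' : ∀ p p', pos p' = pos p + 1 → Y.sh (pos p) = Y.sh (pos p') → Nb p p'
  brk : (univ.filter (fun x : Pt P × Pt P => Nb x.1 x.2 ∧
    Y.sh (pos x.1) ≠ Y.sh (pos x.2))).card ≤ B

/-- members of connectors, edges -/
structure Mem {κ V : Type*} (Y : EN.Sys κ) {P : ℕ} (pos : Pt P → ℕ) (G : SimpleGraph V)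
    (mem : V → κ → Prop) : Prop where
  port : ∀ y k, mem y k → ∃ p, Y.own (pos p) = k
  conn : ∀ y (T : Set κ), (∃ k, mem y k ∧ k ∈ T) → (∃ k, mem y k ∧ k ∉ T) →
    ∃ p, mem y (Y.own (pos p)) ∧ mem y (Y.own (pos (flp p))) ∧ Y.own (pos p) ∈ T ∧
      Y.own (pos (flp p)) ∉ T
  ground : ∀ y, ∃ k, mem y k ∧ Y.gr k
  edge : ∀ y z, G.Adj y z → (∃ k, mem y k ∧ mem z k) ∨
    (∃ k k', mem y k ∧ mem z k' ∧ Y.ct k k') ∨
    (∃ p, mem y (Y.own (pos p)) ∧ mem z (Y.own (pos (flp p)))) ∨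
    (∃ p p', Nb p p' ∧ mem y (Y.own (pos p)) ∧
      (mem z (Y.own (pos p')) ∨ mem z (Y.own (pos (flp p')))))

variable {κ V : Type*} {Y : EN.Sys κ} {cut : Finset ℕ} {C : Set ℕ} {φ : ℕ → ℕ} {M P B D : ℕ}
  {pos : Pt P → ℕ} {G : SimpleGraph V} {mem : V → κ → Prop}

/-- the bijection of the strips on ports -/
noncomputable def phi (pos : Pt P → ℕ) (φ : ℕ → ℕ) (p : Pt P) : Pt P :=
  if h : ∃ q, pos q = φ (pos p) then h.choose else p

theorem pos_phi (hP : Place Y pos B) (hS : Strips Y cut C φ M) {p : Pt P} (hp : pos p ∈ C) :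
    pos (phi pos φ p) = φ (pos p) := by
  have h : ∃ q, pos q = φ (pos p) := hP.surj _ (hS.lt _ (hS.memC _ hp))
  unfold phi
  rw [dif_pos h]
  exact h.choose_spec

/-- joined neighbours -/
def Jn (Y : EN.Sys κ) (cut : Finset ℕ) (pos : Pt P → ℕ) (p p' : Pt P) : Prop :=
  Y.sh (pos p) = Y.sh (pos p') ∧
    ((pos p' = pos p + 1 ∧ pos p ∉ cut) ∨ (pos p = pos p' + 1 ∧ pos p' ∉ cut))

theorem Jn.symm {p p' : Pt P} (h : Jn Y cut pos p p') : Jn Y cut pos p' p :=
  ⟨h.1.symm, h.2.symm⟩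

theorem Jn.nb (hP : Place Y pos B) {p p' : Pt P} (h : Jn Y cut pos p p') : Nb p p' := by
  obtain ⟨h1, ⟨h2, -⟩ | ⟨h2, -⟩⟩ := h
  · exact hP.nb' _ _ h2 h1
  · exact (hP.nb' _ _ h2 h1.symm).symm

theorem Jn.memC (hP : Place Y pos B) (hS : Strips Y cut C φ M) {p p' : Pt P}
    (h : Jn Y cut pos p p') (hp : pos p ∈ C) : pos p' ∈ C := by
  obtain ⟨h1, ⟨h2, h3⟩ | ⟨h2, h3⟩⟩ := h
  · rw [h2]
    refine (hS.const _ ?_ ?_ h3).1 hp
    · rw [← h2]; exact hP.lt _
    · rw [← h2]; exact h1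
  · refine (hS.const _ ?_ ?_ h3).2 ?_
    · rw [← h2]; exact hP.lt _
    · rw [← h2]; exact h1.symm
    · rw [← h2]; exact hp

theorem Jn.phi_aux (hP : Place Y pos B) (hS : Strips Y cut C φ M) {p p' : Pt P}
    (h1 : Y.sh (pos p) = Y.sh (pos p')) (h2 : pos p' = pos p + 1) (h3 : pos p ∉ cut)
    (hp : pos p ∈ C) : Jn Y cut pos (phi pos φ p) (phi pos φ p') := by
  have hp' : pos p' ∈ C := Jn.memC hP hS ⟨h1, Or.inl ⟨h2, h3⟩⟩ hp
  have e1 := pos_phi hP hS hp
  have e2 := pos_phi hP hS hp'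
  have h4 := hS.step (pos p) (by rw [← h2]; exact hP.lt _) (by rw [← h2]; exact h1) h3 hp
  rw [← h2] at h4
  unfold Jn
  rw [e1, e2]
  rcases h4 with ⟨h5, h6, h7⟩ | ⟨h5, h6, h7⟩
  · rw [h5]
    exact ⟨h6, Or.inl ⟨rfl, h7⟩⟩
  · rw [h5]
    exact ⟨h6.symm, Or.inr ⟨rfl, h7⟩⟩

theorem Jn.phi (hP : Place Y pos B) (hS : Strips Y cut C φ M) {p p' : Pt P}
    (h : Jn Y cut pos p p') (hp : pos p ∈ C) :
    Jn Y cut pos (EN.GlueS.phi pos φ p) (EN.GlueS.phi pos φ p') := by
  have hp' := h.memC hP hS hp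
  obtain ⟨h1, ⟨h2, h3⟩ | ⟨h2, h3⟩⟩ := h
  · exact Jn.phi_aux hP hS h1 h2 h3 hp
  · exact (Jn.phi_aux hP hS h1.symm h2 h3 hp').symm

/-- the system of module III -/
theorem sys (hP : Place Y pos B) (hS : Strips Y cut C φ M) (hG : Mem Y pos G mem) :
    EN.Sweep.Sys G P {p | pos p ∈ C} (phi pos φ) (Jn Y cut pos) (fun p => Y.own (pos p)) mem
      Y.ct where
  mem_C := by
    intro p hp
    show pos (phi pos φ p) ∈ C
    rw [pos_phi hP hS hp]
    exact hS.memC _ hp
  inv := by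
    intro p hp
    have h1 : pos (phi pos φ p) ∈ C := by
      rw [pos_phi hP hS hp]
      exact hS.memC _ hp
    apply hP.inj
    rw [pos_phi hP hS h1, pos_phi hP hS hp]
    exact hS.inv _ hp
  two := by
    intro p hp p' h
    rcases hS.two (pos p) hp (pos p') (hP.lt _) h with h1 | h1
    · exact Or.inl (hP.inj h1)
    · right
      apply hP.inj
      rw [pos_phi hP hS hp, h1]
  noct := by
    intro p hp k hk
    rcases hS.noct (pos p) hp k hk with h1 | ⟨x, h1, h2, h3, h4⟩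
    · left
      show k = Y.own (pos (phi pos φ p))
      rw [pos_phi hP hS hp]
      exact h1
    · right
      obtain ⟨p', rfl⟩ := hP.surj x h1
      refine ⟨p', ?_, h4⟩
      have e := pos_phi hP hS hp
      rw [← e] at h2 h3
      rcases h3 with h3 | h3
      · exact hP.nb' _ _ h3 h2.symm
      · exact (hP.nb' _ _ h3.symm h2).symm
  J_nb := fun p p' h => h.nb hP
  J_symm := fun p p' h => h.symm
  J_C := fun p p' h hp => h.memC hP hS hp
  J_phi := fun p p' h hp => h.phi hP hS hp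
  port := hG.port
  conn := fun y κ κ' h1 h2 => conn_of_cut (hG.conn y) κ κ' h1 h2
  res := by
    intro y
    obtain ⟨k, h1, h2⟩ := hG.ground y
    obtain ⟨p, rfl⟩ := hG.port y k h1
    exact ⟨p, h1, fun hc => hS.ngr _ hc h2⟩
  edge := hG.edge

theorem card_cut (hP : Place Y pos B) :
    (univ.filter (fun x : Pt P × Pt P => Nb x.1 x.2 ∧ ¬ Jn Y cut pos x.1 x.2)).card
      ≤ B + 2 * cut.card := by
  have h1 : (univ.filter (fun x : Pt P × Pt P => Nb x.1 x.2 ∧ ¬ Jn Y cut pos x.1 x.2)) ⊆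
      (univ.filter (fun x : Pt P × Pt P => Nb x.1 x.2 ∧ Y.sh (pos x.1) ≠ Y.sh (pos x.2))) ∪
      ((univ.filter (fun x : Pt P × Pt P => pos x.2 = pos x.1 + 1 ∧ pos x.1 ∈ cut)) ∪
        (univ.filter (fun x : Pt P × Pt P => pos x.1 = pos x.2 + 1 ∧ pos x.2 ∈ cut))) := by
    rintro ⟨p, p'⟩ hx
    simp only [mem_filter, mem_univ, true_and] at hx
    obtain ⟨hN, hJ⟩ := hx
    rw [mem_union, mem_union]
    simp only [mem_filter, mem_univ, true_and]
    by_cases hs : Y.sh (pos p) = Y.sh (pos p')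
    · right
      rcases hP.nb p p' hN hs with h | h
      · left
        refine ⟨h, ?_⟩
        by_contra hc
        exact hJ ⟨hs, Or.inl ⟨h, hc⟩⟩
      · right
        refine ⟨h, ?_⟩
        by_contra hc
        exact hJ ⟨hs, Or.inr ⟨h, hc⟩⟩
    · left; exact ⟨hN, hs⟩
  have h2 : (univ.filter (fun x : Pt P × Pt P => pos x.2 = pos x.1 + 1 ∧ pos x.1 ∈ cut)).card
      ≤ cut.card := by
    refine card_le_card_of_injOn (fun x => pos x.1) ?_ ?_
    · intro x hx
      simp only [coe_filter, mem_univ, true_and, Set.mem_ofPred_eq] at hx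
      exact hx.2
    · rintro ⟨a, b⟩ hx ⟨a', b'⟩ hx' he
      simp only [coe_filter, mem_univ, true_and, Set.mem_ofPred_eq] at hx hx' he
      have e1 : a = a' := hP.inj he
      have e2 : b = b' := hP.inj (by rw [hx.1, hx'.1, he])
      rw [e1, e2]
  have h3 : (univ.filter (fun x : Pt P × Pt P => pos x.1 = pos x.2 + 1 ∧ pos x.2 ∈ cut)).card
      ≤ cut.card := by
    refine card_le_card_of_injOn (fun x => pos x.2) ?_ ?_
    · intro x hx
      simp only [coe_filter, mem_univ, true_and, Set.mem_ofPred_eq] at hx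
      exact hx.2
    · rintro ⟨a, b⟩ hx ⟨a', b'⟩ hx' he
      simp only [coe_filter, mem_univ, true_and, Set.mem_ofPred_eq] at hx hx' he
      have e1 : b = b' := hP.inj he
      have e2 : a = a' := hP.inj (by rw [hx.1, hx'.1, he])
      rw [e1, e2]
  refine (card_le_card h1).trans ((card_union_le _ _).trans ?_)
  have h4 := (card_union_le (univ.filter (fun x : Pt P × Pt P => pos x.2 = pos x.1 + 1 ∧
    pos x.1 ∈ cut)) (univ.filter (fun x : Pt P × Pt P => pos x.1 = pos x.2 + 1 ∧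
    pos x.2 ∈ cut)))
  have h5 := hP.brk
  omega

/-- residual intervals of columns are residual intervals of the line -/
theorem res_line (hP : Place Y pos B) {s : Bool} {a b : ℕ}
    (h : Res {p | pos p ∈ C} (Jn Y cut pos) s a b) (hne : (iv P s a b).Nonempty) :
    ∃ x y, x ≤ y ∧ y < Y.L ∧ Y.sh x = Y.sh y ∧ (∀ z, x ≤ z → z ≤ y → z ∉ C) ∧
      (∀ z, x ≤ z → z < y → z ∉ cut) ∧ ∀ p : Pt P, p ∈ iv P s a b ↔ x ≤ pos p ∧ pos p ≤ y := by
  -- induction on the length of the interval inside `Fin P`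
  have main : ∀ n : ℕ, ∀ a b : ℕ, b = a + n → b < P →
      Res {p | pos p ∈ C} (Jn Y cut pos) s a b →
      ∃ x y, x ≤ y ∧ y < Y.L ∧ Y.sh x = Y.sh y ∧ (∀ z, x ≤ z → z ≤ y → z ∉ C) ∧
      (∀ z, x ≤ z → z < y → z ∉ cut) ∧ (∀ p : Pt P, p ∈ iv P s a b ↔ x ≤ pos p ∧ pos p ≤ y) ∧
      (∀ p : Pt P, p.2 = s → p.1.val = b → pos p = x ∨ pos p = y) := by
    intro n
    induction n with
    | zero =>
      intro a b hb hbP hR
      have ha : a < P := by omega
      set q0 : Pt P := (⟨a, ha⟩, s) with hq0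
      have hu : ∀ q : Pt P, q ∈ iv P s a b ↔ q = q0 := by
        intro q
        rw [mem_iv]
        constructor
        · rintro ⟨h1, h2, h3⟩
          exact Prod.ext (Fin.ext (by simp only [hq0]; omega)) h1
        · intro h1
          rw [h1]
          exact ⟨rfl, by simp only [hq0]; omega, by simp only [hq0]; omega⟩
      have hq0m : q0 ∈ iv P s a b := (hu q0).2 rfl
      refine ⟨pos q0, pos q0, le_refl _, hP.lt _, rfl, ?_, ?_, ?_, ?_⟩
      · intro z h1 h2
        have : z = pos q0 := le_antisymm h2 h1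
        rw [this]
        exact hR.1 q0 hq0m
      · intro z h1 h2; omega
      · intro p
        rw [hu p]
        constructor
        · intro h1; rw [h1]; exact ⟨le_refl _, le_refl _⟩
        · intro h1; exact hP.inj (le_antisymm h1.2 h1.1)
      · intro p h1 h2
        left
        rw [(hu p).1 (by rw [mem_iv]; exact ⟨h1, by omega, by omega⟩)]
    | succ n ih =>
      intro a b hb hbP hR
      have hsub : ∀ p : Pt P, p ∈ iv P s a (a + n) → p ∈ iv P s a b := by
        intro p hp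
        rw [mem_iv] at hp ⊢
        exact ⟨hp.1, hp.2.1, by omega⟩
      obtain ⟨x, y, h1, h2, h3, h4, h5, h6, h7⟩ := ih a (a + n) rfl (by omega)
        ⟨fun p hp => hR.1 p (hsub p hp), fun p p' hp hp' => hR.2 p p' (hsub p hp) (hsub p' hp')⟩
      set q : Pt P := (⟨a + n, by omega⟩, s) with hq
      set q' : Pt P := (⟨b, hbP⟩, s) with hq'
      have hqm : q ∈ iv P s a (a + n) := by
        rw [mem_iv]; exact ⟨rfl, by simp only [hq]; omega, by simp only [hq]; omega⟩
      have hqm' : q' ∈ iv P s a b := by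
        rw [mem_iv]; exact ⟨rfl, by simp only [hq']; omega, by simp only [hq']; omega⟩
      have hN : Nb q q' := ⟨rfl, Or.inl (by simp only [hq, hq']; omega)⟩
      have hJ := hR.2 q q' (hsub q hqm) hqm' hN
      have hq'n : ¬ (x ≤ pos q' ∧ pos q' ≤ y) := by
        intro hc
        have h8 := mem_iv.1 ((h6 q').2 hc)
        have h9 : b ≤ a + n := h8.2.2
        omega
      have hqx := h7 q rfl rfl
      have hqxy := (h6 q).1 hqm
      have hsplit : ∀ r : Pt P, r ∈ iv P s a b ↔ r ∈ iv P s a (a + n) ∨ r = q' := by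
        intro r
        rw [mem_iv, mem_iv]
        constructor
        · rintro ⟨b1, b2, b3⟩
          by_cases hc : r.1.val = b
          · right; exact Prod.ext (Fin.ext hc) b1
          · left; exact ⟨b1, b2, by omega⟩
        · rintro (⟨b1, b2, b3⟩ | b1)
          · exact ⟨b1, b2, by omega⟩
          · rw [b1]; exact ⟨rfl, by simp only [hq']; omega, by simp only [hq']; omega⟩
      have hCq' : pos q' ∉ C := hR.1 q' hqm'
      have key : ∀ x' y' : ℕ,
          (x' = x ∧ y' = y + 1 ∧ pos q' = y + 1 ∧ pos q = y) ∨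
          (x' + 1 = x ∧ y' = y ∧ pos q' + 1 = x ∧ pos q = x) →
          ∃ x y, x ≤ y ∧ y < Y.L ∧ Y.sh x = Y.sh y ∧ (∀ z, x ≤ z → z ≤ y → z ∉ C) ∧
          (∀ z, x ≤ z → z < y → z ∉ cut) ∧
          (∀ p : Pt P, p ∈ iv P s a b ↔ x ≤ pos p ∧ pos p ≤ y) ∧
          (∀ p : Pt P, p.2 = s → p.1.val = b → pos p = x ∨ pos p = y) := by
        intro x' y' hc
        refine ⟨x', y', by omega, ?_, ?_, ?_, ?_, ?_, ?_⟩
        · rcases hc with ⟨c1, c2, c3, c4⟩ | ⟨c1, c2, c3, c4⟩
          · rw [c2, ← c3]; exact hP.lt _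
          · rw [c2]; exact h2
        · rcases hc with ⟨c1, c2, c3, c4⟩ | ⟨c1, c2, c3, c4⟩
          · rw [c1, c2, ← c3, h3, ← c4]; exact hJ.1
          · have : x' = pos q' := by omega
            rw [c2, this, ← h3, ← c4]; exact hJ.1.symm
        · intro z z1 z2
          by_cases hz : x ≤ z ∧ z ≤ y
          · exact h4 z hz.1 hz.2
          · have : z = pos q' := by omega
            rw [this]; exact hCq'
        · intro z z1 z2
          by_cases hz : x ≤ z ∧ z < y
          · exact h5 z hz.1 hz.2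
          · rcases hJ.2 with ⟨j1, j2⟩ | ⟨j1, j2⟩
            · have : z = pos q := by omega
              rw [this]; exact j2
            · have : z = pos q' := by omega
              rw [this]; exact j2
        · intro p
          rw [hsplit p, h6 p]
          constructor
          · rintro (h8 | h8)
            · omega
            · rw [h8]; omega
          · intro h8
            by_cases hz : x ≤ pos p ∧ pos p ≤ y
            · exact Or.inl hz
            · right
              exact hP.inj (by omega)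
        · intro p p1 p2
          have : p = q' := Prod.ext (Fin.ext p2) p1
          rw [this]; omega
      rcases hJ.2 with ⟨j1, j2⟩ | ⟨j1, j2⟩
      · -- pos q' = pos q + 1
        refine key x (y + 1) (Or.inl ⟨rfl, rfl, ?_, ?_⟩) <;> omega
      · refine key (x - 1) y (Or.inr ⟨?_, rfl, ?_, ?_⟩) <;> omega
  obtain ⟨p0, hp0⟩ := hne
  have hm := mem_iv.1 hp0
  have hP0 := p0.1.2
  -- cut the interval at `P - 1`
  set b' := min b (P - 1) with hb'
  have hiv : ∀ p : Pt P, p ∈ iv P s a b ↔ p ∈ iv P s a b' := by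
    intro p
    have := p.1.2
    rw [mem_iv, mem_iv]
    constructor
    · rintro ⟨b1, b2, b3⟩; exact ⟨b1, b2, by omega⟩
    · rintro ⟨b1, b2, b3⟩; exact ⟨b1, b2, by omega⟩
  obtain ⟨x, y, h1, h2, h3, h4, h5, h6, -⟩ := main (b' - a) a b' (by omega) (by omega)
    ⟨fun p hp => h.1 p ((hiv p).2 hp), fun p p' hp hp' => h.2 p p' ((hiv p).2 hp) ((hiv p').2 hp')⟩
  exact ⟨x, y, h1, h2, h3, h4, h5, fun p => (hiv p).trans (h6 p)⟩

/-- a large set with few meetings has a large independent subset -/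
theorem indep {α : Type*} (E : Finset α) (meet : α → α → Prop)
    (hs : ∀ e f, meet e f → meet f e) (hr : ∀ e, meet e e) (c M : ℕ)
    (hc : ∀ e, e ∈ E → (E.filter (meet e)).card ≤ c) :
    E.card ≤ M * c ∨ ∃ F, F ⊆ E ∧ F.card = M ∧ ∀ e, e ∈ F → ∀ f, f ∈ F → e ≠ f → ¬ meet e f := by
  set Q : Finset α → Prop := fun F => ∀ e, e ∈ F → ∀ f, f ∈ F → e ≠ f → ¬ meet e f with hQ
  obtain ⟨F, hF, hmax⟩ := exists_max_image (E.powerset.filter Q) card
    ⟨∅, mem_filter.2 ⟨by simp, fun e he => absurd he (by simp)⟩⟩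
  rw [mem_filter, mem_powerset] at hF
  rcases Nat.lt_or_ge F.card M with h | h
  · left
    have h1 : E ⊆ F.biUnion (fun e => E.filter (meet e)) := by
      intro f hf
      rw [mem_biUnion]
      by_contra hcon
      push Not at hcon
      have hfF : f ∉ F := fun hc2 => by
        have := hcon f hc2
        rw [mem_filter] at this
        exact this ⟨hf, hr f⟩
      have h2 := hmax (insert f F) (by
        rw [mem_filter, mem_powerset]
        refine ⟨insert_subset hf hF.1, ?_⟩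
        intro e he g hg hne
        rw [mem_insert] at he hg
        rcases he with rfl | he
        · rcases hg with rfl | hg
          · exact absurd rfl hne
          · intro hm
            have := hcon g hg
            rw [mem_filter] at this
            exact this ⟨hf, hs _ _ hm⟩
        · rcases hg with rfl | hg
          · intro hm
            have := hcon e he
            rw [mem_filter] at this
            exact this ⟨hf, hm⟩
          · exact hF.2 e he g hg hne)
      rw [card_insert_of_notMem hfF] at h2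
      omega
    calc E.card ≤ (F.biUnion (fun e => E.filter (meet e))).card := card_le_card h1
      _ ≤ F.card * c := card_biUnion_le_card_mul _ _ _ (fun e he => hc e (hF.1 he))
      _ ≤ M * c := Nat.mul_le_mul_right c h.le
  · right
    obtain ⟨F', hF', hcard⟩ := exists_subset_card_eq h
    exact ⟨F', hF'.trans hF.1, hcard, fun e he f hf => hF.2 e (hF' he) f (hF' hf)⟩

/-- two contact pairs share a connector -/
def Meet {α : Type*} (e f : α × α) : Prop := e.1 = f.1 ∨ e.1 = f.2 ∨ e.2 = f.1 ∨ e.2 = f.2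

variable [Fintype κ] [Fintype V]

theorem card_lv1 (hP : Place Y pos B) (hS : Strips Y cut C φ M) {s : Bool} {a b : ℕ}
    (h : Res {p | pos p ∈ C} (Jn Y cut pos) s a b) :
    (lv1 (fun p : Pt P => Y.own (pos p)) s a b).card ≤ M := by
  by_cases hne : (iv P s a b).Nonempty
  swap
  · rw [not_nonempty_iff_eq_empty] at hne
    have : lv1 (fun p : Pt P => Y.own (pos p)) s a b = ∅ := by
      unfold lv1
      rw [hne]
      simp
    rw [this]; simp
  obtain ⟨x, y, h1, h2, h3, h4, h5, h6⟩ := res_line hP h hne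
  by_contra hcon
  push Not at hcon
  apply hS.res x y h1 h2 h3 h4 h5
  obtain ⟨F, hF, hcard⟩ := exists_subset_card_eq hcon.le
  have hpr : ∀ k : κ, ∃ p p' : Pt P, k ∈ F → p ∈ iv P s a b ∧ p' ∉ iv P s a b ∧
      Y.own (pos p) = k ∧ Y.own (pos p') = k := by
    intro k
    by_cases hk : k ∈ F
    · have h7 := hF hk
      simp only [lv1, mem_filter, mem_univ, true_and] at h7
      obtain ⟨⟨p, h8, h9⟩, p', h10, h11⟩ := h7
      exact ⟨p, p', fun _ => ⟨h8, h10, h9, h11⟩⟩
    · obtain ⟨p0, -⟩ := hne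
      exact ⟨p0, p0, fun hc => absurd hc hk⟩
  choose g g' hg using hpr
  have e : F ≃ Fin M := F.equivFinOfCardEq hcard
  refine ⟨fun i => if hi : i < M then pos (g (e.symm ⟨i, hi⟩)) else 0,
    fun i => if hi : i < M then pos (g' (e.symm ⟨i, hi⟩)) else 0, ?_, ?_⟩
  · intro i hi
    simp only [hi, dif_pos]
    have h7 := hg (e.symm ⟨i, hi⟩) (e.symm ⟨i, hi⟩).2
    have h8 := (h6 _).1 h7.1
    have h9 : ¬ (x ≤ pos (g' (e.symm ⟨i, hi⟩)) ∧ pos (g' (e.symm ⟨i, hi⟩)) ≤ y) :=
      fun hc => h7.2.1 ((h6 _).2 hc)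
    refine ⟨h8.1, h8.2, h9, hP.lt _, hP.lt _, ?_, Or.inl (h7.2.2.1.trans h7.2.2.2.symm)⟩
    intro hc
    rw [← hc] at h9
    exact h9 h8
  · intro i hi j hj hij u hu v hv
    simp only [hi, hj, dif_pos, List.mem_cons, List.not_mem_nil, or_false] at hu hv
    have h7 := hg (e.symm ⟨i, hi⟩) (e.symm ⟨i, hi⟩).2
    have h8 := hg (e.symm ⟨j, hj⟩) (e.symm ⟨j, hj⟩).2
    have hne2 : ((e.symm ⟨i, hi⟩ : F) : κ) ≠ ((e.symm ⟨j, hj⟩ : F) : κ) := by
      intro hc
      have := e.symm.injective (Subtype.ext hc)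
      simp only [Fin.mk.injEq] at this
      exact hij this
    rcases hu with hu | hu <;> rcases hv with hv | hv <;> rw [hu, hv]
    · rw [h7.2.2.1, h8.2.2.1]; exact hne2
    · rw [h7.2.2.1, h8.2.2.2]; exact hne2
    · rw [h7.2.2.2, h8.2.2.1]; exact hne2
    · rw [h7.2.2.2, h8.2.2.2]; exact hne2

theorem card_lv2 (hY : Y.Ax D) (hP : Place Y pos B) (hS : Strips Y cut C φ M) {s : Bool}
    {a b : ℕ} (h : Res {p | pos p ∈ C} (Jn Y cut pos) s a b) :
    (lv2 (fun p : Pt P => Y.own (pos p)) Y.ct s a b).card ≤ M * (4 * D) := by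
  by_cases hne : (iv P s a b).Nonempty
  swap
  · rw [not_nonempty_iff_eq_empty] at hne
    have : lv2 (fun p : Pt P => Y.own (pos p)) Y.ct s a b = ∅ := by
      unfold lv2
      rw [hne]
      simp
    rw [this]; simp
  obtain ⟨x, y, h1, h2, h3, h4, h5, h6⟩ := res_line hP h hne
  set E := lv2 (fun p : Pt P => Y.own (pos p)) Y.ct s a b with hE
  have hEct : ∀ e, e ∈ E → Y.ct e.1 e.2 := by
    intro e he
    simp only [hE, lv2, mem_filter, mem_univ, true_and] at he
    exact he.1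
  have hcnt : ∀ k : κ, (E.filter (fun f => f.1 = k)).card ≤ D ∧
      (E.filter (fun f => f.2 = k)).card ≤ D := by
    intro k
    constructor
    · have h7 : ((E.filter (fun f => f.1 = k)).image Prod.snd).card ≤ D := by
        refine hY.a6 k _ ?_
        intro k' hk'
        rw [mem_image] at hk'
        obtain ⟨f, hf, rfl⟩ := hk'
        rw [mem_filter] at hf
        rw [← hf.2]
        exact hEct f hf.1
      rwa [card_image_of_injOn] at h7
      rintro ⟨f1, f2⟩ hf ⟨g1, g2⟩ hg he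
      simp only [coe_filter, Set.mem_ofPred_eq] at hf hg he
      rw [hf.2, hg.2, he]
    · have h7 : ((E.filter (fun f => f.2 = k)).image Prod.fst).card ≤ D := by
        refine hY.a6 k _ ?_
        intro k' hk'
        rw [mem_image] at hk'
        obtain ⟨f, hf, rfl⟩ := hk'
        rw [mem_filter] at hf
        rw [← hf.2]
        exact hY.symm _ _ (hEct f hf.1)
      rwa [card_image_of_injOn] at h7
      rintro ⟨f1, f2⟩ hf ⟨g1, g2⟩ hg he
      simp only [coe_filter, Set.mem_ofPred_eq] at hf hg he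
      rw [hf.2, hg.2, he]
  rcases indep E Meet
    (by
      intro e f hef
      rcases hef with h | h | h | h
      · exact Or.inl h.symm
      · exact Or.inr (Or.inr (Or.inl h.symm))
      · exact Or.inr (Or.inl h.symm)
      · exact Or.inr (Or.inr (Or.inr h.symm)))
    (fun e => Or.inl rfl) (4 * D) M
    (by
      intro e he
      have h7 : (E.filter (Meet e)) ⊆
          ((E.filter (fun f => f.1 = e.1)) ∪ (E.filter (fun f => f.2 = e.1))) ∪
          ((E.filter (fun f => f.1 = e.2)) ∪ (E.filter (fun f => f.2 = e.2))) := by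
        intro f hf
        simp only [mem_union, mem_filter, Meet] at hf ⊢
        obtain ⟨hf1, h | h | h | h⟩ := hf
        · exact Or.inl (Or.inl ⟨hf1, h.symm⟩)
        · exact Or.inl (Or.inr ⟨hf1, h.symm⟩)
        · exact Or.inr (Or.inl ⟨hf1, h.symm⟩)
        · exact Or.inr (Or.inr ⟨hf1, h.symm⟩)
      have h8 := card_le_card h7
      have h9 := card_union_le ((E.filter (fun f => f.1 = e.1)) ∪ (E.filter (fun f => f.2 = e.1)))
        ((E.filter (fun f => f.1 = e.2)) ∪ (E.filter (fun f => f.2 = e.2)))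
      have h10 := card_union_le (E.filter (fun f => f.1 = e.1)) (E.filter (fun f => f.2 = e.1))
      have h11 := card_union_le (E.filter (fun f => f.1 = e.2)) (E.filter (fun f => f.2 = e.2))
      have h12 := hcnt e.1
      have h13 := hcnt e.2
      have h14 := h10.trans (Nat.add_le_add h12.1 h12.2)
      have h15 := h11.trans (Nat.add_le_add h13.1 h13.2)
      have h16 := h8.trans (h9.trans (Nat.add_le_add h14 h15))
      have h17 : D + D + (D + D) = 4 * D := by ring
      rw [h17] at h16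
      exact h16) with h7 | ⟨F, hF, hcard, hFi⟩
  · exact h7
  · exfalso
    apply hS.res x y h1 h2 h3 h4 h5
    have hpr : ∀ k : κ × κ, ∃ p p' : Pt P, k ∈ F → p ∈ iv P s a b ∧ p' ∉ iv P s a b ∧
        Y.own (pos p) = k.1 ∧ Y.own (pos p') = k.2 ∧ Y.ct k.1 k.2 := by
      intro k
      by_cases hk : k ∈ F
      · have h7 := hF hk
        simp only [hE, lv2, mem_filter, mem_univ, true_and] at h7
        obtain ⟨h8, ⟨p, h9, h10⟩, h11⟩ := h7
        obtain ⟨z, hz, hzo⟩ := hY.a4 _ _ h8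
        obtain ⟨p', rfl⟩ := hP.surj z hz
        refine ⟨p, p', fun _ => ⟨h9, ?_, h10, hzo, h8⟩⟩
        intro hc
        exact h11 p' hc hzo
      · obtain ⟨p0, -⟩ := hne
        exact ⟨p0, p0, fun hc => absurd hc hk⟩
    choose g g' hg using hpr
    have e : F ≃ Fin M := F.equivFinOfCardEq hcard
    refine ⟨fun i => if hi : i < M then pos (g (e.symm ⟨i, hi⟩)) else 0,
      fun i => if hi : i < M then pos (g' (e.symm ⟨i, hi⟩)) else 0, ?_, ?_⟩
    · intro i hi
      simp only [hi, dif_pos]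
      have h7 := hg (e.symm ⟨i, hi⟩) (e.symm ⟨i, hi⟩).2
      have h8 := (h6 _).1 h7.1
      have h9 : ¬ (x ≤ pos (g' (e.symm ⟨i, hi⟩)) ∧ pos (g' (e.symm ⟨i, hi⟩)) ≤ y) :=
        fun hc => h7.2.1 ((h6 _).2 hc)
      refine ⟨h8.1, h8.2, h9, hP.lt _, hP.lt _, ?_, Or.inr ?_⟩
      · intro hc
        rw [← hc] at h9
        exact h9 h8
      · rw [h7.2.2.1, h7.2.2.2.1]
        exact h7.2.2.2.2
    · intro i hi j hj hij u hu v hv
      simp only [hi, hj, dif_pos, List.mem_cons, List.not_mem_nil, or_false] at hu hv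
      have h7 := hg (e.symm ⟨i, hi⟩) (e.symm ⟨i, hi⟩).2
      have h8 := hg (e.symm ⟨j, hj⟩) (e.symm ⟨j, hj⟩).2
      have hne2 : ((e.symm ⟨i, hi⟩ : F) : κ × κ) ≠ ((e.symm ⟨j, hj⟩ : F) : κ × κ) := by
        intro hc
        have := e.symm.injective (Subtype.ext hc)
        simp only [Fin.mk.injEq] at this
        exact hij this
      have h9 := hFi _ (e.symm ⟨i, hi⟩).2 _ (e.symm ⟨j, hj⟩).2 hne2
      unfold Meet at h9
      push Not at h9
      rcases hu with hu | hu <;> rcases hv with hv | hv <;> rw [hu, hv]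
      · rw [h7.2.2.1, h8.2.2.1]; exact h9.1
      · rw [h7.2.2.1, h8.2.2.2.1]; exact h9.2.1
      · rw [h7.2.2.2.1, h8.2.2.1]; exact h9.2.2.1
      · rw [h7.2.2.2.1, h8.2.2.2.1]; exact h9.2.2.2

/-- **II.3 + module I + isoperimetry.** -/
theorem glue {d Δ f : ℕ} (hY : Y.Ax D) (hP : Place Y pos B) (hS : Strips Y cut C φ M)
    (hG : Mem Y pos G mem)
    (hd : ∀ y, (univ.filter (fun z => G.Adj y z)).card ≤ d)
    (hΔ : ∀ k, (univ.filter (fun y => mem y k) : Finset V).card ≤ Δ)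
    (hiso : ∀ A : Finset V, (univ.filter (fun x : V × V => G.Adj x.1 x.2 ∧ x.1 ∈ A ∧
      x.2 ∉ A)).card ≤ (M * (4 * D + 1) + M * (4 * D + 1)) * Δ * d +
        (M * (4 * D + 1) + M * (4 * D + 1)) * (Δ * Δ) + 4 * Δ * d →
      A.card ≤ f ∨ Aᶜ.card ≤ f) :
    Fintype.card V ≤ 2 * f + 2 * Δ ∨
      Fintype.card V ≤ (2 + ((B + 2 * cut.card) + (B + 2 * cut.card))) *
        (f + (M * (4 * D + 1) + M * (4 * D + 1)) * Δ) := by
  refine sweep (sys hP hS hG) hd hΔ (card_cut hP) ?_ ?_ hiso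
  · intro s a b h
    refine (card_lv1 hP hS h).trans ?_
    exact Nat.le_mul_of_pos_right M (by omega)
  · intro s a b h
    refine (card_lv2 hY hP hS h).trans ?_
    exact Nat.mul_le_mul_left M (by omega)

end EN.GlueS
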