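import Pool.Agent.EN.StripDefs
import Pool.Agent.EN.GlueS

/-!
T7 of II.3 (T-star): from the core theorem (few disjoint bad intervals) to strips and residual
intervals.
-/

set_option autoImplicit false

open Finset
open scoped Classical

namespace EN.Part

variable {κ : Type*} (Y : EN.Sys κ)

/-- a family of disjoint links that leave `[a, b]` -/
def Lv (F : Finset (ℕ × ℕ)) (a b : ℕ) : Prop :=
  (∀ e, e ∈ F → a ≤ e.1 ∧ e.1 ≤ b ∧ (e.2 < a ∨ b < e.2) ∧ Y.Lk e.1 e.2) ∧
    ∀ e, e ∈ F → ∀ f, f ∈ F → e ≠ f → Y.Dj [e.1, e.2] [f.1, f.2]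

variable {Y}

theorem Dj_pair {x y x' y' : ℕ} (h1 : Y.own x ≠ Y.own x') (h2 : Y.own x ≠ Y.own y')
    (h3 : Y.own y ≠ Y.own x') (h4 : Y.own y ≠ Y.own y') : Y.Dj [x, y] [x', y'] := by
  intro u hu v hv
  simp only [List.mem_cons, List.not_mem_nil, or_false] at hu hv
  rcases hu with rfl | rfl <;> rcases hv with rfl | rfl <;> assumption

theorem Dj_fst {x y x' y' : ℕ} (h : Y.Dj [x, y] [x', y']) : Y.own x ≠ Y.own x' ∧
    Y.own x ≠ Y.own y' ∧ Y.own y ≠ Y.own x' ∧ Y.own y ≠ Y.own y' :=
  ⟨h x (by simp) x' (by simp), h x (by simp) y' (by simp), h y (by simp) x' (by simp),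
    h y (by simp) y' (by simp)⟩

theorem thick_of_lv {F : Finset (ℕ × ℕ)} {a b M : ℕ} (h : Lv Y F a b) (hM : M ≤ F.card) :
    Y.Thick M a b := by
  obtain ⟨F', hF', hcard⟩ := exists_subset_card_eq hM
  have e : F' ≃ Fin M := F'.equivFinOfCardEq hcard
  refine ⟨fun k => if hk : k < M then (e.symm ⟨k, hk⟩ : ℕ × ℕ).1 else 0,
    fun k => if hk : k < M then (e.symm ⟨k, hk⟩ : ℕ × ℕ).2 else 0, ?_, ?_⟩
  · intro k hk
    simp only [hk, dif_pos]
    exact h.1 _ (hF' (e.symm ⟨k, hk⟩).2)
  · intro i hi j hj hij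
    simp only [hi, hj, dif_pos]
    refine h.2 _ (hF' (e.symm ⟨i, hi⟩).2) _ (hF' (e.symm ⟨j, hj⟩).2) ?_
    intro hc
    have := e.symm.injective (Subtype.ext hc)
    simp only [Fin.mk.injEq] at this
    exact hij this

theorem lv_of_thick {a b M : ℕ} (h : Y.Thick M a b) :
    ∃ F : Finset (ℕ × ℕ), F.card = M ∧ Lv Y F a b := by
  obtain ⟨u, v, h1, h2⟩ := h
  have hinj : Set.InjOn (fun k => (u k, v k)) (range M : Set ℕ) := by
    intro i hi j hj hij
    simp only [coe_range, Set.mem_Iio] at hi hj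
    by_contra hne
    have := (Dj_fst (h2 i hi j hj hne)).1
    simp only [Prod.mk.injEq] at hij
    exact this (by rw [hij.1])
  refine ⟨(range M).image (fun k => (u k, v k)), ?_, ?_, ?_⟩
  · rw [card_image_of_injOn hinj, card_range]
  · intro e he
    rw [mem_image] at he
    obtain ⟨k, hk, rfl⟩ := he
    exact h1 k (mem_range.1 hk)
  · intro e he f hf hne
    rw [mem_image] at he hf
    obtain ⟨i, hi, rfl⟩ := he
    obtain ⟨j, hj, rfl⟩ := hf
    exact h2 i (mem_range.1 hi) j (mem_range.1 hj) (fun hc => hne (by rw [hc]))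

theorem Thick.mono {a b M M' : ℕ} (h : Y.Thick M a b) (hM : M' ≤ M) : Y.Thick M' a b := by
  obtain ⟨F, hF, hL⟩ := lv_of_thick h
  exact thick_of_lv hL (by omega)

/-! ### clean pairs -/

theorem Pr.symm {x y : ℕ} (h : Y.Pr x y) : Y.Pr y x := by
  rcases h with h | h | h
  · left
    exact ⟨h.yL, h.xL, h.ne.symm, h.own.symm,
      fun z hz hzy => (h.only z hz (hzy.trans h.own.symm)).symm,
      fun k hk => h.noct k (by rw [h.own]; exact hk), fun hg => h.ngr (by rw [h.own]; exact hg)⟩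
  · exact Or.inr (Or.inr h)
  · exact Or.inr (Or.inl h)

theorem ZP.uL {u w : ℕ} (h : Y.ZP u w) : u < Y.L ∧ w < Y.L :=
  ⟨by have := h.uw; have := h.wL; omega, by have := h.wL; omega⟩

theorem Pr.lt {x y : ℕ} (h : Y.Pr x y) : x < Y.L := by
  rcases h with h | h | h
  · exact h.xL
  · exact (ZP.uL h).1
  · exact (ZP.uL h).2

theorem Pr.two {x y : ℕ} (h : Y.Pr x y) {z : ℕ} (hz : z < Y.L) (he : Y.own z = Y.own x) :
    z = x ∨ z = y := by
  rcases h with h | h | h
  · exact h.only z hz he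
  · exact Or.inl (h.pu z hz he)
  · exact Or.inl (h.pw z hz he)

theorem Pr.ngr {x y : ℕ} (h : Y.Pr x y) : ¬ Y.gr (Y.own x) := by
  rcases h with h | h | h
  · exact h.ngr
  · exact h.ngu
  · exact h.ngw

theorem Pr.noct {x y : ℕ} (h : Y.Pr x y) {k : κ} (hk : Y.ct (Y.own x) k) : k = Y.own y ∨
    ∃ p, p < Y.L ∧ Y.sh p = Y.sh y ∧ (p = y + 1 ∨ p + 1 = y) ∧ k = Y.own p := by
  rcases h with h | h | h
  · exact absurd hk (h.noct k)
  · rcases (h.cu k).1 hk with h1 | h1
    · exact Or.inl h1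
    · exact Or.inr ⟨y + 1, h.wL, h.shw', Or.inl rfl, h1⟩
  · obtain ⟨u', h1, h2, h3, h4, -, -⟩ := h.cw
    rcases (h4 k).1 hk with h5 | h5
    · exact Or.inl h5
    · exact Or.inr ⟨u', h2, h3, h1.symm, h5⟩

theorem Pr.ne {x y : ℕ} (h : Y.Pr x y) : x ≠ y := by
  rcases h with h | h | h
  · exact h.ne
  · exact h.uw.ne
  · exact h.uw.ne'

theorem Pr.link {x y : ℕ} (h : Y.Pr x y) : Y.Lk x y := by
  refine ⟨Pr.lt h, Pr.lt (Pr.symm h), Pr.ne h, ?_⟩
  rcases h with h | h | h
  · exact Or.inl h.own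
  · exact Or.inr ((h.cu _).2 (Or.inl rfl))
  · obtain ⟨u', -, -, -, h4, -, -⟩ := h.cw
    exact Or.inr ((h4 _).2 (Or.inl rfl))

theorem Pr.unique {x y y' : ℕ} (h : Y.Pr x y) (h' : Y.Pr x y') : y = y' := by
  rcases h with h | h | h
  · rcases h' with h' | h' | h'
    · rcases h.only y' h'.yL h'.own.symm with h1 | h1
      · exact absurd h1.symm h'.ne
      · exact h1.symm
    · exact absurd ((h'.cu _).2 (Or.inl rfl)) (h.noct _)
    · obtain ⟨u', -, -, -, h4, -, -⟩ := h'.cw
      exact absurd ((h4 _).2 (Or.inl rfl)) (h.noct _)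
  · rcases h' with h' | h' | h'
    · exact absurd ((h.cu _).2 (Or.inl rfl)) (h'.noct _)
    · -- x < y, x < y'
      have h1 := (h.cu _).1 ((h'.cu _).2 (Or.inl rfl))
      have h2 := (h'.cu _).1 ((h.cu _).2 (Or.inl rfl))
      rcases h1 with h1 | h1
      · exact (h.pw y' (ZP.uL h').2 h1).symm
      · have e1 : y' = y + 1 := h.pw2 y' (ZP.uL h').2 h1
        rcases h2 with h2 | h2
        · exact h'.pw y (ZP.uL h).2 h2
        · have e2 : y = y' + 1 := h'.pw2 y (ZP.uL h).2 h2
          omega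
    · -- x < y, y' < x
      obtain ⟨u', -, -, -, h4, -, -⟩ := h'.cw
      have h1 := (h.cu _).1 ((h4 _).2 (Or.inl rfl))
      have := h.uw
      have := h'.uw
      rcases h1 with h1 | h1
      · have := h.pw y' (ZP.uL h').1 h1
        omega
      · have := h.pw2 y' (ZP.uL h').1 h1
        omega
  · rcases h' with h' | h' | h'
    · obtain ⟨u', -, -, -, h4, -, -⟩ := h.cw
      exact absurd ((h4 _).2 (Or.inl rfl)) (h'.noct _)
    · obtain ⟨u', -, -, -, h4, -, -⟩ := h.cw
      have h1 := (h'.cu _).1 ((h4 _).2 (Or.inl rfl))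
      have := h.uw
      have := h'.uw
      rcases h1 with h1 | h1
      · have := h'.pw y (ZP.uL h).1 h1
        omega
      · have := h'.pw2 y (ZP.uL h).1 h1
        omega
    · -- y < x, y' < x
      obtain ⟨u, h1, h2, h3, h4, h5, h6⟩ := h.cw
      have e1 := (h4 _).1 ((by
        obtain ⟨u', -, -, -, h4', -, -⟩ := h'.cw
        exact (h4' _).2 (Or.inl rfl)) : Y.ct (Y.own x) (Y.own y'))
      rcases e1 with e1 | e1
      · exact (h.pu y' (ZP.uL h').1 e1).symm
      · -- own y' = own u, contacts of own y' are own x, own (x + 1)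
        exfalso
        have e2 : Y.ct (Y.own y') (Y.own (x - 1)) := by rw [e1]; exact h5
        have hx1 := h.w1
        have hxL := h.wL
        rcases (h'.cu _).1 e2 with e3 | e3
        · have := h.pw (x - 1) (by omega) e3
          omega
        · have := h.pw2 (x - 1) (by omega) e3
          omega

theorem Pr.dj {x y x' y' : ℕ} (h : Y.Pr x y) (h' : Y.Pr x' y') (h1 : x' ≠ x) (h2 : x' ≠ y)
    (h3 : y' ≠ x) (h4 : y' ≠ y) : Y.Dj [x, y] [x', y'] := by
  have hs := Pr.symm h
  have hs' := Pr.symm h'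
  refine Dj_pair ?_ ?_ ?_ ?_
  · intro hc
    rcases Pr.two h (Pr.lt h') hc.symm with h5 | h5
    · exact h1 h5
    · exact h2 h5
  · intro hc
    rcases Pr.two h (Pr.lt hs') hc.symm with h5 | h5
    · exact h3 h5
    · exact h4 h5
  · intro hc
    rcases Pr.two hs (Pr.lt h') hc.symm with h5 | h5
    · exact h2 h5
    · exact h1 h5
  · intro hc
    rcases Pr.two hs (Pr.lt hs') hc.symm with h5 | h5
    · exact h4 h5
    · exact h3 h5

/-- the partner -/
noncomputable def pf (Y : EN.Sys κ) (x : ℕ) : ℕ := if h : ∃ y, Y.Pr x y then h.choose else x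

theorem pf_eq {x y : ℕ} (h : Y.Pr x y) : pf Y x = y := by
  have h1 : ∃ y, Y.Pr x y := ⟨y, h⟩
  unfold pf
  rw [dif_pos h1]
  exact Pr.unique h1.choose_spec h

/-! ### blocks -/

/-- the first port of the block of `x` -/
noncomputable def blk (Y : EN.Sys κ) (M : ℕ) : ℕ → ℕ
  | 0 => 0
  | (x + 1) => if Y.sh (x + 1) ≠ Y.sh x ∨ Y.Thick M (blk Y M x) x then x + 1 else blk Y M x

variable {M : ℕ}

theorem blk_succ (x : ℕ) : (blk Y M (x + 1) = x + 1) ∨
    (blk Y M (x + 1) = blk Y M x ∧ Y.sh (x + 1) = Y.sh x ∧ ¬ Y.Thick M (blk Y M x) x) := by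
  by_cases h : Y.sh (x + 1) ≠ Y.sh x ∨ Y.Thick M (blk Y M x) x
  · left
    rw [blk, if_pos h]
  · right
    refine ⟨by rw [blk, if_neg h], ?_, fun hc => h (Or.inr hc)⟩
    by_contra hc
    exact h (Or.inl hc)

theorem blk_le (x : ℕ) : blk Y M x ≤ x := by
  induction x with
  | zero => exact le_refl _
  | succ x ih =>
    rcases blk_succ (Y := Y) (M := M) x with h | ⟨h, -, -⟩
    · rw [h]
    · rw [h]; omega

theorem blk_mid {x z : ℕ} (h1 : blk Y M x ≤ z) (h2 : z ≤ x) : blk Y M z = blk Y M x := by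
  induction x with
  | zero =>
    have : z = 0 := by omega
    rw [this]
  | succ x ih =>
    by_cases hz : z = x + 1
    · rw [hz]
    · rcases blk_succ (Y := Y) (M := M) x with h | ⟨h, -, -⟩
      · rw [h] at h1; omega
      · rw [h] at h1 ⊢
        exact ih h1 (by omega)

theorem blk_blk (x : ℕ) : blk Y M (blk Y M x) = blk Y M x := blk_mid (le_refl _) (blk_le x)

theorem sh_blk {x z : ℕ} (h1 : blk Y M x ≤ z) (h2 : z ≤ x) : Y.sh z = Y.sh x := by
  induction x with
  | zero =>
    have : z = 0 := by omega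
    rw [this]
  | succ x ih =>
    by_cases hz : z = x + 1
    · rw [hz]
    · rcases blk_succ (Y := Y) (M := M) x with h | ⟨h, h3, -⟩
      · rw [h] at h1; omega
      · rw [h] at h1
        rw [ih h1 (by omega), h3]

/-- in the same block -/
theorem same_step {x : ℕ} (h : blk Y M (x + 1) = blk Y M x) :
    Y.sh (x + 1) = Y.sh x ∧ ¬ Y.Thick M (blk Y M x) x := by
  rcases blk_succ (Y := Y) (M := M) x with h1 | ⟨-, h2, h3⟩
  · have := blk_le (Y := Y) (M := M) x
    rw [h1] at h; omega
  · exact ⟨h2, h3⟩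

theorem nt (hM : 1 ≤ M) (z : ℕ) : ¬ Y.Thick (M + 1) (blk Y M z) z := by
  intro hT
  obtain ⟨F, hF, hL⟩ := lv_of_thick hT
  by_cases hz : blk Y M z = z
  · -- one port only
    have h1 : F.card ≤ 1 := by
      rw [card_le_one]
      intro e he f hf
      by_contra hne
      have h2 := (Dj_fst (hL.2 e he f hf hne)).1
      have h3 := hL.1 e he
      have h4 := hL.1 f hf
      rw [hz] at h3 h4
      exact h2 (by rw [show e.1 = f.1 by omega])
    omega
  · obtain ⟨x, rfl⟩ : ∃ x, z = x + 1 := ⟨z - 1, by have := blk_le (Y := Y) (M := M) z; omega⟩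
    rcases blk_succ (Y := Y) (M := M) x with h | ⟨h, h2, h3⟩
    · exact hz h
    · apply h3
      rw [h] at hL
      have hsub : ((F.filter (fun e => e.1 = x + 1))).card ≤ 1 := by
        rw [card_le_one]
        intro e he f hf
        rw [mem_filter] at he hf
        by_contra hne
        have h2 := (Dj_fst (hL.2 e he.1 f hf.1 hne)).1
        exact h2 (by rw [he.2, hf.2])
      have hsum := card_filter_add_card_filter_not (s := F) (fun e => e.1 = x + 1)
      refine thick_of_lv (F := F.filter (fun e => ¬ e.1 = x + 1)) ⟨?_, ?_⟩ (by omega)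
      · intro e he
        rw [mem_filter] at he
        have h4 := hL.1 e he.1
        exact ⟨h4.1, by omega, by omega, h4.2.2.2⟩
      · intro e he f hf
        rw [mem_filter] at he hf
        exact hL.2 e he.1 f hf.1

/-- leaving links of a subinterval of a block -/
theorem sub_lv (hsym : ∀ k k', Y.ct k k' → Y.ct k' k) (hM : 1 ≤ M) {x y : ℕ} (hxy : x ≤ y) (hb : blk Y M x = blk Y M y)
    {F : Finset (ℕ × ℕ)} (hF : Lv Y F x y) : F.card < 2 * M := by
  set s := blk Y M x with hs
  set F1 := F.filter (fun e => s ≤ e.2 ∧ e.2 < x) with hF1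
  set F2 := F.filter (fun e => ¬ (s ≤ e.2 ∧ e.2 < x)) with hF2
  have hsum : F1.card + F2.card = F.card := card_filter_add_card_filter_not _
  have hsx : s ≤ x := blk_le x
  have h2 : F2.card ≤ M := by
    by_contra hcon
    push Not at hcon
    refine nt (Y := Y) hM y ?_
    rw [← hb]
    refine thick_of_lv (F := F2) ⟨?_, ?_⟩ hcon
    · intro e he
      rw [hF2, mem_filter] at he
      have h4 := hF.1 e he.1
      exact ⟨by omega, h4.2.1, by omega, h4.2.2.2⟩
    · intro e he f hf
      rw [hF2, mem_filter] at he hf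
      exact hF.2 e he.1 f hf.1
  have h1 : F1.card < M := by
    by_contra hcon
    push Not at hcon
    have hne : F1.Nonempty := card_pos.1 (by omega)
    obtain ⟨e0, he0⟩ := hne
    rw [hF1, mem_filter] at he0
    obtain ⟨x', rfl⟩ : ∃ x', x = x' + 1 := ⟨x - 1, by omega⟩
    have hb2 : blk Y M x' = s := by
      rw [hs]; exact blk_mid (by omega) (by omega)
    have hst := same_step (Y := Y) (M := M) (x := x') (by rw [hb2])
    apply hst.2
    rw [hb2]
    have hinj : Set.InjOn Prod.swap (F1 : Set (ℕ × ℕ)) :=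
      fun a _ b _ h => Prod.swap_injective h
    refine thick_of_lv (F := F1.image Prod.swap) ⟨?_, ?_⟩
      (by rw [card_image_of_injOn hinj]; exact hcon)
    · intro e he
      rw [mem_image] at he
      obtain ⟨f, hf, rfl⟩ := he
      rw [hF1, mem_filter] at hf
      have h4 := hF.1 f hf.1
      refine ⟨hf.2.1, by simp only [Prod.fst_swap]; omega, ?_, ?_⟩
      · right; simp only [Prod.snd_swap]; omega
      · obtain ⟨l1, l2, l3, l4⟩ := h4.2.2.2
        refine ⟨l2, l1, l3.symm, ?_⟩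
        simp only [Prod.fst_swap, Prod.snd_swap]
        rcases l4 with l4 | l4
        · exact Or.inl l4.symm
        · exact Or.inr (hsym _ _ l4)
    · intro e he g hg hne
      rw [mem_image] at he hg
      obtain ⟨f, hf, rfl⟩ := he
      obtain ⟨g', hg', rfl⟩ := hg
      rw [hF1, mem_filter] at hf hg'
      have h5 := Dj_fst (hF.2 f hf.1 g' hg'.1 (fun hc => hne (by rw [hc])))
      exact Dj_pair h5.2.2.2 h5.2.2.1 h5.2.1 h5.1
  omega

/-! ### ends of blocks -/

/-- the last port of the block of `x` -/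
noncomputable def en (Y : EN.Sys κ) (M x : ℕ) : ℕ :=
  Nat.findGreatest (fun z => blk Y M z = blk Y M x) (Y.L - 1)

theorem en_spec {x : ℕ} (hx : x < Y.L) : blk Y M (en Y M x) = blk Y M x ∧ x ≤ en Y M x ∧
    en Y M x < Y.L := by
  have h1 : x ≤ Y.L - 1 := by omega
  refine ⟨?_, ?_, ?_⟩
  · exact Nat.findGreatest_spec (P := fun z => blk Y M z = blk Y M x) h1 rfl
  · exact Nat.le_findGreatest (P := fun z => blk Y M z = blk Y M x) h1 rfl
  · have := Nat.findGreatest_le (P := fun z => blk Y M z = blk Y M x) (Y.L - 1)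
    unfold en
    omega

theorem en_congr {x z : ℕ} (h : blk Y M z = blk Y M x) : en Y M z = en Y M x := by
  unfold en
  rw [h]

theorem en_succ {x : ℕ} (hx : x < Y.L) (h : en Y M x + 1 < Y.L) :
    blk Y M (en Y M x + 1) = en Y M x + 1 := by
  rcases blk_succ (Y := Y) (M := M) (en Y M x) with h1 | ⟨h1, -, -⟩
  · exact h1
  · exfalso
    have h2 := (en_spec (M := M) hx).1
    have h3 : en Y M x + 1 ≤ en Y M x :=
      Nat.le_findGreatest (P := fun z => blk Y M z = blk Y M x) (by omega) (h1.trans h2)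
    omega

/-- ports between the start and the end of a block are in the block -/
theorem mid_en {x z : ℕ} (hx : x < Y.L) (h1 : blk Y M x ≤ z) (h2 : z ≤ en Y M x) :
    blk Y M z = blk Y M x := by
  have h3 := (en_spec (M := M) hx).1
  rw [← h3] at h1 ⊢
  exact blk_mid h1 h2

theorem start_lt {x s : ℕ} (hx : x < Y.L) (hs : blk Y M s = s) (h : blk Y M x < s) :
    en Y M x < s := by
  by_contra hc
  push Not at hc
  have := mid_en hx h.le hc
  omega

/-- good blocks -/
def Gd (Y : EN.Sys κ) (M x : ℕ) : Prop :=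
  Y.Thick M (blk Y M x) (en Y M x) ∧ Y.Clean (blk Y M x) (en Y M x)

theorem Gd_congr {x z : ℕ} (h : blk Y M z = blk Y M x) : Gd Y M z ↔ Gd Y M x := by
  unfold Gd
  rw [h, en_congr h]

/-- ports of good blocks -/
def Cl0 (Y : EN.Sys κ) (M x : ℕ) : Prop := x < Y.L ∧ Gd Y M x

theorem Cl0.pr {x : ℕ} (h : Cl0 Y M x) : Y.Pr x (pf Y x) := by
  obtain ⟨y, hy⟩ := h.2.2.1 x (blk_le x) (en_spec h.1).2.1
  rw [pf_eq hy]
  exact hy

/-- clean ports -/
def Cl (Y : EN.Sys κ) (M x : ℕ) : Prop := Cl0 Y M x ∧ Cl0 Y M (pf Y x)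

theorem Cl.pr {x : ℕ} (h : Cl Y M x) : Y.Pr x (pf Y x) := h.1.pr

theorem Cl.pf_pf {x : ℕ} (h : Cl Y M x) : pf Y (pf Y x) = x := pf_eq (Pr.symm h.pr)

theorem Cl.symm {x : ℕ} (h : Cl Y M x) : Cl Y M (pf Y x) := by
  refine ⟨h.2, ?_⟩
  rw [h.pf_pf]
  exact h.1

/-- joined neighbours (clean) -/
def Jc (Y : EN.Sys κ) (M x : ℕ) : Prop :=
  Cl Y M x ∧ Cl Y M (x + 1) ∧ Y.sh x = Y.sh (x + 1) ∧ Y.sh (pf Y x) = Y.sh (pf Y (x + 1)) ∧
    (pf Y (x + 1) = pf Y x + 1 ∨ pf Y x = pf Y (x + 1) + 1)

/-- joined neighbours (residual) -/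
def Jr (Y : EN.Sys κ) (M x : ℕ) : Prop :=
  ¬ Cl Y M x ∧ ¬ Cl Y M (x + 1) ∧ blk Y M (x + 1) = blk Y M x

/-- the cuts -/
noncomputable def cut (Y : EN.Sys κ) (M : ℕ) : Finset ℕ :=
  (range Y.L).filter (fun x => x + 1 < Y.L ∧ ¬ Jc Y M x ∧ ¬ Jr Y M x)

theorem not_cut {x : ℕ} (h1 : x + 1 < Y.L) (h2 : x ∉ cut Y M) : Jc Y M x ∨ Jr Y M x := by
  by_contra hc
  push Not at hc
  apply h2
  rw [cut, mem_filter]
  exact ⟨mem_range.2 (by omega), h1, hc.1, hc.2⟩

theorem strips {D : ℕ} (hY : Y.Ax D) (hM : 1 ≤ M) :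
    GlueS.Strips Y (cut Y M) {x | Cl Y M x} (pf Y) (2 * M) where
  lt := fun x hx => hx.1.1
  memC := fun x hx => hx.symm
  inv := fun x hx => hx.pf_pf
  const := by
    intro x h1 _ h3
    rcases not_cut h1 h3 with h | h
    · exact ⟨fun _ => h.2.1, fun _ => h.1⟩
    · exact ⟨fun hc => absurd hc h.1, fun hc => absurd hc h.2.1⟩
  step := by
    intro x h1 _ h3 hx
    rcases not_cut h1 h3 with h | h
    · obtain ⟨c1, c2, c3, c4, c5⟩ := h
      rcases c5 with c5 | c5
      · left
        refine ⟨c5, by rw [← c5]; exact c4, ?_⟩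
        intro hc
        rw [cut, mem_filter] at hc
        apply hc.2.2.1
        refine ⟨c1.symm, by rw [← c5]; exact c2.symm, by rw [← c5]; exact c4, ?_, ?_⟩
        · rw [← c5, c1.pf_pf, c2.pf_pf]; exact c3
        · left
          rw [← c5, c1.pf_pf, c2.pf_pf]
      · right
        refine ⟨c5, by rw [← c5]; exact c4.symm, ?_⟩
        intro hc
        rw [cut, mem_filter] at hc
        apply hc.2.2.1
        refine ⟨c2.symm, by rw [← c5]; exact c1.symm, by rw [← c5]; exact c4.symm, ?_, ?_⟩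
        · rw [← c5, c1.pf_pf, c2.pf_pf]; exact c3.symm
        · right
          rw [← c5, c1.pf_pf, c2.pf_pf]
    · exact absurd hx h.1
  two := fun x hx y hy he => Pr.two hx.pr hy he
  ngr := fun x hx => Pr.ngr hx.pr
  noct := fun x hx k hk => Pr.noct hx.pr hk
  res := by
    rintro x y hxy hyL _ hC hcut ⟨u, v, h1, h2⟩
    have hb : ∀ z, x ≤ z → z ≤ y → blk Y M z = blk Y M x := by
      intro z
      induction z with
      | zero => intro h _; rw [show x = 0 by omega]
      | succ z ih =>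
        intro h3 h4
        by_cases hz : x = z + 1
        · rw [hz]
        · rcases not_cut (Y := Y) (M := M) (x := z) (by omega)
            (hcut z (by omega) (by omega)) with h | h
          · exact absurd h.1 (hC z (by omega) (by omega))
          · rw [h.2.2]
            exact ih (by omega) (by omega)
    obtain ⟨F, hF, hL⟩ := lv_of_thick (Y := Y) (M := 2 * M) (a := x) (b := y)
      ⟨u, v, fun k hk => ⟨(h1 k hk).1, (h1 k hk).2.1, by have := (h1 k hk).2.2.1; omega,
        (h1 k hk).2.2.2⟩, h2⟩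
    have := sub_lv hY.symm hM hxy (hb y hxy (le_refl _)).symm hL
    omega

/-! ### counting -/

/-- enumeration of disjoint bad intervals -/
theorem card_bad {K : ℕ} (hcore : ∀ (n : ℕ) (s e : ℕ → ℕ), (∀ i < n, Y.Bad M (s i) (e i)) →
    (∀ i, i + 1 < n → e i < s (i + 1)) → n ≤ K) (S : Finset ℕ) (E : ℕ → ℕ)
    (h1 : ∀ s, s ∈ S → Y.Bad M s (E s)) (h2 : ∀ s, s ∈ S → ∀ s', s' ∈ S → s < s' → E s < s') :
    S.card ≤ K := by
  set g := S.orderEmbOfFin rfl with hg
  have hgm : ∀ i, g i ∈ S := fun i => S.orderEmbOfFin_mem rfl i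
  refine hcore S.card (fun i => if hi : i < S.card then g ⟨i, hi⟩ else 0)
    (fun i => if hi : i < S.card then E (g ⟨i, hi⟩) else 0) ?_ ?_
  · intro i hi
    simp only [hi, dif_pos]
    exact h1 _ (hgm _)
  · intro i hi
    have hi' : i < S.card := by omega
    simp only [hi, hi', dif_pos]
    refine h2 _ (hgm _) _ (hgm _) ?_
    exact g.strictMono (by simp)

/-- the starts of blocks -/
noncomputable def st (Y : EN.Sys κ) (M : ℕ) : Finset ℕ :=
  (range Y.L).filter (fun s => blk Y M s = s)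

/-- index of a block -/
noncomputable def idx (Y : EN.Sys κ) (M : ℕ) : ℕ → ℕ
  | 0 => 0
  | (x + 1) => if blk Y M (x + 1) = x + 1 then idx Y M x + 1 else idx Y M x

theorem idx_mono {x z : ℕ} (h : x ≤ z) : idx Y M x ≤ idx Y M z := by
  induction z with
  | zero => rw [show x = 0 by omega]
  | succ z ih =>
    by_cases hz : x = z + 1
    · rw [hz]
    · refine (ih (by omega)).trans ?_
      rw [idx]
      split_ifs <;> omega

theorem idx_start {x s : ℕ} (hs : blk Y M s = s) (h : x < s) : idx Y M x < idx Y M s := by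
  obtain ⟨z, rfl⟩ : ∃ z, s = z + 1 := ⟨s - 1, by omega⟩
  have h1 : idx Y M (z + 1) = idx Y M z + 1 := by rw [idx, if_pos hs]
  have := idx_mono (Y := Y) (M := M) (x := x) (z := z) (by omega)
  omega

theorem idx_block {x : ℕ} (hx : x < Y.L) (hs : blk Y M x = x) :
    idx Y M (en Y M x) = idx Y M x := by
  have key : ∀ z, x ≤ z → z ≤ en Y M x → idx Y M z = idx Y M x := by
    intro z
    induction z with
    | zero => intro h _; rw [show x = 0 by omega]
    | succ z ih =>
      intro h1 h2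
      by_cases hz : x = z + 1
      · rw [hz]
      · rw [← ih (by omega) (by omega), idx, if_neg]
        intro hc
        have := mid_en (Y := Y) (M := M) hx (z := z + 1) (by omega) h2
        omega
  exact key _ (en_spec hx).2.1 (le_refl _)

theorem blk_new {x : ℕ} (h : blk Y M (x + 1) = x + 1) :
    Y.sh (x + 1) ≠ Y.sh x ∨ Y.Thick M (blk Y M x) x := by
  by_contra hc
  rw [blk, if_neg hc] at h
  have := blk_le (Y := Y) (M := M) x
  omega

/-- residual blocks -/
noncomputable def RB (Y : EN.Sys κ) (M : ℕ) : Finset ℕ := (st Y M).filter (fun s => ¬ Gd Y M s)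

theorem mem_st {s : ℕ} : s ∈ st Y M ↔ s < Y.L ∧ blk Y M s = s := by
  rw [st, mem_filter, mem_range]

section Count

variable {D K : ℕ}

theorem card_RB (hY : Y.Ax D) (hcore : ∀ (n : ℕ) (s e : ℕ → ℕ),
    (∀ i < n, Y.Bad M (s i) (e i)) → (∀ i, i + 1 < n → e i < s (i + 1)) → n ≤ K) :
    (RB Y M).card ≤ K + Y.R := by
  have h1 : RB Y M ⊆
      ((st Y M).filter (fun s => Y.Thick M s (en Y M s) ∧ ¬ Y.Clean s (en Y M s))) ∪
      ((st Y M).filter (fun s => ¬ Y.Thick M s (en Y M s))) := by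
    intro s hs
    rw [RB, mem_filter, mem_st] at hs
    obtain ⟨⟨h2, h3⟩, h4⟩ := hs
    rw [Gd, h3] at h4
    rw [mem_union, mem_filter, mem_filter, mem_st]
    by_cases h5 : Y.Thick M s (en Y M s)
    · left
      exact ⟨⟨h2, h3⟩, h5, fun hc => h4 ⟨h5, hc⟩⟩
    · right
      exact ⟨⟨h2, h3⟩, h5⟩
  refine (card_le_card h1).trans ((card_union_le _ _).trans (Nat.add_le_add ?_ ?_))
  · refine card_bad hcore _ (en Y M) ?_ ?_
    · intro s hs
      rw [mem_filter, mem_st] at hs
      obtain ⟨⟨h2, h3⟩, h4, h5⟩ := hs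
      have h6 := en_spec (M := M) h2
      refine ⟨h6.2.1, h6.2.2, ?_, h5, s, en Y M s, le_refl _, h6.2.1, le_refl _, h4⟩
      refine sh_blk (M := M) ?_ h6.2.1
      rw [h6.1, h3]
    · intro s hs s' hs' hlt
      rw [mem_filter, mem_st] at hs hs'
      exact start_lt hs.1.1 hs'.1.2 (by rw [hs.1.2]; exact hlt)
  · have h2 : ∀ s s', s ∈ (st Y M).filter (fun s => ¬ Y.Thick M s (en Y M s)) →
        s' ∈ (st Y M).filter (fun s => ¬ Y.Thick M s (en Y M s)) → s < s' →
        Y.sh s ≠ Y.sh s' := by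
      intro s s' hs hs' hlt he
      rw [mem_filter, mem_st] at hs hs'
      obtain ⟨⟨a1, a2⟩, a3⟩ := hs
      obtain ⟨⟨b1, b2⟩, b3⟩ := hs'
      have h6 := en_spec (M := M) a1
      have h7 : en Y M s < s' := start_lt a1 b2 (by rw [a2]; exact hlt)
      have h8 := en_succ (M := M) a1 (by omega)
      have h9 : Y.sh s = Y.sh (en Y M s) := sh_blk (M := M) (by rw [h6.1, a2]) h6.2.1
      rcases blk_new h8 with h10 | h10
      · apply h10
        have e1 := hY.mono (en Y M s) (en Y M s + 1) (by omega) (by omega)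
        have e2 := hY.mono (en Y M s + 1) s' (by omega) b1
        omega
      · rw [h6.1, a2] at h10
        exact a3 h10
    calc _ ≤ (range Y.R).card := by
          refine card_le_card_of_injOn Y.sh ?_ ?_
          · intro s hs
            simp only [coe_filter, Set.mem_ofPred_eq] at hs
            have := mem_st.1 hs.1
            simp only [coe_range, Set.mem_Iio]
            exact hY.lt _ this.1
          · intro s hs s' hs' he
            rw [mem_coe] at hs hs'
            rcases lt_trichotomy s s' with h | h | h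
            · exact absurd he (h2 s s' hs hs' h)
            · exact h
            · exact absurd he.symm (h2 s' s hs' hs h)
      _ = Y.R := card_range _

/-- lost ports -/
noncomputable def Lost (Y : EN.Sys κ) (M : ℕ) : Finset ℕ :=
  (range Y.L).filter (fun x => Cl0 Y M x ∧ ¬ Cl0 Y M (pf Y x))

theorem card_Lost (hM : 1 ≤ M) : (Lost Y M).card ≤ (RB Y M).card * M := by
  have h1 : Lost Y M ⊆ (RB Y M).biUnion
      (fun s => (Lost Y M).filter (fun x => blk Y M (pf Y x) = s)) := by
    intro x hx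
    have hx' := hx
    rw [Lost, mem_filter, mem_range] at hx
    obtain ⟨h2, h3, h4⟩ := hx
    have h5 : pf Y x < Y.L := Pr.lt (Pr.symm h3.pr)
    rw [mem_biUnion]
    refine ⟨blk Y M (pf Y x), ?_, by rw [mem_filter]; exact ⟨hx', rfl⟩⟩
    rw [RB, mem_filter, mem_st]
    refine ⟨⟨lt_of_le_of_lt (blk_le _) h5, blk_blk _⟩, ?_⟩
    rw [Gd_congr (blk_blk _)]
    exact fun hc => h4 ⟨h5, hc⟩
  refine (card_le_card h1).trans (card_biUnion_le_card_mul _ _ _ ?_)
  intro s hs
  rw [RB, mem_filter, mem_st] at hs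
  obtain ⟨⟨hsL, hsb⟩, hsG⟩ := hs
  set A := (Lost Y M).filter (fun x => blk Y M (pf Y x) = s) with hA
  have hAm : ∀ x, x ∈ A → Cl0 Y M x ∧ blk Y M (pf Y x) = s := by
    intro x hx
    rw [hA, mem_filter, Lost, mem_filter] at hx
    exact ⟨hx.1.2.1, hx.2⟩
  by_contra hcon
  push Not at hcon
  have hinj : Set.InjOn (fun x => (pf Y x, x)) (A : Set ℕ) := by
    intro x _ y _ h
    exact congrArg Prod.snd h
  have h6 := en_spec (M := M) hsL
  have hlv : Lv Y (A.image (fun x => (pf Y x, x))) s (en Y M s) := by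
    constructor
    · intro e he
      rw [mem_image] at he
      obtain ⟨x, hx, rfl⟩ := he
      obtain ⟨h2, h3⟩ := hAm x hx
      have h5 : pf Y x < Y.L := Pr.lt (Pr.symm h2.pr)
      have h7 : pf Y x ≤ en Y M s := by
        have h8 := (en_spec (M := M) h5).2.1
        rw [en_congr (z := pf Y x) (x := s) (by rw [h3, hsb])] at h8
        exact h8
      refine ⟨?_, h7, ?_, Pr.link (Pr.symm h2.pr)⟩
      · rw [← h3]; exact blk_le _
      · by_contra hc
        push Not at hc
        have h9 : blk Y M x = blk Y M s := mid_en hsL (by rw [hsb]; exact hc.1) hc.2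
        exact hsG ((Gd_congr h9).1 h2.2)
    · intro e he f hf hne
      rw [mem_image] at he hf
      obtain ⟨x, hx, rfl⟩ := he
      obtain ⟨y, hy, rfl⟩ := hf
      obtain ⟨h2, h3⟩ := hAm x hx
      obtain ⟨h2', h3'⟩ := hAm y hy
      have hxy : x ≠ y := fun hc => hne (by rw [hc])
      have hG : ∀ a b, Cl0 Y M a → blk Y M (pf Y b) = s → a ≠ pf Y b := by
        intro a b ha hb hab
        apply hsG
        rw [← hab] at hb
        exact (Gd_congr (by rw [hb, hsb])).1 ha.2
      refine Pr.dj (Pr.symm h2.pr) (Pr.symm h2'.pr) ?_ ?_ ?_ ?_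
      · intro hc
        have e1 := Pr.symm h2.pr
        have e2 := Pr.symm h2'.pr
        have hc' : pf Y y = pf Y x := hc
        rw [hc'] at e2
        exact hxy (Pr.unique e1 e2)
      · exact fun hc => hG x y h2 h3' hc.symm
      · exact fun hc => hG y x h2' h3 hc
      · exact hxy.symm
  refine nt (Y := Y) hM (en Y M s) ?_
  rw [h6.1, hsb]
  refine thick_of_lv hlv ?_
  rw [card_image_of_injOn hinj]
  exact hcon

/-- good blocks whose union with the next one is not clean -/
noncomputable def DPs (Y : EN.Sys κ) (M : ℕ) : Finset ℕ :=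
  (st Y M).filter (fun s => Gd Y M s ∧ en Y M s + 1 < Y.L ∧ Y.sh (en Y M s + 1) = Y.sh s ∧
    ¬ Y.Clean s (en Y M (en Y M s + 1)))

theorem card_DPs (hcore : ∀ (n : ℕ) (s e : ℕ → ℕ),
    (∀ i < n, Y.Bad M (s i) (e i)) → (∀ i, i + 1 < n → e i < s (i + 1)) → n ≤ K) :
    (DPs Y M).card ≤ K + K := by
  have hpar : ∀ r, ((DPs Y M).filter (fun s => idx Y M s % 2 = r)).card ≤ K := by
    intro r
    refine card_bad hcore _ (fun s => en Y M (en Y M s + 1)) ?_ ?_
    · intro s hs
      rw [mem_filter, DPs, mem_filter, mem_st] at hs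
      obtain ⟨⟨⟨a1, a2⟩, a3, a4, a5, a6⟩, -⟩ := hs
      have h1 := en_spec (M := M) a1
      have h2 := en_spec (M := M) a4
      have h3 := en_succ (M := M) a1 a4
      refine ⟨by omega, h2.2.2, ?_, a6, s, en Y M s, le_refl _, h1.2.1, by omega, ?_⟩
      · rw [← a5]
        exact sh_blk (M := M) (by rw [h2.1, h3]) h2.2.1
      · have := a3.1
        rw [a2] at this
        exact this
    · intro s hs s' hs' hlt
      rw [mem_filter, DPs, mem_filter, mem_st] at hs hs'
      obtain ⟨⟨⟨a1, a2⟩, a3, a4, a5, a6⟩, a7⟩ := hs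
      obtain ⟨⟨⟨b1, b2⟩, b3, b4, b5, b6⟩, b7⟩ := hs'
      have h3 := en_succ (M := M) a1 a4
      have h4 : idx Y M (en Y M s + 1) = idx Y M s + 1 := by
        rw [idx, if_pos h3, idx_block a1 a2]
      have h5 := idx_start (Y := Y) (M := M) b2 hlt
      have h6 : en Y M s + 1 < s' := by
        by_contra hc
        push Not at hc
        have := idx_mono (Y := Y) (M := M) hc
        omega
      exact start_lt a4 b2 (by rw [h3]; exact h6)
  have h1 : DPs Y M ⊆ ((DPs Y M).filter (fun s => idx Y M s % 2 = 0)) ∪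
      ((DPs Y M).filter (fun s => idx Y M s % 2 = 1)) := by
    intro s hs
    rw [mem_union, mem_filter, mem_filter]
    rcases Nat.mod_two_eq_zero_or_one (idx Y M s) with h | h
    · exact Or.inl ⟨hs, h⟩
    · exact Or.inr ⟨hs, h⟩
  exact (card_le_card h1).trans ((card_union_le _ _).trans (Nat.add_le_add (hpar 0) (hpar 1)))

theorem card_shore (hY : Y.Ax D) :
    ((range Y.L).filter (fun x => x + 1 < Y.L ∧ Y.sh x ≠ Y.sh (x + 1))).card ≤ Y.R := by
  calc _ ≤ (range Y.R).card := by
        refine card_le_card_of_injOn Y.sh ?_ ?_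
        · intro s hs
          simp only [coe_filter, Set.mem_ofPred_eq, mem_range] at hs
          simp only [coe_range, Set.mem_Iio]
          exact hY.lt _ hs.1
        · have key : ∀ s s', s + 1 < Y.L → Y.sh s ≠ Y.sh (s + 1) → s' < Y.L → s < s' →
              Y.sh s ≠ Y.sh s' := by
            intro s s' h1 h2 h3 h4 he
            have e1 := hY.mono s (s + 1) (by omega) h1
            have e2 := hY.mono (s + 1) s' (by omega) h3
            omega
          intro s hs s' hs' he
          simp only [coe_filter, Set.mem_ofPred_eq, mem_range] at hs hs'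
          rcases lt_trichotomy s s' with h | h | h
          · exact absurd he (key s s' hs.2.1 hs.2.2 hs'.1 h)
          · exact h
          · exact absurd he.symm (key s' s hs'.2.1 hs'.2.2 hs.1 h)
    _ = Y.R := card_range _

/-- **T7.** -/
theorem card_cut (hY : Y.Ax D) (hM : 1 ≤ M) (hcore : ∀ (n : ℕ) (s e : ℕ → ℕ),
    (∀ i < n, Y.Bad M (s i) (e i)) → (∀ i, i + 1 < n → e i < s (i + 1)) → n ≤ K) :
    (cut Y M).card ≤ 2 * (K + Y.R) + 2 * ((K + Y.R) * M) + 2 * K + Y.R := by
  have h1 : cut Y M ⊆ ((RB Y M).image (fun s => s - 1) ∪ (RB Y M).image (en Y M)) ∪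
      ((Lost Y M ∪ (Lost Y M).image (fun s => s - 1)) ∪ ((DPs Y M).image (en Y M) ∪
        (range Y.L).filter (fun x => x + 1 < Y.L ∧ Y.sh x ≠ Y.sh (x + 1)))) := by
    intro x hx
    have hx0 := hx
    rw [cut, mem_filter, mem_range] at hx
    obtain ⟨hxL, hx1, hJc, hJr⟩ := hx
    by_contra hcon
    simp only [mem_union, not_or] at hcon
    obtain ⟨⟨n1, n2⟩, ⟨n3, n4⟩, n5, n6⟩ := hcon
    have hsh : Y.sh x = Y.sh (x + 1) := by
      by_contra hc
      exact n6 (by rw [mem_filter, mem_range]; exact ⟨hxL, hx1, hc⟩)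
    have hl1 : x ∉ Lost Y M := n3
    have hl2 : x + 1 ∉ Lost Y M := fun hc => n4 (mem_image.2 ⟨x + 1, hc, rfl⟩)
    have hnl : ∀ z, z ∉ Lost Y M → Cl0 Y M z → Cl Y M z := by
      intro z hz hz0
      refine ⟨hz0, ?_⟩
      by_contra hc
      exact hz (by rw [Lost, mem_filter, mem_range]; exact ⟨hz0.1, hz0, hc⟩)
    have hpfs : ∀ a b, a ≤ x → x + 1 ≤ b → Y.Clean a b → Cl Y M x → Cl Y M (x + 1) →
        Jc Y M x := by
      intro a b ha hb hcl c1 c2
      obtain ⟨y, y', e1, e2, e3, e4⟩ := hcl.2 x ha (by omega)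
      refine ⟨c1, c2, hsh, ?_, ?_⟩
      · rw [pf_eq e1, pf_eq e2]; exact e4
      · rw [pf_eq e1, pf_eq e2]; exact e3
    rcases blk_succ (Y := Y) (M := M) x with h | ⟨h, -, -⟩
    · -- different blocks
      have hxe : x = en Y M x := by
        have h2 := en_spec (M := M) hxL
        by_contra hc
        have h3 : x + 1 ≤ en Y M x := by omega
        have h4 := mid_en (M := M) hxL (z := x + 1) (by have := blk_le (Y := Y) (M := M) x; omega) h3
        rw [h] at h4
        have := blk_le (Y := Y) (M := M) x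
        omega
      set s := blk Y M x with hs
      have hsL : s < Y.L := lt_of_le_of_lt (blk_le x) hxL
      have hsb : blk Y M s = s := blk_blk x
      have hse : en Y M s = x := by
        rw [en_congr (z := s) (x := x) (by rw [hsb])]
        exact hxe.symm
      have hG1 : Gd Y M s := by
        by_contra hc
        apply n2
        rw [mem_image]
        exact ⟨s, by rw [RB, mem_filter, mem_st]; exact ⟨⟨hsL, hsb⟩, hc⟩, hse⟩
      have hG2 : Gd Y M (x + 1) := by
        by_contra hc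
        apply n1
        rw [mem_image]
        exact ⟨x + 1, by rw [RB, mem_filter, mem_st]; exact ⟨⟨hx1, h⟩, hc⟩, rfl⟩
      have c1 : Cl Y M x := hnl x hl1 ⟨hxL, (Gd_congr hsb).1 hG1⟩
      have c2 : Cl Y M (x + 1) := hnl (x + 1) hl2 ⟨hx1, hG2⟩
      have hcl : Y.Clean s (en Y M (x + 1)) := by
        by_contra hc
        apply n5
        rw [mem_image]
        refine ⟨s, ?_, hse⟩
        rw [DPs, mem_filter, mem_st, hse]
        refine ⟨⟨hsL, hsb⟩, hG1, hx1, ?_, hc⟩
        rw [← hsh]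
        exact (sh_blk (M := M) (le_refl _) (blk_le x)).symm
      exact hJc (hpfs s _ (blk_le x) (en_spec hx1).2.1 hcl c1 c2)
    · -- same block
      by_cases hG : Gd Y M x
      · have c1 : Cl Y M x := hnl x hl1 ⟨hxL, hG⟩
        have c2 : Cl Y M (x + 1) := hnl (x + 1) hl2 ⟨hx1, (Gd_congr h).2 hG⟩
        have h2 : x + 1 ≤ en Y M x := by
          have := (en_spec (M := M) hx1).2.1
          rw [en_congr h] at this
          exact this
        exact hJc (hpfs _ _ (blk_le x) h2 hG.2 c1 c2)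
      · apply hJr
        exact ⟨fun hc => hG hc.1.2, fun hc => hG ((Gd_congr h).1 hc.1.2), h⟩
  have r1 := card_RB hY hcore
  have r2 := (card_Lost (Y := Y) hM).trans (Nat.mul_le_mul_right M r1)
  have r3 := card_DPs hcore
  have r4 := card_shore hY
  have i1 := card_image_le (s := RB Y M) (f := fun s => s - 1)
  have i2 := card_image_le (s := RB Y M) (f := en Y M)
  have i3 := card_image_le (s := Lost Y M) (f := fun s => s - 1)
  have i4 := card_image_le (s := DPs Y M) (f := en Y M)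
  calc (cut Y M).card ≤ _ := card_le_card h1
    _ ≤ ((RB Y M).card + (RB Y M).card) + (((Lost Y M).card + (Lost Y M).card) +
        ((DPs Y M).card + Y.R)) := by
      refine (card_union_le _ _).trans (Nat.add_le_add
        ((card_union_le _ _).trans (Nat.add_le_add i1 i2)) ?_)
      refine (card_union_le _ _).trans (Nat.add_le_add
        ((card_union_le _ _).trans (Nat.add_le_add (le_refl _) i3)) ?_)
      exact (card_union_le _ _).trans (Nat.add_le_add i4 r4)
    _ ≤ ((K + Y.R) + (K + Y.R)) + (((K + Y.R) * M + (K + Y.R) * M) + ((K + K) + Y.R)) := by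
      omega
    _ = 2 * (K + Y.R) + 2 * ((K + Y.R) * M) + 2 * K + Y.R := by ring

end Count

end EN.Part
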