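import Pool.Agent.EN.GlueS
import Pool.Agent.EN.Partition

/-!
The bound of T-star for a system of ports: the core of II.3, the partition, module III.
-/

set_option autoImplicit false

open Finset EN.Walk EN.Sweep
open scoped Classical

namespace EN.GlueS

theorem bound {κ V : Type*} [Fintype κ] [Fintype V] {Y : EN.Sys κ} {P B D M K d Δ f : ℕ}
    {pos : Pt P → ℕ} {G : SimpleGraph V} {mem : V → κ → Prop}
    (hY : Y.Ax D) (hM : 1 ≤ M)
    (hcore : ∀ (n : ℕ) (s e : ℕ → ℕ), (∀ i < n, Y.Bad M (s i) (e i)) →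
      (∀ i, i + 1 < n → e i < s (i + 1)) → n ≤ K * Y.R)
    (hP : Place Y pos B) (hG : Mem Y pos G mem)
    (hd : ∀ y, (univ.filter (fun z => G.Adj y z)).card ≤ d)
    (hΔ : ∀ k, (univ.filter (fun y => mem y k) : Finset V).card ≤ Δ)
    (hiso : ∀ A : Finset V, (univ.filter (fun x : V × V => G.Adj x.1 x.2 ∧ x.1 ∈ A ∧
      x.2 ∉ A)).card ≤ (4 * M * (4 * D + 1)) * Δ * d +
        (4 * M * (4 * D + 1)) * (Δ * Δ) + 4 * Δ * d →
      A.card ≤ f ∨ Aᶜ.card ≤ f) :
    Fintype.card V ≤ 2 * f + 2 * Δ ∨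
      Fintype.card V ≤ (2 + (2 * B + 4 * ((K + 1) * Y.R * (5 + 2 * M)))) *
        (f + (4 * M * (4 * D + 1)) * Δ) := by
  have hS := EN.Part.strips hY hM
  have hc := EN.Part.card_cut hY hM hcore
  have e1 : 2 * M * (4 * D + 1) + 2 * M * (4 * D + 1) = 4 * M * (4 * D + 1) := by ring
  have h := glue hY hP hS hG hd hΔ (f := f) (by rw [e1]; exact hiso)
  rw [e1] at h
  refine h.imp_right (fun h1 => h1.trans ?_)
  refine Nat.mul_le_mul_right _ ?_
  have h2 : (EN.Part.cut Y M).card ≤ (K + 1) * Y.R * (5 + 2 * M) := by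
    refine hc.trans ?_
    have e2 : (K + 1) * Y.R * (5 + 2 * M) = 2 * (K * Y.R + Y.R) + 2 * ((K * Y.R + Y.R) * M) +
      2 * (K * Y.R) + Y.R + (K * Y.R + 2 * Y.R) := by ring
    omega
  omega

end EN.GlueS
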