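import Pool.Agent.EN.Closed

/-!
Robust sweep (T-star, module III): some vertices of the wall are missing, some vertices are closed
lines without a residual port.
-/

set_option autoImplicit false

open Finset EN.Walk
open scoped Classical

namespace EN.Sweep

namespace Rob

section Pad

variable {P m : ℕ}

/-- an old port -/
def up (m : ℕ) (p : Pt P) : Pt (P + m) := (⟨p.1.val, by have := p.1.2; omega⟩, p.2)

/-- an old port -/
def dn (p : Pt (P + m)) (h : p.1.val < P) : Pt P := (⟨p.1.val, h⟩, p.2)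

theorem dn_up (p : Pt P) (h : (up m p).1.val < P) : dn (up m p) h = p := rfl

theorem up_dn (p : Pt (P + m)) (h : p.1.val < P) : up m (dn p h) = p := rfl

theorem up_lt (p : Pt P) : (up m p).1.val < P := p.1.2

theorem flp_up (p : Pt P) : flp (up m p) = up m (flp p) := rfl

theorem up_inj {p q : Pt P} (h : up m p = up m q) : p = q := by
  have h1 : dn (up m p) (up_lt p) = dn (up m q) (up_lt q) := by simp only [h]
  exact h1

theorem dn_inj {p q : Pt (P + m)} (h : p.1.val < P) (h' : q.1.val < P) (he : dn p h = dn q h') :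
    p = q := by
  rw [← up_dn p h, ← up_dn q h', he]

theorem Nb_up {p q : Pt P} (h : Nb p q) : Nb (up m p) (up m q) := h

theorem Nb_dn {p q : Pt (P + m)} (h : Nb p q) (h1 : p.1.val < P) (h2 : q.1.val < P) :
    Nb (dn p h1) (dn q h2) := h

theorem iv_up {p : Pt P} {s : Bool} {a b : ℕ} (h : p ∈ iv P s a b) :
    up m p ∈ iv (P + m) s a b := by
  have h1 := mem_iv.1 h
  exact mem_iv.2 h1

theorem iv_dn {p : Pt (P + m)} (h : p.1.val < P) {s : Bool} {a b : ℕ} :
    dn p h ∈ iv P s a b ↔ p ∈ iv (P + m) s a b := by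
  rw [mem_iv, mem_iv]
  exact Iff.rfl

end Pad

/-- an isolated port is alone in its residual interval -/
theorem single {P : ℕ} {C : Set (Pt P)} {J : Pt P → Pt P → Prop} {s : Bool} {a b : ℕ}
    (h : Res C J s a b) {p : Pt P} (hp : p ∈ iv P s a b) (hJ : ∀ q, ¬ J p q) :
    ∀ q, q ∈ iv P s a b → q = p := by
  intro q hq
  have h1 := mem_iv.1 hp
  have h2 := mem_iv.1 hq
  have hq0 := q.1.2
  have hp0 := p.1.2
  rcases lt_trichotomy p.1.val q.1.val with h3 | h3 | h3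
  · exfalso
    set r : Pt P := (⟨p.1.val + 1, by omega⟩, s) with hr
    have hri : r ∈ iv P s a b := mem_iv.2 ⟨rfl, by simp only [hr]; omega, by simp only [hr]; omega⟩
    exact hJ r (h.2 p r hp hri ⟨h1.1, Or.inl rfl⟩)
  · exact Prod.ext (Fin.ext h3.symm) (h2.1.trans h1.1.symm)
  · exfalso
    set r : Pt P := (⟨p.1.val - 1, by omega⟩, s) with hr
    have hri : r ∈ iv P s a b := mem_iv.2 ⟨rfl, by simp only [hr]; omega, by simp only [hr]; omega⟩
    exact hJ r (h.2 p r hp hri ⟨h1.1, Or.inr (by simp only [hr]; omega)⟩)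

section Main

variable {V K : Type*} {G : SimpleGraph V} {Z : Finset V} {P m : ℕ} {C : Set (Pt P)}
  {φ : Pt P → Pt P} {J : Pt P → Pt P → Prop} {con : Pt P → K}
  {mem : {v : V // v ∉ Z} → K → Prop} {ct : K → K → Prop}

/-- connectors -/
noncomputable def con2 (m : ℕ) (con : Pt P → K) (zz : ℕ → V) (p : Pt (P + m)) : K ⊕ V :=
  if h : p.1.val < P then Sum.inl (con (dn p h)) else Sum.inr (zz (p.1.val - P))

/-- clean ports -/
def C2 (m : ℕ) (C : Set (Pt P)) (E : Set (Pt P)) : Set (Pt (P + m)) :=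
  {p | ∃ h : p.1.val < P, dn p h ∈ C ∧ dn p h ∉ E}

/-- the bijection -/
noncomputable def ph2 (m : ℕ) (φ : Pt P → Pt P) (p : Pt (P + m)) : Pt (P + m) :=
  if h : p.1.val < P then up m (φ (dn p h)) else p

/-- joined neighbours -/
def J2 (m : ℕ) (J : Pt P → Pt P → Prop) (X : Set (Pt P)) (p q : Pt (P + m)) : Prop :=
  ∃ (h : p.1.val < P) (h' : q.1.val < P), J (dn p h) (dn q h') ∧ dn p h ∉ X ∧ dn q h' ∉ X

/-- members -/
def mem2 (mem : {v : V // v ∉ Z} → K → Prop) (y : V) : K ⊕ V → Prop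
  | Sum.inl k => ∃ h : y ∉ Z, mem ⟨y, h⟩ k
  | Sum.inr z => y = z ∧ z ∈ Z

/-- contacts -/
def ct2 (G : SimpleGraph V) (Z : Finset V) (con : Pt P → K) (ct : K → K → Prop)
    (rr : {v : V // v ∉ Z} → Pt P) : K ⊕ V → K ⊕ V → Prop
  | Sum.inl k, Sum.inl k' => ct k k'
  | Sum.inl k, Sum.inr z => z ∈ Z ∧ ∃ y : {v : V // v ∉ Z}, G.Adj y.1 z ∧ con (rr y) = k
  | Sum.inr z, Sum.inl k => z ∈ Z ∧ ∃ y : {v : V // v ∉ Z}, G.Adj y.1 z ∧ con (rr y) = k
  | Sum.inr z, Sum.inr z' => z ∈ Z ∧ z' ∈ Z ∧ G.Adj z z'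

theorem con2_up {zz : ℕ → V} (p : Pt P) : con2 m con zz (up m p) = Sum.inl (con p) := by
  unfold con2
  rw [dif_pos (up_lt p)]
  rfl

theorem con2_lt {zz : ℕ → V} {p : Pt (P + m)} (h : p.1.val < P) :
    con2 m con zz p = Sum.inl (con (dn p h)) := by
  unfold con2
  rw [dif_pos h]

theorem con2_ge {zz : ℕ → V} {p : Pt (P + m)} (h : ¬ p.1.val < P) :
    con2 m con zz p = Sum.inr (zz (p.1.val - P)) := by
  unfold con2
  rw [dif_neg h]

theorem con2_inl {zz : ℕ → V} {p : Pt (P + m)} {k : K} (h : con2 m con zz p = Sum.inl k) :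
    ∃ h : p.1.val < P, con (dn p h) = k := by
  by_cases h1 : p.1.val < P
  · rw [con2_lt h1] at h
    exact ⟨h1, Sum.inl.inj h⟩
  · rw [con2_ge h1] at h
    exact absurd h (by simp)

theorem ph2_lt {p : Pt (P + m)} (h : p.1.val < P) : ph2 m φ p = up m (φ (dn p h)) := by
  unfold ph2
  rw [dif_pos h]

/-- the padded system -/
theorem sys (hS : Pre (G.comap (Subtype.val : {v : V // v ∉ Z} → V)) P C φ J con mem ct)
    {E X : Set (Pt P)} (hE : ∀ p, p ∈ E → p ∈ C → φ p ∈ E)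
    {rr : {v : V // v ∉ Z} → Pt P} (hr : ∀ y, mem y (con (rr y)) ∧ (rr y ∉ C ∨ rr y ∈ E))
    (hX : ∀ p, p ∈ X ↔ p ∈ E ∨ ∃ (y : {v : V // v ∉ Z}) (z : V), z ∈ Z ∧ G.Adj y.1 z ∧
      con p = con (rr y))
    {zz : ℕ → V} (hz : ∀ z, z ∈ Z → ∃ j < m, zz j = z) :
    Sys G (P + m) (C2 m C E) (ph2 m φ) (J2 m J X) (con2 m con zz) (mem2 mem)
      (ct2 G Z con ct rr) := by
  have hφE : ∀ p, p ∈ C → p ∉ E → φ p ∈ C ∧ φ p ∉ E := by
    intro p h1 h2
    refine ⟨hS.mem_C p h1, fun h3 => h2 ?_⟩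
    have h4 := hE _ h3 (hS.mem_C p h1)
    rwa [hS.inv p h1] at h4
  -- clean connectors are not the chosen residual ones
  have hcl : ∀ p, p ∈ C → p ∉ E → ∀ y, con p ≠ con (rr y) := by
    intro p h1 h2 y he
    rcases hS.two p h1 _ he.symm with h | h
    · rcases (hr y).2 with h3 | h3
      · rw [h] at h3; exact h3 h1
      · rw [h] at h3; exact h2 h3
    · obtain ⟨h4, h5⟩ := hφE p h1 h2
      rcases (hr y).2 with h3 | h3
      · rw [h] at h3; exact h3 h4
      · rw [h] at h3; exact h5 h3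
  have hclX : ∀ p, p ∈ C → p ∉ E → p ∉ X := by
    intro p h1 h2 h3
    rcases (hX p).1 h3 with h4 | ⟨y, z, -, -, h4⟩
    · exact h2 h4
    · exact hcl p h1 h2 y h4
  have hXE : ∀ p, p ∉ X → p ∉ E := fun p h1 h2 => h1 ((hX p).2 (Or.inl h2))
  refine ⟨?_, ?_, ?_, ?_, ?_, ?_, ?_, ?_, ?_, ?_, ?_, ?_⟩
  · -- mem_C
    rintro p ⟨h, h1, h2⟩
    rw [ph2_lt h]
    exact ⟨up_lt _, hφE _ h1 h2⟩
  · -- inv
    rintro p ⟨h, h1, h2⟩
    rw [ph2_lt h, ph2_lt (up_lt _), dn_up, hS.inv _ h1, up_dn]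
  · -- two
    rintro p ⟨h, h1, h2⟩ p' he
    rw [con2_lt h] at he
    obtain ⟨h', he'⟩ := con2_inl he
    rw [ph2_lt h]
    rcases hS.two _ h1 _ he' with h3 | h3
    · exact Or.inl (dn_inj h' h h3)
    · right
      rw [← h3, up_dn]
  · -- noct
    rintro p ⟨h, h1, h2⟩ κ hκ
    rw [con2_lt h] at hκ
    rw [ph2_lt h]
    rcases κ with κ | z
    · rcases hS.noct _ h1 κ hκ with h3 | ⟨p', h3, h4⟩
      · left
        rw [con2_up, h3]
      · right
        exact ⟨up m p', Nb_up h3, by rw [con2_up, h4]⟩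
    · exfalso
      obtain ⟨-, y, -, h3⟩ := hκ
      exact hcl _ h1 h2 y h3.symm
  · -- J_nb
    rintro p p' ⟨h, h', h1, -, -⟩
    exact hS.J_nb _ _ h1
  · -- J_symm
    rintro p p' ⟨h, h', h1, h2, h3⟩
    exact ⟨h', h, hS.J_symm _ _ h1, h3, h2⟩
  · -- J_C
    rintro p p' ⟨h, h', h1, h2, h3⟩ ⟨_, h4, _⟩
    exact ⟨h', hS.J_C _ _ h1 h4, hXE _ h3⟩
  · -- J_phi
    rintro p p' ⟨h, h', h1, h2, h3⟩ ⟨_, h4, h5⟩
    rw [ph2_lt h, ph2_lt h']
    have h6 := hS.J_C _ _ h1 h4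
    have a1 := hφE _ h4 h5
    have a2 := hφE _ h6 (hXE _ h3)
    exact ⟨up_lt _, up_lt _, hS.J_phi _ _ h1 h4, hclX _ a1.1 a1.2, hclX _ a2.1 a2.2⟩
  · -- port
    rintro y (κ | z) hy
    · obtain ⟨h, h1⟩ := hy
      obtain ⟨p, rfl⟩ := hS.port _ _ h1
      exact ⟨up m p, con2_up p⟩
    · obtain ⟨h1, h2⟩ := hy
      obtain ⟨j, hj, hj'⟩ := hz z h2
      refine ⟨(⟨P + j, by omega⟩, false), ?_⟩
      rw [con2_ge (by simp)]
      simp [hj']
  · -- conn
    rintro y (κ | z) (κ' | z') hy hy'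
    · obtain ⟨h, h1⟩ := hy
      obtain ⟨_, h2⟩ := hy'
      refine (hS.conn _ _ _ h1 h2).lift (Sum.inl : K → K ⊕ V) ?_
      rintro a b ⟨h3, h4, p, h5, h6⟩
      refine ⟨⟨h, h3⟩, ⟨h, h4⟩, up m p, ?_, ?_⟩
      · rw [con2_up, h5]
      · rw [flp_up, con2_up, h6]
    · obtain ⟨h, -⟩ := hy
      obtain ⟨h1, h2⟩ := hy'
      exact absurd (h1 ▸ h2) h
    · obtain ⟨h, -⟩ := hy'
      obtain ⟨h1, h2⟩ := hy
      exact absurd (h1 ▸ h2) h
    · obtain ⟨h1, -⟩ := hy
      obtain ⟨h2, -⟩ := hy'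
      rw [← h1, ← h2]
  · -- res
    intro y
    by_cases hy : y ∈ Z
    · obtain ⟨j, hj, hj'⟩ := hz y hy
      refine ⟨(⟨P + j, by omega⟩, false), ?_, ?_⟩
      · rw [con2_ge (by simp)]
        simp only [Nat.add_sub_cancel_left, hj']
        exact ⟨rfl, hy⟩
      · rintro ⟨h, -⟩
        exact absurd h (by simp)
    · obtain ⟨h1, h2⟩ := hr ⟨y, hy⟩
      refine ⟨up m (rr ⟨y, hy⟩), ?_, ?_⟩
      · rw [con2_up]
        exact ⟨hy, h1⟩
      · rintro ⟨h, h3, h4⟩
        rw [dn_up] at h3 h4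
        rcases h2 with h2 | h2
        · exact h2 h3
        · exact h4 h2
  · -- edge
    intro y z hyz
    by_cases hy : y ∈ Z
    · by_cases hz2 : z ∈ Z
      · exact Or.inr (Or.inl ⟨Sum.inr y, Sum.inr z, ⟨rfl, hy⟩, ⟨rfl, hz2⟩, hy, hz2, hyz⟩)
      · exact Or.inr (Or.inl ⟨Sum.inr y, Sum.inl (con (rr ⟨z, hz2⟩)), ⟨rfl, hy⟩,
          ⟨hz2, (hr ⟨z, hz2⟩).1⟩, hy, ⟨z, hz2⟩, hyz.symm, rfl⟩)
    · by_cases hz2 : z ∈ Z
      · exact Or.inr (Or.inl ⟨Sum.inl (con (rr ⟨y, hy⟩)), Sum.inr z,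
          ⟨hy, (hr ⟨y, hy⟩).1⟩, ⟨rfl, hz2⟩, hz2, ⟨y, hy⟩, hyz, rfl⟩)
      · have h0 : (G.comap (Subtype.val : {v : V // v ∉ Z} → V)).Adj ⟨y, hy⟩ ⟨z, hz2⟩ := hyz
        rcases hS.edge _ _ h0 with ⟨κ, h1, h2⟩ | ⟨κ, κ', h1, h2, h3⟩ | ⟨p, h1, h2⟩ |
          ⟨p, p', h1, h2, h3⟩
        · exact Or.inl ⟨Sum.inl κ, ⟨hy, h1⟩, ⟨hz2, h2⟩⟩
        · exact Or.inr (Or.inl ⟨Sum.inl κ, Sum.inl κ', ⟨hy, h1⟩, ⟨hz2, h2⟩, h3⟩)
        · refine Or.inr (Or.inr (Or.inl ⟨up m p, ?_, ?_⟩))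
          · rw [con2_up]; exact ⟨hy, h1⟩
          · rw [flp_up, con2_up]; exact ⟨hz2, h2⟩
        · refine Or.inr (Or.inr (Or.inr ⟨up m p, up m p', Nb_up h1, ?_, ?_⟩))
          · rw [con2_up]; exact ⟨hy, h2⟩
          · rcases h3 with h3 | h3
            · left; rw [con2_up]; exact ⟨hz2, h3⟩
            · right; rw [flp_up, con2_up]; exact ⟨hz2, h3⟩

theorem res_cases {E X : Set (Pt P)} (hEX : ∀ p, p ∈ E → p ∈ X) {s : Bool} {a b : ℕ}
    (hR : Res (C2 m C E) (J2 m J X) s a b) :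
    (∀ q r, q ∈ iv (P + m) s a b → r ∈ iv (P + m) s a b → q = r) ∨
      ((∀ p, p ∈ iv (P + m) s a b → ∃ h : p.1.val < P, dn p h ∉ X) ∧ Res C J s a b) := by
  by_cases hall : ∀ p, p ∈ iv (P + m) s a b → ∃ h : p.1.val < P, dn p h ∉ X
  · right
    refine ⟨hall, ?_, ?_⟩
    · intro p hp hpC
      have h1 : up m p ∈ iv (P + m) s a b := iv_up hp
      obtain ⟨h2, h3⟩ := hall _ h1
      rw [dn_up] at h3
      exact hR.1 _ h1 ⟨h2, hpC, fun h => h3 (hEX _ h)⟩
    · intro p p' hp hp' hN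
      have h1 : up m p ∈ iv (P + m) s a b := iv_up hp
      have h2 : up m p' ∈ iv (P + m) s a b := iv_up hp'
      obtain ⟨_, _, h3, -, -⟩ := hR.2 _ _ h1 h2 (Nb_up hN)
      exact h3
  · left
    push Not at hall
    obtain ⟨p, hp, h1⟩ := hall
    have h2 := single hR hp (by
      rintro q ⟨h, _, -, h3, -⟩
      exact h3 (h1 h))
    intro q r hq hr
    rw [h2 q hq, h2 r hr]

theorem iv_le_one {s : Bool} {a b : ℕ}
    (h : ∀ q r, q ∈ iv P s a b → r ∈ iv P s a b → q = r) : (iv P s a b).card ≤ 1 :=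
  card_le_one.2 (fun q hq r hr => h q r hq hr)

variable [Fintype V] [Fintype K] {d D Δ M R f : ℕ}

theorem card_lv1 {E X : Set (Pt P)} (hEX : ∀ p, p ∈ E → p ∈ X)
    (h1 : ∀ s a b, Res C J s a b → (lv1 con s a b).card ≤ M) {zz : ℕ → V} {s : Bool} {a b : ℕ}
    (hR : Res (C2 m C E) (J2 m J X) s a b) :
    (lv1 (con2 m con zz) s a b).card ≤ M + 1 := by
  rcases res_cases hEX hR with h | ⟨h, h2⟩
  · have h3 : lv1 (con2 m con zz) s a b ⊆ (iv (P + m) s a b).image (con2 m con zz) := by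
      intro k hk
      simp only [lv1, mem_filter, mem_univ, true_and] at hk
      obtain ⟨⟨p, hp, hp'⟩, -⟩ := hk
      exact mem_image.2 ⟨p, hp, hp'⟩
    exact (card_le_card h3).trans (card_image_le.trans ((iv_le_one h).trans (by omega)))
  · have h3 : lv1 (con2 m con zz) s a b ⊆ (lv1 con s a b).image Sum.inl := by
      intro k hk
      simp only [lv1, mem_filter, mem_univ, true_and] at hk
      obtain ⟨⟨p, hp, hp'⟩, q, hq, hq'⟩ := hk
      obtain ⟨h4, -⟩ := h p hp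
      rw [con2_lt h4] at hp'
      rw [← hp'] at hq'
      obtain ⟨h5, h6⟩ := con2_inl hq'
      refine mem_image.2 ⟨con (dn p h4), ?_, hp'⟩
      simp only [lv1, mem_filter, mem_univ, true_and]
      exact ⟨⟨dn p h4, (iv_dn h4).2 hp, rfl⟩, dn q h5, fun hc => hq ((iv_dn h5).1 hc), h6⟩
    exact (card_le_card h3).trans (card_image_le.trans ((h1 _ _ _ h2).trans (by omega)))

theorem card_ct2 {rr : {v : V // v ∉ Z} → Pt P} (hr : ∀ y, mem y (con (rr y)))
    (hd : ∀ y, (univ.filter (fun z => G.Adj y z)).card ≤ d)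
    (hΔ : ∀ κ, (members mem κ : Finset {v : V // v ∉ Z}).card ≤ Δ)
    (hD : ∀ κ, (univ.filter (fun κ' => ct κ κ')).card ≤ D) (κ : K ⊕ V) :
    (univ.filter (fun κ' => ct2 G Z con ct rr κ κ')).card ≤ D + Δ * d + d := by
  rcases κ with κ | z
  · have h1 : (univ.filter (fun κ' => ct2 G Z con ct rr (Sum.inl κ) κ')) ⊆
        (univ.filter (fun κ' => ct κ κ')).image Sum.inl ∪
          (members mem κ).biUnion (fun y => (univ.filter (fun z => G.Adj y.1 z)).image
            Sum.inr) := by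
      intro k hk
      have hk' := (mem_filter.1 hk).2
      rcases k with k | z
      · exact mem_union_left _ (mem_image.2 ⟨k, mem_filter.2 ⟨mem_univ _, hk'⟩, rfl⟩)
      · obtain ⟨-, y, h2, h3⟩ := hk'
        refine mem_union_right _ (mem_biUnion.2 ⟨y, ?_, mem_image.2 ⟨z, ?_, rfl⟩⟩)
        · simp only [members, mem_filter, mem_univ, true_and]
          rw [← h3]
          exact hr y
        · simp only [mem_filter, mem_univ, true_and]
          exact h2
    refine (card_le_card h1).trans ((card_union_le _ _).trans ?_)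
    have h2 := card_image_le (s := (univ.filter (fun κ' => ct κ κ'))) (f := (Sum.inl : K → K ⊕ V))
    have h3 := card_biUnion_le' (members mem κ : Finset {v : V // v ∉ Z})
      (fun y => (univ.filter (fun z => G.Adj y.1 z)).image (Sum.inr : V → K ⊕ V)) Δ d (hΔ κ)
      (fun y => card_image_le.trans (hd y.1))
    have h4 := hD κ
    omega
  · have h1 : (univ.filter (fun κ' => ct2 G Z con ct rr (Sum.inr z) κ')) ⊆
        (univ.filter (fun y => G.Adj z y)).image (fun y => if h : y ∉ Z then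
          Sum.inl (con (rr ⟨y, h⟩)) else Sum.inr y) := by
      intro k hk
      have hk' := (mem_filter.1 hk).2
      rcases k with k | z'
      · obtain ⟨-, y, h2, h3⟩ := hk'
        refine mem_image.2 ⟨y.1, mem_filter.2 ⟨mem_univ _, h2.symm⟩, ?_⟩
        rw [dif_pos y.2, ← h3]
      · obtain ⟨-, h2, h3⟩ := hk'
        refine mem_image.2 ⟨z', mem_filter.2 ⟨mem_univ _, h3⟩, ?_⟩
        rw [dif_neg (not_not.2 h2)]
    refine (card_le_card h1).trans (card_image_le.trans ((hd z).trans (by omega)))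

theorem card_lv2 {E X : Set (Pt P)} (hEX : ∀ p, p ∈ E → p ∈ X)
    {rr : {v : V // v ∉ Z} → Pt P} (hr : ∀ y, mem y (con (rr y)))
    (hX : ∀ p, (∃ (y : {v : V // v ∉ Z}) (z : V), z ∈ Z ∧ G.Adj y.1 z ∧ con p = con (rr y)) →
      p ∈ X)
    (hd : ∀ y, (univ.filter (fun z => G.Adj y z)).card ≤ d)
    (hΔ : ∀ κ, (members mem κ : Finset {v : V // v ∉ Z}).card ≤ Δ)
    (hD : ∀ κ, (univ.filter (fun κ' => ct κ κ')).card ≤ D)
    (h1 : ∀ s a b, Res C J s a b → (lv2 con ct s a b).card ≤ M) {zz : ℕ → V} {s : Bool} {a b : ℕ}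
    (hR : Res (C2 m C E) (J2 m J X) s a b) :
    (lv2 (con2 m con zz) (ct2 G Z con ct rr) s a b).card ≤ M + (D + Δ * d + d) := by
  rcases res_cases hEX hR with h | ⟨h, h2⟩
  · have h3 : lv2 (con2 m con zz) (ct2 G Z con ct rr) s a b ⊆ (iv (P + m) s a b).biUnion
        (fun p => (univ.filter (fun κ' => ct2 G Z con ct rr (con2 m con zz p) κ')).image
          (fun κ' => (con2 m con zz p, κ'))) := by
      rintro ⟨k, k'⟩ hk
      simp only [lv2, mem_filter, mem_univ, true_and] at hk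
      obtain ⟨h4, ⟨p, hp, hp'⟩, -⟩ := hk
      refine mem_biUnion.2 ⟨p, hp, mem_image.2 ⟨k', mem_filter.2 ⟨mem_univ _, ?_⟩, ?_⟩⟩
      · rw [hp']; exact h4
      · rw [hp']
    refine (card_le_card h3).trans ((card_biUnion_le' _ _ 1 (D + Δ * d + d) (iv_le_one h)
      (fun p => card_image_le.trans (card_ct2 hr hd hΔ hD _))).trans (by omega))
  · have h3 : lv2 (con2 m con zz) (ct2 G Z con ct rr) s a b ⊆
        (lv2 con ct s a b).image (Prod.map Sum.inl Sum.inl) := by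
      rintro ⟨k, k'⟩ hk
      simp only [lv2, mem_filter, mem_univ, true_and] at hk
      obtain ⟨h4, ⟨p, hp, hp'⟩, h5⟩ := hk
      obtain ⟨h6, h7⟩ := h p hp
      rw [con2_lt h6] at hp'
      subst hp'
      rcases k' with k' | z
      · refine mem_image.2 ⟨(con (dn p h6), k'), ?_, rfl⟩
        simp only [lv2, mem_filter, mem_univ, true_and]
        refine ⟨h4, ⟨dn p h6, (iv_dn h6).2 hp, rfl⟩, ?_⟩
        intro q hq hc
        refine h5 (up m q) (iv_up hq) ?_
        rw [con2_up, hc]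
      · exfalso
        obtain ⟨h8, y, h9, h10⟩ := h4
        exact h7 (hX _ ⟨y, z, h8, h9, h10.symm⟩)
    exact (card_le_card h3).trans (card_image_le.trans ((h1 _ _ _ h2).trans (by omega)))

omit [Fintype K] in
theorem card_members (hΔ : ∀ κ, (members mem κ : Finset {v : V // v ∉ Z}).card ≤ Δ)
    (h1 : 1 ≤ Δ) (κ : K ⊕ V) : (members (mem2 mem) κ : Finset V).card ≤ Δ := by
  rcases κ with κ | z
  · have h2 : (members (mem2 mem) (Sum.inl κ) : Finset V) ⊆ (members mem κ).image Subtype.val := by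
      intro y hy
      simp only [members, mem_filter, mem_univ, true_and] at hy
      obtain ⟨h, hy'⟩ := hy
      refine mem_image.2 ⟨⟨y, h⟩, ?_, rfl⟩
      simp only [members, mem_filter, mem_univ, true_and]
      exact hy'
    exact (card_le_card h2).trans (card_image_le.trans (hΔ κ))
  · have h2 : (members (mem2 mem) (Sum.inr z : K ⊕ V) : Finset V) ⊆ {z} := by
      intro y hy
      simp only [members, mem_filter, mem_univ, true_and] at hy
      exact mem_singleton.2 hy.1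
    exact (card_le_card h2).trans (by simpa using h1)

/-- the isolated ports -/
noncomputable def T2 (m : ℕ) (X : Set (Pt P)) : Finset (Pt (P + m)) :=
  univ.filter (fun p => ¬ ∃ h : p.1.val < P, dn p h ∉ X)

theorem card_T2 (X : Set (Pt P)) : (T2 m X).card ≤ (univ.filter (fun p => p ∈ X)).card + 2 * m := by
  have h1 : T2 m X ⊆ (univ.filter (fun p => p ∈ X)).image (up m) ∪
      (univ : Finset (Fin m × Bool)).image
        (fun x => ((⟨P + x.1.val, by have := x.1.2; omega⟩, x.2) : Pt (P + m))) := by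
    rintro ⟨⟨c, hc⟩, s⟩ hp
    have hp' := (mem_filter.1 hp).2
    by_cases h : c < P
    · refine mem_union_left _ (mem_image.2 ⟨(⟨c, h⟩, s), ?_, rfl⟩)
      refine mem_filter.2 ⟨mem_univ _, ?_⟩
      by_contra hcon
      exact hp' ⟨h, hcon⟩
    · refine mem_union_right _ (mem_image.2 ⟨(⟨c - P, by omega⟩, s), mem_univ _, ?_⟩)
      refine Prod.ext (Fin.ext ?_) rfl
      show P + (c - P) = c
      omega
  have h2 : (univ : Finset (Fin m × Bool)).card = 2 * m := by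
    rw [card_univ, Fintype.card_prod, Fintype.card_fin, Fintype.card_bool]
    ring
  refine (card_le_card h1).trans ((card_union_le _ _).trans (Nat.add_le_add card_image_le ?_))
  exact card_image_le.trans (le_of_eq h2)

theorem card_J2 (X : Set (Pt P)) :
    (univ.filter (fun x : Pt (P + m) × Pt (P + m) => Nb x.1 x.2 ∧ ¬ J2 m J X x.1 x.2)).card ≤
      (univ.filter (fun x : Pt P × Pt P => Nb x.1 x.2 ∧ ¬ J x.1 x.2)).card +
        4 * ((univ.filter (fun p => p ∈ X)).card + 2 * m) := by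
  have h1 : (univ.filter (fun x : Pt (P + m) × Pt (P + m) => Nb x.1 x.2 ∧
      ¬ J2 m J X x.1 x.2)) ⊆
      (univ.filter (fun x : Pt P × Pt P => Nb x.1 x.2 ∧ ¬ J x.1 x.2)).image
        (Prod.map (up m) (up m)) ∪
      ((T2 m X).biUnion (fun p => (univ.filter (fun q => Nb p q)).image (fun q => (p, q))) ∪
       (T2 m X).biUnion (fun p => (univ.filter (fun q => Nb p q)).image (fun q => (q, p)))) := by
    rintro ⟨p, q⟩ hx
    obtain ⟨h2, h3⟩ := (mem_filter.1 hx).2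
    by_cases hp : p ∈ T2 m X
    · refine mem_union_right _ (mem_union_left _ (mem_biUnion.2 ⟨p, hp, mem_image.2 ⟨q, ?_, rfl⟩⟩))
      exact mem_filter.2 ⟨mem_univ _, h2⟩
    by_cases hq : q ∈ T2 m X
    · refine mem_union_right _ (mem_union_right _ (mem_biUnion.2 ⟨q, hq,
        mem_image.2 ⟨p, ?_, rfl⟩⟩))
      exact mem_filter.2 ⟨mem_univ _, h2.symm⟩
    refine mem_union_left _ ?_
    simp only [T2, mem_filter, mem_univ, true_and, not_not] at hp hq
    obtain ⟨h4, h5⟩ := hp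
    obtain ⟨h6, h7⟩ := hq
    refine mem_image.2 ⟨(dn p h4, dn q h6), mem_filter.2 ⟨mem_univ _, Nb_dn h2 h4 h6, ?_⟩, rfl⟩
    intro hc
    exact h3 ⟨h4, h6, hc, h5, h7⟩
  have h2 := card_image_le (s := univ.filter (fun x : Pt P × Pt P => Nb x.1 x.2 ∧ ¬ J x.1 x.2))
    (f := Prod.map (up m) (up m))
  have h3 := card_biUnion_le' (T2 m X) (fun p => (univ.filter (fun q => Nb p q)).image
    (fun q => (p, q))) _ 2 (card_T2 X) (fun p => card_image_le.trans (card_nb p))
  have h4 := card_biUnion_le' (T2 m X) (fun p => (univ.filter (fun q => Nb p q)).image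
    (fun q => (q, p))) _ 2 (card_T2 X) (fun p => card_image_le.trans (card_nb p))
  refine (card_le_card h1).trans ((card_union_le _ _).trans ?_)
  have h5 := card_union_le
    ((T2 m X).biUnion (fun p => (univ.filter (fun q => Nb p q)).image (fun q => (p, q))))
    ((T2 m X).biUnion (fun p => (univ.filter (fun q => Nb p q)).image (fun q => (q, p))))
  omega

end Main

end Rob

open Rob

section Final

variable {V K : Type*} [Fintype V] [Fintype K] {G : SimpleGraph V} {Z : Finset V} {P : ℕ}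
  {C : Set (Pt P)} {φ : Pt P → Pt P} {J : Pt P → Pt P → Prop} {con : Pt P → K}
  {mem : {v : V // v ∉ Z} → K → Prop} {ct : K → K → Prop} {d D Δ M R L f : ℕ}

omit [Fintype K] in
/-- vertices of small degree after the deletion -/
theorem Rob.card_low {G' : SimpleGraph {v : V // v ∉ Z}} (hG : ∀ a b, G.Adj a.1 b.1 → G'.Adj a b)
    (hd : ∀ y, (univ.filter (fun z => G.Adj y z)).card ≤ d)
    (hL : (univ.filter (fun y : V => (univ.filter (fun z => G.Adj y z)).card ≤ 2)).card ≤ L) :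
    (univ.filter (fun y => (univ.filter (fun z => G'.Adj y z)).card ≤ 2)).card ≤
      L + Z.card * d := by
  set A : Finset {v : V // v ∉ Z} :=
    univ.filter (fun y => (univ.filter (fun z => G'.Adj y z)).card ≤ 2) with hA
  have h1 : A.image Subtype.val ⊆
      (univ.filter (fun y : V => (univ.filter (fun z => G.Adj y z)).card ≤ 2)) ∪
        Z.biUnion (fun z => univ.filter (fun y => G.Adj z y)) := by
    intro v hv
    obtain ⟨y, hy, rfl⟩ := mem_image.1 hv
    have hy' := (mem_filter.1 hy).2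
    by_cases h : ∃ z, z ∈ Z ∧ G.Adj z y.1
    · obtain ⟨z, hz, hzy⟩ := h
      exact mem_union_right _ (mem_biUnion.2 ⟨z, hz, mem_filter.2 ⟨mem_univ _, hzy⟩⟩)
    · refine mem_union_left _ (mem_filter.2 ⟨mem_univ _, ?_⟩)
      have h2 : (univ.filter (fun z => G.Adj y.1 z)) ⊆
          (univ.filter (fun z => G'.Adj y z)).image Subtype.val := by
        intro z hz
        have hz' := (mem_filter.1 hz).2
        have hzZ : z ∉ Z := fun hc => h ⟨z, hc, hz'.symm⟩
        exact mem_image.2 ⟨⟨z, hzZ⟩, mem_filter.2 ⟨mem_univ _, hG _ _ hz'⟩, rfl⟩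
      exact (card_le_card h2).trans (card_image_le.trans hy')
  have h2 : (A.image Subtype.val).card = A.card :=
    card_image_of_injective _ Subtype.val_injective
  rw [← h2]
  refine (card_le_card h1).trans ((card_union_le _ _).trans (Nat.add_le_add hL ?_))
  exact card_biUnion_le' _ _ _ _ (le_refl _) hd

/-- **Robust sweep.** -/
theorem robust (hS : Pre (G.comap (Subtype.val : {v : V // v ∉ Z} → V)) P C φ J con mem ct)
    (hd : ∀ y, (univ.filter (fun z => G.Adj y z)).card ≤ d)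
    (hΔ : ∀ κ, (members mem κ : Finset {v : V // v ∉ Z}).card ≤ Δ) (hΔ1 : 1 ≤ Δ)
    (hD : ∀ κ, (univ.filter (fun κ' => ct κ κ')).card ≤ D)
    (hDp : ∀ κ, (univ.filter (fun p => con p = κ)).card ≤ D)
    (hR : (univ.filter (fun x : Pt P × Pt P => Nb x.1 x.2 ∧ ¬ J x.1 x.2)).card ≤ R)
    (hL : (univ.filter (fun y : V => (univ.filter (fun z => G.Adj y z)).card ≤ 2)).card ≤ L)
    (h1 : ∀ s a b, Res C J s a b → (lv1 con s a b).card ≤ M)
    (h2 : ∀ s a b, Res C J s a b → (lv2 con ct s a b).card ≤ M)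
    (hiso : ∀ A : Finset V, (univ.filter (fun x : V × V => G.Adj x.1 x.2 ∧ x.1 ∈ A ∧
      x.2 ∉ A)).card ≤ ((M + (D + Δ * d + d + 1)) + (M + (D + Δ * d + d + 1))) * Δ * d +
        ((M + (D + Δ * d + d + 1)) + (M + (D + Δ * d + d + 1))) * (Δ * Δ) + 4 * Δ * d →
      A.card ≤ f ∨ Aᶜ.card ≤ f) :
    Fintype.card V ≤ 2 * f + 2 * Δ ∨
      Fintype.card V ≤ (2 + 2 * (R + 4 * (2 * (R + (L + Z.card * d)) + Z.card * (d * D) +
        2 * Z.card))) * (f + 2 * (M + (D + Δ * d + d + 1)) * Δ) := by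
  rcases isEmpty_or_nonempty V with hV | hV
  · left
    rw [Fintype.card_eq_zero]
    omega
  obtain ⟨zz, hzz⟩ : ∃ zz : ℕ → V, ∀ z, z ∈ Z → ∃ j < Z.card, zz j = z := by
    refine ⟨fun j => if h : j < Z.card then (Z.equivFin.symm ⟨j, h⟩).1 else
      Classical.choice hV, ?_⟩
    intro z hz
    refine ⟨(Z.equivFin ⟨z, hz⟩).val, (Z.equivFin ⟨z, hz⟩).2, ?_⟩
    show (if h : (Z.equivFin ⟨z, hz⟩).val < Z.card then (Z.equivFin.symm ⟨_, h⟩).1 else
      Classical.choice hV) = z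
    rw [dif_pos (Z.equivFin ⟨z, hz⟩).2]
    simp
  have hch : ∀ y, ∃ p, mem y (con p) ∧ (p ∉ C ∨ y ∈ cls C con mem) := by
    intro y
    by_cases h : ∃ p, mem y (con p) ∧ p ∉ C
    · obtain ⟨p, hp, hp'⟩ := h
      exact ⟨p, hp, Or.inl hp'⟩
    · push Not at h
      obtain ⟨κ, hκ⟩ := hS.ne y
      obtain ⟨p, rfl⟩ := hS.port y κ hκ
      exact ⟨p, hκ, Or.inr (mem_filter.2 ⟨mem_univ _, h⟩)⟩
  choose rr hrr using hch
  obtain ⟨E, hE⟩ : ∃ E : Set (Pt P), ∀ p, p ∈ E ↔ ∃ y, y ∈ cls C con mem ∧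
    (p = rr y ∨ p = φ (rr y)) := ⟨{p | ∃ y, y ∈ cls C con mem ∧ (p = rr y ∨ p = φ (rr y))},
    fun _ => Iff.rfl⟩
  obtain ⟨X, hX⟩ : ∃ X : Set (Pt P), ∀ p, p ∈ X ↔ p ∈ E ∨ ∃ (y : {v : V // v ∉ Z}) (z : V),
    z ∈ Z ∧ G.Adj y.1 z ∧ con p = con (rr y) := ⟨{p | p ∈ E ∨ ∃ (y : {v : V // v ∉ Z}) (z : V),
    z ∈ Z ∧ G.Adj y.1 z ∧ con p = con (rr y)}, fun _ => Iff.rfl⟩
  have hcls : ∀ y, y ∈ cls C con mem → rr y ∈ C :=
    fun y hy => (mem_filter.1 hy).2 _ (hrr y).1
  have hEφ : ∀ p, p ∈ E → p ∈ C → φ p ∈ E := by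
    intro p hp hpC
    obtain ⟨y, hy, hp | hp⟩ := (hE p).1 hp
    · exact (hE _).2 ⟨y, hy, Or.inr (by rw [hp])⟩
    · exact (hE _).2 ⟨y, hy, Or.inl (by rw [hp, hS.inv _ (hcls y hy)])⟩
  have hr : ∀ y, mem y (con (rr y)) ∧ (rr y ∉ C ∨ rr y ∈ E) := by
    intro y
    refine ⟨(hrr y).1, (hrr y).2.imp_right (fun h => (hE _).2 ⟨y, h, Or.inl rfl⟩)⟩
  have hEX : ∀ p, p ∈ E → p ∈ X := fun p hp => (hX p).2 (Or.inl hp)
  have hsys := Rob.sys hS (E := E) (X := X) hEφ hr hX hzz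
  -- the isolated ports
  have hXc : (univ.filter (fun p => p ∈ X)).card ≤
      2 * (R + (L + Z.card * d)) + Z.card * (d * D) := by
    have e1 : (univ.filter (fun p => p ∈ X)) ⊆
        ((cls C con mem : Finset {v : V // v ∉ Z}).image rr ∪
          (cls C con mem : Finset {v : V // v ∉ Z}).image (fun y => φ (rr y))) ∪
        Z.biUnion (fun z => (univ.filter (fun y => G.Adj z y)).biUnion (fun y =>
          if h : y ∉ Z then univ.filter (fun p => con p = con (rr ⟨y, h⟩)) else ∅)) := by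
      intro p hp
      rcases (hX p).1 (mem_filter.1 hp).2 with h0 | ⟨y, z, hz, hyz, h⟩
      · obtain ⟨y, hy, h | h⟩ := (hE p).1 h0
        · exact mem_union_left _ (mem_union_left _ (mem_image.2 ⟨y, hy, h.symm⟩))
        · exact mem_union_left _ (mem_union_right _ (mem_image.2 ⟨y, hy, h.symm⟩))
      · refine mem_union_right _ (mem_biUnion.2 ⟨z, hz, mem_biUnion.2 ⟨y.1,
          mem_filter.2 ⟨mem_univ _, hyz.symm⟩, ?_⟩⟩)
        rw [dif_pos y.2]
        exact mem_filter.2 ⟨mem_univ _, h⟩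
    have e2 := hS.card_cls
    have e3 := Rob.card_low (Z := Z) (G' := G.comap (Subtype.val : {v : V // v ∉ Z} → V))
      (fun _ _ h => h) hd hL
    have e4 := card_image_le (s := (cls C con mem : Finset {v : V // v ∉ Z})) (f := rr)
    have e5 := card_image_le (s := (cls C con mem : Finset {v : V // v ∉ Z}))
      (f := fun y => φ (rr y))
    have e6 : (Z.biUnion (fun z => (univ.filter (fun y => G.Adj z y)).biUnion (fun y =>
          if h : y ∉ Z then univ.filter (fun p => con p = con (rr ⟨y, h⟩)) else ∅))).card ≤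
          Z.card * (d * D) := by
      refine card_biUnion_le' _ _ _ _ (le_refl _) (fun z => card_biUnion_le' _ _ _ _ (hd z) ?_)
      intro y
      by_cases h : y ∉ Z
      · rw [dif_pos h]
        exact hDp _
      · rw [dif_neg h, card_empty]
        exact Nat.zero_le _
    refine (card_le_card e1).trans ((card_union_le _ _).trans (Nat.add_le_add ?_ e6))
    refine (card_union_le _ _).trans ?_
    omega
  have hR2 : (univ.filter (fun x : Pt (P + Z.card) × Pt (P + Z.card) => Nb x.1 x.2 ∧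
      ¬ J2 Z.card J X x.1 x.2)).card ≤
      R + 4 * (2 * (R + (L + Z.card * d)) + Z.card * (d * D) + 2 * Z.card) := by
    have := card_J2 (m := Z.card) (J := J) X
    omega
  have hres := sweep hsys hd (card_members hΔ hΔ1) hR2
    (M := M + (D + Δ * d + d + 1)) (f := f)
    (fun s a b h => (card_lv1 hEX h1 h).trans (by omega))
    (fun s a b h => (card_lv2 hEX (fun y => (hr y).1) (fun p hp => (hX p).2 (Or.inr hp)) hd hΔ hD h2 h).trans
      (by omega)) hiso
  refine hres.imp_right (fun h => h.trans (le_of_eq ?_))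
  ring

end Final

end EN.Sweep
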