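import Pool.Agent.EN.Bound
import Pool.Agent.EN.Robust

/-!
The robust bound of T-star: missing vertices, closed lines.
-/

set_option autoImplicit false

open Finset EN.Walk EN.Sweep
open scoped Classical

namespace EN.GlueS

/-- members of connectors, edges; a vertex has a grounded member or it has at least as many full
columns as connectors -/
structure Mem2 {κ V : Type*} [Fintype κ] (Y : EN.Sys κ) {P : ℕ} (pos : Pt P → ℕ)
    (G : SimpleGraph V) (mem : V → κ → Prop) : Prop where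
  port : ∀ y k, mem y k → ∃ p, Y.own (pos p) = k
  conn : ∀ y (T : Set κ), (∃ k, mem y k ∧ k ∈ T) → (∃ k, mem y k ∧ k ∉ T) →
    ∃ p, mem y (Y.own (pos p)) ∧ mem y (Y.own (pos (flp p))) ∧ Y.own (pos p) ∈ T ∧
      Y.own (pos (flp p)) ∉ T
  ne : ∀ y, ∃ k, mem y k
  one : ∀ y z k, mem y k → mem z k → y ≠ z → Y.gr k
  cyc : ∀ y, (∃ k, mem y k ∧ Y.gr k) ∨ (univ.filter (fun k => mem y k)).card ≤
    (univ.filter (fun c : Fin P => mem y (Y.own (pos (c, false))) ∧
      mem y (Y.own (pos (c, true))))).card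
  edge : ∀ y z, G.Adj y z → (∃ k, mem y k ∧ mem z k) ∨
    (∃ k k', mem y k ∧ mem z k' ∧ Y.ct k k') ∨
    (∃ p, mem y (Y.own (pos p)) ∧ mem z (Y.own (pos (flp p)))) ∨
    (∃ p p', Nb p p' ∧ mem y (Y.own (pos p)) ∧
      (mem z (Y.own (pos p')) ∨ mem z (Y.own (pos (flp p')))))

variable {κ V : Type*} [Fintype κ] {Y : EN.Sys κ} {cut : Finset ℕ} {C : Set ℕ} {φ : ℕ → ℕ}
  {M P B D : ℕ} {pos : Pt P → ℕ} {G : SimpleGraph V} {mem : V → κ → Prop}

/-- closed lines from the count -/
theorem closed_of_count {K : Type*} [Fintype K] {P : ℕ} {C : Set (Pt P)} {φ : Pt P → Pt P}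
    {con : Pt P → K} {m : K → Prop}
    (htwo : ∀ p, p ∈ C → ∀ p', con p' = con p → p' = p ∨ p' = φ p)
    (hall : ∀ p, m (con p) → p ∈ C)
    (hc : (univ.filter (fun k => m k)).card ≤
      (univ.filter (fun c : Fin P => m (con (c, false)) ∧ m (con (c, true)))).card)
    (p : Pt P) (hp : m (con p)) : con (φ p) = con p ∧ m (con (flp p)) := by
  set Mk : Finset K := univ.filter (fun k => m k) with hMk
  set F : Finset (Fin P) := univ.filter (fun c : Fin P => m (con (c, false)) ∧ m (con (c, true)))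
    with hF
  set S : Finset (Pt P) := univ.filter (fun p => m (con p)) with hSd
  have hFS : F ×ˢ (univ : Finset Bool) ⊆ S := by
    rintro ⟨c, s⟩ hx
    have h1 := (mem_filter.1 (mem_product.1 hx).1).2
    refine mem_filter.2 ⟨mem_univ _, ?_⟩
    rcases s with _ | _
    · exact h1.1
    · exact h1.2
  have hcF : (F ×ˢ (univ : Finset Bool)).card = 2 * F.card := by
    rw [card_product, card_univ, Fintype.card_bool]
    ring
  have hfib : S.card = ∑ k ∈ Mk, (S.filter (fun q => con q = k)).card :=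
    card_eq_sum_card_fiberwise (fun q hq => mem_coe.2 (mem_filter.2 ⟨mem_univ _,
      (mem_filter.1 (mem_coe.1 hq)).2⟩))
  have hsub2 : ∀ k ∈ Mk, ∀ q, q ∈ S.filter (fun q => con q = k) →
      S.filter (fun q => con q = k) ⊆ {q, φ q} := by
    intro k _ q hq r hr
    obtain ⟨h1, h2⟩ := mem_filter.1 hq
    obtain ⟨h3, h4⟩ := mem_filter.1 hr
    rw [mem_insert, mem_singleton]
    exact htwo q (hall q (mem_filter.1 h1).2) r (h4.trans h2.symm)
  have hle2 : ∀ k ∈ Mk, (S.filter (fun q => con q = k)).card ≤ 2 := by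
    intro k hk
    rcases (S.filter (fun q => con q = k)).eq_empty_or_nonempty with h | ⟨q, hq⟩
    · rw [h, card_empty]
      omega
    · exact (card_le_card (hsub2 k hk q hq)).trans card_le_two
  have hS2 : S.card ≤ 2 * Mk.card := by
    rw [hfib]
    refine (sum_le_sum hle2).trans (le_of_eq ?_)
    rw [sum_const, smul_eq_mul]
    ring
  have hFS' : F ×ˢ (univ : Finset Bool) = S := eq_of_subset_of_card_le hFS (by rw [hcF]; omega)
  have hpS : p ∈ S := mem_filter.2 ⟨mem_univ _, hp⟩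
  constructor
  · by_contra hne
    have hlt : S.card < 2 * Mk.card := by
      rw [hfib]
      have h1 : ∑ k ∈ Mk, (S.filter (fun q => con q = k)).card < ∑ _k ∈ Mk, 2 := by
        refine sum_lt_sum hle2 ⟨con p, mem_filter.2 ⟨mem_univ _, hp⟩, ?_⟩
        have h2 : S.filter (fun q => con q = con p) ⊆ {p} := by
          intro q hq
          obtain ⟨-, h3⟩ := mem_filter.1 hq
          rcases htwo p (hall p hp) q h3 with h | h
          · rw [mem_singleton]; exact h
          · exact absurd (h ▸ h3) hne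
        have h4 := card_le_card h2
        rw [card_singleton] at h4
        omega
      rw [sum_const, smul_eq_mul] at h1
      omega
    rw [← hFS', hcF] at hlt
    omega
  · rw [← hFS'] at hpS
    have h1 := (mem_product.1 hpS).1
    have h2 : flp p ∈ F ×ˢ (univ : Finset Bool) := mem_product.2 ⟨h1, mem_univ _⟩
    rw [hFS'] at h2
    exact (mem_filter.1 h2).2

/-- the system of module III -/
theorem pre (hP : Place Y pos B) (hS : Strips Y cut C φ M) (hG : Mem2 Y pos G mem) :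
    EN.Sweep.Pre G P {p | pos p ∈ C} (phi pos φ) (Jn Y cut pos) (fun p => Y.own (pos p)) mem
      Y.ct := by
  have hmC : ∀ p : Pt P, pos p ∈ C → pos (phi pos φ p) ∈ C := by
    intro p hp
    rw [pos_phi hP hS hp]
    exact hS.memC _ hp
  have hinv : ∀ p : Pt P, pos p ∈ C → phi pos φ (phi pos φ p) = p := by
    intro p hp
    apply hP.inj
    rw [pos_phi hP hS (hmC p hp), pos_phi hP hS hp]
    exact hS.inv _ hp
  have htwo : ∀ p : Pt P, pos p ∈ C → ∀ p', Y.own (pos p') = Y.own (pos p) →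
      p' = p ∨ p' = phi pos φ p := by
    intro p hp p' h
    rcases hS.two (pos p) hp (pos p') (hP.lt _) h with h1 | h1
    · exact Or.inl (hP.inj h1)
    · right
      apply hP.inj
      rw [pos_phi hP hS hp, h1]
  refine ⟨hmC, hinv, htwo, ?_, fun p p' h => h.nb hP, fun p p' h => h.symm,
    fun p p' h hp => h.memC hP hS hp, fun p p' h hp => h.phi hP hS hp, hG.port,
    fun y κ κ' h1 h2 => conn_of_cut (hG.conn y) κ κ' h1 h2, hG.edge, hG.ne, ?_, ?_⟩
  · intro p hp k hk
    rcases hS.noct (pos p) hp k hk with h1 | ⟨x, h1, h2, h3, h4⟩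
    · left
      show k = Y.own (pos (phi pos φ p))
      rw [pos_phi hP hS hp]
      exact h1
    · right
      obtain ⟨p', rfl⟩ := hP.surj x h1
      refine ⟨p', ?_, h4⟩
      have e := pos_phi hP hS hp
      rw [← e] at h2 h3
      rcases h3 with h3 | h3
      · exact hP.nb' _ _ h3 h2.symm
      · exact (hP.nb' _ _ h3.symm h2).symm
  · intro p hp y z h1 h2
    by_contra hne
    exact hS.ngr _ hp (hG.one y z _ h1 h2 hne)
  · intro y
    by_cases hall : ∀ p : Pt P, mem y (Y.own (pos p)) → pos p ∈ C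
    · right
      have hc : (univ.filter (fun k => mem y k)).card ≤
          (univ.filter (fun c : Fin P => mem y (Y.own (pos (c, false))) ∧
            mem y (Y.own (pos (c, true))))).card := by
        rcases hG.cyc y with ⟨k, h1, h2⟩ | h
        · exfalso
          obtain ⟨p, rfl⟩ := hG.port y k h1
          exact hS.ngr _ (hall p h1) h2
        · exact h
      exact closed_of_count (C := {p | pos p ∈ C}) (φ := phi pos φ)
        (con := fun p => Y.own (pos p)) (m := mem y) htwo hall hc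
    · left
      push Not at hall
      obtain ⟨p, h1, h2⟩ := hall
      exact ⟨p, h1, h2⟩

/-- **The robust bound.** -/
theorem bound_rob {κ V : Type*} [Fintype κ] [Fintype V] {Y : EN.Sys κ} {P B D M K d Δ L f : ℕ}
    {pos : Pt P → ℕ} {G : SimpleGraph V} {Z : Finset V} {mem : {v : V // v ∉ Z} → κ → Prop}
    (hY : Y.Ax D) (hM : 1 ≤ M)
    (hcore : ∀ (n : ℕ) (s e : ℕ → ℕ), (∀ i < n, Y.Bad M (s i) (e i)) →
      (∀ i, i + 1 < n → e i < s (i + 1)) → n ≤ K * Y.R)
    (hP : Place Y pos B)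
    (hG : Mem2 Y pos (G.comap (Subtype.val : {v : V // v ∉ Z} → V)) mem)
    (hd : ∀ y, (univ.filter (fun z => G.Adj y z)).card ≤ d)
    (hΔ : ∀ k, (univ.filter (fun y => mem y k) : Finset {v : V // v ∉ Z}).card ≤ Δ)
    (hΔ1 : 1 ≤ Δ)
    (hL : (univ.filter (fun y : V => (univ.filter (fun z => G.Adj y z)).card ≤ 2)).card ≤ L)
    (hiso : ∀ A : Finset V, (univ.filter (fun x : V × V => G.Adj x.1 x.2 ∧ x.1 ∈ A ∧
      x.2 ∉ A)).card ≤
        ((2 * M * (4 * D + 1) + (D + Δ * d + d + 1)) +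
          (2 * M * (4 * D + 1) + (D + Δ * d + d + 1))) * Δ * d +
        ((2 * M * (4 * D + 1) + (D + Δ * d + d + 1)) +
          (2 * M * (4 * D + 1) + (D + Δ * d + d + 1))) * (Δ * Δ) + 4 * Δ * d →
      A.card ≤ f ∨ Aᶜ.card ≤ f) :
    Fintype.card V ≤ 2 * f + 2 * Δ ∨
      Fintype.card V ≤ (2 + 2 * ((B + 2 * ((K + 1) * Y.R * (5 + 2 * M))) +
        4 * (2 * ((B + 2 * ((K + 1) * Y.R * (5 + 2 * M))) + (L + Z.card * d)) +
          Z.card * (d * D) + 2 * Z.card))) *
        (f + 2 * (2 * M * (4 * D + 1) + (D + Δ * d + d + 1)) * Δ) := by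
  have hS := EN.Part.strips hY hM
  have hc := EN.Part.card_cut hY hM hcore
  have h2 : (EN.Part.cut Y M).card ≤ (K + 1) * Y.R * (5 + 2 * M) := by
    refine hc.trans ?_
    have e2 : (K + 1) * Y.R * (5 + 2 * M) = 2 * (K * Y.R + Y.R) + 2 * ((K * Y.R + Y.R) * M) +
      2 * (K * Y.R) + Y.R + (K * Y.R + 2 * Y.R) := by ring
    omega
  refine robust (R := B + 2 * ((K + 1) * Y.R * (5 + 2 * M))) (pre hP hS hG) hd hΔ hΔ1 (D := D)
    (M := 2 * M * (4 * D + 1)) ?_ ?_ ?_ hL ?_ ?_ hiso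
  · intro k
    exact hY.a6 k _ (fun k' hk' => (mem_filter.1 hk').2)
  · intro k
    rw [← card_image_of_injective _ hP.inj]
    refine hY.a5 k _ ?_
    intro x hx
    obtain ⟨p, hp, rfl⟩ := mem_image.1 hx
    exact ⟨hP.lt p, (mem_filter.1 hp).2⟩
  · exact (card_cut hP).trans (by omega)
  · intro s a b h
    refine (card_lv1 hP hS h).trans ?_
    exact Nat.le_mul_of_pos_right _ (by omega)
  · intro s a b h
    refine (card_lv2 hY hP hS h).trans ?_
    exact Nat.mul_le_mul_left _ (by omega)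

/-- the robust bound, hypotheses without instances -/
theorem bound_rob' {κ V : Type*} [Fintype κ] [Fintype V] {Y : EN.Sys κ} {P B D M K d Δ L f : ℕ}
    {pos : Pt P → ℕ} {G : SimpleGraph V} {Z : Finset V} {mem : {v : V // v ∉ Z} → κ → Prop}
    (hY : Y.Ax D) (hM : 1 ≤ M)
    (hcore : ∀ (n : ℕ) (s e : ℕ → ℕ), (∀ i < n, Y.Bad M (s i) (e i)) →
      (∀ i, i + 1 < n → e i < s (i + 1)) → n ≤ K * Y.R)
    (hP : Place Y pos B)
    (hG : Mem2 Y pos (G.comap (Subtype.val : {v : V // v ∉ Z} → V)) mem)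
    (hd : ∀ y, ∀ A : Finset V, (∀ z ∈ A, G.Adj y z) → A.card ≤ d)
    (hΔ : ∀ k, ∀ A : Finset {v : V // v ∉ Z}, (∀ y ∈ A, mem y k) → A.card ≤ Δ)
    (hΔ1 : 1 ≤ Δ)
    (hL : ∀ A : Finset V, (∀ y ∈ A, ∀ A' : Finset V, (∀ z ∈ A', G.Adj y z) → A'.card ≤ 2) →
      A.card ≤ L)
    (hiso : ∀ A : Finset V, (∀ E : Finset (V × V), (∀ x ∈ E, G.Adj x.1 x.2 ∧ x.1 ∈ A ∧
      x.2 ∉ A) → E.card ≤
        ((2 * M * (4 * D + 1) + (D + Δ * d + d + 1)) +
          (2 * M * (4 * D + 1) + (D + Δ * d + d + 1))) * Δ * d +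
        ((2 * M * (4 * D + 1) + (D + Δ * d + d + 1)) +
          (2 * M * (4 * D + 1) + (D + Δ * d + d + 1))) * (Δ * Δ) + 4 * Δ * d) →
      A.card ≤ f ∨ Fintype.card V - A.card ≤ f) :
    Fintype.card V ≤ 2 * f + 2 * Δ ∨
      Fintype.card V ≤ (2 + 2 * ((B + 2 * ((K + 1) * Y.R * (5 + 2 * M))) +
        4 * (2 * ((B + 2 * ((K + 1) * Y.R * (5 + 2 * M))) + (L + Z.card * d)) +
          Z.card * (d * D) + 2 * Z.card))) *
        (f + 2 * (2 * M * (4 * D + 1) + (D + Δ * d + d + 1)) * Δ) := by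
  refine bound_rob hY hM hcore hP hG (fun y => hd y _ (fun z hz => (mem_filter.1 hz).2))
    (fun k => hΔ k _ (fun y hy => (mem_filter.1 hy).2)) hΔ1 (hL _ ?_) ?_
  · intro y hy A' hA'
    exact (card_le_card (fun z hz => mem_filter.2 ⟨mem_univ _, hA' z hz⟩)).trans
      (mem_filter.1 hy).2
  · intro A hA
    rw [card_compl]
    refine hiso A (fun E hE => (card_le_card ?_).trans hA)
    intro x hx
    exact mem_filter.2 ⟨mem_univ _, hE x hx⟩

end EN.GlueS
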