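import Pool.Agent.EN.Dich

/-!
# A region without defects is a piece of a strip

`Calm`: a region (an interval `[a0, a5]` of a shore and an interval `[b0, b5]` of a shore, the second
one numbered by `q`, increasing or decreasing) without grounds, without chords, without crossing
rungs, all links from the middle part stay in the region.  Then the middle part is clean
(`Calm.clean`): type D or type Z.
-/

namespace EN

namespace Sys

variable {κ : Type*} (Y : Sys κ)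

/-- A region without defects. -/
structure Calm (a0 a1 a4 a5 b0 b5 B k1 k4 : ℕ) (q : ℕ → ℕ) : Prop where
  a01 : a0 ≤ a1
  a45 : a4 ≤ a5
  a5L : a5 < Y.L
  sha : Y.sh a0 = Y.sh a5
  b5L : b5 < Y.L
  shb : Y.sh b0 = Y.sh b5
  far : a5 < b0 ∨ b5 < a0
  qr : ∀ k ≤ B, b0 ≤ q k ∧ q k ≤ b5
  qs : ∀ w, b0 ≤ w → w ≤ b5 → ∃ k ≤ B, q k = w
  qi : ∀ k ≤ B, ∀ k' ≤ B, q k = q k' → k = k'
  st : (∀ k, k + 1 ≤ B → q (k + 1) = q k + 1) ∨ ∀ k, k + 1 ≤ B → q k = q (k + 1) + 1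
  k1B : k1 ≤ B
  k4B : k4 ≤ B
  gr : ∀ x, (a0 ≤ x ∧ x ≤ a5) ∨ (b0 ≤ x ∧ x ≤ b5) → ¬ Y.gr (Y.own x)
  chP : ∀ u v, a0 ≤ u → u < v → v ≤ a5 → ¬ Y.Lk u v
  chQ : ∀ u v, b0 ≤ u → u < v → v ≤ b5 → ¬ Y.Lk u v
  inP : ∀ u v, Y.Lk u v → a1 ≤ u → u ≤ a4 → (a0 ≤ v ∧ v ≤ a5) ∨ (b0 ≤ v ∧ v ≤ b5)
  inQ : ∀ k v, k1 ≤ k → k ≤ k4 → Y.Lk (q k) v → (a0 ≤ v ∧ v ≤ a5) ∨ (b0 ≤ v ∧ v ≤ b5)
  cr : ∀ u u' k k', a0 ≤ u → u < u' → u' ≤ a5 → k ≤ B → k' ≤ B → Y.Lk u (q k) → Y.Lk u' (q k') →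
    Y.Dj [u, q k] [u', q k'] → k < k'
  r1 : Y.Lk a1 (q k1)
  r4 : Y.Lk a4 (q k4)

variable {Y}

namespace Calm

variable {a0 a1 a4 a5 b0 b5 B k1 k4 : ℕ} {q : ℕ → ℕ}

/-- No chord on the first side, any order. -/
lemma chP' (h : Y.Calm a0 a1 a4 a5 b0 b5 B k1 k4 q) {D : ℕ} (hY : Y.Ax D) {u v : ℕ} (hu : a0 ≤ u)
    (hu' : u ≤ a5) (hv : a0 ≤ v) (hv' : v ≤ a5) : ¬ Y.Lk u v := by
  intro hl
  rcases Nat.lt_trichotomy u v with g | g | g
  · exact h.chP u v hu g hv' hl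
  · exact hl.2.2.1 g
  · exact h.chP v u hv g hu' (hl.symm hY)

lemma chQ' (h : Y.Calm a0 a1 a4 a5 b0 b5 B k1 k4 q) {D : ℕ} (hY : Y.Ax D) {u v : ℕ} (hu : b0 ≤ u)
    (hu' : u ≤ b5) (hv : b0 ≤ v) (hv' : v ≤ b5) : ¬ Y.Lk u v := by
  intro hl
  rcases Nat.lt_trichotomy u v with g | g | g
  · exact h.chQ u v hu g hv' hl
  · exact hl.2.2.1 g
  · exact h.chQ v u hv g hu' (hl.symm hY)

/-- Links from the middle part of the first side go to the second side. -/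
lemma toQ (h : Y.Calm a0 a1 a4 a5 b0 b5 B k1 k4 q) {D : ℕ} (hY : Y.Ax D) {u v : ℕ} (hl : Y.Lk u v)
    (hu : a1 ≤ u) (hu' : u ≤ a4) : b0 ≤ v ∧ v ≤ b5 := by
  have h1 := h.a01
  have h2 := h.a45
  rcases h.inP u v hl hu hu' with g | g
  · exact absurd hl (h.chP' hY (by omega) (by omega) g.1 g.2)
  · exact g

lemma toP (h : Y.Calm a0 a1 a4 a5 b0 b5 B k1 k4 q) {D : ℕ} (hY : Y.Ax D) {k v : ℕ}
    (hk : k1 ≤ k) (hk' : k ≤ k4) (hl : Y.Lk (q k) v) : a0 ≤ v ∧ v ≤ a5 := by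
  have h2 := h.k4B
  have h1 := h.qr k (by omega)
  rcases h.inQ k v hk hk' hl with g | g
  · exact g
  · exact absurd hl (h.chQ' hY h1.1 h1.2 g.1 g.2)

/-- Different rungs are disjoint. -/
lemma dj (h : Y.Calm a0 a1 a4 a5 b0 b5 B k1 k4 q) {D : ℕ} (hY : Y.Ax D) {u u' w w' : ℕ}
    (hu : a0 ≤ u ∧ u ≤ a5) (hu' : a0 ≤ u' ∧ u' ≤ a5) (hw : b0 ≤ w ∧ w ≤ b5)
    (hw' : b0 ≤ w' ∧ w' ≤ b5) (hne : u ≠ u') (hne' : w ≠ w') (h1 : Y.Lk u w) (h2 : Y.Lk u' w') :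
    Y.Dj [u, w] [u', w'] := by
  have e1 : Y.own u ≠ Y.own u' := fun e =>
    h.chP' hY hu.1 hu.2 hu'.1 hu'.2 ⟨h1.1, h2.1, hne, Or.inl e⟩
  have e2 : Y.own w ≠ Y.own w' := fun e =>
    h.chQ' hY hw.1 hw.2 hw'.1 hw'.2 ⟨h1.2.1, h2.2.1, hne', Or.inl e⟩
  have e3 : Y.own u ≠ Y.own w' := by
    intro e
    rcases h2.2.2.2 with g | g
    · exact e1 (e.trans g.symm)
    · rw [← e] at g
      exact h.chP' hY hu.1 hu.2 hu'.1 hu'.2 ⟨h1.1, h2.1, hne, Or.inr (hY.symm _ _ g)⟩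
  have e4 : Y.own w ≠ Y.own u' := by
    intro e
    rcases h1.2.2.2 with g | g
    · exact e1 (g.trans e)
    · rw [e] at g
      exact h.chP' hY hu.1 hu.2 hu'.1 hu'.2 ⟨h1.1, h2.1, hne, Or.inr g⟩
  intro x hx y hy
  simp only [List.mem_cons, List.not_mem_nil, or_false] at hx hy
  rcases hx with rfl | rfl <;> rcases hy with rfl | rfl <;> assumption

/-- The relation between the two sides. -/
def E (Y : Sys κ) (a0 a5 B : ℕ) (q : ℕ → ℕ) (i k : ℕ) : Prop :=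
  a0 ≤ i ∧ i ≤ a5 ∧ k ≤ B ∧ Y.Lk i (q k)

/-- Connector with a second port. -/
def Dbl (Y : Sys κ) (x : ℕ) : Prop := ∃ y < Y.L, y ≠ x ∧ Y.own y = Y.own x

lemma single {x : ℕ} (hd : ¬ Dbl Y x) : ∀ z < Y.L, Y.own z = Y.own x → z = x := by
  intro z hz h
  by_contra hne
  exact hd ⟨z, hz, hne, h⟩

/-- A port without second port and without ground in its neighbourhood has two contacts. -/
lemma two_ports {D : ℕ} (hY : Y.Ax D) {x : ℕ} (hx : x < Y.L) (hd : ¬ Dbl Y x)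
    (hg : ¬ Y.gr (Y.own x)) (hg' : ∀ z, Y.Lk x z → ¬ Y.gr (Y.own z)) :
    ∃ z z', z ≠ z' ∧ Y.Lk x z ∧ Y.Lk x z' := by
  have key : ∀ k, Y.ct (Y.own x) k → ∃ z, Y.own z = k ∧ Y.Lk x z := by
    intro k hk
    obtain ⟨z, hz, rfl⟩ := hY.a4 _ _ hk
    refine ⟨z, rfl, hx, hz, ?_, Or.inr hk⟩
    rintro rfl
    exact hY.irr _ hk
  rcases hY.a2 x hx hg (single hd) with ⟨k, k', hkk, h1, h2⟩ | ⟨k, h1, h2⟩
  · obtain ⟨z, hz, hz'⟩ := key k h1
    obtain ⟨z', hz2, hz2'⟩ := key k' h2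
    refine ⟨z, z', ?_, hz', hz2'⟩
    rintro rfl
    exact hkk (hz.symm.trans hz2)
  · obtain ⟨z, hz, hz'⟩ := key k h1
    exact absurd (by rw [hz]; exact h2) (hg' z hz')

lemma zz (h : Y.Calm a0 a1 a4 a5 b0 b5 B k1 k4 q) {D : ℕ} (hY : Y.Ax D) (h14 : a1 < a4) :
    Zz (E Y a0 a5 B q) (Dbl Y) (fun k => Dbl Y (q k)) (a1 + 1) (a4 - 1) k1 k4 := by
  have h01 := h.a01
  have h45 := h.a45
  have hk1 := h.k1B
  have hk4 := h.k4B
  have h5 := h.a5L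
  have hb5 := h.b5L
  have hmono : ∀ i i' k k', i < i' → E Y a0 a5 B q i k → E Y a0 a5 B q i' k' → k ≤ k' := by
    rintro i i' k k' hi ⟨e1, e2, e3, e4⟩ ⟨f1, f2, f3, f4⟩
    rcases eq_or_ne k k' with g | g
    · omega
    · have hne : q k ≠ q k' := fun e => g (h.qi k e3 k' f3 e)
      exact (h.cr i i' k k' e1 hi f2 e3 f3 e4 f4
        (h.dj hY ⟨e1, e2⟩ ⟨f1, f2⟩ (h.qr k e3) (h.qr k' f3) (by omega) hne e4 f4)).le
  have hE1 : E Y a0 a5 B q a1 k1 := ⟨h01, by omega, hk1, h.r1⟩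
  have hE4 : E Y a0 a5 B q a4 k4 := ⟨by omega, h45, hk4, h.r4⟩
  -- contacts of a double connector
  have hdd : ∀ i k, E Y a0 a5 B q i k → (Dbl Y i → (∀ v, Y.Lk i v → b0 ≤ v ∧ v ≤ b5) →
      Y.own i = Y.own (q k)) := by
    rintro i k ⟨e1, e2, e3, e4⟩ ⟨y, hy, hyi, hyo⟩ hv
    rcases e4.2.2.2 with g | g
    · exact g
    · exfalso
      have hly : Y.Lk i y := ⟨by omega, hy, hyi.symm, Or.inl hyo.symm⟩
      have h1 := hv y hly
      have h2 := h.qr k e3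
      have h3 : Y.Lk y (q k) := by
        refine ⟨hy, by omega, ?_, Or.inr (by rw [hyo]; exact g)⟩
        rintro rfl
        rw [hyo] at g
        exact hY.irr _ g
      exact h.chQ' hY h1.1 h1.2 h2.1 h2.2 h3
  have hdd' : ∀ i k, E Y a0 a5 B q i k → (Dbl Y (q k) → (∀ v, Y.Lk (q k) v → a0 ≤ v ∧ v ≤ a5) →
      Y.own i = Y.own (q k)) := by
    rintro i k ⟨e1, e2, e3, e4⟩ ⟨y, hy, hyi, hyo⟩ hv
    rcases e4.2.2.2 with g | g
    · exact g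
    · exfalso
      have h2 := h.qr k e3
      have hly : Y.Lk (q k) y := ⟨by omega, hy, hyi.symm, Or.inl hyo.symm⟩
      have h1 := hv y hly
      have h3 : Y.Lk i y := by
        refine ⟨by omega, hy, ?_, Or.inr (by rw [hyo]; exact g)⟩
        rintro rfl
        rw [hyo] at g
        exact hY.irr _ g
      exact h.chP' hY e1 e2 h1.1 h1.2 h3
  refine ⟨hmono, ?_, ?_, ?_, ?_, ?_, ?_, ?_⟩
  · intro i k hi hi' he
    exact ⟨hmono a1 i k1 k (by omega) hE1 he, hmono i a4 k k4 (by omega) he hE4⟩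
  · intro i k hi hi' hd he
    have h1 := hdd i k he hd (fun v hv => h.toQ hY hv (by omega) (by omega))
    have h2 := h.qr k he.2.2.1
    have := h.far
    have := he.1
    have := he.2.1
    exact ⟨i, by omega, by omega, h1⟩
  · intro i k hi hi' hd he
    have h1 := hdd' i k he hd (fun v hv => h.toP hY hi hi' hv)
    have h2 := h.qr k he.2.2.1
    have := h.far
    have := he.1
    have := he.2.1
    exact ⟨q k, by omega, by omega, h1.symm⟩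
  · intro i hi hi' hd
    obtain ⟨y, hy, hyi, hyo⟩ := hd
    have hly : Y.Lk i y := ⟨by omega, hy, hyi.symm, Or.inl hyo.symm⟩
    have h1 := h.toQ hY hly (by omega) (by omega)
    obtain ⟨k, hk, hk'⟩ := h.qs y h1.1 h1.2
    refine ⟨k, ⟨by omega, by omega, hk, by rw [hk']; exact hly⟩, ?_⟩
    intro k' hk2
    have h2 := hdd i k' hk2 ⟨y, hy, hyi, hyo⟩ (fun v hv => h.toQ hY hv (by omega) (by omega))
    have h3 := h.qr k' hk2.2.2.1
    by_contra hne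
    have h4 : y ≠ q k' := by
      rintro e
      exact hne (h.qi k' hk2.2.2.1 k hk (by rw [hk', ← e]))
    exact h.chQ' hY h1.1 h1.2 h3.1 h3.2 ⟨hy, by omega, h4, Or.inl (hyo.trans h2)⟩
  · intro k hk hk' hd
    obtain ⟨y, hy, hyi, hyo⟩ := hd
    have h0 := h.qr k (by omega)
    have hly : Y.Lk (q k) y := ⟨by omega, hy, hyi.symm, Or.inl hyo.symm⟩
    have h1 := h.toP hY hk hk' hly
    refine ⟨y, ⟨h1.1, h1.2, by omega, hly.symm hY⟩, ?_⟩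
    intro i hi
    have h2 := hdd' i k hi ⟨y, hy, hyi, hyo⟩ (fun v hv => h.toP hY hk hk' hv)
    by_contra hne
    exact h.chP' hY h1.1 h1.2 hi.1 hi.2.1 ⟨hy, by have := hi.2.1; omega, fun e => hne e.symm,
      Or.inl (hyo.trans h2.symm)⟩
  · intro i hi hi' hd
    obtain ⟨z, z', hzz, h1, h2⟩ := two_ports hY (by omega) hd
      (h.gr i (Or.inl ⟨by omega, by omega⟩))
      (fun z hz => h.gr z (Or.inr (h.toQ hY hz (by omega) (by omega))))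
    have g1 := h.toQ hY h1 (by omega) (by omega)
    have g2 := h.toQ hY h2 (by omega) (by omega)
    obtain ⟨k, hk, hk'⟩ := h.qs z g1.1 g1.2
    obtain ⟨l, hl, hl'⟩ := h.qs z' g2.1 g2.2
    have hkl : k ≠ l := by
      rintro rfl
      exact hzz (hk'.symm.trans hl')
    have f1 : E Y a0 a5 B q i k := ⟨by omega, by omega, hk, by rw [hk']; exact h1⟩
    have f2 : E Y a0 a5 B q i l := ⟨by omega, by omega, hl, by rw [hl']; exact h2⟩
    rcases Nat.lt_or_ge k l with g | g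
    · exact ⟨k, l, g, f1, f2⟩
    · exact ⟨l, k, by omega, f2, f1⟩
  · intro k hk hk' hd
    have h0 := h.qr k (by omega)
    obtain ⟨z, z', hzz, h1, h2⟩ := two_ports hY (x := q k) (by omega) hd
      (h.gr (q k) (Or.inr h0))
      (fun z hz => h.gr z (Or.inl (h.toP hY hk hk' hz)))
    have g1 := h.toP hY hk hk' h1
    have g2 := h.toP hY hk hk' h2
    have f1 : E Y a0 a5 B q z k := ⟨g1.1, g1.2, by omega, h1.symm hY⟩
    have f2 : E Y a0 a5 B q z' k := ⟨g2.1, g2.2, by omega, h2.symm hY⟩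
    rcases Nat.lt_or_ge z z' with g | g
    · exact ⟨z, z', g, f1, f2⟩
    · exact ⟨z', z, by omega, f2, f1⟩

end Calm

end Sys

end EN
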