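import Pool.Agent.EN.Calm

/-!
# A region without defects is a piece of a strip: the conclusion
-/

namespace EN

namespace Sys

variable {κ : Type*} {Y : Sys κ}

namespace Calm

variable {a0 a1 a4 a5 b0 b5 B k1 k4 : ℕ} {q : ℕ → ℕ}

/-- Type D. -/
lemma prD (h : Y.Calm a0 a1 a4 a5 b0 b5 B k1 k4 q) {D : ℕ} (hY : Y.Ax D) {x : ℕ}
    (h1 : a1 + 2 ≤ x) (h2 : x + 2 ≤ a4) (hd : Dbl Y x) :
    ∃ k, E Y a0 a5 B q x k ∧ Y.DP x (q k) := by
  have h01 := h.a01
  have h45 := h.a45
  have h5 := h.a5L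
  have hb5 := h.b5L
  have hz := h.zz hY (by omega)
  obtain ⟨k, hk, hk'⟩ := hz.p2 x (by omega) (by omega) hd
  have hqk := h.qr k hk.2.2.1
  obtain ⟨y, hy, hyi, hyo⟩ := hd
  have key : ∀ z, Y.Lk x z → z = q k := by
    intro z hl
    have g := h.toQ hY hl (by omega) (by omega)
    obtain ⟨l, hl1, hl2⟩ := h.qs z g.1 g.2
    have := hk' l ⟨by omega, by omega, hl1, by rw [hl2]; exact hl⟩
    rw [← this, hl2]
  have hyk : y = q k := key y ⟨by omega, hy, hyi.symm, Or.inl hyo.symm⟩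
  refine ⟨k, hk, ⟨by omega, by omega, ?_, ?_, ?_, ?_, ?_⟩⟩
  · exact hk.2.2.2.2.2.1
  · rw [← hyk]; exact hyo.symm
  · intro z hz1 hz2
    by_cases hzx : z = x
    · exact Or.inl hzx
    · exact Or.inr (key z ⟨by omega, hz1, fun e => hzx e.symm, Or.inl hz2.symm⟩)
  · intro c hc
    obtain ⟨z, hz1, rfl⟩ := hY.a4 _ _ hc
    have hzx : x ≠ z := by
      rintro rfl
      exact hY.irr _ hc
    have h3 := key z ⟨by omega, hz1, hzx, Or.inr hc⟩
    rw [h3, ← hyk, hyo] at hc
    exact hY.irr _ hc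
  · exact h.gr x (Or.inl ⟨by omega, by omega⟩)

open scoped Classical in
/-- Type Z. -/
lemma prZ (h : Y.Calm a0 a1 a4 a5 b0 b5 B k1 k4 q) {D : ℕ} (hY : Y.Ax D) {x k : ℕ}
    (h1 : a1 + 2 ≤ x) (h2 : x + 2 ≤ a4) (hd : ¬ Dbl Y x) (e1 : E Y a0 a5 B q x k)
    (e2 : E Y a0 a5 B q x (k + 1)) :
    Y.Pr x (q (if a5 < b0 ∧ ∀ k, k + 1 ≤ B → q (k + 1) = q k + 1 then k else k + 1)) := by
  have h01 := h.a01
  have h45 := h.a45
  have h5 := h.a5L
  have hb5 := h.b5L
  have hz := h.zz hY (by omega)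
  obtain ⟨x', rfl⟩ : ∃ x', x = x' + 1 := ⟨x - 1, by omega⟩
  obtain ⟨hd0, c, rfl, f1, f2⟩ := hz.bwd (i := x') (by omega) (by omega) hd e1 e2
  obtain ⟨hd2, g1, g2⟩ := hz.fwd (i := x' + 1) (by omega) (by omega) hd e1 e2
  have e12 : c + 1 + 1 = c + 2 := rfl
  have e13 : c + 1 + 2 = c + 3 := rfl
  have e14 : x' + 1 + 1 = x' + 2 := rfl
  rw [e12] at e2 g1
  rw [e13] at g2
  rw [e14] at g1 g2 hd2
  have hcB : c + 3 ≤ B := g2.2.2.1
  -- ranges
  have r0 := hz.rng x' c (by omega) (by omega) f1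
  have r3 := hz.rng (x' + 2) (c + 3) (by omega) (by omega) g2
  have q0 := h.qr c (by omega)
  have q1 := h.qr (c + 1) (by omega)
  have q2 := h.qr (c + 2) (by omega)
  have q3 := h.qr (c + 3) (by omega)
  -- nobody is double
  have n0 : ¬ Dbl Y (q c) := fun hh => hd0 (hz.q1 x' c (by omega) (by omega) hh f1)
  have n1 : ¬ Dbl Y (q (c + 1)) := fun hh => hd0 (hz.q1 x' (c + 1) (by omega) (by omega) hh f2)
  have n2 : ¬ Dbl Y (q (c + 2)) := fun hh => hd (hz.q1 (x' + 1) (c + 2) (by omega) (by omega) hh e2)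
  have n3 : ¬ Dbl Y (q (c + 3)) := fun hh => hd2 (hz.q1 (x' + 2) (c + 3) (by omega) (by omega) hh g2)
  -- contacts
  have hct : ∀ i l, ¬ Dbl Y i → E Y a0 a5 B q i l → Y.ct (Y.own i) (Y.own (q l)) := by
    rintro i l hi ⟨a1', a2', a3', a4'⟩
    rcases a4'.2.2.2 with g | g
    · exact absurd ⟨q l, a4'.2.1, a4'.2.2.1.symm, g.symm⟩ hi
    · exact g
  have hmono := hz.mono
  -- contacts of `own x`
  have cx : ∀ k', Y.ct (Y.own (x' + 1)) k' ↔ k' = Y.own (q (c + 1)) ∨ k' = Y.own (q (c + 2)) := by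
    intro k'
    constructor
    · intro hk
      obtain ⟨z, hz1, rfl⟩ := hY.a4 _ _ hk
      have hl : Y.Lk (x' + 1) z := ⟨by omega, hz1, fun e => by rw [← e] at hk; exact hY.irr _ hk,
        Or.inr hk⟩
      have g := h.toQ hY hl (by omega) (by omega)
      obtain ⟨l, hl1, hl2⟩ := h.qs z g.1 g.2
      have he : E Y a0 a5 B q (x' + 1) l := ⟨by omega, by omega, hl1, by rw [hl2]; exact hl⟩
      have b1 := hmono x' (x' + 1) (c + 1) l (by omega) f2 he
      have b2 := hmono (x' + 1) (x' + 2) l (c + 2) (by omega) he g1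
      rcases Nat.lt_or_ge l (c + 2) with b3 | b3
      · have : l = c + 1 := by omega
        subst this
        exact Or.inl (by rw [hl2])
      · have : l = c + 2 := by omega
        subst this
        exact Or.inr (by rw [hl2])
    · rintro (rfl | rfl)
      · exact hct _ _ hd e1
      · exact hct _ _ hd e2
  have cq1 : ∀ k', Y.ct (Y.own (q (c + 1))) k' ↔ k' = Y.own (x' + 1) ∨ k' = Y.own x' := by
    intro k'
    constructor
    · intro hk
      obtain ⟨z, hz1, rfl⟩ := hY.a4 _ _ hk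
      have hl : Y.Lk (q (c + 1)) z := ⟨by omega, hz1, fun e => by rw [← e] at hk; exact hY.irr _ hk,
        Or.inr hk⟩
      have g := h.toP hY (by omega) (by omega) hl
      have he : E Y a0 a5 B q z (c + 1) := ⟨g.1, g.2, by omega, hl.symm hY⟩
      rcases Nat.lt_trichotomy z x' with b | b | b
      · have := hmono z x' (c + 1) c b he f1
        omega
      · exact Or.inr (by rw [b])
      · rcases Nat.lt_or_ge (x' + 1) z with b' | b'
        · have := hmono (x' + 1) z (c + 2) (c + 1) b' e2 he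
          omega
        · exact Or.inl (by rw [show z = x' + 1 by omega])
    · rintro (rfl | rfl)
      · exact hY.symm _ _ (hct _ _ hd e1)
      · exact hY.symm _ _ (hct _ _ hd0 f2)
  have cq2 : ∀ k', Y.ct (Y.own (q (c + 2))) k' ↔ k' = Y.own (x' + 1) ∨ k' = Y.own (x' + 2) := by
    intro k'
    constructor
    · intro hk
      obtain ⟨z, hz1, rfl⟩ := hY.a4 _ _ hk
      have hl : Y.Lk (q (c + 2)) z := ⟨by omega, hz1, fun e => by rw [← e] at hk; exact hY.irr _ hk,
        Or.inr hk⟩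
      have g := h.toP hY (by omega) (by omega) hl
      have he : E Y a0 a5 B q z (c + 2) := ⟨g.1, g.2, by omega, hl.symm hY⟩
      rcases Nat.lt_trichotomy z (x' + 1) with b | b | b
      · have := hmono z (x' + 1) (c + 2) (c + 1) b he e1
        omega
      · exact Or.inl (by rw [b])
      · rcases Nat.lt_or_ge (x' + 2) z with b' | b'
        · have := hmono (x' + 2) z (c + 3) (c + 2) b' g2 he
          omega
        · exact Or.inr (by rw [show z = x' + 2 by omega])
    · rintro (rfl | rfl)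
      · exact hY.symm _ _ (hct _ _ hd e2)
      · exact hY.symm _ _ (hct _ _ hd2 g1)
  have gP : ∀ z, a0 ≤ z → z ≤ a5 → ¬ Y.gr (Y.own z) := fun z z1 z2 => h.gr z (Or.inl ⟨z1, z2⟩)
  have gQ : ∀ z, b0 ≤ z → z ≤ b5 → ¬ Y.gr (Y.own z) := fun z z1 z2 => h.gr z (Or.inr ⟨z1, z2⟩)
  have shP : ∀ z, a0 ≤ z → z ≤ a5 → Y.sh z = Y.sh a0 := fun z z1 z2 => hY.sh_eq h.sha z1 z2 h5
  have shQ : ∀ z, b0 ≤ z → z ≤ b5 → Y.sh z = Y.sh b0 := fun z z1 z2 => hY.sh_eq h.shb z1 z2 hb5
  by_cases hPQ : a5 < b0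
  · by_cases hinc : ∀ k, k + 1 ≤ B → q (k + 1) = q k + 1
    · -- first side below, increasing
      rw [if_pos ⟨hPQ, hinc⟩]
      have i0 : q (c + 1) = q c + 1 := hinc c (by omega)
      have i1 : q (c + 2) = q (c + 1) + 1 := hinc (c + 1) (by omega)
      have i1' : q (c + 1) + 1 = q (c + 2) := i1.symm
      have i0' : q (c + 1) - 1 = q c := by omega
      refine Or.inr (Or.inl ⟨by omega, by omega, by omega, ?_, ?_, single hd, single n1, ?_, ?_,
        gP _ (by omega) (by omega), gQ _ q1.1 q1.2, ?_, ?_⟩)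
      · rw [i0', shQ _ q0.1 q0.2, shQ _ q1.1 q1.2]
      · rw [i1', shQ _ q2.1 q2.2, shQ _ q1.1 q1.2]
      · rw [i0']; exact single n0
      · rw [i1']; exact single n2
      · rw [i1']; exact cx
      · refine ⟨x', Or.inl rfl, by omega, ?_, cq1, ?_, single hd0⟩
        · rw [shP x' (by omega) (by omega), shP (x' + 1) (by omega) (by omega)]
        · rw [i0']; exact hct _ _ hd0 f1
    · rw [if_neg (fun hh => hinc hh.2)]
      have hdec := h.st.resolve_left hinc
      have i1 : q (c + 1) = q (c + 2) + 1 := hdec (c + 1) (by omega)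
      have i2 : q (c + 2) = q (c + 3) + 1 := hdec (c + 2) (by omega)
      have i1' : q (c + 2) + 1 = q (c + 1) := i1.symm
      have i2' : q (c + 2) - 1 = q (c + 3) := by omega
      refine Or.inr (Or.inl ⟨?_, ?_, ?_, ?_, ?_, single hd, ?_, ?_, ?_,
        gP _ (by omega) (by omega), ?_, ?_, ?_⟩)
      · rw [e12]; omega
      · rw [e12]; omega
      · rw [e12]; omega
      · rw [e12, i2', shQ _ q3.1 q3.2, shQ _ q2.1 q2.2]
      · rw [e12, i1', shQ _ q1.1 q1.2, shQ _ q2.1 q2.2]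
      · rw [e12]; exact single n2
      · rw [e12, i2']; exact single n3
      · rw [e12, i1']; exact single n1
      · rw [e12]; exact gQ _ q2.1 q2.2
      · rw [e12, i1']
        intro k'
        rw [cx k', or_comm]
      · rw [e12]
        refine ⟨x' + 2, Or.inr rfl, by omega, ?_, cq2, ?_, single hd2⟩
        · rw [shP (x' + 2) (by omega) (by omega), shP (x' + 1) (by omega) (by omega)]
        · rw [i2']; exact hct _ _ hd2 g2
  · rw [if_neg (fun hh => hPQ hh.1)]
    have hQP : b5 < a0 := h.far.resolve_left hPQ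
    have hqq : q (c + 1) + 1 = q (c + 2) ∨ q (c + 1) = q (c + 2) + 1 := by
      rcases h.st with hst | hst
      · exact Or.inl (hst (c + 1) (by omega)).symm
      · exact Or.inr (hst (c + 1) (by omega))
    refine Or.inr (Or.inr ⟨?_, by omega, by omega, ?_, ?_, ?_, single hd, ?_, ?_, ?_,
      gP _ (by omega) (by omega), ?_, ?_⟩)
    · rw [e12]; omega
    · rw [Nat.add_sub_cancel, shP x' (by omega) (by omega), shP (x' + 1) (by omega) (by omega)]
    · rw [shP (x' + 1 + 1) (by omega) (by omega), shP (x' + 1) (by omega) (by omega)]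
    · rw [e12]; exact single n2
    · rw [Nat.add_sub_cancel]; exact single hd0
    · exact single hd2
    · rw [e12]; exact gQ _ q2.1 q2.2
    · rw [e12]; exact cq2
    · rw [e12]
      refine ⟨q (c + 1), hqq, by omega, ?_, ?_, ?_, single n1⟩
      · rw [shQ _ q1.1 q1.2, shQ _ q2.1 q2.2]
      · intro k'
        rw [cx k', or_comm]
      · rw [Nat.add_sub_cancel]
        exact hY.symm _ _ (hct _ _ hd0 f2)

/-- **The middle part of a region without defects is clean.** -/
theorem clean (h : Y.Calm a0 a1 a4 a5 b0 b5 B k1 k4 q) {D : ℕ} (hY : Y.Ax D) {a b : ℕ}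
    (h1 : a1 + 2 ≤ a) (h2 : b + 2 ≤ a4) : Y.Clean a b := by
  have h01 := h.a01
  have h45 := h.a45
  have hb5 := h.b5L
  classical
  set τ : ℕ → ℕ := fun k =>
    if a5 < b0 ∧ ∀ k, k + 1 ≤ B → q (k + 1) = q k + 1 then k else k + 1 with hτ
  have hτ1 : ∀ k, τ (k + 1) = τ k + 1 := by
    intro k
    simp only [hτ]
    split <;> omega
  have hst : ∀ k, k + 1 ≤ B → (q (k + 1) = q k + 1 ∨ q k = q (k + 1) + 1) := by
    intro k hk
    rcases h.st with hs | hs
    · exact Or.inl (hs k hk)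
    · exact Or.inr (hs k hk)
  have shQ : ∀ z, b0 ≤ z → z ≤ b5 → Y.sh z = Y.sh b0 := fun z z1 z2 => hY.sh_eq h.shb z1 z2 hb5
  constructor
  · intro x hx hx'
    have hz := h.zz hY (by omega)
    by_cases hd : Dbl Y x
    · obtain ⟨k, _, hk⟩ := h.prD hY (by omega) (by omega) hd
      exact ⟨_, Or.inl hk⟩
    · obtain ⟨k, e1, e2, _⟩ := hz.two (i := x) (by omega) (by omega) hd
      exact ⟨_, h.prZ hY (by omega) (by omega) hd e1 e2⟩
  · intro x hx hx'
    have hz := h.zz hY (by omega)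
    by_cases hd : Dbl Y x
    · have hd' : Dbl Y (x + 1) := (hz.dbl_iff (i := x) (by omega) (by omega)).1 hd
      obtain ⟨k, e1, hk⟩ := h.prD hY (x := x) (by omega) (by omega) hd
      obtain ⟨k', e2, hk'⟩ := h.prD hY (x := x + 1) (by omega) (by omega) hd'
      have hkk := hz.dbl (i := x) (by omega) (by omega) hd hd' e1 e2
      subst hkk
      refine ⟨_, _, Or.inl hk, Or.inl hk', hst k e2.2.2.1, ?_⟩
      have r1 := h.qr k e1.2.2.1
      have r2 := h.qr (k + 1) e2.2.2.1
      rw [shQ _ r1.1 r1.2, shQ _ r2.1 r2.2]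
    · obtain ⟨k, e1, e2, _⟩ := hz.two (i := x) (by omega) (by omega) hd
      obtain ⟨hd', f1, f2⟩ := hz.fwd (i := x) (by omega) (by omega) hd e1 e2
      have p1 := h.prZ hY (x := x) (by omega) (by omega) hd e1 e2
      have p2 := h.prZ hY (x := x + 1) (by omega) (by omega) hd' f1 f2
      have hkB : k + 2 ≤ B := f2.2.2.1
      have hτB : τ k + 1 ≤ B := by
        simp only [hτ]
        split <;> omega
      have p2' : Y.Pr (x + 1) (q (τ k + 1)) := by
        rw [← hτ1]
        exact p2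
      refine ⟨_, _, p1, p2', hst (τ k) hτB, ?_⟩
      have r1 := h.qr (τ k) (by omega)
      have r2 := h.qr (τ k + 1) hτB
      rw [shQ _ r2.1 r2.2]
      exact shQ _ r1.1 r1.2

end Calm

end Sys

end EN
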