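import Pool.Agent.EN.Sweep

/-!
Closed lines (T-star, module III): a vertex without a residual port is one closed line; if no cut
pair is next to it then it has at most two neighbours.
-/

set_option autoImplicit false

open Finset EN.Walk
open scoped Classical

namespace EN.Sweep

/-- as `Sys`, but a vertex has a residual port or it is a union of closed lines -/
structure Pre {V K : Type*} (G : SimpleGraph V) (P : ℕ) (C : Set (Pt P)) (φ : Pt P → Pt P)
    (J : Pt P → Pt P → Prop) (con : Pt P → K) (mem : V → K → Prop) (ct : K → K → Prop) :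
    Prop where
  mem_C : ∀ p, p ∈ C → φ p ∈ C
  inv : ∀ p, p ∈ C → φ (φ p) = p
  two : ∀ p, p ∈ C → ∀ p', con p' = con p → p' = p ∨ p' = φ p
  noct : ∀ p, p ∈ C → ∀ κ, ct (con p) κ → κ = con (φ p) ∨ ∃ p', Nb (φ p) p' ∧ κ = con p'
  J_nb : ∀ p p', J p p' → Nb p p'
  J_symm : ∀ p p', J p p' → J p' p
  J_C : ∀ p p', J p p' → p ∈ C → p' ∈ C
  J_phi : ∀ p p', J p p' → p ∈ C → J (φ p) (φ p')
  port : ∀ y κ, mem y κ → ∃ p, con p = κ
  conn : ∀ y κ κ', mem y κ → mem y κ' →
    Relation.ReflTransGen (fun a b => mem y a ∧ mem y b ∧ ∃ p, con p = a ∧ con (flp p) = b) κ κ'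
  edge : ∀ y z, G.Adj y z → (∃ κ, mem y κ ∧ mem z κ) ∨
    (∃ κ κ', mem y κ ∧ mem z κ' ∧ ct κ κ') ∨
    (∃ p, mem y (con p) ∧ mem z (con (flp p))) ∨
    (∃ p p', Nb p p' ∧ mem y (con p) ∧ (mem z (con p') ∨ mem z (con (flp p'))))
  ne : ∀ y, ∃ κ, mem y κ
  one : ∀ p, p ∈ C → ∀ y z, mem y (con p) → mem z (con p) → y = z
  cyc : ∀ y, (∃ p, mem y (con p) ∧ p ∉ C) ∨
    ∀ p, mem y (con p) → con (φ p) = con p ∧ mem y (con (flp p))

variable {V K : Type*} {G : SimpleGraph V} {P : ℕ} {C : Set (Pt P)} {φ : Pt P → Pt P}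
  {J : Pt P → Pt P → Prop} {con : Pt P → K} {mem : V → K → Prop} {ct : K → K → Prop}

/-- a vertex with one port in a clean set which is closed under both moves stays there -/
theorem Pre.stay (hS : Pre G P C φ J con mem ct) {N : Set (Pt P)} (hNC : ∀ p, p ∈ N → p ∈ C)
    (h1 : ∀ p, p ∈ N → flp p ∈ N) (h2 : ∀ p, p ∈ N → φ p ∈ N) {z : V} {p : Pt P} (hp : p ∈ N)
    (hz : mem z (con p)) {q : Pt P} (hq : mem z (con q)) : q ∈ N := by
  have key : ∀ κ, Relation.ReflTransGen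
      (fun a b => mem z a ∧ mem z b ∧ ∃ p, con p = a ∧ con (flp p) = b) (con p) κ →
      ∀ q, con q = κ → q ∈ N := by
    intro κ hκ
    induction hκ with
    | refl =>
      intro q hq
      rcases hS.two p (hNC p hp) q hq with h | h
      · rw [h]; exact hp
      · rw [h]; exact h2 p hp
    | tail _ hab ih =>
      intro q hq
      obtain ⟨-, -, p1, e1, e2⟩ := hab
      have h3 := h1 p1 (ih p1 e1)
      rcases hS.two (flp p1) (hNC _ h3) q (hq.trans e2.symm) with h | h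
      · rw [h]; exact h3
      · rw [h]; exact h2 _ h3
  exact key _ (hS.conn z _ _ hz hq) q rfl

theorem card_nb (p : Pt P) : (univ.filter (fun p' : Pt P => Nb p p')).card ≤ 2 := by
  have h1 : (univ : Finset Bool).card = 2 := by simp
  rw [← h1]
  refine card_le_card_of_injOn (fun p' => decide (p.1.val + 1 = p'.1.val))
    (fun _ _ => mem_coe.2 (mem_univ _)) ?_
  rintro ⟨⟨a, ha⟩, s⟩ hx ⟨⟨b, hb⟩, t⟩ hy h
  have hx' := (mem_filter.1 (mem_coe.1 hx)).2
  have hy' := (mem_filter.1 (mem_coe.1 hy)).2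
  simp only [Nb] at hx' hy'
  simp only [decide_eq_decide] at h
  obtain ⟨e1, h3⟩ := hx'
  obtain ⟨e2, h4⟩ := hy'
  have e3 : a = b := by omega
  subst e3
  rw [← e1, ← e2]

/-- a closed vertex with no cut pair next to it has at most two neighbours -/
theorem Pre.deg [Fintype V] (hS : Pre G P C φ J con mem ct) {y : V}
    (hy : ∀ p, mem y (con p) → p ∈ C) (hJ : ∀ p p', mem y (con p) → Nb p p' → J p p') :
    (univ.filter (fun z => G.Adj y z)).card ≤ 2 := by
  set S : Set (Pt P) := {p | mem y (con p)} with hSd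
  have hcy : ∀ p, mem y (con p) → con (φ p) = con p ∧ mem y (con (flp p)) := by
    rcases hS.cyc y with ⟨p, hp, hpC⟩ | h
    · exact absurd (hy p hp) hpC
    · exact h
  have hSf : ∀ p, p ∈ S → flp p ∈ S := fun p hp => (hcy p hp).2
  have hSφ : ∀ p, p ∈ S → φ p ∈ S := by
    intro p hp
    show mem y (con (φ p))
    rw [(hcy p hp).1]
    exact hp
  obtain ⟨κ0, hκ0⟩ := hS.ne y
  obtain ⟨p0, hp0⟩ := hS.port y κ0 hκ0
  have hp0S : p0 ∈ S := by
    show mem y (con p0)
    rw [hp0]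
    exact hκ0
  set R : Pt P → Pt P → Prop := fun a b => b = flp a ∨ b = φ a with hR
  have hreach : ∀ q, q ∈ S → Relation.ReflTransGen R p0 q := by
    intro q hq
    have h := hS.stay (N := {q | q ∈ S ∧ Relation.ReflTransGen R p0 q}) (fun p hp => hy p hp.1)
      (fun p hp => ⟨hSf p hp.1, hp.2.tail (Or.inl rfl)⟩)
      (fun p hp => ⟨hSφ p hp.1, hp.2.tail (Or.inr rfl)⟩)
      (⟨hp0S, Relation.ReflTransGen.refl⟩ : p0 ∈ {q | q ∈ S ∧ Relation.ReflTransGen R p0 q})
      hp0S (q := q) hq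
    exact h.2
  have hpar : ∀ q, Relation.ReflTransGen R p0 q → q ∈ S ∧
      ∀ q', Nb q q' → ∃ r, Nb p0 r ∧ Relation.ReflTransGen R r q' := by
    intro q hq
    induction hq with
    | refl => exact ⟨hp0S, fun q' hq' => ⟨q', hq', Relation.ReflTransGen.refl⟩⟩
    | tail _ hab ih =>
      obtain ⟨ih1, ih2⟩ := ih
      rcases hab with h | h
      · subst h
        refine ⟨hSf _ ih1, ?_⟩
        intro q' hq'
        have h3 := hq'.flp
        rw [flp_flp] at h3
        obtain ⟨r, hr, hr'⟩ := ih2 _ h3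
        exact ⟨r, hr, hr'.tail (Or.inl (flp_flp q').symm)⟩
      · subst h
        refine ⟨hSφ _ ih1, ?_⟩
        intro q' hq'
        have h3 := hJ _ _ (hSφ _ ih1) hq'
        have h4 := hy _ (hSφ _ ih1)
        have h5 := hS.J_C _ _ h3 h4
        have h6 := hS.J_nb _ _ (hS.J_phi _ _ h3 h4)
        rw [hS.inv _ (hy _ ih1)] at h6
        obtain ⟨r, hr, hr'⟩ := ih2 _ h6
        exact ⟨r, hr, hr'.tail (Or.inr (hS.inv _ h5).symm)⟩
  set N : Set (Pt P) := {p' | ∃ p, p ∈ S ∧ Nb p p'} with hN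
  have hNC : ∀ p, p ∈ N → p ∈ C := by
    rintro p' ⟨p, hp, hpp⟩
    exact hS.J_C _ _ (hJ _ _ hp hpp) (hy _ hp)
  have hNf : ∀ p, p ∈ N → flp p ∈ N := by
    rintro p' ⟨p, hp, hpp⟩
    exact ⟨flp p, hSf _ hp, hpp.flp⟩
  have hNφ : ∀ p, p ∈ N → φ p ∈ N := by
    rintro p' ⟨p, hp, hpp⟩
    exact ⟨φ p, hSφ _ hp, hS.J_nb _ _ (hS.J_phi _ _ (hJ _ _ hp hpp) (hy _ hp))⟩
  have htr : ∀ a b, Relation.ReflTransGen R a b → a ∈ N → b ∈ N ∧
      ∀ z, mem z (con b) → mem z (con a) := by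
    intro a b hab ha
    induction hab with
    | refl => exact ⟨ha, fun z hz => hz⟩
    | @tail b c _ hbc ih =>
      obtain ⟨ih1, ih2⟩ := ih
      have hc : c ∈ N := by
        rcases hbc with h | h
        · rw [h]; exact hNf _ ih1
        · rw [h]; exact hNφ _ ih1
      refine ⟨hc, ?_⟩
      intro z hz
      have hzc : ∀ p, mem z (con p) → con (φ p) = con p ∧ mem z (con (flp p)) := by
        rcases hS.cyc z with ⟨p, hp, hpC⟩ | h
        · exact absurd (hNC _ (hS.stay hNC hNf hNφ hc hz hp)) hpC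
        · exact h
      apply ih2
      rcases hbc with h | h
      · have h3 := (hzc c hz).2
        rw [h, flp_flp] at h3
        exact h3
      · have h3 := (hzc c hz).1
        rw [h, hS.inv _ (hNC _ ih1)] at h3
        rw [h3, ← h]
        exact hz
  -- the neighbours
  have hown : ∀ z, G.Adj y z → ∃ r, Nb p0 r ∧ r ∈ N ∧ mem z (con r) := by
    intro z hz
    have hne : y ≠ z := hz.ne
    have h3 : ∃ p', p' ∈ N ∧ mem z (con p') := by
      have hu : ∀ p, p ∈ S → ¬ mem z (con p) := fun p hp hc => hne (hS.one p (hy p hp) y z hp hc)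
      rcases hS.edge y z hz with ⟨κ, h1, h2⟩ | ⟨κ, κ', h1, h2, h4⟩ | ⟨p, h1, h2⟩ |
        ⟨p, p', h1, h2, h4⟩
      · obtain ⟨p, rfl⟩ := hS.port y κ h1
        exact absurd h2 (hu p h1)
      · obtain ⟨p, rfl⟩ := hS.port y κ h1
        rcases hS.noct p (hy p h1) κ' h4 with h5 | ⟨p', h5, h6⟩
        · rw [h5] at h2
          exact absurd h2 (hu _ (hSφ p h1))
        · exact ⟨p', ⟨φ p, hSφ p h1, h5⟩, h6 ▸ h2⟩
      · exact absurd h2 (hu _ (hSf p h1))
      · rcases h4 with h4 | h4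
        · exact ⟨p', ⟨p, h2, h1⟩, h4⟩
        · exact ⟨flp p', ⟨flp p, hSf p h2, h1.flp⟩, h4⟩
    obtain ⟨p', ⟨p, hp, hpp⟩, hz'⟩ := h3
    obtain ⟨r, hr, hr'⟩ := (hpar p (hreach p hp)).2 p' hpp
    have hrN : r ∈ N := ⟨p0, hp0S, hr⟩
    exact ⟨r, hr, hrN, (htr r p' hr' hrN).2 z hz'⟩
  have hch : ∀ z, ∃ r, G.Adj y z → Nb p0 r ∧ r ∈ N ∧ mem z (con r) := by
    intro z
    by_cases h : G.Adj y z
    · obtain ⟨r, hr⟩ := hown z h
      exact ⟨r, fun _ => hr⟩
    · exact ⟨p0, fun hc => absurd hc h⟩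
  choose g hg using hch
  refine (card_le_card_of_injOn g ?_ ?_).trans (card_nb p0)
  · intro z hz
    have hz' := (mem_filter.1 (mem_coe.1 hz)).2
    exact mem_coe.2 (mem_filter.2 ⟨mem_univ _, (hg z hz').1⟩)
  · intro z hz z' hz' he
    have h1 := (mem_filter.1 (mem_coe.1 hz)).2
    have h2 := (mem_filter.1 (mem_coe.1 hz')).2
    obtain ⟨-, h4, h5⟩ := hg z h1
    obtain ⟨-, -, h6⟩ := hg z' h2
    rw [← he] at h6
    exact hS.one _ (hNC _ h4) z z' h5 h6

/-- the closed vertices -/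
noncomputable def cls [Fintype V] (C : Set (Pt P)) (con : Pt P → K) (mem : V → K → Prop) :
    Finset V := univ.filter (fun y => ∀ p, mem y (con p) → p ∈ C)

theorem Pre.card_cls [Fintype V] (hS : Pre G P C φ J con mem ct) :
    (cls C con mem : Finset V).card ≤
      (univ.filter (fun x : Pt P × Pt P => Nb x.1 x.2 ∧ ¬ J x.1 x.2)).card +
      (univ.filter (fun y : V => (univ.filter (fun z => G.Adj y z)).card ≤ 2)).card := by
  set D2 : Finset V := univ.filter (fun y : V => (univ.filter (fun z => G.Adj y z)).card ≤ 2)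
    with hD2
  have h1 : (cls C con mem : Finset V) ⊆ (cls C con mem \ D2) ∪ D2 := by
    intro y hy
    by_cases h : y ∈ D2
    · exact mem_union_right _ h
    · exact mem_union_left _ (mem_sdiff.2 ⟨hy, h⟩)
  refine (card_le_card h1).trans ((card_union_le _ _).trans (Nat.add_le_add_right ?_ _))
  have hch : ∀ y, ∃ x : Pt P × Pt P, y ∈ (cls C con mem \ D2 : Finset V) →
      mem y (con x.1) ∧ Nb x.1 x.2 ∧ ¬ J x.1 x.2 := by
    intro y
    by_cases h : y ∈ (cls C con mem \ D2 : Finset V)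
    · by_contra hcon
      push Not at hcon
      obtain ⟨h2, h3⟩ := mem_sdiff.1 h
      apply h3
      rw [hD2, mem_filter]
      refine ⟨mem_univ _, hS.deg (mem_filter.1 h2).2 ?_⟩
      intro p p' hp hpp
      by_contra hc
      exact hc ((hcon (p, p')).2 hp hpp)
    · obtain ⟨κ0, hκ0⟩ := hS.ne y
      obtain ⟨p0, -⟩ := hS.port y κ0 hκ0
      exact ⟨(p0, p0), fun hc => absurd hc h⟩
  choose g hg using hch
  refine card_le_card_of_injOn g ?_ ?_
  · intro y hy
    have h2 := hg y (mem_coe.1 hy)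
    exact mem_coe.2 (mem_filter.2 ⟨mem_univ _, h2.2⟩)
  · intro y hy z hz he
    have h2 := hg y (mem_coe.1 hy)
    have h3 := hg z (mem_coe.1 hz)
    have h4 := (mem_filter.1 (mem_sdiff.1 (mem_coe.1 hy)).1).2 _ h2.1
    rw [← he] at h3
    exact hS.one _ h4 y z h2.1 h3.1

end EN.Sweep
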