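import Pool.Agent.EN.LocE

/-!
# Row T6: the core statement from the window, the far and the local theorem
-/

namespace EN

namespace Sys

universe u₀

/-- The statement of row T5. -/
def WindowS (D N t : ℕ) : Prop :=
  ∃ C' : ℕ, ∀ g : ℕ, ∃ C : ℕ, ∀ {κ : Type u₀} (Y : Sys κ), Y.Ax D →
    (∀ x z c d, ¬ Y.PB N x z c d) → ¬ Y.KT t → ∀ (n : ℕ) (s e : ℕ → ℕ),
    (∀ i < n, s i ≤ e i ∧ e i < Y.L ∧ Y.sh (s i) = Y.sh (e i)) → (∀ i, i + 1 < n → e i < s (i + 1)) →
    C * Y.R < n →
    ∃ (rc : ℕ → ℕ) (j : ℕ), Y.Runs rc ∧ j + g < n ∧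
      (∀ x, s j ≤ x → x ≤ e (j + g) → rc x = rc (s j) ∧ rc (x + 1) = rc (s j) ∧ x + 1 < Y.L) ∧
      ∃ B : Finset ℕ, B.card ≤ C' ∧ ∀ x y, s j ≤ x → x ≤ e (j + g) → Y.Lk x y → rc y ∈ B

/-- The statement of row T3. -/
def FarS (D N c : ℕ) : Prop :=
  ∃ n : ℕ, ∀ {κ : Type u₀} (Y : Sys κ), Y.Ax D → ∀ (m t : ℕ)
    (s e x y : ℕ → ℕ),
    (∀ i < n, s i ≤ x i ∧ x i ≤ e i ∧ e i < Y.L ∧ ¬ Y.Clean (s i) (e i) ∧ Y.Lk (x i) (y i)) →
    (∀ i, i + 1 < n → e i < s (i + 1)) → (∀ i < n, Y.sh (s i) = Y.sh (s 0) ∧ Y.sh (e i) = Y.sh (s 0)) →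
    (∀ i < n, Y.sh (y i) = Y.sh (y 0)) → Y.Dis n (fun i => [x i, y i]) →
    ((∀ i < n, y i < s 0) ∨ ∀ i < n, e (n - 1) < y i) →
    (∃ A : Finset ℕ, A.card ≤ c ∧ ∀ u v, Y.Lk u v →
      ((s 0 ≤ u ∧ u ≤ e (n - 1)) ∨ ∃ i < n, ∃ j < n, y i ≤ u ∧ u ≤ y j) → Y.sh v ∈ A) →
    Y.Pat N m t

/-- **T6 (CORE)** from T5 and T3. -/
theorem core_of {D N m t : ℕ} (hW : WindowS.{u₀} D N t) (hFar : FarS.{u₀} D N 4) :
    ∃ C M : ℕ, ∀ {κ : Type u₀} (Y : Sys κ), Y.Ax D → ¬ Y.Pat N m t →
    ∀ (n : ℕ) (s e : ℕ → ℕ), (∀ i < n, Y.Bad M (s i) (e i)) →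
    (∀ i, i + 1 < n → e i < s (i + 1)) → n ≤ C * Y.R := by
  classical
  obtain ⟨nf, hnf⟩ := hFar
  obtain ⟨nl, M, hnl⟩ := loc.{u₀} D N m 2
  obtain ⟨C', hC'⟩ := hW
  obtain ⟨N', hN'⟩ : ∃ N', N' = nf + 2 * nl + 2 := ⟨_, rfl⟩
  obtain ⟨n₂, hn₂⟩ := RamP.homog (Fin M × Bool) N' (Fin M → Fin (C' + 1))
  obtain ⟨n₁, hn₁⟩ : ∃ n₁, n₁ = (2 * ((2 * M) * (D + D * D)) + 1) * n₂ := ⟨_, rfl⟩
  obtain ⟨C, hC⟩ := hC' n₁
  refine ⟨C, M, ?_⟩
  intro κ Y hY hpat n s e hbad hser
  by_contra hcon
  push Not at hcon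
  have hPB : ∀ x z c d, ¬ Y.PB N x z c d := fun x z c d h =>
    hpat (Or.inr (Or.inl ⟨x, z, c, d, h⟩))
  have hKT : ¬ Y.KT t := fun h => hpat (Or.inr (Or.inr (Or.inr (Or.inr (Or.inr (Or.inr
    (Or.inr (Or.inr (Or.inr (Or.inr h))))))))))
  obtain ⟨rc, j, hR, hj, hwin, B, hB, hBl⟩ := hC Y hY hPB hKT n s e
    (fun i hi => ⟨(hbad i hi).ab, (hbad i hi).bL, (hbad i hi).sh⟩) hser hcon
  obtain ⟨idx, hidx⟩ := sepcol B hB
  -- the window
  have hemon : ∀ i k, i ≤ k → k < n → e i ≤ e k := by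
    intro i k hik hk
    induction k with
    | zero =>
      have : i = 0 := by omega
      rw [this]
    | succ q ih =>
      rcases Nat.lt_or_ge i (q + 1) with h1 | h1
      · have h2 := ih (by omega) (by omega)
        have h3 := hser q hk
        have h4 := (hbad (q + 1) hk).ab
        omega
      · have : i = q + 1 := by omega
        rw [this]
  have hlt : ∀ i k, i < k → k < n → e i < s k := by
    intro i k hik hk
    rcases Nat.lt_or_ge (i + 1) k with h1 | h1
    · have h2 := hemon i (k - 1) (by omega) (by omega)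
      have h3 := hser (k - 1) (by omega)
      rw [Nat.sub_add_cancel (by omega)] at h3
      omega
    · have : k = i + 1 := by omega
      rw [this]
      exact hser i (by omega)
  have hinw : ∀ i < n₁, ∀ x, s (j + i) ≤ x → x ≤ e (j + i) → s j ≤ x ∧ x ≤ e (j + n₁) := by
    intro i hi x h1 h2
    have h3 := hemon (j + i) (j + n₁) (by omega) (by omega)
    rcases Nat.eq_zero_or_pos i with h4 | h4
    · subst h4
      exact ⟨h1, by omega⟩
    · have h5 := hlt j (j + i) (by omega) (by omega)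
      have h6 := (hbad j (by omega)).ab
      omega
  have hshw : ∀ x, s j ≤ x → x ≤ e (j + n₁) → Y.sh x = Y.sh (s j) := by
    intro x h1 h2
    have h3 := hwin x h1 h2
    have h4 := hwin (s j) le_rfl (by
      have h5 := hemon j (j + n₁) (by omega) (by omega)
      have h6 := (hbad j (by omega)).ab
      omega)
    exact hR.sh x (s j) (by omega) (by omega) h3.1
  -- the links
  have hth : ∀ i, ∃ (a b : ℕ) (u v : ℕ → ℕ), i < n₁ → s (j + i) ≤ a ∧ a ≤ b ∧ b ≤ e (j + i) ∧
      (∀ k < M, a ≤ u k ∧ u k ≤ b ∧ (v k < a ∨ b < v k) ∧ Y.Lk (u k) (v k)) ∧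
      Y.Dis M (fun k => [u k, v k]) := by
    intro i
    by_cases hi : i < n₁
    · obtain ⟨a, b, h1, h2, h3, u, v, h4, h5⟩ := (hbad (j + i) (by omega)).thick
      exact ⟨a, b, u, v, fun _ => ⟨h1, h2, h3, h4, h5⟩⟩
    · exact ⟨0, 0, id, id, fun h => absurd h hi⟩
  choose a b u v huv using hth
  obtain ⟨φ, hφ1, hφ2, hφ3⟩ := conf (W := 2 * M) (n := n₁) (m := n₂) hY
    (fun i => (Finset.range M).image (u i))
    (fun i => (Finset.range M).image (u i) ∪ (Finset.range M).image (v i)) (by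
      intro i hi x hx
      simp only [Finset.mem_image, Finset.mem_range] at hx
      obtain ⟨k, hk, rfl⟩ := hx
      exact ((huv i hi).2.2.2.1 k hk).2.2.2.1) (by
      have key : ∀ i k, i < k → k < n₁ → Disjoint ((Finset.range M).image (u i))
          ((Finset.range M).image (u k)) := by
        intro i k hik hk
        rw [Finset.disjoint_left]
        intro x hx hx'
        simp only [Finset.mem_image, Finset.mem_range] at hx hx'
        obtain ⟨q, hq, rfl⟩ := hx
        obtain ⟨q', hq', h3⟩ := hx'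
        have h4 := (huv i (by omega)).2.2.2.1 q hq
        have h5 := (huv k hk).2.2.2.1 q' hq'
        have h6 := huv i (by omega)
        have h7 := huv k hk
        have h8 := hlt (j + i) (j + k) (by omega) (by omega)
        omega
      intro i hi k hk hne
      rcases Nat.lt_or_gt_of_ne hne with h1 | h1
      · exact key i k h1 hk
      · exact (key k i h1 hi).symm) (by
      intro i hi y hy
      simp only [Finset.mem_union, Finset.mem_image, Finset.mem_range] at hy
      simp only [Finset.mem_image, Finset.mem_range]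
      rcases hy with ⟨k, hk, rfl⟩ | ⟨k, hk, rfl⟩
      · exact ⟨_, ⟨k, hk, rfl⟩, Or.inl rfl⟩
      · exact ⟨u i k, ⟨k, hk, rfl⟩, ((huv i hi).2.2.2.1 k hk).2.2.2.2.2.2⟩) (by
      intro i _
      refine (Finset.card_union_le _ _).trans ?_
      have h1 := Finset.card_image_le (s := Finset.range M) (f := u i)
      have h2 := Finset.card_image_le (s := Finset.range M) (f := v i)
      rw [Finset.card_range] at h1 h2
      omega) (by rw [hn₁])
  have hind : ∀ i < n₂, ∀ i' < n₂, i ≠ i' → ∀ k < M, ∀ k' < M,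
      Y.Dj [u (φ i) k, v (φ i) k] [u (φ i') k', v (φ i') k'] := by
    intro i hi i' hi' hne k hk k' hk' y hy y' hy'
    refine hφ3 i hi i' hi' hne y ?_ y' ?_
    · simp only [List.mem_cons, List.not_mem_nil, or_false] at hy
      simp only [Finset.mem_union, Finset.mem_image, Finset.mem_range]
      rcases hy with rfl | rfl
      · exact Or.inl ⟨k, hk, rfl⟩
      · exact Or.inr ⟨k, hk, rfl⟩
    · simp only [List.mem_cons, List.not_mem_nil, or_false] at hy'
      simp only [Finset.mem_union, Finset.mem_image, Finset.mem_range]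
      rcases hy' with rfl | rfl
      · exact Or.inl ⟨k', hk', rfl⟩
      · exact Or.inr ⟨k', hk', rfl⟩
  have hne : ∀ (i i' : Fin M × Bool) (r r' : ℕ), r < n₂ → r' < n₂ → r ≠ r' →
      (if i.2 then u (φ r) i.1 else v (φ r) i.1) ≠
        (if i'.2 then u (φ r') i'.1 else v (φ r') i'.1) := by
    intro i i' r r' hr hr' hrr h1
    refine hind r hr r' hr' hrr i.1 i.1.2 i'.1 i'.1.2
      (if i.2 then u (φ r) i.1 else v (φ r) i.1) ?_
      (if i'.2 then u (φ r') i'.1 else v (φ r') i'.1) ?_ (by rw [h1])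
    · split_ifs <;> simp
    · split_ifs <;> simp
  obtain ⟨f, hf1, hf2, ⟨cc, hf3⟩, hf4, hf5⟩ := hn₂
    (fun i r => if i.2 then u (φ r) i.1 else v (φ r) i.1)
    (fun r k => idx (rc (v (φ r) k))) hne
  have hF : ∀ g < N', φ (f g) < n₁ := fun g hg => hφ1 _ (hf1 g hg)
  have hF' : ∀ i j, i < j → j < N' → φ (f i) < φ (f j) := fun i j h1 h2 =>
    hφ2 _ _ (hf2 i j h1 h2) (hf1 j h2)
  have hpu : ∀ g < N', ∀ k < M, s (j + φ (f g)) ≤ u (φ (f g)) k ∧
      u (φ (f g)) k ≤ e (j + φ (f g)) ∧ Y.Lk (u (φ (f g)) k) (v (φ (f g)) k) := by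
    intro g hg k hk
    have h1 := huv _ (hF g hg)
    have h2 := h1.2.2.2.1 k hk
    exact ⟨by omega, by omega, h2.2.2.2⟩
  obtain ⟨A₁, hA₁, hA₁'⟩ := hR.two (rc (s j))
  have hlast : ∀ x y, Y.Lk x y → s j ≤ x → x ≤ e (j + n₁) → Y.sh y ∈ A₁ := fun x y hl h1 h2 =>
    hA₁' x y hl (hwin x h1 h2).1 (hwin x h1 h2).2.1 (hwin x h1 h2).2.2
  by_cases hsep : ∃ k : Fin M, RamP.Sep N' (fun r => u (φ (f r)) k) (fun r => v (φ (f r)) k)
  · -- far
    obtain ⟨k, hk⟩ := hsep
    have hmem : ∀ g < N', rc (v (φ (f g)) k) ∈ B := by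
      intro g hg
      have h1 := hpu g hg k k.2
      have h2 := hinw _ (hF g hg) _ h1.1 h1.2.1
      exact hBl _ _ h2.1 h2.2 h1.2.2
    have hrc : ∀ g < N', ∀ g' < N', rc (v (φ (f g)) k) = rc (v (φ (f g')) k) := by
      intro g hg g' hg'
      exact hidx _ (hmem g hg) _ (hmem g' hg')
        ((congrFun (hf3 g hg) k).trans (congrFun (hf3 g' hg') k).symm)
    have hvL : ∀ g < N', v (φ (f g)) k < Y.L := fun g hg => (hpu g hg k k.2).2.2.2.1
    obtain ⟨A₂, hA₂, hA₂'⟩ := hR.two (rc (v (φ (f 0)) k))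
    refine hpat (hnf Y hY m t (fun i => s (j + φ (f (i + 1)))) (fun i => e (j + φ (f (i + 1))))
      (fun i => u (φ (f (i + 1))) k) (fun i => v (φ (f (i + 1))) k) ?_ ?_ ?_ ?_ ?_ ?_
      ⟨A₁ ∪ A₂, (Finset.card_union_le _ _).trans (by omega), ?_⟩)
    · intro i hi
      have h1 := hpu (i + 1) (by omega) k k.2
      have h2 := hF (i + 1) (by omega)
      exact ⟨h1.1, h1.2.1, (hbad _ (by omega)).bL, (hbad _ (by omega)).dirty, h1.2.2⟩
    · intro i hi
      have h2 := hF (i + 1 + 1) (by omega)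
      exact hlt _ _ (by have := hF' (i + 1) (i + 1 + 1) (by omega) (by omega); omega) (by omega)
    · intro i hi
      have h2 := hF (i + 1) (by omega)
      have h2' := hF (0 + 1) (by omega)
      have h3 := (hbad (j + φ (f (i + 1))) (by omega)).ab
      have h3' := (hbad (j + φ (f (0 + 1))) (by omega)).ab
      have e1 := hinw _ h2 _ le_rfl h3
      have e2 := hinw _ h2 _ h3 le_rfl
      have e3 := hinw _ h2' _ le_rfl h3'
      exact ⟨(hshw _ e1.1 e1.2).trans (hshw _ e3.1 e3.2).symm,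
        (hshw _ e2.1 e2.2).trans (hshw _ e3.1 e3.2).symm⟩
    · intro i hi
      exact hR.sh _ _ (hvL _ (by omega)) (hvL _ (by omega)) (hrc _ (by omega) _ (by omega))
    · intro i hi i' hi' hii
      refine hind _ (hf1 _ (by omega)) _ (hf1 _ (by omega)) ?_ k k.2 k k.2
      rcases Nat.lt_or_gt_of_ne hii with h1 | h1
      · have := hf2 (i + 1) (i' + 1) (by omega) (by omega); omega
      · have := hf2 (i' + 1) (i + 1) (by omega) (by omega); omega
    · rcases hk with hk | hk
      · right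
        intro i hi
        have h1 : u (φ (f (nf + 1))) k < v (φ (f (i + 1))) k :=
          hk (nf + 1) (i + 1) (by omega) (by omega)
        have h2 := hpu (nf + 1) (by omega) k k.2
        have h3 := hF (nf + 1) (by omega)
        have h4 := hF' (nf - 1 + 1) (nf + 1) (by omega) (by omega)
        have h5 := hlt (j + φ (f (nf - 1 + 1))) (j + φ (f (nf + 1))) (by omega) (by omega)
        omega
      · left
        intro i hi
        have h1 : v (φ (f (i + 1))) k < u (φ (f 0)) k := hk 0 (i + 1) (by omega) (by omega)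
        have h2 := hpu 0 (by omega) k k.2
        have h3 := hF (0 + 1) (by omega)
        have h4 := hF' 0 (0 + 1) (by omega) (by omega)
        have h5 := hlt (j + φ (f 0)) (j + φ (f (0 + 1))) (by omega) (by omega)
        omega
    · intro x y hl hx
      rcases hx with hx | ⟨i, hi, i', hi', hx1, hx2⟩
      · refine Finset.mem_union_left _ (hlast x y hl ?_ ?_)
        · have h2 := hF (0 + 1) (by omega)
          have h3 := (hbad (j + φ (f (0 + 1))) (by omega)).ab
          have h4 := hinw _ h2 _ le_rfl h3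
          omega
        · have h2 := hF (nf - 1 + 1) (by omega)
          have h3 := (hbad (j + φ (f (nf - 1 + 1))) (by omega)).ab
          have h4 := hinw _ h2 _ h3 le_rfl
          omega
      · refine Finset.mem_union_right _ ?_
        have hx3 : ∃ q < N', x + 1 ≤ v (φ (f q)) k := by
          have hm : RamP.Mon N' (fun r => v (φ (f r)) k) := hf4 (k, false)
          rcases hm with hm | hm
          · have h1 : v (φ (f (i' + 1))) k < v (φ (f (nf + 1))) k :=
              hm (i' + 1) (nf + 1) (by omega) (by omega)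
            exact ⟨nf + 1, by omega, by omega⟩
          · have h1 : v (φ (f (i' + 1))) k < v (φ (f 0)) k := hm 0 (i' + 1) (by omega) (by omega)
            exact ⟨0, by omega, by omega⟩
        obtain ⟨q, hq, hq'⟩ := hx3
        have e1 := hR.mono _ _ hx1
        have e2 := hR.mono x (x + 1) (by omega)
        have e3 := hR.mono _ _ hq'
        have e4 := hrc (i + 1) (by omega) 0 (by omega)
        have e5 := hrc q hq 0 (by omega)
        have e6 := hvL q hq
        exact hA₂' x y hl (by omega) (by omega) (by omega)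
  · -- local
    have hnear : ∀ k : Fin M, ∀ r q, r < q → q < N' →
        u (φ (f r)) k < v (φ (f q)) k ∧ v (φ (f r)) k < u (φ (f q)) k := by
      intro k
      have h1 : RamP.Near N' (fun r => u (φ (f r)) k) (fun r => v (φ (f r)) k) ∨
          RamP.Sep N' (fun r => u (φ (f r)) k) (fun r => v (φ (f r)) k) :=
        hf5 (k, true) (k, false)
      rcases h1 with h1 | h1
      · rcases h1 with h1 | h1
        · exact fun r q h2 h3 => ⟨(h1 r q h2 h3).2.1, (h1 r q h2 h3).2.2.1⟩
        · intro r q h2 h3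
          exfalso
          have e1 : u (φ (f q)) k < u (φ (f r)) k := (h1 r q h2 h3).1
          have e2 := hpu r (by omega) k k.2
          have e3 := hpu q h3 k k.2
          have e4 := hF q h3
          have e5 := hF' r q h2 h3
          have e6 := hlt (j + φ (f r)) (j + φ (f q)) (by omega) (by omega)
          omega
      · exact absurd ⟨k, h1⟩ hsep
    refine hpat (hnl Y hY t (fun i => a (φ (f (2 * i)))) (fun i => b (φ (f (2 * i)))) ?_ ?_ ?_ ?_
      ⟨A₁, hA₁, ?_⟩)
    · intro i hi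
      have h1 := huv _ (hF (2 * i) (by omega))
      have h2 := hF (2 * i) (by omega)
      have h3 := (hbad (j + φ (f (2 * i))) (by omega)).bL
      exact ⟨h1.2.1, by omega⟩
    · intro i hi
      have h1 := huv _ (hF (2 * i) (by omega))
      have h2 := huv _ (hF (2 * (i + 1)) (by omega))
      have h3 := hF (2 * (i + 1)) (by omega)
      have h4 := hF' (2 * i) (2 * (i + 1)) (by omega) (by omega)
      have h5 := hlt (j + φ (f (2 * i))) (j + φ (f (2 * (i + 1)))) (by omega) (by omega)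
      omega
    · intro i hi
      have h1 := huv _ (hF (2 * i) (by omega))
      have h2 := huv _ (hF (2 * 0) (by omega))
      have e1 := hinw _ (hF (2 * i) (by omega)) (a (φ (f (2 * i)))) h1.1 (by omega)
      have e2 := hinw _ (hF (2 * i) (by omega)) (b (φ (f (2 * i)))) (by omega) h1.2.2.1
      have e3 := hinw _ (hF (2 * 0) (by omega)) (a (φ (f (2 * 0)))) h2.1 (by omega)
      exact ⟨(hshw _ e1.1 e1.2).trans (hshw _ e3.1 e3.2).symm,
        (hshw _ e2.1 e2.2).trans (hshw _ e3.1 e3.2).symm⟩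
    · intro i h1 h2
      have g1 := huv _ (hF (2 * i) (by omega))
      refine ⟨u (φ (f (2 * i))), v (φ (f (2 * i))), fun k hk => ?_, g1.2.2.2.2⟩
      have g2 := g1.2.2.2.1 k hk
      have n1 := (hnear ⟨k, hk⟩ (2 * i - 1) (2 * i) (by omega) (by omega)).1
      have n2 := (hnear ⟨k, hk⟩ (2 * i) (2 * i + 1) (by omega) (by omega)).2
      simp only at n1 n2
      have p1 := hpu (2 * i - 1) (by omega) k hk
      have p2 := hpu (2 * i + 1) (by omega) k hk
      have q1 := huv _ (hF (2 * (i - 1)) (by omega))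
      have q2 := huv _ (hF (2 * (i + 1)) (by omega))
      have r1 := hF' (2 * (i - 1)) (2 * i - 1) (by omega) (by omega)
      have r2 := hF' (2 * i + 1) (2 * (i + 1)) (by omega) (by omega)
      have t1 := hF (2 * i - 1) (by omega)
      have t2 := hF (2 * (i + 1)) (by omega)
      have w1 := hlt (j + φ (f (2 * (i - 1)))) (j + φ (f (2 * i - 1))) (by omega) (by omega)
      have w2 := hlt (j + φ (f (2 * i + 1))) (j + φ (f (2 * (i + 1)))) (by omega) (by omega)
      exact ⟨g2.1, g2.2.1, g2.2.2.1, g2.2.2.2, by omega, by omega⟩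
    · intro x y hl h1 h2
      have g1 := huv _ (hF (2 * 0) (by omega))
      have g2 := huv _ (hF (2 * (nl - 1)) (by omega))
      have e1 := hinw _ (hF (2 * 0) (by omega)) (a (φ (f (2 * 0)))) g1.1 (by omega)
      have e2 := hinw _ (hF (2 * (nl - 1)) (by omega)) (b (φ (f (2 * (nl - 1))))) (by omega)
        g2.2.2.1
      exact hlast x y hl (by omega) (by omega)

end Sys

end EN
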