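import Pool.Agent.EN.MatchK
import Pool.Agent.EN.Joint

/-!
# Patterns of a realized system with joint ground (cycles)

`RealU`: no common ground set; the family of the grounded connectors is jointly unbalanced (`JU`).
The patterns (A) and (PS) give a grid model with an unbalanced set in every branch set (`GmU`), all
the others are as before.
-/

open Set
open scoped Matroid

namespace EN

open BIC Gad

variable {α V : Type*} {M : Matroid α} {S : Set α} {ends : α → Sym2 V}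

/-- Realization of a system with joint ground. -/
structure RealU {κ : Type*} (Y : Sys κ) (M : Matroid α) (S : Set α) (ends : α → Sym2 V)
    (P : ℕ → ℕ × ℕ → V) (lo hi : ℕ → ℕ) (n : ℕ) (B : κ → Set V) (col : ℕ → ℕ) : Prop where
  pgs : Pgs S ends P lo hi n
  fin : ∀ k, (B k).Finite
  con : ∀ k, VConn S ends (B k)
  dis : ∀ k k', k ≠ k' → Disjoint (B k) (B k')
  pB : ∀ k s, ∀ c ∈ Reg (lo s) (hi s) n, P s c ∉ B k
  prt : ∀ x < Y.L, lo (Y.sh x) ≤ col x ∧ col x ≤ hi (Y.sh x) ∧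
    Lnk S ends (B (Y.own x)) {P (Y.sh x) (col x, 0)}
  cnt : ∀ k k', Y.ct k k' → Lnk S ends (B k) (B k')
  cinc : ∀ x y, x < y → y < Y.L → Y.sh x = Y.sh y → col x < col y
  grd : ∀ I : Finset κ, (∀ k ∈ I, Y.gr k) → JU M S ends I B

/-- The same system without ground. -/
def Sys.ng {κ : Type*} (Y : Sys κ) : Sys κ where
  L := Y.L
  R := Y.R
  sh := Y.sh
  own := Y.own
  ct := Y.ct
  gr := fun _ => False

section

variable {κ : Type*} {Y : Sys κ} {P : ℕ → ℕ × ℕ → V} {lo hi : ℕ → ℕ} {n : ℕ}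
  {B : κ → Set V} {col : ℕ → ℕ}

lemma RealU.real (h : RealU Y M S ends P lo hi n B col) :
    Real Y.ng S ends P lo hi n ∅ B col where
  pgs := h.pgs
  finG := finite_empty
  conG := fun u hu => absurd hu (notMem_empty u)
  pG := fun _ _ _ => notMem_empty _
  fin := h.fin
  con := h.con
  dis := h.dis
  pB := h.pB
  dG := fun _ => disjoint_empty _
  prt := h.prt
  cnt := h.cnt
  grd := fun _ hk => False.elim hk
  cinc := h.cinc

/-- Joints in different grounded connectors. -/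
lemma RealU.joints [M.Finite] (h : RealU Y M S ends P lo hi n B col) (hF : Frm M S ends) {N : ℕ}
    (hN : 0 < N) {q : ℕ → ℕ} (hq : ∀ i < N, q i < Y.L) (hg : ∀ i < N, Y.gr (Y.own (q i)))
    (hd : ∀ i < N, ∀ j < N, i ≠ j → Y.own (q i) ≠ Y.own (q j)) :
    ∃ (τ : ℕ → Set α) (j : ℕ → α), (∀ i < N, Arb S ends (B (Y.own (q i))) (τ i)) ∧
      (∀ i < N, j i ∈ ins S ends (B (Y.own (q i))) ∧ j i ∉ τ i) ∧
      M.Indep (⋃ i ∈ Finset.range N, insert (j i) (τ i)) := by
  classical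
  have h1 : JU M S ends ((Finset.range N).image fun i => Y.own (q i)) B := by
    refine h.grd _ fun k hk => ?_
    obtain ⟨i, hi, rfl⟩ := Finset.mem_image.1 hk
    exact hg i (Finset.mem_range.1 hi)
  rw [JU.image] at h1
  · obtain ⟨τ, j, g1, g2, g3⟩ := h1.joints hF ⟨0, Finset.mem_range.2 hN⟩
      (fun i _ => h.fin _) (fun i hi => by
        obtain ⟨e, _, a, ha, _⟩ := (h.prt (q i) (hq i (Finset.mem_range.1 hi))).2.2
        exact ⟨a, ha⟩) (fun i _ => h.con _) (fun i hi j hj hij =>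
        h.dis _ _ (hd i (Finset.mem_range.1 hi) j (Finset.mem_range.1 hj) hij))
    exact ⟨τ, j, fun i hi => g1 i (Finset.mem_range.2 hi),
      fun i hi => g2 i (Finset.mem_range.2 hi), g3⟩
  · intro i hi j hj hij
    by_contra hne
    exact hd i (Finset.mem_range.1 hi) j (Finset.mem_range.1 hj) hne hij

/-- **Pattern (A) with joint ground.** -/
theorem RealU.pA [M.Finite] (h : RealU Y M S ends P lo hi n B col) (hF : Frm M S ends) {w N : ℕ}
    (hw : 1 ≤ w) (hN : w * w ≤ N) (hn : 1 + w ≤ n) {x z q : ℕ → ℕ} (hp : Y.PA N x z q) :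
    GmV M S ends (P (Y.sh (x 0))) (lo (Y.sh (x 0))) (hi (Y.sh (x 0))) n w := by
  classical
  obtain ⟨s, hs⟩ := hp.onP
  obtain ⟨s', hs'⟩ := hp.onQ
  have hN1 : 0 < N := lt_of_lt_of_le (Nat.mul_pos (by omega) (by omega)) hN
  rw [(hs 0 hN1 _ (by simp)).2]
  have hsx : ∀ i < N, x i < Y.L ∧ Y.sh (x i) = s := fun i hi => hs i hi _ (by simp)
  have hsq : ∀ i < N, q i < Y.L ∧ Y.sh (q i) = s := fun i hi => hs i hi _ (by simp)
  have hsz : ∀ i < N, z i < Y.L ∧ Y.sh (z i) = s' := fun i hi => hs' i hi _ (by simp)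
  have hR := h.real
  have hser := hR.ser hp.ser hs
  have hsep := hR.sep hp.far hs hs'
  have hz := hR.rlz
  obtain ⟨N₀, hN₀⟩ : ∃ N₀, N₀ = w * w := ⟨_, rfl⟩
  rw [← hN₀] at hN
  have hNpos : 0 < N₀ := by
    rw [hN₀]; exact Nat.mul_pos (by omega) (by omega)
  have hL : ∀ i < N₀, Lk (Y.prt col) Y.ct s (col (x i)) s' (col (z i)) (Y.F (x i) (z i)) := by
    intro i hi
    have h1 := lkOf (col := col) (hp.lk i (by omega))
    rwa [(hsx i (by omega)).2, (hsz i (by omega)).2] at h1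
  have hpq : ∀ i < N₀, lo s ≤ col (q i) ∧ col (q i) ≤ hi s ∧
      Lnk S ends (B (Y.own (q i))) {P s (col (q i), 0)} := by
    intro i hi
    have h1 := h.prt (q i) (hsq i (by omega)).1
    rwa [(hsq i (by omega)).2] at h1
  obtain ⟨A, hA, hA0⟩ := vals3 N₀ (fun i => col (x i)) (fun i => col (q i)) (fun i => col (q i))
  obtain ⟨A', hA', hA0'⟩ := vals3 N₀ (fun i => col (z i)) (fun i => col (z i))
    (fun i => col (z i))
  have hr1 : ∀ v ∈ A, lo s ≤ v ∧ v ≤ hi s := by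
    intro v hv
    obtain ⟨i, hi, e⟩ := (hA v).1 hv
    have h1 := (hL i hi).rng hz
    have h2 := hpq i hi
    omega
  have hr2 : ∀ v ∈ A', lo s' ≤ v ∧ v ≤ hi s' := by
    intro v hv
    obtain ⟨i, hi, e⟩ := (hA' v).1 hv
    have h1 := (hL i hi).rng hz
    omega
  have hs1 : s ≠ s' ∨ (∀ v ∈ A, ∀ v' ∈ A', v < v') ∨ (∀ v ∈ A, ∀ v' ∈ A', v' < v) := by
    rcases hsep with h1 | h1 | h1
    · exact Or.inl h1
    · right; left
      intro v hv v' hv'
      obtain ⟨i, hi, e⟩ := (hA v).1 hv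
      obtain ⟨j, hj, e'⟩ := (hA' v').1 hv'
      have h2 := h1 i (by omega) j (by omega) (x i) (by simp) (z j) (by simp)
      have h3 := h1 i (by omega) j (by omega) (q i) (by simp) (z j) (by simp)
      omega
    · right; right
      intro v hv v' hv'
      obtain ⟨i, hi, e⟩ := (hA v).1 hv
      obtain ⟨j, hj, e'⟩ := (hA' v').1 hv'
      have h2 := h1 i (by omega) j (by omega) (x i) (by simp) (z j) (by simp)
      have h3 := h1 i (by omega) j (by omega) (q i) (by simp) (z j) (by simp)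
      omega
  obtain ⟨l, r, l', r', g1, g2, g3, g4, g5, g6, g7⟩ := hz.pgs.pair (s := s) (s' := s') (hA0 hNpos)
    (hA0' hNpos) hr1 hr2 hs1
  have hyr : ∀ i < N₀, l ≤ col (x i) ∧ col (x i) ≤ r ∧ l ≤ col (q i) ∧ col (q i) ≤ r := by
    intro i hi
    have e1 := g1 _ ((hA _).2 ⟨i, hi, Or.inl rfl⟩)
    have e2 := g1 _ ((hA _).2 ⟨i, hi, Or.inr (Or.inl rfl)⟩)
    exact ⟨e1.1, e1.2, e2.1, e2.2⟩
  obtain ⟨τ, j, t1, t2, t3⟩ := h.joints hF hNpos (q := q) (fun i hi => (hsq i (by omega)).1)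
    (fun i hi => hp.gr i (by omega))
    (fun i hi j hj hij => hp.dis i (by omega) j (by omega) hij _ (by simp) _ (by simp))
  have e0 := hyr 0 hNpos
  have hR1 := g5 (l, 0) (by rw [mem_Reg]; simp only; omega)
  have hR2 := g5 (r, 0) (by rw [mem_Reg]; simp only; omega)
  rw [mem_Reg] at hR1 hR2
  refine GmV.mono ?_ hR1.1 hR2.2.1
  refine pA_cycle hF hw hN₀ g3 g4 g7 (by omega) (by omega) (fun i => col (x i))
    (fun i => col (q i)) (fun i => col (z i)) hyr ?_
    (fun i hi => g2 _ ((hA' _).2 ⟨i, hi, Or.inl rfl⟩)) (hR.mon hN hp.mon hsz)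
    (fun i => JJ B (Y.F (x i) (z i) ∪ {Y.own (q i)})) (fun i _ => hz.JJ_fin _) ?_ ?_
    (fun i _ c hc => hz.JJ_page _ (g5 c hc)) (fun i _ c hc => hz.JJ_page _ (g6 c hc))
    (fun i => B (Y.own (q i))) τ j ?_ t1 t2 t3
  · left
    intro i j hij hj
    have h1 := hser i j hij (by omega) (x i) (by simp) (x j) (by simp)
    have h2 := hser i j hij (by omega) (x i) (by simp) (q j) (by simp)
    have h3 := hser i j hij (by omega) (q i) (by simp) (x j) (by simp)
    have h4 := hser i j hij (by omega) (q i) (by simp) (q j) (by simp)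
    omega
  · intro i hi
    have e0 := hyr i hi
    have c1 := hz.link (hL i hi)
    have c2 := vc_lnk (h.con (Y.own (q i))) (vconn_singleton (P s (col (q i), 0))) (hpq i hi).2.2
    have c3 := UU_conn g3 (by omega) e0.1 e0.2.1 e0.2.2.1 e0.2.2.2
    have c4 := vc_union c1 c3 (c := P s (col (x i), 0)) (Or.inr (Or.inl rfl))
      ⟨_, UU_left (by omega), rfl⟩
    have c5 := vc_union c4 c2 (c := P s (col (q i), 0)) (Or.inr ⟨_, UU_right (by omega), rfl⟩)
      (Or.inr rfl)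
    refine vconn_congr c5 (fun u => ?_)
    rw [mem_blob]
    constructor
    · rintro (((⟨k, hk, g⟩ | g | g) | g) | (g | g))
      · exact Or.inl ⟨k, Finset.mem_union_left _ hk, g⟩
      · exact Or.inr (Or.inl ⟨_, UU_left (by omega), g.symm⟩)
      · exact Or.inr (Or.inr ⟨_, rfl, g.symm⟩)
      · exact Or.inr (Or.inl g)
      · exact Or.inl ⟨_, Finset.mem_union_right _ (Finset.mem_singleton_self _), g⟩
      · exact Or.inr (Or.inl ⟨_, UU_right (by omega), g.symm⟩)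
    · rintro (⟨k, hk, g⟩ | g | ⟨c, hc, g⟩)
      · rcases Finset.mem_union.1 hk with hk | hk
        · exact Or.inl (Or.inl (Or.inl ⟨k, hk, g⟩))
        · rw [Finset.mem_singleton.1 hk] at g
          exact Or.inr (Or.inl g)
      · exact Or.inl (Or.inr g)
      · rw [mem_singleton_iff] at hc
        rw [hc] at g
        exact Or.inl (Or.inl (Or.inr (Or.inr g.symm)))
  · intro i hi j hj hij
    refine hz.JJ_dis ?_
    have e1 := hp.dis i (by omega) j (by omega) hij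
    have e2 := hp.dis j (by omega) i (by omega) (Ne.symm hij)
    rw [Finset.disjoint_left]
    intro k hk hk'
    rw [Finset.mem_union, Sys.mem_F, Finset.mem_singleton] at hk hk'
    rcases hk with (hk | hk) | hk <;> rcases hk' with (hk' | hk') | hk'
    · exact e1 (x i) (by simp) (x j) (by simp) (hk.symm.trans hk')
    · exact e1 (x i) (by simp) (z j) (by simp) (hk.symm.trans hk')
    · exact e1 (x i) (by simp) (q j) (by simp) (hk.symm.trans hk')
    · exact e1 (z i) (by simp) (x j) (by simp) (hk.symm.trans hk')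
    · exact e1 (z i) (by simp) (z j) (by simp) (hk.symm.trans hk')
    · exact e1 (z i) (by simp) (q j) (by simp) (hk.symm.trans hk')
    · exact e1 (q i) (by simp) (x j) (by simp) (hk.symm.trans hk')
    · exact e1 (q i) (by simp) (z j) (by simp) (hk.symm.trans hk')
    · exact e1 (q i) (by simp) (q j) (by simp) (hk.symm.trans hk')
  · intro i hi v hv
    exact ⟨_, Finset.mem_union_right _ (Finset.mem_singleton_self _), hv⟩

lemma Sys.Ns.ng {N m : ℕ} {a b : ℕ → ℕ → ℕ} (h : Y.Ns N m a b) : Y.ng.Ns N m a b :=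
  ⟨h.lk, h.am, h.bm, h.ab, h.ser, h.on, h.dis⟩

/-- **Pattern (PS) with joint ground.** -/
theorem RealU.pS [M.Finite] (h : RealU Y M S ends P lo hi n B col) (hF : Frm M S ends)
    {w N m : ℕ} (hA : Y.Mo) (hw : 1 ≤ w) (hN : w * w ≤ N) (hm' : w + 1 ≤ m)
    (hn : 2 * w + 2 ≤ n) {a b : ℕ → ℕ → ℕ} {x : ℕ → ℕ} (hp : Y.PS N m a b x) :
    GmV M S ends (P (Y.sh (a 0 0))) (lo (Y.sh (a 0 0))) (hi (Y.sh (a 0 0))) n w := by
  obtain ⟨s, hs⟩ := hp.ns.on
  have hN1 : 0 < N := lt_of_lt_of_le (Nat.mul_pos (by omega) (by omega)) hN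
  rw [(hs 0 hN1 0 (by omega)).1]
  have hsa : ∀ g < N, ∀ k < m, a k g < Y.L ∧ Y.sh (a k g) = s := fun g hg k hk =>
    ⟨(hp.ns.lk g hg k hk).1, (hs g hg k hk).1⟩
  have hsb : ∀ g < N, ∀ k < m, b k g < Y.L ∧ Y.sh (b k g) = s := fun g hg k hk =>
    ⟨(hp.ns.lk g hg k hk).2.1, (hs g hg k hk).2⟩
  have hsx : ∀ g < N, x g < Y.L ∧ Y.sh (x g) = s := fun g hg =>
    hA.btw (hp.px g hg).1 (hp.px g hg).2 (hsa g hg 0 (by omega)) (hsb g hg 0 (by omega))
  have hR := h.real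
  have hz := hR.rlz
  obtain ⟨N₀, hN₀⟩ : ∃ N₀, N₀ = w * w := ⟨_, rfl⟩
  rw [← hN₀] at hN
  have hNpos : 0 < N₀ := by
    rw [hN₀]; exact Nat.mul_pos (by omega) (by omega)
  have hdx : ∀ i < N₀, ∀ j < N₀, i ≠ j → Y.own (x i) ≠ Y.own (x j) := fun i hi j hj hij =>
    hp.dis i (by omega) j (by omega) hij _ (by simp) _ (by simp)
  obtain ⟨τ, j, t1, t2, t3⟩ := h.joints hF hNpos (q := x) (fun i hi => (hsx i (by omega)).1)
    (fun i hi => hp.gr i (by omega)) hdx
  refine ps_cycle hF hw hN₀ ((hR.nstL (w := w) hm' hN hp.ns.ng hs).nst hz (by omega)) hn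
    (fun g => col (x g)) ?_ (fun g => JJ B {Y.own (x g)}) (fun i _ => hz.JJ_fin _) ?_ ?_
    (fun i _ c hc => hz.JJ_page _ hc) ?_ (fun i => B (Y.own (x i))) τ j ?_ t1 t2 t3
  · intro i hi
    exact ⟨(hR.lt_iff (hsa _ (by omega) _ (by omega)) (hsx _ (by omega))).1
      (hp.px i (by omega)).1, (hR.lt_iff (hsx _ (by omega)) (hsb _ (by omega) _ (by omega))).1
      (hp.px i (by omega)).2⟩
  · intro i hi
    have h1 := (h.prt (x i) (hsx i (by omega)).1).2.2
    rw [(hsx i (by omega)).2] at h1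
    refine vconn_congr (vc_lnk (h.con (Y.own (x i)))
      (vconn_singleton (P s (col (x i), 0))) h1) (fun v => ?_)
    constructor
    · rintro (g | g)
      · exact Or.inl ⟨_, Finset.mem_singleton_self _, g⟩
      · exact Or.inr g
    · rintro (⟨k, hk, g⟩ | g)
      · rw [Finset.mem_singleton.1 hk] at g
        exact Or.inl g
      · exact Or.inr g
  · intro i hi j hj hij
    refine hz.JJ_dis ?_
    rw [Finset.disjoint_singleton]
    exact hdx i hi j hj hij
  · intro i hi t j h1 h2 h3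
    refine hz.JJ_dis ?_
    rw [Finset.disjoint_left]
    intro k hk hk'
    rw [Finset.mem_singleton] at hk
    rw [Sys.mem_F] at hk'
    have e1 := hp.dj i (by omega) j (by omega) (t - 1) (by omega)
    rcases hk' with hk' | hk'
    · exact e1 (x i) (by simp) _ (by simp) (hk.symm.trans hk')
    · exact e1 (x i) (by simp) _ (by simp) (hk.symm.trans hk')
  · intro i hi v hv
    exact ⟨_, Finset.mem_singleton_self _, hv⟩

/-- **The matching theorem with joint ground.** -/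
theorem RealU.pat [M.Finite] (h : RealU Y M S ends P lo hi n B col) (hF : Frm M S ends)
    {w N m t : ℕ} (hA : Y.Mo) (hw : 1 ≤ w) (hN : 3 * ((2 * w) * (2 * w)) + 2 ≤ N)
    (hm' : 2 * w + 1 ≤ m) (ht : (2 * w) * (2 * w) + 1 ≤ t) (hn : 4 * w + 3 ≤ n)
    (hp : Y.Pat N m t) : GMod M S ends w := by
  obtain ⟨N₀, hN₀⟩ : ∃ N₀, N₀ = (2 * w) * (2 * w) := ⟨_, rfl⟩
  have hN₁ : w * w ≤ N₀ := by
    rw [hN₀]; exact Nat.mul_le_mul (by omega) (by omega)
  rw [← hN₀] at hN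
  have hR := h.real
  rcases hp with ⟨x, z, q, hp⟩ | ⟨x, z, c, d, hp⟩ | ⟨p, q, y, z, hp⟩ | ⟨p, q, y, z, p', q', hp⟩ |
    ⟨a, b, y, z, v, v', hp⟩ | ⟨u, v, hp⟩ | ⟨a, b, x, hp⟩ | ⟨a, b, x, z, hp⟩ | ⟨d, a, b, x, z, hp⟩ |
    ⟨a, b, y, z, v, v', hp⟩ | hp
  · exact Or.inr (h.pA hF hw (by omega) (by omega) hp).gmU
  · exact Or.inl (hR.pB' hw (by rw [← hN₀]; omega) (by omega)
      ⟨hp.lk, hp.lk', hp.ser, hp.mon, hp.mon', hp.far, hp.far', hp.far'', hp.onP, hp.onZ, hp.onD,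
        hp.dis⟩).gmZ
  · exact Or.inl (hR.pJ hw (by rw [← hN₀]; omega) (by omega)
      ⟨hp.lk, hp.lk', hp.yp, hp.pz, hp.ser, hp.mon, hp.far, hp.onP, hp.onQ, hp.dis, hp.dj⟩).gmZ
  · exact Or.inl (hR.pX hw (by rw [← hN₀]; omega) (by omega)
      ⟨hp.lk, hp.lk', hp.lk'', hp.yp, hp.pp, hp.ser, hp.cr, hp.far, hp.onP, hp.onQ, hp.dis,
        hp.dj, hp.dj'⟩).gmZ
  · exact Or.inl (hR.pC hw (by rw [← hN₀]; omega) (by omega)
      ⟨hp.lk, hp.lk', hp.lk'', hp.ord, hp.ser, hp.mon, hp.far, hp.onP, hp.onQ, hp.dis, hp.dj⟩).gmZ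
  · exact Or.inl (hR.pM hw (by rw [← hN₀]; omega) hm' (by omega)
      ⟨hp.lk, hp.um, hp.vm, hp.uv, hp.ser, hp.on, hp.dis⟩).gmZ
  · exact Or.inr (h.pS hF hA hw (by omega) (by omega) (by omega) hp).gmU
  · exact Or.inl (hR.pSF hA hw (by rw [← hN₀]; omega) hm' (by omega)
      ⟨hp.ns.ng, hp.px, hp.lk, hp.mon, hp.far, hp.onQ, hp.dis, hp.dj⟩).gmZ
  · exact Or.inl (hR.pSG hA hw (by rw [← hN₀]; omega) hm' (by omega)
      ⟨hp.ns.ng, hp.px, hp.lk, hp.sh, hp.out, hp.gap, hp.dis, hp.dj⟩).gmZ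
  · exact Or.inl (hR.pSC hA hw (by rw [← hN₀]; omega) hm' (by omega)
      ⟨hp.ns.ng, hp.lk, hp.lk', hp.ord, hp.dis, hp.djc, hp.dj⟩).gmZ
  · exact Or.inl (hR.pKT hw ht (by omega) hp)

end

end EN
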