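import Pool.Agent.EN.Emb
import Pool.Agent.EN.MatchU

/-!
# The real system of the instance with joint ground (row B7 (4) / C7 of T-star; helper45)

`Emb.realU`: the system of connectors (`ConnB`) of the host inside the graph `(S, ends)` is a
`EN.RealU` if the images of the grounded connectors are jointly unbalanced.
`ConnB.mrgU`: joint ground after merging.
-/

set_option autoImplicit false

open Relation Gad BIC

namespace Mdl

variable {V σ X κ : Type*}

/-- the system without ground places -/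
def CSys.ng (Y : CSys σ X κ) : CSys σ X κ := { Y with gr := fun _ => False }

lemma CSys.ConnB.ng {Y : CSys σ X κ} {B : κ → Set (HV V σ)} {H : Host V σ} {D K : ℤ}
    (h : Y.ConnB B H D K) : Y.ng.ConnB B H D K where
  mono := h.mono
  lt := h.lt
  fin := h.fin
  out := h.out
  bd := h.bd
  conn := h.conn
  dis := h.dis
  left := h.left
  right := h.right
  ct := h.ct
  gr := fun _ hk => False.elim hk

namespace Emb

open EN EN.Inst

variable {α W : Type*} {S : Set α} {ends : α → Sym2 W} {H : Host V σ} {D K : ℤ} {φ : HV V σ → W}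
  {sg : ℕ → σ} {m : ℕ}

/-- **The real system with joint ground.** -/
theorem realU (hE : Emb S ends H D φ) (hK : 2 ≤ K) (hKD : K ≤ D) (hS : Enum sg m)
    {Y : CSys σ X κ} {B : κ → Set (HV V σ)} (hC : Y.ConnB B H D K) {M : Matroid α}
    (hgr : ∀ I : Finset κ, (∀ k ∈ I, Y.gr k) → JU M S ends I (fun k => φ '' B k)) :
    RealU (lin Y sg m) M S ends (pg φ sg m K) (lo H sg m) (hi H sg m) (K - 2).toNat
      (fun k => φ '' B k) (colL Y sg m) := by
  have h := hE.real hK hKD hS hC.ng (G := ∅) Set.finite_empty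
    (fun u hu => absurd hu (Set.notMem_empty u)) (fun _ _ => Set.notMem_empty _)
    (fun _ hk => False.elim hk)
  exact ⟨h.pgs, h.fin, h.con, h.dis, h.pB, h.prt, h.cnt, h.cinc, hgr⟩

end Emb

open EN in
/-- Joint ground of the merged connectors. -/
theorem CSys.ConnB.juM {α W : Type*} {M : Matroid α} [M.Finite] {S : Set α} {ends : α → Sym2 W}
    (hF : Frm M S ends) {H : Host V σ} {D K : ℤ} {φ : HV V σ → W} (hE : Emb S ends H D φ)
    (hK : 1 ≤ K) {Y : CSys σ X κ} {B : κ → Set (HV V σ)} (hC : Y.ConnB B H D K) [Finite κ]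
    {G : SimpleGraph X} {s : ℕ} {rt nx : κ → κ} (hR : EN.Mrg.Root G Y.ver Y.Pt Y.ct s rt nx)
    (hgr : ∀ I : Finset κ, (∀ k ∈ I, Y.gr k) → JU M S ends I (fun k => φ '' B k)) :
    ∀ I : Finset κ, (∀ k ∈ I, (EN.Inst.mrg Y rt).gr k) →
      JU M S ends I (fun k => φ '' BM B rt k) := by
  classical
  intro I hI
  have hC' := hC.mrg hR
  have hex : ∀ k : κ, k ∈ I → ∃ k₀, Y.gr k₀ ∧ rt k₀ = k := fun k hk => hI k hk
  choose! f hf1 hf2 using hex
  have hinj : Set.InjOn f (I : Set κ) := by
    intro k hk k' hk' he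
    rw [← hf2 k hk, ← hf2 k' hk', he]
  have h1 := hgr (I.image f) (by
    intro k hk
    obtain ⟨k', hk', rfl⟩ := Finset.mem_image.1 hk
    exact hf1 k' hk')
  rw [JU.image hinj] at h1
  refine h1.mono_all hF (fun k _ => (hC'.fin k).image _) ?_ ?_ (fun k _ => hE.vconn hC' hK k) ?_
  · intro k hk
    refine Set.image_mono ?_
    intro v hv
    exact ⟨f k, hf2 k hk, hv⟩
  · intro k hk
    obtain ⟨v, hv, _⟩ := hC.gr (f k) (hf1 k hk)
    exact ⟨_, _, hv, rfl⟩
  · intro k _ k' _ hkk
    rw [Set.disjoint_left]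
    rintro _ ⟨u, hu, rfl⟩ ⟨v, hv, he⟩
    have h2 := hE.inj _ _ (Emb.nz_of hC' hK hv) (Emb.nz_of hC' hK hu) he
    subst h2
    exact Set.disjoint_left.1 (hC'.dis k k' hkk) hu hv

end Mdl
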