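import Pool.Agent.EN.InstR

/-!
# Deleting the floats far from the ports

`Y` is a system of connectors for the graph `G` without the vertices of `Z`.  The vertices at
distance more than `s` from every vertex with a port are deleted (`Z'`); the rest is a system for `G`
without `Z'`, in which every float can be merged.
-/

set_option autoImplicit false

open Relation

namespace Mdl

variable {V σ W κ : Type*} {Z Z' : Finset W}

/-- the kept connectors -/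
abbrev KR (Y : CSys σ {v : W // v ∉ Z} κ) (Z' : Finset W) :=
  {k : κ // k ∈ Y.all ∧ (Y.ver k).1 ∉ Z'}

/-- Restriction to the vertices outside of `Z'`. -/
noncomputable def CSys.rst (Y : CSys σ {v : W // v ∉ Z} κ) (Z' : Finset W)
    (hne : Nonempty (KR Y Z')) : CSys σ {v : W // v ∉ Z'} (KR Y Z') := by
  classical
  exact
    { n := Y.n
      col := Y.col
      own := fun s e p => if h : Y.own s e p ∈ Y.all ∧ (Y.ver (Y.own s e p)).1 ∉ Z' then ⟨_, h⟩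
        else Classical.choice hne
      all := Set.univ
      ver := fun k => ⟨(Y.ver k).1, k.2.2⟩
      ct := fun k k' => Y.ct k k'
      gr := fun k => Y.gr k }

/-- `Z'` is `Z` and the vertices at distance more than `s` from the ported vertices. -/
structure CSys.FarZ (Y : CSys σ {v : W // v ∉ Z} κ) (G : SimpleGraph W) (s : ℕ) (Z' : Finset W) :
    Prop where
  sub : Z ⊆ Z'
  far : ∀ v (hv : v ∉ Z), v ∈ Z' ↔ (⟨v, hv⟩ : {v : W // v ∉ Z}) ∉
    EN.Mrg.Nr (G.comap Subtype.val) Y.PV s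
  pos : 1 ≤ s

section

variable {Y : CSys σ {v : W // v ∉ Z} κ} {G : SimpleGraph W} {s : ℕ}

lemma CSys.FarZ.near (hf : Y.FarZ G s Z') {y : {v : W // v ∉ Z}} {i : ℕ} (hi : i ≤ s)
    (hy : y ∈ EN.Mrg.Nr (G.comap Subtype.val) Y.PV i) : y.1 ∉ Z' := by
  rw [hf.far y.1 y.2, not_not]
  exact EN.Mrg.Nr_mono _ _ hi hy

lemma CSys.FarZ.port (hf : Y.FarZ G s Z') {s' : σ} {e : Bool} {p : ℕ} (hp : p < Y.n s') :
    (Y.ver (Y.own s' e p)).1 ∉ Z' :=
  hf.near (i := 0) (Nat.zero_le _) ⟨_, ⟨s', e, p, hp, rfl⟩, rfl⟩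

lemma CSys.FarZ.nb (hf : Y.FarZ G s Z') {s' : σ} {e : Bool} {p : ℕ} (hp : p < Y.n s')
    {y : {v : W // v ∉ Z}} (hy : (G.comap Subtype.val).Adj (Y.ver (Y.own s' e p)) y) :
    y.1 ∉ Z' :=
  hf.near hf.pos (Or.inr ⟨_, ⟨_, ⟨s', e, p, hp, rfl⟩, rfl⟩, hy.symm⟩)

lemma CSys.rst_own (h : Y.Core (G.comap Subtype.val)) (hf : Y.FarZ G s Z')
    (hne : Nonempty (KR Y Z')) {s' : σ} {e : Bool} {p : ℕ} (hp : p < Y.n s') :
    (((Y.rst Z' hne).own s' e p : KR Y Z') : κ) = Y.own s' e p := by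
  classical
  have h1 : Y.own s' e p ∈ Y.all ∧ (Y.ver (Y.own s' e p)).1 ∉ Z' :=
    ⟨h.mem s' e p hp, hf.port hp⟩
  show ((if h : Y.own s' e p ∈ Y.all ∧ (Y.ver (Y.own s' e p)).1 ∉ Z' then
    (⟨_, h⟩ : KR Y Z') else Classical.choice hne : KR Y Z') : κ) = Y.own s' e p
  rw [dif_pos h1]

lemma CSys.rst_ver (h : Y.Core (G.comap Subtype.val)) (hf : Y.FarZ G s Z')
    (hne : Nonempty (KR Y Z')) {s' : σ} {e : Bool} {p : ℕ} (hp : p < Y.n s') :
    ((Y.rst Z' hne).ver ((Y.rst Z' hne).own s' e p)).1 = (Y.ver (Y.own s' e p)).1 := by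
  show (Y.ver (((Y.rst Z' hne).own s' e p : KR Y Z') : κ)).1 = _
  rw [CSys.rst_own h hf hne hp]

lemma CSys.rst_ver_eq (h : Y.Core (G.comap Subtype.val)) (hf : Y.FarZ G s Z')
    (hne : Nonempty (KR Y Z')) {s' : σ} {e : Bool} {p : ℕ} (hp : p < Y.n s')
    {y : {v : W // v ∉ Z}} {y' : {v : W // v ∉ Z'}} (hy : y.1 = y'.1) :
    (Y.rst Z' hne).ver ((Y.rst Z' hne).own s' e p) = y' ↔ Y.ver (Y.own s' e p) = y := by
  rw [Subtype.ext_iff, Subtype.ext_iff, CSys.rst_ver h hf hne hp, hy]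

theorem CSys.Core.rst (h : Y.Core (G.comap Subtype.val)) (hf : Y.FarZ G s Z')
    (hne : Nonempty (KR Y Z')) : (Y.rst Z' hne).Core (G.comap Subtype.val) where
  fin := by
    have h1 : Finite Y.all := h.fin
    have h2 : Finite (KR Y Z') := Finite.of_injective
      (fun k : KR Y Z' => (⟨k.1, k.2.1⟩ : Y.all)) (fun k k' hkk =>
        Subtype.ext (congrArg (fun x : Y.all => x.1) hkk))
    exact Set.toFinite _
  mem _ _ _ _ := Set.mem_univ _
  ctm k k' hk := ⟨Set.mem_univ _, Set.mem_univ _, (h.ctm k k' hk).2.2⟩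
  cts k k' hk := h.cts k k' hk
  ct1 k k' l l' h1 h2 h3 h4 := by
    have h3' := congrArg Subtype.val h3
    have h4' := congrArg Subtype.val h4
    obtain ⟨e1, e2⟩ := h.ct1 k k' l l' h1 h2 (Subtype.ext h3') (Subtype.ext h4')
    exact ⟨Subtype.ext e1, Subtype.ext e2⟩
  ctE k k' hk := by
    rintro ⟨s, e, e', p, q, h1, h2, h3, h4, h5⟩
    have h1' : p < Y.n s := h1
    have h2' : q < Y.n s := h2
    rw [CSys.rst_ver_eq h hf hne h1' (y := Y.ver k) rfl] at h4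
    rw [CSys.rst_ver_eq h hf hne h2' (y := Y.ver k') rfl] at h5
    exact h.ctE k k' hk ⟨s, e, e', p, q, h1', h2', h3, h4, h5⟩
  con y T := by
    rintro ⟨k, _, h1, h2⟩ ⟨k', _, h3, h4⟩
    have hyZ : y.1 ∉ Z := fun h5 => y.2 (hf.sub h5)
    obtain ⟨s, p, hp, g1, g2, g3⟩ := h.con ⟨y.1, hyZ⟩
      {x | ∃ hx : x ∈ Y.all ∧ (Y.ver x).1 ∉ Z', (⟨x, hx⟩ : KR Y Z') ∈ T}
      ⟨k, k.2.1, ⟨k.2, h1⟩, Subtype.ext (show (Y.ver k).1 = y.1 from congrArg Subtype.val h2)⟩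
      ⟨k', k'.2.1, fun ⟨_, hx⟩ => h3 hx, Subtype.ext (show (Y.ver k').1 = y.1 from congrArg Subtype.val h4)⟩
    refine ⟨s, p, hp, ?_, ?_, ?_⟩
    · rw [CSys.rst_ver_eq h hf hne hp (y := ⟨y.1, hyZ⟩) rfl]
      exact g1
    · rw [CSys.rst_ver_eq h hf hne hp (y := ⟨y.1, hyZ⟩) rfl]
      exact g2
    · have key : ∀ e, Y.own s e p ∈ {x | ∃ hx : x ∈ Y.all ∧ (Y.ver x).1 ∉ Z',
          (⟨x, hx⟩ : KR Y Z') ∈ T} ↔ (Y.rst Z' hne).own s e p ∈ T := by
        intro e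
        have h5 : (Y.rst Z' hne).own s e p = ⟨Y.own s e p, h.mem s e p hp, hf.port hp⟩ :=
          Subtype.ext (CSys.rst_own h hf hne hp)
        rw [h5]
        exact ⟨fun ⟨_, hx⟩ => hx, fun hx => ⟨_, hx⟩⟩
      rw [key, key] at g3
      exact g3
  edg y z hyz := by
    have hyZ : y.1 ∉ Z := fun h5 => y.2 (hf.sub h5)
    have hzZ : z.1 ∉ Z := fun h5 => z.2 (hf.sub h5)
    rcases h.edg ⟨y.1, hyZ⟩ ⟨z.1, hzZ⟩ hyz with ⟨s, e, e', p, q, h1, h2, h3, h4, h5⟩ |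
      ⟨k, k', h1, h2, h3⟩
    · left
      refine ⟨s, e, e', p, q, h1, h2, h3, ?_, ?_⟩
      · rw [CSys.rst_ver_eq h hf hne h1 (y := ⟨y.1, hyZ⟩) rfl]
        exact h4
      · rw [CSys.rst_ver_eq h hf hne h2 (y := ⟨z.1, hzZ⟩) rfl]
        exact h5
    · right
      obtain ⟨h4, h5, _⟩ := h.ctm k k' h1
      have e1 : (Y.ver k).1 = y.1 := by rw [h2]
      have e2 : (Y.ver k').1 = z.1 := by rw [h3]
      refine ⟨⟨k, h4, by rw [e1]; exact y.2⟩, ⟨k', h5, by rw [e2]; exact z.2⟩, h1,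
        Subtype.ext e1, Subtype.ext e2⟩
  a1 s e p hp := by
    have hp' : p + 1 < Y.n s := hp
    intro h1
    have h2 := Subtype.ext_iff.1 h1
    rw [CSys.rst_ver h hf hne (by omega), CSys.rst_ver h hf hne hp'] at h2
    exact h.a1 s e p hp' (Subtype.ext h2)
  a2 s e p hp hg hone := by
    have hp' : p < Y.n s := hp
    have hg' : ¬ Y.gr (Y.own s e p) := by
      rw [← CSys.rst_own h hf hne hp']
      exact hg
    obtain ⟨k, k', h1, h2, h3⟩ := h.a2 s e p hp' hg' (by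
      intro s' e' p' hp'' he
      refine hone s' e' p' hp'' (Subtype.ext ?_)
      rw [CSys.rst_own h hf hne hp'', CSys.rst_own h hf hne hp', he])
    obtain ⟨_, h5, h5'⟩ := h.ctm _ _ h2
    obtain ⟨_, h7, h7'⟩ := h.ctm _ _ h3
    refine ⟨⟨k, h5, hf.nb hp' h5'⟩, ⟨k', h7, hf.nb hp' h7'⟩,
      fun he => h1 (congrArg Subtype.val he), ?_, ?_⟩
    · show Y.ct (((Y.rst Z' hne).own s e p : KR Y Z') : κ) k
      rw [CSys.rst_own h hf hne hp']
      exact h2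
    · show Y.ct (((Y.rst Z' hne).own s e p : KR Y Z') : κ) k'
      rw [CSys.rst_own h hf hne hp']
      exact h3
  a5 k A hA := by
    refine h.a5 k A (fun x hx => ?_)
    obtain ⟨h1, h2⟩ := hA x hx
    refine ⟨h1, ?_⟩
    rw [← CSys.rst_own h hf hne h1, h2]
  fgr k _ hp := by
    refine h.fgr k k.2.1 ?_
    rintro ⟨s, e, p, hp', he⟩
    exact hp ⟨s, e, p, hp', Subtype.ext ((CSys.rst_own h hf hne hp').trans he)⟩

/-- Nearness is kept. -/
lemma CSys.nr_rst (h : Y.Core (G.comap Subtype.val)) (hf : Y.FarZ G s Z')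
    (hne : Nonempty (KR Y Z')) (i : ℕ) (hi : i ≤ s) (y : {v : W // v ∉ Z}) (hy' : y.1 ∉ Z')
    (hy : y ∈ EN.Mrg.Nr (G.comap Subtype.val) Y.PV i) :
    (⟨y.1, hy'⟩ : {v : W // v ∉ Z'}) ∈ EN.Mrg.Nr (G.comap Subtype.val) (Y.rst Z' hne).PV i := by
  induction i generalizing y with
  | zero =>
    obtain ⟨k, ⟨s', e, p, hp, rfl⟩, rfl⟩ := hy
    refine ⟨(Y.rst Z' hne).own s' e p, ⟨s', e, p, hp, rfl⟩, Subtype.ext ?_⟩
    rw [CSys.rst_ver h hf hne hp]
  | succ i ih =>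
    rcases hy with hy | ⟨z, hz, hyz⟩
    · exact Or.inl (ih (by omega) y hy' hy)
    · have hz' : z.1 ∉ Z' := hf.near (by omega) hz
      exact Or.inr ⟨⟨z.1, hz'⟩, ih (by omega) z hz' hz, hyz⟩

/-- In the restricted system all floats are near. -/
theorem CSys.rst_near (h : Y.Core (G.comap Subtype.val)) (hf : Y.FarZ G s Z')
    (hne : Nonempty (KR Y Z')) (k : KR Y Z') :
    (Y.rst Z' hne).ver k ∈ EN.Mrg.Nr (G.comap Subtype.val) (Y.rst Z' hne).PV s := by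
  have h1 : Y.ver k ∈ EN.Mrg.Nr (G.comap Subtype.val) Y.PV s := by
    have h2 := (hf.far (Y.ver k).1 (Y.ver k).2).not.1 k.2.2
    rwa [not_not] at h2
  exact CSys.nr_rst h hf hne s le_rfl (Y.ver k) k.2.2 h1

/-- **The floats of the restricted system can be merged.** -/
theorem CSys.rst_root (h : Y.Core (G.comap Subtype.val)) (hf : Y.FarZ G s Z')
    (hne : Nonempty (KR Y Z')) : ∃ rt nx, EN.Mrg.Root (G.comap Subtype.val)
      (Y.rst Z' hne).ver (Y.rst Z' hne).Pt (Y.rst Z' hne).ct s rt nx :=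
  EN.Mrg.exists_root ((h.rst hf hne).flt (fun _ => Set.mem_univ _))
    (fun k _ => CSys.rst_near h hf hne k)

/-- Connectors of kept vertices. -/
lemma CSys.rst_class (hne : Nonempty (KR Y Z')) {y : {v : W // v ∉ Z'}} (hy : y.1 ∉ Z) :
    (Subtype.val '' {k | (Y.rst Z' hne).ver k = y}) = {k | k ∈ Y.all ∧ Y.ver k = ⟨y.1, hy⟩} := by
  ext k
  constructor
  · rintro ⟨k, hk, rfl⟩
    exact ⟨k.2.1, Subtype.ext (show (Y.ver k).1 = y.1 from congrArg Subtype.val hk)⟩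
  · rintro ⟨h1, h2⟩
    have h3 : (Y.ver k).1 = y.1 := by rw [h2]
    exact ⟨⟨k, h1, by rw [h3]; exact y.2⟩, Subtype.ext h3, rfl⟩

/-- **Grounded or closed** is kept. -/
theorem CSys.rst_cyc (h : Y.Core (G.comap Subtype.val)) (hf : Y.FarZ G s Z')
    (hne : Nonempty (KR Y Z'))
    (hgm : ∀ k, Y.gr k → k ∈ Y.all)
    (hc : ∀ y, (∃ k, Y.gr k ∧ Y.ver k = y) ∨ {k | k ∈ Y.all ∧ Y.ver k = y}.ncard ≤
      {x : σ × ℕ | x.2 < Y.n x.1 ∧ Y.ver (Y.own x.1 false x.2) = y ∧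
        Y.ver (Y.own x.1 true x.2) = y}.ncard) (y : {v : W // v ∉ Z'}) :
    (∃ k, (Y.rst Z' hne).gr k ∧ (Y.rst Z' hne).ver k = y) ∨
      {k | (Y.rst Z' hne).ver k = y}.ncard ≤ {x : σ × ℕ | x.2 < (Y.rst Z' hne).n x.1 ∧
        (Y.rst Z' hne).ver ((Y.rst Z' hne).own x.1 false x.2) = y ∧
        (Y.rst Z' hne).ver ((Y.rst Z' hne).own x.1 true x.2) = y}.ncard := by
  have hyZ : y.1 ∉ Z := fun h5 => y.2 (hf.sub h5)
  rcases hc ⟨y.1, hyZ⟩ with ⟨k, h1, h2⟩ | h1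
  · have h3 : (Y.ver k).1 = y.1 := by rw [h2]
    exact Or.inl ⟨⟨k, hgm k h1, by rw [h3]; exact y.2⟩, h1, Subtype.ext h3⟩
  · right
    rw [← CSys.rst_class hne hyZ, Set.ncard_image_of_injective _ Subtype.val_injective] at h1
    refine h1.trans (le_of_eq ?_)
    congr 1
    ext x
    constructor
    · rintro ⟨h3, h4, h5⟩
      exact ⟨h3, (CSys.rst_ver_eq h hf hne h3 (y := ⟨y.1, hyZ⟩) rfl).2 h4,
        (CSys.rst_ver_eq h hf hne h3 (y := ⟨y.1, hyZ⟩) rfl).2 h5⟩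
    · rintro ⟨h3, h4, h5⟩
      exact ⟨h3, (CSys.rst_ver_eq h hf hne h3 (y := ⟨y.1, hyZ⟩) rfl).1 h4,
        (CSys.rst_ver_eq h hf hne h3 (y := ⟨y.1, hyZ⟩) rfl).1 h5⟩

end

/-- The connectors of the restricted system as vertex sets of the host. -/
theorem CSys.Conn.rst {Y : CSys σ {v : W // v ∉ Z} (Set (HV V σ))} {G : SimpleGraph W} {s : ℕ}
    (h : Y.Core (G.comap Subtype.val)) (hf : Y.FarZ G s Z') {H : Host V σ} {D K : ℤ}
    (hC : Y.Conn H D K) (hne : Nonempty (KR Y Z')) :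
    (Y.rst Z' hne).ConnB (fun k => (k : Set (HV V σ))) H D K where
  mono := hC.mono
  lt := hC.lt
  fin k := hC.fin k k.2.1
  out k := hC.out k k.2.1
  bd k := hC.bd k k.2.1
  conn k := hC.conn k k.2.1
  dis k k' hkk := hC.dis k k.2.1 k' k'.2.1 (fun he => hkk (Subtype.ext he))
  left s p hp := by
    show _ ∈ (((Y.rst Z' hne).own s false p : KR Y Z') : Set (HV V σ))
    rw [CSys.rst_own h hf hne hp]
    exact hC.left s p hp
  right s p hp := by
    show _ ∈ (((Y.rst Z' hne).own s true p : KR Y Z') : Set (HV V σ))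
    rw [CSys.rst_own h hf hne hp]
    exact hC.right s p hp
  ct k k' hk := hC.ct k k' hk
  gr k hk := hC.gr k hk

end Mdl
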