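import Pool.Agent.EN.JTaut
import Pool.Agent.EN.EmbU
import Pool.Agent.EN.Float

/-!
# From `TautJ` to `Core` and joint ground (T-star, C7; helper45)
-/

set_option autoImplicit false

open Relation Gad BIC

namespace Mdl

variable {V σ X κ : Type*}

/-- The axioms which do not speak about grounds of vertices. -/
theorem CSys.TautJ.core {Y : CSys σ X κ} {G : SimpleGraph X} (h : Y.TautJ G) : Y.Core G where
  fin := h.fin
  mem := h.mem
  ctm := h.ctm
  cts := h.cts
  ct1 := h.ct1
  ctE := h.ctE
  con := h.con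
  edg := h.edg
  a1 := h.a1
  a2 := h.a2
  a5 := h.a5
  fgr k hk hp := by
    rcases h.gndc (Y.ver k) with ⟨k', h1, h2⟩ | h1
    · rwa [CSys.float_one h.con hk hp (h.grm k' h1) h2] at h1
    · exfalso
      have hfin : {k' | k' ∈ Y.all ∧ Y.ver k' = Y.ver k}.Finite := h.fin.subset fun _ hx => hx.1
      have h2 : 1 ≤ {k' | k' ∈ Y.all ∧ Y.ver k' = Y.ver k}.ncard := by
        rw [Nat.one_le_iff_ne_zero, ← Nat.pos_iff_ne_zero, Set.ncard_pos hfin]
        exact ⟨k, hk, rfl⟩
      have h3 : {x : σ × ℕ | x.2 < Y.n x.1 ∧ Y.ver (Y.own x.1 false x.2) = Y.ver k ∧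
          Y.ver (Y.own x.1 true x.2) = Y.ver k}.Nonempty := by
        by_contra h4
        rw [Set.not_nonempty_iff_eq_empty] at h4
        rw [h4, Set.ncard_empty] at h1
        omega
      obtain ⟨⟨s, p⟩, h4, h5, _⟩ := h3
      have h6 := CSys.float_one h.con hk hp (h.mem s false p h4) h5
      exact hp ⟨s, false, p, h4, h6⟩

/-- every vertex has a connector -/
lemma CSys.TautJ.hne' {Y : CSys σ X κ} {G : SimpleGraph X} (h : Y.TautJ G) :
    ∀ y, ∃ k ∈ Y.all, Y.ver k = y := h.hne

open EN in
/-- **Joint ground.**  The family of all classes is jointly unbalanced, and the grounded connectors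
are whole classes of different vertices. -/
theorem CSys.TautJ.joint {α W : Type*} {M : Matroid α} [M.Finite] {S : Set α}
    {ends : α → Sym2 W} (hF : Frm M S ends) {Y : CSys σ X (Set (HV V σ))} {G : SimpleGraph X}
    (h : Y.TautJ G) [Fintype X] {φ : HV V σ → W} {f : HV V σ → Option X}
    (hfin : {w | f w ≠ none}.Finite) (hcl : ∀ B, Y.gr B → {w | f w = some (Y.ver B)} = B)
    (hJ : JU M S ends (Finset.univ : Finset X) (fun y => φ '' {w | f w = some y})) :
    ∀ I : Finset (Set (HV V σ)), (∀ k ∈ I, Y.gr k) → JU M S ends I (fun k => φ '' k) := by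
  classical
  intro I hI
  have hinj : Set.InjOn Y.ver (I : Set (Set (HV V σ))) :=
    fun k hk l hl he => h.gr1 k l (hI k hk) (hI l hl) he
  have hff : ∀ y : X, ({w | f w = some y} : Set (HV V σ)).Finite := fun y =>
    hfin.subset fun w (hw : f w = some y) => by
      show f w ≠ none
      rw [hw]
      simp
  have h1 := hJ.restr hF (fun y _ => (hff y).image _) (Finset.subset_univ (I.image Y.ver))
  rw [JU.image hinj] at h1
  refine h1.congr fun k hk => ?_
  rw [hcl k (hI k hk)]

open EN in
/-- The same for connectors in a subtype. -/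
theorem juSub {α W : Type*} {M : Matroid α} {S : Set α} {ends : α → Sym2 W}
    {p : Set (HV V σ) → Prop} {gr : Set (HV V σ) → Prop} {φ : HV V σ → W}
    (hJ : ∀ I : Finset (Set (HV V σ)), (∀ k ∈ I, gr k) → JU M S ends I (fun k => φ '' k)) :
    ∀ I : Finset {k : Set (HV V σ) // p k}, (∀ k ∈ I, gr k.1) →
      JU M S ends I (fun k => φ '' k.1) := by
  classical
  intro I hI
  have h1 := hJ (I.image Subtype.val) (by
    intro k hk
    obtain ⟨k', hk', rfl⟩ := Finset.mem_image.1 hk
    exact hI k' hk')
  rw [JU.image (Subtype.val_injective.injOn)] at h1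
  exact h1

end Mdl
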