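import Pool.Agent.EN.Region

/-!
# Intervals which are not clean along a ladder give a pattern
-/

namespace EN

open RamP

set_option maxHeartbeats 1000000

/-- The blocks `f 0, f 1, …` of a sequence. -/
def sub (f : ℕ → ℕ) (x : ℕ → ℕ) (i : ℕ) : ℕ := x (11 * f (i / 11) + i % 11)

lemma sub_eq {f x : ℕ → ℕ} {j k : ℕ} (hk : k ≤ 10) : sub f x (11 * j + k) = x (11 * f j + k) := by
  unfold sub
  rw [show (11 * j + k) / 11 = j by omega, show (11 * j + k) % 11 = k by omega]

lemma sub_eq0 {f x : ℕ → ℕ} {j : ℕ} : sub f x (11 * j) = x (11 * f j) := by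
  have := sub_eq (f := f) (x := x) (j := j) (k := 0) (by omega)
  simpa using this

/-- Enumeration of a large set. -/
lemma enum (S : Finset ℕ) (n : ℕ) (h : n ≤ S.card) :
    ∃ f : ℕ → ℕ, (∀ i < n, f i ∈ S) ∧ ∀ i j, i < j → j < n → f i < f j := by
  obtain ⟨C, hC, hCn⟩ := Finset.exists_subset_card_eq h
  set e := C.orderEmbOfFin hCn with he
  refine ⟨fun i => if h : i < n then e ⟨i, h⟩ else 0, ?_, ?_⟩
  · intro i hi
    simp only [dif_pos hi]
    exact hC (Finset.orderEmbOfFin_mem C hCn ⟨i, hi⟩)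
  · intro i j hij hj
    simp only [dif_pos hj, dif_pos (show i < n by omega)]
    exact e.strictMono (by simpa using hij)

/-- Pigeonhole. -/
lemma pigeon (r n : ℕ) (P : Fin (r + 1) → ℕ → Prop) (h : ∀ j < (r + 1) * n, ∃ i, P i j) :
    ∃ i, ∃ f : ℕ → ℕ, (∀ k < n, f k < (r + 1) * n ∧ P i (f k)) ∧
      ∀ i j, i < j → j < n → f i < f j := by
  classical
  have h' : ∀ j, ∃ i, j < (r + 1) * n → P i j := by
    intro j
    by_cases hj : j < (r + 1) * n
    · obtain ⟨i, hi⟩ := h j hj
      exact ⟨i, fun _ => hi⟩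
    · exact ⟨0, fun g => absurd g hj⟩
  choose c hc using h'
  obtain ⟨i, -, hi⟩ := Finset.exists_le_card_fiber_of_mul_le_card_of_maps_to
    (s := Finset.range ((r + 1) * n)) (t := (Finset.univ : Finset (Fin (r + 1)))) (f := c) (n := n)
    (fun _ _ => Finset.mem_univ _) ⟨0, Finset.mem_univ _⟩
    (by rw [Finset.card_univ, Fintype.card_fin, Finset.card_range])
  obtain ⟨f, hf, hf'⟩ := enum _ n hi
  refine ⟨i, f, ?_, hf'⟩
  intro k hk
  obtain ⟨h1, h2⟩ := Finset.mem_filter.1 (hf k hk)
  have h3 := Finset.mem_range.1 h1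
  refine ⟨h3, ?_⟩
  rw [← h2]
  exact hc _ h3

namespace Sys

variable {κ : Type*} {Y : Sys κ}

namespace Lad

variable {n n₂ n₃ : ℕ} {x y f : ℕ → ℕ}

/-- Ladders of some of the blocks. -/
lemma sub (h : Lad Y (11 * n₂) x y) (hf : ∀ i < n₃, f i < n₂)
    (hf' : ∀ i j, i < j → j < n₃ → f i < f j) : Lad Y (11 * n₃) (EN.sub f x) (EN.sub f y) := by
  have hi : ∀ i < 11 * n₃, 11 * f (i / 11) + i % 11 < 11 * n₂ := by
    intro i hi
    have := hf (i / 11) (by omega)
    omega
  have hlt : ∀ i j, i < j → j < 11 * n₃ → 11 * f (i / 11) + i % 11 < 11 * f (j / 11) + j % 11 := by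
    intro i j hij hj
    rcases Nat.lt_or_ge (i / 11) (j / 11) with g | g
    · have := hf' _ _ g (by omega)
      omega
    · have : i / 11 = j / 11 := by omega
      rw [this]
      omega
  have h0 : ∀ i < 11 * n₃, 11 * f (0 / 11) + 0 % 11 < 11 * n₂ := fun i hi' => hi 0 (by omega)
  refine ⟨fun i hi' => h.lk _ (hi i hi'), fun i j hij hj => h.inc _ _ (hlt i j hij hj) (hi j hj),
    ?_, ?_, ?_, ?_, ?_⟩
  · rcases h.mon with hm | hm
    · exact Or.inl fun i j hij hj => hm _ _ (hlt i j hij hj) (hi j hj)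
    · exact Or.inr fun i j hij hj => hm _ _ (hlt i j hij hj) (hi j hj)
  · rcases h.far with hm | hm
    · exact Or.inl fun i hi' j hj => hm _ (hi i hi') _ (hi j hj)
    · exact Or.inr fun i hi' j hj => hm _ (hi i hi') _ (hi j hj)
  · intro i hi'
    exact (h.shx _ (hi i hi')).trans (h.shx _ (h0 i hi')).symm
  · intro i hi'
    exact (h.shy _ (hi i hi')).trans (h.shy _ (h0 i hi')).symm
  · intro i hi' j hj hij
    have : 11 * f (i / 11) + i % 11 ≠ 11 * f (j / 11) + j % 11 := by
      rcases Nat.lt_or_ge i j with g | g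
      · exact (hlt i j g hj).ne
      · exact (hlt j i (by omega) hi').ne'
    exact h.dis _ (hi i hi') _ (hi j hj) this

lemma swap_dj {a b c d : ℕ} (h : Y.Dj [a, b] [c, d]) : Y.Dj [b, a] [d, c] := by
  intro u hu v hv
  simp only [List.mem_cons, List.not_mem_nil, or_false] at hu hv
  refine h u ?_ v ?_
  · simp only [List.mem_cons, List.not_mem_nil, or_false]
    exact hu.symm
  · simp only [List.mem_cons, List.not_mem_nil, or_false]
    exact hv.symm

/-- Exchange of the sides, increasing. -/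
lemma swap_inc {D : ℕ} (hY : Y.Ax D) (h : Lad Y n x y) (hy : ∀ i j, i < j → j < n → y i < y j) :
    Lad Y n y x := by
  refine ⟨fun i hi => (h.lk i hi).symm hY, hy, Or.inl h.inc, ?_, h.shy, h.shx, ?_⟩
  · rcases h.far with hm | hm
    · exact Or.inr fun i hi j hj => hm j hj i hi
    · exact Or.inl fun i hi j hj => hm j hj i hi
  · intro i hi j hj hij
    exact swap_dj (h.dis i hi j hj hij)

/-- Exchange of the sides, decreasing. -/
lemma swap_dec {D : ℕ} (hY : Y.Ax D) (h : Lad Y n x y) (hy : ∀ i j, i < j → j < n → y j < y i) :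
    Lad Y n (fun i => y (n - 1 - i)) (fun i => x (n - 1 - i)) := by
  refine ⟨fun i hi => (h.lk _ (by omega)).symm hY, fun i j hij hj => hy _ _ (by omega) (by omega),
    Or.inr fun i j hij hj => h.inc _ _ (by omega) (by omega), ?_, ?_, ?_, ?_⟩
  · rcases h.far with hm | hm
    · exact Or.inr fun i hi j hj => hm _ (by omega) _ (by omega)
    · exact Or.inl fun i hi j hj => hm _ (by omega) _ (by omega)
  · intro i hi
    exact (h.shy _ (by omega)).trans (h.shy _ (by omega)).symm
  · intro i hi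
    exact (h.shx _ (by omega)).trans (h.shx _ (by omega)).symm
  · intro i hi j hj hij
    exact swap_dj (h.dis _ (by omega) _ (by omega) (by omega))

end Lad

/-- The bounds for the four pattern lemmas. -/
theorem four (D N c : ℕ) : ∃ n' : ℕ, ∀ {κ : Type*} (Y : Sys κ), Y.Ax D → ∀ (m t n₂ : ℕ)
    (x y f : ℕ → ℕ), Lad Y (11 * n₂) x y → (∀ i < n', f i < n₂) →
    (∀ i j, i < j → j < n' → f i < f j) →
    (∃ A : Finset ℕ, A.card ≤ c ∧ ∀ u v, Y.Lk u v → x 0 ≤ u → u ≤ x (11 * n₂ - 1) → Y.sh v ∈ A) →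
    ((∀ k < n', DG Y (x (11 * f k)) (x (11 * f k + 10))) ∨
      (∀ k < n', DK Y (x (11 * f k)) (x (11 * f k + 10))) ∨
      (∀ k < n', DT Y (x (11 * f k)) (x (11 * f k + 3)) (x (11 * f k + 7)) (x (11 * f k + 10))
        (min (y (11 * f k)) (y (11 * f k + 10))) (max (y (11 * f k)) (y (11 * f k + 10)))) ∨
      ∀ k < n', DX Y (x (11 * f k)) (x (11 * f k + 10))
        (min (y (11 * f k)) (y (11 * f k + 10))) (max (y (11 * f k)) (y (11 * f k + 10)))
        (y (11 * f k) < y (11 * f k + 10))) → Y.Pat N m t := by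
  obtain ⟨nG, hG⟩ := patG D N
  obtain ⟨nK, hK⟩ := patK D N c
  obtain ⟨nT, hT⟩ := patT D N c
  obtain ⟨nX, hX⟩ := patX D N
  refine ⟨nG + nK + nT + nX + 1, ?_⟩
  intro κ Y hY m t n₂ x y f hl hf hf' hA hd
  have hA' : ∀ n₃, n₃ ≤ nG + nK + nT + nX → ∃ A : Finset ℕ, A.card ≤ c ∧
      ∀ u v, Y.Lk u v → EN.sub f x 0 ≤ u → u ≤ EN.sub f x (11 * n₃ - 1) → Y.sh v ∈ A := by
    intro n₃ hn
    obtain ⟨A, hA1, hA2⟩ := hA
    have h00 := hf 0 (by omega)
    have h40 : EN.sub f x 0 = x (11 * f 0) := by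
      have := sub_eq0 (f := f) (x := x) (j := 0)
      simpa using this
    refine ⟨A, hA1, fun u v huv h1 h2 => hA2 u v huv ?_ ?_⟩
    · have h3 := hl.le (i := 0) (j := 11 * f 0) (by omega) (by omega)
      omega
    · rcases Nat.eq_zero_or_pos n₃ with h0 | h0
      · subst h0
        have h3 := hl.le (i := 11 * f 0) (j := 11 * n₂ - 1) (by omega) (by omega)
        rw [show 11 * 0 - 1 = 0 by omega] at h2
        omega
      · have h5 := hf (n₃ - 1) (by omega)
        have h3 := hl.le (i := 11 * f (n₃ - 1) + 10) (j := 11 * n₂ - 1) (by omega) (by omega)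
        have h4 : EN.sub f x (11 * n₃ - 1) = x (11 * f (n₃ - 1) + 10) := by
          have := sub_eq (f := f) (x := x) (j := n₃ - 1) (k := 10) (by omega)
          rw [show 11 * (n₃ - 1) + 10 = 11 * n₃ - 1 by omega] at this
          exact this
        omega
  have hS : ∀ n₃, n₃ ≤ nG + nK + nT + nX → Lad Y (11 * n₃) (EN.sub f x) (EN.sub f y) :=
    fun n₃ hn => hl.sub (fun i hi => hf i (by omega)) (fun i j hij hj => hf' i j hij (by omega))
  have e : ∀ z j, EN.sub f z (11 * j) = z (11 * f j) := fun z j => sub_eq0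
  have e3 : ∀ z j, EN.sub f z (11 * j + 3) = z (11 * f j + 3) := fun z j => sub_eq (by omega)
  have e7 : ∀ z j, EN.sub f z (11 * j + 7) = z (11 * f j + 7) := fun z j => sub_eq (by omega)
  have e10 : ∀ z j, EN.sub f z (11 * j + 10) = z (11 * f j + 10) := fun z j => sub_eq (by omega)
  rcases hd with hd | hd | hd | hd
  · left
    refine hG Y hY _ _ (hS nG (by omega)) ?_
    intro j hj
    rw [e, e10]
    exact hd j (by omega)
  · rcases hK Y hY _ _ (hS nK (by omega)) (hA' nK (by omega)) (by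
      intro j hj
      obtain ⟨i, j', k, l, h1, h2, h3, h4, h5, h6, h7, h8⟩ := hd j (by omega)
      refine ⟨i, j', k, l, ?_, ?_, h3, h4, h5, h6, h7, h8⟩
      · unfold InB
        rw [e, e10]
        exact h1
      · unfold InB
        rw [e, e10]
        exact h2) with g | g
    · exact Or.inr (Or.inr (Or.inr (Or.inr (Or.inl g))))
    · exact Or.inr (Or.inr (Or.inl g))
  · rcases hT Y hY _ _ (hS nT (by omega)) (hA' nT (by omega)) (by
      intro j hj
      obtain ⟨u, v, h1, h2, h3, h4, h5⟩ := hd j (by omega)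
      refine ⟨u, v, h1, ?_, ?_, ?_, ?_⟩
      · rw [e3]; exact h2
      · rw [e7]; exact h3
      · rw [e, e10]; exact h4
      · rw [e, e10]
        rcases h5 with g | g
        · exact Or.inl ⟨by omega, by omega⟩
        · exact Or.inr ⟨by omega, by omega⟩) with g | g | g
    · exact Or.inr (Or.inr (Or.inl g))
    · exact Or.inr (Or.inr (Or.inr (Or.inl g)))
    · exact Or.inr (Or.inl g)
  · refine Or.inr (Or.inr (Or.inr (Or.inl (hX Y hY _ _ (hS nX (by omega)) ?_))))
    intro j hj
    obtain ⟨u, v, u', v', h1, h2, h3, h4, h5, h6, h7, h8, h9⟩ := hd j (by omega)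
    have hne := (hS (nG + nK + nT + nX) le_rfl).yne (i := 11 * j) (j := 11 * j + 10) (by omega)
      (by omega) (by omega)
    rw [e, e10] at hne
    refine ⟨u, v, u', v', ?_, ?_, h3, ?_, ?_, h6, h7, h8, ?_⟩
    · unfold InB
      rw [e, e10]
      exact h1
    · unfold InB
      rw [e, e10]
      exact h2
    · unfold InY
      rw [e, e10]
      omega
    · unfold InY
      rw [e, e10]
      omega
    · rw [e, e10]
      rcases h9 with g | g
      · exact Or.inl g
      · exact Or.inr ⟨by omega, g.2⟩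

/-- Chains of intervals. -/
lemma chain_lt {n : ℕ} {s e : ℕ → ℕ} (h : ∀ i < n, s i ≤ e i) (h' : ∀ i, i + 1 < n → e i < s (i + 1)) :
    ∀ i j, i < j → j < n → e i < s j := by
  intro i j hij
  induction j with
  | zero => omega
  | succ j ih =>
    intro hj
    rcases Nat.lt_or_ge i j with g | g
    · have h1 := ih g (by omega)
      have h2 := h j (by omega)
      have h3 := h' j hj
      omega
    · have : i = j := by omega
      subst this
      exact h' i hj

/-- **Intervals which are not clean along a ladder give a pattern.** -/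
theorem farLad (D N c : ℕ) : ∃ n₂ : ℕ, ∀ {κ : Type*} (Y : Sys κ), Y.Ax D → ∀ (m t : ℕ)
    (x y s e : ℕ → ℕ), Lad Y (11 * n₂) x y →
    (∀ i < 11 * n₂, s i ≤ x i ∧ x i ≤ e i ∧ ¬ Y.Clean (s i) (e i)) →
    (∀ i j, i < j → j < 11 * n₂ → e i < s j) →
    (∃ A : Finset ℕ, A.card ≤ c ∧ ∀ u v, Y.Lk u v →
      ((x 0 ≤ u ∧ u ≤ x (11 * n₂ - 1)) ∨ ∃ i < 11 * n₂, ∃ j < 11 * n₂, y i ≤ u ∧ u ≤ y j) →
      Y.sh v ∈ A) →
    Y.Pat N m t := by
  obtain ⟨n', hn'⟩ := four D N c
  refine ⟨7 * (n' + 1), ?_⟩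
  intro κ Y hY m t x y s e hl hse hch ⟨A, hA1, hA2⟩
  set n₂ := 7 * (n' + 1) with hn₂
  have hlk := hl.lk
  have hxm := hl.inc
  have hAx : ∃ A : Finset ℕ, A.card ≤ c ∧ ∀ u v, Y.Lk u v → x 0 ≤ u → u ≤ x (11 * n₂ - 1) →
      Y.sh v ∈ A := ⟨A, hA1, fun u v h h1 h2 => hA2 u v h (Or.inl ⟨h1, h2⟩)⟩
  rcases hl.mon with hm | hm
  · -- increasing
    have hl' := hl.swap_inc hY hm
    have hAy : ∃ A : Finset ℕ, A.card ≤ c ∧ ∀ u v, Y.Lk u v → y 0 ≤ u → u ≤ y (11 * n₂ - 1) →
        Y.sh v ∈ A :=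
      ⟨A, hA1, fun u v h h1 h2 => hA2 u v h (Or.inr ⟨0, by omega, 11 * n₂ - 1, by omega,
          h1, h2⟩)⟩
    obtain ⟨i, f, hf1, hf2⟩ := pigeon 6 (n' + 1) ![
      fun j => DG Y (x (11 * j)) (x (11 * j + 10)),
      fun j => DG Y (y (11 * j)) (y (11 * j + 10)),
      fun j => DK Y (x (11 * j)) (x (11 * j + 10)),
      fun j => DK Y (y (11 * j)) (y (11 * j + 10)),
      fun j => DT Y (x (11 * j)) (x (11 * j + 3)) (x (11 * j + 7)) (x (11 * j + 10))
        (y (11 * j)) (y (11 * j + 10)),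
      fun j => DT Y (y (11 * j)) (y (11 * j + 3)) (y (11 * j + 7)) (y (11 * j + 10))
        (x (11 * j)) (x (11 * j + 10)),
      fun j => DX Y (x (11 * j)) (x (11 * j + 10)) (y (11 * j)) (y (11 * j + 10)) True] (by
      intro j hj
      have hj' : j < n₂ := by omega
      have hfar : x (11 * j + 10) < y (11 * j) ∨ y (11 * j + 10) < x (11 * j) := by
        rcases hl.far with g | g
        · exact Or.inl (g _ (by omega) _ (by omega))
        · exact Or.inr (g _ (by omega) _ (by omega))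
      have h4 := hch (11 * j + 4) (11 * j + 5) (by omega) (by omega)
      have h5 := hch (11 * j + 5) (11 * j + 6) (by omega) (by omega)
      have h6 := hse (11 * j + 4) (by omega)
      have h7 := hse (11 * j + 6) (by omega)
      have h8 := hxm (11 * j + 3) (11 * j + 4) (by omega) (by omega)
      have h9 := hxm (11 * j + 6) (11 * j + 7) (by omega) (by omega)
      have h10 := hse (11 * j + 5) (by omega)
      have hr := region_inc hY (hl.le (i := 11 * j) (j := 11 * j + 3) (by omega) (by omega))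
        (hl.le (i := 11 * j + 7) (j := 11 * j + 10) (by omega) (by omega))
        (hl.xL (by omega)) (by rw [hl.shx (11 * j) (by omega), hl.shx (11 * j + 10) (by omega)])
        (hl'.le (i := 11 * j) (j := 11 * j + 3) (by omega) (by omega))
        (hl'.le (i := 11 * j + 3) (j := 11 * j + 7) (by omega) (by omega))
        (hl'.le (i := 11 * j + 7) (j := 11 * j + 10) (by omega) (by omega))
        (hl.yL (by omega)) (by rw [hl.shy (11 * j) (by omega), hl.shy (11 * j + 10) (by omega)])
        hfar (hlk _ (by omega)) (hlk _ (by omega)) h10.2.2 (by omega) (by omega)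
      rcases hr with g | g | g | g | g | g | g
      · exact ⟨0, g⟩
      · exact ⟨1, g⟩
      · exact ⟨2, g⟩
      · exact ⟨3, g⟩
      · exact ⟨4, g⟩
      · exact ⟨5, g⟩
      · exact ⟨6, g⟩)
    have hfb : ∀ k < n', f k < n₂ := fun k hk => by have := (hf1 k (by omega)).1; omega
    have hf2' : ∀ i j, i < j → j < n' → f i < f j := fun i j hij hj => hf2 i j hij (by omega)
    have hf3 := fun k (hk : k < n') => (hf1 k (by omega)).2
    have hmn : ∀ k < n', y (11 * f k) < y (11 * f k + 10) := fun k hk =>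
      hm _ _ (by omega) (by have := hfb k hk; omega)
    have hmx : ∀ k < n', x (11 * f k) < x (11 * f k + 10) := fun k hk =>
      hxm _ _ (by omega) (by have := hfb k hk; omega)
    have main := hn' Y hY m t n₂ x y f hl hfb hf2' hAx
    have main' := hn' Y hY m t n₂ y x f hl' hfb hf2' hAy
    fin_cases i
    · exact main (Or.inl fun k hk => hf3 k hk)
    · exact main' (Or.inl fun k hk => hf3 k hk)
    · exact main (Or.inr (Or.inl fun k hk => hf3 k hk))
    · exact main' (Or.inr (Or.inl fun k hk => hf3 k hk))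
    · refine main (Or.inr (Or.inr (Or.inl fun k hk => ?_)))
      rw [min_eq_left (hmn k hk).le, max_eq_right (hmn k hk).le]
      exact hf3 k hk
    · refine main' (Or.inr (Or.inr (Or.inl fun k hk => ?_)))
      rw [min_eq_left (hmx k hk).le, max_eq_right (hmx k hk).le]
      exact hf3 k hk
    · refine main (Or.inr (Or.inr (Or.inr fun k hk => ?_)))
      rw [min_eq_left (hmn k hk).le, max_eq_right (hmn k hk).le]
      have h1 : DX Y (x (11 * f k)) (x (11 * f k + 10)) (y (11 * f k)) (y (11 * f k + 10)) True :=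
        hf3 k hk
      rw [eq_true (hmn k hk)]
      exact h1
  · -- decreasing
    have hl' := hl.swap_dec hY hm
    have hyle : ∀ i j, i ≤ j → j < 11 * n₂ → y j ≤ y i := by
      intro i j hij hj
      rcases Nat.lt_or_ge i j with g | g
      · exact (hm i j g hj).le
      · rw [show i = j by omega]
    set x' : ℕ → ℕ := fun i => y (11 * n₂ - 1 - i) with hx'
    set y' : ℕ → ℕ := fun i => x (11 * n₂ - 1 - i) with hy'
    have hAy : ∃ A : Finset ℕ, A.card ≤ c ∧ ∀ u v, Y.Lk u v → x' 0 ≤ u → u ≤ x' (11 * n₂ - 1) →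
        Y.sh v ∈ A :=
      ⟨A, hA1, fun u v h h1 h2 => hA2 u v h (Or.inr ⟨11 * n₂ - 1 - 0, by omega,
        11 * n₂ - 1 - (11 * n₂ - 1), by omega, h1, h2⟩)⟩
    obtain ⟨i, f, hf1, hf2⟩ := pigeon 6 (n' + 1) ![
      fun j => DG Y (x (11 * j)) (x (11 * j + 10)),
      fun j => DG Y (y (11 * j + 10)) (y (11 * j)),
      fun j => DK Y (x (11 * j)) (x (11 * j + 10)),
      fun j => DK Y (y (11 * j + 10)) (y (11 * j)),
      fun j => DT Y (x (11 * j)) (x (11 * j + 3)) (x (11 * j + 7)) (x (11 * j + 10))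
        (y (11 * j + 10)) (y (11 * j)),
      fun j => DT Y (y (11 * j + 10)) (y (11 * j + 7)) (y (11 * j + 3)) (y (11 * j))
        (x (11 * j)) (x (11 * j + 10)),
      fun j => DX Y (x (11 * j)) (x (11 * j + 10)) (y (11 * j + 10)) (y (11 * j)) False] (by
      intro j hj
      have hj' : j < n₂ := by omega
      have hfar : x (11 * j + 10) < y (11 * j + 10) ∨ y (11 * j) < x (11 * j) := by
        rcases hl.far with g | g
        · exact Or.inl (g _ (by omega) _ (by omega))
        · exact Or.inr (g _ (by omega) _ (by omega))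
      have h4 := hch (11 * j + 4) (11 * j + 5) (by omega) (by omega)
      have h5 := hch (11 * j + 5) (11 * j + 6) (by omega) (by omega)
      have h6 := hse (11 * j + 4) (by omega)
      have h7 := hse (11 * j + 6) (by omega)
      have h8 := hxm (11 * j + 3) (11 * j + 4) (by omega) (by omega)
      have h9 := hxm (11 * j + 6) (11 * j + 7) (by omega) (by omega)
      have h10 := hse (11 * j + 5) (by omega)
      have hr := region_dec hY (hl.le (i := 11 * j) (j := 11 * j + 3) (by omega) (by omega))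
        (hl.le (i := 11 * j + 7) (j := 11 * j + 10) (by omega) (by omega))
        (hl.xL (by omega)) (by rw [hl.shx (11 * j) (by omega), hl.shx (11 * j + 10) (by omega)])
        (hyle (11 * j + 7) (11 * j + 10) (by omega) (by omega))
        (hyle (11 * j + 3) (11 * j + 7) (by omega) (by omega))
        (hyle (11 * j) (11 * j + 3) (by omega) (by omega))
        (hl.yL (by omega)) (by rw [hl.shy (11 * j) (by omega), hl.shy (11 * j + 10) (by omega)])
        hfar (hlk _ (by omega)) (hlk _ (by omega)) h10.2.2 (by omega) (by omega)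
      rcases hr with g | g | g | g | g | g | g
      · exact ⟨0, g⟩
      · exact ⟨1, g⟩
      · exact ⟨2, g⟩
      · exact ⟨3, g⟩
      · exact ⟨4, g⟩
      · exact ⟨5, g⟩
      · exact ⟨6, g⟩)
    have hfb : ∀ k < n', f k < n₂ := fun k hk => by have := (hf1 k (by omega)).1; omega
    have hf2' : ∀ i j, i < j → j < n' → f i < f j := fun i j hij hj => hf2 i j hij (by omega)
    have hf3 := fun k (hk : k < n') => (hf1 k (by omega)).2
    have hmn : ∀ k < n', y (11 * f k + 10) < y (11 * f k) := fun k hk =>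
      hm _ _ (by omega) (by have := hfb k hk; omega)
    have hmx : ∀ k < n', x (11 * f k) < x (11 * f k + 10) := fun k hk =>
      hxm _ _ (by omega) (by have := hfb k hk; omega)
    -- the reversed enumeration
    set g : ℕ → ℕ := fun k => n₂ - 1 - f (n' - 1 - k) with hg
    have hgb : ∀ k < n', g k < n₂ := fun k hk => by simp only [hg]; omega
    have hg2 : ∀ i j, i < j → j < n' → g i < g j := by
      intro i j hij hj
      have h1 := hf2' (n' - 1 - j) (n' - 1 - i) (by omega) (by omega)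
      have h2 := hfb (n' - 1 - i) (by omega)
      simp only [hg]
      omega
    have ex : ∀ k < n', ∀ r ≤ 10, x' (11 * g k + r) = y (11 * f (n' - 1 - k) + (10 - r)) := by
      intro k hk r hr
      have h2 := hfb (n' - 1 - k) (by omega)
      simp only [hx', hg]
      congr 1
      omega
    have ey : ∀ k < n', ∀ r ≤ 10, y' (11 * g k + r) = x (11 * f (n' - 1 - k) + (10 - r)) := by
      intro k hk r hr
      have h2 := hfb (n' - 1 - k) (by omega)
      simp only [hy', hg]
      congr 1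
      omega
    have ex0 : ∀ k < n', x' (11 * g k) = y (11 * f (n' - 1 - k) + 10) := fun k hk =>
      ex k hk 0 (by omega)
    have ex3 : ∀ k < n', x' (11 * g k + 3) = y (11 * f (n' - 1 - k) + 7) := fun k hk =>
      ex k hk 3 (by omega)
    have ex7 : ∀ k < n', x' (11 * g k + 7) = y (11 * f (n' - 1 - k) + 3) := fun k hk =>
      ex k hk 7 (by omega)
    have ex10 : ∀ k < n', x' (11 * g k + 10) = y (11 * f (n' - 1 - k)) := fun k hk =>
      ex k hk 10 (by omega)
    have ey0 : ∀ k < n', y' (11 * g k) = x (11 * f (n' - 1 - k) + 10) := fun k hk =>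
      ey k hk 0 (by omega)
    have ey10 : ∀ k < n', y' (11 * g k + 10) = x (11 * f (n' - 1 - k)) := fun k hk =>
      ey k hk 10 (by omega)
    have main := hn' Y hY m t n₂ x y f hl hfb hf2' hAx
    have main' := hn' Y hY m t n₂ x' y' g hl' hgb hg2 hAy
    fin_cases i
    · exact main (Or.inl fun k hk => hf3 k hk)
    · refine main' (Or.inl fun k hk => ?_)
      rw [ex0 k hk, ex10 k hk]
      exact hf3 (n' - 1 - k) (by omega)
    · exact main (Or.inr (Or.inl fun k hk => hf3 k hk))
    · refine main' (Or.inr (Or.inl fun k hk => ?_))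
      rw [ex0 k hk, ex10 k hk]
      exact hf3 (n' - 1 - k) (by omega)
    · refine main (Or.inr (Or.inr (Or.inl fun k hk => ?_)))
      rw [min_eq_right (hmn k hk).le, max_eq_left (hmn k hk).le]
      exact hf3 k hk
    · refine main' (Or.inr (Or.inr (Or.inl fun k hk => ?_)))
      rw [ex0 k hk, ex3 k hk, ex7 k hk, ex10 k hk, ey0 k hk, ey10 k hk,
        min_eq_right (hmx _ (by omega)).le, max_eq_left (hmx _ (by omega)).le]
      exact hf3 (n' - 1 - k) (by omega)
    · refine main (Or.inr (Or.inr (Or.inr fun k hk => ?_)))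
      rw [min_eq_right (hmn k hk).le, max_eq_left (hmn k hk).le]
      have h1 : DX Y (x (11 * f k)) (x (11 * f k + 10)) (y (11 * f k + 10)) (y (11 * f k)) False :=
        hf3 k hk
      rw [eq_false (not_lt.2 (hmn k hk).le)]
      exact h1

/-- **T3.** -/
theorem far (D N c : ℕ) : ∃ n : ℕ, ∀ {κ : Type*} (Y : Sys κ), Y.Ax D → ∀ (m t : ℕ)
    (s e x y : ℕ → ℕ),
    (∀ i < n, s i ≤ x i ∧ x i ≤ e i ∧ e i < Y.L ∧ ¬ Y.Clean (s i) (e i) ∧ Y.Lk (x i) (y i)) →
    (∀ i, i + 1 < n → e i < s (i + 1)) → (∀ i < n, Y.sh (s i) = Y.sh (s 0) ∧ Y.sh (e i) = Y.sh (s 0)) →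
    (∀ i < n, Y.sh (y i) = Y.sh (y 0)) → Y.Dis n (fun i => [x i, y i]) →
    ((∀ i < n, y i < s 0) ∨ ∀ i < n, e (n - 1) < y i) →
    (∃ A : Finset ℕ, A.card ≤ c ∧ ∀ u v, Y.Lk u v →
      ((s 0 ≤ u ∧ u ≤ e (n - 1)) ∨ ∃ i < n, ∃ j < n, y i ≤ u ∧ u ≤ y j) → Y.sh v ∈ A) →
    Y.Pat N m t := by
  obtain ⟨n₂, hn₂⟩ := farLad D N c
  obtain ⟨n, hn⟩ := RamP.homog (Fin 2) (11 * n₂ + 1) Unit
  refine ⟨n, ?_⟩
  intro κ Y hY m t s e x y h1 h2 h3 h4 h5 h6 ⟨A, hA1, hA2⟩
  have hch := chain_lt (fun i hi => by have := h1 i hi; omega) h2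
  obtain ⟨f, hf1, hf2, -, hf4, -⟩ := hn ![x, y] (fun _ => ()) (by
    intro i j r s' hr hs hrs heq
    have hd := h5 r hr s' hs hrs
    fin_cases i <;> fin_cases j
    · exact hd (x r) (by simp) (x s') (by simp) (congrArg Y.own heq)
    · exact hd (x r) (by simp) (y s') (by simp) (congrArg Y.own heq)
    · exact hd (y r) (by simp) (x s') (by simp) (congrArg Y.own heq)
    · exact hd (y r) (by simp) (y s') (by simp) (congrArg Y.own heq))
  have hf2' : ∀ i j, i < j → j < 11 * n₂ → f i < f j := fun i j hij hj => hf2 i j hij (by omega)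
  have hf1' : ∀ i < 11 * n₂, f i < n := fun i hi => hf1 i (by omega)
  have hsx : ∀ i < n, Y.sh (x i) = Y.sh (s 0) := by
    intro i hi
    have g1 := h1 i hi
    rw [hY.sh_eq (a := s i) (b := e i) (by rw [(h3 i hi).1, (h3 i hi).2]) g1.1 g1.2.1 g1.2.2.1]
    exact (h3 i hi).1
  have hs0 : ∀ i < n, s 0 ≤ s i := by
    intro i hi
    rcases Nat.eq_zero_or_pos i with g | g
    · rw [g]
    · have g1 := hch 0 i g hi
      have g2 := h1 0 (by omega)
      omega
  have hen : ∀ i < n, e i ≤ e (n - 1) := by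
    intro i hi
    rcases Nat.lt_or_ge i (n - 1) with g | g
    · have g1 := hch i (n - 1) g (by omega)
      have g2 := h1 (n - 1) (by omega)
      omega
    · rw [show i = n - 1 by omega]
  refine hn₂ Y hY m t (fun i => x (f i)) (fun i => y (f i)) (fun i => s (f i)) (fun i => e (f i))
    ⟨?_, ?_, ?_, ?_, ?_, ?_, ?_⟩ ?_ ?_ ⟨A, hA1, ?_⟩
  · intro i hi
    exact (h1 _ (hf1' i hi)).2.2.2.2
  · intro i j hij hj
    have g1 := hch _ _ (hf2' i j hij hj) (hf1' j hj)
    have g2 := h1 _ (hf1' j hj)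
    have g3 := h1 _ (hf1' i (by omega))
    omega
  · rcases hf4 1 with g | g
    · exact Or.inl fun i j hij hj => g i j hij (by omega)
    · exact Or.inr fun i j hij hj => g i j hij (by omega)
  · rcases h6 with g | g
    · right
      intro i hi j hj
      have g1 := g _ (hf1' j hj)
      have g2 := hs0 _ (hf1' i hi)
      have g3 := h1 _ (hf1' i hi)
      omega
    · left
      intro i hi j hj
      have g1 := g _ (hf1' j hj)
      have g2 := hen _ (hf1' i hi)
      have g3 := h1 _ (hf1' i hi)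
      omega
  · intro i hi
    exact (hsx _ (hf1' i hi)).trans (hsx _ (hf1 0 (by omega))).symm
  · intro i hi
    exact (h4 _ (hf1' i hi)).trans (h4 _ (hf1 0 (by omega))).symm
  · intro i hi j hj hij
    have : f i ≠ f j := by
      rcases Nat.lt_or_ge i j with g | g
      · exact (hf2' i j g hj).ne
      · exact (hf2' j i (by omega) hi).ne'
    exact h5 _ (hf1' i hi) _ (hf1' j hj) this
  · intro i hi
    have g3 := h1 _ (hf1' i hi)
    exact ⟨g3.1, g3.2.1, g3.2.2.2.1⟩
  · intro i j hij hj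
    exact hch _ _ (hf2' i j hij hj) (hf1' j hj)
  · rintro u v huv (⟨g1, g2⟩ | ⟨i, hi, j, hj, g1, g2⟩)
    · have g0 := hf1 0 (by omega)
      have g3 := hs0 _ g0
      have g4 := h1 _ g0
      have g5 := hf1 (11 * n₂ - 1) (by omega)
      have g6 := hen _ g5
      have g7 := h1 _ g5
      refine hA2 u v huv (Or.inl ⟨by omega, by omega⟩)
    · exact hA2 u v huv (Or.inr ⟨_, hf1' i hi, _, hf1' j hj, g1, g2⟩)

end Sys

end EN
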