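import Pool.Agent.EN.Spine
import Pool.Agent.GL.Cells

/-!
# Pages; two pages and a spine
-/

open Set
open scoped Matroid

namespace EN

open BIC Gad

variable {α V : Type*} {S : Set α} {ends : α → Sym2 V}

/-- A page: strands `l ≤ x ≤ r`, windows `0 ≤ b ≤ n`; no horizontal edges at the shore `b = 0`. -/
structure Page (S : Set α) (ends : α → Sym2 V) (P : ℕ × ℕ → V) (l r n : ℕ) : Prop where
  inj : ∀ c c' : ℕ × ℕ, l ≤ c.1 → c.1 ≤ r → c.2 ≤ n → l ≤ c'.1 → c'.1 ≤ r → c'.2 ≤ n →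
    P c = P c' → c = c'
  ver : ∀ x b, l ≤ x → x ≤ r → b < n → GAdj S ends (P (x, b)) (P (x, b + 1))
  hor : ∀ x b, l ≤ x → x < r → 1 ≤ b → b ≤ n → GAdj S ends (P (x, b)) (P (x + 1, b))

/-- The region of a page. -/
def Reg (l r n : ℕ) : Set (ℕ × ℕ) := {c | l ≤ c.1 ∧ c.1 ≤ r ∧ c.2 ≤ n}

lemma mem_Reg {l r n : ℕ} {c : ℕ × ℕ} : c ∈ Reg l r n ↔ l ≤ c.1 ∧ c.1 ≤ r ∧ c.2 ≤ n := Iff.rfl

lemma vm {x b₁ b₂ b : ℕ} (h1 : b₁ ≤ b) (h2 : b ≤ b₂) : (x, b) ∈ Vert x b₁ b₂ :=
  mem_Vert.2 ⟨rfl, h1, h2⟩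

lemma hm {x₁ x₂ x b : ℕ} (h1 : x₁ ≤ x) (h2 : x ≤ x₂) : (x, b) ∈ HRow x₁ x₂ b :=
  mem_HRow.2 ⟨rfl, h1, h2⟩

section

variable {P : ℕ × ℕ → V} {l r n : ℕ}

lemma Page.disj (hP : Page S ends P l r n) {A B : Set (ℕ × ℕ)} (hA : A ⊆ Reg l r n)
    (hB : B ⊆ Reg l r n) (h : ∀ c ∈ A, c ∉ B) : Disjoint (P '' A) (P '' B) := by
  rw [Set.disjoint_left]
  rintro _ ⟨c, hc, rfl⟩ ⟨c', hc', h1⟩
  have h2 := hA hc
  have h3 := hB hc'
  have h4 := hP.inj c c' h2.1 h2.2.1 h2.2.2 h3.1 h3.2.1 h3.2.2 h1.symm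
  rw [← h4] at hc'
  exact h c hc hc'

lemma Page.vconn_ver (hP : Page S ends P l r n) {x b₁ b₂ : ℕ} (h1 : l ≤ x) (h2 : x ≤ r)
    (h3 : b₂ ≤ n) : VConn S ends (P '' Vert x b₁ b₂) := by
  rcases Nat.lt_or_ge b₂ b₁ with h | h
  · have e : Vert x b₁ b₂ = ∅ := by
      rw [eq_empty_iff_forall_notMem]
      intro c hc
      rw [mem_Vert] at hc
      omega
    rw [e, image_empty]
    exact vconn_empty
  · have e : P '' Vert x b₁ b₂ = (fun i => P (x, b₁ + i)) '' {i | i ≤ b₂ - b₁} := by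
      ext v
      constructor
      · rintro ⟨⟨a, b⟩, hc, rfl⟩
        rw [mem_Vert] at hc
        simp only at hc
        refine ⟨b - b₁, show b - b₁ ≤ b₂ - b₁ by omega, ?_⟩
        simp only
        rw [hc.1, Nat.add_sub_cancel' hc.2.1]
      · rintro ⟨i, hi, rfl⟩
        have hi' : i ≤ b₂ - b₁ := hi
        exact ⟨(x, b₁ + i), vm (by omega) (by omega), rfl⟩
    rw [e]
    refine vconn_path _ _ (fun i hi => ?_)
    exact hP.ver x (b₁ + i) h1 h2 (by omega)

lemma Page.vconn_hor (hP : Page S ends P l r n) {x₁ x₂ b : ℕ} (h1 : l ≤ x₁) (h2 : x₂ ≤ r)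
    (h3 : 1 ≤ b) (h4 : b ≤ n) : VConn S ends (P '' HRow x₁ x₂ b) := by
  rcases Nat.lt_or_ge x₂ x₁ with h | h
  · have e : HRow x₁ x₂ b = ∅ := by
      rw [eq_empty_iff_forall_notMem]
      intro c hc
      rw [mem_HRow] at hc
      omega
    rw [e, image_empty]
    exact vconn_empty
  · have e : P '' HRow x₁ x₂ b = (fun i => P (x₁ + i, b)) '' {i | i ≤ x₂ - x₁} := by
      ext v
      constructor
      · rintro ⟨⟨a, b'⟩, hc, rfl⟩
        rw [mem_HRow] at hc
        simp only at hc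
        refine ⟨a - x₁, show a - x₁ ≤ x₂ - x₁ by omega, ?_⟩
        simp only
        rw [hc.1, Nat.add_sub_cancel' hc.2.1]
      · rintro ⟨i, hi, rfl⟩
        have hi' : i ≤ x₂ - x₁ := hi
        exact ⟨(x₁ + i, b), hm (by omega) (by omega), rfl⟩
    rw [e]
    refine vconn_path _ _ (fun i hi => ?_)
    exact hP.hor (x₁ + i) b (by omega) (by omega) h3 h4

lemma vert_finite (x b₁ b₂ : ℕ) : (Vert x b₁ b₂).Finite := by
  refine ((Finset.Icc (x, b₁) (x, b₂)).finite_toSet).subset ?_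
  rintro ⟨a, b⟩ h
  rw [mem_Vert] at h
  simp only [Finset.coe_Icc, mem_Icc, Prod.mk_le_mk]
  simp only at h
  omega

lemma hrow_finite (x₁ x₂ b : ℕ) : (HRow x₁ x₂ b).Finite := by
  refine ((Finset.Icc (x₁, b) (x₂, b)).finite_toSet).subset ?_
  rintro ⟨a, b'⟩ h
  rw [mem_HRow] at h
  simp only [Finset.coe_Icc, mem_Icc, Prod.mk_le_mk]
  simp only at h
  omega

/-- Mirror image of a page. -/
lemma Page.mirror (hP : Page S ends P l r n) :
    Page S ends (fun c => P (l + r - c.1, c.2)) l r n where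
  inj := by
    intro c c' h1 h2 h3 h1' h2' h3' h
    have h4 := hP.inj (l + r - c.1, c.2) (l + r - c'.1, c'.2) (by simp only; omega)
      (by simp only; omega) h3 (by simp only; omega) (by simp only; omega) h3' h
    rw [Prod.mk.injEq] at h4
    exact Prod.ext (by omega) h4.2
  ver := by
    intro x b h1 h2 h3
    exact hP.ver (l + r - x) b (by omega) (by omega) h3
  hor := by
    intro x b h1 h2 h3 h4
    have h5 := hP.hor (l + r - (x + 1)) b (by omega) (by omega) h3 h4
    have e : l + r - (x + 1) + 1 = l + r - x := by omega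
    rw [e] at h5
    exact h5.symm

end

/-! ### Levels -/

/-- Level in the upper family. -/
def lvU (w i : ℕ) : ℕ := if (i / w) % 2 = 0 then w - i % w else i % w + 1

/-- Level in the lower family. -/
def lvL (w i : ℕ) : ℕ := if (i / w) % 2 = 0 then i % w + 1 else w - i % w

lemma lv_left {w r s : ℕ} (hr : 1 ≤ r) (hs : 1 ≤ s) (hsw : s ≤ w) :
    (r * w - s) / w = r - 1 ∧ (r * w - s) % w = w - s := by
  obtain ⟨r, rfl⟩ := Nat.exists_eq_add_of_le' hr
  have e : (r + 1) * w - s = r * w + (w - s) := by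
    rw [add_mul, one_mul]
    omega
  rw [e, Nat.add_sub_cancel]
  exact divmod (by omega)

lemma lv_right {w r s : ℕ} (hs : 1 ≤ s) (hsw : s ≤ w) :
    (r * w + s - 1) / w = r ∧ (r * w + s - 1) % w = s - 1 := by
  have e : r * w + s - 1 = r * w + (s - 1) := by omega
  rw [e]
  exact divmod (by omega)

lemma lv_le {w i : ℕ} (hw : 1 ≤ w) : lvU w i ≤ w ∧ lvL w i ≤ w := by
  have h := Nat.mod_lt i (show 0 < w by omega)
  unfold lvU lvL
  constructor <;> split_ifs <;> omega

lemma lvU_arc {w r s : ℕ} (hr : 1 ≤ r) (hro : r % 2 = 1) (hs : 1 ≤ s) (hsw : s ≤ w) :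
    lvU w (r * w - s) = s ∧ lvU w (r * w + s - 1) = s ∧
      ∀ k, r * w - s < k → k < r * w + s - 1 → lvU w k < s := by
  have h1 := fun s' (h : 1 ≤ s') (h' : s' ≤ w) => lv_left hr h h'
  have h2 := fun s' (h : 1 ≤ s') (h' : s' ≤ w) => lv_right (r := r) h h'
  have hw : w ≤ r * w := Nat.le_mul_of_pos_left _ hr
  refine ⟨?_, ?_, ?_⟩
  · unfold lvU
    rw [(h1 s hs hsw).1, (h1 s hs hsw).2, if_pos (by omega)]
    omega
  · unfold lvU
    rw [(h2 s hs hsw).1, (h2 s hs hsw).2, if_neg (by omega)]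
    omega
  · intro k hk1 hk2
    rcases Nat.lt_or_ge k (r * w) with h | h
    · have e : k = r * w - (r * w - k) := by omega
      have h3 := h1 (r * w - k) (by omega) (by omega)
      rw [e]
      unfold lvU
      rw [h3.1, h3.2, if_pos (by omega)]
      omega
    · have e : k = r * w + (k - r * w + 1) - 1 := by omega
      have h3 := h2 (k - r * w + 1) (by omega) (by omega)
      rw [e]
      unfold lvU
      rw [h3.1, h3.2, if_neg (by omega)]
      omega

lemma lvL_arc {w r s : ℕ} (hr : 1 ≤ r) (hro : r % 2 = 0) (hs : 1 ≤ s) (hsw : s ≤ w) :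
    lvL w (r * w - s) = s ∧ lvL w (r * w + s - 1) = s ∧
      ∀ k, r * w - s < k → k < r * w + s - 1 → lvL w k < s := by
  have h1 := fun s' (h : 1 ≤ s') (h' : s' ≤ w) => lv_left hr h h'
  have h2 := fun s' (h : 1 ≤ s') (h' : s' ≤ w) => lv_right (r := r) h h'
  have hw : w ≤ r * w := Nat.le_mul_of_pos_left _ hr
  refine ⟨?_, ?_, ?_⟩
  · unfold lvL
    rw [(h1 s hs hsw).1, (h1 s hs hsw).2, if_neg (by omega)]
    omega
  · unfold lvL
    rw [(h2 s hs hsw).1, (h2 s hs hsw).2, if_pos (by omega)]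
    omega
  · intro k hk1 hk2
    rcases Nat.lt_or_ge k (r * w) with h | h
    · have e : k = r * w - (r * w - k) := by omega
      have h3 := h1 (r * w - k) (by omega) (by omega)
      rw [e]
      unfold lvL
      rw [h3.1, h3.2, if_neg (by omega)]
      omega
    · have e : k = r * w + (k - r * w + 1) - 1 := by omega
      have h3 := h2 (k - r * w + 1) (by omega) (by omega)
      rw [e]
      unfold lvL
      rw [h3.1, h3.2, if_pos (by omega)]
      omega

lemma strict_of_step {p : ℕ → ℕ} {m : ℕ} (hp : ∀ i < m, p i < p (i + 1)) :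
    ∀ i j, i < j → j ≤ m → p i < p j := by
  intro i j hij hj
  induction j with
  | zero => omega
  | succ j ih =>
    rcases Nat.lt_or_ge i j with h | h
    · exact (ih h (by omega)).trans (hp j (by omega))
    · have : i = j := by omega
      rw [this]
      exact hp j (by omega)

lemma arcs_far {w r r' s s' : ℕ} (h : r < r') (hp : r % 2 = r' % 2) (hs : s ≤ w)
    (hs' : s' ≤ w) : r * w + s - 1 ≤ r' * w - s' := by
  have h1 : (r + 2) * w ≤ r' * w := Nat.mul_le_mul_right _ (by omega)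
  rw [add_mul] at h1
  omega

lemma arc_idx {w r s : ℕ} (hr : 1 ≤ r) (hrw : r < w) (hs : 2 ≤ s) (hsw : s ≤ w) :
    s ≤ r * w ∧ r * w + s - 1 < w * w ∧ r * w - s + 3 ≤ r * w + s - 1 := by
  have h1 : w ≤ r * w := Nat.le_mul_of_pos_left _ hr
  have h2 : (r + 1) * w ≤ w * w := Nat.mul_le_mul_right _ hrw
  rw [add_mul, one_mul] at h2
  omega

/-- The part of a page used by the vertex `i` of the spine. -/
def up (p : ℕ → ℕ) (w b₀ i : ℕ) : Set (ℕ × ℕ) :=
  HRow (p i) (p (i + 1) - 1) b₀ ∪ Vert (p i) b₀ (b₀ + lvU w i)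

/-- The arc. -/
def arc (p : ℕ → ℕ) (w b₀ r s : ℕ) : Set (ℕ × ℕ) :=
  HRow (p (r * w - s) + 1) (p (r * w + s - 1) - 1) (b₀ + s)

/-- **Two pages along a spine.** -/
theorem book_spine {w : ℕ} (hw : 1 ≤ w) {P Q : ℕ × ℕ → V} {lP rP nP lQ rQ nQ : ℕ}
    (hP : Page S ends P lP rP nP) (hQ : Page S ends Q lQ rQ nQ)
    (hPQ : ∀ c ∈ Reg lP rP nP, ∀ c' ∈ Reg lQ rQ nQ, P c ≠ Q c') {b₀ b₁ : ℕ} (hb₀ : 1 ≤ b₀)
    (hn₀ : b₀ + w ≤ nP) (hn₁ : b₁ + w ≤ nQ) (p q : ℕ → ℕ) (hp : ∀ i < w * w, p i < p (i + 1))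
    (hq : ∀ i, i + 1 < w * w → q i < q (i + 1)) (hp0 : lP ≤ p 0) (hp1 : p (w * w) ≤ rP + 1)
    (hq0 : lQ ≤ q 0) (hq1 : q (w * w - 1) ≤ rQ) (X : ℕ → Set V)
    (hXf : ∀ i < w * w, (X i).Finite) (hXc : ∀ i < w * w, VConn S ends (X i))
    (hXp : ∀ i < w * w, P (p i, b₀) ∈ X i) (hXq : ∀ i < w * w, Q (q i, b₁) ∈ X i)
    (hXX : ∀ i < w * w, ∀ j < w * w, i ≠ j → Disjoint (X i) (X j))
    (hXP : ∀ i < w * w, ∀ c ∈ Reg lP rP nP, P c ∈ X i → p i ≤ c.1 ∧ c.1 < p (i + 1) ∧ c.2 ≤ b₀)
    (hXQ : ∀ i < w * w, ∀ c ∈ Reg lQ rQ nQ, Q c ∈ X i → c.2 ≤ b₁ ∧ (c.2 = b₁ → c.1 = q i)) :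
    Spine S ends w
      (fun i => X i ∪ P '' up p w b₀ i ∪ Q '' Vert (q i) b₁ (b₁ + lvL w i))
      (fun r s => if r % 2 = 1 then P '' arc p w b₀ r s else Q '' arc q w b₁ r s) := by
  have hps := strict_of_step hp
  have hqs : ∀ i j, i < j → j < w * w → q i < q j := by
    intro i j hij hj
    exact strict_of_step (m := w * w - 1) (fun i hi => hq i (by omega)) i j hij (by omega)
  have hpm : ∀ i, i ≤ w * w → lP ≤ p i := by
    intro i hi
    rcases Nat.eq_zero_or_pos i with h | h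
    · rw [h]; exact hp0
    · exact hp0.trans (hps 0 i h hi).le
  have hpM : ∀ i < w * w, p i ≤ rP := by
    intro i hi
    have := hps i (w * w) hi (le_refl _)
    omega
  have hpM' : ∀ i < w * w, p (i + 1) - 1 ≤ rP := by
    intro i hi
    rcases Nat.lt_or_ge (i + 1) (w * w) with h | h
    · have := hpM (i + 1) h
      omega
    · have : i + 1 = w * w := by omega
      rw [this]
      omega
  have hqm : ∀ i, i < w * w → lQ ≤ q i := by
    intro i hi
    rcases Nat.eq_zero_or_pos i with h | h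
    · rw [h]; exact hq0
    · exact hq0.trans (hqs 0 i h hi).le
  have hqM : ∀ i < w * w, q i ≤ rQ := by
    intro i hi
    rcases Nat.lt_or_ge i (w * w - 1) with h | h
    · exact (hqs i (w * w - 1) h (by omega)).le.trans hq1
    · have : i = w * w - 1 := by omega
      rw [this]; exact hq1
  have hlv := fun i => lv_le (i := i) hw
  have hcol : ∀ i < w * w, ∀ j < w * w, ∀ a, p i ≤ a → a < p (i + 1) → p j ≤ a →
      a < p (j + 1) → i = j := by
    intro i hi j hj a h1 h2 h3 h4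
    rcases Nat.lt_trichotomy i j with h | h | h
    · have : p (i + 1) ≤ p j := by
        rcases Nat.lt_or_ge (i + 1) j with h5 | h5
        · exact (hps (i + 1) j h5 (by omega)).le
        · have : i + 1 = j := by omega
          rw [this]
      omega
    · exact h
    · have : p (j + 1) ≤ p i := by
        rcases Nat.lt_or_ge (j + 1) i with h5 | h5
        · exact (hps (j + 1) i h5 (by omega)).le
        · have : j + 1 = i := by omega
          rw [this]
      omega
  have hupc : ∀ i < w * w, ∀ c ∈ up p w b₀ i, p i ≤ c.1 ∧ c.1 < p (i + 1) ∧ b₀ ≤ c.2 ∧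
      (c.2 = b₀ ∨ (c.1 = p i ∧ c.2 ≤ b₀ + lvU w i)) := by
    intro i hi c hc
    have h1 := hp i hi
    rcases hc with hc | hc
    · rw [mem_HRow] at hc
      omega
    · rw [mem_Vert] at hc
      omega
  have hupR : ∀ i < w * w, up p w b₀ i ⊆ Reg lP rP nP := by
    intro i hi c hc
    have h1 := hupc i hi c hc
    have h2 := hpm i hi.le
    have h3 := hpM' i hi
    have h4 := hpM i hi
    have h5 := (hlv i).1
    rw [mem_Reg]
    omega
  have hloR : ∀ i < w * w, Vert (q i) b₁ (b₁ + lvL w i) ⊆ Reg lQ rQ nQ := by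
    intro i hi c hc
    have h2 := hqm i hi
    have h3 := hqM i hi
    have h5 := (hlv i).2
    rw [mem_Vert] at hc
    rw [mem_Reg]
    omega
  have harP : ∀ r s, 1 ≤ r → r < w → 2 ≤ s → s ≤ w → arc p w b₀ r s ⊆ Reg lP rP nP := by
    intro r s h1 h2 h3 h4 c hc
    have h5 := arc_idx h1 h2 h3 h4
    have h6 := hpm (r * w - s) (by omega)
    have h7 := hpM (r * w + s - 1) h5.2.1
    unfold arc at hc
    rw [mem_HRow] at hc
    rw [mem_Reg]
    omega
  have harQ : ∀ r s, 1 ≤ r → r < w → 2 ≤ s → s ≤ w → arc q w b₁ r s ⊆ Reg lQ rQ nQ := by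
    intro r s h1 h2 h3 h4 c hc
    have h5 := arc_idx h1 h2 h3 h4
    have h6 := hqm (r * w - s) (by omega)
    have h7 := hqM (r * w + s - 1) h5.2.1
    unfold arc at hc
    rw [mem_HRow] at hc
    rw [mem_Reg]
    omega
  have hPQ' : ∀ A ⊆ Reg lP rP nP, ∀ B ⊆ Reg lQ rQ nQ, Disjoint (P '' A) (Q '' B) := by
    intro A hA B hB
    rw [Set.disjoint_left]
    rintro _ ⟨c, hc, rfl⟩ ⟨c', hc', h⟩
    exact hPQ c (hA hc) c' (hB hc') h.symm
  -- extras against the rest
  have hXup : ∀ i < w * w, ∀ j < w * w, i ≠ j → Disjoint (X i) (P '' up p w b₀ j) := by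
    intro i hi j hj hij
    rw [Set.disjoint_left]
    rintro _ hv ⟨c, hc, rfl⟩
    have h1 := hXP i hi c (hupR j hj hc) hv
    have h2 := hupc j hj c hc
    exact hij (hcol i hi j hj c.1 h1.1 h1.2.1 h2.1 h2.2.1)
  have hXlo : ∀ i < w * w, ∀ j < w * w, i ≠ j →
      Disjoint (X i) (Q '' Vert (q j) b₁ (b₁ + lvL w j)) := by
    intro i hi j hj hij
    rw [Set.disjoint_left]
    rintro _ hv ⟨c, hc, rfl⟩
    have h1 := hXQ i hi c (hloR j hj hc) hv
    rw [mem_Vert] at hc
    have h2 : q i = q j := by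
      rw [← h1.2 (by omega), hc.1]
    rcases Nat.lt_or_gt_of_ne hij with h | h
    · have := hqs i j h hj
      omega
    · have := hqs j i h hi
      omega
  refine ⟨?_, ?_, ?_, ?_, ?_, ?_, ?_, ?_, ?_⟩
  · intro i hi
    exact ((hXf i hi).union (((hrow_finite _ _ _).union (vert_finite _ _ _)).image _)).union
      ((vert_finite _ _ _).image _)
  · intro i hi
    have h1 := hp i hi
    have h2 : VConn S ends (P '' up p w b₀ i) := by
      unfold up
      rw [image_union]
      refine vc_union (hP.vconn_hor (hpm i hi.le) (hpM' i hi) hb₀ (by omega))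
        (hP.vconn_ver (hpm i hi.le) (hpM i hi) (by have := (hlv i).1; omega))
        (c := P (p i, b₀)) ⟨(p i, b₀), ?_, rfl⟩ ⟨(p i, b₀), ?_, rfl⟩
      · exact hm (by omega) (by omega)
      · exact vm (by omega) (by omega)
    refine vc_union (vc_union (hXc i hi) h2 (hXp i hi) ⟨(p i, b₀), Or.inr ?_, rfl⟩)
      (hQ.vconn_ver (hqm i hi) (hqM i hi) (by have := (hlv i).2; omega))
      (Or.inl (hXq i hi)) ⟨(q i, b₁), ?_, rfl⟩
    · exact vm (by omega) (by omega)
    · exact vm (by omega) (by omega)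
  · intro r s h1 h2 h3 h4
    split_ifs
    · exact (hrow_finite _ _ _).image _
    · exact (hrow_finite _ _ _).image _
  · intro r s h1 h2 h3 h4
    have h5 := arc_idx h1 h2 h3 h4
    split_ifs
    · have h6 := hpm (r * w - s) (by omega)
      have h7 := hpM (r * w + s - 1) h5.2.1
      exact hP.vconn_hor (by omega) (by omega) (by omega) (by omega)
    · have h6 := hqm (r * w - s) (by omega)
      have h7 := hqM (r * w + s - 1) h5.2.1
      exact hQ.vconn_hor (by omega) (by omega) (by omega) (by omega)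
  · intro i hi j hj hij
    rw [Set.disjoint_union_left, Set.disjoint_union_left, Set.disjoint_union_right,
      Set.disjoint_union_right, Set.disjoint_union_right, Set.disjoint_union_right,
      Set.disjoint_union_right, Set.disjoint_union_right]
    refine ⟨⟨⟨⟨hXX i hi j hj hij, hXup i hi j hj hij⟩, hXlo i hi j hj hij⟩,
      ⟨(hXup j hj i hi hij.symm).symm, ?_⟩, hPQ' _ (hupR i hi) _ (hloR j hj)⟩,
      ⟨(hXlo j hj i hi hij.symm).symm, (hPQ' _ (hupR j hj) _ (hloR i hi)).symm⟩, ?_⟩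
    · refine hP.disj (hupR i hi) (hupR j hj) (fun c hc hc' => ?_)
      have h1 := hupc i hi c hc
      have h2 := hupc j hj c hc'
      exact hij (hcol i hi j hj c.1 h1.1 h1.2.1 h2.1 h2.2.1)
    · refine hQ.disj (hloR i hi) (hloR j hj) (fun c hc hc' => ?_)
      rw [mem_Vert] at hc hc'
      rcases Nat.lt_or_gt_of_ne hij with h | h
      · have := hqs i j h hj
        omega
      · have := hqs j i h hi
        omega
  · intro i hi r s h1 h2 h3 h4
    have h5 := arc_idx h1 h2 h3 h4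
    split_ifs with hr
    · rw [Set.disjoint_union_left, Set.disjoint_union_left]
      refine ⟨⟨?_, ?_⟩, (hPQ' _ (harP r s h1 h2 h3 h4) _ (hloR i hi)).symm⟩
      · rw [Set.disjoint_left]
        rintro _ hv ⟨c, hc, rfl⟩
        have h6 := hXP i hi c (harP r s h1 h2 h3 h4 hc) hv
        unfold arc at hc
        rw [mem_HRow] at hc
        omega
      · refine hP.disj (hupR i hi) (harP r s h1 h2 h3 h4) (fun c hc hc' => ?_)
        have h6 := hupc i hi c hc
        unfold arc at hc'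
        rw [mem_HRow] at hc'
        have h7 : c.1 = p i ∧ c.2 ≤ b₀ + lvU w i := by omega
        have h8 := (lvU_arc h1 hr (by omega) h4).2.2 i
        have h9 : r * w - s < i := by
          by_contra hcon
          rcases Nat.lt_or_ge i (r * w - s) with h | h
          · have := hps i _ h (by omega)
            omega
          · have : i = r * w - s := by omega
            rw [← this] at hc'
            omega
        have h10 : i < r * w + s - 1 := by
          by_contra hcon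
          rcases Nat.lt_or_ge (r * w + s - 1) i with h | h
          · have := hps _ i h (by omega)
            omega
          · have : i = r * w + s - 1 := by omega
            rw [← this] at hc'
            omega
        have := h8 h9 h10
        omega
    · rw [Set.disjoint_union_left, Set.disjoint_union_left]
      refine ⟨⟨?_, hPQ' _ (hupR i hi) _ (harQ r s h1 h2 h3 h4)⟩, ?_⟩
      · rw [Set.disjoint_left]
        rintro _ hv ⟨c, hc, rfl⟩
        have h6 := hXQ i hi c (harQ r s h1 h2 h3 h4 hc) hv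
        unfold arc at hc
        rw [mem_HRow] at hc
        omega
      · refine hQ.disj (hloR i hi) (harQ r s h1 h2 h3 h4) (fun c hc hc' => ?_)
        rw [mem_Vert] at hc
        unfold arc at hc'
        rw [mem_HRow] at hc'
        have h8 := (lvL_arc h1 (by omega) (by omega) h4).2.2 i
        have h9 : r * w - s < i := by
          by_contra hcon
          rcases Nat.lt_or_ge i (r * w - s) with h | h
          · have := hqs i _ h (by omega)
            omega
          · have : i = r * w - s := by omega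
            rw [← this] at hc'
            omega
        have h10 : i < r * w + s - 1 := by
          by_contra hcon
          rcases Nat.lt_or_ge (r * w + s - 1) i with h | h
          · have := hqs _ i h hi
            omega
          · have : i = r * w + s - 1 := by omega
            rw [← this] at hc'
            omega
        have := h8 h9 h10
        omega
  · intro r s h1 h2 h3 h4 r' s' h1' h2' h3' h4' hne
    have h5 := arc_idx h1 h2 h3 h4
    have h5' := arc_idx h1' h2' h3' h4'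
    -- two arcs of one family
    have key : ∀ f : ℕ → ℕ, (∀ i j, i < j → j < w * w → f i < f j) → ∀ b : ℕ,
        r % 2 = r' % 2 → ∀ c ∈ arc f w b r s, c ∉ arc f w b r' s' := by
      intro f hf b hpar c hc hc'
      unfold arc at hc hc'
      rw [mem_HRow] at hc hc'
      have hss : s = s' := by omega
      have hfm : ∀ i j, i ≤ j → j < w * w → f i ≤ f j := by
        intro i j hij hj
        rcases Nat.lt_or_ge i j with h | h
        · exact (hf i j h hj).le
        · have : i = j := by omega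
          rw [this]
      rcases Nat.lt_trichotomy r r' with h | h | h
      · have h6 := arcs_far (s := s) (s' := s') h hpar h4 h4'
        have h7 := hfm _ _ h6 (by omega)
        omega
      · exact hne (by rw [h, hss])
      · have h6 := arcs_far (s := s') (s' := s) h hpar.symm h4' h4
        have h7 := hfm _ _ h6 (by omega)
        omega
    split_ifs with hr hr' hr'
    · exact hP.disj (harP r s h1 h2 h3 h4) (harP r' s' h1' h2' h3' h4')
        (key p (fun i j hij hj => hps i j hij hj.le) b₀ (by omega))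
    · exact hPQ' _ (harP r s h1 h2 h3 h4) _ (harQ r' s' h1' h2' h3' h4')
    · exact (hPQ' _ (harP r' s' h1' h2' h3' h4') _ (harQ r s h1 h2 h3 h4)).symm
    · exact hQ.disj (harQ r s h1 h2 h3 h4) (harQ r' s' h1' h2' h3' h4')
        (key q hqs b₁ (by omega))
  · intro i hi
    have h1 := hp i (by omega)
    have h2 := hpm i (by omega)
    have h3 := hpM (i + 1) hi
    obtain ⟨e, he, hee⟩ := hP.hor (p (i + 1) - 1) b₀ (by omega) (by omega) hb₀ (by omega)
    rw [Nat.sub_add_cancel (by omega)] at hee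
    refine ⟨e, he, _, Or.inl (Or.inr ⟨(p (i + 1) - 1, b₀), Or.inl ?_, rfl⟩), _,
      Or.inl (Or.inr ⟨(p (i + 1), b₀), Or.inr ?_, rfl⟩), hee⟩
    · exact hm (by omega) (by omega)
    · exact vm (by omega) (by omega)
  · intro r s h1 h2 h3 h4
    have h5 := arc_idx h1 h2 h3 h4
    split_ifs with hr
    · obtain ⟨h6, h7, _⟩ := lvU_arc h1 hr (show 1 ≤ s by omega) h4
      have h8 := hpm (r * w - s) (by omega)
      have h9 := hpM (r * w + s - 1) h5.2.1
      have h10 : p (r * w - s) + 3 ≤ p (r * w + s - 1) := by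
        have a1 := hps (r * w - s) (r * w - s + 1) (by omega) (by omega)
        have a2 := hps (r * w - s + 1) (r * w - s + 2) (by omega) (by omega)
        have a3 := hps (r * w - s + 2) (r * w + s - 1) (by omega) (by omega)
        omega
      constructor
      · obtain ⟨e, he, hee⟩ := hP.hor (p (r * w - s)) (b₀ + s) h8 (by omega) (by omega) (by omega)
        refine ⟨e, he, _, ⟨(p (r * w - s) + 1, b₀ + s), ?_, rfl⟩, _,
          Or.inl (Or.inr ⟨(p (r * w - s), b₀ + s), Or.inr ?_, rfl⟩), by rw [hee, Sym2.eq_swap]⟩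
        · unfold arc
          exact hm (by omega) (by omega)
        · rw [h6]; exact vm (by omega) (by omega)
      · obtain ⟨e, he, hee⟩ := hP.hor (p (r * w + s - 1) - 1) (b₀ + s) (by omega) (by omega)
          (by omega) (by omega)
        rw [Nat.sub_add_cancel (by omega)] at hee
        refine ⟨e, he, _, ⟨(p (r * w + s - 1) - 1, b₀ + s), ?_, rfl⟩, _,
          Or.inl (Or.inr ⟨(p (r * w + s - 1), b₀ + s), Or.inr ?_, rfl⟩), hee⟩
        · unfold arc
          exact hm (by omega) (by omega)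
        · rw [h7]; exact vm (by omega) (by omega)
    · obtain ⟨h6, h7, _⟩ := lvL_arc h1 (by omega : r % 2 = 0) (show 1 ≤ s by omega) h4
      have h8 := hqm (r * w - s) (by omega)
      have h9 := hqM (r * w + s - 1) h5.2.1
      have h10 : q (r * w - s) + 3 ≤ q (r * w + s - 1) := by
        have a1 := hqs (r * w - s) (r * w - s + 1) (by omega) (by omega)
        have a2 := hqs (r * w - s + 1) (r * w - s + 2) (by omega) (by omega)
        have a3 := hqs (r * w - s + 2) (r * w + s - 1) (by omega) (by omega)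
        omega
      constructor
      · obtain ⟨e, he, hee⟩ := hQ.hor (q (r * w - s)) (b₁ + s) h8 (by omega) (by omega) (by omega)
        refine ⟨e, he, _, ⟨(q (r * w - s) + 1, b₁ + s), ?_, rfl⟩, _,
          Or.inr ⟨(q (r * w - s), b₁ + s), ?_, rfl⟩, by rw [hee, Sym2.eq_swap]⟩
        · unfold arc
          exact hm (by omega) (by omega)
        · rw [h6]; exact vm (by omega) (by omega)
      · obtain ⟨e, he, hee⟩ := hQ.hor (q (r * w + s - 1) - 1) (b₁ + s) (by omega) (by omega)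
          (by omega) (by omega)
        rw [Nat.sub_add_cancel (by omega)] at hee
        refine ⟨e, he, _, ⟨(q (r * w + s - 1) - 1, b₁ + s), ?_, rfl⟩, _,
          Or.inr ⟨(q (r * w + s - 1), b₁ + s), ?_, rfl⟩, hee⟩
        · unfold arc
          exact hm (by omega) (by omega)
        · rw [h7]; exact vm (by omega) (by omega)

/-- **Row R2, (2P).** Two pages joined by monotone rungs, with a connected set `U i` attached to
the page `P` between consecutive rungs. -/
theorem two_pages_inc {w : ℕ} (hw : 1 ≤ w) {P Q : ℕ × ℕ → V} {lP rP nP lQ rQ nQ : ℕ}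
    (hP : Page S ends P lP rP nP) (hQ : Page S ends Q lQ rQ nQ)
    (hPQ : ∀ c ∈ Reg lP rP nP, ∀ c' ∈ Reg lQ rQ nQ, P c ≠ Q c')
    (hn₀ : 2 + w ≤ nP) (hn₁ : 1 + w ≤ nQ) (p q x : ℕ → ℕ)
    (hp : ∀ i < w * w, p i < x i ∧ x i < p (i + 1))
    (hq : ∀ i, i + 1 < w * w → q i < q (i + 1)) (hp0 : lP ≤ p 0) (hp1 : p (w * w) ≤ rP + 1)
    (hq0 : lQ ≤ q 0) (hq1 : q (w * w - 1) ≤ rQ)
    (hrung : ∀ i < w * w, GAdj S ends (P (p i, 0)) (Q (q i, 0)))
    (U : ℕ → Set V) (hUf : ∀ i < w * w, (U i).Finite) (hUc : ∀ i < w * w, VConn S ends (U i))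
    (hUx : ∀ i < w * w, P (x i, 1) ∈ U i)
    (hUU : ∀ i < w * w, ∀ j < w * w, i ≠ j → Disjoint (U i) (U j))
    (hUP : ∀ i < w * w, ∀ c ∈ Reg lP rP nP, P c ∈ U i → p i < c.1 ∧ c.1 < p (i + 1) ∧ c.2 ≤ 1)
    (hUQ : ∀ i < w * w, ∀ c ∈ Reg lQ rQ nQ, Q c ∉ U i) :
    ∃ (Vs : ℕ → Set V) (As : ℕ → ℕ → Set V), Spine S ends w Vs As ∧
      ∀ i < w * w, U i ⊆ Vs i := by
  have hp' : ∀ i < w * w, p i < p (i + 1) := fun i hi => (hp i hi).1.trans (hp i hi).2
  have hps := strict_of_step hp'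
  have hqs : ∀ i j, i < j → j < w * w → q i < q j := by
    intro i j hij hj
    exact strict_of_step (m := w * w - 1) (fun i hi => hq i (by omega)) i j hij (by omega)
  have hpm : ∀ i, i ≤ w * w → lP ≤ p i := by
    intro i hi
    rcases Nat.eq_zero_or_pos i with h | h
    · rw [h]; exact hp0
    · exact hp0.trans (hps 0 i h hi).le
  have hpM : ∀ i < w * w, p (i + 1) ≤ rP + 1 := by
    intro i hi
    rcases Nat.lt_or_ge (i + 1) (w * w) with h | h
    · exact (hps (i + 1) (w * w) h (le_refl _)).le.trans hp1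
    · have : i + 1 = w * w := by omega
      rw [this]; exact hp1
  have hqm : ∀ i, i < w * w → lQ ≤ q i := by
    intro i hi
    rcases Nat.eq_zero_or_pos i with h | h
    · rw [h]; exact hq0
    · exact hq0.trans (hqs 0 i h hi).le
  have hqM : ∀ i < w * w, q i ≤ rQ := by
    intro i hi
    rcases Nat.lt_or_ge i (w * w - 1) with h | h
    · exact (hqs i (w * w - 1) h (by omega)).le.trans hq1
    · have : i = w * w - 1 := by omega
      rw [this]; exact hq1
  have hcol : ∀ i < w * w, ∀ j < w * w, ∀ a, p i ≤ a → a < p (i + 1) → p j ≤ a →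
      a < p (j + 1) → i = j := by
    intro i hi j hj a h1 h2 h3 h4
    rcases Nat.lt_trichotomy i j with h | h | h
    · have : p (i + 1) ≤ p j := by
        rcases Nat.lt_or_ge (i + 1) j with h5 | h5
        · exact (hps (i + 1) j h5 (by omega)).le
        · have : i + 1 = j := by omega
          rw [this]
      omega
    · exact h
    · have : p (j + 1) ≤ p i := by
        rcases Nat.lt_or_ge (j + 1) i with h5 | h5
        · exact (hps (j + 1) i h5 (by omega)).le
        · have : j + 1 = i := by omega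
          rw [this]
      omega
  set RP : ℕ → Set (ℕ × ℕ) := fun i => Vert (x i) 1 2 ∪ HRow (p i) (x i) 2 ∪ Vert (p i) 0 2
    with hRP
  have hRPc : ∀ i < w * w, ∀ c ∈ RP i, p i ≤ c.1 ∧ c.1 < p (i + 1) ∧ c.2 ≤ 2 ∧
      (c.2 ≤ 1 → c.1 = x i ∨ c.1 = p i) := by
    rintro i hi c ((hc | hc) | hc)
    · have := hp i hi
      rw [mem_Vert] at hc
      omega
    · have := hp i hi
      rw [mem_HRow] at hc
      omega
    · have := hp i hi
      rw [mem_Vert] at hc
      omega
  have hRPR : ∀ i < w * w, RP i ⊆ Reg lP rP nP := by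
    intro i hi c hc
    have h1 := hRPc i hi c hc
    have h2 := hpm i hi.le
    have h3 := hpM i hi
    rw [mem_Reg]
    omega
  have hRQR : ∀ i < w * w, Vert (q i) 0 1 ⊆ Reg lQ rQ nQ := by
    intro i hi c hc
    have h1 := hqm i hi
    have h2 := hqM i hi
    rw [mem_Vert] at hc
    rw [mem_Reg]
    omega
  set X : ℕ → Set V := fun i => U i ∪ P '' RP i ∪ Q '' Vert (q i) 0 1 with hX
  refine ⟨_, _, book_spine hw hP hQ hPQ (b₀ := 2) (b₁ := 1) (by omega) hn₀ hn₁ p q hp' hq hp0 hp1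
    hq0 hq1 X ?_ ?_ ?_ ?_ ?_ ?_ ?_, ?_⟩
  · intro i hi
    refine ((hUf i hi).union (Set.Finite.image _ ?_)).union ((vert_finite _ _ _).image _)
    exact ((vert_finite _ _ _).union (hrow_finite _ _ _)).union (vert_finite _ _ _)
  · intro i hi
    have h1 := hp i hi
    have h2 := hpm i hi.le
    have h3 := hpM i hi
    have h4 : VConn S ends (P '' RP i) := by
      simp only [hRP]
      rw [image_union, image_union]
      refine vc_union (vc_union (hP.vconn_ver (by omega) (by omega) (by omega))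
        (hP.vconn_hor h2 (by omega) (by omega) (by omega)) (c := P (x i, 2))
        ⟨_, vm (by omega) (by omega), rfl⟩ ⟨_, hm (by omega) (by omega), rfl⟩)
        (hP.vconn_ver h2 (by omega) (by omega)) (c := P (p i, 2))
        (Or.inr ⟨_, hm (by omega) (by omega), rfl⟩) ⟨_, vm (by omega) (by omega), rfl⟩
    have h5 : VConn S ends (U i ∪ P '' RP i) :=
      vc_union (hUc i hi) h4 (hUx i hi) ⟨(x i, 1), Or.inl (Or.inl (vm (by omega) (by omega))), rfl⟩
    obtain ⟨e, he, hee⟩ := hrung i hi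
    exact vc_lnk h5 (hQ.vconn_ver (hqm i hi) (hqM i hi) (by omega)) ⟨e, he, _,
      Or.inr ⟨(p i, 0), Or.inr (vm (by omega) (by omega)), rfl⟩, _,
      ⟨(q i, 0), vm (by omega) (by omega), rfl⟩, hee⟩
  · intro i hi
    exact Or.inl (Or.inr ⟨(p i, 2), Or.inr (vm (by omega) (by omega)), rfl⟩)
  · intro i hi
    exact Or.inr ⟨(q i, 1), vm (by omega) (by omega), rfl⟩
  · intro i hi j hj hij
    have hPQ' : ∀ A ⊆ Reg lP rP nP, ∀ B ⊆ Reg lQ rQ nQ, Disjoint (P '' A) (Q '' B) := by
      intro A hA B hB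
      rw [Set.disjoint_left]
      rintro _ ⟨c, hc, rfl⟩ ⟨c', hc', h⟩
      exact hPQ c (hA hc) c' (hB hc') h.symm
    have hUR : ∀ i < w * w, ∀ j < w * w, i ≠ j → Disjoint (U i) (P '' RP j) := by
      intro i hi j hj hij
      rw [Set.disjoint_left]
      rintro _ hv ⟨c, hc, rfl⟩
      have h1 := hUP i hi c (hRPR j hj hc) hv
      have h2 := hRPc j hj c hc
      exact hij (hcol i hi j hj c.1 h1.1.le h1.2.1 h2.1 h2.2.1)
    have hUQ' : ∀ i < w * w, ∀ j < w * w, Disjoint (U i) (Q '' Vert (q j) 0 1) := by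
      intro i hi j hj
      rw [Set.disjoint_left]
      rintro _ hv ⟨c, hc, rfl⟩
      exact hUQ i hi c (hRQR j hj hc) hv
    simp only [hX]
    rw [Set.disjoint_union_left, Set.disjoint_union_left, Set.disjoint_union_right,
      Set.disjoint_union_right, Set.disjoint_union_right, Set.disjoint_union_right,
      Set.disjoint_union_right, Set.disjoint_union_right]
    refine ⟨⟨⟨⟨hUU i hi j hj hij, hUR i hi j hj hij⟩, hUQ' i hi j hj⟩,
      ⟨(hUR j hj i hi hij.symm).symm, ?_⟩, hPQ' _ (hRPR i hi) _ (hRQR j hj)⟩,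
      ⟨(hUQ' j hj i hi).symm, (hPQ' _ (hRPR j hj) _ (hRQR i hi)).symm⟩, ?_⟩
    · refine hP.disj (hRPR i hi) (hRPR j hj) (fun c hc hc' => ?_)
      have h1 := hRPc i hi c hc
      have h2 := hRPc j hj c hc'
      exact hij (hcol i hi j hj c.1 h1.1 h1.2.1 h2.1 h2.2.1)
    · refine hQ.disj (hRQR i hi) (hRQR j hj) (fun c hc hc' => ?_)
      rw [mem_Vert] at hc hc'
      rcases Nat.lt_or_gt_of_ne hij with h | h
      · have := hqs i j h hj
        omega
      · have := hqs j i h hi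
        omega
  · rintro i hi c hc ((hv | hv) | hv)
    · have := hUP i hi c hc hv
      omega
    · obtain ⟨c', hc', h1⟩ := hv
      have h2 := hRPR i hi hc'
      have h3 := hP.inj c' c h2.1 h2.2.1 h2.2.2 hc.1 hc.2.1 hc.2.2 h1
      rw [← h3]
      have := hRPc i hi c' hc'
      omega
    · obtain ⟨c', hc', h1⟩ := hv
      exact absurd h1.symm (hPQ c hc c' (hRQR i hi hc'))
  · rintro i hi c hc ((hv | hv) | hv)
    · exact absurd hv (hUQ i hi c hc)
    · obtain ⟨c', hc', h1⟩ := hv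
      exact absurd h1 (hPQ c' (hRPR i hi hc') c hc)
    · obtain ⟨c', hc', h1⟩ := hv
      have h2 := hRQR i hi hc'
      have h3 := hQ.inj c' c h2.1 h2.2.1 h2.2.2 hc.1 hc.2.1 hc.2.2 h1
      rw [← h3]
      rw [mem_Vert] at hc'
      omega
  · intro i hi v hv
    exact Or.inl (Or.inl (Or.inl (Or.inl hv)))

/-- (2P) for rungs of either direction. -/
theorem two_pages {w : ℕ} (hw : 1 ≤ w) {P Q : ℕ × ℕ → V} {lP rP nP lQ rQ nQ : ℕ}
    (hP : Page S ends P lP rP nP) (hQ : Page S ends Q lQ rQ nQ)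
    (hPQ : ∀ c ∈ Reg lP rP nP, ∀ c' ∈ Reg lQ rQ nQ, P c ≠ Q c')
    (hn₀ : 2 + w ≤ nP) (hn₁ : 1 + w ≤ nQ) (p q x : ℕ → ℕ)
    (hp : ∀ i < w * w, p i < x i ∧ x i < p (i + 1))
    (hq : (∀ i, i + 1 < w * w → q i < q (i + 1)) ∨ (∀ i, i + 1 < w * w → q (i + 1) < q i))
    (hp0 : lP ≤ p 0) (hp1 : p (w * w) ≤ rP + 1)
    (hqr : ∀ i < w * w, lQ ≤ q i ∧ q i ≤ rQ)
    (hrung : ∀ i < w * w, GAdj S ends (P (p i, 0)) (Q (q i, 0)))
    (U : ℕ → Set V) (hUf : ∀ i < w * w, (U i).Finite) (hUc : ∀ i < w * w, VConn S ends (U i))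
    (hUx : ∀ i < w * w, P (x i, 1) ∈ U i)
    (hUU : ∀ i < w * w, ∀ j < w * w, i ≠ j → Disjoint (U i) (U j))
    (hUP : ∀ i < w * w, ∀ c ∈ Reg lP rP nP, P c ∈ U i → p i < c.1 ∧ c.1 < p (i + 1) ∧ c.2 ≤ 1)
    (hUQ : ∀ i < w * w, ∀ c ∈ Reg lQ rQ nQ, Q c ∉ U i) :
    ∃ (Vs : ℕ → Set V) (As : ℕ → ℕ → Set V), Spine S ends w Vs As ∧
      ∀ i < w * w, U i ⊆ Vs i := by
  have hww : 0 < w * w := Nat.mul_pos hw hw
  rcases hq with hq | hq
  · exact two_pages_inc hw hP hQ hPQ hn₀ hn₁ p q x hp hq hp0 hp1 (hqr 0 hww).1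
      (hqr _ (by omega)).2 hrung U hUf hUc hUx hUU hUP hUQ
  · have e : ∀ i < w * w, lQ + rQ - (lQ + rQ - q i) = q i := by
      intro i hi
      have := hqr i hi
      omega
    refine two_pages_inc hw hP hQ.mirror ?_ hn₀ hn₁ p (fun i => lQ + rQ - q i) x hp ?_ hp0 hp1
      ?_ ?_ ?_ U hUf hUc hUx hUU hUP ?_
    · intro c hc c' hc'
      refine hPQ c hc _ ?_
      rw [mem_Reg] at hc' ⊢
      simp only
      omega
    · intro i hi
      have h1 := hq i hi
      have h2 := hqr i (by omega)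
      have h3 := hqr (i + 1) hi
      omega
    · have := hqr 0 hww
      omega
    · have := hqr (w * w - 1) (by omega)
      omega
    · intro i hi
      simp only
      rw [e i hi]
      exact hrung i hi
    · intro i hi c hc
      refine hUQ i hi _ ?_
      rw [mem_Reg] at hc ⊢
      simp only
      omega

/-! ### From the spine to the grid with joints -/

theorem Spine.jgrid {M : Matroid α} (_hF : Frm M S ends) {w : ℕ} {Vs : ℕ → Set V}
    {As : ℕ → ℕ → Set V} (h : Spine S ends w Vs As) (Z : ℕ → Set V) (τ₀ : ℕ → Set α) (j : ℕ → α)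
    (hZ : ∀ i < w * w, Z i ⊆ Vs i) (hτ₀ : ∀ i < w * w, Arb S ends (Z i) (τ₀ i))
    (hj : ∀ i < w * w, j i ∈ ins S ends (Z i) ∧ j i ∉ τ₀ i)
    (hI : M.Indep (⋃ i ∈ Finset.range (w * w), insert (j i) (τ₀ i))) {P : ℕ × ℕ → V}
    {l r n b : ℕ} (hb : b ≤ n) (hT : ∀ i < w * w, ∃ x, l ≤ x ∧ x ≤ r ∧ P (x, b) ∈ Vs i) :
    GmV M S ends P l r n w := by
  obtain ⟨U, h1, h2, h3⟩ := h.grid
  exact ⟨U, fun c => Z (idx w c),
    fun c => τ₀ (idx w c), fun c => j (idx w c), fun c hc => (h1 c hc).1,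
    fun c hc => (hZ _ (idx_lt hc)).trans (h1 c hc).2.2.1, fun c hc => (h1 c hc).2.1, h2,
    fun c hc => hτ₀ _ (idx_lt hc), fun c hc => hj _ (idx_lt hc), hI.subset (by
      intro e he
      obtain ⟨c, hc, hec⟩ := mem_iUnion₂.1 he
      exact mem_iUnion₂.2 ⟨idx w c, Finset.mem_range.2 (idx_lt (mem_ClF.1 hc)), hec⟩), h3, b, hb,
    fun c hc => by
      obtain ⟨x, g1, g2, g3⟩ := hT _ (idx_lt hc)
      exact ⟨x, g1, g2, (h1 c hc).2.2.1 g3⟩⟩

theorem Spine.jgrid_bal {M : Matroid α} (hF : Frm M S ends) (hbal : Bal M S ends) {w : ℕ}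
    (hw : 1 ≤ w) {Vs : ℕ → Set V}
    {As : ℕ → ℕ → Set V} (h : Spine S ends w Vs As) (Z : Set V) (hZf : Z.Finite)
    (hZc : VConn S ends Z) (hVZ : ∀ i < w * w, Disjoint (Vs i) Z)
    (hAZ : ∀ r s, 1 ≤ r → r < w → 2 ≤ s → s ≤ w → Disjoint (As r s) Z)
    (hadj : ∀ i < w * w, Lnk S ends (Vs i) Z) :
    ∃ (C S' : Set α) (j : ℕ × ℕ → α) (ed : ℕ × ℕ → ℕ × ℕ → α), C ⊆ S ∧ S' ⊆ S ∧ Disjoint C S' ∧
      M.Indep (C ∪ j '' Cl w) ∧ JGrid (M ／ C) S' w j ed := by
  obtain ⟨U, h1, h2, h3⟩ := h.grid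
  refine jgrid_of_bal hF hbal hw U Z hZf hZc (fun c hc => (h1 c hc).1)
    (fun c hc => (h1 c hc).2.1) h2 ?_ h3 ?_
  · intro c hc
    rw [Set.disjoint_left]
    intro v hv hvZ
    rcases (h1 c hc).2.2.2 hv with h4 | h4
    · obtain ⟨i, hi, h5⟩ := mem_iUnion₂.1 h4
      exact Set.disjoint_left.1 (hVZ i (Finset.mem_range.1 hi)) h5 hvZ
    · obtain ⟨r, hr, h5⟩ := mem_iUnion₂.1 h4
      obtain ⟨s, hs, h6⟩ := mem_iUnion₂.1 h5
      rw [Finset.mem_Ico] at hr
      rw [Finset.mem_Icc] at hs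
      exact Set.disjoint_left.1 (hAZ r s hr.1 hr.2 hs.1 hs.2) h6 hvZ
  · intro c hc
    exact (hadj _ (idx_lt hc)).mono (subset_refl _) (h1 c hc).2.2.1 (subset_refl _)

end EN
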