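import Pool.Agent.EN.Pairs
import Pool.Agent.EN.Page

/-!
# Switches of the partner along a half piece

A switch is a pair `(x, x')` of columns of a page such that the vertices at `x` and at `x'` have
links to different pieces.  Switches with disjoint column intervals and different vertices are
connectors between pieces inside the page; so there are linearly many in the number of pieces, or a
complete model, or many disjoint switches of the same pair of pieces (three pages).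
-/

open Set

namespace Mdr

/-- A digraph with out-degrees at most `d` on at least `(2 d + 1) m` vertices contains `m`
independent vertices. -/
theorem indep_of_out {ι : Type*} (d : ℕ) (r : ι → ι → Prop) (m : ℕ) :
    ∀ B : Finset ι, (∀ i ∈ B, {j | j ∈ B ∧ r i j}.ncard ≤ d) → (2 * d + 1) * m ≤ B.card →
      ∃ C ⊆ B, C.card = m ∧ ∀ i ∈ C, ∀ j ∈ C, i ≠ j → ¬ r i j := by
  classical
  induction m with
  | zero =>
    intro B _ _
    exact ⟨∅, Finset.empty_subset _, rfl, by simp⟩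
  | succ m ih =>
    intro B hd hB
    have hout : ∀ i ∈ B, (B.filter (fun j => r i j)).card ≤ d := by
      intro i hi
      have h1 := hd i hi
      rw [← Set.ncard_coe_finset]
      refine le_trans (le_of_eq (congrArg Set.ncard ?_)) h1
      ext j
      simp
    have hBpos : 0 < B.card := by
      have : 0 < (2 * d + 1) * (m + 1) := Nat.mul_pos (by omega) (by omega)
      omega
    -- a vertex of small in-degree
    obtain ⟨j, hj, hjd⟩ : ∃ j ∈ B, (B.filter (fun i => r i j)).card ≤ d := by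
      by_contra hcon
      push Not at hcon
      have h1 : ∑ j ∈ B, d < ∑ j ∈ B, (B.filter (fun i => r i j)).card :=
        Finset.sum_lt_sum_of_nonempty (Finset.card_pos.1 hBpos) hcon
      have h2 : ∑ j ∈ B, (B.filter (fun i => r i j)).card =
          ∑ i ∈ B, (B.filter (fun j => r i j)).card := by
        simp only [Finset.card_filter]
        exact Finset.sum_comm
      have h3 : ∑ i ∈ B, (B.filter (fun j => r i j)).card ≤ ∑ i ∈ B, d :=
        Finset.sum_le_sum hout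
      omega
    set B' := B.filter (fun i => i ≠ j ∧ ¬ r i j ∧ ¬ r j i) with hB'
    have hcov : B ⊆ B' ∪ ({j} ∪ (B.filter (fun i => r i j) ∪ B.filter (fun i => r j i))) := by
      intro i hi
      simp only [hB', Finset.mem_union, Finset.mem_filter, Finset.mem_singleton]
      by_cases h1 : i = j
      · exact Or.inr (Or.inl h1)
      · by_cases h2 : r i j
        · exact Or.inr (Or.inr (Or.inl ⟨hi, h2⟩))
        · by_cases h3 : r j i
          · exact Or.inr (Or.inr (Or.inr ⟨hi, h3⟩))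
          · exact Or.inl ⟨hi, h1, h2, h3⟩
    have h1 := Finset.card_le_card hcov
    have h2 := Finset.card_union_le B'
      ({j} ∪ (B.filter (fun i => r i j) ∪ B.filter (fun i => r j i)))
    have h3 := Finset.card_union_le {j} (B.filter (fun i => r i j) ∪ B.filter (fun i => r j i))
    have h4 := Finset.card_union_le (B.filter (fun i => r i j)) (B.filter (fun i => r j i))
    have h5 := hout j hj
    rw [Finset.card_singleton] at h3
    have h6 : (2 * d + 1) * (m + 1) = (2 * d + 1) * m + (2 * d + 1) := by ring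
    obtain ⟨C, hC, hCm, hCi⟩ := ih B' (by
      intro i hi
      refine le_trans (Set.ncard_le_ncard ?_ ?_) (hd i (Finset.mem_filter.1 hi).1)
      · intro x hx
        exact ⟨(Finset.mem_filter.1 hx.1).1, hx.2⟩
      · exact B.finite_toSet.subset (fun x hx => hx.1)) (by omega)
    have hjC : j ∉ C := fun h => (Finset.mem_filter.1 (hC h)).2.1 rfl
    refine ⟨insert j C, ?_, ?_, ?_⟩
    · refine Finset.insert_subset hj (hC.trans (Finset.filter_subset _ _))
    · rw [Finset.card_insert_of_notMem hjC, hCm]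
    · intro a ha b hb hab
      rw [Finset.mem_insert] at ha hb
      rcases ha with rfl | ha
      · rcases hb with rfl | hb
        · exact absurd rfl hab
        · exact (Finset.mem_filter.1 (hC hb)).2.2.2
      · rcases hb with rfl | hb
        · exact (Finset.mem_filter.1 (hC ha)).2.2.1
        · exact hCi a ha b hb hab

end Mdr

namespace EN

open BIC Gad

variable {α V : Type*} {S : Set α} {ends : α → Sym2 V}

/-- The connector of the columns `x` and `x'` of a page. -/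
def bridge (Pg : ℕ × ℕ → V) (x x' : ℕ) : Set V :=
  Pg '' (Vert x 0 1 ∪ HRow x x' 1 ∪ Vert x' 0 1)

lemma bridge_finite (Pg : ℕ × ℕ → V) (x x' : ℕ) : (bridge Pg x x').Finite :=
  (((vert_finite _ _ _).union (hrow_finite _ _ _)).union (vert_finite _ _ _)).image _

lemma bridge_sub {x x' n : ℕ} (hx : x ≤ x') (hn : 1 ≤ n) :
    Vert x 0 1 ∪ HRow x x' 1 ∪ Vert x' 0 1 ⊆ Reg x x' n := by
  intro c hc
  rw [mem_Reg]
  rcases hc with (hc | hc) | hc
  · rw [mem_Vert] at hc; omega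
  · rw [mem_HRow] at hc; omega
  · rw [mem_Vert] at hc; omega

lemma bridge_conn {Pg : ℕ × ℕ → V} {lo hi n : ℕ} (hP : Page S ends Pg lo hi n) {x x' : ℕ}
    (hlx : lo ≤ x) (hx : x ≤ x') (hxh : x' ≤ hi) (hn : 1 ≤ n) :
    VConn S ends (bridge Pg x x') := by
  unfold bridge
  rw [image_union, image_union]
  refine vc_union (vc_union (hP.vconn_ver hlx (hx.trans hxh) hn)
    (hP.vconn_hor hlx hxh (le_refl _) hn) (c := Pg (x, 1)) ?_ ?_)
    (hP.vconn_ver (hlx.trans hx) hxh hn) (c := Pg (x', 1)) ?_ ?_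
  · exact ⟨(x, 1), vm (by omega) (le_refl _), rfl⟩
  · exact ⟨(x, 1), hm (le_refl _) hx, rfl⟩
  · exact Or.inr ⟨(x', 1), hm hx (le_refl _), rfl⟩
  · exact ⟨(x', 1), vm (by omega) (le_refl _), rfl⟩

lemma mem_bridge_left (Pg : ℕ × ℕ → V) (x x' : ℕ) : Pg (x, 0) ∈ bridge Pg x x' :=
  ⟨(x, 0), Or.inl (Or.inl (vm (le_refl _) (by omega))), rfl⟩

lemma mem_bridge_right (Pg : ℕ × ℕ → V) (x x' : ℕ) : Pg (x', 0) ∈ bridge Pg x x' :=
  ⟨(x', 0), Or.inr (vm (le_refl _) (by omega)), rfl⟩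

/-- Two switches which cannot be used together. -/
def Cfl {κ : Type*} (vt : ℕ → κ) (s s' : ℕ × ℕ) : Prop :=
  (s.1 ≤ s'.2 ∧ s'.1 ≤ s.2) ∨ vt s.1 = vt s'.1 ∨ vt s.1 = vt s'.2 ∨ vt s.2 = vt s'.1 ∨
    vt s.2 = vt s'.2

/-- **Few switches.** -/
theorem switch_le (t N D : ℕ) {ι κ : Type*} (F : Finset ι) (Z : Finset κ) (P : ι → Set V)
    (J : κ → Set V) {Pg : ℕ × ℕ → V} {lo hi n : ℕ} (hPg : Page S ends Pg lo hi n) (hn : 1 ≤ n)
    (hPf : ∀ a ∈ F, (P a).Finite) (hPc : ∀ a ∈ F, VConn S ends (P a))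
    (hJf : ∀ z ∈ Z, (J z).Finite) (hJc : ∀ z ∈ Z, VConn S ends (J z))
    (hPP : ∀ a ∈ F, ∀ b ∈ F, a ≠ b → Disjoint (P a) (P b))
    (hJJ : ∀ z ∈ Z, ∀ z' ∈ Z, z ≠ z' → Disjoint (J z) (J z'))
    (hPJ : ∀ a ∈ F, ∀ z ∈ Z, Disjoint (P a) (J z))
    (hgP : ∀ a ∈ F, ∀ c ∈ Reg lo hi n, Pg c ∉ P a)
    (hgJ : ∀ z ∈ Z, ∀ c ∈ Reg lo hi n, Pg c ∉ J z)
    (vt : ℕ → κ) (lab : ℕ → ι) (Sw : Finset (ℕ × ℕ))
    (hSw : ∀ s ∈ Sw, lo ≤ s.1 ∧ s.1 ≤ s.2 ∧ s.2 ≤ hi)
    (hvt : ∀ s ∈ Sw, vt s.1 ∈ Z ∧ vt s.2 ∈ Z) (hlab : ∀ s ∈ Sw, lab s.1 ∈ F ∧ lab s.2 ∈ F)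
    (hne : ∀ s ∈ Sw, lab s.1 ≠ lab s.2)
    (hl1 : ∀ s ∈ Sw, Lnk S ends (P (lab s.1)) (J (vt s.1)))
    (hl2 : ∀ s ∈ Sw, Lnk S ends (P (lab s.2)) (J (vt s.2)))
    (hg1 : ∀ s ∈ Sw, Lnk S ends (J (vt s.1)) {Pg (s.1, 0)})
    (hg2 : ∀ s ∈ Sw, Lnk S ends (J (vt s.2)) {Pg (s.2, 0)})
    (hD : ∀ s ∈ Sw, {s' | s' ∈ Sw ∧ s ≠ s' ∧ Cfl vt s s'}.ncard ≤ D)
    (hN : ∀ b b' : ι, ∀ T ⊆ Sw, (∀ s ∈ T, lab s.1 = b ∧ lab s.2 = b') →
      (∀ s ∈ T, ∀ s' ∈ T, s ≠ s' → ¬ Cfl vt s s') → T.card ≤ N) :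
    Sw.card < (2 * D + 1) * (N * (Mdr.cst t * F.card) + 1) ∨
      KtModel S ends t (((⋃ a ∈ F, P a) ∪ ⋃ z ∈ Z, J z) ∪ Pg '' Reg lo hi n) := by
  classical
  by_cases hc : Sw.card < (2 * D + 1) * (N * (Mdr.cst t * F.card) + 1)
  · exact Or.inl hc
  right
  push Not at hc
  obtain ⟨C, hCS, hCm, hCi⟩ := Mdr.indep_of_out D (fun s s' => s ≠ s' ∧ Cfl vt s s')
    (N * (Mdr.cst t * F.card) + 1) Sw hD hc
  have hCi' : ∀ s ∈ C, ∀ s' ∈ C, s ≠ s' → ¬ Cfl vt s s' :=
    fun s hs s' hs' hne h => hCi s hs s' hs' hne ⟨hne, h⟩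
  -- the connectors
  set J' : ℕ × ℕ → Set V := fun s => (J (vt s.1) ∪ bridge Pg s.1 s.2) ∪ J (vt s.2) with hJ'
  have hbr : ∀ s ∈ C, bridge Pg s.1 s.2 ⊆ Pg '' Reg lo hi n := by
    intro s hs
    obtain ⟨h1, h2, h3⟩ := hSw s (hCS hs)
    refine image_mono ((bridge_sub h2 hn).trans ?_)
    intro c hc
    rw [mem_Reg] at hc ⊢
    omega
  have hbJ : ∀ s ∈ C, ∀ z ∈ Z, Disjoint (bridge Pg s.1 s.2) (J z) := by
    intro s hs z hz
    rw [Set.disjoint_left]
    intro v hv hvJ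
    obtain ⟨c, hc, rfl⟩ := hbr s hs hv
    exact hgJ z hz c hc hvJ
  have hbP : ∀ s ∈ C, ∀ a ∈ F, Disjoint (P a) (bridge Pg s.1 s.2) := by
    intro s hs a ha
    rw [Set.disjoint_right]
    intro v hv hvJ
    obtain ⟨c, hc, rfl⟩ := hbr s hs hv
    exact hgP a ha c hc hvJ
  rcases bip_mult t N F C P J' hPf hPc (by
      intro s hs
      exact ((hJf _ (hvt s (hCS hs)).1).union (bridge_finite _ _ _)).union
        (hJf _ (hvt s (hCS hs)).2))
    (by
      intro s hs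
      obtain ⟨h1, h2, h3⟩ := hSw s (hCS hs)
      refine vc_lnk (vc_lnk (hJc _ (hvt s (hCS hs)).1) (bridge_conn hPg h1 h2 h3 hn)
        ((hg1 s (hCS hs)).mono (subset_refl _) (subset_refl _)
          (singleton_subset_iff.2 (mem_bridge_left _ _ _)))) (hJc _ (hvt s (hCS hs)).2) ?_
      exact (hg2 s (hCS hs)).symm.mono (subset_refl _)
        (singleton_subset_iff.2 (Or.inr (mem_bridge_right _ _ _))) (subset_refl _))
    hPP
    (by
      intro s hs s' hs' hne'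
      have h1 := hCi' s hs s' hs' hne'
      unfold Cfl at h1
      push Not at h1
      obtain ⟨h2, h3, h4, h5, h6⟩ := h1
      have hv := hvt s (hCS hs)
      have hv' := hvt s' (hCS hs')
      have hb : Disjoint (bridge Pg s.1 s.2) (bridge Pg s'.1 s'.2) := by
        obtain ⟨h7, h8, h9⟩ := hSw s (hCS hs)
        obtain ⟨h10, h11, h12⟩ := hSw s' (hCS hs')
        refine hPg.disj ((bridge_sub h8 hn).trans ?_) ((bridge_sub h11 hn).trans ?_) ?_
        · intro c hc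
          rw [mem_Reg] at hc ⊢
          omega
        · intro c hc
          rw [mem_Reg] at hc ⊢
          omega
        · intro c hc hc'
          have h13 := bridge_sub h8 hn hc
          have h14 := bridge_sub h11 hn hc'
          rw [mem_Reg] at h13 h14
          have h15 := h2 (by omega)
          omega
      simp only [hJ']
      rw [Set.disjoint_union_left, Set.disjoint_union_left, Set.disjoint_union_right,
        Set.disjoint_union_right, Set.disjoint_union_right, Set.disjoint_union_right,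
        Set.disjoint_union_right, Set.disjoint_union_right]
      exact ⟨⟨⟨⟨hJJ _ hv.1 _ hv'.1 h3, (hbJ s' hs' _ hv.1).symm⟩, hJJ _ hv.1 _ hv'.2 h4⟩,
        ⟨⟨hbJ s hs _ hv'.1, hb⟩, hbJ s hs _ hv'.2⟩⟩,
        ⟨⟨hJJ _ hv.2 _ hv'.1 h5, (hbJ s' hs' _ hv.2).symm⟩, hJJ _ hv.2 _ hv'.2 h6⟩⟩)
    (by
      intro a ha s hs
      simp only [hJ']
      rw [Set.disjoint_union_right, Set.disjoint_union_right]
      exact ⟨⟨hPJ a ha _ (hvt s (hCS hs)).1, hbP s hs a ha⟩, hPJ a ha _ (hvt s (hCS hs)).2⟩)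
    (fun s => (lab s.1, lab s.2)) (fun s hs => (hlab s (hCS hs)).1)
    (fun s hs => (hlab s (hCS hs)).2) (fun s hs => hne s (hCS hs))
    (fun s hs => (hl1 s (hCS hs)).mono (subset_refl _) (subset_refl _)
      (subset_union_left.trans subset_union_left))
    (fun s hs => (hl2 s (hCS hs)).mono (subset_refl _) (subset_refl _) subset_union_right)
    (by
      intro p
      have h1 : {s | s ∈ C ∧ (lab s.1, lab s.2) = p}.ncard =
          (C.filter (fun s => (lab s.1, lab s.2) = p)).card := by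
        rw [← Set.ncard_coe_finset]
        refine congrArg Set.ncard ?_
        ext s
        simp
      rw [h1]
      refine hN p.1 p.2 _ ((Finset.filter_subset _ _).trans hCS) ?_ ?_
      · intro s hs
        have h2 := (Finset.mem_filter.1 hs).2
        exact ⟨by rw [← h2], by rw [← h2]⟩
      · intro s hs s' hs'
        exact hCi' s (Finset.mem_filter.1 hs).1 s' (Finset.mem_filter.1 hs').1) with h | h
  · omega
  · refine h.mono ?_
    refine union_subset (subset_union_left.trans subset_union_left) ?_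
    refine Set.iUnion₂_subset ?_
    intro s hs
    have hs := Finset.mem_coe.1 hs
    refine union_subset (union_subset ?_ ?_) ?_
    · exact (Set.subset_biUnion_of_mem (u := J) (Finset.mem_coe.2 (hvt s (hCS hs)).1)).trans
        (subset_union_right.trans subset_union_left)
    · exact (hbr s hs).trans subset_union_right
    · exact (Set.subset_biUnion_of_mem (u := J) (Finset.mem_coe.2 (hvt s (hCS hs)).2)).trans
        (subset_union_right.trans subset_union_left)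

/-- Consecutive switches have few conflicts. -/
lemma cfl_le {κ : Type*} (vt : ℕ → κ) (d : ℕ) (Sw : Finset (ℕ × ℕ)) (hint : ∀ s ∈ Sw, s.1 < s.2)
    (hdis : ∀ s ∈ Sw, ∀ s' ∈ Sw, s ≠ s' → s.2 ≤ s'.1 ∨ s'.2 ≤ s.1)
    (hd : ∀ k : κ, {y | (∃ s ∈ Sw, y = s.1 ∨ y = s.2) ∧ vt y = k}.ncard ≤ d) :
    ∀ s ∈ Sw, {s' | s' ∈ Sw ∧ s ≠ s' ∧ Cfl vt s s'}.ncard ≤ 2 + 4 * d := by
  classical
  intro s hs
  have hSf : (Sw : Set (ℕ × ℕ)).Finite := Sw.finite_toSet
  -- left ends and right ends determine the switch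
  have h1inj : ∀ a ∈ Sw, ∀ b ∈ Sw, a.1 = b.1 → a = b := by
    intro a ha b hb h
    by_contra hne
    have h1 := hint a ha
    have h2 := hint b hb
    rcases hdis a ha b hb hne with h3 | h3 <;> omega
  have h2inj : ∀ a ∈ Sw, ∀ b ∈ Sw, a.2 = b.2 → a = b := by
    intro a ha b hb h
    by_contra hne
    have h1 := hint a ha
    have h2 := hint b hb
    rcases hdis a ha b hb hne with h3 | h3 <;> omega
  have hYf : ∀ k : κ, {y | (∃ s ∈ Sw, y = s.1 ∨ y = s.2) ∧ vt y = k}.Finite := by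
    intro k
    refine ((Sw.image Prod.fst ∪ Sw.image Prod.snd).finite_toSet).subset ?_
    rintro y ⟨⟨a, ha, h⟩, _⟩
    rw [Finset.mem_coe, Finset.mem_union]
    rcases h with rfl | rfl
    · exact Or.inl (Finset.mem_image_of_mem _ ha)
    · exact Or.inr (Finset.mem_image_of_mem _ ha)
  have hA : {s' | s' ∈ Sw ∧ s'.1 = s.2}.ncard ≤ 1 := by
    rw [Set.ncard_le_one (hSf.subset (fun x hx => hx.1))]
    rintro a ⟨ha, h⟩ b ⟨hb, h'⟩
    exact h1inj a ha b hb (h.trans h'.symm)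
  have hB : {s' | s' ∈ Sw ∧ s'.2 = s.1}.ncard ≤ 1 := by
    rw [Set.ncard_le_one (hSf.subset (fun x hx => hx.1))]
    rintro a ⟨ha, h⟩ b ⟨hb, h'⟩
    exact h2inj a ha b hb (h.trans h'.symm)
  have hC : ∀ k : κ, {s' | s' ∈ Sw ∧ vt s'.1 = k}.ncard ≤ d := by
    intro k
    refine le_trans ?_ (hd k)
    refine Set.ncard_le_ncard_of_injOn Prod.fst ?_ ?_ (hYf k)
    · rintro a ⟨ha, h⟩
      exact ⟨⟨a, ha, Or.inl rfl⟩, h⟩
    · rintro a ⟨ha, _⟩ b ⟨hb, _⟩ h
      exact h1inj a ha b hb h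
  have hE : ∀ k : κ, {s' | s' ∈ Sw ∧ vt s'.2 = k}.ncard ≤ d := by
    intro k
    refine le_trans ?_ (hd k)
    refine Set.ncard_le_ncard_of_injOn Prod.snd ?_ ?_ (hYf k)
    · rintro a ⟨ha, h⟩
      exact ⟨⟨a, ha, Or.inr rfl⟩, h⟩
    · rintro a ⟨ha, _⟩ b ⟨hb, _⟩ h
      exact h2inj a ha b hb h
  have hsub : {s' | s' ∈ Sw ∧ s ≠ s' ∧ Cfl vt s s'} ⊆
      ({s' | s' ∈ Sw ∧ s'.1 = s.2} ∪ {s' | s' ∈ Sw ∧ s'.2 = s.1}) ∪
      (({s' | s' ∈ Sw ∧ vt s'.1 = vt s.1} ∪ {s' | s' ∈ Sw ∧ vt s'.2 = vt s.1}) ∪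
      ({s' | s' ∈ Sw ∧ vt s'.1 = vt s.2} ∪ {s' | s' ∈ Sw ∧ vt s'.2 = vt s.2})) := by
    rintro a ⟨ha, hne, h | h | h | h | h⟩
    · left
      have h1 := hint a ha
      have h2 := hint s hs
      rcases hdis s hs a ha hne with h3 | h3
      · exact Or.inl ⟨ha, by omega⟩
      · exact Or.inr ⟨ha, by omega⟩
    · exact Or.inr (Or.inl (Or.inl ⟨ha, h.symm⟩))
    · exact Or.inr (Or.inl (Or.inr ⟨ha, h.symm⟩))
    · exact Or.inr (Or.inr (Or.inl ⟨ha, h.symm⟩))
    · exact Or.inr (Or.inr (Or.inr ⟨ha, h.symm⟩))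
  have hfin : ∀ p : ℕ × ℕ → Prop, {s' | s' ∈ Sw ∧ p s'}.Finite :=
    fun p => hSf.subset (fun x hx => hx.1)
  have h1 := Set.ncard_le_ncard hsub (((hfin _).union (hfin _)).union
    (((hfin _).union (hfin _)).union ((hfin _).union (hfin _))))
  have h2 := Set.ncard_union_le ({s' | s' ∈ Sw ∧ s'.1 = s.2} ∪ {s' | s' ∈ Sw ∧ s'.2 = s.1})
    (({s' | s' ∈ Sw ∧ vt s'.1 = vt s.1} ∪ {s' | s' ∈ Sw ∧ vt s'.2 = vt s.1}) ∪
      ({s' | s' ∈ Sw ∧ vt s'.1 = vt s.2} ∪ {s' | s' ∈ Sw ∧ vt s'.2 = vt s.2}))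
  have h3 := Set.ncard_union_le {s' | s' ∈ Sw ∧ s'.1 = s.2} {s' | s' ∈ Sw ∧ s'.2 = s.1}
  have h4 := Set.ncard_union_le
    ({s' | s' ∈ Sw ∧ vt s'.1 = vt s.1} ∪ {s' | s' ∈ Sw ∧ vt s'.2 = vt s.1})
    ({s' | s' ∈ Sw ∧ vt s'.1 = vt s.2} ∪ {s' | s' ∈ Sw ∧ vt s'.2 = vt s.2})
  have h5 := Set.ncard_union_le {s' | s' ∈ Sw ∧ vt s'.1 = vt s.1}
    {s' | s' ∈ Sw ∧ vt s'.2 = vt s.1}
  have h6 := Set.ncard_union_le {s' | s' ∈ Sw ∧ vt s'.1 = vt s.2}
    {s' | s' ∈ Sw ∧ vt s'.2 = vt s.2}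
  have h7 := hC (vt s.1)
  have h8 := hC (vt s.2)
  have h9 := hE (vt s.1)
  have h10 := hE (vt s.2)
  omega

end EN
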