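import Pool.Agent.EN.StripDefs
import Pool.Agent.EN.Switch

/-!
# Counting: pieces, runs and windows (module II.3 of T-star, row T5; helper45)

`Mdr.pairs_bound`: pieces and connectors (the relation version of `EN.bip_mult`).
`EN.Sys.window`: among linearly many disjoint intervals there is a window of `g + 1` consecutive
ones inside a run whose links end in boundedly many runs.
-/

open Finset

namespace Mdr

variable {T : Type*} [DecidableEq T]

/-- A connected set with connected sets linked to it. -/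
lemma Cn.add {r : T → T → Prop} {A : Finset T} (hA : Cn r A) {ζ : Type*} [DecidableEq ζ]
    (Z : Finset ζ) (J : ζ → Finset T) (hJ : ∀ z ∈ Z, Cn r (J z)) (hl : ∀ z ∈ Z, Lk r A (J z)) :
    Cn r (A ∪ Z.biUnion J) := by
  induction Z using Finset.induction_on with
  | empty => simpa using hA
  | insert z Z _ ih =>
    have h1 := ih (fun w hw => hJ w (Finset.mem_insert_of_mem hw))
      (fun w hw => hl w (Finset.mem_insert_of_mem hw))
    have h2 : A ∪ (insert z Z).biUnion J = (A ∪ Z.biUnion J) ∪ J z := by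
      rw [Finset.biUnion_insert, Finset.union_comm (J z), Finset.union_assoc]
    rw [h2]
    exact Cn.join h1 (hJ z (Finset.mem_insert_self _ _))
      ((hl z (Finset.mem_insert_self _ _)).mono Finset.subset_union_left (Finset.Subset.refl _))

/-- **Pieces and connectors.** -/
theorem pairs_bound {ι ζ : Type*} [DecidableEq ι] [DecidableEq ζ] {r : T → T → Prop}
    (hr : ∀ a b, r a b → r b a) (t N : ℕ) (F : Finset ι) (Z : Finset ζ) (P : ι → Finset T)
    (J : ζ → Finset T) (hPc : ∀ a ∈ F, Cn r (P a)) (hJc : ∀ z ∈ Z, Cn r (J z))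
    (hPP : ∀ a ∈ F, ∀ b ∈ F, a ≠ b → Disjoint (P a) (P b))
    (hJJ : ∀ z ∈ Z, ∀ z' ∈ Z, z ≠ z' → Disjoint (J z) (J z'))
    (hPJ : ∀ a ∈ F, ∀ z ∈ Z, Disjoint (P a) (J z))
    (pr : ζ → ι × ι) (h1F : ∀ z ∈ Z, (pr z).1 ∈ F) (h2F : ∀ z ∈ Z, (pr z).2 ∈ F)
    (hne : ∀ z ∈ Z, (pr z).1 ≠ (pr z).2)
    (h1l : ∀ z ∈ Z, Lk r (P (pr z).1) (J z)) (h2l : ∀ z ∈ Z, Lk r (P (pr z).2) (J z))
    (hN : ∀ p : ι × ι, (Z.filter (fun z => pr z = p)).card ≤ N) :
    Z.card ≤ N * (cst t * F.card) ∨
      ∃ K : Fin t → Finset T, (∀ i, Cn r (K i)) ∧ (∀ i j, i ≠ j → Disjoint (K i) (K j)) ∧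
        (∀ i j, i ≠ j → Lk r (K i) (K j)) ∧ ∀ i, K i ⊆ F.biUnion P ∪ Z.biUnion J := by
  classical
  rcases F.eq_empty_or_nonempty with rfl | hF
  · left
    have h0 : Z = ∅ := by
      rw [Finset.eq_empty_iff_forall_notMem]
      intro z hz
      exact absurd (h1F z hz) (Finset.notMem_empty _)
    rw [h0]
    simp
  by_cases hcard : Z.card ≤ N * (cst t * F.card)
  · exact Or.inl hcard
  right
  push Not at hcard
  set A : ι → Finset T := fun a => P a ∪ (Z.filter (fun z => (pr z).1 = a)).biUnion J with hA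
  have hPA : ∀ a, P a ⊆ A a := fun a => Finset.subset_union_left
  have hmem : ∀ a x, x ∈ A a ↔ x ∈ P a ∨ ∃ z ∈ Z, (pr z).1 = a ∧ x ∈ J z := by
    intro a x
    simp only [hA, Finset.mem_union, Finset.mem_biUnion, Finset.mem_filter]
    constructor
    · rintro (h | ⟨z, ⟨h1, h2⟩, h3⟩)
      · exact Or.inl h
      · exact Or.inr ⟨z, h1, h2, h3⟩
    · rintro (h | ⟨z, h1, h2, h3⟩)
      · exact Or.inl h
      · exact Or.inr ⟨z, ⟨h1, h2⟩, h3⟩
  have hAc : ∀ a ∈ F, Cn r (A a) := by
    intro a ha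
    refine (hPc a ha).add _ _ ?_ ?_
    · intro z hz
      exact hJc z (Finset.mem_filter.1 hz).1
    · intro z hz
      obtain ⟨h1, h2⟩ := Finset.mem_filter.1 hz
      have h3 := h1l z h1
      rwa [h2] at h3
  have hAd : ∀ a ∈ F, ∀ b ∈ F, a ≠ b → Disjoint (A a) (A b) := by
    intro a ha b hb hab
    rw [Finset.disjoint_left]
    intro x hx hx'
    rcases (hmem a x).1 hx with h1 | ⟨z, hz, hza, h1⟩
    · rcases (hmem b x).1 hx' with h2 | ⟨z', hz', hzb, h2⟩
      · exact Finset.disjoint_left.1 (hPP a ha b hb hab) h1 h2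
      · exact Finset.disjoint_left.1 (hPJ a ha z' hz') h1 h2
    · rcases (hmem b x).1 hx' with h2 | ⟨z', hz', hzb, h2⟩
      · exact Finset.disjoint_left.1 (hPJ b hb z hz) h2 h1
      · by_cases hzz : z = z'
        · subst hzz
          exact hab (hza.symm.trans hzb)
        · exact Finset.disjoint_left.1 (hJJ z hz z' hz' hzz) h1 h2
  have hAinj : ∀ a ∈ F, ∀ b ∈ F, A a = A b → a = b := by
    intro a ha b hb hab
    by_contra hne'
    have h1 := hAd a ha b hb hne'
    rw [← hab] at h1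
    obtain ⟨x, hx⟩ := (hAc a ha).nonempty
    exact Finset.disjoint_left.1 h1 hx hx
  have hcA : (F.image A).card = F.card :=
    Finset.card_image_of_injOn (fun a ha b hb h => hAinj a ha b hb h)
  have hpairs : Z.card ≤ N * (prs r (F.image A)).card := by
    set q : ζ → Finset T × Finset T := fun z => (A (pr z).1, A (pr z).2) with hq
    have h1 : Z.card ≤ N * (Z.image q).card := by
      refine Finset.card_le_mul_card_image _ N ?_
      intro p hp
      obtain ⟨z₀, hz₀, rfl⟩ := Finset.mem_image.1 hp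
      refine le_trans (Finset.card_le_card ?_) (hN (pr z₀))
      intro z hz
      obtain ⟨hz1, hz2⟩ := Finset.mem_filter.1 hz
      refine Finset.mem_filter.2 ⟨hz1, ?_⟩
      have e1 := congrArg Prod.fst hz2
      have e2 := congrArg Prod.snd hz2
      exact Prod.ext (hAinj _ (h1F z hz1) _ (h1F z₀ hz₀) e1)
        (hAinj _ (h2F z hz1) _ (h2F z₀ hz₀) e2)
    refine h1.trans (Nat.mul_le_mul_left _ (Finset.card_le_card ?_))
    intro p hp
    obtain ⟨z, hz, rfl⟩ := Finset.mem_image.1 hp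
    unfold prs
    rw [Finset.mem_filter, Finset.mem_product]
    refine ⟨⟨Finset.mem_image_of_mem _ (h1F z hz), Finset.mem_image_of_mem _ (h2F z hz)⟩,
      fun h => hne z hz (hAinj _ (h1F z hz) _ (h2F z hz) h), ?_⟩
    have h3 : Lk r (J z) (P (pr z).2) := (h2l z hz).symm hr
    refine h3.mono ?_ (hPA _)
    intro x hx
    exact (hmem _ _).2 (Or.inr ⟨z, hz, rfl, hx⟩)
  obtain ⟨K, hK⟩ := mader hr t (F.image A) (hF.image A)
    (by
      intro X hX
      obtain ⟨a, ha, rfl⟩ := Finset.mem_image.1 hX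
      exact hAc a ha)
    (by
      intro X hX X' hX' hXX
      obtain ⟨a, ha, rfl⟩ := Finset.mem_image.1 hX
      obtain ⟨b, hb, rfl⟩ := Finset.mem_image.1 hX'
      exact hAd a ha b hb (fun h => hXX (by rw [h])))
    (by
      rw [hcA]
      by_contra hlt
      push Not at hlt
      have h1 : N * (prs r (F.image A)).card ≤ N * (cst t * F.card) :=
        Nat.mul_le_mul_left _ hlt.le
      omega)
  refine ⟨K, hK.cn, hK.dis, hK.lk, fun i x hx => ?_⟩
  obtain ⟨X, hX, hxX⟩ := Finset.mem_biUnion.1 (hK.sub i hx)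
  obtain ⟨a, ha, rfl⟩ := Finset.mem_image.1 hX
  rcases (hmem a x).1 hxX with h | ⟨z, hz, _, h⟩
  · exact Finset.mem_union_left _ (Finset.mem_biUnion.2 ⟨a, ha, h⟩)
  · exact Finset.mem_union_right _ (Finset.mem_biUnion.2 ⟨z, hz, h⟩)

end Mdr

namespace EN

namespace Sys

variable {κ : Type*} {Y : Sys κ} {D : ℕ}

open scoped Classical in
/-- The ports at `k` or at a contact of `k`. -/
noncomputable def nbp (Y : Sys κ) (k : κ) : Finset ℕ :=
  (Finset.range Y.L).filter (fun z => Y.own z = k ∨ Y.ct k (Y.own z))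

lemma mem_nbp {k : κ} {z : ℕ} : z ∈ Y.nbp k ↔ z < Y.L ∧ (Y.own z = k ∨ Y.ct k (Y.own z)) := by
  classical
  unfold nbp
  rw [Finset.mem_filter, Finset.mem_range]

lemma Ax.card_nbp (h : Y.Ax D) (k : κ) : (Y.nbp k).card ≤ D + D * D := by
  classical
  set A := (Finset.range Y.L).filter (fun z => Y.own z = k) with hA
  set B := (Finset.range Y.L).filter (fun z => Y.ct k (Y.own z)) with hB
  have h1 : Y.nbp k ⊆ A ∪ B := by
    intro z hz
    rw [mem_nbp] at hz
    obtain ⟨h1, h2 | h2⟩ := hz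
    · exact Finset.mem_union_left _ (Finset.mem_filter.2 ⟨Finset.mem_range.2 h1, h2⟩)
    · exact Finset.mem_union_right _ (Finset.mem_filter.2 ⟨Finset.mem_range.2 h1, h2⟩)
  have h2 : A.card ≤ D := h.a5 k A (fun x hx => by
    obtain ⟨h2, h3⟩ := Finset.mem_filter.1 hx
    exact ⟨Finset.mem_range.1 h2, h3⟩)
  have h3 : B.card ≤ D * (B.image Y.own).card := by
    refine Finset.card_le_mul_card_image _ D (fun k' hk' => h.a5 k' _ (fun x hx => ?_))
    obtain ⟨h4, h5⟩ := Finset.mem_filter.1 hx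
    exact ⟨Finset.mem_range.1 (Finset.mem_filter.1 h4).1, h5⟩
  have h4 : (B.image Y.own).card ≤ D := h.a6 k _ (fun k' hk' => by
    obtain ⟨z, hz, rfl⟩ := Finset.mem_image.1 hk'
    exact (Finset.mem_filter.1 hz).2)
  have h5 := Finset.card_le_card h1
  have h6 := Finset.card_union_le A B
  have h7 : D * (B.image Y.own).card ≤ D * D := Nat.mul_le_mul_left _ h4
  omega

lemma Lk.symm (h : Y.Ax D) {x y : ℕ} (hxy : Y.Lk x y) : Y.Lk y x := by
  obtain ⟨h1, h2, h3, h4⟩ := hxy
  refine ⟨h2, h1, h3.symm, ?_⟩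
  rcases h4 with h4 | h4
  · exact Or.inl h4.symm
  · exact Or.inr (h.symm _ _ h4)

lemma Lk.nbp_left {x y : ℕ} (hxy : Y.Lk x y) : x ∈ Y.nbp (Y.own x) ∧ y ∈ Y.nbp (Y.own x) := by
  obtain ⟨h1, h2, h3, h4⟩ := hxy
  refine ⟨mem_nbp.2 ⟨h1, Or.inl rfl⟩, mem_nbp.2 ⟨h2, ?_⟩⟩
  rcases h4 with h4 | h4
  · exact Or.inl h4.symm
  · exact Or.inr h4

lemma Lk.nbp_right (h : Y.Ax D) {x y : ℕ} (hxy : Y.Lk x y) :
    x ∈ Y.nbp (Y.own y) ∧ y ∈ Y.nbp (Y.own y) :=
  (hxy.symm h).nbp_left.symm

/-- Pieces: intervals of the line, each inside a shore. -/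
structure Pcs (Y : Sys κ) (pc : ℕ → ℕ) : Prop where
  mono : ∀ x y, x ≤ y → y < Y.L → pc x ≤ pc y
  sh : ∀ x y, x < Y.L → y < Y.L → pc x = pc y → Y.sh x = Y.sh y

/-- The vertices of an interval of ports. -/
noncomputable def pts (κ : Type*) (a b : ℕ) : Finset (ℕ ⊕ κ) :=
  (Finset.Icc a b).map ⟨Sum.inl, Sum.inl_injective⟩

lemma mem_pts {a b : ℕ} {x : ℕ ⊕ κ} : x ∈ pts κ a b ↔ ∃ z, a ≤ z ∧ z ≤ b ∧ x = Sum.inl z := by
  unfold pts
  rw [Finset.mem_map]
  constructor
  · rintro ⟨z, hz, rfl⟩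
    rw [Finset.mem_Icc] at hz
    exact ⟨z, hz.1, hz.2, rfl⟩
  · rintro ⟨z, h1, h2, rfl⟩
    exact ⟨z, Finset.mem_Icc.2 ⟨h1, h2⟩, rfl⟩

open scoped Classical in
lemma cn_pts {a b : ℕ} (hab : a ≤ b) (hb : b < Y.L)
    (hs : ∀ x, a ≤ x → x ≤ b → Y.sh x = Y.sh a) : Mdr.Cn Y.adj (pts κ a b) := by
  induction b, hab using Nat.le_induction with
  | base =>
    have h1 : pts κ a a = {Sum.inl a} := by
      ext x
      rw [mem_pts, Finset.mem_singleton]
      constructor
      · rintro ⟨z, h1, h2, rfl⟩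
        have : z = a := by omega
        rw [this]
      · rintro rfl
        exact ⟨a, le_rfl, le_rfl, rfl⟩
    rw [h1]
    exact Mdr.Cn.single _
  | succ b hab ih =>
    have h1 : pts κ a (b + 1) = pts κ a b ∪ {Sum.inl (b + 1)} := by
      ext x
      rw [Finset.mem_union, mem_pts, mem_pts, Finset.mem_singleton]
      constructor
      · rintro ⟨z, h1, h2, rfl⟩
        by_cases h3 : z ≤ b
        · exact Or.inl ⟨z, h1, h3, rfl⟩
        · have : z = b + 1 := by omega
          rw [this]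
          exact Or.inr rfl
      · rintro (⟨z, h1, h2, rfl⟩ | rfl)
        · exact ⟨z, h1, by omega, rfl⟩
        · exact ⟨b + 1, by omega, le_rfl, rfl⟩
    rw [h1]
    refine Mdr.Cn.join (ih (by omega) (fun x h2 h3 => hs x h2 (by omega))) (Mdr.Cn.single _)
      ⟨Sum.inl b, mem_pts.2 ⟨b, hab, le_rfl, rfl⟩, Sum.inl (b + 1), Finset.mem_singleton_self _, ?_⟩
    show b < Y.L ∧ b + 1 < Y.L ∧ Y.sh b = Y.sh (b + 1) ∧ (b = (b + 1) + 1 ∨ b + 1 = b + 1)
    refine ⟨by omega, hb, ?_, Or.inr rfl⟩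
    rw [hs b hab (by omega), hs (b + 1) (by omega) le_rfl]

open scoped Classical in
/-- The vertices of a piece. -/
noncomputable def pvs (Y : Sys κ) (pc : ℕ → ℕ) (a : ℕ) : Finset (ℕ ⊕ κ) :=
  ((Finset.range Y.L).filter (fun x => pc x = a)).map ⟨Sum.inl, Sum.inl_injective⟩

lemma mem_pvs {pc : ℕ → ℕ} {a : ℕ} {x : ℕ ⊕ κ} :
    x ∈ pvs Y pc a ↔ ∃ z, z < Y.L ∧ pc z = a ∧ x = Sum.inl z := by
  classical
  unfold pvs
  rw [Finset.mem_map]
  constructor
  · rintro ⟨z, hz, rfl⟩
    rw [Finset.mem_filter, Finset.mem_range] at hz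
    exact ⟨z, hz.1, hz.2, rfl⟩
  · rintro ⟨z, h1, h2, rfl⟩
    exact ⟨z, Finset.mem_filter.2 ⟨Finset.mem_range.2 h1, h2⟩, rfl⟩

open scoped Classical in
/-- The pieces. -/
noncomputable def pcs (Y : Sys κ) (pc : ℕ → ℕ) : Finset ℕ := (Finset.range Y.L).image pc

lemma mem_pcs {pc : ℕ → ℕ} {a : ℕ} : a ∈ pcs Y pc ↔ ∃ z, z < Y.L ∧ pc z = a := by
  classical
  unfold pcs
  rw [Finset.mem_image]
  constructor
  · rintro ⟨z, hz, rfl⟩
    exact ⟨z, Finset.mem_range.1 hz, rfl⟩
  · rintro ⟨z, h1, rfl⟩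
    exact ⟨z, Finset.mem_range.2 h1, rfl⟩

open scoped Classical in
lemma Pcs.cn_pvs {pc : ℕ → ℕ} (hp : Y.Pcs pc) {a : ℕ} (ha : a ∈ pcs Y pc) :
    Mdr.Cn Y.adj (pvs Y pc a) := by
  set A := (Finset.range Y.L).filter (fun x => pc x = a) with hA
  have hne : A.Nonempty := by
    obtain ⟨z, h1, h2⟩ := mem_pcs.1 ha
    exact ⟨z, Finset.mem_filter.2 ⟨Finset.mem_range.2 h1, h2⟩⟩
  have hmin := Finset.mem_filter.1 (A.min'_mem hne)
  have hmax := Finset.mem_filter.1 (A.max'_mem hne)
  rw [Finset.mem_range] at hmin hmax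
  have h1 : pvs Y pc a = pts κ (A.min' hne) (A.max' hne) := by
    ext x
    rw [mem_pvs, mem_pts]
    constructor
    · rintro ⟨z, h1, h2, rfl⟩
      have h3 : z ∈ A := Finset.mem_filter.2 ⟨Finset.mem_range.2 h1, h2⟩
      exact ⟨z, A.min'_le z h3, A.le_max' z h3, rfl⟩
    · rintro ⟨z, h1, h2, rfl⟩
      have h3 : z < Y.L := by omega
      have h4 := hp.mono _ _ h1 h3
      have h5 := hp.mono _ _ h2 hmax.1
      exact ⟨z, h3, by omega, rfl⟩
  rw [h1]
  refine cn_pts (A.min'_le _ (A.max'_mem hne)) hmax.1 (fun x h2 h3 => ?_)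
  have h4 : x < Y.L := by omega
  have h5 := hp.mono _ _ h2 h4
  have h6 := hp.mono _ _ h3 hmax.1
  exact hp.sh _ _ h4 hmin.1 (by omega)

lemma pvs_disj {pc : ℕ → ℕ} {a b : ℕ} (hab : a ≠ b) : Disjoint (pvs Y pc a) (pvs Y pc b) := by
  rw [Finset.disjoint_left]
  intro x hx hx'
  obtain ⟨z, _, h1, rfl⟩ := mem_pvs.1 hx
  obtain ⟨z', _, h2, h3⟩ := mem_pvs.1 hx'
  have h4 : z = z' := Sum.inl_injective h3
  subst h4
  exact hab (h1.symm.trans h2)

lemma Ax.adj_symm (h : Y.Ax D) (a b : ℕ ⊕ κ) (hab : Y.adj a b) : Y.adj b a := by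
  rcases a with x | k <;> rcases b with y | k'
  · obtain ⟨h1, h2, h3, h4⟩ := hab
    exact ⟨h2, h1, h3.symm, h4.symm⟩
  · exact hab
  · exact hab
  · exact h.symm _ _ hab

/-- linked pieces -/
def lkp (Y : Sys κ) (pc : ℕ → ℕ) (a b : ℕ) : Prop := ∃ x y, Y.Lk x y ∧ pc x = a ∧ pc y = b

open scoped Classical in
/-- the ordered pairs of linked pieces -/
noncomputable def prp (Y : Sys κ) (pc : ℕ → ℕ) : Finset (ℕ × ℕ) :=
  (pcs Y pc ×ˢ pcs Y pc).filter (fun p => p.1 ≠ p.2 ∧ Y.lkp pc p.1 p.2)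

/-- a model gives `KT` -/
lemma kt_of {t : ℕ} [DecidableEq (ℕ ⊕ κ)] {W : Finset (ℕ ⊕ κ)}
    (hW : ∀ x, Sum.inl x ∈ W → x < Y.L)
    (h : ∃ K : Fin t → Finset (ℕ ⊕ κ), (∀ i, Mdr.Cn Y.adj (K i)) ∧
      (∀ i j, i ≠ j → Disjoint (K i) (K j)) ∧ (∀ i j, i ≠ j → Mdr.Lk Y.adj (K i) (K j)) ∧
      ∀ i, K i ⊆ W) : Y.KT t := by
  obtain ⟨K, h1, h2, h3, h4⟩ := h
  refine ⟨K, ?_, h2, h3, fun i x hx => hW x (h4 i hx)⟩
  intro i
  have e : ∀ d d' : DecidableEq (ℕ ⊕ κ), @Mdr.Cn _ d Y.adj (K i) → @Mdr.Cn _ d' Y.adj (K i) := by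
    intro d d' hh
    rw [Subsingleton.elim d' d]
    exact hh
  exact e _ _ (h1 i)

open scoped Classical in
/-- **Few pairs of linked pieces.** -/
theorem Ax.card_prp (h : Y.Ax D) {pc : ℕ → ℕ} (hp : Y.Pcs pc) {t : ℕ} (hK : ¬ Y.KT t) :
    (prp Y pc).card ≤ (2 * (2 * ((D + D * D) * (D + D * D))) + 1) *
      (Mdr.cst t * (pcs Y pc).card + 1) := by
  set d := 2 * ((D + D * D) * (D + D * D)) with hd
  by_contra hcon
  push Not at hcon
  -- one link for every pair
  have hch : ∀ p : ℕ × ℕ, ∃ l : ℕ × ℕ, p ∈ prp Y pc → Y.Lk l.1 l.2 ∧ pc l.1 = p.1 ∧ pc l.2 = p.2 := by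
    intro p
    by_cases hpp : p ∈ prp Y pc
    · obtain ⟨_, _, x, y, h1, h2, h3⟩ := Finset.mem_filter.1 hpp
      exact ⟨(x, y), fun _ => ⟨h1, h2, h3⟩⟩
    · exact ⟨(0, 0), fun h => absurd h hpp⟩
  choose l hl using hch
  have hlinj : ∀ p ∈ prp Y pc, ∀ q ∈ prp Y pc, l p = l q → p = q := by
    intro p hp1 q hq e
    have h1 := hl p hp1
    have h2 := hl q hq
    rw [e] at h1
    exact Prod.ext (h1.2.1.symm.trans h2.2.1) (h1.2.2.symm.trans h2.2.2)
  set own2 : ℕ × ℕ → Finset κ := fun p => {Y.own (l p).1, Y.own (l p).2} with hown2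
  obtain ⟨C, hC, hCm, hCi⟩ := Mdr.indep_of_out d
    (fun p q => p ≠ q ∧ ¬ Disjoint (own2 p) (own2 q)) (Mdr.cst t * (pcs Y pc).card + 1)
    (prp Y pc) (by
      intro p hpp
      have h1 : {q | q ∈ prp Y pc ∧ p ≠ q ∧ ¬ Disjoint (own2 p) (own2 q)} ⊆
          ↑((prp Y pc).filter (fun q => l q ∈ (own2 p).biUnion
            (fun k => Y.nbp k ×ˢ Y.nbp k))) := by
        rintro q ⟨hq, _, hdis⟩
        rw [Finset.mem_coe, Finset.mem_filter]
        refine ⟨hq, ?_⟩
        rw [Finset.not_disjoint_iff] at hdis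
        obtain ⟨k, hk, hk'⟩ := hdis
        refine Finset.mem_biUnion.2 ⟨k, hk, Finset.mem_product.2 ?_⟩
        obtain ⟨h1, _, _⟩ := hl q hq
        rw [hown2] at hk'
        simp only [Finset.mem_insert, Finset.mem_singleton] at hk'
        rcases hk' with rfl | rfl
        · exact h1.nbp_left
        · exact h1.nbp_right h
      have h2 : ((prp Y pc).filter (fun q => l q ∈ (own2 p).biUnion
            (fun k => Y.nbp k ×ˢ Y.nbp k))).card ≤
          ((own2 p).biUnion (fun k => Y.nbp k ×ˢ Y.nbp k)).card := by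
        refine Finset.card_le_card_of_injOn l ?_ ?_
        · intro q hq
          exact (Finset.mem_filter.1 (Finset.mem_coe.1 hq)).2
        · intro q hq q' hq' e
          exact hlinj q (Finset.mem_filter.1 (Finset.mem_coe.1 hq)).1 q'
            (Finset.mem_filter.1 (Finset.mem_coe.1 hq')).1 e
      have h3 : ((own2 p).biUnion (fun k => Y.nbp k ×ˢ Y.nbp k)).card ≤
          (own2 p).card * ((D + D * D) * (D + D * D)) := by
        refine Finset.card_biUnion_le_card_mul _ _ _ (fun k _ => ?_)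
        rw [Finset.card_product]
        exact Nat.mul_le_mul (h.card_nbp k) (h.card_nbp k)
      have h4 : (own2 p).card ≤ 2 := Finset.card_le_two
      have h5 : (own2 p).card * ((D + D * D) * (D + D * D)) ≤ d := Nat.mul_le_mul_right _ h4
      have h6 := Set.ncard_le_ncard h1 (Finset.finite_toSet _)
      rw [Set.ncard_coe_finset] at h6
      omega) hcon.le
  have hCi' : ∀ p ∈ C, ∀ q ∈ C, p ≠ q → Disjoint (own2 p) (own2 q) := by
    intro p hp1 q hq hpq
    by_contra hcon'
    exact hCi p hp1 q hq hpq ⟨hpq, hcon'⟩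
  rcases Mdr.pairs_bound (r := Y.adj) h.adj_symm t 1 (pcs Y pc) C (pvs Y pc)
    (fun p => (own2 p).map ⟨Sum.inr, Sum.inr_injective⟩) (fun a ha => hp.cn_pvs ha)
    (by
      intro p hp1
      obtain ⟨⟨h1, h2, h3, h4⟩, _, _⟩ := hl p (hC hp1)
      have e : (own2 p).map ⟨Sum.inr, Sum.inr_injective⟩ =
          ({Sum.inr (Y.own (l p).1)} : Finset (ℕ ⊕ κ)) ∪ {Sum.inr (Y.own (l p).2)} := by
        rw [hown2]
        ext x
        simp
      rw [e]
      rcases h4 with h4 | h4
      · rw [h4, Finset.union_self]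
        exact Mdr.Cn.single _
      · exact Mdr.Cn.join (Mdr.Cn.single _) (Mdr.Cn.single _)
          ⟨_, Finset.mem_singleton_self _, _, Finset.mem_singleton_self _, h4⟩)
    (fun a _ b _ hab => pvs_disj hab)
    (by
      intro p hp1 q hq hpq
      rw [Finset.disjoint_map]
      exact hCi' p hp1 q hq hpq)
    (by
      intro a _ p _
      rw [Finset.disjoint_left]
      intro x hx hx'
      obtain ⟨z, _, _, rfl⟩ := mem_pvs.1 hx
      obtain ⟨k, _, h2⟩ := Finset.mem_map.1 hx'
      exact absurd h2 (by simp))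
    id
    (fun p hp1 => (Finset.mem_product.1 (Finset.mem_filter.1 (hC hp1)).1).1)
    (fun p hp1 => (Finset.mem_product.1 (Finset.mem_filter.1 (hC hp1)).1).2)
    (fun p hp1 => (Finset.mem_filter.1 (hC hp1)).2.1)
    (by
      intro p hp1
      obtain ⟨⟨h1, h2, h3, h4⟩, h5, h6⟩ := hl p (hC hp1)
      refine ⟨Sum.inl (l p).1, mem_pvs.2 ⟨_, h1, h5, rfl⟩, Sum.inr (Y.own (l p).1),
        Finset.mem_map.2 ⟨_, by simp [hown2], rfl⟩, h1, rfl⟩)
    (by
      intro p hp1
      obtain ⟨⟨h1, h2, h3, h4⟩, h5, h6⟩ := hl p (hC hp1)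
      refine ⟨Sum.inl (l p).2, mem_pvs.2 ⟨_, h2, h6, rfl⟩, Sum.inr (Y.own (l p).2),
        Finset.mem_map.2 ⟨_, by simp [hown2], rfl⟩, h2, rfl⟩)
    (by
      intro p
      refine (Finset.card_le_card (t := {p}) ?_).trans (by simp)
      intro z hz
      rw [Finset.mem_singleton]
      exact (Finset.mem_filter.1 hz).2) with h1 | h1
  · rw [hCm] at h1
    omega
  · refine hK (kt_of ?_ h1)
    intro x hx
    rcases Finset.mem_union.1 hx with h2 | h2
    · obtain ⟨a, _, h3⟩ := Finset.mem_biUnion.1 h2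
      obtain ⟨z, h4, _, h5⟩ := mem_pvs.1 h3
      rw [Sum.inl_injective h5]
      exact h4
    · obtain ⟨a, _, h3⟩ := Finset.mem_biUnion.1 h2
      obtain ⟨k, _, h5⟩ := Finset.mem_map.1 h3
      exact absurd h5 (by simp)

/-! ### Runs -/

open scoped Classical in
/-- The foreign pieces to which the ports in `[a, x]` are linked. -/
noncomputable def lab (Y : Sys κ) (pc : ℕ → ℕ) (a x : ℕ) : Finset ℕ :=
  ((Finset.range Y.L ×ˢ Finset.range Y.L).filter
    (fun p => a ≤ p.1 ∧ p.1 ≤ x ∧ Y.Lk p.1 p.2 ∧ pc p.2 ≠ pc p.1)).image (fun p => pc p.2)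

lemma mem_lab {pc : ℕ → ℕ} {a x f : ℕ} :
    f ∈ lab Y pc a x ↔ ∃ z y, a ≤ z ∧ z ≤ x ∧ Y.Lk z y ∧ pc y ≠ pc z ∧ pc y = f := by
  classical
  unfold lab
  rw [Finset.mem_image]
  constructor
  · rintro ⟨⟨z, y⟩, h, rfl⟩
    obtain ⟨_, h1, h2, h3, h4⟩ := Finset.mem_filter.1 h
    exact ⟨z, y, h1, h2, h3, h4, rfl⟩
  · rintro ⟨z, y, h1, h2, h3, h4, rfl⟩
    exact ⟨(z, y), Finset.mem_filter.2 ⟨Finset.mem_product.2 ⟨Finset.mem_range.2 h3.1,
      Finset.mem_range.2 h3.2.1⟩, h1, h2, h3, h4⟩, rfl⟩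

open scoped Classical in
/-- The first port of the run of `x`. -/
noncomputable def st (Y : Sys κ) (pc : ℕ → ℕ) : ℕ → ℕ
  | 0 => 0
  | x + 1 => if pc (x + 1) ≠ pc x ∨ 2 ≤ (lab Y pc (st Y pc x) x).card then x + 1 else st Y pc x

lemma st_le (Y : Sys κ) (pc : ℕ → ℕ) (x : ℕ) : st Y pc x ≤ x := by
  induction x with
  | zero => simp [st]
  | succ x ih =>
    unfold st
    split_ifs with h
    · exact le_rfl
    · omega

lemma st_succ (Y : Sys κ) (pc : ℕ → ℕ) (x : ℕ) :
    (st Y pc (x + 1) = x + 1 ∧ (pc (x + 1) ≠ pc x ∨ 2 ≤ (lab Y pc (st Y pc x) x).card)) ∨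
    (st Y pc (x + 1) = st Y pc x ∧ pc (x + 1) = pc x ∧ (lab Y pc (st Y pc x) x).card ≤ 1) := by
  by_cases h : pc (x + 1) ≠ pc x ∨ 2 ≤ (lab Y pc (st Y pc x) x).card
  · left
    refine ⟨?_, h⟩
    conv_lhs => unfold st
    rw [if_pos h]
  · right
    refine ⟨?_, ?_, ?_⟩
    · conv_lhs => unfold st
      rw [if_neg h]
    · by_contra h1
      exact h (Or.inl h1)
    · by_contra h1
      exact h (Or.inr (by omega))

lemma st_mono (Y : Sys κ) (pc : ℕ → ℕ) {x y : ℕ} (h : x ≤ y) : st Y pc x ≤ st Y pc y := by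
  induction y, h using Nat.le_induction with
  | base => exact le_rfl
  | succ y _ ih =>
    have h1 := st_le Y pc y
    rcases st_succ Y pc y with ⟨h2, _⟩ | ⟨h2, _⟩ <;> omega

/-- inside a run -/
lemma st_run (Y : Sys κ) (pc : ℕ → ℕ) {x z : ℕ} (h1 : st Y pc x ≤ z) (h2 : z ≤ x) :
    st Y pc z = st Y pc x ∧ pc z = pc x := by
  induction x with
  | zero =>
    have : z = 0 := by omega
    subst this
    exact ⟨rfl, rfl⟩
  | succ x ih =>
    by_cases h3 : z = x + 1
    · subst h3
      exact ⟨rfl, rfl⟩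
    · rcases st_succ Y pc x with ⟨h4, _⟩ | ⟨h4, h5, _⟩
      · omega
      · rw [h4] at h1 ⊢
        rw [h5]
        exact ih h1 (by omega)

lemma st_eq (Y : Sys κ) (pc : ℕ → ℕ) {x y : ℕ} (h : st Y pc x = st Y pc y) : pc x = pc y := by
  rcases le_total x y with h1 | h1
  · exact (st_run Y pc (by have := st_le Y pc x; omega) h1).2
  · exact (st_run Y pc (by have := st_le Y pc y; omega) h1).2.symm

/-- the end of a run in the middle of a piece -/
def Sw (Y : Sys κ) (pc : ℕ → ℕ) (b : ℕ) : Prop := b < Y.L ∧ 2 ≤ (lab Y pc (st Y pc b) b).card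

lemma Sw.next {pc : ℕ → ℕ} {b : ℕ} (h : Sw Y pc b) : st Y pc (b + 1) = b + 1 := by
  rcases st_succ Y pc b with ⟨h1, _⟩ | ⟨_, _, h1⟩
  · exact h1
  · have := h.2
    omega

lemma Sw.lt {pc : ℕ → ℕ} {b b' : ℕ} (h : Sw Y pc b) (hb : b < b') : b < st Y pc b' := by
  have h1 := h.next
  have h2 := st_mono Y pc (show b + 1 ≤ b' from hb)
  omega

/-- the switch -/
lemma Sw.switch {pc : ℕ → ℕ} {b : ℕ} (h : Sw Y pc b) :
    ∃ x y y', st Y pc b ≤ x ∧ x ≤ b ∧ Y.Lk x y ∧ Y.Lk b y' ∧ pc x = pc b ∧ pc y ≠ pc b ∧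
      pc y' ≠ pc b ∧ pc y ≠ pc y' := by
  obtain ⟨f, hf, f', hf', hne⟩ := Finset.one_lt_card.1 h.2
  have key : ∀ f ∈ lab Y pc (st Y pc b) b, ∀ f' ∈ lab Y pc b b, f ≠ f' →
      ∃ x y y', st Y pc b ≤ x ∧ x ≤ b ∧ Y.Lk x y ∧ Y.Lk b y' ∧ pc x = pc b ∧ pc y ≠ pc b ∧
        pc y' ≠ pc b ∧ pc y ≠ pc y' := by
    intro f hf f' hf' hne
    obtain ⟨z, y, h1, h2, h3, h4, rfl⟩ := mem_lab.1 hf
    obtain ⟨z', y', h5, h6, h7, h8, rfl⟩ := mem_lab.1 hf'
    have : z' = b := by omega
    subst this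
    have h9 := (st_run Y pc h1 h2).2
    exact ⟨z, y, y', h1, h2, h3, h7, h9, by rwa [h9] at h4, h8, hne⟩
  by_cases hb : f ∈ lab Y pc b b
  · exact key f' hf' f hb hne.symm
  by_cases hb' : f' ∈ lab Y pc b b
  · exact key f hf f' hb' hne
  -- both labels come from the ports before `b`
  exfalso
  obtain ⟨z, y, h1, h2, h3, h4, rfl⟩ := mem_lab.1 hf
  obtain ⟨z', y', h5, h6, h7, h8, rfl⟩ := mem_lab.1 hf'
  have hz : z ≠ b := by
    rintro rfl
    exact hb (mem_lab.2 ⟨z, y, le_rfl, le_rfl, h3, h4, rfl⟩)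
  have hz' : z' ≠ b := by
    rintro rfl
    exact hb' (mem_lab.2 ⟨z', y', le_rfl, le_rfl, h7, h8, rfl⟩)
  obtain ⟨c, rfl⟩ : ∃ c, b = c + 1 := ⟨b - 1, by omega⟩
  rcases st_succ Y pc c with ⟨h9, _⟩ | ⟨h9, _, h10⟩
  · omega
  · rw [h9] at h1 h5
    have h11 : pc y ∈ lab Y pc (st Y pc c) c := mem_lab.2 ⟨z, y, h1, by omega, h3, h4, rfl⟩
    have h12 : pc y' ∈ lab Y pc (st Y pc c) c := mem_lab.2 ⟨z', y', h5, by omega, h7, h8, rfl⟩
    exact hne (Finset.card_le_one.1 h10 _ h11 _ h12)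

/-- **The runs.** -/
lemma Pcs.runs {pc : ℕ → ℕ} (hp : Y.Pcs pc) : Y.Runs (st Y pc) where
  mono x y h := st_mono Y pc h
  sh x y hx hy h := hp.sh x y hx hy (st_eq Y pc h)
  two r := by
    classical
    by_cases hex : ∃ x y, Y.Lk x y ∧ st Y pc x = r ∧ st Y pc (x + 1) = r ∧ x + 1 < Y.L ∧
        pc y ≠ pc x
    · obtain ⟨x₀, y₀, h1, h2, h3, h4, h5⟩ := hex
      refine ⟨{Y.sh x₀, Y.sh y₀}, Finset.card_le_two, ?_⟩
      intro x y hl hx hx1 hxL
      rw [Finset.mem_insert, Finset.mem_singleton]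
      have hxx : pc x = pc x₀ := st_eq Y pc (hx.trans h2.symm)
      by_cases h6 : pc y = pc x
      · exact Or.inl (hp.sh _ _ hl.2.1 h1.1 (h6.trans hxx))
      · right
        refine hp.sh _ _ hl.2.1 h1.2.1 ?_
        -- both labels are seen before `max x x₀`
        set w := max x x₀ with hw
        have hw1 : st Y pc w = r ∧ st Y pc (w + 1) = r := by
          rcases le_total x x₀ with h | h
          · rw [hw, max_eq_right h]
            exact ⟨h2, h3⟩
          · rw [hw, max_eq_left h]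
            exact ⟨hx, hx1⟩
        have h7 : (lab Y pc r w).card ≤ 1 := by
          rcases st_succ Y pc w with ⟨h8, _⟩ | ⟨_, _, h8⟩
          · have := st_le Y pc w
            omega
          · rwa [hw1.1] at h8
        have h8 : pc y ∈ lab Y pc r w := mem_lab.2 ⟨x, y, by
          rw [← hx]
          exact st_le Y pc x, le_max_left _ _, hl, h6, rfl⟩
        have h9 : pc y₀ ∈ lab Y pc r w := mem_lab.2 ⟨x₀, y₀, by
          rw [← h2]
          exact st_le Y pc x₀, le_max_right _ _, h1, h5, rfl⟩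
        exact Finset.card_le_one.1 h7 _ h8 _ h9
    · push Not at hex
      by_cases hex2 : ∃ x < Y.L, st Y pc x = r
      · obtain ⟨x₀, h1, h2⟩ := hex2
        refine ⟨{Y.sh x₀}, by simp, ?_⟩
        intro x y hl hx hx1 hxL
        rw [Finset.mem_singleton]
        have h3 := hex x y hl hx hx1 hxL
        exact hp.sh _ _ hl.2.1 h1 (h3.trans (st_eq Y pc (hx.trans h2.symm)))
      · refine ⟨∅, by simp, ?_⟩
        intro x y hl hx hx1 hxL
        exact absurd ⟨x, hl.1, hx⟩ hex2

/-! ### Few switches in a piece -/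

open scoped Classical in
/-- The pieces linked to `e`. -/
noncomputable def nbe (Y : Sys κ) (pc : ℕ → ℕ) (e : ℕ) : Finset ℕ :=
  (pcs Y pc).filter (fun f => e ≠ f ∧ Y.lkp pc e f)

lemma sum_nbe (Y : Sys κ) (pc : ℕ → ℕ) :
    ∑ e ∈ pcs Y pc, (nbe Y pc e).card = (prp Y pc).card := by
  classical
  unfold nbe prp
  rw [Finset.card_filter, Finset.sum_product]
  exact Finset.sum_congr rfl (fun a _ => Finset.card_filter _ _)

/-- Increasing enumeration. -/
lemma exists_enum (A : Finset ℕ) : ∃ f : ℕ → ℕ, (∀ i < A.card, f i ∈ A) ∧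
    ∀ i j, i < j → j < A.card → f i < f j := by
  refine ⟨fun i => if h : i < A.card then A.orderEmbOfFin rfl ⟨i, h⟩ else 0, ?_, ?_⟩
  · intro i hi
    simp only [dif_pos hi]
    exact Finset.orderEmbOfFin_mem _ _ _
  · intro i j hij hj
    simp only [dif_pos hj, dif_pos (hij.trans hj)]
    exact (A.orderEmbOfFin rfl).strictMono (by simpa using hij)

lemma Pcs.lt_of {pc : ℕ → ℕ} (hp : Y.Pcs pc) {x y : ℕ} (hx : x < Y.L) (h : pc x < pc y) :
    x < y := by
  by_contra hle
  have := hp.mono y x (not_lt.1 hle) hx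
  omega

open scoped Classical in
/-- **Few switches.** -/
theorem Ax.card_sw (h : Y.Ax D) {pc : ℕ → ℕ} (hp : Y.Pcs pc) {t N N₁ : ℕ} (hK : ¬ Y.KT t)
    (hN₁ : ∀ (P : Fin 4 → ℕ → ℕ), (∀ i j r s, r < N₁ → s < N₁ → r ≠ s → P i r ≠ P j s) →
      ∃ f : ℕ → ℕ, (∀ i < N, f i < N₁) ∧ (∀ i j, i < j → j < N → f i < f j) ∧
        ∀ i, RamP.Mon N (fun r => P i (f r)))
    (hB : ∀ x z c d, ¬ Y.PB N x z c d) (e : ℕ) :
    ((Finset.range Y.L).filter (fun b => pc b = e ∧ Sw Y pc b)).card ≤
      (2 * (8 * (D + D * D)) + 1) * (N₁ * (Mdr.cst t * (nbe Y pc e).card) + 1) := by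
  set S := (Finset.range Y.L).filter (fun b => pc b = e ∧ Sw Y pc b) with hS
  by_contra hcon
  push Not at hcon
  have hch : ∀ b, ∃ x y y', b ∈ S → st Y pc b ≤ x ∧ x ≤ b ∧ Y.Lk x y ∧ Y.Lk b y' ∧ pc x = e ∧
      pc b = e ∧ pc y ≠ e ∧ pc y' ≠ e ∧ pc y ≠ pc y' := by
    intro b
    by_cases hb : b ∈ S
    · obtain ⟨_, h1, h2⟩ := Finset.mem_filter.1 hb
      obtain ⟨x, y, y', h3, h4, h5, h6, h7, h8, h9, h10⟩ := h2.switch
      rw [h1] at h7 h8 h9
      exact ⟨x, y, y', fun _ => ⟨h3, h4, h5, h6, h7, h1, h8, h9, h10⟩⟩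
    · exact ⟨0, 0, 0, fun h => absurd h hb⟩
  choose x y y' hxy using hch
  have hSw : ∀ b ∈ S, Sw Y pc b := fun b hb => (Finset.mem_filter.1 hb).2.2
  have hsep : ∀ b ∈ S, ∀ b' ∈ S, b < b' → b < x b' := by
    intro b hb b' hb' hlt
    have h1 := (hSw b hb).lt hlt
    have h2 := (hxy b' hb').1
    omega
  have hxinj : ∀ b ∈ S, ∀ b' ∈ S, x b = x b' → b = b' := by
    intro b hb b' hb' he
    have h1 := (hxy b hb).2.1
    have h2 := (hxy b' hb').2.1
    rcases lt_trichotomy b b' with h3 | h3 | h3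
    · have := hsep b hb b' hb' h3
      omega
    · exact h3
    · have := hsep b' hb' b hb h3
      omega
  set own4 : ℕ → Finset κ := fun b => {Y.own (x b), Y.own (y b), Y.own b, Y.own (y' b)} with hown4
  have hmem4 : ∀ b k, k ∈ own4 b ↔ k = Y.own (x b) ∨ k = Y.own (y b) ∨ k = Y.own b ∨
      k = Y.own (y' b) := by
    intro b k
    simp only [hown4, Finset.mem_insert, Finset.mem_singleton]
  obtain ⟨C, hC, hCm, hCi⟩ := Mdr.indep_of_out (8 * (D + D * D))
    (fun b b' => b ≠ b' ∧ ¬ Disjoint (own4 b) (own4 b'))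
    (N₁ * (Mdr.cst t * (nbe Y pc e).card) + 1) S (by
      intro b hb
      set W := (own4 b).biUnion (fun k => Y.nbp k) with hW
      have h1 : {b' | b' ∈ S ∧ b ≠ b' ∧ ¬ Disjoint (own4 b) (own4 b')} ⊆
          ↑(S.filter (fun b' => x b' ∈ W) ∪ S.filter (fun b' => b' ∈ W)) := by
        rintro b' ⟨hb', _, hdis⟩
        rw [Finset.mem_coe]
        rw [Finset.not_disjoint_iff] at hdis
        obtain ⟨k, hk, hk'⟩ := hdis
        obtain ⟨_, _, h3, h4, _⟩ := hxy b' hb'
        rcases (hmem4 b' k).1 hk' with rfl | rfl | rfl | rfl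
        · exact Finset.mem_union_left _ (Finset.mem_filter.2
            ⟨hb', Finset.mem_biUnion.2 ⟨_, hk, h3.nbp_left.1⟩⟩)
        · exact Finset.mem_union_left _ (Finset.mem_filter.2
            ⟨hb', Finset.mem_biUnion.2 ⟨_, hk, (h3.nbp_right h).1⟩⟩)
        · exact Finset.mem_union_right _ (Finset.mem_filter.2
            ⟨hb', Finset.mem_biUnion.2 ⟨_, hk, h4.nbp_left.1⟩⟩)
        · exact Finset.mem_union_right _ (Finset.mem_filter.2
            ⟨hb', Finset.mem_biUnion.2 ⟨_, hk, (h4.nbp_right h).1⟩⟩)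
      have h2 : (S.filter (fun b' => x b' ∈ W)).card ≤ W.card := by
        refine Finset.card_le_card_of_injOn x ?_ ?_
        · intro q hq
          exact (Finset.mem_filter.1 (Finset.mem_coe.1 hq)).2
        · intro q hq q' hq' e
          exact hxinj q (Finset.mem_filter.1 (Finset.mem_coe.1 hq)).1 q'
            (Finset.mem_filter.1 (Finset.mem_coe.1 hq')).1 e
      have h3 : (S.filter (fun b' => b' ∈ W)).card ≤ W.card :=
        Finset.card_le_card (fun q hq => (Finset.mem_filter.1 hq).2)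
      have h4 : W.card ≤ (own4 b).card * (D + D * D) :=
        Finset.card_biUnion_le_card_mul _ _ _ (fun k _ => h.card_nbp k)
      have h5 : (own4 b).card ≤ 4 := Finset.card_le_four
      have h6 : (own4 b).card * (D + D * D) ≤ 4 * (D + D * D) := Nat.mul_le_mul_right _ h5
      have h7 := Set.ncard_le_ncard h1 (Finset.finite_toSet _)
      rw [Set.ncard_coe_finset] at h7
      have h8 := Finset.card_union_le (S.filter (fun b' => x b' ∈ W))
        (S.filter (fun b' => b' ∈ W))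
      omega) hcon.le
  have hCi' : ∀ b ∈ C, ∀ b' ∈ C, b ≠ b' → Disjoint (own4 b) (own4 b') := by
    intro p hp1 q hq hpq
    by_contra hcon'
    exact hCi p hp1 q hq hpq ⟨hpq, hcon'⟩
  have hshe : ∀ u v, u < Y.L → v < Y.L → pc u = e → pc v = e → Y.sh u = Y.sh v :=
    fun u v hu hv h1 h2 => hp.sh u v hu hv (h1.trans h2.symm)
  have hbL : ∀ b ∈ S, b < Y.L := fun b hb => Finset.mem_range.1 (Finset.mem_filter.1 hb).1
  have hpe : ∀ b ∈ S, ∀ z, x b ≤ z → z ≤ b → pc z = e := by
    intro b hb z h1 h2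
    have h3 := hp.mono _ _ h1 (by have := hbL b hb; omega)
    have h4 := hp.mono _ _ h2 (hbL b hb)
    have h5 := (hxy b hb).2.2.2.2
    omega
  rcases Mdr.pairs_bound (r := Y.adj) h.adj_symm t N₁ (nbe Y pc e) C (pvs Y pc)
    (fun b => pts κ (x b) b ∪ (own4 b).map ⟨Sum.inr, Sum.inr_injective⟩)
    (fun a ha => hp.cn_pvs (Finset.mem_filter.1 ha).1)
    (by
      intro b hb
      obtain ⟨h1, h2, h3, h4, h5, h6, h7, h8, h9⟩ := hxy b (hC hb)
      have g1 : Mdr.Cn Y.adj (pts κ (x b) b) := cn_pts h2 (hbL b (hC hb)) (fun z h10 h11 =>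
        hshe _ _ (by have := hbL b (hC hb); omega) h3.1 (hpe b (hC hb) z h10 h11) h5)
      have m1 : (Sum.inl (x b) : ℕ ⊕ κ) ∈ pts κ (x b) b := mem_pts.2 ⟨_, le_rfl, h2, rfl⟩
      have m2 : (Sum.inl b : ℕ ⊕ κ) ∈ pts κ (x b) b := mem_pts.2 ⟨_, h2, le_rfl, rfl⟩
      have g2 : Mdr.Cn Y.adj (pts κ (x b) b ∪ {Sum.inr (Y.own (x b))}) :=
        Mdr.Cn.join g1 (Mdr.Cn.single _) ⟨_, m1, _, Finset.mem_singleton_self _, h3.1, rfl⟩
      have g3 : Mdr.Cn Y.adj ((pts κ (x b) b ∪ {Sum.inr (Y.own (x b))}) ∪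
          {Sum.inr (Y.own b)}) :=
        Mdr.Cn.join g2 (Mdr.Cn.single _)
          ⟨_, Finset.mem_union_left _ m2, _, Finset.mem_singleton_self _, h4.1, rfl⟩
      have g4 : Mdr.Cn Y.adj (((pts κ (x b) b ∪ {Sum.inr (Y.own (x b))}) ∪
          {Sum.inr (Y.own b)}) ∪ {Sum.inr (Y.own (y b))}) := by
        rcases h3.2.2.2 with e1 | e1
        · rw [← e1]
          have e2 : (((pts κ (x b) b ∪ {Sum.inr (Y.own (x b))}) ∪
            {Sum.inr (Y.own b)}) ∪ {Sum.inr (Y.own (x b))}) =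
            ((pts κ (x b) b ∪ {Sum.inr (Y.own (x b))}) ∪ {Sum.inr (Y.own b)}) := by
            refine Finset.union_eq_left.2 ?_
            intro v hv
            exact Finset.mem_union_left _ (Finset.mem_union_right _ hv)
          rw [e2]
          exact g3
        · exact Mdr.Cn.join g3 (Mdr.Cn.single _) ⟨Sum.inr (Y.own (x b)),
            Finset.mem_union_left _ (Finset.mem_union_right _ (Finset.mem_singleton_self _)), _,
            Finset.mem_singleton_self _, e1⟩
      have g5 : Mdr.Cn Y.adj ((((pts κ (x b) b ∪ {Sum.inr (Y.own (x b))}) ∪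
          {Sum.inr (Y.own b)}) ∪ {Sum.inr (Y.own (y b))}) ∪ {Sum.inr (Y.own (y' b))}) := by
        rcases h4.2.2.2 with e1 | e1
        · rw [← e1]
          have e2 : ((((pts κ (x b) b ∪ {Sum.inr (Y.own (x b))}) ∪
            {Sum.inr (Y.own b)}) ∪ {Sum.inr (Y.own (y b))}) ∪ {Sum.inr (Y.own b)}) =
            (((pts κ (x b) b ∪ {Sum.inr (Y.own (x b))}) ∪ {Sum.inr (Y.own b)}) ∪
              {Sum.inr (Y.own (y b))}) := by
            refine Finset.union_eq_left.2 ?_
            intro v hv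
            exact Finset.mem_union_left _ (Finset.mem_union_right _ hv)
          rw [e2]
          exact g4
        · exact Mdr.Cn.join g4 (Mdr.Cn.single _) ⟨Sum.inr (Y.own b),
            Finset.mem_union_left _ (Finset.mem_union_right _ (Finset.mem_singleton_self _)), _,
            Finset.mem_singleton_self _, e1⟩
      have e : pts κ (x b) b ∪ (own4 b).map ⟨Sum.inr, Sum.inr_injective⟩ =
          (((pts κ (x b) b ∪ {Sum.inr (Y.own (x b))}) ∪
          {Sum.inr (Y.own b)}) ∪ {Sum.inr (Y.own (y b))}) ∪ {Sum.inr (Y.own (y' b))} := by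
        ext v
        simp only [Finset.mem_union, Finset.mem_map, Function.Embedding.coeFn_mk, hmem4,
          Finset.mem_singleton]
        constructor
        · rintro (hv | ⟨k, rfl | rfl | rfl | rfl, rfl⟩)
          · tauto
          · tauto
          · tauto
          · tauto
          · tauto
        · rintro ((((hv | hv) | hv) | hv) | hv)
          · exact Or.inl hv
          · exact Or.inr ⟨_, Or.inl rfl, hv.symm⟩
          · exact Or.inr ⟨_, Or.inr (Or.inr (Or.inl rfl)), hv.symm⟩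
          · exact Or.inr ⟨_, Or.inr (Or.inl rfl), hv.symm⟩
          · exact Or.inr ⟨_, Or.inr (Or.inr (Or.inr rfl)), hv.symm⟩
      rw [e]
      exact g5)
    (fun a _ b _ hab => pvs_disj hab)
    (by
      intro b hb b' hb' hbb
      rw [Finset.disjoint_left]
      intro v hv hv'
      rcases Finset.mem_union.1 hv with h1 | h1
      · obtain ⟨z, h2, h3, rfl⟩ := mem_pts.1 h1
        rcases Finset.mem_union.1 hv' with h4 | h4
        · obtain ⟨z', h5, h6, h7⟩ := mem_pts.1 h4
          have h8 : z = z' := Sum.inl_injective h7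
          subst h8
          rcases lt_or_gt_of_ne hbb with h9 | h9
          · have := hsep b (hC hb) b' (hC hb') h9
            omega
          · have := hsep b' (hC hb') b (hC hb) h9
            omega
        · obtain ⟨k, _, h5⟩ := Finset.mem_map.1 h4
          exact absurd h5 (by simp)
      · obtain ⟨k, h2, rfl⟩ := Finset.mem_map.1 h1
        rcases Finset.mem_union.1 hv' with h4 | h4
        · obtain ⟨z', h5, h6, h7⟩ := mem_pts.1 h4
          exact absurd h7 (by simp)
        · obtain ⟨k', h5, h6⟩ := Finset.mem_map.1 h4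
          have h7 : k' = k := Sum.inr_injective h6
          subst h7
          exact Finset.disjoint_left.1 (hCi' b hb b' hb' hbb) h2 h5)
    (by
      intro a ha b hb
      rw [Finset.disjoint_left]
      intro v hv hv'
      obtain ⟨z, h1, h2, rfl⟩ := mem_pvs.1 hv
      rcases Finset.mem_union.1 hv' with h4 | h4
      · obtain ⟨z', h5, h6, h7⟩ := mem_pts.1 h4
        have h8 : z = z' := Sum.inl_injective h7
        subst h8
        exact (Finset.mem_filter.1 ha).2.1 ((hpe b (hC hb) z h5 h6).symm.trans h2)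
      · obtain ⟨k, _, h5⟩ := Finset.mem_map.1 h4
        exact absurd h5 (by simp))
    (fun b => (pc (y b), pc (y' b)))
    (by
      intro b hb
      obtain ⟨h1, h2, h3, h4, h5, h6, h7, h8, h9⟩ := hxy b (hC hb)
      exact Finset.mem_filter.2 ⟨mem_pcs.2 ⟨_, h3.2.1, rfl⟩, h7.symm, _, _, h3, h5, rfl⟩)
    (by
      intro b hb
      obtain ⟨h1, h2, h3, h4, h5, h6, h7, h8, h9⟩ := hxy b (hC hb)
      exact Finset.mem_filter.2 ⟨mem_pcs.2 ⟨_, h4.2.1, rfl⟩, h8.symm, _, _, h4, h6, rfl⟩)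
    (fun b hb => (hxy b (hC hb)).2.2.2.2.2.2.2.2)
    (by
      intro b hb
      obtain ⟨h1, h2, h3, h4, h5, h6, h7, h8, h9⟩ := hxy b (hC hb)
      exact ⟨Sum.inl (y b), mem_pvs.2 ⟨_, h3.2.1, rfl, rfl⟩, Sum.inr (Y.own (y b)),
        Finset.mem_union_right _ (Finset.mem_map.2 ⟨_, (hmem4 b _).2 (Or.inr (Or.inl rfl)), rfl⟩),
        h3.2.1, rfl⟩)
    (by
      intro b hb
      obtain ⟨h1, h2, h3, h4, h5, h6, h7, h8, h9⟩ := hxy b (hC hb)
      exact ⟨Sum.inl (y' b), mem_pvs.2 ⟨_, h4.2.1, rfl, rfl⟩, Sum.inr (Y.own (y' b)),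
        Finset.mem_union_right _ (Finset.mem_map.2
          ⟨_, (hmem4 b _).2 (Or.inr (Or.inr (Or.inr rfl))), rfl⟩), h4.2.1, rfl⟩)
    (by
      rintro ⟨a, a'⟩
      by_contra hcard
      push Not at hcard
      set A := C.filter (fun b => (pc (y b), pc (y' b)) = (a, a')) with hA
      obtain ⟨g, hg1, hg2⟩ := exists_enum A
      have hAC : ∀ b ∈ A, b ∈ C ∧ pc (y b) = a ∧ pc (y' b) = a' := by
        intro b hb
        obtain ⟨h1, h2⟩ := Finset.mem_filter.1 hb
        exact ⟨h1, congrArg Prod.fst h2, congrArg Prod.snd h2⟩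
      have hgC : ∀ i < N₁, g i ∈ C ∧ pc (y (g i)) = a ∧ pc (y' (g i)) = a' :=
        fun i hi => hAC _ (hg1 i (by omega))
      have hgx : ∀ i < N₁, _ := fun i hi => hxy (g i) (hC (hgC i hi).1)
      have hgne : ∀ i < N₁, ∀ j < N₁, i ≠ j → Disjoint (own4 (g i)) (own4 (g j)) := by
        intro i hi j hj hij
        refine hCi' _ (hgC i hi).1 _ (hgC j hj).1 ?_
        rcases lt_or_gt_of_ne hij with h1 | h1
        · exact (hg2 i j h1 (by omega)).ne
        · exact (hg2 j i h1 (by omega)).ne'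
      set P : Fin 4 → ℕ → ℕ := ![fun r => x (g r), fun r => y (g r), fun r => g r,
        fun r => y' (g r)] with hP
      have hPo : ∀ i : Fin 4, ∀ r, Y.own (P i r) ∈ own4 (g r) := by
        intro i r
        rw [hmem4]
        fin_cases i
        · exact Or.inl rfl
        · exact Or.inr (Or.inl rfl)
        · exact Or.inr (Or.inr (Or.inl rfl))
        · exact Or.inr (Or.inr (Or.inr rfl))
      obtain ⟨f, hf1, hf2, hf3⟩ := hN₁ P (by
        intro i j r s hr hs hrs he
        have h1 := hPo i r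
        have h2 := hPo j s
        rw [he] at h1
        exact Finset.disjoint_left.1 (hgne r hr s hs hrs) h1 h2)
      have hff : ∀ i < N, ∀ j < N, i ≠ j → f i ≠ f j := by
        intro i hi j hj hij
        rcases lt_or_gt_of_ne hij with h1 | h1
        · exact (hf2 i j h1 hj).ne
        · exact (hf2 j i h1 hi).ne'
      have hfar : ∀ (l l' : ℕ → List ℕ) (p p' : ℕ), p ≠ p' →
          (∀ i < N, ∀ u ∈ l i, u < Y.L ∧ pc u = p) → (∀ i < N, ∀ u ∈ l' i, u < Y.L ∧ pc u = p') →
          Far N l l' := by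
        intro l l' p p' hpp h1 h2
        rcases lt_or_gt_of_ne hpp with h3 | h3
        · left
          intro i hi j hj u hu v hv
          exact hp.lt_of (h1 i hi u hu).1 (by rw [(h1 i hi u hu).2, (h2 j hj v hv).2]; exact h3)
        · right
          intro i hi j hj u hu v hv
          exact hp.lt_of (h2 j hj v hv).1 (by rw [(h1 i hi u hu).2, (h2 j hj v hv).2]; exact h3)
      have hxc : ∀ i < N, ∀ u ∈ [x (g (f i)), g (f i)], u < Y.L ∧ pc u = e := by
        intro i hi u hu
        have h1 := hgx (f i) (hf1 i hi)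
        simp only [List.mem_cons, List.not_mem_nil, or_false] at hu
        rcases hu with rfl | rfl
        · exact ⟨h1.2.2.1.1, h1.2.2.2.2.1⟩
        · exact ⟨h1.2.2.2.1.1, h1.2.2.2.2.2.1⟩
      have hz : ∀ i < N, ∀ u ∈ [y (g (f i))], u < Y.L ∧ pc u = a := by
        intro i hi u hu
        have h1 := hgx (f i) (hf1 i hi)
        simp only [List.mem_cons, List.not_mem_nil, or_false] at hu
        subst hu
        exact ⟨h1.2.2.1.2.1, (hgC (f i) (hf1 i hi)).2.1⟩
      have hd : ∀ i < N, ∀ u ∈ [y' (g (f i))], u < Y.L ∧ pc u = a' := by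
        intro i hi u hu
        have h1 := hgx (f i) (hf1 i hi)
        simp only [List.mem_cons, List.not_mem_nil, or_false] at hu
        subst hu
        exact ⟨h1.2.2.2.1.2.1, (hgC (f i) (hf1 i hi)).2.2⟩
      have hon : ∀ (l : ℕ → List ℕ) (p : ℕ), (∀ i < N, ∀ u ∈ l i, u < Y.L ∧ pc u = p) →
          Y.OnSh N l := by
        intro l p h1
        by_cases hex : ∃ i, i < N ∧ ∃ u, u ∈ l i
        · obtain ⟨i, hi, u, hu⟩ := hex
          refine ⟨Y.sh u, fun j hj v hv => ⟨(h1 j hj v hv).1, ?_⟩⟩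
          exact hp.sh _ _ (h1 j hj v hv).1 (h1 i hi u hu).1
            ((h1 j hj v hv).2.trans (h1 i hi u hu).2.symm)
        · push Not at hex
          exact ⟨0, fun j hj v hv => absurd hv (hex j hj v)⟩
      have hN0 : 0 < N₁ := by
        rcases Nat.eq_zero_or_pos N with h0 | h0
        · -- `N = 0`: the empty pattern
          exfalso
          refine hB (fun _ => 0) (fun _ => 0) (fun _ => 0) (fun _ => 0) ?_
          subst h0
          refine ⟨?_, ?_, ?_, ?_, ?_, ?_, ?_, ?_, ?_, ?_, ?_, ?_⟩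
          · intro i hi; omega
          · intro i hi; omega
          · intro i j _ hj; omega
          · left; intro r s _ hs; omega
          · left; intro r s _ hs; omega
          · left; intro i hi; omega
          · left; intro i hi; omega
          · left; intro i hi; omega
          · exact ⟨0, fun i hi => by omega⟩
          · exact ⟨0, fun i hi => by omega⟩
          · exact ⟨0, fun i hi => by omega⟩
          · intro i hi; omega
        · have := hf1 0 h0
          omega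
      have ha0 := hgx 0 hN0
      have ha1 := hgC 0 hN0
      have hea : e ≠ a := by
        rw [← ha1.2.1]
        exact ha0.2.2.2.2.2.2.1.symm
      have hea' : e ≠ a' := by
        rw [← ha1.2.2]
        exact ha0.2.2.2.2.2.2.2.1.symm
      have haa : a ≠ a' := by
        rw [← ha1.2.1, ← ha1.2.2]
        exact ha0.2.2.2.2.2.2.2.2
      refine hB (fun i => x (g (f i))) (fun i => y (g (f i))) (fun i => g (f i))
        (fun i => y' (g (f i))) ⟨?_, ?_, ?_, ?_, ?_, ?_, ?_, ?_, ?_, ?_, ?_, ?_⟩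
      · intro i hi
        exact (hgx (f i) (hf1 i hi)).2.2.1
      · intro i hi
        exact (hgx (f i) (hf1 i hi)).2.2.2.1
      · intro i j hij hj u hu v hv
        have h1 := hgx (f i) (hf1 i (by omega))
        have h2 := hgx (f j) (hf1 j hj)
        have h3 := hf2 i j hij hj
        have h4 := hg2 (f i) (f j) h3 (by have := hf1 j hj; omega)
        have h5 := hsep _ (hC (hgC (f i) (hf1 i (by omega))).1) _ (hC (hgC (f j) (hf1 j hj)).1) h4
        simp only [List.mem_cons, List.not_mem_nil, or_false] at hu hv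
        rcases hu with rfl | rfl <;> rcases hv with rfl | rfl <;> omega
      · exact hf3 1
      · exact hf3 3
      · exact hfar _ _ e a hea hxc hz
      · exact hfar _ _ e a' hea' hxc hd
      · exact hfar _ _ a a' haa hz hd
      · exact hon _ e hxc
      · exact hon _ a hz
      · exact hon _ a' hd
      · intro i hi j hj hij u hu v hv he
        have h1 := hgne (f i) (hf1 i hi) (f j) (hf1 j hj) (hff i hi j hj hij)
        have h2 : Y.own u ∈ own4 (g (f i)) := by
          rw [hmem4]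
          simp only [List.mem_cons, List.not_mem_nil, or_false] at hu
          rcases hu with rfl | rfl | rfl | rfl <;> simp
        have h3 : Y.own v ∈ own4 (g (f j)) := by
          rw [hmem4]
          simp only [List.mem_cons, List.not_mem_nil, or_false] at hv
          rcases hv with rfl | rfl | rfl | rfl <;> simp
        rw [he] at h2
        exact Finset.disjoint_left.1 h1 h2 h3) with h1 | h1
  · rw [hCm] at h1
    omega
  · refine hK (kt_of ?_ h1)
    intro z hz
    rcases Finset.mem_union.1 hz with h2 | h2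
    · obtain ⟨a, _, h3⟩ := Finset.mem_biUnion.1 h2
      obtain ⟨z', h4, _, h5⟩ := mem_pvs.1 h3
      rw [Sum.inl_injective h5]
      exact h4
    · obtain ⟨b, hb, h3⟩ := Finset.mem_biUnion.1 h2
      rcases Finset.mem_union.1 h3 with h4 | h4
      · obtain ⟨z', h5, h6, h7⟩ := mem_pts.1 h4
        have h8 : z = z' := Sum.inl_injective h7
        have := hbL b (hC hb)
        omega
      · obtain ⟨k, _, h5⟩ := Finset.mem_map.1 h4
        exact absurd h5 (by simp)

/-! ### Few runs -/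

open scoped Classical in
/-- The runs in the piece `e`. -/
noncomputable def rns (Y : Sys κ) (pc : ℕ → ℕ) (e : ℕ) : Finset ℕ :=
  ((Finset.range Y.L).filter (fun x => pc x = e)).image (st Y pc)

lemma mem_rns {pc : ℕ → ℕ} {e r : ℕ} :
    r ∈ rns Y pc e ↔ ∃ x, x < Y.L ∧ pc x = e ∧ st Y pc x = r := by
  classical
  unfold rns
  rw [Finset.mem_image]
  constructor
  · rintro ⟨x, hx, rfl⟩
    rw [Finset.mem_filter, Finset.mem_range] at hx
    exact ⟨x, hx.1, hx.2, rfl⟩
  · rintro ⟨x, h1, h2, rfl⟩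
    exact ⟨x, Finset.mem_filter.2 ⟨Finset.mem_range.2 h1, h2⟩, rfl⟩

open scoped Classical in
lemma Pcs.card_rns {pc : ℕ → ℕ} (hp : Y.Pcs pc) (e : ℕ) :
    (rns Y pc e).card ≤ ((Finset.range Y.L).filter (fun b => pc b = e ∧ Sw Y pc b)).card + 1 := by
  set S := (Finset.range Y.L).filter (fun b => pc b = e ∧ Sw Y pc b) with hS
  set A := (rns Y pc e).filter (fun r => 1 ≤ r ∧ pc (r - 1) = e) with hA
  set B := (rns Y pc e).filter (fun r => ¬ (1 ≤ r ∧ pc (r - 1) = e)) with hB
  have hrL : ∀ r ∈ rns Y pc e, r < Y.L ∧ pc r = e ∧ st Y pc r = r := by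
    intro r hr
    obtain ⟨x, h1, h2, rfl⟩ := mem_rns.1 hr
    have h3 := st_le Y pc x
    obtain ⟨h4, h5⟩ := st_run Y pc (le_refl (st Y pc x)) h3
    exact ⟨by omega, h5.trans h2, h4⟩
  have h1 : A.card ≤ S.card := by
    refine Finset.card_le_card_of_injOn (fun r => r - 1) ?_ ?_
    · intro r hr
      obtain ⟨h1, h2, h3⟩ := Finset.mem_filter.1 (Finset.mem_coe.1 hr)
      obtain ⟨h4, h5, h6⟩ := hrL r h1
      rw [Finset.mem_coe]
      obtain ⟨c, rfl⟩ : ∃ c, r = c + 1 := ⟨r - 1, by omega⟩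
      simp only [Nat.add_sub_cancel] at h3 ⊢
      refine Finset.mem_filter.2 ⟨Finset.mem_range.2 (by omega), h3, by omega, ?_⟩
      rcases st_succ Y pc c with ⟨_, h7 | h7⟩ | ⟨h7, _⟩
      · exact absurd (h5.trans h3.symm) h7
      · exact h7
      · have := st_le Y pc c
        omega
    · intro r hr r' hr' he
      obtain ⟨_, h2, _⟩ := Finset.mem_filter.1 (Finset.mem_coe.1 hr)
      obtain ⟨_, h3, _⟩ := Finset.mem_filter.1 (Finset.mem_coe.1 hr')
      simp only at he
      omega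
  have h2 : B.card ≤ 1 := by
    rw [Finset.card_le_one]
    intro r hr r' hr'
    obtain ⟨h3, h4⟩ := Finset.mem_filter.1 hr
    obtain ⟨h5, h6⟩ := Finset.mem_filter.1 hr'
    obtain ⟨h7, h8, _⟩ := hrL r h3
    obtain ⟨h9, h10, _⟩ := hrL r' h5
    rcases lt_trichotomy r r' with h | h | h
    · exfalso
      refine h6 ⟨by omega, ?_⟩
      have h11 := hp.mono r (r' - 1) (by omega) (by omega)
      have h12 := hp.mono (r' - 1) r' (by omega) h9
      omega
    · exact h
    · exfalso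
      refine h4 ⟨by omega, ?_⟩
      have h11 := hp.mono r' (r - 1) (by omega) (by omega)
      have h12 := hp.mono (r - 1) r (by omega) h7
      omega
  have h3 : (rns Y pc e).card = A.card + B.card :=
    (Finset.card_filter_add_card_filter_not _).symm
  omega

open scoped Classical in
/-- The runs with a port linked to the piece `e`. -/
noncomputable def inc (Y : Sys κ) (pc : ℕ → ℕ) (e : ℕ) : Finset ℕ :=
  ((Finset.range Y.L).filter (fun y => ∃ x, Y.Lk x y ∧ pc x = e)).image (st Y pc)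

lemma mem_inc {pc : ℕ → ℕ} {e r : ℕ} :
    r ∈ inc Y pc e ↔ ∃ x y, Y.Lk x y ∧ pc x = e ∧ st Y pc y = r := by
  classical
  unfold inc
  rw [Finset.mem_image]
  constructor
  · rintro ⟨y, hy, rfl⟩
    obtain ⟨_, x, h1, h2⟩ := Finset.mem_filter.1 hy
    exact ⟨x, y, h1, h2, rfl⟩
  · rintro ⟨x, y, h1, h2, rfl⟩
    exact ⟨y, Finset.mem_filter.2 ⟨Finset.mem_range.2 h1.2.1, x, h1, h2⟩, rfl⟩

open scoped Classical in
/-- All runs. -/
noncomputable def rnsA (Y : Sys κ) (pc : ℕ → ℕ) : Finset ℕ := (Finset.range Y.L).image (st Y pc)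

open scoped Classical in
lemma card_rnsA (Y : Sys κ) (pc : ℕ → ℕ) :
    (rnsA Y pc).card ≤ ∑ e ∈ pcs Y pc, (rns Y pc e).card := by
  refine (Finset.card_le_card (t := (pcs Y pc).biUnion (rns Y pc)) ?_).trans
    Finset.card_biUnion_le
  intro r hr
  obtain ⟨x, hx, rfl⟩ := Finset.mem_image.1 hr
  rw [Finset.mem_range] at hx
  exact Finset.mem_biUnion.2 ⟨pc x, mem_pcs.2 ⟨x, hx, rfl⟩, mem_rns.2 ⟨x, hx, rfl, rfl⟩⟩

open scoped Classical in
/-- A run is linked to few pieces. -/
lemma Ax.card_run (h : Y.Ax D) {pc : ℕ → ℕ} (r : ℕ) :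
    ((pcs Y pc).filter (fun e => r ∈ inc Y pc e)).card ≤ D + D * D + 2 := by
  set A := (Finset.range Y.L).filter (fun x => st Y pc x = r) with hA
  rcases A.eq_empty_or_nonempty with hA0 | hAne
  · have h0 : (pcs Y pc).filter (fun e => r ∈ inc Y pc e) = ∅ := by
      rw [Finset.eq_empty_iff_forall_notMem]
      intro e he
      obtain ⟨_, h1⟩ := Finset.mem_filter.1 he
      obtain ⟨x, y, h2, _, h3⟩ := mem_inc.1 h1
      have : y ∈ A := Finset.mem_filter.2 ⟨Finset.mem_range.2 h2.2.1, h3⟩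
      rw [hA0] at this
      exact absurd this (Finset.notMem_empty _)
    rw [h0]
    simp
  set b := A.max' hAne with hb
  obtain ⟨hbL, hbr⟩ := Finset.mem_filter.1 (A.max'_mem hAne)
  rw [Finset.mem_range] at hbL
  change b < Y.L at hbL
  change st Y pc b = r at hbr
  have hsub : (pcs Y pc).filter (fun e => r ∈ inc Y pc e) ⊆
      ({pc r} ∪ (if r < b then lab Y pc r (b - 1) else ∅)) ∪ (Y.nbp (Y.own b)).image pc := by
    intro e he
    obtain ⟨_, h1⟩ := Finset.mem_filter.1 he
    obtain ⟨x, y, h2, rfl, h3⟩ := mem_inc.1 h1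
    have hyb : y ≤ b := A.le_max' y (Finset.mem_filter.2 ⟨Finset.mem_range.2 h2.2.1, h3⟩)
    have hyr : r ≤ y := by
      rw [← h3]
      exact st_le Y pc y
    have hpy : pc r = pc y := by
      rw [← h3]
      exact (st_run Y pc le_rfl (st_le Y pc y)).2
    rcases hyb.lt_or_eq with h4 | h4
    · refine Finset.mem_union_left _ ?_
      by_cases h5 : pc x = pc y
      · refine Finset.mem_union_left _ ?_
        rw [Finset.mem_singleton, hpy, h5]
      · refine Finset.mem_union_right _ ?_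
        rw [if_pos (by omega)]
        exact mem_lab.2 ⟨y, x, hyr, by omega, h2.symm h, h5, rfl⟩
    · refine Finset.mem_union_right _ (Finset.mem_image.2 ⟨x, ?_, rfl⟩)
      rw [← h4]
      exact (h2.nbp_right h).1
  have h1 : (if r < b then lab Y pc r (b - 1) else ∅ : Finset ℕ).card ≤ 1 := by
    split_ifs with h2
    · obtain ⟨c, hc⟩ : ∃ c, b = c + 1 := ⟨b - 1, by omega⟩
      rw [hc] at hbr h2 ⊢
      rcases st_succ Y pc c with ⟨h3, _⟩ | ⟨h3, _, h4⟩
      · omega
      · rw [Nat.add_sub_cancel]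
        rwa [← h3, hbr] at h4
    · simp
  have h2 := Finset.card_le_card hsub
  have h3 := Finset.card_union_le ({pc r} ∪ (if r < b then lab Y pc r (b - 1) else ∅))
    ((Y.nbp (Y.own b)).image pc)
  have h4 := Finset.card_union_le {pc r} (if r < b then lab Y pc r (b - 1) else ∅)
  have h5 : ((Y.nbp (Y.own b)).image pc).card ≤ D + D * D :=
    Finset.card_image_le.trans (h.card_nbp _)
  rw [Finset.card_singleton] at h4
  omega

open scoped Classical in
lemma Ax.sum_inc (h : Y.Ax D) (pc : ℕ → ℕ) :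
    ∑ e ∈ pcs Y pc, (inc Y pc e).card ≤ (D + D * D + 2) * (rnsA Y pc).card := by
  have h1 : ∑ e ∈ pcs Y pc, (inc Y pc e).card =
      ∑ r ∈ rnsA Y pc, ((pcs Y pc).filter (fun e => r ∈ inc Y pc e)).card := by
    have h2 : ∀ e, inc Y pc e = (rnsA Y pc).filter (fun r => r ∈ inc Y pc e) := by
      intro e
      ext r
      rw [Finset.mem_filter]
      refine ⟨fun hr => ⟨?_, hr⟩, fun hr => hr.2⟩
      obtain ⟨x, y, h3, _, h4⟩ := mem_inc.1 hr
      exact Finset.mem_image.2 ⟨y, Finset.mem_range.2 h3.2.1, h4⟩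
    calc ∑ e ∈ pcs Y pc, (inc Y pc e).card
        = ∑ e ∈ pcs Y pc, ((rnsA Y pc).filter (fun r => r ∈ inc Y pc e)).card :=
          Finset.sum_congr rfl (fun e _ => by rw [← h2 e])
      _ = _ := by
          simp only [Finset.card_filter]
          exact Finset.sum_comm
  rw [h1]
  calc ∑ r ∈ rnsA Y pc, ((pcs Y pc).filter (fun e => r ∈ inc Y pc e)).card
      ≤ ∑ _r ∈ rnsA Y pc, (D + D * D + 2) := Finset.sum_le_sum (fun r _ => h.card_run r)
    _ = (D + D * D + 2) * (rnsA Y pc).card := by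
        rw [Finset.sum_const, smul_eq_mul, mul_comm]

/-- The constant. -/
def cR (D t N₁ : ℕ) : ℕ :=
  (2 * (8 * (D + D * D)) + 1) * (N₁ * (Mdr.cst t *
    ((2 * (2 * ((D + D * D) * (D + D * D))) + 1) * (Mdr.cst t + 1))) + 1) + 1

open scoped Classical in
/-- **Few runs and few incidences.** -/
theorem Ax.sum_le (h : Y.Ax D) {pc : ℕ → ℕ} (hp : Y.Pcs pc) {t N N₁ : ℕ} (hK : ¬ Y.KT t)
    (hN₁ : ∀ (P : Fin 4 → ℕ → ℕ), (∀ i j r s, r < N₁ → s < N₁ → r ≠ s → P i r ≠ P j s) →
      ∃ f : ℕ → ℕ, (∀ i < N, f i < N₁) ∧ (∀ i j, i < j → j < N → f i < f j) ∧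
        ∀ i, RamP.Mon N (fun r => P i (f r)))
    (hB : ∀ x z c d, ¬ Y.PB N x z c d) (hL : 0 < Y.L) :
    ∑ e ∈ pcs Y pc, ((rns Y pc e).card + (inc Y pc e).card) ≤
      (D + D * D + 3) * cR D t N₁ * (pcs Y pc).card := by
  set n := (pcs Y pc).card with hn
  have hn1 : 1 ≤ n := Finset.card_pos.2 ⟨pc 0, mem_pcs.2 ⟨0, hL, rfl⟩⟩
  set a := 2 * (8 * (D + D * D)) + 1 with ha
  set b := 2 * (2 * ((D + D * D) * (D + D * D))) + 1 with hb
  set c := Mdr.cst t with hc
  have h1 : (prp Y pc).card ≤ b * (c + 1) * n := by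
    refine (h.card_prp hp hK).trans ?_
    rw [mul_assoc]
    refine Nat.mul_le_mul_left _ ?_
    rw [add_mul, one_mul]
    exact Nat.add_le_add_left hn1 _
  have h2 : ∑ e ∈ pcs Y pc, (rns Y pc e).card ≤ cR D t N₁ * n := by
    calc ∑ e ∈ pcs Y pc, (rns Y pc e).card
        ≤ ∑ e ∈ pcs Y pc, (a * (N₁ * (c * (nbe Y pc e).card) + 1) + 1) := by
          refine Finset.sum_le_sum (fun e _ => ?_)
          exact (hp.card_rns e).trans (Nat.add_le_add_right (h.card_sw hp hK hN₁ hB e) 1)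
      _ = a * (N₁ * (c * (prp Y pc).card)) + (a + 1) * n := by
          rw [← sum_nbe, Finset.sum_add_distrib, ← Finset.mul_sum, Finset.sum_add_distrib,
            ← Finset.mul_sum, ← Finset.mul_sum]
          simp only [Finset.sum_const, smul_eq_mul, mul_one]
          ring
      _ ≤ a * (N₁ * (c * (b * (c + 1) * n))) + (a + 1) * n :=
          Nat.add_le_add_right (Nat.mul_le_mul_left _ (Nat.mul_le_mul_left _
            (Nat.mul_le_mul_left _ h1))) _
      _ = cR D t N₁ * n := by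
          unfold cR
          rw [← ha, ← hb, ← hc]
          ring
  have h3 := h.sum_inc pc
  have h4 := card_rnsA Y pc
  rw [Finset.sum_add_distrib]
  calc ∑ e ∈ pcs Y pc, (rns Y pc e).card + ∑ e ∈ pcs Y pc, (inc Y pc e).card
      ≤ cR D t N₁ * n + (D + D * D + 2) * (cR D t N₁ * n) :=
        Nat.add_le_add h2 (h3.trans (Nat.mul_le_mul_left _ (h4.trans h2)))
    _ = (D + D * D + 3) * cR D t N₁ * n := by ring

/-! ### The window -/

/-- number of groups that have started -/
def cnt (q m : ℕ) (s : ℕ → ℕ) (x : ℕ) : ℕ := ((Finset.range m).filter (fun j => s (q * j) ≤ x)).card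

lemma cnt_mono (q m : ℕ) (s : ℕ → ℕ) {x y : ℕ} (h : x ≤ y) : cnt q m s x ≤ cnt q m s y := by
  unfold cnt
  refine Finset.card_le_card (fun j hj => ?_)
  obtain ⟨h1, h2⟩ := Finset.mem_filter.1 hj
  exact Finset.mem_filter.2 ⟨h1, h2.trans h⟩

lemma cnt_le (q m : ℕ) (s : ℕ → ℕ) (x : ℕ) : cnt q m s x ≤ m := by
  unfold cnt
  exact (Finset.card_filter_le _ _).trans (by simp)

/-- the pieces: shores and groups of `q` intervals -/
lemma Ax.pcs_cnt (h : Y.Ax D) (q m : ℕ) (s : ℕ → ℕ) :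
    Y.Pcs (fun x => Y.sh x + cnt q m s x) where
  mono x y hxy hy := Nat.add_le_add (h.mono x y hxy hy) (cnt_mono q m s hxy)
  sh x y hx hy he := by
    have he : Y.sh x + cnt q m s x = Y.sh y + cnt q m s y := he
    rcases le_total x y with h1 | h1
    · have h2 := h.mono x y h1 hy
      have h3 := cnt_mono q m s h1
      omega
    · have h2 := h.mono y x h1 hx
      have h3 := cnt_mono q m s h1
      omega

open scoped Classical in
/-- **T5 (COUNTING).**  `C'` does not depend on `g`. -/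
theorem window (D N t : ℕ) : ∃ C' : ℕ, ∀ g : ℕ, ∃ C : ℕ, ∀ {κ : Type*} (Y : Sys κ), Y.Ax D →
    (∀ x z c d, ¬ Y.PB N x z c d) → ¬ Y.KT t → ∀ (n : ℕ) (s e : ℕ → ℕ),
    (∀ i < n, s i ≤ e i ∧ e i < Y.L ∧ Y.sh (s i) = Y.sh (e i)) → (∀ i, i + 1 < n → e i < s (i + 1)) →
    C * Y.R < n →
    ∃ (rc : ℕ → ℕ) (j : ℕ), Y.Runs rc ∧ j + g < n ∧
      (∀ x, s j ≤ x → x ≤ e (j + g) → rc x = rc (s j) ∧ rc (x + 1) = rc (s j) ∧ x + 1 < Y.L) ∧
      ∃ B : Finset ℕ, B.card ≤ C' ∧ ∀ x y, s j ≤ x → x ≤ e (j + g) → Y.Lk x y → rc y ∈ B := by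
  obtain ⟨N₁, hN₁'⟩ := RamP.homog (Fin 4) N Unit
  have hN₁ : ∀ (P : Fin 4 → ℕ → ℕ), (∀ i j r s, r < N₁ → s < N₁ → r ≠ s → P i r ≠ P j s) →
      ∃ f : ℕ → ℕ, (∀ i < N, f i < N₁) ∧ (∀ i j, i < j → j < N → f i < f j) ∧
        ∀ i, RamP.Mon N (fun r => P i (f r)) := by
    intro P hP
    obtain ⟨f, h1, h2, _, h3, _⟩ := hN₁' P (fun _ => ()) hP
    exact ⟨f, h1, h2, h3⟩
  set c₄ := (D + D * D + 3) * cR D t N₁ with hc₄
  refine ⟨2 * c₄, fun g => ?_⟩
  set C' := 2 * c₄ with hC'
  set q := (g + 1) * (C' + 2) with hq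
  have hq0 : 0 < q := Nat.mul_pos (by omega) (by omega)
  refine ⟨3 * q, ?_⟩
  intro κ Y h hB hK n s e hse hes hn
  -- order
  have hsm : ∀ i k, i + k < n → i < i + k → e i < s (i + k) := by
    intro i k
    induction k with
    | zero => intro _ h1; omega
    | succ k ih =>
      intro h1 _
      rcases Nat.eq_zero_or_pos k with h2 | h2
      · subst h2
        exact hes i h1
      · have h3 := ih (by omega) (by omega)
        have h4 := (hse (i + k) (by omega)).1
        have h5 := hes (i + k) h1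
        have h6 : i + (k + 1) = i + k + 1 := by ring
        rw [h6]
        omega
  have hlt : ∀ i i', i < i' → i' < n → e i < s i' := by
    intro i i' h1 h2
    have h3 := hsm i (i' - i) (by omega) (by omega)
    rwa [show i + (i' - i) = i' by omega] at h3
  have hlt' : ∀ i i', i < i' → i' < n → s i < s i' := by
    intro i i' h1 h2
    have h3 := hlt i i' h1 h2
    have h4 := (hse i (by omega)).1
    omega
  have hsmono : ∀ i i', i ≤ i' → i' < n → s i ≤ s i' := by
    intro i i' h1 h2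
    rcases h1.lt_or_eq with h3 | h3
    · exact (hlt' i i' h3 h2).le
    · rw [h3]
  have hsL : ∀ i < n, s i < Y.L := fun i hi => by
    have := hse i hi
    omega
  have hL : 0 < Y.L := by
    have := hsL 0 (by omega)
    omega
  have hR : 0 < Y.R := by
    have := h.lt 0 hL
    omega
  set m := n / q with hm
  have hmq : q * m ≤ n := Nat.mul_div_le n q
  have hm3 : 3 * Y.R ≤ m := by
    rw [hm, Nat.le_div_iff_mul_le hq0]
    have h1 : 3 * Y.R * q = 3 * q * Y.R := by ring
    omega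
  have hgrp : ∀ j < m, ∀ k, k < q → q * j + k < n := by
    intro j hj k hk
    have h1 : q * (j + 1) ≤ q * m := Nat.mul_le_mul_left _ hj
    have h2 : q * (j + 1) = q * j + q := by ring
    omega
  set pc : ℕ → ℕ := fun x => Y.sh x + cnt q m s x with hpc
  have hp : Y.Pcs pc := h.pcs_cnt q m s
  -- number of pieces
  have hnF : (pcs Y pc).card ≤ Y.R + m := by
    have h1 : pcs Y pc ⊆ Finset.range (Y.R + m) := by
      intro a ha
      obtain ⟨z, hz, rfl⟩ := mem_pcs.1 ha
      rw [Finset.mem_range]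
      have h1 := h.lt z hz
      have h2 := cnt_le q m s z
      simp only [hpc]
      omega
    exact (Finset.card_le_card h1).trans (by simp)
  -- unbroken groups
  set U := (Finset.range m).filter (fun j => Y.sh (s (q * j)) = Y.sh (e (q * j + (q - 1)))) with hU
  set Bk := (Finset.range m).filter (fun j => ¬ Y.sh (s (q * j)) = Y.sh (e (q * j + (q - 1))))
    with hBk
  have hUB : U.card + Bk.card = m := by
    rw [hU, hBk, Finset.card_filter_add_card_filter_not, Finset.card_range]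
  have hj1 : ∀ j j', j < j' → j' < m → e (q * j + (q - 1)) < s (q * j') := by
    intro j j' h1 h2
    refine hlt _ _ ?_ ?_
    · have h3 : q * (j + 1) ≤ q * j' := Nat.mul_le_mul_left _ h1
      have h4 : q * (j + 1) = q * j + q := by ring
      omega
    · have := hgrp j' h2 0 hq0
      omega
  have hBkc : Bk.card ≤ Y.R := by
    have h1 : Bk.card ≤ (Finset.range Y.R).card := by
      refine Finset.card_le_card_of_injOn (fun j => Y.sh (s (q * j))) ?_ ?_
      · intro j hj
        obtain ⟨h1, _⟩ := Finset.mem_filter.1 (Finset.mem_coe.1 hj)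
        rw [Finset.mem_coe, Finset.mem_range]
        exact h.lt _ (hsL _ (by
          have := hgrp j (Finset.mem_range.1 h1) 0 hq0
          omega))
      · have key : ∀ j ∈ Bk, ∀ j' ∈ Bk, j < j' → Y.sh (s (q * j)) < Y.sh (s (q * j')) := by
          intro j hj j' hj' hjj
          obtain ⟨h1, h2⟩ := Finset.mem_filter.1 hj
          obtain ⟨h3, _⟩ := Finset.mem_filter.1 hj'
          rw [Finset.mem_range] at h1 h3
          have h4 := hgrp j h1 (q - 1) (by omega)
          have h5 := hj1 j j' hjj h3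
          have h6 := hgrp j' h3 0 hq0
          have h7 := h.mono _ _ h5.le (hsL _ h6)
          have h8 := hsmono (q * j) (q * j + (q - 1)) (by omega) h4
          have h9 := hse _ h4
          have h10 := h.mono (s (q * j)) (e (q * j + (q - 1))) (by omega) h9.2.1
          omega
        intro j hj j' hj' he
        rw [Finset.mem_coe] at hj hj'
        simp only at he
        rcases lt_trichotomy j j' with h1 | h1 | h1
        · have := key j hj j' hj' h1
          omega
        · exact h1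
        · have := key j' hj' j hj h1
          omega
    simpa using h1
  -- the full pieces
  have hpclt : ∀ j j', j < j' → j' < m → pc (s (q * j)) < pc (s (q * j')) := by
    intro j j' h1 h2
    have h3 := hgrp j' h2 0 hq0
    have h4 := hj1 j j' h1 h2
    have h5 := hgrp j (by omega) (q - 1) (by omega)
    have h6 := hsmono (q * j) (q * j + (q - 1)) (by omega) h5
    have h7 := (hse _ h5).1
    have h8 := h.mono (s (q * j)) (s (q * j')) (by omega) (hsL _ (by omega))
    have h9 : cnt q m s (s (q * j)) < cnt q m s (s (q * j')) := by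
      unfold cnt
      refine Finset.card_lt_card ?_
      rw [Finset.ssubset_iff_of_subset]
      · refine ⟨j', Finset.mem_filter.2 ⟨Finset.mem_range.2 h2, le_rfl⟩, ?_⟩
        intro h10
        have := (Finset.mem_filter.1 h10).2
        omega
      · intro i hi
        obtain ⟨h10, h11⟩ := Finset.mem_filter.1 hi
        exact Finset.mem_filter.2 ⟨h10, by omega⟩
    simp only [hpc]
    omega
  have hinj : ∀ j ∈ U, ∀ j' ∈ U, pc (s (q * j)) = pc (s (q * j')) → j = j' := by
    intro j hj j' hj' he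
    have h1 := Finset.mem_range.1 (Finset.mem_filter.1 hj).1
    have h2 := Finset.mem_range.1 (Finset.mem_filter.1 hj').1
    rcases lt_trichotomy j j' with h3 | h3 | h3
    · have := hpclt j j' h3 h2
      omega
    · exact h3
    · have := hpclt j' j h3 h1
      omega
  -- a good full piece
  obtain ⟨j, hjU, hjw⟩ : ∃ j ∈ U, (rns Y pc (pc (s (q * j)))).card +
      (inc Y pc (pc (s (q * j)))).card ≤ C' := by
    by_contra hcon
    push Not at hcon
    have h1 := h.sum_le hp hK hN₁ hB hL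
    rw [← hc₄] at h1
    have h2 : ∑ a ∈ U.image (fun j => pc (s (q * j))),
        ((rns Y pc a).card + (inc Y pc a).card) ≤
        ∑ a ∈ pcs Y pc, ((rns Y pc a).card + (inc Y pc a).card) := by
      refine Finset.sum_le_sum_of_subset ?_
      intro a ha
      obtain ⟨j, hj, rfl⟩ := Finset.mem_image.1 ha
      have h3 := Finset.mem_range.1 (Finset.mem_filter.1 hj).1
      exact mem_pcs.2 ⟨_, hsL _ (by have := hgrp j h3 0 hq0; omega), rfl⟩
    rw [Finset.sum_image (fun j hj j' hj' he => hinj j hj j' hj' he)] at h2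
    have h3 : ∑ _j ∈ U, (C' + 1) ≤ ∑ j ∈ U, ((rns Y pc (pc (s (q * j)))).card +
        (inc Y pc (pc (s (q * j)))).card) := Finset.sum_le_sum (fun j hj => hcon j hj)
    rw [Finset.sum_const, smul_eq_mul] at h3
    have h4 : U.card * (C' + 1) ≤ c₄ * (Y.R + m) :=
      (h3.trans (h2.trans h1)).trans (Nat.mul_le_mul_left _ hnF)
    have h5 : Y.R + m ≤ 2 * U.card := by omega
    have h6 : c₄ * (Y.R + m) ≤ c₄ * (2 * U.card) := Nat.mul_le_mul_left _ h5
    have h7 : c₄ * (2 * U.card) = U.card * C' := by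
      rw [hC']
      ring
    have h8 : U.card * (C' + 1) = U.card * C' + U.card := by ring
    omega
  obtain ⟨hjm, hjs⟩ := Finset.mem_filter.1 hjU
  rw [Finset.mem_range] at hjm
  set a := pc (s (q * j)) with ha
  -- all ports of the group are in the piece
  have hin : ∀ x, s (q * j) ≤ x → x ≤ e (q * j + (q - 1)) → pc x = a := by
    intro x hx1 hx2
    have h1 := hgrp j hjm (q - 1) (by omega)
    have h2 := (hse _ h1).2.1
    have h3 := h.mono _ _ hx1 (by omega)
    have h4 := h.mono _ _ hx2 h2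
    have h5 : cnt q m s x = cnt q m s (s (q * j)) := by
      unfold cnt
      congr 1
      refine Finset.filter_congr ?_
      intro i hi
      rw [Finset.mem_range] at hi
      constructor
      · intro h6
        by_contra h7
        have h8 : j < i := by
          by_contra h9
          exact h7 (hsmono _ _ (Nat.mul_le_mul_left _ (not_lt.1 h9)) (by
            have := hgrp j hjm 0 hq0
            omega))
        have := hj1 j i h8 hi
        omega
      · intro h6
        omega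
    simp only [ha, hpc]
    omega
  -- the blocks
  have hblk : ∀ i, i ≤ C' → q * j + (g + 1) * i + g < q * j + (g + 1) * (i + 1) ∧
      q * j + (g + 1) * (i + 1) ≤ q * j + (q - 1) := by
    intro i hi
    have h1 : (g + 1) * (i + 1) = (g + 1) * i + (g + 1) := by ring
    have h2 : (g + 1) * (i + 1) ≤ (g + 1) * (C' + 1) := Nat.mul_le_mul_left _ (by omega)
    have h3 : q = (g + 1) * (C' + 1) + (g + 1) := by
      rw [hq]
      ring
    omega
  have hbn : ∀ i, i ≤ C' → q * j + (g + 1) * (i + 1) < n := by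
    intro i hi
    have h1 := hblk i hi
    have h2 := hgrp j hjm (q - 1) (by omega)
    omega
  obtain ⟨i, hi, hgood⟩ : ∃ i ≤ C', st Y pc (s (q * j + (g + 1) * i)) =
      st Y pc (e (q * j + (g + 1) * i + g) + 1) := by
    by_contra hcon
    push Not at hcon
    have key : ∀ i i', i < i' → i' ≤ C' → st Y pc (s (q * j + (g + 1) * i)) <
        st Y pc (s (q * j + (g + 1) * i')) := by
      intro i i' h1 h2
      have h3 := hcon i (by omega)
      have h4 := hblk i (by omega)
      have h5 := hbn i (by omega)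
      have h6 := hlt (q * j + (g + 1) * i + g) (q * j + (g + 1) * (i + 1)) h4.1 h5
      have h7 := hsmono (q * j + (g + 1) * i) (q * j + (g + 1) * i + g) (by omega) (by omega)
      have h8 := (hse (q * j + (g + 1) * i + g) (by omega)).1
      have h9 := st_mono Y pc (show s (q * j + (g + 1) * i) ≤
        e (q * j + (g + 1) * i + g) + 1 by omega)
      have h10 : (g + 1) * (i + 1) ≤ (g + 1) * i' := Nat.mul_le_mul_left _ h1
      have h11 : (g + 1) * i' ≤ (g + 1) * (C' + 1) := Nat.mul_le_mul_left _ (by omega)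
      have h12 := hbn C' le_rfl
      have h13 := hsmono (q * j + (g + 1) * (i + 1)) (q * j + (g + 1) * i') (by omega) (by omega)
      have h14 := st_mono Y pc (show e (q * j + (g + 1) * i + g) + 1 ≤
        s (q * j + (g + 1) * i') by omega)
      omega
    have h1 : (Finset.range (C' + 1)).card ≤ (rns Y pc a).card := by
      refine Finset.card_le_card_of_injOn (fun i => st Y pc (s (q * j + (g + 1) * i))) ?_ ?_
      · intro i hi
        rw [Finset.mem_coe, Finset.mem_range] at hi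
        rw [Finset.mem_coe]
        have h2 := hblk i (by omega)
        have h3 := hgrp j hjm (q - 1) (by omega)
        have h4 := hsmono (q * j) (q * j + (g + 1) * i) (by omega) (by omega)
        have h5 := hsmono (q * j + (g + 1) * i) (q * j + (q - 1)) (by omega) h3
        have h6 := (hse _ h3).1
        exact mem_rns.2 ⟨_, hsL _ (by omega), hin _ h4 (by omega), rfl⟩
      · intro i hi i' hi' he
        rw [Finset.mem_coe, Finset.mem_range] at hi hi'
        simp only at he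
        rcases lt_trichotomy i i' with h2 | h2 | h2
        · have := key i i' h2 (by omega)
          omega
        · exact h2
        · have := key i' i h2 (by omega)
          omega
    rw [Finset.card_range] at h1
    omega
  -- the window
  set J := q * j + (g + 1) * i with hJ
  have h1 := hblk i hi
  have h2 := hbn i hi
  have h3 := hgrp j hjm (q - 1) (by omega)
  have hJL : e (J + g) + 1 < Y.L := by
    have h4 := hlt (J + g) (q * j + (g + 1) * (i + 1)) h1.1 h2
    have h5 := hsL _ h2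
    omega
  refine ⟨st Y pc, J, hp.runs, by omega, ?_, inc Y pc a, by omega, ?_⟩
  · intro x hx1 hx2
    have h4 := st_mono Y pc hx1
    have h5 := st_mono Y pc (show x ≤ x + 1 by omega)
    have h6 := st_mono Y pc (show x + 1 ≤ e (J + g) + 1 by omega)
    exact ⟨by omega, by omega, by omega⟩
  · intro x y hx1 hx2 hxy
    have h4 := hsmono (q * j) J (by omega) (by omega)
    have h5 := hlt (J + g) (q * j + (g + 1) * (i + 1)) h1.1 h2
    have h6 := hsmono _ _ h1.2 h3
    have h7 := (hse _ h3).1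
    exact mem_inc.2 ⟨x, y, hxy, hin x (by omega) (by omega), rfl⟩

end Sys

end EN
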