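import Pool.Agent.EN.Core
import Pool.Agent.EN.Far
import Pool.Agent.EN.Window

/-!
# The core statement of module II.3 (rows T5, T3, T4, T6 together)
-/

namespace EN

namespace Sys

universe u₀

/-- **T6.**  In a system without patterns the number of disjoint bad intervals is at most linear in
the number of shores. -/
theorem core (D N m t : ℕ) : ∃ C M : ℕ, ∀ {κ : Type u₀} (Y : Sys κ), Y.Ax D → ¬ Y.Pat N m t →
    ∀ (n : ℕ) (s e : ℕ → ℕ), (∀ i < n, Y.Bad M (s i) (e i)) →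
    (∀ i, i + 1 < n → e i < s (i + 1)) → n ≤ C * Y.R :=
  core_of (window D N t) (far D N 4)

lemma Thick.mono {κ : Type*} {Y : Sys κ} {M M' a b : ℕ} (h : Y.Thick M' a b) (hM : M ≤ M') :
    Y.Thick M a b := by
  obtain ⟨u, v, h1, h2⟩ := h
  exact ⟨u, v, fun k hk => h1 k (by omega), fun i hi j hj hij => h2 i (by omega) j (by omega) hij⟩

lemma Bad.mono {κ : Type*} {Y : Sys κ} {M M' a b : ℕ} (h : Y.Bad M' a b) (hM : M ≤ M') :
    Y.Bad M a b := by
  obtain ⟨a', b', h1, h2, h3, h4⟩ := h.thick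
  exact ⟨h.ab, h.bL, h.sh, h.dirty, a', b', h1, h2, h3, h4.mono hM⟩

/-- T6 with `1 ≤ M`, for all larger `M`. -/
theorem core1 (D N m t : ℕ) : ∃ C M₀ : ℕ, ∀ M, M₀ ≤ M → ∀ {κ : Type u₀} (Y : Sys κ), Y.Ax D →
    ¬ Y.Pat N m t → ∀ (n : ℕ) (s e : ℕ → ℕ), (∀ i < n, Y.Bad M (s i) (e i)) →
    (∀ i, i + 1 < n → e i < s (i + 1)) → n ≤ C * Y.R := by
  obtain ⟨C, M, h⟩ := core.{u₀} D N m t
  exact ⟨C, M, fun M' hM' κ Y hY hp n s e hb hc =>
    h Y hY hp n s e (fun i hi => (hb i hi).mono hM') hc⟩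

end Sys

end EN
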