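import Pool.Agent.EN.Pocket

/-!
# The local dichotomy: all rungs double, or one zigzag

`Zz`: an abstract weakly monotone relation between two lines in which every place is double (exactly
one neighbour, double itself) or has at least two neighbours.
-/

namespace EN

/-- Weakly monotone relation between two lines. -/
structure Zz (E : ℕ → ℕ → Prop) (dP dQ : ℕ → Prop) (A0 A1 B0 B1 : ℕ) : Prop where
  mono : ∀ i i' k k', i < i' → E i k → E i' k' → k ≤ k'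
  rng : ∀ i k, A0 ≤ i → i ≤ A1 → E i k → B0 ≤ k ∧ k ≤ B1
  p1 : ∀ i k, A0 ≤ i → i ≤ A1 → dP i → E i k → dQ k
  q1 : ∀ i k, B0 ≤ k → k ≤ B1 → dQ k → E i k → dP i
  p2 : ∀ i, A0 ≤ i → i ≤ A1 → dP i → ∃ k, E i k ∧ ∀ k', E i k' → k' = k
  q2 : ∀ k, B0 ≤ k → k ≤ B1 → dQ k → ∃ i, E i k ∧ ∀ i', E i' k → i' = i
  p3 : ∀ i, A0 ≤ i → i ≤ A1 → ¬ dP i → ∃ k k', k < k' ∧ E i k ∧ E i k'
  q3 : ∀ k, B0 ≤ k → k ≤ B1 → ¬ dQ k → ∃ i i', i < i' ∧ E i k ∧ E i' k

namespace Zz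

variable {E : ℕ → ℕ → Prop} {dP dQ : ℕ → Prop} {A0 A1 B0 B1 : ℕ}

lemma exP (h : Zz E dP dQ A0 A1 B0 B1) {i : ℕ} (h0 : A0 ≤ i) (h1 : i ≤ A1) : ∃ k, E i k := by
  by_cases hd : dP i
  · obtain ⟨k, hk, _⟩ := h.p2 i h0 h1 hd
    exact ⟨k, hk⟩
  · obtain ⟨k, _, _, hk, _⟩ := h.p3 i h0 h1 hd
    exact ⟨k, hk⟩

lemma exQ (h : Zz E dP dQ A0 A1 B0 B1) {k : ℕ} (h0 : B0 ≤ k) (h1 : k ≤ B1) : ∃ i, E i k := by
  by_cases hd : dQ k
  · obtain ⟨k, hk, _⟩ := h.q2 k h0 h1 hd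
    exact ⟨k, hk⟩
  · obtain ⟨k, _, _, hk, _⟩ := h.q3 k h0 h1 hd
    exact ⟨k, hk⟩

/-- Exactly two consecutive neighbours. -/
lemma two (h : Zz E dP dQ A0 A1 B0 B1) {i : ℕ} (h0 : A0 ≤ i) (h1 : i ≤ A1) (hd : ¬ dP i) :
    ∃ k, E i k ∧ E i (k + 1) ∧ ∀ k', E i k' → k' = k ∨ k' = k + 1 := by
  -- no middle neighbour
  have hmid : ∀ k1 k2 k3, k1 < k2 → k2 < k3 → E i k1 → E i k2 → E i k3 → False := by
    intro k1 k2 k3 h12 h23 e1 e2 e3
    obtain ⟨g0, g1⟩ := h.rng i k2 h0 h1 e2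
    have hq : ¬ dQ k2 := fun hq => hd (h.q1 i k2 g0 g1 hq e2)
    obtain ⟨i1, i2, hi, f1, f2⟩ := h.q3 k2 g0 g1 hq
    rcases Nat.lt_or_ge i i2 with g | g
    · have := h.mono i i2 k3 k2 g e3 f2
      omega
    · have := h.mono i1 i k2 k1 (by omega) f1 e1
      omega
  obtain ⟨k, k', hk, e1, e2⟩ := h.p3 i h0 h1 hd
  have hcon : k' = k + 1 := by
    by_contra hne
    obtain ⟨g0, g1⟩ := h.rng i k h0 h1 e1
    obtain ⟨g2, g3⟩ := h.rng i k' h0 h1 e2
    obtain ⟨i', hi'⟩ := h.exQ (k := k + 1) (by omega) (by omega)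
    rcases Nat.lt_trichotomy i' i with g | g | g
    · have := h.mono i' i (k + 1) k g hi' e1
      omega
    · subst g
      exact hmid k (k + 1) k' (by omega) (by omega) e1 hi' e2
    · have := h.mono i i' k' (k + 1) g e2 hi'
      omega
  subst hcon
  refine ⟨k, e1, e2, ?_⟩
  intro c hc
  rcases Nat.lt_trichotomy c k with g | g | g
  · exact (hmid c k (k + 1) g (by omega) hc e1 e2).elim
  · exact Or.inl g
  · rcases Nat.lt_trichotomy c (k + 1) with g' | g' | g'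
    · omega
    · exact Or.inr g'
    · exact (hmid k (k + 1) c (by omega) g' e1 e2 hc).elim

/-- A zigzag continues forward. -/
lemma fwd (h : Zz E dP dQ A0 A1 B0 B1) {i k : ℕ} (h0 : A0 ≤ i) (h1 : i + 1 ≤ A1) (hd : ¬ dP i)
    (e1 : E i k) (e2 : E i (k + 1)) : ¬ dP (i + 1) ∧ E (i + 1) (k + 1) ∧ E (i + 1) (k + 2) := by
  obtain ⟨g0, g1⟩ := h.rng i (k + 1) h0 (by omega) e2
  have hq : ¬ dQ (k + 1) := fun hq => hd (h.q1 i _ g0 g1 hq e2)
  obtain ⟨i1, i2, hi, f1, f2⟩ := h.q3 (k + 1) g0 g1 hq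
  have hi1 : i ≤ i1 := by
    by_contra hcon
    have := h.mono i1 i (k + 1) k (by omega) f1 e1
    omega
  have hkey : E (i + 1) (k + 1) := by
    rcases Nat.lt_or_ge (i + 1) i2 with g | g
    · -- all neighbours of `i + 1` are `k + 1`
      obtain ⟨c, hc⟩ := h.exP (i := i + 1) (by omega) h1
      have a1 := h.mono i (i + 1) (k + 1) c (by omega) e2 hc
      have a2 := h.mono (i + 1) i2 c (k + 1) g hc f2
      have : c = k + 1 := by omega
      rwa [this] at hc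
    · have : i2 = i + 1 := by omega
      rwa [this] at f2
  have hdp : ¬ dP (i + 1) := fun hdp => hq (h.p1 (i + 1) (k + 1) (by omega) h1 hdp hkey)
  obtain ⟨c, c1, c2, c3⟩ := h.two (i := i + 1) (by omega) h1 hdp
  refine ⟨hdp, hkey, ?_⟩
  have a1 := h.mono i (i + 1) (k + 1) c (by omega) e2 c1
  rcases c3 _ hkey with g | g
  · have h3 : k + 2 = c + 1 := by omega
    rw [h3]
    exact c2
  · omega

/-- A zigzag continues backward. -/
lemma bwd (h : Zz E dP dQ A0 A1 B0 B1) {i k : ℕ} (h0 : A0 ≤ i) (h1 : i + 1 ≤ A1)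
    (hd : ¬ dP (i + 1)) (e1 : E (i + 1) k) (e2 : E (i + 1) (k + 1)) :
    ¬ dP i ∧ ∃ c, k = c + 1 ∧ E i c ∧ E i (c + 1) := by
  obtain ⟨g0, g1⟩ := h.rng (i + 1) k (by omega) h1 e1
  have hq : ¬ dQ k := fun hq => hd (h.q1 (i + 1) _ g0 g1 hq e1)
  obtain ⟨i1, i2, hi, f1, f2⟩ := h.q3 k g0 g1 hq
  have hi2 : i2 ≤ i + 1 := by
    by_contra hcon
    have := h.mono (i + 1) i2 (k + 1) k (by omega) e2 f2
    omega
  have hkey : E i k := by
    rcases Nat.lt_or_ge i1 i with g | g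
    · obtain ⟨c, hc⟩ := h.exP (i := i) (by omega) (by omega)
      have a1 := h.mono i1 i k c g f1 hc
      have a2 := h.mono i (i + 1) c k (by omega) hc e1
      have : c = k := by omega
      rwa [this] at hc
    · have : i1 = i := by omega
      rwa [this] at f1
  have hdp : ¬ dP i := fun hdp => hq (h.p1 i k (by omega) (by omega) hdp hkey)
  obtain ⟨c, c1, c2, c3⟩ := h.two (i := i) (by omega) (by omega) hdp
  refine ⟨hdp, c, ?_, c1, c2⟩
  have a1 := h.mono i (i + 1) (c + 1) k (by omega) c2 e1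
  rcases c3 _ hkey with g | g
  · omega
  · exact g

/-- Double rungs are consecutive. -/
lemma dbl (h : Zz E dP dQ A0 A1 B0 B1) {i k k' : ℕ} (h0 : A0 ≤ i) (h1 : i + 1 ≤ A1) (hd : dP i)
    (hd' : dP (i + 1)) (e1 : E i k) (e2 : E (i + 1) k') : k' = k + 1 := by
  obtain ⟨g0, g1⟩ := h.rng i k h0 (by omega) e1
  obtain ⟨g2, g3⟩ := h.rng (i + 1) k' (by omega) h1 e2
  have hle := h.mono i (i + 1) k k' (by omega) e1 e2
  have hne : k ≠ k' := by
    rintro rfl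
    obtain ⟨j, hj, hj'⟩ := h.q2 k g0 g1 (h.p1 i k h0 (by omega) hd e1)
    have a1 := hj' _ e1
    have a2 := hj' _ e2
    omega
  by_contra hcon
  obtain ⟨j, hj⟩ := h.exQ (k := k + 1) (by omega) (by omega)
  obtain ⟨c, hc, hc'⟩ := h.p2 i h0 (by omega) hd
  obtain ⟨c2, hc2, hc2'⟩ := h.p2 (i + 1) (by omega) h1 hd'
  rcases Nat.lt_trichotomy j i with g | g | g
  · have := h.mono j i (k + 1) k g hj e1
    omega
  · subst g
    have a1 := hc' _ e1
    have a2 := hc' _ hj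
    omega
  · rcases Nat.lt_or_ge (i + 1) j with g' | g'
    · have := h.mono (i + 1) j k' (k + 1) g' e2 hj
      omega
    · have : j = i + 1 := by omega
      subst this
      have a1 := hc2' _ e2
      have a2 := hc2' _ hj
      omega

/-- A place next to a double one is double. -/
lemma dbl_iff (h : Zz E dP dQ A0 A1 B0 B1) {i : ℕ} (h0 : A0 ≤ i) (h1 : i + 1 ≤ A1) :
    dP i ↔ dP (i + 1) := by
  constructor
  · intro hd
    by_contra hcon
    obtain ⟨k, k1, k2, _⟩ := h.two (i := i + 1) (by omega) h1 hcon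
    exact (h.bwd h0 h1 hcon k1 k2).1 hd
  · intro hd
    by_contra hcon
    obtain ⟨k, k1, k2, _⟩ := h.two (i := i) h0 (by omega) hcon
    exact (h.fwd h0 h1 hcon k1 k2).1 hd

end Zz

end EN
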