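import Pool.Agent.EN.Frm

/-!
# The spine lemma: a grid in snake order
-/

open Set
open scoped Matroid

namespace EN

open BIC Gad

variable {α V : Type*} {S : Set α} {ends : α → Sym2 V}

/-! ### Connected vertex sets -/

lemma vconn_singleton (v : V) : VConn S ends {v} := by
  rintro a rfl b rfl
  exact Relation.ReflTransGen.refl

lemma vconn_empty : VConn S ends (∅ : Set V) := fun a ha => absurd ha (by simp)

lemma rtg_mono {A B : Set V} (h : A ⊆ B) {u v : V}
    (huv : Relation.ReflTransGen (fun x y => GAdj S ends x y ∧ x ∈ A ∧ y ∈ A) u v) :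
    Relation.ReflTransGen (fun x y => GAdj S ends x y ∧ x ∈ B ∧ y ∈ B) u v := by
  induction huv with
  | refl => exact Relation.ReflTransGen.refl
  | tail _ h2 ih => exact ih.tail ⟨h2.1, h h2.2.1, h h2.2.2⟩

lemma vc_lnk {A B : Set V} (hA : VConn S ends A) (hB : VConn S ends B)
    (h : Lnk S ends A B) : VConn S ends (A ∪ B) := by
  obtain ⟨e, he, a, ha, b, hb, hab⟩ := h
  have h1 : ∀ u ∈ A, ∀ v ∈ B, Relation.ReflTransGen
      (fun x y => GAdj S ends x y ∧ x ∈ A ∪ B ∧ y ∈ A ∪ B) u v := by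
    intro u hu v hv
    exact ((rtg_mono subset_union_left (hA u hu a ha)).tail
      ⟨⟨e, he, hab⟩, Or.inl ha, Or.inr hb⟩).trans (rtg_mono subset_union_right (hB b hb v hv))
  have h2 : ∀ u ∈ B, ∀ v ∈ A, Relation.ReflTransGen
      (fun x y => GAdj S ends x y ∧ x ∈ A ∪ B ∧ y ∈ A ∪ B) u v := by
    intro u hu v hv
    exact ((rtg_mono subset_union_right (hB u hu b hb)).tail
      ⟨⟨e, he, by rw [hab, Sym2.eq_swap]⟩, Or.inr hb, Or.inl ha⟩).trans
      (rtg_mono subset_union_left (hA a ha v hv))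
  rintro u (hu | hu) v (hv | hv)
  · exact rtg_mono subset_union_left (hA u hu v hv)
  · exact h1 u hu v hv
  · exact h2 u hu v hv
  · exact rtg_mono subset_union_right (hB u hu v hv)

lemma vc_union {A B : Set V} (hA : VConn S ends A) (hB : VConn S ends B) {c : V} (hcA : c ∈ A)
    (hcB : c ∈ B) : VConn S ends (A ∪ B) := by
  rintro u (hu | hu) v (hv | hv)
  · exact rtg_mono subset_union_left (hA u hu v hv)
  · exact (rtg_mono subset_union_left (hA u hu c hcA)).trans
      (rtg_mono subset_union_right (hB c hcB v hv))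
  · exact (rtg_mono subset_union_right (hB u hu c hcB)).trans
      (rtg_mono subset_union_left (hA c hcA v hv))
  · exact rtg_mono subset_union_right (hB u hu v hv)

/-- Paths are connected. -/
lemma vconn_path (f : ℕ → V) (n : ℕ) (h : ∀ i < n, GAdj S ends (f i) (f (i + 1))) :
    VConn S ends (f '' {i | i ≤ n}) := by
  have h1 : ∀ i ≤ n, Relation.ReflTransGen
      (fun x y => GAdj S ends x y ∧ x ∈ f '' {i | i ≤ n} ∧ y ∈ f '' {i | i ≤ n}) (f 0) (f i) := by
    intro i
    induction i with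
    | zero => intro _; exact Relation.ReflTransGen.refl
    | succ i ih =>
      intro hi
      exact (ih (by omega)).tail ⟨h i (by omega), ⟨i, show i ≤ n by omega, rfl⟩,
        ⟨i + 1, hi, rfl⟩⟩
  have h2 : ∀ i ≤ n, Relation.ReflTransGen
      (fun x y => GAdj S ends x y ∧ x ∈ f '' {i | i ≤ n} ∧ y ∈ f '' {i | i ≤ n}) (f i) (f 0) := by
    intro i
    induction i with
    | zero => intro _; exact Relation.ReflTransGen.refl
    | succ i ih =>
      intro hi
      exact Relation.ReflTransGen.head ⟨(h i (by omega)).symm, ⟨i + 1, hi, rfl⟩,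
        ⟨i, show i ≤ n by omega, rfl⟩⟩ (ih (by omega))
  rintro _ ⟨i, hi, rfl⟩ _ ⟨j, hj, rfl⟩
  exact (h2 i hi).trans (h1 j hj)

/-! ### The spine -/

/-- Position of the cell `c` in snake order. -/
def idx (w : ℕ) (c : ℕ × ℕ) : ℕ := c.2 * w + if c.2 % 2 = 0 then c.1 else w - 1 - c.1

lemma idx_lt {w : ℕ} {c : ℕ × ℕ} (hc : c ∈ Cl w) : idx w c < w * w := by
  obtain ⟨h1, h2⟩ := hc
  have h3 : (c.2 + 1) * w ≤ w * w := Nat.mul_le_mul_right _ h2
  rw [add_mul, one_mul] at h3
  unfold idx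
  split_ifs <;> omega

lemma divmod {w a b : ℕ} (hb : b < w) : (a * w + b) / w = a ∧ (a * w + b) % w = b := by
  have hw : 0 < w := by omega
  constructor
  · rw [mul_comm, Nat.mul_add_div hw, Nat.div_eq_of_lt hb, add_zero]
  · rw [mul_comm, Nat.mul_add_mod, Nat.mod_eq_of_lt hb]

lemma idx_inj {w : ℕ} {c c' : ℕ × ℕ} (hc : c ∈ Cl w) (hc' : c' ∈ Cl w)
    (h : idx w c = idx w c') : c = c' := by
  obtain ⟨h1, h2⟩ := hc
  obtain ⟨h3, h4⟩ := hc'
  unfold idx at h
  have hb : (if c.2 % 2 = 0 then c.1 else w - 1 - c.1) < w := by split_ifs <;> omega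
  have hb' : (if c'.2 % 2 = 0 then c'.1 else w - 1 - c'.1) < w := by split_ifs <;> omega
  have d1 := divmod (a := c.2) hb
  have d2 := divmod (a := c'.2) hb'
  rw [h] at d1
  have h5 : c.2 = c'.2 := d1.1.symm.trans d2.1
  have h6 := d1.2.symm.trans d2.2
  rw [h5] at h6
  refine Prod.ext ?_ h5
  split_ifs at h6 <;> omega

/-- A spine with two families of nested arcs. -/
structure Spine (S : Set α) (ends : α → Sym2 V) (w : ℕ) (Vs : ℕ → Set V)
    (As : ℕ → ℕ → Set V) : Prop where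
  finV : ∀ i < w * w, (Vs i).Finite
  conV : ∀ i < w * w, VConn S ends (Vs i)
  finA : ∀ r s, 1 ≤ r → r < w → 2 ≤ s → s ≤ w → (As r s).Finite
  conA : ∀ r s, 1 ≤ r → r < w → 2 ≤ s → s ≤ w → VConn S ends (As r s)
  dVV : ∀ i < w * w, ∀ j < w * w, i ≠ j → Disjoint (Vs i) (Vs j)
  dVA : ∀ i < w * w, ∀ r s, 1 ≤ r → r < w → 2 ≤ s → s ≤ w → Disjoint (Vs i) (As r s)
  dAA : ∀ r s, 1 ≤ r → r < w → 2 ≤ s → s ≤ w → ∀ r' s', 1 ≤ r' → r' < w → 2 ≤ s' → s' ≤ w →
    (r, s) ≠ (r', s') → Disjoint (As r s) (As r' s')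
  lnk : ∀ i, i + 1 < w * w → Lnk S ends (Vs i) (Vs (i + 1))
  lnkA : ∀ r s, 1 ≤ r → r < w → 2 ≤ s → s ≤ w →
    Lnk S ends (As r s) (Vs (r * w - s)) ∧ Lnk S ends (As r s) (Vs (r * w + s - 1))

/-- The arc used by the cell `c`. -/
def arcOf (As : ℕ → ℕ → Set V) (w : ℕ) (c : ℕ × ℕ) : Set V :=
  if c.2 + 1 < w ∧ 2 ≤ (c.2 + 1) * w - idx w c then As (c.2 + 1) ((c.2 + 1) * w - idx w c) else ∅

theorem Spine.grid {w : ℕ} {Vs : ℕ → Set V} {As : ℕ → ℕ → Set V} (h : Spine S ends w Vs As) :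
    ∃ U : ℕ × ℕ → Set V, (∀ c ∈ Cl w, (U c).Finite ∧ VConn S ends (U c) ∧ Vs (idx w c) ⊆ U c ∧
        U c ⊆ (⋃ i ∈ Finset.range (w * w), Vs i) ∪
          ⋃ r ∈ Finset.Ico 1 w, ⋃ s ∈ Finset.Icc 2 w, As r s) ∧
      (∀ c ∈ Cl w, ∀ c' ∈ Cl w, c ≠ c' → Disjoint (U c) (U c')) ∧
      ∀ c c', Nb w c c' → Lnk S ends (U c) (U c') := by
  have hidx : ∀ c ∈ Cl w, c.2 * w ≤ idx w c ∧ idx w c < (c.2 + 1) * w ∧
      (c.2 + 1) * w - idx w c ≤ w := by
    rintro c ⟨h1, h2⟩
    have h3 : (c.2 + 1) * w = c.2 * w + w := by rw [add_mul, one_mul]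
    unfold idx
    split_ifs <;> omega
  -- the arc of a cell, when present
  have harc : ∀ c ∈ Cl w, (c.2 + 1 < w ∧ 2 ≤ (c.2 + 1) * w - idx w c) →
      1 ≤ c.2 + 1 ∧ c.2 + 1 < w ∧ 2 ≤ (c.2 + 1) * w - idx w c ∧ (c.2 + 1) * w - idx w c ≤ w :=
    fun c hc h1 => ⟨by omega, h1.1, h1.2, (hidx c hc).2.2⟩
  have hlnk1 : ∀ c ∈ Cl w, (c.2 + 1 < w ∧ 2 ≤ (c.2 + 1) * w - idx w c) →
      Lnk S ends (Vs (idx w c)) (arcOf As w c) := by
    intro c hc h1
    obtain ⟨h2, h3, h4, h5⟩ := harc c hc h1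
    have h6 := (h.lnkA _ _ h2 h3 h4 h5).1
    have h7 : (c.2 + 1) * w - ((c.2 + 1) * w - idx w c) = idx w c := by
      have := hidx c hc
      omega
    rw [h7] at h6
    unfold arcOf
    rw [if_pos h1]
    exact h6.symm
  set U : ℕ × ℕ → Set V := fun c => Vs (idx w c) ∪ arcOf As w c with hU
  have hdV : ∀ c ∈ Cl w, ∀ c' ∈ Cl w, Disjoint (Vs (idx w c)) (arcOf As w c') := by
    intro c hc c' hc'
    unfold arcOf
    split_ifs with h1
    · obtain ⟨h2, h3, h4, h5⟩ := harc c' hc' h1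
      exact h.dVA _ (idx_lt hc) _ _ h2 h3 h4 h5
    · exact Set.disjoint_empty _
  refine ⟨U, ?_, ?_, ?_⟩
  · intro c hc
    refine ⟨(h.finV _ (idx_lt hc)).union ?_, ?_, subset_union_left, union_subset ?_ ?_⟩
    · unfold arcOf
      split_ifs with h1
      · obtain ⟨h2, h3, h4, h5⟩ := harc c hc h1
        exact h.finA _ _ h2 h3 h4 h5
      · exact Set.finite_empty
    · by_cases h1 : c.2 + 1 < w ∧ 2 ≤ (c.2 + 1) * w - idx w c
      · obtain ⟨h2, h3, h4, h5⟩ := harc c hc h1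
        refine vc_lnk (h.conV _ (idx_lt hc)) ?_ (hlnk1 c hc h1)
        unfold arcOf
        rw [if_pos h1]
        exact h.conA _ _ h2 h3 h4 h5
      · simp only [hU]
        unfold arcOf
        rw [if_neg h1, union_empty]
        exact h.conV _ (idx_lt hc)
    · exact fun v hv => Or.inl (mem_iUnion₂.2 ⟨_, Finset.mem_range.2 (idx_lt hc), hv⟩)
    · unfold arcOf
      split_ifs with h1
      · obtain ⟨h2, h3, h4, h5⟩ := harc c hc h1
        exact fun v hv => Or.inr (mem_iUnion₂.2 ⟨_, Finset.mem_Ico.2 ⟨h2, h3⟩,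
          mem_iUnion₂.2 ⟨_, Finset.mem_Icc.2 ⟨h4, h5⟩, hv⟩⟩)
      · exact empty_subset _
  · intro c hc c' hc' hne
    have hi : idx w c ≠ idx w c' := fun h1 => hne (idx_inj hc hc' h1)
    simp only [hU]
    rw [Set.disjoint_union_left, Set.disjoint_union_right, Set.disjoint_union_right]
    refine ⟨⟨h.dVV _ (idx_lt hc) _ (idx_lt hc') hi, hdV c hc c' hc'⟩,
      (hdV c' hc' c hc).symm, ?_⟩
    unfold arcOf
    split_ifs with h1 h2
    · obtain ⟨h3, h4, h5, h6⟩ := harc c hc h1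
      obtain ⟨h3', h4', h5', h6'⟩ := harc c' hc' h2
      refine h.dAA _ _ h3 h4 h5 h6 _ _ h3' h4' h5' h6' (fun h7 => hi ?_)
      rw [Prod.mk.injEq] at h7
      have h8 : c.2 = c'.2 := by omega
      have h9 := hidx c hc
      have h10 := hidx c' hc'
      rw [h8] at h7 h9
      omega
    · exact Set.disjoint_empty _
    · exact (Set.disjoint_empty _).symm
    · exact Set.disjoint_empty _
  · have hV : ∀ c, Vs (idx w c) ⊆ U c := fun c => subset_union_left
    -- consecutive cells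
    have hcons : ∀ c ∈ Cl w, ∀ c' ∈ Cl w, idx w c + 1 = idx w c' →
        Lnk S ends (U c) (U c') := by
      intro c hc c' hc' h1
      have h2 := h.lnk (idx w c) (by rw [h1]; exact idx_lt hc')
      rw [h1] at h2
      exact h2.mono (subset_refl _) (hV c) (hV c')
    have hhor : ∀ x y, (x, y) ∈ Cl w → (x + 1, y) ∈ Cl w →
        Lnk S ends (U (x, y)) (U (x + 1, y)) := by
      intro x y hc hc'
      have h1 := hc'.1
      simp only at h1
      by_cases hy : y % 2 = 0
      · refine hcons _ hc _ hc' ?_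
        unfold idx
        simp only [hy, if_true]
        omega
      · refine (hcons _ hc' _ hc ?_).symm
        unfold idx
        simp only [hy, if_false]
        omega
    have hver : ∀ x y, (x, y) ∈ Cl w → (x, y + 1) ∈ Cl w →
        Lnk S ends (U (x, y)) (U (x, y + 1)) := by
      intro x y hc hc'
      have h1 := hc.1
      have h2 := hc'.2
      simp only at h1 h2
      have e : (y + 1) * w = y * w + w := by rw [add_mul, one_mul]
      -- the level
      obtain ⟨s, hs⟩ : ∃ s, s = (y + 1) * w - idx w (x, y) := ⟨_, rfl⟩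
      have h3 := hidx _ hc
      simp only at h3
      have h4 : (y + 1) * w + s - 1 = idx w (x, y + 1) := by
        rw [hs]
        unfold idx
        simp only
        by_cases hy : y % 2 = 0
        · rw [if_pos hy, if_neg (by omega)]
          omega
        · rw [if_neg hy, if_pos (by omega)]
          omega
      by_cases hs2 : 2 ≤ s
      · have h5 : (x, y).2 + 1 < w ∧ 2 ≤ ((x, y).2 + 1) * w - idx w (x, y) := by
          simp only
          omega
        obtain ⟨h6, h7, h8, h9⟩ := harc _ hc h5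
        have h10 := (h.lnkA _ _ h6 h7 h8 h9).2
        simp only at h10
        rw [← hs, h4] at h10
        refine h10.mono (subset_refl _) ?_ (hV _)
        simp only [hU]
        unfold arcOf
        rw [if_pos h5]
        simp only
        rw [← hs]
        exact subset_union_right
      · refine hcons _ hc _ hc' ?_
        omega
    rintro ⟨x, y⟩ ⟨x', y'⟩ ⟨hc, hc', h1⟩
    simp only at h1
    rcases h1 with ⟨rfl, rfl | rfl⟩ | ⟨rfl, rfl | rfl⟩
    · exact hver _ _ hc hc'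
    · exact (hver _ _ hc' hc).symm
    · exact hhor _ _ hc hc'
    · exact (hhor _ _ hc' hc).symm

end EN
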