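import Pool.Agent.EN.Mader
import Pool.Agent.EN.Spine

/-!
# Pair counts in a graph without a complete model

`EN.KtModel S ends t`: the graph on `S` has a model of the complete graph on `t` vertices.
`EN.bip`: connected pieces `P a` (`a ∈ F`) and connectors `J z` (`z ∈ Z`), all disjoint, every
connector linked to the two pieces of its pair, pairs of different connectors different: then there
are at most `cst t * |F|` connectors, or there is a model.
`EN.pairs_le`: at most `d * d * cst t * |F|` pairs of pieces are joined by connectors with at most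
`d` neighbours.
-/

open Set

namespace EN

open BIC Gad

variable {α V : Type*} {S : Set α} {ends : α → Sym2 V}

/-- A model of the complete graph on `t` vertices, inside the vertex set `W`. -/
def KtModel (S : Set α) (ends : α → Sym2 V) (t : ℕ) (W : Set V) : Prop :=
  ∃ B : ℕ → Set V, (∀ i < t, (B i).Finite) ∧ (∀ i < t, VConn S ends (B i)) ∧
    (∀ i < t, B i ⊆ W) ∧ (∀ i < t, ∀ j < t, i ≠ j → Disjoint (B i) (B j)) ∧
    ∀ i < t, ∀ j < t, i ≠ j → Lnk S ends (B i) (B j)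

lemma KtModel.mono {t : ℕ} {W W' : Set V} (h : KtModel S ends t W) (hW : W ⊆ W') :
    KtModel S ends t W' := by
  obtain ⟨B, h1, h2, h3, h4, h5⟩ := h
  exact ⟨B, h1, h2, fun i hi => (h3 i hi).trans hW, h4, h5⟩

/-- The union of the host sets. -/
def Un {ι : Type*} (H : ι → Set V) (A : Finset ι) : Set V := ⋃ a ∈ A, H a

lemma un_union {ι : Type*} [DecidableEq ι] (H : ι → Set V) (A B : Finset ι) :
    Un H (A ∪ B) = Un H A ∪ Un H B := by
  unfold Un
  rw [Finset.set_biUnion_union]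

lemma un_mono {ι : Type*} (H : ι → Set V) {A : Finset ι} {a : ι} (ha : a ∈ A) : H a ⊆ Un H A :=
  Set.subset_biUnion_of_mem (u := H) (Finset.mem_coe.2 ha)

/-- Connected sets of indices give connected sets of the host. -/
lemma vconn_un {ι : Type*} [DecidableEq ι] {H : ι → Set V} {A : Finset ι}
    (hA : Mdr.Cn (fun a b => Lnk S ends (H a) (H b)) A) (hH : ∀ a ∈ A, VConn S ends (H a)) :
    VConn S ends (Un H A) := by
  induction hA with
  | single a =>
    have h1 : Un H {a} = H a := by simp [Un]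
    rw [h1]
    exact hH a (Finset.mem_singleton_self a)
  | join _ _ h ihA ihB =>
    rw [un_union]
    obtain ⟨a, ha, b, hb, hab⟩ := h
    exact vc_lnk (ihA (fun x hx => hH x (Finset.mem_union_left _ hx)))
      (ihB (fun x hx => hH x (Finset.mem_union_right _ hx)))
      (hab.mono (subset_refl _) (un_mono H ha) (un_mono H hb))

/-- Stars are connected. -/
lemma cn_star {ι : Type*} [DecidableEq ι] {r : ι → ι → Prop} {A : Finset ι} (hA : Mdr.Cn r A)
    {a : ι} (ha : a ∈ A) (s : Finset ι) (hs : ∀ y ∈ s, r a y) : Mdr.Cn r (A ∪ s) := by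
  induction s using Finset.induction_on with
  | empty => rwa [Finset.union_empty]
  | insert y s _ ih =>
    have h1 := ih (fun z hz => hs z (Finset.mem_insert_of_mem hz))
    have h2 : A ∪ insert y s = (A ∪ s) ∪ {y} := by
      rw [Finset.insert_eq, Finset.union_comm {y} s, Finset.union_assoc]
    rw [h2]
    exact Mdr.Cn.join h1 (Mdr.Cn.single y) ⟨a, Finset.mem_union_left _ ha, y,
      Finset.mem_singleton_self y, hs y (Finset.mem_insert_self _ _)⟩

/-- **Pieces and connectors.** -/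
theorem bip (t : ℕ) {ι κ : Type*} (F : Finset ι) (Z : Finset κ) (P : ι → Set V) (J : κ → Set V)
    (hPf : ∀ a ∈ F, (P a).Finite) (hPc : ∀ a ∈ F, VConn S ends (P a))
    (hJf : ∀ z ∈ Z, (J z).Finite) (hJc : ∀ z ∈ Z, VConn S ends (J z))
    (hPP : ∀ a ∈ F, ∀ b ∈ F, a ≠ b → Disjoint (P a) (P b))
    (hJJ : ∀ z ∈ Z, ∀ z' ∈ Z, z ≠ z' → Disjoint (J z) (J z'))
    (hPJ : ∀ a ∈ F, ∀ z ∈ Z, Disjoint (P a) (J z))
    (pr : κ → ι × ι) (h1F : ∀ z ∈ Z, (pr z).1 ∈ F) (h2F : ∀ z ∈ Z, (pr z).2 ∈ F)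
    (hne : ∀ z ∈ Z, (pr z).1 ≠ (pr z).2)
    (h1l : ∀ z ∈ Z, Lnk S ends (P (pr z).1) (J z)) (h2l : ∀ z ∈ Z, Lnk S ends (P (pr z).2) (J z))
    (hinj : ∀ z ∈ Z, ∀ z' ∈ Z, pr z = pr z' → z = z') :
    Z.card ≤ Mdr.cst t * F.card ∨ KtModel S ends t ((⋃ a ∈ F, P a) ∪ ⋃ z ∈ Z, J z) := by
  classical
  rcases F.eq_empty_or_nonempty with rfl | hF
  · left
    have h0 : Z = ∅ := by
      rw [Finset.eq_empty_iff_forall_notMem]
      intro z hz
      exact absurd (h1F z hz) (Finset.notMem_empty _)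
    rw [h0]
    simp
  set H : ι ⊕ κ → Set V := Sum.elim P J with hH
  set r : ι ⊕ κ → ι ⊕ κ → Prop := fun x y => Lnk S ends (H x) (H y) with hr
  set A : ι → Finset (ι ⊕ κ) := fun a =>
    {Sum.inl a} ∪ (Z.filter (fun z => (pr z).1 = a)).image Sum.inr with hA
  have hmem : ∀ a x, x ∈ A a ↔ x = Sum.inl a ∨ ∃ z ∈ Z, (pr z).1 = a ∧ x = Sum.inr z := by
    intro a x
    simp only [hA, Finset.mem_union, Finset.mem_singleton, Finset.mem_image, Finset.mem_filter]
    constructor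
    · rintro (h | ⟨z, ⟨h1, h2⟩, rfl⟩)
      · exact Or.inl h
      · exact Or.inr ⟨z, h1, h2, rfl⟩
    · rintro (h | ⟨z, h1, h2, rfl⟩)
      · exact Or.inl h
      · exact Or.inr ⟨z, ⟨h1, h2⟩, rfl⟩
  have hAinj : ∀ a b, A a = A b → a = b := by
    intro a b hab
    have h1 : (Sum.inl a : ι ⊕ κ) ∈ A b := by
      rw [← hab, hmem]
      exact Or.inl rfl
    rcases (hmem b _).1 h1 with h2 | ⟨z, _, _, h2⟩
    · exact Sum.inl_injective h2
    · exact absurd h2 (by simp)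
  have hAc : ∀ a ∈ F, Mdr.Cn r (A a) := by
    intro a ha
    refine cn_star (Mdr.Cn.single _) (Finset.mem_singleton_self _) _ ?_
    intro y hy
    obtain ⟨z, hz, rfl⟩ := Finset.mem_image.1 hy
    obtain ⟨hzZ, hza⟩ := Finset.mem_filter.1 hz
    have h1 := h1l z hzZ
    rw [hza] at h1
    exact h1
  have hAd : ∀ a ∈ F, ∀ b ∈ F, a ≠ b → Disjoint (A a) (A b) := by
    intro a _ b _ hab
    rw [Finset.disjoint_left]
    intro x hx hx'
    rcases (hmem a x).1 hx with rfl | ⟨z, _, hz, rfl⟩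
    · rcases (hmem b _).1 hx' with h2 | ⟨z, _, _, h2⟩
      · exact hab (Sum.inl_injective h2)
      · exact absurd h2 (by simp)
    · rcases (hmem b _).1 hx' with h2 | ⟨z', _, hz', h2⟩
      · exact absurd h2 (by simp)
      · have h3 := Sum.inr_injective h2
        subst h3
        exact hab (hz.symm.trans hz')
  by_cases hcard : Z.card ≤ Mdr.cst t * F.card
  · exact Or.inl hcard
  right
  push Not at hcard
  obtain ⟨K, hK⟩ := Mdr.mader (r := r) (fun x y h => Lnk.symm h) t (F.image A) (hF.image A)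
    (by
      intro X hX
      obtain ⟨a, ha, rfl⟩ := Finset.mem_image.1 hX
      exact hAc a ha)
    (by
      intro X hX Y hY hXY
      obtain ⟨a, ha, rfl⟩ := Finset.mem_image.1 hX
      obtain ⟨b, hb, rfl⟩ := Finset.mem_image.1 hY
      exact hAd a ha b hb (fun h => hXY (by rw [h])))
    (by
      rw [Finset.card_image_of_injective _ (fun a b h => hAinj a b h)]
      refine hcard.le.trans ?_
      refine Finset.card_le_card_of_injOn (fun z => (A (pr z).1, A (pr z).2)) ?_ ?_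
      · intro z hz
        have hz := Finset.mem_coe.1 hz
        rw [Finset.mem_coe]
        unfold Mdr.prs
        rw [Finset.mem_filter, Finset.mem_product]
        refine ⟨⟨Finset.mem_image_of_mem _ (h1F z hz), Finset.mem_image_of_mem _ (h2F z hz)⟩,
          fun h => hne z hz (hAinj _ _ h), Sum.inr z, ?_, Sum.inl (pr z).2, ?_, ?_⟩
        · exact (hmem _ _).2 (Or.inr ⟨z, hz, rfl, rfl⟩)
        · exact (hmem _ _).2 (Or.inl rfl)
        · exact (h2l z hz).symm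
      · intro z hz z' hz' h
        have h1 := congrArg Prod.fst h
        have h2 := congrArg Prod.snd h
        exact hinj z hz z' hz' (Prod.ext (hAinj _ _ h1) (hAinj _ _ h2)))
  -- members of the branch sets
  have hbm : ∀ i, ∀ x ∈ K i, (∃ a ∈ F, x = Sum.inl a) ∨ ∃ z ∈ Z, x = Sum.inr z := by
    intro i x hx
    obtain ⟨X, hX, hxX⟩ := Finset.mem_biUnion.1 (hK.sub i hx)
    obtain ⟨a, ha, rfl⟩ := Finset.mem_image.1 hX
    rcases (hmem a x).1 hxX with h | ⟨z, hz, _, h⟩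
    · exact Or.inl ⟨a, ha, h⟩
    · exact Or.inr ⟨z, hz, h⟩
  have hHd : ∀ i j x y, x ∈ K i → y ∈ K j → x ≠ y → Disjoint (H x) (H y) := by
    intro i j x y hx hy hxy
    rcases hbm i x hx with ⟨a, ha, rfl⟩ | ⟨z, hz, rfl⟩
    · rcases hbm j y hy with ⟨b, hb, rfl⟩ | ⟨z', hz', rfl⟩
      · exact hPP a ha b hb (fun h => hxy (by rw [h]))
      · exact hPJ a ha z' hz'
    · rcases hbm j y hy with ⟨b, hb, rfl⟩ | ⟨z', hz', rfl⟩
      · exact (hPJ b hb z hz).symm
      · exact hJJ z hz z' hz' (fun h => hxy (by rw [h]))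
  refine ⟨fun i => if h : i < t then Un H (K ⟨i, h⟩) else ∅, ?_, ?_, ?_, ?_, ?_⟩
  · intro i hi
    simp only [dif_pos hi]
    refine Set.Finite.biUnion (Finset.finite_toSet _) ?_
    intro x hx
    rcases hbm _ x hx with ⟨a, ha, rfl⟩ | ⟨z, hz, rfl⟩
    · exact hPf a ha
    · exact hJf z hz
  · intro i hi
    simp only [dif_pos hi]
    refine vconn_un (hK.cn _) ?_
    intro x hx
    rcases hbm _ x hx with ⟨a, ha, rfl⟩ | ⟨z, hz, rfl⟩
    · exact hPc a ha
    · exact hJc z hz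
  · intro i hi
    simp only [dif_pos hi]
    refine Set.iUnion₂_subset ?_
    intro x hx
    rcases hbm _ x hx with ⟨a, ha, rfl⟩ | ⟨z, hz, rfl⟩
    · exact (Set.subset_biUnion_of_mem (u := P) (Finset.mem_coe.2 ha)).trans subset_union_left
    · exact (Set.subset_biUnion_of_mem (u := J) (Finset.mem_coe.2 hz)).trans subset_union_right
  · intro i hi j hj hij
    simp only [dif_pos hi, dif_pos hj]
    have h1 := hK.dis ⟨i, hi⟩ ⟨j, hj⟩ (fun h => hij (by simpa using h))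
    unfold Un
    rw [Set.disjoint_iUnion₂_left]
    intro x hx
    rw [Set.disjoint_iUnion₂_right]
    intro y hy
    refine hHd _ _ x y hx hy ?_
    rintro rfl
    exact Finset.disjoint_left.1 h1 hx hy
  · intro i hi j hj hij
    simp only [dif_pos hi, dif_pos hj]
    obtain ⟨x, hx, y, hy, hxy⟩ := hK.lk ⟨i, hi⟩ ⟨j, hj⟩ (fun h => hij (by simpa using h))
    exact hxy.mono (subset_refl _) (un_mono H hx) (un_mono H hy)

/-- **Pieces and connectors, with multiplicities.** Every ordered pair is used at most `N`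
times. -/
theorem bip_mult (t N : ℕ) {ι κ : Type*} (F : Finset ι) (Z : Finset κ) (P : ι → Set V)
    (J : κ → Set V)
    (hPf : ∀ a ∈ F, (P a).Finite) (hPc : ∀ a ∈ F, VConn S ends (P a))
    (hJf : ∀ z ∈ Z, (J z).Finite) (hJc : ∀ z ∈ Z, VConn S ends (J z))
    (hPP : ∀ a ∈ F, ∀ b ∈ F, a ≠ b → Disjoint (P a) (P b))
    (hJJ : ∀ z ∈ Z, ∀ z' ∈ Z, z ≠ z' → Disjoint (J z) (J z'))
    (hPJ : ∀ a ∈ F, ∀ z ∈ Z, Disjoint (P a) (J z))
    (pr : κ → ι × ι) (h1F : ∀ z ∈ Z, (pr z).1 ∈ F) (h2F : ∀ z ∈ Z, (pr z).2 ∈ F)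
    (hne : ∀ z ∈ Z, (pr z).1 ≠ (pr z).2)
    (h1l : ∀ z ∈ Z, Lnk S ends (P (pr z).1) (J z)) (h2l : ∀ z ∈ Z, Lnk S ends (P (pr z).2) (J z))
    (hN : ∀ p : ι × ι, {z | z ∈ Z ∧ pr z = p}.ncard ≤ N) :
    Z.card ≤ N * (Mdr.cst t * F.card) ∨
      KtModel S ends t ((⋃ a ∈ F, P a) ∪ ⋃ z ∈ Z, J z) := by
  classical
  -- one connector for every pair
  have hch : ∀ p : ι × ι, p ∈ Z.image pr → ∃ z ∈ Z, pr z = p := by
    intro p hp
    obtain ⟨z, hz, h⟩ := Finset.mem_image.1 hp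
    exact ⟨z, hz, h⟩
  set Z' := Z.filter (fun z => ∃ hp : pr z ∈ Z.image pr, z = (hch _ hp).choose) with hZ'
  have hsub : Z' ⊆ Z := Finset.filter_subset _ _
  have hinj : ∀ z ∈ Z', ∀ z' ∈ Z', pr z = pr z' → z = z' := by
    intro z hz z' hz' h
    obtain ⟨_, hp, h1⟩ := Finset.mem_filter.1 hz
    obtain ⟨_, hp', h2⟩ := Finset.mem_filter.1 hz'
    rw [h1, h2]
    congr 1
    simp only [h]
  have himg : Z.image pr ⊆ Z'.image pr := by
    intro p hp
    have h1 := (hch p hp).choose_spec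
    refine Finset.mem_image.2 ⟨(hch p hp).choose, Finset.mem_filter.2 ⟨h1.1, ?_⟩, h1.2⟩
    have h2 : pr (hch p hp).choose ∈ Z.image pr := by rw [h1.2]; exact hp
    refine ⟨h2, ?_⟩
    congr 1
    simp only [h1.2]
  have hcard : Z.card ≤ N * Z'.card := by
    have h1 : Z.card ≤ N * (Z.image pr).card := by
      refine Finset.card_le_mul_card_image _ N ?_
      intro p _
      have h2 := hN p
      rw [← Set.ncard_coe_finset]
      refine le_trans (le_of_eq (congrArg Set.ncard ?_)) h2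
      ext z
      simp
    refine h1.trans (Nat.mul_le_mul_left _ ?_)
    exact (Finset.card_le_card himg).trans Finset.card_image_le
  rcases bip t F Z' P J hPf hPc (fun z hz => hJf z (hsub hz)) (fun z hz => hJc z (hsub hz)) hPP
    (fun z hz z' hz' => hJJ z (hsub hz) z' (hsub hz')) (fun a ha z hz => hPJ a ha z (hsub hz))
    pr (fun z hz => h1F z (hsub hz)) (fun z hz => h2F z (hsub hz)) (fun z hz => hne z (hsub hz))
    (fun z hz => h1l z (hsub hz)) (fun z hz => h2l z (hsub hz)) hinj with h | h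
  · exact Or.inl (hcard.trans (Nat.mul_le_mul_left _ h))
  · refine Or.inr (h.mono (union_subset_union_right _ ?_))
    exact Set.biUnion_subset_biUnion_left (by exact_mod_cast hsub)

/-- Pieces, connectors and the sets of neighbours of the connectors. -/
structure PC (S : Set α) (ends : α → Sym2 V) (d : ℕ) {ι κ : Type*} (F : Finset ι) (Z : Finset κ)
    (P : ι → Set V) (J : κ → Set V) (nb : κ → Finset ι) : Prop where
  Pf : ∀ a ∈ F, (P a).Finite
  Pc : ∀ a ∈ F, VConn S ends (P a)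
  Jf : ∀ z ∈ Z, (J z).Finite
  Jc : ∀ z ∈ Z, VConn S ends (J z)
  PP : ∀ a ∈ F, ∀ b ∈ F, a ≠ b → Disjoint (P a) (P b)
  JJ : ∀ z ∈ Z, ∀ z' ∈ Z, z ≠ z' → Disjoint (J z) (J z')
  PJ : ∀ a ∈ F, ∀ z ∈ Z, Disjoint (P a) (J z)
  sub : ∀ z ∈ Z, nb z ⊆ F
  deg : ∀ z ∈ Z, (nb z).card ≤ d
  lnk : ∀ z ∈ Z, ∀ a ∈ nb z, Lnk S ends (P a) (J z)

open scoped Classical in
/-- The ordered pairs of pieces with a common connector. -/
noncomputable def pairs {ι κ : Type*} (F : Finset ι) (Z : Finset κ) (nb : κ → Finset ι) :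
    Finset (ι × ι) :=
  (F ×ˢ F).filter (fun p => p.1 ≠ p.2 ∧ ∃ z ∈ Z, p.1 ∈ nb z ∧ p.2 ∈ nb z)

/-- **Few pairs.** -/
theorem PC.pairs_le (t : ℕ) {d : ℕ} {ι κ : Type*} {F : Finset ι} {Z : Finset κ} {P : ι → Set V}
    {J : κ → Set V} {nb : κ → Finset ι} (h : PC S ends d F Z P J nb) :
    (pairs F Z nb).card ≤ d * d * (Mdr.cst t * F.card) ∨
      KtModel S ends t ((⋃ a ∈ F, P a) ∪ ⋃ z ∈ Z, J z) := by
  classical
  rcases (pairs F Z nb).eq_empty_or_nonempty with h0 | ⟨p₀, hp₀⟩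
  · left
    rw [h0]
    simp
  have hch : ∀ p : ι × ι, ∃ z, p ∈ pairs F Z nb → z ∈ Z ∧ p.1 ∈ nb z ∧ p.2 ∈ nb z := by
    intro p
    by_cases hp : p ∈ pairs F Z nb
    · obtain ⟨_, _, z, hz, h1, h2⟩ := Finset.mem_filter.1 hp
      exact ⟨z, fun _ => ⟨hz, h1, h2⟩⟩
    · obtain ⟨_, _, z, hz, h1, h2⟩ := Finset.mem_filter.1 hp₀
      exact ⟨z, fun h => absurd h hp⟩
  choose g hg using hch
  -- the chosen connectors
  set Z' := (pairs F Z nb).image g with hZ'
  have hcard : (pairs F Z nb).card ≤ d * d * Z'.card := by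
    refine Finset.card_le_mul_card_image _ (d * d) ?_
    intro z hz
    obtain ⟨p, hp, rfl⟩ := Finset.mem_image.1 hz
    have h1 : ((pairs F Z nb).filter (fun q => g q = g p)) ⊆ nb (g p) ×ˢ nb (g p) := by
      intro q hq
      obtain ⟨hq1, hq2⟩ := Finset.mem_filter.1 hq
      have h3 := hg q hq1
      rw [hq2] at h3
      exact Finset.mem_product.2 h3.2
    refine (Finset.card_le_card h1).trans ?_
    rw [Finset.card_product]
    have h4 := h.deg _ (hg p hp).1
    exact Nat.mul_le_mul h4 h4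
  have hch2 : ∀ z : κ, ∃ p : ι × ι, z ∈ Z' → p ∈ pairs F Z nb ∧ g p = z := by
    intro z
    by_cases hz : z ∈ Z'
    · obtain ⟨p, hp, h1⟩ := Finset.mem_image.1 hz
      exact ⟨p, fun _ => ⟨hp, h1⟩⟩
    · exact ⟨p₀, fun h => absurd h hz⟩
  choose pr hpr using hch2
  have hZZ : ∀ z ∈ Z', z ∈ Z ∧ (pr z).1 ∈ nb z ∧ (pr z).2 ∈ nb z := by
    intro z hz
    obtain ⟨h1, h2⟩ := hpr z hz
    have h3 := hg _ h1
    rw [h2] at h3
    exact h3
  have hpp : ∀ z ∈ Z', (pr z).1 ∈ F ∧ (pr z).2 ∈ F ∧ (pr z).1 ≠ (pr z).2 := by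
    intro z hz
    obtain ⟨h1, h2, _⟩ := Finset.mem_filter.1 (hpr z hz).1
    obtain ⟨h3, h4⟩ := Finset.mem_product.1 h1
    exact ⟨h3, h4, h2⟩
  rcases bip t F Z' P J h.Pf h.Pc (fun z hz => h.Jf z (hZZ z hz).1)
    (fun z hz => h.Jc z (hZZ z hz).1) h.PP
    (fun z hz z' hz' => h.JJ z (hZZ z hz).1 z' (hZZ z' hz').1)
    (fun a ha z hz => h.PJ a ha z (hZZ z hz).1)
    pr (fun z hz => (hpp z hz).1) (fun z hz => (hpp z hz).2.1) (fun z hz => (hpp z hz).2.2)
    (fun z hz => h.lnk z (hZZ z hz).1 _ (hZZ z hz).2.1)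
    (fun z hz => h.lnk z (hZZ z hz).1 _ (hZZ z hz).2.2)
    (by
      intro z hz z' hz' h1
      rw [← (hpr z hz).2, ← (hpr z' hz').2, h1]) with h1 | h1
  · exact Or.inl (hcard.trans (Nat.mul_le_mul_left _ h1))
  · refine Or.inr (h1.mono (union_subset_union_right _ ?_))
    refine Set.biUnion_subset_biUnion_left ?_
    intro z hz
    exact (hZZ z hz).1

/-- The pieces which have a connector in common with `a`. -/
noncomputable def nbr {ι κ : Type*} (F : Finset ι) (Z : Finset κ) (nb : κ → Finset ι) (a : ι) :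
    Finset ι := by
  classical exact F.filter (fun b => a ≠ b ∧ ∃ z ∈ Z, a ∈ nb z ∧ b ∈ nb z)

lemma mem_nbr {ι κ : Type*} {F : Finset ι} {Z : Finset κ} {nb : κ → Finset ι} {a b : ι} :
    b ∈ nbr F Z nb a ↔ b ∈ F ∧ a ≠ b ∧ ∃ z ∈ Z, a ∈ nb z ∧ b ∈ nb z := by
  classical
  unfold nbr
  rw [Finset.mem_filter]

lemma card_pairs {ι κ : Type*} (F : Finset ι) (Z : Finset κ) (nb : κ → Finset ι) :
    (pairs F Z nb).card = ∑ a ∈ F, (nbr F Z nb a).card := by
  classical
  unfold pairs nbr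
  rw [Finset.card_filter, Finset.sum_product]
  exact Finset.sum_congr rfl (fun a _ => (Finset.card_filter _ _).symm)

/-- The system without the piece `a`, on the neighbours of `a`. -/
lemma PC.link {d : ℕ} {ι κ : Type*} [DecidableEq ι] {F : Finset ι} {Z : Finset κ}
    {P : ι → Set V} {J : κ → Set V} {nb : κ → Finset ι} (h : PC S ends d F Z P J nb) (a : ι)
    (Za : Finset κ) (hZ : Za ⊆ Z) (ha : ∀ z ∈ Za, a ∈ nb z) :
    PC S ends d (nbr F Z nb a) Za P J (fun z => (nb z).erase a) where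
  Pf b hb := h.Pf b (mem_nbr.1 hb).1
  Pc b hb := h.Pc b (mem_nbr.1 hb).1
  Jf z hz := h.Jf z (hZ hz)
  Jc z hz := h.Jc z (hZ hz)
  PP b hb c hc := h.PP b (mem_nbr.1 hb).1 c (mem_nbr.1 hc).1
  JJ z hz z' hz' := h.JJ z (hZ hz) z' (hZ hz')
  PJ b hb z hz := h.PJ b (mem_nbr.1 hb).1 z (hZ hz)
  sub z hz := by
    intro b hb
    obtain ⟨h1, h2⟩ := Finset.mem_erase.1 hb
    exact mem_nbr.2 ⟨h.sub z (hZ hz) h2, Ne.symm h1, z, hZ hz, ha z hz, h2⟩
  deg z hz := (Finset.card_le_card (Finset.erase_subset _ _)).trans (h.deg z (hZ hz))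
  lnk z hz b hb := h.lnk z (hZ hz) b (Finset.mem_erase.1 hb).2

open scoped Classical in
/-- The ordered triples of pieces with a common connector. -/
noncomputable def triples {ι κ : Type*} (F : Finset ι) (Z : Finset κ) (nb : κ → Finset ι) :
    Finset (ι × ι × ι) :=
  (F ×ˢ F ×ˢ F).filter (fun p => p.1 ≠ p.2.1 ∧ p.1 ≠ p.2.2 ∧ p.2.1 ≠ p.2.2 ∧
    ∃ z ∈ Z, p.1 ∈ nb z ∧ p.2.1 ∈ nb z ∧ p.2.2 ∈ nb z)

/-- **Few triples.** -/
theorem PC.triples_le (t : ℕ) {d : ℕ} {ι κ : Type*} {F : Finset ι} {Z : Finset κ}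
    {P : ι → Set V} {J : κ → Set V} {nb : κ → Finset ι} (h : PC S ends d F Z P J nb) :
    (triples F Z nb).card ≤ d * d * (Mdr.cst t * (d * d * (Mdr.cst t * F.card))) ∨
      KtModel S ends t ((⋃ a ∈ F, P a) ∪ ⋃ z ∈ Z, J z) := by
  classical
  by_cases hK : KtModel S ends t ((⋃ a ∈ F, P a) ∪ ⋃ z ∈ Z, J z)
  · exact Or.inr hK
  left
  have h1 : (triples F Z nb).card ≤
      ∑ a ∈ F, (pairs (nbr F Z nb a) (Z.filter (fun z => a ∈ nb z))
        (fun z => (nb z).erase a)).card := by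
    rw [← Finset.card_sigma]
    refine Finset.card_le_card_of_injOn (fun p => ⟨p.1, p.2⟩) ?_ ?_
    · rintro ⟨a, b, c⟩ hp
      obtain ⟨hF, hab, hac, hbc, z, hz, hza, hzb, hzc⟩ := Finset.mem_filter.1 (Finset.mem_coe.1 hp)
      obtain ⟨haF, hbcF⟩ := Finset.mem_product.1 hF
      obtain ⟨hbF, hcF⟩ := Finset.mem_product.1 hbcF
      rw [Finset.mem_coe, Finset.mem_sigma]
      refine ⟨haF, ?_⟩
      unfold pairs
      rw [Finset.mem_filter, Finset.mem_product]
      exact ⟨⟨mem_nbr.2 ⟨hbF, hab, z, hz, hza, hzb⟩, mem_nbr.2 ⟨hcF, hac, z, hz, hza, hzc⟩⟩, hbc,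
        z, Finset.mem_filter.2 ⟨hz, hza⟩, Finset.mem_erase.2 ⟨Ne.symm hab, hzb⟩,
        Finset.mem_erase.2 ⟨Ne.symm hac, hzc⟩⟩
    · rintro ⟨a, b⟩ _ ⟨a', b'⟩ _ h2
      simpa using h2
  have h2 : ∀ a ∈ F, (pairs (nbr F Z nb a) (Z.filter (fun z => a ∈ nb z))
      (fun z => (nb z).erase a)).card ≤ d * d * (Mdr.cst t * (nbr F Z nb a).card) := by
    intro a ha
    rcases (h.link a (Z.filter (fun z => a ∈ nb z)) (Finset.filter_subset _ _)
      (fun z hz => (Finset.mem_filter.1 hz).2)).pairs_le t with h3 | h3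
    · exact h3
    · refine absurd (h3.mono (union_subset_union ?_ ?_)) hK
      · refine Set.biUnion_subset_biUnion_left ?_
        intro b hb
        exact (mem_nbr.1 hb).1
      · refine Set.biUnion_subset_biUnion_left ?_
        intro z hz
        exact (Finset.mem_filter.1 hz).1
  have h3 : ∑ a ∈ F, (nbr F Z nb a).card ≤ d * d * (Mdr.cst t * F.card) := by
    rw [← card_pairs]
    rcases h.pairs_le t with h4 | h4
    · exact h4
    · exact absurd h4 hK
  refine h1.trans ((Finset.sum_le_sum h2).trans ?_)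
  rw [← Finset.mul_sum, ← Finset.mul_sum]
  exact Nat.mul_le_mul_left _ (Nat.mul_le_mul_left _ h3)

/-- **Few connectors with three different neighbours**, if every triple has few connectors. -/
theorem PC.wide_le (t N : ℕ) {d : ℕ} {ι κ : Type*} {F : Finset ι} {Z : Finset κ}
    {P : ι → Set V} {J : κ → Set V} {nb : κ → Finset ι} (h : PC S ends d F Z P J nb)
    (hN : ∀ a ∈ F, ∀ b ∈ F, ∀ c ∈ F, a ≠ b → a ≠ c → b ≠ c →
      {z | z ∈ Z ∧ a ∈ nb z ∧ b ∈ nb z ∧ c ∈ nb z}.ncard ≤ N) :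
    {z | z ∈ Z ∧ 3 ≤ (nb z).card}.ncard ≤
        N * (d * d * (Mdr.cst t * (d * d * (Mdr.cst t * F.card)))) ∨
      KtModel S ends t ((⋃ a ∈ F, P a) ∪ ⋃ z ∈ Z, J z) := by
  classical
  rcases h.triples_le t with h1 | h1
  · left
    set W := Z.filter (fun z => 3 ≤ (nb z).card) with hW
    have hWn : {z | z ∈ Z ∧ 3 ≤ (nb z).card}.ncard = W.card := by
      rw [← Set.ncard_coe_finset W]
      refine congrArg Set.ncard ?_
      ext z
      simp [hW]
    rw [hWn]
    rcases W.eq_empty_or_nonempty with h0 | ⟨z₀, hz₀⟩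
    · rw [h0]; simp
    have h3 : ∀ z ∈ W, ∃ p : ι × ι × ι, p ∈ triples F Z nb ∧ p.1 ∈ nb z ∧ p.2.1 ∈ nb z ∧
        p.2.2 ∈ nb z := by
      intro z hz
      obtain ⟨hzZ, h3⟩ := Finset.mem_filter.1 hz
      obtain ⟨a, ha, b, hb, c, hc, hab, hac, hbc⟩ := Finset.two_lt_card.1 h3
      refine ⟨(a, b, c), ?_, ha, hb, hc⟩
      unfold triples
      rw [Finset.mem_filter, Finset.mem_product, Finset.mem_product]
      exact ⟨⟨h.sub z hzZ ha, h.sub z hzZ hb, h.sub z hzZ hc⟩, hab, hac, hbc, z, hzZ, ha, hb, hc⟩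
    obtain ⟨p₀, _⟩ := h3 z₀ hz₀
    have h4 : ∀ z, ∃ p : ι × ι × ι, z ∈ W → p ∈ triples F Z nb ∧ p.1 ∈ nb z ∧ p.2.1 ∈ nb z ∧
        p.2.2 ∈ nb z := by
      intro z
      by_cases hz : z ∈ W
      · obtain ⟨p, hp⟩ := h3 z hz
        exact ⟨p, fun _ => hp⟩
      · exact ⟨p₀, fun h5 => absurd h5 hz⟩
    choose f hf using h4
    have h5 : W.card ≤ N * (W.image f).card := by
      refine Finset.card_le_mul_card_image _ N ?_
      intro p hp
      obtain ⟨z, hz, rfl⟩ := Finset.mem_image.1 hp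
      obtain ⟨h6, _⟩ := hf z hz
      obtain ⟨h7, h8, h9, h10, _⟩ := Finset.mem_filter.1 h6
      obtain ⟨h11, h12⟩ := Finset.mem_product.1 h7
      obtain ⟨h13, h14⟩ := Finset.mem_product.1 h12
      refine le_trans ?_ (hN _ h11 _ h13 _ h14 h8 h9 h10)
      rw [← Set.ncard_coe_finset]
      refine Set.ncard_le_ncard ?_ (Z.finite_toSet.subset (fun x hx => hx.1))
      intro z' hz'
      obtain ⟨h15, h16⟩ := Finset.mem_filter.1 (Finset.mem_coe.1 hz')
      have h17 := (hf z' h15).2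
      rw [h16] at h17
      exact ⟨(Finset.mem_filter.1 h15).1, h17⟩
    refine h5.trans (Nat.mul_le_mul_left _ ((Finset.card_le_card ?_).trans h1))
    intro p hp
    obtain ⟨z, hz, rfl⟩ := Finset.mem_image.1 hp
    exact (hf z hz).1
  · exact Or.inr h1

end EN
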