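import Pool.Agent.EN.RlzK
import Pool.Agent.EN.Sys
import Pool.Agent.EN.Pairs

/-!
# Patterns of a realized system give graph models of the grid with joints
-/

open Set
open scoped Matroid

namespace EN

open BIC Gad

variable {α V : Type*} {M : Matroid α} {S : Set α} {ends : α → Sym2 V}

/-- Realization of a system of ports, connectors and contacts: a page for each shore (pages of
shores which do not exist have an empty interval of columns), the port `x` is in the column
`col x`. -/
structure Real {κ : Type*} (Y : Sys κ) (S : Set α) (ends : α → Sym2 V) (P : ℕ → ℕ × ℕ → V)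
    (lo hi : ℕ → ℕ) (n : ℕ) (G : Set V) (B : κ → Set V) (col : ℕ → ℕ) : Prop where
  pgs : Pgs S ends P lo hi n
  finG : G.Finite
  conG : VConn S ends G
  pG : ∀ s, ∀ c ∈ Reg (lo s) (hi s) n, P s c ∉ G
  fin : ∀ k, (B k).Finite
  con : ∀ k, VConn S ends (B k)
  dis : ∀ k k', k ≠ k' → Disjoint (B k) (B k')
  pB : ∀ k s, ∀ c ∈ Reg (lo s) (hi s) n, P s c ∉ B k
  dG : ∀ k, Disjoint (B k) G
  prt : ∀ x < Y.L, lo (Y.sh x) ≤ col x ∧ col x ≤ hi (Y.sh x) ∧
    Lnk S ends (B (Y.own x)) {P (Y.sh x) (col x, 0)}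
  cnt : ∀ k k', Y.ct k k' → Lnk S ends (B k) (B k')
  grd : ∀ k, Y.gr k → Lnk S ends (B k) G
  cinc : ∀ x y, x < y → y < Y.L → Y.sh x = Y.sh y → col x < col y

/-- The port relation. -/
def Sys.prt {κ : Type*} (Y : Sys κ) (col : ℕ → ℕ) (s x : ℕ) (k : κ) : Prop :=
  ∃ p < Y.L, Y.sh p = s ∧ col p = x ∧ Y.own p = k

/-- The connectors of a link. -/
noncomputable def Sys.F {κ : Type*} (Y : Sys κ) (x y : ℕ) : Finset κ := by
  classical exact {Y.own x, Y.own y}

lemma Sys.mem_F {κ : Type*} {Y : Sys κ} {x y : ℕ} {k : κ} : k ∈ Y.F x y ↔ k = Y.own x ∨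
    k = Y.own y := by
  classical
  unfold Sys.F
  rw [Finset.mem_insert, Finset.mem_singleton]

section

variable {κ : Type*} {Y : Sys κ} {P : ℕ → ℕ × ℕ → V} {lo hi : ℕ → ℕ} {n : ℕ} {G : Set V}
  {B : κ → Set V} {col : ℕ → ℕ}

lemma Real.rlz (h : Real Y S ends P lo hi n G B col) :
    Rlz S ends P lo hi n G B (Y.prt col) Y.ct Y.gr where
  pgs := h.pgs
  finG := h.finG
  conG := h.conG
  pG := h.pG
  fin := h.fin
  con := h.con
  dis := h.dis
  pB := h.pB
  dG := h.dG
  prt := by
    rintro s x k ⟨p, hp, rfl, rfl, rfl⟩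
    exact h.prt p hp
  cnt := h.cnt
  grd := h.grd

lemma lkOf {x y : ℕ} (h : Y.Lk x y) : Lk (Y.prt col) Y.ct (Y.sh x) (col x) (Y.sh y) (col y)
    (Y.F x y) :=
  ⟨Y.own x, Y.own y, ⟨x, h.1, rfl, rfl, rfl⟩, ⟨y, h.2.1, rfl, rfl, rfl⟩, h.2.2.2,
    fun _ => Sys.mem_F⟩

lemma glOf {x : ℕ} (hx : x < Y.L) (h : Y.gr (Y.own x)) :
    Gl (Y.prt col) Y.ct Y.gr (Y.sh x) (col x) (Y.F x x) :=
  ⟨Y.own x, Y.own x, ⟨x, hx, rfl, rfl, rfl⟩, h, Or.inl rfl, fun _ => Sys.mem_F⟩

lemma Sys.Dj.dis {x y x' y' : ℕ} {l l' : List ℕ} (h : Y.Dj l l') (hx : x ∈ l) (hy : y ∈ l)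
    (hx' : x' ∈ l') (hy' : y' ∈ l') : Disjoint (Y.F x y) (Y.F x' y') := by
  rw [Finset.disjoint_left]
  intro k hk hk'
  rw [Sys.mem_F] at hk hk'
  rcases hk with hk | hk <;> rcases hk' with hk' | hk'
  · exact h x hx x' hx' (hk.symm.trans hk')
  · exact h x hx y' hy' (hk.symm.trans hk')
  · exact h y hy x' hx' (hk.symm.trans hk')
  · exact h y hy y' hy' (hk.symm.trans hk')

lemma Real.lt_iff (h : Real Y S ends P lo hi n G B col) {x y s : ℕ} (hx : x < Y.L ∧ Y.sh x = s)
    (hy : y < Y.L ∧ Y.sh y = s) : x < y ↔ col x < col y := by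
  constructor
  · exact fun h1 => h.cinc x y h1 hy.1 (hx.2.trans hy.2.symm)
  · intro h1
    by_contra h2
    rcases Nat.lt_or_ge y x with h3 | h3
    · have := h.cinc y x h3 hx.1 (hy.2.trans hx.2.symm)
      omega
    · have : x = y := by omega
      rw [this] at h1
      exact lt_irrefl _ h1

lemma Real.mon (h : Real Y S ends P lo hi n G B col) {N N' : ℕ} {z : ℕ → ℕ} {s : ℕ}
    (hN : N ≤ N') (hz : RamP.Mon N' z) (hs : ∀ i < N', z i < Y.L ∧ Y.sh (z i) = s) :
    Mon N (fun i => col (z i)) := by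
  rcases hz with hz | hz
  · left
    intro i j hij hj
    exact (h.lt_iff (hs i (by omega)) (hs j (by omega))).1 (hz i j hij (by omega))
  · right
    intro i j hij hj
    exact (h.lt_iff (hs j (by omega)) (hs i (by omega))).1 (hz i j hij (by omega))

lemma Dis.mono {N N' : ℕ} {l : ℕ → List ℕ} (h : Y.Dis N' l) (hN : N ≤ N') : Y.Dis N l :=
  fun i hi j hj hij => h i (by omega) j (by omega) hij

lemma Ser.mono {N N' : ℕ} {l : ℕ → List ℕ} (h : Ser N' l) (hN : N ≤ N') : Ser N l :=
  fun i j hij hj => h i j hij (by omega)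

lemma Far.mono {N N' : ℕ} {l l' : ℕ → List ℕ} (h : Far N' l l') (hN : N ≤ N') : Far N l l' := by
  rcases h with h | h
  · exact Or.inl fun i hi j hj => h i (by omega) j (by omega)
  · exact Or.inr fun i hi j hj => h i (by omega) j (by omega)

/-- Separation of columns. -/
lemma Real.sep (h : Real Y S ends P lo hi n G B col) {N : ℕ} {l l' : ℕ → List ℕ} {s s' : ℕ}
    (hf : Far N l l') (hl : ∀ i < N, ∀ x ∈ l i, x < Y.L ∧ Y.sh x = s)
    (hl' : ∀ i < N, ∀ x ∈ l' i, x < Y.L ∧ Y.sh x = s') :
    s ≠ s' ∨ (∀ i < N, ∀ j < N, ∀ x ∈ l i, ∀ y ∈ l' j, col x < col y) ∨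
      (∀ i < N, ∀ j < N, ∀ x ∈ l i, ∀ y ∈ l' j, col y < col x) := by
  by_cases hs : s = s'
  · right
    subst hs
    rcases hf with hf | hf
    · left
      intro i hi j hj x hx y hy
      exact (h.lt_iff (hl i hi x hx) (hl' j hj y hy)).1 (hf i hi j hj x hx y hy)
    · right
      intro i hi j hj x hx y hy
      exact (h.lt_iff (hl' j hj y hy) (hl i hi x hx)).1 (hf i hi j hj x hx y hy)
  · exact Or.inl hs

lemma Real.ser (h : Real Y S ends P lo hi n G B col) {N : ℕ} {l : ℕ → List ℕ} {s : ℕ}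
    (hf : Ser N l) (hl : ∀ i < N, ∀ x ∈ l i, x < Y.L ∧ Y.sh x = s) :
    ∀ i j, i < j → j < N → ∀ x ∈ l i, ∀ y ∈ l j, col x < col y := by
  intro i j hij hj x hx y hy
  exact (h.lt_iff (hl i (by omega) x hx) (hl j hj y hy)).1 (hf i j hij hj x hx y hy)

/-- **Pattern (A).** -/
theorem Real.pA (h : Real Y S ends P lo hi n G B col) {w N : ℕ} (hw : 1 ≤ w)
    (hN : (2 * w) * (2 * w) ≤ N) (hn : 1 + 2 * w ≤ n) {x z q : ℕ → ℕ} (hp : Y.PA N x z q) :
    Gm1 S ends P lo hi n (2 * w) := by
  obtain ⟨s, hs⟩ := hp.onP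
  obtain ⟨s', hs'⟩ := hp.onQ
  have hsx : ∀ i < N, x i < Y.L ∧ Y.sh (x i) = s := fun i hi => hs i hi _ (by simp)
  have hsq : ∀ i < N, q i < Y.L ∧ Y.sh (q i) = s := fun i hi => hs i hi _ (by simp)
  have hsz : ∀ i < N, z i < Y.L ∧ Y.sh (z i) = s' := fun i hi => hs' i hi _ (by simp)
  have hser := h.ser hp.ser hs
  have hsep := h.sep hp.far hs hs'
  refine h.rlz.gA hw rfl hn s s' (fun i => col (x i)) (fun i => col (q i))
    (fun i => col (z i)) (fun i => Y.F (x i) (z i)) (fun i => Y.F (q i) (q i)) ?_ ?_ ?_ ?_ ?_ ?_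
  · intro i hi
    have h1 := lkOf (col := col) (hp.lk i (by omega))
    rwa [(hsx i (by omega)).2, (hsz i (by omega)).2] at h1
  · intro i hi
    have h1 := glOf (col := col) (hsq i (by omega)).1 (hp.gr i (by omega))
    rwa [(hsq i (by omega)).2] at h1
  · left
    intro i j hij hj
    have h1 := hser i j hij (by omega) (x i) (by simp) (x j) (by simp)
    have h2 := hser i j hij (by omega) (x i) (by simp) (q j) (by simp)
    have h3 := hser i j hij (by omega) (q i) (by simp) (x j) (by simp)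
    have h4 := hser i j hij (by omega) (q i) (by simp) (q j) (by simp)
    omega
  · exact h.mon hN hp.mon hsz
  · rcases hsep with h1 | h1 | h1
    · exact Or.inl h1
    · right; left
      intro i hi j hj
      have h2 := h1 i (by omega) j (by omega) (x i) (by simp) (z j) (by simp)
      have h3 := h1 i (by omega) j (by omega) (q i) (by simp) (z j) (by simp)
      omega
    · right; right
      intro i hi j hj
      have h2 := h1 i (by omega) j (by omega) (x i) (by simp) (z j) (by simp)
      have h3 := h1 i (by omega) j (by omega) (q i) (by simp) (z j) (by simp)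
      omega
  · intro i hi j hj hij
    have h1 := hp.dis i (by omega) j (by omega) hij
    exact ⟨h1.dis (by simp) (by simp) (by simp) (by simp),
      h1.dis (by simp) (by simp) (by simp) (by simp), h1.dis (by simp) (by simp) (by simp)
      (by simp)⟩

/-- **Pattern (B).** -/
theorem Real.pB' (h : Real Y S ends P lo hi n G B col) {w N : ℕ} (hw : 1 ≤ w)
    (hN : (2 * w) * (2 * w) + 2 ≤ N) (hn : 1 + 2 * w ≤ n) {x z c d : ℕ → ℕ}
    (hp : Y.PB N x z c d) : Gm1 S ends P lo hi n (2 * w) := by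
  obtain ⟨s, hs⟩ := hp.onP
  obtain ⟨s', hs'⟩ := hp.onZ
  obtain ⟨s'', hs''⟩ := hp.onD
  have hsx : ∀ i < N, x i < Y.L ∧ Y.sh (x i) = s := fun i hi => hs i hi _ (by simp)
  have hsc : ∀ i < N, c i < Y.L ∧ Y.sh (c i) = s := fun i hi => hs i hi _ (by simp)
  have hsz : ∀ i < N, z i < Y.L ∧ Y.sh (z i) = s' := fun i hi => hs' i hi _ (by simp)
  have hsd : ∀ i < N, d i < Y.L ∧ Y.sh (d i) = s'' := fun i hi => hs'' i hi _ (by simp)
  have hser := h.ser hp.ser hs
  have hsep := h.sep hp.far hs hs'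
  have hsep' := h.sep hp.far' hs hs''
  have hsep'' := h.sep hp.far'' hs' hs''
  refine h.rlz.gB hw rfl (by omega) s s' s'' (fun i => col (x i)) (fun i => col (z i))
    (fun i => col (c i)) (fun i => col (d i)) (fun i => Y.F (x i) (z i))
    (fun i => Y.F (c i) (d i)) ?_ ?_ ?_ (h.mon hN hp.mon hsz) (h.mon hN hp.mon' hsd) ?_ ?_ ?_ ?_
  · intro i hi
    have h1 := lkOf (col := col) (hp.lk i (by omega))
    rwa [(hsx i (by omega)).2, (hsz i (by omega)).2] at h1
  · intro i hi
    have h1 := lkOf (col := col) (hp.lk' i (by omega))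
    rwa [(hsc i (by omega)).2, (hsd i (by omega)).2] at h1
  · left
    intro i j hij hj
    have h1 := hser i j hij (by omega) (x i) (by simp) (x j) (by simp)
    have h2 := hser i j hij (by omega) (x i) (by simp) (c j) (by simp)
    have h3 := hser i j hij (by omega) (c i) (by simp) (x j) (by simp)
    have h4 := hser i j hij (by omega) (c i) (by simp) (c j) (by simp)
    omega
  · rcases hsep with h1 | h1 | h1
    · exact Or.inl h1
    · exact Or.inr (Or.inl fun i hi j hj => h1 i (by omega) j (by omega) _ (by simp) _ (by simp))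
    · exact Or.inr (Or.inr fun i hi j hj => h1 i (by omega) j (by omega) _ (by simp) _ (by simp))
  · rcases hsep' with h1 | h1 | h1
    · exact Or.inl h1
    · exact Or.inr (Or.inl fun i hi j hj => h1 i (by omega) j (by omega) _ (by simp) _ (by simp))
    · exact Or.inr (Or.inr fun i hi j hj => h1 i (by omega) j (by omega) _ (by simp) _ (by simp))
  · rcases hsep'' with h1 | h1 | h1
    · exact Or.inl h1
    · exact Or.inr (Or.inl fun i hi j hj => h1 i (by omega) j (by omega) _ (by simp) _ (by simp))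
    · exact Or.inr (Or.inr fun i hi j hj => h1 i (by omega) j (by omega) _ (by simp) _ (by simp))
  · intro i hi j hj hij
    have h1 := hp.dis i (by omega) j (by omega) hij
    exact ⟨h1.dis (by simp) (by simp) (by simp) (by simp),
      h1.dis (by simp) (by simp) (by simp) (by simp), h1.dis (by simp) (by simp) (by simp)
      (by simp)⟩

/-- **Pattern (SJ).** -/
theorem Real.pJ (h : Real Y S ends P lo hi n G B col) {w N : ℕ} (hw : 1 ≤ w)
    (hN : (2 * w) * (2 * w) ≤ N) (hn : 2 + 2 * w ≤ n) {p q y z : ℕ → ℕ}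
    (hp : Y.PJ N p q y z) : Gm1 S ends P lo hi n (2 * w) := by
  obtain ⟨s, hs⟩ := hp.onP
  obtain ⟨s', hs'⟩ := hp.onQ
  have hsp : ∀ i < N, p i < Y.L ∧ Y.sh (p i) = s := fun i hi => hs i hi _ (by simp)
  have hsy : ∀ i < N, y i < Y.L ∧ Y.sh (y i) = s := fun i hi => hs i hi _ (by simp)
  have hsz : ∀ i < N, z i < Y.L ∧ Y.sh (z i) = s := fun i hi => hs i hi _ (by simp)
  have hsq : ∀ i < N, q i < Y.L ∧ Y.sh (q i) = s' := fun i hi => hs' i hi _ (by simp)
  have hser := h.ser hp.ser hs
  have hsep := h.sep hp.far hs hs'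
  refine h.rlz.sj hw rfl hn s s' true (fun i => col (p i)) (fun i => col (q i))
    (fun i => col (y i)) (fun i => col (z i)) (fun i => Y.F (p i) (q i))
    (fun i => Y.F (y i) (z i)) ?_ ?_ ?_ ?_ (h.mon hN hp.mon hsq) ?_ ?_ ?_
  · intro i hi
    have h1 := lkOf (col := col) (hp.lk i (by omega))
    rwa [(hsp i (by omega)).2, (hsq i (by omega)).2] at h1
  · intro i hi
    have h1 := lkOf (col := col) (hp.lk' i (by omega))
    rwa [(hsy i (by omega)).2, (hsz i (by omega)).2] at h1
  · intro i hi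
    rw [ord_true, ord_true]
    exact ⟨(h.lt_iff (hsy i (by omega)) (hsp i (by omega))).1 (hp.yp i (by omega)),
      (h.lt_iff (hsp i (by omega)) (hsz i (by omega))).1 (hp.pz i (by omega))⟩
  · intro i hi
    rw [ord_true]
    exact hser i (i + 1) (by omega) (by omega) _ (by simp) _ (by simp)
  · rcases hsep with h1 | h1 | h1
    · exact Or.inl h1
    · exact Or.inr (Or.inl fun i hi j hj => ⟨h1 i (by omega) j (by omega) _ (by simp) _ (by simp),
        h1 i (by omega) j (by omega) _ (by simp) _ (by simp)⟩)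
    · exact Or.inr (Or.inr fun i hi j hj => ⟨h1 i (by omega) j (by omega) _ (by simp) _ (by simp),
        h1 i (by omega) j (by omega) _ (by simp) _ (by simp)⟩)
  · intro i hi j hj hij
    exact (hp.dis i (by omega) j (by omega) hij).dis (by simp) (by simp) (by simp) (by simp)
  · intro i hi j hj
    by_cases hij : i = j
    · subst hij
      exact (hp.dj i (by omega)).dis (by simp) (by simp) (by simp) (by simp)
    · exact (hp.dis i (by omega) j (by omega) hij).dis (by simp) (by simp) (by simp) (by simp)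

/-- **Pattern (SJ').** -/
theorem Real.pX (h : Real Y S ends P lo hi n G B col) {w N : ℕ} (hw : 1 ≤ w)
    (hN : (2 * w) * (2 * w) ≤ N) (hn : 2 + 2 * w ≤ n) {p q y z p' q' : ℕ → ℕ}
    (hp : Y.PX N p q y z p' q') : Gm1 S ends P lo hi n (2 * w) := by
  obtain ⟨s, hs⟩ := hp.onP
  obtain ⟨s', hs'⟩ := hp.onQ
  have hsp : ∀ i < N, p i < Y.L ∧ Y.sh (p i) = s := fun i hi => hs i hi _ (by simp)
  have hsy : ∀ i < N, y i < Y.L ∧ Y.sh (y i) = s := fun i hi => hs i hi _ (by simp)
  have hsp' : ∀ i < N, p' i < Y.L ∧ Y.sh (p' i) = s := fun i hi => hs i hi _ (by simp)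
  have hsq : ∀ i < N, q i < Y.L ∧ Y.sh (q i) = s' := fun i hi => hs' i hi _ (by simp)
  have hsz : ∀ i < N, z i < Y.L ∧ Y.sh (z i) = s' := fun i hi => hs' i hi _ (by simp)
  have hsq' : ∀ i < N, q' i < Y.L ∧ Y.sh (q' i) = s' := fun i hi => hs' i hi _ (by simp)
  have hser := h.ser hp.ser hs
  have hsep := h.sep hp.far hs hs'
  have hL : ∀ i < (2 * w) * (2 * w),
      Lk (Y.prt col) Y.ct s (col (p i)) s' (col (q i)) (Y.F (p i) (q i)) := by
    intro i hi
    have h1 := lkOf (col := col) (hp.lk i (by omega))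
    rwa [(hsp i (by omega)).2, (hsq i (by omega)).2] at h1
  have hL' : ∀ i < (2 * w) * (2 * w),
      Lk (Y.prt col) Y.ct s (col (y i)) s' (col (z i)) (Y.F (y i) (z i)) := by
    intro i hi
    have h1 := lkOf (col := col) (hp.lk' i (by omega))
    rwa [(hsy i (by omega)).2, (hsz i (by omega)).2] at h1
  have hL'' : ∀ i < (2 * w) * (2 * w),
      Lk (Y.prt col) Y.ct s (col (p' i)) s' (col (q' i)) (Y.F (p' i) (q' i)) := by
    intro i hi
    have h1 := lkOf (col := col) (hp.lk'' i (by omega))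
    rwa [(hsp' i (by omega)).2, (hsq' i (by omega)).2] at h1
  have hsep' : s ≠ s' ∨ (∀ i < (2 * w) * (2 * w), ∀ j < (2 * w) * (2 * w),
      max (col (y i)) (col (p' i)) < min (col (q j)) (col (q' j))) ∨
      (∀ i < (2 * w) * (2 * w), ∀ j < (2 * w) * (2 * w),
        max (col (q j)) (col (q' j)) < min (col (y i)) (col (p' i))) := by
    rcases hsep with h1 | h1 | h1
    · exact Or.inl h1
    · right; left
      intro i hi j hj
      have h2 := h1 i (by omega) j (by omega) (y i) (by simp) (q j) (by simp)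
      have h3 := h1 i (by omega) j (by omega) (y i) (by simp) (q' j) (by simp)
      have h4 := h1 i (by omega) j (by omega) (p' i) (by simp) (q j) (by simp)
      have h5 := h1 i (by omega) j (by omega) (p' i) (by simp) (q' j) (by simp)
      omega
    · right; right
      intro i hi j hj
      have h2 := h1 i (by omega) j (by omega) (y i) (by simp) (q j) (by simp)
      have h3 := h1 i (by omega) j (by omega) (y i) (by simp) (q' j) (by simp)
      have h4 := h1 i (by omega) j (by omega) (p' i) (by simp) (q j) (by simp)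
      have h5 := h1 i (by omega) j (by omega) (p' i) (by simp) (q' j) (by simp)
      omega
  have hord : ∀ i < (2 * w) * (2 * w), Ord true (col (y i)) (col (p i)) ∧
      Ord true (col (p i)) (col (p' i)) := by
    intro i hi
    rw [ord_true, ord_true]
    exact ⟨(h.lt_iff (hsy i (by omega)) (hsp i (by omega))).1 (hp.yp i (by omega)),
      (h.lt_iff (hsp i (by omega)) (hsp' i (by omega))).1 (hp.pp i (by omega))⟩
  have hord' : ∀ i, i + 1 < (2 * w) * (2 * w) → Ord true (col (p' i)) (col (y (i + 1))) := by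
    intro i hi
    rw [ord_true]
    exact hser i (i + 1) (by omega) (by omega) _ (by simp) _ (by simp)
  have hLL : ∀ i < (2 * w) * (2 * w), ∀ j < (2 * w) * (2 * w), i ≠ j →
      Disjoint (Y.F (p i) (q i)) (Y.F (p j) (q j)) := by
    intro i hi j hj hij
    exact (hp.dis i (by omega) j (by omega) hij).dis (by simp) (by simp) (by simp) (by simp)
  have hLL' : ∀ i < (2 * w) * (2 * w), ∀ j < (2 * w) * (2 * w),
      Disjoint (Y.F (p i) (q i)) (Y.F (y j) (z j)) := by
    intro i hi j hj
    by_cases hij : i = j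
    · subst hij
      exact (hp.dj i (by omega)).dis (by simp) (by simp) (by simp) (by simp)
    · exact (hp.dis i (by omega) j (by omega) hij).dis (by simp) (by simp) (by simp) (by simp)
  have hLL'' : ∀ i < (2 * w) * (2 * w), ∀ j < (2 * w) * (2 * w),
      Disjoint (Y.F (p i) (q i)) (Y.F (p' j) (q' j)) := by
    intro i hi j hj
    by_cases hij : i = j
    · subst hij
      exact (hp.dj' i (by omega)).dis (by simp) (by simp) (by simp) (by simp)
    · exact (hp.dis i (by omega) j (by omega) hij).dis (by simp) (by simp) (by simp) (by simp)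
  rcases hp.cr with ⟨c1, c2⟩ | ⟨c1, c2⟩
  · refine h.rlz.sx hw rfl hn s s' true true (fun i => col (p i)) (fun i => col (q i))
      (fun i => col (y i)) (fun i => col (z i)) (fun i => col (p' i)) (fun i => col (q' i))
      (fun i => Y.F (p i) (q i)) (fun i => Y.F (y i) (z i)) (fun i => Y.F (p' i) (q' i)) hL hL'
      hL'' hord hord' ?_ ?_ hsep' hLL hLL' hLL''
    · intro i hi
      rw [ord_true, ord_true]
      exact ⟨(h.lt_iff (hsq i (by omega)) (hsz i (by omega))).1 (c1 i (by omega)).1,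
        (h.lt_iff (hsz i (by omega)) (hsq' i (by omega))).1 (c1 i (by omega)).2⟩
    · intro i hi
      rw [ord_true]
      exact (h.lt_iff (hsq' i (by omega)) (hsq (i + 1) (by omega))).1
        (c2 i (i + 1) (by omega) (by omega) _ (by simp) _ (by simp))
  · refine h.rlz.sx hw rfl hn s s' true false (fun i => col (p i)) (fun i => col (q i))
      (fun i => col (y i)) (fun i => col (z i)) (fun i => col (p' i)) (fun i => col (q' i))
      (fun i => Y.F (p i) (q i)) (fun i => Y.F (y i) (z i)) (fun i => Y.F (p' i) (q' i)) hL hL'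
      hL'' hord hord' ?_ ?_ hsep' hLL hLL' hLL''
    · intro i hi
      rw [ord_false, ord_false]
      exact ⟨(h.lt_iff (hsz i (by omega)) (hsq i (by omega))).1 (c1 i (by omega)).2,
        (h.lt_iff (hsq' i (by omega)) (hsz i (by omega))).1 (c1 i (by omega)).1⟩
    · intro i hi
      rw [ord_false]
      exact (h.lt_iff (hsq (i + 1) (by omega)) (hsq' i (by omega))).1
        (c2 i (i + 1) (by omega) (by omega) _ (by simp) _ (by simp))

/-- **Pattern (CR).** -/
theorem Real.pC (h : Real Y S ends P lo hi n G B col) {w N : ℕ} (hw : 1 ≤ w)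
    (hN : (2 * w) * (2 * w) ≤ N) (hn : 3 + 2 * w ≤ n) {a b y z v v' : ℕ → ℕ}
    (hp : Y.PC N a b y z v v') : Gm1 S ends P lo hi n (2 * w) := by
  obtain ⟨s, hs⟩ := hp.onP
  obtain ⟨s', hs'⟩ := hp.onQ
  have hsa : ∀ i < N, a i < Y.L ∧ Y.sh (a i) = s := fun i hi => hs i hi _ (by simp)
  have hsy : ∀ i < N, y i < Y.L ∧ Y.sh (y i) = s := fun i hi => hs i hi _ (by simp)
  have hsv : ∀ i < N, v i < Y.L ∧ Y.sh (v i) = s := fun i hi => hs i hi _ (by simp)
  have hsz : ∀ i < N, z i < Y.L ∧ Y.sh (z i) = s := fun i hi => hs i hi _ (by simp)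
  have hsv' : ∀ i < N, v' i < Y.L ∧ Y.sh (v' i) = s := fun i hi => hs i hi _ (by simp)
  have hsb : ∀ i < N, b i < Y.L ∧ Y.sh (b i) = s' := fun i hi => hs' i hi _ (by simp)
  have hser := h.ser hp.ser hs
  have hsep := h.sep hp.far hs hs'
  refine h.rlz.cr hw rfl hn s s' true (fun i => col (a i)) (fun i => col (b i))
    (fun i => col (y i)) (fun i => col (z i)) (fun i => col (v i)) (fun i => col (v' i))
    (fun i => Y.F (a i) (b i)) (fun i => Y.F (y i) (z i)) (fun i => Y.F (v i) (v' i))
    ?_ ?_ ?_ ?_ ?_ (h.mon hN hp.mon hsb) ?_ ?_ ?_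
  · intro i hi
    have h1 := lkOf (col := col) (hp.lk i (by omega))
    rwa [(hsa i (by omega)).2, (hsb i (by omega)).2] at h1
  · intro i hi
    have h1 := lkOf (col := col) (hp.lk' i (by omega))
    rwa [(hsy i (by omega)).2, (hsz i (by omega)).2] at h1
  · intro i hi
    have h1 := lkOf (col := col) (hp.lk'' i (by omega))
    rwa [(hsv i (by omega)).2, (hsv' i (by omega)).2] at h1
  · intro i hi
    have o := hp.ord i (by omega)
    simp only [ord_true]
    exact ⟨(h.lt_iff (hsa i (by omega)) (hsy i (by omega))).1 o.1,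
      (h.lt_iff (hsy i (by omega)) (hsv i (by omega))).1 o.2.1,
      (h.lt_iff (hsv i (by omega)) (hsz i (by omega))).1 o.2.2.1,
      (h.lt_iff (hsz i (by omega)) (hsv' i (by omega))).1 o.2.2.2⟩
  · intro i hi
    rw [ord_true]
    exact hser i (i + 1) (by omega) (by omega) _ (by simp) _ (by simp)
  · rcases hsep with h1 | h1 | h1
    · exact Or.inl h1
    · right; left
      intro i hi j hj
      have h2 := h1 i (by omega) j (by omega) (a i) (by simp) (b j) (by simp)
      have h3 := h1 i (by omega) j (by omega) (v' i) (by simp) (b j) (by simp)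
      omega
    · right; right
      intro i hi j hj
      have h2 := h1 i (by omega) j (by omega) (a i) (by simp) (b j) (by simp)
      have h3 := h1 i (by omega) j (by omega) (v' i) (by simp) (b j) (by simp)
      omega
  · intro i hi j hj hij
    have h1 := hp.dis i (by omega) j (by omega) hij
    exact ⟨h1.dis (by simp) (by simp) (by simp) (by simp),
      h1.dis (by simp) (by simp) (by simp) (by simp), h1.dis (by simp) (by simp) (by simp)
      (by simp)⟩
  · intro i hi j hj
    by_cases hij : i = j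
    · subst hij
      exact ⟨(hp.dj i (by omega)).dis (by simp) (by simp) (by simp) (by simp),
        (hp.dj i (by omega)).dis (by simp) (by simp) (by simp) (by simp)⟩
    · have h1 := hp.dis i (by omega) j (by omega) hij
      exact ⟨h1.dis (by simp) (by simp) (by simp) (by simp),
        h1.dis (by simp) (by simp) (by simp) (by simp)⟩

end

end EN
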