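import Pool.Agent.EN.InstR
import Pool.Agent.EN.Match

/-!
# The host inside a graph: the real system of the instance (row B7 (4) of T-star; helper45)

`Emb S ends H D φ`: the vertices of the host of depth `D` which are not in the window `0` are
different vertices of the graph `(S, ends)`, and adjacent ones are adjacent.
`Emb.real`: a system of connectors in the host (`ConnB`) becomes `EN.Real` for the line of ports.
-/

set_option autoImplicit false

open Relation Gad BIC

namespace Mdl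

variable {V σ X κ : Type*}

/-- Host vertices away from the window `0`. -/
def NZ (H : Host V σ) (D : ℤ) : HV V σ → Prop
  | Sum.inl _ => True
  | Sum.inr (s, c, b) => c < H.len s ∧ -D ≤ b ∧ b ≤ D ∧ b ≠ 0

/-- The host inside the graph `(S, ends)`. -/
structure Emb {α W : Type*} (S : Set α) (ends : α → Sym2 W) (H : Host V σ) (D : ℤ)
    (φ : HV V σ → W) : Prop where
  inj : ∀ u v, NZ H D u → NZ H D v → φ u = φ v → u = v
  adj : ∀ u v, NZ H D u → NZ H D v → H.Adj D u v → GAdj S ends (φ u) (φ v)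

/-- the windows `b > 0` are moved to `b + k`, the windows `b < 0` to `b - k` -/
def shf (k : ℤ) : HV V σ → HV V σ
  | Sum.inl v => Sum.inl v
  | Sum.inr (s, c, b) => Sum.inr (s, c, if 0 < b then b + k else b - k)

/-- **A smaller depth.** The host of depth `D ≤ N` without the window `0` sits at the two ends of
the host of depth `N`. -/
theorem Emb.shrink {α W : Type*} {S : Set α} {ends : α → Sym2 W} {H : Host V σ} {N D : ℤ}
    {φ : HV V σ → W} (h : Emb S ends H N φ) (hD : D ≤ N) :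
    Emb S ends H D (fun u => φ (shf (N - D) u)) where
  inj u v hu hv he := by
    have nz : ∀ u, NZ H D u → NZ H N (shf (N - D) u) := by
      rintro (u | ⟨s, c, b⟩) hu
      · trivial
      · obtain ⟨h1, h2, h3, h4⟩ := hu
        show NZ H N (Sum.inr (s, c, if 0 < b then b + (N - D) else b - (N - D)))
        split_ifs with hb
        · exact ⟨h1, by omega, by omega, by omega⟩
        · exact ⟨h1, by omega, by omega, by omega⟩
    have h1 := h.inj _ _ (nz u hu) (nz v hv) he
    rcases u with u | ⟨s, c, b⟩ <;> rcases v with v | ⟨s', c', b'⟩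
    · exact h1
    · exact absurd h1 (by simp [shf])
    · exact absurd h1 (by simp [shf])
    · obtain ⟨_, _, _, h4⟩ := hu
      obtain ⟨_, _, _, h4'⟩ := hv
      simp only [shf, Sum.inr.injEq, Prod.mk.injEq] at h1
      obtain ⟨rfl, rfl, h2⟩ := h1
      have : b = b' := by
        split_ifs at h2 <;> omega
      rw [this]
  adj u v hu hv huv := by
    have nz : ∀ u, NZ H D u → NZ H N (shf (N - D) u) := by
      rintro (u | ⟨s, c, b⟩) hu
      · trivial
      · obtain ⟨h1, h2, h3, h4⟩ := hu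
        show NZ H N (Sum.inr (s, c, if 0 < b then b + (N - D) else b - (N - D)))
        split_ifs with hb
        · exact ⟨h1, by omega, by omega, by omega⟩
        · exact ⟨h1, by omega, by omega, by omega⟩
    have key : ∀ u v, NZ H D u → NZ H D v → H.E D u v →
        H.E N (shf (N - D) u) (shf (N - D) v) := by
      rintro (u | ⟨s, c, b⟩) (v | ⟨s', c', b'⟩) hu hv huv
      · exact huv
      · obtain ⟨h1, h2 | h2⟩ := huv
        · have hv' : c' < H.len s' ∧ -D ≤ b' ∧ b' ≤ D ∧ b' ≠ 0 := hv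
          obtain ⟨_, h6, h7, h4⟩ := hv'
          refine ⟨h1, ?_⟩
          obtain ⟨rfl, h3⟩ := h2
          left
          exact ⟨by rw [if_neg (by omega)]; ring, h3⟩
        · have hv' : c' < H.len s' ∧ -D ≤ b' ∧ b' ≤ D ∧ b' ≠ 0 := hv
          obtain ⟨_, h6, h7, h4⟩ := hv'
          refine ⟨h1, ?_⟩
          obtain ⟨rfl, h3⟩ := h2
          right
          exact ⟨by rw [if_pos (by omega)]; ring, h3⟩
      · exact huv.elim
      · obtain ⟨rfl, h1, h2, h3, h4⟩ := huv
        obtain ⟨_, _, _, h5⟩ := hu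
        obtain ⟨_, _, _, h6⟩ := hv
        refine ⟨rfl, h1, ?_, ?_, ?_⟩
        · split_ifs <;> omega
        · split_ifs <;> omega
        · rcases h4 with ⟨rfl, h7⟩ | ⟨h7, h8, h9⟩
          · left
            refine ⟨rfl, ?_⟩
            split_ifs <;> omega
          · right
            subst h8
            refine ⟨h7, rfl, ?_⟩
            split_ifs <;> omega
    refine h.adj _ _ (nz u hu) (nz v hv) ?_
    rcases huv with h1 | h1
    · exact Or.inl (key u v hu hv h1)
    · exact Or.inr (key v u hv hu h1)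

namespace Emb

open EN EN.Inst

/-- number of columns of the shore `j` -/
def shl (H : Host V σ) (sg : ℕ → σ) (S j : ℕ) : ℕ :=
  if j < S then H.len (sg j) else if j < 2 * S then H.len (sg (j - S)) else 0

/-- first column -/
def lo (H : Host V σ) (sg : ℕ → σ) (S j : ℕ) : ℕ := if 0 < shl H sg S j then 0 else 1

/-- last column -/
def hi (H : Host V σ) (sg : ℕ → σ) (S j : ℕ) : ℕ := shl H sg S j - 1

/-- the page of the shore `j` -/
def pg {W : Type*} (φ : HV V σ → W) (sg : ℕ → σ) (S : ℕ) (K : ℤ) (j : ℕ) (c : ℕ × ℕ) : W :=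
  if j < S then φ (Sum.inr (sg j, c.1, -K + 1 + c.2)) else
    φ (Sum.inr (sg (j - S), c.1, K - 1 - c.2))

variable {α W : Type*} {S : Set α} {ends : α → Sym2 W} {H : Host V σ} {D K : ℤ} {φ : HV V σ → W}
  {sg : ℕ → σ} {m : ℕ}

lemma adj_ver {s : σ} {c : ℕ} {b : ℤ} (hc : c < H.len s) (h1 : -D ≤ b) (h2 : b + 1 ≤ D) :
    H.Adj D (Sum.inr (s, c, b)) (Sum.inr (s, c, b + 1)) :=
  Or.inl ⟨rfl, hc, h1, h2, Or.inl ⟨rfl, rfl⟩⟩

lemma adj_hor {s : σ} {c : ℕ} {b : ℤ} (hc : c + 1 < H.len s) (h1 : -D ≤ b) (h2 : b ≤ D)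
    (h0 : b ≠ 0) : H.Adj D (Sum.inr (s, c, b)) (Sum.inr (s, c + 1, b)) :=
  Or.inl ⟨rfl, hc, h1, h2, Or.inr ⟨rfl, rfl, h0⟩⟩

/-- the page coordinates of a region -/
lemma mem_reg {j : ℕ} {n : ℕ} {c : ℕ × ℕ} (hc : c ∈ Reg (lo H sg m j) (hi H sg m j) n) :
    c.1 < shl H sg m j ∧ c.2 ≤ n ∧ j < 2 * m := by
  obtain ⟨h1, h2, h3⟩ := hc
  unfold lo at h1
  unfold hi at h2
  have h4 : 0 < shl H sg m j := by
    by_contra h
    rw [if_neg h] at h1
    omega
  refine ⟨by omega, h3, ?_⟩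
  by_contra h
  have : shl H sg m j = 0 := by
    unfold shl
    rw [if_neg (by omega), if_neg h]
  omega

/-- The pages are pages, and different pages are disjoint. -/
theorem pgs (hE : Emb S ends H D φ) (hK : 2 ≤ K) (hKD : K ≤ D) (hS : Enum sg m) :
    Pgs S ends (pg φ sg m K) (lo H sg m) (hi H sg m) (K - 2).toNat := by
  have hn : (((K - 2).toNat : ℕ) : ℤ) = K - 2 := Int.toNat_of_nonneg (by omega)
  have hcol : ∀ j c, lo H sg m j ≤ c → c ≤ hi H sg m j → c < shl H sg m j ∧ j < 2 * m := by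
    intro j c h1 h2
    have := mem_reg (H := H) (sg := sg) (m := m) (j := j) (n := 0) (c := (c, 0)) ⟨h1, h2, le_rfl⟩
    exact ⟨this.1, this.2.2⟩
  have hshl1 : ∀ j, j < m → shl H sg m j = H.len (sg j) := fun j h => by
    unfold shl
    rw [if_pos h]
  have hshl2 : ∀ j, ¬ j < m → j < 2 * m → shl H sg m j = H.len (sg (j - m)) := fun j h h' => by
    unfold shl
    rw [if_neg h, if_pos h']
  have hpg1 : ∀ j, j < m → ∀ c b : ℕ, pg φ sg m K j (c, b) =
      φ (Sum.inr (sg j, c, -K + 1 + (b : ℤ))) := fun j h c b => by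
    unfold pg
    rw [if_pos h]
  have hpg2 : ∀ j, ¬ j < m → ∀ c b : ℕ, pg φ sg m K j (c, b) =
      φ (Sum.inr (sg (j - m), c, K - 1 - (b : ℤ))) := fun j h c b => by
    unfold pg
    rw [if_neg h]
  have nz1 : ∀ j, j < m → ∀ c b : ℕ, c < shl H sg m j → b ≤ (K - 2).toNat →
      NZ H D (Sum.inr (sg j, c, -K + 1 + (b : ℤ))) := by
    intro j hj c b hc hb
    rw [hshl1 j hj] at hc
    exact ⟨hc, by omega, by omega, by omega⟩
  have nz2 : ∀ j, ¬ j < m → j < 2 * m → ∀ c b : ℕ, c < shl H sg m j → b ≤ (K - 2).toNat →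
      NZ H D (Sum.inr (sg (j - m), c, K - 1 - (b : ℤ))) := by
    intro j hj hj' c b hc hb
    rw [hshl2 j hj hj'] at hc
    exact ⟨hc, by omega, by omega, by omega⟩
  refine ⟨fun j => ⟨?_, ?_, ?_⟩, ?_⟩
  · rintro ⟨c, b⟩ ⟨c', b'⟩ h1 h2 h3 h4 h5 h6 he
    simp only at h1 h2 h3 h4 h5 h6
    obtain ⟨g1, g2⟩ := hcol j c h1 h2
    obtain ⟨g3, _⟩ := hcol j c' h4 h5
    by_cases hj : j < m
    · rw [hpg1 j hj, hpg1 j hj] at he
      have h7 := hE.inj _ _ (nz1 j hj c b g1 h3) (nz1 j hj c' b' g3 h6) he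
      simp only [Sum.inr.injEq, Prod.mk.injEq, true_and] at h7
      exact Prod.ext h7.1 (by simp only; omega)
    · rw [hpg2 j hj, hpg2 j hj] at he
      have h7 := hE.inj _ _ (nz2 j hj g2 c b g1 h3) (nz2 j hj g2 c' b' g3 h6) he
      simp only [Sum.inr.injEq, Prod.mk.injEq, true_and] at h7
      exact Prod.ext h7.1 (by simp only; omega)
  · intro x b h1 h2 h3
    obtain ⟨g1, g2⟩ := hcol j x h1 h2
    by_cases hj : j < m
    · rw [hpg1 j hj, hpg1 j hj]
      refine hE.adj _ _ (nz1 j hj x b g1 (by omega)) (nz1 j hj x (b + 1) g1 (by omega)) ?_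
      rw [hshl1 j hj] at g1
      have h4 := adj_ver (H := H) (D := D) (s := sg j) (c := x) (b := -K + 1 + (b : ℤ)) g1
        (by omega) (by omega)
      have e1 : -K + 1 + ((b + 1 : ℕ) : ℤ) = -K + 1 + (b : ℤ) + 1 := by push_cast; ring
      rw [e1]
      exact h4
    · rw [hpg2 j hj, hpg2 j hj]
      refine hE.adj _ _ (nz2 j hj g2 x b g1 (by omega)) (nz2 j hj g2 x (b + 1) g1 (by omega)) ?_
      rw [hshl2 j hj g2] at g1
      have h4 := adj_ver (H := H) (D := D) (s := sg (j - m)) (c := x)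
        (b := K - 1 - ((b + 1 : ℕ) : ℤ)) g1 (by omega) (by omega)
      have e1 : K - 1 - ((b + 1 : ℕ) : ℤ) + 1 = K - 1 - (b : ℤ) := by push_cast; ring
      rw [e1] at h4
      exact h4.symm
  · intro x b h1 h2 h3 h4
    obtain ⟨g1, g2⟩ := hcol j x h1 (by omega)
    obtain ⟨g3, _⟩ := hcol j (x + 1) (by omega) (by omega)
    by_cases hj : j < m
    · rw [hpg1 j hj, hpg1 j hj]
      refine hE.adj _ _ (nz1 j hj x b g1 h4) (nz1 j hj (x + 1) b g3 h4) ?_
      rw [hshl1 j hj] at g3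
      exact adj_hor g3 (by omega) (by omega) (by omega)
    · rw [hpg2 j hj, hpg2 j hj]
      refine hE.adj _ _ (nz2 j hj g2 x b g1 h4) (nz2 j hj g2 (x + 1) b g3 h4) ?_
      rw [hshl2 j hj g2] at g3
      exact adj_hor g3 (by omega) (by omega) (by omega)
  · rintro j j' hjj ⟨c, b⟩ hc ⟨c', b'⟩ hc' he
    obtain ⟨g1, g2, g3⟩ := mem_reg hc
    obtain ⟨g4, g5, g6⟩ := mem_reg hc'
    simp only at g1 g2 g4 g5
    by_cases hj : j < m
    · by_cases hj' : j' < m
      · rw [hpg1 j hj, hpg1 j' hj'] at he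
        have h7 := hE.inj _ _ (nz1 j hj c b g1 g2) (nz1 j' hj' c' b' g4 g5) he
        simp only [Sum.inr.injEq, Prod.mk.injEq] at h7
        exact hjj (hS.inj j hj j' hj' h7.1)
      · rw [hpg1 j hj, hpg2 j' hj'] at he
        have h7 := hE.inj _ _ (nz1 j hj c b g1 g2) (nz2 j' hj' g6 c' b' g4 g5) he
        simp only [Sum.inr.injEq, Prod.mk.injEq] at h7
        omega
    · by_cases hj' : j' < m
      · rw [hpg2 j hj, hpg1 j' hj'] at he
        have h7 := hE.inj _ _ (nz2 j hj g3 c b g1 g2) (nz1 j' hj' c' b' g4 g5) he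
        simp only [Sum.inr.injEq, Prod.mk.injEq] at h7
        omega
      · rw [hpg2 j hj, hpg2 j' hj'] at he
        have h7 := hE.inj _ _ (nz2 j hj g3 c b g1 g2) (nz2 j' hj' g6 c' b' g4 g5) he
        simp only [Sum.inr.injEq, Prod.mk.injEq] at h7
        have := hS.inj (j - m) (by omega) (j' - m) (by omega) h7.1
        omega

/-- elements of connectors are away from the window `0` -/
lemma nz_of {Y : CSys σ X κ} {B : κ → Set (HV V σ)} (hC : Y.ConnB B H D K) (hK : 1 ≤ K) {k : κ}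
    {u : HV V σ} (hu : u ∈ B k) : NZ H D u := by
  rcases u with v | ⟨s, c, b⟩
  · trivial
  · obtain ⟨h1, h2, h3⟩ := hC.bd k s c b hu
    have h4 : b ≤ -K ∨ K ≤ b := hC.out k _ hu
    exact ⟨h1, h2, h3, by omega⟩

/-- pages are disjoint from the connectors -/
lemma pg_notMem (hE : Emb S ends H D φ) (hK : 2 ≤ K) (hKD : K ≤ D) {Y : CSys σ X κ}
    {B : κ → Set (HV V σ)} (hC : Y.ConnB B H D K) (k : κ) (j : ℕ) (c : ℕ × ℕ)
    (hc : c ∈ Reg (lo H sg m j) (hi H sg m j) (K - 2).toNat) : pg φ sg m K j c ∉ φ '' B k := by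
  have hn : (((K - 2).toNat : ℕ) : ℤ) = K - 2 := Int.toNat_of_nonneg (by omega)
  rintro ⟨u, hu, he⟩
  obtain ⟨g1, g2, g3⟩ := mem_reg hc
  have hnz := nz_of hC (by omega) hu
  unfold pg at he
  unfold shl at g1
  split_ifs at he with hj
  · rw [if_pos hj] at g1
    have h1 := hE.inj _ _ hnz (show NZ H D (Sum.inr (sg j, c.1, -K + 1 + (c.2 : ℤ))) from
      ⟨g1, by omega, by omega, by omega⟩) he
    rw [h1] at hu
    have h4 : -K + 1 + (c.2 : ℤ) ≤ -K ∨ K ≤ -K + 1 + (c.2 : ℤ) := hC.out k _ hu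
    omega
  · rw [if_neg hj, if_pos g3] at g1
    have h1 := hE.inj _ _ hnz (show NZ H D (Sum.inr (sg (j - m), c.1, K - 1 - (c.2 : ℤ))) from
      ⟨g1, by omega, by omega, by omega⟩) he
    rw [h1] at hu
    have h4 : K - 1 - (c.2 : ℤ) ≤ -K ∨ K ≤ K - 1 - (c.2 : ℤ) := hC.out k _ hu
    omega

/-- walks -/
lemma vconn (hE : Emb S ends H D φ) {Y : CSys σ X κ} {B : κ → Set (HV V σ)}
    (hC : Y.ConnB B H D K) (hK : 1 ≤ K) (k : κ) : VConn S ends (φ '' B k) := by
  rintro _ ⟨u, hu, rfl⟩ _ ⟨v, hv, rfl⟩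
  have h1 := hC.conn k u hu v hv
  induction h1 with
  | refl => exact ReflTransGen.refl
  | tail h2 h3 ih =>
    exact (ih h3.2.1).tail ⟨hE.adj _ _ (nz_of hC hK h3.2.1) (nz_of hC hK h3.2.2) h3.1,
      ⟨_, h3.2.1, rfl⟩, ⟨_, h3.2.2, rfl⟩⟩

/-- **The real system.** The ground `G` is disjoint from the host. -/
theorem real (hE : Emb S ends H D φ) (hK : 2 ≤ K) (hKD : K ≤ D) (hS : Enum sg m)
    {Y : CSys σ X κ} {B : κ → Set (HV V σ)} (hC : Y.ConnB B H D K) {G : Set W} (hfin : G.Finite)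
    (hcon : VConn S ends G) (hG : ∀ u, NZ H D u → φ u ∉ G)
    (hgr : ∀ k, Y.gr k → Lnk S ends (φ '' B k) G) :
    Real (lin Y sg m) S ends (pg φ sg m K) (lo H sg m) (hi H sg m) (K - 2).toNat G
      (fun k => φ '' B k) (colL Y sg m) := by
  have hn : (((K - 2).toNat : ℕ) : ℤ) = K - 2 := Int.toNat_of_nonneg (by omega)
  refine ⟨hE.pgs hK hKD hS, hfin, hcon, ?_, fun k => (hC.fin k).image _,
    fun k => hE.vconn hC (by omega) k, ?_, fun k j c hc => hE.pg_notMem hK hKD hC k j c hc, ?_, ?_,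
    ?_, hgr, ?_⟩
  · intro j c hc
    obtain ⟨g1, g2, g3⟩ := mem_reg hc
    unfold pg
    unfold shl at g1
    split_ifs with hj
    · rw [if_pos hj] at g1
      exact hG _ ⟨g1, by omega, by omega, by omega⟩
    · rw [if_neg hj, if_pos g3] at g1
      exact hG _ ⟨g1, by omega, by omega, by omega⟩
  · intro k k' hkk
    rw [Set.disjoint_left]
    rintro _ ⟨u, hu, rfl⟩ ⟨v, hv, he⟩
    have h1 := hE.inj _ _ (nz_of hC (by omega) hv) (nz_of hC (by omega) hu) he
    subst h1
    exact Set.disjoint_left.1 (hC.dis k k' hkk) hu hv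
  · intro k
    rw [Set.disjoint_left]
    rintro _ ⟨u, hu, rfl⟩
    exact hG u (nz_of hC (by omega) hu)
  · intro x hx
    obtain ⟨j, hj, e, p, hp, rfl⟩ := exists_ps hx
    rw [own_ps hj hp, colL_ps hj hp, sh_ps hj hp]
    have hlt := hC.lt (sg j) p hp
    cases e
    · have h1 : shl H sg m j = H.len (sg j) := by
        unfold shl
        rw [if_pos hj]
      have h2 : lo H sg m j = 0 := by
        unfold lo
        rw [if_pos (by omega)]
      simp only [Bool.false_eq_true, if_false]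
      refine ⟨by omega, by unfold hi; omega, ?_⟩
      have hl := hC.left (sg j) p hp
      have h3 : pg φ sg m K j (Y.col (sg j) p, 0) =
          φ (Sum.inr (sg j, Y.col (sg j) p, -K + 1)) := by
        unfold pg
        rw [if_pos hj]
        simp
      obtain ⟨e, he, hee⟩ := hE.adj _ _ (nz_of hC (by omega) hl)
        (show NZ H D (Sum.inr (sg j, Y.col (sg j) p, -K + 1)) from
          ⟨hlt, by omega, by omega, by omega⟩) (adj_ver hlt (by omega) (by omega))
      exact ⟨e, he, _, ⟨_, hl, rfl⟩, _, h3.symm, hee⟩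
    · have h1 : shl H sg m (m + j) = H.len (sg j) := by
        unfold shl
        rw [if_neg (by omega), if_pos (by omega), Nat.add_sub_cancel_left]
      have h2 : lo H sg m (m + j) = 0 := by
        unfold lo
        rw [if_pos (by omega)]
      simp only [if_true]
      refine ⟨by omega, by unfold hi; omega, ?_⟩
      have hl := hC.right (sg j) p hp
      have h3 : pg φ sg m K (m + j) (Y.col (sg j) p, 0) =
          φ (Sum.inr (sg j, Y.col (sg j) p, K - 1)) := by
        unfold pg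
        rw [if_neg (by omega), Nat.add_sub_cancel_left]
        simp
      have h4 := adj_ver (H := H) (D := D) (s := sg j) (c := Y.col (sg j) p) (b := K - 1) hlt
        (by omega) (by omega)
      have h5 : K - 1 + 1 = K := by ring
      rw [h5] at h4
      obtain ⟨e, he, hee⟩ := hE.adj _ _ (nz_of hC (by omega) hl)
        (show NZ H D (Sum.inr (sg j, Y.col (sg j) p, K - 1)) from
          ⟨hlt, by omega, by omega, by omega⟩) h4.symm
      exact ⟨e, he, _, ⟨_, hl, rfl⟩, _, h3.symm, hee⟩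
  · intro k k' hk
    obtain ⟨u, hu, v, hv, huv⟩ := hC.ct k k' hk
    obtain ⟨e, he, hee⟩ := hE.adj _ _ (nz_of hC (by omega) hu) (nz_of hC (by omega) hv) huv
    exact ⟨e, he, _, ⟨u, hu, rfl⟩, _, ⟨v, hv, rfl⟩, hee⟩
  · intro x y hxy hy hs
    obtain ⟨j, hj, e, p, hp, rfl⟩ := exists_ps (show x < (lin Y sg m).L by omega)
    obtain ⟨j', hj', e', p', hp', rfl⟩ := exists_ps hy
    rw [sh_ps hj hp, sh_ps hj' hp'] at hs
    have h1 : j = j' ∧ e = e' := by
      cases e <;> cases e' <;> simp at hs ⊢ <;> omega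
    obtain ⟨rfl, rfl⟩ := h1
    rw [colL_ps hj hp, colL_ps hj hp']
    refine hC.mono (sg j) p p' ?_ hp'
    unfold ps at hxy
    split_ifs at hxy <;> omega

end Emb

end Mdl
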