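import Pool.Agent.EN.Third

/-!
# The two local outcomes of END+ for families of row ends
-/

open Set
open scoped Matroid

namespace EN

open BIC Gad

variable {α V : Type*} {M : Matroid α} {S : Set α} {ends : α → Sym2 V}

lemma Page.sub {P : ℕ × ℕ → V} {l r n l' r' n' : ℕ} (hP : Page S ends P l r n) (hl : l ≤ l')
    (hr : r' ≤ r) (hn : n' ≤ n) : Page S ends P l' r' n' where
  inj := fun c c' h1 h2 h3 h4 h5 h6 h => hP.inj c c' (by omega) (by omega) (by omega) (by omega)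
    (by omega) (by omega) h
  ver := fun x b h1 h2 h3 => hP.ver x b (by omega) (by omega) (by omega)
  hor := fun x b h1 h2 h3 h4 => hP.hor x b (by omega) (by omega) h3 (by omega)

/-- `book_Z` for blobs with column intervals `[l i, r i]`, in either direction. -/
theorem book_int {w N : ℕ} (hw : 1 ≤ w) (hN : N = (2 * w) * (2 * w))
    {P Q : ℕ × ℕ → V}
    {lP rP nP lQ rQ nQ : ℕ} (hP : Page S ends P lP rP nP) (hQ : Page S ends Q lQ rQ nQ)
    (hPQ : ∀ c ∈ Reg lP rP nP, ∀ c' ∈ Reg lQ rQ nQ, P c ≠ Q c') {b₀ b₁ : ℕ} (hb₀ : 1 ≤ b₀)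
    (hn₀ : b₀ + 2 * w ≤ nP) (hn₁ : b₁ + 2 * w ≤ nQ) (l r q : ℕ → ℕ)
    (hlr : ∀ i < N, lP ≤ l i ∧ l i ≤ r i ∧ r i ≤ rP)
    (hmon : (∀ i j, i < j → j < N → r i < l j) ∨ (∀ i j, i < j → j < N → r j < l i))
    (hq : ∀ i < N, lQ ≤ q i ∧ q i ≤ rQ)
    (hqm : (∀ i j, i < j → j < N → q i < q j) ∨ (∀ i j, i < j → j < N → q j < q i))
    (X : ℕ → Set V) (hXf : ∀ i < N, (X i).Finite) (hXc : ∀ i < N, VConn S ends (X i))
    (hXp : ∀ i < N, P (l i, b₀) ∈ X i) (hXq : ∀ i < N, Q (q i, b₁) ∈ X i)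
    (hXX : ∀ i < N, ∀ j < N, i ≠ j → Disjoint (X i) (X j))
    (hXP : ∀ i < N, ∀ c ∈ Reg lP rP nP, P c ∈ X i → l i ≤ c.1 ∧ c.1 ≤ r i ∧ c.2 ≤ b₀)
    (hXQ : ∀ i < N, ∀ c ∈ Reg lQ rQ nQ, Q c ∈ X i → c.2 ≤ b₁ ∧ (c.2 = b₁ → c.1 = q i))
    (Z : Set V) (hZf : Z.Finite) (hZc : VConn S ends Z) (hZP : ∀ c ∈ Reg lP rP nP, P c ∉ Z)
    (hZQ : ∀ c ∈ Reg lQ rQ nQ, Q c ∉ Z) (hXZ : ∀ i < N, Disjoint (X i) Z)
    (hadj : ∀ i < N, Lnk S ends (X i) Z) :
    GmF S ends P lP rP nP (2 * w) := by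
  have hNpos : 0 < N := by
    rw [hN]; exact Nat.mul_pos (by omega) (by omega)
  -- increasing intervals, increasing `q`
  have key1 : ∀ (Q : ℕ × ℕ → V) (q : ℕ → ℕ) (l r : ℕ → ℕ) (X : ℕ → Set V),
      Page S ends Q lQ rQ nQ → (∀ c ∈ Reg lP rP nP, ∀ c' ∈ Reg lQ rQ nQ, P c ≠ Q c') →
      (∀ i < N, lP ≤ l i ∧ l i ≤ r i ∧ r i ≤ rP) → (∀ i j, i < j → j < N → r i < l j) →
      (∀ i < N, lQ ≤ q i ∧ q i ≤ rQ) → (∀ i j, i < j → j < N → q i < q j) →
      (∀ i < N, (X i).Finite) → (∀ i < N, VConn S ends (X i)) →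
      (∀ i < N, P (l i, b₀) ∈ X i) → (∀ i < N, Q (q i, b₁) ∈ X i) →
      (∀ i < N, ∀ j < N, i ≠ j → Disjoint (X i) (X j)) →
      (∀ i < N, ∀ c ∈ Reg lP rP nP, P c ∈ X i → l i ≤ c.1 ∧ c.1 ≤ r i ∧ c.2 ≤ b₀) →
      (∀ i < N, ∀ c ∈ Reg lQ rQ nQ, Q c ∈ X i → c.2 ≤ b₁ ∧ (c.2 = b₁ → c.1 = q i)) →
      (∀ c ∈ Reg lQ rQ nQ, Q c ∉ Z) → (∀ i < N, Disjoint (X i) Z) →
      (∀ i < N, Lnk S ends (X i) Z) →
      GmF S ends P lP rP nP (2 * w) := by
    intro Q q l r X hQ hPQ hlr hmon hq hqm hXf hXc hXp hXq hXX hXP hXQ hZQ hXZ hadj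
    subst hN
    set p : ℕ → ℕ := fun i => if i < 2 * w * (2 * w) then l i else rP + 1 with hp
    have hp1 : ∀ i < 2 * w * (2 * w), p i = l i := fun i hi => if_pos hi
    have hp2 : p (2 * w * (2 * w)) = rP + 1 := if_neg (lt_irrefl _)
    have hp3 : ∀ i < 2 * w * (2 * w), r i < p (i + 1) := by
      intro i hi
      rcases Nat.lt_or_ge (i + 1) (2 * w * (2 * w)) with h | h
      · rw [hp1 _ h]
        exact hmon i (i + 1) (by omega) h
      · have : i + 1 = 2 * w * (2 * w) := by omega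
        rw [this, hp2]
        have := hlr i hi
        omega
    refine book_Z hw hP hQ hPQ hb₀ hn₀ hn₁ p q ?_ (fun i hi => hqm i (i + 1) (by omega) hi)
      ?_ hp2.le (hq 0 hNpos).1 (hq _ (by omega)).2 X hXf hXc ?_ hXq hXX ?_ hXQ Z hZf hZc hZP hZQ
      hXZ hadj
    · intro i hi
      rw [hp1 i hi]
      have := hp3 i hi
      have := hlr i hi
      omega
    · rw [hp1 0 hNpos]
      exact (hlr 0 hNpos).1
    · intro i hi
      rw [hp1 i hi]
      exact hXp i hi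
    · intro i hi c hc h
      have h1 := hXP i hi c hc h
      have h2 := hp3 i hi
      rw [hp1 i hi]
      omega
  -- increasing intervals, any direction of `q`
  have key2 : ∀ (q : ℕ → ℕ) (l r : ℕ → ℕ) (X : ℕ → Set V),
      (∀ i < N, lP ≤ l i ∧ l i ≤ r i ∧ r i ≤ rP) → (∀ i j, i < j → j < N → r i < l j) →
      (∀ i < N, lQ ≤ q i ∧ q i ≤ rQ) →
      ((∀ i j, i < j → j < N → q i < q j) ∨ (∀ i j, i < j → j < N → q j < q i)) →
      (∀ i < N, (X i).Finite) → (∀ i < N, VConn S ends (X i)) →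
      (∀ i < N, P (l i, b₀) ∈ X i) → (∀ i < N, Q (q i, b₁) ∈ X i) →
      (∀ i < N, ∀ j < N, i ≠ j → Disjoint (X i) (X j)) →
      (∀ i < N, ∀ c ∈ Reg lP rP nP, P c ∈ X i → l i ≤ c.1 ∧ c.1 ≤ r i ∧ c.2 ≤ b₀) →
      (∀ i < N, ∀ c ∈ Reg lQ rQ nQ, Q c ∈ X i → c.2 ≤ b₁ ∧ (c.2 = b₁ → c.1 = q i)) →
      (∀ i < N, Disjoint (X i) Z) → (∀ i < N, Lnk S ends (X i) Z) →
      GmF S ends P lP rP nP (2 * w) := by
    intro q l r X hlr hmon hq hqm hXf hXc hXp hXq hXX hXP hXQ hXZ hadj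
    rcases hqm with hqm | hqm
    · exact key1 Q q l r X hQ hPQ hlr hmon hq hqm hXf hXc hXp hXq hXX hXP hXQ hZQ hXZ hadj
    · have hreg : ∀ c ∈ Reg lQ rQ nQ, (lQ + rQ - c.1, c.2) ∈ Reg lQ rQ nQ := by
        intro c hc
        rw [mem_Reg] at hc ⊢
        simp only
        omega
      refine key1 (fun c => Q (lQ + rQ - c.1, c.2)) (fun i => lQ + rQ - q i) l r X hQ.mirror
        (fun c hc c' hc' => hPQ c hc _ (hreg c' hc')) hlr hmon ?_ ?_ hXf hXc hXp ?_ hXX hXP ?_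
        (fun c hc => hZQ _ (hreg c hc)) hXZ hadj
      · intro i hi
        have := hq i hi
        omega
      · intro i j hij hj
        have h1 := hqm i j hij hj
        have h2 := hq i (by omega)
        have h3 := hq j hj
        omega
      · intro i hi
        have := hq i hi
        simp only
        rw [show lQ + rQ - (lQ + rQ - q i) = q i by omega]
        exact hXq i hi
      · intro i hi c hc h
        have h1 := hXQ i hi _ (hreg c hc) h
        have h2 := hq i hi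
        rw [mem_Reg] at hc
        simp only at h1 ⊢
        refine ⟨h1.1, fun h3 => ?_⟩
        have := h1.2 h3
        omega
  rcases hmon with hmon | hmon
  · exact key2 q l r X hlr hmon hq hqm hXf hXc hXp hXq hXX hXP hXQ hXZ hadj
  · have hlt : ∀ i < N, N - 1 - i < N := fun i _ => by omega
    refine key2 (fun i => q (N - 1 - i)) (fun i => l (N - 1 - i)) (fun i => r (N - 1 - i))
      (fun i => X (N - 1 - i)) (fun i hi => hlr _ (hlt i hi)) ?_ (fun i hi => hq _ (hlt i hi)) ?_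
      (fun i hi => hXf _ (hlt i hi)) (fun i hi => hXc _ (hlt i hi)) (fun i hi => hXp _ (hlt i hi))
      (fun i hi => hXq _ (hlt i hi)) ?_ (fun i hi => hXP _ (hlt i hi))
      (fun i hi => hXQ _ (hlt i hi)) (fun i hi => hXZ _ (hlt i hi))
      (fun i hi => hadj _ (hlt i hi))
    · intro i j hij hj
      exact hmon (N - 1 - j) (N - 1 - i) (by omega) (by omega)
    · rcases hqm with hqm | hqm
      · right
        intro i j hij hj
        exact hqm (N - 1 - j) (N - 1 - i) (by omega) (by omega)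
      · left
        intro i j hij hj
        exact hqm (N - 1 - j) (N - 1 - i) (by omega) (by omega)
    · intro i hi j hj hij
      exact hXX _ (hlt i hi) _ (hlt j hj) (by omega)

/-- A system of pages with disjoint vertex sets. -/
structure Pages (S : Set α) (ends : α → Sym2 V) {σ : Type*} (P : σ → ℕ × ℕ → V) (len : σ → ℕ)
    (n : ℕ) : Prop where
  page : ∀ s, Page S ends (P s) 0 (len s) n
  dis : ∀ s s', s ≠ s' → ∀ c ∈ Reg 0 (len s) n, ∀ c' ∈ Reg 0 (len s') n, P s c ≠ P s' c'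

/-- Strictly increasing or strictly decreasing on `0, …, N - 1`. -/
def Mon (N : ℕ) (x : ℕ → ℕ) : Prop :=
  (∀ i j, i < j → j < N → x i < x j) ∨ (∀ i j, i < j → j < N → x j < x i)

/-- Two families of positions are separated. -/
def Sepd {σ : Type*} (N : ℕ) (s : σ) (x : ℕ → ℕ) (s' : σ) (y : ℕ → ℕ) : Prop :=
  s ≠ s' ∨ (∀ i < N, ∀ j < N, x i < y j) ∨ (∀ i < N, ∀ j < N, y j < x i)

lemma hull {N : ℕ} (hN : 0 < N) (x : ℕ → ℕ) : ∃ l r, (∀ i < N, l ≤ x i ∧ x i ≤ r) ∧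
    (∃ i < N, x i = l) ∧ ∃ i < N, x i = r := by
  obtain ⟨a, ha, ha'⟩ := Finset.exists_min_image (Finset.range N) x
    ⟨0, Finset.mem_range.2 hN⟩
  obtain ⟨b, hb, hb'⟩ := Finset.exists_max_image (Finset.range N) x
    ⟨0, Finset.mem_range.2 hN⟩
  exact ⟨x a, x b, fun i hi => ⟨ha' i (Finset.mem_range.2 hi), hb' i (Finset.mem_range.2 hi)⟩,
    ⟨a, Finset.mem_range.1 ha, rfl⟩, ⟨b, Finset.mem_range.1 hb, rfl⟩⟩

section

variable {σ : Type*} {P : σ → ℕ × ℕ → V} {len : σ → ℕ} {n : ℕ}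

/-- Pages over separated intervals are disjoint. -/
lemma Pages.ne (hP : Pages S ends P len n) {s s' : σ} {l r l' r' : ℕ} (hr : r ≤ len s)
    (hr' : r' ≤ len s') (h : s ≠ s' ∨ r < l' ∨ r' < l) :
    ∀ c ∈ Reg l r n, ∀ c' ∈ Reg l' r' n, P s c ≠ P s' c' := by
  intro c hc c' hc'
  rw [mem_Reg] at hc hc'
  by_cases hs : s = s'
  · subst hs
    intro h1
    have h2 := (hP.page s).inj c c' (by omega) (by omega) hc.2.2 (by omega) (by omega) hc'.2.2 h1
    rw [h2] at hc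
    rcases h with h | h | h
    · exact h rfl
    · omega
    · omega
  · exact hP.dis s s' hs c (by rw [mem_Reg]; omega) c' (by rw [mem_Reg]; omega)

lemma sepd_int {N : ℕ} {s s' : σ} {x y : ℕ → ℕ} (h : Sepd N s x s' y) {l r l' r' : ℕ}
    (hl : ∃ i < N, x i = l) (hr : ∃ i < N, x i = r) (hl' : ∃ i < N, y i = l')
    (hr' : ∃ i < N, y i = r') : s ≠ s' ∨ r < l' ∨ r' < l := by
  obtain ⟨a, ha, rfl⟩ := hl
  obtain ⟨b, hb, rfl⟩ := hr
  obtain ⟨c, hc, rfl⟩ := hl'
  obtain ⟨d, hd, rfl⟩ := hr'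
  rcases h with h | h | h
  · exact Or.inl h
  · exact Or.inr (Or.inl (h b hb c hc))
  · exact Or.inr (Or.inr (h a ha d hd))

/-- **Outcome (B): three separated families of ends.** -/
theorem endB {w N : ℕ} (hw : 1 ≤ w) (hN : N = (2 * w) * (2 * w))
    (hP : Pages S ends P len n) (hn : 2 * w + 1 ≤ n) (v : ℕ → V)
    (hv : ∀ i < N, ∀ j < N, v i = v j → i = j)
    (hvP : ∀ i < N, ∀ s, ∀ c ∈ Reg 0 (len s) n, P s c ≠ v i) (s₀ s₁ s₂ : σ) (x y z : ℕ → ℕ)
    (hx : ∀ i < N, x i ≤ len s₀) (hy : ∀ i < N, y i ≤ len s₁) (hz : ∀ i < N, z i ≤ len s₂)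
    (hxm : Mon N x) (hym : Mon N y) (hzi : ∀ i < N, ∀ j < N, z i = z j → i = j)
    (hvx : ∀ i < N, GAdj S ends (v i) (P s₀ (x i, 0)))
    (hvy : ∀ i < N, GAdj S ends (v i) (P s₁ (y i, 0)))
    (hvz : ∀ i < N, GAdj S ends (v i) (P s₂ (z i, 0)))
    (hxy : Sepd N s₀ x s₁ y) (hxz : Sepd N s₀ x s₂ z) (hyz : Sepd N s₁ y s₂ z) :
    GmZ S ends (2 * w) := by
  have hNpos : 0 < N := by
    rw [hN]; exact Nat.mul_pos (by omega) (by omega)
  obtain ⟨lx, rx, hx1, hx2, hx3⟩ := hull hNpos x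
  obtain ⟨ly, ry, hy1, hy2, hy3⟩ := hull hNpos y
  obtain ⟨lz, rz, hz1, hz2, hz3⟩ := hull hNpos z
  have hrx : rx ≤ len s₀ := by
    obtain ⟨i, hi, rfl⟩ := hx3; exact hx i hi
  have hry : ry ≤ len s₁ := by
    obtain ⟨i, hi, rfl⟩ := hy3; exact hy i hi
  have hrz : rz ≤ len s₂ := by
    obtain ⟨i, hi, rfl⟩ := hz3; exact hz i hi
  have hPQ := hP.ne hrx hry (sepd_int hxy hx2 hx3 hy2 hy3)
  have hPR := hP.ne hrx hrz (sepd_int hxz hx2 hx3 hz2 hz3)
  have hQR := hP.ne hry hrz (sepd_int hyz hy2 hy3 hz2 hz3)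
  have hpP := (hP.page s₀).sub (Nat.zero_le lx) hrx (le_refl n)
  have hpQ := (hP.page s₁).sub (Nat.zero_le ly) hry (le_refl n)
  have hpR := (hP.page s₂).sub (Nat.zero_le lz) hrz (le_refl n)
  have hvP0 : ∀ i < N, ∀ c ∈ Reg lx rx n, P s₀ c ≠ v i := fun i hi c hc =>
    hvP i hi s₀ c (by rw [mem_Reg] at hc ⊢; omega)
  have hvP1 : ∀ i < N, ∀ c ∈ Reg ly ry n, P s₁ c ≠ v i := fun i hi c hc =>
    hvP i hi s₁ c (by rw [mem_Reg] at hc ⊢; omega)
  have hvP2 : ∀ i < N, ∀ c ∈ Reg lz rz n, P s₂ c ≠ v i := fun i hi c hc =>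
    hvP i hi s₂ c (by rw [mem_Reg] at hc ⊢; omega)
  have hxR : ∀ i < N, ∀ b ≤ 1, (x i, b) ∈ Reg lx rx n := fun i hi b hb => by
    have := hx1 i hi
    rw [mem_Reg]; simp only; omega
  have hyR : ∀ i < N, (y i, 0) ∈ Reg ly ry n := fun i hi => by
    have := hy1 i hi
    rw [mem_Reg]; simp only; omega
  have hzR : ∀ i < N, (z i, 0) ∈ Reg lz rz n := fun i hi => by
    have := hz1 i hi
    rw [mem_Reg]; simp only; omega
  have hxi : ∀ i < N, ∀ j < N, x i = x j → i = j := by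
    intro i hi j hj h
    rcases Nat.lt_trichotomy i j with h1 | h1 | h1
    · rcases hxm with h2 | h2
      · have := h2 i j h1 hj; omega
      · have := h2 i j h1 hj; omega
    · exact h1
    · rcases hxm with h2 | h2
      · have := h2 j i h1 hi; omega
      · have := h2 j i h1 hi; omega
  have hyi : ∀ i < N, ∀ j < N, y i = y j → i = j := by
    intro i hi j hj h
    rcases Nat.lt_trichotomy i j with h1 | h1 | h1
    · rcases hym with h2 | h2
      · have := h2 i j h1 hj; omega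
      · have := h2 i j h1 hj; omega
    · exact h1
    · rcases hym with h2 | h2
      · have := h2 j i h1 hi; omega
      · have := h2 j i h1 hi; omega
  -- the blobs
  set X : ℕ → Set V := fun i => {v i} ∪ P s₀ '' Vert (x i) 0 1 ∪ {P s₁ (y i, 0)} ∪
    {P s₂ (z i, 0)} with hX
  have hmX : ∀ i u, u ∈ X i ↔ u = v i ∨ (∃ b ≤ 1, u = P s₀ (x i, b)) ∨ u = P s₁ (y i, 0) ∨
      u = P s₂ (z i, 0) := by
    intro i u
    simp only [hX, mem_union, mem_singleton_iff]
    constructor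
    · rintro (((h | ⟨⟨a, b⟩, hc, h⟩) | h) | h)
      · exact Or.inl h
      · rw [mem_Vert] at hc
        simp only at hc
        refine Or.inr (Or.inl ⟨b, hc.2.2, ?_⟩)
        rw [← h, hc.1]
      · exact Or.inr (Or.inr (Or.inl h))
      · exact Or.inr (Or.inr (Or.inr h))
    · rintro (h | ⟨b, hb, h⟩ | h | h)
      · exact Or.inl (Or.inl (Or.inl h))
      · exact Or.inl (Or.inl (Or.inr ⟨(x i, b), vm (by omega) hb, h.symm⟩))
      · exact Or.inl (Or.inr h)
      · exact Or.inr h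
  have hrow : HRow lz rz 1 ⊆ Reg lz rz n := by
    intro c hc
    rw [mem_HRow] at hc
    rw [mem_Reg]
    omega
  refine GmF.gmZ (P := P s₀) (l := lx) (r := rx) (n := n) ?_
  refine book_int hw hN hpP hpQ hPQ (b₀ := 1) (b₁ := 0) (le_refl _) (by omega) (by omega)
    x x y (fun i hi => ⟨(hx1 i hi).1, le_refl _, (hx1 i hi).2⟩) hxm hy1 hym X ?_ ?_ ?_ ?_ ?_ ?_ ?_
    (P s₂ '' HRow lz rz 1) ((hrow_finite _ _ _).image _)
    (hpR.vconn_hor (le_refl _) (le_refl _) (le_refl _) (by omega)) ?_ ?_ ?_ ?_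
  · intro i _
    exact (((finite_singleton _).union ((vert_finite _ _ _).image _)).union
      (finite_singleton _)).union (finite_singleton _)
  · intro i hi
    obtain ⟨e0, he0, hh0⟩ := hvx i hi
    obtain ⟨e1, he1, hh1⟩ := hvy i hi
    obtain ⟨e2, he2, hh2⟩ := hvz i hi
    have h0 : P s₀ (x i, 0) ∈ P s₀ '' Vert (x i) 0 1 := ⟨_, vm (by omega) (by omega), rfl⟩
    have h1 : VConn S ends ({v i} ∪ P s₀ '' Vert (x i) 0 1) :=
      vc_lnk (vconn_singleton _) (hpP.vconn_ver (hx1 i hi).1 (hx1 i hi).2 (by omega))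
        ⟨e0, he0, _, rfl, _, h0, hh0⟩
    have h2 : VConn S ends ({v i} ∪ P s₀ '' Vert (x i) 0 1 ∪ {P s₁ (y i, 0)}) :=
      vc_lnk h1 (vconn_singleton _) ⟨e1, he1, _, Or.inl rfl, _, rfl, hh1⟩
    exact vc_lnk h2 (vconn_singleton _) ⟨e2, he2, _, Or.inl (Or.inl rfl), _, rfl, hh2⟩
  · intro i _
    exact (hmX i _).2 (Or.inr (Or.inl ⟨1, le_refl _, rfl⟩))
  · intro i _
    exact (hmX i _).2 (Or.inr (Or.inr (Or.inl rfl)))
  · intro i hi j hj hij
    rw [Set.disjoint_left]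
    intro u hu hu'
    rw [hmX] at hu hu'
    rcases hu with rfl | ⟨b, hb, rfl⟩ | rfl | rfl
    · rcases hu' with h | ⟨b, hb, h⟩ | h | h
      · exact hij (hv i hi j hj h)
      · exact hvP0 i hi _ (hxR j hj b hb) h.symm
      · exact hvP1 i hi _ (hyR j hj) h.symm
      · exact hvP2 i hi _ (hzR j hj) h.symm
    · rcases hu' with h | ⟨b', hb', h⟩ | h | h
      · exact hvP0 j hj _ (hxR i hi b hb) h
      · have h1 := hxR i hi b hb
        have h2 := hxR j hj b' hb'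
        have h3 := hpP.inj _ _ h1.1 h1.2.1 h1.2.2 h2.1 h2.2.1 h2.2.2 h
        rw [Prod.mk.injEq] at h3
        exact hij (hxi i hi j hj h3.1)
      · exact hPQ _ (hxR i hi b hb) _ (hyR j hj) h
      · exact hPR _ (hxR i hi b hb) _ (hzR j hj) h
    · rcases hu' with h | ⟨b', hb', h⟩ | h | h
      · exact hvP1 j hj _ (hyR i hi) h
      · exact hPQ _ (hxR j hj b' hb') _ (hyR i hi) h.symm
      · have h1 := hyR i hi
        have h2 := hyR j hj
        have h3 := hpQ.inj _ _ h1.1 h1.2.1 h1.2.2 h2.1 h2.2.1 h2.2.2 h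
        rw [Prod.mk.injEq] at h3
        exact hij (hyi i hi j hj h3.1)
      · exact hQR _ (hyR i hi) _ (hzR j hj) h
    · rcases hu' with h | ⟨b', hb', h⟩ | h | h
      · exact hvP2 j hj _ (hzR i hi) h
      · exact hPR _ (hxR j hj b' hb') _ (hzR i hi) h.symm
      · exact hQR _ (hyR j hj) _ (hzR i hi) h.symm
      · have h1 := hzR i hi
        have h2 := hzR j hj
        have h3 := hpR.inj _ _ h1.1 h1.2.1 h1.2.2 h2.1 h2.2.1 h2.2.2 h
        rw [Prod.mk.injEq] at h3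
        exact hij (hzi i hi j hj h3.1)
  · intro i hi c hc hu
    rw [hmX] at hu
    rcases hu with h | ⟨b, hb, h⟩ | h | h
    · exact absurd h (hvP0 i hi c hc)
    · have h2 := hxR i hi b hb
      have h3 := hpP.inj _ _ hc.1 hc.2.1 hc.2.2 h2.1 h2.2.1 h2.2.2 h
      rw [h3]
      exact ⟨le_refl _, le_refl _, hb⟩
    · exact absurd h (hPQ c hc _ (hyR i hi))
    · exact absurd h (hPR c hc _ (hzR i hi))
  · intro i hi c hc hu
    rw [hmX] at hu
    rcases hu with h | ⟨b, hb, h⟩ | h | h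
    · exact absurd h (hvP1 i hi c hc)
    · exact absurd h.symm (hPQ _ (hxR i hi b hb) c hc)
    · have h2 := hyR i hi
      have h3 := hpQ.inj _ _ hc.1 hc.2.1 hc.2.2 h2.1 h2.2.1 h2.2.2 h
      rw [h3]
      exact ⟨le_refl _, fun _ => rfl⟩
    · exact absurd h (hQR c hc _ (hzR i hi))
  · rintro c hc ⟨c', hc', h⟩
    exact hPR c hc c' (hrow hc') h.symm
  · rintro c hc ⟨c', hc', h⟩
    exact hQR c hc c' (hrow hc') h.symm
  · intro i hi
    rw [Set.disjoint_left]
    rintro _ hu ⟨c, hc, rfl⟩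
    rw [hmX] at hu
    rcases hu with h | ⟨b, hb, h⟩ | h | h
    · exact hvP2 i hi c (hrow hc) h
    · exact hPR _ (hxR i hi b hb) c (hrow hc) h.symm
    · exact hQR _ (hyR i hi) c (hrow hc) h.symm
    · have h1 := hrow hc
      have h2 := hzR i hi
      have h3 := hpR.inj _ _ h1.1 h1.2.1 h1.2.2 h2.1 h2.2.1 h2.2.2 h
      rw [h3, mem_HRow] at hc
      simp only at hc
      omega
  · intro i hi
    have h1 := hz1 i hi
    obtain ⟨e, he, hee⟩ := hpR.ver (z i) 0 h1.1 h1.2 (by omega)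
    exact ⟨e, he, _, (hmX i _).2 (Or.inr (Or.inr (Or.inr rfl))), _,
      ⟨(z i, 0 + 1), hm h1.1 h1.2, rfl⟩, hee⟩

/-- **Outcome (A): a glued line with grounded ends.** `q i` is the position of a grounded end
near `x i` on the same side (`q i = x i` is allowed when `g` is adjacent to that end). -/
theorem endA {w N : ℕ} (hw : 1 ≤ w) (hN : N = (2 * w) * (2 * w))
    (hP : Pages S ends P len n) (hn : 2 * w + 1 ≤ n) (v : ℕ → V)
    (hv : ∀ i < N, ∀ j < N, v i = v j → i = j)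
    (hvP : ∀ i < N, ∀ s, ∀ c ∈ Reg 0 (len s) n, P s c ≠ v i) (g : V)
    (hgP : ∀ s, ∀ c ∈ Reg 0 (len s) n, P s c ≠ g) (hgv : ∀ i < N, v i ≠ g)
    (s₀ s₁ : σ) (x y q : ℕ → ℕ)
    (hx : ∀ i < N, x i ≤ len s₀) (hq : ∀ i < N, q i ≤ len s₀) (hy : ∀ i < N, y i ≤ len s₁)
    (hxq : (∀ i j, i < j → j < N → max (x i) (q i) < min (x j) (q j)) ∨
      (∀ i j, i < j → j < N → max (x j) (q j) < min (x i) (q i)))
    (hym : Mon N y)
    (hvx : ∀ i < N, GAdj S ends (v i) (P s₀ (x i, 0)))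
    (hvy : ∀ i < N, GAdj S ends (v i) (P s₁ (y i, 0)))
    (hgq : ∀ i < N, GAdj S ends g (P s₀ (q i, 0)))
    (hor : s₀ ≠ s₁ ∨ (∀ i < N, ∀ j < N, x i < y j ∧ q i < y j) ∨
      (∀ i < N, ∀ j < N, y j < x i ∧ y j < q i)) :
    GmZ S ends (2 * w) := by
  have hNpos : 0 < N := by
    rw [hN]; exact Nat.mul_pos (by omega) (by omega)
  obtain ⟨lm, _, hm1, hm2, _⟩ := hull hNpos (fun i => min (x i) (q i))
  obtain ⟨_, rm, hM1, _, hM3⟩ := hull hNpos (fun i => max (x i) (q i))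
  obtain ⟨ly, ry, hy1, hy2, hy3⟩ := hull hNpos y
  have hx1 : ∀ i < N, lm ≤ x i ∧ x i ≤ rm ∧ lm ≤ q i ∧ q i ≤ rm := by
    intro i hi
    have h1 := hm1 i hi
    have h2 := hM1 i hi
    omega
  have hrx : rm ≤ len s₀ := by
    obtain ⟨i, hi, h⟩ := hM3
    have h1 := hx i hi
    have h2 := hq i hi
    omega
  have hry : ry ≤ len s₁ := by
    obtain ⟨i, hi, rfl⟩ := hy3; exact hy i hi
  have hint : s₀ ≠ s₁ ∨ rm < ly ∨ ry < lm := by
    obtain ⟨a, ha, ha'⟩ := hm2
    obtain ⟨b, hb, hb'⟩ := hM3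
    obtain ⟨c, hc, hc'⟩ := hy2
    obtain ⟨d, hd, hd'⟩ := hy3
    rcases hor with h | h | h
    · exact Or.inl h
    · have := h b hb c hc
      omega
    · have := h a ha d hd
      omega
  have hPQ := hP.ne hrx hry hint
  have hpP := (hP.page s₀).sub (Nat.zero_le lm) hrx (le_refl n)
  have hpQ := (hP.page s₁).sub (Nat.zero_le ly) hry (le_refl n)
  have hvP0 : ∀ i < N, ∀ c ∈ Reg lm rm n, P s₀ c ≠ v i := fun i hi c hc =>
    hvP i hi s₀ c (by rw [mem_Reg] at hc ⊢; omega)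
  have hvP1 : ∀ i < N, ∀ c ∈ Reg ly ry n, P s₁ c ≠ v i := fun i hi c hc =>
    hvP i hi s₁ c (by rw [mem_Reg] at hc ⊢; omega)
  have hyR : ∀ i < N, (y i, 0) ∈ Reg ly ry n := fun i hi => by
    have := hy1 i hi
    rw [mem_Reg]; simp only; omega
  have hyi : ∀ i < N, ∀ j < N, y i = y j → i = j := by
    intro i hi j hj h
    rcases Nat.lt_trichotomy i j with h1 | h1 | h1
    · rcases hym with h2 | h2
      · have := h2 i j h1 hj; omega
      · have := h2 i j h1 hj; omega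
    · exact h1
    · rcases hym with h2 | h2
      · have := h2 j i h1 hi; omega
      · have := h2 j i h1 hi; omega
  -- the blob in the page `P`
  set B : ℕ → Set (ℕ × ℕ) := fun i => Vert (x i) 0 1 ∪ HRow (min (x i) (q i)) (max (x i) (q i)) 1 ∪
    Vert (q i) 0 1 with hB
  have hBc : ∀ i, ∀ c ∈ B i, min (x i) (q i) ≤ c.1 ∧ c.1 ≤ max (x i) (q i) ∧ c.2 ≤ 1 := by
    rintro i c ((hc | hc) | hc)
    · rw [mem_Vert] at hc; omega
    · rw [mem_HRow] at hc; omega
    · rw [mem_Vert] at hc; omega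
  have hBR : ∀ i < N, B i ⊆ Reg lm rm n := by
    intro i hi c hc
    have h1 := hBc i c hc
    have h2 := hx1 i hi
    rw [mem_Reg]
    omega
  have hBB : ∀ i < N, ∀ j < N, i ≠ j → ∀ c ∈ B i, c ∉ B j := by
    intro i hi j hj hij c hc hc'
    have h1 := hBc i c hc
    have h2 := hBc j c hc'
    rcases Nat.lt_or_gt_of_ne hij with h | h
    · rcases hxq with h3 | h3
      · have := h3 i j h hj; omega
      · have := h3 i j h hj; omega
    · rcases hxq with h3 | h3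
      · have := h3 j i h hi; omega
      · have := h3 j i h hi; omega
  set X : ℕ → Set V := fun i => {v i} ∪ P s₀ '' B i ∪ {P s₁ (y i, 0)} with hX
  refine GmF.gmZ (P := P s₀) (l := lm) (r := rm) (n := n) ?_
  refine book_int hw hN hpP hpQ hPQ (b₀ := 1) (b₁ := 0) (le_refl _) (by omega) (by omega)
    (fun i => min (x i) (q i)) (fun i => max (x i) (q i)) y ?_ hxq hy1 hym X ?_ ?_ ?_ ?_ ?_ ?_ ?_
    {g} (finite_singleton _) (vconn_singleton _) ?_ ?_ ?_ ?_
  · intro i hi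
    have := hx1 i hi
    omega
  · intro i _
    exact ((finite_singleton _).union ((((vert_finite _ _ _).union (hrow_finite _ _ _)).union
      (vert_finite _ _ _)).image _)).union (finite_singleton _)
  · intro i hi
    have h1 := hx1 i hi
    obtain ⟨e0, he0, hh0⟩ := hvx i hi
    obtain ⟨e1, he1, hh1⟩ := hvy i hi
    have h2 : VConn S ends (P s₀ '' B i) := by
      simp only [hB]
      rw [image_union, image_union]
      refine vc_union (vc_union (hpP.vconn_ver h1.1 h1.2.1 (by omega))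
        (hpP.vconn_hor (by omega) (by omega) (le_refl _) (by omega)) (c := P s₀ (x i, 1))
        ⟨_, vm (by omega) (by omega), rfl⟩ ⟨_, hm (by omega) (by omega), rfl⟩)
        (hpP.vconn_ver h1.2.2.1 h1.2.2.2 (by omega)) (c := P s₀ (q i, 1))
        (Or.inr ⟨_, hm (by omega) (by omega), rfl⟩) ⟨_, vm (by omega) (by omega), rfl⟩
    have h3 : VConn S ends ({v i} ∪ P s₀ '' B i) :=
      vc_lnk (vconn_singleton _) h2
        ⟨e0, he0, _, rfl, _, ⟨(x i, 0), Or.inl (Or.inl (vm (by omega) (by omega))), rfl⟩, hh0⟩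
    exact vc_lnk h3 (vconn_singleton _) ⟨e1, he1, _, Or.inl rfl, _, rfl, hh1⟩
  · intro i _
    refine Or.inl (Or.inr ⟨(min (x i) (q i), 1), Or.inl (Or.inr (hm (by omega) (by omega))), rfl⟩)
  · intro i _
    exact Or.inr rfl
  · intro i hi j hj hij
    rw [Set.disjoint_left]
    rintro u ((hu | hu) | hu) ((hu' | hu') | hu')
    · rw [mem_singleton_iff] at hu hu'
      exact hij (hv i hi j hj (hu.symm.trans hu'))
    · obtain ⟨c, hc, h⟩ := hu'
      rw [mem_singleton_iff] at hu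
      exact hvP0 i hi c (hBR j hj hc) (h.trans hu)
    · rw [mem_singleton_iff] at hu hu'
      exact hvP1 i hi _ (hyR j hj) (hu'.symm.trans hu)
    · obtain ⟨c, hc, h⟩ := hu
      rw [mem_singleton_iff] at hu'
      exact hvP0 j hj c (hBR i hi hc) (h.trans hu')
    · obtain ⟨c, hc, h⟩ := hu
      obtain ⟨c', hc', h'⟩ := hu'
      have h1 := hBR i hi hc
      have h2 := hBR j hj hc'
      have h3 := hpP.inj c c' h1.1 h1.2.1 h1.2.2 h2.1 h2.2.1 h2.2.2 (h.trans h'.symm)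
      rw [← h3] at hc'
      exact hBB i hi j hj hij c hc hc'
    · obtain ⟨c, hc, h⟩ := hu
      rw [mem_singleton_iff] at hu'
      exact hPQ c (hBR i hi hc) _ (hyR j hj) (h.trans hu')
    · rw [mem_singleton_iff] at hu hu'
      exact hvP1 j hj _ (hyR i hi) (hu.symm.trans hu')
    · obtain ⟨c, hc, h⟩ := hu'
      rw [mem_singleton_iff] at hu
      exact hPQ c (hBR j hj hc) _ (hyR i hi) (h.trans hu)
    · rw [mem_singleton_iff] at hu hu'
      have h1 := hyR i hi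
      have h2 := hyR j hj
      have h3 := hpQ.inj _ _ h1.1 h1.2.1 h1.2.2 h2.1 h2.2.1 h2.2.2 (hu.symm.trans hu')
      rw [Prod.mk.injEq] at h3
      exact hij (hyi i hi j hj h3.1)
  · rintro i hi c hc ((hu | hu) | hu)
    · exact absurd hu (hvP0 i hi c hc)
    · obtain ⟨c', hc', h⟩ := hu
      have h2 := hBR i hi hc'
      have h3 := hpP.inj c' c h2.1 h2.2.1 h2.2.2 hc.1 hc.2.1 hc.2.2 h
      rw [← h3]
      exact hBc i c' hc'
    · exact absurd hu (hPQ c hc _ (hyR i hi))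
  · rintro i hi c hc ((hu | hu) | hu)
    · exact absurd hu (hvP1 i hi c hc)
    · obtain ⟨c', hc', h⟩ := hu
      exact absurd h (hPQ c' (hBR i hi hc') c hc)
    · have h2 := hyR i hi
      have h3 := hpQ.inj c _ hc.1 hc.2.1 hc.2.2 h2.1 h2.2.1 h2.2.2 hu
      rw [h3]
      exact ⟨le_refl _, fun _ => rfl⟩
  · intro c hc h
    exact hgP s₀ c (by rw [mem_Reg] at hc ⊢; omega) h
  · intro c hc h
    exact hgP s₁ c (by rw [mem_Reg] at hc ⊢; omega) h
  · intro i hi
    rw [Set.disjoint_singleton_right]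
    rintro ((hu | hu) | hu)
    · exact hgv i hi (mem_singleton_iff.1 hu).symm
    · obtain ⟨c, hc, h⟩ := hu
      have h1 := hBR i hi hc
      exact hgP s₀ c (by rw [mem_Reg] at h1 ⊢; omega) h
    · have h1 := hyR i hi
      exact hgP s₁ _ (by rw [mem_Reg] at h1 ⊢; simp only at h1 ⊢; omega)
        (mem_singleton_iff.1 hu).symm
  · intro i _
    obtain ⟨e, he, hee⟩ := hgq i (by assumption)
    exact ⟨e, he, _, Or.inl (Or.inr ⟨(q i, 0), Or.inr (vm (by omega) (by omega)), rfl⟩), _, rfl,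
      by rw [hee, Sym2.eq_swap]⟩

/-- Outcome (A) with separation asked only for `x` and `y` (two more members). -/
theorem endA' {w N : ℕ} (hw : 1 ≤ w) (hN : N = (2 * w) * (2 * w) + 2)
    (hP : Pages S ends P len n) (hn : 2 * w + 1 ≤ n) (v : ℕ → V)
    (hv : ∀ i < N, ∀ j < N, v i = v j → i = j)
    (hvP : ∀ i < N, ∀ s, ∀ c ∈ Reg 0 (len s) n, P s c ≠ v i) (g : V)
    (hgP : ∀ s, ∀ c ∈ Reg 0 (len s) n, P s c ≠ g) (hgv : ∀ i < N, v i ≠ g)
    (s₀ s₁ : σ) (x y q : ℕ → ℕ)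
    (hx : ∀ i < N, x i ≤ len s₀) (hq : ∀ i < N, q i ≤ len s₀) (hy : ∀ i < N, y i ≤ len s₁)
    (hxq : (∀ i j, i < j → j < N → max (x i) (q i) < min (x j) (q j)) ∨
      (∀ i j, i < j → j < N → max (x j) (q j) < min (x i) (q i)))
    (hym : Mon N y)
    (hvx : ∀ i < N, GAdj S ends (v i) (P s₀ (x i, 0)))
    (hvy : ∀ i < N, GAdj S ends (v i) (P s₁ (y i, 0)))
    (hgq : ∀ i < N, GAdj S ends g (P s₀ (q i, 0)))
    (hxy : Sepd N s₀ x s₁ y) :
    GmZ S ends (2 * w) := by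
  refine endA (N := (2 * w) * (2 * w)) hw rfl hP hn (fun i => v (i + 1)) ?_
    (fun i hi => hvP _ (by omega)) g hgP (fun i hi => hgv _ (by omega)) s₀ s₁
    (fun i => x (i + 1)) (fun i => y (i + 1)) (fun i => q (i + 1)) (fun i hi => hx _ (by omega))
    (fun i hi => hq _ (by omega)) (fun i hi => hy _ (by omega)) ?_ ?_
    (fun i hi => hvx _ (by omega)) (fun i hi => hvy _ (by omega)) (fun i hi => hgq _ (by omega)) ?_
  · intro i hi j hj h
    have := hv (i + 1) (by omega) (j + 1) (by omega) h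
    omega
  · rcases hxq with h | h
    · left
      intro i j hij hj
      exact h (i + 1) (j + 1) (by omega) (by omega)
    · right
      intro i j hij hj
      exact h (i + 1) (j + 1) (by omega) (by omega)
  · rcases hym with h | h
    · left
      intro i j hij hj
      exact h (i + 1) (j + 1) (by omega) (by omega)
    · right
      intro i j hij hj
      exact h (i + 1) (j + 1) (by omega) (by omega)
  · rcases hxy with h | h | h
    · exact Or.inl h
    · right; left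
      intro i hi j hj
      have h1 := h (i + 1) (by omega) (j + 1) (by omega)
      have h2 := h i (by omega) (j + 1) (by omega)
      have h3 := h (i + 2) (by omega) (j + 1) (by omega)
      rcases hxq with h4 | h4
      · have := h4 (i + 1) (i + 2) (by omega) (by omega)
        omega
      · have := h4 i (i + 1) (by omega) (by omega)
        omega
    · right; right
      intro i hi j hj
      have h1 := h (i + 1) (by omega) (j + 1) (by omega)
      have h2 := h i (by omega) (j + 1) (by omega)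
      have h3 := h (i + 2) (by omega) (j + 1) (by omega)
      rcases hxq with h4 | h4
      · have := h4 i (i + 1) (by omega) (by omega)
        omega
      · have := h4 (i + 1) (i + 2) (by omega) (by omega)
        omega

end

end EN
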