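import Pool.Agent.EN.Select

/-!
# Clusters of near sequences, and lists of ports taken from two times
-/

namespace RamP

/-- Monotone sequences, every two near or separated. -/
structure Fam {ι : Type*} (N : ℕ) (w : ι → ℕ → ℕ) : Prop where
  mon : ∀ a, Mon N (w a)
  ns : ∀ a b, Near N (w a) (w b) ∨ Sep N (w a) (w b)

/-- Increasing on `[0, N)`. -/
def Inc (N : ℕ) (y : ℕ → ℕ) : Prop := ∀ r s, r < s → s < N → y r < y s

/-- Decreasing on `[0, N)`. -/
def Dec (N : ℕ) (y : ℕ → ℕ) : Prop := ∀ r s, r < s → s < N → y s < y r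

namespace Fam

variable {ι : Type*} {N : ℕ} {w : ι → ℕ → ℕ} {o a b : ι}

lemma near_inc {y z : ℕ → ℕ} (hN : 3 ≤ N) (hy : Inc N y) (h : Near N y z) :
    ∀ r s, r < s → s < N → y r < z s ∧ z r < y s ∧ z r < z s := by
  rcases h with h | h
  · intro r s hrs hs
    exact ⟨(h r s hrs hs).2.1, (h r s hrs hs).2.2.1, (h r s hrs hs).2.2.2⟩
  · have h1 := (h 0 1 (by omega) (by omega)).1
    have h2 := hy 0 1 (by omega) (by omega)
    omega

lemma near_dec {y z : ℕ → ℕ} (hN : 3 ≤ N) (hy : Dec N y) (h : Near N y z) :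
    ∀ r s, r < s → s < N → z s < y r ∧ y s < z r ∧ z s < z r := by
  rcases h with h | h
  · have h1 := (h 0 1 (by omega) (by omega)).1
    have h2 := hy 0 1 (by omega) (by omega)
    omega
  · intro r s hrs hs
    exact ⟨(h r s hrs hs).2.1, (h r s hrs hs).2.2.1, (h r s hrs hs).2.2.2⟩

lemma trans' (h : Fam N w) (hN : 3 ≤ N) {a b c : ι} (h1 : Near N (w a) (w b))
    (h2 : Near N (w b) (w c)) : Near N (w a) (w c) := h1.trans hN h2 (h.ns a c)

/-- An increasing cluster is in series. -/
lemma inc (h : Fam N w) (hN : 3 ≤ N) (ho : Inc N (w o)) (ha : Near N (w o) (w a))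
    (hb : Near N (w o) (w b)) {r s : ℕ} (hrs : r < s) (hs : s < N) : w a r < w b s := by
  have h1 := h.trans' hN ha.symm hb
  have h2 : Inc N (w a) := fun r s hrs hs => (near_inc hN ho ha r s hrs hs).2.2
  exact (near_inc hN h2 h1 r s hrs hs).1

/-- A decreasing cluster is in series. -/
lemma dec (h : Fam N w) (hN : 3 ≤ N) (ho : Dec N (w o)) (ha : Near N (w o) (w a))
    (hb : Near N (w o) (w b)) {r s : ℕ} (hrs : r < s) (hs : s < N) : w b s < w a r := by
  have h1 := h.trans' hN ha.symm hb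
  have h2 : Dec N (w a) := fun r s hrs hs => (near_dec hN ho ha r s hrs hs).2.2
  exact (near_dec hN h2 h1 r s hrs hs).1

/-- A cluster lies on one side of a sequence which does not belong to it. -/
lemma far (h : Fam N w) (hN : 3 ≤ N) (S : ι → Prop) (hS : ∀ a, S a → Near N (w o) (w a))
    (hb : ¬ Near N (w o) (w b)) :
    (∀ a, S a → ∀ r < N, ∀ s < N, w a r < w b s) ∨
      ∀ a, S a → ∀ r < N, ∀ s < N, w b s < w a r := by
  have key : ∀ a, S a → Sep N (w a) (w b) := fun a ha =>
    (h.ns a b).resolve_left (fun g => hb (h.trans' hN (hS a ha) g))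
  rcases (h.ns o b).resolve_left hb with hf | hf
  · left
    intro a ha r hr s hs
    rcases key a ha with g | g
    · exact g r s hr hs
    · exfalso
      rcases hS a ha with e | e
      · have e1 := (e 0 1 (by omega) (by omega)).2.2.1
        have e2 := g 0 0 (by omega) (by omega)
        have e3 := hf 1 0 (by omega) (by omega)
        omega
      · have e1 := (e 0 1 (by omega) (by omega)).2.1
        have e2 := g 1 0 (by omega) (by omega)
        have e3 := hf 0 0 (by omega) (by omega)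
        omega
  · right
    intro a ha r hr s hs
    rcases key a ha with g | g
    · exfalso
      rcases hS a ha with e | e
      · have e1 := (e 0 1 (by omega) (by omega)).2.1
        have e2 := g 1 0 (by omega) (by omega)
        have e3 := hf 0 0 (by omega) (by omega)
        omega
      · have e1 := (e 0 1 (by omega) (by omega)).2.2.1
        have e2 := g 0 0 (by omega) (by omega)
        have e3 := hf 1 0 (by omega) (by omega)
        omega
    · exact g r s hr hs

end Fam

end RamP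

namespace EN

open RamP

variable {ι : Type*} {w : ι → ℕ → ℕ}

/-- Every member of `l i` is a value of a sequence of `S` at the times `2 i`, `2 i + 1`. -/
def From (w : ι → ℕ → ℕ) (S : ι → Prop) (N : ℕ) (l : ℕ → List ℕ) : Prop :=
  ∀ i < N, ∀ u ∈ l i, ∃ t a, S a ∧ (t = 2 * i ∨ t = 2 * i + 1) ∧ u = w a t

lemma From.ser {S : ι → Prop} {N N' : ℕ} {l : ℕ → List ℕ} (h : From w S N l) (hN : 2 * N ≤ N')
    (hs : ∀ a b, S a → S b → ∀ r s, r < s → s < N' → w a r < w b s) : Ser N l := by
  intro i j hij hj u hu v hv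
  obtain ⟨t, a, ha, ht, rfl⟩ := h i (by omega) u hu
  obtain ⟨t', b, hb, ht', rfl⟩ := h j hj v hv
  exact hs a b ha hb t t' (by omega) (by omega)

lemma From.ser' {S : ι → Prop} {N N' : ℕ} {l : ℕ → List ℕ} (h : From w S N l) (hN : 2 * N ≤ N')
    (hs : ∀ a b, S a → S b → ∀ r s, r < s → s < N' → w b s < w a r) :
    ∀ i j, i < j → j < N → ∀ u ∈ l i, ∀ v ∈ l j, v < u := by
  intro i j hij hj u hu v hv
  obtain ⟨t, a, ha, ht, rfl⟩ := h i (by omega) u hu
  obtain ⟨t', b, hb, ht', rfl⟩ := h j hj v hv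
  exact hs a b ha hb t t' (by omega) (by omega)

lemma From.far {S S' : ι → Prop} {N N' : ℕ} {l l' : ℕ → List ℕ} (h : From w S N l)
    (h' : From w S' N l') (hN : 2 * N ≤ N')
    (hs : (∀ a b, S a → S' b → ∀ r < N', ∀ s < N', w a r < w b s) ∨
      ∀ a b, S a → S' b → ∀ r < N', ∀ s < N', w b s < w a r) : Far N l l' := by
  rcases hs with hs | hs
  · left
    intro i hi j hj u hu v hv
    obtain ⟨t, a, ha, ht, rfl⟩ := h i hi u hu
    obtain ⟨t', b, hb, ht', rfl⟩ := h' j hj v hv
    exact hs a b ha hb t (by omega) t' (by omega)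
  · right
    intro i hi j hj u hu v hv
    obtain ⟨t, a, ha, ht, rfl⟩ := h i hi u hu
    obtain ⟨t', b, hb, ht', rfl⟩ := h' j hj v hv
    exact hs a b ha hb t (by omega) t' (by omega)

lemma From.dis {κ : Type*} {Y : Sys κ} {S : ι → Prop} {N N' : ℕ} {l : ℕ → List ℕ}
    (h : From w S N l) (hN : 2 * N ≤ N')
    (hs : ∀ i < N', ∀ j < N', i ≠ j → ∀ a b, Y.own (w a i) ≠ Y.own (w b j)) : Y.Dis N l := by
  intro i hi j hj hij u hu v hv
  obtain ⟨t, a, _, ht, rfl⟩ := h i hi u hu
  obtain ⟨t', b, _, ht', rfl⟩ := h j hj v hv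
  exact hs t (by omega) t' (by omega) (by omega) a b

lemma From.onSh {κ : Type*} {Y : Sys κ} {S : ι → Prop} {N N' : ℕ} {l : ℕ → List ℕ} {s₀ : ℕ}
    (h : From w S N l) (hN : 2 * N ≤ N')
    (hs : ∀ a, S a → ∀ i < N', w a i < Y.L ∧ Y.sh (w a i) = s₀) : Y.OnSh N l := by
  refine ⟨s₀, ?_⟩
  intro i hi u hu
  obtain ⟨t, a, ha, ht, rfl⟩ := h i hi u hu
  exact hs a ha t (by omega)

lemma mon_two {N N' : ℕ} {y : ℕ → ℕ} (h : Mon N' y) (hN : 2 * N ≤ N') :
    Mon N (fun i => y (2 * i)) := by
  rcases h with h | h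
  · exact Or.inl fun r s hrs hs => h (2 * r) (2 * s) (by omega) (by omega)
  · exact Or.inr fun r s hrs hs => h (2 * r) (2 * s) (by omega) (by omega)

lemma mon_two' {N N' : ℕ} {y : ℕ → ℕ} (h : Mon N' y) (hN : 2 * N ≤ N') :
    Mon N (fun i => y (2 * i + 1)) := by
  rcases h with h | h
  · exact Or.inl fun r s hrs hs => h (2 * r + 1) (2 * s + 1) (by omega) (by omega)
  · exact Or.inr fun r s hrs hs => h (2 * r + 1) (2 * s + 1) (by omega) (by omega)

end EN

namespace RamP

/-- Two different clusters lie on different sides. -/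
lemma Fam.far2 {ι : Type*} {N : ℕ} {w : ι → ℕ → ℕ} {o o' : ι} (h : Fam N w) (hN : 3 ≤ N)
    (S S' : ι → Prop) (hoS : S o) (hS : ∀ a, S a → Near N (w o) (w a))
    (hS' : ∀ a, S' a → Near N (w o') (w a)) (hb : ¬ Near N (w o) (w o')) :
    (∀ a b, S a → S' b → ∀ r < N, ∀ s < N, w a r < w b s) ∨
      ∀ a b, S a → S' b → ∀ r < N, ∀ s < N, w b s < w a r := by
  have hb' : ∀ b, S' b → ¬ Near N (w o) (w b) := fun b hb2 hcon =>
    hb (h.trans' hN hcon (hS' b hb2).symm)
  rcases h.far (o := o') (b := o) hN S' hS' (fun hcon => hb hcon.symm) with hf | hf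
  · right
    intro a b ha hbS
    rcases h.far hN S hS (hb' b hbS) with hg | hg
    · have h1 := hg o hoS 0 (by omega) 0 (by omega)
      have h2 := hf b hbS 0 (by omega) 0 (by omega)
      omega
    · exact hg a ha
  · left
    intro a b ha hbS
    rcases h.far hN S hS (hb' b hbS) with hg | hg
    · exact hg a ha
    · have h1 := hg o hoS 0 (by omega) 0 (by omega)
      have h2 := hf b hbS 0 (by omega) 0 (by omega)
      omega

end RamP
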