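import Pool.Agent.EN.Third

/-!
# A spine with two fat half planes

Posts `T s i`, pieces `L s i` of the row `s` between the posts `i` and `i + 1`, all arbitrary
connected sets.
-/

open Set
open scoped Matroid

namespace EN

open BIC Gad

variable {α V : Type*} {M : Matroid α} {S : Set α} {ends : α → Sym2 V}

/-- A fat half plane. -/
structure Fat (S : Set α) (ends : α → Sym2 V) (N m : ℕ) (T L : ℕ → ℕ → Set V) : Prop where
  finT : ∀ s i, 1 ≤ s → s ≤ m → i < N → (T s i).Finite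
  finL : ∀ s i, 1 ≤ s → s ≤ m → i + 1 < N → (L s i).Finite
  neT : ∀ s i, 1 ≤ s → s ≤ m → i < N → (T s i).Nonempty
  conT : ∀ s i, 1 ≤ s → s ≤ m → i < N → VConn S ends (T s i)
  conTL : ∀ s i, 1 ≤ s → s ≤ m → i + 1 < N → VConn S ends (T s i ∪ L s i)
  conLT : ∀ s i, 1 ≤ s → s ≤ m → i + 1 < N → VConn S ends (L s i ∪ T s (i + 1))
  lnk1 : ∀ s i, 1 ≤ s → s ≤ m → i + 1 < N → Lnk S ends (T s i) (L s i ∪ T s (i + 1))
  lnk2 : ∀ s i, 1 ≤ s → s ≤ m → i + 1 < N → Lnk S ends (T s i ∪ L s i) (T s (i + 1))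
  ver : ∀ s i, 1 ≤ s → s + 1 ≤ m → i < N → Lnk S ends (T s i) (T (s + 1) i)
  dTT : ∀ s i s' i', 1 ≤ s → s ≤ m → i < N → 1 ≤ s' → s' ≤ m → i' < N → (s, i) ≠ (s', i') →
    Disjoint (T s i) (T s' i')
  dTL : ∀ s i s' i', 1 ≤ s → s ≤ m → i < N → 1 ≤ s' → s' ≤ m → i' + 1 < N →
    Disjoint (T s i) (L s' i')
  dLL : ∀ s i s' i', 1 ≤ s → s ≤ m → i + 1 < N → 1 ≤ s' → s' ≤ m → i' + 1 < N →
    (s, i) ≠ (s', i') → Disjoint (L s i) (L s' i')

/-- The posts `1, …, k` over `i`. -/
def low (T : ℕ → ℕ → Set V) (k i : ℕ) : Set V := {v | ∃ s, 1 ≤ s ∧ s ≤ k ∧ v ∈ T s i}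

/-- The row `s` strictly between the posts `a` and `b`. -/
def arcF (T L : ℕ → ℕ → Set V) (s a b : ℕ) : Set V :=
  {v | ∃ k, a ≤ k ∧ k < b ∧ (v ∈ L s k ∨ (a < k ∧ v ∈ T s k))}

section

variable {N m : ℕ} {T L : ℕ → ℕ → Set V}

lemma Fat.low_fin (h : Fat S ends N m T L) {k i : ℕ} (hk : k ≤ m) (hi : i < N) :
    (low T k i).Finite := by
  have e : low T k i = ⋃ s ∈ Finset.Icc 1 k, T s i := by
    ext v
    simp only [low, mem_iUnion, Finset.mem_Icc, exists_prop, mem_ofPred_eq]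
    tauto
  rw [e]
  exact Set.Finite.biUnion (Finset.Icc 1 k).finite_toSet (fun s hs => by
    have h1 := Finset.mem_Icc.1 (Finset.mem_coe.1 hs)
    exact h.finT s i h1.1 (by omega) hi)

lemma Fat.low_conn (h : Fat S ends N m T L) {X : Set V} (hX : VConn S ends X) {k i : ℕ}
    (hk : k ≤ m) (hi : i < N) (hl : 1 ≤ k → Lnk S ends X (T 1 i)) :
    VConn S ends (X ∪ low T k i) := by
  induction k with
  | zero =>
    have e : low T 0 i = ∅ := by
      rw [eq_empty_iff_forall_notMem]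
      rintro v ⟨s, h1, h2, _⟩
      omega
    rw [e, union_empty]
    exact hX
  | succ k ih =>
    have e : low T (k + 1) i = low T k i ∪ T (k + 1) i := by
      ext v
      constructor
      · rintro ⟨s, h1, h2, h3⟩
        rcases Nat.lt_or_ge k s with h4 | h4
        · have : s = k + 1 := by omega
          rw [this] at h3
          exact Or.inr h3
        · exact Or.inl ⟨s, h1, h4, h3⟩
      · rintro (⟨s, h1, h2, h3⟩ | h3)
        · exact ⟨s, h1, by omega, h3⟩
        · exact ⟨k + 1, by omega, le_refl _, h3⟩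
    rw [e, ← union_assoc]
    refine vc_lnk (ih (by omega) (fun h1 => hl (by omega))) (h.conT _ _ (by omega) hk hi) ?_
    rcases Nat.eq_zero_or_pos k with h1 | h1
    · subst h1
      exact (hl (le_refl _)).mono (subset_refl _) subset_union_left (subset_refl _)
    · refine (h.ver k i h1 hk hi).mono (subset_refl _) ?_ (subset_refl _)
      intro v hv
      exact Or.inr ⟨k, h1, le_refl _, hv⟩

lemma Fat.arc_fin (h : Fat S ends N m T L) {s a b : ℕ} (h1 : 1 ≤ s) (h2 : s ≤ m) (hb : b < N) :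
    (arcF T L s a b).Finite := by
  have e : arcF T L s a b ⊆ ⋃ k ∈ Finset.Ico a b, (L s k ∪ T s k) := by
    rintro v ⟨k, h3, h4, h5⟩
    refine mem_iUnion₂.2 ⟨k, Finset.mem_Ico.2 ⟨h3, h4⟩, ?_⟩
    rcases h5 with h5 | h5
    · exact Or.inl h5
    · exact Or.inr h5.2
  refine (Set.Finite.biUnion (Finset.Ico a b).finite_toSet (fun k hk => ?_)).subset e
  have h3 := Finset.mem_Ico.1 (Finset.mem_coe.1 hk)
  exact (h.finL s k h1 h2 (by omega)).union (h.finT s k h1 h2 (by omega))

lemma Fat.arc_conn (h : Fat S ends N m T L) {s a b : ℕ} (h1 : 1 ≤ s) (h2 : s ≤ m)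
    (hab : a + 1 < b) (hb : b < N) :
    VConn S ends (arcF T L s a b) ∧ Lnk S ends (arcF T L s a b) (T s a) ∧
      Lnk S ends (arcF T L s a b) (T s b) := by
  -- arcs with the last post
  have key : ∀ c, a < c → c < b → VConn S ends (arcF T L s a c ∪ T s c) := by
    intro c hac hcb
    induction c with
    | zero => omega
    | succ c ih =>
      rcases Nat.lt_or_ge a c with h3 | h3
      · have h4 := ih h3 (by omega)
        have e : arcF T L s a (c + 1) ∪ T s (c + 1) =
            arcF T L s a c ∪ T s c ∪ (L s c ∪ T s (c + 1)) := by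
          ext v
          constructor
          · rintro (⟨k, h5, h6, h7⟩ | h5)
            · rcases Nat.lt_or_ge k c with h8 | h8
              · exact Or.inl (Or.inl ⟨k, h5, h8, h7⟩)
              · have : k = c := by omega
                subst this
                rcases h7 with h7 | h7
                · exact Or.inr (Or.inl h7)
                · exact Or.inl (Or.inr h7.2)
            · exact Or.inr (Or.inr h5)
          · rintro ((⟨k, h5, h6, h7⟩ | h5) | (h5 | h5))
            · exact Or.inl ⟨k, h5, by omega, h7⟩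
            · exact Or.inl ⟨c, by omega, by omega, Or.inr ⟨h3, h5⟩⟩
            · exact Or.inl ⟨c, by omega, by omega, Or.inl h5⟩
            · exact Or.inr h5
        rw [e]
        refine vc_lnk h4 (h.conLT s c h1 h2 (by omega)) ?_
        exact (h.lnk1 s c h1 h2 (by omega)).mono (subset_refl _) subset_union_right (subset_refl _)
      · have : c = a := by omega
        subst this
        have e : arcF T L s c (c + 1) = L s c := by
          ext v
          constructor
          · rintro ⟨k, h5, h6, h7⟩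
            have : k = c := by omega
            subst this
            rcases h7 with h7 | h7
            · exact h7
            · exact absurd h7.1 (lt_irrefl _)
          · intro h5
            exact ⟨c, le_refl _, Nat.lt_succ_self _, Or.inl h5⟩
        rw [e]
        exact h.conLT s c h1 h2 (by omega)
  obtain ⟨c, rfl⟩ : ∃ c, b = c + 1 := ⟨b - 1, by omega⟩
  have h3 := key c (by omega) (by omega)
  have e : arcF T L s a (c + 1) = arcF T L s a c ∪ T s c ∪ (T s c ∪ L s c) := by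
    ext v
    constructor
    · rintro ⟨k, h5, h6, h7⟩
      rcases Nat.lt_or_ge k c with h8 | h8
      · exact Or.inl (Or.inl ⟨k, h5, h8, h7⟩)
      · have : k = c := by omega
        subst this
        rcases h7 with h7 | h7
        · exact Or.inr (Or.inr h7)
        · exact Or.inr (Or.inl h7.2)
    · rintro ((⟨k, h5, h6, h7⟩ | h5) | (h5 | h5))
      · exact ⟨k, h5, by omega, h7⟩
      · exact ⟨c, by omega, by omega, Or.inr ⟨by omega, h5⟩⟩
      · exact ⟨c, by omega, by omega, Or.inr ⟨by omega, h5⟩⟩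
      · exact ⟨c, by omega, by omega, Or.inl h5⟩
  obtain ⟨x, hx⟩ := h.neT s c h1 h2 (by omega)
  refine ⟨?_, ?_, ?_⟩
  · rw [e]
    exact vc_union h3 (h.conTL s c h1 h2 (by omega)) (c := x) (Or.inr hx) (Or.inl hx)
  · refine (h.lnk1 s a h1 h2 (by omega)).symm.mono (subset_refl _) ?_ (subset_refl _)
    rintro v (hv | hv)
    · exact ⟨a, le_refl _, by omega, Or.inl hv⟩
    · exact ⟨a + 1, by omega, by omega, Or.inr ⟨by omega, hv⟩⟩
  · refine (h.lnk2 s c h1 h2 (by omega)).mono (subset_refl _) ?_ (subset_refl _)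
    rintro v (hv | hv)
    · exact ⟨c, by omega, by omega, Or.inr ⟨by omega, hv⟩⟩
    · exact ⟨c, by omega, by omega, Or.inl hv⟩

lemma Fat.arc_disj (h : Fat S ends N m T L) {s a b s' a' b' : ℕ} (h1 : 1 ≤ s) (h2 : s ≤ m)
    (h1' : 1 ≤ s') (h2' : s' ≤ m) (hb : b < N) (hb' : b' < N)
    (hne : s ≠ s' ∨ b ≤ a' ∨ b' ≤ a) : Disjoint (arcF T L s a b) (arcF T L s' a' b') := by
  rw [Set.disjoint_left]
  rintro v ⟨k, h3, h4, h5⟩ ⟨k', h3', h4', h5'⟩
  have h6 : (s, k) ≠ (s', k') := by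
    intro h7
    rw [Prod.mk.injEq] at h7
    omega
  rcases h5 with h5 | h5
  · rcases h5' with h5' | h5'
    · exact Set.disjoint_left.1 (h.dLL s k s' k' h1 h2 (by omega) h1' h2' (by omega) h6) h5 h5'
    · exact Set.disjoint_left.1 (h.dTL s' k' s k h1' h2' (by omega) h1 h2 (by omega)) h5'.2 h5
  · rcases h5' with h5' | h5'
    · exact Set.disjoint_left.1 (h.dTL s k s' k' h1 h2 (by omega) h1' h2' (by omega)) h5.2 h5'
    · exact Set.disjoint_left.1 (h.dTT s k s' k' h1 h2 (by omega) h1' h2' (by omega) h6) h5.2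
        h5'.2

lemma Fat.low_disj (h : Fat S ends N m T L) {k k' i i' : ℕ} (hk : k ≤ m) (hk' : k' ≤ m)
    (hi : i < N) (hi' : i' < N) (hne : i ≠ i') : Disjoint (low T k i) (low T k' i') := by
  rw [Set.disjoint_left]
  rintro v ⟨s, h1, h2, h3⟩ ⟨s', h1', h2', h3'⟩
  refine Set.disjoint_left.1 (h.dTT s i s' i' h1 (by omega) hi h1' (by omega) hi' ?_) h3 h3'
  intro h4
  rw [Prod.mk.injEq] at h4
  exact hne h4.2

lemma Fat.low_arc (h : Fat S ends N m T L) {k i s a b : ℕ} (hk : k ≤ m) (hi : i < N)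
    (h1 : 1 ≤ s) (h2 : s ≤ m) (hb : b < N) (hlv : a < i → i < b → k < s) :
    Disjoint (low T k i) (arcF T L s a b) := by
  rw [Set.disjoint_left]
  rintro v ⟨t, h3, h4, h5⟩ ⟨c, h6, h7, h8⟩
  rcases h8 with h8 | h8
  · exact Set.disjoint_left.1 (h.dTL t i s c h3 (by omega) hi h1 h2 (by omega)) h5 h8
  · refine Set.disjoint_left.1 (h.dTT t i s c h3 (by omega) hi h1 h2 (by omega) ?_) h5 h8.2
    intro h9
    rw [Prod.mk.injEq] at h9
    obtain ⟨rfl, rfl⟩ := h9
    have := hlv h8.1 h7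
    omega

end

/-- **Spine with two fat half planes.** -/
theorem spine2 {w : ℕ} (hw : 1 ≤ w) {T L T' L' : ℕ → ℕ → Set V}
    (h : Fat S ends (w * w) w T L) (h' : Fat S ends (w * w) w T' L') (X : ℕ → Set V)
    (D D' : Set V) (hTD : ∀ s i, 1 ≤ s → s ≤ w → i < w * w → T s i ⊆ D)
    (hLD : ∀ s i, 1 ≤ s → s ≤ w → i + 1 < w * w → L s i ⊆ D)
    (hTD' : ∀ s i, 1 ≤ s → s ≤ w → i < w * w → T' s i ⊆ D')
    (hLD' : ∀ s i, 1 ≤ s → s ≤ w → i + 1 < w * w → L' s i ⊆ D') (hDD : Disjoint D D')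
    (hXf : ∀ i < w * w, (X i).Finite) (hXc : ∀ i < w * w, VConn S ends (X i))
    (hXX : ∀ i < w * w, ∀ j < w * w, i ≠ j → Disjoint (X i) (X j))
    (hXD : ∀ i < w * w, Disjoint (X i) D) (hXD' : ∀ i < w * w, Disjoint (X i) D')
    (hX1 : ∀ i, i + 1 < w * w → Lnk S ends (X i) (X (i + 1)))
    (hXT : ∀ i < w * w, Lnk S ends (X i) (T 1 i)) (hXT' : ∀ i < w * w, Lnk S ends (X i) (T' 1 i)) :
    ∃ (Vs : ℕ → Set V) (As : ℕ → ℕ → Set V), Spine S ends w Vs As ∧
      (∀ i < w * w, X i ⊆ Vs i ∧ Vs i ⊆ X i ∪ D ∪ D') ∧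
      ∀ r s, 1 ≤ r → r < w → 2 ≤ s → s ≤ w → As r s ⊆ D ∪ D' := by
  have hlv := fun i => lv_le (i := i) hw
  have hlow : ∀ k i, k ≤ w → i < w * w → low T k i ⊆ D := by
    rintro k i hk hi v ⟨s, h1, h2, h3⟩
    exact hTD s i h1 (by omega) hi h3
  have hlow' : ∀ k i, k ≤ w → i < w * w → low T' k i ⊆ D' := by
    rintro k i hk hi v ⟨s, h1, h2, h3⟩
    exact hTD' s i h1 (by omega) hi h3
  have harc : ∀ s a b, 1 ≤ s → s ≤ w → b < w * w → arcF T L s a b ⊆ D := by
    rintro s a b h1 h2 h3 v ⟨k, h4, h5, h6⟩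
    rcases h6 with h6 | h6
    · exact hLD s k h1 h2 (by omega) h6
    · exact hTD s k h1 h2 (by omega) h6.2
  have harc' : ∀ s a b, 1 ≤ s → s ≤ w → b < w * w → arcF T' L' s a b ⊆ D' := by
    rintro s a b h1 h2 h3 v ⟨k, h4, h5, h6⟩
    rcases h6 with h6 | h6
    · exact hLD' s k h1 h2 (by omega) h6
    · exact hTD' s k h1 h2 (by omega) h6.2
  refine ⟨fun i => X i ∪ low T (lvU w i) i ∪ low T' (lvL w i) i,
    fun r s => if r % 2 = 1 then arcF T L s (r * w - s) (r * w + s - 1) else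
      arcF T' L' s (r * w - s) (r * w + s - 1), ?_, ?_, ?_⟩
  · refine ⟨?_, ?_, ?_, ?_, ?_, ?_, ?_, ?_, ?_⟩
    · intro i hi
      exact ((hXf i hi).union (h.low_fin (hlv i).1 hi)).union (h'.low_fin (hlv i).2 hi)
    · intro i hi
      refine h'.low_conn (h.low_conn (hXc i hi) (hlv i).1 hi (fun _ => hXT i hi)) (hlv i).2 hi
        (fun _ => (hXT' i hi).mono (subset_refl _) subset_union_left (subset_refl _))
    · intro r s h1 h2 h3 h4
      have h5 := arc_idx h1 h2 h3 h4
      split_ifs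
      · exact h.arc_fin (by omega) h4 h5.2.1
      · exact h'.arc_fin (by omega) h4 h5.2.1
    · intro r s h1 h2 h3 h4
      have h5 := arc_idx h1 h2 h3 h4
      split_ifs
      · exact (h.arc_conn (by omega) h4 (by omega) h5.2.1).1
      · exact (h'.arc_conn (by omega) h4 (by omega) h5.2.1).1
    · intro i hi j hj hij
      rw [Set.disjoint_union_left, Set.disjoint_union_left, Set.disjoint_union_right,
        Set.disjoint_union_right, Set.disjoint_union_right, Set.disjoint_union_right,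
        Set.disjoint_union_right, Set.disjoint_union_right]
      have a1 := (hXD i hi).mono_right (hlow _ j (hlv j).1 hj)
      have a2 := (hXD' i hi).mono_right (hlow' _ j (hlv j).2 hj)
      have a3 := (hXD j hj).mono_right (hlow _ i (hlv i).1 hi)
      have a4 := (hXD' j hj).mono_right (hlow' _ i (hlv i).2 hi)
      have a5 := hDD.mono (hlow _ i (hlv i).1 hi) (hlow' _ j (hlv j).2 hj)
      have a6 := hDD.mono (hlow _ j (hlv j).1 hj) (hlow' _ i (hlv i).2 hi)
      exact ⟨⟨⟨⟨hXX i hi j hj hij, a1⟩, a2⟩, ⟨a3.symm, h.low_disj (hlv i).1 (hlv j).1 hi hj hij⟩,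
        a5⟩, ⟨a4.symm, a6.symm⟩, h'.low_disj (hlv i).2 (hlv j).2 hi hj hij⟩
    · intro i hi r s h1 h2 h3 h4
      have h5 := arc_idx h1 h2 h3 h4
      have a1 := harc s (r * w - s) (r * w + s - 1) (by omega) h4 h5.2.1
      have a2 := harc' s (r * w - s) (r * w + s - 1) (by omega) h4 h5.2.1
      split_ifs with hr
      · rw [Set.disjoint_union_left, Set.disjoint_union_left]
        refine ⟨⟨(hXD i hi).mono_right a1, h.low_arc (hlv i).1 hi (by omega) h4 h5.2.1 ?_⟩,
          (hDD.mono a1 (hlow' _ i (hlv i).2 hi)).symm⟩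
        exact fun b1 b2 => (lvU_arc h1 hr (by omega) h4).2.2 i b1 b2
      · rw [Set.disjoint_union_left, Set.disjoint_union_left]
        refine ⟨⟨(hXD' i hi).mono_right a2, hDD.mono (hlow _ i (hlv i).1 hi) a2⟩,
          h'.low_arc (hlv i).2 hi (by omega) h4 h5.2.1 ?_⟩
        exact fun b1 b2 => (lvL_arc h1 (by omega) (by omega) h4).2.2 i b1 b2
    · intro r s h1 h2 h3 h4 r' s' h1' h2' h3' h4' hne
      have h5 := arc_idx h1 h2 h3 h4
      have h5' := arc_idx h1' h2' h3' h4'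
      have a1 := harc s (r * w - s) (r * w + s - 1) (by omega) h4 h5.2.1
      have a2 := harc' s (r * w - s) (r * w + s - 1) (by omega) h4 h5.2.1
      have a1' := harc s' (r' * w - s') (r' * w + s' - 1) (by omega) h4' h5'.2.1
      have a2' := harc' s' (r' * w - s') (r' * w + s' - 1) (by omega) h4' h5'.2.1
      have key : r % 2 = r' % 2 → s ≠ s' ∨ r * w + s - 1 ≤ r' * w - s' ∨
          r' * w + s' - 1 ≤ r * w - s := by
        intro hpar
        rcases Nat.lt_trichotomy r r' with b1 | b1 | b1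
        · exact Or.inr (Or.inl (arcs_far b1 hpar h4 h4'))
        · left
          intro b2
          exact hne (by rw [b1, b2])
        · exact Or.inr (Or.inr (arcs_far b1 hpar.symm h4' h4))
      split_ifs with hr hr' hr'
      · exact h.arc_disj (by omega) h4 (by omega) h4' h5.2.1 h5'.2.1 (key (by omega))
      · exact hDD.mono a1 a2'
      · exact (hDD.mono a1' a2).symm
      · exact h'.arc_disj (by omega) h4 (by omega) h4' h5.2.1 h5'.2.1 (key (by omega))
    · intro i hi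
      exact (hX1 i hi).mono (subset_refl _) (fun v hv => Or.inl (Or.inl hv))
        (fun v hv => Or.inl (Or.inl hv))
    · intro r s h1 h2 h3 h4
      have h5 := arc_idx h1 h2 h3 h4
      split_ifs with hr
      · obtain ⟨h6, h7, _⟩ := lvU_arc h1 hr (show 1 ≤ s by omega) h4
        obtain ⟨_, h8, h9⟩ := h.arc_conn (a := r * w - s) (show 1 ≤ s by omega) h4 (by omega)
          h5.2.1
        refine ⟨h8.mono (subset_refl _) (subset_refl _) ?_,
          h9.mono (subset_refl _) (subset_refl _) ?_⟩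
        · intro v hv
          exact Or.inl (Or.inr ⟨s, by omega, by rw [h6], hv⟩)
        · intro v hv
          exact Or.inl (Or.inr ⟨s, by omega, by rw [h7], hv⟩)
      · obtain ⟨h6, h7, _⟩ := lvL_arc h1 (by omega : r % 2 = 0) (show 1 ≤ s by omega) h4
        obtain ⟨_, h8, h9⟩ := h'.arc_conn (a := r * w - s) (show 1 ≤ s by omega) h4 (by omega)
          h5.2.1
        refine ⟨h8.mono (subset_refl _) (subset_refl _) ?_,
          h9.mono (subset_refl _) (subset_refl _) ?_⟩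
        · intro v hv
          exact Or.inr ⟨s, by omega, by rw [h6], hv⟩
        · intro v hv
          exact Or.inr ⟨s, by omega, by rw [h7], hv⟩
  · intro i hi
    refine ⟨fun v hv => Or.inl (Or.inl hv), ?_⟩
    rintro v ((hv | hv) | hv)
    · exact Or.inl (Or.inl hv)
    · exact Or.inl (Or.inr (hlow _ i (hlv i).1 hi hv))
    · exact Or.inr (hlow' _ i (hlv i).2 hi hv)
  · intro r s h1 h2 h3 h4
    have h5 := arc_idx h1 h2 h3 h4
    simp only
    split_ifs
    · exact (harc s _ _ (by omega) h4 h5.2.1).trans subset_union_left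
    · exact (harc' s _ _ (by omega) h4 h5.2.1).trans subset_union_right

/-- From a spine and a connected set `Z` adjacent to all spine vertices to the grid with joints. -/
theorem Spine.jgridZ {w : ℕ} (hw : 1 ≤ w) {Vs : ℕ → Set V}
    {As : ℕ → ℕ → Set V} (h : Spine S ends (2 * w) Vs As) (Z : Set V) (hZf : Z.Finite)
    (hZc : VConn S ends Z) (hVZ : ∀ i < (2 * w) * (2 * w), Disjoint (Vs i) Z)
    (hAZ : ∀ r s, 1 ≤ r → r < 2 * w → 2 ≤ s → s ≤ 2 * w → Disjoint (As r s) Z)
    (hadj : ∀ i < (2 * w) * (2 * w), Lnk S ends (Vs i) Z) {P : ℕ × ℕ → V} {l r n b : ℕ}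
    (hb : b ≤ n) (hT : ∀ i < (2 * w) * (2 * w), ∃ x, l ≤ x ∧ x ≤ r ∧ P (x, b) ∈ Vs i)
    (hTZ : ∀ x j, l ≤ x → x ≤ r → b ≤ j → j ≤ n → P (x, j) ∉ Z) :
    GmF S ends P l r n (2 * w) := by
  obtain ⟨U, h1, h2, h3⟩ := h.grid
  refine gmod_F U Z hZf hZc (fun c hc => (h1 c hc).1) (fun c hc => (h1 c hc).2.1) h2 ?_
    h3 ?_ hb ?_ hTZ
  · intro c hc
    rw [Set.disjoint_left]
    intro v hv hvZ
    rcases (h1 c hc).2.2.2 hv with h4 | h4
    · obtain ⟨i, hi, h5⟩ := mem_iUnion₂.1 h4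
      exact Set.disjoint_left.1 (hVZ i (Finset.mem_range.1 hi)) h5 hvZ
    · obtain ⟨r, hr, h5⟩ := mem_iUnion₂.1 h4
      obtain ⟨s, hs, h6⟩ := mem_iUnion₂.1 h5
      rw [Finset.mem_Ico] at hr
      rw [Finset.mem_Icc] at hs
      exact Set.disjoint_left.1 (hAZ r s hr.1 hr.2 hs.1 hs.2) h6 hvZ
  · intro c hc
    exact (hadj _ (idx_lt hc)).mono (subset_refl _) (h1 c hc).2.2.1 (subset_refl _)
  · intro c hc
    obtain ⟨x, g1, g2, g3⟩ := hT _ (idx_lt hc)
    exact ⟨x, g1, g2, (h1 c hc).2.2.1 g3⟩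

end EN
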