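import Pool.Agent.EN.Joint
import Pool.Agent.GL.Iso

/-!
# A rectangle of floating connectors gives a grid model

The connectors `kc p`, `p` in a `2 w × w` rectangle of the brick wall, are connected, disjoint, linked
along the edges of the wall and jointly unbalanced.
-/

open Set
open scoped Matroid

namespace EN

open BIC Gad

variable {α V : Type*} {M : Matroid α} {S : Set α} {ends : α → Sym2 V}

/-- A rectangle of the wall. -/
def Rct (w x₀ y₀ : ℕ) : Set (ℕ × ℕ) :=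
  {p | x₀ ≤ p.1 ∧ p.1 < x₀ + 2 * w ∧ y₀ ≤ p.2 ∧ p.2 < y₀ + w}

lemma mem_Rct {w x₀ y₀ x y : ℕ} : (x, y) ∈ Rct w x₀ y₀ ↔
    x₀ ≤ x ∧ x < x₀ + 2 * w ∧ y₀ ≤ y ∧ y < y₀ + w := Iff.rfl

theorem wall_pic [M.Finite] (hF : Frm M S ends) {κ : Type*} {B : κ → Set V} {w : ℕ}
    (hw : 1 ≤ w) {kc : ℕ × ℕ → κ} {x₀ y₀ : ℕ} (fin : ∀ k, (B k).Finite)
    (con : ∀ k, VConn S ends (B k)) (dis : ∀ k k', k ≠ k' → Disjoint (B k) (B k'))
    (inj : InjOn kc (Rct w x₀ y₀))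
    (cnt : ∀ p q, p ∈ Rct w x₀ y₀ → q ∈ Rct w x₀ y₀ → Iso.WAdj p q →
      Lnk S ends (B (kc p)) (B (kc q)))
    (grd : ∀ I : Finset κ, (∀ k ∈ I, ∃ p ∈ Rct w x₀ y₀, kc p = k) → JU M S ends I B) :
    GmU M S ends w := by
  classical
  set L : ℕ × ℕ → κ := fun c => kc (x₀ + 2 * c.1, y₀ + c.2) with hL
  set R : ℕ × ℕ → κ := fun c => kc (x₀ + 2 * c.1 + 1, y₀ + c.2) with hR
  have mL : ∀ c ∈ Cl w, (x₀ + 2 * c.1, y₀ + c.2) ∈ Rct w x₀ y₀ := by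
    rintro ⟨a, b⟩ ⟨h1, h2⟩
    rw [mem_Rct]
    simp only at h1 h2 ⊢
    omega
  have mR : ∀ c ∈ Cl w, (x₀ + 2 * c.1 + 1, y₀ + c.2) ∈ Rct w x₀ y₀ := by
    rintro ⟨a, b⟩ ⟨h1, h2⟩
    rw [mem_Rct]
    simp only at h1 h2 ⊢
    omega
  have eLL : ∀ c ∈ Cl w, ∀ c' ∈ Cl w, L c = L c' → c = c' := by
    rintro ⟨a, b⟩ hc ⟨a', b'⟩ hc' h
    have h1 := inj (mL _ hc) (mL _ hc') h
    simp only [Prod.mk.injEq] at h1 ⊢
    omega
  have eRR : ∀ c ∈ Cl w, ∀ c' ∈ Cl w, R c = R c' → c = c' := by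
    rintro ⟨a, b⟩ hc ⟨a', b'⟩ hc' h
    have h1 := inj (mR _ hc) (mR _ hc') h
    simp only [Prod.mk.injEq] at h1 ⊢
    omega
  have eLR : ∀ c ∈ Cl w, ∀ c' ∈ Cl w, L c ≠ R c' := by
    rintro ⟨a, b⟩ hc ⟨a', b'⟩ hc' h
    have h1 := inj (mL _ hc) (mR _ hc') h
    simp only [Prod.mk.injEq] at h1
    omega
  have lLR : ∀ c ∈ Cl w, Lnk S ends (B (L c)) (B (R c)) := fun c hc =>
    cnt _ _ (mL c hc) (mR c hc) (Or.inl ⟨rfl, Or.inl rfl⟩)
  have hJU : JU M S ends (ClF w) (fun c => B (L c)) := by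
    have h1 : JU M S ends ((ClF w).image L) B := by
      refine grd _ fun k hk => ?_
      obtain ⟨c, hc, rfl⟩ := Finset.mem_image.1 hk
      exact ⟨_, mL c (mem_ClF.1 hc), rfl⟩
    rwa [JU.image] at h1
    intro c hc c' hc' h
    exact eLL c (mem_ClF.1 hc) c' (mem_ClF.1 hc') h
  have hI : (ClF w).Nonempty := ⟨(0, 0), mem_ClF.2 ⟨hw, hw⟩⟩
  obtain ⟨τ, j, t1, t2, t3⟩ := hJU.joints hF hI (fun c _ => fin _) (fun c hc => by
      obtain ⟨e, _, a, ha, _⟩ := lLR c (mem_ClF.1 hc)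
      exact ⟨a, ha⟩) (fun c _ => con _) (fun c hc c' hc' hcc =>
      dis _ _ fun h => hcc (eLL c (mem_ClF.1 hc) c' (mem_ClF.1 hc') h))
  have hsym : ∀ c c', Nb w c c' → Nb w c' c := by
    rintro c c' ⟨h1, h2, h3⟩
    refine ⟨h2, h1, ?_⟩
    rcases h3 with ⟨h3, h4⟩ | ⟨h3, h4⟩
    · exact Or.inl ⟨h3.symm, h4.symm⟩
    · exact Or.inr ⟨h3.symm, h4.symm⟩
  -- links in one direction
  have key : ∀ c c', Nb w c c' → (c.1 = c'.1 ∧ c.2 + 1 = c'.2 ∨ c.2 = c'.2 ∧ c.1 + 1 = c'.1) →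
      Lnk S ends (B (L c) ∪ B (R c)) (B (L c') ∪ B (R c')) := by
    rintro ⟨a, b⟩ ⟨a', b'⟩ ⟨h1, h2, _⟩ h4
    have m1 := mL _ h1
    have m2 := mR _ h1
    have m3 := mL _ h2
    have m4 := mR _ h2
    simp only at h4 m1 m2 m3 m4
    rcases h4 with ⟨h4, h5⟩ | ⟨h4, h5⟩
    · subst h4 h5
      by_cases hpar : (x₀ + 2 * a + (y₀ + b)) % 2 = 0
      · refine (cnt _ _ m1 m3 (Or.inr ⟨rfl, Or.inl ⟨?_, ?_⟩⟩)).mono subset_rfl
          subset_union_left subset_union_left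
        · simp only
          omega
        · exact hpar
      · refine (cnt _ _ m2 m4 (Or.inr ⟨rfl, Or.inl ⟨?_, ?_⟩⟩)).mono subset_rfl
          subset_union_right subset_union_right
        · simp only
          omega
        · simp only
          omega
    · subst h4 h5
      refine (cnt _ _ m2 m3 (Or.inl ⟨rfl, Or.inl ?_⟩)).mono subset_rfl
          subset_union_right subset_union_left
      simp only
      omega
  refine ⟨fun c => B (L c) ∪ B (R c), fun c => B (L c), τ, j, fun c _ => (fin _).union (fin _),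
    fun c _ => subset_union_left, fun c hc => vc_lnk (con _) (con _) (lLR c hc), ?_,
    fun c hc => t1 c (mem_ClF.2 hc), fun c hc => t2 c (mem_ClF.2 hc), t3, ?_⟩
  · intro c hc c' hc' hcc
    rw [Set.disjoint_union_left, Set.disjoint_union_right, Set.disjoint_union_right]
    exact ⟨⟨dis _ _ fun h => hcc (eLL c hc c' hc' h), dis _ _ (eLR c hc c' hc')⟩,
      dis _ _ (eLR c' hc' c hc).symm, dis _ _ fun h => hcc (eRR c hc c' hc' h)⟩
  · intro c c' hcc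
    rcases hcc.2.2 with ⟨h1, h2 | h2⟩ | ⟨h1, h2 | h2⟩
    · exact key c c' hcc (Or.inl ⟨h1, h2⟩)
    · exact (key c' c (hsym _ _ hcc) (Or.inl ⟨h1.symm, h2⟩)).symm
    · exact key c c' hcc (Or.inr ⟨h1, h2⟩)
    · exact (key c' c (hsym _ _ hcc) (Or.inr ⟨h1.symm, h2⟩)).symm

end EN
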