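import Pool.Agent.EN.WallUModel

/-!
# Models of the coarse wall with missing vertices

As in `WallModel` and `WallUModel`, but the vertices of the fine graph outside of the domain of `q`
need not be present.
-/

open Relation

namespace Mdl

variable {V σ X X₀ : Type*}

/-- The coarse classes: support, finiteness, connectivity and edges. -/
structure Pre (G : SimpleGraph X) (H : Host V σ) (d : ℤ) (f : HV V σ → Option X) : Prop where
  sup : ∀ s c b, f (Sum.inr (s, c, b)) ≠ none → c < H.len s ∧ -d ≤ b ∧ b ≤ d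
  fin : {u | f u ≠ none}.Finite
  con : ∀ y u v, f u = some y → f v = some y → Cn H d f y u v
  edg : ∀ y z, G.Adj y z → ∃ u v, H.Adj d u v ∧ f u = some y ∧ f v = some z

/-- Coarser classes; the fine vertices outside of the domain of `q` may be missing. -/
theorem Pre.coarse {G₀ : SimpleGraph X₀} {G : SimpleGraph X} {q : X₀ → Option X}
    (hq : ∀ x x' y, q x = some y → q x' = some y →
      ReflTransGen (fun a b => G₀.Adj a b ∧ q a = some y ∧ q b = some y) x x')
    (hqe : ∀ y z, G.Adj y z → ∃ a b, G₀.Adj a b ∧ q a = some y ∧ q b = some z)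
    {H : Host V σ} {d : ℤ} {f₀ : HV V σ → Option X₀}
    (sup : ∀ s c b x, f₀ (Sum.inr (s, c, b)) = some x → q x ≠ none →
      c < H.len s ∧ -d ≤ b ∧ b ≤ d)
    (fin : {u | ∃ x, f₀ u = some x ∧ q x ≠ none}.Finite)
    (con : ∀ x u v, q x ≠ none → f₀ u = some x → f₀ v = some x → Cn H d f₀ x u v)
    (edg : ∀ a b, G₀.Adj a b → q a ≠ none → q b ≠ none →
      ∃ u v, H.Adj d u v ∧ f₀ u = some a ∧ f₀ v = some b) :
    Pre G H d (fun u => (f₀ u).bind q) := by
  have hbind : ∀ u y, (f₀ u).bind q = some y ↔ ∃ x, f₀ u = some x ∧ q x = some y := by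
    intro u y
    rw [Option.bind_eq_some_iff]
  have hne : ∀ u, (f₀ u).bind q ≠ none → ∃ x, f₀ u = some x ∧ q x ≠ none := by
    intro u hu
    obtain ⟨y, hy⟩ := Option.ne_none_iff_exists'.1 hu
    obtain ⟨x, h1, h2⟩ := (hbind u y).1 hy
    exact ⟨x, h1, by rw [h2]; simp⟩
  have hqn : ∀ x y, q x = some y → q x ≠ none := fun x y h => by rw [h]; simp
  have hcn : ∀ x y u v, q x = some y → f₀ u = some x → f₀ v = some x →
      Cn H d (fun u => (f₀ u).bind q) y u v := by
    intro x y u v hx hu hv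
    have h1 := con x u v (hqn x y hx) hu hv
    unfold Cn at h1 ⊢
    clear hu hv
    induction h1 with
    | refl => exact ReflTransGen.refl
    | tail _ hbc ih =>
      exact ih.tail ⟨hbc.1, (hbind _ _).2 ⟨x, hbc.2.1, hx⟩, (hbind _ _).2 ⟨x, hbc.2.2, hx⟩⟩
  refine ⟨fun s c b hb => ?_, fin.subset fun u hu => hne u hu, ?_, ?_⟩
  · obtain ⟨x, h1, h2⟩ := hne _ hb
    exact sup s c b x h1 h2
  · intro y u v hu hv
    obtain ⟨x, hux, hxy⟩ := (hbind _ _).1 hu
    obtain ⟨x', hvx, hxy'⟩ := (hbind _ _).1 hv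
    have h1 := hq x x' y hxy hxy'
    have key : ∀ x', ReflTransGen (fun a b => G₀.Adj a b ∧ q a = some y ∧ q b = some y) x x' →
        ∀ v, f₀ v = some x' → q x' = some y → Cn H d (fun u => (f₀ u).bind q) y u v := by
      intro x' h2
      induction h2 with
      | refl => exact fun v hv hx => hcn x y u v hxy hux hv
      | tail _ hbc ih =>
        intro v hv hx
        obtain ⟨a, b, h3, h4, h5⟩ := edg _ _ hbc.1 (hqn _ _ hbc.2.1) (hqn _ _ hbc.2.2)
        refine (ih a h4 hbc.2.1).trans (Cn.trans (Cn.one h3 ?_ ?_) (hcn _ y b v hbc.2.2 h5 hv))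
        · exact (hbind _ _).2 ⟨_, h4, hbc.2.1⟩
        · exact (hbind _ _).2 ⟨_, h5, hbc.2.2⟩
    exact key x' h1 v hvx hxy'
  · intro y z hyz
    obtain ⟨a, b, h1, h2, h3⟩ := hqe y z hyz
    obtain ⟨u, v, h4, h5, h6⟩ := edg a b h1 (hqn _ _ h2) (hqn _ _ h3)
    exact ⟨u, v, h4, (hbind _ _).2 ⟨a, h5, h2⟩, (hbind _ _).2 ⟨b, h6, h3⟩⟩

open EN.Wall in
/-- The wall without the vertices of `Z`. -/
abbrev WZ {h : ℕ} (Z : Finset (WV h)) := {y : WV h // y ∉ Z}

open EN.Wall in
/-- Its graph. -/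
def GZ {h : ℕ} (Z : Finset (WV h)) : SimpleGraph (WZ Z) := (Wl h).comap Subtype.val

open EN.Wall in
open Classical in
/-- The block of a vertex, if it is not missing. -/
noncomputable def bZ (L h : ℕ) (Z : Finset (WV h)) (x : WV (L * h)) : Option (WZ Z) :=
  if hx : blk L h x ∈ Z then none else some ⟨blk L h x, hx⟩

section

open EN.Wall

variable {L h : ℕ} {Z : Finset (WV h)}

lemma bZ_eq {x : WV (L * h)} {y : WZ Z} : bZ L h Z x = some y ↔ blk L h x = y.1 := by
  unfold bZ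
  constructor
  · intro hx
    split_ifs at hx with h1
    exact congrArg Subtype.val (Option.some.inj hx)
  · intro hx
    rw [dif_neg (by rw [hx]; exact y.2)]
    exact congrArg some (Subtype.ext hx)

lemma bZ_ne {x : WV (L * h)} : bZ L h Z x ≠ none ↔ blk L h x ∉ Z := by
  unfold bZ
  split_ifs with h1 <;> simp [h1]

lemma GZ_degree (y : WZ Z) : {z | (GZ Z).Adj y z}.ncard ≤ 3 := by
  refine le_trans ?_ (degree_le y.1)
  have h1 : (Subtype.val '' {z | (GZ Z).Adj y z}) ⊆ {z | (Wl h).Adj y.1 z} := by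
    rintro _ ⟨z, hz, rfl⟩
    exact hz
  rw [← Set.ncard_image_of_injective _ Subtype.val_injective]
  exact Set.ncard_le_ncard h1 (Set.toFinite _)

lemma GZ_no_square (a b c d : WZ Z) (h1 : (GZ Z).Adj a b) (h2 : (GZ Z).Adj b c)
    (h3 : (GZ Z).Adj c d) (h4 : (GZ Z).Adj d a) : a = c ∨ b = d := by
  rcases no_square a.1 b.1 c.1 d.1 h1 h2 h3 h4 with h | h
  · exact Or.inl (Subtype.ext h)
  · exact Or.inr (Subtype.ext h)

/-- The classes of the blocks, with missing blocks. -/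
theorem Pre.blocks {V σ : Type*} (hL : 2 ≤ L) {H : Host V σ} {d : ℤ}
    {f₀ : HV V σ → Option (WV (L * h))}
    (sup : ∀ s c b x, f₀ (Sum.inr (s, c, b)) = some x → blk L h x ∉ Z →
      c < H.len s ∧ -d ≤ b ∧ b ≤ d)
    (fin : {u | ∃ x, f₀ u = some x ∧ blk L h x ∉ Z}.Finite)
    (con : ∀ x u v, blk L h x ∉ Z → f₀ u = some x → f₀ v = some x → Cn H d f₀ x u v)
    (edg : ∀ a b, (Wl (L * h)).Adj a b → blk L h a ∉ Z → blk L h b ∉ Z →
      ∃ u v, H.Adj d u v ∧ f₀ u = some a ∧ f₀ v = some b) :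
    Pre (GZ Z) H d (fun u => (f₀ u).bind (bZ L h Z)) := by
  refine Pre.coarse (G₀ := Wl (L * h)) ?_ ?_ ?_ ?_ ?_ ?_
  · intro x x' y hx hx'
    have h3 := blk_conn (h := h) hL (bZ_eq.1 hx) (bZ_eq.1 hx')
    clear hx hx'
    induction h3 with
    | refl => exact ReflTransGen.refl
    | tail _ hab ih =>
      exact ih.tail ⟨hab.1, bZ_eq.2 hab.2.1, bZ_eq.2 hab.2.2⟩
  · intro y z hyz
    obtain ⟨u, v, h3, h4, h5⟩ := blk_edge hL (y := y.1) (z := z.1) hyz
    exact ⟨u, v, h3, bZ_eq.2 h4, bZ_eq.2 h5⟩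
  · intro s c b x hx hq
    exact sup s c b x hx (bZ_ne.1 hq)
  · refine fin.subset ?_
    rintro u ⟨x, hx, hq⟩
    exact ⟨x, hx, bZ_ne.1 hq⟩
  · intro x u v hq hu hv
    exact con x u v (bZ_ne.1 hq) hu hv
  · intro a b hab ha hb
    exact edg a b hab (bZ_ne.1 ha) (bZ_ne.1 hb)

end

end Mdl

namespace Mdu

open Mdl

variable {V σ X : Type*} {G : SimpleGraph X} {H : Host V σ} {N d : ℤ}
  {U : ℤ → Set (HV V σ) → Prop} {f : HV V σ → Option X}

/-- A model with unbalanced classes. -/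
theorem UModel.of_pre (hB : Bal H N U) (hd : 0 ≤ d) (hdN : d ≤ N) (hgd : ∀ v, H.gd v)
    (hp : Pre G H d f) (unb : ∀ y, ∃ A : Set (HV V σ), A.Nonempty ∧ U d A ∧
      ∀ w ∈ A, f w = some y) : UModel G H U d f := by
  have hcl : ∀ y, {w | f w = some y}.Finite := fun y =>
    hp.fin.subset fun w (hw : f w = some y) => by
      show f w ≠ none
      rw [hw]
      simp
  have hco : ∀ y, Co H d {w | f w = some y} := fun y u hu v hv => hp.con y u v hu hv
  have hrg : ∀ y, Rg H d {w | f w = some y} := fun y s c b hw => by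
    refine hp.sup s c b ?_
    rw [show f (Sum.inr (s, c, b)) = some y from hw]
    simp
  have hunb : ∀ y, U d {w | f w = some y} := by
    intro y
    obtain ⟨A, hA1, hA2, hA3⟩ := unb y
    exact hB.mono d A _ hd hdN (hrg y) (fun w hw => hA3 w hw) (hcl y) hA1 (hco y) hA2
  refine ⟨⟨hp.sup, hp.fin, hp.con, hp.edg, ?_⟩, hunb⟩
  intro y
  obtain ⟨v, hv⟩ := hB.inl hd hdN (hrg y) (hcl y) (hco y) (hunb y)
  exact ⟨v, hv, hgd v⟩

end Mdu
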