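import Pool.Agent.EN.Float
import Pool.Agent.EN.FloatPic
import Pool.Agent.EN.WallRob

/-!
# Few vertices are far from the ports, or a rectangle of the wall has no ports
-/

set_option autoImplicit false

open Relation

namespace Mdl

open EN.Wall EN.Mrg

variable {h : ℕ} {Z : Finset (WV h)}

/-- One step. -/
lemma near_step {A : Set (WZ Z)} {i : ℕ} {u v : WZ Z} (hu : u ∈ Nr (GZ Z) A i)
    (huv : Iso.WAdj (vl u.1) (vl v.1)) : v ∈ Nr (GZ Z) A (i + 1) := by
  have h1 : (GZ Z).Adj u v := huv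
  exact Or.inr ⟨u, hu, h1.symm⟩

/-- a whole row of the rectangle -/
lemma near_row {w x₀ y₀ : ℕ} (hpres : ∀ p ∈ EN.Rct w x₀ y₀, ∃ u : WZ Z, vl u.1 = p)
    {A : Set (WZ Z)} {i x y : ℕ} (hp : (x, y) ∈ EN.Rct w x₀ y₀)
    (hA : ∀ u : WZ Z, vl u.1 = (x, y) → u ∈ Nr (GZ Z) A i) (x' : ℕ)
    (hp' : (x', y) ∈ EN.Rct w x₀ y₀) (v : WZ Z) (hv : vl v.1 = (x', y)) :
    v ∈ Nr (GZ Z) A (i + 2 * w) := by
  rw [EN.mem_Rct] at hp hp'
  have up : ∀ n : ℕ, x + n < x₀ + 2 * w → ∀ v : WZ Z, vl v.1 = (x + n, y) →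
      v ∈ Nr (GZ Z) A (i + n) := by
    intro n
    induction n with
    | zero => exact fun _ v hv => hA v hv
    | succ n ih =>
      intro hn v hv
      obtain ⟨u, hu⟩ := hpres (x + n, y) (EN.mem_Rct.2 ⟨by omega, by omega, by omega, by omega⟩)
      refine near_step (ih (by omega) u hu) ?_
      rw [hu, hv]
      exact Or.inl ⟨rfl, Or.inl rfl⟩
  have down : ∀ n : ℕ, n ≤ x → x₀ ≤ x - n → ∀ v : WZ Z, vl v.1 = (x - n, y) →
      v ∈ Nr (GZ Z) A (i + n) := by
    intro n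
    induction n with
    | zero => exact fun _ _ v hv => hA v hv
    | succ n ih =>
      intro hn hn' v hv
      obtain ⟨u, hu⟩ := hpres (x - n, y) (EN.mem_Rct.2 ⟨by omega, by omega, by omega, by omega⟩)
      refine near_step (ih (by omega) (by omega) u hu) ?_
      rw [hu, hv]
      exact Or.inl ⟨rfl, Or.inr (by simp only; omega)⟩
  rcases le_total x x' with h1 | h1
  · obtain ⟨n, rfl⟩ := Nat.exists_eq_add_of_le h1
    exact Nr_mono _ _ (by omega) (up n (by omega) v hv)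
  · obtain ⟨n, rfl⟩ := Nat.exists_eq_add_of_le h1
    exact Nr_mono _ _ (by omega) (down n (by omega) (by omega) v (by
      rw [hv]
      congr 1
      omega))

/-- the distance in a rectangle -/
def sDist (w : ℕ) : ℕ := 2 * w + (w + 1) * (2 * w + 1)

theorem rct_near {w x₀ y₀ : ℕ} (hw : 1 ≤ w)
    (hpres : ∀ p ∈ EN.Rct w x₀ y₀, ∃ u : WZ Z, vl u.1 = p) {A : Set (WZ Z)} {u v : WZ Z}
    (hu : vl u.1 ∈ EN.Rct w x₀ y₀) (huA : u ∈ A) (hv : vl v.1 ∈ EN.Rct w x₀ y₀) :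
    v ∈ Nr (GZ Z) A (sDist w) := by
  obtain ⟨x, y, hxy⟩ : ∃ x y, vl u.1 = (x, y) := ⟨_, _, rfl⟩
  obtain ⟨x', y', hxy'⟩ : ∃ x y, vl v.1 = (x, y) := ⟨_, _, rfl⟩
  rw [hxy] at hu
  rw [hxy'] at hv
  have row0 : ∀ x', (x', y) ∈ EN.Rct w x₀ y₀ → ∀ v : WZ Z, vl v.1 = (x', y) →
      v ∈ Nr (GZ Z) A (0 + 2 * w) := by
    intro x' hp' v hv
    refine near_row hpres hu ?_ x' hp' v hv
    intro u' hu'
    have h1 : u' = u := Subtype.ext (vl_inj (by rw [hu', hxy]))
    rw [h1]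
    exact huA
  rw [zero_add] at row0
  rw [EN.mem_Rct] at hu hv
  -- the next row
  have nxt : ∀ i y₁ y₂, y₀ ≤ y₁ → y₁ < y₀ + w → y₀ ≤ y₂ → y₂ < y₀ + w →
      (y₁ + 1 = y₂ ∨ y₂ + 1 = y₁) → (∀ x', (x', y₁) ∈ EN.Rct w x₀ y₀ → ∀ v : WZ Z,
        vl v.1 = (x', y₁) → v ∈ Nr (GZ Z) A i) →
      ∀ x', (x', y₂) ∈ EN.Rct w x₀ y₀ → ∀ v : WZ Z, vl v.1 = (x', y₂) →
        v ∈ Nr (GZ Z) A (i + (2 * w + 1)) := by
    intro i y₁ y₂ g1 g2 g3 g4 g5 g6 x' hp' v hv
    obtain ⟨a, ha1, ha2, ha3⟩ : ∃ a, x₀ ≤ a ∧ a < x₀ + 2 * w ∧ (a + min y₁ y₂) % 2 = 0 := by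
      by_cases hpar : (x₀ + min y₁ y₂) % 2 = 0
      · exact ⟨x₀, le_rfl, by omega, hpar⟩
      · exact ⟨x₀ + 1, by omega, by omega, by omega⟩
    have h1 : ∀ u : WZ Z, vl u.1 = (a, y₂) → u ∈ Nr (GZ Z) A (i + 1) := by
      intro u hu
      obtain ⟨t, ht⟩ := hpres (a, y₁) (EN.mem_Rct.2 ⟨ha1, ha2, g1, g2⟩)
      refine near_step (g6 a (EN.mem_Rct.2 ⟨ha1, ha2, g1, g2⟩) t ht) ?_
      rw [hu, ht]
      refine Or.inr ⟨rfl, ?_⟩
      rcases g5 with g5 | g5
      · left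
        refine ⟨g5, ?_⟩
        simp only
        rw [← ha3]
        congr 2
        omega
      · right
        refine ⟨g5, ?_⟩
        simp only
        rw [← ha3]
        congr 2
        omega
    have h2 := near_row hpres (EN.mem_Rct.2 ⟨ha1, ha2, g3, g4⟩) h1 x' hp' v hv
    exact Nr_mono _ _ (by omega) h2
  have all : ∀ n : ℕ, (∀ x', (x', y + n) ∈ EN.Rct w x₀ y₀ → ∀ v : WZ Z, vl v.1 = (x', y + n) →
      v ∈ Nr (GZ Z) A (2 * w + n * (2 * w + 1))) ∧
      (n ≤ y → ∀ x', (x', y - n) ∈ EN.Rct w x₀ y₀ → ∀ v : WZ Z, vl v.1 = (x', y - n) →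
      v ∈ Nr (GZ Z) A (2 * w + n * (2 * w + 1))) := by
    intro n
    induction n with
    | zero =>
      constructor
      · intro x' hp' v hv
        exact Nr_mono _ _ (by omega) (row0 x' hp' v hv)
      · intro _ x' hp' v hv
        exact Nr_mono _ _ (by omega) (row0 x' hp' v hv)
    | succ n ih =>
      have e : 2 * w + (n + 1) * (2 * w + 1) = 2 * w + n * (2 * w + 1) + (2 * w + 1) := by ring
      rw [e]
      constructor
      · intro x' hp' v hv
        have h3 := EN.mem_Rct.1 hp'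
        exact nxt _ (y + n) (y + (n + 1)) (by omega) (by omega) (by omega) (by omega) (by omega)
          ih.1 x' hp' v hv
      · intro hn x' hp' v hv
        have h3 := EN.mem_Rct.1 hp'
        exact nxt _ (y - n) (y - (n + 1)) (by omega) (by omega) (by omega) (by omega) (by omega)
          (ih.2 (by omega)) x' hp' v hv
  have hs : ∀ n, n ≤ w → 2 * w + n * (2 * w + 1) ≤ sDist w := by
    intro n hn
    unfold sDist
    have := Nat.mul_le_mul_right (2 * w + 1) (show n ≤ w + 1 by omega)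
    omega
  rcases le_total y y' with h1 | h1
  · obtain ⟨n, rfl⟩ := Nat.exists_eq_add_of_le h1
    exact Nr_mono _ _ (hs n (by omega)) ((all n).1 x' (EN.mem_Rct.2 hv) v hxy')
  · obtain ⟨n, rfl⟩ := Nat.exists_eq_add_of_le h1
    have e : y' + n - n = y' := by omega
    exact Nr_mono _ _ (hs n (by omega)) ((all n).2 (by omega) x' (by
      rw [e]
      exact EN.mem_Rct.2 hv) v (by rw [e]; exact hxy'))

/-- A rectangle of present vertices outside of `A`. -/
def GoodR (A : Set (WZ Z)) (w : ℕ) (c : ℕ × ℕ) : Prop :=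
  ∀ p ∈ EN.Rct w c.1 c.2, ∃ u : WZ Z, vl u.1 = p ∧ u ∉ A

open Classical in
/-- **Few far vertices, or `q` disjoint rectangles without ports.** -/
theorem far_or_rct {w : ℕ} (hw : 1 ≤ w) (hh : w ≤ h) (q : ℕ) (A : Set (WZ Z)) :
    (∃ c : ℕ → ℕ × ℕ, (∀ i < q, ∀ j < q, i ≠ j →
      Disjoint (EN.Rct w (c i).1 (c i).2) (EN.Rct w (c j).1 (c j).2)) ∧
      ∀ i < q, GoodR A w (c i)) ∨
      ∃ Z' : Finset (WV h), Z ⊆ Z' ∧ (∀ v (hv : v ∉ Z), v ∈ Z' ↔
        (⟨v, hv⟩ : WZ Z) ∉ Nr (GZ Z) A (sDist w)) ∧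
        Z'.card ≤ (8 * w ^ 2 + 1) * Z.card + 18 * w ^ 2 * q := by
  set P : ℕ → Prop := fun q => ∃ c : ℕ → ℕ × ℕ, (∀ i < q, ∀ j < q, i ≠ j →
      Disjoint (EN.Rct w (c i).1 (c i).2) (EN.Rct w (c j).1 (c j).2)) ∧
      ∀ i < q, GoodR A w (c i) with hP
  by_cases hno : P q
  · exact Or.inl hno
  right
  -- a maximal family
  obtain ⟨m, hmq, hm, hm'⟩ : ∃ m < q, P m ∧ ¬ P (m + 1) := by
    have h0 : P 0 := ⟨fun _ => (0, 0), fun i hi => absurd hi (by omega),
      fun i hi => absurd hi (by omega)⟩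
    by_contra hcon
    push Not at hcon
    have : ∀ n, n ≤ q → P n := by
      intro n
      induction n with
      | zero => exact fun _ => h0
      | succ n ih => exact fun hn => hcon n (by omega) (ih (by omega))
    exact hno (this q le_rfl)
  obtain ⟨c, hc1, hc2⟩ := hm
  have hmax : ∀ x₀ y₀, GoodR A w (x₀, y₀) → ∃ i < m, ∃ p ∈ EN.Rct w x₀ y₀,
      p ∈ EN.Rct w (c i).1 (c i).2 := by
    intro x₀ y₀ hg
    by_contra hcon
    push Not at hcon
    have hdj : ∀ i < m, Disjoint (EN.Rct w x₀ y₀) (EN.Rct w (c i).1 (c i).2) := fun i hi =>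
      Set.disjoint_left.2 fun p hp => hcon i hi p hp
    refine hm' ⟨fun i => if i = m then (x₀, y₀) else c i, ?_, ?_⟩
    · intro i hi j hj hij
      by_cases h1 : i = m
      · have h2 : j ≠ m := fun h2 => hij (h1.trans h2.symm)
        simp only [h1, h2, if_true, if_false]
        exact hdj j (by omega)
      · by_cases h2 : j = m
        · simp only [h1, h2, if_true, if_false]
          exact (hdj i (by omega)).symm
        · simp only [h1, h2, if_false]
          exact hc1 i (by omega) j (by omega) hij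
    · intro i hi
      by_cases h1 : i = m
      · simp only [h1, if_true]
        exact hg
      · simp only [h1, if_false]
        exact hc2 i (by omega)
  set F : Finset (WV h) := Finset.univ.filter (fun v => ∃ hv : v ∉ Z,
    (⟨v, hv⟩ : WZ Z) ∉ Nr (GZ Z) A (sDist w)) with hF
  set nb : WV h → Finset (WV h) := fun z => Finset.univ.filter (fun v =>
    (vl v).1 < (vl z).1 + 2 * w ∧ (vl z).1 < (vl v).1 + 2 * w ∧ (vl v).2 < (vl z).2 + w ∧
      (vl z).2 < (vl v).2 + w) with hnb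
  set nc : ℕ → Finset (WV h) := fun i => Finset.univ.filter (fun v =>
    (c i).1 < (vl v).1 + 2 * w ∧ (vl v).1 < (c i).1 + 4 * w ∧ (c i).2 < (vl v).2 + w ∧
      (vl v).2 < (c i).2 + 2 * w) with hnc
  have hcard : ∀ z, (nb z).card ≤ 8 * w ^ 2 := by
    intro z
    have h1 : (nb z).image vl ⊆ (Finset.Ico ((vl z).1 + 1 - 2 * w) ((vl z).1 + 2 * w)) ×ˢ
        (Finset.Ico ((vl z).2 + 1 - w) ((vl z).2 + w)) := by
      intro p hp
      obtain ⟨v, hv, rfl⟩ := Finset.mem_image.1 hp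
      obtain ⟨_, h1, h2, h3, h4⟩ := Finset.mem_filter.1 hv
      rw [Finset.mem_product, Finset.mem_Ico, Finset.mem_Ico]
      omega
    rw [← Finset.card_image_of_injective _ vl_inj]
    refine (Finset.card_le_card h1).trans ?_
    rw [Finset.card_product, Nat.card_Ico, Nat.card_Ico]
    calc _ ≤ (4 * w) * (2 * w) := Nat.mul_le_mul (by omega) (by omega)
      _ = 8 * w ^ 2 := by ring
  have hcard' : ∀ i, (nc i).card ≤ 18 * w ^ 2 := by
    intro i
    have h1 : (nc i).image vl ⊆ (Finset.Ico ((c i).1 + 1 - 2 * w) ((c i).1 + 4 * w)) ×ˢ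
        (Finset.Ico ((c i).2 + 1 - w) ((c i).2 + 2 * w)) := by
      intro p hp
      obtain ⟨v, hv, rfl⟩ := Finset.mem_image.1 hp
      obtain ⟨_, h1, h2, h3, h4⟩ := Finset.mem_filter.1 hv
      rw [Finset.mem_product, Finset.mem_Ico, Finset.mem_Ico]
      omega
    rw [← Finset.card_image_of_injective _ vl_inj]
    refine (Finset.card_le_card h1).trans ?_
    rw [Finset.card_product, Nat.card_Ico, Nat.card_Ico]
    calc _ ≤ (6 * w) * (3 * w) := Nat.mul_le_mul (by omega) (by omega)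
      _ = 18 * w ^ 2 := by ring
  have hsub : F ⊆ Z.biUnion nb ∪ (Finset.range m).biUnion nc := by
    intro v hv
    obtain ⟨_, hvZ, hfar⟩ := Finset.mem_filter.1 hv
    -- the rectangle at `v`
    obtain ⟨x, y, hxy⟩ : ∃ x y, vl v = (x, y) := ⟨_, _, rfl⟩
    have hx : x < 2 * h := by
      have := v.1.2
      have e : v.1.val = x := congrArg Prod.fst hxy
      omega
    have hy : y < 2 * h := by
      have := v.2.2
      have e : v.2.val = y := congrArg Prod.snd hxy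
      omega
    obtain ⟨x₀, hx₀⟩ : ∃ x₀, x₀ = min x (2 * h - 2 * w) := ⟨_, rfl⟩
    obtain ⟨y₀, hy₀⟩ : ∃ y₀, y₀ = min y (2 * h - w) := ⟨_, rfl⟩
    have hvR : vl v ∈ EN.Rct w x₀ y₀ := by
      rw [hxy, EN.mem_Rct]
      omega
    have hbox : ∀ p ∈ EN.Rct w x₀ y₀, ∃ u : WV h, vl u = p := by
      rintro ⟨a, b⟩ hp
      rw [EN.mem_Rct] at hp
      exact ⟨(⟨a, by omega⟩, ⟨b, by omega⟩), rfl⟩
    by_cases hz : ∃ p ∈ EN.Rct w x₀ y₀, ∃ z ∈ Z, vl z = p
    · obtain ⟨⟨a, b⟩, hp, z, hzZ, hzp⟩ := hz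
      refine Finset.mem_union_left _ (Finset.mem_biUnion.2 ⟨z, hzZ,
        Finset.mem_filter.2 ⟨Finset.mem_univ _, ?_⟩⟩)
      rw [hxy, EN.mem_Rct] at hvR
      rw [EN.mem_Rct] at hp
      rw [hxy, hzp]
      simp only
      omega
    · push Not at hz
      have hpres : ∀ p ∈ EN.Rct w x₀ y₀, ∃ u : WZ Z, vl u.1 = p := by
        intro p hp
        obtain ⟨u, hu⟩ := hbox p hp
        exact ⟨⟨u, fun h1 => hz p hp u h1 hu⟩, hu⟩
      have hgood : GoodR A w (x₀, y₀) := by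
        intro p hp
        obtain ⟨u, hu⟩ := hpres p hp
        refine ⟨u, hu, fun huA => ?_⟩
        exact hfar (rct_near hw hpres (u := u) (v := ⟨v, hvZ⟩) (by rw [hu]; exact hp) huA hvR)
      obtain ⟨i, him, ⟨a, b⟩, hp, hp'⟩ := hmax x₀ y₀ hgood
      refine Finset.mem_union_right _ (Finset.mem_biUnion.2 ⟨i, Finset.mem_range.2 him,
        Finset.mem_filter.2 ⟨Finset.mem_univ _, ?_⟩⟩)
      rw [hxy, EN.mem_Rct] at hvR
      rw [EN.mem_Rct] at hp hp'
      rw [hxy]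
      simp only
      omega
  refine ⟨Z ∪ F, Finset.subset_union_left, ?_, ?_⟩
  · intro v hv
    rw [Finset.mem_union, hF, Finset.mem_filter]
    constructor
    · rintro (h1 | ⟨_, _, h2⟩)
      · exact absurd h1 hv
      · exact h2
    · intro h1
      exact Or.inr ⟨Finset.mem_univ _, hv, h1⟩
  · refine (Finset.card_union_le _ _).trans ?_
    have h1 : (Z.biUnion nb).card ≤ Z.card * (8 * w ^ 2) :=
      Finset.card_biUnion_le_card_mul Z nb _ (fun z _ => hcard z)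
    have h2 : ((Finset.range m).biUnion nc).card ≤ m * (18 * w ^ 2) := by
      refine (Finset.card_biUnion_le_card_mul _ nc _ (fun z _ => hcard' z)).trans ?_
      rw [Finset.card_range]
    have h3 : F.card ≤ Z.card * (8 * w ^ 2) + m * (18 * w ^ 2) :=
      (Finset.card_le_card hsub).trans ((Finset.card_union_le _ _).trans (by omega))
    have h4 : m * (18 * w ^ 2) ≤ q * (18 * w ^ 2) := Nat.mul_le_mul_right _ hmq.le
    have e : (8 * w ^ 2 + 1) * Z.card + 18 * w ^ 2 * q =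
      Z.card * (8 * w ^ 2) + q * (18 * w ^ 2) + Z.card := by ring
    omega

end Mdl
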