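import Pool.Agent.EN.Inst
import Pool.Agent.EN.BoundR

/-!
# Instance of the robust bound: `GlueS.Mem2` (row C7 (b) of T-star; helper45)

Grounds are only needed for the floats; a vertex without ground has at most as many connectors as
full columns.
-/

set_option autoImplicit false

open Finset

namespace EN.Inst

open Mdl EN.Mrg

variable {σ X κ : Type*} {Y : Mdl.CSys σ X κ} {sg : ℕ → σ} {S : ℕ}

open scoped Classical in
/-- **Members and edges, robust form.** -/
theorem memb2 {G : SimpleGraph X} (h : Y.Core G) (hall : ∀ k, k ∈ Y.all) {s : ℕ}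
    {rt nx : κ → κ} (hR : Root G Y.ver Y.Pt Y.ct s rt nx) (hE : Enum sg S) [Fintype κ]
    (hne : ∀ y, ∃ k, Y.ver k = y)
    (hc : ∀ y, (∃ k, Y.gr k ∧ Y.ver k = y) ∨ {k | Y.ver k = y}.ncard ≤
      {x : σ × ℕ | x.2 < Y.n x.1 ∧ Y.ver (Y.own x.1 false x.2) = y ∧
        Y.ver (Y.own x.1 true x.2) = y}.ncard) :
    GlueS.Mem2 (lin (mrg Y rt) sg S) (pos (off (fun i => Y.n (sg i)) S)) G
      (fun y k => At Y.ver rt k y) := by
  -- all connectors grounded: the old form
  have h' : CSys.Core { Y with gr := fun _ => True } G :=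
    { fin := h.fin
      mem := h.mem
      ctm := h.ctm
      cts := h.cts
      ct1 := h.ct1
      ctE := h.ctE
      con := h.con
      edg := h.edg
      a1 := h.a1
      a2 := fun _ _ _ _ hg => absurd trivial hg
      a5 := h.a5
      fgr := fun _ _ _ => trivial }
  have hm := memb (Y := { Y with gr := fun _ => True }) h' hall hR hE
    (fun y => by
      obtain ⟨k, hk⟩ := hne y
      exact ⟨k, trivial, hk⟩)
  refine ⟨hm.port, hm.conn, exists_memb hne rt, ?_, ?_, hm.edge⟩
  · intro y z k h1 h2 h3
    exact one h hall hR h1 h2 h3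
  · intro y
    exact cyc h hall hR hE hc y

end EN.Inst
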