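import Pool.Agent.EN.WallEnd
import Pool.Agent.EN.FloatFar
import Pool.Agent.EN.EmbU
import Pool.Agent.EN.Inst2
import Pool.Agent.EN.CoreT
import Pool.Agent.EN.WallJModel

/-!
# The end of module II: a pattern, or many rectangles of floats (row C7 of T-star)
-/

set_option autoImplicit false

open Relation Gad BIC

namespace Mdl

open EN EN.Wall EN.Mrg EN.Inst

section

variable {α Wt V σ : Type*}

/-- A taut system of the host, with joint ground. -/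
structure TautR (M : Matroid α) (S : Set α) (ends : α → Sym2 Wt) (φ : HV V σ → Wt) {h : ℕ}
    {Z : Finset (WV h)} (Y : CSys σ (WZ Z) (Set (HV V σ))) (H : Host V σ) (D K : ℤ) : Prop where
  core : Y.Core (GZ Z)
  conn : Y.Conn H D K
  ne : ∀ y, ∃ k ∈ Y.all, Y.ver k = y
  grm : ∀ k, Y.gr k → k ∈ Y.all
  cnt : ∀ y, (∃ k, Y.gr k ∧ Y.ver k = y) ∨ {k | k ∈ Y.all ∧ Y.ver k = y}.ncard ≤
    {x : σ × ℕ | x.2 < Y.n x.1 ∧ Y.ver (Y.own x.1 false x.2) = y ∧
      Y.ver (Y.own x.1 true x.2) = y}.ncard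
  jnt : ∀ I : Finset (Set (HV V σ)), (∀ k ∈ I, Y.gr k) → JU M S ends I (fun k => φ '' k)
  mod : ∃ g : HV V σ → Option (WZ Z), Model (GZ Z) H D g ∧
    ∀ k ∈ Y.all, ∀ u ∈ k, g u = some (Y.ver k)

lemma nr_empty {X : Type*} (G : SimpleGraph X) (i : ℕ) : Nr G (∅ : Set X) i = ∅ := by
  induction i with
  | zero => rfl
  | succ i ih =>
    show Nr G ∅ i ∪ {y | ∃ z ∈ Nr G ∅ i, G.Adj y z} = ∅
    rw [ih]
    simp

end

universe u v

/-- **A pattern, or `q` disjoint rectangles without ports.** -/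
theorem pat_or_rct (w q N m t : ℕ) (hw : 1 ≤ w) : ∃ c h₀ : ℕ, ∀ h ≥ h₀,
    ∀ {α Wt : Type*} {V : Type u} {σ : Type v} [Finite σ] {M : Matroid α} [M.Finite] {S : Set α}
      {ends : α → Sym2 Wt} {φ : HV V σ → Wt} {Z : Finset (WV h)}
      {Y : CSys σ (WZ Z) (Set (HV V σ))} {H : Host V σ} {D K : ℤ},
      Frm M S ends → Emb S ends H D φ → 2 ≤ K → K ≤ D → TautR M S ends φ Y H D K →
      c * (Nat.card σ + Z.card) ≤ h ^ 2 →
      (∃ c : ℕ → ℕ × ℕ, (∀ i < q, ∀ j < q, i ≠ j →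
        Disjoint (EN.Rct w (c i).1 (c i).2) (EN.Rct w (c j).1 (c j).2)) ∧
        ∀ i < q, GoodR Y.PV w (c i)) ∨
      ∃ (sg : ℕ → σ) (_ : Enum sg (Nat.card σ)) (κ : Type (max u v)) (Y' : EN.Sys κ)
        (B : κ → Set Wt) (col : ℕ → ℕ), Y'.Ax (dB (sDist w)) ∧ Y'.R = 2 * Nat.card σ ∧
        RealU Y' M S ends (Emb.pg φ sg (Nat.card σ) K) (Emb.lo H sg (Nat.card σ))
          (Emb.hi H sg (Nat.card σ)) (K - 2).toNat B col ∧ Y'.Pat N m t := by
  classical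
  set s := sDist w with hs
  have hs1 : 1 ≤ s := by
    rw [hs]
    unfold sDist
    have := Nat.mul_le_mul (show 1 ≤ w + 1 by omega) (show 1 ≤ 2 * w + 1 by omega)
    omega
  obtain ⟨C, M₀, hcore⟩ := Sys.core1.{max u v} (dB s) N m t
  obtain ⟨c, h₀, hend⟩ := EN.GlueS.wall_end.{max u v} (dB s) (max M₀ 1) C ((3 + 1) ^ s)
    (le_max_right _ _) (Nat.one_le_pow _ _ (by norm_num))
  obtain ⟨c', hc', hcc'⟩ : ∃ c', c' = max c 1 ∧ c ≤ c' := ⟨_, rfl, le_max_left _ _⟩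
  refine ⟨2 * c' * (8 * w ^ 2 + 1), max h₀ (max (w + 1) (2 * c' * (18 * w ^ 2 * q))), ?_⟩
  intro h hh α Wt V σ _ M _ S ends φ Z Y H D K hF hE hK hKD hY hcard
  have hh1 : h₀ ≤ h := le_trans (le_max_left _ _) hh
  have hh2 : w + 1 ≤ h := (le_max_left _ _).trans ((le_max_right _ _).trans hh)
  have hh3 : 2 * c' * (18 * w ^ 2 * q) ≤ h := (le_max_right _ _).trans ((le_max_right _ _).trans hh)
  rcases far_or_rct hw (by omega : w ≤ h) q Y.PV with h1 | ⟨Z', hZ, hfar, hZc⟩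
  · exact Or.inl h1
  right
  have hc1 : 1 ≤ c' := by rw [hc']; exact le_max_right _ _
  have hsum : c' * (Nat.card σ + Z'.card) ≤ h ^ 2 := by
    have e1 : c' * (Nat.card σ + Z'.card) ≤
        c' * ((8 * w ^ 2 + 1) * (Nat.card σ + Z.card) + 18 * w ^ 2 * q) := by
      refine Nat.mul_le_mul_left _ ?_
      have e2 : (8 * w ^ 2 + 1) * (Nat.card σ + Z.card) =
        8 * w ^ 2 * Nat.card σ + Nat.card σ + (8 * w ^ 2 + 1) * Z.card := by ring
      omega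
    have e3 : 2 * (c' * ((8 * w ^ 2 + 1) * (Nat.card σ + Z.card) + 18 * w ^ 2 * q)) =
        2 * c' * (8 * w ^ 2 + 1) * (Nat.card σ + Z.card) + 2 * c' * (18 * w ^ 2 * q) := by ring
    have e4 : h ≤ h ^ 2 := Nat.le_self_pow (by norm_num) h
    omega
  have hF1 : Y.FarZ (Wl h) s Z' := ⟨hZ, hfar, hs1⟩
  -- a vertex which is not far
  obtain ⟨v, hv⟩ : ∃ v : WV h, v ∉ Z' := by
    by_contra hcon
    push Not at hcon
    have e1 : Z' = Finset.univ := Finset.eq_univ_iff_forall.2 hcon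
    have e2 : Z'.card = 4 * h ^ 2 := by rw [e1, Finset.card_univ, card_WV]
    have e3 : Z'.card ≤ c' * (Nat.card σ + Z'.card) :=
      (Nat.le_add_left _ _).trans (Nat.le_mul_of_pos_left _ (by omega))
    have e4 : 0 < h ^ 2 := Nat.pow_pos (by omega)
    omega
  have hvZ : v ∉ Z := fun h1 => hv (hZ h1)
  obtain ⟨k₀, hk₀, hk₀v⟩ := hY.ne ⟨v, hvZ⟩
  have hne : Nonempty (KR Y Z') := ⟨⟨k₀, hk₀, by rw [hk₀v]; exact hv⟩⟩
  have hσ : Nonempty σ := by
    have h2 : (⟨v, hvZ⟩ : WZ Z) ∈ Nr (GZ Z) Y.PV s := by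
      have := (hfar v hvZ).not.1 hv
      rwa [not_not] at this
    by_contra hcon
    have h3 : Y.PV = ∅ := by
      ext y
      simp only [Set.mem_empty_iff_false, iff_false]
      rintro ⟨_, ⟨s', _⟩, _⟩
      exact hcon ⟨s'⟩
    rw [h3, nr_empty] at h2
    exact h2
  obtain ⟨sg, hsg⟩ := exists_enum_sheets (σ := σ)
  -- the restricted system
  have hcoreY : Y.Core ((Wl h).comap Subtype.val) := hY.core
  have hall : ∀ k, k ∈ (Y.rst Z' hne).all := fun _ => Set.mem_univ _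
  have hC1 := hcoreY.rst hF1 hne
  have hB1 := hY.conn.rst hcoreY hF1 hne
  have hfinall : Finite Y.all := hcoreY.fin
  have hfin : Finite (KR Y Z') := Finite.of_injective
      (fun k : KR Y Z' => (⟨k.1, k.2.1⟩ : Y.all)) (fun k k' hkk =>
        Subtype.ext (congrArg (fun x : Y.all => x.1) hkk))
  have := Fintype.ofFinite (KR Y Z')
  obtain ⟨rt, nx, hR⟩ := CSys.rst_root hcoreY hF1 hne
  have hdeg : ∀ y : {v : WV h // v ∉ Z'},
      {z | ((Wl h).comap (Subtype.val : {v : WV h // v ∉ Z'} → WV h)).Adj y z}.ncard ≤ 3 :=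
    GZ_degree (Z := Z')
  have hax := ax hC1 hall hR hdeg hsg
  have hpl := place (mrg (Y.rst Z' hne) rt) sg (Nat.card σ)
  have hne1 : ∀ y, ∃ k, (Y.rst Z' hne).ver k = y := by
    intro y
    obtain ⟨k, hk, hky⟩ := hY.ne ⟨y.1, fun h2 => y.2 (hZ h2)⟩
    have e1 : (Y.ver k).1 = y.1 := by rw [hky]
    exact ⟨⟨k, hk, by rw [e1]; exact y.2⟩, Subtype.ext e1⟩
  have hmem := memb2 hC1 hall hR hsg hne1 (CSys.rst_cyc hcoreY hF1 hne hY.grm hY.cnt)
  have hjnt : ∀ I : Finset (KR Y Z'), (∀ k ∈ I, (Y.rst Z' hne).gr k) →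
      JU M S ends I (fun k => φ '' (k : Set (HV V σ))) := by
    intro I hI
    have h2 := hY.jnt (I.image Subtype.val) (by
      intro k hk
      obtain ⟨k', hk', rfl⟩ := Finset.mem_image.1 hk
      exact hI k' hk')
    rwa [JU.image (fun k _ k' _ he => Subtype.ext he)] at h2
  refine ⟨sg, hsg, KR Y Z', lin (mrg (Y.rst Z' hne) rt) sg (Nat.card σ),
    fun k => φ '' BM (fun k : KR Y Z' => (k : Set (HV V σ))) rt k, _, hax, rfl,
    hE.realU hK hKD hsg (hB1.mrg hR) (hB1.juM hF hE (by omega) hR hjnt), ?_⟩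
  by_contra hpat
  refine hend h hh1 (Nat.card σ) (lin (mrg (Y.rst Z' hne) rt) sg (Nat.card σ)) _ Z'
    (fun y k => At (Y.rst Z' hne).ver rt k y) hax (hcore (max M₀ 1) (le_max_left _ _) _ hax hpat)
    le_rfl hpl hmem ?_ ((Nat.mul_le_mul_right _ hcc').trans hsum)
  intro k A₀ hA₀
  obtain ⟨A, hA, hA'⟩ := card_memb hR hdeg k
  exact (Finset.card_le_card fun y hy => hA' y (hA₀ y hy)).trans hA

end Mdl
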