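import Pool.Agent.EN.LinkDef2

/-!
# Joint ground modulo a set of pieces (floats)

`M ／ Q` is a quotient of `M`; the blocks `F i` are jointly unbalanced in `M ／ Q`.  Then the blocks
of `I₂` are jointly unbalanced in `M ／ R`, `R` = the elements inside the blocks of `I₁`.
-/

open Set
open scoped Matroid

namespace EN

open BIC Gad

variable {α V ι : Type*} {M : Matroid α} {S : Set α} {ends : α → Sym2 V}

lemma JU.quot [M.Finite] [DecidableEq ι] {Q R : Set α} (hQ : Q ⊆ M.E) (hQS : Disjoint Q S)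
    (hS : S ⊆ M.E) (hFQ : Frm (M ／ Q) S ends) {I₁ I₂ : Finset ι} {F : ι → Set V}
    (hf : ∀ i ∈ I₁ ∪ I₂, (F i).Finite) (hI : Disjoint I₁ I₂)
    (hdis : ∀ i ∈ I₁, ∀ j ∈ I₂, Disjoint (F i) (F j))
    (hR : R ⊆ ins S ends (⋃ i ∈ I₁, F i)) (hRF : Ufm S ends I₁ F ⊆ R)
    (h : JU (M ／ Q) S ends (I₁ ∪ I₂) F) : JU (M ／ R) S ends I₂ F := by
  have hfin : (M ／ Q).Finite := BQ.fin_contract Q
  have hRS : R ⊆ S := fun e he => (hR he).1
  have hYS : Ufm S ends I₂ F ⊆ S := Ufm_sub _ _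
  rw [JU_def] at h ⊢
  have hdisj : Disjoint R (Ufm S ends I₂ F) := by
    rw [Set.disjoint_left]
    intro e he he'
    obtain ⟨j, hj, h1⟩ := mem_Ufm.1 he'
    obtain ⟨v, hv⟩ := exists_mem_ends ends e
    obtain ⟨i, hi, hvi⟩ := mem_iUnion₂.1 ((hR he).2 v hv)
    exact Set.disjoint_left.1 (hdis i hi j hj) hvi (h1.2 v hv)
  have hE : S ⊆ M.E \ Q := fun e he => ⟨hS he, fun hq => Set.disjoint_left.1 hQS hq he⟩
  -- ranks in `M ／ Q`
  have q1 := BQ.rk_con hQ (X := R) (hRS.trans hE)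
  have q2 := BQ.rk_con hQ (X := Ufm S ends I₂ F ∪ R) ((union_subset hYS hRS).trans hE)
  -- ranks in `M ／ R`
  have q3 := BQ.rk_con (hRS.trans hS) (X := Ufm S ends I₂ F)
    (fun e he => ⟨hS (hYS he), fun hr => Set.disjoint_left.1 hdisj hr he⟩)
  -- the quotient inequality
  have q4 := rk_submod M (Ufm S ends I₂ F ∪ R) (R ∪ Q)
  have q5 : BIC.rk M R ≤ BIC.rk M ((Ufm S ends I₂ F ∪ R) ∩ (R ∪ Q)) :=
    rk_mono M (subset_inter subset_union_right subset_union_left)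
  have q6 : BIC.rk M (Ufm S ends I₂ F ∪ R ∪ Q) ≤
      BIC.rk M (Ufm S ends I₂ F ∪ R ∪ (R ∪ Q)) := by
    refine rk_mono M ?_
    rintro x ((hx | hx) | hx)
    · exact Or.inl (Or.inl hx)
    · exact Or.inl (Or.inr hx)
    · exact Or.inr (Or.inr hx)
  -- the rank of `R` in `M ／ Q`
  have hfu : (⋃ i ∈ I₁, F i).Finite :=
    I₁.finite_toSet.biUnion fun i hi => hf i (Finset.mem_union_left _ hi)
  have q7 : BIC.rk (M ／ Q) R ≤ ∑ i ∈ I₁, (F i).ncard := by
    refine (rk_mono _ hR).trans ((hFQ.rk_ins hfu).trans ?_)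
    have : ∀ J : Finset ι, (⋃ i ∈ J, F i).ncard ≤ ∑ i ∈ J, (F i).ncard := by
      intro J
      induction J using Finset.induction_on with
      | empty => simp
      | insert p D hp ih =>
        rw [Finset.sum_insert hp, Finset.set_biUnion_insert]
        exact (ncard_union_le _ _).trans (by omega)
    exact this I₁
  have q8 : BIC.rk (M ／ Q) (Ufm S ends (I₁ ∪ I₂) F) ≤
      BIC.rk (M ／ Q) (Ufm S ends I₂ F ∪ R) := by
    refine rk_mono _ ?_
    intro e he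
    obtain ⟨i, hi, h1⟩ := mem_Ufm.1 he
    rcases Finset.mem_union.1 hi with hi | hi
    · exact Or.inr (hRF (mem_Ufm.2 ⟨i, hi, h1⟩))
    · exact Or.inl (mem_Ufm.2 ⟨i, hi, h1⟩)
  rw [Finset.sum_union hI] at h
  omega

end EN
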