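import Pool.Agent.EN.Ground
import Pool.Agent.EN.Joint
import Pool.Agent.EN.Pairs
import Pool.Agent.Helper53.BQ.Kge

/-!
# Connectivity from cells which touch the other side (helper88, MP_5165fa_co)

`A ∪ B` a separation.  `FrmU.two_trees`: if the cells are connected by `A` and all of them touch one
connected set of `B`, then the order of the separation is at least the number of cells, minus
`u + 2`.  `FrmU.exits`: a connected set outside of a component of `B` has few disjoint exits to this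
component.  `FrmU.lm_cells`: together.
-/

open Set
open scoped Matroid

namespace EN

open BIC Gad

variable {α V : Type*} {M : Matroid α} {S : Set α} {ends : α → Sym2 V} {u : ℕ}

/-- The order of a separation `(A, E - A)` seen in the vertices `N`; `C` is contracted. -/
theorem FrmU.lam_ge [M.Finite] (hF : FrmU M S ends u) {A C F₁ F₂ : Set α} {N : Set V}
    (hN : N.Finite) (hA : A ⊆ M.E) (hC : M.Indep C)
    (h1 : M.Indep F₁) (h2 : M.Indep F₂) (hF1 : F₁ ⊆ (A ∪ C) ∩ ins S ends N)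
    (hF2 : F₂ ⊆ ((M.E \ A) ∪ C) ∩ ins S ends N) :
    BIC.rk M M.E + F₁.ncard + F₂.ncard ≤
      BIC.rk M A + BIC.rk M (M.E \ A) + C.ncard + N.ncard + u := by
  obtain ⟨Y, hY⟩ : ∃ Y, Y = ins S ends N := ⟨_, rfl⟩
  rw [← hY] at hF1 hF2
  have hYE : Y ⊆ M.E := by
    rw [hY]
    exact fun e he => hF.sub he.1
  have hr : BIC.rk M Y ≤ N.ncard + u := by
    rw [hY]
    exact hF.rk N hN
  have hCf : C.Finite := M.ground_finite.subset hC.subset_ground
  have s1 := rk_submod M A Y
  have s2 := rk_submod M (M.E \ A) (A ∪ Y)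
  have e2 : (M.E \ A) ∩ (A ∪ Y) = Y \ A := by
    ext x
    constructor
    · rintro ⟨⟨_, hx⟩, hx' | hx'⟩
      · exact absurd hx' hx
      · exact ⟨hx', hx⟩
    · rintro ⟨hx, hx'⟩
      exact ⟨⟨hYE hx, hx'⟩, Or.inr hx⟩
  have e3 : (M.E \ A) ∪ (A ∪ Y) = M.E := by
    apply Subset.antisymm
    · exact union_subset sdiff_subset (union_subset hA hYE)
    · intro x hx
      by_cases h : x ∈ A
      · exact Or.inr (Or.inl h)
      · exact Or.inl ⟨hx, h⟩
  rw [e2, e3] at s2
  have c1 := rk_union_le M (X := A ∩ Y) (Y := C \ A) (hCf.subset sdiff_subset)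
  have c2 := rk_union_le M (X := Y \ A) (Y := C ∩ A) (hCf.subset inter_subset_left)
  have c3 : (C ∩ A).ncard + (C \ A).ncard = C.ncard := by
    rw [← ncard_union_eq (Set.disjoint_left.2 fun x hx hx' => hx'.2 hx.2)
      (hCf.subset inter_subset_left) (hCf.subset sdiff_subset), inter_union_sdiff]
  have f1 : F₁.ncard ≤ BIC.rk M ((A ∩ Y) ∪ (C \ A)) := by
    rw [← rk_indep h1]
    refine rk_mono M ?_
    intro x hx
    obtain ⟨hx1, hx2⟩ := hF1 hx
    by_cases h : x ∈ A
    · exact Or.inl ⟨h, hx2⟩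
    · rcases hx1 with hx1 | hx1
      · exact absurd hx1 h
      · exact Or.inr ⟨hx1, h⟩
  have f2 : F₂.ncard ≤ BIC.rk M ((Y \ A) ∪ (C ∩ A)) := by
    rw [← rk_indep h2]
    refine rk_mono M ?_
    intro x hx
    obtain ⟨hx1, hx2⟩ := hF2 hx
    by_cases h : x ∈ A
    · rcases hx1 with hx1 | hx1
      · exact absurd h hx1.2
      · exact Or.inr ⟨hx1, h⟩
    · exact Or.inl ⟨hx2, h⟩
  omega

/-! ### Trees -/

lemma vconn_mono {S S' : Set α} {A : Set V} (h : VConn S ends A) (hS : S ⊆ S') :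
    VConn S' ends A := by
  intro a ha b hb
  have h1 := h a ha b hb
  clear hb
  induction h1 with
  | refl => exact Relation.ReflTransGen.refl
  | tail _ h2 ih =>
    obtain ⟨⟨e, he, hxy⟩, hx, hy⟩ := h2
    exact ih.tail ⟨⟨e, hS he, hxy⟩, hx, hy⟩

/-- A spanning tree which is connected as a set of edges. -/
lemma exists_tree {U : Set V} (hU : U.Finite) (hne : U.Nonempty) (hc : VConn S ends U) :
    ∃ τ, Arb S ends U τ ∧ VConn τ ends U := by
  have key : ∀ n : ℕ, ∀ R, R.Nonempty → R ⊆ U → (U \ R).ncard = n →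
      (∃ τ, Arb S ends R τ ∧ VConn τ ends R) → ∃ τ, Arb S ends U τ ∧ VConn τ ends U := by
    intro n
    induction n with
    | zero =>
      intro R hR1 hR2 hn hex
      have h1 : U \ R = ∅ := by
        rwa [Set.ncard_eq_zero (hU.subset sdiff_subset)] at hn
      have h2 : R = U := Subset.antisymm hR2 (sdiff_eq_empty.1 h1)
      rw [← h2]
      exact hex
    | succ n ih =>
      rintro R ⟨a, ha⟩ hR2 hn ⟨τ, h1, h2⟩
      obtain ⟨b, hb⟩ : (U \ R).Nonempty := by
        rw [Set.nonempty_iff_ne_empty]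
        intro h
        rw [h, Set.ncard_empty] at hn
        omega
      obtain ⟨x, hx, y, hy, ⟨f, hfS, hf⟩, hxU, hyU⟩ := exit (R := R) (hc a (hR2 ha) b hb.1)
        ha hb.2
      have hRy : R ∪ {y} ⊆ U := union_subset hR2 (singleton_subset_iff.2 hyU)
      refine ih (R ∪ {y}) ⟨a, Or.inl ha⟩ hRy ?_ ⟨insert f (τ ∪ ∅), ?_, ?_⟩
      · have h6 : U \ R = insert y (U \ (R ∪ {y})) := by
          ext c
          simp only [mem_sdiff, mem_insert_iff, mem_union, mem_singleton_iff]
          constructor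
          · rintro ⟨h6, h7⟩
            by_cases h8 : c = y
            · exact Or.inl h8
            · exact Or.inr ⟨h6, fun h => h.elim h7 h8⟩
          · rintro (rfl | ⟨h6, h7⟩)
            · exact ⟨hyU, hy⟩
            · exact ⟨h6, fun h => h7 (Or.inl h)⟩
        rw [h6, Set.ncard_insert_of_notMem (by
          rintro ⟨_, h⟩
          exact h (Or.inr rfl)) (hU.subset sdiff_subset)] at hn
        omega
      · exact Arb.join (W₂ := {y}) (τ₂ := ∅) (by
          rw [Set.disjoint_singleton_right]; exact hy) h1 (Arb.single y) hfS hf hx rfl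
      · refine vc_lnk (vconn_mono h2 ?_) (vconn_singleton y) ?_
        · exact subset_union_left.trans (subset_insert _ _)
        · exact ⟨f, mem_insert _ _, x, hx, y, rfl, hf⟩
  obtain ⟨a, ha⟩ := hne
  exact key _ {a} ⟨a, rfl⟩ (singleton_subset_iff.2 ha) rfl ⟨∅, Arb.single a, vconn_singleton a⟩

lemma cn_mono {ι : Type*} [DecidableEq ι] {r r' : ι → ι → Prop} (h : ∀ a b, r a b → r' a b)
    {A : Finset ι} (hA : Mdr.Cn r A) : Mdr.Cn r' A := by
  induction hA with
  | single a => exact Mdr.Cn.single a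
  | join h5 h6 h7 ih1 ih2 =>
    obtain ⟨a, ha, b, hb, hab⟩ := h7
    exact Mdr.Cn.join ih1 ih2 ⟨a, ha, b, hb, h _ _ hab⟩

/-- Spanning trees of disjoint sets. -/
lemma FrmU.forest [M.Finite] (hF : FrmU M S ends u) {ι : Type*} [DecidableEq ι] (J : Finset ι)
    {U : ι → Set V} (hUf : ∀ c ∈ J, (U c).Finite) (hUn : ∀ c ∈ J, (U c).Nonempty)
    (hUc : ∀ c ∈ J, VConn S ends (U c))
    (hUd : ∀ c ∈ J, ∀ c' ∈ J, c ≠ c' → Disjoint (U c) (U c')) :
    ∃ C, M.Indep C ∧ C ⊆ ins S ends (Un U J) ∧ (Un U J).Finite ∧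
      C.ncard + J.card = (Un U J).ncard ∧ ∀ c ∈ J, VConn C ends (U c) := by
  induction J using Finset.induction_on with
  | empty =>
    refine ⟨∅, M.empty_indep, empty_subset _, ?_, ?_, ?_⟩
    · simp [Un]
    · simp [Un]
    · intro c hc
      simp at hc
  | insert a J ha ih =>
    obtain ⟨C, h1, h2, h3, h4, h5⟩ := ih (fun c hc => hUf c (Finset.mem_insert_of_mem hc))
      (fun c hc => hUn c (Finset.mem_insert_of_mem hc))
      (fun c hc => hUc c (Finset.mem_insert_of_mem hc))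
      (fun c hc c' hc' => hUd c (Finset.mem_insert_of_mem hc) c' (Finset.mem_insert_of_mem hc'))
    have haJ := Finset.mem_insert_self a J
    obtain ⟨τ, t1, t2⟩ := exists_tree (hUf a haJ) (hUn a haJ) (hUc a haJ)
    obtain ⟨t3, t4⟩ := arb_ncard (hUf a haJ) t1
    have hdis : Disjoint (U a) (Un U J) := by
      unfold Un
      rw [Set.disjoint_iUnion₂_right]
      intro c hc
      exact hUd a haJ c (Finset.mem_insert_of_mem hc) (fun h => ha (h ▸ hc))
    have hUn' : Un U (insert a J) = U a ∪ Un U J := by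
      unfold Un
      rw [Finset.set_biUnion_insert]
    obtain ⟨b, hb⟩ := hUn a haJ
    have hI : M.Indep (C ∪ τ) := by
      refine hF.indep_arb (hUf a haJ) t1 hb h1 (fun e he => (h2 he).1) ?_
      intro e he v hv hva
      exact absurd ((h2 he).2 v hv) (Set.disjoint_left.1 hdis hva)
    have hd : Disjoint C τ := by
      rw [Set.disjoint_left]
      intro e he he'
      obtain ⟨v, hv⟩ := exists_mem_ends ends e
      exact Set.disjoint_left.1 hdis ((t1.1 he').2 v hv) ((h2 he).2 v hv)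
    have hCf : C.Finite := M.ground_finite.subset h1.subset_ground
    refine ⟨C ∪ τ, hI, ?_, ?_, ?_, ?_⟩
    · rw [hUn']
      exact union_subset (h2.trans (ins_mono subset_union_right))
        (t1.1.trans (ins_mono subset_union_left))
    · rw [hUn']
      exact (hUf a haJ).union h3
    · rw [hUn', Finset.card_insert_of_notMem ha, ncard_union_eq hd hCf t3,
        ncard_union_eq hdis (hUf a haJ) h3]
      omega
    · intro c hc
      rcases Finset.mem_insert.1 hc with rfl | hc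
      · exact vconn_mono t2 subset_union_right
      · exact vconn_mono (h5 c hc) subset_union_left

lemma FrmU.arb_indep [M.Finite] (hF : FrmU M S ends u) {S' : Set α} (hS : S' ⊆ S) {W : Set V}
    (hW : W.Finite) (hne : W.Nonempty) (hc : VConn S' ends W) :
    ∃ F, M.Indep F ∧ F ⊆ ins S' ends W ∧ F.ncard + 1 = W.ncard := by
  obtain ⟨τ, t1, t2⟩ := exists_tree hW hne hc
  obtain ⟨t3, t4⟩ := arb_ncard hW t1
  obtain ⟨b, hb⟩ := hne
  have h1 := (hF.subset hS).indep_arb hW t1 hb M.empty_indep (empty_subset _)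
    (fun e he => absurd he (notMem_empty e))
  rw [empty_union] at h1
  exact ⟨τ, h1, t1.1, t4⟩

/-- **Cells between two connected sides.** -/
theorem FrmU.two_trees [M.Finite] (hF : FrmU M S ends u) {ι : Type*} [DecidableEq ι]
    {J : Finset ι} {U : ι → Set V} (hUf : ∀ c ∈ J, (U c).Finite)
    (hUc : ∀ c ∈ J, VConn S ends (U c))
    (hUd : ∀ c ∈ J, ∀ c' ∈ J, c ≠ c' → Disjoint (U c) (U c')) {A : Set α} (hA : A ⊆ M.E)
    (hAc : Mdr.Cn (fun c c' => Lnk (A ∩ S) ends (U c) (U c')) J) {W : Set V} (hWf : W.Finite)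
    (hW : VConn ((M.E \ A) ∩ S) ends W) (hUW : ∀ c ∈ J, (U c ∩ W).Nonempty) :
    BIC.rk M M.E + J.card ≤ BIC.rk M A + BIC.rk M (M.E \ A) + u + 2 := by
  have hUn : ∀ c ∈ J, (U c).Nonempty := fun c hc => (hUW c hc).mono inter_subset_left
  obtain ⟨C, h1, h2, h3, h4, h5⟩ := hF.forest J hUf hUn hUc hUd
  obtain ⟨c₀, hc₀⟩ := hAc.nonempty
  have hCS : C ⊆ S := fun e he => (h2 he).1
  -- the first tree
  have hX : VConn ((A ∪ C) ∩ S) ends (Un U J) := by
    refine vconn_un (cn_mono ?_ hAc) ?_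
    · rintro a b ⟨e, he, hh⟩
      exact ⟨e, ⟨Or.inl he.1, he.2⟩, hh⟩
    · intro c hc
      exact vconn_mono (h5 c hc) fun e he => ⟨Or.inr he, hCS he⟩
  have hXn : (Un U J).Nonempty := by
    obtain ⟨v, hv⟩ := hUn c₀ hc₀
    exact ⟨v, mem_iUnion₂.2 ⟨c₀, hc₀, hv⟩⟩
  obtain ⟨F₁, f1, f2, f3⟩ := hF.arb_indep inter_subset_right h3 hXn hX
  -- the second tree
  have hN : VConn (((M.E \ A) ∪ C) ∩ S) ends (W ∪ Un U J) := by
    have key : ∀ J' ⊆ J, VConn (((M.E \ A) ∪ C) ∩ S) ends (W ∪ Un U J') := by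
      intro J'
      induction J' using Finset.induction_on with
      | empty =>
        intro _
        have e : W ∪ Un U ∅ = W := by simp [Un]
        rw [e]
        exact vconn_mono hW fun e he => ⟨Or.inl he.1, he.2⟩
      | insert a J' _ ih =>
        intro hJ'
        have haJ : a ∈ J := hJ' (Finset.mem_insert_self a J')
        have h6 := ih (fun c hc => hJ' (Finset.mem_insert_of_mem hc))
        obtain ⟨v, hv, hvW⟩ := hUW a haJ
        have e : W ∪ Un U (insert a J') = (W ∪ Un U J') ∪ U a := by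
          unfold Un
          rw [Finset.set_biUnion_insert, union_comm (U a), union_assoc]
        rw [e]
        exact vc_union h6 (vconn_mono (h5 a haJ) fun e he => ⟨Or.inr he, hCS he⟩)
          (Or.inl hvW) hv
    exact key J (Finset.Subset.refl _)
  have hNf : (W ∪ Un U J).Finite := hWf.union h3
  obtain ⟨F₂, g1, g2, g3⟩ := hF.arb_indep inter_subset_right hNf (hXn.mono subset_union_right) hN
  have hlam := hF.lam_ge (A := A) (C := C) (F₁ := F₁) (F₂ := F₂) (N := W ∪ Un U J) hNf hA h1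
    f1 g1
    (fun e he => ⟨(f2 he).1.1, (f2 he).1.2, fun v hv => Or.inr ((f2 he).2 v hv)⟩)
    (fun e he => ⟨(g2 he).1.1, (g2 he).1.2, (g2 he).2⟩)
  omega

/-- The component of a connected set is connected, finite and closed. -/
lemma comp_closed [M.Finite] {B : Set α} (hB : B ⊆ M.E) {W : Set V} (hWf : W.Finite)
    (hW : VConn B ends W) : ∃ W', W ⊆ W' ∧ W'.Finite ∧ VConn B ends W' ∧
      ∀ x y, GAdj B ends x y → x ∈ W' → y ∈ W' := by
  obtain ⟨W', hW'⟩ : ∃ W' : Set V, W' = {v | ∃ w ∈ W, Relation.ReflTransGen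
    (fun x y => GAdj B ends x y) w v} := ⟨_, rfl⟩
  have hmem : ∀ v, v ∈ W' ↔ ∃ w ∈ W, Relation.ReflTransGen (fun x y => GAdj B ends x y) w v := by
    intro v
    rw [hW']
    rfl
  have hcl : ∀ x y, GAdj B ends x y → x ∈ W' → y ∈ W' := by
    intro x y hxy hx
    obtain ⟨w, hw, hh⟩ := (hmem x).1 hx
    exact (hmem y).2 ⟨w, hw, hh.tail hxy⟩
  have hsub : W ⊆ W' := fun w hw => (hmem w).2 ⟨w, hw, Relation.ReflTransGen.refl⟩
  have hfin : W'.Finite := by
    have h1 : (⋃ e ∈ B, {v : V | v ∈ ends e}).Finite := by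
      refine (M.ground_finite.subset hB).biUnion fun e _ => ?_
      induction ends e using Sym2.ind with
      | _ x y =>
        refine (Set.toFinite ({x, y} : Set V)).subset ?_
        intro v hv
        simpa using hv
    refine (hWf.union h1).subset ?_
    intro v hv
    obtain ⟨w, hw, hh⟩ := (hmem v).1 hv
    rcases Relation.ReflTransGen.cases_tail hh with h2 | ⟨y, _, e, he, hye⟩
    · exact Or.inl (h2 ▸ hw)
    · refine Or.inr (mem_iUnion₂.2 ⟨e, he, ?_⟩)
      change v ∈ ends e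
      rw [hye]
      exact Sym2.mem_mk_right _ _
  have hin : ∀ w ∈ W, ∀ v, Relation.ReflTransGen (fun x y => GAdj B ends x y) w v →
      Relation.ReflTransGen (fun x y => GAdj B ends x y ∧ x ∈ W' ∧ y ∈ W') w v := by
    intro w hw v hh
    induction hh with
    | refl => exact Relation.ReflTransGen.refl
    | @tail b c h1 h2 ih =>
      have hb : b ∈ W' := (hmem b).2 ⟨w, hw, h1⟩
      exact ih.tail ⟨h2, hb, hcl b c h2 hb⟩
  have hsym : ∀ a b, Relation.ReflTransGen (fun x y => GAdj B ends x y ∧ x ∈ W' ∧ y ∈ W') a b →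
      Relation.ReflTransGen (fun x y => GAdj B ends x y ∧ x ∈ W' ∧ y ∈ W') b a := by
    intro a b h
    induction h with
    | refl => exact Relation.ReflTransGen.refl
    | tail _ h2 ih => exact Relation.ReflTransGen.head ⟨h2.1.symm, h2.2.2, h2.2.1⟩ ih
  refine ⟨W', hsub, hfin, ?_, hcl⟩
  intro a ha b hb
  obtain ⟨w, hw, h1⟩ := (hmem a).1 ha
  obtain ⟨w', hw', h2⟩ := (hmem b).1 hb
  exact ((hsym _ _ (hin w hw a h1)).trans (rtg_mono hsub (hW w hw w' hw'))).trans
    (hin w' hw' b h2)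

/-- **Exits.**  A connected set outside of a component of the side `E - A` has few disjoint exits to
this component. -/
theorem FrmU.exits [M.Finite] (hF : FrmU M S ends u) {A : Set α} (hA : A ⊆ M.E) {W : Set V}
    (hWf : W.Finite) (hW : VConn ((M.E \ A) ∩ S) ends W)
    (hcl : ∀ x y, GAdj ((M.E \ A) ∩ S) ends x y → x ∈ W → y ∈ W) {D₀ : Set V}
    (hDf : D₀.Finite) (hD : VConn S ends D₀) (hDn : D₀.Nonempty) (hDW : Disjoint D₀ W) {m : ℕ}
    (hm : 0 < m) (L : Fin m → Set V) (hLf : ∀ i, (L i).Finite) (hL : ∀ i, VConn S ends (L i))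
    (hLD : ∀ i, (L i ∩ D₀).Nonempty) (hLW : ∀ i, (L i ∩ W).Nonempty)
    (hLL : ∀ i j, i ≠ j → Disjoint (L i) (L j)) :
    BIC.rk M M.E + m ≤ BIC.rk M A + BIC.rk M (M.E \ A) + u + 2 := by
  classical
  have h0 : ∀ i, ∃ (R : Set V) (x y a : V) (e : α), R ⊆ L i ∧ VConn S ends R ∧ Disjoint R W ∧
      a ∈ R ∧ a ∈ D₀ ∧ x ∈ R ∧ y ∈ W ∧ y ∈ L i ∧ e ∈ S ∧ ends e = s(x, y) := by
    intro i
    obtain ⟨a, haL, haD⟩ := hLD i
    obtain ⟨b, hbL, hbW⟩ := hLW i
    have haW : a ∉ W := fun h => Set.disjoint_left.1 hDW haD h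
    obtain ⟨R, hR⟩ : ∃ R : Set V, R = {v | Relation.ReflTransGen
      (fun x y => GAdj S ends x y ∧ x ∈ L i \ W ∧ y ∈ L i \ W) a v} := ⟨_, rfl⟩
    have hmem : ∀ v, v ∈ R ↔ Relation.ReflTransGen
        (fun x y => GAdj S ends x y ∧ x ∈ L i \ W ∧ y ∈ L i \ W) a v := by
      intro v
      rw [hR]
      rfl
    have hRL : R ⊆ L i \ W := by
      intro v hv
      rcases Relation.ReflTransGen.cases_tail ((hmem v).1 hv) with h2 | ⟨y, _, _, _, h3⟩
      · rw [h2]
        exact ⟨haL, haW⟩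
      · exact h3
    have haR : a ∈ R := (hmem a).2 Relation.ReflTransGen.refl
    have hin : ∀ v, Relation.ReflTransGen
        (fun x y => GAdj S ends x y ∧ x ∈ L i \ W ∧ y ∈ L i \ W) a v →
        Relation.ReflTransGen (fun x y => GAdj S ends x y ∧ x ∈ R ∧ y ∈ R) a v := by
      intro v hh
      induction hh with
      | refl => exact Relation.ReflTransGen.refl
      | @tail b c h1 h2 ih =>
        exact ih.tail ⟨h2.1, (hmem b).2 h1, (hmem c).2 (h1.tail h2)⟩
    have hsym : ∀ a b, Relation.ReflTransGen (fun x y => GAdj S ends x y ∧ x ∈ R ∧ y ∈ R) a b →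
        Relation.ReflTransGen (fun x y => GAdj S ends x y ∧ x ∈ R ∧ y ∈ R) b a := by
      intro a b h
      induction h with
      | refl => exact Relation.ReflTransGen.refl
      | tail _ h2 ih => exact Relation.ReflTransGen.head ⟨h2.1.symm, h2.2.2, h2.2.1⟩ ih
    have hbR : b ∉ R := fun h => (hRL h).2 hbW
    obtain ⟨x, hx, y, hy, ⟨e, heS, he⟩, hxL, hyL⟩ := exit (R := R) (hL i a haL b hbL) haR hbR
    have hyW : y ∈ W := by
      by_contra hyW
      exact hy ((hmem y).2 (((hmem x).1 hx).tail ⟨⟨e, heS, he⟩, hRL hx, ⟨hyL, hyW⟩⟩))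
    refine ⟨R, x, y, a, e, fun v hv => (hRL hv).1, ?_, ?_, haR, haD, hx, hyW, hyL, heS, he⟩
    · intro p hp q hq
      exact (hsym _ _ (hin p ((hmem p).1 hp))).trans (hin q ((hmem q).1 hq))
    · rw [Set.disjoint_left]
      exact fun v hv => (hRL hv).2
  choose R x y a e hRL hRc hRW haR haD hxR hyW hyL heS he using h0
  -- the connected set
  obtain ⟨D, hDdef⟩ : ∃ D : Set V, D = D₀ ∪ ⋃ i, R i := ⟨_, rfl⟩
  have hDfin : D.Finite := by
    rw [hDdef]
    exact hDf.union (finite_iUnion fun i => (hLf i).subset (hRL i))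
  have hDc : VConn S ends D := by
    have key : ∀ I : Finset (Fin m), VConn S ends (D₀ ∪ ⋃ i ∈ I, R i) := by
      intro I
      induction I using Finset.induction_on with
      | empty => simpa using hD
      | insert b I _ ih =>
        rw [Finset.set_biUnion_insert, union_comm (R b), ← union_assoc]
        exact vc_union ih (hRc b) (Or.inl (haD b)) (haR b)
    have h1 := key Finset.univ
    rw [hDdef]
    simpa using h1
  have hDW' : Disjoint D W := by
    rw [hDdef, Set.disjoint_union_left, Set.disjoint_iUnion_left]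
    exact ⟨hDW, hRW⟩
  have hDn' : D.Nonempty := by
    rw [hDdef]
    exact hDn.mono subset_union_left
  have hxD : ∀ i, x i ∈ D := by
    intro i
    rw [hDdef]
    exact Or.inr (mem_iUnion.2 ⟨i, hxR i⟩)
  have hyD : ∀ i, y i ∉ D := fun i h => Set.disjoint_left.1 hDW' h (hyW i)
  have hyinj : ∀ i j, y i = y j → i = j := by
    intro i j h
    by_contra hne
    exact Set.disjoint_left.1 (hLL i j hne) (hyL i) (h ▸ hyL j)
  have heinj : Function.Injective e := by
    intro i j h
    have h1 : y i ∈ ends (e j) := by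
      rw [← h, he]
      exact Sym2.mem_mk_right _ _
    rw [he j, Sym2.mem_iff] at h1
    rcases h1 with h1 | h1
    · exact absurd (h1 ▸ hxD j) (hyD i)
    · exact hyinj i j h1
  have heA : ∀ i, e i ∈ A := by
    intro i
    by_contra hcon
    have h1 : GAdj ((M.E \ A) ∩ S) ends (y i) (x i) :=
      ⟨e i, ⟨⟨hF.sub (heS i), hcon⟩, heS i⟩, by rw [he, Sym2.eq_swap]⟩
    exact Set.disjoint_left.1 hDW' (hxD i) (hcl _ _ h1 (hyW i))
  -- the contracted tree
  obtain ⟨C, s1, s2⟩ := exists_tree hDfin hDn' hDc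
  obtain ⟨hCf, c3⟩ := arb_ncard hDfin s1
  have c2 : C ⊆ ins S ends D := s1.1
  obtain ⟨d, hd⟩ := hDn'
  have c1 : M.Indep C := by
    have h1 := hF.indep_arb hDfin s1 hd M.empty_indep (empty_subset _)
      (fun e he => absurd he (notMem_empty e))
    rwa [empty_union] at h1
  -- first forest
  have key : ∀ I : Finset (Fin m), M.Indep (C ∪ e '' (I : Set (Fin m))) := by
    intro I
    induction I using Finset.induction_on with
    | empty => simpa using c1
    | insert b I hb ih =>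
      have h1 := hF.leaf ih (union_subset (fun z hz => (c2 hz).1) (by
        rintro _ ⟨i, _, rfl⟩
        exact heS i)) (v := y b) ?_ (heS b) (by rw [he]; exact Sym2.mem_mk_right _ _)
      · rw [Finset.coe_insert, image_insert_eq, union_insert]
        exact h1
      · rintro f (hf | ⟨i, hi, rfl⟩) hyf
        · exact hyD b ((c2 hf).2 _ hyf)
        · rw [he i, Sym2.mem_iff] at hyf
          rcases hyf with h2 | h2
          · exact hyD b (h2 ▸ hxD i)
          · have := hyinj b i h2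
            subst this
            exact hb (Finset.mem_coe.1 hi)
  have hF₁ := key Finset.univ
  have hCe : Disjoint C (e '' ((Finset.univ : Finset (Fin m)) : Set (Fin m))) := by
    rw [Set.disjoint_left]
    rintro z hz ⟨i, _, rfl⟩
    exact hyD i ((c2 hz).2 _ (by rw [he]; exact Sym2.mem_mk_right _ _))
  have hcard : (C ∪ e '' ((Finset.univ : Finset (Fin m)) : Set (Fin m))).ncard = C.ncard + m := by
    rw [ncard_union_eq hCe hCf (toFinite _), ncard_image_of_injective _ heinj,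
      ncard_coe_finset, Finset.card_univ, Fintype.card_fin]
  -- second forest
  have hWn : W.Nonempty := ⟨y ⟨0, hm⟩, hyW _⟩
  obtain ⟨T, t1, t2, t3⟩ := hF.arb_indep (S' := (M.E \ A) ∩ S) inter_subset_right hWf hWn hW
  have hF₂ : M.Indep (T ∪ C) := by
    refine hF.indep_arb hDfin s1 hd t1 (fun z hz => (t2 hz).1.2) ?_
    intro z hz v hv hvD
    exact absurd ((t2 hz).2 v hv) (Set.disjoint_left.1 hDW' hvD)
  have hTC : Disjoint T C := by
    rw [Set.disjoint_left]
    intro z hz hz'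
    obtain ⟨v, hv⟩ := exists_mem_ends ends z
    exact Set.disjoint_left.1 hDW' ((c2 hz').2 v hv) ((t2 hz).2 v hv)
  have hTf : T.Finite := M.ground_finite.subset t1.subset_ground
  have hcard₂ : (T ∪ C).ncard = T.ncard + C.ncard := ncard_union_eq hTC hTf hCf
  have hN : (D ∪ W).ncard = D.ncard + W.ncard := ncard_union_eq hDW' hDfin hWf
  have hlam := hF.lam_ge (A := A) (C := C) (F₁ := C ∪ e '' ((Finset.univ : Finset (Fin m)) :
    Set (Fin m))) (F₂ := T ∪ C) (N := D ∪ W) (hDfin.union hWf) hA c1 hF₁ hF₂ (by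
    rintro z (hz | ⟨i, _, rfl⟩)
    · exact ⟨Or.inr hz, (c2 hz).1, fun v hv => Or.inl ((c2 hz).2 v hv)⟩
    · refine ⟨Or.inl (heA i), heS i, ?_⟩
      intro v hv
      rw [he i, Sym2.mem_iff] at hv
      rcases hv with rfl | rfl
      · exact Or.inl (hxD i)
      · exact Or.inr (hyW i)) (by
    rintro z (hz | hz)
    · exact ⟨Or.inl (t2 hz).1.1, (t2 hz).1.2, fun v hv => Or.inr ((t2 hz).2 v hv)⟩
    · exact ⟨Or.inr hz, (c2 hz).1, fun v hv => Or.inl ((c2 hz).2 v hv)⟩)
  omega

/-- **Many cells, each of them linked to the other side.**  The lanes `L c i` of one cell are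
disjoint, lanes of different cells may cross. -/
theorem FrmU.lm_cells [M.Finite] (hF : FrmU M S ends u) {ι : Type*} [DecidableEq ι]
    {J : Finset ι} {U : ι → Set V} (hUf : ∀ c ∈ J, (U c).Finite)
    (hUc : ∀ c ∈ J, VConn S ends (U c))
    (hUd : ∀ c ∈ J, ∀ c' ∈ J, c ≠ c' → Disjoint (U c) (U c')) {A : Set α} (hA : A ⊆ M.E)
    (hAc : Mdr.Cn (fun c c' => Lnk (A ∩ S) ends (U c) (U c')) J) {W : Set V} (hWf : W.Finite)
    (hW : VConn ((M.E \ A) ∩ S) ends W) {m : ℕ} (hm : 0 < m) (hJ : m ≤ J.card)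
    (L : ι → Fin m → Set V) (hLf : ∀ c ∈ J, ∀ i, (L c i).Finite)
    (hL : ∀ c ∈ J, ∀ i, VConn S ends (L c i)) (hLU : ∀ c ∈ J, ∀ i, (L c i ∩ U c).Nonempty)
    (hLW : ∀ c ∈ J, ∀ i, (L c i ∩ W).Nonempty)
    (hLL : ∀ c ∈ J, ∀ i j, i ≠ j → Disjoint (L c i) (L c j)) :
    BIC.rk M M.E + m ≤ BIC.rk M A + BIC.rk M (M.E \ A) + u + 2 := by
  obtain ⟨W', w1, w2, w3, w4⟩ := comp_closed (M := M) (B := (M.E \ A) ∩ S)
    (fun e he => he.1.1) hWf hW
  by_cases h : ∀ c ∈ J, (U c ∩ W').Nonempty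
  · have h1 := hF.two_trees hUf hUc hUd hA hAc w2 w3 h
    omega
  · push Not at h
    obtain ⟨c, hc, hcW⟩ := h
    refine hF.exits hA w2 w3 w4 (hUf c hc) (hUc c hc) ?_ (Set.disjoint_iff_inter_eq_empty.2 hcW)
      hm (L c) (hLf c hc) (hL c hc) (hLU c hc) ?_ (hLL c hc)
    · obtain ⟨v, _, hv⟩ := hLU c hc ⟨0, hm⟩
      exact ⟨v, hv⟩
    · intro i
      exact (hLW c hc i).mono (inter_subset_inter_right _ w1)

end EN
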