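import Pool.Agent.EN.LinkDef2

/-!
# Grids with joints with certificates (rows F1a, F1b of LINK, helper85)

The proofs of `jgrid_apex` and `jgrid_of` once more; the structure of the contracted set is kept.
-/

open Set
open scoped Matroid

namespace EN

open BIC Gad

section

variable {α V : Type*} {M : Matroid α} {S : Set α} {ends : α → Sym2 V}

/-- `jgrid_apex` with the trees. -/
theorem jcert_apex (hF : Frm M S ends) (δ : ℕ∞) {t : ℕ} (ht : 1 ≤ t)
    (U : ℕ × ℕ → Set V)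
    (Z : Set V) (hZf : Z.Finite)
    (hsp : ∀ W : Set V, W.Finite → W.Nonempty → Z ⊆ W → ∀ F ⊆ ins S ends W, M.Indep F →
      F.encard + δ = W.encard → ins S ends W ⊆ M.closure F)
    (τZ : Set α) (hτZ : τZ ⊆ ins S ends Z ∧ M.Indep τZ ∧ τZ.encard + δ = Z.encard)
    (hUf : ∀ c ∈ Cl t, (U c).Finite)
    (hUc : ∀ c ∈ Cl t, VConn S ends (U c))
    (hUd : ∀ c ∈ Cl t, ∀ c' ∈ Cl t, c ≠ c' → Disjoint (U c) (U c'))
    (hUZ : ∀ c ∈ Cl t, Disjoint (U c) Z)
    (hadj : ∀ c c', Nb t c c' → Lnk S ends (U c) (U c'))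
    (hadjZ : ∀ c ∈ Cl t, Lnk S ends (U c) Z) :
    ∃ (τ : ℕ × ℕ → Set α) (j : ℕ × ℕ → α) (ed : ℕ × ℕ → ℕ × ℕ → α),
      (∀ c ∈ Cl t, Arb S ends (U c) (τ c)) ∧
      (∀ c ∈ Cl t, j c ∈ S ∧ ∃ a ∈ U c, ∃ b ∈ Z, ends (j c) = s(a, b)) ∧
      (∀ c c', Nb t c c' → ed c c' ∈ S ∧ ∃ a ∈ U c, ∃ b ∈ U c', ends (ed c c') = s(a, b)) ∧
      Disjoint (τZ ∪ ⋃ c ∈ ClF t, τ c) (j '' Cl t ∪ {e | ∃ c c', Nb t c c' ∧ e = ed c c'}) ∧
      M.Indep ((τZ ∪ ⋃ c ∈ ClF t, τ c) ∪ j '' Cl t) ∧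
      JGrid (M ／ (τZ ∪ ⋃ c ∈ ClF t, τ c)) (j '' Cl t ∪ {e | ∃ c c', Nb t c c' ∧ e = ed c c'})
        t j ed := by
  classical
  -- joints
  have hj : ∀ c : ℕ × ℕ, ∃ x : α × V × V, c ∈ Cl t → x.1 ∈ S ∧ x.2.1 ∈ U c ∧ x.2.2 ∈ Z ∧
      ends x.1 = s(x.2.1, x.2.2) := by
    intro c
    by_cases hc : c ∈ Cl t
    · obtain ⟨e, he, a, ha, b, hb, hab⟩ := hadjZ c hc
      exact ⟨(e, a, b), fun _ => ⟨he, ha, hb, hab⟩⟩
    · obtain ⟨e, he, a, ha, b, hb, hab⟩ := hadjZ (0, 0) ⟨ht, ht⟩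
      exact ⟨(e, a, b), fun h => absurd h hc⟩
  choose x hx using hj
  obtain ⟨j, hjd⟩ : ∃ j : ℕ × ℕ → α, ∀ c, j c = (x c).1 := ⟨_, fun _ => rfl⟩
  obtain ⟨a, had⟩ : ∃ a : ℕ × ℕ → V, ∀ c, a c = (x c).2.1 := ⟨_, fun _ => rfl⟩
  obtain ⟨b, hbd⟩ : ∃ b : ℕ × ℕ → V, ∀ c, b c = (x c).2.2 := ⟨_, fun _ => rfl⟩
  have hjS : ∀ c ∈ Cl t, j c ∈ S := fun c hc => by rw [hjd]; exact (hx c hc).1
  have haU : ∀ c ∈ Cl t, a c ∈ U c := fun c hc => by rw [had]; exact (hx c hc).2.1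
  have hbZ : ∀ c ∈ Cl t, b c ∈ Z := fun c hc => by rw [hbd]; exact (hx c hc).2.2.1
  have hjab : ∀ c ∈ Cl t, ends (j c) = s(a c, b c) := fun c hc => by
    rw [hjd, had, hbd]; exact (hx c hc).2.2.2
  -- trees
  have hτ : ∀ c : ℕ × ℕ, ∃ τ : Set α, c ∈ Cl t → Arb S ends (U c) τ := by
    intro c
    by_cases hc : c ∈ Cl t
    · obtain ⟨E, _, _, _, h4, _⟩ := grow (hUf c hc) (singleton_subset_iff.2 (haU c hc))
        (singleton_nonempty _) (hUc c hc)
      exact ⟨_, fun _ => h4 ∅ (Arb.single _)⟩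
    · exact ⟨∅, fun h => absurd h hc⟩
  choose τ hτ using hτ
  have hτS : ∀ c ∈ Cl t, τ c ⊆ S := fun c hc e he => ((hτ c hc).1 he).1
  have hUv : ∀ c ∈ Cl t, ∀ c' ∈ Cl t, ∀ v, v ∈ U c → v ∈ U c' → c = c' := by
    intro c hc c' hc' v hv hv'
    by_contra hne
    exact Set.disjoint_left.1 (hUd c hc c' hc' hne) hv hv'
  have hUZv : ∀ c ∈ Cl t, ∀ v, v ∈ U c → v ∉ Z :=
    fun c hc v hv hv' => Set.disjoint_left.1 (hUZ c hc) hv hv'
  set C : Set α := τZ ∪ ⋃ c ∈ ClF t, τ c with hC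
  have hmC : ∀ e, e ∈ C ↔ e ∈ τZ ∨ ∃ c ∈ Cl t, e ∈ τ c := by
    intro e
    rw [hC]
    simp only [mem_union, mem_iUnion, mem_ClF, exists_prop]
  have hCS : C ⊆ S := by
    intro e he
    rcases (hmC e).1 he with h | ⟨c, hc, hec⟩
    · exact (hτZ.1 h).1
    · exact hτS c hc hec
  have hstep : ∀ I : Finset (ℕ × ℕ), (∀ c ∈ I, c ∈ Cl t) →
      M.Indep (τZ ∪ ⋃ c ∈ I, insert (j c) (τ c)) := by
    intro I
    induction I using Finset.induction_on with
    | empty => intro _; simpa using hτZ.2.1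
    | insert d I hd ih =>
      intro hIt
      have h1 := ih (fun c hc => hIt c (Finset.mem_insert_of_mem hc))
      have hdt := hIt d (Finset.mem_insert_self d I)
      have hKS : τZ ∪ ⋃ c ∈ I, insert (j c) (τ c) ⊆ S := by
        refine union_subset (fun e he => (hτZ.1 he).1) ?_
        intro e he
        obtain ⟨c, hc, hec⟩ := mem_iUnion₂.1 he
        have hc' := hIt c (Finset.mem_insert_of_mem hc)
        rcases hec with rfl | hec
        · exact hjS c hc'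
        · exact hτS c hc' hec
      have hKU : ∀ e ∈ τZ ∪ ⋃ c ∈ I, insert (j c) (τ c), ∀ v ∈ ends e, v ∉ U d := by
        rintro e (he | he) v hv hvU
        · exact hUZv d hdt v hvU ((hτZ.1 he).2 v hv)
        · obtain ⟨c, hc, hec⟩ := mem_iUnion₂.1 he
          have hc' := hIt c (Finset.mem_insert_of_mem hc)
          have hne : d ≠ c := by
            rintro rfl; exact hd hc
          rcases hec with rfl | hec
          · rw [hjab c hc'] at hv
            rcases Sym2.mem_iff.1 hv with rfl | rfl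
            · exact hne (hUv d hdt c hc' _ hvU (haU c hc'))
            · exact hUZv d hdt _ hvU (hbZ c hc')
          · exact hne (hUv d hdt c hc' v hvU (((hτ c hc').1 hec).2 v hv))
      have h2 : M.Indep (insert (j d) (τZ ∪ ⋃ c ∈ I, insert (j c) (τ c))) :=
        hF.leaf h1 hKS (v := a d) (fun e he hv => hKU e he _ hv (haU d hdt)) (hjS d hdt)
          (by rw [hjab d hdt]; simp)
      have h3 := hF.indep_arb (hUf d hdt) (hτ d hdt) (haU d hdt) h2
        (insert_subset (hjS d hdt) hKS) ?_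
      · rw [Finset.set_biUnion_insert]
        refine h3.subset ?_
        rintro e (he | (rfl | he) | he)
        · exact Or.inl (Or.inr (Or.inl he))
        · exact Or.inl (Or.inl rfl)
        · exact Or.inr he
        · exact Or.inl (Or.inr (Or.inr he))
      · rintro e (rfl | he) v hv hvU
        · rw [hjab d hdt] at hv
          rcases Sym2.mem_iff.1 hv with h4 | h4
          · exact h4
          · rw [h4] at hvU
            exact absurd (hbZ d hdt) (hUZv d hdt _ hvU)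
        · exact absurd hvU (hKU e he v hv)
  have hfull : M.Indep (C ∪ j '' Cl t) := by
    refine (hstep (ClF t) (fun c hc => mem_ClF.1 hc)).subset ?_
    rintro e (he | ⟨c, hc, rfl⟩)
    · rcases (hmC e).1 he with h | ⟨c, hc, hec⟩
      · exact Or.inl h
      · exact Or.inr (mem_iUnion₂.2 ⟨c, mem_ClF.2 hc, Or.inr hec⟩)
    · exact Or.inr (mem_iUnion₂.2 ⟨c, mem_ClF.2 hc, Or.inl rfl⟩)
  -- the connecting elements
  have hed : ∀ c c' : ℕ × ℕ, ∃ e : α, Nb t c c' → e ∈ S ∧ ∃ a ∈ U c, ∃ b ∈ U c',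
      ends e = s(a, b) := by
    intro c c'
    by_cases h : Nb t c c'
    · obtain ⟨e, he, h1⟩ := hadj c c' h
      exact ⟨e, fun _ => ⟨he, h1⟩⟩
    · exact ⟨j (0, 0), fun h' => absurd h' h⟩
  choose ed hed using hed
  have hjC : ∀ c ∈ Cl t, j c ∉ C := by
    intro c hc h
    rcases (hmC _).1 h with h | ⟨c', hc', h⟩
    · exact hUZv c hc _ (haU c hc) ((hτZ.1 h).2 _ (by rw [hjab c hc]; simp))
    · exact hUZv c' hc' _ (((hτ c' hc').1 h).2 _ (by rw [hjab c hc]; simp)) (hbZ c hc)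
  have hedC : ∀ c c', Nb t c c' → ed c c' ∉ C := by
    intro c c' h hC'
    obtain ⟨_, p, hp, q, hq, hpq⟩ := hed c c' h
    rcases (hmC _).1 hC' with h1 | ⟨c'', hc'', h1⟩
    · exact hUZv c h.1 _ hp ((hτZ.1 h1).2 _ (by rw [hpq]; simp))
    · have h2 := ((hτ c'' hc'').1 h1).2 p (by rw [hpq]; simp)
      have h3 := ((hτ c'' hc'').1 h1).2 q (by rw [hpq]; simp)
      exact h.ne ((hUv c h.1 c'' hc'' p hp h2).trans (hUv c' h.2.1 c'' hc'' q hq h3).symm)
  set S' : Set α := j '' Cl t ∪ {e | ∃ c c', Nb t c c' ∧ e = ed c c'} with hS'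
  have hCi : M.Indep C := hfull.subset subset_union_left
  have hcl : ∀ X e, e ∉ C → e ∈ M.closure (X ∪ C) → e ∈ (M ／ C).closure X := by
    intro X e h1 h2
    rw [M.contract_closure_eq]
    exact ⟨h2, h1⟩
  -- the basic span
  have hspan : ∀ c ∈ Cl t, ∀ c' ∈ Cl t, c ≠ c' → ∀ f ∈ S, ∀ p ∈ U c, ∀ q ∈ U c' ∪ Z,
      ends f = s(p, q) → ins S ends (U c ∪ (U c' ∪ Z)) ⊆ M.closure ({j c', f} ∪ C) := by
    intro c hc c' hc' hne f hfS p hp q hq hpq
    have h1 := tree_joinδ hF (hUf c' hc') (hUZ c' hc') (hτ c' hc') hτZ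
      (hjS c' hc') (haU c' hc') (hbZ c' hc') (hjab c' hc')
    have hdis : Disjoint (U c) (U c' ∪ Z) := by
      rw [Set.disjoint_union_right]
      exact ⟨hUd c hc c' hc' hne, hUZ c hc⟩
    have h2 := tree_joinδ hF (hUf c hc) hdis (hτ c hc) h1 hfS hp hq hpq
    have h3 := hsp _ ((hUf c hc).union ((hUf c' hc').union hZf))
      ⟨_, Or.inl (haU c hc)⟩ (fun v hv => Or.inr (Or.inr hv)) _ h2.1 h2.2.1 h2.2.2
    refine h3.trans (M.closure_subset_closure ?_)
    rintro e ((rfl | (rfl | he) | he) | he)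
    · exact Or.inl (Or.inr rfl)
    · exact Or.inl (Or.inl rfl)
    · exact Or.inr ((hmC e).2 (Or.inl he))
    · exact Or.inr ((hmC e).2 (Or.inr ⟨c', hc', he⟩))
    · exact Or.inr ((hmC e).2 (Or.inr ⟨c, hc, he⟩))
  have hh1 : ∀ c c', Nb t c c' → ed c c' ∈ (M ／ C).closure {j c, j c'} := by
    intro c c' h
    obtain ⟨heS, p, hp, q, hq, hpq⟩ := hed c c' h
    refine hcl _ _ (hedC c c' h) ?_
    rw [pair_comm]
    refine hspan c h.1 c' h.2.1 h.ne (j c) (hjS c h.1) _ (haU c h.1) _ (Or.inr (hbZ c h.1))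
      (hjab c h.1) ⟨heS, fun v hv => ?_⟩
    rw [hpq] at hv
    rcases Sym2.mem_iff.1 hv with rfl | rfl
    · exact Or.inl hp
    · exact Or.inr (Or.inl hq)
  have hh2 : ∀ c ∈ Cl t, ∀ c' ∈ Cl t, c ≠ c' → ∀ f ∈ S, ∀ p ∈ U c, ∀ q ∈ U c',
      ends f = s(p, q) → j c ∈ (M ／ C).closure {j c', f} := by
    intro c hc c' hc' hne f hfS p hp q hq hpq
    refine hcl _ _ (hjC c hc) ?_
    refine hspan c hc c' hc' hne f hfS p hp q (Or.inl hq) hpq ⟨hjS c hc, fun v hv => ?_⟩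
    rw [hjab c hc] at hv
    rcases Sym2.mem_iff.1 hv with rfl | rfl
    · exact Or.inl (haU c hc)
    · exact Or.inr (Or.inr (hbZ c hc))
  refine ⟨τ, j, ed, hτ, fun c hc => ⟨hjS c hc, a c, haU c hc, b c, hbZ c hc, hjab c hc⟩,
    fun c c' h => hed c c' h, ?_, hfull, ?_⟩
  · rw [Set.disjoint_left]
    rintro e he (⟨c, hc, rfl⟩ | ⟨c, c', h, rfl⟩)
    · exact hjC c hc he
    · exact hedC c c' h he
  · refine ⟨?_, ?_, ?_, hh1, ?_, ?_⟩
    · intro c hc c' hc' hcc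
      have h1 : a c ∈ ends (j c') := by rw [← hcc, hjab c hc]; simp
      rw [hjab c' hc'] at h1
      rcases Sym2.mem_iff.1 h1 with h2 | h2
      · exact hUv c hc c' hc' _ (haU c hc) (by rw [h2]; exact haU c' hc')
      · exact absurd (by rw [h2]; exact hbZ c' hc') (hUZv c hc _ (haU c hc))
    · have hind : (M ／ C).Indep (j '' Cl t) := by
        rw [hCi.contract_indep_iff]
        refine ⟨?_, by rw [union_comm]; exact hfull⟩
        rw [Set.disjoint_left]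
        rintro e ⟨c, hc, rfl⟩
        exact hjC c hc
      refine hind.isBasis_of_subset_of_subset_closure subset_union_left ?_
      rintro e (⟨c, hc, rfl⟩ | ⟨c, c', h, rfl⟩)
      · exact (M ／ C).mem_closure_of_mem' ⟨c, hc, rfl⟩ (hind.subset_ground ⟨c, hc, rfl⟩)
      · refine (M ／ C).closure_subset_closure ?_ (hh1 c c' h)
        rintro x (rfl | rfl)
        · exact ⟨c, h.1, rfl⟩
        · exact ⟨c', h.2.1, rfl⟩
    · intro c c' h
      exact Or.inr ⟨c, c', h, rfl⟩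
    · intro c c' h
      obtain ⟨heS, p, hp, q, hq, hpq⟩ := hed c c' h
      exact hh2 c h.1 c' h.2.1 h.ne _ heS p hp q hq hpq
    · intro c c' h
      obtain ⟨heS, p, hp, q, hq, hpq⟩ := hed c c' h
      exact hh2 c' h.2.1 c h.1 h.ne.symm _ heS q hq p hp (by rw [hpq, Sym2.eq_swap])

/-- `jgrid_of` with the trees. -/
theorem jcert_of (hF : Frm M S ends) {t : ℕ} (U Z : ℕ × ℕ → Set V) (τ₀ : ℕ × ℕ → Set α)
    (j : ℕ × ℕ → α) (hUf : ∀ c ∈ Cl t, (U c).Finite) (hZU : ∀ c ∈ Cl t, Z c ⊆ U c)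
    (hUc : ∀ c ∈ Cl t, VConn S ends (U c))
    (hUd : ∀ c ∈ Cl t, ∀ c' ∈ Cl t, c ≠ c' → Disjoint (U c) (U c'))
    (hτ₀ : ∀ c ∈ Cl t, Arb S ends (Z c) (τ₀ c))
    (hj : ∀ c ∈ Cl t, j c ∈ ins S ends (Z c) ∧ j c ∉ τ₀ c)
    (hI : M.Indep (⋃ c ∈ ClF t, insert (j c) (τ₀ c)))
    (hadj : ∀ c c', Nb t c c' → Lnk S ends (U c) (U c')) :
    ∃ (τ : ℕ × ℕ → Set α) (ed : ℕ × ℕ → ℕ × ℕ → α),
      (∀ c ∈ Cl t, Arb S ends (U c) (τ c)) ∧
      (∀ c c', Nb t c c' → ed c c' ∈ S ∧ ∃ a ∈ U c, ∃ b ∈ U c', ends (ed c c') = s(a, b)) ∧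
      Disjoint (⋃ c ∈ ClF t, τ c) (j '' Cl t ∪ {e | ∃ c c', Nb t c c' ∧ e = ed c c'}) ∧
      M.Indep ((⋃ c ∈ ClF t, τ c) ∪ j '' Cl t) ∧
      JGrid (M ／ (⋃ c ∈ ClF t, τ c)) (j '' Cl t ∪ {e | ∃ c c', Nb t c c' ∧ e = ed c c'})
        t j ed := by
  classical
  -- the trees
  have hE : ∀ c : ℕ × ℕ, ∃ E : Set α, c ∈ Cl t → E ⊆ ins S ends (U c) ∧
      Disjoint E (ins S ends (Z c)) ∧ Arb S ends (U c) (τ₀ c ∪ E) ∧
      ∀ K ⊆ S, M.Indep K → (∀ e ∈ K, ∀ v ∈ ends e, v ∈ U c → v ∈ Z c) → M.Indep (K ∪ E) := by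
    intro c
    by_cases hc : c ∈ Cl t
    · obtain ⟨E, h1, h2, _, h4, h5⟩ := grow (hUf c hc) (hZU c hc) (hτ₀ c hc).2.1 (hUc c hc)
      exact ⟨E, fun _ => ⟨h1, h2, h4 _ (hτ₀ c hc), h5 M hF⟩⟩
    · exact ⟨∅, fun h => absurd h hc⟩
  choose E hE using hE
  set τ : ℕ × ℕ → Set α := fun c => τ₀ c ∪ E c with hτdef
  have hτ : ∀ c ∈ Cl t, Arb S ends (U c) (τ c) := fun c hc => (hE c hc).2.2.1
  have hjU : ∀ c ∈ Cl t, j c ∈ ins S ends (U c) := fun c hc => ins_mono (hZU c hc) (hj c hc).1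
  have hjτ : ∀ c ∈ Cl t, j c ∉ τ c := by
    rintro c hc (h | h)
    · exact (hj c hc).2 h
    · exact Set.disjoint_left.1 (hE c hc).2.1 h (hj c hc).1
  have hτS : ∀ c ∈ Cl t, τ c ⊆ S := fun c hc e he => ((hτ c hc).1 he).1
  have hUv : ∀ c ∈ Cl t, ∀ c' ∈ Cl t, ∀ v, v ∈ U c → v ∈ U c' → c = c' := by
    intro c hc c' hc' v hv hv'
    by_contra hne
    exact Set.disjoint_left.1 (hUd c hc c' hc' hne) hv hv'
  have hUe : ∀ c ∈ Cl t, ∀ c' ∈ Cl t, ∀ e, e ∈ ins S ends (U c) → e ∈ ins S ends (U c') →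
      c = c' := by
    intro c hc c' hc' e he he'
    obtain ⟨v, hv⟩ := exists_mem_ends ends e
    exact hUv c hc c' hc' v (he.2 v hv) (he'.2 v hv)
  set C : Set α := ⋃ c ∈ ClF t, τ c with hC
  have hmC : ∀ e, e ∈ C ↔ ∃ c ∈ Cl t, e ∈ τ c := by
    intro e
    rw [hC]
    simp only [mem_iUnion, mem_ClF, exists_prop]
  have hCS : C ⊆ S := by
    intro e he
    obtain ⟨c, hc, hec⟩ := (hmC e).1 he
    exact hτS c hc hec
  have hstep : ∀ I : Finset (ℕ × ℕ), (∀ c ∈ I, c ∈ Cl t) →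
      M.Indep ((⋃ c ∈ ClF t, insert (j c) (τ₀ c)) ∪ ⋃ c ∈ I, E c) := by
    intro I
    induction I using Finset.induction_on with
    | empty => intro _; simpa using hI
    | insert a I ha ih =>
      intro hIt
      have h1 := ih (fun c hc => hIt c (Finset.mem_insert_of_mem hc))
      have hat := hIt a (Finset.mem_insert_self a I)
      have h2 := (hE a hat).2.2.2 _ ?_ h1 ?_
      · rw [Finset.set_biUnion_insert, union_comm (E a), ← union_assoc]
        exact h2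
      · refine union_subset ?_ ?_
        · intro e he
          obtain ⟨c, hc, hec⟩ := mem_iUnion₂.1 he
          have hc' := mem_ClF.1 hc
          rcases hec with rfl | hec
          · exact (hj c hc').1.1
          · exact ((hτ₀ c hc').1 hec).1
        · intro e he
          obtain ⟨c, hc, hec⟩ := mem_iUnion₂.1 he
          exact ((hE c (hIt c (Finset.mem_insert_of_mem hc))).1 hec).1
      · rintro e (he | he) v hv hvU
        · obtain ⟨c, hc, hec⟩ := mem_iUnion₂.1 he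
          have hc' := mem_ClF.1 hc
          have hvZ : v ∈ Z c := by
            rcases hec with rfl | hec
            · exact (hj c hc').1.2 v hv
            · exact ((hτ₀ c hc').1 hec).2 v hv
          rw [hUv a hat c hc' v hvU (hZU c hc' hvZ)]
          exact hvZ
        · obtain ⟨c, hc, hec⟩ := mem_iUnion₂.1 he
          have hc' := hIt c (Finset.mem_insert_of_mem hc)
          have h3 := ((hE c hc').1 hec).2 v hv
          have h4 := hUv a hat c hc' v hvU h3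
          rw [h4] at ha
          exact absurd hc ha
  have hfull : M.Indep (C ∪ j '' Cl t) := by
    refine (hstep (ClF t) (fun c hc => mem_ClF.1 hc)).subset ?_
    rintro e (he | ⟨c, hc, rfl⟩)
    · obtain ⟨c, hc, hec⟩ := (hmC e).1 he
      rcases hec with hec | hec
      · exact Or.inl (mem_iUnion₂.2 ⟨c, mem_ClF.2 hc, Or.inr hec⟩)
      · exact Or.inr (mem_iUnion₂.2 ⟨c, mem_ClF.2 hc, hec⟩)
    · exact Or.inl (mem_iUnion₂.2 ⟨c, mem_ClF.2 hc, Or.inl rfl⟩)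
  -- the connecting elements
  have hed : ∀ c c' : ℕ × ℕ, ∃ e : α, Nb t c c' → e ∈ S ∧ ∃ a ∈ U c, ∃ b ∈ U c',
      ends e = s(a, b) := by
    intro c c'
    by_cases h : Nb t c c'
    · obtain ⟨e, he, h1⟩ := hadj c c' h
      exact ⟨e, fun _ => ⟨he, h1⟩⟩
    · exact ⟨j (0, 0), fun h' => absurd h' h⟩
  choose ed hed using hed
  -- an element touching two different branch sets lies in no tree and is no joint
  have htwo : ∀ c ∈ Cl t, ∀ c' ∈ Cl t, c ≠ c' → ∀ e a b, a ∈ U c → b ∈ U c' →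
      ends e = s(a, b) → ∀ c'' ∈ Cl t, e ∉ ins S ends (U c'') := by
    intro c hc c' hc' hne e a b ha hb hab c'' hc'' he
    have h1 := he.2 a (by rw [hab]; simp)
    have h2 := he.2 b (by rw [hab]; simp)
    exact hne ((hUv c hc c'' hc'' a ha h1).trans (hUv c' hc' c'' hc'' b hb h2).symm)
  have hjC : ∀ c ∈ Cl t, j c ∉ C := by
    intro c hc h
    obtain ⟨c', hc', h1⟩ := (hmC _).1 h
    have h2 := hUe c hc c' hc' _ (hjU c hc) ((hτ c' hc').1 h1)
    rw [← h2] at h1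
    exact hjτ c hc h1
  set S' : Set α := j '' Cl t ∪ {e | ∃ c c', Nb t c c' ∧ e = ed c c'} with hS'
  have hedC : ∀ c c', Nb t c c' → ed c c' ∉ C := by
    intro c c' h hC'
    obtain ⟨_, a, ha, b, hb, hab⟩ := hed c c' h
    obtain ⟨c'', hc'', h1⟩ := (hmC _).1 hC'
    exact htwo c h.1 c' h.2.1 h.ne _ a b ha hb hab c'' hc'' ((hτ c'' hc'').1 h1)
  have hCi : M.Indep C := hfull.subset subset_union_left
  have hcl : ∀ X e, e ∉ C → e ∈ M.closure (X ∪ C) → e ∈ (M ／ C).closure X := by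
    intro X e h1 h2
    rw [M.contract_closure_eq]
    exact ⟨h2, h1⟩
  have hUcard : ∀ c ∈ Cl t, (insert (j c) (τ c)).encard = (U c).encard := by
    intro c hc
    rw [encard_insert_of_notMem (hjτ c hc)]
    exact arb_encard (hτ c hc)
  -- (h1)
  have hh1 : ∀ c c', Nb t c c' → ed c c' ∈ (M ／ C).closure {j c, j c'} := by
    intro c c' h
    obtain ⟨heS, a, ha, b, hb, hab⟩ := hed c c' h
    refine hcl _ _ (hedC c c' h) ?_
    have hdis := hUd c h.1 c' h.2.1 h.ne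
    have h1 : ins S ends (U c ∪ U c') ⊆
        M.closure (insert (j c) (τ c) ∪ insert (j c') (τ c')) := by
      refine hF.span ((hUf c h.1).union (hUf c' h.2.1)) ?_ ?_ ?_
      · refine union_subset (insert_subset ?_ ?_) (insert_subset ?_ ?_)
        · exact ins_mono subset_union_left (hjU c h.1)
        · exact (hτ c h.1).1.trans (ins_mono subset_union_left)
        · exact ins_mono subset_union_right (hjU c' h.2.1)
        · exact (hτ c' h.2.1).1.trans (ins_mono subset_union_right)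
      · refine hfull.subset ?_
        rintro e ((rfl | he) | (rfl | he))
        · exact Or.inr ⟨c, h.1, rfl⟩
        · exact Or.inl ((hmC e).2 ⟨c, h.1, he⟩)
        · exact Or.inr ⟨c', h.2.1, rfl⟩
        · exact Or.inl ((hmC e).2 ⟨c', h.2.1, he⟩)
      · rw [encard_union_eq, encard_union_eq hdis, hUcard c h.1, hUcard c' h.2.1]
        refine (ins_disj (S := S) (ends := ends) hdis).mono ?_ ?_
        · exact insert_subset (hjU c h.1) (hτ c h.1).1
        · exact insert_subset (hjU c' h.2.1) (hτ c' h.2.1).1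
    have h2 : ed c c' ∈ ins S ends (U c ∪ U c') := by
      refine ⟨heS, fun v hv => ?_⟩
      rw [hab] at hv
      rcases Sym2.mem_iff.1 hv with rfl | rfl
      · exact Or.inl ha
      · exact Or.inr hb
    refine M.closure_subset_closure ?_ (h1 h2)
    rintro e ((rfl | he) | (rfl | he))
    · exact Or.inl (Or.inl rfl)
    · exact Or.inr ((hmC e).2 ⟨c, h.1, he⟩)
    · exact Or.inl (Or.inr rfl)
    · exact Or.inr ((hmC e).2 ⟨c', h.2.1, he⟩)
  -- (h2), general form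
  have hh2 : ∀ c ∈ Cl t, ∀ c' ∈ Cl t, c ≠ c' → ∀ f ∈ S, ∀ a ∈ U c, ∀ b ∈ U c',
      ends f = s(a, b) → j c ∈ (M ／ C).closure {j c', f} := by
    intro c hc c' hc' hne f hfS a ha b hb hab
    refine hcl _ _ (hjC c hc) ?_
    have hdis := hUd c hc c' hc' hne
    have hFi : M.Indep (insert (j c') (τ c')) := by
      refine hfull.subset ?_
      rintro e (rfl | he)
      · exact Or.inr ⟨c', hc', rfl⟩
      · exact Or.inl ((hmC e).2 ⟨c', hc', he⟩)
    have hFU : insert (j c') (τ c') ⊆ ins S ends (U c') :=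
      insert_subset (hjU c' hc') (hτ c' hc').1
    have hFa : ∀ e ∈ insert (j c') (τ c'), ∀ v ∈ ends e, v ∉ U c := by
      intro e he v hv hvU
      exact Set.disjoint_left.1 hdis hvU ((hFU he).2 v hv)
    have h3 : M.Indep (insert f (insert (j c') (τ c'))) := by
      refine hF.leaf hFi (hFU.trans (fun e he => he.1)) (v := a) ?_ hfS (by rw [hab]; simp)
      intro e he hae
      exact hFa e he a hae ha
    have h4 : M.Indep (insert f (insert (j c') (τ c')) ∪ τ c) := by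
      refine hF.indep_arb (hUf c hc) (hτ c hc) ha h3
        (insert_subset hfS (hFU.trans (fun e he => he.1))) ?_
      rintro e (rfl | he) v hv hvU
      · rw [hab] at hv
        rcases Sym2.mem_iff.1 hv with h5 | h5
        · exact h5
        · rw [h5] at hvU
          exact absurd hb (Set.disjoint_left.1 hdis hvU)
      · exact absurd hvU (hFa e he v hv)
    have hfF : f ∉ insert (j c') (τ c') := fun h => hFa f h a (by rw [hab]; simp) ha
    have hfd : Disjoint (insert f (insert (j c') (τ c'))) (τ c) := by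
      rw [Set.disjoint_left]
      rintro e (rfl | he) he'
      · exact htwo c hc c' hc' hne _ a b ha hb hab c hc ((hτ c hc).1 he')
      · exact Set.disjoint_left.1 (ins_disj (S := S) (ends := ends) hdis) ((hτ c hc).1 he')
          (hFU he)
    have h5 : ins S ends (U c ∪ U c') ⊆
        M.closure (insert f (insert (j c') (τ c')) ∪ τ c) := by
      refine hF.span ((hUf c hc).union (hUf c' hc')) ?_ h4 ?_
      · refine union_subset (insert_subset ?_ ?_) ?_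
        · refine ⟨hfS, fun v hv => ?_⟩
          rw [hab] at hv
          rcases Sym2.mem_iff.1 hv with rfl | rfl
          · exact Or.inl ha
          · exact Or.inr hb
        · exact hFU.trans (ins_mono subset_union_right)
        · exact (hτ c hc).1.trans (ins_mono subset_union_left)
      · rw [encard_union_eq hfd, encard_insert_of_notMem hfF, hUcard c' hc',
          encard_union_eq hdis, ← arb_encard (hτ c hc)]
        ring
    refine M.closure_subset_closure ?_ (h5 (ins_mono subset_union_left (hjU c hc)))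
    rintro e ((rfl | rfl | he) | he)
    · exact Or.inl (Or.inr rfl)
    · exact Or.inl (Or.inl rfl)
    · exact Or.inr ((hmC e).2 ⟨c', hc', he⟩)
    · exact Or.inr ((hmC e).2 ⟨c, hc, he⟩)
  refine ⟨τ, ed, hτ, fun c c' h => hed c c' h, ?_, hfull, ?_⟩
  · rw [Set.disjoint_left]
    rintro e he (⟨c, hc, rfl⟩ | ⟨c, c', h, rfl⟩)
    · exact hjC c hc he
    · exact hedC c c' h he
  · refine ⟨?_, ?_, ?_, hh1, ?_, ?_⟩
    · intro c hc c' hc' hcc
      exact hUe c hc c' hc' (j c) (hjU c hc) (by rw [hcc]; exact hjU c' hc')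
    · have hind : (M ／ C).Indep (j '' Cl t) := by
        rw [hCi.contract_indep_iff]
        refine ⟨?_, by rw [union_comm]; exact hfull⟩
        rw [Set.disjoint_left]
        rintro e ⟨c, hc, rfl⟩
        exact hjC c hc
      refine hind.isBasis_of_subset_of_subset_closure subset_union_left ?_
      rintro e (⟨c, hc, rfl⟩ | ⟨c, c', h, rfl⟩)
      · exact (M ／ C).mem_closure_of_mem' ⟨c, hc, rfl⟩ (hind.subset_ground ⟨c, hc, rfl⟩)
      · refine (M ／ C).closure_subset_closure ?_ (hh1 c c' h)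
        rintro x (rfl | rfl)
        · exact ⟨c, h.1, rfl⟩
        · exact ⟨c', h.2.1, rfl⟩
    · intro c c' h
      exact Or.inr ⟨c, c', h, rfl⟩
    · intro c c' h
      obtain ⟨heS, a, ha, b, hb, hab⟩ := hed c c' h
      exact hh2 c h.1 c' h.2.1 h.ne _ heS a ha b hb hab
    · intro c c' h
      obtain ⟨heS, a, ha, b, hb, hab⟩ := hed c c' h
      have h1 := hh2 c' h.2.1 c h.1 h.ne.symm _ heS b hb a ha (by rw [hab, Sym2.eq_swap])
      exact h1

lemma Arb.mono_S {S₁ S : Set α} (h : S₁ ⊆ S) {W : Set V} {τ : Set α} (hA : Arb S₁ ends W τ) :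
    Arb S ends W τ := ⟨fun _ he => ⟨h (hA.1 he).1, (hA.1 he).2⟩, hA.2⟩

/-- From the data to the certificate. -/
lemma jc_of {V₀ : Set V} {t : ℕ} {A : ℕ → Set V} {U : ℕ × ℕ → Set V} {τ : ℕ × ℕ → Set α}
    {F : Set α} {j : ℕ × ℕ → α} {ed : ℕ × ℕ → ℕ × ℕ → α}
    (hU : ∀ c ∈ Cl t, (U c).Finite ∧ U c ⊆ V₀)
    (hUd : ∀ c ∈ Cl t, ∀ c' ∈ Cl t, c ≠ c' → Disjoint (U c) (U c'))
    (hτ : ∀ c ∈ Cl t, Arb S ends (U c) (τ c)) (hF : F ⊆ ins S ends V₀)
    (hFU : ∀ e ∈ F, ∀ v ∈ ends e, ∀ c ∈ Cl t, v ∉ U c) (hj : ∀ c ∈ Cl t, j c ∈ ins S ends V₀)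
    (hed : ∀ c c', Nb t c c' → ed c c' ∈ S ∧ ∃ a ∈ U c, ∃ b ∈ U c', ends (ed c c') = s(a, b))
    (hd : Disjoint (F ∪ ⋃ c ∈ ClF t, τ c) (j '' Cl t ∪ {e | ∃ c c', Nb t c c' ∧ e = ed c c'}))
    (hI : M.Indep ((F ∪ ⋃ c ∈ ClF t, τ c) ∪ j '' Cl t))
    (hJ : JGrid (M ／ (F ∪ ⋃ c ∈ ClF t, τ c))
      (j '' Cl t ∪ {e | ∃ c c', Nb t c c' ∧ e = ed c c'}) t j ed)
    (hA : ∀ b < t, A b ⊆ U (0, b)) :
    Jc M S ends V₀ t A (F ∪ ⋃ c ∈ ClF t, τ c)
      (j '' Cl t ∪ {e | ∃ c c', Nb t c c' ∧ e = ed c c'}) j ed := by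
  refine ⟨?_, ?_, hd, hI, hJ, U, τ, F, fun c hc => ⟨(hU c hc).1, (hU c hc).2, hτ c hc⟩, hUd, hF,
    hFU, rfl, hed, hA⟩
  · refine union_subset hF ?_
    intro e he
    obtain ⟨c, hc, hec⟩ := mem_iUnion₂.1 he
    exact ins_mono (hU c (mem_ClF.1 hc)).2 ((hτ c (mem_ClF.1 hc)).1 hec)
  · rintro e (⟨c, hc, rfl⟩ | ⟨c, c', h, rfl⟩)
    · exact hj c hc
    · obtain ⟨h1, a, ha, b, hb, hab⟩ := hed c c' h
      refine ⟨h1, fun v hv => ?_⟩
      rw [hab] at hv
      rcases Sym2.mem_iff.1 hv with rfl | rfl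
      · exact (hU c h.1).2 ha
      · exact (hU c' h.2.1).2 hb

end

variable {α V : Type*}

/-- **Row F1a.** -/
theorem jgrid_crtZ {M : Matroid α} [M.Finite] {S : Set α} {ends : α → Sym2 V} (hF : Frm M S ends)
    {t : ℕ} (ht : 1 ≤ t) {V₀ : Set V} {A : ℕ → Set V} (h : PcZ S ends V₀ t A) :
    ∃ (o : ℕ) (C S' : Set α) (j : ℕ × ℕ → α) (ed : ℕ × ℕ → ℕ × ℕ → α), (o = 0 ∨ o = t) ∧
      Jc M S ends V₀ t (fun b => A (o + b)) C S' j ed := by
  classical
  obtain ⟨U, Z, hZf, hZV, hZc, hU, hUd, hUZ, hadj, hadjZ, hA⟩ := h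
  have hcl : ∀ c ∈ Cl t, c ∈ Cl (2 * t) := by
    rintro c ⟨h1, h2⟩
    exact ⟨by omega, by omega⟩
  have hcl' : ∀ c ∈ Cl t, (c.1, c.2 + t) ∈ Cl (2 * t) := by
    rintro c ⟨h1, h2⟩
    exact ⟨by simp only; omega, by simp only; omega⟩
  have hnb : ∀ c c', Nb t c c' → Nb (2 * t) c c' := by
    rintro c c' ⟨h1, h2, h3⟩
    exact ⟨hcl c h1, hcl c' h2, h3⟩
  have hnb' : ∀ c c', Nb t c c' → Nb (2 * t) (c.1, c.2 + t) (c'.1, c'.2 + t) := by
    rintro c c' ⟨h1, h2, h3⟩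
    refine ⟨hcl' c h1, hcl' c' h2, ?_⟩
    simp only
    omega
  set W₁ : Set V := Z ∪ ⋃ c ∈ ClF t, U c with hW₁
  have hW₁f : W₁.Finite := by
    refine hZf.union ?_
    exact Set.Finite.biUnion (ClF t).finite_toSet (fun c hc => (hU c (hcl c (mem_ClF.1
      (Finset.mem_coe.1 hc)))).1)
  have hW₁V : W₁ ⊆ V₀ := by
    refine union_subset hZV ?_
    intro v hv
    obtain ⟨c, hc, hvc⟩ := mem_iUnion₂.1 hv
    exact (hU c (hcl c (mem_ClF.1 hc))).2.1 hvc
  have hW₁c : VConn S ends W₁ := vconn_star (ClF t) U hZc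
    (fun c hc => (hU c (hcl c (mem_ClF.1 hc))).2.2)
    (fun c hc => hadjZ c (hcl c (mem_ClF.1 hc)))
  have hUW : ∀ c ∈ Cl t, U c ⊆ W₁ := fun c hc v hv =>
    Or.inr (mem_iUnion₂.2 ⟨c, mem_ClF.2 hc, hv⟩)
  set S₁ : Set α := ins S ends W₁ with hS₁
  have hS₁S : S₁ ⊆ S := fun e he => he.1
  have hF₁ : Frm M S₁ ends := hF.mono hS₁S
  by_cases hr : M.eRk S₁ + 1 ≤ W₁.encard
  · have hbal : Bal M S₁ ends := hF₁.bal_of hW₁f (vconn_ins hW₁c (subset_refl _))
      (fun e he v hv => he.2 v hv) hr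
    have hZne : Z.Nonempty := by
      obtain ⟨_, _, _, _, b, hb, _⟩ := hadjZ (0, 0) (hcl _ ⟨ht, ht⟩)
      exact ⟨b, hb⟩
    obtain ⟨τZ, hτZ⟩ : ∃ τZ, Arb S₁ ends Z τZ := by
      obtain ⟨b, hb⟩ := hZne
      obtain ⟨E, _, _, _, h4, _⟩ := grow hZf (singleton_subset_iff.2 hb) (singleton_nonempty b)
        (vconn_ins hZc (W := W₁) subset_union_left)
      exact ⟨_, h4 _ (Arb.single b)⟩
    obtain ⟨τ, j, ed, h1, h2, h3, h4, h5, h6⟩ := jcert_apex hF₁ 1 ht U Z hZf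
      (fun W hW hWne _ G hG hGi hGc => hF₁.span_bal hbal hW hWne hG hGi hGc)
      τZ (arb_spT hF₁ hZf hτZ) (fun c hc => (hU c (hcl c hc)).1)
      (fun c hc => vconn_ins (hU c (hcl c hc)).2.2 (hUW c hc))
      (fun c hc c' hc' hne => hUd c (hcl c hc) c' (hcl c' hc') hne)
      (fun c hc => hUZ c (hcl c hc))
      (fun c c' h => lnk_ins (hadj c c' (hnb c c' h)) (hUW c h.1) (hUW c' h.2.1))
      (fun c hc => lnk_ins (hadjZ c (hcl c hc)) (hUW c hc) subset_union_left)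
    refine ⟨0, _, _, j, ed, Or.inl rfl, jc_of (fun c hc => ⟨(hU c (hcl c hc)).1,
      (hU c (hcl c hc)).2.1⟩) (fun c hc c' hc' hne => hUd c (hcl c hc) c' (hcl c' hc') hne)
      (fun c hc => Arb.mono_S hS₁S (h1 c hc)) ?_ ?_ ?_ ?_ h4 h5 h6 ?_⟩
    · intro e he
      exact ⟨hS₁S (hτZ.1 he).1, fun v hv => hZV ((hτZ.1 he).2 v hv)⟩
    · intro e he v hv c hc hvc
      exact Set.disjoint_left.1 (hUZ c (hcl c hc)) hvc ((hτZ.1 he).2 v hv)
    · intro c hc
      have := (h2 c hc).1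
      exact ⟨this.1, fun v hv => hW₁V (this.2 v hv)⟩
    · intro c c' h
      obtain ⟨g1, g2⟩ := h3 c c' h
      exact ⟨hS₁S g1, g2⟩
    · intro b hb
      simp only [zero_add]
      rw [hA b (by omega)]
  · obtain ⟨F, hFb⟩ := M.exists_isBasis S₁ hF₁.sub
    have h1 : F.encard = W₁.encard := by
      rw [hFb.encard_eq_eRk]
      have h2 := hF.rk W₁
      have h3 : M.eRk S₁ ≠ ⊤ := ne_top_of_le_ne_top hW₁f.encard_lt_top.ne h2
      refine le_antisymm h2 ?_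
      push Not at hr
      exact Order.le_of_lt_add_one hr
    have hd1 : ∀ c ∈ Cl t, ∀ c' ∈ Cl t, c ≠ c' →
        Disjoint (U (c.1, c.2 + t)) (U (c'.1, c'.2 + t)) := by
      intro c hc c' hc' hne
      refine hUd _ (hcl' c hc) _ (hcl' c' hc') (fun h => hne ?_)
      rw [Prod.mk.injEq] at h
      exact Prod.ext h.1 (by omega)
    have hd2 : ∀ c ∈ Cl t, Disjoint (U (c.1, c.2 + t)) W₁ := by
      intro c hc
      rw [hW₁, Set.disjoint_union_right]
      refine ⟨hUZ _ (hcl' c hc), ?_⟩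
      rw [Set.disjoint_iUnion₂_right]
      intro c' hc'
      refine hUd _ (hcl' c hc) _ (hcl c' (mem_ClF.1 hc')) (fun h => ?_)
      have h2 := (mem_ClF.1 hc').2
      rw [← h] at h2
      simp only at h2
      omega
    obtain ⟨τ, j, ed, g1, g2, g3, g4, g5, g6⟩ := jcert_apex hF 0 ht (fun c => U (c.1, c.2 + t)) W₁
      hW₁f (fun W hW _ _ G hG hGi hGc => hF.span hW hG hGi (by rw [← hGc, add_zero])) F
      ⟨hFb.subset, hFb.indep, by rw [h1, add_zero]⟩ (fun c hc => (hU _ (hcl' c hc)).1)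
      (fun c hc => (hU _ (hcl' c hc)).2.2) hd1 hd2 (fun c c' h => hadj _ _ (hnb' c c' h))
      (fun c hc => (hadjZ _ (hcl' c hc)).mono (subset_refl _) (subset_refl _) subset_union_left)
    refine ⟨t, _, _, j, ed, Or.inr rfl, jc_of (U := fun c => U (c.1, c.2 + t))
      (fun c hc => ⟨(hU _ (hcl' c hc)).1, (hU _ (hcl' c hc)).2.1⟩) hd1 g1 ?_ ?_ ?_ g3 g4 g5 g6 ?_⟩
    · intro e he
      exact ⟨(hFb.subset he).1, fun v hv => hW₁V ((hFb.subset he).2 v hv)⟩
    · intro e he v hv c hc hvc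
      exact Set.disjoint_left.1 (hd2 c hc) hvc ((hFb.subset he).2 v hv)
    · intro c hc
      obtain ⟨k1, a, ha, b, hb, hab⟩ := g2 c hc
      refine ⟨k1, fun v hv => ?_⟩
      rw [hab] at hv
      rcases Sym2.mem_iff.1 hv with rfl | rfl
      · exact (hU _ (hcl' c hc)).2.1 ha
      · exact hW₁V hb
    · intro b hb
      simp only
      rw [hA (t + b) (by omega), add_comm t b]

/-- **Row F1b.** -/
theorem jgrid_crtU {M : Matroid α} [M.Finite] {S : Set α} {ends : α → Sym2 V} (hF : Frm M S ends)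
    {t : ℕ} (_ht : 1 ≤ t) {V₀ : Set V} {A : ℕ → Set V} (h : PcU M S ends V₀ t A) :
    ∃ (C S' : Set α) (j : ℕ × ℕ → α) (ed : ℕ × ℕ → ℕ × ℕ → α), Jc M S ends V₀ t A C S' j ed := by
  classical
  obtain ⟨U, Z, τ₀, j, hU, hUd, hτ₀, hj, hI, hadj, hA⟩ := h
  obtain ⟨τ, ed, g1, g3, g4, g5, g6⟩ := jcert_of hF U Z τ₀ j (fun c hc => (hU c hc).1)
    (fun c hc => (hU c hc).2.2.1) (fun c hc => (hU c hc).2.2.2) hUd hτ₀ hj hI hadj
  have e1 : (∅ : Set α) ∪ ⋃ c ∈ ClF t, τ c = ⋃ c ∈ ClF t, τ c := empty_union _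
  refine ⟨_, _, j, ed, jc_of (F := ∅) (fun c hc => ⟨(hU c hc).1, (hU c hc).2.1⟩) hUd g1
    (empty_subset _) (fun e he => absurd he (Set.notMem_empty e)) ?_ g3 (by rw [e1]; exact g4)
    (by rw [e1]; exact g5) (by rw [e1]; exact g6) (fun b hb => by rw [hA b hb])⟩
  intro c hc
  exact ⟨(hj c hc).1.1, fun v hv => (hU c hc).2.1 ((hU c hc).2.2.1 ((hj c hc).1.2 v hv))⟩

end EN
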