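import Pool.Agent.EN.FloatGeo
import Pool.Agent.EN.FloatJU
import Pool.Agent.EN.LinkF1
import Pool.Agent.EN.KtLink

/-!
# Floats: certificates of the squares (J) and the linking to the dual grid (LM)
-/

open Set
open scoped Matroid

namespace EN

open BIC Gad

variable {α V : Type*}

/-- Local coordinates of the square `p`: the row `(0, b)` is on top. -/
def loc (t p : ℕ) (c : ℕ × ℕ) : ℕ × ℕ := (p * t + c.2, t - 1 - c.1)

lemma loc_mem {t p : ℕ} {c : ℕ × ℕ} (hc : c ∈ Cl t) : loc t p c ∈ Pce t p := by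
  obtain ⟨h1, h2⟩ := hc
  show p * t ≤ p * t + c.2 ∧ p * t + c.2 < p * t + t ∧ t - 1 - c.1 < t
  omega

lemma loc_inj {t p : ℕ} {c c' : ℕ × ℕ} (hc : c ∈ Cl t) (hc' : c' ∈ Cl t)
    (h : loc t p c = loc t p c') : c = c' := by
  obtain ⟨h1, h2⟩ := hc
  obtain ⟨h3, h4⟩ := hc'
  unfold loc at h
  rw [Prod.mk.injEq] at h
  exact Prod.ext (by omega) (by omega)

lemma loc_nb {W t p : ℕ} (hp : Pce t p ⊆ Cl W) {c c' : ℕ × ℕ} (h : Nb t c c') :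
    Nb W (loc t p c) (loc t p c') := by
  obtain ⟨h1, h2, h3⟩ := h
  refine ⟨hp (loc_mem h1), hp (loc_mem h2), ?_⟩
  obtain ⟨g1, g2⟩ := h1
  obtain ⟨g3, g4⟩ := h2
  show (p * t + c.2 = p * t + c'.2 ∧ (t - 1 - c.1 + 1 = t - 1 - c'.1 ∨
    t - 1 - c'.1 + 1 = t - 1 - c.1)) ∨ (t - 1 - c.1 = t - 1 - c'.1 ∧
    (p * t + c.2 + 1 = p * t + c'.2 ∨ p * t + c'.2 + 1 = p * t + c.2))
  omega

lemma loc_surj {t p : ℕ} {d : ℕ × ℕ} (hd : d ∈ Pce t p) : ∃ c ∈ Cl t, loc t p c = d := by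
  obtain ⟨a, b⟩ := d
  rw [mem_Pce] at hd
  refine ⟨(t - 1 - b, a - p * t), ⟨?_, ?_⟩, ?_⟩
  · simp only
    omega
  · simp only
    omega
  · unfold loc
    rw [Prod.mk.injEq]
    simp only
    omega

/-- The certificate of a square. -/
def FCr (S : Set α) (ends : α → Sym2 V) (G : ℕ × ℕ → Set V) (t p : ℕ) (C : Set α)
    (ed : ℕ × ℕ → ℕ × ℕ → α) : Prop :=
  Crt S ends (UG G (Pce t p)) (fun b => G (loc t p (0, b))) t C ed ∧
    ∀ c c', Nb t c c' → ed c c' ∈ S ∧ ∃ a ∈ G (loc t p c), ∃ b ∈ G (loc t p c'),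
      ends (ed c c') = s(a, b)

/-- The blocks of a square. -/
def Bk (x₀ y₀ t p : ℕ) : Finset (ℕ × ℕ) :=
  (ClF t).image (fun c => (x₀ + 2 * (loc t p c).1, y₀ + (loc t p c).2)) ∪
    (ClF t).image (fun c => (x₀ + 2 * (loc t p c).1 + 1, y₀ + (loc t p c).2))

lemma mem_Bk {x₀ y₀ t p : ℕ} {i : ℕ × ℕ} : i ∈ Bk x₀ y₀ t p ↔ ∃ d ∈ Pce t p,
    i = (x₀ + 2 * d.1, y₀ + d.2) ∨ i = (x₀ + 2 * d.1 + 1, y₀ + d.2) := by
  unfold Bk
  rw [Finset.mem_union, Finset.mem_image, Finset.mem_image]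
  constructor
  · rintro (⟨c, hc, rfl⟩ | ⟨c, hc, rfl⟩)
    · exact ⟨_, loc_mem (mem_ClF.1 hc), Or.inl rfl⟩
    · exact ⟨_, loc_mem (mem_ClF.1 hc), Or.inr rfl⟩
  · rintro ⟨d, hd, h⟩
    obtain ⟨c, hc, rfl⟩ := loc_surj hd
    rcases h with h | h
    · exact Or.inl ⟨c, mem_ClF.2 hc, h.symm⟩
    · exact Or.inr ⟨c, mem_ClF.2 hc, h.symm⟩

section

variable {M : Matroid α} {S : Set α} {ends : α → Sym2 V}

/-- **(J) for floats.** -/
theorem float_J [M.Finite] {Q : Set α} (hQ : Q ⊆ M.E) (hQS : Disjoint Q S) (hS : S ⊆ M.E)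
    (hFQ : Frm (M ／ Q) S ends) {B : ℕ × ℕ → Set V} {W x₀ y₀ t n : ℕ} (ht : 1 ≤ t)
    (hWn : n * t ≤ W) (hWt : t ≤ W)
    (fin : ∀ p ∈ Rct W x₀ y₀, (B p).Finite) (ne : ∀ p ∈ Rct W x₀ y₀, (B p).Nonempty)
    (con : ∀ p ∈ Rct W x₀ y₀, VConn S ends (B p))
    (dis : ∀ p ∈ Rct W x₀ y₀, ∀ q ∈ Rct W x₀ y₀, p ≠ q → Disjoint (B p) (B q))
    (cnt : ∀ p ∈ Rct W x₀ y₀, ∀ q ∈ Rct W x₀ y₀, Iso.WAdj p q → Lnk S ends (B p) (B q))
    (ju : ∀ I : Finset (ℕ × ℕ), (∀ p ∈ I, p ∈ Rct W x₀ y₀) → JU (M ／ Q) S ends I B)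
    {I : Finset ℕ} (hI : ∀ p ∈ I, p < n) {D : Finset ℕ} (hD : D ⊆ I)
    (hex : ExD M S ends I (fun p => UG (cel B x₀ y₀) (Pce t p)) D)
    (hF : ∃ u, FrmU M S ends u) (hpc : Pcs S ends I (fun p => UG (cel B x₀ y₀) (Pce t p)))
    {p : ℕ} (hp : p ∈ I) (hpD : p ∉ D) :
    ∃ C S' j ed, FCr S ends (cel B x₀ y₀) t p C ed ∧
      C ⊆ ins S ends (UG (cel B x₀ y₀) (Pce t p)) ∧
      S' ⊆ ins S ends (UG (cel B x₀ y₀) (Pce t p)) ∧ Disjoint C S' ∧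
      (M ／ Ufm S ends D (fun p => UG (cel B x₀ y₀) (Pce t p))).Indep (C ∪ j '' Cl t) ∧
      JGrid (M ／ Ufm S ends D (fun p => UG (cel B x₀ y₀) (Pce t p)) ／ C) S' t j ed := by
  classical
  obtain ⟨u, hF⟩ := hF
  set G := cel B x₀ y₀ with hG
  have hgr : CGr S ends W G := cel_cgr fin ne con dis cnt
  set V₀ : ℕ → Set V := fun p => UG G (Pce t p) with hV₀
  have hpce : ∀ q ∈ I, Pce t q ⊆ Cl W := by
    intro q hq
    exact pce_sub (K := 0) hWn (by omega) (hI q hq)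
  set R := Ufm S ends D V₀ with hR
  set Sp := ins S ends (V₀ p) with hSp
  have hSpS : Sp ⊆ S := fun e he => he.1
  have hUp : Ufm S ends {p} V₀ = Sp := by
    ext e
    rw [mem_Ufm]
    simp [hSp]
  have hfinR : (M ／ R).Finite := BQ.fin_contract R
  have hFp : Frm (M ／ R) Sp ends := by
    have h1 := hex.frm hF hpc hD (P := {p}) (Finset.singleton_subset_iff.2 hp)
      (Finset.disjoint_singleton_left.2 hpD)
    rw [hUp] at h1
    exact h1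
  -- blocks
  have hbk : ∀ q ∈ I, ∀ i ∈ Bk x₀ y₀ t q, i ∈ Rct W x₀ y₀ ∧ B i ⊆ V₀ q := by
    intro q hq i hi
    obtain ⟨d, hd, h⟩ := mem_Bk.1 hi
    have hdW := hpce q hq hd
    rcases h with rfl | rfl
    · exact ⟨rct_L hdW, fun v hv => mem_UG.2 ⟨d, hd, Or.inl hv⟩⟩
    · exact ⟨rct_R hdW, fun v hv => mem_UG.2 ⟨d, hd, Or.inr hv⟩⟩
  have hcov : ∀ q, V₀ q ⊆ ⋃ i ∈ Bk x₀ y₀ t q, B i := by
    intro q v hv
    obtain ⟨d, hd, hv⟩ := mem_UG.1 hv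
    rcases hv with hv | hv
    · exact mem_iUnion₂.2 ⟨_, mem_Bk.2 ⟨d, hd, Or.inl rfl⟩, hv⟩
    · exact mem_iUnion₂.2 ⟨_, mem_Bk.2 ⟨d, hd, Or.inr rfl⟩, hv⟩
  have hne : ∀ q ∈ D, ∀ i ∈ Bk x₀ y₀ t q, ∀ j ∈ Bk x₀ y₀ t p, i ≠ j := by
    rintro q hq i hi j hj rfl
    obtain ⟨d, hd, h⟩ := mem_Bk.1 hi
    obtain ⟨d', hd', h'⟩ := mem_Bk.1 hj
    have h1 : d = d' := by
      rcases h with rfl | rfl <;> rcases h' with h' | h' <;>
      · rw [Prod.mk.injEq] at h'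
        exact Prod.ext (by omega) (by omega)
    have hqp : q ≠ p := fun h => hpD (h ▸ hq)
    exact Set.disjoint_left.1 (pce_dis hqp.symm) hd (h1 ▸ hd')
  set I₁ : Finset (ℕ × ℕ) := D.biUnion (fun q => Bk x₀ y₀ t q) with hI₁
  have hmI₁ : ∀ i, i ∈ I₁ ↔ ∃ q ∈ D, i ∈ Bk x₀ y₀ t q := by
    intro i
    rw [hI₁, Finset.mem_biUnion]
  have hall : ∀ i ∈ I₁ ∪ Bk x₀ y₀ t p, i ∈ Rct W x₀ y₀ := by
    intro i hi
    rcases Finset.mem_union.1 hi with hi | hi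
    · obtain ⟨q, hq, hi⟩ := (hmI₁ i).1 hi
      exact (hbk q (hD hq) i hi).1
    · exact (hbk p hp i hi).1
  have hju : JU (M ／ R) S ends (Bk x₀ y₀ t p) B := by
    refine JU.quot hQ hQS hS hFQ (I₁ := I₁) (fun i hi => fin i (hall i hi)) ?_ ?_ ?_ ?_
      (ju _ hall)
    · rw [Finset.disjoint_left]
      intro i hi hi'
      obtain ⟨q, hq, hi⟩ := (hmI₁ i).1 hi
      exact hne q hq i hi i hi' rfl
    · intro i hi j hj
      have h1 := hall i (Finset.mem_union_left _ hi)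
      have h2 := hall j (Finset.mem_union_right _ hj)
      obtain ⟨q, hq, hi⟩ := (hmI₁ i).1 hi
      exact dis i h1 j h2 (hne q hq i hi j hj)
    · intro e he
      obtain ⟨q, hq, he⟩ := mem_Ufm.1 he
      refine ⟨he.1, fun v hv => ?_⟩
      obtain ⟨i, hi, hvi⟩ := mem_iUnion₂.1 (hcov q (he.2 v hv))
      exact mem_iUnion₂.2 ⟨i, (hmI₁ i).2 ⟨q, hq, hi⟩, hvi⟩
    · intro e he
      obtain ⟨i, hi, he⟩ := mem_Ufm.1 he
      obtain ⟨q, hq, hi⟩ := (hmI₁ i).1 hi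
      exact mem_Ufm.2 ⟨q, hq, ins_mono (hbk q (hD hq) i hi).2 he⟩
  have hju2 : JU (M ／ R) Sp ends (Bk x₀ y₀ t p) B := by
    rw [JU_def] at hju ⊢
    refine hju.trans (rk_mono _ ?_)
    intro e he
    obtain ⟨i, hi, he⟩ := mem_Ufm.1 he
    exact mem_Ufm.2 ⟨i, hi, ⟨he.1, fun v hv => (hbk p hp i hi).2 (he.2 v hv)⟩, he.2⟩
  -- the left blocks
  set Lb : ℕ × ℕ → ℕ × ℕ := fun c => (x₀ + 2 * (loc t p c).1, y₀ + (loc t p c).2) with hLb
  have hLbk : ∀ c ∈ Cl t, Lb c ∈ Bk x₀ y₀ t p := fun c hc =>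
    mem_Bk.2 ⟨_, loc_mem hc, Or.inl rfl⟩
  have hLinj : ∀ c ∈ Cl t, ∀ c' ∈ Cl t, Lb c = Lb c' → c = c' := by
    intro c hc c' hc' h
    refine loc_inj (p := p) hc hc' ?_
    rw [hLb] at h
    simp only [Prod.mk.injEq] at h
    exact Prod.ext (by omega) (by omega)
  have hju3 : JU (M ／ R) Sp ends (ClF t) (fun c => B (Lb c)) := by
    have h1 : JU (M ／ R) Sp ends ((ClF t).image Lb) B := by
      refine hju2.restr hFp (fun i hi => fin i (hbk p hp i hi).1) ?_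
      intro i hi
      obtain ⟨c, hc, rfl⟩ := Finset.mem_image.1 hi
      exact hLbk c (mem_ClF.1 hc)
    rwa [JU.image] at h1
    intro c hc c' hc' h
    exact hLinj c (mem_ClF.1 hc) c' (mem_ClF.1 hc') h
  have hI0 : (ClF t).Nonempty := ⟨(0, 0), mem_ClF.2 ⟨ht, ht⟩⟩
  have hLr : ∀ c ∈ Cl t, Lb c ∈ Rct W x₀ y₀ := fun c hc => (hbk p hp _ (hLbk c hc)).1
  obtain ⟨τ₀, j, t1, t2, t3⟩ := hju3.joints hFp hI0 (fun c hc => fin _ (hLr c (mem_ClF.1 hc)))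
    (fun c hc => ne _ (hLr c (mem_ClF.1 hc)))
    (fun c hc => vconn_ins (con _ (hLr c (mem_ClF.1 hc))) (hbk p hp _ (hLbk c (mem_ClF.1 hc))).2)
    (fun c hc c' hc' hcc => dis _ (hLr c (mem_ClF.1 hc)) _ (hLr c' (mem_ClF.1 hc')) fun h =>
      hcc (hLinj c (mem_ClF.1 hc) c' (mem_ClF.1 hc') h))
  -- the picture
  have hcW : ∀ c ∈ Cl t, loc t p c ∈ Cl W := fun c hc => hpce p hp (loc_mem hc)
  have hGV : ∀ c ∈ Cl t, G (loc t p c) ⊆ V₀ p := fun c hc v hv =>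
    mem_UG.2 ⟨_, loc_mem hc, hv⟩
  have hGd : ∀ c ∈ Cl t, ∀ c' ∈ Cl t, c ≠ c' → Disjoint (G (loc t p c)) (G (loc t p c')) :=
    fun c hc c' hc' hcc => hgr.dis _ (hcW c hc) _ (hcW c' hc') fun h => hcc (loc_inj hc hc' h)
  obtain ⟨τ, ed, g1, g3, g4, g5, g6⟩ := jcert_of hFp (fun c => G (loc t p c)) (fun c => B (Lb c))
    τ₀ j (fun c hc => hgr.fin _ (hcW c hc)) (fun c hc v hv => Or.inl hv)
    (fun c hc => vconn_ins (hgr.con _ (hcW c hc)) (hGV c hc)) hGd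
    (fun c hc => t1 c (mem_ClF.2 hc)) (fun c hc => t2 c (mem_ClF.2 hc)) t3
    (fun c c' h => lnk_ins (hgr.adj _ _ (loc_nb (hpce p hp) h)) (hGV c h.1) (hGV c' h.2.1))
  have e1 : (∅ : Set α) ∪ ⋃ c ∈ ClF t, τ c = ⋃ c ∈ ClF t, τ c := empty_union _
  have hJc := jc_of (S := Sp) (V₀ := V₀ p) (A := fun b => G (loc t p (0, b))) (F := ∅)
    (M := M ／ R) (U := fun c => G (loc t p c)) (τ := τ) (j := j) (ed := ed) (t := t)
    (fun c hc => ⟨hgr.fin _ (hcW c hc), hGV c hc⟩) hGd g1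
    (empty_subset _) (fun e he => absurd he (Set.notMem_empty e))
    (fun c hc => ⟨(t2 c (mem_ClF.2 hc)).1.1, fun v hv => hGV c hc
      (Or.inl ((t2 c (mem_ClF.2 hc)).1.2 v hv))⟩) g3 (by rw [e1]; exact g4)
    (by rw [e1]; exact g5) (by rw [e1]; exact g6) (fun b hb => subset_refl _)
  have hinsp : ins Sp ends (V₀ p) ⊆ ins S ends (V₀ p) := fun e he => ⟨hSpS he.1, he.2⟩
  obtain ⟨hC, hS', hdj, hind, hjg, U, τ', F, c1, c2, c3, c4, c5, c6, c7⟩ := hJc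
  refine ⟨_, _, j, ed, ⟨⟨U, τ', F, fun c hc => ⟨(c1 c hc).1, (c1 c hc).2.1,
    Arb.mono_S hSpS (c1 c hc).2.2⟩, c2, c3.trans hinsp, c4, c5, fun c c' h =>
      ⟨hSpS (c6 c c' h).1, (c6 c c' h).2⟩, c7⟩, fun c c' h => ⟨hSpS (g3 c c' h).1, (g3 c c' h).2⟩⟩,
    hC.trans hinsp, hS'.trans hinsp, hdj, hind, hjg⟩

/-- **(LM) for floats.** -/
theorem float_LM [M.Finite] {Sf Q : Set α} {u K₂ e₁ : ℕ} (hSf : S ⊆ Sf) (hF : FrmU M Sf ends u)
    {B : ℕ × ℕ → Set V} {W x₀ y₀ t : ℕ} (htK : K₂ + u + 2 ≤ t) (hte : e₁ < t)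
    (hgr : CGr S ends W (cel B x₀ y₀))
    (hal : ∀ X ⊆ M.E, Disjoint X Q → BIC.rk M X + BIC.rk M (M.E \ X) < BIC.rk M M.E + K₂ →
      ∃ (VB : Set V) (B' : Set α), VB.Finite ∧ B' ⊆ ins Sf ends VB ∧ VConn B' ends VB ∧
        Disjoint B' X ∧ {p | p ∈ Rct W x₀ y₀ ∧ Disjoint (B p) VB}.ncard ≤ e₁)
    {p : ℕ} (hp : Pce t p ⊆ Cl W) {C : Set α} {ed : ℕ × ℕ → ℕ × ℕ → α}
    (h : FCr S ends (cel B x₀ y₀) t p C ed) : KGe M (Eds t ed) Q K₂ := by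
  classical
  intro X hX hXQ
  by_contra hcon
  push Not at hcon
  have hXE : X ⊆ M.E := hXQ.trans sdiff_subset
  have hXd : Disjoint X Q := Set.disjoint_left.2 fun x hx hq => (hXQ hx).2 hq
  obtain ⟨VB, B', v1, v2, v3, v4, v5⟩ := hal X hXE hXd (by omega)
  have hcW : ∀ c ∈ Cl t, loc t p c ∈ Cl W := fun c hc => hp (loc_mem hc)
  -- a good row
  obtain ⟨a, ha, hrow⟩ : ∃ a < t, ∀ b < t, (cel B x₀ y₀ (loc t p (a, b)) ∩ VB).Nonempty := by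
    by_contra hno
    push Not at hno
    have h1 : ∀ a < t, ∃ b < t, cel B x₀ y₀ (loc t p (a, b)) ∩ VB = ∅ := fun a ha => by
      obtain ⟨b, hb, h⟩ := hno a ha
      exact ⟨b, hb, by simpa [Set.not_nonempty_iff_eq_empty] using h⟩
    choose! b hb hb' using h1
    set g : ℕ → ℕ × ℕ := fun a => (x₀ + 2 * (loc t p (a, b a)).1, y₀ + (loc t p (a, b a)).2)
      with hg
    have hsub : g '' (Finset.range t : Set ℕ) ⊆ {p | p ∈ Rct W x₀ y₀ ∧ Disjoint (B p) VB} := by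
      rintro _ ⟨a, ha, rfl⟩
      rw [Finset.coe_range, mem_Iio] at ha
      refine ⟨rct_L (hcW _ ⟨ha, hb a ha⟩), ?_⟩
      rw [Set.disjoint_left]
      intro v hv hvB
      have : v ∈ cel B x₀ y₀ (loc t p (a, b a)) ∩ VB := ⟨Or.inl hv, hvB⟩
      rw [hb' a ha] at this
      exact this
    have hinj : Set.InjOn g (Finset.range t : Set ℕ) := by
      intro a ha a' ha' haa
      rw [Finset.coe_range, mem_Iio] at ha ha'
      rw [hg] at haa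
      simp only [Prod.mk.injEq, loc] at haa
      omega
    have hfin : {p | p ∈ Rct W x₀ y₀ ∧ Disjoint (B p) VB}.Finite := by
      refine Set.Finite.subset (((Set.finite_Iio (x₀ + 2 * W)).prod
        (Set.finite_Iio (y₀ + W)))) ?_
      rintro ⟨a, b⟩ ⟨h1, _⟩
      rw [mem_Rct] at h1
      exact ⟨h1.2.1, h1.2.2.2⟩
    have h2 := Set.ncard_le_ncard hsub hfin
    rw [hinj.ncard_image, Set.ncard_coe_finset, Finset.card_range] at h2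
    omega
  -- the cells of this row are connected by `X`
  have hcn : ∀ n, n < t → Mdr.Cn (fun b b' => Lnk (X ∩ Sf) ends (cel B x₀ y₀ (loc t p (a, b)))
      (cel B x₀ y₀ (loc t p (a, b')))) (Finset.range (n + 1)) := by
    intro n
    induction n with
    | zero =>
      intro _
      exact Mdr.Cn.single 0
    | succ n ih =>
      intro hn
      have e : Finset.range (n + 1 + 1) = Finset.range (n + 1) ∪ {n + 1} := by
        ext x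
        simp only [Finset.mem_range, Finset.mem_union, Finset.mem_singleton]
        omega
      rw [e]
      refine Mdr.Cn.join (ih (by omega)) (Mdr.Cn.single _) ?_
      refine ⟨n, Finset.mem_range.2 (by omega), n + 1, Finset.mem_singleton_self _, ?_⟩
      have hnb : Nb t (a, n) (a, n + 1) := ⟨⟨ha, by show n < t; omega⟩, ⟨ha, hn⟩,
        Or.inl ⟨rfl, Or.inl rfl⟩⟩
      obtain ⟨h1, v, hv, v', hv', h2⟩ := h.2 _ _ hnb
      exact ⟨_, ⟨hX ⟨_, _, hnb, rfl⟩, hSf h1⟩, v, hv, v', hv', h2⟩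
  have ht : 1 ≤ t := by omega
  have h3 := hF.two_trees (ι := ℕ) (J := Finset.range t)
    (U := fun b => cel B x₀ y₀ (loc t p (a, b)))
    (fun b hb => hgr.fin _ (hcW _ ⟨ha, Finset.mem_range.1 hb⟩))
    (fun b hb => vconn_mono (hgr.con _ (hcW _ ⟨ha, Finset.mem_range.1 hb⟩)) hSf)
    (fun b hb b' hb' hbb => hgr.dis _ (hcW _ ⟨ha, Finset.mem_range.1 hb⟩) _
      (hcW _ ⟨ha, Finset.mem_range.1 hb'⟩) fun h => hbb (by
        have := loc_inj (p := p) ⟨ha, Finset.mem_range.1 hb⟩ ⟨ha, Finset.mem_range.1 hb'⟩ h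
        exact (Prod.mk.injEq _ _ _ _ ▸ this).2))
    hXE (by
      have := hcn (t - 1) (by omega)
      rwa [show t - 1 + 1 = t by omega] at this) v1
    (vconn_mono v3 fun e he => ⟨⟨hF.sub (v2 he).1, Set.disjoint_left.1 v4 he⟩, (v2 he).1⟩)
    (fun b hb => hrow b (Finset.mem_range.1 hb))
  rw [Finset.card_range] at h3
  omega

end

end EN
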