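import Pool.Agent.EN.LinkDef2
import Pool.Agent.EN.FloatPic

/-!
# A grid of cells: squares and lanes

`CGr S ends W G`: disjoint connected vertex sets `G c`, `c ∈ Cl W`, neighbouring ones linked.
`Pce t p`: the squares of side `t` in the lowest rows.  `lane`: nested paths of cells above the
squares.
-/

open Set

namespace EN

open BIC Gad

variable {α V : Type*} {S : Set α} {ends : α → Sym2 V}

/-- A grid of cells. -/
structure CGr (S : Set α) (ends : α → Sym2 V) (W : ℕ) (G : ℕ × ℕ → Set V) : Prop where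
  fin : ∀ c ∈ Cl W, (G c).Finite
  ne : ∀ c ∈ Cl W, (G c).Nonempty
  con : ∀ c ∈ Cl W, VConn S ends (G c)
  dis : ∀ c ∈ Cl W, ∀ c' ∈ Cl W, c ≠ c' → Disjoint (G c) (G c')
  adj : ∀ c c', Nb W c c' → Lnk S ends (G c) (G c')

/-- Union of cells. -/
def UG (G : ℕ × ℕ → Set V) (A : Set (ℕ × ℕ)) : Set V := ⋃ c ∈ A, G c

lemma mem_UG {G : ℕ × ℕ → Set V} {A : Set (ℕ × ℕ)} {v : V} :
    v ∈ UG G A ↔ ∃ c ∈ A, v ∈ G c := by
  simp only [UG, mem_iUnion, exists_prop]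

lemma UG_mono {G : ℕ × ℕ → Set V} {A A' : Set (ℕ × ℕ)} (h : A ⊆ A') : UG G A ⊆ UG G A' := by
  intro v hv
  obtain ⟨c, hc, hv⟩ := mem_UG.1 hv
  exact mem_UG.2 ⟨c, h hc, hv⟩

lemma UG_union (G : ℕ × ℕ → Set V) (A A' : Set (ℕ × ℕ)) : UG G (A ∪ A') = UG G A ∪ UG G A' := by
  ext v
  rw [mem_union, mem_UG, mem_UG, mem_UG]
  constructor
  · rintro ⟨c, hc | hc, hv⟩
    · exact Or.inl ⟨c, hc, hv⟩
    · exact Or.inr ⟨c, hc, hv⟩
  · rintro (⟨c, hc, hv⟩ | ⟨c, hc, hv⟩)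
    · exact ⟨c, Or.inl hc, hv⟩
    · exact ⟨c, Or.inr hc, hv⟩

lemma UG_single (G : ℕ × ℕ → Set V) (c : ℕ × ℕ) : UG G {c} = G c := by
  ext v
  rw [mem_UG]
  simp

/-- A horizontal segment. -/
def Hs (r x x' : ℕ) : Set (ℕ × ℕ) := {c | c.2 = r ∧ x ≤ c.1 ∧ c.1 ≤ x'}

/-- A vertical segment. -/
def VsF (x r r' : ℕ) : Set (ℕ × ℕ) := {c | c.1 = x ∧ r ≤ c.2 ∧ c.2 ≤ r'}

lemma mem_Hs {r x x' a b : ℕ} : (a, b) ∈ Hs r x x' ↔ b = r ∧ x ≤ a ∧ a ≤ x' := Iff.rfl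

lemma mem_VsF {x r r' a b : ℕ} : (a, b) ∈ VsF x r r' ↔ a = x ∧ r ≤ b ∧ b ≤ r' := Iff.rfl

/-- The square `p` of side `t` in the lowest rows. -/
def Pce (t p : ℕ) : Set (ℕ × ℕ) := {c | p * t ≤ c.1 ∧ c.1 < p * t + t ∧ c.2 < t}

lemma mem_Pce {t p a b : ℕ} : (a, b) ∈ Pce t p ↔ p * t ≤ a ∧ a < p * t + t ∧ b < t := Iff.rfl

lemma mem_Cl {t a b : ℕ} : (a, b) ∈ Cl t ↔ a < t ∧ b < t := Iff.rfl

lemma mul_step {t p q : ℕ} (h : p < q) : p * t + t ≤ q * t := by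
  calc p * t + t = (p + 1) * t := by ring
    _ ≤ q * t := Nat.mul_le_mul_right _ h

section

variable {W : ℕ} {G : ℕ × ℕ → Set V}

lemma CGr.ug_fin (h : CGr S ends W G) {A : Set (ℕ × ℕ)} (hA : A ⊆ Cl W) : (UG G A).Finite := by
  have hf : A.Finite := by
    refine Set.Finite.subset (ClF W).finite_toSet ?_
    intro c hc
    exact Finset.mem_coe.2 (mem_ClF.2 (hA hc))
  exact hf.biUnion fun c hc => h.fin c (hA hc)

lemma CGr.ug_dis (h : CGr S ends W G) {A A' : Set (ℕ × ℕ)} (hA : A ⊆ Cl W) (hA' : A' ⊆ Cl W)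
    (hd : Disjoint A A') : Disjoint (UG G A) (UG G A') := by
  rw [Set.disjoint_left]
  intro v hv hv'
  obtain ⟨c, hc, hv⟩ := mem_UG.1 hv
  obtain ⟨c', hc', hv'⟩ := mem_UG.1 hv'
  refine Set.disjoint_left.1 (h.dis c (hA hc) c' (hA' hc') ?_) hv hv'
  rintro rfl
  exact Set.disjoint_left.1 hd hc hc'

lemma CGr.ug_inter (h : CGr S ends W G) {A A' : Set (ℕ × ℕ)} (hA : A ⊆ Cl W) (hA' : A' ⊆ Cl W)
    {c : ℕ × ℕ} (hc : A ∩ A' ⊆ {c}) : UG G A ∩ UG G A' ⊆ G c := by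
  rintro v ⟨hv, hv'⟩
  obtain ⟨c₁, hc₁, hv⟩ := mem_UG.1 hv
  obtain ⟨c₂, hc₂, hv'⟩ := mem_UG.1 hv'
  have h1 : c₁ = c₂ := by
    by_contra hne
    exact Set.disjoint_left.1 (h.dis c₁ (hA hc₁) c₂ (hA' hc₂) hne) hv hv'
  have h2 : c₁ = c := hc ⟨hc₁, h1 ▸ hc₂⟩
  rw [← h2]
  exact hv

lemma CGr.hs_con (h : CGr S ends W G) {r x x' : ℕ} (hr : r < W) (hxx : x ≤ x') (hx' : x' < W) :
    VConn S ends (UG G (Hs r x x')) := by
  induction x', hxx using Nat.le_induction with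
  | base =>
    have e : Hs r x x = {(x, r)} := by
      ext ⟨a, b⟩
      rw [mem_Hs, mem_singleton_iff, Prod.mk.injEq]
      omega
    rw [e, UG_single]
    exact h.con _ (mem_Cl.2 ⟨hx', hr⟩)
  | succ n hn ih =>
    have e : Hs r x (n + 1) = Hs r x n ∪ {(n + 1, r)} := by
      ext ⟨a, b⟩
      rw [mem_union, mem_Hs, mem_Hs, mem_singleton_iff, Prod.mk.injEq]
      omega
    rw [e, UG_union, UG_single]
    refine vc_lnk (ih (by omega)) (h.con _ (mem_Cl.2 ⟨hx', hr⟩)) ?_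
    refine (h.adj (n, r) (n + 1, r) ⟨mem_Cl.2 ⟨by omega, hr⟩, mem_Cl.2 ⟨hx', hr⟩,
      Or.inr ⟨rfl, Or.inl rfl⟩⟩).mono subset_rfl ?_ subset_rfl
    intro v hv
    exact mem_UG.2 ⟨(n, r), mem_Hs.2 ⟨rfl, by omega, le_rfl⟩, hv⟩

lemma CGr.vs_con (h : CGr S ends W G) {x r r' : ℕ} (hx : x < W) (hrr : r ≤ r') (hr' : r' < W) :
    VConn S ends (UG G (VsF x r r')) := by
  induction r', hrr using Nat.le_induction with
  | base =>
    have e : VsF x r r = {(x, r)} := by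
      ext ⟨a, b⟩
      rw [mem_VsF, mem_singleton_iff, Prod.mk.injEq]
      omega
    rw [e, UG_single]
    exact h.con _ (mem_Cl.2 ⟨hx, hr'⟩)
  | succ n hn ih =>
    have e : VsF x r (n + 1) = VsF x r n ∪ {(x, n + 1)} := by
      ext ⟨a, b⟩
      rw [mem_union, mem_VsF, mem_VsF, mem_singleton_iff, Prod.mk.injEq]
      omega
    rw [e, UG_union, UG_single]
    refine vc_lnk (ih (by omega)) (h.con _ (mem_Cl.2 ⟨hx, hr'⟩)) ?_
    refine (h.adj (x, n) (x, n + 1) ⟨mem_Cl.2 ⟨hx, by omega⟩, mem_Cl.2 ⟨hx, hr'⟩,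
      Or.inl ⟨rfl, Or.inl rfl⟩⟩).mono subset_rfl ?_ subset_rfl
    intro v hv
    exact mem_UG.2 ⟨(x, n), mem_VsF.2 ⟨rfl, by omega, le_rfl⟩, hv⟩

/-- The squares are connected. -/
lemma CGr.pce_con (h : CGr S ends W G) {t p : ℕ} (ht : 1 ≤ t) (hp : p * t + t ≤ W) :
    VConn S ends (UG G (Pce t p)) := by
  have key : ∀ n : ℕ, n < t → VConn S ends
      (UG G {c | p * t ≤ c.1 ∧ c.1 < p * t + t ∧ c.2 ≤ n}) := by
    intro n
    induction n with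
    | zero =>
      intro _
      have e : {c : ℕ × ℕ | p * t ≤ c.1 ∧ c.1 < p * t + t ∧ c.2 ≤ 0} =
          Hs 0 (p * t) (p * t + t - 1) := by
        ext ⟨a, b⟩
        rw [mem_Hs]
        show p * t ≤ a ∧ a < p * t + t ∧ b ≤ 0 ↔ _
        omega
      rw [e]
      exact h.hs_con (by omega) (by omega) (by omega)
    | succ n ih =>
      intro hn
      have e : {c : ℕ × ℕ | p * t ≤ c.1 ∧ c.1 < p * t + t ∧ c.2 ≤ n + 1} =
          {c : ℕ × ℕ | p * t ≤ c.1 ∧ c.1 < p * t + t ∧ c.2 ≤ n} ∪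
            Hs (n + 1) (p * t) (p * t + t - 1) := by
        ext ⟨a, b⟩
        rw [mem_union, mem_Hs]
        show p * t ≤ a ∧ a < p * t + t ∧ b ≤ n + 1 ↔ (p * t ≤ a ∧ a < p * t + t ∧ b ≤ n) ∨ _
        omega
      rw [e, UG_union]
      refine vc_lnk (ih (by omega)) (h.hs_con (by omega) (by omega) (by omega)) ?_
      refine (h.adj (p * t, n) (p * t, n + 1) ⟨mem_Cl.2 ⟨by omega, by omega⟩,
        mem_Cl.2 ⟨by omega, by omega⟩, Or.inl ⟨rfl, Or.inl rfl⟩⟩).mono subset_rfl ?_ ?_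
      · intro v hv
        exact mem_UG.2 ⟨(p * t, n), ⟨le_rfl, by show p * t < p * t + t; omega, le_rfl⟩, hv⟩
      · intro v hv
        exact mem_UG.2 ⟨(p * t, n + 1), mem_Hs.2 ⟨rfl, le_rfl, by omega⟩, hv⟩
  have e : Pce t p = {c : ℕ × ℕ | p * t ≤ c.1 ∧ c.1 < p * t + t ∧ c.2 ≤ t - 1} := by
    ext ⟨a, b⟩
    rw [mem_Pce]
    show _ ↔ p * t ≤ a ∧ a < p * t + t ∧ b ≤ t - 1
    omega
  rw [e]
  exact key (t - 1) (by omega)

/-- The lane `i` between the squares `p < q`. -/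
def Lane (t K p q i : ℕ) : Set (ℕ × ℕ) :=
  VsF (p * t + i) (t - 1) (t + (K - 1 - i)) ∪ Hs (t + (K - 1 - i)) (p * t + i) (q * t + (K - 1 - i)) ∪
    VsF (q * t + (K - 1 - i)) (t - 1) (t + (K - 1 - i))

lemma mem_Lane {t K p q i a b : ℕ} : (a, b) ∈ Lane t K p q i ↔
    ((a = p * t + i ∧ t - 1 ≤ b ∧ b ≤ t + (K - 1 - i)) ∨
      (b = t + (K - 1 - i) ∧ p * t + i ≤ a ∧ a ≤ q * t + (K - 1 - i))) ∨
      (a = q * t + (K - 1 - i) ∧ t - 1 ≤ b ∧ b ≤ t + (K - 1 - i)) := Iff.rfl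

variable {t K p q n : ℕ}

lemma lane_sub (ht : 1 ≤ t) (hK : K ≤ t) (hW : n * t ≤ W) (hW' : t + K ≤ W) (hpq : p < q)
    (hq : q < n) {i : ℕ} (hi : i < K) : Lane t K p q i ⊆ Cl W := by
  rintro ⟨a, b⟩ hc
  rw [mem_Lane] at hc
  rw [mem_Cl]
  have h1 := mul_step (t := t) hpq
  have h2 := mul_step (t := t) hq
  omega

lemma pce_sub (hW : n * t ≤ W) (hW' : t + K ≤ W) (hp : p < n) : Pce t p ⊆ Cl W := by
  rintro ⟨a, b⟩ hc
  rw [mem_Pce] at hc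
  rw [mem_Cl]
  have h2 := mul_step (t := t) hp
  omega

lemma CGr.lane_con (h : CGr S ends W G) (ht : 1 ≤ t) (hK : K ≤ t) (hW : n * t ≤ W)
    (hW' : t + K ≤ W) (hpq : p < q) (hq : q < n) {i : ℕ} (hi : i < K) :
    VConn S ends (UG G (Lane t K p q i)) := by
  have h1 := mul_step (t := t) hpq
  have h2 := mul_step (t := t) hq
  unfold Lane
  rw [UG_union, UG_union]
  obtain ⟨v, hv⟩ := h.ne (p * t + i, t + (K - 1 - i)) (mem_Cl.2 ⟨by omega, by omega⟩)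
  obtain ⟨v', hv'⟩ := h.ne (q * t + (K - 1 - i), t + (K - 1 - i)) (mem_Cl.2 ⟨by omega, by omega⟩)
  refine vc_union (vc_union (h.vs_con (by omega) (by omega) (by omega))
    (h.hs_con (by omega) (by omega) (by omega)) (c := v) ?_ ?_)
    (h.vs_con (by omega) (by omega) (by omega)) (c := v') (Or.inr ?_) ?_
  · exact mem_UG.2 ⟨_, mem_VsF.2 ⟨rfl, by omega, le_rfl⟩, hv⟩
  · exact mem_UG.2 ⟨_, mem_Hs.2 ⟨rfl, le_rfl, by omega⟩, hv⟩
  · exact mem_UG.2 ⟨_, mem_Hs.2 ⟨rfl, by omega, le_rfl⟩, hv'⟩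
  · exact mem_UG.2 ⟨_, mem_VsF.2 ⟨rfl, by omega, le_rfl⟩, hv'⟩

lemma lane_dis (ht : 1 ≤ t) (hK : K ≤ t) (hpq : p < q) {i j : ℕ} (hi : i < K) (hj : j < K)
    (hij : i ≠ j) : Disjoint (Lane t K p q i) (Lane t K p q j) := by
  rw [Set.disjoint_left]
  rintro ⟨a, b⟩ h1 h2
  rw [mem_Lane] at h1 h2
  have h3 := mul_step (t := t) hpq
  omega

lemma lane_pce_left (ht : 1 ≤ t) (hK : K ≤ t) (hpq : p < q) {i : ℕ} (hi : i < K) :
    Lane t K p q i ∩ Pce t p ⊆ {(p * t + i, t - 1)} := by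
  rintro ⟨a, b⟩ ⟨h1, h2⟩
  rw [mem_Lane] at h1
  rw [mem_Pce] at h2
  rw [mem_singleton_iff, Prod.mk.injEq]
  have h3 := mul_step (t := t) hpq
  omega

lemma lane_pce_right (ht : 1 ≤ t) (hK : K ≤ t) (hpq : p < q) {i : ℕ} (hi : i < K) :
    Lane t K p q i ∩ Pce t q ⊆ {(q * t + (K - 1 - i), t - 1)} := by
  rintro ⟨a, b⟩ ⟨h1, h2⟩
  rw [mem_Lane] at h1
  rw [mem_Pce] at h2
  rw [mem_singleton_iff, Prod.mk.injEq]
  have h3 := mul_step (t := t) hpq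
  omega

lemma lane_pce_other (hK : K ≤ t) {r : ℕ} (hr : r ≠ p) (hr' : r ≠ q) {i : ℕ} (hi : i < K) :
    Disjoint (Lane t K p q i) (Pce t r) := by
  rw [Set.disjoint_left]
  rintro ⟨a, b⟩ h1 h2
  rw [mem_Lane] at h1
  rw [mem_Pce] at h2
  have h3 : r * t + t ≤ p * t ∨ p * t + t ≤ r * t := by
    rcases lt_or_gt_of_ne hr with h | h
    · exact Or.inl (mul_step h)
    · exact Or.inr (mul_step h)
  have h4 : r * t + t ≤ q * t ∨ q * t + t ≤ r * t := by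
    rcases lt_or_gt_of_ne hr' with h | h
    · exact Or.inl (mul_step h)
    · exact Or.inr (mul_step h)
  omega

lemma lane_left (hpq : p < q) {i : ℕ} (hi : i < K) : (p * t + i, t - 1) ∈ Lane t K p q i := by
  rw [mem_Lane]
  omega

lemma lane_right {i : ℕ} (hi : i < K) : (q * t + (K - 1 - i), t - 1) ∈ Lane t K p q i := by
  rw [mem_Lane]
  omega

lemma pce_dis {r : ℕ} (hr : r ≠ p) : Disjoint (Pce t p) (Pce t r) := by
  rw [Set.disjoint_left]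
  rintro ⟨a, b⟩ h1 h2
  rw [mem_Pce] at h1 h2
  rcases lt_or_gt_of_ne hr with h | h
  · have := mul_step (t := t) h
    omega
  · have := mul_step (t := t) h
    omega

end

/-! ### The cells of a rectangle of the wall -/

/-- Two neighbouring blocks. -/
def cel (B : ℕ × ℕ → Set V) (x₀ y₀ : ℕ) (c : ℕ × ℕ) : Set V :=
  B (x₀ + 2 * c.1, y₀ + c.2) ∪ B (x₀ + 2 * c.1 + 1, y₀ + c.2)

lemma rct_L {w x₀ y₀ : ℕ} {c : ℕ × ℕ} (hc : c ∈ Cl w) : (x₀ + 2 * c.1, y₀ + c.2) ∈ Rct w x₀ y₀ := by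
  obtain ⟨h1, h2⟩ := hc
  rw [mem_Rct]
  omega

lemma rct_R {w x₀ y₀ : ℕ} {c : ℕ × ℕ} (hc : c ∈ Cl w) :
    (x₀ + 2 * c.1 + 1, y₀ + c.2) ∈ Rct w x₀ y₀ := by
  obtain ⟨h1, h2⟩ := hc
  rw [mem_Rct]
  omega

theorem cel_cgr {B : ℕ × ℕ → Set V} {w x₀ y₀ : ℕ}
    (fin : ∀ p ∈ Rct w x₀ y₀, (B p).Finite) (ne : ∀ p ∈ Rct w x₀ y₀, (B p).Nonempty)
    (con : ∀ p ∈ Rct w x₀ y₀, VConn S ends (B p))
    (dis : ∀ p ∈ Rct w x₀ y₀, ∀ q ∈ Rct w x₀ y₀, p ≠ q → Disjoint (B p) (B q))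
    (cnt : ∀ p ∈ Rct w x₀ y₀, ∀ q ∈ Rct w x₀ y₀, Iso.WAdj p q → Lnk S ends (B p) (B q)) :
    CGr S ends w (cel B x₀ y₀) := by
  have lLR : ∀ c ∈ Cl w, Lnk S ends (B (x₀ + 2 * c.1, y₀ + c.2))
      (B (x₀ + 2 * c.1 + 1, y₀ + c.2)) := fun c hc =>
    cnt _ (rct_L hc) _ (rct_R hc) (Or.inl ⟨rfl, Or.inl rfl⟩)
  have key : ∀ c c', Nb w c c' → (c.1 = c'.1 ∧ c.2 + 1 = c'.2 ∨ c.2 = c'.2 ∧ c.1 + 1 = c'.1) →
      Lnk S ends (cel B x₀ y₀ c) (cel B x₀ y₀ c') := by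
    rintro ⟨a, b⟩ ⟨a', b'⟩ ⟨h1, h2, _⟩ h4
    have m1 := rct_L (x₀ := x₀) (y₀ := y₀) h1
    have m2 := rct_R (x₀ := x₀) (y₀ := y₀) h1
    have m3 := rct_L (x₀ := x₀) (y₀ := y₀) h2
    have m4 := rct_R (x₀ := x₀) (y₀ := y₀) h2
    simp only at h4 m1 m2 m3 m4
    rcases h4 with ⟨h4, h5⟩ | ⟨h4, h5⟩
    · subst h4 h5
      by_cases hpar : (x₀ + 2 * a + (y₀ + b)) % 2 = 0
      · refine (cnt _ m1 _ m3 (Or.inr ⟨rfl, Or.inl ⟨?_, ?_⟩⟩)).mono subset_rfl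
          subset_union_left subset_union_left
        · simp only
          omega
        · exact hpar
      · refine (cnt _ m2 _ m4 (Or.inr ⟨rfl, Or.inl ⟨?_, ?_⟩⟩)).mono subset_rfl
          subset_union_right subset_union_right
        · simp only
          omega
        · simp only
          omega
    · subst h4 h5
      refine (cnt _ m2 _ m3 (Or.inl ⟨rfl, Or.inl ?_⟩)).mono subset_rfl
          subset_union_right subset_union_left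
      simp only
      omega
  refine ⟨fun c hc => (fin _ (rct_L hc)).union (fin _ (rct_R hc)),
    fun c hc => (ne _ (rct_L hc)).mono subset_union_left,
    fun c hc => vc_lnk (con _ (rct_L hc)) (con _ (rct_R hc)) (lLR c hc), ?_, ?_⟩
  · rintro ⟨a, b⟩ hc ⟨a', b'⟩ hc' hcc
    have hne : a ≠ a' ∨ b ≠ b' := by
      by_contra hcon
      push Not at hcon
      exact hcc (Prod.ext hcon.1 hcon.2)
    unfold cel
    rw [Set.disjoint_union_left, Set.disjoint_union_right, Set.disjoint_union_right]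
    refine ⟨⟨dis _ (rct_L hc) _ (rct_L hc') ?_, dis _ (rct_L hc) _ (rct_R hc') ?_⟩,
      dis _ (rct_R hc) _ (rct_L hc') ?_, dis _ (rct_R hc) _ (rct_R hc') ?_⟩ <;>
    · rw [Ne, Prod.mk.injEq]
      simp only
      omega
  · intro c c' hcc
    have hsym : Nb w c' c := by
      obtain ⟨h1, h2, h3⟩ := hcc
      refine ⟨h2, h1, ?_⟩
      rcases h3 with ⟨h3, h4⟩ | ⟨h3, h4⟩
      · exact Or.inl ⟨h3.symm, h4.symm⟩
      · exact Or.inr ⟨h3.symm, h4.symm⟩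
    rcases hcc.2.2 with ⟨h1, h2 | h2⟩ | ⟨h1, h2 | h2⟩
    · exact key c c' hcc (Or.inl ⟨h1, h2⟩)
    · exact (key c' c hsym (Or.inl ⟨h1.symm, h2⟩)).symm
    · exact key c c' hcc (Or.inr ⟨h1, h2⟩)
    · exact (key c' c hsym (Or.inr ⟨h1.symm, h2⟩)).symm

end EN
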