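import Pool.Agent.EN.LinkA

/-!
# Connected restrictions
-/

open Set BIC BICS
open scoped Matroid

namespace EN

/-- `M | N` is connected. -/
def ConnR {α : Type*} (M : Matroid α) (N : Set α) : Prop :=
  ∀ X ⊆ N, X.Nonempty → X ≠ N → rk M N + 1 ≤ rk M X + rk M (N \ X)

end EN
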