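import Pool.Agent.EN.Joint
import Pool.Agent.Helper53.BQ.Kge

/-!
# Families of pieces: killing the lift (helper51, MP_5165fa_co)

`FrmU M S ends u` = star rule and rank rule up to `u`.  Among many disjoint connected finite vertex
sets (pieces) `F p` there are boundedly many, `p ∈ D`, such that modulo `D₀ = ⋃ ins S (F p)` all the
others are exact, and many of the others are mutually skew modulo `D₀`.
-/

open Set
open scoped Matroid

namespace EN

open BIC Gad

variable {α V : Type*} {M : Matroid α} {S : Set α} {ends : α → Sym2 V} {u : ℕ}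

lemma rk_emp [M.Finite] : BIC.rk M (∅ : Set α) = 0 := by
  have h := rk_le_ncard M (finite_empty (α := α))
  rw [ncard_empty] at h
  omega

lemma rk_insert_of [M.Finite] {X : Set α} {f : α} (hf : f ∈ M.E) (h : f ∉ M.closure X) :
    BIC.rk M X + 1 ≤ BIC.rk M (insert f X) := by
  have h1 := M.eRk_insert_eq_add_one (X := X) (e := f) ⟨hf, h⟩
  rw [← cast_rk, ← cast_rk] at h1
  exact (by exact_mod_cast h1.ge : BIC.rk M X + 1 ≤ BIC.rk M (insert f X))

/-- Growing a connected set over `R`. -/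
lemma FrmU.grow_over [M.Finite] (hF : FrmU M S ends u) {R : Set α} (hR : R ⊆ S) {B : Set V}
    (hB : B.Finite) (hc : VConn S ends B) : ∀ (n : ℕ) (A : Set V), A ⊆ B → A.Nonempty →
    (B \ A).ncard = n → Avd ends R (B \ A) →
    BIC.rk M (R ∪ ins S ends A) + B.ncard ≤ BIC.rk M (R ∪ ins S ends B) + A.ncard := by
  intro n
  induction n with
  | zero =>
    intro A hAB _ hn _
    have h1 : B \ A = ∅ := by
      rwa [Set.ncard_eq_zero (hB.subset sdiff_subset)] at hn
    have h2 : A = B := Subset.antisymm hAB (sdiff_eq_empty.1 h1)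
    rw [h2]
  | succ n ih =>
    intro A hAB hA hn hRB
    obtain ⟨b, hb⟩ : (B \ A).Nonempty := by
      rw [Set.nonempty_iff_ne_empty]
      intro h
      rw [h, Set.ncard_empty] at hn
      omega
    obtain ⟨a, ha⟩ := hA
    obtain ⟨x, hx, y, hy, ⟨f, hfS, hf⟩, hxU, hyU⟩ := exit (R := A) (hc a (hAB ha) b hb.1)
      ha hb.2
    have h1 : f ∉ M.closure (R ∪ ins S ends A) := by
      intro h
      refine hF.star y f hfS (by rw [hf]; simp) (M.closure_subset_closure ?_ h)
      rintro e (he | he)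
      · refine ⟨hR he, fun v hv => ?_⟩
        rintro rfl
        exact hRB e he _ hv ⟨hyU, hy⟩
      · refine ⟨he.1, fun v hv => ?_⟩
        rintro rfl
        exact hy (he.2 _ hv)
    have h2 := rk_insert_of (hF.sub hfS) h1
    have h3 : BIC.rk M (insert f (R ∪ ins S ends A)) ≤ BIC.rk M (R ∪ ins S ends (insert y A)) := by
      refine rk_mono M (insert_subset (Or.inr ⟨hfS, ?_⟩)
        (union_subset_union_right _ (ins_mono (subset_insert _ _))))
      intro v hv
      rw [hf] at hv
      rcases Sym2.mem_iff.1 hv with rfl | rfl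
      · exact Or.inr hx
      · exact Or.inl rfl
    have h4 : B \ A = insert y (B \ insert y A) := by
      ext c
      simp only [mem_sdiff, mem_insert_iff, not_or]
      constructor
      · rintro ⟨h6, h7⟩
        by_cases h8 : c = y
        · exact Or.inl h8
        · exact Or.inr ⟨h6, h8, h7⟩
      · rintro (rfl | ⟨h6, _, h7⟩)
        · exact ⟨hyU, hy⟩
        · exact ⟨h6, h7⟩
    have h5 : (B \ insert y A).ncard = n := by
      rw [h4, Set.ncard_insert_of_notMem (by
        rintro ⟨_, h⟩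
        exact h (Or.inl rfl)) (hB.subset sdiff_subset)] at hn
      omega
    have h6 := ih (insert y A) (insert_subset hyU hAB) ⟨y, Or.inl rfl⟩ h5
      (hRB.mono (subset_refl _) (sdiff_subset_sdiff_right (subset_insert _ _)))
    have h7 : (insert y A).ncard = A.ncard + 1 :=
      Set.ncard_insert_of_notMem hy (hB.subset hAB)
    omega

/-- The rank of a connected set over `R`. -/
lemma FrmU.conn_over [M.Finite] (hF : FrmU M S ends u) {R : Set α} (hR : R ⊆ S) {B : Set V}
    (hB : B.Finite) (hc : VConn S ends B) (hRB : Avd ends R B) :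
    BIC.rk M R + B.ncard ≤ BIC.rk M (R ∪ ins S ends B) + 1 := by
  rcases B.eq_empty_or_nonempty with h | ⟨b, hb⟩
  · rw [h, ncard_empty]
    have h2 : BIC.rk M R ≤ BIC.rk M (R ∪ ins S ends ∅) := rk_mono M subset_union_left
    omega
  · have h1 := hF.grow_over hR hB hc _ {b} (singleton_subset_iff.2 hb) (singleton_nonempty b) rfl
      (hRB.mono (subset_refl _) sdiff_subset)
    have h2 : BIC.rk M R ≤ BIC.rk M (R ∪ ins S ends {b}) := rk_mono M subset_union_left
    rw [ncard_singleton] at h1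
    omega

/-- A family of pieces. -/
structure Pcs (S : Set α) (ends : α → Sym2 V) (I : Finset ℕ) (F : ℕ → Set V) : Prop where
  fin : ∀ p ∈ I, (F p).Finite
  con : ∀ p ∈ I, VConn S ends (F p)
  dis : ∀ p ∈ I, ∀ q ∈ I, p ≠ q → Disjoint (F p) (F q)

variable {I D : Finset ℕ} {F : ℕ → Set V}

lemma Pcs.avd (h : Pcs S ends I F) (hD : D ⊆ I) {p : ℕ} (hp : p ∈ I) (hpD : p ∉ D) :
    Avd ends (Ufm S ends D F) (F p) :=
  Ufm_avd fun q hq => h.dis q (hD hq) p hp (fun e => hpD (e ▸ hq))

lemma Pcs.disj (h : Pcs S ends I F) {A B : Finset ℕ} (hA : A ⊆ I) (hB : B ⊆ I)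
    (hAB : Disjoint A B) : Disjoint (Ufm S ends A F) (Ufm S ends B F) := by
  rw [Set.disjoint_left]
  intro e he he'
  obtain ⟨p, hp, h1⟩ := mem_Ufm.1 he
  obtain ⟨q, hq, h2⟩ := mem_Ufm.1 he'
  obtain ⟨v, hv⟩ := exists_mem_ends ends e
  refine Set.disjoint_left.1 (h.dis p (hA hp) q (hB hq) ?_) (h1.2 v hv) (h2.2 v hv)
  rintro rfl
  exact Finset.disjoint_left.1 hAB hp hq

/-- Rank of the pieces of `D`, from above. -/
lemma FrmU.rk_Ufm_le [M.Finite] (hF : FrmU M S ends u) (D : Finset ℕ)
    (hf : ∀ p ∈ D, (F p).Finite) :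
    BIC.rk M (Ufm S ends D F) ≤ ∑ p ∈ D, (F p).ncard + u := by
  classical
  have h1 : Ufm S ends D F ⊆ ins S ends (⋃ p ∈ D, F p) := by
    intro e he
    obtain ⟨p, hp, h1⟩ := mem_Ufm.1 he
    exact ⟨h1.1, fun v hv => mem_iUnion₂.2 ⟨p, hp, h1.2 v hv⟩⟩
  have h2 := hF.rk (⋃ p ∈ D, F p) (D.finite_toSet.biUnion fun p hp => hf p hp)
  have h3 : (⋃ p ∈ D, F p).ncard ≤ ∑ p ∈ D, (F p).ncard := by
    clear h1 h2
    induction D using Finset.induction_on with
    | empty => simp
    | insert p D hp ih =>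
      rw [Finset.sum_insert hp, Finset.set_biUnion_insert]
      refine (ncard_union_le _ _).trans ?_
      have := ih fun q hq => hf q (Finset.mem_insert_of_mem hq)
      omega
  exact (rk_mono M h1).trans (h2.trans (by omega))

/-- Rank of the pieces of `D` over `R`, from below. -/
lemma FrmU.rk_Ufm_ge [M.Finite] (hF : FrmU M S ends u) (h : Pcs S ends I F) {R : Set α}
    (hR : R ⊆ S) : ∀ D : Finset ℕ, D ⊆ I → (∀ p ∈ D, Avd ends R (F p)) →
    BIC.rk M R + ∑ p ∈ D, (F p).ncard ≤ BIC.rk M (R ∪ Ufm S ends D F) + D.card := by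
  classical
  intro D
  induction D using Finset.induction_on with
  | empty =>
    intro _ _
    rw [Finset.sum_empty, Finset.card_empty]
    have h1 : BIC.rk M R ≤ BIC.rk M (R ∪ Ufm S ends ∅ F) := rk_mono M subset_union_left
    omega
  | insert p D hp ih =>
    intro hD hA
    have hDI : D ⊆ I := fun q hq => hD (Finset.mem_insert_of_mem hq)
    have hpI : p ∈ I := hD (Finset.mem_insert_self _ _)
    have h1 := ih hDI fun q hq => hA q (Finset.mem_insert_of_mem hq)
    have h2 := hF.conn_over (R := R ∪ Ufm S ends D F)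
      (union_subset hR (Ufm_sub _ _)) (h.fin p hpI) (h.con p hpI) (by
        rintro e (he | he)
        · exact hA p (Finset.mem_insert_self _ _) e he
        · exact h.avd hDI hpI hp e he)
    rw [union_assoc, ← Ufm_insert] at h2
    rw [Finset.sum_insert hp, Finset.card_insert_of_notMem hp]
    omega

/-- The local connectivity between pieces is bounded. -/
theorem FrmU.conn_le [M.Finite] (hF : FrmU M S ends u) (h : Pcs S ends I F) {D G : Finset ℕ}
    (hD : D ⊆ I) (hG : G ⊆ I) (hDG : Disjoint D G) :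
    BIC.rk M (Ufm S ends G F) + BIC.rk M (Ufm S ends D F) ≤
      BIC.rk M (Ufm S ends G F ∪ Ufm S ends D F) + (u + D.card) := by
  have h1 := hF.rk_Ufm_le D fun p hp => h.fin p (hD hp)
  have h2 := hF.rk_Ufm_ge h (R := Ufm S ends G F) (Ufm_sub _ _) D hD (fun p hp =>
    h.avd hG (hD hp) fun h3 => Finset.disjoint_left.1 hDG hp h3)
  omega

/-- All pieces outside of `D` are exact modulo the pieces of `D`. -/
def ExD (M : Matroid α) (S : Set α) (ends : α → Sym2 V) (I : Finset ℕ) (F : ℕ → Set V)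
    (D : Finset ℕ) : Prop :=
  ∀ p ∈ I, p ∉ D → ∀ W ⊆ F p,
    BIC.rk M (Ufm S ends D F ∪ ins S ends W) ≤ BIC.rk M (Ufm S ends D F) + W.ncard

lemma ExD.mono [M.Finite] {D' : Finset ℕ} (h : ExD M S ends I F D) (hDD : D ⊆ D') :
    ExD M S ends I F D' := by
  intro p hp hpD W hW
  have h1 := h p hp (fun h2 => hpD (hDD h2)) W hW
  have h2 := rk_submod M (Ufm S ends D F ∪ ins S ends W) (Ufm S ends D' F)
  have h3 : BIC.rk M (Ufm S ends D F) ≤
      BIC.rk M ((Ufm S ends D F ∪ ins S ends W) ∩ Ufm S ends D' F) :=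
    rk_mono M (subset_inter subset_union_left (Ufm_mono hDD fun _ _ => subset_refl _))
  have h4 : BIC.rk M (Ufm S ends D' F ∪ ins S ends W) ≤
      BIC.rk M (Ufm S ends D F ∪ ins S ends W ∪ Ufm S ends D' F) :=
    rk_mono M (union_subset subset_union_right (subset_union_right.trans subset_union_left))
  omega

/-- **(T1)** Boundedly many pieces kill all lifts. -/
theorem exists_exD [M.Finite] (hF : FrmU M S ends u) (h : Pcs S ends I F) :
    ∃ D ⊆ I, D.card ≤ u ∧ ExD M S ends I F D := by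
  classical
  set Q : Finset (Finset ℕ) := I.powerset.filter fun D =>
    ∑ p ∈ D, (F p).ncard + D.card ≤ BIC.rk M (Ufm S ends D F) with hQ
  have hne : (∅ : Finset ℕ) ∈ Q := by
    rw [hQ, Finset.mem_filter]
    exact ⟨Finset.empty_mem_powerset _, by simp⟩
  obtain ⟨D, hD, hmax⟩ := Finset.exists_max_image Q Finset.card ⟨_, hne⟩
  obtain ⟨hDI, hDr⟩ := Finset.mem_filter.1 hD
  rw [Finset.mem_powerset] at hDI
  refine ⟨D, hDI, ?_, ?_⟩
  · have h1 := hF.rk_Ufm_le D fun p hp => h.fin p (hDI hp)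
    omega
  · intro p hp hpD W hW
    by_contra hcon
    push Not at hcon
    rcases W.eq_empty_or_nonempty with h1 | h1
    · rw [h1, ncard_empty] at hcon
      have h2 : ins S ends (∅ : Set V) = ∅ := by
        rw [eq_empty_iff_forall_notMem]
        intro e he
        obtain ⟨v, hv⟩ := exists_mem_ends ends e
        exact he.2 v hv
      rw [h2, union_empty] at hcon
      omega
    · have h2 := hF.grow_over (R := Ufm S ends D F) (Ufm_sub _ _) (h.fin p hp) (h.con p hp) _ W hW
        h1 rfl ((h.avd hDI hp hpD).mono (subset_refl _) sdiff_subset)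
      rw [← Ufm_insert] at h2
      have h3 : insert p D ∈ Q := by
        rw [hQ, Finset.mem_filter, Finset.mem_powerset, Finset.sum_insert hpD,
          Finset.card_insert_of_notMem hpD]
        exact ⟨Finset.insert_subset hp hDI, by omega⟩
      have h4 := hmax _ h3
      rw [Finset.card_insert_of_notMem hpD] at h4
      omega

/-- In `M ／ D₀` the other pieces form an exact frame. -/
theorem ExD.frm [M.Finite] (hF : FrmU M S ends u) (h : Pcs S ends I F) (hDI : D ⊆ I)
    (hD : ExD M S ends I F D) {P : Finset ℕ} (hP : P ⊆ I) (hPD : Disjoint P D) :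
    Frm (M ／ Ufm S ends D F) (Ufm S ends P F) ends := by
  classical
  have hDE : Ufm S ends D F ⊆ M.E := (Ufm_sub _ _).trans hF.sub
  have hdis := h.disj hP hDI hPD
  have hsub : Ufm S ends P F ⊆ (M ／ Ufm S ends D F).E :=
    fun e he => ⟨hF.sub (Ufm_sub _ _ he), Set.disjoint_left.1 hdis he⟩
  refine ⟨hsub, ?_, ?_⟩
  · intro v e he hv hcl
    rw [Matroid.contract_closure_eq] at hcl
    refine hF.star v e (Ufm_sub _ _ he) hv (M.closure_subset_closure ?_ hcl.1)
    rintro x (hx | hx)
    · exact ⟨Ufm_sub _ _ hx.1, hx.2⟩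
    · obtain ⟨p, hp, h1⟩ := mem_Ufm.1 he
      refine ⟨Ufm_sub _ _ hx, fun w hw => ?_⟩
      rintro rfl
      exact h.avd hDI (hP hp) (fun h2 => Finset.disjoint_left.1 hPD hp h2) x hx _ hw (h1.2 _ hv)
  · intro W
    rcases W.finite_or_infinite with hW | hW
    swap
    · rw [hW.encard_eq]
      exact le_top
    have key : ∀ J : Finset ℕ, J ⊆ P →
        BIC.rk M (Ufm S ends D F ∪ Ufm S ends J fun p => W ∩ F p) ≤
          BIC.rk M (Ufm S ends D F) + ∑ p ∈ J, (W ∩ F p).ncard := by
      intro J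
      induction J using Finset.induction_on with
      | empty =>
        intro _
        have h1 : Ufm S ends (∅ : Finset ℕ) (fun p => W ∩ F p) = ∅ := by
          ext e
          rw [mem_Ufm]
          simp
        rw [h1, union_empty, Finset.sum_empty]
        exact le_rfl
      | insert p J hp ih =>
        intro hJ
        have h1 := ih fun q hq => hJ (Finset.mem_insert_of_mem hq)
        have hpP := hJ (Finset.mem_insert_self p J)
        have h2 := hD p (hP hpP) (fun h3 => Finset.disjoint_left.1 hPD hpP h3) (W ∩ F p)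
          inter_subset_right
        rw [Ufm_insert, Finset.sum_insert hp]
        have h3 := rk_submod M (Ufm S ends D F ∪ Ufm S ends J fun p => W ∩ F p)
          (Ufm S ends D F ∪ ins S ends (W ∩ F p))
        have h4 : BIC.rk M (Ufm S ends D F) ≤
            BIC.rk M ((Ufm S ends D F ∪ Ufm S ends J fun p => W ∩ F p) ∩
              (Ufm S ends D F ∪ ins S ends (W ∩ F p))) :=
          rk_mono M (subset_inter subset_union_left subset_union_left)
        have h5 : BIC.rk M (Ufm S ends D F ∪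
            (Ufm S ends J (fun p => W ∩ F p) ∪ ins S ends (W ∩ F p))) ≤
            BIC.rk M (Ufm S ends D F ∪ Ufm S ends J (fun p => W ∩ F p) ∪
              (Ufm S ends D F ∪ ins S ends (W ∩ F p))) := by
          refine rk_mono M ?_
          rintro x (hx | hx | hx)
          · exact Or.inl (Or.inl hx)
          · exact Or.inl (Or.inr hx)
          · exact Or.inr (Or.inr hx)
        omega
    have h1 := key P (Finset.Subset.refl _)
    have h2 : ∑ p ∈ P, (W ∩ F p).ncard ≤ W.ncard := by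
      have h3 : ∀ J : Finset ℕ, J ⊆ P →
          ∑ p ∈ J, (W ∩ F p).ncard = (W ∩ ⋃ p ∈ J, F p).ncard := by
        intro J
        induction J using Finset.induction_on with
        | empty => intro _; simp
        | insert p J hp ih =>
          intro hJ
          have hJ' : J ⊆ P := fun q hq => hJ (Finset.mem_insert_of_mem hq)
          rw [Finset.sum_insert hp, ih hJ', Finset.set_biUnion_insert, inter_union_distrib_left,
            Set.ncard_union_eq ?_ (hW.subset inter_subset_left) (hW.subset inter_subset_left)]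
          rw [Set.disjoint_left]
          rintro x ⟨_, hx⟩ ⟨_, hx'⟩
          obtain ⟨q, hq, hxq⟩ := mem_iUnion₂.1 hx'
          exact Set.disjoint_left.1 (h.dis p (hP (hJ (Finset.mem_insert_self _ _))) q
            (hP (hJ' hq)) (fun e => hp (e ▸ hq))) hx hxq
      rw [h3 P (Finset.Subset.refl _)]
      exact ncard_le_ncard inter_subset_left hW
    have h3 : ins (Ufm S ends P F) ends W ⊆ Ufm S ends P fun p => W ∩ F p := by
      intro e he
      obtain ⟨p, hp, h4⟩ := mem_Ufm.1 he.1
      exact mem_Ufm.2 ⟨p, hp, h4.1, fun v hv => ⟨he.2 v hv, h4.2 v hv⟩⟩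
    have hfin : (M ／ Ufm S ends D F).Finite := BQ.fin_contract _
    have h4 : ins (Ufm S ends P F) ends W ⊆ M.E \ Ufm S ends D F :=
      fun e he => hsub he.1
    have h5 := BQ.rk_con hDE h4
    have h6 : BIC.rk M (ins (Ufm S ends P F) ends W ∪ Ufm S ends D F) ≤
        BIC.rk M (Ufm S ends D F ∪ Ufm S ends P fun p => W ∩ F p) := by
      refine rk_mono M ?_
      rintro x (hx | hx)
      · exact Or.inr (h3 hx)
      · exact Or.inl hx
    have h7 : BIC.rk (M ／ Ufm S ends D F) (ins (Ufm S ends P F) ends W) ≤ W.ncard := by omega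
    rw [← cast_rk, ← hW.cast_ncard_eq]
    exact_mod_cast h7

/-! ### Skew families -/

/-- The pieces of `P` are skew modulo `D`. -/
def SkD (M : Matroid α) (S : Set α) (ends : α → Sym2 V) (F : ℕ → Set V) (D P : Finset ℕ) : Prop :=
  ∀ p ∈ P, ∀ G ⊆ P, p ∉ G →
    BIC.rk M (Ufm S ends D F ∪ Ufm S ends G F) + BIC.rk M (Ufm S ends D F ∪ ins S ends (F p)) ≤
      BIC.rk M (Ufm S ends D F ∪ Ufm S ends G F ∪ ins S ends (F p)) +
        BIC.rk M (Ufm S ends D F)

lemma ExD.rk_le [M.Finite] (h : ExD M S ends I F D) (J : Finset ℕ) (hJ : J ⊆ I)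
    (hJD : Disjoint J D) {R : Set α} :
    BIC.rk M (Ufm S ends D F ∪ R ∪ Ufm S ends J F) ≤
      BIC.rk M (Ufm S ends D F ∪ R) + ∑ p ∈ J, (F p).ncard := by
  classical
  induction J using Finset.induction_on with
  | empty =>
    have h1 : Ufm S ends (∅ : Finset ℕ) F = ∅ := by
      ext e
      rw [mem_Ufm]
      simp
    rw [h1, union_empty, Finset.sum_empty]
    exact le_rfl
  | insert p J hp ih =>
    have hJ' : J ⊆ I := fun q hq => hJ (Finset.mem_insert_of_mem hq)
    have h1 := ih hJ' (Finset.disjoint_of_subset_left (Finset.subset_insert _ _) hJD)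
    have hpD : p ∉ D := fun h3 => Finset.disjoint_left.1 hJD (Finset.mem_insert_self _ _) h3
    have h2 := h p (hJ (Finset.mem_insert_self _ _)) hpD (F p) (subset_refl _)
    rw [Ufm_insert, Finset.sum_insert hp]
    have h3 := rk_submod M (Ufm S ends D F ∪ R ∪ Ufm S ends J F)
      (Ufm S ends D F ∪ ins S ends (F p))
    have h4 : BIC.rk M (Ufm S ends D F) ≤
        BIC.rk M ((Ufm S ends D F ∪ R ∪ Ufm S ends J F) ∩
          (Ufm S ends D F ∪ ins S ends (F p))) :=
      rk_mono M (subset_inter (subset_union_left.trans subset_union_left) subset_union_left)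
    have h5 : BIC.rk M (Ufm S ends D F ∪ R ∪ (Ufm S ends J F ∪ ins S ends (F p))) ≤
        BIC.rk M (Ufm S ends D F ∪ R ∪ Ufm S ends J F ∪
          (Ufm S ends D F ∪ ins S ends (F p))) := by
      refine rk_mono M ?_
      rintro x (hx | hx | hx)
      · exact Or.inl (Or.inl hx)
      · exact Or.inl (Or.inr hx)
      · exact Or.inr (Or.inr hx)
    omega

/-- **(T3)** Dichotomy: many jointly unbalanced pieces, or almost all are balanced. -/
theorem FrmU.dich [M.Finite] (hF : FrmU M S ends u) (h : Pcs S ends I F) (m₁ : ℕ) :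
    ∃ D ⊆ I, ExD M S ends I F D ∧
      ((D.card ≤ u ∧ ∃ P ⊆ I, Disjoint P D ∧ P.card = m₁ ∧ SkD M S ends F D P) ∨
        (D.card ≤ u + m₁ ∧ ∀ P ⊆ I, Disjoint P D → SkD M S ends F D P)) := by
  classical
  obtain ⟨D₁, hD₁I, hD₁c, hEx⟩ := exists_exD hF h
  set Q : Finset (Finset ℕ) := (I \ D₁).powerset.filter fun P =>
    BIC.rk M (Ufm S ends D₁ F) + ∑ p ∈ P, (F p).ncard ≤
      BIC.rk M (Ufm S ends D₁ F ∪ Ufm S ends P F) with hQ
  have hne : (∅ : Finset ℕ) ∈ Q := by
    rw [hQ, Finset.mem_filter, Finset.sum_empty]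
    exact ⟨Finset.empty_mem_powerset _, rk_mono M subset_union_left⟩
  obtain ⟨P, hP, hmax⟩ := Finset.exists_max_image Q Finset.card ⟨_, hne⟩
  obtain ⟨hPI, hPr⟩ := Finset.mem_filter.1 hP
  rw [Finset.mem_powerset] at hPI
  have hPI' : P ⊆ I := fun p hp => (Finset.mem_sdiff.1 (hPI hp)).1
  have hPD : Disjoint P D₁ := by
    rw [Finset.disjoint_left]
    exact fun p hp hp' => (Finset.mem_sdiff.1 (hPI hp)).2 hp'
  -- restriction of the joint property
  have hres : ∀ G ⊆ P, BIC.rk M (Ufm S ends D₁ F) + ∑ p ∈ G, (F p).ncard ≤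
      BIC.rk M (Ufm S ends D₁ F ∪ Ufm S ends G F) := by
    intro G hG
    have h1 := hEx.rk_le (P \ G) (fun p hp => hPI' (Finset.mem_sdiff.1 hp).1)
      (Finset.disjoint_of_subset_left Finset.sdiff_subset hPD) (R := Ufm S ends G F)
    have h2 : BIC.rk M (Ufm S ends D₁ F ∪ Ufm S ends P F) ≤
        BIC.rk M (Ufm S ends D₁ F ∪ Ufm S ends G F ∪ Ufm S ends (P \ G) F) := by
      refine rk_mono M ?_
      rintro x (hx | hx)
      · exact Or.inl (Or.inl hx)
      · obtain ⟨p, hp, h3⟩ := mem_Ufm.1 hx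
        by_cases hpG : p ∈ G
        · exact Or.inl (Or.inr (mem_Ufm.2 ⟨p, hpG, h3⟩))
        · exact Or.inr (mem_Ufm.2 ⟨p, Finset.mem_sdiff.2 ⟨hp, hpG⟩, h3⟩)
    have h3 := Finset.sum_sdiff (f := fun p => (F p).ncard) hG
    omega
  rcases Nat.lt_or_ge P.card m₁ with hc | hc
  · -- balanced case
    refine ⟨D₁ ∪ P, Finset.union_subset hD₁I hPI', hEx.mono Finset.subset_union_left, Or.inr ⟨?_, ?_⟩⟩
    · exact (Finset.card_union_le _ _).trans (by omega)
    · intro P' hP'I hP'D p hp G hG hpG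
      have hpD : p ∉ D₁ ∪ P := fun h1 => Finset.disjoint_left.1 hP'D hp h1
      rw [Finset.mem_union, not_or] at hpD
      have e1 : Ufm S ends (D₁ ∪ P) F = Ufm S ends D₁ F ∪ Ufm S ends P F := by
        ext x
        simp only [mem_Ufm, Finset.mem_union, mem_union]
        constructor
        · rintro ⟨q, hq | hq, hx⟩
          · exact Or.inl ⟨q, hq, hx⟩
          · exact Or.inr ⟨q, hq, hx⟩
        · rintro (⟨q, hq, hx⟩ | ⟨q, hq, hx⟩)
          · exact ⟨q, Or.inl hq, hx⟩
          · exact ⟨q, Or.inr hq, hx⟩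
      -- `p` is balanced
      have h1 : BIC.rk M (Ufm S ends (D₁ ∪ P) F ∪ ins S ends (F p)) + 1 ≤
          BIC.rk M (Ufm S ends (D₁ ∪ P) F) + (F p).ncard := by
        by_contra hcon
        push Not at hcon
        have h2 : insert p P ∈ Q := by
          rw [hQ, Finset.mem_filter, Finset.mem_powerset, Finset.sum_insert hpD.2, Ufm_insert,
            ← union_assoc, ← e1]
          refine ⟨Finset.insert_subset (Finset.mem_sdiff.2 ⟨hP'I hp, hpD.1⟩) hPI, ?_⟩
          rw [← e1] at hPr
          omega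
        have h3 := hmax _ h2
        rw [Finset.card_insert_of_notMem hpD.2] at h3
        omega
      have h2 := hF.conn_over (R := Ufm S ends (D₁ ∪ P) F ∪ Ufm S ends G F)
        (union_subset (Ufm_sub _ _) (Ufm_sub _ _)) (h.fin p (hP'I hp)) (h.con p (hP'I hp)) (by
          rintro e (he | he)
          · exact h.avd (Finset.union_subset hD₁I hPI') (hP'I hp)
              (fun h3 => Finset.disjoint_left.1 hP'D hp h3) e he
          · exact h.avd (hG.trans hP'I) (hP'I hp) hpG e he)
      omega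
  · obtain ⟨P', hP', hP'c⟩ := Finset.exists_subset_card_eq hc
    refine ⟨D₁, hD₁I, hEx, Or.inl ⟨hD₁c, P', hP'.trans hPI',
      Finset.disjoint_of_subset_left hP' hPD, hP'c, ?_⟩⟩
    intro p hp G hG hpG
    have h1 := hres (insert p G) (Finset.insert_subset (hP' hp) (hG.trans hP'))
    rw [Finset.sum_insert hpG, Ufm_insert, ← union_assoc] at h1
    have h2 := hEx p (hPI' (hP' hp)) (fun h3 => Finset.disjoint_left.1 hPD (hP' hp) h3) (F p)
      (subset_refl _)
    have h3 := hEx.rk_le G ((hG.trans hP').trans hPI')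
      (Finset.disjoint_of_subset_left (hG.trans hP') hPD) (R := ∅)
    rw [union_empty] at h3
    omega

/-- The sum form of skewness. -/
lemma SkD.sum [M.Finite] (hF : FrmU M S ends u) (h : Pcs S ends I F) {P : Finset ℕ} (hDI : D ⊆ I)
    (hPI : P ⊆ I) (hPD : Disjoint P D) (hS : SkD M S ends F D P) :
    ∑ p ∈ P, BIC.rk (M ／ Ufm S ends D F) (ins S ends (F p)) ≤
      BIC.rk (M ／ Ufm S ends D F) (Ufm S ends P F) := by
  classical
  have hDE : Ufm S ends D F ⊆ M.E := (Ufm_sub _ _).trans hF.sub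
  have hX : ∀ G ⊆ P, Ufm S ends G F ⊆ M.E \ Ufm S ends D F := fun G hG e he =>
    ⟨hF.sub (Ufm_sub _ _ he), Set.disjoint_left.1 (h.disj (hG.trans hPI) hDI
      (Finset.disjoint_of_subset_left hG hPD)) he⟩
  have key : ∀ G ⊆ P, ∑ p ∈ G, BIC.rk (M ／ Ufm S ends D F) (ins S ends (F p)) ≤
      BIC.rk (M ／ Ufm S ends D F) (Ufm S ends G F) := by
    intro G
    induction G using Finset.induction_on with
    | empty => intro _; simp
    | insert p G hp ih =>
      intro hG
      have hG' : G ⊆ P := fun q hq => hG (Finset.mem_insert_of_mem hq)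
      have hpP : p ∈ P := hG (Finset.mem_insert_self _ _)
      have h1 := ih hG'
      have h2 := hS p hpP G hG' hp
      have h3 := BQ.rk_con hDE (hX G hG')
      have h4 := BQ.rk_con hDE (hX _ hG)
      have h5 := BQ.rk_con hDE (X := ins S ends (F p))
        ((subset_trans (by rw [Ufm_insert]; exact subset_union_right)) (hX _ hG))
      rw [Finset.sum_insert hp]
      rw [Ufm_insert] at h4 ⊢
      rw [union_comm (Ufm S ends D F) (Ufm S ends G F),
        union_comm (Ufm S ends D F) (ins S ends (F p))] at h2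
      have e1 : Ufm S ends G F ∪ Ufm S ends D F ∪ ins S ends (F p) =
          Ufm S ends G F ∪ ins S ends (F p) ∪ Ufm S ends D F := by
        rw [union_assoc, union_assoc, union_comm (Ufm S ends D F)]
      rw [e1] at h2
      omega
  exact key P (Finset.Subset.refl _)

/-- **The family of pieces, final form.** -/
theorem FrmU.pieces [M.Finite] (hF : FrmU M S ends u) (h : Pcs S ends I F) (m : ℕ)
    (hI : u + m * (2 * u + 1) + m * (2 * u + m * (2 * u + 1) + 1) ≤ I.card) :
    ∃ (D P : Finset ℕ) (r : ℕ), D ⊆ I ∧ P ⊆ I ∧ Disjoint P D ∧ ExD M S ends I F D ∧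
      u + D.card < r ∧ r ≤ 2 * u + m * (2 * u + 1) + 1 ∧ P.card = m * r ∧
      ∑ p ∈ P, BIC.rk (M ／ Ufm S ends D F) (ins S ends (F p)) ≤
        BIC.rk (M ／ Ufm S ends D F) (Ufm S ends P F) := by
  classical
  obtain ⟨D, hDI, hEx, ⟨hDc, P, hPI, hPD, hPc, hSk⟩ | ⟨hDc, hSk⟩⟩ := hF.dich h (m * (2 * u + 1))
  · exact ⟨D, P, 2 * u + 1, hDI, hPI, hPD, hEx, by omega, by omega, hPc, hSk.sum hF h hDI hPI hPD⟩
  · have h1 : m * (2 * u + m * (2 * u + 1) + 1) ≤ (I \ D).card := by
      have h2 := Finset.card_sdiff_add_card_eq_card hDI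
      omega
    obtain ⟨P, hP, hPc⟩ := Finset.exists_subset_card_eq h1
    have hPI : P ⊆ I := fun p hp => (Finset.mem_sdiff.1 (hP hp)).1
    have hPD : Disjoint P D := by
      rw [Finset.disjoint_left]
      exact fun p hp hp' => (Finset.mem_sdiff.1 (hP hp)).2 hp'
    exact ⟨D, P, 2 * u + m * (2 * u + 1) + 1, hDI, hPI, hPD, hEx, by omega, le_rfl, hPc,
      (hSk P hPI hPD).sum hF h hDI hPI hPD⟩

/-! ### Pure matroid part -/

/-- Subsets of skew sets are skew. -/
lemma skew_sub {M : Matroid α} [M.Finite] {P : Finset ℕ} {A N : ℕ → Set α}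
    (hN : ∀ p ∈ P, N p ⊆ A p) (hs : ∑ p ∈ P, BIC.rk M (A p) ≤ BIC.rk M (⋃ p ∈ P, A p)) :
    ∑ p ∈ P, BIC.rk M (N p) ≤ BIC.rk M (⋃ p ∈ P, N p) := by
  classical
  -- replace the sets one by one
  have key : ∀ G ⊆ P, ∑ p ∈ G, BIC.rk M (N p) + ∑ p ∈ P \ G, BIC.rk M (A p) ≤
      BIC.rk M ((⋃ p ∈ G, N p) ∪ ⋃ p ∈ P \ G, A p) := by
    intro G
    induction G using Finset.induction_on with
    | empty =>
      intro _
      rw [Finset.sdiff_empty]
      simpa using hs
    | insert p G hp ih =>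
      intro hG
      have hG' : G ⊆ P := fun q hq => hG (Finset.mem_insert_of_mem hq)
      have hpP : p ∈ P := hG (Finset.mem_insert_self _ _)
      have h1 := ih hG'
      have h2 : P \ G = insert p (P \ insert p G) := by
        ext q
        simp only [Finset.mem_sdiff, Finset.mem_insert, not_or]
        constructor
        · rintro ⟨h3, h4⟩
          by_cases h5 : q = p
          · exact Or.inl h5
          · exact Or.inr ⟨h3, h5, h4⟩
        · rintro (rfl | ⟨h3, _, h4⟩)
          · exact ⟨hpP, hp⟩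
          · exact ⟨h3, h4⟩
      have hp' : p ∉ P \ insert p G := by simp
      rw [h2, Finset.sum_insert hp', Finset.set_biUnion_insert] at h1
      rw [Finset.sum_insert hp, Finset.set_biUnion_insert]
      have h3 := rk_submod M ((N p ∪ ⋃ q ∈ G, N q) ∪ ⋃ q ∈ P \ insert p G, A q) (A p)
      have h4 : BIC.rk M (N p) ≤
          BIC.rk M (((N p ∪ ⋃ q ∈ G, N q) ∪ ⋃ q ∈ P \ insert p G, A q) ∩ A p) :=
        rk_mono M (subset_inter (subset_union_left.trans subset_union_left) (hN p hpP))
      have h5 : BIC.rk M ((⋃ q ∈ G, N q) ∪ (A p ∪ ⋃ q ∈ P \ insert p G, A q)) ≤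
          BIC.rk M (((N p ∪ ⋃ q ∈ G, N q) ∪ ⋃ q ∈ P \ insert p G, A q) ∪ A p) := by
        refine rk_mono M ?_
        rintro x (hx | hx | hx)
        · exact Or.inl (Or.inl (Or.inr hx))
        · exact Or.inr hx
        · exact Or.inl (Or.inr hx)
      omega
  have h1 := key P (Finset.Subset.refl _)
  rw [Finset.sdiff_self] at h1
  simpa using h1

/-- **(T5)** Among `r > ρ` pieces, skew modulo `D₀`, with connectivity at most `ρ` to `D₀`, one is
skew to `D₀` modulo the others. -/
theorem exists_exact {M : Matroid α} [M.Finite] {G : Finset ℕ} {N : ℕ → Set α} {D₀ : Set α} {ρ : ℕ}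
    (hs : ∑ p ∈ G, (BIC.rk M (N p ∪ D₀) - BIC.rk M D₀) + BIC.rk M D₀ ≤
      BIC.rk M ((⋃ p ∈ G, N p) ∪ D₀))
    (hc : BIC.rk M (⋃ p ∈ G, N p) + BIC.rk M D₀ ≤ BIC.rk M ((⋃ p ∈ G, N p) ∪ D₀) + ρ)
    (hρ : ρ < G.card) :
    ∃ p ∈ G, BIC.rk M (N p ∪ ⋃ q ∈ G.erase p, N q) + BIC.rk M (D₀ ∪ ⋃ q ∈ G.erase p, N q) ≤
        BIC.rk M ((N p ∪ ⋃ q ∈ G.erase p, N q) ∪ D₀) + BIC.rk M (⋃ q ∈ G.erase p, N q) := by
  classical
  by_contra hcon
  push Not at hcon
  -- `x_p := r(N_p | R_p) - r(N_p | R_p ∪ D₀) ≥ 1` for every `p`; the sum telescopes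
  have key : ∀ H ⊆ G, BIC.rk M ((⋃ p ∈ H, N p) ∪ D₀) + H.card ≤
      BIC.rk M (⋃ p ∈ H, N p) + BIC.rk M D₀ := by
    intro H
    induction H using Finset.induction_on with
    | empty =>
      intro _
      simp
    | insert p H hp ih =>
      intro hH
      have hH' : H ⊆ G := fun q hq => hH (Finset.mem_insert_of_mem hq)
      have hpG : p ∈ G := hH (Finset.mem_insert_self _ _)
      have h1 := ih hH'
      have h2 := hcon p hpG
      set R := ⋃ q ∈ G.erase p, N q with hR
      set Y := ⋃ q ∈ H, N q with hY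
      have hYR : Y ⊆ R := by
        intro x hx
        obtain ⟨q, hq, hxq⟩ := mem_iUnion₂.1 hx
        exact mem_iUnion₂.2 ⟨q, Finset.mem_erase.2 ⟨fun e => hp (e ▸ hq), hH' hq⟩, hxq⟩
      rw [Finset.set_biUnion_insert, Finset.card_insert_of_notMem hp, ← hY]
      -- `r(N_p | R) ≤ r(N_p | Y)`
      have h3 := rk_submod M (N p ∪ Y) R
      have h4 : BIC.rk M Y ≤ BIC.rk M ((N p ∪ Y) ∩ R) :=
        rk_mono M (subset_inter subset_union_right hYR)
      have h5 : BIC.rk M (N p ∪ R) ≤ BIC.rk M ((N p ∪ Y) ∪ R) :=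
        rk_mono M (union_subset (subset_union_left.trans subset_union_left) subset_union_right)
      -- skewness: `r(N_p | R ∪ D₀) ≥ r(N_p | Y ∪ D₀)`
      have h6 : BIC.rk M ((N p ∪ Y) ∪ D₀) + BIC.rk M (D₀ ∪ R) ≤
          BIC.rk M ((N p ∪ R) ∪ D₀) + BIC.rk M (Y ∪ D₀) := by
        have g1 : BIC.rk M ((⋃ q ∈ G, N q) ∪ D₀) ≤ BIC.rk M ((N p ∪ R) ∪ D₀) := by
          refine rk_mono M (union_subset_union_left _ ?_)
          intro x hx
          obtain ⟨q, hq, hxq⟩ := mem_iUnion₂.1 hx
          by_cases hqp : q = p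
          · rw [hqp] at hxq
            exact Or.inl hxq
          · exact Or.inr (mem_iUnion₂.2 ⟨q, Finset.mem_erase.2 ⟨hqp, hq⟩, hxq⟩)
        -- `r(R ∪ D₀) ≤ r(D₀) + sum over G \ {p}`
        have g2 : ∀ J : Finset ℕ, BIC.rk M ((⋃ q ∈ J, N q) ∪ D₀) ≤
            ∑ q ∈ J, (BIC.rk M (N q ∪ D₀) - BIC.rk M D₀) + BIC.rk M D₀ := by
          intro J
          induction J using Finset.induction_on with
          | empty => simp
          | insert q J hq ihJ =>
            rw [Finset.sum_insert hq, Finset.set_biUnion_insert]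
            have k1 := rk_submod M (N q ∪ D₀) ((⋃ x ∈ J, N x) ∪ D₀)
            have k2 : BIC.rk M D₀ ≤ BIC.rk M ((N q ∪ D₀) ∩ ((⋃ x ∈ J, N x) ∪ D₀)) :=
              rk_mono M (subset_inter subset_union_right subset_union_right)
            have k3 : BIC.rk M (N q ∪ (⋃ x ∈ J, N x) ∪ D₀) ≤
                BIC.rk M ((N q ∪ D₀) ∪ ((⋃ x ∈ J, N x) ∪ D₀)) := by
              refine rk_mono M ?_
              rintro x ((hx | hx) | hx)
              · exact Or.inl (Or.inl hx)
              · exact Or.inr (Or.inl hx)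
              · exact Or.inl (Or.inr hx)
            have k4 : BIC.rk M D₀ ≤ BIC.rk M (N q ∪ D₀) := rk_mono M subset_union_right
            omega
        have g3 := g2 (G.erase p)
        rw [← hR, union_comm R D₀] at g3
        have g4 := Finset.sum_erase_add G (fun q => BIC.rk M (N q ∪ D₀) - BIC.rk M D₀) hpG
        have g5 := rk_submod M (N p ∪ D₀) (Y ∪ D₀)
        have g6 : BIC.rk M D₀ ≤ BIC.rk M ((N p ∪ D₀) ∩ (Y ∪ D₀)) :=
          rk_mono M (subset_inter subset_union_right subset_union_right)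
        have g7 : BIC.rk M ((N p ∪ Y) ∪ D₀) ≤ BIC.rk M ((N p ∪ D₀) ∪ (Y ∪ D₀)) := by
          refine rk_mono M ?_
          rintro x ((hx | hx) | hx)
          · exact Or.inl (Or.inl hx)
          · exact Or.inr (Or.inl hx)
          · exact Or.inl (Or.inr hx)
        have g8 : BIC.rk M D₀ ≤ BIC.rk M (N p ∪ D₀) := rk_mono M subset_union_right
        omega
      omega
  have h1 := key G (Finset.Subset.refl _)
  omega

end EN
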