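import Pool.Agent.EN.Third
import Pool.Agent.EN.LinkE
import Pool.Agent.EN.LinkDef

/-!
# Pieces for the linking: certificates, graph models with legs (helper51)
-/

open Set
open scoped Matroid

namespace EN

open BIC Gad

variable {α V : Type*}

/-- The edges of a grid. -/
def Eds (t : ℕ) (ed : ℕ × ℕ → ℕ × ℕ → α) : Set α := {e | ∃ c c', Nb t c c' ∧ e = ed c c'}

/-- **Certificate.**  Inside the vertex set `V₀` there are disjoint cells `U c`, `c ∈ Cl t`, with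
spanning trees `τ c`; `C` consists of these trees and of elements `F` away from the cells; `ed` are
elements between neighbouring cells; the cell `(0, b)` contains the set `A b` (here the legs
arrive). -/
def Crt (S : Set α) (ends : α → Sym2 V) (V₀ : Set V) (A : ℕ → Set V) (t : ℕ) (C : Set α)
    (ed : ℕ × ℕ → ℕ × ℕ → α) : Prop :=
  ∃ (U : ℕ × ℕ → Set V) (τ : ℕ × ℕ → Set α) (F : Set α),
    (∀ c ∈ Cl t, (U c).Finite ∧ U c ⊆ V₀ ∧ Arb S ends (U c) (τ c)) ∧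
    (∀ c ∈ Cl t, ∀ c' ∈ Cl t, c ≠ c' → Disjoint (U c) (U c')) ∧
    F ⊆ ins S ends V₀ ∧ (∀ e ∈ F, ∀ v ∈ ends e, ∀ c ∈ Cl t, v ∉ U c) ∧
    C = F ∪ ⋃ c ∈ ClF t, τ c ∧
    (∀ c c', Nb t c c' → ed c c' ∈ S ∧ ∃ a ∈ U c, ∃ b ∈ U c', ends (ed c c') = s(a, b)) ∧
    ∀ b < t, A b ⊆ U (0, b)

/-- Grid model of side `2 * t` with an apex inside `V₀`; `A b` is the cell `(0, b)`. -/
def PcZ (S : Set α) (ends : α → Sym2 V) (V₀ : Set V) (t : ℕ) (A : ℕ → Set V) : Prop :=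
  ∃ (U : ℕ × ℕ → Set V) (Z : Set V), Z.Finite ∧ Z ⊆ V₀ ∧ VConn S ends Z ∧
    (∀ c ∈ Cl (2 * t), (U c).Finite ∧ U c ⊆ V₀ ∧ VConn S ends (U c)) ∧
    (∀ c ∈ Cl (2 * t), ∀ c' ∈ Cl (2 * t), c ≠ c' → Disjoint (U c) (U c')) ∧
    (∀ c ∈ Cl (2 * t), Disjoint (U c) Z) ∧ (∀ c c', Nb (2 * t) c c' → Lnk S ends (U c) (U c')) ∧
    (∀ c ∈ Cl (2 * t), Lnk S ends (U c) Z) ∧ ∀ b < 2 * t, A b = U (0, b)

/-- Grid model of side `t` with a joint in every cell, inside `V₀`; `A b` is the cell `(0, b)`. -/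
def PcU (M : Matroid α) (S : Set α) (ends : α → Sym2 V) (V₀ : Set V) (t : ℕ) (A : ℕ → Set V) :
    Prop :=
  ∃ (U Z : ℕ × ℕ → Set V) (τ₀ : ℕ × ℕ → Set α) (j : ℕ × ℕ → α),
    (∀ c ∈ Cl t, (U c).Finite ∧ U c ⊆ V₀ ∧ Z c ⊆ U c ∧ VConn S ends (U c)) ∧
    (∀ c ∈ Cl t, ∀ c' ∈ Cl t, c ≠ c' → Disjoint (U c) (U c')) ∧
    (∀ c ∈ Cl t, Arb S ends (Z c) (τ₀ c)) ∧
    (∀ c ∈ Cl t, j c ∈ ins S ends (Z c) ∧ j c ∉ τ₀ c) ∧
    M.Indep (⋃ c ∈ ClF t, insert (j c) (τ₀ c)) ∧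
    (∀ c c', Nb t c c' → Lnk S ends (U c) (U c')) ∧ ∀ b < t, A b = U (0, b)

/-- The grid with joints of a piece: `C`, `S'` inside `V₀`, with a certificate; `A` = where the legs
arrive. -/
def Jc (M : Matroid α) (S : Set α) (ends : α → Sym2 V) (V₀ : Set V) (t : ℕ) (A : ℕ → Set V)
    (C S' : Set α) (j : ℕ × ℕ → α) (ed : ℕ × ℕ → ℕ × ℕ → α) : Prop :=
  C ⊆ ins S ends V₀ ∧ S' ⊆ ins S ends V₀ ∧ Disjoint C S' ∧ M.Indep (C ∪ j '' Cl t) ∧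
    JGrid (M ／ C) S' t j ed ∧ Crt S ends V₀ A t C ed

/-- **Linking data** of a family of pieces `V₀ p`, `p ∈ I`: `Off p A` = the legs of the piece `p`
can be `A b`, `b < t`.  `lk`: `K₁` disjoint connected sets between any two pieces, which avoid all
other pieces; `lm`: if `X` avoids `Q` and has order less than `K₂` there is a connected set of
elements `B` outside of `X`, away from the piece, and `K₁` disjoint connected sets from the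
piece to `B`. -/
structure Lks (M : Matroid α) (S : Set α) (ends : α → Sym2 V) (K₁ K₂ t : ℕ) (Q : Set α)
    (I : Finset ℕ) (V₀ : ℕ → Set V) (Off : ℕ → (ℕ → Set V) → Prop) : Prop where
  lk : ∀ p ∈ I, ∀ q ∈ I, p ≠ q → ∀ A A', Off p A → Off q A' →
    ∃ (L : ℕ → Set V) (β γ : ℕ → ℕ),
      (∀ i < K₁, (L i).Finite ∧ VConn S ends (L i) ∧ β i < t ∧ γ i < t ∧
        (L i ∩ V₀ p).Nonempty ∧ L i ∩ V₀ p ⊆ A (β i) ∧
        (L i ∩ V₀ q).Nonempty ∧ L i ∩ V₀ q ⊆ A' (γ i) ∧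
        ∀ r ∈ I, r ≠ p → r ≠ q → Disjoint (L i) (V₀ r)) ∧
      ∀ i < K₁, ∀ j < K₁, i ≠ j → Disjoint (L i) (L j) ∧ β i ≠ β j ∧ γ i ≠ γ j
  lm : ∀ p ∈ I, ∀ A, Off p A → ∀ X ⊆ M.E, Disjoint X Q →
    BIC.rk M X + BIC.rk M (M.E \ X) < BIC.rk M M.E + K₂ →
    ∃ (VB : Set V) (B : Set α) (L : ℕ → Set V) (β : ℕ → ℕ), VB.Finite ∧ VConn B ends VB ∧
      B ⊆ ins S ends VB ∧ Disjoint B X ∧ Disjoint VB (V₀ p) ∧
      (∀ i < K₁, (L i).Finite ∧ VConn S ends (L i) ∧ β i < t ∧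
        (L i ∩ V₀ p).Nonempty ∧ L i ∩ V₀ p ⊆ A (β i) ∧ (L i ∩ VB).Nonempty) ∧
      ∀ i < K₁, ∀ j < K₁, i ≠ j → Disjoint (L i) (L j) ∧ β i ≠ β j

/-- The legs of the piece `p` are columns `y i` in its interval `[lp p, rp p]` of a page, they
arrive at level `a`. -/
def OffP (P : ℕ × ℕ → V) (a t : ℕ) (lp rp : ℕ → ℕ) (V₀ : ℕ → Set V) (p : ℕ) (A : ℕ → Set V) :
    Prop :=
  ∃ y : ℕ → ℕ, (∀ i < t, lp p ≤ y i ∧ y i ≤ rp p ∧ P (y i, a) ∈ A i ∧ A i ⊆ V₀ p) ∧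
    ∀ i < t, ∀ j < t, i ≠ j → y i ≠ y j

end EN
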