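import Pool.Agent.TST.PathQ
import Pool.Agent.EN.LinkDef2

/-!
# Row F2a: linking two pieces with certificates (helper88, MP_5165fa_co)
-/

open Set Relation
open scoped Matroid

namespace EN

open BIC Gad TST

universe uV uI

section quot

variable {α : Type*} {V : Type uV} {ι : Type uI} {M : Matroid α} {S : Set α} {ends : α → Sym2 V}
  {u : ℕ} {U : ι → Set V} {τ : ι → Set α}

/-- Parts joined by the elements of `A` are connected in the quotient. -/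
lemma vconn_parts (hUd : ∀ i j, i ≠ j → Disjoint (U i) (U j)) {A : Set α} {I : Set ι}
    (hI : ∀ i ∈ I, ∀ j ∈ I, ReflTransGen (fun x y =>
      (∃ e ∈ A, e ∈ S ∧ ∃ p ∈ U x, ∃ q ∈ U y, ends e = s(p, q)) ∧ x ∈ I ∧ y ∈ I) i j) :
    VConn (A ∩ ins (qS U ends S) (qe U ends) (Sum.inr '' I : Set (V ⊕ ι))) (qe U ends)
      (Sum.inr '' I) := by
  rintro _ ⟨i, hi, rfl⟩ _ ⟨j, hj, rfl⟩
  have h1 := hI i hi j hj
  clear hj
  induction h1 with
  | refl => exact ReflTransGen.refl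
  | @tail x y hix hxy ih =>
    obtain ⟨⟨e, heA, heS, p, hp, q, hq, hee⟩, hx, hy⟩ := hxy
    by_cases hxy : x = y
    · rw [← hxy]; exact ih
    · have h2 : qe U ends e = s(Sum.inr x, Sum.inr y) := by
        rw [qe, hee, Sym2.map_mk, qv_mem hUd hp, qv_mem hUd hq]
      refine ih.tail ⟨⟨e, ⟨heA, ⟨heS, ?_⟩, ?_⟩, h2⟩, ⟨x, hx, rfl⟩, ⟨y, hy, rfl⟩⟩
      · rw [h2, Sym2.mk_isDiag_iff]
        intro h3
        exact hxy (Sum.inr.inj h3)
      · intro z hz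
        rw [h2] at hz
        rcases Sym2.mem_iff.1 hz with rfl | rfl
        · exact ⟨x, hx, rfl⟩
        · exact ⟨y, hy, rfl⟩

/-- Two families of parts, joined by `A` and by `B`, and disjoint connected sets between them. -/
theorem FrmU.kge_quot2 [M.Finite] (hF : FrmU M S ends u) (hUf : ∀ i, (U i).Finite)
    (hτ : ∀ i, Arb S ends (U i) (τ i)) (hUd : ∀ i j, i ≠ j → Disjoint (U i) (U j))
    {A B : Set α} {I J : Set ι} (hIf : I.Finite) (hJf : J.Finite)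
    (hI : ∀ i ∈ I, ∀ j ∈ I, ReflTransGen (fun x y =>
      (∃ e ∈ A, e ∈ S ∧ ∃ p ∈ U x, ∃ q ∈ U y, ends e = s(p, q)) ∧ x ∈ I ∧ y ∈ I) i j)
    (hJ : ∀ i ∈ J, ∀ j ∈ J, ReflTransGen (fun x y =>
      (∃ e ∈ B, e ∈ S ∧ ∃ p ∈ U x, ∃ q ∈ U y, ends e = s(p, q)) ∧ x ∈ J ∧ y ∈ J) i j) {K : ℕ}
    (Q : Fin (K + u + 2) → Set V) (hQf : ∀ k, (Q k).Finite) (hQ : ∀ k, VConn S ends (Q k))
    (hQd : ∀ k l, k ≠ l → Disjoint (Q k) (Q l))
    (hsep : ∀ k l, k ≠ l → ∀ i, ∀ v ∈ Q k, v ∈ U i → ∀ w ∈ Q l, w ∉ U i)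
    (hQA : ∀ k, ∃ i ∈ I, (Q k ∩ U i).Nonempty) (hQB : ∀ k, ∃ i ∈ J, (Q k ∩ U i).Nonempty) :
    KGe (M ／ (⋃ i, τ i)) A B K := by
  classical
  have hF' := frmU_quot hF hUf hτ hUd
  have hfin : (M ／ (⋃ i, τ i)).Finite := inferInstance
  have key := EN.FrmU.kge hF' (VA := Sum.inr '' I) (VB := Sum.inr '' J) (hIf.image _)
    (hJf.image _) (fun e he => he.2) (fun e he => he.2) (vconn_parts hUd hI) (vconn_parts hUd hJ)
    (fun k => qv U '' Q k) (fun k => (hQf k).image _) (by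
      intro k
      refine TST.vconn_mono (vconn_qv (U := U) (hQ k)) ?_
      exact fun e he => he.2.1) (by
      intro k l hkl
      rw [Set.disjoint_left]
      rintro _ ⟨v, hv, rfl⟩ ⟨w, hw, hwv⟩
      by_cases h1 : ∃ i, v ∈ U i
      · obtain ⟨i, hi⟩ := h1
        rw [qv_mem hUd hi] at hwv
        exact hsep k l hkl i v hv hi w hw (qv_inr hwv)
      · rw [qv_not (fun i hi => h1 ⟨i, hi⟩)] at hwv
        have h2 := (qv_inl hwv).1
        rw [h2] at hw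
        exact Set.disjoint_left.1 (hQd k l hkl) hv hw) (by
      intro k
      obtain ⟨i, hi, v, hv, hvi⟩ := hQA k
      exact ⟨Sum.inr i, ⟨v, hv, qv_mem hUd hvi⟩, ⟨i, hi, rfl⟩⟩) (by
      intro k
      obtain ⟨i, hi, v, hv, hvi⟩ := hQB k
      exact ⟨Sum.inr i, ⟨v, hv, qv_mem hUd hvi⟩, ⟨i, hi, rfl⟩⟩)
  exact BQ.KGe.mono_right (BQ.KGe.mono_left key inter_subset_left) inter_subset_left

/-- Contracting elements away from the graph. -/
lemma FrmU.con_avd [M.Finite] (hF : FrmU M S ends u) {R : Set α} (hR : R ⊆ S) {W : Set V}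
    (hRW : Avd ends R W) : FrmU (M ／ R) (ins S ends W) ends u := by
  have hRE : R ⊆ M.E := hR.trans hF.sub
  refine ⟨?_, ?_, ?_⟩
  · intro e he
    rw [Matroid.contract_ground]
    refine ⟨hF.sub he.1, fun h => ?_⟩
    obtain ⟨v, hv⟩ := exists_mem_ends ends e
    exact hRW e h v hv (he.2 v hv)
  · intro v e he hv hcl
    rw [Matroid.contract_closure_eq] at hcl
    refine hF.star v e he.1 hv (M.closure_subset_closure ?_ hcl.1)
    rintro x (hx | hx)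
    · exact ⟨hx.1.1, hx.2⟩
    · refine ⟨hR hx, fun w hw => ?_⟩
      rintro rfl
      exact hRW x hx _ hw (he.2 _ hv)
  · intro W' hW'
    have h1 := hF.rk W' hW'
    have h2 : ins (ins S ends W) ends W' ⊆ ins S ends W' := fun e he => ⟨he.1.1, he.2⟩
    have h3 : ins (ins S ends W) ends W' ⊆ M.E \ R := by
      intro e he
      refine ⟨hF.sub he.1.1, fun h => ?_⟩
      obtain ⟨v, hv⟩ := exists_mem_ends ends e
      exact hRW e h v hv (he.1.2 v hv)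
    have h4 := BQ.rk_con (M := M) hRE h3
    have h5 := rk_submod M (ins (ins S ends W) ends W') R
    have h6 := rk_mono M h2
    omega

/-- Connectivity is monotone under contraction. -/
lemma kge_uncontract [M.Finite] {C A B : Set α} (hC : C ⊆ M.E) (hCA : Disjoint C A) {K : ℕ}
    (h : KGe (M ／ C) A B K) : KGe M A B K := by
  intro X hAX hXB
  have hXE : X ⊆ M.E := hXB.trans sdiff_subset
  have h1 := h (X \ C) (fun x hx => ⟨hAX hx, Set.disjoint_right.1 hCA hx⟩) (by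
    rw [Matroid.contract_ground]
    exact fun x hx => ⟨⟨hXE hx.1, hx.2⟩, (hXB hx.1).2⟩)
  have h2 := BQ.conn_minor (M := M) (E₁ := M.E \ C) (A := X) hC (Subset.refl _) hXE
  rw [Matroid.contract_ground] at h1
  have e1 : (M.E \ C) ∩ X = X \ C := by
    ext x
    constructor
    · rintro ⟨⟨_, h3⟩, h4⟩
      exact ⟨h4, h3⟩
    · rintro ⟨h3, h4⟩
      exact ⟨⟨hXE h3, h4⟩, h3⟩
  have e2 : (M.E \ C) \ X = (M.E \ C) \ (X \ C) := by
    ext x
    constructor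
    · rintro ⟨h3, h4⟩
      exact ⟨h3, fun h5 => h4 h5.1⟩
    · rintro ⟨h3, h4⟩
      exact ⟨h3, fun h5 => h4 ⟨h5, h3.2⟩⟩
  rw [e1, e2] at h2
  omega

end quot

variable {α V : Type*}

/-- The cells of a grid are joined by its edges. -/
lemma cells_conn {β : Type*} {t : ℕ} {r : β → β → Prop} {cell : ℕ × ℕ → β}
    (hr : ∀ c c', Nb t c c' → r (cell c) (cell c')) {c c' : ℕ × ℕ} (hc : c ∈ Cl t)
    (hc' : c' ∈ Cl t) : ReflTransGen (fun x y => r x y ∧ x ∈ cell '' Cl t ∧ y ∈ cell '' Cl t)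
      (cell c) (cell c') := by
  obtain ⟨a, b⟩ := c
  obtain ⟨a', b'⟩ := c'
  obtain ⟨ha, hb⟩ := hc
  obtain ⟨ha', hb'⟩ := hc'
  simp only at ha hb ha' hb'
  have hstep : ∀ c c', Nb t c c' → (r (cell c) (cell c') ∧ cell c ∈ cell '' Cl t ∧
      cell c' ∈ cell '' Cl t) := fun c c' hn => ⟨hr c c' hn, ⟨c, hn.1, rfl⟩, ⟨c', hn.2.1, rfl⟩⟩
  have hrow : ∀ a b, a < t → b < t →
      ReflTransGen (fun x y => r x y ∧ x ∈ cell '' Cl t ∧ y ∈ cell '' Cl t)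
        (cell (a, 0)) (cell (a, b)) ∧
      ReflTransGen (fun x y => r x y ∧ x ∈ cell '' Cl t ∧ y ∈ cell '' Cl t)
        (cell (a, b)) (cell (a, 0)) := by
    intro a b ha
    induction b with
    | zero => intro _; exact ⟨ReflTransGen.refl, ReflTransGen.refl⟩
    | succ b ih =>
      intro hb
      obtain ⟨h1, h2⟩ := ih (by omega)
      have hb' : b < t := by omega
      exact ⟨h1.tail (hstep (a, b) (a, b + 1) ⟨⟨ha, hb'⟩, ⟨ha, hb⟩, Or.inl ⟨rfl, Or.inl rfl⟩⟩),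
        ReflTransGen.head (hstep (a, b + 1) (a, b)
          ⟨⟨ha, hb⟩, ⟨ha, hb'⟩, Or.inl ⟨rfl, Or.inr rfl⟩⟩) h2⟩
  have hcol : ∀ a, a < t →
      ReflTransGen (fun x y => r x y ∧ x ∈ cell '' Cl t ∧ y ∈ cell '' Cl t)
        (cell (0, 0)) (cell (a, 0)) ∧
      ReflTransGen (fun x y => r x y ∧ x ∈ cell '' Cl t ∧ y ∈ cell '' Cl t)
        (cell (a, 0)) (cell (0, 0)) := by
    intro a
    induction a with
    | zero => intro _; exact ⟨ReflTransGen.refl, ReflTransGen.refl⟩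
    | succ a ih =>
      intro ha
      obtain ⟨h1, h2⟩ := ih (by omega)
      have ha' : a < t := by omega
      have h0 : 0 < t := by omega
      exact ⟨h1.tail (hstep (a, 0) (a + 1, 0) ⟨⟨ha', h0⟩, ⟨ha, h0⟩, Or.inr ⟨rfl, Or.inl rfl⟩⟩),
        ReflTransGen.head (hstep (a + 1, 0) (a, 0)
          ⟨⟨ha, h0⟩, ⟨ha', h0⟩, Or.inr ⟨rfl, Or.inr rfl⟩⟩) h2⟩
  exact ((hrow a b ha hb).2.trans (hcol a ha).2).trans
    ((hcol a' ha').1.trans (hrow a' b' ha' hb').1)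

/-- **Row F2a.** Linking two pieces. -/
theorem FrmU.kge_crt {M : Matroid α} [M.Finite] {S : Set α} {ends : α → Sym2 V} {u : ℕ}
    (hF : FrmU M S ends u) {K t : ℕ} (ht : 2 ≤ t) {V₁ V₂ : Set V} {A₁ A₂ : ℕ → Set V}
    {C₁ C₂ R : Set α} {ed₁ ed₂ : ℕ × ℕ → ℕ × ℕ → α} (h₁ : Crt S ends V₁ A₁ t C₁ ed₁)
    (h₂ : Crt S ends V₂ A₂ t C₂ ed₂) (hV : Disjoint V₁ V₂) (hR : R ⊆ S) (hR₁ : Avd ends R V₁)
    (hR₂ : Avd ends R V₂) (L : ℕ → Set V) (β γ : ℕ → ℕ)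
    (hL : ∀ i < K + u + 2, (L i).Finite ∧ VConn S ends (L i) ∧ β i < t ∧ γ i < t ∧
      (L i ∩ V₁).Nonempty ∧ L i ∩ V₁ ⊆ A₁ (β i) ∧ (L i ∩ V₂).Nonempty ∧ L i ∩ V₂ ⊆ A₂ (γ i) ∧
      Avd ends R (L i))
    (hd : ∀ i < K + u + 2, ∀ j < K + u + 2, i ≠ j →
      Disjoint (L i) (L j) ∧ β i ≠ β j ∧ γ i ≠ γ j) :
    KGe (M ／ (C₁ ∪ R)) (Eds t ed₁) (Eds t ed₂) K := by
  classical
  obtain ⟨U₁, τ₁, F₁, a1, a2, a3, a4, a5, a6, a7⟩ := h₁
  obtain ⟨U₂, τ₂, F₂, b1, b2, b3, b4, b5, b6, b7⟩ := h₂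
  -- the contracted rest
  obtain ⟨R', hR'⟩ : ∃ R' : Set α, R' = R ∪ F₁ ∪ F₂ := ⟨_, rfl⟩
  obtain ⟨W, hW⟩ : ∃ W : Set V, W = {v | ∀ e ∈ R', v ∉ ends e} := ⟨_, rfl⟩
  have hmW : ∀ v, v ∈ W ↔ ∀ e ∈ R', v ∉ ends e := by
    intro v
    rw [hW]
    rfl
  have hR'S : R' ⊆ S := by
    rw [hR']
    exact union_subset (union_subset hR fun e he => (a3 he).1) fun e he => (b3 he).1
  have hRW : Avd ends R' W := fun e he v hv hvW => (hmW v).1 hvW e he hv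
  have hF' := hF.con_avd hR'S hRW
  have hU₁ : ∀ c ∈ Cl t, U₁ c ⊆ W := by
    intro c hc v hv
    rw [hmW]
    intro e he hve
    rw [hR'] at he
    have hvV := (a1 c hc).2.1 hv
    rcases he with (he | he) | he
    · exact hR₁ e he v hve hvV
    · exact a4 e he v hve c hc hv
    · exact Set.disjoint_left.1 hV hvV ((b3 he).2 v hve)
  have hU₂ : ∀ c ∈ Cl t, U₂ c ⊆ W := by
    intro c hc v hv
    rw [hmW]
    intro e he hve
    rw [hR'] at he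
    have hvV := (b1 c hc).2.1 hv
    rcases he with (he | he) | he
    · exact hR₂ e he v hve hvV
    · exact Set.disjoint_left.1 hV ((a3 he).2 v hve) hvV
    · exact b4 e he v hve c hc hv
  have hLW : ∀ i < K + u + 2, L i ⊆ W := by
    intro i hi v hv
    rw [hmW]
    intro e he hve
    obtain ⟨_, _, h3, h4, _, h6, _, h8, h9⟩ := hL i hi
    rw [hR'] at he
    rcases he with (he | he) | he
    · exact h9 e he v hve hv
    · have h10 := h6 ⟨hv, (a3 he).2 v hve⟩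
      exact a4 e he v hve (0, β i) ⟨by simp only; omega, h3⟩ (a7 _ h3 h10)
    · have h10 := h8 ⟨hv, (b3 he).2 v hve⟩
      exact b4 e he v hve (0, γ i) ⟨by simp only; omega, h4⟩ (b7 _ h4 h10)
  have harb : ∀ {U : Set V} {τ : Set α}, Arb S ends U τ → U ⊆ W →
      Arb (ins S ends W) ends U τ := by
    rintro U τ ⟨h1, h2, h3⟩ h4
    exact ⟨fun e he => ⟨⟨(h1 he).1, fun v hv => h4 ((h1 he).2 v hv)⟩, (h1 he).2⟩, h2, h3⟩
  -- the parts
  obtain ⟨U, hU⟩ : ∃ U : Bool × {c // c ∈ Cl t} → Set V,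
      ∀ x, U x = if x.1 then U₂ x.2.1 else U₁ x.2.1 := ⟨_, fun _ => rfl⟩
  obtain ⟨τ, hτ⟩ : ∃ τ : Bool × {c // c ∈ Cl t} → Set α,
      ∀ x, τ x = if x.1 then τ₂ x.2.1 else τ₁ x.2.1 := ⟨_, fun _ => rfl⟩
  have hUf : ∀ x, (U x).Finite := by
    rintro ⟨b, c⟩
    rw [hU]
    cases b
    · exact (a1 c.1 c.2).1
    · exact (b1 c.1 c.2).1
  have hUτ : ∀ x, Arb (ins S ends W) ends (U x) (τ x) := by
    rintro ⟨b, c⟩
    rw [hU, hτ]
    cases b
    · exact harb (a1 c.1 c.2).2.2 (hU₁ _ c.2)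
    · exact harb (b1 c.1 c.2).2.2 (hU₂ _ c.2)
  have hUd : ∀ x y, x ≠ y → Disjoint (U x) (U y) := by
    rintro ⟨b, c⟩ ⟨b', c'⟩ hne
    rw [hU, hU]
    cases b <;> cases b'
    · exact a2 _ c.2 _ c'.2 (fun h => hne (by rw [Subtype.ext h]))
    · exact hV.mono (a1 c.1 c.2).2.1 (b1 c'.1 c'.2).2.1
    · exact hV.symm.mono (b1 c.1 c.2).2.1 (a1 c'.1 c'.2).2.1
    · exact b2 _ c.2 _ c'.2 (fun h => hne (by rw [Subtype.ext h]))
  have hfin : (M ／ R').Finite := BQ.fin_contract _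
  have hclf : (Cl t).Finite := by
    refine (((Set.finite_Iio t).prod (Set.finite_Iio t))).subset ?_
    rintro ⟨a, b⟩ ⟨h1, h2⟩
    exact ⟨h1, h2⟩
  have hedW₁ : ∀ c c', Nb t c c' → ed₁ c c' ∈ ins S ends W := by
    intro c c' h
    obtain ⟨h1, p, hp, q, hq, hpq⟩ := a6 c c' h
    refine ⟨h1, fun v hv => ?_⟩
    rw [hpq] at hv
    rcases Sym2.mem_iff.1 hv with rfl | rfl
    · exact hU₁ _ h.1 hp
    · exact hU₁ _ h.2.1 hq
  have hedW₂ : ∀ c c', Nb t c c' → ed₂ c c' ∈ ins S ends W := by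
    intro c c' h
    obtain ⟨h1, p, hp, q, hq, hpq⟩ := b6 c c' h
    refine ⟨h1, fun v hv => ?_⟩
    rw [hpq] at hv
    rcases Sym2.mem_iff.1 hv with rfl | rfl
    · exact hU₂ _ h.1 hp
    · exact hU₂ _ h.2.1 hq
  have h0 : ((0, 0) : ℕ × ℕ) ∈ Cl t := ⟨by simp only; omega, by simp only; omega⟩
  obtain ⟨cell, hcell⟩ : ∃ cell : Bool → ℕ × ℕ → Bool × {c // c ∈ Cl t},
      ∀ b, ∀ c (hc : c ∈ Cl t), cell b c = (b, ⟨c, hc⟩) :=
    ⟨fun b c => (b, if h : c ∈ Cl t then ⟨c, h⟩ else ⟨(0, 0), h0⟩), fun b c hc => by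
      simp only [dif_pos hc]⟩
  have hUc₁ : ∀ c ∈ Cl t, U (cell false c) = U₁ c := by
    intro c hc
    rw [hcell _ c hc, hU]
    rfl
  have hUc₂ : ∀ c ∈ Cl t, U (cell true c) = U₂ c := by
    intro c hc
    rw [hcell _ c hc, hU]
    rfl
  have hcase : ∀ x : Bool × {c // c ∈ Cl t}, ∃ c ∈ Cl t, x = cell false c ∨ x = cell true c := by
    rintro ⟨b, c⟩
    refine ⟨c.1, c.2, ?_⟩
    rw [hcell _ _ c.2, hcell _ _ c.2]
    cases b
    · exact Or.inl rfl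
    · exact Or.inr rfl
  have hβ : ∀ i < K + u + 2, ∀ c ∈ Cl t, ∀ v ∈ L i, v ∈ U₁ c → c = (0, β i) := by
    intro i hi c hc v hv hvU
    obtain ⟨_, _, h3, _, _, h6, _⟩ := hL i hi
    have h10 := a7 _ h3 (h6 ⟨hv, (a1 c hc).2.1 hvU⟩)
    by_contra hne
    exact Set.disjoint_left.1 (a2 c hc (0, β i) ⟨by simp only; omega, h3⟩ hne) hvU h10
  have hγ : ∀ i < K + u + 2, ∀ c ∈ Cl t, ∀ v ∈ L i, v ∈ U₂ c → c = (0, γ i) := by
    intro i hi c hc v hv hvU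
    obtain ⟨_, _, _, h4, _, _, _, h8, _⟩ := hL i hi
    have h10 := b7 _ h4 (h8 ⟨hv, (b1 c hc).2.1 hvU⟩)
    by_contra hne
    exact Set.disjoint_left.1 (b2 c hc (0, γ i) ⟨by simp only; omega, h4⟩ hne) hvU h10
  have key : KGe (M ／ R' ／ (⋃ x, τ x)) (Eds t ed₁) (Eds t ed₂) K := by
    refine EN.FrmU.kge_quot2 hF' hUf hUτ hUd (I := cell false '' Cl t) (J := cell true '' Cl t)
      (hclf.image _) (hclf.image _) ?_ ?_ (fun k => L k.1) (fun k => (hL _ k.2).1) ?_ ?_ ?_ ?_ ?_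
    · rintro _ ⟨c, hc, rfl⟩ _ ⟨c', hc', rfl⟩
      refine cells_conn (cell := cell false) ?_ hc hc'
      intro d d' hdd
      obtain ⟨h1, p, hp, q, hq, hpq⟩ := a6 d d' hdd
      refine ⟨ed₁ d d', ⟨d, d', hdd, rfl⟩, hedW₁ d d' hdd, p, ?_, q, ?_, hpq⟩
      · rw [hUc₁ _ hdd.1]
        exact hp
      · rw [hUc₁ _ hdd.2.1]
        exact hq
    · rintro _ ⟨c, hc, rfl⟩ _ ⟨c', hc', rfl⟩
      refine cells_conn (cell := cell true) ?_ hc hc'
      intro d d' hdd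
      obtain ⟨h1, p, hp, q, hq, hpq⟩ := b6 d d' hdd
      refine ⟨ed₂ d d', ⟨d, d', hdd, rfl⟩, hedW₂ d d' hdd, p, ?_, q, ?_, hpq⟩
      · rw [hUc₂ _ hdd.1]
        exact hp
      · rw [hUc₂ _ hdd.2.1]
        exact hq
    · intro k
      exact vconn_ins (hL _ k.2).2.1 (hLW _ k.2)
    · intro k l hkl
      exact (hd _ k.2 _ l.2 (fun h => hkl (Fin.ext h))).1
    · intro k l hkl x v hv hvx w hw hwx
      obtain ⟨h1, h2, h3⟩ := hd _ k.2 _ l.2 (fun h => hkl (Fin.ext h))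
      obtain ⟨c, hc, rfl | rfl⟩ := hcase x
      · rw [hUc₁ c hc] at hvx hwx
        have e1 := hβ _ k.2 c hc v hv hvx
        have e2 := hβ _ l.2 c hc w hw hwx
        rw [e1] at e2
        exact h2 (congrArg Prod.snd e2)
      · rw [hUc₂ c hc] at hvx hwx
        have e1 := hγ _ k.2 c hc v hv hvx
        have e2 := hγ _ l.2 c hc w hw hwx
        rw [e1] at e2
        exact h3 (congrArg Prod.snd e2)
    · intro k
      obtain ⟨_, _, h3, _, ⟨v, hv, hvV⟩, h6, _⟩ := hL _ k.2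
      have hc : (0, β k.1) ∈ Cl t := ⟨by simp only; omega, h3⟩
      exact ⟨_, ⟨(0, β k.1), hc, rfl⟩, v, hv, by
        rw [hUc₁ _ hc]
        exact a7 _ h3 (h6 ⟨hv, hvV⟩)⟩
    · intro k
      obtain ⟨_, _, _, h4, _, _, ⟨v, hv, hvV⟩, h8, _⟩ := hL _ k.2
      have hc : (0, γ k.1) ∈ Cl t := ⟨by simp only; omega, h4⟩
      exact ⟨_, ⟨(0, γ k.1), hc, rfl⟩, v, hv, by
        rw [hUc₂ _ hc]
        exact b7 _ h4 (h8 ⟨hv, hvV⟩)⟩
  -- the contractions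
  have hC₂S : C₂ ⊆ ins S ends V₂ := by
    rw [b5]
    refine union_subset b3 (iUnion₂_subset fun c hc e he => ?_)
    have hc' := mem_ClF.1 hc
    exact ⟨((b1 c hc').2.2.1 he).1, fun v hv => (b1 c hc').2.1 (((b1 c hc').2.2.1 he).2 v hv)⟩
  have hC₁S : C₁ ⊆ ins S ends V₁ := by
    rw [a5]
    refine union_subset a3 (iUnion₂_subset fun c hc e he => ?_)
    have hc' := mem_ClF.1 hc
    exact ⟨((a1 c hc').2.2.1 he).1, fun v hv => (a1 c hc').2.1 (((a1 c hc').2.2.1 he).2 v hv)⟩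
  have hset : R' ∪ (⋃ x, τ x) = (C₁ ∪ R) ∪ C₂ := by
    have hτu : (⋃ x, τ x) = (⋃ c ∈ ClF t, τ₁ c) ∪ ⋃ c ∈ ClF t, τ₂ c := by
      ext e
      simp only [mem_iUnion, mem_union, mem_ClF, exists_prop]
      constructor
      · rintro ⟨⟨b, c⟩, he⟩
        rw [hτ] at he
        cases b
        · exact Or.inl ⟨c.1, c.2, he⟩
        · exact Or.inr ⟨c.1, c.2, he⟩
      · rintro (⟨c, hc, he⟩ | ⟨c, hc, he⟩)
        · refine ⟨(false, ⟨c, hc⟩), ?_⟩
          rw [hτ]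
          exact he
        · refine ⟨(true, ⟨c, hc⟩), ?_⟩
          rw [hτ]
          exact he
    rw [hτu, hR', a5, b5]
    ext e
    simp only [mem_union]
    tauto
  rw [Matroid.contract_contract, hset, ← Matroid.contract_contract] at key
  have hfin₁ : (M ／ (C₁ ∪ R)).Finite := BQ.fin_contract _
  refine kge_uncontract (C := C₂) ?_ ?_ key
  · rw [Matroid.contract_ground]
    intro e he
    refine ⟨hF.sub (hC₂S he).1, ?_⟩
    obtain ⟨v, hv⟩ := exists_mem_ends ends e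
    have hvV := (hC₂S he).2 v hv
    rintro (h | h)
    · exact Set.disjoint_left.1 hV ((hC₁S h).2 v hv) hvV
    · exact hR₂ e h v hv hvV
  · rw [Set.disjoint_left]
    rintro e he ⟨c, c', hcc, rfl⟩
    obtain ⟨_, p, hp, q, hq, hpq⟩ := a6 c c' hcc
    have h1 := (hC₂S he).2 p (by rw [hpq]; exact Sym2.mem_mk_left _ _)
    exact Set.disjoint_left.1 hV ((a1 _ hcc.1).2.1 hp) h1

end EN
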