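import Pool.Agent.EN.LinkDef2
import Pool.Agent.EN.Page

/-!
# Rainbow lanes on a page (helper64, row F3a of helper51)
-/

open Set
open scoped Matroid

namespace EN

open BIC Gad

variable {α V : Type*}

/-- The lane: from `(x, a)` up to the level `b`, along the level `b` to the column `y`, down to
`(y, a)`. -/
def LaneB (x y a b : ℕ) : Set (ℕ × ℕ) := Vert x a b ∪ HRow x y b ∪ Vert y a b

lemma mem_LaneB {x y a b : ℕ} {c : ℕ × ℕ} : c ∈ LaneB x y a b ↔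
    (c.1 = x ∧ a ≤ c.2 ∧ c.2 ≤ b) ∨ (c.2 = b ∧ x ≤ c.1 ∧ c.1 ≤ y) ∨
      (c.1 = y ∧ a ≤ c.2 ∧ c.2 ≤ b) := by
  unfold LaneB
  rw [mem_union, mem_union, mem_Vert, mem_Vert, mem_HRow, or_assoc]

lemma Page.vconn_laneB {S : Set α} {ends : α → Sym2 V} {P : ℕ × ℕ → V} {l r n : ℕ}
    (hP : Page S ends P l r n) {x y a b : ℕ} (hx : l ≤ x) (hxy : x ≤ y) (hy : y ≤ r)
    (hab : a ≤ b) (hb : 1 ≤ b) (hbn : b ≤ n) : VConn S ends (P '' LaneB x y a b) := by
  unfold LaneB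
  rw [image_union, image_union]
  refine vc_union (c := P (y, b)) (vc_union (c := P (x, b)) (hP.vconn_ver hx (by omega) hbn)
    (hP.vconn_hor hx hy hb hbn) ?_ ?_) (hP.vconn_ver (by omega) hy hbn) ?_ ?_
  · exact ⟨(x, b), mem_Vert.2 ⟨rfl, hab, le_rfl⟩, rfl⟩
  · exact ⟨(x, b), mem_HRow.2 ⟨rfl, le_rfl, hxy⟩, rfl⟩
  · exact Or.inr ⟨(y, b), mem_HRow.2 ⟨rfl, hxy, le_rfl⟩, rfl⟩
  · exact ⟨(y, b), mem_Vert.2 ⟨rfl, hab, le_rfl⟩, rfl⟩

/-- **Row F3a.** Lanes between two families of columns of a page, above level `a`. -/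
theorem lanes_pair {S : Set α} {ends : α → Sym2 V} {P : ℕ × ℕ → V} {l r n : ℕ}
    (hP : Page S ends P l r n) {k a : ℕ} (ha : a + k ≤ n) (x y : ℕ → ℕ)
    (hx : ∀ i j, i < j → j < k → x i < x j) (hy : ∀ i j, i < j → j < k → y i < y j)
    (hxy : ∀ i < k, ∀ j < k, x i < y j) (hl : ∀ i < k, l ≤ x i) (hr : ∀ i < k, y i ≤ r) :
    ∃ L : ℕ → Set V, (∀ i < k, (L i).Finite ∧ VConn S ends (L i) ∧ P (x i, a) ∈ L i ∧
        P (y (k - 1 - i), a) ∈ L i ∧ ∀ v ∈ L i, v = P (x i, a) ∨ v = P (y (k - 1 - i), a) ∨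
          ∃ c ∈ Reg l r n, a < c.2 ∧ v = P c) ∧
      ∀ i < k, ∀ j < k, i ≠ j → Disjoint (L i) (L j) := by
  have hsub : ∀ i < k, LaneB (x i) (y (k - 1 - i)) a (a + (k - i)) ⊆ Reg l r n := by
    intro i hi c hc
    have h1 := hl i hi
    have h2 := hr (k - 1 - i) (by omega)
    have h3 := hxy i hi (k - 1 - i) (by omega)
    rw [mem_LaneB] at hc
    rw [mem_Reg]
    omega
  refine ⟨fun i => P '' LaneB (x i) (y (k - 1 - i)) a (a + (k - i)), fun i hi => ?_, ?_⟩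
  · have h1 := hl i hi
    have h2 := hr (k - 1 - i) (by omega)
    have h3 := hxy i hi (k - 1 - i) (by omega)
    refine ⟨?_, hP.vconn_laneB h1 h3.le h2 (by omega) (by omega) (by omega), ?_, ?_, ?_⟩
    · exact (((vert_finite _ _ _).union (hrow_finite _ _ _)).union (vert_finite _ _ _)).image _
    · exact ⟨(x i, a), mem_LaneB.2 (Or.inl ⟨rfl, le_rfl, by simp only; omega⟩), rfl⟩
    · exact ⟨(y (k - 1 - i), a), mem_LaneB.2 (Or.inr (Or.inr ⟨rfl, le_rfl, by simp only; omega⟩)),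
        rfl⟩
    · rintro v ⟨c, hc, rfl⟩
      have h4 := hsub i hi hc
      rcases Nat.lt_or_ge a c.2 with h5 | h5
      · exact Or.inr (Or.inr ⟨c, h4, h5, rfl⟩)
      · rw [mem_LaneB] at hc
        rcases hc with hc | hc | hc
        · left
          have : c = (x i, a) := Prod.ext hc.1 (by simp only; omega)
          rw [this]
        · omega
        · right; left
          have : c = (y (k - 1 - i), a) := Prod.ext hc.1 (by simp only; omega)
          rw [this]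
  · have key : ∀ i j, i < j → j < k → Disjoint
        (P '' LaneB (x i) (y (k - 1 - i)) a (a + (k - i)))
        (P '' LaneB (x j) (y (k - 1 - j)) a (a + (k - j))) := by
      intro i j hij hj
      refine hP.disj (hsub i (by omega)) (hsub j hj) ?_
      intro c hc hc'
      rw [mem_LaneB] at hc hc'
      have h1 := hx i j hij hj
      have h2 := hy (k - 1 - j) (k - 1 - i) (by omega) (by omega)
      have h3 := hxy i (by omega) (k - 1 - i) (by omega)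
      have h4 := hxy j (by omega) (k - 1 - j) (by omega)
      omega
    intro i hi j hj hij
    rcases Nat.lt_or_gt_of_ne hij with h | h
    · exact key i j h hj
    · exact (key j i h hi).symm


/-- sorting `k` distinct columns -/
lemma sort_cols {k : ℕ} (y : ℕ → ℕ) (h : ∀ i < k, ∀ j < k, i ≠ j → y i ≠ y j) :
    ∃ β : ℕ → ℕ, (∀ i < k, β i < k) ∧ (∀ i j, i < j → j < k → y (β i) < y (β j)) := by
  classical
  set X : Finset ℕ := (Finset.range k).image y with hX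
  have hc : X.card = k := by
    rw [hX, Finset.card_image_of_injOn, Finset.card_range]
    intro i hi j hj hij
    by_contra hne
    exact h i (by simpa using hi) j (by simpa using hj) hne hij
  have hex : ∀ i : ℕ, ∃ b : ℕ, ∀ hi : i < k, b < k ∧ y b = X.orderEmbOfFin hc ⟨i, hi⟩ := by
    intro i
    by_cases hi : i < k
    · have := Finset.orderEmbOfFin_mem X hc ⟨i, hi⟩
      obtain ⟨b, hb, hb'⟩ := Finset.mem_image.1 (show _ ∈ (Finset.range k).image y from this)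
      exact ⟨b, fun _ => ⟨by simpa using hb, hb'⟩⟩
    · exact ⟨0, fun hi' => absurd hi' hi⟩
  choose β hβ using hex
  refine ⟨β, fun i hi => (hβ i hi).1, fun i j hij hj => ?_⟩
  rw [(hβ i (by omega)).2, (hβ j hj).2]
  exact (X.orderEmbOfFin hc).strictMono (by exact hij)

/-- Lanes between the legs of two pieces along a page. -/
theorem off_lanes {S : Set α} {ends : α → Sym2 V} {k t : ℕ} (hkt : k ≤ t) {I : Finset ℕ}
    {V₀ : ℕ → Set V} {P : ℕ × ℕ → V} {l r n a : ℕ} {lp rp : ℕ → ℕ} (hP : Page S ends P l r n)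
    (ha : a + k ≤ n) (hV : ∀ p ∈ I, ∀ c ∈ Reg l r n, a < c.2 → P c ∉ V₀ p)
    (hdis : ∀ p ∈ I, ∀ q ∈ I, p ≠ q → Disjoint (V₀ p) (V₀ q))
    (hI : ∀ p ∈ I, l ≤ lp p ∧ rp p ≤ r)
    (hsep : ∀ p ∈ I, ∀ q ∈ I, p ≠ q → rp p < lp q ∨ rp q < lp p)
    {p q : ℕ} (hp : p ∈ I) (hq : q ∈ I) (hpq : p ≠ q) {A A' : ℕ → Set V}
    (hA : OffP P a t lp rp V₀ p A) (hA' : OffP P a t lp rp V₀ q A') :
    ∃ (L : ℕ → Set V) (β γ : ℕ → ℕ),
      (∀ i < k, (L i).Finite ∧ VConn S ends (L i) ∧ β i < t ∧ γ i < t ∧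
        (L i ∩ V₀ p).Nonempty ∧ L i ∩ V₀ p ⊆ A (β i) ∧
        (L i ∩ V₀ q).Nonempty ∧ L i ∩ V₀ q ⊆ A' (γ i) ∧
        ∀ s ∈ I, s ≠ p → s ≠ q → Disjoint (L i) (V₀ s)) ∧
      ∀ i < k, ∀ j < k, i ≠ j → Disjoint (L i) (L j) ∧ β i ≠ β j ∧ γ i ≠ γ j := by
  -- the case `p` left of `q`
  have main : ∀ p ∈ I, ∀ q ∈ I, p ≠ q → rp p < lp q → ∀ A A' : ℕ → Set V,
      OffP P a t lp rp V₀ p A → OffP P a t lp rp V₀ q A' → ∃ (L : ℕ → Set V) (β γ : ℕ → ℕ),
      (∀ i < k, (L i).Finite ∧ VConn S ends (L i) ∧ β i < t ∧ γ i < t ∧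
        (L i ∩ V₀ p).Nonempty ∧ L i ∩ V₀ p ⊆ A (β i) ∧
        (L i ∩ V₀ q).Nonempty ∧ L i ∩ V₀ q ⊆ A' (γ i) ∧
        ∀ s ∈ I, s ≠ p → s ≠ q → Disjoint (L i) (V₀ s)) ∧
      ∀ i < k, ∀ j < k, i ≠ j → Disjoint (L i) (L j) ∧ β i ≠ β j ∧ γ i ≠ γ j := by
    intro p hp q hq hpq hlt A A' hA hA'
    obtain ⟨x, hx1, hx2⟩ := hA
    obtain ⟨y, hy1, hy2⟩ := hA'
    obtain ⟨β, hβ1, hβ2⟩ := sort_cols (k := k) x
      (fun i hi j hj hij => hx2 i (by omega) j (by omega) hij)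
    obtain ⟨γ, hγ1, hγ2⟩ := sort_cols (k := k) y
      (fun i hi j hj hij => hy2 i (by omega) j (by omega) hij)
    obtain ⟨L, hL1, hL2⟩ := lanes_pair hP (k := k) ha (fun i => x (β i)) (fun i => y (γ i))
      hβ2 hγ2 (fun i hi j hj => by
        have h1 := hx1 (β i) (by have := hβ1 i hi; omega)
        have h2 := hy1 (γ j) (by have := hγ1 j hj; omega)
        omega)
      (fun i hi => by
        have h1 := hx1 (β i) (by have := hβ1 i hi; omega)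
        have h2 := hI p hp
        omega)
      (fun i hi => by
        have h1 := hy1 (γ i) (by have := hγ1 i hi; omega)
        have h2 := hI q hq
        omega)
    have hpq' := Set.disjoint_left.1 (hdis p hp q hq hpq)
    refine ⟨L, β, fun i => γ (k - 1 - i), fun i hi => ?_, fun i hi j hj hij => ?_⟩
    · obtain ⟨h1, h2, h3, h4, h5⟩ := hL1 i hi
      have b1 := hβ1 i hi
      have g1 := hγ1 (k - 1 - i) (by omega)
      have mx := hx1 (β i) (by omega)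
      have my := hy1 (γ (k - 1 - i)) (by omega)
      refine ⟨h1, h2, by omega, by show γ (k - 1 - i) < t; omega,
        ⟨_, h3, mx.2.2.2 mx.2.2.1⟩, ?_, ⟨_, h4, my.2.2.2 my.2.2.1⟩, ?_, ?_⟩
      · rintro v ⟨hv, hvp⟩
        rcases h5 v hv with rfl | rfl | ⟨c, hc, hc2, rfl⟩
        · exact mx.2.2.1
        · exact absurd (my.2.2.2 my.2.2.1) (hpq' hvp)
        · exact absurd hvp (hV p hp c hc hc2)
      · rintro v ⟨hv, hvq⟩
        rcases h5 v hv with rfl | rfl | ⟨c, hc, hc2, rfl⟩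
        · exact absurd hvq (hpq' (mx.2.2.2 mx.2.2.1))
        · exact my.2.2.1
        · exact absurd hvq (hV q hq c hc hc2)
      · intro s hs hsp hsq
        rw [Set.disjoint_left]
        intro v hv hvs
        rcases h5 v hv with rfl | rfl | ⟨c, hc, hc2, rfl⟩
        · exact Set.disjoint_left.1 (hdis s hs p hp hsp) hvs (mx.2.2.2 mx.2.2.1)
        · exact Set.disjoint_left.1 (hdis s hs q hq hsq) hvs (my.2.2.2 my.2.2.1)
        · exact hV s hs c hc hc2 hvs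
    · refine ⟨hL2 i hi j hj hij, ?_, ?_⟩
      · intro h
        rcases Nat.lt_or_gt_of_ne hij with h' | h'
        · have := hβ2 i j h' hj; rw [h] at this; omega
        · have := hβ2 j i h' hi; rw [h] at this; omega
      · intro h
        have h0 : γ (k - 1 - i) = γ (k - 1 - j) := h
        rcases Nat.lt_or_gt_of_ne hij with h' | h'
        · have := hγ2 (k - 1 - j) (k - 1 - i) (by omega) (by omega); rw [h0] at this; omega
        · have := hγ2 (k - 1 - i) (k - 1 - j) (by omega) (by omega); rw [h0] at this; omega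
  rcases hsep p hp q hq hpq with h | h
  · exact main p hp q hq hpq h A A' hA hA'
  · obtain ⟨L, β, γ, h1, h2⟩ := main q hq p hp hpq.symm h A' A hA' hA
    refine ⟨L, γ, β, fun i hi => ?_, fun i hi j hj hij => ?_⟩
    · obtain ⟨e1, e2, e3, e4, e5, e6, e7, e8, e9⟩ := h1 i hi
      exact ⟨e1, e2, e4, e3, e7, e8, e5, e6, fun s hs hsp hsq => e9 s hs hsq hsp⟩
    · obtain ⟨e1, e2, e3⟩ := h2 i hi j hj hij
      exact ⟨e1, e3, e2⟩

/-- elements inside of the other pieces avoid a set which is disjoint from the other pieces -/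
lemma avd_Ufm {S : Set α} {ends : α → Sym2 V} {J : Finset ℕ} {V₀ : ℕ → Set V} {R : Set α}
    (hR : R ⊆ Ufm S ends J V₀) {B : Set V} (hB : ∀ s ∈ J, Disjoint B (V₀ s)) : Avd ends R B := by
  intro e he v hv hvB
  obtain ⟨s, hs, h1⟩ := mem_iUnion₂.1 (hR he)
  exact Set.disjoint_left.1 (hB s hs) hvB (h1.2 v hv)


lemma Ufm_sub' {S : Set α} {ends : α → Sym2 V} {J : Finset ℕ} {V₀ : ℕ → Set V} :
    Ufm S ends J V₀ ⊆ S := by
  intro e he
  obtain ⟨s, hs, h1⟩ := mem_iUnion₂.1 he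
  exact h1.1

/-- **Row F3c**, with the statement of row F2a (`FrmU.kge_crt`) as the hypothesis `hkge`. -/
theorem lk_page_of {M : Matroid α} {S : Set α} {ends : α → Sym2 V} {u K t : ℕ}
    (hkge : ∀ {V₁ V₂ : Set V} {A₁ A₂ : ℕ → Set V} {C₁ C₂ R : Set α} {ed₁ ed₂ : ℕ × ℕ → ℕ × ℕ → α},
      Crt S ends V₁ A₁ t C₁ ed₁ → Crt S ends V₂ A₂ t C₂ ed₂ → Disjoint V₁ V₂ → R ⊆ S →
      Avd ends R V₁ → Avd ends R V₂ → ∀ (L : ℕ → Set V) (β γ : ℕ → ℕ),
      (∀ i < K + u + 2, (L i).Finite ∧ VConn S ends (L i) ∧ β i < t ∧ γ i < t ∧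
        (L i ∩ V₁).Nonempty ∧ L i ∩ V₁ ⊆ A₁ (β i) ∧ (L i ∩ V₂).Nonempty ∧ L i ∩ V₂ ⊆ A₂ (γ i) ∧
        Avd ends R (L i)) →
      (∀ i < K + u + 2, ∀ j < K + u + 2, i ≠ j →
        Disjoint (L i) (L j) ∧ β i ≠ β j ∧ γ i ≠ γ j) →
      KGe (M ／ (C₁ ∪ R)) (Eds t ed₁) (Eds t ed₂) K)
    {I : Finset ℕ} {V₀ : ℕ → Set V} {P : ℕ × ℕ → V}
    {l r n a : ℕ} {lp rp : ℕ → ℕ} (hP : Page S ends P l r n) (hK : K + u + 2 ≤ t)
    (ha : a + (K + u + 2) ≤ n)
    (hV : ∀ p ∈ I, ∀ c ∈ Reg l r n, a < c.2 → P c ∉ V₀ p)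
    (hdis : ∀ p ∈ I, ∀ q ∈ I, p ≠ q → Disjoint (V₀ p) (V₀ q))
    (hI : ∀ p ∈ I, l ≤ lp p ∧ rp p ≤ r)
    (hsep : ∀ p ∈ I, ∀ q ∈ I, p ≠ q → rp p < lp q ∨ rp q < lp p)
    {p q : ℕ} (hp : p ∈ I) (hq : q ∈ I) (hpq : p ≠ q) {A A' : ℕ → Set V}
    (hA : OffP P a t lp rp V₀ p A) (hA' : OffP P a t lp rp V₀ q A') {C C' : Set α}
    {ed ed' : ℕ × ℕ → ℕ × ℕ → α} (hc : Crt S ends (V₀ p) A t C ed)
    (hc' : Crt S ends (V₀ q) A' t C' ed') {R : Set α} (hR : R ⊆ Ufm S ends (I \ {p, q}) V₀) :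
    KGe (M ／ (C ∪ R)) (Eds t ed) (Eds t ed') K := by
  obtain ⟨L, β, γ, h1, h2⟩ := off_lanes hK hP ha hV hdis hI hsep hp hq hpq hA hA'
  have hmem : ∀ s ∈ I \ {p, q}, s ∈ I ∧ s ≠ p ∧ s ≠ q := by
    intro s hs
    rw [Finset.mem_sdiff, Finset.mem_insert, Finset.mem_singleton, not_or] at hs
    exact hs
  refine hkge hc hc' (hdis p hp q hq hpq) (hR.trans Ufm_sub')
    (avd_Ufm hR fun s hs => hdis p hp s (hmem s hs).1 (hmem s hs).2.1.symm)
    (avd_Ufm hR fun s hs => hdis q hq s (hmem s hs).1 (hmem s hs).2.2.symm) L β γ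
    (fun i hi => ?_) h2
  obtain ⟨e1, e2, e3, e4, e5, e6, e7, e8, e9⟩ := h1 i hi
  exact ⟨e1, e2, e3, e4, e5, e6, e7, e8,
    avd_Ufm hR fun s hs => e9 s (hmem s hs).1 (hmem s hs).2.1 (hmem s hs).2.2⟩

end EN
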