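import Pool.Agent.EN.Ground
import Pool.Agent.EN.Joint
import Pool.Agent.Helper53.BQ.Kge

/-!
# Disjoint connected sets give connectivity (row KP, helper85)

`K + u + 2` disjoint connected sets of vertices between two connected pieces of a frame of excess
`u` force connectivity at least `K` between the pieces.
-/

open Set
open scoped Matroid

namespace EN

open BIC Gad

variable {α V : Type*}

/-- In a connected set which meets `VA` and `VB`, but not both in one vertex, there is a tree which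
meets each of them in one vertex. -/
lemma tree_between {S : Set α} {ends : α → Sym2 V} {Q VA VB : Set V} (hQ : VConn S ends Q)
    (hdis : ∀ v ∈ Q, v ∈ VA → v ∉ VB) (hA : (Q ∩ VA).Nonempty) (hB : (Q ∩ VB).Nonempty) :
    ∃ (U : Set V) (τ : Set α) (a b : V), U ⊆ Q ∧ Arb S ends U τ ∧ U ∩ VA = {a} ∧
      U ∩ VB = {b} := by
  classical
  obtain ⟨a₀, ha₀Q, ha₀⟩ := hA
  obtain ⟨b₀, hb₀Q, hb₀⟩ := hB
  have key : ∀ c, Relation.ReflTransGen (fun x y => GAdj S ends x y ∧ x ∈ Q ∧ y ∈ Q) a₀ c →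
      (∃ (U : Set V) (τ : Set α) (a b : V), U ⊆ Q ∧ Arb S ends U τ ∧ U ∩ VA = {a} ∧
        U ∩ VB = {b}) ∨
      (∃ (U : Set V) (τ : Set α) (a : V), U ⊆ Q ∧ Arb S ends U τ ∧ U ∩ VA = {a} ∧
        U ∩ VB = ∅ ∧ c ∈ U) := by
    intro c hc
    induction hc with
    | refl =>
      right
      refine ⟨{a₀}, ∅, a₀, by simpa using ha₀Q, Arb.single a₀, ?_, ?_, rfl⟩
      · rw [inter_eq_left.2 (singleton_subset_iff.2 ha₀)]
      · rw [singleton_inter_eq_empty]
        exact hdis a₀ ha₀Q ha₀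
    | @tail c d hcc hcd ih =>
      obtain ⟨⟨e, heS, hee⟩, hcQ, hdQ⟩ := hcd
      rcases ih with h | ⟨U, τ, a, hUQ, hArb, hUA, hUB, hcU⟩
      · exact Or.inl h
      · by_cases hdU : d ∈ U
        · exact Or.inr ⟨U, τ, a, hUQ, hArb, hUA, hUB, hdU⟩
        · have hj := Arb.join (Set.disjoint_singleton_right.2 hdU) hArb
            (Arb.single (S := S) (ends := ends) d) heS hee hcU rfl
          by_cases hdA : d ∈ VA
          · right
            refine ⟨{d}, ∅, d, by simpa using hdQ, Arb.single d, ?_, ?_, rfl⟩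
            · rw [inter_eq_left.2 (singleton_subset_iff.2 hdA)]
            · rw [singleton_inter_eq_empty]
              exact hdis d hdQ hdA
          · have hUA' : (U ∪ {d}) ∩ VA = {a} := by
              rw [union_inter_distrib_right, hUA, singleton_inter_eq_empty.2 hdA, union_empty]
            have hsub : U ∪ {d} ⊆ Q := union_subset hUQ (by simpa using hdQ)
            by_cases hdB : d ∈ VB
            · left
              refine ⟨U ∪ {d}, _, a, d, hsub, hj, hUA', ?_⟩
              rw [union_inter_distrib_right, hUB, inter_eq_left.2 (singleton_subset_iff.2 hdB), empty_union]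
            · right
              refine ⟨U ∪ {d}, _, a, hsub, hj, hUA', ?_, Or.inr rfl⟩
              rw [union_inter_distrib_right, hUB, singleton_inter_eq_empty.2 hdB, union_empty]
  rcases key b₀ (hQ a₀ ha₀Q b₀ hb₀Q) with h | ⟨U, τ, a, _, _, _, h4, h5⟩
  · exact h
  · exfalso
    have : b₀ ∈ U ∩ VB := ⟨h5, hb₀⟩
    rw [h4] at this
    exact this

section

variable {M : Matroid α} {S : Set α} {ends : α → Sym2 V} {u : ℕ}

/-- Connectivity does not grow under restriction. -/
lemma kge_restr [M.Finite] {X R : Set α} (hX : X ⊆ M.E) (hR : R ⊆ M.E) {K c : ℕ}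
    (h1 : rk M R ≤ c) (h2 : K + c ≤ rk M (X ∩ R) + rk M ((M.E \ X) ∩ R)) :
    K + rk M M.E ≤ rk M X + rk M (M.E \ X) := by
  have a1 := rk_submod M (X := X) (Y := R)
  have a2 := rk_submod M (X := M.E \ X) (Y := X ∪ R)
  have e1 : M.E \ X ∪ (X ∪ R) = M.E := by
    ext x
    simp only [mem_union, mem_sdiff]
    constructor
    · rintro (h | h | h)
      · exact h.1
      · exact hX h
      · exact hR h
    · intro h
      by_cases hx : x ∈ X
      · exact Or.inr (Or.inl hx)
      · exact Or.inl ⟨h, hx⟩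
  have e2 : M.E \ X ∩ (X ∪ R) = (M.E \ X) ∩ R := by
    ext x
    simp only [mem_inter_iff, mem_union, mem_sdiff]
    tauto
  rw [e1, e2] at a2
  omega

/-- The forests grown along disjoint trees. -/
lemma FrmU.grow_paths [M.Finite] (hF : FrmU M S ends u) {X Y : Set α} (hXY : Disjoint X Y)
    (hcov : S ⊆ X ∪ Y) {VA VB : Set V} (hAf : VA.Finite) (hBf : VB.Finite) {I₀ J₀ : Set α}
    (hI : M.Indep I₀) (hJ : M.Indep J₀) (hI₀ : I₀ ⊆ ins (S ∩ X) ends VA)
    (hJ₀ : J₀ ⊆ ins (S ∩ Y) ends VB) {ι : Type*} [DecidableEq ι] (s : Finset ι) {Q : ι → Set V}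
    (hQf : ∀ i ∈ s, (Q i).Finite) (hQ : ∀ i ∈ s, VConn S ends (Q i))
    (hd : ∀ i ∈ s, ∀ j ∈ s, i ≠ j → Disjoint (Q i) (Q j))
    (hdis : ∀ i ∈ s, ∀ v ∈ Q i, v ∈ VA → v ∉ VB)
    (hQA : ∀ i ∈ s, (Q i ∩ VA).Nonempty) (hQB : ∀ i ∈ s, (Q i ∩ VB).Nonempty) :
    ∃ (W : Set V) (I J : Set α), W.Finite ∧ VA ∪ VB ⊆ W ∧ W ⊆ VA ∪ VB ∪ ⋃ i ∈ s, Q i ∧
      M.Indep I ∧ M.Indep J ∧ I ⊆ ins (S ∩ X) ends W ∧ J ⊆ ins (S ∩ Y) ends W ∧
      I ⊆ ins S ends (VA ∪ ⋃ i ∈ s, Q i) ∧ J ⊆ ins S ends (VB ∪ ⋃ i ∈ s, Q i) ∧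
      W.ncard + s.card + I₀.ncard + J₀.ncard = (VA ∪ VB).ncard + I.ncard + J.ncard := by
  classical
  induction s using Finset.induction_on with
  | empty =>
    refine ⟨VA ∪ VB, I₀, J₀, hAf.union hBf, subset_refl _, by simp, hI, hJ, ?_, ?_, ?_, ?_, ?_⟩
    · exact hI₀.trans (ins_mono subset_union_left)
    · exact hJ₀.trans (ins_mono subset_union_right)
    · intro e he
      exact ⟨(hI₀ he).1.1, fun v hv => Or.inl ((hI₀ he).2 v hv)⟩
    · intro e he
      exact ⟨(hJ₀ he).1.1, fun v hv => Or.inl ((hJ₀ he).2 v hv)⟩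
    · simp
  | insert i s his ih =>
    obtain ⟨W, I, J, hWf, hW1, hW2, hIi, hJi, hIW, hJW, hIA, hJB, hcard⟩ := ih
      (fun j hj => hQf j (Finset.mem_insert_of_mem hj))
      (fun j hj => hQ j (Finset.mem_insert_of_mem hj))
      (fun j hj k hk => hd j (Finset.mem_insert_of_mem hj) k (Finset.mem_insert_of_mem hk))
      (fun j hj => hdis j (Finset.mem_insert_of_mem hj))
      (fun j hj => hQA j (Finset.mem_insert_of_mem hj))
      (fun j hj => hQB j (Finset.mem_insert_of_mem hj))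
    have hii := Finset.mem_insert_self i s
    obtain ⟨U, τ, a, b, hUQ, hArb, hUA, hUB⟩ := tree_between (hQ i hii) (hdis i hii) (hQA i hii)
      (hQB i hii)
    have hUf : U.Finite := (hQf i hii).subset hUQ
    have hUs : ∀ j ∈ s, ∀ v ∈ U, v ∉ Q j := by
      intro j hj v hv hvj
      have hne : i ≠ j := fun h => his (h ▸ hj)
      exact Set.disjoint_left.1 (hd i hii j (Finset.mem_insert_of_mem hj) hne) (hUQ hv) hvj
    have haU : a ∈ U ∩ VA := by rw [hUA]; rfl
    have hbU : b ∈ U ∩ VB := by rw [hUB]; rfl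
    have hab : a ≠ b := by
      rintro rfl
      exact hdis i hii a (hUQ haU.1) haU.2 hbU.2
    have hIS : I ⊆ S := fun e he => (hIA he).1
    have hJS : J ⊆ S := fun e he => (hJB he).1
    have hIU : ∀ e ∈ I, ∀ v ∈ ends e, v ∈ U → v = a := by
      intro e he v hv hvU
      rcases (hIA he).2 v hv with h | h
      · have : v ∈ U ∩ VA := ⟨hvU, h⟩
        rw [hUA] at this
        exact this
      · obtain ⟨j, hj, hvj⟩ := mem_iUnion₂.1 h
        exact absurd hvj (hUs j hj v hvU)
    have hJU : ∀ e ∈ J, ∀ v ∈ ends e, v ∈ U → v = b := by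
      intro e he v hv hvU
      rcases (hJB he).2 v hv with h | h
      · have : v ∈ U ∩ VB := ⟨hvU, h⟩
        rw [hUB] at this
        exact this
      · obtain ⟨j, hj, hvj⟩ := mem_iUnion₂.1 h
        exact absurd hvj (hUs j hj v hvU)
    have hIτ := hF.indep_arb hUf hArb haU.1 hIi hIS hIU
    have hJτ := hF.indep_arb hUf hArb hbU.1 hJi hJS hJU
    obtain ⟨hτf, hτc⟩ := arb_ncard hUf hArb
    have hIf : I.Finite := M.ground_finite.subset hIi.subset_ground
    have hJf : J.Finite := M.ground_finite.subset hJi.subset_ground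
    -- no element of the tree lies in `I` or `J`
    have hτI : Disjoint I τ := by
      rw [Set.disjoint_left]
      intro e he heτ
      have h1 := hArb.1 heτ
      obtain ⟨φ, hφ, hφe⟩ := hArb.2.2 a haU.1
      have h2 := hφ.mapsTo heτ
      exact h2.2 (hIU e he _ (hφe e heτ) h2.1)
    have hτJ : Disjoint J τ := by
      rw [Set.disjoint_left]
      intro e he heτ
      obtain ⟨φ, hφ, hφe⟩ := hArb.2.2 b hbU.1
      have h2 := hφ.mapsTo heτ
      exact h2.2 (hJU e he _ (hφe e heτ) h2.1)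
    have hτS : τ ⊆ S := fun e he => (hArb.1 he).1
    have hWU : W ∩ U = {a, b} := by
      ext v
      simp only [mem_inter_iff, mem_insert_iff, mem_singleton_iff]
      constructor
      · rintro ⟨hvW, hvU⟩
        rcases hW2 hvW with (h | h) | h
        · left
          have : v ∈ U ∩ VA := ⟨hvU, h⟩
          rw [hUA] at this
          exact this
        · right
          have : v ∈ U ∩ VB := ⟨hvU, h⟩
          rw [hUB] at this
          exact this
        · obtain ⟨j, hj, hvj⟩ := mem_iUnion₂.1 h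
          exact absurd hvj (hUs j hj v hvU)
      · rintro (rfl | rfl)
        · exact ⟨hW1 (Or.inl haU.2), haU.1⟩
        · exact ⟨hW1 (Or.inr hbU.2), hbU.1⟩
    have hmono : (⋃ j ∈ s, Q j) ⊆ ⋃ j ∈ insert i s, Q j := by
      intro v hv
      obtain ⟨j, hj, hvj⟩ := mem_iUnion₂.1 hv
      exact mem_iUnion₂.2 ⟨j, Finset.mem_insert_of_mem hj, hvj⟩
    have hUQ' : U ⊆ ⋃ j ∈ insert i s, Q j := fun v hv => mem_iUnion₂.2 ⟨i, hii, hUQ hv⟩
    refine ⟨W ∪ U, I ∪ (τ ∩ X), J ∪ (τ ∩ Y), hWf.union hUf, hW1.trans subset_union_left, ?_,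
      hIτ.subset (union_subset_union_right _ inter_subset_left),
      hJτ.subset (union_subset_union_right _ inter_subset_left), ?_, ?_, ?_, ?_, ?_⟩
    · refine union_subset (hW2.trans (union_subset_union_right _ hmono)) ?_
      exact hUQ'.trans subset_union_right
    · refine union_subset (hIW.trans (ins_mono subset_union_left)) ?_
      intro e he
      exact ⟨⟨hτS he.1, he.2⟩, fun v hv => Or.inr ((hArb.1 he.1).2 v hv)⟩
    · refine union_subset (hJW.trans (ins_mono subset_union_left)) ?_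
      intro e he
      exact ⟨⟨hτS he.1, he.2⟩, fun v hv => Or.inr ((hArb.1 he.1).2 v hv)⟩
    · refine union_subset (hIA.trans (ins_mono (union_subset_union_right _ hmono))) ?_
      intro e he
      exact ⟨hτS he.1, fun v hv => Or.inr (hUQ' ((hArb.1 he.1).2 v hv))⟩
    · refine union_subset (hJB.trans (ins_mono (union_subset_union_right _ hmono))) ?_
      intro e he
      exact ⟨hτS he.1, fun v hv => Or.inr (hUQ' ((hArb.1 he.1).2 v hv))⟩
    · have c1 : (W ∪ U).ncard + (W ∩ U).ncard = W.ncard + U.ncard :=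
        ncard_union_add_ncard_inter _ _ hWf hUf
      rw [hWU, ncard_pair hab] at c1
      have c2 : (I ∪ (τ ∩ X)).ncard = I.ncard + (τ ∩ X).ncard :=
        ncard_union_eq (hτI.mono_right inter_subset_left) hIf (hτf.subset inter_subset_left)
      have c3 : (J ∪ (τ ∩ Y)).ncard = J.ncard + (τ ∩ Y).ncard :=
        ncard_union_eq (hτJ.mono_right inter_subset_left) hJf (hτf.subset inter_subset_left)
      have c4 : (τ ∩ X).ncard + (τ ∩ Y).ncard = τ.ncard := by
        rw [← ncard_union_eq (hXY.mono inter_subset_right inter_subset_right)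
          (hτf.subset inter_subset_left) (hτf.subset inter_subset_left), ← inter_union_distrib_left,
          inter_eq_left.2 (hτS.trans hcov)]
      rw [Finset.card_insert_of_notMem his, c2, c3]
      omega

/-- **Row KP.** -/
theorem FrmU.kge [M.Finite] (hF : FrmU M S ends u) {A B : Set α} {VA VB : Set V}
    (hAf : VA.Finite) (hBf : VB.Finite) (hA : A ⊆ ins S ends VA) (hB : B ⊆ ins S ends VB)
    (hcA : VConn A ends VA) (hcB : VConn B ends VB) {K : ℕ} (Q : Fin (K + u + 2) → Set V)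
    (hQf : ∀ i, (Q i).Finite) (hQ : ∀ i, VConn S ends (Q i))
    (hd : ∀ i j, i ≠ j → Disjoint (Q i) (Q j)) (hQA : ∀ i, (Q i ∩ VA).Nonempty)
    (hQB : ∀ i, (Q i ∩ VB).Nonempty) : KGe M A B K := by
  classical
  intro X hAX hXB
  have hXE : X ⊆ M.E := hXB.trans sdiff_subset
  set Y : Set α := M.E \ X with hY
  have hBY : B ⊆ Y := by
    intro e he
    exact ⟨hF.sub (hB he).1, fun h => (hXB h).2 he⟩
  have hAS : A ⊆ S := fun e he => (hA he).1
  have hBS : B ⊆ S := fun e he => (hB he).1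
  have hneA : VA.Nonempty := (hQA ⟨0, by omega⟩).mono inter_subset_right
  have hneB : VB.Nonempty := (hQB ⟨0, by omega⟩).mono inter_subset_right
  obtain ⟨τA, hτA⟩ := exists_arb hAf hneA hcA
  obtain ⟨τB, hτB⟩ := exists_arb hBf hneB hcB
  obtain ⟨hτAf, hτAc⟩ := arb_ncard hAf hτA
  obtain ⟨hτBf, hτBc⟩ := arb_ncard hBf hτB
  have hIA : M.Indep τA := by
    obtain ⟨a, ha⟩ := hneA
    have := (hF.subset hAS).indep_arb hAf hτA ha M.empty_indep (empty_subset _) (by simp)
    rwa [empty_union] at this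
  have hIB : M.Indep τB := by
    obtain ⟨a, ha⟩ := hneB
    have := (hF.subset hBS).indep_arb hBf hτB ha M.empty_indep (empty_subset _) (by simp)
    rwa [empty_union] at this
  set s : Finset (Fin (K + u + 2)) :=
    Finset.univ.filter fun i => ∀ v ∈ Q i, v ∈ VA → v ∉ VB with hs
  obtain ⟨W, I, J, hWf, hW1, hW2, hIi, hJi, hIW, hJW, _, _, hcard⟩ :=
    hF.grow_paths (X := X) (Y := Y) (by rw [hY]; exact disjoint_sdiff_right)
      (by rw [hY, union_sdiff_self]; exact hF.sub.trans subset_union_right) hAf hBf hIA hIB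
      (fun e he => ⟨⟨hAS (hτA.1 he).1, hAX (hτA.1 he).1⟩, (hτA.1 he).2⟩)
      (fun e he => ⟨⟨hBS (hτB.1 he).1, hBY (hτB.1 he).1⟩, (hτB.1 he).2⟩) s
      (fun i _ => hQf i) (fun i _ => hQ i) (fun i _ j _ => hd i j)
      (fun i hi => (Finset.mem_filter.1 hi).2) (fun i _ => hQA i) (fun i _ => hQB i)
  -- the other indices have a vertex in `VA ∩ VB`
  have hcompl : K + u + 2 ≤ s.card + (VA ∩ VB).ncard := by
    have h1 : ∀ i ∈ sᶜ, ∃ v ∈ Q i, v ∈ VA ∩ VB := by
      intro i hi
      rw [Finset.mem_compl, hs, Finset.mem_filter] at hi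
      push Not at hi
      obtain ⟨v, h1, h2, h3⟩ := hi (Finset.mem_univ _)
      exact ⟨v, h1, h2, h3⟩
    have h2 : sᶜ.card ≤ (VA ∩ VB).ncard := by
      have hfin : (VA ∩ VB).Finite := hAf.subset inter_subset_left
      rw [ncard_eq_toFinset_card _ hfin]
      have : ∃ f : Fin (K + u + 2) → V, ∀ i ∈ sᶜ, f i ∈ Q i ∧ f i ∈ VA ∩ VB := by
        have : Nonempty V := ⟨hneA.some⟩
        choose! f hf using h1
        exact ⟨f, hf⟩
      obtain ⟨f, hf⟩ := this
      refine Finset.card_le_card_of_injOn f (fun i hi => ?_) ?_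
      · rw [Finset.mem_coe, Set.Finite.mem_toFinset]
        exact (hf i hi).2
      · intro i hi j hj hij
        by_contra hne
        exact Set.disjoint_left.1 (hd i j hne) (hf i hi).1 (by rw [hij]; exact (hf j hj).1)
    have h3 : s.card + sᶜ.card = K + u + 2 := by
      rw [Finset.card_add_card_compl, Fintype.card_fin]
    omega
  have hVV : (VA ∪ VB).ncard + (VA ∩ VB).ncard = VA.ncard + VB.ncard :=
    ncard_union_add_ncard_inter _ _ hAf hBf
  have hR : ins S ends W ⊆ M.E := fun e he => hF.sub he.1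
  refine kge_restr hXE hR (hF.rk W hWf) ?_
  have r1 : I.ncard ≤ BIC.rk M (X ∩ ins S ends W) := by
    rw [← rk_indep hIi]
    exact BIC.rk_mono M (fun e he => ⟨(hIW he).1.2, (hIW he).1.1, (hIW he).2⟩)
  have r2 : J.ncard ≤ BIC.rk M (M.E \ X ∩ ins S ends W) := by
    rw [← rk_indep hJi]
    exact BIC.rk_mono M (fun e he => ⟨(hJW he).1.2, (hJW he).1.1, (hJW he).2⟩)
  omega

end

end EN
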