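import Pool.Agent.EN.LinkF0
import Pool.Agent.EN.KPath

/-!
# Selection of a group (helper51)
-/

open Set BIC BICS
open scoped Matroid

namespace EN

universe u

variable {α : Type u}

/-- The order of a set in a contraction. -/
lemma order_con {M : Matroid α} [M.Finite] {C X : Set α} (hC : C ⊆ M.E) (hX : X ⊆ M.E \ C) :
    rk (M ／ C) X + rk (M ／ C) ((M ／ C).E \ X) + rk M C + rk M C =
      rk M (X ∪ C) + rk M (M.E \ X) ∧ rk (M ／ C) (M ／ C).E + rk M C = rk M M.E := by
  have h1 := BQ.rk_con hC hX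
  have h2 := BQ.rk_con hC (X := (M ／ C).E \ X) (fun x hx => hx.1)
  have h3 := BQ.rk_con hC (X := (M ／ C).E) (fun x hx => hx)
  have e1 : (M ／ C).E \ X ∪ C = M.E \ X := by
    ext x
    simp only [Matroid.contract_ground, mem_union, mem_sdiff]
    constructor
    · rintro (⟨⟨a, _⟩, b⟩ | a)
      · exact ⟨a, b⟩
      · exact ⟨hC a, fun h => (hX h).2 a⟩
    · rintro ⟨a, b⟩
      by_cases h : x ∈ C
      · exact Or.inr h
      · exact Or.inl ⟨⟨a, h⟩, b⟩
  have e2 : (M ／ C).E ∪ C = M.E := by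
    rw [Matroid.contract_ground, sdiff_union_self, union_eq_self_of_subset_right hC]
  rw [e1] at h2
  rw [e2] at h3
  exact ⟨by omega, h3⟩

/-- Subsets of skew sets are skew (any index type). -/
lemma skewG {ι : Type*} {M : Matroid α} [M.Finite] {P : Finset ι} {A N : ι → Set α}
    (hN : ∀ p ∈ P, N p ⊆ A p) (hs : ∑ p ∈ P, BIC.rk M (A p) ≤ BIC.rk M (⋃ p ∈ P, A p)) :
    ∑ p ∈ P, BIC.rk M (N p) ≤ BIC.rk M (⋃ p ∈ P, N p) := by
  classical
  have key : ∀ G ⊆ P, ∑ p ∈ G, BIC.rk M (N p) + ∑ p ∈ P \ G, BIC.rk M (A p) ≤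
      BIC.rk M ((⋃ p ∈ G, N p) ∪ ⋃ p ∈ P \ G, A p) := by
    intro G
    induction G using Finset.induction_on with
    | empty =>
      intro _
      rw [Finset.sdiff_empty]
      simpa using hs
    | insert p G hp ih =>
      intro hG
      have hG' : G ⊆ P := fun q hq => hG (Finset.mem_insert_of_mem hq)
      have hpP : p ∈ P := hG (Finset.mem_insert_self _ _)
      have h1 := ih hG'
      have h2 : P \ G = insert p (P \ insert p G) := by
        ext q
        simp only [Finset.mem_sdiff, Finset.mem_insert, not_or]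
        constructor
        · rintro ⟨h3, h4⟩
          by_cases h5 : q = p
          · exact Or.inl h5
          · exact Or.inr ⟨h3, h5, h4⟩
        · rintro (rfl | ⟨h3, _, h4⟩)
          · exact ⟨hpP, hp⟩
          · exact ⟨h3, h4⟩
      have hp' : p ∉ P \ insert p G := by simp
      rw [h2, Finset.sum_insert hp', Finset.set_biUnion_insert] at h1
      rw [Finset.sum_insert hp, Finset.set_biUnion_insert]
      have h3 := rk_submod M ((N p ∪ ⋃ q ∈ G, N q) ∪ ⋃ q ∈ P \ insert p G, A q) (A p)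
      have h4 : BIC.rk M (N p) ≤
          BIC.rk M (((N p ∪ ⋃ q ∈ G, N q) ∪ ⋃ q ∈ P \ insert p G, A q) ∩ A p) :=
        rk_mono M (subset_inter (subset_union_left.trans subset_union_left) (hN p hpP))
      have h5 : BIC.rk M ((⋃ q ∈ G, N q) ∪ (A p ∪ ⋃ q ∈ P \ insert p G, A q)) ≤
          BIC.rk M (((N p ∪ ⋃ q ∈ G, N q) ∪ ⋃ q ∈ P \ insert p G, A q) ∪ A p) := by
        refine rk_mono M ?_
        rintro x (hx | hx | hx)
        · exact Or.inl (Or.inl (Or.inr hx))
        · exact Or.inr hx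
        · exact Or.inl (Or.inr hx)
      omega
  have h1 := key P (Finset.Subset.refl _)
  rw [Finset.sdiff_self] at h1
  simpa using h1

lemma rk_biUnion_leG {ι : Type*} {M : Matroid α} [M.Finite] (G : Finset ι) (N : ι → Set α) :
    rk M (⋃ p ∈ G, N p) ≤ ∑ p ∈ G, rk M (N p) := by
  classical
  induction G using Finset.induction_on with
  | empty => simp [rk_emp]
  | insert p G hp ih =>
    rw [Finset.set_biUnion_insert, Finset.sum_insert hp]
    have := rk_union_two (M := M) (N p) (⋃ p ∈ G, N p)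
    omega

/-- A subfamily and a set spread over other members. -/
lemma skew_two {ι : Type*} {M : Matroid α} [M.Finite] {P F₁ F₂ : Finset ι} {A N : ι → Set α}
    {Z : Set α} (h₁ : F₁ ⊆ P) (h₂ : F₂ ⊆ P) (hd : Disjoint F₁ F₂) (hN : ∀ p ∈ F₁, N p ⊆ A p)
    (hZ : Z ⊆ ⋃ p ∈ F₂, A p) (hs : ∑ p ∈ P, BIC.rk M (A p) ≤ BIC.rk M (⋃ p ∈ P, A p)) :
    ∑ p ∈ F₁, rk M (N p) + rk M Z ≤ rk M ((⋃ p ∈ F₁, N p) ∪ Z) := by
  classical
  set N' : ι → Set α := fun p => if p ∈ F₁ then N p else if p ∈ F₂ then A p ∩ Z else ∅ with hN'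
  have h1 := skewG (M := M) (P := P) (A := A) (N := N') (fun p hp => by
    simp only [hN']
    split_ifs with h h'
    · exact hN p h
    · exact inter_subset_left
    · exact empty_subset _) hs
  have h2 : ∑ p ∈ F₁ ∪ F₂, rk M (N' p) ≤ ∑ p ∈ P, rk M (N' p) :=
    Finset.sum_le_sum_of_subset (Finset.union_subset h₁ h₂)
  rw [Finset.sum_union hd] at h2
  have h3 : ∑ p ∈ F₁, rk M (N' p) = ∑ p ∈ F₁, rk M (N p) :=
    Finset.sum_congr rfl fun p hp => by simp only [hN', if_pos hp]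
  have h4 : ∑ p ∈ F₂, rk M (N' p) = ∑ p ∈ F₂, rk M (A p ∩ Z) :=
    Finset.sum_congr rfl fun p hp => by
      simp only [hN', if_neg (Finset.disjoint_right.1 hd hp), if_pos hp]
  have h5 : rk M Z ≤ ∑ p ∈ F₂, rk M (A p ∩ Z) := by
    refine (rk_mono M ?_).trans (rk_biUnion_leG F₂ fun p => A p ∩ Z)
    intro e he
    obtain ⟨p, hp, he'⟩ := mem_iUnion₂.1 (hZ he)
    exact mem_iUnion₂.2 ⟨p, hp, he', he⟩
  have h6 : rk M (⋃ p ∈ P, N' p) ≤ rk M ((⋃ p ∈ F₁, N p) ∪ Z) := by
    refine rk_mono M (iUnion₂_subset fun p _ => ?_)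
    simp only [hN']
    split_ifs with h h'
    · exact fun e he => Or.inl (mem_iUnion₂.2 ⟨p, h, he⟩)
    · exact fun e he => Or.inr he.2
    · exact empty_subset _
  omega

/-- **Selection, weak form.** -/
theorem select_weak (M : Matroid α) [M.Finite] (K om m r : ℕ) (C S : ℕ → Set α)
    (N T : ℕ → ℕ → Set α) (Q D₀ : Set α) (hm : 2 * K + 1 ≤ m) (hD : D₀ ⊆ M.E)
    (hN : ∀ g < m, ∀ i < r, N g i ⊆ M.E)
    (hC : ∀ g < m, C g ⊆ ⋃ i ∈ Finset.range r, N g i)
    (hT : ∀ g < m, ∀ i < r, T g i ⊆ N g i)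
    (hND : ∀ g < m, ∀ i < r, Disjoint (N g i) D₀)
    (hNN : ∀ g < m, ∀ h < m, g ≠ h → ∀ i < r, ∀ l < r, Disjoint (N g i) (N h l))
    (hco : ∀ g < m, ∀ i < r, ConnR (M ／ D₀) (N g i))
    (hsk : ∑ g ∈ Finset.range m, ∑ i ∈ Finset.range r, rk (M ／ D₀) (N g i) ≤
      rk (M ／ D₀) (⋃ g ∈ Finset.range m, ⋃ i ∈ Finset.range r, N g i))
    (hpr : ∀ g < m, ∀ h < m, g ≠ h → rk M (C g) + rk M (C h) ≤ rk M (C g ∪ C h) + om)
    (hLK : ∀ g < m, ∀ h < m, g ≠ h → ∀ i < r, KGe (M ／ C g) (S g) (T h i) K)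
    (hLM : ∀ g < m, ∀ h < m, g ≠ h → ∀ X ⊆ M.E \ Q, S g ⊆ X → (∀ i < r, N g i ⊆ X) →
      (∀ i < r, N h i ⊆ X) → 2 * K + om + rk M M.E ≤ rk M X + rk M (M.E \ X)) :
    ∃ g < m, KGe (M ／ C g) (S g) Q K := by
  classical
  by_contra hcon
  push Not at hcon
  have hCE : ∀ g < m, C g ⊆ M.E := by
    intro g hg e he
    obtain ⟨i, hi, he⟩ := mem_iUnion₂.1 (hC g hg he)
    exact hN g hg i (Finset.mem_range.1 hi) he
  have hX : ∀ g, ∃ X, g < m → S g ⊆ X ∧ X ⊆ M.E \ C g ∧ Disjoint X Q ∧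
      rk M (X ∪ C g) + rk M (M.E \ X) + 1 ≤ K + rk M M.E + rk M (C g) ∧
      rk (M ／ C g) X + rk (M ／ C g) ((M ／ C g).E \ X) < K + rk (M ／ C g) (M ／ C g).E := by
    intro g
    by_cases hg : g < m
    · have h1 := hcon g hg
      unfold KGe at h1
      push Not at h1
      obtain ⟨X, h2, h3, h4⟩ := h1
      have h5 : X ⊆ M.E \ C g := fun x hx => (h3 hx).1
      have h6 := order_con (hCE g hg) h5
      refine ⟨X, fun _ => ⟨h2, h5, ?_, by omega, h4⟩⟩
      rw [Set.disjoint_left]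
      exact fun e he => (h3 he).2
    · exact ⟨∅, fun h => absurd h hg⟩
  choose X hX using hX
  -- no piece is outside of `X g`
  have hout : ∀ g < m, ∀ h < m, g ≠ h → ∀ i < r, (N h i ∩ X g).Nonempty := by
    intro g hg h hh hgh i hi
    by_contra hne
    rw [Set.not_nonempty_iff_eq_empty] at hne
    have h1 := hLK g hg h hh hgh i hi (X g) (hX g hg).1 (fun e he => ⟨(hX g hg).2.1 he, ?_⟩)
    · have := (hX g hg).2.2.2.2
      omega
    · intro he'
      have : e ∈ N h i ∩ X g := ⟨hT h hh i hi he', he⟩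
      rw [hne] at this
      exact this
  -- few groups are split by `X g`
  have hsplit : ∀ g < m, ((Finset.range m).filter fun h => h ≠ g ∧ ∃ i < r, ¬ N h i ⊆ X g).card
      < K := by
    intro g hg
    by_contra hcard
    push Not at hcard
    obtain ⟨B, hB⟩ : ∃ B, B = (Finset.range m).filter fun h => h ≠ g ∧ ∃ i < r, ¬ N h i ⊆ X g :=
      ⟨_, rfl⟩
    rw [← hB] at hcard
    have hmem : ∀ h ∈ B, h < m ∧ h ≠ g ∧ ∃ i < r, ¬ N h i ⊆ X g := by
      intro h hh
      rw [hB, Finset.mem_filter, Finset.mem_range] at hh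
      exact hh
    have hidx : ∀ h, ∃ i, h ∈ B → i < r ∧ ¬ N h i ⊆ X g := by
      intro h
      by_cases hh : h ∈ B
      · obtain ⟨_, _, i, hi, h1⟩ := hmem h hh
        exact ⟨i, fun _ => ⟨hi, h1⟩⟩
      · exact ⟨0, fun h' => absurd h' hh⟩
    choose idx hidx using hidx
    obtain ⟨x1, x2, x3, x4, x5⟩ := hX g hg
    have hCgE := hCE g hg
    have hCgD : Disjoint (C g) D₀ := by
      rw [Set.disjoint_left]
      intro e he he'
      obtain ⟨i, hi, he⟩ := mem_iUnion₂.1 (hC g hg he)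
      exact Set.disjoint_left.1 (hND g hg i (Finset.mem_range.1 hi)) he he'
    have hNC : ∀ h ∈ B, Disjoint (N h (idx h)) (C g) := by
      intro h hh
      rw [Set.disjoint_left]
      intro e he he'
      obtain ⟨i, hi, he'⟩ := mem_iUnion₂.1 (hC g hg he')
      exact Set.disjoint_left.1 (hNN h (hmem h hh).1 g hg (hmem h hh).2.1 _ (hidx h hh).1 i
        (Finset.mem_range.1 hi)) he he'
    obtain ⟨Z, hZ⟩ : ∃ Z, Z = C g ∪ D₀ := ⟨_, rfl⟩
    have hZE : Z ⊆ M.E := by rw [hZ]; exact union_subset hCgE hD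
    have hNZ : ∀ h ∈ B, N h (idx h) ⊆ M.E \ Z := by
      intro h hh e he
      refine ⟨hN h (hmem h hh).1 _ (hidx h hh).1 he, ?_⟩
      rw [hZ]
      rintro (h1 | h1)
      · exact Set.disjoint_left.1 (hNC h hh) he h1
      · exact Set.disjoint_left.1 (hND h (hmem h hh).1 _ (hidx h hh).1) he h1
    have f1 : (M ／ D₀).Finite := BQ.fin_contract _
    have f2 : (M ／ Z).Finite := BQ.fin_contract _
    -- ranks in `M ／ Z` of subsets of the pieces
    have hrk : ∀ Y ⊆ M.E \ Z, rk (M ／ Z) Y + rk (M ／ D₀) (C g) = rk (M ／ D₀) (Y ∪ C g) := by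
      intro Y hY
      have e1 := BQ.rk_con hZE hY
      have e2 := BQ.rk_con hD (X := C g) fun e he => ⟨hCgE he, Set.disjoint_left.1 hCgD he⟩
      have e3 := BQ.rk_con hD (X := Y ∪ C g) (by
        rintro e (he | he)
        · refine ⟨(hY he).1, fun h => (hY he).2 ?_⟩
          rw [hZ]
          exact Or.inr h
        · exact ⟨hCgE he, Set.disjoint_left.1 hCgD he⟩)
      rw [hZ] at e1
      rw [union_assoc] at e3
      rw [hZ]
      omega
    -- skewness
    have hsk' : ∑ p ∈ Finset.range m ×ˢ Finset.range r, rk (M ／ D₀) (N p.1 p.2) ≤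
        rk (M ／ D₀) (⋃ p ∈ Finset.range m ×ˢ Finset.range r, N p.1 p.2) := by
      rw [Finset.sum_product]
      refine hsk.trans (rk_mono _ ?_)
      intro e he
      obtain ⟨g', hg', i, hi, he⟩ : ∃ g' ∈ Finset.range m, ∃ i ∈ Finset.range r, e ∈ N g' i := by
        simpa only [mem_iUnion, exists_prop] using he
      exact mem_iUnion₂.2 ⟨(g', i), Finset.mem_product.2 ⟨hg', hi⟩, he⟩
    have htwo : ∀ A : ℕ → Set α, (∀ h ∈ B, A h ⊆ N h (idx h)) →
        ∑ h ∈ B, rk (M ／ D₀) (A h) ≤ rk (M ／ Z) (⋃ h ∈ B, A h) := by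
      intro A hA
      have h1 := skew_two (M := M ／ D₀) (P := Finset.range m ×ˢ Finset.range r)
        (F₁ := B.image fun h => (h, idx h)) (F₂ := (Finset.range r).image fun i => (g, i))
        (A := fun p => N p.1 p.2) (N := fun p => A p.1) (Z := C g) (by
          intro p hp
          obtain ⟨h, hh, rfl⟩ := Finset.mem_image.1 hp
          exact Finset.mem_product.2 ⟨Finset.mem_range.2 (hmem h hh).1,
            Finset.mem_range.2 (hidx h hh).1⟩) (by
          intro p hp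
          obtain ⟨i, hi, rfl⟩ := Finset.mem_image.1 hp
          exact Finset.mem_product.2 ⟨Finset.mem_range.2 hg, hi⟩) (by
          rw [Finset.disjoint_left]
          intro p hp hp'
          obtain ⟨h, hh, rfl⟩ := Finset.mem_image.1 hp
          obtain ⟨i, _, h1⟩ := Finset.mem_image.1 hp'
          exact (hmem h hh).2.1 (Prod.ext_iff.1 h1).1.symm) (by
          intro p hp
          obtain ⟨h, hh, rfl⟩ := Finset.mem_image.1 hp
          exact hA h hh) (by
          intro e he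
          obtain ⟨i, hi, he⟩ := mem_iUnion₂.1 (hC g hg he)
          exact mem_iUnion₂.2 ⟨(g, i), Finset.mem_image_of_mem _ hi, he⟩) hsk'
      rw [Finset.sum_image (fun h _ h' _ e => (Prod.ext_iff.1 e).1)] at h1
      have h2 : (⋃ p ∈ B.image fun h => (h, idx h), A p.1) = ⋃ h ∈ B, A h := by
        ext e
        simp only [mem_iUnion, exists_prop, Finset.mem_image]
        constructor
        · rintro ⟨_, ⟨h, hh, rfl⟩, he⟩
          exact ⟨h, hh, he⟩
        · rintro ⟨h, hh, he⟩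
          exact ⟨_, ⟨h, hh, rfl⟩, he⟩
      rw [h2] at h1
      simp only at h1
      have h3 := hrk (⋃ h ∈ B, A h) (iUnion₂_subset fun h hh => (hA h hh).trans (hNZ h hh))
      omega
    -- the split pieces
    have hpc : ∀ h ∈ B, rk (M ／ D₀) (N h (idx h)) + 1 ≤
        rk (M ／ D₀) (N h (idx h) ∩ X g) + rk (M ／ D₀) (N h (idx h) \ X g) := by
      intro h hh
      have h1 := hco h (hmem h hh).1 _ (hidx h hh).1 (N h (idx h) ∩ X g) inter_subset_left
        (hout g hg h (hmem h hh).1 (Ne.symm (hmem h hh).2.1) _ (hidx h hh).1) (by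
          intro h2
          exact (hidx h hh).2 (inter_eq_left.1 h2))
      rwa [sdiff_self_inter] at h1
    have hA1 := htwo (fun h => N h (idx h) ∩ X g) fun h _ => inter_subset_left
    have hA2 := htwo (fun h => N h (idx h) \ X g) fun h _ => sdiff_subset
    obtain ⟨R, hR⟩ : ∃ R, R = ⋃ h ∈ B, N h (idx h) := ⟨_, rfl⟩
    have hRZ : R ⊆ M.E \ Z := by
      rw [hR]
      exact iUnion₂_subset hNZ
    have hRr : rk (M ／ Z) R ≤ ∑ h ∈ B, rk (M ／ D₀) (N h (idx h)) := by
      have h1 := hrk R hRZ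
      have h2 := rk_union_two (M := M ／ D₀) R (C g)
      have h3 : rk (M ／ D₀) R ≤ ∑ h ∈ B, rk (M ／ D₀) (N h (idx h)) := by
        rw [hR]
        exact rk_biUnion_leG _ _
      omega
    have hsum : ∑ h ∈ B, rk (M ／ D₀) (N h (idx h)) + B.card ≤
        ∑ h ∈ B, rk (M ／ D₀) (N h (idx h) ∩ X g) +
          ∑ h ∈ B, rk (M ／ D₀) (N h (idx h) \ X g) := by
      rw [← Finset.sum_add_distrib, Finset.card_eq_sum_ones, ← Finset.sum_add_distrib]
      exact Finset.sum_le_sum hpc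
    have hXZ : X g \ Z ⊆ (M ／ Z).E := fun e he => ⟨(x2 he.1).1, he.2⟩
    have h1 := kge_restr (M := M ／ Z) hXZ (R := R) hRZ (K := K) hRr (by
      have e1 : rk (M ／ Z) (⋃ h ∈ B, N h (idx h) ∩ X g) ≤ rk (M ／ Z) ((X g \ Z) ∩ R) := by
        refine rk_mono _ (iUnion₂_subset fun h hh e he => ?_)
        refine ⟨⟨he.2, (hNZ h hh he.1).2⟩, ?_⟩
        rw [hR]
        exact mem_iUnion₂.2 ⟨h, hh, he.1⟩
      have e2 : rk (M ／ Z) (⋃ h ∈ B, N h (idx h) \ X g) ≤
          rk (M ／ Z) (((M ／ Z).E \ (X g \ Z)) ∩ R) := by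
        refine rk_mono _ (iUnion₂_subset fun h hh e he => ?_)
        refine ⟨⟨hNZ h hh he.1, fun h2 => he.2 h2.1⟩, ?_⟩
        rw [hR]
        exact mem_iUnion₂.2 ⟨h, hh, he.1⟩
      omega)
    have h2 : KGe (M ／ Z) (X g \ Z) ((M ／ Z).E \ (X g \ Z)) K := by
      intro Y hY1 hY2
      have : Y = X g \ Z := by
        refine Set.Subset.antisymm (fun e he => ?_) hY1
        by_contra h3
        exact (hY2 he).2 ⟨(hY2 he).1, h3⟩
      rw [this]
      exact h1
    have h3 := kge_of_contract (C := C g) (by rw [hZ]; exact subset_union_left) hZE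
      (Set.disjoint_left.2 fun e he => he.2) h2 (X g) sdiff_subset (fun e he => ⟨x2 he, fun h4 =>
        h4.2 ⟨he, h4.1.2⟩⟩)
    omega
  -- two groups which do not split each other
  obtain ⟨g, hg, h, hh, hgh, h1, h2⟩ : ∃ g < m, ∃ h < m, g ≠ h ∧ (∀ i < r, N h i ⊆ X g) ∧
      ∀ i < r, N g i ⊆ X h := by
    by_contra hno
    push Not at hno
    obtain ⟨f, hf⟩ : ∃ f : ℕ → ℕ → ℕ, ∀ g h, f g h = if h ≠ g ∧ ∃ i < r, ¬ N h i ⊆ X g then 1
        else 0 := ⟨_, fun _ _ => rfl⟩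
    have h1 : ∀ g < m, ∑ h ∈ Finset.range m, f g h < K := by
      intro g hg
      have h2 := hsplit g hg
      rw [Finset.card_filter] at h2
      simpa only [hf] using h2
    have h2 : ∀ g ∈ Finset.range m, ∑ h ∈ Finset.range m, (if h = g then 0 else 1) + 1 = m := by
      intro g hg
      have h3 := Finset.sum_erase_add (Finset.range m) (fun h => if h = g then 0 else 1) hg
      simp only [if_true, Nat.add_zero] at h3
      rw [← h3, Finset.sum_congr rfl (g := fun _ => 1) (fun h hh => if_neg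
        (Finset.ne_of_mem_erase hh)), Finset.sum_const, Finset.card_erase_of_mem hg,
        Finset.card_range, smul_eq_mul, mul_one]
      have := Finset.mem_range.1 hg
      omega
    have h3 : ∀ g ∈ Finset.range m, ∀ h ∈ Finset.range m, (if h = g then 0 else 1) ≤
        f g h + f h g := by
      intro g hg h hh
      split_ifs with h4
      · omega
      · rw [hf, hf]
        by_cases h5 : ∃ i < r, ¬ N h i ⊆ X g
        · rw [if_pos ⟨h4, h5⟩]
          omega
        · push Not at h5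
          obtain ⟨i, hi, h6⟩ := hno g (Finset.mem_range.1 hg) h (Finset.mem_range.1 hh)
            (Ne.symm h4) h5
          rw [if_pos (c := g ≠ h ∧ ∃ i < r, ¬ N g i ⊆ X h) ⟨Ne.symm h4, i, hi, h6⟩]
          omega
    have h4 : ∑ g ∈ Finset.range m, ∑ h ∈ Finset.range m, (if h = g then 0 else 1) ≤
        ∑ g ∈ Finset.range m, ∑ h ∈ Finset.range m, f g h +
          ∑ g ∈ Finset.range m, ∑ h ∈ Finset.range m, f g h := by
      nth_rewrite 2 [Finset.sum_comm]
      rw [← Finset.sum_add_distrib]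
      refine Finset.sum_le_sum fun g hg => ?_
      rw [← Finset.sum_add_distrib]
      refine Finset.sum_le_sum fun h hh => ?_
      have := h3 g hg h hh
      omega
    have h5 : ∑ g ∈ Finset.range m, (m - 1) ≤
        ∑ g ∈ Finset.range m, ∑ h ∈ Finset.range m, (if h = g then 0 else 1) :=
      Finset.sum_le_sum fun g hg => by
        have := h2 g hg
        omega
    have h6 : ∑ g ∈ Finset.range m, ∑ h ∈ Finset.range m, f g h ≤
        ∑ g ∈ Finset.range m, (K - 1) := Finset.sum_le_sum fun g hg => by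
      have := h1 g (Finset.mem_range.1 hg)
      omega
    rw [Finset.sum_const, Finset.card_range, smul_eq_mul] at h5 h6
    have hK := h1 0 (by omega)
    have h7 : m * (K - 1) + m * (K - 1) < m * (m - 1) := by
      rw [← Nat.mul_add]
      exact Nat.mul_lt_mul_of_pos_left (by omega) (by omega)
    omega
  have hgu : C g ⊆ X h := by
    intro e he
    obtain ⟨i, hi, he⟩ := mem_iUnion₂.1 (hC g hg he)
    exact h2 i (Finset.mem_range.1 hi) he
  have hhu : C h ⊆ X g := by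
    intro e he
    obtain ⟨i, hi, he⟩ := mem_iUnion₂.1 (hC h hh he)
    exact h1 i (Finset.mem_range.1 hi) he
  obtain ⟨a1, a2, a3, a4, _⟩ := hX g hg
  obtain ⟨b1, b2, b3, b4, _⟩ := hX h hh
  have s1 := rk_submod M (X g ∪ C g) (X h ∪ C h)
  have s2 := rk_submod M (M.E \ X g) (M.E \ X h)
  have s3 := rk_submod M ((X g ∪ C g) ∩ (X h ∪ C h)) ((M.E \ X g) ∪ (M.E \ X h))
  have m1 : rk M (X g ∪ X h) ≤ rk M (X g ∪ C g ∪ (X h ∪ C h)) := rk_mono M (by
    rintro e (he | he)
    · exact Or.inl (Or.inl he)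
    · exact Or.inr (Or.inl he))
  have m2 : rk M (M.E \ (X g ∪ X h)) ≤ rk M ((M.E \ X g) ∩ (M.E \ X h)) := rk_mono M (by
    rintro e ⟨he, he'⟩
    exact ⟨⟨he, fun h => he' (Or.inl h)⟩, ⟨he, fun h => he' (Or.inr h)⟩⟩)
  have m3 : rk M M.E ≤ rk M ((X g ∪ C g) ∩ (X h ∪ C h) ∪ ((M.E \ X g) ∪ (M.E \ X h))) :=
    rk_mono M (by
      intro e he
      by_cases h3 : e ∈ X g
      · by_cases h4 : e ∈ X h
        · exact Or.inl ⟨Or.inl h3, Or.inl h4⟩
        · exact Or.inr (Or.inr ⟨he, h4⟩)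
      · exact Or.inr (Or.inl ⟨he, h3⟩))
  have m4 : rk M (C g ∪ C h) ≤
      rk M ((X g ∪ C g) ∩ (X h ∪ C h) ∩ ((M.E \ X g) ∪ (M.E \ X h))) := rk_mono M (by
    rintro e (he | he)
    · exact ⟨⟨Or.inr he, Or.inl (hgu he)⟩, Or.inl ⟨hCE g hg he, fun h3 => (a2 h3).2 he⟩⟩
    · exact ⟨⟨Or.inl (hhu he), Or.inr he⟩, Or.inr ⟨hCE h hh he, fun h3 => (b2 h3).2 he⟩⟩)
  have h3 := hLM g hg h hh hgh (X g ∪ X h) (by
    rintro e (he | he)
    · exact ⟨(a2 he).1, Set.disjoint_left.1 a3 he⟩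
    · exact ⟨(b2 he).1, Set.disjoint_left.1 b3 he⟩) (a1.trans subset_union_left)
    (fun i hi => (h2 i hi).trans subset_union_right)
    (fun i hi => (h1 i hi).trans subset_union_left)
  have h4 := hpr g hg h hh hgh
  omega

end EN
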