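import Pool.Agent.EN.LinkF0
import Pool.Agent.EN.LinkSel

/-!
# Main theorem of LINK (helper51)

Pieces, grids with joints modulo finitely many pieces, linking between the pieces and to the dual
grid give `U_{k,2k}`.
-/

open Set BIC BICS
open scoped Matroid

namespace EN

open Gad

universe u v

/-- **Main theorem of LINK.**  `Cr p C ed`: certificate (any predicate). -/
theorem link_main (k u : ℕ) : ∃ K₁ K₂ t₀ n₀ : ℕ, ∀ t ≥ t₀, ∃ y₀ : ℕ, ∀ n' ≥ y₀,
    ∀ {α : Type u} {V : Type v} (M : Matroid α) [M.Finite] (S : Set α) (ends : α → Sym2 V)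
      (Q D₂ : Set α) (I : Finset ℕ) (V₀ : ℕ → Set V)
      (Cr : ℕ → Set α → (ℕ × ℕ → ℕ × ℕ → α) → Prop),
      FrmU M S ends u → Pcs S ends I V₀ → n₀ ≤ I.card → Q ⊆ M.E → D₂ ⊆ M.E \ Q →
      PGrid (M✶ ／ D₂) Q n' → (∀ p ∈ I, Disjoint (ins S ends (V₀ p)) (Q ∪ D₂)) →
      -- linking between pieces, away from the other pieces
      (∀ p ∈ I, ∀ q ∈ I, p ≠ q → ∀ C C' ed ed', Cr p C ed → Cr q C' ed' →
        ∀ R ⊆ Ufm S ends (I \ {p, q}) V₀, KGe (M ／ (C ∪ R)) (Eds t ed) (Eds t ed') K₁) →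
      -- linking to `Q`
      (∀ p ∈ I, ∀ C ed, Cr p C ed → KGe M (Eds t ed) Q K₂) →
      -- grids with joints
      (∀ D ⊆ I, ExD M S ends I V₀ D → ∃ E ⊆ I, E.card ≤ u + D.card ∧
        ∀ p ∈ I, p ∉ D → p ∉ E → ∃ C S' j ed, Cr p C ed ∧ C ⊆ ins S ends (V₀ p) ∧
          S' ⊆ ins S ends (V₀ p) ∧ Disjoint C S' ∧
          (M ／ Ufm S ends D V₀).Indep (C ∪ j '' Cl t) ∧
          JGrid (M ／ Ufm S ends D V₀ ／ C) S' t j ed) →
      HasUniformMinor M k := by
  classical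
  obtain ⟨K, t₁, hF⟩ := thmFpp.{u} k
  obtain ⟨m, hm⟩ : ∃ m, m = 2 * K + 1 := ⟨_, rfl⟩
  obtain ⟨r₀, hr₀⟩ : ∃ r₀, r₀ = 2 * u + (m + 1) * (2 * u + 1) + 1 := ⟨_, rfl⟩
  refine ⟨K, 2 * K + 2 * r₀, max t₁ 2, u + (m + 1) * (2 * u + 1) + (m + 1) * r₀, ?_⟩
  intro t ht
  have ht1 : t₁ ≤ t := (le_max_left _ _).trans ht
  have ht2 : 2 ≤ t := (le_max_right _ _).trans ht
  obtain ⟨y₀, hy⟩ := hF t ht1
  refine ⟨y₀, ?_⟩
  intro n' hn' α V M _ S ends Q D₂ I V₀ Cr hFr hP hI hQ hD₂ hPG hdis hLK hLM hJ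
  obtain ⟨D, P, r, hDI, hPI, hPD, hEx, hr, hr', hPc, hsk⟩ := hFr.pieces hP (m + 1) (by
    rw [← hr₀]; exact hI)
  rw [← hr₀] at hr'
  obtain ⟨E, hEI, hEc, hgood⟩ := hJ D hDI hEx
  obtain ⟨D₀, hD₀⟩ : ∃ D₀, D₀ = Ufm S ends D V₀ := ⟨_, rfl⟩
  rw [← hD₀] at hgood hsk
  have hD₀S : D₀ ⊆ S := by rw [hD₀]; exact Ufm_sub _ _
  have hD₀E : D₀ ⊆ M.E := hD₀S.trans hFr.sub
  have fD : (M ／ D₀).Finite := BQ.fin_contract _
  -- the groups
  have hr1 : 1 ≤ r := by omega
  obtain ⟨G, hG1, hG2⟩ := groups_split m r (P \ E) (by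
    have h1 := Finset.le_card_sdiff E P
    rw [hPc, Nat.succ_mul] at h1
    omega)
  have hGP : ∀ g < m, G g ⊆ P := fun g hg => (hG1 g hg).1.trans Finset.sdiff_subset
  have hGI : ∀ g < m, G g ⊆ I := fun g hg => (hGP g hg).trans hPI
  have hGD : ∀ g < m, ∀ p ∈ G g, p ∉ D := fun g hg p hp h =>
    Finset.disjoint_left.1 hPD (hGP g hg hp) h
  -- the grids with joints
  have hdat : ∀ p, (∃ g < m, p ∈ G g) → ∃ (C C' S' : Set α) (j : ℕ × ℕ → α)
      (ed : ℕ × ℕ → ℕ × ℕ → α), Cr p C ed ∧ C ⊆ ins S ends (V₀ p) ∧ C' ⊆ C ∧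
        S' ⊆ ins S ends (V₀ p) ∧ Disjoint C S' ∧ JGrid (M ／ D₀ ／ C') S' t j ed ∧
        ConnR (M ／ D₀) (C' ∪ S') := by
    rintro p ⟨g, hg, hpg⟩
    have h1 := (hG1 g hg).1 hpg
    rw [Finset.mem_sdiff] at h1
    obtain ⟨C, S', j, ed, c1, c2, c3, c4, c5, c6⟩ := hgood p (hGI g hg hpg) (hGD g hg p hpg) h1.2
    have e1 : M ／ D₀ ／ (∅ : Set α) = M ／ D₀ := Matroid.contract_empty _
    obtain ⟨C', hC', S'', hS'', g1, g2, _⟩ := prune (M := M ／ D₀) (D₀ := ∅) (by omega)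
      (empty_subset _) (empty_disjoint _) (by rw [e1]; exact c5) c4 c6 (by rw [e1]; exact c6)
    rw [e1] at g2
    exact ⟨C, C', S'', j, ed, c1, c2, hC', hS''.trans c3, c4.mono_right hS'', g1, g2⟩
  obtain ⟨p₁, hp₁⟩ : (G 0).Nonempty := by
    rw [← Finset.card_pos, (hG1 0 (by omega)).2]
    exact hr1
  obtain ⟨hα⟩ : Nonempty (Nonempty α) := by
    obtain ⟨_, _, _, j, _⟩ := hdat p₁ ⟨0, by omega, hp₁⟩
    exact ⟨⟨j (0, 0)⟩⟩
  choose! C C' S' j ed d1 d2 d3 d4 d5 d6 d7 using hdat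
  obtain ⟨N, hN⟩ : ∃ N : ℕ → Set α, ∀ p, N p = C' p ∪ S' p := ⟨_, fun _ => rfl⟩
  have hNi : ∀ g < m, ∀ p ∈ G g, N p ⊆ ins S ends (V₀ p) := by
    intro g hg p hp
    rw [hN]
    exact union_subset ((d3 p ⟨g, hg, hp⟩).trans (d2 p ⟨g, hg, hp⟩)) (d4 p ⟨g, hg, hp⟩)
  have hiE : ∀ p, ins S ends (V₀ p) ⊆ M.E := fun p e he => hFr.sub he.1
  have hNE : ∀ g < m, ∀ p ∈ G g, N p ⊆ M.E := fun g hg p hp => (hNi g hg p hp).trans (hiE p)
  have hidis : ∀ p ∈ I, ∀ q ∈ I, p ≠ q → Disjoint (ins S ends (V₀ p)) (ins S ends (V₀ q)) :=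
    fun p hp q hq hpq => ins_disj (hP.dis p hp q hq hpq)
  have hiD : ∀ g < m, ∀ p ∈ G g, Disjoint (ins S ends (V₀ p)) D₀ := by
    intro g hg p hp
    rw [hD₀, Set.disjoint_left]
    intro e he he'
    obtain ⟨q, hq, he'⟩ := mem_Ufm.1 he'
    refine Set.disjoint_left.1 (hidis p (hGI g hg hp) q (hDI hq) ?_) he he'
    rintro rfl
    exact hGD g hg _ hp hq
  -- skewness modulo `D₀`, for families of subsets
  have hskF : ∀ (F : Finset ℕ) (A : ℕ → Set α), F ⊆ P → (∀ p ∈ F, A p ⊆ ins S ends (V₀ p)) →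
      ∑ p ∈ F, rk (M ／ D₀) (A p) ≤ rk (M ／ D₀) (⋃ p ∈ F, A p) := by
    intro F A hFP hA
    exact skew_fam hFP hA hsk
  have hconD : ∀ X ⊆ M.E \ D₀, rk (M ／ D₀) X + rk M D₀ = rk M (X ∪ D₀) := fun X hX =>
    BQ.rk_con hD₀E hX
  have hloc : ∀ F ⊆ I, Disjoint F D → ∀ X ⊆ Ufm S ends F V₀,
      rk M X + rk M D₀ ≤ rk M (X ∪ D₀) + (u + D.card) := by
    intro F hF hFD X hX
    have h1 := hFr.conn_le hP hDI hF hFD.symm
    rw [← hD₀] at h1
    have h2 := rk_submod M (X ∪ D₀) (Ufm S ends F V₀)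
    have h3 : rk M X ≤ rk M ((X ∪ D₀) ∩ Ufm S ends F V₀) :=
      rk_mono M (subset_inter subset_union_left hX)
    have h4 : rk M (Ufm S ends F V₀ ∪ D₀) ≤ rk M (X ∪ D₀ ∪ Ufm S ends F V₀) :=
      rk_mono M (union_subset subset_union_right (subset_union_right.trans subset_union_left))
    omega
  have hGDd : ∀ g < m, Disjoint (G g) D := fun g hg =>
    Finset.disjoint_left.2 fun p hp h => hGD g hg p hp h
  have hNU : ∀ g < m, ∀ F ⊆ G g, (⋃ p ∈ F, N p) ⊆ Ufm S ends F V₀ := by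
    intro g hg F hF e he
    obtain ⟨p, hp, he⟩ := mem_iUnion₂.1 he
    exact mem_Ufm.2 ⟨p, hp, hNi g hg p (hF hp) he⟩
  have hNED : ∀ g < m, ∀ p ∈ G g, N p ⊆ M.E \ D₀ := fun g hg p hp e he =>
    ⟨hNE g hg p hp he, Set.disjoint_left.1 (hiD g hg p hp) (hNi g hg p hp he)⟩
  -- the exact piece of every group
  have hex : ∀ g, ∃ x : ℕ × (ℕ → ℕ), g < m → x.1 ∈ G g ∧
      (rk M (N x.1 ∪ ⋃ q ∈ (G g).erase x.1, N q) + rk M (D₀ ∪ ⋃ q ∈ (G g).erase x.1, N q) ≤
        rk M ((N x.1 ∪ ⋃ q ∈ (G g).erase x.1, N q) ∪ D₀) + rk M (⋃ q ∈ (G g).erase x.1, N q)) ∧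
      x.2 0 = x.1 ∧ (∀ i < r, x.2 i ∈ G g) ∧ (∀ i < r, ∀ j < r, x.2 i = x.2 j → i = j) ∧
      ∀ p ∈ G g, ∃ i < r, x.2 i = p := by
    intro g
    by_cases hg : g < m
    · obtain ⟨p, hp, h1⟩ := exists_exact (M := M) (G := G g) (N := N) (D₀ := D₀)
        (ρ := u + D.card) (by
          have h1 := hskF (G g) N (hGP g hg) (hNi g hg)
          have h2 := hconD (⋃ p ∈ G g, N p) (iUnion₂_subset (hNED g hg))
          have h3 : ∑ p ∈ G g, (rk M (N p ∪ D₀) - rk M D₀) = ∑ p ∈ G g, rk (M ／ D₀) (N p) := by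
            refine Finset.sum_congr rfl fun p hp => ?_
            have := hconD (N p) (hNED g hg p hp)
            omega
          rw [h3]
          omega) (hloc (G g) (hGI g hg) (hGDd g hg) _ (hNU g hg _ (Finset.Subset.refl _)))
        (by rw [(hG1 g hg).2]; exact hr)
      obtain ⟨e, e1, e2, e3, e4⟩ := enum_zero (hG1 g hg).2 hp
      exact ⟨(p, e), fun _ => ⟨hp, h1, e1, e2, e3, e4⟩⟩
    · exact ⟨(0, fun _ => 0), fun h => absurd h hg⟩
  choose x hx using hex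
  obtain ⟨p₀, hp₀⟩ : ∃ p₀ : ℕ → ℕ, ∀ g, p₀ g = (x g).1 := ⟨_, fun _ => rfl⟩
  obtain ⟨en, hen⟩ : ∃ en : ℕ → ℕ → ℕ, ∀ g, en g = (x g).2 := ⟨_, fun _ => rfl⟩
  obtain ⟨R, hR⟩ : ∃ R : ℕ → Set α, ∀ g, R g = ⋃ q ∈ (G g).erase (p₀ g), N q :=
    ⟨_, fun _ => rfl⟩
  have hx' : ∀ g < m, p₀ g ∈ G g ∧ rk M (N (p₀ g) ∪ R g) + rk M (D₀ ∪ R g) ≤
      rk M ((N (p₀ g) ∪ R g) ∪ D₀) + rk M (R g) ∧ en g 0 = p₀ g ∧ (∀ i < r, en g i ∈ G g) ∧
      (∀ i < r, ∀ j < r, en g i = en g j → i = j) ∧ ∀ p ∈ G g, ∃ i < r, en g i = p := by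
    intro g hg
    rw [hR, hp₀, hen]
    exact hx g hg
  clear hx
  have hRi : ∀ g < m, R g ⊆ Ufm S ends ((G g).erase (p₀ g)) V₀ := by
    intro g hg
    rw [hR]
    exact hNU g hg _ (Finset.erase_subset _ _)
  have hRE : ∀ g < m, R g ⊆ M.E := fun g hg => (hRi g hg).trans ((Ufm_sub _ _).trans hFr.sub)
  have hRD : ∀ g < m, Disjoint (R g) D₀ := by
    intro g hg
    rw [hR, Set.disjoint_iUnion₂_left]
    intro q hq
    exact (hiD g hg q (Finset.mem_of_mem_erase hq)).mono_left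
      (hNi g hg q (Finset.mem_of_mem_erase hq))
  have hNR : ∀ g < m, Disjoint (N (p₀ g)) (R g) := by
    intro g hg
    rw [hR, Set.disjoint_iUnion₂_right]
    intro q hq
    have h1 := Finset.mem_erase.1 hq
    exact ((hidis _ (hGI g hg (hx' g hg).1) _ (hGI g hg h1.2) (Ne.symm h1.1)).mono_left
      (hNi g hg _ (hx' g hg).1)).mono_right (hNi g hg q h1.2)
  have hNeq : ∀ g < m, (⋃ q ∈ G g, N q) = N (p₀ g) ∪ R g := by
    intro g hg
    rw [hR, ← Finset.set_biUnion_insert, Finset.insert_erase (hx' g hg).1]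
  have hCi : ∀ g < m, C' (p₀ g) ⊆ ins S ends (V₀ (p₀ g)) := fun g hg =>
    (d3 _ ⟨g, hg, (hx' g hg).1⟩).trans (d2 _ ⟨g, hg, (hx' g hg).1⟩)
  have hSi : ∀ g < m, S' (p₀ g) ⊆ ins S ends (V₀ (p₀ g)) := fun g hg =>
    d4 _ ⟨g, hg, (hx' g hg).1⟩
  have hCS : ∀ g < m, Disjoint (C' (p₀ g)) (S' (p₀ g)) := fun g hg =>
    (d5 _ ⟨g, hg, (hx' g hg).1⟩).mono_left (d3 _ ⟨g, hg, (hx' g hg).1⟩)
  have hJG : ∀ g < m, JGrid (M ／ (C' (p₀ g) ∪ R g)) (S' (p₀ g)) t (j (p₀ g)) (ed (p₀ g)) := by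
    intro g hg
    have hpI := hx' g hg
    refine jgrid_of_skew (D₀ := D₀) ?_ ?_ (hRD g hg) (hCS g hg) (d6 _ ⟨g, hg, hpI.1⟩) ?_ ?_
    · refine union_subset (union_subset ?_ (hRE g hg)) hD₀E
      rw [← hN]
      exact hNE g hg _ hpI.1
    · rw [← hN, Set.disjoint_union_right]
      exact ⟨hNR g hg, (hiD g hg _ hpI.1).mono_left (hNi g hg _ hpI.1)⟩
    · rw [← hN]
      exact hpI.2.1
    · rw [← hN]
      have h1 := hskF (G g) N (hGP g hg) (hNi g hg)
      rw [hNeq g hg, ← Finset.add_sum_erase _ _ hpI.1] at h1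
      have h2 : rk (M ／ D₀) (R g) ≤ ∑ q ∈ (G g).erase (p₀ g), rk (M ／ D₀) (N q) := by
        rw [hR]
        exact rk_biUnion_le _ _
      have h3 := hconD _ (hNED g hg _ hpI.1)
      have h4 := hconD (R g) fun e he => ⟨hRE g hg he, Set.disjoint_left.1 (hRD g hg) he⟩
      have h5 := hconD (N (p₀ g) ∪ R g) (union_subset (hNED g hg _ hpI.1)
        fun e he => ⟨hRE g hg he, Set.disjoint_left.1 (hRD g hg) he⟩)
      rw [union_comm D₀ (R g)]
      omega
  have hen : ∀ g < m, ∀ i < r, en g i ∈ G g := fun g hg => (hx' g hg).2.2.2.1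
  have hEds : ∀ g < m, ∀ p ∈ G g, Eds t (ed p) ⊆ S' p := by
    rintro g hg p hp _ ⟨c, c', hc, rfl⟩
    exact (d6 p ⟨g, hg, hp⟩).mem c c' hc
  have hEdn : ∀ p, (Eds t (ed p)).Nonempty := fun p =>
    ⟨ed p (0, 0) (0, 1), (0, 0), (0, 1), ⟨⟨by simp only; omega, by simp only; omega⟩,
      ⟨by simp only; omega, by simp only; omega⟩, Or.inl ⟨rfl, Or.inl rfl⟩⟩, rfl⟩
  have hne : ∀ g < m, ∀ h < m, ∀ p ∈ G g, ∀ q ∈ G h, g ≠ h → p ≠ q := by
    rintro g hg h hh p hp q hq hgh rfl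
    exact Finset.disjoint_left.1 (hG2 g hg h hh hgh) hp hq
  have hNN : ∀ g < m, ∀ h < m, ∀ p ∈ G g, ∀ q ∈ G h, p ≠ q → Disjoint (N p) (N q) :=
    fun g hg h hh p hp q hq hpq => ((hidis p (hGI g hg hp) q (hGI h hh hq) hpq).mono_left
      (hNi g hg p hp)).mono_right (hNi h hh q hq)
  have hSN : ∀ g < m, S' (p₀ g) ⊆ N (p₀ g) := fun g hg => by
    rw [hN]; exact subset_union_right
  have hCN : ∀ g < m, C' (p₀ g) ⊆ N (p₀ g) := fun g hg => by
    rw [hN]; exact subset_union_left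
  have hCRu : ∀ g < m, C' (p₀ g) ∪ R g ⊆ Ufm S ends (G g) V₀ := by
    intro g hg
    refine union_subset (fun e he => mem_Ufm.2 ⟨_, (hx' g hg).1, hCi g hg he⟩) ?_
    exact (hRi g hg).trans (Ufm_mono (Finset.erase_subset _ _) fun _ _ => Set.Subset.refl _)
  have hCRE : ∀ g < m, C' (p₀ g) ∪ R g ⊆ M.E := fun g hg =>
    (hCRu g hg).trans ((Ufm_sub _ _).trans hFr.sub)
  have hCRS : ∀ g < m, Disjoint (C' (p₀ g) ∪ R g) (S' (p₀ g)) := by
    intro g hg
    rw [Set.disjoint_union_left]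
    exact ⟨hCS g hg, ((hNR g hg).mono_left (hSN g hg)).symm⟩
  obtain ⟨g, hg, hsel⟩ := select_weak M K (2 * r₀) m r (fun g => C' (p₀ g) ∪ R g)
    (fun g => S' (p₀ g)) (fun g i => N (en g i)) (fun g i => Eds t (ed (en g i))) Q D₀
    (by omega) hD₀E
    (fun g hg i hi => hNE g hg _ (hen g hg i hi))
    (by
      intro g hg e he
      have h1 : e ∈ ⋃ q ∈ G g, N q := by
        rw [hNeq g hg]
        rcases he with he | he
        · exact Or.inl (hCN g hg he)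
        · exact Or.inr he
      obtain ⟨q, hq, he⟩ := mem_iUnion₂.1 h1
      obtain ⟨i, hi, rfl⟩ := (hx' g hg).2.2.2.2.2 q hq
      exact mem_iUnion₂.2 ⟨i, Finset.mem_range.2 hi, he⟩)
    (fun g hg i hi => (hEds g hg _ (hen g hg i hi)).trans (by
      rw [hN]
      exact subset_union_right))
    (fun g hg i hi => (hiD g hg _ (hen g hg i hi)).mono_left (hNi g hg _ (hen g hg i hi)))
    (fun g hg h hh hgh i hi l hl => hNN g hg h hh _ (hen g hg i hi) _ (hen h hh l hl)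
      (hne g hg h hh _ (hen g hg i hi) _ (hen h hh l hl) hgh))
    (fun g hg i hi => by
      rw [hN]
      exact d7 _ ⟨g, hg, hen g hg i hi⟩)
    (by
      set F : Finset ℕ := (Finset.range m).biUnion G with hF
      have h1 := hskF F N (fun p hp => by
        obtain ⟨g, hg, hp⟩ := Finset.mem_biUnion.1 hp
        exact hGP g (Finset.mem_range.1 hg) hp) (fun p hp => by
        obtain ⟨g, hg, hp⟩ := Finset.mem_biUnion.1 hp
        exact hNi g (Finset.mem_range.1 hg) p hp)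
      have him : ∀ g < m, G g = (Finset.range r).image (en g) := by
        intro g hg
        ext p
        rw [Finset.mem_image]
        constructor
        · intro hp
          obtain ⟨i, hi, h2⟩ := (hx' g hg).2.2.2.2.2 p hp
          exact ⟨i, Finset.mem_range.2 hi, h2⟩
        · rintro ⟨i, hi, rfl⟩
          exact hen g hg i (Finset.mem_range.1 hi)
      have h2 : ∑ p ∈ F, rk (M ／ D₀) (N p) =
          ∑ g ∈ Finset.range m, ∑ i ∈ Finset.range r, rk (M ／ D₀) (N (en g i)) := by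
        rw [hF, Finset.sum_biUnion]
        · refine Finset.sum_congr rfl fun g hg => ?_
          rw [him g (Finset.mem_range.1 hg), Finset.sum_image]
          intro i hi j hj hij
          exact (hx' g (Finset.mem_range.1 hg)).2.2.2.2.1 i (by simpa using hi) j
            (by simpa using hj) hij
        · intro g hg h hh hgh
          exact hG2 g (by simpa using hg) h (by simpa using hh) hgh
      have h3 : (⋃ p ∈ F, N p) =
          ⋃ g ∈ Finset.range m, ⋃ i ∈ Finset.range r, N (en g i) := by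
        ext e
        simp only [mem_iUnion, hF, Finset.mem_biUnion]
        constructor
        · rintro ⟨p, ⟨g, hg, hp⟩, he⟩
          obtain ⟨i, hi, rfl⟩ := (hx' g (Finset.mem_range.1 hg)).2.2.2.2.2 p hp
          exact ⟨g, hg, i, Finset.mem_range.2 hi, he⟩
        · rintro ⟨g, hg, i, hi, he⟩
          exact ⟨_, ⟨g, hg, hen g (Finset.mem_range.1 hg) i (Finset.mem_range.1 hi)⟩, he⟩
      rw [h2, h3] at h1
      exact h1)
    (by
      intro g hg h hh hgh
      set A : ℕ → Set α := fun p => if p = p₀ g ∨ p = p₀ h then C' p else N p with hA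
      have hAN : ∀ f < m, ∀ p ∈ G f, A p ⊆ N p := by
        intro f hf p hp
        simp only [hA]
        split_ifs
        · rw [hN]; exact subset_union_left
        · exact Set.Subset.refl _
      have hAeq : ∀ f, f = g ∨ f = h → f < m → (⋃ p ∈ G f, A p) = C' (p₀ f) ∪ R f := by
        intro f hfgh hf
        ext e
        simp only [mem_iUnion, hR, mem_union]
        constructor
        · rintro ⟨p, hp, he⟩
          by_cases hpf : p = p₀ f
          · subst hpf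
            left
            have : A (p₀ f) = C' (p₀ f) := by
              simp only [hA]
              rw [if_pos]
              rcases hfgh with rfl | rfl
              · exact Or.inl rfl
              · exact Or.inr rfl
            rwa [this] at he
          · right
            exact ⟨p, Finset.mem_erase.2 ⟨hpf, hp⟩, hAN f hf p hp he⟩
        · rintro (he | ⟨p, hp, he⟩)
          · refine ⟨p₀ f, (hx' f hf).1, ?_⟩
            have : A (p₀ f) = C' (p₀ f) := by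
              simp only [hA]
              rw [if_pos]
              rcases hfgh with rfl | rfl
              · exact Or.inl rfl
              · exact Or.inr rfl
            rwa [this]
          · obtain ⟨h1, h2⟩ := Finset.mem_erase.1 hp
            refine ⟨p, h2, ?_⟩
            have : A p = N p := by
              simp only [hA]
              rw [if_neg]
              rintro (h3 | h3)
              · rcases hfgh with rfl | rfl
                · exact h1 h3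
                · exact hne _ hf g hg p h2 _ (hx' g hg).1 (Ne.symm hgh) h3
              · rcases hfgh with rfl | rfl
                · exact hne _ hf h hh p h2 _ (hx' h hh).1 hgh h3
                · exact h1 h3
            rwa [this]
      have h1 := hskF (G g ∪ G h) A (Finset.union_subset (hGP g hg) (hGP h hh)) (fun p hp => by
        rcases Finset.mem_union.1 hp with hp | hp
        · exact (hAN g hg p hp).trans (hNi g hg p hp)
        · exact (hAN h hh p hp).trans (hNi h hh p hp))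
      rw [Finset.sum_union (hG2 g hg h hh hgh), Finset.set_biUnion_union,
        hAeq g (Or.inl rfl) hg, hAeq h (Or.inr rfl) hh] at h1
      have h2 := rk_biUnion_le (M := M ／ D₀) (G g) A
      have h3 := rk_biUnion_le (M := M ／ D₀) (G h) A
      rw [hAeq g (Or.inl rfl) hg] at h2
      rw [hAeq h (Or.inr rfl) hh] at h3
      have hCD : ∀ f < m, C' (p₀ f) ∪ R f ⊆ M.E \ D₀ := by
        intro f hf e he
        obtain ⟨p, hp, he'⟩ := mem_Ufm.1 (hCRu f hf he)
        exact ⟨hCRE f hf he, Set.disjoint_left.1 (hiD f hf p hp) he'⟩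
      have h4 := hconD _ (hCD g hg)
      have h5 := hconD _ (hCD h hh)
      have h6 := hconD _ (union_subset (hCD g hg) (hCD h hh))
      have h7 := hloc (G g) (hGI g hg) (hGDd g hg) _ (hCRu g hg)
      have h8 := hloc (G h) (hGI h hh) (hGDd h hh) _ (hCRu h hh)
      have h9 := rk_union_two (M := M) (C' (p₀ g) ∪ R g ∪ (C' (p₀ h) ∪ R h)) D₀
      omega)
    (by
      intro g hg h hh hgh i hi
      have hp := (hx' g hg).1
      have hq := hen h hh i hi
      have h1 := hLK (p₀ g) (hGI g hg hp) (en h i) (hGI h hh hq) (hne g hg h hh _ hp _ hq hgh)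
        _ _ _ _ (d1 _ ⟨g, hg, hp⟩) (d1 _ ⟨h, hh, hq⟩)
        (Ufm S ends ((G g).erase (p₀ g)) V₀) (Ufm_mono (fun p hp' => by
          obtain ⟨h2, h3⟩ := Finset.mem_erase.1 hp'
          rw [Finset.mem_sdiff, Finset.mem_insert, Finset.mem_singleton]
          refine ⟨hGI g hg h3, ?_⟩
          rintro (h4 | h4)
          · exact h2 h4
          · exact hne g hg h hh p h3 _ hq hgh h4) fun _ _ => Set.Subset.refl _)
      refine kge_mono (kge_of_contract (union_subset_union (d3 _ ⟨g, hg, hp⟩) (hRi g hg)) ?_ ?_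
        h1) (hEds g hg _ hp) (Set.Subset.refl _) le_rfl
      · exact union_subset ((d2 _ ⟨g, hg, hp⟩).trans (hiE _)) ((Ufm_sub _ _).trans hFr.sub)
      · rw [Set.disjoint_union_right]
        refine ⟨(d5 _ ⟨g, hg, hp⟩).symm.mono_left (hEds g hg _ hp), ?_⟩
        rw [Set.disjoint_left]
        intro e he he'
        obtain ⟨q, hq', he'⟩ := mem_Ufm.1 he'
        obtain ⟨h2, h3⟩ := Finset.mem_erase.1 hq'
        exact Set.disjoint_left.1 (hidis _ (hGI g hg hp) q (hGI g hg h3) (Ne.symm h2))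
          (hSi g hg (hEds g hg _ hp he)) he')
    (fun g hg h hh hgh X hXQ hSX _ _ => hLM _ (hGI g hg (hx' g hg).1) _ _
      (d1 _ ⟨g, hg, (hx' g hg).1⟩) X ((hEds g hg _ (hx' g hg).1).trans hSX) hXQ)
  -- the end
  have f1 : (M ／ (C' (p₀ g) ∪ R g)).Finite := BQ.fin_contract _
  have hQD : Disjoint (C' (p₀ g) ∪ R g) (Q ∪ D₂) := by
    refine Disjoint.mono_left (hCRu g hg) ?_
    rw [Set.disjoint_left]
    intro e he he'
    obtain ⟨p, hp, he⟩ := mem_Ufm.1 he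
    exact Set.disjoint_left.1 (hdis p (hGI g hg hp)) he he'
  refine HasUniformMinor_mono (hy n' hn' (M ／ (C' (p₀ g) ∪ R g)) (S' (p₀ g)) Q D₂ (j (p₀ g))
    (ed (p₀ g)) (hJG g hg) ?_ ?_ ?_ (pgrid_contract hQ hD₂ hQD hPG) hsel)
    (by
      have h1 := Matroid.contract_delete_isMinor M (C' (p₀ g) ∪ R g) ∅
      rwa [Matroid.delete_empty] at h1)
  · exact fun e he => ⟨hQ he, fun h1 => Set.disjoint_left.1 hQD h1 (Or.inl he)⟩
  · exact ((hdis _ (hGI g hg (hx' g hg).1)).mono_left (hSi g hg)).mono_right subset_union_left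
  · exact fun e he => ⟨⟨(hD₂ he).1, fun h1 => Set.disjoint_left.1 hQD h1 (Or.inr he)⟩,
      (hD₂ he).2⟩

end EN
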