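import Pool.Agent.EN.FloatCore
import Pool.Agent.EN.Lanes
import Pool.Agent.EN.LinkF
import Pool.Agent.EN.KgeCrt

/-!
# Floats: the link theorem inside of a rectangle of a wall (helper95)
-/

open Set
open scoped Matroid

namespace EN

open BIC Gad BICS

universe u v

section

variable {α V : Type*} {M : Matroid α} {S : Set α} {ends : α → Sym2 V}

lemma CGr.lanes {G : ℕ × ℕ → Set V} {W n t K : ℕ} (hgr : CGr S ends W G) (ht : 1 ≤ t)
    (hK : K ≤ t) (hW : n * t ≤ W) (hW' : t + K ≤ W) {p q : ℕ} (hpq : p < q) (hq : q < n) {i : ℕ}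
    (hi : i < K) :
    (UG G (Lane t K p q i)).Finite ∧ VConn S ends (UG G (Lane t K p q i)) ∧
      (UG G (Lane t K p q i) ∩ UG G (Pce t p)).Nonempty ∧
      UG G (Lane t K p q i) ∩ UG G (Pce t p) ⊆ G (loc t p (0, i)) ∧
      (UG G (Lane t K p q i) ∩ UG G (Pce t q)).Nonempty ∧
      UG G (Lane t K p q i) ∩ UG G (Pce t q) ⊆ G (loc t q (0, K - 1 - i)) ∧
      ∀ r < n, r ≠ p → r ≠ q → Disjoint (UG G (Lane t K p q i)) (UG G (Pce t r)) := by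
  have hL := lane_sub (W := W) ht hK hW hW' hpq hq hi
  have hP : ∀ r < n, Pce t r ⊆ Cl W := fun r hr => pce_sub (K := K) hW hW' hr
  have e1 : loc t p (0, i) = (p * t + i, t - 1) := rfl
  have e2 : loc t q (0, K - 1 - i) = (q * t + (K - 1 - i), t - 1) := rfl
  have hc1 : (0, i) ∈ Cl t := ⟨by show 0 < t; omega, by show i < t; omega⟩
  have hc2 : (0, K - 1 - i) ∈ Cl t := ⟨by show 0 < t; omega, by show K - 1 - i < t; omega⟩
  have hpn : p < n := by omega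
  refine ⟨hgr.ug_fin hL, hgr.lane_con ht hK hW hW' hpq hq hi, ?_, ?_, ?_, ?_, ?_⟩
  · obtain ⟨v, hv⟩ := hgr.ne _ (hP p hpn (loc_mem hc1))
    exact ⟨v, mem_UG.2 ⟨_, e1 ▸ lane_left hpq hi, hv⟩, mem_UG.2 ⟨_, loc_mem hc1, hv⟩⟩
  · rw [e1]
    exact hgr.ug_inter hL (hP p hpn) (lane_pce_left ht hK hpq hi)
  · obtain ⟨v, hv⟩ := hgr.ne _ (hP q hq (loc_mem hc2))
    exact ⟨v, mem_UG.2 ⟨_, e2 ▸ lane_right hi, hv⟩, mem_UG.2 ⟨_, loc_mem hc2, hv⟩⟩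
  · rw [e2]
    exact hgr.ug_inter hL (hP q hq) (lane_pce_right ht hK hpq hi)
  · intro r hr h1 h2
    exact hgr.ug_dis hL (hP r hr) (lane_pce_other hK h1 h2 hi)

lemma mem_sdiff2 {I : Finset ℕ} {p q r : ℕ} (h : r ∈ I \ {p, q}) : r ∈ I ∧ r ≠ p ∧ r ≠ q := by
  rw [Finset.mem_sdiff, Finset.mem_insert, Finset.mem_singleton, not_or] at h
  exact h

/-- **(LK) for floats.** -/
theorem float_LK [M.Finite] {u K t : ℕ} (hF : FrmU M S ends u) {G : ℕ × ℕ → Set V} {W n : ℕ}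
    (hgr : CGr S ends W G) (ht : 2 ≤ t) (hK : K + u + 2 ≤ t) (hW : n * t ≤ W)
    (hW' : t + (K + u + 2) ≤ W) {I : Finset ℕ} (hI : ∀ p ∈ I, p < n) {p q : ℕ} (hp : p ∈ I)
    (hq : q ∈ I) (hpq : p ≠ q) {C C' : Set α} {ed ed' : ℕ × ℕ → ℕ × ℕ → α}
    (h : FCr S ends G t p C ed) (h' : FCr S ends G t q C' ed') {R : Set α}
    (hR : R ⊆ Ufm S ends (I \ {p, q}) (fun r => UG G (Pce t r))) :
    KGe (M ／ (C ∪ R)) (Eds t ed) (Eds t ed') K := by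
  have hP : ∀ r ∈ I, Pce t r ⊆ Cl W := fun r hr => pce_sub (K := K + u + 2) hW hW' (hI r hr)
  have hR₁ : Avd ends R (UG G (Pce t p)) := avd_Ufm hR fun s hs =>
    hgr.ug_dis (hP p hp) (hP s (mem_sdiff2 hs).1) (pce_dis (mem_sdiff2 hs).2.1)
  have hR₂ : Avd ends R (UG G (Pce t q)) := avd_Ufm hR fun s hs =>
    hgr.ug_dis (hP q hq) (hP s (mem_sdiff2 hs).1) (pce_dis (mem_sdiff2 hs).2.2)
  have hV : Disjoint (UG G (Pce t p)) (UG G (Pce t q)) :=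
    hgr.ug_dis (hP p hp) (hP q hq) (pce_dis hpq.symm)
  rcases lt_or_gt_of_ne hpq with hlt | hlt
  · refine hF.kge_crt ht h.1 h'.1 hV (hR.trans Ufm_sub') hR₁ hR₂
      (fun i => UG G (Lane t (K + u + 2) p q i)) (fun i => i) (fun i => K + u + 2 - 1 - i)
      (fun i hi => ?_) (fun i hi j hj hij => ?_)
    · obtain ⟨c1, c2, c3, c4, c5, c6, c7⟩ := hgr.lanes (by omega) hK hW hW' hlt (hI q hq) hi
      exact ⟨c1, c2, by omega, by omega, c3, c4, c5, c6, avd_Ufm hR fun s hs =>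
        c7 s (hI s (mem_sdiff2 hs).1) (mem_sdiff2 hs).2.1 (mem_sdiff2 hs).2.2⟩
    · refine ⟨hgr.ug_dis (lane_sub (by omega) hK hW hW' hlt (hI q hq) hi)
        (lane_sub (by omega) hK hW hW' hlt (hI q hq) hj)
        (lane_dis (by omega) hK hlt hi hj hij), hij, by omega⟩
  · refine hF.kge_crt ht h.1 h'.1 hV (hR.trans Ufm_sub') hR₁ hR₂
      (fun i => UG G (Lane t (K + u + 2) q p i)) (fun i => K + u + 2 - 1 - i) (fun i => i)
      (fun i hi => ?_) (fun i hi j hj hij => ?_)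
    · obtain ⟨c1, c2, c3, c4, c5, c6, c7⟩ := hgr.lanes (by omega) hK hW hW' hlt (hI p hp) hi
      exact ⟨c1, c2, by omega, by omega, c5, c6, c3, c4, avd_Ufm hR fun s hs =>
        c7 s (hI s (mem_sdiff2 hs).1) (mem_sdiff2 hs).2.2 (mem_sdiff2 hs).2.1⟩
    · refine ⟨hgr.ug_dis (lane_sub (by omega) hK hW hW' hlt (hI p hp) hi)
        (lane_sub (by omega) hK hW hW' hlt (hI p hp) hj)
        (lane_dis (by omega) hK hlt hi hj hij), by omega, hij⟩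

lemma FrmU.mono_sub {M : Matroid α} {S S' : Set α} {ends : α → Sym2 V} {u : ℕ} [M.Finite]
    (h : FrmU M S ends u) (hS : S' ⊆ S) : FrmU M S' ends u := by
  have hi : ∀ W : Set V, ins S' ends W ⊆ ins S ends W := fun W e he => ⟨hS he.1, he.2⟩
  refine ⟨hS.trans h.sub, fun v e he hv hc => h.star v e (hS he) hv
    (M.closure_subset_closure (hi _) hc), fun W hW => (rk_mono M (hi W)).trans (h.rk W hW)⟩

end

/-- **The link theorem for floats.** -/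
theorem float_link (k u : ℕ) : ∃ k₁ : ℕ, ∀ e₁ : ℕ, ∃ W y₀ : ℕ, ∀ n' ≥ y₀,
    ∀ {α : Type u} {V : Type v} (M : Matroid α) [M.Finite] (Sf S Q E₂ D₂ : Set α)
      (ends : α → Sym2 V) (B : ℕ × ℕ → Set V) (x₀ y₁ : ℕ),
      S ⊆ Sf → FrmU M Sf ends u → Q ⊆ M.E → Disjoint Q S → Frm (M ／ Q) S ends →
      E₂ ⊆ M.E → D₂ ⊆ M.E \ E₂ → PGrid (M✶ ／ D₂) E₂ n' → Disjoint S (E₂ ∪ D₂) →
      (∀ p ∈ Rct W x₀ y₁, (B p).Finite) → (∀ p ∈ Rct W x₀ y₁, (B p).Nonempty) →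
      (∀ p ∈ Rct W x₀ y₁, VConn S ends (B p)) →
      (∀ p ∈ Rct W x₀ y₁, ∀ q ∈ Rct W x₀ y₁, p ≠ q → Disjoint (B p) (B q)) →
      (∀ p ∈ Rct W x₀ y₁, ∀ q ∈ Rct W x₀ y₁, Iso.WAdj p q → Lnk S ends (B p) (B q)) →
      (∀ I : Finset (ℕ × ℕ), (∀ p ∈ I, p ∈ Rct W x₀ y₁) → JU (M ／ Q) S ends I B) →
      (∀ X ⊆ M.E, Disjoint X E₂ → BIC.rk M X + BIC.rk M (M.E \ X) < BIC.rk M M.E + k₁ →
        ∃ (VB : Set V) (B' : Set α), VB.Finite ∧ B' ⊆ ins Sf ends VB ∧ VConn B' ends VB ∧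
          Disjoint B' X ∧ {p | p ∈ Rct W x₀ y₁ ∧ Disjoint (B p) VB}.ncard ≤ e₁) →
      HasUniformMinor M k := by
  obtain ⟨K₁, K₂, t₀, n₀, hlink⟩ := link_main.{u, v} k u
  refine ⟨K₂, fun e₁ => ?_⟩
  obtain ⟨t, ht⟩ : ∃ t, t = t₀ + K₁ + K₂ + u + e₁ + 4 := ⟨_, rfl⟩
  obtain ⟨y₀, hy⟩ := hlink t (by omega)
  obtain ⟨W, hW⟩ : ∃ W, W = n₀ * t + 2 * t + K₁ + u + 2 := ⟨_, rfl⟩
  refine ⟨W, y₀, ?_⟩
  intro n' hn' α V M _ Sf S Q E₂ D₂ ends B x₀ y₁ hSSf hFf hQ hQS hFQ hE₂ hD₂ hPG hSd fin ne con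
    dis cnt ju hal
  have hgr : CGr S ends W (cel B x₀ y₁) := cel_cgr fin ne con dis cnt
  have hF : FrmU M S ends u := hFf.mono_sub hSSf
  have hWn : n₀ * t ≤ W := by omega
  have hW1 : t + (K₁ + u + 2) ≤ W := by omega
  have hI : ∀ p ∈ Finset.range n₀, p < n₀ := fun p hp => Finset.mem_range.1 hp
  have hP : ∀ p ∈ Finset.range n₀, Pce t p ⊆ Cl W := fun p hp =>
    pce_sub (K := K₁ + u + 2) hWn hW1 (hI p hp)
  have hpc : Pcs S ends (Finset.range n₀) (fun p => UG (cel B x₀ y₁) (Pce t p)) := by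
    refine ⟨fun p hp => hgr.ug_fin (hP p hp), fun p hp => hgr.pce_con (by omega) ?_,
      fun p hp q hq hpq => hgr.ug_dis (hP p hp) (hP q hq) (pce_dis hpq.symm)⟩
    have := mul_step (t := t) (hI p hp)
    omega
  refine hy n' hn' M S ends E₂ D₂ (Finset.range n₀) (fun p => UG (cel B x₀ y₁) (Pce t p))
    (FCr S ends (cel B x₀ y₁) t) hF hpc (by rw [Finset.card_range]) hE₂ hD₂ hPG
    (fun p _ => hSd.mono_left fun e he => he.1) ?_ ?_ ?_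
  · intro p hp q hq hpq C C' ed ed' h h' R hR
    exact float_LK hF hgr (by omega) (by omega) hWn hW1 hI hp hq hpq h h' hR
  · intro p hp C ed h
    exact float_LM hSSf hFf (by omega) (by omega) hgr hal (hP p hp) h
  · intro D hD hex
    refine ⟨∅, Finset.empty_subset _, by simp, fun p hp hpD _ => ?_⟩
    exact float_J hQ hQS hF.sub hFQ (by omega) hWn (by omega) fin ne con dis cnt ju hI hD hex
      ⟨u, hF⟩ hpc hp hpD

end EN
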