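import Pool.Agent.EN.FloatLink
import Pool.Agent.EN.WallRob

/-!
# Floats: a rectangle of a wall model (helper95)
-/

open Set
open scoped Matroid

namespace EN

open BIC Gad BICS Wall Mdl

universe u v

/-- Blocks of a wall with natural coordinates. -/
def Bn {V : Type*} {h : ℕ} {Z : Finset (WV h)} (B : WZ Z → Set V) (p : ℕ × ℕ) : Set V :=
  {v | ∃ y : WZ Z, vl y.1 = p ∧ v ∈ B y}

lemma Bn_vl {V : Type*} {h : ℕ} {Z : Finset (WV h)} (B : WZ Z → Set V) (y : WZ Z) :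
    Bn B (vl y.1) = B y := by
  ext v
  constructor
  · rintro ⟨z, hz, hv⟩
    rwa [← Subtype.ext (vl_inj hz)]
  · intro hv
    exact ⟨y, rfl, hv⟩

/-- **The link theorem for a rectangle of a wall model.** -/
theorem float_wall (k u : ℕ) : ∃ k₁ : ℕ, ∀ e₁ : ℕ, ∃ w y₀ : ℕ, ∀ n' ≥ y₀,
    ∀ {α : Type u} {V : Type v} (M : Matroid α) [M.Finite] (Sf S Q E₂ D₂ : Set α)
      (ends : α → Sym2 V) {h : ℕ} (Z : Finset (WV h)) (B : WZ Z → Set V) (a₁ a₂ : ℕ)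
      (R : Finset (WZ Z)),
      S ⊆ Sf → FrmU M Sf ends u → Q ⊆ M.E → Disjoint Q S → Frm (M ／ Q) S ends →
      E₂ ⊆ M.E → D₂ ⊆ M.E \ E₂ → PGrid (M✶ ／ D₂) E₂ n' → Disjoint S (E₂ ∪ D₂) →
      (∀ y : WV h, vl y ∈ Rct w a₁ a₂ → y ∉ Z) → a₁ + 2 * w ≤ 2 * h → a₂ + w ≤ 2 * h →
      (∀ y, y ∈ R ↔ vl y.1 ∈ Rct w a₁ a₂) →
      (∀ y ∈ R, (B y).Finite ∧ (B y).Nonempty ∧ VConn S ends (B y)) →
      (∀ y ∈ R, ∀ z ∈ R, y ≠ z → Disjoint (B y) (B z)) →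
      (∀ y ∈ R, ∀ z ∈ R, (GZ Z).Adj y z → Lnk S ends (B y) (B z)) → JU (M ／ Q) S ends R B →
      (∀ X ⊆ M.E, Disjoint X E₂ → BIC.rk M X + BIC.rk M (M.E \ X) < BIC.rk M M.E + k₁ →
        ∃ (VB : Set V) (B' : Set α), VB.Finite ∧ B' ⊆ ins Sf ends VB ∧ VConn B' ends VB ∧
          Disjoint B' X ∧ {y | y ∈ R ∧ Disjoint (B y) VB}.ncard ≤ e₁) →
      HasUniformMinor M k := by
  classical
  obtain ⟨k₁, hk⟩ := float_link.{u, v} k u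
  refine ⟨k₁, fun e₁ => ?_⟩
  obtain ⟨w, y₀, hy⟩ := hk e₁
  refine ⟨w, y₀, ?_⟩
  intro n' hn' α V M _ Sf S Q E₂ D₂ ends h Z B a₁ a₂ R h1 h2 h3 h4 h5 h6 h7 h8 h9 hZ hw1 hw2 hR
    hB hd hl hju hal
  have hex : ∀ p ∈ Rct w a₁ a₂, ∃ y ∈ R, vl y.1 = p := by
    rintro ⟨a, b⟩ hp
    have hp' := mem_Rct.1 hp
    exact ⟨⟨(⟨a, by omega⟩, ⟨b, by omega⟩), hZ _ hp⟩, (hR _).2 hp, rfl⟩
  have hfQ : (M ／ Q).Finite := BQ.fin_contract Q
  refine hy n' hn' M Sf S Q E₂ D₂ ends (Bn B) a₁ a₂ h1 h2 h3 h4 h5 h6 h7 h8 h9 ?_ ?_ ?_ ?_ ?_ ?_ ?_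
  · intro p hp
    obtain ⟨y, hy, rfl⟩ := hex p hp
    rw [Bn_vl]
    exact (hB y hy).1
  · intro p hp
    obtain ⟨y, hy, rfl⟩ := hex p hp
    rw [Bn_vl]
    exact (hB y hy).2.1
  · intro p hp
    obtain ⟨y, hy, rfl⟩ := hex p hp
    rw [Bn_vl]
    exact (hB y hy).2.2
  · intro p hp q hq hpq
    obtain ⟨y, hy, rfl⟩ := hex p hp
    obtain ⟨z, hz, rfl⟩ := hex q hq
    rw [Bn_vl, Bn_vl]
    exact hd y hy z hz fun e => hpq (by rw [e])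
  · intro p hp q hq hpq
    obtain ⟨y, hy, rfl⟩ := hex p hp
    obtain ⟨z, hz, rfl⟩ := hex q hq
    rw [Bn_vl, Bn_vl]
    exact hl y hy z hz hpq
  · intro I hI
    have e1 : I = (R.filter fun y => vl y.1 ∈ I).image (fun y : WZ Z => vl y.1) := by
      ext p
      simp only [Finset.mem_image, Finset.mem_filter]
      constructor
      · intro hp
        obtain ⟨y, hy, rfl⟩ := hex p (hI p hp)
        exact ⟨y, ⟨hy, hp⟩, rfl⟩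
      · rintro ⟨y, ⟨_, hy⟩, rfl⟩
        exact hy
    have e2 : (fun y : WZ Z => Bn B (vl y.1)) = B := funext fun y => Bn_vl B y
    rw [e1, JU.image (Function.Injective.injOn fun y z hyz => Subtype.ext (vl_inj hyz)), e2]
    exact hju.restr h5 (fun y hy => (hB y hy).1) (Finset.filter_subset _ _)
  · intro X hX hXE hXr
    obtain ⟨VB, B', v1, v2, v3, v4, v5⟩ := hal X hX hXE hXr
    refine ⟨VB, B', v1, v2, v3, v4, ?_⟩
    have hf : {y | y ∈ R ∧ Disjoint (B y) VB}.Finite := R.finite_toSet.subset fun y hy => hy.1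
    refine le_trans (Set.ncard_le_ncard (t := (fun y : WZ Z => vl y.1) ''
      {y | y ∈ R ∧ Disjoint (B y) VB}) ?_ (hf.image _)) ((Set.ncard_image_le hf).trans v5)
    rintro p ⟨hp, hpd⟩
    obtain ⟨y, hy, rfl⟩ := hex p hp
    rw [Bn_vl] at hpd
    exact ⟨y, ⟨hy, hpd⟩, rfl⟩

end EN
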