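import Mathlib

/-!
# A family of bridges has less members than there are vertices
-/

open Relation

namespace Mdl

/-- One step along the family. -/
def FSt {κ ε : Type*} (F : Set ε) (a b : ε → κ) (u v : κ) : Prop :=
  ∃ e ∈ F, (a e = u ∧ b e = v) ∨ (a e = v ∧ b e = u)

lemma FSt.symm' {κ ε : Type*} {F : Set ε} {a b : ε → κ} {u v : κ}
    (h : ReflTransGen (FSt F a b) u v) : ReflTransGen (FSt F a b) v u := by
  induction h with
  | refl => exact ReflTransGen.refl
  | tail _ hbc ih =>
    refine ReflTransGen.head ?_ ih
    obtain ⟨e, he, h1⟩ := hbc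
    exact ⟨e, he, h1.symm⟩

lemma FSt.mono' {κ ε : Type*} {F F' : Set ε} {a b : ε → κ} {u v : κ} (hF : F ⊆ F')
    (h : ReflTransGen (FSt F a b) u v) : ReflTransGen (FSt F' a b) u v := by
  induction h with
  | refl => exact ReflTransGen.refl
  | tail _ hbc ih =>
    obtain ⟨e, he, h1⟩ := hbc
    exact ReflTransGen.tail ih ⟨e, hF he, h1⟩

theorem forest {κ ε : Type*} (N : Finset κ) (F : Finset ε) (a b : ε → κ)
    (ha : ∀ e ∈ F, a e ∈ N) (hb : ∀ e ∈ F, b e ∈ N) (hN : N.Nonempty)
    (hbr : ∀ e ∈ F, ¬ ReflTransGen (FSt {e' | e' ∈ F ∧ e' ≠ e} a b) (a e) (b e)) :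
    F.card + 1 ≤ N.card := by
  classical
  have key : ∀ F' : Finset ε, F' ⊆ F →
      (N.image (fun u => {v | ReflTransGen (FSt (F' : Set ε) a b) u v})).card + F'.card ≤
        N.card := by
    intro F'
    induction F' using Finset.induction_on with
    | empty =>
      intro _
      rw [Finset.card_empty, add_zero]
      exact Finset.card_image_le
    | insert e F' heF ih =>
      intro hF
      have h1 := ih (fun x hx => hF (Finset.mem_insert_of_mem hx))
      have heF' : e ∈ F := hF (Finset.mem_insert_self _ _)
      rw [Finset.card_insert_of_notMem heF]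
      set cl' : κ → Set κ := fun u => {v | ReflTransGen (FSt (F' : Set ε) a b) u v} with hcl'
      set cl : κ → Set κ := fun u =>
        {v | ReflTransGen (FSt ((insert e F' : Finset ε) : Set ε) a b) u v} with hcl
      set φ : Set κ → Set κ := fun C => {v | ∃ u ∈ C, v ∈ cl u} with hφ
      have hsub : (F' : Set ε) ⊆ ((insert e F' : Finset ε) : Set ε) := by
        intro x hx
        rw [Finset.mem_coe] at hx ⊢
        exact Finset.mem_insert_of_mem hx
      have hφc : ∀ u, φ (cl' u) = cl u := by
        intro u
        ext v
        constructor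
        · rintro ⟨w, hw, hv⟩
          exact ReflTransGen.trans (FSt.mono' hsub hw) hv
        · intro hv
          exact ⟨u, ReflTransGen.refl, hv⟩
      have himg : N.image cl = (N.image cl').image φ := by
        rw [Finset.image_image]
        apply Finset.image_congr
        intro u _
        exact (hφc u).symm
      have hlt : ((N.image cl').image φ).card < (N.image cl').card := by
        refine lt_of_le_of_ne Finset.card_image_le (fun hcard => ?_)
        have hinj := Finset.injOn_of_card_image_eq hcard
        have h2 : cl' (a e) = cl' (b e) := by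
          apply hinj
          · rw [Finset.mem_coe]
            exact Finset.mem_image_of_mem _ (ha e heF')
          · rw [Finset.mem_coe]
            exact Finset.mem_image_of_mem _ (hb e heF')
          · rw [hφc, hφc]
            have h3 : ReflTransGen (FSt ((insert e F' : Finset ε) : Set ε) a b) (a e) (b e) :=
              ReflTransGen.single ⟨e, by
                rw [Finset.mem_coe]; exact Finset.mem_insert_self _ _, Or.inl ⟨rfl, rfl⟩⟩
            ext v
            exact ⟨fun h => ReflTransGen.trans (FSt.symm' h3) h,
              fun h => ReflTransGen.trans h3 h⟩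
        have h3 : b e ∈ cl' (a e) := by
          rw [h2]
          exact ReflTransGen.refl
        refine hbr e heF' (FSt.mono' ?_ h3)
        intro x hx
        rw [Finset.mem_coe] at hx
        refine ⟨hF (Finset.mem_insert_of_mem hx), ?_⟩
        rintro rfl
        exact heF hx
      rw [← himg] at hlt
      omega
  have h1 := key F (Finset.Subset.refl _)
  have h2 : 0 < (N.image (fun u => {v | ReflTransGen (FSt (F : Set ε) a b) u v})).card :=
    Finset.card_pos.2 (hN.image _)
  omega

end Mdl
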