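import Pool.Agent.GL.Loc
import Pool.Agent.GL.Ports
import Pool.Agent.GL.JGrid

/-!
# Frames (H5): star rule and rank rule; grids with joints from branch sets (row R1)
-/

open Set
open scoped Matroid

namespace EN

open BIC Gad

variable {α V : Type*}

/-- A graph on a matroid: star rule and rank rule. -/
structure Frm (M : Matroid α) (S : Set α) (ends : α → Sym2 V) : Prop where
  sub : S ⊆ M.E
  star : ∀ v, ∀ e ∈ S, v ∈ ends e → e ∉ M.closure (ins S ends {v}ᶜ)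
  rk : ∀ W : Set V, M.eRk (ins S ends W) ≤ W.encard

section

variable {M : Matroid α} {S : Set α} {ends : α → Sym2 V}

lemma bic_frm (hB : Bic M S ends) : Frm M S ends :=
  ⟨hB.sub, fun _ _ he hv => not_mem_Hx' hB he hv, hB.rk⟩

/-- Leaf rule. -/
lemma Frm.leaf (hF : Frm M S ends) {I : Set α} (hI : M.Indep I) (hIS : I ⊆ S) {v : V}
    (hv : ∀ e ∈ I, v ∉ ends e) {f : α} (hf : f ∈ S) (hfv : v ∈ ends f) :
    M.Indep (insert f I) := by
  have hfI : f ∉ I := fun h => hv f h hfv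
  have h1 : f ∉ M.closure I := by
    intro h
    refine hF.star v f hf hfv (M.closure_subset_closure ?_ h)
    intro e he
    refine ⟨hIS he, fun w hw => ?_⟩
    rintro rfl
    exact hv e he hw
  exact (hI.notMem_closure_iff_of_notMem hfI (hF.sub hf)).1 h1

/-- A tree is independent over everything that touches it at most at one vertex. -/
lemma Frm.indep_arb (hF : Frm M S ends) {U : Set V} (hU : U.Finite) {τ : Set α}
    (hA : Arb S ends U τ) {b : V} (hb : b ∈ U) {I : Set α} (hI : M.Indep I) (hIS : I ⊆ S)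
    (hIU : ∀ e ∈ I, ∀ v ∈ ends e, v ∈ U → v = b) : M.Indep (I ∪ τ) := by
  classical
  obtain ⟨φ, hφ, _⟩ := hA.2.2 b hb
  have hτf : τ.Finite := by
    have h1 : (φ '' τ).Finite := by
      rw [hφ.image_eq]
      exact hU.subset sdiff_subset
    exact h1.of_finite_image hφ.injOn
  have key : ∀ n : ℕ, ∀ τ' ⊆ τ, τ'.ncard = n → M.Indep (I ∪ τ') := by
    intro n
    induction n with
    | zero =>
      intro τ' hτ' hn
      have h1 : τ' = ∅ := (ncard_eq_zero (hτf.subset hτ')).1 hn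
      rw [h1, union_empty]
      exact hI
    | succ n ih =>
      intro τ' hτ' hn
      have hne : τ'.Nonempty := by
        rw [← ncard_pos (hτf.subset hτ')]; omega
      obtain ⟨w, hw, hwb, e, he, hwe, huniq⟩ := Gad.Arb.exists_leaf hU hA hτ' hne hb
      have h1 : M.Indep (I ∪ (τ' \ {e})) := by
        refine ih _ (sdiff_subset.trans hτ') ?_
        rw [ncard_sdiff_singleton_of_mem he, hn]
        omega
      have h2 := hF.leaf h1 (union_subset hIS (sdiff_subset.trans (hτ'.trans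
        (fun f hf => (hA.1 hf).1)))) (v := w) ?_ (hA.1 (hτ' he)).1 hwe
      · have e1 : insert e (I ∪ (τ' \ {e})) = I ∪ τ' := by
          ext f
          simp only [mem_insert_iff, mem_union, mem_sdiff, mem_singleton_iff]
          constructor
          · rintro (rfl | h | ⟨h, _⟩)
            · exact Or.inr he
            · exact Or.inl h
            · exact Or.inr h
          · rintro (h | h)
            · exact Or.inr (Or.inl h)
            · by_cases hfe : f = e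
              · exact Or.inl hfe
              · exact Or.inr (Or.inr ⟨h, hfe⟩)
        rw [← e1]
        exact h2
      · rintro f (hf | ⟨hf, hfe⟩) hwf
        · exact hwb (hIU f hf w hwf hw)
        · exact hfe (huniq f hf hwf)
  exact key _ τ (subset_refl _) rfl

lemma arb_encard {U : Set V} {τ : Set α} (hA : Arb S ends U τ) : τ.encard + 1 = U.encard := by
  obtain ⟨b, hb⟩ := hA.2.1
  obtain ⟨φ, hφ, _⟩ := hA.2.2 b hb
  have h1 : τ.encard = (U \ {b}).encard := by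
    rw [← hφ.image_eq, hφ.injOn.encard_image]
  rw [h1, Set.encard_sdiff_singleton_add_one hb]

/-- An independent set with as many elements as vertices spans. -/
lemma Frm.span (hF : Frm M S ends) {W : Set V} (hW : W.Finite) {F : Set α} (hFW : F ⊆ ins S ends W)
    (hFi : M.Indep F) (hFc : F.encard = W.encard) : ins S ends W ⊆ M.closure F := by
  have hfin : F.Finite := by
    rw [← Set.encard_lt_top_iff, hFc]; exact hW.encard_lt_top
  have hb : M.IsBasis F (ins S ends W) := by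
    refine hFi.isBasis_of_eRk_ge hfin hFW ?_ (fun e he => hF.sub he.1)
    rw [hFi.eRk_eq_encard, hFc]
    exact hF.rk W
  exact hb.subset_closure

end

/-! ### Row R1: grids with joints -/

/-- Some element of `S` joins the two vertex sets. -/
def Lnk (S : Set α) (ends : α → Sym2 V) (A B : Set V) : Prop :=
  ∃ e ∈ S, ∃ a ∈ A, ∃ b ∈ B, ends e = s(a, b)

lemma Lnk.symm {S : Set α} {ends : α → Sym2 V} {A B : Set V} (h : Lnk S ends A B) :
    Lnk S ends B A := by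
  obtain ⟨e, he, a, ha, b, hb, hab⟩ := h
  exact ⟨e, he, b, hb, a, ha, by rw [hab, Sym2.eq_swap]⟩

lemma Lnk.mono {S S' : Set α} {ends : α → Sym2 V} {A B A' B' : Set V} (h : Lnk S ends A B)
    (hS : S ⊆ S') (hA : A ⊆ A') (hB : B ⊆ B') : Lnk S' ends A' B' := by
  obtain ⟨e, he, a, ha, b, hb, hab⟩ := h
  exact ⟨e, hS he, a, hA ha, b, hB hb, hab⟩

section

variable {M : Matroid α} {S : Set α} {ends : α → Sym2 V}

/-- Growing a connected set from a part. -/
lemma grow {U Z : Set V} (hU : U.Finite) (hZU : Z ⊆ U) (hZ : Z.Nonempty)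
    (hc : VConn S ends U) : ∃ E : Set α, E ⊆ ins S ends U ∧ Disjoint E (ins S ends Z) ∧
      E.encard + Z.encard = U.encard ∧ (∀ τ, Arb S ends Z τ → Arb S ends U (τ ∪ E)) ∧
      ∀ (M : Matroid α), Frm M S ends → ∀ K ⊆ S, M.Indep K →
        (∀ e ∈ K, ∀ v ∈ ends e, v ∈ U → v ∈ Z) → M.Indep (K ∪ E) := by
  have key : ∀ n : ℕ, ∀ R, Z ⊆ R → R ⊆ U → (U \ R).ncard = n →
      (∃ E : Set α, E ⊆ ins S ends R ∧ Disjoint E (ins S ends Z) ∧
        E.encard + Z.encard = R.encard ∧ (∀ τ, Arb S ends Z τ → Arb S ends R (τ ∪ E)) ∧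
        ∀ (M : Matroid α), Frm M S ends → ∀ K ⊆ S, M.Indep K →
          (∀ e ∈ K, ∀ v ∈ ends e, v ∈ R → v ∈ Z) → M.Indep (K ∪ E)) →
      (∃ E : Set α, E ⊆ ins S ends U ∧ Disjoint E (ins S ends Z) ∧
        E.encard + Z.encard = U.encard ∧ (∀ τ, Arb S ends Z τ → Arb S ends U (τ ∪ E)) ∧
        ∀ (M : Matroid α), Frm M S ends → ∀ K ⊆ S, M.Indep K →
          (∀ e ∈ K, ∀ v ∈ ends e, v ∈ U → v ∈ Z) → M.Indep (K ∪ E)) := by
    intro n
    induction n with
    | zero =>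
      intro R hR1 hR2 hn hex
      have h1 : U \ R = ∅ := by
        rwa [Set.ncard_eq_zero (hU.subset sdiff_subset)] at hn
      have h2 : R = U := Subset.antisymm hR2 (sdiff_eq_empty.1 h1)
      rw [← h2]
      exact hex
    | succ n ih =>
      rintro R hR1 hR2 hn ⟨E, h1, h2, h3, h4, h5⟩
      obtain ⟨b, hb⟩ : (U \ R).Nonempty := by
        rw [Set.nonempty_iff_ne_empty]
        intro h
        rw [h, Set.ncard_empty] at hn
        omega
      obtain ⟨a, ha⟩ := hZ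
      obtain ⟨x, hx, y, hy, ⟨f, hfS, hf⟩, hxU, hyU⟩ := exit (R := R) (hc a (hZU ha) b hb.1)
        (hR1 ha) hb.2
      have hfE : f ∉ E := fun h => hy ((h1 h).2 y (by rw [hf]; simp))
      have hRy : R ∪ {y} ⊆ U := union_subset hR2 (singleton_subset_iff.2 hyU)
      refine ih (R ∪ {y}) (hR1.trans subset_union_left) hRy ?_ ⟨insert f E, ?_, ?_, ?_, ?_, ?_⟩
      · have h6 : U \ R = insert y (U \ (R ∪ {y})) := by
          ext c
          simp only [mem_sdiff, mem_insert_iff, mem_union, mem_singleton_iff]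
          constructor
          · rintro ⟨h6, h7⟩
            by_cases h8 : c = y
            · exact Or.inl h8
            · exact Or.inr ⟨h6, fun h => h.elim h7 h8⟩
          · rintro (rfl | ⟨h6, h7⟩)
            · exact ⟨hyU, hy⟩
            · exact ⟨h6, fun h => h7 (Or.inl h)⟩
        rw [h6, Set.ncard_insert_of_notMem (by
          rintro ⟨_, h⟩
          exact h (Or.inr rfl)) (hU.subset sdiff_subset)] at hn
        omega
      · refine insert_subset ⟨hfS, ?_⟩ (h1.trans (ins_mono subset_union_left))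
        intro v hv
        rw [hf] at hv
        rcases Sym2.mem_iff.1 hv with rfl | rfl
        · exact Or.inl hx
        · exact Or.inr rfl
      · rw [Set.disjoint_insert_left]
        exact ⟨fun h => hy (hR1 (h.2 y (by rw [hf]; simp))), h2⟩
      · rw [encard_insert_of_notMem hfE, union_comm R, singleton_union,
          encard_insert_of_notMem hy, ← h3]
        ring
      · intro τ hτ
        have h6 := Arb.join (W₂ := {y}) (τ₂ := ∅) (by
          rw [Set.disjoint_singleton_right]; exact hy) (h4 τ hτ) (Arb.single y) hfS hf hx rfl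
        have e1 : τ ∪ insert f E = insert f (τ ∪ E ∪ ∅) := by
          rw [union_empty, union_insert]
        rw [e1]
        exact h6
      · intro M hF K hKS hK hKU
        have h6 := h5 M hF K hKS hK (fun e he v hv hvR => hKU e he v hv (Or.inl hvR))
        have h7 := hF.leaf h6 (union_subset hKS (h1.trans (fun e he => he.1))) (v := y) ?_ hfS
          (by rw [hf]; simp)
        · rw [union_insert]
          exact h7
        · rintro e (he | he) hye
          · exact hy (hR1 (hKU e he y hye (Or.inr rfl)))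
          · exact hy ((h1 he).2 y hye)
  refine key _ Z (subset_refl _) hZU rfl ⟨∅, empty_subset _, disjoint_bot_left, by simp, ?_, ?_⟩
  · intro τ hτ
    rw [union_empty]
    exact hτ
  · intro M _ K _ hK _
    rw [union_empty]
    exact hK

/-- The finite set of cells. -/
def ClF (t : ℕ) : Finset (ℕ × ℕ) := (Finset.range t) ×ˢ (Finset.range t)

lemma mem_ClF {t : ℕ} {c : ℕ × ℕ} : c ∈ ClF t ↔ c ∈ Cl t := by
  unfold ClF Cl
  rw [Finset.mem_product, Finset.mem_range, Finset.mem_range]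
  rfl

/-- **Row R1, unbalanced form.** -/
theorem jgrid_of (hF : Frm M S ends) {t : ℕ} (U Z : ℕ × ℕ → Set V) (τ₀ : ℕ × ℕ → Set α)
    (j : ℕ × ℕ → α) (hUf : ∀ c ∈ Cl t, (U c).Finite) (hZU : ∀ c ∈ Cl t, Z c ⊆ U c)
    (hUc : ∀ c ∈ Cl t, VConn S ends (U c))
    (hUd : ∀ c ∈ Cl t, ∀ c' ∈ Cl t, c ≠ c' → Disjoint (U c) (U c'))
    (hτ₀ : ∀ c ∈ Cl t, Arb S ends (Z c) (τ₀ c))
    (hj : ∀ c ∈ Cl t, j c ∈ ins S ends (Z c) ∧ j c ∉ τ₀ c)
    (hI : M.Indep (⋃ c ∈ ClF t, insert (j c) (τ₀ c)))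
    (hadj : ∀ c c', Nb t c c' → Lnk S ends (U c) (U c')) :
    ∃ (C S' : Set α) (ed : ℕ × ℕ → ℕ × ℕ → α), C ⊆ S ∧ S' ⊆ S ∧ Disjoint C S' ∧
      M.Indep (C ∪ j '' Cl t) ∧ JGrid (M ／ C) S' t j ed := by
  classical
  -- the trees
  have hE : ∀ c : ℕ × ℕ, ∃ E : Set α, c ∈ Cl t → E ⊆ ins S ends (U c) ∧
      Disjoint E (ins S ends (Z c)) ∧ Arb S ends (U c) (τ₀ c ∪ E) ∧
      ∀ K ⊆ S, M.Indep K → (∀ e ∈ K, ∀ v ∈ ends e, v ∈ U c → v ∈ Z c) → M.Indep (K ∪ E) := by
    intro c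
    by_cases hc : c ∈ Cl t
    · obtain ⟨E, h1, h2, _, h4, h5⟩ := grow (hUf c hc) (hZU c hc) (hτ₀ c hc).2.1 (hUc c hc)
      exact ⟨E, fun _ => ⟨h1, h2, h4 _ (hτ₀ c hc), h5 M hF⟩⟩
    · exact ⟨∅, fun h => absurd h hc⟩
  choose E hE using hE
  set τ : ℕ × ℕ → Set α := fun c => τ₀ c ∪ E c with hτdef
  have hτ : ∀ c ∈ Cl t, Arb S ends (U c) (τ c) := fun c hc => (hE c hc).2.2.1
  have hjU : ∀ c ∈ Cl t, j c ∈ ins S ends (U c) := fun c hc => ins_mono (hZU c hc) (hj c hc).1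
  have hjτ : ∀ c ∈ Cl t, j c ∉ τ c := by
    rintro c hc (h | h)
    · exact (hj c hc).2 h
    · exact Set.disjoint_left.1 (hE c hc).2.1 h (hj c hc).1
  have hτS : ∀ c ∈ Cl t, τ c ⊆ S := fun c hc e he => ((hτ c hc).1 he).1
  have hUv : ∀ c ∈ Cl t, ∀ c' ∈ Cl t, ∀ v, v ∈ U c → v ∈ U c' → c = c' := by
    intro c hc c' hc' v hv hv'
    by_contra hne
    exact Set.disjoint_left.1 (hUd c hc c' hc' hne) hv hv'
  have hUe : ∀ c ∈ Cl t, ∀ c' ∈ Cl t, ∀ e, e ∈ ins S ends (U c) → e ∈ ins S ends (U c') →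
      c = c' := by
    intro c hc c' hc' e he he'
    obtain ⟨v, hv⟩ := exists_mem_ends ends e
    exact hUv c hc c' hc' v (he.2 v hv) (he'.2 v hv)
  set C : Set α := ⋃ c ∈ ClF t, τ c with hC
  have hmC : ∀ e, e ∈ C ↔ ∃ c ∈ Cl t, e ∈ τ c := by
    intro e
    rw [hC]
    simp only [mem_iUnion, mem_ClF, exists_prop]
  have hCS : C ⊆ S := by
    intro e he
    obtain ⟨c, hc, hec⟩ := (hmC e).1 he
    exact hτS c hc hec
  have hstep : ∀ I : Finset (ℕ × ℕ), (∀ c ∈ I, c ∈ Cl t) →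
      M.Indep ((⋃ c ∈ ClF t, insert (j c) (τ₀ c)) ∪ ⋃ c ∈ I, E c) := by
    intro I
    induction I using Finset.induction_on with
    | empty => intro _; simpa using hI
    | insert a I ha ih =>
      intro hIt
      have h1 := ih (fun c hc => hIt c (Finset.mem_insert_of_mem hc))
      have hat := hIt a (Finset.mem_insert_self a I)
      have h2 := (hE a hat).2.2.2 _ ?_ h1 ?_
      · rw [Finset.set_biUnion_insert, union_comm (E a), ← union_assoc]
        exact h2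
      · refine union_subset ?_ ?_
        · intro e he
          obtain ⟨c, hc, hec⟩ := mem_iUnion₂.1 he
          have hc' := mem_ClF.1 hc
          rcases hec with rfl | hec
          · exact (hj c hc').1.1
          · exact ((hτ₀ c hc').1 hec).1
        · intro e he
          obtain ⟨c, hc, hec⟩ := mem_iUnion₂.1 he
          exact ((hE c (hIt c (Finset.mem_insert_of_mem hc))).1 hec).1
      · rintro e (he | he) v hv hvU
        · obtain ⟨c, hc, hec⟩ := mem_iUnion₂.1 he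
          have hc' := mem_ClF.1 hc
          have hvZ : v ∈ Z c := by
            rcases hec with rfl | hec
            · exact (hj c hc').1.2 v hv
            · exact ((hτ₀ c hc').1 hec).2 v hv
          rw [hUv a hat c hc' v hvU (hZU c hc' hvZ)]
          exact hvZ
        · obtain ⟨c, hc, hec⟩ := mem_iUnion₂.1 he
          have hc' := hIt c (Finset.mem_insert_of_mem hc)
          have h3 := ((hE c hc').1 hec).2 v hv
          have h4 := hUv a hat c hc' v hvU h3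
          rw [h4] at ha
          exact absurd hc ha
  have hfull : M.Indep (C ∪ j '' Cl t) := by
    refine (hstep (ClF t) (fun c hc => mem_ClF.1 hc)).subset ?_
    rintro e (he | ⟨c, hc, rfl⟩)
    · obtain ⟨c, hc, hec⟩ := (hmC e).1 he
      rcases hec with hec | hec
      · exact Or.inl (mem_iUnion₂.2 ⟨c, mem_ClF.2 hc, Or.inr hec⟩)
      · exact Or.inr (mem_iUnion₂.2 ⟨c, mem_ClF.2 hc, hec⟩)
    · exact Or.inl (mem_iUnion₂.2 ⟨c, mem_ClF.2 hc, Or.inl rfl⟩)
  -- the connecting elements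
  have hed : ∀ c c' : ℕ × ℕ, ∃ e : α, Nb t c c' → e ∈ S ∧ ∃ a ∈ U c, ∃ b ∈ U c',
      ends e = s(a, b) := by
    intro c c'
    by_cases h : Nb t c c'
    · obtain ⟨e, he, h1⟩ := hadj c c' h
      exact ⟨e, fun _ => ⟨he, h1⟩⟩
    · exact ⟨j (0, 0), fun h' => absurd h' h⟩
  choose ed hed using hed
  -- an element touching two different branch sets lies in no tree and is no joint
  have htwo : ∀ c ∈ Cl t, ∀ c' ∈ Cl t, c ≠ c' → ∀ e a b, a ∈ U c → b ∈ U c' →
      ends e = s(a, b) → ∀ c'' ∈ Cl t, e ∉ ins S ends (U c'') := by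
    intro c hc c' hc' hne e a b ha hb hab c'' hc'' he
    have h1 := he.2 a (by rw [hab]; simp)
    have h2 := he.2 b (by rw [hab]; simp)
    exact hne ((hUv c hc c'' hc'' a ha h1).trans (hUv c' hc' c'' hc'' b hb h2).symm)
  have hjC : ∀ c ∈ Cl t, j c ∉ C := by
    intro c hc h
    obtain ⟨c', hc', h1⟩ := (hmC _).1 h
    have h2 := hUe c hc c' hc' _ (hjU c hc) ((hτ c' hc').1 h1)
    rw [← h2] at h1
    exact hjτ c hc h1
  set S' : Set α := j '' Cl t ∪ {e | ∃ c c', Nb t c c' ∧ e = ed c c'} with hS'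
  have hedC : ∀ c c', Nb t c c' → ed c c' ∉ C := by
    intro c c' h hC'
    obtain ⟨_, a, ha, b, hb, hab⟩ := hed c c' h
    obtain ⟨c'', hc'', h1⟩ := (hmC _).1 hC'
    exact htwo c h.1 c' h.2.1 h.ne _ a b ha hb hab c'' hc'' ((hτ c'' hc'').1 h1)
  have hCi : M.Indep C := hfull.subset subset_union_left
  have hcl : ∀ X e, e ∉ C → e ∈ M.closure (X ∪ C) → e ∈ (M ／ C).closure X := by
    intro X e h1 h2
    rw [M.contract_closure_eq]
    exact ⟨h2, h1⟩
  have hUcard : ∀ c ∈ Cl t, (insert (j c) (τ c)).encard = (U c).encard := by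
    intro c hc
    rw [encard_insert_of_notMem (hjτ c hc)]
    exact arb_encard (hτ c hc)
  -- (h1)
  have hh1 : ∀ c c', Nb t c c' → ed c c' ∈ (M ／ C).closure {j c, j c'} := by
    intro c c' h
    obtain ⟨heS, a, ha, b, hb, hab⟩ := hed c c' h
    refine hcl _ _ (hedC c c' h) ?_
    have hdis := hUd c h.1 c' h.2.1 h.ne
    have h1 : ins S ends (U c ∪ U c') ⊆
        M.closure (insert (j c) (τ c) ∪ insert (j c') (τ c')) := by
      refine hF.span ((hUf c h.1).union (hUf c' h.2.1)) ?_ ?_ ?_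
      · refine union_subset (insert_subset ?_ ?_) (insert_subset ?_ ?_)
        · exact ins_mono subset_union_left (hjU c h.1)
        · exact (hτ c h.1).1.trans (ins_mono subset_union_left)
        · exact ins_mono subset_union_right (hjU c' h.2.1)
        · exact (hτ c' h.2.1).1.trans (ins_mono subset_union_right)
      · refine hfull.subset ?_
        rintro e ((rfl | he) | (rfl | he))
        · exact Or.inr ⟨c, h.1, rfl⟩
        · exact Or.inl ((hmC e).2 ⟨c, h.1, he⟩)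
        · exact Or.inr ⟨c', h.2.1, rfl⟩
        · exact Or.inl ((hmC e).2 ⟨c', h.2.1, he⟩)
      · rw [encard_union_eq, encard_union_eq hdis, hUcard c h.1, hUcard c' h.2.1]
        refine (ins_disj (S := S) (ends := ends) hdis).mono ?_ ?_
        · exact insert_subset (hjU c h.1) (hτ c h.1).1
        · exact insert_subset (hjU c' h.2.1) (hτ c' h.2.1).1
    have h2 : ed c c' ∈ ins S ends (U c ∪ U c') := by
      refine ⟨heS, fun v hv => ?_⟩
      rw [hab] at hv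
      rcases Sym2.mem_iff.1 hv with rfl | rfl
      · exact Or.inl ha
      · exact Or.inr hb
    refine M.closure_subset_closure ?_ (h1 h2)
    rintro e ((rfl | he) | (rfl | he))
    · exact Or.inl (Or.inl rfl)
    · exact Or.inr ((hmC e).2 ⟨c, h.1, he⟩)
    · exact Or.inl (Or.inr rfl)
    · exact Or.inr ((hmC e).2 ⟨c', h.2.1, he⟩)
  -- (h2), general form
  have hh2 : ∀ c ∈ Cl t, ∀ c' ∈ Cl t, c ≠ c' → ∀ f ∈ S, ∀ a ∈ U c, ∀ b ∈ U c',
      ends f = s(a, b) → j c ∈ (M ／ C).closure {j c', f} := by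
    intro c hc c' hc' hne f hfS a ha b hb hab
    refine hcl _ _ (hjC c hc) ?_
    have hdis := hUd c hc c' hc' hne
    have hFi : M.Indep (insert (j c') (τ c')) := by
      refine hfull.subset ?_
      rintro e (rfl | he)
      · exact Or.inr ⟨c', hc', rfl⟩
      · exact Or.inl ((hmC e).2 ⟨c', hc', he⟩)
    have hFU : insert (j c') (τ c') ⊆ ins S ends (U c') :=
      insert_subset (hjU c' hc') (hτ c' hc').1
    have hFa : ∀ e ∈ insert (j c') (τ c'), ∀ v ∈ ends e, v ∉ U c := by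
      intro e he v hv hvU
      exact Set.disjoint_left.1 hdis hvU ((hFU he).2 v hv)
    have h3 : M.Indep (insert f (insert (j c') (τ c'))) := by
      refine hF.leaf hFi (hFU.trans (fun e he => he.1)) (v := a) ?_ hfS (by rw [hab]; simp)
      intro e he hae
      exact hFa e he a hae ha
    have h4 : M.Indep (insert f (insert (j c') (τ c')) ∪ τ c) := by
      refine hF.indep_arb (hUf c hc) (hτ c hc) ha h3
        (insert_subset hfS (hFU.trans (fun e he => he.1))) ?_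
      rintro e (rfl | he) v hv hvU
      · rw [hab] at hv
        rcases Sym2.mem_iff.1 hv with h5 | h5
        · exact h5
        · rw [h5] at hvU
          exact absurd hb (Set.disjoint_left.1 hdis hvU)
      · exact absurd hvU (hFa e he v hv)
    have hfF : f ∉ insert (j c') (τ c') := fun h => hFa f h a (by rw [hab]; simp) ha
    have hfd : Disjoint (insert f (insert (j c') (τ c'))) (τ c) := by
      rw [Set.disjoint_left]
      rintro e (rfl | he) he'
      · exact htwo c hc c' hc' hne _ a b ha hb hab c hc ((hτ c hc).1 he')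
      · exact Set.disjoint_left.1 (ins_disj (S := S) (ends := ends) hdis) ((hτ c hc).1 he')
          (hFU he)
    have h5 : ins S ends (U c ∪ U c') ⊆
        M.closure (insert f (insert (j c') (τ c')) ∪ τ c) := by
      refine hF.span ((hUf c hc).union (hUf c' hc')) ?_ h4 ?_
      · refine union_subset (insert_subset ?_ ?_) ?_
        · refine ⟨hfS, fun v hv => ?_⟩
          rw [hab] at hv
          rcases Sym2.mem_iff.1 hv with rfl | rfl
          · exact Or.inl ha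
          · exact Or.inr hb
        · exact hFU.trans (ins_mono subset_union_right)
        · exact (hτ c hc).1.trans (ins_mono subset_union_left)
      · rw [encard_union_eq hfd, encard_insert_of_notMem hfF, hUcard c' hc',
          encard_union_eq hdis, ← arb_encard (hτ c hc)]
        ring
    refine M.closure_subset_closure ?_ (h5 (ins_mono subset_union_left (hjU c hc)))
    rintro e ((rfl | rfl | he) | he)
    · exact Or.inl (Or.inr rfl)
    · exact Or.inl (Or.inl rfl)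
    · exact Or.inr ((hmC e).2 ⟨c', hc', he⟩)
    · exact Or.inr ((hmC e).2 ⟨c, hc, he⟩)
  refine ⟨C, S', ed, hCS, ?_, ?_, hfull, ?_⟩
  · rintro e (⟨c, hc, rfl⟩ | ⟨c, c', h, rfl⟩)
    · exact (hjU c hc).1
    · exact (hed c c' h).1
  · rw [Set.disjoint_left]
    rintro e he (⟨c, hc, rfl⟩ | ⟨c, c', h, rfl⟩)
    · exact hjC c hc he
    · exact hedC c c' h he
  · refine ⟨?_, ?_, ?_, hh1, ?_, ?_⟩
    · intro c hc c' hc' hcc
      exact hUe c hc c' hc' (j c) (hjU c hc) (by rw [hcc]; exact hjU c' hc')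
    · have hind : (M ／ C).Indep (j '' Cl t) := by
        rw [hCi.contract_indep_iff]
        refine ⟨?_, by rw [union_comm]; exact hfull⟩
        rw [Set.disjoint_left]
        rintro e ⟨c, hc, rfl⟩
        exact hjC c hc
      refine hind.isBasis_of_subset_of_subset_closure subset_union_left ?_
      rintro e (⟨c, hc, rfl⟩ | ⟨c, c', h, rfl⟩)
      · exact (M ／ C).mem_closure_of_mem' ⟨c, hc, rfl⟩ (hind.subset_ground ⟨c, hc, rfl⟩)
      · refine (M ／ C).closure_subset_closure ?_ (hh1 c c' h)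
        rintro x (rfl | rfl)
        · exact ⟨c, h.1, rfl⟩
        · exact ⟨c', h.2.1, rfl⟩
    · intro c c' h
      exact Or.inr ⟨c, c', h, rfl⟩
    · intro c c' h
      obtain ⟨heS, a, ha, b, hb, hab⟩ := hed c c' h
      exact hh2 c h.1 c' h.2.1 h.ne _ heS a ha b hb hab
    · intro c c' h
      obtain ⟨heS, a, ha, b, hb, hab⟩ := hed c c' h
      have h1 := hh2 c' h.2.1 c h.1 h.ne.symm _ heS b hb a ha (by rw [hab, Sym2.eq_swap])
      exact h1

/-! ### Balanced pictures -/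

/-- The elements of `K` are balanced. -/
def Bal (M : Matroid α) (K : Set α) (ends : α → Sym2 V) : Prop :=
  ∀ W : Set V, W.Nonempty → M.eRk (ins K ends W) + 1 ≤ W.encard

lemma Frm.mono (hF : Frm M S ends) {K : Set α} (hK : K ⊆ S) : Frm M K ends where
  sub := hK.trans hF.sub
  star := fun v e he hv h => hF.star v e (hK he) hv
    (M.closure_subset_closure (show ins K ends {v}ᶜ ⊆ ins S ends {v}ᶜ from
      fun _ hf => ⟨hK hf.1, hf.2⟩) h)
  rk := fun W => (M.eRk_mono (show ins K ends W ⊆ ins S ends W from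
    fun _ hf => ⟨hK hf.1, hf.2⟩)).trans (hF.rk W)

/-- A connected set of elements of rank less than the number of vertices is balanced. -/
lemma Frm.bal_of (hF : Frm M S ends) {A : Set V} (hA : A.Finite) (hc : VConn S ends A)
    (hSA : ∀ e ∈ S, ∀ v ∈ ends e, v ∈ A) (hr : M.eRk S + 1 ≤ A.encard) : Bal M S ends := by
  intro W hW
  -- reduce to parts of `A`
  have hsub : ins S ends W ⊆ ins S ends (W ∩ A) :=
    fun e he => ⟨he.1, fun v hv => ⟨he.2 v hv, hSA e he.1 v hv⟩⟩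
  rcases (W ∩ A).eq_empty_or_nonempty with h0 | hne
  · have h1 : ins S ends W = ∅ := by
      rw [eq_empty_iff_forall_notMem]
      intro e he
      obtain ⟨v, hv⟩ := exists_mem_ends ends e
      have := (hsub he).2 v hv
      rw [h0] at this
      exact this
    rw [h1, M.eRk_empty, zero_add]
    exact Set.one_le_encard_iff_nonempty.2 hW
  · obtain ⟨E, h1, h2, h3, _, h5⟩ := grow hA (inter_subset_right (s := W)) hne hc
    obtain ⟨I, hI⟩ := M.exists_isBasis (ins S ends (W ∩ A)) (fun e he => hF.sub he.1)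
    have hIE : M.Indep (I ∪ E) := h5 M hF I (fun e he => (hI.subset he).1) hI.indep
      (fun e he v hv _ => (hI.subset he).2 v hv)
    have hdis : Disjoint I E := (h2.symm).mono_left hI.subset
    have h6 : I.encard + E.encard ≤ M.eRk S := by
      rw [← encard_union_eq hdis, ← hIE.eRk_eq_encard]
      exact M.eRk_mono (union_subset (hI.subset.trans (fun e he => he.1))
        (h1.trans (fun e he => he.1)))
    have hEf : E.encard ≠ ⊤ := by
      have : E.encard ≤ A.encard := by rw [← h3]; exact le_self_add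
      exact ne_top_of_le_ne_top hA.encard_lt_top.ne this
    have h7 : I.encard + 1 + E.encard ≤ (W ∩ A).encard + E.encard := by
      calc I.encard + 1 + E.encard = (I.encard + E.encard) + 1 := by ring
        _ ≤ M.eRk S + 1 := by gcongr
        _ ≤ A.encard := hr
        _ = (W ∩ A).encard + E.encard := by rw [← h3, add_comm]
    have h8 : I.encard + 1 ≤ (W ∩ A).encard := (ENat.add_le_add_iff_right hEf).1 h7
    calc M.eRk (ins S ends W) + 1 ≤ M.eRk (ins S ends (W ∩ A)) + 1 := by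
          gcongr
          exact M.eRk_mono hsub
      _ = I.encard + 1 := by rw [hI.encard_eq_eRk]
      _ ≤ (W ∩ A).encard := h8
      _ ≤ W.encard := encard_le_encard inter_subset_left

/-- In a balanced set a spanning tree spans. -/
lemma Frm.span_bal (hF : Frm M S ends) (hb : Bal M S ends) {W : Set V} (hW : W.Finite)
    (hWne : W.Nonempty) {F : Set α} (hFW : F ⊆ ins S ends W) (hFi : M.Indep F)
    (hFc : F.encard + 1 = W.encard) : ins S ends W ⊆ M.closure F := by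
  have hfin : F.Finite := by
    rw [← Set.encard_lt_top_iff]
    refine lt_of_le_of_lt ?_ hW.encard_lt_top
    rw [← hFc]
    exact le_self_add
  have hB : M.IsBasis F (ins S ends W) := by
    refine hFi.isBasis_of_eRk_ge hfin hFW ?_ (fun e he => hF.sub he.1)
    rw [hFi.eRk_eq_encard]
    have h1 := hb W hWne
    rw [← hFc] at h1
    exact (ENat.add_le_add_iff_right (by simp)).1 h1
  exact hB.subset_closure

/-- A spanning tree in the sense of rank. -/
def SpT (M : Matroid α) (S : Set α) (ends : α → Sym2 V) (B : Set V) (F : Set α) : Prop :=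
  F ⊆ ins S ends B ∧ M.Indep F ∧ F.encard + 1 = B.encard

lemma arb_spT (hF : Frm M S ends) {A : Set V} (hA : A.Finite) {τ : Set α}
    (hτ : Arb S ends A τ) : SpT M S ends A τ := by
  obtain ⟨b, hb⟩ := hτ.2.1
  have h := hF.indep_arb hA hτ hb M.empty_indep (empty_subset _) (fun e he => absurd he (by simp))
  rw [empty_union] at h
  exact ⟨hτ.1, h, arb_encard hτ⟩

lemma tree_join (hF : Frm M S ends) {A B : Set V} (hA : A.Finite) (hAB : Disjoint A B)
    {τ F : Set α} (hτ : Arb S ends A τ) (hFB : SpT M S ends B F) {f : α} (hf : f ∈ S) {a b : V}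
    (ha : a ∈ A) (hb : b ∈ B) (hab : ends f = s(a, b)) :
    SpT M S ends (A ∪ B) (insert f F ∪ τ) := by
  obtain ⟨h1, h2, h3⟩ := hFB
  have hFa : ∀ e ∈ F, ∀ v ∈ ends e, v ∉ A := by
    intro e he v hv hvA
    exact Set.disjoint_left.1 hAB hvA ((h1 he).2 v hv)
  have h4 : M.Indep (insert f F) :=
    hF.leaf h2 (h1.trans (fun e he => he.1)) (v := a) (fun e he hae => hFa e he a hae ha) hf
      (by rw [hab]; simp)
  have h5 : M.Indep (insert f F ∪ τ) := by
    refine hF.indep_arb hA hτ ha h4 (insert_subset hf (h1.trans (fun e he => he.1))) ?_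
    rintro e (rfl | he) v hv hvA
    · rw [hab] at hv
      rcases Sym2.mem_iff.1 hv with h5 | h5
      · exact h5
      · rw [h5] at hvA
        exact absurd hb (Set.disjoint_left.1 hAB hvA)
    · exact absurd hvA (hFa e he v hv)
  have hfF : f ∉ F := fun h => hFa f h a (by rw [hab]; simp) ha
  have hd : Disjoint (insert f F) τ := by
    rw [Set.disjoint_left]
    rintro e (rfl | he) he'
    · have h6 := (hτ.1 he').2 b (by rw [hab]; simp)
      exact Set.disjoint_left.1 hAB h6 hb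
    · exact Set.disjoint_left.1 (ins_disj (S := S) (ends := ends) hAB) (hτ.1 he') (h1 he)
  refine ⟨union_subset (insert_subset ⟨hf, ?_⟩ (h1.trans (ins_mono subset_union_right)))
    (hτ.1.trans (ins_mono subset_union_left)), h5, ?_⟩
  · intro v hv
    rw [hab] at hv
    rcases Sym2.mem_iff.1 hv with rfl | rfl
    · exact Or.inl ha
    · exact Or.inr hb
  · rw [encard_union_eq hd, encard_insert_of_notMem hfF, encard_union_eq hAB, ← h3,
      ← arb_encard hτ]
    ring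

/-- **Row R1, balanced form.** One more connected set `Z` adjacent to everything. -/
theorem jgrid_of_bal (hF : Frm M S ends) (hbal : Bal M S ends) {t : ℕ} (ht : 1 ≤ t)
    (U : ℕ × ℕ → Set V)
    (Z : Set V) (hZf : Z.Finite) (hZc : VConn S ends Z)
    (hUf : ∀ c ∈ Cl t, (U c).Finite)
    (hUc : ∀ c ∈ Cl t, VConn S ends (U c))
    (hUd : ∀ c ∈ Cl t, ∀ c' ∈ Cl t, c ≠ c' → Disjoint (U c) (U c'))
    (hUZ : ∀ c ∈ Cl t, Disjoint (U c) Z)
    (hadj : ∀ c c', Nb t c c' → Lnk S ends (U c) (U c'))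
    (hadjZ : ∀ c ∈ Cl t, Lnk S ends (U c) Z) :
    ∃ (C S' : Set α) (j : ℕ × ℕ → α) (ed : ℕ × ℕ → ℕ × ℕ → α), C ⊆ S ∧ S' ⊆ S ∧ Disjoint C S' ∧
      M.Indep (C ∪ j '' Cl t) ∧ JGrid (M ／ C) S' t j ed := by
  classical
  -- joints
  have hj : ∀ c : ℕ × ℕ, ∃ x : α × V × V, c ∈ Cl t → x.1 ∈ S ∧ x.2.1 ∈ U c ∧ x.2.2 ∈ Z ∧
      ends x.1 = s(x.2.1, x.2.2) := by
    intro c
    by_cases hc : c ∈ Cl t
    · obtain ⟨e, he, a, ha, b, hb, hab⟩ := hadjZ c hc
      exact ⟨(e, a, b), fun _ => ⟨he, ha, hb, hab⟩⟩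
    · obtain ⟨e, he, a, ha, b, hb, hab⟩ := hadjZ (0, 0) ⟨ht, ht⟩
      exact ⟨(e, a, b), fun h => absurd h hc⟩
  choose x hx using hj
  obtain ⟨j, hjd⟩ : ∃ j : ℕ × ℕ → α, ∀ c, j c = (x c).1 := ⟨_, fun _ => rfl⟩
  obtain ⟨a, had⟩ : ∃ a : ℕ × ℕ → V, ∀ c, a c = (x c).2.1 := ⟨_, fun _ => rfl⟩
  obtain ⟨b, hbd⟩ : ∃ b : ℕ × ℕ → V, ∀ c, b c = (x c).2.2 := ⟨_, fun _ => rfl⟩
  have hjS : ∀ c ∈ Cl t, j c ∈ S := fun c hc => by rw [hjd]; exact (hx c hc).1
  have haU : ∀ c ∈ Cl t, a c ∈ U c := fun c hc => by rw [had]; exact (hx c hc).2.1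
  have hbZ : ∀ c ∈ Cl t, b c ∈ Z := fun c hc => by rw [hbd]; exact (hx c hc).2.2.1
  have hjab : ∀ c ∈ Cl t, ends (j c) = s(a c, b c) := fun c hc => by
    rw [hjd, had, hbd]; exact (hx c hc).2.2.2
  -- trees
  have hτ : ∀ c : ℕ × ℕ, ∃ τ : Set α, c ∈ Cl t → Arb S ends (U c) τ := by
    intro c
    by_cases hc : c ∈ Cl t
    · obtain ⟨E, _, _, _, h4, _⟩ := grow (hUf c hc) (singleton_subset_iff.2 (haU c hc))
        (singleton_nonempty _) (hUc c hc)
      exact ⟨_, fun _ => h4 ∅ (Arb.single _)⟩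
    · exact ⟨∅, fun h => absurd h hc⟩
  choose τ hτ using hτ
  have h00 : ((0, 0) : ℕ × ℕ) ∈ Cl t := ⟨ht, ht⟩
  obtain ⟨τZ, hτZ⟩ : ∃ τZ : Set α, Arb S ends Z τZ := by
    obtain ⟨E, _, _, _, h4, _⟩ := grow hZf (singleton_subset_iff.2 (hbZ _ h00))
      (singleton_nonempty _) hZc
    exact ⟨_, h4 ∅ (Arb.single _)⟩
  have hτS : ∀ c ∈ Cl t, τ c ⊆ S := fun c hc e he => ((hτ c hc).1 he).1
  have hUv : ∀ c ∈ Cl t, ∀ c' ∈ Cl t, ∀ v, v ∈ U c → v ∈ U c' → c = c' := by
    intro c hc c' hc' v hv hv'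
    by_contra hne
    exact Set.disjoint_left.1 (hUd c hc c' hc' hne) hv hv'
  have hUZv : ∀ c ∈ Cl t, ∀ v, v ∈ U c → v ∉ Z :=
    fun c hc v hv hv' => Set.disjoint_left.1 (hUZ c hc) hv hv'
  set C : Set α := τZ ∪ ⋃ c ∈ ClF t, τ c with hC
  have hmC : ∀ e, e ∈ C ↔ e ∈ τZ ∨ ∃ c ∈ Cl t, e ∈ τ c := by
    intro e
    rw [hC]
    simp only [mem_union, mem_iUnion, mem_ClF, exists_prop]
  have hCS : C ⊆ S := by
    intro e he
    rcases (hmC e).1 he with h | ⟨c, hc, hec⟩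
    · exact (hτZ.1 h).1
    · exact hτS c hc hec
  have hstep : ∀ I : Finset (ℕ × ℕ), (∀ c ∈ I, c ∈ Cl t) →
      M.Indep (τZ ∪ ⋃ c ∈ I, insert (j c) (τ c)) := by
    intro I
    induction I using Finset.induction_on with
    | empty => intro _; simpa using (arb_spT hF hZf hτZ).2.1
    | insert d I hd ih =>
      intro hIt
      have h1 := ih (fun c hc => hIt c (Finset.mem_insert_of_mem hc))
      have hdt := hIt d (Finset.mem_insert_self d I)
      have hKS : τZ ∪ ⋃ c ∈ I, insert (j c) (τ c) ⊆ S := by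
        refine union_subset (fun e he => (hτZ.1 he).1) ?_
        intro e he
        obtain ⟨c, hc, hec⟩ := mem_iUnion₂.1 he
        have hc' := hIt c (Finset.mem_insert_of_mem hc)
        rcases hec with rfl | hec
        · exact hjS c hc'
        · exact hτS c hc' hec
      have hKU : ∀ e ∈ τZ ∪ ⋃ c ∈ I, insert (j c) (τ c), ∀ v ∈ ends e, v ∉ U d := by
        rintro e (he | he) v hv hvU
        · exact hUZv d hdt v hvU ((hτZ.1 he).2 v hv)
        · obtain ⟨c, hc, hec⟩ := mem_iUnion₂.1 he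
          have hc' := hIt c (Finset.mem_insert_of_mem hc)
          have hne : d ≠ c := by
            rintro rfl; exact hd hc
          rcases hec with rfl | hec
          · rw [hjab c hc'] at hv
            rcases Sym2.mem_iff.1 hv with rfl | rfl
            · exact hne (hUv d hdt c hc' _ hvU (haU c hc'))
            · exact hUZv d hdt _ hvU (hbZ c hc')
          · exact hne (hUv d hdt c hc' v hvU (((hτ c hc').1 hec).2 v hv))
      have h2 : M.Indep (insert (j d) (τZ ∪ ⋃ c ∈ I, insert (j c) (τ c))) :=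
        hF.leaf h1 hKS (v := a d) (fun e he hv => hKU e he _ hv (haU d hdt)) (hjS d hdt)
          (by rw [hjab d hdt]; simp)
      have h3 := hF.indep_arb (hUf d hdt) (hτ d hdt) (haU d hdt) h2
        (insert_subset (hjS d hdt) hKS) ?_
      · rw [Finset.set_biUnion_insert]
        refine h3.subset ?_
        rintro e (he | (rfl | he) | he)
        · exact Or.inl (Or.inr (Or.inl he))
        · exact Or.inl (Or.inl rfl)
        · exact Or.inr he
        · exact Or.inl (Or.inr (Or.inr he))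
      · rintro e (rfl | he) v hv hvU
        · rw [hjab d hdt] at hv
          rcases Sym2.mem_iff.1 hv with h4 | h4
          · exact h4
          · rw [h4] at hvU
            exact absurd (hbZ d hdt) (hUZv d hdt _ hvU)
        · exact absurd hvU (hKU e he v hv)
  have hfull : M.Indep (C ∪ j '' Cl t) := by
    refine (hstep (ClF t) (fun c hc => mem_ClF.1 hc)).subset ?_
    rintro e (he | ⟨c, hc, rfl⟩)
    · rcases (hmC e).1 he with h | ⟨c, hc, hec⟩
      · exact Or.inl h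
      · exact Or.inr (mem_iUnion₂.2 ⟨c, mem_ClF.2 hc, Or.inr hec⟩)
    · exact Or.inr (mem_iUnion₂.2 ⟨c, mem_ClF.2 hc, Or.inl rfl⟩)
  -- the connecting elements
  have hed : ∀ c c' : ℕ × ℕ, ∃ e : α, Nb t c c' → e ∈ S ∧ ∃ a ∈ U c, ∃ b ∈ U c',
      ends e = s(a, b) := by
    intro c c'
    by_cases h : Nb t c c'
    · obtain ⟨e, he, h1⟩ := hadj c c' h
      exact ⟨e, fun _ => ⟨he, h1⟩⟩
    · exact ⟨j (0, 0), fun h' => absurd h' h⟩
  choose ed hed using hed
  have hjC : ∀ c ∈ Cl t, j c ∉ C := by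
    intro c hc h
    rcases (hmC _).1 h with h | ⟨c', hc', h⟩
    · exact hUZv c hc _ (haU c hc) ((hτZ.1 h).2 _ (by rw [hjab c hc]; simp))
    · exact hUZv c' hc' _ (((hτ c' hc').1 h).2 _ (by rw [hjab c hc]; simp)) (hbZ c hc)
  have hedC : ∀ c c', Nb t c c' → ed c c' ∉ C := by
    intro c c' h hC'
    obtain ⟨_, p, hp, q, hq, hpq⟩ := hed c c' h
    rcases (hmC _).1 hC' with h1 | ⟨c'', hc'', h1⟩
    · exact hUZv c h.1 _ hp ((hτZ.1 h1).2 _ (by rw [hpq]; simp))
    · have h2 := ((hτ c'' hc'').1 h1).2 p (by rw [hpq]; simp)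
      have h3 := ((hτ c'' hc'').1 h1).2 q (by rw [hpq]; simp)
      exact h.ne ((hUv c h.1 c'' hc'' p hp h2).trans (hUv c' h.2.1 c'' hc'' q hq h3).symm)
  set S' : Set α := j '' Cl t ∪ {e | ∃ c c', Nb t c c' ∧ e = ed c c'} with hS'
  have hCi : M.Indep C := hfull.subset subset_union_left
  have hcl : ∀ X e, e ∉ C → e ∈ M.closure (X ∪ C) → e ∈ (M ／ C).closure X := by
    intro X e h1 h2
    rw [M.contract_closure_eq]
    exact ⟨h2, h1⟩
  -- the basic span
  have hspan : ∀ c ∈ Cl t, ∀ c' ∈ Cl t, c ≠ c' → ∀ f ∈ S, ∀ p ∈ U c, ∀ q ∈ U c' ∪ Z,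
      ends f = s(p, q) → ins S ends (U c ∪ (U c' ∪ Z)) ⊆ M.closure ({j c', f} ∪ C) := by
    intro c hc c' hc' hne f hfS p hp q hq hpq
    have h1 := tree_join hF (hUf c' hc') (hUZ c' hc') (hτ c' hc') (arb_spT hF hZf hτZ)
      (hjS c' hc') (haU c' hc') (hbZ c' hc') (hjab c' hc')
    have hdis : Disjoint (U c) (U c' ∪ Z) := by
      rw [Set.disjoint_union_right]
      exact ⟨hUd c hc c' hc' hne, hUZ c hc⟩
    have h2 := tree_join hF (hUf c hc) hdis (hτ c hc) h1 hfS hp hq hpq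
    have h3 := hF.span_bal hbal ((hUf c hc).union ((hUf c' hc').union hZf))
      ⟨_, Or.inl (haU c hc)⟩ h2.1 h2.2.1 h2.2.2
    refine h3.trans (M.closure_subset_closure ?_)
    rintro e ((rfl | (rfl | he) | he) | he)
    · exact Or.inl (Or.inr rfl)
    · exact Or.inl (Or.inl rfl)
    · exact Or.inr ((hmC e).2 (Or.inl he))
    · exact Or.inr ((hmC e).2 (Or.inr ⟨c', hc', he⟩))
    · exact Or.inr ((hmC e).2 (Or.inr ⟨c, hc, he⟩))
  have hh1 : ∀ c c', Nb t c c' → ed c c' ∈ (M ／ C).closure {j c, j c'} := by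
    intro c c' h
    obtain ⟨heS, p, hp, q, hq, hpq⟩ := hed c c' h
    refine hcl _ _ (hedC c c' h) ?_
    rw [pair_comm]
    refine hspan c h.1 c' h.2.1 h.ne (j c) (hjS c h.1) _ (haU c h.1) _ (Or.inr (hbZ c h.1))
      (hjab c h.1) ⟨heS, fun v hv => ?_⟩
    rw [hpq] at hv
    rcases Sym2.mem_iff.1 hv with rfl | rfl
    · exact Or.inl hp
    · exact Or.inr (Or.inl hq)
  have hh2 : ∀ c ∈ Cl t, ∀ c' ∈ Cl t, c ≠ c' → ∀ f ∈ S, ∀ p ∈ U c, ∀ q ∈ U c',
      ends f = s(p, q) → j c ∈ (M ／ C).closure {j c', f} := by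
    intro c hc c' hc' hne f hfS p hp q hq hpq
    refine hcl _ _ (hjC c hc) ?_
    refine hspan c hc c' hc' hne f hfS p hp q (Or.inl hq) hpq ⟨hjS c hc, fun v hv => ?_⟩
    rw [hjab c hc] at hv
    rcases Sym2.mem_iff.1 hv with rfl | rfl
    · exact Or.inl (haU c hc)
    · exact Or.inr (Or.inr (hbZ c hc))
  refine ⟨C, S', j, ed, hCS, ?_, ?_, hfull, ?_⟩
  · rintro e (⟨c, hc, rfl⟩ | ⟨c, c', h, rfl⟩)
    · exact hjS c hc
    · exact (hed c c' h).1
  · rw [Set.disjoint_left]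
    rintro e he (⟨c, hc, rfl⟩ | ⟨c, c', h, rfl⟩)
    · exact hjC c hc he
    · exact hedC c c' h he
  · refine ⟨?_, ?_, ?_, hh1, ?_, ?_⟩
    · intro c hc c' hc' hcc
      have h1 : a c ∈ ends (j c') := by rw [← hcc, hjab c hc]; simp
      rw [hjab c' hc'] at h1
      rcases Sym2.mem_iff.1 h1 with h2 | h2
      · exact hUv c hc c' hc' _ (haU c hc) (by rw [h2]; exact haU c' hc')
      · exact absurd (by rw [h2]; exact hbZ c' hc') (hUZv c hc _ (haU c hc))
    · have hind : (M ／ C).Indep (j '' Cl t) := by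
        rw [hCi.contract_indep_iff]
        refine ⟨?_, by rw [union_comm]; exact hfull⟩
        rw [Set.disjoint_left]
        rintro e ⟨c, hc, rfl⟩
        exact hjC c hc
      refine hind.isBasis_of_subset_of_subset_closure subset_union_left ?_
      rintro e (⟨c, hc, rfl⟩ | ⟨c, c', h, rfl⟩)
      · exact (M ／ C).mem_closure_of_mem' ⟨c, hc, rfl⟩ (hind.subset_ground ⟨c, hc, rfl⟩)
      · refine (M ／ C).closure_subset_closure ?_ (hh1 c c' h)
        rintro x (rfl | rfl)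
        · exact ⟨c, h.1, rfl⟩
        · exact ⟨c', h.2.1, rfl⟩
    · intro c c' h
      exact Or.inr ⟨c, c', h, rfl⟩
    · intro c c' h
      obtain ⟨heS, p, hp, q, hq, hpq⟩ := hed c c' h
      exact hh2 c h.1 c' h.2.1 h.ne _ heS p hp q hq hpq
    · intro c c' h
      obtain ⟨heS, p, hp, q, hq, hpq⟩ := hed c c' h
      exact hh2 c' h.2.1 c h.1 h.ne.symm _ heS q hq p hp (by rw [hpq, Sym2.eq_swap])

end

/-! ### Graph models -/

/-- A grid model of side `w` with one more connected set adjacent to all branch sets. -/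
def GmZ (S : Set α) (ends : α → Sym2 V) (w : ℕ) : Prop :=
  ∃ (U : ℕ × ℕ → Set V) (Z : Set V), Z.Finite ∧ VConn S ends Z ∧ (∀ c ∈ Cl w, (U c).Finite) ∧
    (∀ c ∈ Cl w, VConn S ends (U c)) ∧
    (∀ c ∈ Cl w, ∀ c' ∈ Cl w, c ≠ c' → Disjoint (U c) (U c')) ∧
    (∀ c ∈ Cl w, Disjoint (U c) Z) ∧ (∀ c c', Nb w c c' → Lnk S ends (U c) (U c')) ∧
    ∀ c ∈ Cl w, Lnk S ends (U c) Z

/-- A grid model of side `w` with an unbalanced set in every branch set. -/
def GmU (M : Matroid α) (S : Set α) (ends : α → Sym2 V) (w : ℕ) : Prop :=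
  ∃ (U Z : ℕ × ℕ → Set V) (τ₀ : ℕ × ℕ → Set α) (j : ℕ × ℕ → α), (∀ c ∈ Cl w, (U c).Finite) ∧
    (∀ c ∈ Cl w, Z c ⊆ U c) ∧ (∀ c ∈ Cl w, VConn S ends (U c)) ∧
    (∀ c ∈ Cl w, ∀ c' ∈ Cl w, c ≠ c' → Disjoint (U c) (U c')) ∧
    (∀ c ∈ Cl w, Arb S ends (Z c) (τ₀ c)) ∧
    (∀ c ∈ Cl w, j c ∈ ins S ends (Z c) ∧ j c ∉ τ₀ c) ∧
    M.Indep (⋃ c ∈ ClF w, insert (j c) (τ₀ c)) ∧
    ∀ c c', Nb w c c' → Lnk S ends (U c) (U c')

/-- A graph model of the grid with joints. -/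
def GMod (M : Matroid α) (S : Set α) (ends : α → Sym2 V) (w : ℕ) : Prop :=
  GmZ S ends (2 * w) ∨ GmU M S ends w

/-- A grid model with one more set `Z` (as in `GmZ`), exposed: for every branch set there is a
column `f` in `T` which meets it in the level `b` and avoids `Z` in the levels from `b` to `n`. -/
def GmE (S : Set α) (ends : α → Sym2 V) (T : Set (ℕ → V)) (n w : ℕ) : Prop :=
  ∃ (U : ℕ × ℕ → Set V) (Z : Set V), Z.Finite ∧ VConn S ends Z ∧ (∀ c ∈ Cl w, (U c).Finite) ∧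
    (∀ c ∈ Cl w, VConn S ends (U c)) ∧
    (∀ c ∈ Cl w, ∀ c' ∈ Cl w, c ≠ c' → Disjoint (U c) (U c')) ∧
    (∀ c ∈ Cl w, Disjoint (U c) Z) ∧ (∀ c c', Nb w c c' → Lnk S ends (U c) (U c')) ∧
    (∀ c ∈ Cl w, Lnk S ends (U c) Z) ∧
    ∃ b ≤ n, ∀ c ∈ Cl w, ∃ f ∈ T, f b ∈ U c ∧ ∀ j, b ≤ j → j ≤ n → f j ∉ Z

lemma GmE.gmZ {S : Set α} {ends : α → Sym2 V} {T : Set (ℕ → V)} {n w : ℕ}
    (h : GmE S ends T n w) : GmZ S ends w := by
  obtain ⟨U, Z, h1, h2, h3, h4, h5, h6, h7, h8, _⟩ := h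
  exact ⟨U, Z, h1, h2, h3, h4, h5, h6, h7, h8⟩

lemma GmE.mono {S : Set α} {ends : α → Sym2 V} {T T' : Set (ℕ → V)} {n w : ℕ}
    (h : GmE S ends T n w) (hT : T ⊆ T') : GmE S ends T' n w := by
  obtain ⟨U, Z, h1, h2, h3, h4, h5, h6, h7, h8, b, hb, h9⟩ := h
  refine ⟨U, Z, h1, h2, h3, h4, h5, h6, h7, h8, b, hb, fun c hc => ?_⟩
  obtain ⟨f, hf, g⟩ := h9 c hc
  exact ⟨f, hT hf, g⟩

/-- The columns of a page. -/
def Cols (P : ℕ × ℕ → V) (l r : ℕ) : Set (ℕ → V) :=
  {f | ∃ x, l ≤ x ∧ x ≤ r ∧ f = fun j => P (x, j)}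

lemma Cols_mono {P : ℕ × ℕ → V} {l r l' r' : ℕ} (h1 : l' ≤ l) (h2 : r ≤ r') :
    Cols P l r ⊆ Cols P l' r' := by
  rintro f ⟨x, h3, h4, rfl⟩
  exact ⟨x, h1.trans h3, h4.trans h2, rfl⟩

lemma Cols_mirror {P : ℕ × ℕ → V} {l r : ℕ} :
    Cols (fun c : ℕ × ℕ => P (l + r - c.1, c.2)) l r ⊆ Cols P l r := by
  rintro f ⟨x, h3, h4, rfl⟩
  exact ⟨l + r - x, by omega, by omega, rfl⟩

/-- The columns of a system of pages. -/
def PCols {σ : Type*} (P : σ → ℕ × ℕ → V) (lo hi : σ → ℕ) : Set (ℕ → V) :=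
  {f | ∃ s x, lo s ≤ x ∧ x ≤ hi s ∧ f = fun j => P s (x, j)}

lemma Cols_PCols {σ : Type*} {P : σ → ℕ × ℕ → V} {lo hi : σ → ℕ} {s : σ} {l r : ℕ}
    (h1 : lo s ≤ l) (h2 : r ≤ hi s) : Cols (P s) l r ⊆ PCols P lo hi := by
  rintro f ⟨x, h3, h4, rfl⟩
  exact ⟨s, x, h1.trans h3, h4.trans h2, rfl⟩

/-- A grid model with one more set `Z` (as in `GmZ`), exposed on a page `P`: there are a column
interval `[l', r']` inside of `[l, r]` and a level `b` such that every branch set owns a vertex of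
the page at the level `b`, and `Z` has no vertex on these columns at the levels `b, …, n`. -/
def GmF (S : Set α) (ends : α → Sym2 V) (P : ℕ × ℕ → V) (l r n w : ℕ) : Prop :=
  ∃ (U : ℕ × ℕ → Set V) (Z : Set V), Z.Finite ∧ VConn S ends Z ∧ (∀ c ∈ Cl w, (U c).Finite) ∧
    (∀ c ∈ Cl w, VConn S ends (U c)) ∧
    (∀ c ∈ Cl w, ∀ c' ∈ Cl w, c ≠ c' → Disjoint (U c) (U c')) ∧
    (∀ c ∈ Cl w, Disjoint (U c) Z) ∧ (∀ c c', Nb w c c' → Lnk S ends (U c) (U c')) ∧
    (∀ c ∈ Cl w, Lnk S ends (U c) Z) ∧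
    ∃ l' r' b : ℕ, l ≤ l' ∧ r' ≤ r ∧ b ≤ n ∧
      (∀ c ∈ Cl w, ∃ x, l' ≤ x ∧ x ≤ r' ∧ P (x, b) ∈ U c) ∧
      ∀ x j, l' ≤ x → x ≤ r' → b ≤ j → j ≤ n → P (x, j) ∉ Z

lemma GmF.gmE {S : Set α} {ends : α → Sym2 V} {P : ℕ × ℕ → V} {l r n w : ℕ}
    (h : GmF S ends P l r n w) : GmE S ends (Cols P l r) n w := by
  obtain ⟨U, Z, h1, h2, h3, h4, h5, h6, h7, h8, l', r', b, g1, g2, g3, g4, g5⟩ := h
  refine ⟨U, Z, h1, h2, h3, h4, h5, h6, h7, h8, b, g3, fun c hc => ?_⟩
  obtain ⟨x, k1, k2, k3⟩ := g4 c hc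
  exact ⟨_, ⟨x, g1.trans k1, k2.trans g2, rfl⟩, k3, fun j k4 k5 => g5 x j k1 k2 k4 k5⟩

lemma GmF.gmZ {S : Set α} {ends : α → Sym2 V} {P : ℕ × ℕ → V} {l r n w : ℕ}
    (h : GmF S ends P l r n w) : GmZ S ends w := h.gmE.gmZ

lemma GmF.mono {S : Set α} {ends : α → Sym2 V} {P : ℕ × ℕ → V} {l r l₁ r₁ n w : ℕ}
    (h : GmF S ends P l r n w) (hl : l₁ ≤ l) (hr : r ≤ r₁) : GmF S ends P l₁ r₁ n w := by
  obtain ⟨U, Z, h1, h2, h3, h4, h5, h6, h7, h8, l', r', b, g1, g2, g3, g4, g5⟩ := h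
  exact ⟨U, Z, h1, h2, h3, h4, h5, h6, h7, h8, l', r', b, hl.trans g1, g2.trans hr, g3, g4, g5⟩

lemma GmF.mirror {S : Set α} {ends : α → Sym2 V} {P : ℕ × ℕ → V} {l r n w : ℕ} (hw : 1 ≤ w)
    (h : GmF S ends (fun c : ℕ × ℕ => P (l + r - c.1, c.2)) l r n w) : GmF S ends P l r n w := by
  obtain ⟨U, Z, h1, h2, h3, h4, h5, h6, h7, h8, l', r', b, g1, g2, g3, g4, g5⟩ := h
  obtain ⟨x₀, hx₀, hx₁, _⟩ := g4 (0, 0) (by unfold Cl; simp; omega)
  refine ⟨U, Z, h1, h2, h3, h4, h5, h6, h7, h8, l + r - r', l + r - l', b, by omega, by omega,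
    g3, fun c hc => ?_, fun x j k1 k2 k3 k4 => ?_⟩
  · obtain ⟨x, k1, k2, k3⟩ := g4 c hc
    exact ⟨l + r - x, by omega, by omega, k3⟩
  · have := g5 (l + r - x) j (by omega) (by omega) k3 k4
    simp only at this
    rwa [show l + r - (l + r - x) = x by omega] at this

/-- An exposed grid with a common neighbour, on one page of a system of pages. -/
def Gm1 {σ : Type*} (S : Set α) (ends : α → Sym2 V) (P : σ → ℕ × ℕ → V) (lo hi : σ → ℕ)
    (n w : ℕ) : Prop := ∃ s, GmF S ends (P s) (lo s) (hi s) n w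

lemma Gm1.gmE {σ : Type*} {S : Set α} {ends : α → Sym2 V} {P : σ → ℕ × ℕ → V} {lo hi : σ → ℕ}
    {n w : ℕ} (h : Gm1 S ends P lo hi n w) : GmE S ends (PCols P lo hi) n w := by
  obtain ⟨s, h⟩ := h
  exact h.gmE.mono (Cols_PCols (le_refl _) (le_refl _))

lemma Gm1.gmZ {σ : Type*} {S : Set α} {ends : α → Sym2 V} {P : σ → ℕ × ℕ → V} {lo hi : σ → ℕ}
    {n w : ℕ} (h : Gm1 S ends P lo hi n w) : GmZ S ends w := h.gmE.gmZ

lemma Gm1.of {σ : Type*} {S : Set α} {ends : α → Sym2 V} {P : σ → ℕ × ℕ → V} {lo hi : σ → ℕ}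
    {n w : ℕ} (hw : 1 ≤ w) {s : σ} {l r : ℕ} (h : GmF S ends (P s) l r n w)
    (h1 : ∀ x, l ≤ x → x ≤ r → lo s ≤ x ∧ x ≤ hi s) : Gm1 S ends P lo hi n w := by
  obtain ⟨U, Z, h2, h3, h4, h5, h6, h7, h8, h9, l', r', b, g1, g2, g3, g4, g5⟩ := h
  obtain ⟨x₀, hx₀, hx₁, _⟩ := g4 (0, 0) (by unfold Cl; simp; omega)
  have k1 := h1 l' (by omega) (by omega)
  have k2 := h1 r' (by omega) (by omega)
  exact ⟨s, U, Z, h2, h3, h4, h5, h6, h7, h8, h9, l', r', b, k1.1, k2.2, g3, g4, g5⟩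

lemma Gm1.of' {σ : Type*} {S : Set α} {ends : α → Sym2 V} {P : σ → ℕ × ℕ → V} {lo hi : σ → ℕ}
    {n w : ℕ} {s : σ} {l r : ℕ} (h : GmF S ends (P s) l r n w)
    (h1 : lo s ≤ l) (h2 : r ≤ hi s) : Gm1 S ends P lo hi n w := ⟨s, h.mono h1 h2⟩

/-- A grid model with an unbalanced set in every branch set, all of them jointly independent (as in
`GmU`), exposed on a page `P`: every branch set owns a vertex of the page at the level `b`. -/
def GmV (M : Matroid α) (S : Set α) (ends : α → Sym2 V) (P : ℕ × ℕ → V) (l r n w : ℕ) : Prop :=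
  ∃ (U Z : ℕ × ℕ → Set V) (τ₀ : ℕ × ℕ → Set α) (j : ℕ × ℕ → α), (∀ c ∈ Cl w, (U c).Finite) ∧
    (∀ c ∈ Cl w, Z c ⊆ U c) ∧ (∀ c ∈ Cl w, VConn S ends (U c)) ∧
    (∀ c ∈ Cl w, ∀ c' ∈ Cl w, c ≠ c' → Disjoint (U c) (U c')) ∧
    (∀ c ∈ Cl w, Arb S ends (Z c) (τ₀ c)) ∧
    (∀ c ∈ Cl w, j c ∈ ins S ends (Z c) ∧ j c ∉ τ₀ c) ∧
    M.Indep (⋃ c ∈ ClF w, insert (j c) (τ₀ c)) ∧
    (∀ c c', Nb w c c' → Lnk S ends (U c) (U c')) ∧
    ∃ b ≤ n, ∀ c ∈ Cl w, ∃ x, l ≤ x ∧ x ≤ r ∧ P (x, b) ∈ U c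

lemma GmV.gmU {M : Matroid α} {S : Set α} {ends : α → Sym2 V} {P : ℕ × ℕ → V} {l r n w : ℕ}
    (h : GmV M S ends P l r n w) : GmU M S ends w := by
  obtain ⟨U, Z, τ₀, j, h1, h2, h3, h4, h5, h6, h7, h8, _⟩ := h
  exact ⟨U, Z, τ₀, j, h1, h2, h3, h4, h5, h6, h7, h8⟩

lemma GmV.mono {M : Matroid α} {S : Set α} {ends : α → Sym2 V} {P : ℕ × ℕ → V}
    {l r l₁ r₁ n w : ℕ} (h : GmV M S ends P l r n w) (hl : l₁ ≤ l) (hr : r ≤ r₁) :
    GmV M S ends P l₁ r₁ n w := by
  obtain ⟨U, Z, τ₀, j, h1, h2, h3, h4, h5, h6, h7, h8, b, h9, g⟩ := h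
  refine ⟨U, Z, τ₀, j, h1, h2, h3, h4, h5, h6, h7, h8, b, h9, fun c hc => ?_⟩
  obtain ⟨x, k1, k2, k3⟩ := g c hc
  exact ⟨x, hl.trans k1, k2.trans hr, k3⟩

lemma GmV.mirror {M : Matroid α} {S : Set α} {ends : α → Sym2 V} {P : ℕ × ℕ → V} {l r n w : ℕ}
    (h : GmV M S ends (fun c : ℕ × ℕ => P (l + r - c.1, c.2)) l r n w) :
    GmV M S ends P l r n w := by
  obtain ⟨U, Z, τ₀, j, h1, h2, h3, h4, h5, h6, h7, h8, b, h9, g⟩ := h
  refine ⟨U, Z, τ₀, j, h1, h2, h3, h4, h5, h6, h7, h8, b, h9, fun c hc => ?_⟩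
  obtain ⟨x, k1, k2, k3⟩ := g c hc
  exact ⟨l + r - x, by omega, by omega, k3⟩

/-- The same, on one page of a system of pages. -/
def GmV1 {σ : Type*} (M : Matroid α) (S : Set α) (ends : α → Sym2 V) (P : σ → ℕ × ℕ → V)
    (lo hi : σ → ℕ) (n w : ℕ) : Prop := ∃ s, GmV M S ends (P s) (lo s) (hi s) n w

lemma GmV1.gmU {σ : Type*} {M : Matroid α} {S : Set α} {ends : α → Sym2 V} {P : σ → ℕ × ℕ → V}
    {lo hi : σ → ℕ} {n w : ℕ} (h : GmV1 M S ends P lo hi n w) : GmU M S ends w := by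
  obtain ⟨s, h⟩ := h
  exact h.gmU

lemma GmV1.of {σ : Type*} {M : Matroid α} {S : Set α} {ends : α → Sym2 V} {P : σ → ℕ × ℕ → V}
    {lo hi : σ → ℕ} {n w : ℕ} {s : σ} {l r : ℕ} (h : GmV M S ends (P s) l r n w)
    (h1 : ∀ x, l ≤ x → x ≤ r → lo s ≤ x ∧ x ≤ hi s) : GmV1 M S ends P lo hi n w := by
  obtain ⟨U, Z, τ₀, j, g1, g2, g3, g4, g5, g6, g7, g8, b, g9, g⟩ := h
  refine ⟨s, U, Z, τ₀, j, g1, g2, g3, g4, g5, g6, g7, g8, b, g9, fun c hc => ?_⟩
  obtain ⟨x, k1, k2, k3⟩ := g c hc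
  have := h1 x k1 k2
  exact ⟨x, this.1, this.2, k3⟩

/-- A clique model whose sets are exposed on columns. -/
def GmK (S : Set α) (ends : α → Sym2 V) (T : Set (ℕ → V)) (n t : ℕ) : Prop :=
  ∃ B : ℕ → Set V, (∀ i < t, (B i).Finite) ∧ (∀ i < t, VConn S ends (B i)) ∧
    (∀ i < t, ∀ j < t, i ≠ j → Disjoint (B i) (B j)) ∧
    (∀ i < t, ∀ j < t, i ≠ j → Lnk S ends (B i) (B j)) ∧
    ∃ b ≤ n, ∀ i < t, ∃ f ∈ T, f b ∈ B i ∧ ∀ i' < t, i' ≠ i → ∀ j, b ≤ j → j ≤ n → f j ∉ B i'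

lemma gmod_F {S : Set α} {ends : α → Sym2 V} {w : ℕ} (U : ℕ × ℕ → Set V)
    (Z : Set V) (hZf : Z.Finite) (hZc : VConn S ends Z)
    (hUf : ∀ c ∈ Cl (2 * w), (U c).Finite)
    (hUc : ∀ c ∈ Cl (2 * w), VConn S ends (U c))
    (hUd : ∀ c ∈ Cl (2 * w), ∀ c' ∈ Cl (2 * w), c ≠ c' → Disjoint (U c) (U c'))
    (hUZ : ∀ c ∈ Cl (2 * w), Disjoint (U c) Z)
    (hadj : ∀ c c', Nb (2 * w) c c' → Lnk S ends (U c) (U c'))
    (hadjZ : ∀ c ∈ Cl (2 * w), Lnk S ends (U c) Z) {P : ℕ × ℕ → V} {l r n b : ℕ} (hb : b ≤ n)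
    (hT : ∀ c ∈ Cl (2 * w), ∃ x, l ≤ x ∧ x ≤ r ∧ P (x, b) ∈ U c)
    (hTZ : ∀ x j, l ≤ x → x ≤ r → b ≤ j → j ≤ n → P (x, j) ∉ Z) :
    GmF S ends P l r n (2 * w) :=
  ⟨U, Z, hZf, hZc, hUf, hUc, hUd, hUZ, hadj, hadjZ, l, r, b, le_refl _, le_refl _, hb, hT, hTZ⟩

lemma gmod_Z {S : Set α} {ends : α → Sym2 V} {w : ℕ} (U : ℕ × ℕ → Set V)
    (Z : Set V) (hZf : Z.Finite) (hZc : VConn S ends Z)
    (hUf : ∀ c ∈ Cl (2 * w), (U c).Finite)
    (hUc : ∀ c ∈ Cl (2 * w), VConn S ends (U c))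
    (hUd : ∀ c ∈ Cl (2 * w), ∀ c' ∈ Cl (2 * w), c ≠ c' → Disjoint (U c) (U c'))
    (hUZ : ∀ c ∈ Cl (2 * w), Disjoint (U c) Z)
    (hadj : ∀ c c', Nb (2 * w) c c' → Lnk S ends (U c) (U c'))
    (hadjZ : ∀ c ∈ Cl (2 * w), Lnk S ends (U c) Z) : GmZ S ends (2 * w) :=
  ⟨U, Z, hZf, hZc, hUf, hUc, hUd, hUZ, hadj, hadjZ⟩

end EN
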