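import Pool.Agent.EN.Third
import Pool.Agent.Helper34.BIC.Link

/-!
# Frames up to a lift, and the grid with joints over a ground (helper57)

`FrmU M S ends u`: star rule, and ranks at most `|W| + u`.  A grid model of side `(u + 2) w` with
joints to a ground (a set of vertices of nearly full rank, or loops) gives a grid with joints of
side `w`: cut the model in `u + 2` blocks; contracting the ground and the previous blocks makes one
of them exact.  No case distinction between balanced and unbalanced models.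
-/

open Set
open scoped Matroid

namespace EN

open BIC Gad

variable {α V : Type*}

/-- A graph on a matroid: star rule, and the rank rule up to `u`. -/
structure FrmU (M : Matroid α) (S : Set α) (ends : α → Sym2 V) (u : ℕ) : Prop where
  sub : S ⊆ M.E
  star : ∀ v, ∀ e ∈ S, v ∈ ends e → e ∉ M.closure (ins S ends {v}ᶜ)
  rk : ∀ W : Set V, W.Finite → rk M (ins S ends W) ≤ W.ncard + u

section

variable {M : Matroid α} {S : Set α} {ends : α → Sym2 V} {u : ℕ}

lemma Frm.frmU [M.Finite] (h : Frm M S ends) : FrmU M S ends 0 := by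
  refine ⟨h.sub, h.star, fun W hW => ?_⟩
  have h1 := h.rk W
  rw [← cast_rk, ← hW.cast_ncard_eq] at h1
  simpa using (by exact_mod_cast h1 : BIC.rk M (ins S ends W) ≤ W.ncard)

/-- A smaller set of elements. -/
lemma FrmU.subset [M.Finite] (h : FrmU M S ends u) {S' : Set α} (hS : S' ⊆ S) :
    FrmU M S' ends u := by
  have hm : ∀ W : Set V, ins S' ends W ⊆ ins S ends W := fun W e he => ⟨hS he.1, he.2⟩
  exact ⟨hS.trans h.sub, fun v e he hv hcl =>
    h.star v e (hS he) hv (M.closure_subset_closure (hm _) hcl),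
    fun W hW => (rk_mono M (hm W)).trans (h.rk W hW)⟩

/-- Leaf rule. -/
lemma FrmU.leaf (hF : FrmU M S ends u) {I : Set α} (hI : M.Indep I) (hIS : I ⊆ S) {v : V}
    (hv : ∀ e ∈ I, v ∉ ends e) {f : α} (hf : f ∈ S) (hfv : v ∈ ends f) :
    M.Indep (insert f I) := by
  have hfI : f ∉ I := fun h => hv f h hfv
  have h1 : f ∉ M.closure I := by
    intro h
    refine hF.star v f hf hfv (M.closure_subset_closure ?_ h)
    intro e he
    refine ⟨hIS he, fun w hw => ?_⟩
    rintro rfl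
    exact hv e he hw
  exact (hI.notMem_closure_iff_of_notMem hfI (hF.sub hf)).1 h1

/-- A tree is independent over everything that touches it at most at one vertex. -/
lemma FrmU.indep_arb (hF : FrmU M S ends u) {U : Set V} (hU : U.Finite) {τ : Set α}
    (hA : Arb S ends U τ) {b : V} (hb : b ∈ U) {I : Set α} (hI : M.Indep I) (hIS : I ⊆ S)
    (hIU : ∀ e ∈ I, ∀ v ∈ ends e, v ∈ U → v = b) : M.Indep (I ∪ τ) := by
  classical
  obtain ⟨φ, hφ, _⟩ := hA.2.2 b hb
  have hτf : τ.Finite := by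
    have h1 : (φ '' τ).Finite := by
      rw [hφ.image_eq]
      exact hU.subset sdiff_subset
    exact h1.of_finite_image hφ.injOn
  have key : ∀ n : ℕ, ∀ τ' ⊆ τ, τ'.ncard = n → M.Indep (I ∪ τ') := by
    intro n
    induction n with
    | zero =>
      intro τ' hτ' hn
      have h1 : τ' = ∅ := (ncard_eq_zero (hτf.subset hτ')).1 hn
      rw [h1, union_empty]
      exact hI
    | succ n ih =>
      intro τ' hτ' hn
      have hne : τ'.Nonempty := by
        rw [← ncard_pos (hτf.subset hτ')]; omega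
      obtain ⟨w, hw, hwb, e, he, hwe, huniq⟩ := Gad.Arb.exists_leaf hU hA hτ' hne hb
      have h1 : M.Indep (I ∪ (τ' \ {e})) := by
        refine ih _ (sdiff_subset.trans hτ') ?_
        rw [ncard_sdiff_singleton_of_mem he, hn]
        omega
      have h2 := hF.leaf h1 (union_subset hIS (sdiff_subset.trans (hτ'.trans
        (fun f hf => (hA.1 hf).1)))) (v := w) ?_ (hA.1 (hτ' he)).1 hwe
      · have e1 : insert e (I ∪ (τ' \ {e})) = I ∪ τ' := by
          ext f
          simp only [mem_insert_iff, mem_union, mem_sdiff, mem_singleton_iff]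
          constructor
          · rintro (rfl | h | ⟨h, _⟩)
            · exact Or.inr he
            · exact Or.inl h
            · exact Or.inr h
          · rintro (h | h)
            · exact Or.inr (Or.inl h)
            · by_cases hfe : f = e
              · exact Or.inl hfe
              · exact Or.inr (Or.inr ⟨h, hfe⟩)
        rw [← e1]
        exact h2
      · rintro f (hf | ⟨hf, hfe⟩) hwf
        · exact hwb (hIU f hf w hwf hw)
        · exact hfe (huniq f hf hwf)
  exact key _ τ (subset_refl _) rfl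

lemma arb_ncard {U : Set V} (hU : U.Finite) {τ : Set α} (hA : Arb S ends U τ) :
    τ.Finite ∧ τ.ncard + 1 = U.ncard := by
  obtain ⟨b, hb⟩ := hA.2.1
  obtain ⟨φ, hφ, _⟩ := hA.2.2 b hb
  have hfin : τ.Finite := by
    have h1 : (φ '' τ).Finite := by
      rw [hφ.image_eq]
      exact hU.subset sdiff_subset
    exact h1.of_finite_image hφ.injOn
  refine ⟨hfin, ?_⟩
  have h1 : τ.ncard = (U \ {b}).ncard := by
    rw [← hφ.image_eq, hφ.injOn.ncard_image]
  rw [h1, ncard_sdiff_singleton_add_one hb hU]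

/-- A cell: a tree with a joint which touches the tree at one vertex. -/
structure Cell (S : Set α) (ends : α → Sym2 V) (Z U : Set V) (τ : Set α) (j : α) (a : V) :
    Prop where
  fin : U.Finite
  arb : Arb S ends U τ
  mem : j ∈ S
  aU : a ∈ U
  aj : a ∈ ends j
  jZ : ∀ v ∈ ends j, v = a ∨ v ∈ Z
  dis : Disjoint U Z

lemma Cell.jU {Z U : Set V} {τ : Set α} {j : α} {a : V} (h : Cell S ends Z U τ j a) :
    ∀ v ∈ ends j, v ∈ U → v = a := by
  intro v hv hvU
  rcases h.jZ v hv with h1 | h1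
  · exact h1
  · exact absurd h1 (Set.disjoint_left.1 h.dis hvU)

lemma Cell.jτ {Z U : Set V} {τ : Set α} {j : α} {a : V} (h : Cell S ends Z U τ j a) : j ∉ τ := by
  intro hj
  obtain ⟨φ, hφ, hφe⟩ := h.arb.2.2 a h.aU
  have h1 := hφ.mapsTo hj
  exact h1.2 (h.jU _ (hφe j hj) h1.1)

/-- Adding a cell. -/
lemma FrmU.add_cell [M.Finite] (hF : FrmU M S ends u) {K : Set α} (hK : M.Indep K)
    (hKS : K ⊆ S) {Z U : Set V} {τ : Set α} {j : α} {a : V} (hc : Cell S ends Z U τ j a)
    (hKU : ∀ e ∈ K, ∀ v ∈ ends e, v ∉ U) :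
    M.Indep (K ∪ insert j τ) ∧ (K ∪ insert j τ).ncard = K.ncard + U.ncard := by
  have hKf : K.Finite := M.ground_finite.subset hK.subset_ground
  obtain ⟨hτf, hτc⟩ := arb_ncard hc.fin hc.arb
  have h1 : M.Indep (insert j K) := hF.leaf hK hKS (fun e he hv => hKU e he _ hv hc.aU) hc.mem
    hc.aj
  have h2 := hF.indep_arb hc.fin hc.arb hc.aU h1 (insert_subset hc.mem hKS) (by
    rintro e (rfl | he) v hv hvU
    · exact hc.jU v hv hvU
    · exact absurd hvU (hKU e he v hv))
  have e1 : insert j K ∪ τ = K ∪ insert j τ := by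
    rw [insert_union, union_insert]
  rw [e1] at h2
  refine ⟨h2, ?_⟩
  have h3 : Disjoint K (insert j τ) := by
    rw [Set.disjoint_left]
    rintro e he (rfl | he')
    · exact hKU e he _ hc.aj hc.aU
    · obtain ⟨v, hv⟩ := exists_mem_ends ends e
      exact hKU e he v hv ((hc.arb.1 he').2 v hv)
  rw [ncard_union_eq h3 hKf (hτf.insert j), ncard_insert_of_notMem hc.jτ hτf, hτc]

/-- The vertices of some cells. -/
def Cup {ι : Type*} (U : ι → Set V) (D : Finset ι) : Set V := ⋃ c ∈ D, U c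

lemma mem_Cup {ι : Type*} {U : ι → Set V} {D : Finset ι} {v : V} :
    v ∈ Cup U D ↔ ∃ c ∈ D, v ∈ U c := by
  simp only [Cup, mem_iUnion, exists_prop]

/-- Adding several cells. -/
lemma FrmU.add_cells [M.Finite] (hF : FrmU M S ends u) {ι : Type*} [DecidableEq ι]
    {K : Set α} (hK : M.Indep K) (hKS : K ⊆ S) {Z : Set V} {U : ι → Set V} {τ : ι → Set α}
    {j : ι → α} {a : ι → V} (D : Finset ι) (hc : ∀ c ∈ D, Cell S ends Z (U c) (τ c) (j c) (a c))
    (hd : ∀ c ∈ D, ∀ c' ∈ D, c ≠ c' → Disjoint (U c) (U c'))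
    (hKU : ∀ e ∈ K, ∀ v ∈ ends e, ∀ c ∈ D, v ∉ U c) :
    M.Indep (K ∪ ⋃ c ∈ D, insert (j c) (τ c)) ∧
      (K ∪ ⋃ c ∈ D, insert (j c) (τ c)).ncard = K.ncard + ∑ c ∈ D, (U c).ncard := by
  induction D using Finset.induction_on with
  | empty => simpa using hK
  | insert d D hd' ih =>
    obtain ⟨h1, h2⟩ := ih (fun c hc' => hc c (Finset.mem_insert_of_mem hc'))
      (fun c h c' h' => hd c (Finset.mem_insert_of_mem h) c' (Finset.mem_insert_of_mem h'))
      (fun e he v hv c hc' => hKU e he v hv c (Finset.mem_insert_of_mem hc'))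
    have hdc := hc d (Finset.mem_insert_self d D)
    have h3 := hF.add_cell h1 (union_subset hKS (by
      intro e he
      obtain ⟨c, hc', he⟩ := mem_iUnion₂.1 he
      have hcc := hc c (Finset.mem_insert_of_mem hc')
      rcases he with rfl | he
      · exact hcc.mem
      · exact (hcc.arb.1 he).1)) hdc (by
      rintro e (he | he) v hv hvU
      · exact hKU e he v hv d (Finset.mem_insert_self d D) hvU
      · obtain ⟨c, hc', he⟩ := mem_iUnion₂.1 he
        have hcc := hc c (Finset.mem_insert_of_mem hc')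
        have hdis := Set.disjoint_left.1 (hd d (Finset.mem_insert_self d D) c
          (Finset.mem_insert_of_mem hc') (fun h => hd' (h ▸ hc'))) hvU
        rcases he with rfl | he
        · rcases hcc.jZ v hv with rfl | h
          · exact hdis hcc.aU
          · exact Set.disjoint_left.1 hdc.dis hvU h
        · exact hdis ((hcc.arb.1 he).2 v hv))
    have e1 : K ∪ ⋃ c ∈ insert d D, insert (j c) (τ c) =
        (K ∪ ⋃ c ∈ D, insert (j c) (τ c)) ∪ insert (j d) (τ d) := by
      rw [Finset.set_biUnion_insert, union_comm (insert (j d) (τ d)), union_assoc]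
    rw [e1]
    refine ⟨h3.1, ?_⟩
    rw [h3.2, h2, Finset.sum_insert hd']
    omega

/-- Growing the rank. -/
lemma FrmU.grow [M.Finite] (hF : FrmU M S ends u) {ι : Type*} [DecidableEq ι]
    {Z W : Set V} {U : ι → Set V} {τ : ι → Set α}
    {j : ι → α} {a : ι → V} (D : Finset ι) (hc : ∀ c ∈ D, Cell S ends Z (U c) (τ c) (j c) (a c))
    (hd : ∀ c ∈ D, ∀ c' ∈ D, c ≠ c' → Disjoint (U c) (U c'))
    (hZW : Z ⊆ W) (hW : ∀ c ∈ D, Disjoint (U c) W) :
    BIC.rk M (ins S ends W) + ∑ c ∈ D, (U c).ncard ≤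
      BIC.rk M (ins S ends (W ∪ Cup U D)) := by
  obtain ⟨K, hK⟩ := M.exists_isBasis (ins S ends W) (fun e he => hF.sub he.1)
  have h1 := hF.add_cells hK.indep (fun e he => (hK.subset he).1) D hc hd (by
    intro e he v hv c hcD hvU
    exact Set.disjoint_left.1 (hW c hcD) hvU ((hK.subset he).2 v hv))
  have h2 : BIC.rk M (ins S ends W) = K.ncard := by
    have h3 := hK.eRk_eq_encard
    have hKf : K.Finite := M.ground_finite.subset hK.indep.subset_ground
    rw [← cast_rk, ← hKf.cast_ncard_eq] at h3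
    exact_mod_cast h3
  rw [h2, ← h1.2, ← rk_indep h1.1]
  refine rk_mono M ?_
  rintro e (he | he)
  · exact ins_mono subset_union_left (hK.subset he)
  · obtain ⟨c, hcD, he⟩ := mem_iUnion₂.1 he
    have hcc := hc c hcD
    rcases he with rfl | he
    · refine ⟨hcc.mem, fun v hv => ?_⟩
      rcases hcc.jZ v hv with rfl | h
      · exact Or.inr (mem_Cup.2 ⟨c, hcD, hcc.aU⟩)
      · exact Or.inl (hZW h)
    · exact ⟨(hcc.arb.1 he).1, fun v hv => Or.inr (mem_Cup.2 ⟨c, hcD, (hcc.arb.1 he).2 v hv⟩)⟩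

lemma span_of_card [M.Finite] {X Y : Set α} (hX : M.Indep X) (hXY : X ⊆ Y) (hY : Y ⊆ M.E)
    (h : BIC.rk M Y ≤ X.ncard) : Y ⊆ M.closure X := by
  have hfin : X.Finite := M.ground_finite.subset hX.subset_ground
  have hb : M.IsBasis X Y := by
    refine hX.isBasis_of_eRk_ge hfin hXY ?_ hY
    rw [hX.eRk_eq_encard, ← cast_rk, ← hfin.cast_ncard_eq]
    exact_mod_cast h
  exact hb.subset_closure

/-- the cell `c` of the block `i` -/
def blkc (w i : ℕ) (c : ℕ × ℕ) : ℕ × ℕ := (c.1, i * w + c.2)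

lemma blkc_cl {w m i : ℕ} (hi : i < m) {c : ℕ × ℕ} (hc : c ∈ Cl w) : blkc w i c ∈ Cl (m * w) := by
  obtain ⟨h1, h2⟩ := hc
  have h3 : (i + 1) * w ≤ m * w := Nat.mul_le_mul_right _ hi
  have h4 : (i + 1) * w = i * w + w := by ring
  have h5 : 0 < m := by omega
  have h6 : 1 * w ≤ m * w := Nat.mul_le_mul_right _ h5
  refine ⟨?_, ?_⟩
  · simp only [blkc]; omega
  · simp only [blkc]; omega

lemma blkc_nb {w m i : ℕ} (hi : i < m) {c c' : ℕ × ℕ} (h : Nb w c c') :
    Nb (m * w) (blkc w i c) (blkc w i c') := by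
  refine ⟨blkc_cl hi h.1, blkc_cl hi h.2.1, ?_⟩
  simp only [blkc]
  have := h.2.2
  omega

lemma blkc_inj {w i i' : ℕ} {c c' : ℕ × ℕ} (hc : c ∈ Cl w) (hc' : c' ∈ Cl w)
    (h : blkc w i c = blkc w i' c') : i = i' ∧ c = c' := by
  simp only [blkc, Prod.mk.injEq] at h
  obtain ⟨h1, h2⟩ := hc
  obtain ⟨h1', h2'⟩ := hc'
  have h3 : i = i' := by
    rcases Nat.lt_trichotomy i i' with h4 | h4 | h4
    · have : (i + 1) * w ≤ i' * w := Nat.mul_le_mul_right _ h4
      have e : (i + 1) * w = i * w + w := by ring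
      omega
    · exact h4
    · have : (i' + 1) * w ≤ i * w := Nat.mul_le_mul_right _ h4
      have e : (i' + 1) * w = i' * w + w := by ring
      omega
  subst h3
  exact ⟨rfl, Prod.ext h.1 (by omega)⟩

/-- **The grid with joints over a ground, lifts of dimension `u`.** -/
theorem jgrid_cells [M.Finite] (hF : FrmU M S ends u) {w : ℕ} {U : ℕ × ℕ → Set V} {Z : Set V}
    {τ : ℕ × ℕ → Set α} {j : ℕ × ℕ → α} {a : ℕ × ℕ → V} (hZf : Z.Finite)
    (hZr : Z.ncard ≤ BIC.rk M (ins S ends Z) + 1)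
    (hc : ∀ c ∈ Cl ((u + 2) * w), Cell S ends Z (U c) (τ c) (j c) (a c))
    (hd : ∀ c ∈ Cl ((u + 2) * w), ∀ c' ∈ Cl ((u + 2) * w), c ≠ c' → Disjoint (U c) (U c'))
    (hadj : ∀ c c', Nb ((u + 2) * w) c c' → Lnk S ends (U c) (U c')) :
    ∃ i < u + 2, ∃ (C S' : Set α) (ed : ℕ × ℕ → ℕ × ℕ → α), C ⊆ S ∧ S' ⊆ S ∧ Disjoint C S' ∧
      M.Indep (C ∪ (fun c => j (blkc w i c)) '' Cl w) ∧
      JGrid (M ／ C) S' w (fun c => j (blkc w i c)) ed := by
  classical
  set m := u + 2 with hm
  -- the sets of vertices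
  obtain ⟨Wf, hWf⟩ : ∃ Wf : ℕ → Set V, ∀ i, Wf i = Z ∪ Cup (fun x : ℕ × (ℕ × ℕ) =>
      U (blkc w x.1 x.2)) (Finset.range i ×ˢ ClF w) := ⟨_, fun _ => rfl⟩
  have hmW : ∀ i v, v ∈ Wf i ↔ v ∈ Z ∨ ∃ k < i, ∃ c ∈ Cl w, v ∈ U (blkc w k c) := by
    intro i v
    rw [hWf, mem_union, mem_Cup]
    constructor
    · rintro (h | ⟨x, hx, h⟩)
      · exact Or.inl h
      · rw [Finset.mem_product, Finset.mem_range, mem_ClF] at hx
        exact Or.inr ⟨x.1, hx.1, x.2, hx.2, h⟩
    · rintro (h | ⟨k, hk, c, hc, h⟩)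
      · exact Or.inl h
      · exact Or.inr ⟨(k, c), Finset.mem_product.2 ⟨Finset.mem_range.2 hk, mem_ClF.2 hc⟩, h⟩
  have hsucc : ∀ i, Wf (i + 1) = Wf i ∪ Cup (fun c => U (blkc w i c)) (ClF w) := by
    intro i
    ext v
    rw [mem_union, hmW, hmW, mem_Cup]
    constructor
    · rintro (h | ⟨k, hk, c, hc, h⟩)
      · exact Or.inl (Or.inl h)
      · rcases Nat.lt_succ_iff_lt_or_eq.1 hk with h1 | h1
        · exact Or.inl (Or.inr ⟨k, h1, c, hc, h⟩)
        · subst h1
          exact Or.inr ⟨c, mem_ClF.2 hc, h⟩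
    · rintro ((h | ⟨k, hk, c, hc, h⟩) | ⟨c, hc, h⟩)
      · exact Or.inl h
      · exact Or.inr ⟨k, by omega, c, hc, h⟩
      · exact Or.inr ⟨i, by omega, c, mem_ClF.1 hc, h⟩
  have hWfin : ∀ i ≤ m, (Wf i).Finite := by
    intro i hi
    rw [hWf]
    refine hZf.union ?_
    refine Set.Finite.biUnion (Finset.finite_toSet _) (fun x hx => ?_)
    rw [Finset.mem_coe, Finset.mem_product, Finset.mem_range, mem_ClF] at hx
    exact (hc _ (blkc_cl (by omega) hx.2)).fin
  have hZW : ∀ i, Z ⊆ Wf i := fun i v hv => (hmW i v).2 (Or.inl hv)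
  -- cells of the block `i` are disjoint from `Wf i`
  have hdW : ∀ i < m, ∀ c ∈ Cl w, Disjoint (U (blkc w i c)) (Wf i) := by
    intro i hi c hcw
    rw [Set.disjoint_left]
    intro v hv hv'
    rcases (hmW i v).1 hv' with h | ⟨k, hk, c', hc', h⟩
    · exact Set.disjoint_left.1 (hc _ (blkc_cl hi hcw)).dis hv h
    · refine Set.disjoint_left.1 (hd _ (blkc_cl hi hcw) _ (blkc_cl (by omega) hc') ?_) hv h
      intro h1
      have := (blkc_inj hcw hc' h1).1
      omega
  have hdb : ∀ i < m, ∀ c ∈ Cl w, ∀ c' ∈ Cl w, c ≠ c' →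
      Disjoint (U (blkc w i c)) (U (blkc w i c')) := by
    intro i hi c hcw c' hc' hne
    exact hd _ (blkc_cl hi hcw) _ (blkc_cl hi hc') (fun h => hne (blkc_inj hcw hc' h).2)
  obtain ⟨sz, hsz⟩ : ∃ sz : ℕ → ℕ, ∀ i, sz i = ∑ c ∈ ClF w, (U (blkc w i c)).ncard :=
    ⟨_, fun _ => rfl⟩
  have hcard : ∀ i < m, (Wf (i + 1)).ncard = (Wf i).ncard + sz i := by
    intro i hi
    rw [hsucc, ncard_union_eq ?_ (hWfin i (by omega)) ?_]
    · congr 1
      rw [hsz, Cup]
      have key : ∀ D : Finset (ℕ × ℕ), D ⊆ ClF w → (⋃ c ∈ D, U (blkc w i c)).ncard =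
          ∑ c ∈ D, (U (blkc w i c)).ncard := by
        intro D
        induction D using Finset.induction_on with
        | empty => intro _; simp
        | insert d D hdD ih =>
          intro hDs
          have h1 := ih ((Finset.subset_insert _ _).trans hDs)
          have hdw := mem_ClF.1 (hDs (Finset.mem_insert_self d D))
          rw [Finset.set_biUnion_insert, Finset.sum_insert hdD, ncard_union_eq ?_
            (hc _ (blkc_cl hi hdw)).fin ?_, h1]
          · rw [Set.disjoint_iUnion₂_right]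
            intro c hcD
            exact hdb i hi d hdw c (mem_ClF.1 (hDs (Finset.mem_insert_of_mem hcD)))
              (fun h => hdD (h ▸ hcD))
          · exact Set.Finite.biUnion (Finset.finite_toSet _) (fun c hcD =>
              (hc _ (blkc_cl hi (mem_ClF.1 (hDs (Finset.mem_insert_of_mem hcD))))).fin)
      exact key _ (Finset.Subset.refl _)
    · rw [Cup, Set.disjoint_iUnion₂_right]
      intro c hcw
      exact (hdW i hi c (mem_ClF.1 hcw)).symm
    · exact Set.Finite.biUnion (Finset.finite_toSet _) (fun c hcw =>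
        (hc _ (blkc_cl hi (mem_ClF.1 hcw))).fin)
  -- growth
  have hgrow : ∀ i < m, ∀ D D' : Finset (ℕ × ℕ), D ⊆ ClF w → D' ⊆ ClF w → Disjoint D D' →
      BIC.rk M (ins S ends (Wf i ∪ Cup (fun c => U (blkc w i c)) D)) +
        ∑ c ∈ D', (U (blkc w i c)).ncard ≤
      BIC.rk M (ins S ends (Wf i ∪ Cup (fun c => U (blkc w i c)) D ∪
        Cup (fun c => U (blkc w i c)) D')) := by
    intro i hi D D' hD hD' hDD
    refine hF.grow (Z := Z) (U := fun c => U (blkc w i c)) (τ := fun c => τ (blkc w i c))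
      (j := fun c => j (blkc w i c)) (a := fun c => a (blkc w i c)) D' ?_ ?_ ?_ ?_
    · exact fun c hcD => hc _ (blkc_cl hi (mem_ClF.1 (hD' hcD)))
    · exact fun c hcD c' hcD' hne => hdb i hi c (mem_ClF.1 (hD' hcD)) c' (mem_ClF.1 (hD' hcD')) hne
    · exact (hZW i).trans subset_union_left
    · intro c hcD
      rw [Set.disjoint_union_right]
      refine ⟨hdW i hi c (mem_ClF.1 (hD' hcD)), ?_⟩
      rw [Cup, Set.disjoint_iUnion₂_right]
      intro c' hcD'
      exact hdb i hi c (mem_ClF.1 (hD' hcD)) c' (mem_ClF.1 (hD hcD'))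
        (fun h => Finset.disjoint_left.1 hDD (h ▸ hcD') hcD)
  -- an exact block
  obtain ⟨i, hi, hex⟩ : ∃ i < m, BIC.rk M (ins S ends (Wf (i + 1))) ≤
      BIC.rk M (ins S ends (Wf i)) + sz i := by
    by_contra hcon
    push Not at hcon
    have key : ∀ i ≤ m, (Wf i).ncard + i ≤ BIC.rk M (ins S ends (Wf i)) + 1 := by
      intro i
      induction i with
      | zero =>
        intro _
        have e : Wf 0 = Z := by
          rw [hWf]
          simp [Cup]
        rw [e]
        omega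
      | succ i ih =>
        intro hi
        have h1 := ih (by omega)
        have h2 := hcon i (by omega)
        have h3 := hcard i (by omega)
        omega
    have h1 := key m le_rfl
    have h2 := hF.rk (Wf m) (hWfin m le_rfl)
    omega
  refine ⟨i, hi, ?_⟩
  -- ranks in the block
  have hrk : ∀ D : Finset (ℕ × ℕ), D ⊆ ClF w →
      BIC.rk M (ins S ends (Wf i ∪ Cup (fun c => U (blkc w i c)) D)) ≤
        BIC.rk M (ins S ends (Wf i)) + ∑ c ∈ D, (U (blkc w i c)).ncard := by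
    intro D hD
    have h1 := hgrow i hi D (ClF w \ D) hD Finset.sdiff_subset Finset.disjoint_sdiff
    have h2 : Wf i ∪ Cup (fun c => U (blkc w i c)) D ∪ Cup (fun c => U (blkc w i c)) (ClF w \ D) =
        Wf (i + 1) := by
      rw [hsucc]
      ext v
      simp only [mem_union, mem_Cup, Finset.mem_sdiff]
      constructor
      · rintro ((h | ⟨c, h, h'⟩) | ⟨c, h, h'⟩)
        · exact Or.inl h
        · exact Or.inr ⟨c, hD h, h'⟩
        · exact Or.inr ⟨c, h.1, h'⟩
      · rintro (h | ⟨c, h, h'⟩)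
        · exact Or.inl (Or.inl h)
        · by_cases hcD : c ∈ D
          · exact Or.inl (Or.inr ⟨c, hcD, h'⟩)
          · exact Or.inr ⟨c, ⟨h, hcD⟩, h'⟩
    rw [h2] at h1
    have h3 : ∑ c ∈ ClF w \ D, (U (blkc w i c)).ncard + ∑ c ∈ D, (U (blkc w i c)).ncard = sz i := by
      rw [hsz]
      exact Finset.sum_sdiff hD
    omega
  -- the basis of the ground
  obtain ⟨K, hK⟩ := M.exists_isBasis (ins S ends (Wf i)) (fun e he => hF.sub he.1)
  have hKf : K.Finite := M.ground_finite.subset hK.indep.subset_ground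
  have hKr : BIC.rk M (ins S ends (Wf i)) = K.ncard := by
    have h3 := hK.eRk_eq_encard
    rw [← cast_rk, ← hKf.cast_ncard_eq] at h3
    exact_mod_cast h3
  have hKW : ∀ e ∈ K, e ∈ S ∧ ∀ v ∈ ends e, v ∈ Wf i := fun e he => hK.subset he
  have hcell : ∀ c ∈ Cl w, Cell S ends Z (U (blkc w i c)) (τ (blkc w i c)) (j (blkc w i c))
      (a (blkc w i c)) := fun c hcw => hc _ (blkc_cl hi hcw)
  have hKU : ∀ e ∈ K, ∀ v ∈ ends e, ∀ c ∈ Cl w, v ∉ U (blkc w i c) := by
    intro e he v hv c hcw hvU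
    exact Set.disjoint_left.1 (hdW i hi c hcw) hvU ((hKW e he).2 v hv)
  -- the connecting elements
  have hed : ∀ c c' : ℕ × ℕ, ∃ e : α, Nb w c c' → e ∈ S ∧ ∃ p ∈ U (blkc w i c),
      ∃ q ∈ U (blkc w i c'), ends e = s(p, q) := by
    intro c c'
    by_cases h : Nb w c c'
    · obtain ⟨e, he, h1⟩ := hadj _ _ (blkc_nb hi h)
      exact ⟨e, fun _ => ⟨he, h1⟩⟩
    · exact ⟨j c, fun h' => absurd h' h⟩
  choose ed hed using hed
  obtain ⟨C, hC⟩ : ∃ C : Set α, C = K ∪ ⋃ c ∈ ClF w, τ (blkc w i c) := ⟨_, rfl⟩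
  have hmC : ∀ e, e ∈ C ↔ e ∈ K ∨ ∃ c ∈ Cl w, e ∈ τ (blkc w i c) := by
    intro e
    rw [hC]
    simp only [mem_union, mem_iUnion, mem_ClF, exists_prop]
  have hCS : C ⊆ S := by
    intro e he
    rcases (hmC e).1 he with h | ⟨c, hcw, h⟩
    · exact (hKW e h).1
    · exact ((hcell c hcw).arb.1 h).1
  have hUv : ∀ c ∈ Cl w, ∀ c' ∈ Cl w, ∀ v, v ∈ U (blkc w i c) → v ∈ U (blkc w i c') →
      c = c' := by
    intro c hcw c' hc' v hv hv'
    by_contra hne
    exact Set.disjoint_left.1 (hdb i hi c hcw c' hc' hne) hv hv'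
  have hfull : M.Indep (C ∪ (fun c => j (blkc w i c)) '' Cl w) := by
    refine (hF.add_cells hK.indep (fun e he => (hKW e he).1) (Z := Z)
      (U := fun c => U (blkc w i c)) (τ := fun c => τ (blkc w i c))
      (j := fun c => j (blkc w i c)) (a := fun c => a (blkc w i c)) (ClF w)
      (fun c hcw => hcell c (mem_ClF.1 hcw))
      (fun c h c' h' hne => hdb i hi c (mem_ClF.1 h) c' (mem_ClF.1 h') hne)
      (fun e he v hv c hcw => hKU e he v hv c (mem_ClF.1 hcw))).1.subset ?_
    rintro e (he | ⟨c, hcw, rfl⟩)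
    · rcases (hmC e).1 he with h | ⟨c, hcw, h⟩
      · exact Or.inl h
      · exact Or.inr (mem_iUnion₂.2 ⟨c, mem_ClF.2 hcw, Or.inr h⟩)
    · exact Or.inr (mem_iUnion₂.2 ⟨c, mem_ClF.2 hcw, Or.inl rfl⟩)
  have hjC : ∀ c ∈ Cl w, j (blkc w i c) ∉ C := by
    intro c hcw h
    have h0 := hcell c hcw
    rcases (hmC _).1 h with h | ⟨c', hc', h⟩
    · exact hKU _ h _ h0.aj c hcw h0.aU
    · have h1 : c = c' := hUv c hcw c' hc' _ h0.aU (((hcell c' hc').arb.1 h).2 _ h0.aj)
      subst h1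
      exact h0.jτ h
  have hedC : ∀ c c', Nb w c c' → ed c c' ∉ C := by
    intro c c' h hC'
    obtain ⟨_, p, hp, q, hq, hpq⟩ := hed c c' h
    rcases (hmC _).1 hC' with h1 | ⟨c'', hc'', h1⟩
    · exact hKU _ h1 p (by rw [hpq]; simp) c h.1 hp
    · have h2 := ((hcell c'' hc'').arb.1 h1).2 p (by rw [hpq]; simp)
      have h3 := ((hcell c'' hc'').arb.1 h1).2 q (by rw [hpq]; simp)
      exact h.ne ((hUv c h.1 c'' hc'' p hp h2).trans (hUv c' h.2.1 c'' hc'' q hq h3).symm)
  obtain ⟨J, hJ⟩ : ∃ J : ℕ × ℕ → α, ∀ c, J c = j (blkc w i c) := ⟨_, fun _ => rfl⟩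
  have hJe : (fun c => j (blkc w i c)) = J := by
    funext c
    rw [hJ]
  rw [hJe] at hfull ⊢
  set S' : Set α := J '' Cl w ∪ {e | ∃ c c', Nb w c c' ∧ e = ed c c'} with hS'
  have hCi : M.Indep C := hfull.subset subset_union_left
  have hcl : ∀ X e, e ∉ C → e ∈ M.closure (X ∪ C) → e ∈ (M ／ C).closure X := by
    intro X e h1 h2
    rw [M.contract_closure_eq]
    exact ⟨h2, h1⟩
  -- the basic span
  have hspan : ∀ c ∈ Cl w, ∀ c' ∈ Cl w, c ≠ c' → ∀ f ∈ S, ∀ p ∈ U (blkc w i c), p ∈ ends f →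
      (∀ v ∈ ends f, v = p ∨ v ∈ U (blkc w i c') ∨ v ∈ Z) →
      ins S ends (Wf i ∪ (U (blkc w i c) ∪ U (blkc w i c'))) ⊆ M.closure ({J c', f} ∪ C) := by
    intro c hcw c' hc' hne f hfS p hp hpf hfv
    have h0 := hcell c hcw
    have h0' := hcell c' hc'
    have h1 := hF.add_cell hK.indep (fun e he => (hKW e he).1) h0'
      (fun e he v hv => hKU e he v hv c' hc')
    have hK1 : K ∪ insert (j (blkc w i c')) (τ (blkc w i c')) ⊆ S := by
      rintro e (he | rfl | he)
      · exact (hKW e he).1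
      · exact h0'.mem
      · exact (h0'.arb.1 he).1
    have hcell2 : Cell S ends (U (blkc w i c') ∪ Z) (U (blkc w i c)) (τ (blkc w i c)) f p :=
      ⟨h0.fin, h0.arb, hfS, hp, hpf, fun v hv => (hfv v hv).imp id (fun h => h), by
        rw [Set.disjoint_union_right]
        exact ⟨hdb i hi c hcw c' hc' hne, h0.dis⟩⟩
    have h2 := hF.add_cell h1.1 hK1 hcell2 (by
      rintro e (he | rfl | he) v hv hvU
      · exact hKU e he v hv c hcw hvU
      · rcases h0'.jZ v hv with rfl | h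
        · exact hne (hUv c hcw c' hc' _ hvU h0'.aU)
        · exact Set.disjoint_left.1 h0.dis hvU h
      · exact hne (hUv c hcw c' hc' _ hvU ((h0'.arb.1 he).2 v hv)))
    have hr := hrk {c, c'} (by
      intro x hx
      rw [Finset.mem_insert, Finset.mem_singleton] at hx
      rcases hx with rfl | rfl
      · exact mem_ClF.2 hcw
      · exact mem_ClF.2 hc')
    have e1 : Cup (fun c => U (blkc w i c)) {c, c'} = U (blkc w i c) ∪ U (blkc w i c') := by
      ext v
      simp only [mem_Cup, Finset.mem_insert, Finset.mem_singleton, mem_union]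
      constructor
      · rintro ⟨x, rfl | rfl, hx⟩
        · exact Or.inl hx
        · exact Or.inr hx
      · rintro (h | h)
        · exact ⟨c, Or.inl rfl, h⟩
        · exact ⟨c', Or.inr rfl, h⟩
    rw [e1, Finset.sum_pair hne, hKr] at hr
    have h3 : K ∪ insert (j (blkc w i c')) (τ (blkc w i c')) ∪ insert f (τ (blkc w i c)) ⊆
        ins S ends (Wf i ∪ (U (blkc w i c) ∪ U (blkc w i c'))) := by
      rintro e ((he | rfl | he) | rfl | he)
      · exact ⟨(hKW e he).1, fun v hv => Or.inl ((hKW e he).2 v hv)⟩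
      · refine ⟨h0'.mem, fun v hv => ?_⟩
        rcases h0'.jZ v hv with rfl | h
        · exact Or.inr (Or.inr h0'.aU)
        · exact Or.inl (hZW i h)
      · exact ⟨(h0'.arb.1 he).1, fun v hv => Or.inr (Or.inr ((h0'.arb.1 he).2 v hv))⟩
      · refine ⟨hfS, fun v hv => ?_⟩
        rcases hfv v hv with rfl | h | h
        · exact Or.inr (Or.inl hp)
        · exact Or.inr (Or.inr h)
        · exact Or.inl (hZW i h)
      · exact ⟨(h0.arb.1 he).1, fun v hv => Or.inr (Or.inl ((h0.arb.1 he).2 v hv))⟩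
    have h4 := span_of_card h2.1 h3 (fun e he => hF.sub he.1) (by rw [h2.2, h1.2]; omega)
    refine h4.trans (M.closure_subset_closure ?_)
    rintro e ((he | rfl | he) | rfl | he)
    · exact Or.inr ((hmC e).2 (Or.inl he))
    · exact Or.inl (Or.inl (hJ c').symm)
    · exact Or.inr ((hmC e).2 (Or.inr ⟨c', hc', he⟩))
    · exact Or.inl (Or.inr rfl)
    · exact Or.inr ((hmC e).2 (Or.inr ⟨c, hcw, he⟩))
  have hJS : ∀ c ∈ Cl w, J c ∈ S := fun c hcw => by rw [hJ]; exact (hcell c hcw).mem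
  have hJv : ∀ c ∈ Cl w, ∀ v ∈ ends (J c), v = a (blkc w i c) ∨ v ∈ Z := fun c hcw => by
    rw [hJ]; exact (hcell c hcw).jZ
  have hJa : ∀ c ∈ Cl w, a (blkc w i c) ∈ ends (J c) := fun c hcw => by
    rw [hJ]; exact (hcell c hcw).aj
  have hJC : ∀ c ∈ Cl w, J c ∉ C := fun c hcw => by rw [hJ]; exact hjC c hcw
  have hh1 : ∀ c c', Nb w c c' → ed c c' ∈ (M ／ C).closure {J c, J c'} := by
    intro c c' h
    obtain ⟨heS, p, hp, q, hq, hpq⟩ := hed c c' h
    refine hcl _ _ (hedC c c' h) ?_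
    rw [pair_comm]
    refine hspan c h.1 c' h.2.1 h.ne (J c) (hJS c h.1) _ (hcell c h.1).aU (hJa c h.1)
      (fun v hv => (hJv c h.1 v hv).imp id Or.inr) ⟨heS, fun v hv => ?_⟩
    rw [hpq] at hv
    rcases Sym2.mem_iff.1 hv with rfl | rfl
    · exact Or.inr (Or.inl hp)
    · exact Or.inr (Or.inr hq)
  have hh2 : ∀ c ∈ Cl w, ∀ c' ∈ Cl w, c ≠ c' → ∀ f ∈ S, ∀ p ∈ U (blkc w i c),
      ∀ q ∈ U (blkc w i c'), ends f = s(p, q) → J c ∈ (M ／ C).closure {J c', f} := by
    intro c hcw c' hc' hne f hfS p hp q hq hpq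
    refine hcl _ _ (hJC c hcw) ?_
    refine hspan c hcw c' hc' hne f hfS p hp (by rw [hpq]; simp) ?_ ⟨hJS c hcw, fun v hv => ?_⟩
    · intro v hv
      rw [hpq] at hv
      rcases Sym2.mem_iff.1 hv with rfl | rfl
      · exact Or.inl rfl
      · exact Or.inr (Or.inl hq)
    · rcases hJv c hcw v hv with rfl | h
      · exact Or.inr (Or.inl (hcell c hcw).aU)
      · exact Or.inl (hZW i h)
  refine ⟨C, S', ed, hCS, ?_, ?_, hfull, ?_⟩
  · rintro e (⟨c, hcw, rfl⟩ | ⟨c, c', h, rfl⟩)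
    · exact hJS c hcw
    · exact (hed c c' h).1
  · rw [Set.disjoint_left]
    rintro e he (⟨c, hcw, rfl⟩ | ⟨c, c', h, rfl⟩)
    · exact hJC c hcw he
    · exact hedC c c' h he
  · refine ⟨?_, ?_, ?_, hh1, ?_, ?_⟩
    · intro c hcw c' hc' hcc
      have h1 : a (blkc w i c) ∈ ends (J c') := by rw [← hcc]; exact hJa c hcw
      rcases hJv c' hc' _ h1 with h2 | h2
      · exact hUv c hcw c' hc' _ (hcell c hcw).aU (by rw [h2]; exact (hcell c' hc').aU)
      · exact absurd h2 (Set.disjoint_left.1 (hcell c hcw).dis (hcell c hcw).aU)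
    · have hind : (M ／ C).Indep (J '' Cl w) := by
        rw [hCi.contract_indep_iff]
        refine ⟨?_, by rw [union_comm]; exact hfull⟩
        rw [Set.disjoint_left]
        rintro e ⟨c, hcw, rfl⟩
        exact hJC c hcw
      refine hind.isBasis_of_subset_of_subset_closure subset_union_left ?_
      rintro e (⟨c, hcw, rfl⟩ | ⟨c, c', h, rfl⟩)
      · exact (M ／ C).mem_closure_of_mem' ⟨c, hcw, rfl⟩ (hind.subset_ground ⟨c, hcw, rfl⟩)
      · refine (M ／ C).closure_subset_closure ?_ (hh1 c c' h)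
        rintro x (rfl | rfl)
        · exact ⟨c, h.1, rfl⟩
        · exact ⟨c', h.2.1, rfl⟩
    · intro c c' h
      exact Or.inr ⟨c, c', h, rfl⟩
    · intro c c' h
      obtain ⟨heS, p, hp, q, hq, hpq⟩ := hed c c' h
      exact hh2 c h.1 c' h.2.1 h.ne _ heS p hp q hq hpq
    · intro c c' h
      obtain ⟨heS, p, hp, q, hq, hpq⟩ := hed c c' h
      exact hh2 c' h.2.1 c h.1 h.ne.symm _ heS q hq p hp (by rw [hpq, Sym2.eq_swap])

end

end EN
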