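import Pool.Agent.EN.Ground

/-!
# Loops as ground (helper57)

`gEnds ends vl`: the graph with one more vertex `none` (the ground), in which the loops `e`
(`vl e = some v`) are edges from `v` to the ground.  A grid model with a set `Z` adjacent to
everything in this graph gives the grid with joints, for frames up to a lift.
-/

open Set
open scoped Matroid

namespace EN

open BIC Gad

variable {α V : Type*}

/-- The ends in the graph with a ground vertex. -/
def gEnds (ends : α → Sym2 V) (vl : α → Option V) (e : α) : Sym2 (Option V) :=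
  match vl e with
  | some v => s(some v, none)
  | none => (ends e).map some

section

variable {M : Matroid α} {S : Set α} {ends : α → Sym2 V} {vl : α → Option V} {u : ℕ}

lemma gEnds_some {e : α} {x y : V} (h : gEnds ends vl e = s(some x, some y)) :
    ends e = s(x, y) := by
  unfold gEnds at h
  split at h
  · rw [Sym2.eq_iff] at h
    simp at h
  · have h1 : (ends e).map some = (s(x, y) : Sym2 V).map some := by rw [h, Sym2.map_mk]
    exact Sym2.map.injective (Option.some_injective V) h1

lemma gEnds_none {e : α} {x : V} (h : gEnds ends vl e = s(some x, none)) : vl e = some x := by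
  unfold gEnds at h
  split at h
  · rename_i v hv
    rw [hv]
    rw [Sym2.eq_iff] at h
    rcases h with h | h
    · exact h.1
    · exact absurd h.1 (by simp)
  · exfalso
    have h1 : (none : Option V) ∈ (ends e).map some := by rw [h]; simp
    rw [Sym2.mem_map] at h1
    obtain ⟨a, _, ha⟩ := h1
    simp at ha

/-- The real vertices of a set. -/
def real (U : Set (Option V)) : Set V := {v | some v ∈ U}

lemma real_finite {U : Set (Option V)} (h : U.Finite) : (real U).Finite :=
  h.preimage (Option.some_injective V).injOn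

lemma vconn_real {U : Set (Option V)} (hU : VConn S (gEnds ends vl) U) (hn : none ∉ U) :
    VConn S ends (real U) := by
  intro x hx y hy
  have key : ∀ b, Relation.ReflTransGen (fun x y => GAdj S (gEnds ends vl) x y ∧ x ∈ U ∧ y ∈ U)
      (some x) b → ∀ y, b = some y →
      Relation.ReflTransGen (fun x y => GAdj S ends x y ∧ x ∈ real U ∧ y ∈ real U) x y := by
    intro b hb
    induction hb with
    | refl =>
      intro y hy
      rw [Option.some_injective V hy]
    | @tail b c _ hbc ih =>
      intro y hy
      subst hy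
      obtain ⟨⟨e, he, hee⟩, hbU, hcU⟩ := hbc
      cases b with
      | none => exact absurd hbU hn
      | some b => exact Relation.ReflTransGen.tail (ih b rfl) ⟨⟨e, he, gEnds_some hee⟩, hbU, hcU⟩
  exact key _ (hU _ hx _ hy) y rfl

/-- The rank of the ground. -/
lemma ground_rank [M.Finite] (hF : FrmU M S ends u)
    (hvl : ∀ e ∈ S, ∀ v, vl e = some v → ends e = s(v, v)) {Z : Set (Option V)} (hZf : Z.Finite)
    (hZc : VConn S (gEnds ends vl) Z) :
    (real Z).ncard ≤ BIC.rk M (ins S ends (real Z)) + 1 := by
  classical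
  have hf := real_finite hZf
  have key : ∀ n, 1 ≤ n → n ≤ (real Z).ncard → ∃ Y ⊆ real Z, Y.ncard = n ∧
      n ≤ BIC.rk M (ins S ends Y) + 1 := by
    intro n
    induction n with
    | zero => intro h; omega
    | succ n ih =>
      intro _ hn
      rcases Nat.eq_zero_or_pos n with h0 | h0
      · subst h0
        have hne : (real Z).Nonempty := by
          rw [← Set.ncard_pos hf]; omega
        obtain ⟨z, hz⟩ := hne
        exact ⟨{z}, singleton_subset_iff.2 hz, by simp, by omega⟩
      · obtain ⟨Y, hY, hYn, hYr⟩ := ih h0 (by omega)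
        have hYf : Y.Finite := hf.subset hY
        obtain ⟨v, hv, hvY⟩ : ∃ v ∈ real Z, v ∉ Y := by
          by_contra hcon
          push Not at hcon
          have := Set.ncard_le_ncard hcon hYf
          omega
        obtain ⟨z, hz⟩ : Y.Nonempty := by
          rw [← Set.ncard_pos hYf]; omega
        obtain ⟨x, hx, y, hy, ⟨⟨e, heS, hee⟩, hxZ, hyZ⟩⟩ :=
          exit (R := insert none (some '' Y)) (hZc (some z) (hY hz) (some v) hv)
            (Or.inr ⟨z, hz, rfl⟩) (by
              rintro (h | ⟨a, ha, h⟩)
              · exact absurd h (by simp)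
              · rw [Option.some_injective V h] at ha
                exact hvY ha)
        cases y with
        | none => exact absurd (Or.inl rfl) hy
        | some y =>
          have hyY : y ∉ Y := fun h => hy (Or.inr ⟨y, h, rfl⟩)
          have hey : y ∈ ends e ∧ ∀ a ∈ ends e, a = y ∨ a ∈ Y := by
            rcases hx with rfl | ⟨a, ha, rfl⟩
            · rw [Sym2.eq_swap] at hee
              rw [hvl e heS y (gEnds_none hee)]
              refine ⟨by simp, fun a ha => ?_⟩
              simp only [Sym2.mem_iff, or_self] at ha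
              exact Or.inl ha
            · rw [gEnds_some hee]
              refine ⟨by simp, fun b hb => ?_⟩
              rcases Sym2.mem_iff.1 hb with rfl | rfl
              · exact Or.inr ha
              · exact Or.inl rfl
          refine ⟨insert y Y, insert_subset hyZ hY, ?_, ?_⟩
          · rw [ncard_insert_of_notMem hyY hYf, hYn]
          · obtain ⟨K, hK⟩ := M.exists_isBasis (ins S ends Y) (fun e he => hF.sub he.1)
            have hKf : K.Finite := M.ground_finite.subset hK.indep.subset_ground
            have hKr : BIC.rk M (ins S ends Y) = K.ncard := by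
              have h3 := hK.eRk_eq_encard
              rw [← cast_rk, ← hKf.cast_ncard_eq] at h3
              exact_mod_cast h3
            have hKy : ∀ g ∈ K, y ∉ ends g := fun g hg h => hyY ((hK.subset hg).2 y h)
            have h1 := hF.leaf hK.indep (fun g hg => (hK.subset hg).1) hKy heS hey.1
            have h2 : e ∉ K := fun h => hKy e h hey.1
            have h3 := rk_indep h1
            rw [ncard_insert_of_notMem h2 hKf] at h3
            have h4 : BIC.rk M (insert e K) ≤ BIC.rk M (ins S ends (insert y Y)) := by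
              refine rk_mono M (insert_subset ⟨heS, hey.2⟩ ?_)
              exact hK.subset.trans (ins_mono (subset_insert _ _))
            omega
  rcases Nat.eq_zero_or_pos (real Z).ncard with h0 | h0
  · omega
  · obtain ⟨Y, hY, hYn, hYr⟩ := key _ h0 le_rfl
    have : Y = real Z := Set.eq_of_subset_of_ncard_le hY (by omega) hf
    rw [← this, hYn]
    exact hYr

/-- **From a grid model in the graph with a ground to the grid with joints.** -/
theorem gmz_jgrid [M.Finite] (hF : FrmU M S ends u)
    (hvl : ∀ e ∈ S, ∀ v, vl e = some v → ends e = s(v, v)) {w : ℕ} (hw : 1 ≤ w)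
    (h : GmZ S (gEnds ends vl) (2 * ((u + 2) * w))) :
    ∃ (C S' : Set α) (j : ℕ × ℕ → α) (ed : ℕ × ℕ → ℕ × ℕ → α), C ⊆ S ∧ S' ⊆ S ∧ Disjoint C S' ∧
      M.Indep (C ∪ j '' Cl w) ∧ JGrid (M ／ C) S' w j ed := by
  classical
  obtain ⟨U, Z, hZf, hZc, hUf, hUc, hUd, hUZ, hadj, hadjZ⟩ := h
  obtain ⟨n, hn⟩ : ∃ n, n = (u + 2) * w := ⟨_, rfl⟩
  rw [← hn] at hUf hUc hUd hUZ hadj hadjZ
  have hn0 : 1 ≤ n := by
    rw [hn]
    exact Nat.mul_pos (by omega) (by omega)
  -- a half which avoids the ground vertex
  obtain ⟨o, ho, hno⟩ : ∃ o, o ≤ n ∧ ∀ c ∈ Cl n, none ∉ U (o + c.1, c.2) := by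
    by_cases hex : ∃ c ∈ Cl (2 * n), none ∈ U c
    · obtain ⟨c₀, hc₀, hnc⟩ := hex
      have key : ∀ c ∈ Cl (2 * n), none ∈ U c → c = c₀ := by
        intro c hc h
        by_contra hne
        exact Set.disjoint_left.1 (hUd c hc c₀ hc₀ hne) h hnc
      by_cases h1 : c₀.1 < n
      · refine ⟨n, le_rfl, fun c hc h => ?_⟩
        have h2 := key (n + c.1, c.2) ⟨by have := hc.1; simp only; omega,
          by have := hc.2; simp only; omega⟩ h
        rw [← h2] at h1
        simp only at h1
        omega
      · refine ⟨0, by omega, fun c hc h => ?_⟩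
        have h2 := key (0 + c.1, c.2) ⟨by have := hc.1; simp only; omega,
          by have := hc.2; simp only; omega⟩ h
        rw [← h2] at h1
        simp only at h1
        have := hc.1
        omega
    · push Not at hex
      refine ⟨0, by omega, fun c hc => hex _ ⟨by have := hc.1; simp only; omega,
        by have := hc.2; simp only; omega⟩⟩
  have hCl : ∀ c ∈ Cl n, (o + c.1, c.2) ∈ Cl (2 * n) := fun c hc =>
    ⟨by have := hc.1; simp only; omega, by have := hc.2; simp only; omega⟩
  have hNb : ∀ c c', Nb n c c' → Nb (2 * n) (o + c.1, c.2) (o + c'.1, c'.2) := by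
    intro c c' h
    refine ⟨hCl c h.1, hCl c' h.2.1, ?_⟩
    have := h.2.2
    simp only
    omega
  have hUZ' : ∀ c ∈ Cl n, Disjoint (real (U (o + c.1, c.2))) (real Z) := by
    intro c hc
    rw [Set.disjoint_left]
    intro v hv hv'
    exact Set.disjoint_left.1 (hUZ _ (hCl c hc)) hv hv'
  have hcell : ∀ c : ℕ × ℕ, ∃ x : Set α × α × V, c ∈ Cl n →
      Cell S ends (real Z) (real (U (o + c.1, c.2))) x.1 x.2.1 x.2.2 := by
    intro c
    have key : ∀ c ∈ Cl n, ∃ x : Set α × α × V,
        Cell S ends (real Z) (real (U (o + c.1, c.2))) x.1 x.2.1 x.2.2 := by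
      intro c hc
      obtain ⟨e, he, x, hx, z, hz, hxz⟩ := hadjZ _ (hCl c hc)
      cases x with
      | none => exact absurd hx (hno c hc)
      | some a =>
        have haU : a ∈ real (U (o + c.1, c.2)) := hx
        have hf := real_finite (hUf _ (hCl c hc))
        obtain ⟨E, _, _, _, h4, _⟩ := grow hf (singleton_subset_iff.2 haU)
          (singleton_nonempty _) (vconn_real (hUc _ (hCl c hc)) (hno c hc))
        refine ⟨(_, e, a), ⟨hf, h4 ∅ (Arb.single _), he, haU, ?_, ?_, hUZ' c hc⟩⟩
        · cases z with
          | none => rw [hvl e he a (gEnds_none hxz)]; simp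
          | some b => rw [gEnds_some hxz]; simp
        · intro v hv
          cases z with
          | none =>
            rw [hvl e he a (gEnds_none hxz)] at hv
            simp only [Sym2.mem_iff, or_self] at hv
            exact Or.inl hv
          | some b =>
            rw [gEnds_some hxz] at hv
            rcases Sym2.mem_iff.1 hv with rfl | rfl
            · exact Or.inl rfl
            · exact Or.inr hz
    by_cases hc : c ∈ Cl n
    · obtain ⟨x, hx⟩ := key c hc
      exact ⟨x, fun _ => hx⟩
    · obtain ⟨x, _⟩ := key (0, 0) ⟨hn0, hn0⟩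
      exact ⟨x, fun h => absurd h hc⟩
  choose x hx using hcell
  subst hn
  obtain ⟨i, _, C, S', ed, h1, h2, h3, h4, h5⟩ := jgrid_cells hF
    (U := fun c => real (U (o + c.1, c.2))) (Z := real Z) (τ := fun c => (x c).1)
    (j := fun c => (x c).2.1) (a := fun c => (x c).2.2) (w := w) (real_finite hZf)
    (ground_rank hF hvl hZf hZc) hx (by
      intro c hc c' hc' hne
      rw [Set.disjoint_left]
      intro v hv hv'
      refine Set.disjoint_left.1 (hUd _ (hCl c hc) _ (hCl c' hc') ?_) hv hv'
      intro h
      simp only [Prod.mk.injEq] at h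
      exact hne (Prod.ext (by omega) h.2)) (by
      intro c c' h
      obtain ⟨e, he, p, hp, q, hq, hpq⟩ := hadj _ _ (hNb c c' h)
      cases p with
      | none => exact absurd hp (hno c h.1)
      | some p =>
        cases q with
        | none => exact absurd hq (hno c' h.2.1)
        | some q => exact ⟨e, he, p, hp, q, hq, gEnds_some hpq⟩)
  exact ⟨C, S', _, ed, h1, h2, h3, h4, h5⟩

/-- No loops. -/
theorem gmz_jgrid' [M.Finite] (hF : FrmU M S ends u) {w : ℕ} (hw : 1 ≤ w)
    (h : GmZ S ends (2 * ((u + 2) * w))) :
    ∃ (C S' : Set α) (j : ℕ × ℕ → α) (ed : ℕ × ℕ → ℕ × ℕ → α), C ⊆ S ∧ S' ⊆ S ∧ Disjoint C S' ∧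
      M.Indep (C ∪ j '' Cl w) ∧ JGrid (M ／ C) S' w j ed := by
  refine gmz_jgrid (vl := fun _ => none) hF (fun e _ v h => absurd h (by simp)) hw ?_
  obtain ⟨U, Z, hZf, hZc, hUf, hUc, hUd, hUZ, hadj, hadjZ⟩ := h
  have hE : ∀ e, gEnds ends (fun _ => none) e = (ends e).map some := fun e => rfl
  have hV : ∀ A : Set V, VConn S ends A → VConn S (gEnds ends (fun _ => none)) (some '' A) := by
    rintro A hA _ ⟨x, hx, rfl⟩ _ ⟨y, hy, rfl⟩
    have := hA x hx y hy
    induction this with
    | refl => exact Relation.ReflTransGen.refl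
    | tail _ hbc ih =>
      obtain ⟨⟨e, he, hee⟩, h1, h2⟩ := hbc
      exact Relation.ReflTransGen.tail (ih h1) ⟨⟨e, he, by rw [hE, hee, Sym2.map_mk]⟩,
        ⟨_, h1, rfl⟩, ⟨_, h2, rfl⟩⟩
  have hL : ∀ A B : Set V, Lnk S ends A B → Lnk S (gEnds ends (fun _ => none)) (some '' A)
      (some '' B) := by
    rintro A B ⟨e, he, a, ha, b, hb, hab⟩
    exact ⟨e, he, _, ⟨a, ha, rfl⟩, _, ⟨b, hb, rfl⟩, by rw [hE, hab, Sym2.map_mk]⟩
  have hD : ∀ A B : Set V, Disjoint A B → Disjoint (some '' A : Set (Option V)) (some '' B) :=
    fun A B h => (Set.disjoint_image_iff (Option.some_injective V)).2 h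
  exact ⟨fun c => some '' U c, some '' Z, hZf.image _, hV _ hZc, fun c hc => (hUf c hc).image _,
    fun c hc => hV _ (hUc c hc), fun c hc c' hc' hne => hD _ _ (hUd c hc c' hc' hne),
    fun c hc => hD _ _ (hUZ c hc), fun c c' h => hL _ _ (hadj c c' h),
    fun c hc => hL _ _ (hadjZ c hc)⟩

end

end EN
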