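import Pool.Agent.EN.Ground2
import Pool.Agent.BICS.Base

/-!
# Many disjoint parts: one of them is exact modulo the previous ones (helper57)

`FrmU M S ends u`, `u` arbitrary.  Among `u + 1` disjoint growable vertex sets `W 0, .., W u` there
is one, `W r`, such that contracting everything inside `W 0 ∪ .. ∪ W (r - 1)` leaves an exact frame
on `W r`.
-/

open Set
open scoped Matroid

namespace EN

open BIC BICS Gad

variable {α V : Type*}

section

variable {M : Matroid α} {S : Set α} {ends : α → Sym2 V} {vl : α → Option V} {u : ℕ}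

/-- From every non-empty part the whole set is reached, vertex by vertex. -/
def Growable (S : Set α) (ends : α → Sym2 V) (W : Set V) : Prop :=
  ∀ Y ⊆ W, Y.Nonempty → Y ≠ W → ∃ v ∈ W, v ∉ Y ∧ ∃ e ∈ S, v ∈ ends e ∧
    ∀ x ∈ ends e, x = v ∨ x ∈ Y

lemma growable_of_vconn {W : Set V} (h : VConn S ends W) : Growable S ends W := by
  intro Y hY hne hYW
  obtain ⟨y, hy⟩ := hne
  obtain ⟨v, hv, hvY⟩ : ∃ v ∈ W, v ∉ Y := by
    by_contra hcon
    push Not at hcon
    exact hYW (Subset.antisymm hY hcon)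
  obtain ⟨a, ha, b, hb, ⟨⟨e, he, hee⟩, haW, hbW⟩⟩ := exit (R := Y) (h y (hY hy) v hv) hy hvY
  refine ⟨b, hbW, hb, e, he, by rw [hee]; simp, fun x hx => ?_⟩
  rw [hee] at hx
  rcases Sym2.mem_iff.1 hx with rfl | rfl
  · exact Or.inr ha
  · exact Or.inl rfl

/-- Connected in the graph with a ground vertex. -/
lemma growable_of_ground (hvl : ∀ e ∈ S, ∀ v, vl e = some v → ends e = s(v, v))
    {Z : Set (Option V)} (h : VConn S (gEnds ends vl) Z) : Growable S ends (real Z) := by
  intro Y hY hne hYW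
  obtain ⟨y, hy⟩ := hne
  obtain ⟨v, hv, hvY⟩ : ∃ v ∈ real Z, v ∉ Y := by
    by_contra hcon
    push Not at hcon
    exact hYW (Subset.antisymm hY hcon)
  obtain ⟨x, hx, z, hz, ⟨⟨e, heS, hee⟩, hxZ, hzZ⟩⟩ :=
    exit (R := insert none (some '' Y)) (h (some y) (hY hy) (some v) hv)
      (Or.inr ⟨y, hy, rfl⟩) (by
        rintro (h | ⟨a, ha, h⟩)
        · exact absurd h (by simp)
        · rw [Option.some_injective V h] at ha
          exact hvY ha)
  cases z with
  | none => exact absurd (Or.inl rfl) hz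
  | some z =>
    refine ⟨z, hzZ, fun h => hz (Or.inr ⟨z, h, rfl⟩), e, heS, ?_⟩
    rcases hx with rfl | ⟨a, ha, rfl⟩
    · rw [Sym2.eq_swap] at hee
      rw [hvl e heS z (gEnds_none hee)]
      refine ⟨by simp, fun a ha => ?_⟩
      simp only [Sym2.mem_iff, or_self] at ha
      exact Or.inl ha
    · rw [gEnds_some hee]
      refine ⟨by simp, fun b hb => ?_⟩
      rcases Sym2.mem_iff.1 hb with rfl | rfl
      · exact Or.inr ha
      · exact Or.inl rfl

/-- One more vertex. -/
lemma FrmU.rk_add [M.Finite] (hF : FrmU M S ends u) {X : Set α} (hX : X ⊆ S) {v : V}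
    (hv : ∀ e ∈ X, v ∉ ends e) {f : α} (hf : f ∈ S) (hfv : v ∈ ends f) :
    BIC.rk M X + 1 ≤ BIC.rk M (insert f X) := by
  obtain ⟨K, hK⟩ := M.exists_isBasis X (hX.trans hF.sub)
  have hKf : K.Finite := M.ground_finite.subset hK.indep.subset_ground
  have hKr : BIC.rk M X = K.ncard := by
    have h3 := hK.eRk_eq_encard
    rw [← cast_rk, ← hKf.cast_ncard_eq] at h3
    exact_mod_cast h3
  have hKv : ∀ g ∈ K, v ∉ ends g := fun g hg => hv g (hK.subset hg)
  have h1 := hF.leaf hK.indep (hK.subset.trans hX) hKv hf hfv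
  have h2 : f ∉ K := fun h => hKv f h hfv
  have h3 := rk_indep h1
  rw [ncard_insert_of_notMem h2 hKf] at h3
  rw [hKr, ← h3]
  exact rk_mono M (insert_subset_insert hK.subset)

/-- Growing a part of a growable set over a set of elements which does not touch it. -/
lemma FrmU.grow_part [M.Finite] (hF : FrmU M S ends u) {W : Set V} (hWf : W.Finite)
    (hW : Growable S ends W) {A : Set α} (hA : A ⊆ S) (hAW : ∀ e ∈ A, ∀ v ∈ ends e, v ∉ W) :
    ∀ (n : ℕ) (Y : Set V), (W \ Y).ncard = n → Y ⊆ W → Y.Nonempty →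
      BIC.rk M (A ∪ ins S ends Y) + n ≤ BIC.rk M (A ∪ ins S ends W) := by
  intro n
  induction n with
  | zero =>
    intro Y hn hY _
    have h0 : W \ Y = ∅ := (ncard_eq_zero (hWf.subset sdiff_subset)).1 hn
    have h1 : Y = W := Subset.antisymm hY (sdiff_eq_empty.1 h0)
    rw [h1]
    omega
  | succ n ih =>
    intro Y hn hY hne
    have hYW : Y ≠ W := by
      rintro rfl
      simp at hn
    obtain ⟨v, hvW, hvY, e, he, hve, hex⟩ := hW Y hY hne hYW
    have h1 := ih (insert v Y) (by
      have e1 : W \ insert v Y = (W \ Y) \ {v} := by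
        ext x
        simp only [mem_sdiff, mem_insert_iff, mem_singleton_iff]
        tauto
      rw [e1, ncard_sdiff_singleton_of_mem (show v ∈ W \ Y from ⟨hvW, hvY⟩)]
      omega) (insert_subset hvW hY) ⟨v, Or.inl rfl⟩
    have h2 := hF.rk_add (X := A ∪ ins S ends Y) (union_subset hA (fun x hx => hx.1)) (v := v)
      (by
        rintro x (hx | hx) hvx
        · exact hAW x hx v hvx hvW
        · exact hvY (hx.2 v hvx)) he hve
    have h3 : BIC.rk M (insert e (A ∪ ins S ends Y)) ≤
        BIC.rk M (A ∪ ins S ends (insert v Y)) := by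
      refine rk_mono M (insert_subset (Or.inr ⟨he, fun x hx => ?_⟩) ?_)
      · rcases hex x hx with rfl | h
        · exact Or.inl rfl
        · exact Or.inr h
      · exact union_subset_union_right _ (ins_mono (subset_insert _ _))
    omega

/-- **One of many disjoint parts is exact.** -/
theorem FrmU.exact_part [M.Finite] (hF : FrmU M S ends u) (W : ℕ → Set V)
    (hWf : ∀ r ≤ u, (W r).Finite) (hW : ∀ r ≤ u, Growable S ends (W r))
    (hd : ∀ r ≤ u, ∀ r' ≤ u, r ≠ r' → Disjoint (W r) (W r')) :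
    ∃ r ≤ u, FrmU (M ／ ins S ends (⋃ i ∈ Finset.range r, W i)) (ins S ends (W r)) ends 0 := by
  classical
  obtain ⟨A, hA⟩ : ∃ A : ℕ → Set V, ∀ r, A r = ⋃ i ∈ Finset.range r, W i := ⟨_, fun _ => rfl⟩
  have hmA : ∀ r v, v ∈ A r ↔ ∃ i < r, v ∈ W i := by
    intro r v
    rw [hA]
    simp only [mem_iUnion, Finset.mem_range, exists_prop]
  have hAs : ∀ r, A (r + 1) = A r ∪ W r := by
    intro r
    ext v
    rw [mem_union, hmA, hmA]
    constructor
    · rintro ⟨i, hi, h⟩
      rcases Nat.lt_succ_iff_lt_or_eq.1 hi with h1 | h1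
      · exact Or.inl ⟨i, h1, h⟩
      · subst h1
        exact Or.inr h
    · rintro (⟨i, hi, h⟩ | h)
      · exact ⟨i, by omega, h⟩
      · exact ⟨r, by omega, h⟩
  have hAf : ∀ r ≤ u + 1, (A r).Finite := by
    intro r hr
    rw [hA]
    exact Set.Finite.biUnion (Finset.finite_toSet _) fun i hi =>
      hWf i (by rw [Finset.mem_coe, Finset.mem_range] at hi; omega)
  have hAW : ∀ r ≤ u, Disjoint (A r) (W r) := by
    intro r hr
    rw [Set.disjoint_left]
    intro v hv hv'
    obtain ⟨i, hi, h⟩ := (hmA r v).1 hv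
    exact Set.disjoint_left.1 (hd i (by omega) r hr (by omega)) h hv'
  obtain ⟨r, hr, hex⟩ : ∃ r ≤ u, BIC.rk M (ins S ends (A (r + 1))) ≤
      BIC.rk M (ins S ends (A r)) + (W r).ncard := by
    by_contra hcon
    push Not at hcon
    have key : ∀ r ≤ u + 1, (A r).ncard + r ≤ BIC.rk M (ins S ends (A r)) := by
      intro r
      induction r with
      | zero =>
        intro _
        rw [hA]
        simp
      | succ r ih =>
        intro hr
        have h1 := ih (by omega)
        have h2 := hcon r (by omega)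
        have h3 : (A (r + 1)).ncard = (A r).ncard + (W r).ncard := by
          rw [hAs, ncard_union_eq (hAW r (by omega)) (hAf r (by omega)) (hWf r (by omega))]
        omega
    have h1 := key (u + 1) le_rfl
    have h2 := hF.rk (A (u + 1)) (hAf _ le_rfl)
    omega
  refine ⟨r, hr, ?_⟩
  rw [← hA]
  have hAE : ins S ends (A r) ⊆ M.E := fun e he => hF.sub he.1
  have hdis : Disjoint (ins S ends (W r)) (ins S ends (A r)) := ins_disj (hAW r hr).symm
  have hins : ∀ Y, ins (ins S ends (W r)) ends Y ⊆ ins S ends (W r ∩ Y) :=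
    fun Y e he => ⟨he.1.1, fun v hv => ⟨he.1.2 v hv, he.2 v hv⟩⟩
  have hfc : (M ／ ins S ends (A r)).Finite := ⟨M.ground_finite.subset sdiff_subset⟩
  refine ⟨?_, ?_, ?_⟩
  · rw [Matroid.contract_ground]
    exact fun e he => ⟨hF.sub he.1, Set.disjoint_left.1 hdis he⟩
  · intro v e he hv hcl
    rw [Matroid.contract_closure_eq] at hcl
    refine hF.star v e he.1 hv (M.closure_subset_closure ?_ hcl.1)
    rintro x (hx | hx)
    · exact ⟨hx.1.1, hx.2⟩
    · refine ⟨hx.1, fun w hw => ?_⟩
      rintro rfl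
      exact Set.disjoint_left.1 (hAW r hr) (hx.2 w hw) (he.2 w hv)
  · intro Y hYf
    rw [Nat.add_zero]
    rcases (W r ∩ Y).eq_empty_or_nonempty with h0 | h0
    · have h1 : ins (ins S ends (W r)) ends Y ⊆ ∅ := by
        intro e he
        obtain ⟨v, hv⟩ := exists_mem_ends ends e
        have : v ∈ W r ∩ Y := (hins Y he).2 v hv
        rw [h0] at this
        exact this.elim
      have h2 : BIC.rk (M ／ ins S ends (A r)) (ins (ins S ends (W r)) ends Y) ≤
          (∅ : Set α).ncard := (rk_mono _ h1).trans (rk_le_ncard _ finite_empty)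
      rw [ncard_empty] at h2
      omega
    · have h1 := hF.grow_part (hWf r hr) (hW r hr) (A := ins S ends (A r)) (fun e he => he.1)
        (fun e he v hv hvW => Set.disjoint_left.1 (hAW r hr) (he.2 v hv) hvW) _ (W r ∩ Y) rfl
        inter_subset_left h0
      have h2 : BIC.rk M (ins S ends (A r) ∪ ins S ends (W r)) ≤
          BIC.rk M (ins S ends (A (r + 1))) := by
        refine rk_mono M ?_
        rw [hAs]
        exact union_subset (ins_mono subset_union_left) (ins_mono subset_union_right)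
      have h3 : (W r \ (W r ∩ Y)).ncard + (W r ∩ Y).ncard = (W r).ncard :=
        Set.ncard_sdiff_add_ncard_of_subset inter_subset_left (hWf r hr)
      have h4 : ins S ends (W r ∩ Y) ⊆ M.E \ ins S ends (A r) := fun e he =>
        ⟨hF.sub he.1, Set.disjoint_left.1 hdis ⟨he.1, fun v hv => (he.2 v hv).1⟩⟩
      have h5 := rk_contract_set (M := M) hAE (X := ins S ends (W r ∩ Y)) h4
      have h6 : BIC.rk (M ／ ins S ends (A r)) (ins (ins S ends (W r)) ends Y) ≤
          BIC.rk (M ／ ins S ends (A r)) (ins S ends (W r ∩ Y)) := rk_mono _ (hins Y)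
      have h7 : (W r ∩ Y).ncard ≤ Y.ncard := Set.ncard_le_ncard inter_subset_right hYf
      rw [union_comm] at h1
      omega

lemma rk_contract_basis [M.Finite] {A K X : Set α} (hK : M.IsBasis K A) (hX : X ⊆ M.E \ A) :
    BIC.rk (M ／ A) X = BIC.rk (M ／ K) X := by
  have hKA : K ⊆ A := hK.subset
  have h1 := rk_contract_set (M := M) (C := A) hK.subset_ground hX
  have h2 := rk_contract_set (M := M) (C := K) (hKA.trans hK.subset_ground) (X := X)
    (hX.trans (sdiff_subset_sdiff_right hKA))
  have h3 : BIC.rk M A = BIC.rk M K := by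
    have := hK.eRk_eq_eRk
    rw [← cast_rk, ← cast_rk] at this
    exact_mod_cast this.symm
  have h4 : BIC.rk M (X ∪ A) = BIC.rk M (X ∪ K) := by
    have : M.closure (X ∪ A) = M.closure (X ∪ K) := by
      rw [← M.closure_union_closure_right_eq X A, ← hK.closure_eq_closure,
        M.closure_union_closure_right_eq]
    have h5 : M.eRk (X ∪ A) = M.eRk (X ∪ K) := by
      rw [← M.eRk_closure_eq, this, M.eRk_closure_eq]
    rw [← cast_rk, ← cast_rk] at h5
    exact_mod_cast h5
  omega

/-- **Many disjoint pictures.** `FrmU M S ends u`, `u` arbitrary; `u + 1` disjoint growable sets of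
vertices, every one of which carries a grid model (in the graph with a ground vertex). -/
theorem jgrid_pics [M.Finite] (hF : FrmU M S ends u)
    (hvl : ∀ e ∈ S, ∀ v, vl e = some v → ends e = s(v, v)) {w : ℕ} (hw : 1 ≤ w) (W : ℕ → Set V)
    (hWf : ∀ r ≤ u, (W r).Finite) (hW : ∀ r ≤ u, Growable S ends (W r))
    (hd : ∀ r ≤ u, ∀ r' ≤ u, r ≠ r' → Disjoint (W r) (W r'))
    (h : ∀ r ≤ u, GmZ (ins S ends (W r)) (gEnds ends vl) (4 * w)) :
    ∃ (C S' : Set α) (j : ℕ × ℕ → α) (ed : ℕ × ℕ → ℕ × ℕ → α), C ⊆ S ∧ S' ⊆ S ∧ Disjoint C S' ∧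
      M.Indep (C ∪ j '' Cl w) ∧ JGrid (M ／ C) S' w j ed := by
  obtain ⟨r, hr, hex⟩ := hF.exact_part W hWf hW hd
  set A : Set V := ⋃ i ∈ Finset.range r, W i with hA
  have hAW : Disjoint A (W r) := by
    rw [hA, Set.disjoint_iUnion₂_left]
    intro i hi
    rw [Finset.mem_range] at hi
    exact hd i (by omega) r hr (by omega)
  have hAE : ins S ends A ⊆ M.E := fun e he => hF.sub he.1
  have hdis : Disjoint (ins S ends (W r)) (ins S ends A) := ins_disj hAW.symm
  obtain ⟨K, hK⟩ := M.exists_isBasis (ins S ends A) hAE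
  have hfK : (M ／ K).Finite := ⟨M.ground_finite.subset sdiff_subset⟩
  have hKA : K ⊆ ins S ends A := hK.subset
  have hsub : ins S ends (W r) ⊆ M.E \ ins S ends A := fun e he =>
    ⟨hF.sub he.1, Set.disjoint_left.1 hdis he⟩
  have hins : ∀ Y, ins (ins S ends (W r)) ends Y ⊆ ins S ends (W r) := fun Y e he => he.1
  -- the frame over the basis
  have hF0 : FrmU (M ／ K) (ins S ends (W r)) ends 0 := by
    refine ⟨?_, ?_, ?_⟩
    · rw [Matroid.contract_ground]
      exact fun e he => ⟨hF.sub he.1, fun h => Set.disjoint_left.1 hdis he (hKA h)⟩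
    · intro v e he hv hcl
      rw [Matroid.contract_closure_eq] at hcl
      refine hF.star v e he.1 hv (M.closure_subset_closure ?_ hcl.1)
      rintro x (hx | hx)
      · exact ⟨hx.1.1, hx.2⟩
      · refine ⟨(hKA hx).1, fun w hw => ?_⟩
        rintro rfl
        exact Set.disjoint_left.1 hAW ((hKA hx).2 w hw) (he.2 w hv)
    · intro Y hY
      have h1 := hex.rk Y hY
      rwa [rk_contract_basis hK ((hins Y).trans hsub)] at h1
  obtain ⟨C, S', j, ed, h1, h2, h3, h4, h5⟩ := gmz_jgrid hF0 (fun e he v hv => hvl e he.1 v hv) hw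
    (by have := h r hr; rwa [show 2 * ((0 + 2) * w) = 4 * w by ring])
  have hKC : Disjoint K C := by
    rw [Set.disjoint_left]
    intro e he he'
    exact Set.disjoint_left.1 hdis (h1 he') (hKA he)
  have hj : ∀ c ∈ Cl w, j c ∈ S' := by
    intro c hc
    exact h5.basis.subset ⟨c, hc, rfl⟩
  refine ⟨K ∪ C, S', j, ed, union_subset (hKA.trans fun e he => he.1)
    (h1.trans fun e he => he.1), h2.trans fun e he => he.1, ?_, ?_, ?_⟩
  · rw [Set.disjoint_union_left]
    refine ⟨?_, h3⟩
    rw [Set.disjoint_left]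
    intro e he he'
    exact Set.disjoint_left.1 hdis (h2 he') (hKA he)
  · rw [hK.indep.contract_indep_iff] at h4
    have e1 : K ∪ C ∪ j '' Cl w = C ∪ j '' Cl w ∪ K := by
      rw [union_assoc, union_comm]
    rw [e1]
    exact h4.2
  · rw [← Matroid.contract_contract]
    exact h5

end

end EN
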