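import Pool.Agent.EN.Sys

/-!
# A pattern of large multiplicity is cut into groups (row SUB), part 1

Restriction of a system to a set of ports and to virtual shores (`rst`), transport of ports (`Tr`).
-/

namespace EN

set_option maxHeartbeats 1000000

namespace Sys

variable {κ κ' : Type*}

/-- The shores are in order. -/
def Mono (Y : Sys κ) : Prop := ∀ x y, x ≤ y → y < Y.L → Y.sh x ≤ Y.sh y

/-- `Y'` is the restriction of `Y` to the ports `T`, to the connectors `K`, with the virtual shores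
`pl`; `ρ` is the shore of a virtual shore. -/
structure Grp (Y : Sys κ) (T : ℕ → Prop) (pl ρ : ℕ → ℕ) (K : Set κ) (Y' : Sys K) (e ι : ℕ → ℕ) :
    Prop where
  e_lt : ∀ i < Y'.L, e i < Y.L ∧ T (e i)
  e_inc : ∀ i j, i < j → j < Y'.L → e i < e j
  ι_lt : ∀ x, T x → ι x < Y'.L ∧ e (ι x) = x
  sh : ∀ i < Y'.L, Y'.sh i = pl (e i)
  ρsh : ∀ i < Y'.L, Y.sh (e i) = ρ (Y'.sh i)
  own : ∀ i < Y'.L, (Y'.own i : κ) = Y.own (e i)
  ct : ∀ k k', Y'.ct k k' ↔ Y.ct k k'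
  gr : ∀ k, Y'.gr k ↔ Y.gr k
  K : ∀ k ∈ K, ∃ x, T x ∧ Y.own x = k

/-- Restriction to a set of ports. -/
theorem exists_grp (Y : Sys κ) (T : ℕ → Prop) (hT : ∀ x, T x → x < Y.L) (hT0 : ∃ x, T x)
    (pl ρ : ℕ → ℕ) (hρ : ∀ x, T x → Y.sh x = ρ (pl x)) :
    ∃ (K : Set κ) (Y' : Sys K) (e ι : ℕ → ℕ), Grp Y T pl ρ K Y' e ι := by
  classical
  set F : Finset ℕ := (Finset.range Y.L).filter T with hF
  have hFT : ∀ x, x ∈ F ↔ T x := by
    intro x
    rw [hF, Finset.mem_filter, Finset.mem_range]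
    exact ⟨fun h => h.2, fun h => ⟨hT x h, h⟩⟩
  set E := F.orderIsoOfFin rfl with hE
  obtain ⟨x₀, hx₀⟩ := hT0
  set K : Set κ := {k | ∃ x, T x ∧ Y.own x = k} with hK
  set e : ℕ → ℕ := fun i => if h : i < F.card then (E ⟨i, h⟩ : ℕ) else x₀ with he
  have heT : ∀ i, T (e i) := by
    intro i
    simp only [he]
    split
    · exact (hFT _).1 (E _).2
    · exact hx₀
  set ι : ℕ → ℕ := fun x => if h : x ∈ F then ((E.symm ⟨x, h⟩ : Fin F.card) : ℕ) else 0 with hι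
  refine ⟨K, ⟨F.card, Y.R, fun i => pl (e i), fun i => ⟨Y.own (e i), e i, heT i, rfl⟩,
    fun k k' => Y.ct k k', fun k => Y.gr k⟩, e, ι, ?_⟩
  refine ⟨fun i _ => ⟨hT _ (heT i), heT i⟩, ?_, ?_, fun _ _ => rfl, fun i _ => hρ _ (heT i),
    fun _ _ => rfl, fun _ _ => Iff.rfl, fun _ => Iff.rfl, fun k hk => hk⟩
  · intro i j hij hj
    simp only at hj
    simp only [he, dif_pos hj, dif_pos (show i < F.card by omega)]
    exact E.strictMono (by simpa using hij)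
  · intro x hx
    have hxF := (hFT x).2 hx
    simp only [hι, dif_pos hxF]
    refine ⟨(E.symm ⟨x, hxF⟩).2, ?_⟩
    simp only [he, dif_pos (E.symm ⟨x, hxF⟩).2, Fin.eta, OrderIso.apply_symm_apply]

/-- Transport of ports. -/
structure Tr (Y : Sys κ) (Y' : Sys κ') (T : ℕ → Prop) (pl : ℕ → ℕ) (ι : ℕ → ℕ) : Prop where
  lt : ∀ x, T x → ι x < Y'.L
  mono : ∀ x y, T x → T y → x < y → ι x < ι y
  sh : ∀ x, T x → Y'.sh (ι x) = pl x
  own : ∀ x y, T x → T y → (Y'.own (ι x) = Y'.own (ι y) ↔ Y.own x = Y.own y)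
  ct : ∀ x y, T x → T y → Y.ct (Y.own x) (Y.own y) → Y'.ct (Y'.own (ι x)) (Y'.own (ι y))
  gr : ∀ x, T x → Y.gr (Y.own x) → Y'.gr (Y'.own (ι x))

lemma Grp.tr {Y : Sys κ} {T : ℕ → Prop} {pl ρ : ℕ → ℕ} {K : Set κ} {Y' : Sys K} {e ι : ℕ → ℕ}
    (h : Grp Y T pl ρ K Y' e ι) : Tr Y Y' T pl ι := by
  have ho : ∀ x, T x → (Y'.own (ι x) : κ) = Y.own x := by
    intro x hx
    rw [h.own _ (h.ι_lt x hx).1, (h.ι_lt x hx).2]
  refine ⟨fun x hx => (h.ι_lt x hx).1, ?_, ?_, ?_, ?_, ?_⟩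
  · intro x y hx hy hxy
    obtain ⟨h1, h2⟩ := h.ι_lt x hx
    obtain ⟨h3, h4⟩ := h.ι_lt y hy
    rcases Nat.lt_trichotomy (ι x) (ι y) with g | g | g
    · exact g
    · rw [g] at h2
      omega
    · have := h.e_inc _ _ g h1
      omega
  · intro x hx
    rw [h.sh _ (h.ι_lt x hx).1, (h.ι_lt x hx).2]
  · intro x y hx hy
    rw [← ho x hx, ← ho y hy]
    exact Subtype.ext_iff
  · intro x y hx hy hc
    rw [h.ct, ho x hx, ho y hy]
    exact hc
  · intro x hx hg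
    rw [h.gr, ho x hx]
    exact hg

namespace Tr

variable {Y : Sys κ} {Y' : Sys κ'} {T : ℕ → Prop} {pl ι : ℕ → ℕ}

lemma lk (h : Tr Y Y' T pl ι) {x y : ℕ} (hx : T x) (hy : T y) (hl : Y.Lk x y) :
    Y'.Lk (ι x) (ι y) := by
  refine ⟨h.lt x hx, h.lt y hy, ?_, ?_⟩
  · rcases Nat.lt_or_gt_of_ne hl.2.2.1 with g | g
    · exact (h.mono x y hx hy g).ne
    · exact (h.mono y x hy hx g).ne'
  · rcases hl.2.2.2 with g | g
    · exact Or.inl ((h.own x y hx hy).2 g)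
    · exact Or.inr (h.ct x y hx hy g)

lemma dj (h : Tr Y Y' T pl ι) {l l' : List ℕ} (hl : ∀ x ∈ l, T x) (hl' : ∀ x ∈ l', T x)
    (hd : Y.Dj l l') : Y'.Dj (l.map ι) (l'.map ι) := by
  intro x hx y hy
  obtain ⟨x', hx', rfl⟩ := List.mem_map.1 hx
  obtain ⟨y', hy', rfl⟩ := List.mem_map.1 hy
  intro e
  exact hd x' hx' y' hy' ((h.own x' y' (hl x' hx') (hl' y' hy')).1 e)

variable {n N g : ℕ}

/-- The block `g` of the times. -/
lemma blk_lt {m i : ℕ} (hg : g < m) (hi : i < N) : g * N + i < m * N := by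
  have h1 : (g + 1) * N ≤ m * N := Nat.mul_le_mul_right N (by omega)
  have h2 : (g + 1) * N = g * N + N := by ring
  omega

lemma dis (h : Tr Y Y' T pl ι) {l : ℕ → List ℕ} (hn : ∀ i < N, g * N + i < n)
    (hl : ∀ i < N, ∀ x ∈ l (g * N + i), T x) (hd : Y.Dis n l) :
    Y'.Dis N (fun i => (l (g * N + i)).map ι) := by
  intro i hi j hj hij
  exact h.dj (hl i hi) (hl j hj) (hd _ (hn i hi) _ (hn j hj) (by omega))

lemma ser (h : Tr Y Y' T pl ι) {l : ℕ → List ℕ} (hn : ∀ i < N, g * N + i < n)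
    (hl : ∀ i < N, ∀ x ∈ l (g * N + i), T x) (hs : Ser n l) :
    Ser N (fun i => (l (g * N + i)).map ι) := by
  intro i j hij hj x hx y hy
  obtain ⟨x', hx', rfl⟩ := List.mem_map.1 hx
  obtain ⟨y', hy', rfl⟩ := List.mem_map.1 hy
  exact h.mono _ _ (hl i (by omega) _ hx') (hl j hj _ hy')
    (hs _ _ (by omega) (hn j hj) _ hx' _ hy')

lemma far (h : Tr Y Y' T pl ι) {l l' : ℕ → List ℕ} (hn : ∀ i < N, g * N + i < n)
    (hl : ∀ i < N, ∀ x ∈ l (g * N + i), T x) (hl' : ∀ i < N, ∀ x ∈ l' (g * N + i), T x)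
    (hs : Far n l l') :
    Far N (fun i => (l (g * N + i)).map ι) (fun i => (l' (g * N + i)).map ι) := by
  rcases hs with hs | hs
  · left
    intro i hi j hj x hx y hy
    obtain ⟨x', hx', rfl⟩ := List.mem_map.1 hx
    obtain ⟨y', hy', rfl⟩ := List.mem_map.1 hy
    exact h.mono _ _ (hl i hi _ hx') (hl' j hj _ hy') (hs _ (hn i hi) _ (hn j hj) _ hx' _ hy')
  · right
    intro i hi j hj x hx y hy
    obtain ⟨x', hx', rfl⟩ := List.mem_map.1 hx
    obtain ⟨y', hy', rfl⟩ := List.mem_map.1 hy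
    exact h.mono _ _ (hl' j hj _ hy') (hl i hi _ hx') (hs _ (hn i hi) _ (hn j hj) _ hx' _ hy')

lemma mon (h : Tr Y Y' T pl ι) {z : ℕ → ℕ} (hn : ∀ i < N, g * N + i < n)
    (hl : ∀ i < N, T (z (g * N + i))) (hs : RamP.Mon n z) :
    RamP.Mon N (fun i => ι (z (g * N + i))) := by
  rcases hs with hs | hs
  · exact Or.inl fun i j hij hj => h.mono _ _ (hl i (by omega)) (hl j hj)
      (hs _ _ (by omega) (hn j hj))
  · exact Or.inr fun i j hij hj => h.mono _ _ (hl j hj) (hl i (by omega))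
      (hs _ _ (by omega) (hn j hj))

lemma onSh (h : Tr Y Y' T pl ι) {l : ℕ → List ℕ} {s : ℕ}
    (hl : ∀ i < N, ∀ x ∈ l (g * N + i), T x ∧ pl x = s) :
    Y'.OnSh N (fun i => (l (g * N + i)).map ι) := by
  refine ⟨s, ?_⟩
  intro i hi x hx
  obtain ⟨x', hx', rfl⟩ := List.mem_map.1 hx
  obtain ⟨h1, h2⟩ := hl i hi x' hx'
  exact ⟨h.lt _ h1, (h.sh _ h1).trans h2⟩

end Tr

end Sys

end EN
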