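import Pool.Agent.EN.Groups

/-!
# A pattern of large multiplicity is cut into groups (row SUB), part 2: transport of the patterns
-/

namespace EN

set_option maxHeartbeats 1000000

namespace Sys

variable {κ κ' : Type*} {Y : Sys κ} {Y' : Sys κ'} {T : ℕ → Prop} {pl ι : ℕ → ℕ} {n N g : ℕ}

namespace Tr

/-- Transport of (A). -/
lemma pA (h : Tr Y Y' T pl ι) (hn : ∀ i < N, g * N + i < n) {x z q : ℕ → ℕ} {s₀ s₁ : ℕ}
    (hp : Y.PA n x z q) (h0 : ∀ i < N, ∀ u ∈ [x (g * N + i), q (g * N + i)], T u ∧ pl u = s₀)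
    (h1 : ∀ i < N, ∀ u ∈ [z (g * N + i)], T u ∧ pl u = s₁) :
    Y'.PA N (fun i => ι (x (g * N + i))) (fun i => ι (z (g * N + i)))
      (fun i => ι (q (g * N + i))) where
  lk i hi := h.lk (h0 i hi _ (by simp)).1 (h1 i hi _ (by simp)).1 (hp.lk _ (hn i hi))
  gr i hi := h.gr _ (h0 i hi _ (by simp)).1 (hp.gr _ (hn i hi))
  ser := h.ser (l := fun i => [x i, q i]) hn (fun i hi u hu => (h0 i hi u hu).1) hp.ser
  mon := h.mon hn (fun i hi => (h1 i hi _ (by simp)).1) hp.mon
  far := h.far (l := fun i => [x i, q i]) (l' := fun i => [z i]) hn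
    (fun i hi u hu => (h0 i hi u hu).1) (fun i hi u hu => (h1 i hi u hu).1) hp.far
  onP := h.onSh (l := fun i => [x i, q i]) h0
  onQ := h.onSh (l := fun i => [z i]) h1
  dis := h.dis (l := fun i => [x i, q i, z i]) hn (by
    intro i hi u hu
    simp only [List.mem_cons, List.not_mem_nil, or_false] at hu
    rcases hu with rfl | rfl | rfl
    · exact (h0 i hi _ (by simp)).1
    · exact (h0 i hi _ (by simp)).1
    · exact (h1 i hi _ (by simp)).1) hp.dis

/-- Transport of (B). -/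
lemma pB (h : Tr Y Y' T pl ι) (hn : ∀ i < N, g * N + i < n) {x z c d : ℕ → ℕ} {s₀ s₁ s₂ : ℕ}
    (hp : Y.PB n x z c d) (h0 : ∀ i < N, ∀ u ∈ [x (g * N + i), c (g * N + i)], T u ∧ pl u = s₀)
    (h1 : ∀ i < N, ∀ u ∈ [z (g * N + i)], T u ∧ pl u = s₁)
    (h2 : ∀ i < N, ∀ u ∈ [d (g * N + i)], T u ∧ pl u = s₂) :
    Y'.PB N (fun i => ι (x (g * N + i))) (fun i => ι (z (g * N + i)))
      (fun i => ι (c (g * N + i))) (fun i => ι (d (g * N + i))) where
  lk i hi := h.lk (h0 i hi _ (by simp)).1 (h1 i hi _ (by simp)).1 (hp.lk _ (hn i hi))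
  lk' i hi := h.lk (h0 i hi _ (by simp)).1 (h2 i hi _ (by simp)).1 (hp.lk' _ (hn i hi))
  ser := h.ser (l := fun i => [x i, c i]) hn (fun i hi u hu => (h0 i hi u hu).1) hp.ser
  mon := h.mon hn (fun i hi => (h1 i hi _ (by simp)).1) hp.mon
  mon' := h.mon hn (fun i hi => (h2 i hi _ (by simp)).1) hp.mon'
  far := h.far (l := fun i => [x i, c i]) (l' := fun i => [z i]) hn
    (fun i hi u hu => (h0 i hi u hu).1) (fun i hi u hu => (h1 i hi u hu).1) hp.far
  far' := h.far (l := fun i => [x i, c i]) (l' := fun i => [d i]) hn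
    (fun i hi u hu => (h0 i hi u hu).1) (fun i hi u hu => (h2 i hi u hu).1) hp.far'
  far'' := h.far (l := fun i => [z i]) (l' := fun i => [d i]) hn
    (fun i hi u hu => (h1 i hi u hu).1) (fun i hi u hu => (h2 i hi u hu).1) hp.far''
  onP := h.onSh (l := fun i => [x i, c i]) h0
  onZ := h.onSh (l := fun i => [z i]) h1
  onD := h.onSh (l := fun i => [d i]) h2
  dis := h.dis (l := fun i => [x i, z i, c i, d i]) hn (by
    intro i hi u hu
    simp only [List.mem_cons, List.not_mem_nil, or_false] at hu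
    rcases hu with rfl | rfl | rfl | rfl
    · exact (h0 i hi _ (by simp)).1
    · exact (h1 i hi _ (by simp)).1
    · exact (h0 i hi _ (by simp)).1
    · exact (h2 i hi _ (by simp)).1) hp.dis

/-- Transport of (SJ). -/
lemma pJ (h : Tr Y Y' T pl ι) (hn : ∀ i < N, g * N + i < n) {p q y z : ℕ → ℕ} {s₀ s₁ : ℕ}
    (hp : Y.PJ n p q y z)
    (h0 : ∀ i < N, ∀ u ∈ [y (g * N + i), p (g * N + i), z (g * N + i)], T u ∧ pl u = s₀)
    (h1 : ∀ i < N, ∀ u ∈ [q (g * N + i)], T u ∧ pl u = s₁) :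
    Y'.PJ N (fun i => ι (p (g * N + i))) (fun i => ι (q (g * N + i)))
      (fun i => ι (y (g * N + i))) (fun i => ι (z (g * N + i))) where
  lk i hi := h.lk (h0 i hi _ (by simp)).1 (h1 i hi _ (by simp)).1 (hp.lk _ (hn i hi))
  lk' i hi := h.lk (h0 i hi _ (by simp)).1 (h0 i hi _ (by simp)).1 (hp.lk' _ (hn i hi))
  yp i hi := h.mono _ _ (h0 i hi _ (by simp)).1 (h0 i hi _ (by simp)).1 (hp.yp _ (hn i hi))
  pz i hi := h.mono _ _ (h0 i hi _ (by simp)).1 (h0 i hi _ (by simp)).1 (hp.pz _ (hn i hi))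
  ser := h.ser (l := fun i => [y i, p i, z i]) hn (fun i hi u hu => (h0 i hi u hu).1) hp.ser
  mon := h.mon hn (fun i hi => (h1 i hi _ (by simp)).1) hp.mon
  far := h.far (l := fun i => [y i, p i, z i]) (l' := fun i => [q i]) hn
    (fun i hi u hu => (h0 i hi u hu).1) (fun i hi u hu => (h1 i hi u hu).1) hp.far
  onP := h.onSh (l := fun i => [y i, p i, z i]) h0
  onQ := h.onSh (l := fun i => [q i]) h1
  dis := h.dis (l := fun i => [p i, q i, y i, z i]) hn (by
    intro i hi u hu
    simp only [List.mem_cons, List.not_mem_nil, or_false] at hu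
    rcases hu with rfl | rfl | rfl | rfl
    · exact (h0 i hi _ (by simp)).1
    · exact (h1 i hi _ (by simp)).1
    · exact (h0 i hi _ (by simp)).1
    · exact (h0 i hi _ (by simp)).1) hp.dis
  dj i hi := h.dj (l := [p (g * N + i), q (g * N + i)]) (l' := [y (g * N + i), z (g * N + i)])
    (by
      intro u hu
      simp only [List.mem_cons, List.not_mem_nil, or_false] at hu
      rcases hu with rfl | rfl
      · exact (h0 i hi _ (by simp)).1
      · exact (h1 i hi _ (by simp)).1)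
    (by
      intro u hu
      simp only [List.mem_cons, List.not_mem_nil, or_false] at hu
      rcases hu with rfl | rfl
      · exact (h0 i hi _ (by simp)).1
      · exact (h0 i hi _ (by simp)).1) (hp.dj _ (hn i hi))

/-- Transport of (SJ'). -/
lemma pX (h : Tr Y Y' T pl ι) (hn : ∀ i < N, g * N + i < n) {p q y z p' q' : ℕ → ℕ}
    {s₀ s₁ : ℕ} (hp : Y.PX n p q y z p' q')
    (h0 : ∀ i < N, ∀ u ∈ [y (g * N + i), p (g * N + i), p' (g * N + i)], T u ∧ pl u = s₀)
    (h1 : ∀ i < N, ∀ u ∈ [q (g * N + i), z (g * N + i), q' (g * N + i)], T u ∧ pl u = s₁) :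
    Y'.PX N (fun i => ι (p (g * N + i))) (fun i => ι (q (g * N + i)))
      (fun i => ι (y (g * N + i))) (fun i => ι (z (g * N + i))) (fun i => ι (p' (g * N + i)))
      (fun i => ι (q' (g * N + i))) where
  lk i hi := h.lk (h0 i hi _ (by simp)).1 (h1 i hi _ (by simp)).1 (hp.lk _ (hn i hi))
  lk' i hi := h.lk (h0 i hi _ (by simp)).1 (h1 i hi _ (by simp)).1 (hp.lk' _ (hn i hi))
  lk'' i hi := h.lk (h0 i hi _ (by simp)).1 (h1 i hi _ (by simp)).1 (hp.lk'' _ (hn i hi))
  yp i hi := h.mono _ _ (h0 i hi _ (by simp)).1 (h0 i hi _ (by simp)).1 (hp.yp _ (hn i hi))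
  pp i hi := h.mono _ _ (h0 i hi _ (by simp)).1 (h0 i hi _ (by simp)).1 (hp.pp _ (hn i hi))
  ser := h.ser (l := fun i => [y i, p i, p' i]) hn (fun i hi u hu => (h0 i hi u hu).1) hp.ser
  cr := by
    rcases hp.cr with ⟨c1, c2⟩ | ⟨c1, c2⟩
    · left
      refine ⟨fun i hi => ⟨h.mono _ _ (h1 i hi _ (by simp)).1 (h1 i hi _ (by simp)).1
        (c1 _ (hn i hi)).1, h.mono _ _ (h1 i hi _ (by simp)).1 (h1 i hi _ (by simp)).1
        (c1 _ (hn i hi)).2⟩, ?_⟩
      exact h.ser (l := fun i => [q i, z i, q' i]) hn (fun i hi u hu => (h1 i hi u hu).1) c2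
    · right
      refine ⟨fun i hi => ⟨h.mono _ _ (h1 i hi _ (by simp)).1 (h1 i hi _ (by simp)).1
        (c1 _ (hn i hi)).1, h.mono _ _ (h1 i hi _ (by simp)).1 (h1 i hi _ (by simp)).1
        (c1 _ (hn i hi)).2⟩, ?_⟩
      intro i j hij hj u hu v hv
      have hu' : u ∈ [q (g * N + i), z (g * N + i), q' (g * N + i)].map ι := hu
      have hv' : v ∈ [q (g * N + j), z (g * N + j), q' (g * N + j)].map ι := hv
      obtain ⟨u', hu1, rfl⟩ := List.mem_map.1 hu'
      obtain ⟨v', hv1, rfl⟩ := List.mem_map.1 hv'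
      exact h.mono _ _ (h1 j hj _ hv1).1 (h1 i (by omega) _ hu1).1
        (c2 _ _ (by omega) (hn j hj) _ hu1 _ hv1)
  far := h.far (l := fun i => [y i, p i, p' i]) (l' := fun i => [q i, z i, q' i]) hn
    (fun i hi u hu => (h0 i hi u hu).1) (fun i hi u hu => (h1 i hi u hu).1) hp.far
  onP := h.onSh (l := fun i => [y i, p i, p' i]) h0
  onQ := h.onSh (l := fun i => [q i, z i, q' i]) h1
  dis := h.dis (l := fun i => [p i, q i, y i, z i, p' i, q' i]) hn (by
    intro i hi u hu
    simp only [List.mem_cons, List.not_mem_nil, or_false] at hu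
    rcases hu with rfl | rfl | rfl | rfl | rfl | rfl
    · exact (h0 i hi _ (by simp)).1
    · exact (h1 i hi _ (by simp)).1
    · exact (h0 i hi _ (by simp)).1
    · exact (h1 i hi _ (by simp)).1
    · exact (h0 i hi _ (by simp)).1
    · exact (h1 i hi _ (by simp)).1) hp.dis
  dj i hi := h.dj (l := [p (g * N + i), q (g * N + i)]) (l' := [y (g * N + i), z (g * N + i)])
    (by
      intro u hu
      simp only [List.mem_cons, List.not_mem_nil, or_false] at hu
      rcases hu with rfl | rfl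
      · exact (h0 i hi _ (by simp)).1
      · exact (h1 i hi _ (by simp)).1)
    (by
      intro u hu
      simp only [List.mem_cons, List.not_mem_nil, or_false] at hu
      rcases hu with rfl | rfl
      · exact (h0 i hi _ (by simp)).1
      · exact (h1 i hi _ (by simp)).1) (hp.dj _ (hn i hi))
  dj' i hi := h.dj (l := [p (g * N + i), q (g * N + i)]) (l' := [p' (g * N + i), q' (g * N + i)])
    (by
      intro u hu
      simp only [List.mem_cons, List.not_mem_nil, or_false] at hu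
      rcases hu with rfl | rfl
      · exact (h0 i hi _ (by simp)).1
      · exact (h1 i hi _ (by simp)).1)
    (by
      intro u hu
      simp only [List.mem_cons, List.not_mem_nil, or_false] at hu
      rcases hu with rfl | rfl
      · exact (h0 i hi _ (by simp)).1
      · exact (h1 i hi _ (by simp)).1) (hp.dj' _ (hn i hi))

/-- Transport of (CR). -/
lemma pC (h : Tr Y Y' T pl ι) (hn : ∀ i < N, g * N + i < n) {a b y z v v' : ℕ → ℕ}
    {s₀ s₁ : ℕ} (hp : Y.PC n a b y z v v')
    (h0 : ∀ i < N, ∀ u ∈ [a (g * N + i), y (g * N + i), v (g * N + i), z (g * N + i),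
      v' (g * N + i)], T u ∧ pl u = s₀)
    (h1 : ∀ i < N, ∀ u ∈ [b (g * N + i)], T u ∧ pl u = s₁) :
    Y'.PC N (fun i => ι (a (g * N + i))) (fun i => ι (b (g * N + i)))
      (fun i => ι (y (g * N + i))) (fun i => ι (z (g * N + i))) (fun i => ι (v (g * N + i)))
      (fun i => ι (v' (g * N + i))) where
  lk i hi := h.lk (h0 i hi _ (by simp)).1 (h1 i hi _ (by simp)).1 (hp.lk _ (hn i hi))
  lk' i hi := h.lk (h0 i hi _ (by simp)).1 (h0 i hi _ (by simp)).1 (hp.lk' _ (hn i hi))
  lk'' i hi := h.lk (h0 i hi _ (by simp)).1 (h0 i hi _ (by simp)).1 (hp.lk'' _ (hn i hi))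
  ord i hi := by
    obtain ⟨o1, o2, o3, o4⟩ := hp.ord _ (hn i hi)
    exact ⟨h.mono _ _ (h0 i hi _ (by simp)).1 (h0 i hi _ (by simp)).1 o1,
      h.mono _ _ (h0 i hi _ (by simp)).1 (h0 i hi _ (by simp)).1 o2,
      h.mono _ _ (h0 i hi _ (by simp)).1 (h0 i hi _ (by simp)).1 o3,
      h.mono _ _ (h0 i hi _ (by simp)).1 (h0 i hi _ (by simp)).1 o4⟩
  ser := h.ser (l := fun i => [a i, y i, v i, z i, v' i]) hn
    (fun i hi u hu => (h0 i hi u hu).1) hp.ser
  mon := h.mon hn (fun i hi => (h1 i hi _ (by simp)).1) hp.mon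
  far := h.far (l := fun i => [a i, y i, v i, z i, v' i]) (l' := fun i => [b i]) hn
    (fun i hi u hu => (h0 i hi u hu).1) (fun i hi u hu => (h1 i hi u hu).1) hp.far
  onP := h.onSh (l := fun i => [a i, y i, v i, z i, v' i]) h0
  onQ := h.onSh (l := fun i => [b i]) h1
  dis := h.dis (l := fun i => [a i, b i, y i, z i, v i, v' i]) hn (by
    intro i hi u hu
    simp only [List.mem_cons, List.not_mem_nil, or_false] at hu
    rcases hu with rfl | rfl | rfl | rfl | rfl | rfl
    · exact (h0 i hi _ (by simp)).1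
    · exact (h1 i hi _ (by simp)).1
    · exact (h0 i hi _ (by simp)).1
    · exact (h0 i hi _ (by simp)).1
    · exact (h0 i hi _ (by simp)).1
    · exact (h0 i hi _ (by simp)).1) hp.dis
  dj i hi := h.dj (l := [a (g * N + i), b (g * N + i), y (g * N + i), z (g * N + i)])
    (l' := [v (g * N + i), v' (g * N + i)])
    (by
      intro u hu
      simp only [List.mem_cons, List.not_mem_nil, or_false] at hu
      rcases hu with rfl | rfl | rfl | rfl
      · exact (h0 i hi _ (by simp)).1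
      · exact (h1 i hi _ (by simp)).1
      · exact (h0 i hi _ (by simp)).1
      · exact (h0 i hi _ (by simp)).1)
    (by
      intro u hu
      simp only [List.mem_cons, List.not_mem_nil, or_false] at hu
      rcases hu with rfl | rfl
      · exact (h0 i hi _ (by simp)).1
      · exact (h0 i hi _ (by simp)).1) (hp.dj _ (hn i hi))

end Tr

end Sys

end EN
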