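import Pool.Agent.EN.Groups2

/-!
# A pattern of large multiplicity is cut into groups (row SUB), part 3: transport of bands and nests
-/

namespace EN

set_option maxHeartbeats 1000000

namespace Sys

variable {κ κ' : Type*} {Y : Sys κ} {Y' : Sys κ'} {T : ℕ → Prop} {pl ι : ℕ → ℕ} {n N g mm : ℕ}

namespace Tr

lemma two {a b : ℕ} (ha : T a) (hb : T b) : ∀ u ∈ [a, b], T u := by
  intro u hu
  simp only [List.mem_cons, List.not_mem_nil, or_false] at hu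
  rcases hu with rfl | rfl
  · exact ha
  · exact hb

lemma one {a : ℕ} (ha : T a) : ∀ u ∈ [a], T u := by
  intro u hu
  simp only [List.mem_cons, List.not_mem_nil, or_false] at hu
  rw [hu]
  exact ha

/-- Transport of (MS). -/
lemma pM (h : Tr Y Y' T pl ι) (hn : ∀ i < N, g * N + i < n) {u v : ℕ → ℕ → ℕ} {s₀ : ℕ}
    (hp : Y.PM n mm u v)
    (h0 : ∀ i < N, ∀ k < mm, (T (u k (g * N + i)) ∧ pl (u k (g * N + i)) = s₀) ∧
      (T (v k (g * N + i)) ∧ pl (v k (g * N + i)) = s₀)) :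
    Y'.PM N mm (fun k i => ι (u k (g * N + i))) (fun k i => ι (v k (g * N + i))) where
  lk i hi k hk := h.lk (h0 i hi k hk).1.1 (h0 i hi k hk).2.1 (hp.lk _ (hn i hi) k hk)
  um i hi k hk := h.mono _ _ (h0 i hi k (by omega)).1.1 (h0 i hi (k + 1) hk).1.1
    (hp.um _ (hn i hi) k hk)
  vm i hi k hk := h.mono _ _ (h0 i hi k (by omega)).2.1 (h0 i hi (k + 1) hk).2.1
    (hp.vm _ (hn i hi) k hk)
  uv i hi k hk k' hk' := h.mono _ _ (h0 i hi k hk).1.1 (h0 i hi k' hk').2.1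
    (hp.uv _ (hn i hi) k hk k' hk')
  ser i j hij hj k hk k' hk' := h.mono _ _ (h0 i (by omega) k hk).2.1 (h0 j hj k' hk').1.1
    (hp.ser _ _ (by omega) (hn j hj) k hk k' hk')
  on := ⟨s₀, fun i hi k hk => ⟨(h.sh _ (h0 i hi k hk).1.1).trans (h0 i hi k hk).1.2,
    (h.sh _ (h0 i hi k hk).2.1).trans (h0 i hi k hk).2.2⟩⟩
  dis i hi k hk j hj k' hk' hne := h.dj (l := [u k (g * N + i), v k (g * N + i)])
    (l' := [u k' (g * N + j), v k' (g * N + j)]) (two (h0 i hi k hk).1.1 (h0 i hi k hk).2.1)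
    (two (h0 j hj k' hk').1.1 (h0 j hj k' hk').2.1)
    (hp.dis _ (hn i hi) k hk _ (hn j hj) k' hk' (by
      intro e
      apply hne
      rw [Prod.mk.injEq] at e ⊢
      exact ⟨by omega, e.2⟩))

/-- Transport of nests. -/
lemma ns (h : Tr Y Y' T pl ι) (hn : ∀ i < N, g * N + i < n) {a b : ℕ → ℕ → ℕ} {s₀ : ℕ}
    (hm : 1 ≤ mm) (hp : Y.Ns n mm a b)
    (h0 : ∀ i < N, ∀ k < mm, (T (a k (g * N + i)) ∧ pl (a k (g * N + i)) = s₀) ∧
      (T (b k (g * N + i)) ∧ pl (b k (g * N + i)) = s₀)) :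
    Y'.Ns N mm (fun k i => ι (a k (g * N + i))) (fun k i => ι (b k (g * N + i))) where
  lk i hi k hk := h.lk (h0 i hi k hk).1.1 (h0 i hi k hk).2.1 (hp.lk _ (hn i hi) k hk)
  am i hi k hk := h.mono _ _ (h0 i hi (k + 1) hk).1.1 (h0 i hi k (by omega)).1.1
    (hp.am _ (hn i hi) k hk)
  bm i hi k hk := h.mono _ _ (h0 i hi k (by omega)).2.1 (h0 i hi (k + 1) hk).2.1
    (hp.bm _ (hn i hi) k hk)
  ab i hi := h.mono _ _ (h0 i hi 0 (by omega)).1.1 (h0 i hi 0 (by omega)).2.1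
    (hp.ab _ (hn i hi))
  ser i j hij hj k hk k' hk' := h.mono _ _ (h0 i (by omega) k hk).2.1 (h0 j hj k' hk').1.1
    (hp.ser _ _ (by omega) (hn j hj) k hk k' hk')
  on := ⟨s₀, fun i hi k hk => ⟨(h.sh _ (h0 i hi k hk).1.1).trans (h0 i hi k hk).1.2,
    (h.sh _ (h0 i hi k hk).2.1).trans (h0 i hi k hk).2.2⟩⟩
  dis i hi k hk j hj k' hk' hne := h.dj (l := [a k (g * N + i), b k (g * N + i)])
    (l' := [a k' (g * N + j), b k' (g * N + j)]) (two (h0 i hi k hk).1.1 (h0 i hi k hk).2.1)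
    (two (h0 j hj k' hk').1.1 (h0 j hj k' hk').2.1)
    (hp.dis _ (hn i hi) k hk _ (hn j hj) k' hk' (by
      intro e
      apply hne
      rw [Prod.mk.injEq] at e ⊢
      exact ⟨by omega, e.2⟩))

/-- Transport of (PS). -/
lemma pS (h : Tr Y Y' T pl ι) (hn : ∀ i < N, g * N + i < n) {a b : ℕ → ℕ → ℕ} {x : ℕ → ℕ}
    {s₀ : ℕ} (hm : 1 ≤ mm) (hp : Y.PS n mm a b x)
    (h0 : ∀ i < N, ∀ k < mm, (T (a k (g * N + i)) ∧ pl (a k (g * N + i)) = s₀) ∧
      (T (b k (g * N + i)) ∧ pl (b k (g * N + i)) = s₀))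
    (hx : ∀ i < N, T (x (g * N + i)) ∧ pl (x (g * N + i)) = s₀) :
    Y'.PS N mm (fun k i => ι (a k (g * N + i))) (fun k i => ι (b k (g * N + i)))
      (fun i => ι (x (g * N + i))) where
  ns := h.ns hn hm hp.ns h0
  px i hi := ⟨h.mono _ _ (h0 i hi 0 (by omega)).1.1 (hx i hi).1 (hp.px _ (hn i hi)).1,
    h.mono _ _ (hx i hi).1 (h0 i hi 0 (by omega)).2.1 (hp.px _ (hn i hi)).2⟩
  gr i hi := h.gr _ (hx i hi).1 (hp.gr _ (hn i hi))
  dis := h.dis (l := fun i => [x i]) hn (fun i hi => one (hx i hi).1) hp.dis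
  dj i hi j hj k hk := h.dj (l := [x (g * N + i)]) (l' := [a k (g * N + j), b k (g * N + j)])
    (one (hx i hi).1) (two (h0 j hj k hk).1.1 (h0 j hj k hk).2.1)
    (hp.dj _ (hn i hi) _ (hn j hj) k hk)

/-- Transport of (PSJ), far. -/
lemma pSF (h : Tr Y Y' T pl ι) (hn : ∀ i < N, g * N + i < n) {a b : ℕ → ℕ → ℕ} {x z : ℕ → ℕ}
    {s₀ s₁ : ℕ} (hm : 1 ≤ mm) (hp : Y.PSF n mm a b x z)
    (h0 : ∀ i < N, ∀ k < mm, (T (a k (g * N + i)) ∧ pl (a k (g * N + i)) = s₀) ∧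
      (T (b k (g * N + i)) ∧ pl (b k (g * N + i)) = s₀))
    (hx : ∀ i < N, T (x (g * N + i)) ∧ pl (x (g * N + i)) = s₀)
    (hz : ∀ i < N, ∀ u ∈ [z (g * N + i)], T u ∧ pl u = s₁) :
    Y'.PSF N mm (fun k i => ι (a k (g * N + i))) (fun k i => ι (b k (g * N + i)))
      (fun i => ι (x (g * N + i))) (fun i => ι (z (g * N + i))) where
  ns := h.ns hn hm hp.ns h0
  px i hi := ⟨h.mono _ _ (h0 i hi 0 (by omega)).1.1 (hx i hi).1 (hp.px _ (hn i hi)).1,
    h.mono _ _ (hx i hi).1 (h0 i hi 0 (by omega)).2.1 (hp.px _ (hn i hi)).2⟩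
  lk i hi := h.lk (hx i hi).1 (hz i hi _ (by simp)).1 (hp.lk _ (hn i hi))
  mon := h.mon hn (fun i hi => (hz i hi _ (by simp)).1) hp.mon
  far k hk := h.far (l := fun i => [a k i, b k i]) (l' := fun i => [z i]) hn
    (fun i hi => two (h0 i hi k hk).1.1 (h0 i hi k hk).2.1)
    (fun i hi u hu => (hz i hi u hu).1) (hp.far k hk)
  onQ := h.onSh (l := fun i => [z i]) hz
  dis := h.dis (l := fun i => [x i, z i]) hn
    (fun i hi => two (hx i hi).1 (hz i hi _ (by simp)).1) hp.dis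
  dj i hi j hj k hk := h.dj (l := [x (g * N + i), z (g * N + i)])
    (l' := [a k (g * N + j), b k (g * N + j)])
    (two (hx i hi).1 (hz i hi _ (by simp)).1) (two (h0 j hj k hk).1.1 (h0 j hj k hk).2.1)
    (hp.dj _ (hn i hi) _ (hn j hj) k hk)

/-- Transport of (PSJ), to the gap. -/
lemma pSG (h : Tr Y Y' T pl ι) (hn : ∀ i < N, g * N + i < n) {d : Bool} {a b : ℕ → ℕ → ℕ}
    {x z : ℕ → ℕ} {s₀ : ℕ} (hm : 1 ≤ mm) (hp : Y.PSG n mm d a b x z)
    (h0 : ∀ i < N, ∀ k < mm, (T (a k (g * N + i)) ∧ pl (a k (g * N + i)) = s₀) ∧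
      (T (b k (g * N + i)) ∧ pl (b k (g * N + i)) = s₀))
    (hx : ∀ i < N, T (x (g * N + i)) ∧ pl (x (g * N + i)) = s₀)
    (hz : ∀ i < N, T (z (g * N + i)) ∧ pl (z (g * N + i)) = s₀) :
    Y'.PSG N mm d (fun k i => ι (a k (g * N + i))) (fun k i => ι (b k (g * N + i)))
      (fun i => ι (x (g * N + i))) (fun i => ι (z (g * N + i))) where
  ns := h.ns hn hm hp.ns h0
  px i hi := ⟨h.mono _ _ (h0 i hi 0 (by omega)).1.1 (hx i hi).1 (hp.px _ (hn i hi)).1,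
    h.mono _ _ (hx i hi).1 (h0 i hi 0 (by omega)).2.1 (hp.px _ (hn i hi)).2⟩
  lk i hi := h.lk (hx i hi).1 (hz i hi).1 (hp.lk _ (hn i hi))
  sh i hi := by
    rw [h.sh _ (hz i hi).1, h.sh _ (hx i hi).1, (hz i hi).2, (hx i hi).2]
  out i hi k hk := by
    have h1 := hp.out _ (hn i hi) k hk
    cases d with
    | true =>
      simp only [if_true] at h1 ⊢
      exact h.mono _ _ (h0 i hi k hk).2.1 (hz i hi).1 h1
    | false =>
      simp only [Bool.false_eq_true, if_false] at h1 ⊢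
      exact h.mono _ _ (hz i hi).1 (h0 i hi k hk).1.1 h1
  gap i hi k hk := by
    have h1 := hp.gap (g * N + i) (hn (i + 1) hi) k hk
    cases d with
    | true =>
      simp only [if_true] at h1 ⊢
      exact h.mono _ _ (hz i (by omega)).1 (h0 (i + 1) hi k hk).1.1 h1
    | false =>
      simp only [Bool.false_eq_true, if_false] at h1 ⊢
      exact h.mono _ _ (h0 i (by omega) k hk).2.1 (hz (i + 1) hi).1 h1
  dis := h.dis (l := fun i => [x i, z i]) hn (fun i hi => two (hx i hi).1 (hz i hi).1) hp.dis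
  dj i hi j hj k hk := h.dj (l := [x (g * N + i), z (g * N + i)])
    (l' := [a k (g * N + j), b k (g * N + j)])
    (two (hx i hi).1 (hz i hi).1) (two (h0 j hj k hk).1.1 (h0 j hj k hk).2.1)
    (hp.dj _ (hn i hi) _ (hn j hj) k hk)

/-- Transport of (PSC). -/
lemma pSC (h : Tr Y Y' T pl ι) (hn : ∀ i < N, g * N + i < n) {a b : ℕ → ℕ → ℕ}
    {y z v v' : ℕ → ℕ} {s₀ : ℕ} (hm : 1 ≤ mm) (hp : Y.PSC n mm a b y z v v')
    (h0 : ∀ i < N, ∀ k < mm, (T (a k (g * N + i)) ∧ pl (a k (g * N + i)) = s₀) ∧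
      (T (b k (g * N + i)) ∧ pl (b k (g * N + i)) = s₀))
    (hx : ∀ i < N, ∀ u ∈ [y (g * N + i), z (g * N + i), v (g * N + i), v' (g * N + i)],
      T u ∧ pl u = s₀) :
    Y'.PSC N mm (fun k i => ι (a k (g * N + i))) (fun k i => ι (b k (g * N + i)))
      (fun i => ι (y (g * N + i))) (fun i => ι (z (g * N + i)))
      (fun i => ι (v (g * N + i))) (fun i => ι (v' (g * N + i))) where
  ns := h.ns hn hm hp.ns h0
  lk i hi := h.lk (hx i hi _ (by simp)).1 (hx i hi _ (by simp)).1 (hp.lk _ (hn i hi))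
  lk' i hi := h.lk (hx i hi _ (by simp)).1 (hx i hi _ (by simp)).1 (hp.lk' _ (hn i hi))
  ord i hi := by
    obtain ⟨o1, o2, o3, o4, o5⟩ := hp.ord _ (hn i hi)
    exact ⟨h.mono _ _ (h0 i hi 0 (by omega)).1.1 (hx i hi _ (by simp)).1 o1,
      h.mono _ _ (hx i hi _ (by simp)).1 (hx i hi _ (by simp)).1 o2,
      h.mono _ _ (hx i hi _ (by simp)).1 (hx i hi _ (by simp)).1 o3,
      h.mono _ _ (hx i hi _ (by simp)).1 (hx i hi _ (by simp)).1 o4,
      h.mono _ _ (hx i hi _ (by simp)).1 (h0 i hi 0 (by omega)).2.1 o5⟩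
  dis := h.dis (l := fun i => [y i, z i, v i, v' i]) hn (fun i hi u hu => (hx i hi u hu).1) hp.dis
  djc i hi := h.dj (l := [y (g * N + i), z (g * N + i)]) (l' := [v (g * N + i), v' (g * N + i)])
    (two (hx i hi _ (by simp)).1 (hx i hi _ (by simp)).1)
    (two (hx i hi _ (by simp)).1 (hx i hi _ (by simp)).1) (hp.djc _ (hn i hi))
  dj i hi j hj k hk := h.dj
    (l := [y (g * N + i), z (g * N + i), v (g * N + i), v' (g * N + i)])
    (l' := [a k (g * N + j), b k (g * N + j)])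
    (fun u hu => (hx i hi u hu).1) (two (h0 j hj k hk).1.1 (h0 j hj k hk).2.1)
    (hp.dj _ (hn i hi) _ (hn j hj) k hk)

end Tr

end Sys

end EN
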