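import Pool.Agent.EN.Groups3

/-!
# A pattern of large multiplicity is cut into groups (row SUB), part 4: extraction
-/

namespace EN

set_option maxHeartbeats 1000000

namespace Sys

variable {κ : Type*}

/-- A family of groups: `Z g` is the restriction of `Y` to some ports and to the connectors `K g`,
with virtual shores `0, 1, 2`; different groups have different connectors; ports of different groups
or of different virtual shores lie in disjoint intervals of the line. -/
structure GrpFam (Y : Sys κ) (m : ℕ) (ρ : ℕ → ℕ) (K : Fin m → Set κ) (Z : ∀ g, Sys (K g))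
    (e : Fin m → ℕ → ℕ) : Prop where
  e_lt : ∀ g, ∀ i < (Z g).L, e g i < Y.L
  e_inc : ∀ g i j, i < j → j < (Z g).L → e g i < e g j
  mono : ∀ g, (Z g).Mono
  sh3 : ∀ g, ∀ i < (Z g).L, (Z g).sh i < 3
  ρsh : ∀ g, ∀ i < (Z g).L, Y.sh (e g i) = ρ ((Z g).sh i)
  own : ∀ g, ∀ i < (Z g).L, ((Z g).own i : κ) = Y.own (e g i)
  ct : ∀ g k k', (Z g).ct k k' ↔ Y.ct k k'
  gr : ∀ g k, (Z g).gr k ↔ Y.gr k
  used : ∀ g, ∀ k ∈ K g, ∃ i < (Z g).L, Y.own (e g i) = k
  dis : ∀ g g', g ≠ g' → Disjoint (K g) (K g')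
  sep : ∀ g g' s s', (g, s) ≠ (g', s') →
    (∀ i < (Z g).L, ∀ j < (Z g').L, (Z g).sh i = s → (Z g').sh j = s' → e g i < e g' j) ∨
      ∀ i < (Z g).L, ∀ j < (Z g').L, (Z g).sh i = s → (Z g').sh j = s' → e g' j < e g i

/-- The ports of the group `g`. -/
def Tm (pts : Fin 3 → ℕ → List ℕ) (N g x : ℕ) : Prop := ∃ a i, i < N ∧ x ∈ pts a (g * N + i)

/-- **Extraction of groups.** -/
theorem extract (Y : Sys κ) (pts : Fin 3 → ℕ → List ℕ) (m N : ℕ) (hN : 1 ≤ N)
    (hL : ∀ a, ∀ i < m * N, ∀ x ∈ pts a i, x < Y.L)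
    (hsh : ∀ a, ∀ i < m * N, ∀ j < m * N, ∀ x ∈ pts a i, ∀ y ∈ pts a j, Y.sh x = Y.sh y)
    (hfar : ∀ a b, a ≠ b → Far (m * N) (pts a) (pts b))
    (hser : ∀ a, Ser (m * N) (pts a) ∨
      ∀ i j, i < j → j < m * N → ∀ x ∈ pts a i, ∀ y ∈ pts a j, y < x)
    (hown : ∀ a b, ∀ i < m * N, ∀ j < m * N, i ≠ j → Y.Dj (pts a i) (pts b j))
    (hne : ∀ i < m * N, ∃ a, ∃ x, x ∈ pts a i) :
    ∃ (pl ρ : ℕ → ℕ) (pa : Fin 3 → ℕ) (K : Fin m → Set κ) (Z : ∀ g, Sys (K g))
      (e ι : Fin m → ℕ → ℕ), GrpFam Y m ρ K Z e ∧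
      (∀ g : Fin m, Tr Y (Z g) (Tm pts N g) pl (ι g)) ∧
      (∀ a, ∀ i < m * N, ∀ x ∈ pts a i, pl x = pa a) ∧
      ∀ g, ∀ i < (Z g).L, Tm pts N g (e g i) ∧ ι g (e g i) = i := by
  classical
  set pl : ℕ → ℕ := fun x =>
    (Finset.univ.filter (fun b : Fin 3 => ∀ i < m * N, ∀ y ∈ pts b i, y < x)).card with hpl
  have hplm : ∀ x x', x ≤ x' → pl x ≤ pl x' := by
    intro x x' hx
    refine Finset.card_le_card ?_
    intro b hb
    rw [Finset.mem_filter] at hb ⊢
    exact ⟨hb.1, fun i hi y hy => lt_of_lt_of_le (hb.2 i hi y hy) hx⟩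
  have hconst : ∀ a, ∀ i < m * N, ∀ j < m * N, ∀ x ∈ pts a i, ∀ x' ∈ pts a j, pl x = pl x' := by
    intro a i hi j hj x hx x' hx'
    simp only [hpl]
    congr 1
    refine Finset.filter_congr ?_
    intro b _
    by_cases hab : b = a
    · subst hab
      constructor
      · intro h
        exact absurd (h i hi x hx) (lt_irrefl _)
      · intro h
        exact absurd (h j hj x' hx') (lt_irrefl _)
    · rcases hfar a b (Ne.symm hab) with hf | hf
      · constructor
        · intro h k hk y hy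
          have h1 := h k hk y hy
          have h2 := hf i hi k hk x hx y hy
          omega
        · intro h k hk y hy
          have h1 := h k hk y hy
          have h2 := hf j hj k hk x' hx' y hy
          omega
      · exact ⟨fun _ k hk y hy => hf j hj k hk x' hx' y hy,
          fun _ k hk y hy => hf i hi k hk x hx y hy⟩
  have hpl3 : ∀ a, ∀ i < m * N, ∀ x ∈ pts a i, pl x < 3 := by
    intro a i hi x hx
    have h1 : (Finset.univ.filter (fun b : Fin 3 => ∀ i < m * N, ∀ y ∈ pts b i, y < x)) ⊆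
        Finset.univ.erase a := by
      intro b hb
      rw [Finset.mem_filter] at hb
      rw [Finset.mem_erase]
      refine ⟨?_, Finset.mem_univ _⟩
      rintro rfl
      exact absurd (hb.2 i hi x hx) (lt_irrefl _)
    have h2 := Finset.card_le_card h1
    rw [Finset.card_erase_of_mem (Finset.mem_univ _), Finset.card_univ, Fintype.card_fin] at h2
    simp only [hpl]
    omega
  have hlt : ∀ a b, (∃ k < m * N, ∃ z, z ∈ pts a k) →
      (∀ i < m * N, ∀ j < m * N, ∀ x ∈ pts a i, ∀ y ∈ pts b j, x < y) →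
      ∀ i < m * N, ∀ j < m * N, ∀ x ∈ pts a i, ∀ y ∈ pts b j, pl x < pl y := by
    intro a b _ hf i hi j hj x hx y hy
    refine Finset.card_lt_card ?_
    refine Finset.ssubset_iff_subset_ne.2 ⟨?_, ?_⟩
    · intro c hc
      rw [Finset.mem_filter] at hc ⊢
      exact ⟨hc.1, fun k hk z hz => lt_trans (hc.2 k hk z hz) (hf i hi j hj x hx y hy)⟩
    · intro h
      have h1 : a ∈ Finset.univ.filter (fun b : Fin 3 => ∀ i < m * N, ∀ z ∈ pts b i, z < y) := by
        rw [Finset.mem_filter]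
        exact ⟨Finset.mem_univ _, fun k hk z hz => hf k hk j hj z hz y hy⟩
      rw [← h, Finset.mem_filter] at h1
      exact absurd (h1.2 i hi x hx) (lt_irrefl _)
  have hinj : ∀ a b, ∀ i < m * N, ∀ j < m * N, ∀ x ∈ pts a i, ∀ y ∈ pts b j, pl x = pl y →
      a = b := by
    intro a b i hi j hj x hx y hy hxy
    by_contra hab
    rcases hfar a b hab with hf | hf
    · have := hlt a b ⟨i, hi, x, hx⟩ hf i hi j hj x hx y hy
      omega
    · have := hlt b a ⟨j, hj, y, hy⟩ (fun i hi j hj x hx y hy => hf j hj i hi y hy x hx)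
        j hj i hi y hy x hx
      omega
  set ρ : ℕ → ℕ := fun s =>
    if h : ∃ x, (∃ a, ∃ i < m * N, x ∈ pts a i) ∧ pl x = s then Y.sh h.choose else 0 with hρ
  have hρ' : ∀ a, ∀ i < m * N, ∀ x ∈ pts a i, Y.sh x = ρ (pl x) := by
    intro a i hi x hx
    have h : ∃ x', (∃ a, ∃ i < m * N, x' ∈ pts a i) ∧ pl x' = pl x := ⟨x, ⟨a, i, hi, hx⟩, rfl⟩
    simp only [hρ, dif_pos h]
    obtain ⟨⟨a', j, hj, hx'⟩, h2⟩ := h.choose_spec
    have h3 := hinj a' a j hj i hi _ hx' x hx h2
    subst h3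
    exact hsh a' i hi j hj x hx _ hx'
  set pa : Fin 3 → ℕ := fun a =>
    if h : ∃ x, ∃ i < m * N, x ∈ pts a i then pl h.choose else 0 with hpa
  have hpa' : ∀ a, ∀ i < m * N, ∀ x ∈ pts a i, pl x = pa a := by
    intro a i hi x hx
    have h : ∃ x', ∃ i < m * N, x' ∈ pts a i := ⟨x, i, hi, hx⟩
    simp only [hpa, dif_pos h]
    obtain ⟨j, hj, hx'⟩ := h.choose_spec
    exact hconst a i hi j hj x hx _ hx'
  have hblk : ∀ g : Fin m, ∀ i < N, (g : ℕ) * N + i < m * N := fun g i hi => Tr.blk_lt g.2 hi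
  have hG : ∀ g : Fin m, ∃ (K : Set κ) (Z : Sys K) (e ι : ℕ → ℕ),
      Grp Y (Tm pts N g) pl ρ K Z e ι := by
    intro g
    refine exists_grp Y _ ?_ ?_ pl ρ ?_
    · rintro x ⟨a, i, hi, hx⟩
      exact hL a _ (hblk g i hi) x hx
    · obtain ⟨a, x, hx⟩ := hne _ (hblk g 0 (by omega))
      exact ⟨x, a, 0, by omega, hx⟩
    · rintro x ⟨a, i, hi, hx⟩
      exact hρ' a _ (hblk g i hi) x hx
  choose K Z e ι hgr using hG
  refine ⟨pl, ρ, pa, K, Z, e, ι, ?_, fun g => (hgr g).tr, hpa', fun g i hi => ?_⟩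
  swap
  · have h1 := ((hgr g).e_lt i hi).2
    refine ⟨h1, ?_⟩
    obtain ⟨h2, h3⟩ := (hgr g).ι_lt _ h1
    rcases Nat.lt_trichotomy (ι g (e g i)) i with h4 | h4 | h4
    · have := (hgr g).e_inc _ _ h4 hi
      omega
    · exact h4
    · have := (hgr g).e_inc _ _ h4 h2
      omega
  have hmem : ∀ g, ∀ i < (Z g).L, ∃ a t, t < N ∧ e g i ∈ pts a ((g : ℕ) * N + t) :=
    fun g i hi => ((hgr g).e_lt i hi).2
  have htime : ∀ g g' : Fin m, g < g' → ∀ t < N, ∀ t' < N, (g : ℕ) * N + t < (g' : ℕ) * N + t' := by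
    intro g g' hgg t ht t' ht'
    have h1 : ((g : ℕ) + 1) * N ≤ (g' : ℕ) * N := Nat.mul_le_mul_right N (by omega)
    have h2 : ((g : ℕ) + 1) * N = (g : ℕ) * N + N := by ring
    omega
  refine ⟨fun g i hi => ((hgr g).e_lt i hi).1, fun g => (hgr g).e_inc, ?_, ?_,
    fun g => (hgr g).ρsh, fun g => (hgr g).own, fun g => (hgr g).ct, fun g => (hgr g).gr, ?_, ?_, ?_⟩
  · intro g x y hxy hy
    rw [(hgr g).sh x (by omega), (hgr g).sh y hy]
    apply hplm
    rcases Nat.lt_or_ge x y with h | h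
    · exact ((hgr g).e_inc x y h hy).le
    · rw [show x = y by omega]
  · intro g i hi
    rw [(hgr g).sh i hi]
    obtain ⟨a, t, ht, h⟩ := hmem g i hi
    exact hpl3 a _ (hblk g t ht) _ h
  · intro g k hk
    obtain ⟨x, hx, rfl⟩ := (hgr g).K k hk
    exact ⟨ι g x, ((hgr g).ι_lt x hx).1, by rw [((hgr g).ι_lt x hx).2]⟩
  · intro g g' hgg
    rw [Set.disjoint_left]
    intro k hk hk'
    obtain ⟨x, ⟨a, i, hi, hx⟩, rfl⟩ := (hgr g).K k hk
    obtain ⟨y, ⟨b, j, hj, hy⟩, hxy⟩ := (hgr g').K _ hk'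
    have hne' : (g : ℕ) * N + i ≠ (g' : ℕ) * N + j := by
      rcases lt_or_gt_of_ne hgg with h | h
      · exact (htime g g' h i hi j hj).ne
      · exact (htime g' g h j hj i hi).ne'
    exact hown a b _ (hblk g i hi) _ (hblk g' j hj) hne' x hx y hy hxy.symm
  · intro g g' s s' hne'
    have hshe : ∀ g, ∀ i < (Z g).L, (Z g).sh i = pl (e g i) := fun g => (hgr g).sh
    rcases Nat.lt_trichotomy s s' with h | h | h
    · left
      intro i hi j hj h1 h2
      by_contra hcon
      have := hplm (e g' j) (e g i) (by omega)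
      rw [← hshe g i hi, ← hshe g' j hj] at this
      omega
    · subst h
      have hgg : g ≠ g' := fun h => hne' (by rw [h])
      by_cases hex : ∃ i < (Z g).L, (Z g).sh i = s
      · obtain ⟨i₀, hi₀, hs₀⟩ := hex
        obtain ⟨a, t₀, ht₀, ha⟩ := hmem g i₀ hi₀
        have hpl' : ∀ g, ∀ i < (Z g).L, (Z g).sh i = s →
            ∃ t, t < N ∧ e g i ∈ pts a ((g : ℕ) * N + t) := by
          intro g₁ i hi his
          obtain ⟨b, t, ht, hb⟩ := hmem g₁ i hi
          have : b = a := by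
            refine hinj b a _ (hblk g₁ t ht) _ (hblk g t₀ ht₀) _ hb _ ha ?_
            rw [← hshe g₁ i hi, ← hshe g i₀ hi₀, his, hs₀]
          subst this
          exact ⟨t, ht, hb⟩
        rcases lt_or_gt_of_ne hgg with h | h
        · rcases hser a with hs | hs
          · left
            intro i hi j hj h1 h2
            obtain ⟨t, ht, q1⟩ := hpl' g i hi h1
            obtain ⟨t', ht', q2⟩ := hpl' g' j hj h2
            exact hs _ _ (htime g g' h t ht t' ht') (hblk g' t' ht') _ q1 _ q2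
          · right
            intro i hi j hj h1 h2
            obtain ⟨t, ht, q1⟩ := hpl' g i hi h1
            obtain ⟨t', ht', q2⟩ := hpl' g' j hj h2
            exact hs _ _ (htime g g' h t ht t' ht') (hblk g' t' ht') _ q1 _ q2
        · rcases hser a with hs | hs
          · right
            intro i hi j hj h1 h2
            obtain ⟨t, ht, q1⟩ := hpl' g i hi h1
            obtain ⟨t', ht', q2⟩ := hpl' g' j hj h2
            exact hs _ _ (htime g' g h t' ht' t ht) (hblk g t ht) _ q2 _ q1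
          · left
            intro i hi j hj h1 h2
            obtain ⟨t, ht, q1⟩ := hpl' g i hi h1
            obtain ⟨t', ht', q2⟩ := hpl' g' j hj h2
            exact hs _ _ (htime g' g h t' ht' t ht) (hblk g t ht) _ q2 _ q1
      · left
        intro i hi j hj h1 h2
        exact absurd ⟨i, hi, h1⟩ hex
    · right
      intro i hi j hj h1 h2
      by_contra hcon
      have := hplm (e g i) (e g' j) (by omega)
      rw [← hshe g i hi, ← hshe g' j hj] at this
      omega

end Sys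

end EN
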