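import Pool.Agent.EN.Groups4

/-!
# A pattern of large multiplicity is cut into groups (row SUB), part 5: assembly
-/

namespace EN

set_option maxHeartbeats 1000000

lemma Far.symm {n : ℕ} {l l' : ℕ → List ℕ} (h : Far n l l') : Far n l' l := by
  rcases h with h | h
  · exact Or.inr fun i hi j hj x hx y hy => h j hj i hi y hy x hx
  · exact Or.inl fun i hi j hj x hx y hy => h j hj i hi y hy x hx

lemma Far.nil {n : ℕ} {l : ℕ → List ℕ} : Far n l (fun _ => []) :=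
  Or.inl fun _ _ _ _ _ _ y hy => by simp at hy

lemma far3 {n : ℕ} {l0 l1 l2 : ℕ → List ℕ} (h01 : Far n l0 l1) (h02 : Far n l0 l2)
    (h12 : Far n l1 l2) : ∀ a b : Fin 3, a ≠ b →
      Far n ((![l0, l1, l2] : Fin 3 → ℕ → List ℕ) a) ((![l0, l1, l2] : Fin 3 → ℕ → List ℕ) b) := by
  intro a b hab
  fin_cases a <;> fin_cases b
  · exact absurd rfl hab
  · exact h01
  · exact h02
  · exact h01.symm
  · exact absurd rfl hab
  · exact h12
  · exact h02.symm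
  · exact h12.symm
  · exact absurd rfl hab

lemma mon_ser {n : ℕ} {z : ℕ → ℕ} (h : RamP.Mon n z) : Ser n (fun i => [z i]) ∨
    ∀ i j, i < j → j < n → ∀ x ∈ [z i], ∀ y ∈ [z j], y < x := by
  rcases h with h | h
  · left
    intro i j hij hj x hx y hy
    rw [List.mem_singleton] at hx hy
    rw [hx, hy]
    exact h i j hij hj
  · right
    intro i j hij hj x hx y hy
    rw [List.mem_singleton] at hx hy
    rw [hx, hy]
    exact h i j hij hj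

lemma ser_hull {n : ℕ} {l : ℕ → List ℕ} (lo hi : ℕ → ℕ)
    (h : ∀ i < n, ∀ p ∈ l i, lo i ≤ p ∧ p ≤ hi i) (h' : ∀ i j, i < j → j < n → hi i < lo j) :
    Ser n l := by
  intro i j hij hj x hx y hy
  have h1 := h i (by omega) x hx
  have h2 := h j hj y hy
  have h3 := h' i j hij hj
  omega

namespace Sys

variable {κ : Type*}

/-- The ten patterns (without the complete minor). -/
def Pat0 (Y : Sys κ) (N m : ℕ) : Prop :=
  (∃ x z q, Y.PA N x z q) ∨ (∃ x z c d, Y.PB N x z c d) ∨ (∃ p q y z, Y.PJ N p q y z) ∨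
  (∃ p q y z p' q', Y.PX N p q y z p' q') ∨ (∃ a b y z v v', Y.PC N a b y z v v') ∨
  (∃ u v, Y.PM N m u v) ∨ (∃ a b x, Y.PS N m a b x) ∨ (∃ a b x z, Y.PSF N m a b x z) ∨
  (∃ d a b x z, Y.PSG N m d a b x z) ∨ ∃ a b y z v v', Y.PSC N m a b y z v v'

lemma Pat0.pat {Y : Sys κ} {N m : ℕ} (h : Y.Pat0 N m) (t : ℕ) : Y.Pat N m t := by
  rcases h with h | h | h | h | h | h | h | h | h | h
  · exact Or.inl h
  · exact Or.inr (Or.inl h)
  · exact Or.inr (Or.inr (Or.inl h))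
  · exact Or.inr (Or.inr (Or.inr (Or.inl h)))
  · exact Or.inr (Or.inr (Or.inr (Or.inr (Or.inl h))))
  · exact Or.inr (Or.inr (Or.inr (Or.inr (Or.inr (Or.inl h)))))
  · exact Or.inr (Or.inr (Or.inr (Or.inr (Or.inr (Or.inr (Or.inl h))))))
  · exact Or.inr (Or.inr (Or.inr (Or.inr (Or.inr (Or.inr (Or.inr (Or.inl h)))))))
  · exact Or.inr (Or.inr (Or.inr (Or.inr (Or.inr (Or.inr (Or.inr (Or.inr (Or.inl h))))))))
  · exact Or.inr (Or.inr (Or.inr (Or.inr (Or.inr (Or.inr (Or.inr (Or.inr (Or.inr (Or.inl h)))))))))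

/-- All ports are connected by links and along the shores. -/
def Cnd (Y : Sys κ) : Prop := ∀ x y, x < Y.L → y < Y.L → Relation.ReflTransGen
  (fun x y => x < Y.L ∧ y < Y.L ∧ (Y.sh x = Y.sh y ∨ Y.Lk x y ∨ Y.Lk y x)) x y

/-- The conclusion of the cutting into groups. -/
def Cut (Y : Sys κ) (m N mm : ℕ) : Prop :=
  ∃ (ρ : ℕ → ℕ) (K : Fin m → Set κ) (Z : ∀ g, Sys (K g)) (e : Fin m → ℕ → ℕ),
    GrpFam Y m ρ K Z e ∧ ∀ g, (Z g).Pat0 N mm ∧ (Z g).Cnd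

variable {Y : Sys κ} {m N mm : ℕ}

/-- Common part of the proofs. -/
theorem cut_of (l0 l1 l2 : ℕ → List ℕ) (hN : 1 ≤ N)
    (hL0 : ∀ i < m * N, ∀ x ∈ l0 i, x < Y.L) (hL1 : ∀ i < m * N, ∀ x ∈ l1 i, x < Y.L)
    (hL2 : ∀ i < m * N, ∀ x ∈ l2 i, x < Y.L)
    (hs0 : ∃ s, ∀ i < m * N, ∀ x ∈ l0 i, Y.sh x = s)
    (hs1 : ∃ s, ∀ i < m * N, ∀ x ∈ l1 i, Y.sh x = s)
    (hs2 : ∃ s, ∀ i < m * N, ∀ x ∈ l2 i, Y.sh x = s)
    (h01 : Far (m * N) l0 l1) (h02 : Far (m * N) l0 l2) (h12 : Far (m * N) l1 l2)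
    (hr0 : Ser (m * N) l0 ∨ ∀ i j, i < j → j < m * N → ∀ x ∈ l0 i, ∀ y ∈ l0 j, y < x)
    (hr1 : Ser (m * N) l1 ∨ ∀ i j, i < j → j < m * N → ∀ x ∈ l1 i, ∀ y ∈ l1 j, y < x)
    (hr2 : Ser (m * N) l2 ∨ ∀ i j, i < j → j < m * N → ∀ x ∈ l2 i, ∀ y ∈ l2 j, y < x)
    (hown : ∀ i < m * N, ∀ j < m * N, i ≠ j → ∀ x, (x ∈ l0 i ∨ x ∈ l1 i ∨ x ∈ l2 i) →
      ∀ y, (y ∈ l0 j ∨ y ∈ l1 j ∨ y ∈ l2 j) → Y.own x ≠ Y.own y)
    (hne : ∀ i < m * N, ∃ x, x ∈ l0 i)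
    (hk1 : ∀ i < m * N, (∃ z, z ∈ l1 i) → ∃ x ∈ l0 i, ∃ z ∈ l1 i, Y.Lk x z)
    (hk2 : ∀ i < m * N, (∃ z, z ∈ l2 i) → ∃ x ∈ l0 i, ∃ z ∈ l2 i, Y.Lk x z)
    (hpat : ∀ (K : Set κ) (Z : Sys K) (g : ℕ) (T : ℕ → Prop) (pl ι : ℕ → ℕ) (s₀ s₁ s₂ : ℕ),
      Tr Y Z T pl ι → (∀ i < N, g * N + i < m * N) →
      (∀ i < N, ∀ u ∈ l0 (g * N + i), T u ∧ pl u = s₀) →
      (∀ i < N, ∀ u ∈ l1 (g * N + i), T u ∧ pl u = s₁) →
      (∀ i < N, ∀ u ∈ l2 (g * N + i), T u ∧ pl u = s₂) → Z.Pat0 N mm) :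
    Cut Y m N mm := by
  obtain ⟨pl, ρ, pa, K, Z, e, ι, hG, hT, hpa, hι⟩ := extract Y ![l0, l1, l2] m N hN (by
      intro a i hi x hx
      fin_cases a
      · exact hL0 i hi x hx
      · exact hL1 i hi x hx
      · exact hL2 i hi x hx) (by
      intro a i hi j hj x hx y hy
      obtain ⟨s, h0⟩ := hs0
      obtain ⟨s', h1⟩ := hs1
      obtain ⟨s'', h2⟩ := hs2
      fin_cases a
      · exact (h0 i hi x hx).trans (h0 j hj y hy).symm
      · exact (h1 i hi x hx).trans (h1 j hj y hy).symm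
      · exact (h2 i hi x hx).trans (h2 j hj y hy).symm) (far3 h01 h02 h12) (by
      intro a
      fin_cases a
      · exact hr0
      · exact hr1
      · exact hr2) (by
      have hall : ∀ (a : Fin 3) i x, x ∈ (![l0, l1, l2] : Fin 3 → ℕ → List ℕ) a i →
          (x ∈ l0 i ∨ x ∈ l1 i ∨ x ∈ l2 i) := by
        intro a i x hx
        fin_cases a
        · exact Or.inl hx
        · exact Or.inr (Or.inl hx)
        · exact Or.inr (Or.inr hx)
      intro a b i hi j hj hij x hx y hy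
      exact hown i hi j hj hij x (hall a i x hx) y (hall b j y hy)) (by
      intro i hi
      obtain ⟨x, hx⟩ := hne i hi
      exact ⟨0, x, hx⟩)
  refine ⟨ρ, K, Z, e, hG, fun g => ?_⟩
  have hb : ∀ i < N, (g : ℕ) * N + i < m * N := fun i hi => Tr.blk_lt g.2 hi
  refine ⟨?_, ?_⟩
  swap
  · -- connected
    have hm0 : ∀ i < N, ∀ x ∈ l0 ((g : ℕ) * N + i), Tm ![l0, l1, l2] N g x ∧ pl x = pa 0 :=
      fun i hi x hx => ⟨⟨0, i, hi, hx⟩, hpa 0 _ (hb i hi) x hx⟩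
    have hm1 : ∀ i < N, ∀ x ∈ l1 ((g : ℕ) * N + i), Tm ![l0, l1, l2] N g x ∧ pl x = pa 1 :=
      fun i hi x hx => ⟨⟨1, i, hi, hx⟩, hpa 1 _ (hb i hi) x hx⟩
    have hm2 : ∀ i < N, ∀ x ∈ l2 ((g : ℕ) * N + i), Tm ![l0, l1, l2] N g x ∧ pl x = pa 2 :=
      fun i hi x hx => ⟨⟨2, i, hi, hx⟩, hpa 2 _ (hb i hi) x hx⟩
    obtain ⟨x₀, hx₀⟩ := hne _ (hb 0 (by omega))
    have hbase := hm0 0 (by omega) x₀ hx₀
    set R : ℕ → ℕ → Prop := fun x y => x < (Z g).L ∧ y < (Z g).L ∧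
      ((Z g).sh x = (Z g).sh y ∨ (Z g).Lk x y ∨ (Z g).Lk y x) with hR
    have hRs : ∀ x y, R x y → R y x := by
      rintro x y ⟨h1, h2, h3⟩
      refine ⟨h2, h1, ?_⟩
      rcases h3 with h3 | h3 | h3
      · exact Or.inl h3.symm
      · exact Or.inr (Or.inr h3)
      · exact Or.inr (Or.inl h3)
    have key : ∀ i < (Z g).L, Relation.ReflTransGen R i (ι g x₀) := by
      intro i hi
      obtain ⟨⟨a, t, ht, hx⟩, h2⟩ := hι g i hi
      have hbL := (hT g).lt x₀ hbase.1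
      have hbs := ((hT g).sh x₀ hbase.1).trans hbase.2
      have far1 : ∀ l : ℕ → List ℕ, ∀ s, (∀ i < N, ∀ x ∈ l ((g : ℕ) * N + i),
          Tm ![l0, l1, l2] N g x ∧ pl x = s) →
          (∀ i < m * N, (∃ z, z ∈ l i) → ∃ x ∈ l0 i, ∃ z ∈ l i, Y.Lk x z) →
          e g i ∈ l ((g : ℕ) * N + t) → Relation.ReflTransGen R i (ι g x₀) := by
        intro l s hl hk hx
        obtain ⟨x, hx', z, hz, hxz⟩ := hk _ (hb t ht) ⟨_, hx⟩
        have q1 := hl t ht _ hx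
        have q2 := hl t ht z hz
        have q3 := hm0 t ht x hx'
        have q4 := (hT g).lk q3.1 q2.1 hxz
        have s1 := ((hT g).sh _ q1.1).trans q1.2
        rw [h2] at s1
        have s2 := ((hT g).sh _ q2.1).trans q2.2
        have s3 := ((hT g).sh _ q3.1).trans q3.2
        refine Relation.ReflTransGen.head (b := ι g z) ⟨hi, q4.2.1, Or.inl (s1.trans s2.symm)⟩ ?_
        refine Relation.ReflTransGen.head (b := ι g x) ⟨q4.2.1, q4.1, Or.inr (Or.inr q4)⟩ ?_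
        exact Relation.ReflTransGen.single ⟨q4.1, hbL, Or.inl (s3.trans hbs.symm)⟩
      fin_cases a
      · have hx0 : e g i ∈ l0 ((g : ℕ) * N + t) := hx
        have q1 := hm0 t ht _ hx0
        have s1 := ((hT g).sh _ q1.1).trans q1.2
        rw [h2] at s1
        exact Relation.ReflTransGen.single ⟨hi, hbL, Or.inl (s1.trans hbs.symm)⟩
      · exact far1 l1 _ hm1 hk1 hx
      · exact far1 l2 _ hm2 hk2 hx
    intro x y hx hy
    have hsym : ∀ a b, Relation.ReflTransGen R a b → Relation.ReflTransGen R b a := by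
      intro a b hab
      induction hab with
      | refl => exact Relation.ReflTransGen.refl
      | tail _ h2 ih => exact Relation.ReflTransGen.head (hRs _ _ h2) ih
    exact (key x hx).trans (hsym _ _ (key y hy))
  refine hpat (K g) (Z g) g _ pl (ι g) (pa 0) (pa 1) (pa 2) (hT g) hb ?_ ?_ ?_
  · intro i hi u hu
    exact ⟨⟨0, i, hi, hu⟩, hpa 0 _ (hb i hi) u hu⟩
  · intro i hi u hu
    exact ⟨⟨1, i, hi, hu⟩, hpa 1 _ (hb i hi) u hu⟩
  · intro i hi u hu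
    exact ⟨⟨2, i, hi, hu⟩, hpa 2 _ (hb i hi) u hu⟩

lemma nil_L : ∀ i < m * N, ∀ x ∈ (fun _ : ℕ => ([] : List ℕ)) i, x < Y.L := by
  intro i _ x hx
  simp at hx

lemma nil_s : ∃ s, ∀ i < m * N, ∀ x ∈ (fun _ : ℕ => ([] : List ℕ)) i, Y.sh x = s :=
  ⟨0, by intro i _ x hx; simp at hx⟩

lemma nil_k {l0 : ℕ → List ℕ} : ∀ i < m * N, (∃ z, z ∈ (fun _ : ℕ => ([] : List ℕ)) i) →
    ∃ x ∈ l0 i, ∃ z ∈ (fun _ : ℕ => ([] : List ℕ)) i, Y.Lk x z := by
  rintro i _ ⟨z, hz⟩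
  simp at hz

lemma nil_r : Ser (m * N) (fun _ : ℕ => ([] : List ℕ)) ∨ ∀ i j, i < j → j < m * N →
    ∀ x ∈ (fun _ : ℕ => ([] : List ℕ)) i, ∀ y ∈ (fun _ : ℕ => ([] : List ℕ)) j, y < x :=
  Or.inl (by intro i j _ _ x hx; simp at hx)

lemma OnSh.L {n : ℕ} {l : ℕ → List ℕ} (h : Y.OnSh n l) : ∀ i < n, ∀ x ∈ l i, x < Y.L := by
  obtain ⟨s, h⟩ := h
  exact fun i hi x hx => (h i hi x hx).1

lemma OnSh.s {n : ℕ} {l : ℕ → List ℕ} (h : Y.OnSh n l) : ∃ s, ∀ i < n, ∀ x ∈ l i, Y.sh x = s := by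
  obtain ⟨s, h⟩ := h
  exact ⟨s, fun i hi x hx => (h i hi x hx).2⟩

theorem cutA (hN : 1 ≤ N) {x z q : ℕ → ℕ} (hp : Y.PA (m * N) x z q) : Cut Y m N mm := by
  refine cut_of (fun i => [x i, q i]) (fun i => [z i]) (fun _ => []) hN hp.onP.L hp.onQ.L nil_L
    hp.onP.s hp.onQ.s nil_s hp.far Far.nil Far.nil (Or.inl hp.ser) (mon_ser hp.mon) nil_r ?_
    (fun i _ => ⟨x i, by simp⟩)
    (fun i hi _ => ⟨x i, by simp, z i, by simp, hp.lk i hi⟩) nil_k ?_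
  · intro i hi j hj hij u hu v hv
    refine hp.dis i hi j hj hij u ?_ v ?_
    · simp only [List.mem_cons, List.not_mem_nil, or_false] at hu ⊢
      tauto
    · simp only [List.mem_cons, List.not_mem_nil, or_false] at hv ⊢
      tauto
  · intro K Z g T pl ι s₀ s₁ s₂ hT hb h0 h1 h2
    exact Or.inl ⟨_, _, _, hT.pA hb hp h0 h1⟩

theorem cutB (hN : 1 ≤ N) {x z c d : ℕ → ℕ} (hp : Y.PB (m * N) x z c d) : Cut Y m N mm := by
  refine cut_of (fun i => [x i, c i]) (fun i => [z i]) (fun i => [d i]) hN hp.onP.L hp.onZ.L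
    hp.onD.L hp.onP.s hp.onZ.s hp.onD.s hp.far hp.far' hp.far'' (Or.inl hp.ser) (mon_ser hp.mon)
    (mon_ser hp.mon') ?_ (fun i _ => ⟨x i, by simp⟩)
    (fun i hi _ => ⟨x i, by simp, z i, by simp, hp.lk i hi⟩)
    (fun i hi _ => ⟨c i, by simp, d i, by simp, hp.lk' i hi⟩) ?_
  · intro i hi j hj hij u hu v hv
    refine hp.dis i hi j hj hij u ?_ v ?_
    · simp only [List.mem_cons, List.not_mem_nil, or_false] at hu ⊢
      tauto
    · simp only [List.mem_cons, List.not_mem_nil, or_false] at hv ⊢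
      tauto
  · intro K Z g T pl ι s₀ s₁ s₂ hT hb h0 h1 h2
    exact Or.inr (Or.inl ⟨_, _, _, _, hT.pB hb hp h0 h1 h2⟩)

theorem cutJ (hN : 1 ≤ N) {p q y z : ℕ → ℕ} (hp : Y.PJ (m * N) p q y z) : Cut Y m N mm := by
  refine cut_of (fun i => [y i, p i, z i]) (fun i => [q i]) (fun _ => []) hN hp.onP.L hp.onQ.L
    nil_L hp.onP.s hp.onQ.s nil_s hp.far Far.nil Far.nil (Or.inl hp.ser) (mon_ser hp.mon) nil_r ?_
    (fun i _ => ⟨y i, by simp⟩) (fun i hi _ => ⟨p i, by simp, q i, by simp, hp.lk i hi⟩) nil_k ?_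
  · intro i hi j hj hij u hu v hv
    refine hp.dis i hi j hj hij u ?_ v ?_
    · simp only [List.mem_cons, List.not_mem_nil, or_false] at hu ⊢
      tauto
    · simp only [List.mem_cons, List.not_mem_nil, or_false] at hv ⊢
      tauto
  · intro K Z g T pl ι s₀ s₁ s₂ hT hb h0 h1 h2
    exact Or.inr (Or.inr (Or.inl ⟨_, _, _, _, hT.pJ hb hp h0 h1⟩))

theorem cutX (hN : 1 ≤ N) {p q y z p' q' : ℕ → ℕ} (hp : Y.PX (m * N) p q y z p' q') :
    Cut Y m N mm := by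
  refine cut_of (fun i => [y i, p i, p' i]) (fun i => [q i, z i, q' i]) (fun _ => []) hN
    hp.onP.L hp.onQ.L nil_L hp.onP.s hp.onQ.s nil_s hp.far Far.nil Far.nil (Or.inl hp.ser) ?_
    nil_r ?_ (fun i _ => ⟨y i, by simp⟩)
    (fun i hi _ => ⟨p i, by simp, q i, by simp, hp.lk i hi⟩) nil_k ?_
  · rcases hp.cr with ⟨_, h⟩ | ⟨_, h⟩
    · exact Or.inl h
    · exact Or.inr h
  · intro i hi j hj hij u hu v hv
    refine hp.dis i hi j hj hij u ?_ v ?_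
    · simp only [List.mem_cons, List.not_mem_nil, or_false] at hu ⊢
      tauto
    · simp only [List.mem_cons, List.not_mem_nil, or_false] at hv ⊢
      tauto
  · intro K Z g T pl ι s₀ s₁ s₂ hT hb h0 h1 h2
    exact Or.inr (Or.inr (Or.inr (Or.inl ⟨_, _, _, _, _, _, hT.pX hb hp h0 h1⟩)))

theorem cutC (hN : 1 ≤ N) {a b y z v v' : ℕ → ℕ} (hp : Y.PC (m * N) a b y z v v') :
    Cut Y m N mm := by
  refine cut_of (fun i => [a i, y i, v i, z i, v' i]) (fun i => [b i]) (fun _ => []) hN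
    hp.onP.L hp.onQ.L nil_L hp.onP.s hp.onQ.s nil_s hp.far Far.nil Far.nil (Or.inl hp.ser)
    (mon_ser hp.mon) nil_r ?_ (fun i _ => ⟨a i, by simp⟩)
    (fun i hi _ => ⟨a i, by simp, b i, by simp, hp.lk i hi⟩) nil_k ?_
  · intro i hi j hj hij u hu w hw
    refine hp.dis i hi j hj hij u ?_ w ?_
    · simp only [List.mem_cons, List.not_mem_nil, or_false] at hu ⊢
      tauto
    · simp only [List.mem_cons, List.not_mem_nil, or_false] at hw ⊢
      tauto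
  · intro K Z g T pl ι s₀ s₁ s₂ hT hb h0 h1 h2
    exact Or.inr (Or.inr (Or.inr (Or.inr (Or.inl ⟨_, _, _, _, _, _, hT.pC hb hp h0 h1⟩))))

end Sys

end EN
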