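import Pool.Agent.EN.Groups5

/-!
# A pattern of large multiplicity is cut into groups (row SUB), part 6: bands, nests, the theorem
-/

namespace EN

set_option maxHeartbeats 1000000

/-- The ports of a band or of a nest. -/
def bl (u v : ℕ → ℕ → ℕ) (mm i : ℕ) : List ℕ := (List.range mm).flatMap (fun k => [u k i, v k i])

lemma mem_bl {u v : ℕ → ℕ → ℕ} {mm i x : ℕ} :
    x ∈ bl u v mm i ↔ ∃ k < mm, x = u k i ∨ x = v k i := by
  unfold bl
  rw [List.mem_flatMap]
  constructor
  · rintro ⟨k, hk, hx⟩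
    rw [List.mem_range] at hk
    simp only [List.mem_cons, List.not_mem_nil, or_false] at hx
    exact ⟨k, hk, hx⟩
  · rintro ⟨k, hk, hx⟩
    refine ⟨k, List.mem_range.2 hk, ?_⟩
    simp only [List.mem_cons, List.not_mem_nil, or_false]
    exact hx

namespace Sys

variable {κ : Type*} {Y : Sys κ} {m N mm : ℕ}

theorem cutM (hN : 1 ≤ N) (hm : 1 ≤ mm) {u v : ℕ → ℕ → ℕ} (hp : Y.PM (m * N) mm u v) :
    Cut Y m N mm := by
  have hL : ∀ i < m * N, ∀ x ∈ bl u v mm i, x < Y.L := by
    intro i hi x hx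
    obtain ⟨k, hk, rfl | rfl⟩ := mem_bl.1 hx
    · exact (hp.lk i hi k hk).1
    · exact (hp.lk i hi k hk).2.1
  refine cut_of (bl u v mm) (fun _ => []) (fun _ => []) hN hL nil_L nil_L ?_ nil_s nil_s Far.nil
    Far.nil Far.nil (Or.inl ?_) nil_r nil_r ?_ (fun i _ => ⟨u 0 i, mem_bl.2 ⟨0, by omega, by simp⟩⟩)
    nil_k nil_k ?_
  · obtain ⟨s, hs⟩ := hp.on
    refine ⟨s, ?_⟩
    intro i hi x hx
    obtain ⟨k, hk, rfl | rfl⟩ := mem_bl.1 hx
    · exact (hs i hi k hk).1
    · exact (hs i hi k hk).2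
  · intro i j hij hj x hx y hy
    obtain ⟨k, hk, hx⟩ := mem_bl.1 hx
    obtain ⟨k', hk', hy⟩ := mem_bl.1 hy
    have h1 := hp.uv i (by omega) k hk k hk
    have h2 := hp.ser i j hij hj k hk k' hk'
    have h3 := hp.uv j hj k' hk' k' hk'
    rcases hx with rfl | rfl <;> rcases hy with rfl | rfl <;> omega
  · intro i hi j hj hij x hx y hy
    have hx' : x ∈ bl u v mm i := by simpa using hx
    have hy' : y ∈ bl u v mm j := by simpa using hy
    obtain ⟨k, hk, hx⟩ := mem_bl.1 hx'
    obtain ⟨k', hk', hy⟩ := mem_bl.1 hy'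
    refine hp.dis i hi k hk j hj k' hk' ?_ x ?_ y ?_
    · intro h
      exact hij (congrArg Prod.fst h)
    · simp only [List.mem_cons, List.not_mem_nil, or_false]
      exact hx
    · simp only [List.mem_cons, List.not_mem_nil, or_false]
      exact hy
  · intro K Z g T pl ι s₀ s₁ s₂ hT hb h0 h1 h2
    refine Or.inr (Or.inr (Or.inr (Or.inr (Or.inr (Or.inl ⟨_, _, hT.pM hb hp (s₀ := s₀) ?_⟩)))))
    intro i hi k hk
    exact ⟨h0 i hi _ (mem_bl.2 ⟨k, hk, Or.inl rfl⟩), h0 i hi _ (mem_bl.2 ⟨k, hk, Or.inr rfl⟩)⟩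

namespace Ns

variable {n : ℕ} {a b : ℕ → ℕ → ℕ}

lemma bd (h : Y.Ns n mm a b) {i : ℕ} (hi : i < n) : ∀ s s', s ≤ s' → s' < mm →
    a s' i ≤ a s i ∧ b s i ≤ b s' i := by
  intro s s' hss
  induction s' with
  | zero =>
    intro _
    rw [show s = 0 by omega]
    exact ⟨le_rfl, le_rfl⟩
  | succ s' ih =>
    intro hs'
    rcases Nat.lt_or_ge s (s' + 1) with g | g
    · have h1 := ih (by omega) (by omega)
      have h2 := h.am i hi s' hs'
      have h3 := h.bm i hi s' hs'
      omega
    · rw [show s = s' + 1 by omega]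
      exact ⟨le_rfl, le_rfl⟩

/-- All ports of a nest. -/
lemma hull (h : Y.Ns n mm a b) {i : ℕ} (hi : i < n) (hm : 1 ≤ mm) : ∀ x ∈ bl a b mm i,
    a (mm - 1) i ≤ x ∧ x ≤ b (mm - 1) i := by
  intro x hx
  obtain ⟨k, hk, hx⟩ := mem_bl.1 hx
  have h1 := h.bd hi k (mm - 1) (by omega) (by omega)
  have h2 := h.bd hi 0 k (by omega) (by omega)
  have h3 := h.ab i hi
  rcases hx with rfl | rfl <;> omega

lemma pocket_hull (h : Y.Ns n mm a b) {i x : ℕ} (hi : i < n) (hm : 1 ≤ mm)
    (hx : a 0 i < x ∧ x < b 0 i) : a (mm - 1) i ≤ x ∧ x ≤ b (mm - 1) i := by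
  have h1 := h.bd hi 0 (mm - 1) (by omega) (by omega)
  omega

lemma sh_pocket (h : Y.Ns n mm a b) (hY : Y.Mono) (hm : 1 ≤ mm) : ∃ s, ∀ i < n,
    (∀ x ∈ bl a b mm i, Y.sh x = s) ∧ ∀ x, a 0 i < x → x < b 0 i → Y.sh x = s := by
  obtain ⟨s, hs⟩ := h.on
  refine ⟨s, ?_⟩
  intro i hi
  constructor
  · intro x hx
    obtain ⟨k, hk, rfl | rfl⟩ := mem_bl.1 hx
    · exact (hs i hi k hk).1
    · exact (hs i hi k hk).2
  · intro x h1 h2
    have h3 := hs i hi 0 (by omega)
    have h4 := (h.lk i hi 0 (by omega)).2.1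
    have h5 := hY (a 0 i) x h1.le (by omega)
    have h6 := hY x (b 0 i) h2.le h4
    omega

lemma bL (h : Y.Ns n mm a b) (hm : 1 ≤ mm) : ∀ i < n, (∀ x ∈ bl a b mm i, x < Y.L) ∧
    ∀ x, x < b 0 i → x < Y.L := by
  intro i hi
  constructor
  · intro x hx
    obtain ⟨k, hk, rfl | rfl⟩ := mem_bl.1 hx
    · exact (h.lk i hi k hk).1
    · exact (h.lk i hi k hk).2.1
  · intro x hx
    have := (h.lk i hi 0 (by omega)).2.1
    omega

lemma own_ne (h : Y.Ns n mm a b) {i j x y : ℕ} (hi : i < n) (hj : j < n) (hij : i ≠ j)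
    (hx : x ∈ bl a b mm i) (hy : y ∈ bl a b mm j) : Y.own x ≠ Y.own y := by
  obtain ⟨k, hk, hx⟩ := mem_bl.1 hx
  obtain ⟨k', hk', hy⟩ := mem_bl.1 hy
  refine h.dis i hi k hk j hj k' hk' ?_ x ?_ y ?_
  · intro h
    exact hij (congrArg Prod.fst h)
  · simp only [List.mem_cons, List.not_mem_nil, or_false]
    exact hx
  · simp only [List.mem_cons, List.not_mem_nil, or_false]
    exact hy

lemma mem_of {N' g : ℕ} {T : ℕ → Prop} {pl : ℕ → ℕ} {s₀ : ℕ}
    {l : ℕ → List ℕ}
    (h0 : ∀ i < N', ∀ u ∈ bl a b mm (g * N' + i) ++ l (g * N' + i), T u ∧ pl u = s₀) :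
    (∀ i < N', ∀ k < mm, (T (a k (g * N' + i)) ∧ pl (a k (g * N' + i)) = s₀) ∧
      (T (b k (g * N' + i)) ∧ pl (b k (g * N' + i)) = s₀)) ∧
    ∀ i < N', ∀ u ∈ l (g * N' + i), T u ∧ pl u = s₀ := by
  constructor
  · intro i hi k hk
    exact ⟨h0 i hi _ (List.mem_append_left _ (mem_bl.2 ⟨k, hk, Or.inl rfl⟩)),
      h0 i hi _ (List.mem_append_left _ (mem_bl.2 ⟨k, hk, Or.inr rfl⟩))⟩
  · intro i hi u hu
    exact h0 i hi u (List.mem_append_right _ hu)

end Ns

/-- Nests with extra ports in the pockets. -/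
theorem cut_ns (hY : Y.Mono) (hN : 1 ≤ N) (hm : 1 ≤ mm) {a b : ℕ → ℕ → ℕ}
    (hp : Y.Ns (m * N) mm a b) (l : ℕ → List ℕ)
    (hl : ∀ i < m * N, ∀ x ∈ l i, a 0 i < x ∧ x < b 0 i)
    (hd1 : ∀ i < m * N, ∀ j < m * N, i ≠ j → Y.Dj (l i) (l j))
    (hd2 : ∀ i < m * N, ∀ j < m * N, ∀ x ∈ l i, ∀ k < mm, ∀ y ∈ [a k j, b k j],
      Y.own x ≠ Y.own y)
    (hpat : ∀ (K : Set κ) (Z : Sys K) (g : ℕ) (T : ℕ → Prop) (pl ι : ℕ → ℕ) (s₀ : ℕ),
      Tr Y Z T pl ι → (∀ i < N, g * N + i < m * N) →
      (∀ i < N, ∀ k < mm, (T (a k (g * N + i)) ∧ pl (a k (g * N + i)) = s₀) ∧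
        (T (b k (g * N + i)) ∧ pl (b k (g * N + i)) = s₀)) →
      (∀ i < N, ∀ u ∈ l (g * N + i), T u ∧ pl u = s₀) → Z.Pat0 N mm) :
    Cut Y m N mm := by
  obtain ⟨s, hs⟩ := hp.sh_pocket hY hm
  have hL := hp.bL hm
  have hd2' : ∀ i < m * N, ∀ j < m * N, ∀ x ∈ l i, ∀ y ∈ bl a b mm j, Y.own x ≠ Y.own y := by
    intro i hi j hj x hx y hy
    obtain ⟨k, hk, hy⟩ := mem_bl.1 hy
    refine hd2 i hi j hj x hx k hk y ?_
    simp only [List.mem_cons, List.not_mem_nil, or_false]
    exact hy
  refine cut_of (fun i => bl a b mm i ++ l i) (fun _ => []) (fun _ => []) hN ?_ nil_L nil_L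
    ⟨s, ?_⟩ nil_s nil_s Far.nil Far.nil Far.nil (Or.inl ?_) nil_r nil_r ?_
    (fun i _ => ⟨a 0 i, List.mem_append_left _ (mem_bl.2 ⟨0, by omega, by simp⟩)⟩) nil_k nil_k ?_
  · intro i hi x hx
    rcases List.mem_append.1 hx with h | h
    · exact (hL i hi).1 x h
    · exact (hL i hi).2 x (hl i hi x h).2
  · intro i hi x hx
    rcases List.mem_append.1 hx with h | h
    · exact (hs i hi).1 x h
    · exact (hs i hi).2 x (hl i hi x h).1 (hl i hi x h).2
  · refine ser_hull (a (mm - 1)) (b (mm - 1)) ?_ ?_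
    · intro i hi x hx
      rcases List.mem_append.1 hx with h | h
      · exact hp.hull hi hm x h
      · exact hp.pocket_hull hi hm (hl i hi x h)
    · intro i j hij hj
      exact hp.ser i j hij hj _ (by omega) _ (by omega)
  · intro i hi j hj hij x hx y hy
    have hx' : x ∈ bl a b mm i ++ l i := by
      rcases hx with h | h | h
      · exact h
      · exact absurd h (by simp)
      · exact absurd h (by simp)
    have hy' : y ∈ bl a b mm j ++ l j := by
      rcases hy with h | h | h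
      · exact h
      · exact absurd h (by simp)
      · exact absurd h (by simp)
    rcases List.mem_append.1 hx' with h | h
    · rcases List.mem_append.1 hy' with h' | h'
      · exact hp.own_ne hi hj hij h h'
      · exact (hd2' j hj i hi y h' x h).symm
    · rcases List.mem_append.1 hy' with h' | h'
      · exact hd2' i hi j hj x h y h'
      · exact hd1 i hi j hj hij x h y h'
  · intro K Z g T pl ι s₀ s₁ s₂ hT hb h0 h1 h2
    obtain ⟨q1, q2⟩ := Ns.mem_of (a := a) (b := b) (l := l) h0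
    exact hpat K Z g T pl ι s₀ hT hb q1 q2

theorem cutS (hY : Y.Mono) (hN : 1 ≤ N) (hm : 1 ≤ mm) {a b : ℕ → ℕ → ℕ} {x : ℕ → ℕ}
    (hp : Y.PS (m * N) mm a b x) : Cut Y m N mm := by
  refine cut_ns hY hN hm hp.ns (fun i => [x i]) ?_ hp.dis ?_ ?_
  · intro i hi u hu
    rw [List.mem_singleton] at hu
    rw [hu]
    exact hp.px i hi
  · intro i hi j hj u hu k hk y hy
    exact hp.dj i hi j hj k hk u hu y hy
  · intro K Z g T pl ι s₀ hT hb h0 h1
    exact Or.inr (Or.inr (Or.inr (Or.inr (Or.inr (Or.inr (Or.inl ⟨_, _, _, hT.pS hb hm hp h0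
      (fun i hi => h1 i hi _ (by simp))⟩))))))

theorem cutSC (hY : Y.Mono) (hN : 1 ≤ N) (hm : 1 ≤ mm) {a b : ℕ → ℕ → ℕ} {y z v v' : ℕ → ℕ}
    (hp : Y.PSC (m * N) mm a b y z v v') : Cut Y m N mm := by
  refine cut_ns hY hN hm hp.ns (fun i => [y i, z i, v i, v' i]) ?_ hp.dis ?_ ?_
  · intro i hi u hu
    obtain ⟨o1, o2, o3, o4, o5⟩ := hp.ord i hi
    simp only [List.mem_cons, List.not_mem_nil, or_false] at hu
    rcases hu with rfl | rfl | rfl | rfl <;> omega
  · intro i hi j hj u hu k hk w hw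
    exact hp.dj i hi j hj k hk u hu w hw
  · intro K Z g T pl ι s₀ hT hb h0 h1
    exact Or.inr (Or.inr (Or.inr (Or.inr (Or.inr (Or.inr (Or.inr (Or.inr (Or.inr
      ⟨_, _, _, _, _, _, hT.pSC hb hm hp h0 h1⟩))))))))

theorem cutSF (hY : Y.Mono) (hN : 1 ≤ N) (hm : 1 ≤ mm) {a b : ℕ → ℕ → ℕ} {x z : ℕ → ℕ}
    (hp : Y.PSF (m * N) mm a b x z) : Cut Y m N mm := by
  obtain ⟨s, hs⟩ := hp.ns.sh_pocket hY hm
  have hL := hp.ns.bL hm
  have hxin : ∀ i < m * N, ∀ u ∈ bl a b mm i ++ [x i], a (mm - 1) i ≤ u ∧ u ≤ b (mm - 1) i := by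
    intro i hi u hu
    rcases List.mem_append.1 hu with h | h
    · exact hp.ns.hull hi hm u h
    · rw [List.mem_singleton] at h
      rw [h]
      exact hp.ns.pocket_hull hi hm (hp.px i hi)
  refine cut_of (fun i => bl a b mm i ++ [x i]) (fun i => [z i]) (fun _ => []) hN ?_ hp.onQ.L
    nil_L ⟨s, ?_⟩ hp.onQ.s nil_s ?_ Far.nil Far.nil (Or.inl ?_) (mon_ser hp.mon) nil_r ?_
    (fun i _ => ⟨a 0 i, List.mem_append_left _ (mem_bl.2 ⟨0, by omega, by simp⟩)⟩)
    (fun i hi _ => ⟨x i, List.mem_append_right _ (by simp), z i, by simp, hp.lk i hi⟩) nil_k ?_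
  · intro i hi u hu
    rcases List.mem_append.1 hu with h | h
    · exact (hL i hi).1 u h
    · rw [List.mem_singleton] at h
      rw [h]
      exact (hL i hi).2 _ (hp.px i hi).2
  · intro i hi u hu
    rcases List.mem_append.1 hu with h | h
    · exact (hs i hi).1 u h
    · rw [List.mem_singleton] at h
      rw [h]
      exact (hs i hi).2 _ (hp.px i hi).1 (hp.px i hi).2
  · rcases hp.far (mm - 1) (by omega) with hf | hf
    · left
      intro i hi j hj u hu v hv
      have h1 := hxin i hi u hu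
      have h2 := hf i hi j hj (b (mm - 1) i) (by simp) v hv
      omega
    · right
      intro i hi j hj u hu v hv
      have h1 := hxin i hi u hu
      have h2 := hf i hi j hj (a (mm - 1) i) (by simp) v hv
      omega
  · refine ser_hull (a (mm - 1)) (b (mm - 1)) hxin ?_
    intro i j hij hj
    exact hp.ns.ser i j hij hj _ (by omega) _ (by omega)
  · intro i hi j hj hij u hu v hv
    have key : ∀ i j, i < m * N → j < m * N → ∀ u ∈ [x i, z i], ∀ v ∈ bl a b mm j,
        Y.own u ≠ Y.own v := by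
      intro i j hi hj u hu v hv
      obtain ⟨k, hk, hv⟩ := mem_bl.1 hv
      refine hp.dj i hi j hj k hk u hu v ?_
      simp only [List.mem_cons, List.not_mem_nil, or_false]
      exact hv
    have hu' : u ∈ bl a b mm i ∨ u ∈ [x i, z i] := by
      rcases hu with h | h | h
      · rcases List.mem_append.1 h with h | h
        · exact Or.inl h
        · right
          rw [List.mem_singleton] at h
          rw [h]
          simp
      · right
        rw [List.mem_singleton] at h
        rw [h]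
        simp
      · exact absurd h (by simp)
    have hv' : v ∈ bl a b mm j ∨ v ∈ [x j, z j] := by
      rcases hv with h | h | h
      · rcases List.mem_append.1 h with h | h
        · exact Or.inl h
        · right
          rw [List.mem_singleton] at h
          rw [h]
          simp
      · right
        rw [List.mem_singleton] at h
        rw [h]
        simp
      · exact absurd h (by simp)
    rcases hu' with h | h
    · rcases hv' with h' | h'
      · exact hp.ns.own_ne hi hj hij h h'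
      · exact (key j i hj hi v h' u h).symm
    · rcases hv' with h' | h'
      · exact key i j hi hj u h v h'
      · exact hp.dis i hi j hj hij u h v h'
  · intro K Z g T pl ι s₀ s₁ s₂ hT hb h0 h1 h2
    obtain ⟨q1, q2⟩ := Ns.mem_of (a := a) (b := b) (l := fun i => [x i]) h0
    exact Or.inr (Or.inr (Or.inr (Or.inr (Or.inr (Or.inr (Or.inr (Or.inl
      ⟨_, _, _, _, hT.pSF hb hm hp q1 (fun i hi => q2 i hi _ (by simp)) h1⟩)))))))

theorem cutSG (hY : Y.Mono) (hN : 1 ≤ N) (hm : 1 ≤ mm) {d : Bool} {a b : ℕ → ℕ → ℕ}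
    {x z : ℕ → ℕ} (hp : Y.PSG (m * N) mm d a b x z) : Cut Y m N mm := by
  obtain ⟨s, hs⟩ := hp.ns.sh_pocket hY hm
  have hL := hp.ns.bL hm
  have hab : ∀ i < m * N, a (mm - 1) i ≤ b (mm - 1) i := by
    intro i hi
    have h1 := hp.ns.bd hi 0 (mm - 1) (by omega) (by omega)
    have h2 := hp.ns.ab i hi
    omega
  have hxin : ∀ i < m * N, ∀ u ∈ bl a b mm i ++ [x i], a (mm - 1) i ≤ u ∧ u ≤ b (mm - 1) i := by
    intro i hi u hu
    rcases List.mem_append.1 hu with h | h
    · exact hp.ns.hull hi hm u h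
    · rw [List.mem_singleton] at h
      rw [h]
      exact hp.ns.pocket_hull hi hm (hp.px i hi)
  have hmem : ∀ i u, u ∈ bl a b mm i ++ [x i, z i] → u ∈ bl a b mm i ++ [x i] ∨ u = z i := by
    intro i u hu
    rcases List.mem_append.1 hu with h | h
    · exact Or.inl (List.mem_append_left _ h)
    · simp only [List.mem_cons, List.not_mem_nil, or_false] at h
      rcases h with h | h
      · left
        rw [h]
        exact List.mem_append_right _ (by simp)
      · exact Or.inr h
  refine cut_of (fun i => bl a b mm i ++ [x i, z i]) (fun _ => []) (fun _ => []) hN ?_ nil_L nil_L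
    ⟨s, ?_⟩ nil_s nil_s Far.nil Far.nil Far.nil (Or.inl ?_) nil_r nil_r ?_
    (fun i _ => ⟨a 0 i, List.mem_append_left _ (mem_bl.2 ⟨0, by omega, by simp⟩)⟩) nil_k nil_k ?_
  · intro i hi u hu
    rcases hmem i u hu with h | h
    · rcases List.mem_append.1 h with h | h
      · exact (hL i hi).1 u h
      · rw [List.mem_singleton] at h
        rw [h]
        exact (hL i hi).2 _ (hp.px i hi).2
    · rw [h]
      exact (hp.lk i hi).2.1
  · intro i hi u hu
    rcases hmem i u hu with h | h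
    · rcases List.mem_append.1 h with h | h
      · exact (hs i hi).1 u h
      · rw [List.mem_singleton] at h
        rw [h]
        exact (hs i hi).2 _ (hp.px i hi).1 (hp.px i hi).2
    · rw [h, hp.sh i hi]
      exact (hs i hi).2 _ (hp.px i hi).1 (hp.px i hi).2
  · cases d with
    | true =>
      have ho : ∀ i < m * N, b (mm - 1) i < z i := fun i hi => by
        have := hp.out i hi (mm - 1) (by omega)
        simpa using this
      have hg : ∀ i, i + 1 < m * N → z i < a (mm - 1) (i + 1) := fun i hi => by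
        have := hp.gap i hi (mm - 1) (by omega)
        simpa using this
      refine ser_hull (a (mm - 1)) z ?_ ?_
      · intro i hi u hu
        have h1 := ho i hi
        have h2 := hab i hi
        rcases hmem i u hu with h | h
        · have := hxin i hi u h
          omega
        · omega
      · intro i j hij hj
        have h1 := hg i (by omega)
        rcases Nat.lt_or_ge (i + 1) j with h | h
        · have h2 := hab (i + 1) (by omega)
          have h3 := hp.ns.ser (i + 1) j h hj (mm - 1) (by omega) (mm - 1) (by omega)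
          omega
        · rw [show j = i + 1 by omega]
          exact h1
    | false =>
      have ho : ∀ i < m * N, z i < a (mm - 1) i := fun i hi => by
        have := hp.out i hi (mm - 1) (by omega)
        simpa using this
      have hg : ∀ i, i + 1 < m * N → b (mm - 1) i < z (i + 1) := fun i hi => by
        have := hp.gap i hi (mm - 1) (by omega)
        simpa using this
      refine ser_hull z (b (mm - 1)) ?_ ?_
      · intro i hi u hu
        have h1 := ho i hi
        have h2 := hab i hi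
        rcases hmem i u hu with h | h
        · have := hxin i hi u h
          omega
        · omega
      · intro i j hij hj
        rcases Nat.lt_or_ge (i + 1) j with h | h
        · have h2 := hab (j - 1) (by omega)
          have h3 := hp.ns.ser i (j - 1) (by omega) (by omega) (mm - 1) (by omega) (mm - 1)
            (by omega)
          have h4 := hg (j - 1) (by omega)
          rw [show j - 1 + 1 = j by omega] at h4
          omega
        · rw [show j = i + 1 by omega]
          exact hg i (by omega)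
  · intro i hi j hj hij u hu v hv
    have key : ∀ i j, i < m * N → j < m * N → ∀ u ∈ [x i, z i], ∀ v ∈ bl a b mm j,
        Y.own u ≠ Y.own v := by
      intro i j hi hj u hu v hv
      obtain ⟨k, hk, hv⟩ := mem_bl.1 hv
      refine hp.dj i hi j hj k hk u hu v ?_
      simp only [List.mem_cons, List.not_mem_nil, or_false]
      exact hv
    have hu' : u ∈ bl a b mm i ++ [x i, z i] := by
      rcases hu with h | h | h
      · exact h
      · exact absurd h (by simp)
      · exact absurd h (by simp)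
    have hv' : v ∈ bl a b mm j ++ [x j, z j] := by
      rcases hv with h | h | h
      · exact h
      · exact absurd h (by simp)
      · exact absurd h (by simp)
    rcases List.mem_append.1 hu' with h | h
    · rcases List.mem_append.1 hv' with h' | h'
      · exact hp.ns.own_ne hi hj hij h h'
      · exact (key j i hj hi v h' u h).symm
    · rcases List.mem_append.1 hv' with h' | h'
      · exact key i j hi hj u h v h'
      · exact hp.dis i hi j hj hij u h v h'
  · intro K Z g T pl ι s₀ s₁ s₂ hT hb h0 h1 h2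
    obtain ⟨q1, q2⟩ := Ns.mem_of (a := a) (b := b) (l := fun i => [x i, z i]) h0
    exact Or.inr (Or.inr (Or.inr (Or.inr (Or.inr (Or.inr (Or.inr (Or.inr (Or.inl
      ⟨_, _, _, _, _, hT.pSG hb hm hp q1 (fun i hi => q2 i hi _ (by simp))
        (fun i hi => q2 i hi _ (by simp))⟩))))))))

/-- **A pattern of multiplicity `m * N` is cut into `m` groups of multiplicity `N`** (or it is a
complete minor). -/
theorem Pat.groups (hY : Y.Mono) (hN : 1 ≤ N) (hm : 1 ≤ mm) {t : ℕ} (hp : Y.Pat (m * N) mm t) :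
    Y.KT t ∨ Cut Y m N mm := by
  rcases hp with ⟨x, z, q, hp⟩ | ⟨x, z, c, d, hp⟩ | ⟨p, q, y, z, hp⟩ | ⟨p, q, y, z, p', q', hp⟩ |
    ⟨a, b, y, z, v, v', hp⟩ | ⟨u, v, hp⟩ | ⟨a, b, x, hp⟩ | ⟨a, b, x, z, hp⟩ | ⟨d, a, b, x, z, hp⟩ |
    ⟨a, b, y, z, v, v', hp⟩ | hp
  · exact Or.inr (cutA hN hp)
  · exact Or.inr (cutB hN hp)
  · exact Or.inr (cutJ hN hp)
  · exact Or.inr (cutX hN hp)
  · exact Or.inr (cutC hN hp)
  · exact Or.inr (cutM hN hm hp)
  · exact Or.inr (cutS hY hN hm hp)
  · exact Or.inr (cutSF hY hN hm hp)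
  · exact Or.inr (cutSG hY hN hm hp)
  · exact Or.inr (cutSC hY hN hm hp)
  · exact Or.inl hp

end Sys

end EN
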