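import Pool.Agent.EN.Groups6
import Pool.Agent.EN.MatchU

/-!
# The groups of a pattern in the host (row G): restriction of `RealU`
-/

open Set BIC

namespace EN

set_option maxHeartbeats 1000000

variable {α V κ : Type*} {M : Matroid α} {S : Set α} {ends : α → Sym2 V} {Y : Sys κ}
  {P : ℕ → ℕ × ℕ → V} {lo hi : ℕ → ℕ} {n : ℕ} {B : κ → Set V} {col : ℕ → ℕ}

lemma Page.sub_of {Q : ℕ × ℕ → V} {l r l' r' : ℕ} (h : Page S ends Q l r n)
    (h' : ∀ x, l' ≤ x → x ≤ r' → l ≤ x ∧ x ≤ r) : Page S ends Q l' r' n where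
  inj c c' h1 h2 h3 h4 h5 h6 h7 := h.inj c c' (h' _ h1 h2).1 (h' _ h1 h2).2 h3 (h' _ h4 h5).1
    (h' _ h4 h5).2 h6 h7
  ver x b h1 h2 h3 := h.ver x b (h' _ h1 h2).1 (h' _ h1 h2).2 h3
  hor x b h1 h2 h3 h4 := by
    have e1 := h' x h1 h2.le
    have e2 := h' (x + 1) (by omega) (by omega)
    exact h.hor x b e1.1 (by omega) h3 h4

open scoped Classical in
/-- **Row G.**  The groups of a pattern live in disjoint parts of the host. -/
theorem RealU.grp {m : ℕ} {ρ : ℕ → ℕ} {K : Fin m → Set κ} {Z : ∀ g, Sys (K g)}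
    {e : Fin m → ℕ → ℕ} (h : RealU Y M S ends P lo hi n B col) (hG : Y.GrpFam m ρ K Z e) :
    ∃ lo' hi' : Fin m → ℕ → ℕ,
      (∀ g, RealU (Z g) M S ends (fun s => P (ρ s)) (lo' g) (hi' g) n (fun k => B k)
        (fun x => col (e g x))) ∧
      (∀ g s x, lo' g s ≤ x → x ≤ hi' g s → lo (ρ s) ≤ x ∧ x ≤ hi (ρ s) ∧ s < 3 ∧
        ∃ i < (Z g).L, (Z g).sh i = s) ∧
      ∀ g g' s s', (g, s) ≠ (g', s') → ∀ c ∈ Reg (lo' g s) (hi' g s) n,
        ∀ c' ∈ Reg (lo' g' s') (hi' g' s') n, P (ρ s) c ≠ P (ρ s') c' := by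
  set A : Fin m → ℕ → Finset ℕ := fun g s =>
    ((Finset.range (Z g).L).filter (fun i => (Z g).sh i = s)).image (fun i => col (e g i)) with hA
  have hmemA : ∀ g s x, x ∈ A g s ↔ ∃ i < (Z g).L, (Z g).sh i = s ∧ col (e g i) = x := by
    intro g s x
    simp only [hA, Finset.mem_image, Finset.mem_filter, Finset.mem_range]
    constructor
    · rintro ⟨i, ⟨h1, h2⟩, h3⟩
      exact ⟨i, h1, h2, h3⟩
    · rintro ⟨i, h1, h2, h3⟩
      exact ⟨i, ⟨h1, h2⟩, h3⟩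
  set lo' : Fin m → ℕ → ℕ := fun g s => if h : (A g s).Nonempty then (A g s).min' h else 1 with hlo
  set hi' : Fin m → ℕ → ℕ := fun g s => if h : (A g s).Nonempty then (A g s).max' h else 0 with hhi
  have hbd : ∀ g s x, lo' g s ≤ x → x ≤ hi' g s → ∃ i < (Z g).L, ∃ j < (Z g).L,
      (Z g).sh i = s ∧ (Z g).sh j = s ∧ col (e g i) ≤ x ∧ x ≤ col (e g j) := by
    intro g s x h1 h2
    by_cases hne : (A g s).Nonempty
    · simp only [hlo, hhi, dif_pos hne] at h1 h2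
      obtain ⟨i, hi1, hi2, hi3⟩ := (hmemA g s _).1 ((A g s).min'_mem hne)
      obtain ⟨j, hj1, hj2, hj3⟩ := (hmemA g s _).1 ((A g s).max'_mem hne)
      exact ⟨i, hi1, j, hj1, hi2, hj2, by omega, by omega⟩
    · simp only [hlo, hhi, dif_neg hne] at h1 h2
      omega
  have hprt : ∀ g, ∀ i < (Z g).L, lo (ρ ((Z g).sh i)) ≤ col (e g i) ∧
      col (e g i) ≤ hi (ρ ((Z g).sh i)) := by
    intro g i hi
    have h1 := h.prt (e g i) (hG.e_lt g i hi)
    rw [hG.ρsh g i hi] at h1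
    exact ⟨h1.1, h1.2.1⟩
  have hsub : ∀ g s x, lo' g s ≤ x → x ≤ hi' g s → lo (ρ s) ≤ x ∧ x ≤ hi (ρ s) ∧ s < 3 ∧
      ∃ i < (Z g).L, (Z g).sh i = s := by
    intro g s x h1 h2
    obtain ⟨i, hi1, j, hj1, hi2, hj2, h3, h4⟩ := hbd g s x h1 h2
    have h5 := hprt g i hi1
    have h6 := hprt g j hj1
    have h7 := hG.sh3 g i hi1
    rw [hi2] at h5 h7
    rw [hj2] at h6
    exact ⟨by omega, by omega, h7, i, hi1, hi2⟩
  have hReg : ∀ g s, ∀ c ∈ Reg (lo' g s) (hi' g s) n, c ∈ Reg (lo (ρ s)) (hi (ρ s)) n := by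
    intro g s c hc
    rw [mem_Reg] at hc ⊢
    have := hsub g s c.1 hc.1 hc.2.1
    exact ⟨this.1, this.2.1, hc.2.2⟩
  have hdis : ∀ g g' s s', (g, s) ≠ (g', s') → ∀ c ∈ Reg (lo' g s) (hi' g s) n,
      ∀ c' ∈ Reg (lo' g' s') (hi' g' s') n, P (ρ s) c ≠ P (ρ s') c' := by
    intro g g' s s' hne c hc c' hc'
    by_cases hs : ρ s = ρ s'
    · intro heq
      have hc1 := hReg g s c hc
      have hc1' := hReg g' s' c' hc'
      rw [mem_Reg] at hc hc' hc1 hc1'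
      rw [← hs] at hc1' heq
      have h1 := (h.pgs.page (ρ s)).inj c c' hc1.1 hc1.2.1 hc1.2.2 hc1'.1 hc1'.2.1 hc1'.2.2 heq
      obtain ⟨i, hi1, j, hj1, hi2, hj2, h3, h4⟩ := hbd g s c.1 hc.1 hc.2.1
      obtain ⟨i', hi1', j', hj1', hi2', hj2', h3', h4'⟩ := hbd g' s' c'.1 hc'.1 hc'.2.1
      rw [← h1] at h3' h4'
      have hshr : ∀ g, ∀ i < (Z g).L, ∀ s, (Z g).sh i = s → Y.sh (e g i) = ρ s := by
        intro g i hi s hs
        rw [hG.ρsh g i hi, hs]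
      rcases hG.sep g g' s s' hne with hh | hh
      · have q1 := hh j hj1 i' hi1' hj2 hi2'
        have q2 := h.cinc _ _ q1 (hG.e_lt g' i' hi1')
          (by rw [hshr g j hj1 s hj2, hshr g' i' hi1' s' hi2', hs])
        omega
      · have q1 := hh i hi1 j' hj1' hi2 hj2'
        have q2 := h.cinc _ _ q1 (hG.e_lt g i hi1)
          (by rw [hshr g i hi1 s hi2, hshr g' j' hj1' s' hj2', hs])
        omega
    · exact h.pgs.dis (ρ s) (ρ s') hs c (hReg g s c hc) c' (hReg g' s' c' hc')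
  refine ⟨lo', hi', ?_, hsub, hdis⟩
  intro g
  have hmn : ∀ i < (Z g).L, lo' g ((Z g).sh i) ≤ col (e g i) ∧ col (e g i) ≤ hi' g ((Z g).sh i) := by
    intro i hi
    have hm := (hmemA g ((Z g).sh i) _).2 ⟨i, hi, rfl, rfl⟩
    have hne : (A g ((Z g).sh i)).Nonempty := ⟨_, hm⟩
    simp only [hlo, hhi, dif_pos hne]
    exact ⟨Finset.min'_le _ _ hm, Finset.le_max' _ _ hm⟩
  refine ⟨⟨?_, ?_⟩, fun k => h.fin k, fun k => h.con k, ?_, ?_, ?_, ?_, ?_, ?_⟩
  · intro s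
    refine (h.pgs.page (ρ s)).sub_of ?_
    intro x h1 h2
    have := hsub g s x h1 h2
    exact ⟨this.1, this.2.1⟩
  · intro s s' hs c hc c' hc'
    exact hdis g g s s' (fun hh => hs (congrArg Prod.snd hh)) c hc c' hc'
  · intro k k' hkk
    exact h.dis _ _ (fun hh => hkk (Subtype.ext hh))
  · intro k s c hc
    exact h.pB _ _ c (hReg g s c hc)
  · intro x hx
    have h1 := h.prt (e g x) (hG.e_lt g x hx)
    have h2 := hmn x hx
    refine ⟨h2.1, h2.2, ?_⟩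
    have h3 := h1.2.2
    rw [hG.ρsh g x hx, ← hG.own g x hx] at h3
    exact h3
  · intro k k' hkk
    exact h.cnt _ _ ((hG.ct g k k').1 hkk)
  · intro x y hxy hy hsh
    refine h.cinc _ _ (hG.e_inc g x y hxy hy) (hG.e_lt g y hy) ?_
    rw [hG.ρsh g x (by omega), hG.ρsh g y hy, hsh]
  · intro I hI
    have h1 := h.grd (I.image Subtype.val) (by
      intro k hk
      obtain ⟨k', hk', rfl⟩ := Finset.mem_image.1 hk
      exact (hG.gr g k').1 (hI k' hk'))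
    exact (JU.image (Subtype.val_injective.injOn)).1 h1

end EN
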