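import Pool.Agent.EN.MatchU

/-!
# Exposed pictures: the matching theorems with the conclusion `GmE`
-/

open Set
open scoped Matroid

namespace EN

open BIC Gad

variable {α V : Type*} {M : Matroid α} {S : Set α} {ends : α → Sym2 V}

/-- **`K_t` model with columns.** -/
theorem GmK.gmE {w t n : ℕ} {T : Set (ℕ → V)} (ht : (2 * w) * (2 * w) + 1 ≤ t)
    (h : GmK S ends T n t) : GmE S ends T n (2 * w) := by
  obtain ⟨B, hBf, hBc, hBB, hadj, b, hb, hT⟩ := h
  have hlt : ∀ c ∈ Cl (2 * w), idx (2 * w) c < (2 * w) * (2 * w) := fun c hc => idx_lt hc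
  have hinj : ∀ c ∈ Cl (2 * w), ∀ c' ∈ Cl (2 * w), c ≠ c' → idx (2 * w) c ≠ idx (2 * w) c' :=
    fun c hc c' hc' hne h => hne (idx_inj hc hc' h)
  refine ⟨fun c => B (idx (2 * w) c), B ((2 * w) * (2 * w)),
    hBf _ (by omega), hBc _ (by omega), fun c hc => hBf _ (by have := hlt c hc; omega),
    fun c hc => hBc _ (by have := hlt c hc; omega), ?_, ?_, ?_, ?_, b, hb, ?_⟩
  · intro c hc c' hc' hne
    have h1 := hlt c hc
    have h2 := hlt c' hc'
    exact hBB _ (by omega) _ (by omega) (hinj c hc c' hc' hne)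
  · intro c hc
    have h1 := hlt c hc
    exact hBB _ (by omega) _ (by omega) (by omega)
  · intro c c' h
    have h1 := hlt c h.1
    have h2 := hlt c' h.2.1
    exact hadj _ (by omega) _ (by omega) (hinj c h.1 c' h.2.1 h.ne)
  · intro c hc
    have h1 := hlt c hc
    exact hadj _ (by omega) _ (by omega) (by omega)
  · intro c hc
    have h1 := hlt c hc
    obtain ⟨f, hf, g1, g2⟩ := hT (idx (2 * w) c) (by omega)
    exact ⟨f, hf, g1, g2 _ (by omega) (by omega)⟩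

/-- A large part of a finite index set with a property or without it. -/
lemma exists_half {t N : ℕ} (ht : 2 * N ≤ t) (p : Fin t → Prop) :
    ∃ g : Fin N → Fin t, Function.Injective g ∧ ((∀ i, p (g i)) ∨ ∀ i, ¬ p (g i)) := by
  classical
  have key : ∀ q : Fin t → Prop, ∀ F₀ : Finset (Fin t), (∀ i ∈ F₀, q i) → N ≤ F₀.card →
      ∃ g : Fin N → Fin t, Function.Injective g ∧ ∀ i, q (g i) := by
    intro q F₀ hq hc
    obtain ⟨F, hF, hc⟩ := Finset.exists_subset_card_eq hc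
    exact ⟨fun i => F.orderEmbOfFin hc i, (F.orderEmbOfFin hc).injective, fun i =>
      hq _ (hF (Finset.orderEmbOfFin_mem F hc i))⟩
  have h1 := Finset.card_sdiff_add_card_eq_card (Finset.subset_univ (Finset.univ.filter p))
  rw [Finset.card_univ, Fintype.card_fin] at h1
  rcases Nat.lt_or_ge (Finset.univ.filter p).card N with h2 | h2
  · obtain ⟨g, hg, hg'⟩ := key (fun i => ¬ p i) (Finset.univ \ Finset.univ.filter p) (fun i hi => by
      rw [Finset.mem_sdiff, Finset.mem_filter] at hi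
      exact fun h3 => hi.2 ⟨Finset.mem_univ _, h3⟩) (by omega)
    exact ⟨g, hg, Or.inr hg'⟩
  · obtain ⟨g, hg, hg'⟩ := key p _ (fun i hi => (Finset.mem_filter.1 hi).2) h2
    exact ⟨g, hg, Or.inl hg'⟩

section

variable {κ : Type*} {Y : Sys κ} {P : ℕ → ℕ × ℕ → V} {lo hi : ℕ → ℕ} {n : ℕ} {G : Set V}
  {B : κ → Set V} {col : ℕ → ℕ}

/-- **Pattern (K_t) as a clique model exposed on columns** (level `1`). -/
theorem Real.gmK (h : Real Y S ends P lo hi n G B col) {N t : ℕ} (hN2 : 2 ≤ N)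
    (ht : 2 * N ≤ t) (hn : 1 ≤ n)
    (hsy : ∀ k k', Y.ct k k' → Y.ct k' k)
    (ha : ∀ k k', Y.ct k k' → ∃ x < Y.L, Y.own x = k') (hp : Y.KT t) :
    GmK S ends (PCols P lo hi) n N := by
  classical
  obtain ⟨K, h1, h2, h3, h4⟩ := hp
  have hfin : ∀ a : ℕ ⊕ κ, (hset Y P B col a).Finite := by
    intro a
    cases a with
    | inl x =>
      refine Set.Finite.image _ ((vert_finite _ _ _).union ?_)
      refine (reg_finite (col x) (col (x + 1)) 1).subset ?_
      rintro c ⟨_, _, c1, c2, c3⟩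
      rw [mem_Reg]
      omega
    | inr k => exact h.fin k
  have hcn : ∀ A : Finset (ℕ ⊕ κ), Mdr.Cn Y.adj A →
      Mdr.Cn (fun a b => Lnk S ends (hset Y P B col a) (hset Y P B col b)) A := by
    intro A hA
    induction hA with
    | single a => exact Mdr.Cn.single a
    | join h5 h6 h7 ih1 ih2 =>
      obtain ⟨a, ha, b, hb, hab⟩ := h7
      exact Mdr.Cn.join ih1 ih2 ⟨a, ha, b, hb, h.hset_lnk hn hab⟩
  have hL : ∀ i : Fin t, ∀ a ∈ K i, ∀ x, a = Sum.inl x → x < Y.L := by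
    intro i a ha x hx
    rw [hx] at ha
    exact h4 i x ha
  have hUf : ∀ i, (Un (hset Y P B col) (K i)).Finite := fun i =>
    Set.Finite.biUnion (K i).finite_toSet (fun a _ => hfin a)
  have hUc : ∀ i, VConn S ends (Un (hset Y P B col) (K i)) := fun i =>
    vconn_un (hcn _ (h1 _)) (fun a ha => h.hset_con hn a (hL _ a ha))
  have hUd : ∀ i j, i ≠ j → Disjoint (Un (hset Y P B col) (K i)) (Un (hset Y P B col) (K j)) := by
    intro i j hij
    have h5 := h2 i j hij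
    unfold Un
    rw [Set.disjoint_iUnion₂_left]
    intro a ha
    rw [Set.disjoint_iUnion₂_right]
    intro b hb
    exact h.hset_dis hn (fun e => Finset.disjoint_left.1 h5 ha (e ▸ hb)) (hL _ a ha) (hL _ b hb)
  have hUl : ∀ i j, i ≠ j → Lnk S ends (Un (hset Y P B col) (K i)) (Un (hset Y P B col) (K j)) := by
    intro i j hij
    obtain ⟨a, ha, b, hb, hab⟩ := h3 i j hij
    exact (h.hset_lnk hn hab).mono (subset_refl _) (un_mono _ ha) (un_mono _ hb)
  -- the column of a port above the level `1` is free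
  have hfree : ∀ x < Y.L, ∀ i, ∀ j, 2 ≤ j → j ≤ n → P (Y.sh x) (col x, j) ∉
      Un (hset Y P B col) (K i) := by
    intro x hx i j hj hjn hv
    have hpx := h.prt x hx
    have hreg : (col x, j) ∈ Reg (lo (Y.sh x)) (hi (Y.sh x)) n := by
      rw [mem_Reg]
      exact ⟨hpx.1, hpx.2.1, hjn⟩
    obtain ⟨a, ha', hv⟩ := mem_iUnion₂.1 hv
    cases a with
    | inl y =>
      obtain ⟨c, hc, e⟩ := hv
      have g1 := (h.pset_reg (h4 i y ha') hc).1
      rw [mem_Reg] at g1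
      by_cases hs : Y.sh y = Y.sh x
      · rw [hs] at e g1
        have e' := (h.pgs.page (Y.sh x)).inj c (col x, j) g1.1 g1.2.1 (by omega) hpx.1 hpx.2.1
          hjn e
        rw [e'] at g1
        simp only at g1
        omega
      · exact h.pgs.dis _ _ hs c (by rw [mem_Reg]; omega) _ hreg e
    | inr k => exact h.pB k _ _ hreg hv
  obtain ⟨g, hg, hg'⟩ := exists_half ht (fun i => ∃ x, Sum.inl x ∈ K i)
  rcases hg' with hg' | hg'
  · -- every set contains a port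
    choose x hx using hg'
    refine ⟨fun i => if hi : i < N then Un (hset Y P B col) (K (g ⟨i, hi⟩)) else ∅,
      ?_, ?_, ?_, ?_, 1, hn, ?_⟩
    · intro i hi
      simp only [dif_pos hi]
      exact hUf _
    · intro i hi
      simp only [dif_pos hi]
      exact hUc _
    · intro i hi j hj hij
      simp only [dif_pos hi, dif_pos hj]
      exact hUd _ _ fun e => hij (by simpa using hg e)
    · intro i hi j hj hij
      simp only [dif_pos hi, dif_pos hj]
      exact hUl _ _ fun e => hij (by simpa using hg e)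
    · intro i hi
      have hxL := h4 _ _ (hx ⟨i, hi⟩)
      have hpx := h.prt _ hxL
      have hmem : P (Y.sh (x ⟨i, hi⟩)) (col (x ⟨i, hi⟩), 1) ∈
          Un (hset Y P B col) (K (g ⟨i, hi⟩)) :=
        un_mono _ (hx ⟨i, hi⟩) ⟨_, Or.inl (vm (by omega) (le_refl _)), rfl⟩
      refine ⟨_, ⟨_, _, hpx.1, hpx.2.1, rfl⟩, ?_, fun i' hi' hne j h5 h6 => ?_⟩
      · simp only [dif_pos hi]
        exact hmem
      · simp only [dif_pos hi']
        rcases Nat.lt_or_ge 1 j with h7 | h7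
        · exact hfree _ hxL _ j h7 h6
        · have : j = 1 := by omega
          rw [this]
          exact Set.disjoint_left.1 (hUd _ _ fun e => hne (by simpa using (hg e).symm)) hmem
  · -- only connectors
    have hK : ∀ i, ∀ a ∈ K (g i), ∃ k, a = Sum.inr k := by
      intro i a ha'
      cases a with
      | inl x => exact absurd ⟨x, ha'⟩ (hg' i)
      | inr k => exact ⟨k, rfl⟩
    have hex : ∀ i : Fin N, ∃ x, x < Y.L ∧ Sum.inr (Y.own x) ∈ K (g i) := by
      intro i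
      obtain ⟨i', hi'⟩ : ∃ i' : Fin N, i' ≠ i := by
        by_cases h0 : i = ⟨0, by omega⟩
        · exact ⟨⟨1, by omega⟩, by rw [h0]; simp⟩
        · exact ⟨⟨0, by omega⟩, fun e => h0 e.symm⟩
      obtain ⟨a, ha1, b, hb1, hab⟩ := h3 (g i) (g i') fun e => hi' (hg e.symm)
      obtain ⟨k, rfl⟩ := hK i a ha1
      obtain ⟨k', rfl⟩ := hK i' b hb1
      obtain ⟨x, hx, rfl⟩ := ha k' k (hsy _ _ hab)
      exact ⟨x, hx, ha1⟩
    choose x hx hxK using hex
    have hxne : ∀ i j, i ≠ j → x i ≠ x j := by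
      intro i j hij e
      have h5 := hxK i
      rw [e] at h5
      exact Finset.disjoint_left.1 (h2 _ _ fun e' => hij (hg e')) h5 (hxK j)
    have hvn : ∀ i, ∀ c ∈ Vert (col (x i)) 0 1, c ∈ Reg (lo (Y.sh (x i))) (hi (Y.sh (x i))) n := by
      intro i c hc
      have h5 := h.prt _ (hx i)
      rw [mem_Vert] at hc
      rw [mem_Reg]
      omega
    -- vertices of pages are not in the sets of connectors
    have hPU : ∀ i, ∀ s, ∀ c ∈ Reg (lo s) (hi s) n, P s c ∉ Un (hset Y P B col) (K (g i)) := by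
      intro i s c hc hv
      obtain ⟨a, ha', hv⟩ := mem_iUnion₂.1 hv
      obtain ⟨k, rfl⟩ := hK i a ha'
      exact h.pB k _ _ hc hv
    -- points of different columns
    have hcc : ∀ i j, i ≠ j → ∀ c c' : ℕ × ℕ, c.1 = col (x i) → c'.1 = col (x j) → c.2 ≤ n →
        c'.2 ≤ n → P (Y.sh (x i)) c ≠ P (Y.sh (x j)) c' := by
      intro i j hij c c' hc hc' hcn' hcn'' e
      have h5 := h.prt _ (hx i)
      have h6 := h.prt _ (hx j)
      by_cases hs : Y.sh (x i) = Y.sh (x j)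
      · rw [hs] at e h5
        have e' := (h.pgs.page (Y.sh (x j))).inj c c' (by omega) (by omega) hcn' (by omega)
          (by omega) hcn'' e
        rw [e'] at hc
        have h7 := hxne i j hij
        rcases Nat.lt_or_gt_of_ne h7 with h8 | h8
        · have := h.cinc _ _ h8 (hx j) hs
          omega
        · have := h.cinc _ _ h8 (hx i) hs.symm
          omega
      · exact h.pgs.dis _ _ hs c (by rw [mem_Reg]; omega) c' (by rw [mem_Reg]; omega) e
    have hD : ∀ i j, i ≠ j → Disjoint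
        (Un (hset Y P B col) (K (g i)) ∪ P (Y.sh (x i)) '' Vert (col (x i)) 0 1)
        (Un (hset Y P B col) (K (g j)) ∪ P (Y.sh (x j)) '' Vert (col (x j)) 0 1) := by
      intro i j hij
      rw [Set.disjoint_left]
      rintro u (hu | ⟨c, hc, rfl⟩) (hu' | ⟨c', hc', hu'⟩)
      · exact Set.disjoint_left.1 (hUd _ _ fun e => hij (hg e)) hu hu'
      · rw [← hu'] at hu
        exact hPU i _ c' (hvn j c' hc') hu
      · exact hPU j _ c (hvn i c hc) hu'
      · rw [mem_Vert] at hc hc'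
        exact hcc i j hij c c' hc.1 hc'.1 (by omega) (by omega) hu'.symm
    refine ⟨fun i => if hi : i < N then Un (hset Y P B col) (K (g ⟨i, hi⟩)) ∪
        P (Y.sh (x ⟨i, hi⟩)) '' Vert (col (x ⟨i, hi⟩)) 0 1 else ∅, ?_, ?_, ?_, ?_, 1, hn, ?_⟩
    · intro i hi
      simp only [dif_pos hi]
      exact (hUf _).union ((vert_finite _ _ _).image _)
    · intro i hi
      simp only [dif_pos hi]
      have h5 := h.prt _ (hx ⟨i, hi⟩)
      refine vc_lnk (hUc _) ((h.pgs.page _).vconn_ver h5.1 h5.2.1 hn) (h5.2.2.mono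
        (subset_refl _) (un_mono (hset Y P B col) (hxK ⟨i, hi⟩)) ?_)
      rw [singleton_subset_iff]
      exact ⟨_, vm (le_refl 0) (by omega), rfl⟩
    · intro i hi j hj hij
      simp only [dif_pos hi, dif_pos hj]
      exact hD _ _ fun e => hij (by simpa using e)
    · intro i hi j hj hij
      simp only [dif_pos hi, dif_pos hj]
      exact (hUl _ _ fun e => hij (by simpa using hg e)).mono (subset_refl _) subset_union_left
        subset_union_left
    · intro i hi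
      have h5 := h.prt _ (hx ⟨i, hi⟩)
      refine ⟨_, ⟨_, _, h5.1, h5.2.1, rfl⟩, ?_, fun i' hi' hne j h6 h7 => ?_⟩
      · simp only [dif_pos hi]
        exact Or.inr ⟨_, vm (by omega) (le_refl _), rfl⟩
      · simp only [dif_pos hi']
        rintro (hv | ⟨c, hc, hv⟩)
        · exact hPU _ _ _ (by rw [mem_Reg]; exact ⟨h5.1, h5.2.1, h7⟩) hv
        · rw [mem_Vert] at hc
          exact hcc ⟨i', hi'⟩ ⟨i, hi⟩ (fun e => hne (by simpa using e)) c _ hc.1 rfl (by omega)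
            h7 hv

/-- **The matching theorem**, exposed. -/
theorem Real.patE (h : Real Y S ends P lo hi n G B col) {D w N m t : ℕ}
    (hA : Y.Ax D) (hw : 1 ≤ w) (hN : 3 * ((2 * w) * (2 * w)) + 2 ≤ N) (hm' : 2 * w + 1 ≤ m)
    (ht : 2 * ((2 * w) * (2 * w) + 1) ≤ t) (hn : 4 * w + 3 ≤ n) (hp : Y.Pat N m t) :
    Gm1 S ends P lo hi n (2 * w) ∨
      GmK S ends (PCols P lo hi) n ((2 * w) * (2 * w) + 1) := by
  obtain ⟨N₀, hN₀⟩ : ∃ N₀, N₀ = (2 * w) * (2 * w) := ⟨_, rfl⟩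
  rw [← hN₀] at hN
  rcases hp with ⟨x, z, q, hp⟩ | ⟨x, z, c, d, hp⟩ | ⟨p, q, y, z, hp⟩ | ⟨p, q, y, z, p', q', hp⟩ |
    ⟨a, b, y, z, v, v', hp⟩ | ⟨u, v, hp⟩ | ⟨a, b, x, hp⟩ | ⟨a, b, x, z, hp⟩ | ⟨d, a, b, x, z, hp⟩ |
    ⟨a, b, y, z, v, v', hp⟩ | hp
  · exact Or.inl (h.pA hw (by rw [← hN₀]; omega) (by omega) hp)
  · exact Or.inl (h.pB' hw (by rw [← hN₀]; omega) (by omega) hp)
  · exact Or.inl (h.pJ hw (by rw [← hN₀]; omega) (by omega) hp)
  · exact Or.inl (h.pX hw (by rw [← hN₀]; omega) (by omega) hp)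
  · exact Or.inl (h.pC hw (by rw [← hN₀]; omega) (by omega) hp)
  · exact Or.inl (h.pM hw (by rw [← hN₀]; omega) hm' (by omega) hp)
  · exact Or.inl (h.pS hA.mono hw (by rw [← hN₀]; omega) hm' (by omega) hp)
  · exact Or.inl (h.pSF hA.mono hw (by rw [← hN₀]; omega) hm' (by omega) hp)
  · exact Or.inl (h.pSG hA.mono hw (by rw [← hN₀]; omega) hm' (by omega) hp)
  · exact Or.inl (h.pSC hA.mono hw (by rw [← hN₀]; omega) hm' (by omega) hp)
  · exact Or.inr (h.gmK (by nlinarith) ht (by omega) hA.symm hA.a4 hp)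

theorem Real.patE' (h : Real Y S ends P lo hi n G B col) {D w N m t : ℕ}
    (hA : Y.Ax D) (hw : 1 ≤ w) (hN : 3 * ((2 * w) * (2 * w)) + 2 ≤ N) (hm' : 2 * w + 1 ≤ m)
    (ht : 2 * ((2 * w) * (2 * w) + 1) ≤ t) (hn : 4 * w + 3 ≤ n) (hp : Y.Pat N m t) :
    GmE S ends (PCols P lo hi) n (2 * w) := by
  rcases h.patE hA hw hN hm' ht hn hp with h1 | h1
  · exact h1.gmE
  · exact h1.gmE (le_refl _)

/-- **The matching theorem with joint ground**, exposed. -/
theorem RealU.patE [M.Finite] (h : RealU Y M S ends P lo hi n B col) (hF : Frm M S ends)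
    {D w N m t : ℕ} (hA : Y.Ax D) (hw : 1 ≤ w) (hN : 3 * ((2 * w) * (2 * w)) + 2 ≤ N)
    (hm' : 2 * w + 1 ≤ m) (ht : 2 * ((2 * w) * (2 * w) + 1) ≤ t) (hn : 4 * w + 3 ≤ n)
    (hp : Y.Pat N m t) : Gm1 S ends P lo hi n (2 * w) ∨
      GmK S ends (PCols P lo hi) n ((2 * w) * (2 * w) + 1) ∨ GmV1 M S ends P lo hi n w := by
  obtain ⟨N₀, hN₀⟩ : ∃ N₀, N₀ = (2 * w) * (2 * w) := ⟨_, rfl⟩
  have hN₁ : w * w ≤ N₀ := by
    rw [hN₀]; exact Nat.mul_le_mul (by omega) (by omega)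
  rw [← hN₀] at hN
  have hR := h.real
  rcases hp with ⟨x, z, q, hp⟩ | ⟨x, z, c, d, hp⟩ | ⟨p, q, y, z, hp⟩ | ⟨p, q, y, z, p', q', hp⟩ |
    ⟨a, b, y, z, v, v', hp⟩ | ⟨u, v, hp⟩ | ⟨a, b, x, hp⟩ | ⟨a, b, x, z, hp⟩ | ⟨d, a, b, x, z, hp⟩ |
    ⟨a, b, y, z, v, v', hp⟩ | hp
  · exact Or.inr (Or.inr ⟨_, h.pA hF hw (by omega) (by omega) hp⟩)
  · exact Or.inl (hR.pB' hw (by rw [← hN₀]; omega) (by omega)
      ⟨hp.lk, hp.lk', hp.ser, hp.mon, hp.mon', hp.far, hp.far', hp.far'', hp.onP, hp.onZ, hp.onD,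
        hp.dis⟩)
  · exact Or.inl (hR.pJ hw (by rw [← hN₀]; omega) (by omega)
      ⟨hp.lk, hp.lk', hp.yp, hp.pz, hp.ser, hp.mon, hp.far, hp.onP, hp.onQ, hp.dis, hp.dj⟩)
  · exact Or.inl (hR.pX hw (by rw [← hN₀]; omega) (by omega)
      ⟨hp.lk, hp.lk', hp.lk'', hp.yp, hp.pp, hp.ser, hp.cr, hp.far, hp.onP, hp.onQ, hp.dis,
        hp.dj, hp.dj'⟩)
  · exact Or.inl (hR.pC hw (by rw [← hN₀]; omega) (by omega)
      ⟨hp.lk, hp.lk', hp.lk'', hp.ord, hp.ser, hp.mon, hp.far, hp.onP, hp.onQ, hp.dis, hp.dj⟩)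
  · exact Or.inl (hR.pM hw (by rw [← hN₀]; omega) hm' (by omega)
      ⟨hp.lk, hp.um, hp.vm, hp.uv, hp.ser, hp.on, hp.dis⟩)
  · exact Or.inr (Or.inr ⟨_, h.pS hF hA.mono hw (by omega) (by omega) (by omega) hp⟩)
  · exact Or.inl (hR.pSF hA.mono hw (by rw [← hN₀]; omega) hm' (by omega)
      ⟨hp.ns.ng, hp.px, hp.lk, hp.mon, hp.far, hp.onQ, hp.dis, hp.dj⟩)
  · exact Or.inl (hR.pSG hA.mono hw (by rw [← hN₀]; omega) hm' (by omega)
      ⟨hp.ns.ng, hp.px, hp.lk, hp.sh, hp.out, hp.gap, hp.dis, hp.dj⟩)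
  · exact Or.inl (hR.pSC hA.mono hw (by rw [← hN₀]; omega) hm' (by omega)
      ⟨hp.ns.ng, hp.lk, hp.lk', hp.ord, hp.dis, hp.djc, hp.dj⟩)
  · exact Or.inr (Or.inl (hR.gmK (by nlinarith) ht (by omega) hA.symm hA.a4 hp))

theorem RealU.patE' [M.Finite] (h : RealU Y M S ends P lo hi n B col) (hF : Frm M S ends)
    {D w N m t : ℕ} (hA : Y.Ax D) (hw : 1 ≤ w) (hN : 3 * ((2 * w) * (2 * w)) + 2 ≤ N)
    (hm' : 2 * w + 1 ≤ m) (ht : 2 * ((2 * w) * (2 * w) + 1) ≤ t) (hn : 4 * w + 3 ≤ n)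
    (hp : Y.Pat N m t) : GmE S ends (PCols P lo hi) n (2 * w) ∨ GmU M S ends w := by
  rcases h.patE hF hA hw hN hm' ht hn hp with h1 | h1 | h1
  · exact Or.inl h1.gmE
  · exact Or.inl (h1.gmE (le_refl _))
  · exact Or.inr h1.gmU

end

end EN
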