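import Pool.Agent.EN.Groups7
import Pool.Agent.EN.MatchE

/-!
# The pictures of the groups
-/

open Set
open scoped Matroid

namespace EN

open BIC Gad

set_option maxHeartbeats 1000000

variable {α V κ : Type*} {M : Matroid α} {S : Set α} {ends : α → Sym2 V} {Y : Sys κ}
  {P : ℕ → ℕ × ℕ → V} {lo hi : ℕ → ℕ} {n : ℕ} {B : κ → Set V} {col : ℕ → ℕ}

/-- The matching theorem for the ten patterns: only the order of the shores is used. -/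
theorem RealU.patE0 [M.Finite] (h : RealU Y M S ends P lo hi n B col) (hF : Frm M S ends)
    {w N m : ℕ} (hA : Y.Mo) (hw : 1 ≤ w) (hN : 3 * ((2 * w) * (2 * w)) + 2 ≤ N)
    (hm' : 2 * w + 1 ≤ m) (hn : 4 * w + 3 ≤ n) (hp : Y.Pat0 N m) :
    Gm1 S ends P lo hi n (2 * w) ∨ GmV1 M S ends P lo hi n w := by
  obtain ⟨N₀, hN₀⟩ : ∃ N₀, N₀ = (2 * w) * (2 * w) := ⟨_, rfl⟩
  have hN₁ : w * w ≤ N₀ := by
    rw [hN₀]; exact Nat.mul_le_mul (by omega) (by omega)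
  rw [← hN₀] at hN
  have hR := h.real
  rcases hp with ⟨x, z, q, hp⟩ | ⟨x, z, c, d, hp⟩ | ⟨p, q, y, z, hp⟩ | ⟨p, q, y, z, p', q', hp⟩ |
    ⟨a, b, y, z, v, v', hp⟩ | ⟨u, v, hp⟩ | ⟨a, b, x, hp⟩ | ⟨a, b, x, z, hp⟩ | ⟨d, a, b, x, z, hp⟩ |
    ⟨a, b, y, z, v, v', hp⟩
  · exact Or.inr ⟨_, h.pA hF hw (by omega) (by omega) hp⟩
  · exact Or.inl (hR.pB' hw (by rw [← hN₀]; omega) (by omega)
      ⟨hp.lk, hp.lk', hp.ser, hp.mon, hp.mon', hp.far, hp.far', hp.far'', hp.onP, hp.onZ, hp.onD,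
        hp.dis⟩)
  · exact Or.inl (hR.pJ hw (by rw [← hN₀]; omega) (by omega)
      ⟨hp.lk, hp.lk', hp.yp, hp.pz, hp.ser, hp.mon, hp.far, hp.onP, hp.onQ, hp.dis, hp.dj⟩)
  · exact Or.inl (hR.pX hw (by rw [← hN₀]; omega) (by omega)
      ⟨hp.lk, hp.lk', hp.lk'', hp.yp, hp.pp, hp.ser, hp.cr, hp.far, hp.onP, hp.onQ, hp.dis,
        hp.dj, hp.dj'⟩)
  · exact Or.inl (hR.pC hw (by rw [← hN₀]; omega) (by omega)
      ⟨hp.lk, hp.lk', hp.lk'', hp.ord, hp.ser, hp.mon, hp.far, hp.onP, hp.onQ, hp.dis, hp.dj⟩)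
  · exact Or.inl (hR.pM hw (by rw [← hN₀]; omega) hm' (by omega)
      ⟨hp.lk, hp.um, hp.vm, hp.uv, hp.ser, hp.on, hp.dis⟩)
  · exact Or.inr ⟨_, h.pS hF hA hw (by omega) (by omega) (by omega) hp⟩
  · exact Or.inl (hR.pSF hA hw (by rw [← hN₀]; omega) hm' (by omega)
      ⟨hp.ns.ng, hp.px, hp.lk, hp.mon, hp.far, hp.onQ, hp.dis, hp.dj⟩)
  · exact Or.inl (hR.pSG hA hw (by rw [← hN₀]; omega) hm' (by omega)
      ⟨hp.ns.ng, hp.px, hp.lk, hp.sh, hp.out, hp.gap, hp.dis, hp.dj⟩)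
  · exact Or.inl (hR.pSC hA hw (by rw [← hN₀]; omega) hm' (by omega)
      ⟨hp.ns.ng, hp.lk, hp.lk', hp.ord, hp.dis, hp.djc, hp.dj⟩)

/-- **The pictures of the groups.**  A pattern of multiplicity `r * N` which is not a complete
minor gives `r` pictures in disjoint parts of the host. -/
theorem RealU.groups [M.Finite] (h : RealU Y M S ends P lo hi n B col) (hF : Frm M S ends)
    {w N m r : ℕ} (hA : Y.Mo) (hw : 1 ≤ w) (hN : 3 * ((2 * w) * (2 * w)) + 2 ≤ N)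
    (hm' : 2 * w + 1 ≤ m) (hn : 4 * w + 3 ≤ n) {t : ℕ} (hp : Y.Pat (r * N) m t) :
    Y.KT t ∨ ∃ (ρ : ℕ → ℕ) (K : Fin r → Set κ) (Z : ∀ g, Sys (K g)) (e lo' hi' : Fin r → ℕ → ℕ),
      Y.GrpFam r ρ K Z e ∧
      (∀ g, RealU (Z g) M S ends (fun s => P (ρ s)) (lo' g) (hi' g) n (fun k => B k)
        (fun x => col (e g x))) ∧
      (∀ g s x, lo' g s ≤ x → x ≤ hi' g s → lo (ρ s) ≤ x ∧ x ≤ hi (ρ s) ∧ s < 3 ∧
        ∃ i < (Z g).L, (Z g).sh i = s) ∧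
      (∀ g g' s s', (g, s) ≠ (g', s') → ∀ c ∈ Reg (lo' g s) (hi' g s) n,
        ∀ c' ∈ Reg (lo' g' s') (hi' g' s') n, P (ρ s) c ≠ P (ρ s') c') ∧
      ∀ g, Gm1 S ends (fun s => P (ρ s)) (lo' g) (hi' g) n (2 * w) ∨
        GmV1 M S ends (fun s => P (ρ s)) (lo' g) (hi' g) n w := by
  rcases Sys.Pat.groups (Y := Y) (m := r) (N := N) (mm := m) hA (by omega) (by omega) hp with
    h1 | ⟨ρ, K, Z, e, hG, hpat⟩
  · exact Or.inl h1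
  · obtain ⟨lo', hi', h1, h2, h3⟩ := h.grp hG
    exact Or.inr ⟨ρ, K, Z, e, lo', hi', hG, h1, h2, h3,
      fun g => (h1 g).patE0 hF (hG.mono g) hw hN hm' hn (hpat g).1⟩

end EN
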