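import Pool.Agent.EN.TautDef

/-!
# Existence of heights; dropping one used column
-/

open Relation

namespace Mdl

variable {V σ X : Type*}

open Classical in
/-- Sums of steps. -/
noncomputable def cum (us : Set (σ × ℕ)) (s : σ) (st : ℕ → ℤ) : ℕ → ℤ
  | 0 => 0
  | c + 1 => cum us s st c + (if (s, c + 1) ∈ us then st (c + 1) else 0)

section

variable {us : Set (σ × ℕ)} {s : σ} {st : ℕ → ℤ}

lemma cum_used {c : ℕ} (h : (s, c + 1) ∈ us) : cum us s st (c + 1) = cum us s st c + st (c + 1) := by
  rw [cum, if_pos h]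

lemma cum_unused {c : ℕ} (h : (s, c + 1) ∉ us) : cum us s st (c + 1) = cum us s st c := by
  rw [cum, if_neg h, add_zero]

lemma cum_cons {i j : ℕ} (h : Cons us s i j) : cum us s st j = cum us s st i + st j := by
  obtain ⟨h1, h2, h3, h4⟩ := h
  have key : ∀ n, i + n < j → cum us s st (i + n) = cum us s st i := by
    intro n
    induction n with
    | zero => intro _; rfl
    | succ n ih =>
      intro h5
      rw [← ih (by omega), ← add_assoc]
      exact cum_unused (h4 _ (by omega) (by omega))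
  obtain ⟨c, rfl⟩ : ∃ c, j = c + 1 := ⟨j - 1, by omega⟩
  rw [cum_used h3]
  have h5 := key (c - i) (by omega)
  rw [show i + (c - i) = c by omega] at h5
  rw [h5]

lemma cum_bound (hfin : us.Finite) (hst : ∀ c, |st c| ≤ 2) {c c' : ℕ} (h : c' ≤ c) :
    |cum us s st c - cum us s st c'| ≤ 2 * us.ncard := by
  classical
  have key : ∀ n, |cum us s st (c' + n) - cum us s st c'| ≤
      2 * (((Finset.Ioc c' (c' + n)).filter (fun k => (s, k) ∈ us)).card : ℤ) := by
    intro n
    induction n with
    | zero => simp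
    | succ n ih =>
      rw [← add_assoc]
      by_cases h1 : (s, c' + n + 1) ∈ us
      · rw [cum_used h1]
        have h2 : insert (c' + n + 1) ((Finset.Ioc c' (c' + n)).filter (fun k => (s, k) ∈ us)) ⊆
            (Finset.Ioc c' (c' + n + 1)).filter (fun k => (s, k) ∈ us) := by
          intro k hk
          rw [Finset.mem_insert, Finset.mem_filter, Finset.mem_Ioc] at hk
          rw [Finset.mem_filter, Finset.mem_Ioc]
          rcases hk with rfl | ⟨hk, hk'⟩
          · exact ⟨⟨by omega, le_refl _⟩, h1⟩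
          · exact ⟨⟨hk.1, by omega⟩, hk'⟩
        have h3 := Finset.card_le_card h2
        rw [Finset.card_insert_of_notMem (by
          rw [Finset.mem_filter, Finset.mem_Ioc]
          intro h4
          omega)] at h3
        have h4 := hst (c' + n + 1)
        have h5 : |cum us s st (c' + n) + st (c' + n + 1) - cum us s st c'| ≤
            |cum us s st (c' + n) - cum us s st c'| + |st (c' + n + 1)| := by
          have e : cum us s st (c' + n) + st (c' + n + 1) - cum us s st c' =
            (cum us s st (c' + n) - cum us s st c') + st (c' + n + 1) := by ring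
          rw [e]
          exact abs_add_le _ _
        have h6 : (((Finset.Ioc c' (c' + n)).filter (fun k => (s, k) ∈ us)).card : ℤ) + 1 ≤
            (((Finset.Ioc c' (c' + n + 1)).filter (fun k => (s, k) ∈ us)).card : ℤ) := by
          exact_mod_cast h3
        linarith
      · rw [cum_unused h1]
        refine ih.trans ?_
        have h2 : (Finset.Ioc c' (c' + n)).filter (fun k => (s, k) ∈ us) ⊆
            (Finset.Ioc c' (c' + n + 1)).filter (fun k => (s, k) ∈ us) := by
          apply Finset.filter_subset_filter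
          apply Finset.Ioc_subset_Ioc_right
          omega
        have h3 := Finset.card_le_card h2
        have h4 : (((Finset.Ioc c' (c' + n)).filter (fun k => (s, k) ∈ us)).card : ℤ) ≤
            (((Finset.Ioc c' (c' + n + 1)).filter (fun k => (s, k) ∈ us)).card : ℤ) := by
          exact_mod_cast h3
        linarith
  have h1 := key (c - c')
  rw [Nat.add_sub_cancel' h] at h1
  refine h1.trans ?_
  have h2 : ((Finset.Ioc c' c).filter (fun k => (s, k) ∈ us)).card ≤ us.ncard := by
    rw [← Set.ncard_coe_finset]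
    refine Set.ncard_le_ncard_of_injOn (fun k => (s, k)) ?_ ?_ hfin
    · intro k hk
      rw [Finset.mem_coe, Finset.mem_filter] at hk
      exact hk.2
    · intro k _ k' _ hkk
      exact (Prod.mk.inj hkk).2
  have h3 : (((Finset.Ioc c' c).filter (fun k => (s, k) ∈ us)).card : ℤ) ≤ (us.ncard : ℤ) := by
    exact_mod_cast h2
  linarith

lemma Cons.uniq {i i' j : ℕ} (h : Cons us s i j) (h' : Cons us s i' j) : i = i' := by
  obtain ⟨h1, h2, h3, h4⟩ := h
  obtain ⟨h1', h2', h3', h4'⟩ := h'
  rcases Nat.lt_trichotomy i i' with h5 | h5 | h5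
  · exact absurd h2' (h4 i' h5 h1')
  · exact h5
  · exact absurd h2 (h4' i h5 h1)

end

section

variable {G : SimpleGraph X} {H : Host V σ} {D K : ℤ} {g : HV V σ → Option X}
  {us : Set (σ × ℕ)} {h : σ → ℕ → ℤ} {f : HV V σ → Option X} {y z : X}

lemma State.usfin (hS : State G H D K g us) : us.Finite := by
  have hinj : Function.Injective (fun p : σ × ℕ => (Sum.inr (p.1, p.2, K) : HV V σ)) := by
    rintro ⟨a, b⟩ ⟨c, d⟩ h
    simp only [Sum.inr.injEq, Prod.mk.injEq] at h
    rw [h.1, h.2.1]
  refine (hS.fin.preimage (f := fun p : σ × ℕ => (Sum.inr (p.1, p.2, K) : HV V σ))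
    hinj.injOn).subset ?_
  rintro ⟨s, c⟩ hp
  obtain ⟨a, b, _, h2, _⟩ := hS.own s c hp
  change g (Sum.inr (s, c, K)) ≠ none
  rw [h2]
  simp

lemma out_left {s : σ} {c : ℕ} : Out K (Sum.inr (s, c, -K) : HV V σ) := Or.inl (le_refl _)

lemma out_right {s : σ} {c : ℕ} : Out K (Sum.inr (s, c, K) : HV V σ) := Or.inr (le_refl _)

/-- The two wishes exclude each other. -/
lemma C12 (h4 : ∀ a b c d, G.Adj a b → G.Adj b c → G.Adj c d → G.Adj d a → a = c ∨ b = d)
    (hS : State G H D K g us) {s : σ} {i j : ℕ} (hi : (s, i) ∈ us) (hj : (s, j) ∈ us)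
    (h1 : C1 G K g s i j) (h2 : C2 G K g s i j) : False := by
  obtain ⟨a, a', e', e, ha, ha', he, he', h5, h6, h7, h8, h9⟩ := h1
  obtain ⟨b', b, c, c', hb, hb', hc, hc', h10, h11, h12, h13, h14⟩ := h2
  rw [ha, Option.some.injEq] at hb
  rw [ha', Option.some.injEq] at hb'
  rw [he, Option.some.injEq] at hc
  rw [he', Option.some.injEq] at hc'
  subst hb hb' hc hc'
  obtain ⟨p, q, hp, hq, hpq⟩ := hS.own s i hi
  rw [ha, Option.some.injEq] at hp
  rw [ha', Option.some.injEq] at hq
  subst hp hq
  obtain ⟨p, q, hp, hq, hpq'⟩ := hS.own s j hj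
  rw [he, Option.some.injEq] at hp
  rw [he', Option.some.injEq] at hq
  subst hp hq
  have h15 : G.Adj a a' := by
    rcases hpq with h | h
    · exact absurd h h6
    · exact h
  have h16 : G.Adj e e' := by
    rcases hpq' with h | h
    · exact absurd h.symm h7
    · exact h
  rcases h4 a a' e e' h15 h10 h16 h5.symm with h | h
  · exact h8 h
  · exact h9 h

/-- Heights exist, with prescribed steps where nothing is wanted. -/
theorem exists_hts
    (h4 : ∀ a b c d, G.Adj a b → G.Adj b c → G.Adj c d → G.Adj d a → a = c ∨ b = d)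
    (hS : State G H D K g us) (hK : 2 * us.ncard + 4 ≤ K) (s₀ : σ) (c₀ : ℕ)
    (st' : σ → ℕ → Option ℤ) (hst' : ∀ s i j x, Cons us s i j → st' s j = some x →
      |x| ≤ 2 ∧ (C1 G K g s i j → x = -2) ∧ (C2 G K g s i j → x = 2)) :
    ∃ h : σ → ℕ → ℤ, Hts G K g us h ∧ h s₀ c₀ = 0 ∧
      ∀ s i j x, Cons us s i j → st' s j = some x → h s j = h s i + x := by
  classical
  set st : σ → ℕ → ℤ := fun s j =>
    if ∃ i, Cons us s i j then
      match st' s j with
      | some x => x
      | none => if ∃ i, Cons us s i j ∧ C1 G K g s i j then -2 else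
        if ∃ i, Cons us s i j ∧ C2 G K g s i j then 2 else 0
    else 0 with hst
  have hb : ∀ s j, |st s j| ≤ 2 := by
    intro s j
    simp only [hst]
    split_ifs with h1 h2 h3
    · obtain ⟨i, hi⟩ := h1
      rcases hx : st' s j with _ | x
      · simp only
        norm_num
      · exact (hst' s i j x hi hx).1
    · obtain ⟨i, hi⟩ := h1
      rcases hx : st' s j with _ | x
      · simp only
        norm_num
      · exact (hst' s i j x hi hx).1
    · obtain ⟨i, hi⟩ := h1
      rcases hx : st' s j with _ | x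
      · simp only
        norm_num
      · exact (hst' s i j x hi hx).1
    · norm_num
  have hs1 : ∀ s i j, Cons us s i j → C1 G K g s i j → st s j = -2 := by
    intro s i j hij hc
    simp only [hst]
    rw [if_pos ⟨i, hij⟩]
    rcases hx : st' s j with _ | x
    · simp only
      rw [if_pos ⟨i, hij, hc⟩]
    · exact (hst' s i j x hij hx).2.1 hc
  have hs2 : ∀ s i j, Cons us s i j → C2 G K g s i j → st s j = 2 := by
    intro s i j hij hc
    simp only [hst]
    rw [if_pos ⟨i, hij⟩]
    rcases hx : st' s j with _ | x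
    · simp only
      rw [if_neg, if_pos ⟨i, hij, hc⟩]
      rintro ⟨i', hi', hc'⟩
      rw [← hij.uniq hi'] at hc'
      exact C12 h4 hS hij.2.1 hij.2.2.1 hc' hc
    · exact (hst' s i j x hij hx).2.2 hc
  have hs3 : ∀ s i j x, Cons us s i j → st' s j = some x → st s j = x := by
    intro s i j x hij hx
    simp only [hst]
    rw [if_pos ⟨i, hij⟩, hx]
  set h : σ → ℕ → ℤ := fun s c => cum us s (st s) c - cum us s (st s) (if s = s₀ then c₀ else 0)
    with hh
  have hbd : ∀ s c, |h s c| ≤ 2 * us.ncard := by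
    intro s c
    simp only [hh]
    rcases Nat.le_total c (if s = s₀ then c₀ else 0) with h1 | h1
    · rw [abs_sub_comm]
      exact cum_bound hS.usfin (hb s) h1
    · exact cum_bound hS.usfin (hb s) h1
  have hcons : ∀ s i j, Cons us s i j → h s j = h s i + st s j := by
    intro s i j hij
    simp only [hh]
    rw [cum_cons hij]
    ring
  refine ⟨h, ⟨?_, ?_, ?_, ?_⟩, ?_, ?_⟩
  · intro s i _
    have := (abs_le.1 (hbd s i)).1
    omega
  · intro s i _
    have := (abs_le.1 (hbd s i)).2
    omega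
  · intro s i j hij hc
    rw [hcons s i j hij, hs1 s i j hij hc]
    omega
  · intro s i j hij hc
    rw [hcons s i j hij, hs2 s i j hij hc]
  · simp only [hh, if_true, sub_self]
  · intro s i j x hij hx
    rw [hcons s i j hij, hs3 s i j x hij hx]

/-- Dropping the vertex `(s₀, c₀, 0)` of a realization with height `0` at this column. -/
theorem State.dropCol [Finite σ] (hS : State G H D K g us) (hh : Hts G K g us h) (hK : 2 ≤ K)
    (hKD : K ≤ D) {s₀ : σ} {c₀ : ℕ} (h0 : (s₀, c₀) ∈ us) (hh0 : h s₀ c₀ = 0) {y₀ : X}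
    (hy₀ : g (Sum.inr (s₀, c₀, K)) = some y₀) {v₀ : V} (hv₀ : g (Sum.inl v₀) = some y₀)
    (hg : H.gd v₀)
    (hcon : ∀ p, Out K p → g p = some y₀ →
      Cn H D (del (rz H K g us h) (Sum.inr (s₀, c₀, 0))) y₀ (Sum.inl v₀) p)
    (hkiss : ∀ z, G.Adj y₀ z → g (Sum.inr (s₀, c₀, -K)) = some z → ∃ v w,
      Cn H D (del (rz H K g us h) (Sum.inr (s₀, c₀, 0))) y₀ (Sum.inl v₀) v ∧ H.Adj D v w ∧
        rz H K g us h w = some z) :
    ∃ f', Model G H D f' ∧ mm f' < us.ncard := by
  have he : Exc H K g us h (del (rz H K g us h) (Sum.inr (s₀, c₀, 0))) := by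
    intro w hw
    rcases eq_or_ne w (Sum.inr (s₀, c₀, 0)) with h1 | h1
    · exact ⟨s₀, c₀, h1, h0, hh0⟩
    · rw [del_ne h1] at hw
      exact absurd rfl hw
  have hlo : ∀ s i, (s, i) ∈ us → -K < h s i := fun s i hi => by have := hh.lo s i hi; omega
  have hhi : ∀ s i, (s, i) ∈ us → h s i ≤ K := fun s i hi => by have := hh.hi s i hi; omega
  have hmod := hS.model hh hK hKD
  rw [← mm_rz hS (h := h) (by omega)]
  refine hmod.drop (s := s₀) (c := c₀) (y := y₀) (v₀ := v₀) ?_ hv₀ hg ?_
  · rw [rz_right h0 (hS.lt h0) (hlo _ _ h0) (by omega) (by omega)]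
    exact hy₀
  · intro z hyz
    -- vertices of the page
    have page : ∀ s c b, -K < b → b < K → rz H K g us h (Sum.inr (s, c, b)) = some y₀ →
        (b ≠ 0 ∨ (s, c) ≠ (s₀, c₀)) →
        Cn H D (del (rz H K g us h) (Sum.inr (s₀, c₀, 0))) y₀ (Sum.inl v₀)
          (Sum.inr (s, c, b)) := by
      intro s c b hb1 hb2 hr hne
      have hne' : (Sum.inr (s, c, b) : HV V σ) ≠ Sum.inr (s₀, c₀, 0) := by
        intro h1
        simp only [Sum.inr.injEq, Prod.mk.injEq] at h1
        rcases hne with h2 | h2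
        · exact h2 h1.2.2
        · exact h2 (by rw [h1.1, h1.2.1])
      obtain ⟨i, _, _, _, h5⟩ := he.rep hKD hlo hhi hb1 hb2 c
        (by rw [del_ne hne']; exact hr) (del_ne hne')
      rcases h5 with ⟨_, h5, h6⟩ | ⟨_, h5, h6⟩
      · exact (hcon _ out_left h5).trans h6.symm
      · exact (hcon _ out_right h5).trans h6.symm
    have kiss : ∀ s k, (s, k) ∈ us →
        ((g (Sum.inr (s, k, -K)) = some y₀ ∧ g (Sum.inr (s, k, K)) = some z) ∨
          (g (Sum.inr (s, k, -K)) = some z ∧ g (Sum.inr (s, k, K)) = some y₀)) →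
        ∃ v w, Cn H D (del (rz H K g us h) (Sum.inr (s₀, c₀, 0))) y₀ (Sum.inl v₀) v ∧
          H.Adj D v w ∧ rz H K g us h w = some z := by
      intro s k hk h2
      by_cases hsk : (s, k) = (s₀, c₀)
      · obtain ⟨rfl, rfl⟩ := Prod.mk.inj hsk
        rcases h2 with ⟨_, h3⟩ | ⟨h3, _⟩
        · rw [hy₀, Option.some.injEq] at h3
          exact absurd h3 hyz.ne
        · exact hkiss z hyz h3
      · have h5 := hh.lo s k hk
        have h6 := hh.hi s k hk
        rcases h2 with ⟨h2, h3⟩ | ⟨h2, h3⟩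
        · obtain ⟨h7, h8, h9⟩ := edge_kiss hS hh hKD hk h2 h3
          exact ⟨_, _, page s k _ (by omega) (by omega) h8 (Or.inr hsk), h7, h9⟩
        · obtain ⟨h7, h8, h9⟩ := edge_kiss hS hh hKD hk h2 h3
          exact ⟨_, _, page s k _ (by omega) (by omega) h9 (Or.inr hsk), h7.symm, h8⟩
    rcases hS.edg y₀ z hyz with h1 | ⟨u, v, h1, h2, h3, h5, h6⟩
    · obtain ⟨s, i, j, h1 | h1 | h1, h2, h3⟩ := h1
      · subst h1
        apply kiss s i h2.1
        rcases h2.2 with h5 | h5
        · rcases h3.2 with h6 | h6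
          · rw [h5, Option.some.injEq] at h6
            exact absurd h6 hyz.ne
          · exact Or.inl ⟨h5, h6⟩
        · rcases h3.2 with h6 | h6
          · exact Or.inr ⟨h6, h5⟩
          · rw [h5, Option.some.injEq] at h6
            exact absurd h6 hyz.ne
      · rcases edge_cons hS hh hK h1 h2 h3 hyz with ⟨c, b, rfl, _, h5, h6, h7, h8, h9⟩ | h5
        · exact ⟨_, _, page _ _ _ h6 h7 h8 (Or.inl h5),
            Host.hor (hS.lt h3.1) (by omega) (by omega) h5, h9⟩
        · obtain ⟨k, _, h5, h6⟩ := h5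
          exact kiss s k h5 h6
      · rcases edge_cons hS hh hK h1 h3 h2 hyz.symm with ⟨c, b, rfl, _, h5, h6, h7, h8, h9⟩ | h5
        · exact ⟨_, _, page _ _ _ h6 h7 h9 (Or.inl h5),
            (Host.hor (hS.lt h2.1) (by omega) (by omega) h5).symm, h8⟩
        · obtain ⟨k, _, h5, h6⟩ := h5
          exact kiss s k h5 h6.symm
    · exact ⟨u, v, hcon u h1 h5, h3, by rw [rz_out h2]; exact h6⟩

end

end Mdl
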