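import Pool.Agent.EN.Rlz

/-!
# Merging floating connectors (module I of T-star, message of helper63, 11:50; helper45)

`X` is the model graph, `ver k` the vertex of the connector `k`, `pt k` says that `k` has a port.
A float is a connector without a port; it is the only connector of its vertex, and it has a contact
over every edge of `X` at its vertex.  If every vertex has distance at most `s` from a vertex with
a ported connector, every float can be merged to a ported connector along the contacts: `rt k` is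
the ported connector that receives `k`.
-/

open Set

namespace EN

namespace Mrg

variable {V κ : Type*}

/-- vertices at distance at most `i` from the set `A` -/
def Nr (X : SimpleGraph V) (A : Set V) : ℕ → Set V
  | 0 => A
  | i + 1 => Nr X A i ∪ {y | ∃ z ∈ Nr X A i, X.Adj y z}

lemma Nr_mono (X : SimpleGraph V) (A : Set V) {i j : ℕ} (h : i ≤ j) : Nr X A i ⊆ Nr X A j := by
  induction h with
  | refl => exact subset_rfl
  | step _ ih => exact ih.trans (fun y hy => Or.inl hy)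

/-- Connectors, contacts, grounds; `pt` = with a port. -/
structure Flt (X : SimpleGraph V) (ver : κ → V) (pt : κ → Prop) (ct : κ → κ → Prop)
    (gr : κ → Prop) : Prop where
  symm : ∀ k k', ct k k' → ct k' k
  adj : ∀ k k', ct k k' → X.Adj (ver k) (ver k')
  one : ∀ k, ¬ pt k → ∀ k', ver k' = ver k → k' = k
  edge : ∀ k, ¬ pt k → ∀ z, X.Adj (ver k) z → ∃ k', ver k' = z ∧ ct k k'
  /-- floats are grounded -/
  fgr : ∀ k, ¬ pt k → gr k

/-- the vertices of the merged connector -/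
def At (ver : κ → V) (rt : κ → κ) (k : κ) (y : V) : Prop := ∃ k₀, ver k₀ = y ∧ rt k₀ = k

/-- the merged contacts -/
def Ct (ct : κ → κ → Prop) (rt : κ → κ) (k k' : κ) : Prop :=
  k ≠ k' ∧ ∃ k₀ k₁, ct k₀ k₁ ∧ rt k₀ = k ∧ rt k₁ = k'

/-- the merged grounds -/
def Gr (gr : κ → Prop) (rt : κ → κ) (k : κ) : Prop := ∃ k₀, gr k₀ ∧ rt k₀ = k

/-- The root map. -/
structure Root (X : SimpleGraph V) (ver : κ → V) (pt : κ → Prop) (ct : κ → κ → Prop) (s : ℕ)
    (rt nx : κ → κ) : Prop where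
  r1 : ∀ k, pt (rt k)
  r2 : ∀ k, pt k → rt k = k
  r3 : ∀ k, ¬ pt k → ct k (nx k)
  r4 : ∀ k, rt (nx k) = rt k
  r5 : ∀ k, nx^[s] k = rt k
  r6 : ∀ k, pt k → nx k = k
  r7 : ∀ k, ver k ∈ Nr X {ver (rt k)} s

theorem exists_root {X : SimpleGraph V} {ver : κ → V} {pt : κ → Prop} {ct : κ → κ → Prop}
    {gr : κ → Prop} (h : Flt X ver pt ct gr) {s : ℕ}
    (hs : ∀ k, ¬ pt k → ver k ∈ Nr X {y | ∃ k, pt k ∧ ver k = y} s) :
    ∃ rt nx, Root X ver pt ct s rt nx := by
  classical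
  set A : Set V := {y | ∃ k, pt k ∧ ver k = y} with hA
  -- one step
  have key : ∀ k, ∃ k', (pt k → k' = k) ∧ (¬ pt k → ct k k' ∧
      ∀ i, ver k ∈ Nr X A (i + 1) → ver k' ∈ Nr X A i) := by
    intro k
    by_cases hk : pt k
    · exact ⟨k, fun _ => rfl, fun h' => absurd hk h'⟩
    · have hex : ∃ i, ver k ∈ Nr X A i := ⟨s, hs k hk⟩
      have h0 : ver k ∉ Nr X A 0 := by
        rintro ⟨k', hk', he⟩
        exact hk (by rwa [← h.one k hk k' he])
      obtain ⟨i, hi⟩ : ∃ i, Nat.find hex = i + 1 := by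
        rcases Nat.eq_zero_or_pos (Nat.find hex) with h1 | h1
        · exact absurd (h1 ▸ Nat.find_spec hex) h0
        · exact ⟨Nat.find hex - 1, by omega⟩
      have h2 := Nat.find_spec hex
      rw [hi] at h2
      rcases h2 with h2 | ⟨z, hz, hkz⟩
      · exact absurd h2 (Nat.find_min hex (by omega))
      · obtain ⟨k', rfl, hkk⟩ := h.edge k hk z hkz
        refine ⟨k', fun h' => absurd h' hk, fun _ => ⟨hkk, fun j hj => ?_⟩⟩
        have h3 := Nat.find_min' hex hj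
        exact Nr_mono X A (by omega) hz
  choose nx hn1 hn2 using key
  have hfix : ∀ j k, pt k → nx^[j] k = k := by
    intro j
    induction j with
    | zero => intro k _; rfl
    | succ j ih =>
      intro k hk
      rw [Function.iterate_succ_apply, hn1 k hk, ih k hk]
  have hpt : ∀ i k, ver k ∈ Nr X A i → pt (nx^[i] k) := by
    intro i
    induction i with
    | zero =>
      rintro k ⟨k', hk', he⟩
      by_contra hk
      exact hk (by
        show pt k
        rwa [← h.one k hk k' he])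
    | succ i ih =>
      intro k hk
      rw [Function.iterate_succ_apply]
      by_cases hp : pt k
      · rw [hn1 k hp, hfix i k hp]
        exact hp
      · exact ih _ ((hn2 k hp).2 i hk)
  have hall : ∀ k, pt (nx^[s] k) := by
    intro k
    by_cases hp : pt k
    · rw [hfix s k hp]
      exact hp
    · exact hpt s k (hs k hp)
  have hstep : ∀ k, nx^[s] (nx k) = nx^[s] k := by
    intro k
    rw [← Function.iterate_succ_apply, Function.iterate_succ_apply', hn1 _ (hall k)]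
  have hnear : ∀ i k, ver k ∈ Nr X {ver (nx^[i] k)} i := by
    intro i
    induction i with
    | zero => intro k; exact rfl
    | succ i ih =>
      intro k
      rw [Function.iterate_succ_apply]
      by_cases hp : pt k
      · rw [hn1 k hp]
        exact Or.inl (ih k)
      · exact Or.inr ⟨_, ih (nx k), h.adj _ _ (hn2 k hp).1⟩
  exact ⟨fun k => nx^[s] k, nx, hall, fun k hk => hfix s k hk, fun k hk => (hn2 k hk).1, hstep,
    fun k => rfl, hn1, fun k => hnear s k⟩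

section

variable {X : SimpleGraph V} {ver : κ → V} {pt : κ → Prop} {ct : κ → κ → Prop} {gr : κ → Prop}
  {s : ℕ} {rt nx : κ → κ}

/-- A float is grounded. -/
lemma Flt.float_gr (h : Flt X ver pt ct gr) {k : κ} (hk : ¬ pt k) : gr k := h.fgr k hk

lemma Root.gr' (_ : Root X ver pt ct s rt nx) {k : κ} (hk : gr k) : Gr gr rt (rt k) := ⟨k, hk, rfl⟩

lemma Root.gr_of (hR : Root X ver pt ct s rt nx) {k : κ} (hp : pt k) (hk : gr k) : Gr gr rt k :=
  ⟨k, hk, hR.r2 k hp⟩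

lemma Root.ct_symm (h : Flt X ver pt ct gr) (k k' : κ) (hk : Ct ct rt k k') : Ct ct rt k' k := by
  obtain ⟨h1, k₀, k₁, h2, h3, h4⟩ := hk
  exact ⟨h1.symm, k₁, k₀, h.symm _ _ h2, h4, h3⟩

lemma Root.ct_irr (k : κ) : ¬ Ct ct rt k k := fun h => h.1 rfl

lemma Root.ct_pt (hR : Root X ver pt ct s rt nx) {k k' : κ} (h : Ct ct rt k k') :
    pt k ∧ pt k' := by
  obtain ⟨-, k₀, k₁, -, rfl, rfl⟩ := h
  exact ⟨hR.r1 _, hR.r1 _⟩

lemma Root.gr_pt (hR : Root X ver pt ct s rt nx) {k : κ} (h : Gr gr rt k) : pt k := by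
  obtain ⟨k₀, -, rfl⟩ := h
  exact hR.r1 _

lemma Root.at_pt (hR : Root X ver pt ct s rt nx) {k : κ} {y : V} (h : At ver rt k y) : pt k := by
  obtain ⟨k₀, -, rfl⟩ := h
  exact hR.r1 _

lemma Root.at_self (hR : Root X ver pt ct s rt nx) {k : κ} (h : pt k) : At ver rt k (ver k) :=
  ⟨k, rfl, hR.r2 k h⟩

/-- the members of a vertex with a ported connector are its connectors -/
lemma Root.at_iff (h : Flt X ver pt ct gr) (hR : Root X ver pt ct s rt nx) {k₀ : κ} (hk₀ : pt k₀)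
    (k : κ) : At ver rt k (ver k₀) ↔ ver k = ver k₀ := by
  have hall : ∀ k, ver k = ver k₀ → pt k := by
    intro k hk
    by_contra hp
    exact hp (by rwa [h.one k hp k₀ hk.symm] at hk₀)
  constructor
  · rintro ⟨k₁, h1, rfl⟩
    rw [hR.r2 k₁ (hall k₁ h1)]
    exact h1
  · intro hk
    exact ⟨k, hk, hR.r2 k (hall k hk)⟩

/-- the member of a floating vertex -/
lemma Root.at_float (h : Flt X ver pt ct gr) {k : κ} (hk : ¬ pt k) (k' : κ) :
    At ver rt k' (ver k) ↔ k' = rt k := by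
  constructor
  · rintro ⟨k₁, h1, rfl⟩
    rw [h.one k hk k₁ h1]
  · rintro rfl
    exact ⟨k, rfl, rfl⟩

lemma Root.near (hR : Root X ver pt ct s rt nx) {k : κ} {y : V} (h : At ver rt k y) :
    y ∈ Nr X {ver k} s := by
  obtain ⟨k₀, rfl, rfl⟩ := h
  exact hR.r7 k₀

/-- a grounded connector of a vertex gives a grounded member -/
lemma Root.ground {y : V} (hg : ∃ k, ver k = y ∧ gr k) : ∃ k, At ver rt k y ∧ Gr gr rt k := by
  obtain ⟨k, hk, hg⟩ := hg
  exact ⟨rt k, ⟨k, hk, rfl⟩, k, hg, rfl⟩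

/-- a merged connector with two vertices is grounded -/
lemma Root.two_at (h : Flt X ver pt ct gr) (hR : Root X ver pt ct s rt nx) {k : κ} {y z : V}
    (hy : At ver rt k y) (hz : At ver rt k z) (hyz : y ≠ z) : Gr gr rt k := by
  obtain ⟨k₀, rfl, h1⟩ := hy
  obtain ⟨k₁, rfl, h2⟩ := hz
  by_cases hp : pt k₀
  · by_cases hp' : pt k₁
    · exfalso
      rw [hR.r2 k₀ hp] at h1
      rw [hR.r2 k₁ hp'] at h2
      exact hyz (by rw [h1, h2])
    · exact ⟨k₁, h.fgr k₁ hp', h2⟩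
  · exact ⟨k₀, h.fgr k₀ hp, h1⟩

/-- edges -/
lemma Root.edge {k k' : κ} (hk : ct k k') :
    (∃ l, At ver rt l (ver k) ∧ At ver rt l (ver k')) ∨
      ∃ l l', At ver rt l (ver k) ∧ At ver rt l' (ver k') ∧ Ct ct rt l l' := by
  by_cases he : rt k = rt k'
  · exact Or.inl ⟨rt k, ⟨k, rfl, rfl⟩, ⟨k', rfl, he.symm⟩⟩
  · exact Or.inr ⟨rt k, rt k', ⟨k, rfl, rfl⟩, ⟨k', rfl, rfl⟩, he, k, k', hk, rfl, rfl⟩

/-- contacts of a ported ungrounded connector -/
lemma Root.step (h : Flt X ver pt ct gr) (hR : Root X ver pt ct s rt nx) {k k₁ : κ} (hk : pt k)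
    (hg : ¬ Gr gr rt k) (hc : ct k k₁) :
    Ct ct rt k (rt k₁) ∧ (pt k₁ ∨ Gr gr rt (rt k₁)) := by
  by_cases h1 : pt k₁
  · refine ⟨⟨?_, k, k₁, hc, hR.r2 k hk, rfl⟩, Or.inl h1⟩
    rw [hR.r2 k₁ h1]
    rintro rfl
    exact (h.adj _ _ hc).ne rfl
  · have h2 : Gr gr rt (rt k₁) := ⟨k₁, h.float_gr h1, rfl⟩
    refine ⟨⟨?_, k, k₁, hc, hR.r2 k hk, rfl⟩, Or.inr h2⟩
    intro he
    exact hg (by rw [he]; exact h2)

/-- **(A2')** -/
theorem Root.a2 (h : Flt X ver pt ct gr) (hR : Root X ver pt ct s rt nx) {k : κ} (hk : pt k)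
    (hg : ¬ Gr gr rt k) (h2 : ∃ k₁ k₂, k₁ ≠ k₂ ∧ ct k k₁ ∧ ct k k₂) :
    (∃ k₁ k₂, k₁ ≠ k₂ ∧ Ct ct rt k k₁ ∧ Ct ct rt k k₂) ∨ ∃ k', Ct ct rt k k' ∧ Gr gr rt k' := by
  obtain ⟨k₁, k₂, hne, h3, h4⟩ := h2
  obtain ⟨h5, h6⟩ := hR.step h hk hg h3
  obtain ⟨h7, h8⟩ := hR.step h hk hg h4
  rcases h6 with h6 | h6
  · rcases h8 with h8 | h8
    · exact Or.inl ⟨_, _, by rwa [hR.r2 _ h6, hR.r2 _ h8], h5, h7⟩
    · exact Or.inr ⟨_, h7, h8⟩
  · exact Or.inr ⟨_, h5, h6⟩

/-- **(A3')** -/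
theorem Root.a3 (h : Flt X ver pt ct gr) (hR : Root X ver pt ct s rt nx) {k k' : κ}
    (hk : Ct ct rt k k') : ct k k' ∨ Gr gr rt k ∨ Gr gr rt k' := by
  obtain ⟨-, k₀, k₁, h1, rfl, rfl⟩ := hk
  by_cases h2 : pt k₀
  · by_cases h3 : pt k₁
    · left
      rwa [hR.r2 _ h2, hR.r2 _ h3]
    · exact Or.inr (Or.inr ⟨k₁, h.float_gr h3, rfl⟩)
  · exact Or.inr (Or.inl ⟨k₀, h.float_gr h2, rfl⟩)

/-- balls are bounded -/
lemma card_Nr (X : SimpleGraph V) {d : ℕ} (hd : ∀ y, ∃ A : Finset V, A.card ≤ d ∧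
    ∀ z, X.Adj y z → z ∈ A) (v : V) (i : ℕ) :
    ∃ A : Finset V, A.card ≤ (d + 1) ^ i ∧ ∀ z ∈ Nr X {v} i, z ∈ A := by
  classical
  induction i with
  | zero => exact ⟨{v}, by simp, fun z hz => by simpa [Nr] using hz⟩
  | succ i ih =>
    obtain ⟨A, hA, hA'⟩ := ih
    choose N hN hN' using hd
    refine ⟨A ∪ A.biUnion N, ?_, ?_⟩
    · refine (Finset.card_union_le _ _).trans ?_
      have h1 : (A.biUnion N).card ≤ A.card * d :=
        Finset.card_biUnion_le_card_mul A N d (fun y _ => hN y)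
      calc A.card + (A.biUnion N).card ≤ A.card + A.card * d := by omega
        _ = A.card * (d + 1) := by ring
        _ ≤ (d + 1) ^ i * (d + 1) := Nat.mul_le_mul_right _ hA
        _ = (d + 1) ^ (i + 1) := by ring
    · rintro z (hz | ⟨y, hy, hzy⟩)
      · exact Finset.mem_union_left _ (hA' z hz)
      · exact Finset.mem_union_right _ (Finset.mem_biUnion.2 ⟨y, hA' y hy, hN' y z hzy.symm⟩)

/-- the parts of a merged connector -/
lemma Root.card_parts (h : Flt X ver pt ct gr) (hR : Root X ver pt ct s rt nx) {d : ℕ}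
    (hd : ∀ y, ∃ A : Finset V, A.card ≤ d ∧ ∀ z, X.Adj y z → z ∈ A) (k : κ) :
    ∃ A : Finset κ, A.card ≤ (d + 1) ^ s + 1 ∧ ∀ k₀, rt k₀ = k → k₀ ∈ A := by
  classical
  obtain ⟨A, hA, hA'⟩ := card_Nr X hd (ver k) s
  by_cases hne : Nonempty κ
  · -- the float at a vertex
    set f : V → κ := fun y => if h' : ∃ k₀, ¬ pt k₀ ∧ ver k₀ = y then h'.choose else
      Classical.choice hne with hf
    refine ⟨insert k (A.image f), ?_, ?_⟩
    · exact (Finset.card_insert_le _ _).trans (by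
        have := Finset.card_image_le (s := A) (f := f)
        omega)
    · intro k₀ hk₀
      by_cases hp : pt k₀
      · rw [← hk₀, hR.r2 k₀ hp]
        exact Finset.mem_insert_self _ _
      · refine Finset.mem_insert_of_mem (Finset.mem_image.2 ⟨ver k₀, hA' _ ?_, ?_⟩)
        · rw [← hk₀]
          exact hR.r7 k₀
        · have h' : ∃ k₁, ¬ pt k₁ ∧ ver k₁ = ver k₀ := ⟨k₀, hp, rfl⟩
          have h2 : f (ver k₀) = h'.choose := by
            rw [hf]
            exact dif_pos h'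
          rw [h2]
          exact h.one k₀ hp _ h'.choose_spec.2
  · exact ⟨∅, by simp, fun k₀ _ => absurd ⟨k₀⟩ hne⟩

/-- **(A5')** members -/
theorem Root.card_at (hR : Root X ver pt ct s rt nx) {d : ℕ}
    (hd : ∀ y, ∃ A : Finset V, A.card ≤ d ∧ ∀ z, X.Adj y z → z ∈ A) (k : κ) :
    ∃ A : Finset V, A.card ≤ (d + 1) ^ s ∧ ∀ y, At ver rt k y → y ∈ A := by
  obtain ⟨A, hA, hA'⟩ := card_Nr X hd (ver k) s
  exact ⟨A, hA, fun y hy => hA' y (hR.near hy)⟩

/-- **(A5')** partners -/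
theorem Root.card_ct (h : Flt X ver pt ct gr) (hR : Root X ver pt ct s rt nx) {d e : ℕ}
    (hd : ∀ y, ∃ A : Finset V, A.card ≤ d ∧ ∀ z, X.Adj y z → z ∈ A)
    (he : ∀ k, ∃ A : Finset κ, A.card ≤ e ∧ ∀ k', ct k k' → k' ∈ A) (k : κ) :
    ∃ A : Finset κ, A.card ≤ ((d + 1) ^ s + 1) * e ∧ ∀ k', Ct ct rt k k' → k' ∈ A := by
  classical
  obtain ⟨A, hA, hA'⟩ := hR.card_parts h hd k
  choose N hN hN' using he
  refine ⟨(A.biUnion N).image rt, ?_, ?_⟩
  · refine Finset.card_image_le.trans ((Finset.card_biUnion_le_card_mul A N e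
      (fun y _ => hN y)).trans (Nat.mul_le_mul_right _ hA))
  · rintro k' ⟨-, k₀, k₁, h1, h2, rfl⟩
    exact Finset.mem_image.2 ⟨k₁, Finset.mem_biUnion.2 ⟨k₀, hA' k₀ h2, hN' k₀ k₁ h1⟩, rfl⟩

end

end Mrg

open BIC Gad Mrg

/-- the merged connectors -/
def Mrg.BB {V κ : Type*} (B : κ → Set V) (rt : κ → κ) (k : κ) : Set V :=
  {v | ∃ k₀, rt k₀ = k ∧ v ∈ B k₀}

/-- **Merging in a realized system.** -/
theorem Rlz.merge {α W : Type*} {S : Set α} {ends : α → Sym2 W} {σ κ : Type*}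
    {P : σ → ℕ × ℕ → W} {lo hi : σ → ℕ} {n : ℕ} {G : Set W} {B : κ → Set W}
    {port : σ → ℕ → κ → Prop} {ct : κ → κ → Prop} {gr : κ → Prop}
    (h : Rlz S ends P lo hi n G B port ct gr) {V : Type*} {X : SimpleGraph V} {ver : κ → V}
    {pt : κ → Prop} {s : ℕ} {rt nx : κ → κ} (hF : Flt X ver pt ct gr)
    (hR : Root X ver pt ct s rt nx) (hpt : ∀ s x k, port s x k → pt k) {d : ℕ}
    (hd : ∀ y, ∃ A : Finset V, A.card ≤ d ∧ ∀ z, X.Adj y z → z ∈ A) :
    Rlz S ends P lo hi n G (Mrg.BB B rt) port (Ct ct rt) (Gr gr rt) := by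
  classical
  have hsub : ∀ k₀, B k₀ ⊆ Mrg.BB B rt (rt k₀) := fun k₀ v hv => ⟨k₀, rfl, hv⟩
  have hsub' : ∀ k₀ k, rt k₀ = k → B k₀ ⊆ Mrg.BB B rt k := fun k₀ k hk v hv => ⟨k₀, hk, hv⟩
  refine ⟨h.pgs, h.finG, h.conG, h.pG, ?_, ?_, ?_, ?_, ?_, ?_, ?_, ?_⟩
  · intro k
    obtain ⟨A, -, hA⟩ := hR.card_parts hF hd k
    refine (Set.Finite.biUnion A.finite_toSet (fun k₀ _ => h.fin k₀)).subset ?_
    rintro v ⟨k₀, hk₀, hv⟩
    exact mem_iUnion₂.2 ⟨k₀, hA k₀ hk₀, hv⟩
  · intro k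
    have key : ∀ j k₀, pt (nx^[j] k₀) → ∀ v ∈ B k₀, ∀ u ∈ B (rt k₀),
        Relation.ReflTransGen (fun x y => GAdj S ends x y ∧ x ∈ Mrg.BB B rt (rt k₀) ∧
          y ∈ Mrg.BB B rt (rt k₀)) v u ∧
        Relation.ReflTransGen (fun x y => GAdj S ends x y ∧ x ∈ Mrg.BB B rt (rt k₀) ∧
          y ∈ Mrg.BB B rt (rt k₀)) u v := by
      intro j
      induction j with
      | zero =>
        intro k₀ hp v hv u hu
        have he : rt k₀ = k₀ := hR.r2 k₀ hp
        rw [he] at hu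
        have h1 := rtg_mono (hsub k₀) (h.con k₀ v hv u hu)
        have h2 := rtg_mono (hsub k₀) (h.con k₀ u hu v hv)
        exact ⟨h1, h2⟩
      | succ j ih =>
        intro k₀ hp v hv u hu
        by_cases hk : pt k₀
        · have he : rt k₀ = k₀ := hR.r2 k₀ hk
          rw [he] at hu
          exact ⟨rtg_mono (hsub k₀) (h.con k₀ v hv u hu),
            rtg_mono (hsub k₀) (h.con k₀ u hu v hv)⟩
        · have hc := h.cnt _ _ (hR.r3 k₀ hk)
          obtain ⟨e, he, a, ha, b, hb, hab⟩ := hc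
          have hrt := hR.r4 k₀
          rw [Function.iterate_succ_apply] at hp
          obtain ⟨i1, i2⟩ := ih (nx k₀) hp b hb u (by rwa [hrt])
          rw [hrt] at i1 i2
          have ha' : a ∈ Mrg.BB B rt (rt k₀) := hsub k₀ ha
          have hb' : b ∈ Mrg.BB B rt (rt k₀) := hsub' _ _ hrt hb
          exact ⟨((rtg_mono (hsub k₀) (h.con k₀ v hv a ha)).tail ⟨⟨e, he, hab⟩, ha', hb'⟩).trans
            i1, (i2.tail ⟨⟨e, he, by rw [hab, Sym2.eq_swap]⟩, hb', ha'⟩).trans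
              (rtg_mono (hsub k₀) (h.con k₀ a ha v hv))⟩
    have hall : ∀ k₀, pt (nx^[s] k₀) := fun k₀ => by
      rw [hR.r5]
      exact hR.r1 k₀
    rintro v ⟨k₀, rfl, hv⟩ u ⟨k₁, hk₁, hu⟩
    by_cases hne : (B (rt k₀)).Nonempty
    · obtain ⟨x, hx⟩ := hne
      have h1 := (key s k₀ (hall k₀) v hv x hx).1
      have h2 := (key s k₁ (hall k₁) u hu x (by rwa [hk₁])).2
      rw [hk₁] at h2
      exact h1.trans h2
    · -- the root has a nonempty branch set unless both are the root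
      exfalso
      by_cases hk : pt k₀
      · exact hne ⟨v, by rwa [hR.r2 k₀ hk]⟩
      · -- the last contact of the chain
        have : ∀ j k₀, ¬ pt k₀ → pt (nx^[j] k₀) → (B (rt k₀)).Nonempty := by
          intro j
          induction j with
          | zero => intro k₀ h1 h2; exact absurd h2 h1
          | succ j ih =>
            intro k₀ h1 h2
            rw [Function.iterate_succ_apply] at h2
            by_cases h3 : pt (nx k₀)
            · obtain ⟨e, he, a, ha, b, hb, hab⟩ := h.cnt _ _ (hR.r3 k₀ h1)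
              refine ⟨b, ?_⟩
              rw [← hR.r4 k₀, hR.r2 _ h3]
              exact hb
            · rw [← hR.r4 k₀]
              exact ih _ h3 h2
        exact hne (this s k₀ hk (hall k₀))
  · intro k k' hkk
    rw [Set.disjoint_left]
    rintro v ⟨k₀, h1, h2⟩ ⟨k₁, h3, h4⟩
    have hne : k₀ ≠ k₁ := by
      rintro rfl
      exact hkk (h1.symm.trans h3)
    exact Set.disjoint_left.1 (h.dis k₀ k₁ hne) h2 h4
  · rintro k s c hc ⟨k₀, -, hv⟩
    exact h.pB k₀ s c hc hv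
  · intro k
    rw [Set.disjoint_left]
    rintro v ⟨k₀, -, hv⟩ hg
    exact Set.disjoint_left.1 (h.dG k₀) hv hg
  · intro s x k hk
    obtain ⟨h1, h2, h3⟩ := h.prt s x k hk
    exact ⟨h1, h2, h3.mono subset_rfl (hsub' _ _ (hR.r2 k (hpt _ _ _ hk))) subset_rfl⟩
  · rintro k k' ⟨-, k₀, k₁, h1, h2, h3⟩
    exact (h.cnt k₀ k₁ h1).mono subset_rfl (hsub' _ _ h2) (hsub' _ _ h3)
  · rintro k ⟨k₀, h1, h2⟩
    exact (h.grd k₀ h1).mono subset_rfl (hsub' _ _ h2) subset_rfl

end EN
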