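import Pool.Agent.EN.TautDef
import Pool.Agent.EN.Merge
import Pool.Agent.EN.GlueS

/-!
# Instance: taut systems with merged floats on one line (row C7 (b) of T-star; helper45)

From `Y : Mdl.CSys` with `Y.Taut G`: restriction to `Y.all`, merging of the floats, numbering of
all ports on one line (first the left sides of all sheets, then the right sides), the axioms
`EN.Sys.Ax`, `GlueS.Place`, `GlueS.Mem`.
-/

set_option autoImplicit false

open Finset

namespace Mdl

variable {V σ X κ : Type*}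

/-- ported connectors -/
def CSys.Pt (Y : CSys σ X κ) (k : κ) : Prop := ∃ s e p, p < Y.n s ∧ Y.own s e p = k

/-- The part of the axioms which does not speak about the grounds of vertices. -/
structure CSys.Core (Y : CSys σ X κ) (G : SimpleGraph X) : Prop where
  fin : Y.all.Finite
  mem : ∀ s e p, p < Y.n s → Y.own s e p ∈ Y.all
  ctm : ∀ k k', Y.ct k k' → k ∈ Y.all ∧ k' ∈ Y.all ∧ G.Adj (Y.ver k) (Y.ver k')
  cts : ∀ k k', Y.ct k k' → Y.ct k' k
  ct1 : ∀ k k' l l', Y.ct k k' → Y.ct l l' → Y.ver k = Y.ver l → Y.ver k' = Y.ver l' →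
    k = l ∧ k' = l'
  ctE : ∀ k k', Y.ct k k' → ¬ Y.Ein (Y.ver k) (Y.ver k')
  con : ∀ y (T : Set κ), (∃ k ∈ Y.all, k ∈ T ∧ Y.ver k = y) → (∃ k ∈ Y.all, k ∉ T ∧ Y.ver k = y) →
    ∃ s p, p < Y.n s ∧ Y.ver (Y.own s false p) = y ∧ Y.ver (Y.own s true p) = y ∧
      ¬ (Y.own s false p ∈ T ↔ Y.own s true p ∈ T)
  edg : ∀ y z, G.Adj y z → Y.Ein y z ∨ ∃ k k', Y.ct k k' ∧ Y.ver k = y ∧ Y.ver k' = z
  a1 : ∀ s e p, p + 1 < Y.n s → Y.ver (Y.own s e p) ≠ Y.ver (Y.own s e (p + 1))
  a2 : ∀ s e p, p < Y.n s → ¬ Y.gr (Y.own s e p) →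
    (∀ s' e' p', p' < Y.n s' → Y.own s' e' p' = Y.own s e p → s' = s ∧ e' = e ∧ p' = p) →
    ∃ k k', k ≠ k' ∧ Y.ct (Y.own s e p) k ∧ Y.ct (Y.own s e p) k'
  a5 : ∀ k, ∀ A : Finset (σ × Bool × ℕ),
    (∀ x ∈ A, x.2.2 < Y.n x.1 ∧ Y.own x.1 x.2.1 x.2.2 = k) → A.card ≤ 7
  /-- floats are grounded -/
  fgr : ∀ k ∈ Y.all, ¬ Y.Pt k → Y.gr k

/-- a float is the only connector of its vertex -/
lemma CSys.float_one {Y : CSys σ X κ}
    (con : ∀ y (T : Set κ), (∃ k ∈ Y.all, k ∈ T ∧ Y.ver k = y) →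
      (∃ k ∈ Y.all, k ∉ T ∧ Y.ver k = y) →
      ∃ s p, p < Y.n s ∧ Y.ver (Y.own s false p) = y ∧ Y.ver (Y.own s true p) = y ∧
        ¬ (Y.own s false p ∈ T ↔ Y.own s true p ∈ T))
    {k : κ} (hk : k ∈ Y.all) (hp : ¬ Y.Pt k) {k' : κ} (hk' : k' ∈ Y.all)
    (hkk : Y.ver k' = Y.ver k) : k' = k := by
  by_contra hne
  obtain ⟨s, p, hp', _, _, h3⟩ := con (Y.ver k) {k} ⟨k, hk, rfl, rfl⟩ ⟨k', hk', hne, hkk⟩
  by_cases h1 : Y.own s false p = k
  · exact hp ⟨s, false, p, hp', h1⟩
  · by_cases h2 : Y.own s true p = k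
    · exact hp ⟨s, true, p, hp', h2⟩
    · exact h3 ⟨fun h4 => absurd h4 h1, fun h4 => absurd h4 h2⟩

theorem CSys.Taut.core {Y : CSys σ X κ} {G : SimpleGraph X} (h : Y.Taut G) : Y.Core G where
  fin := h.fin
  mem := h.mem
  ctm := h.ctm
  cts := h.cts
  ct1 := h.ct1
  ctE := h.ctE
  con := h.con
  edg := h.edg
  a1 := h.a1
  a2 := h.a2
  a5 k A hA := (h.a5 k A hA).trans (by norm_num)
  fgr k hk hp := by
    obtain ⟨k', h1, h2⟩ := h.gnd (Y.ver k)
    rwa [CSys.float_one h.con hk hp (h.grm k' h1) h2] at h1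

/-- Restriction to the connectors in `all`. -/
noncomputable def CSys.sub (Y : CSys σ X κ) (hne : Nonempty Y.all) : CSys σ X Y.all := by
  classical
  exact
    { n := Y.n
      col := Y.col
      own := fun s e p => if h : Y.own s e p ∈ Y.all then ⟨_, h⟩ else Classical.choice hne
      all := Set.univ
      ver := fun k => Y.ver k
      ct := fun k k' => Y.ct k k'
      gr := fun k => Y.gr k }

lemma CSys.sub_own {Y : CSys σ X κ} {G : SimpleGraph X} (h : Y.Core G) (hne : Nonempty Y.all)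
    {s : σ} {e : Bool} {p : ℕ} (hp : p < Y.n s) :
    (((Y.sub hne).own s e p : Y.all) : κ) = Y.own s e p := by
  classical
  have h1 : Y.own s e p ∈ Y.all := h.mem s e p hp
  show ((if h : Y.own s e p ∈ Y.all then (⟨_, h⟩ : Y.all) else Classical.choice hne : Y.all) : κ)
    = Y.own s e p
  rw [dif_pos h1]

lemma CSys.sub_ver {Y : CSys σ X κ} {G : SimpleGraph X} (h : Y.Core G) (hne : Nonempty Y.all)
    {s : σ} {e : Bool} {p : ℕ} (hp : p < Y.n s) :
    (Y.sub hne).ver ((Y.sub hne).own s e p) = Y.ver (Y.own s e p) := by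
  show Y.ver (((Y.sub hne).own s e p : Y.all) : κ) = _
  rw [CSys.sub_own h hne hp]

theorem CSys.Core.sub {Y : CSys σ X κ} {G : SimpleGraph X} (h : Y.Core G)
    (hne : Nonempty Y.all) : (Y.sub hne).Core G where
  fin := by
    have : Finite Y.all := h.fin
    exact Set.toFinite _
  mem _ _ _ _ := Set.mem_univ _
  ctm k k' hk := ⟨Set.mem_univ _, Set.mem_univ _, (h.ctm k k' hk).2.2⟩
  cts k k' hk := h.cts k k' hk
  ct1 k k' l l' h1 h2 h3 h4 := by
    obtain ⟨e1, e2⟩ := h.ct1 k k' l l' h1 h2 h3 h4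
    exact ⟨Subtype.ext e1, Subtype.ext e2⟩
  ctE k k' hk := by
    rintro ⟨s, e, e', p, q, h1, h2, h3, h4, h5⟩
    have h1' : p < Y.n s := h1
    have h2' : q < Y.n s := h2
    rw [CSys.sub_ver h hne h1'] at h4
    rw [CSys.sub_ver h hne h2'] at h5
    exact h.ctE k k' hk ⟨s, e, e', p, q, h1', h2', h3, h4, h5⟩
  con y T := by
    rintro ⟨k, _, h1, h2⟩ ⟨k', _, h3, h4⟩
    obtain ⟨s, p, hp, g1, g2, g3⟩ := h.con y {x | ∃ hx : x ∈ Y.all, (⟨x, hx⟩ : Y.all) ∈ T}
      ⟨k, k.2, ⟨k.2, h1⟩, h2⟩ ⟨k', k'.2, fun ⟨_, hx⟩ => h3 hx, h4⟩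
    refine ⟨s, p, hp, ?_, ?_, ?_⟩
    · rw [CSys.sub_ver h hne hp]
      exact g1
    · rw [CSys.sub_ver h hne hp]
      exact g2
    · have key : ∀ e, Y.own s e p ∈ {x | ∃ hx : x ∈ Y.all, (⟨x, hx⟩ : Y.all) ∈ T} ↔
          (Y.sub hne).own s e p ∈ T := by
        intro e
        have h5 : (Y.sub hne).own s e p = ⟨Y.own s e p, h.mem s e p hp⟩ :=
          Subtype.ext (CSys.sub_own h hne hp)
        rw [h5]
        exact ⟨fun ⟨_, hx⟩ => hx, fun hx => ⟨_, hx⟩⟩
      rw [key, key] at g3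
      exact g3
  edg y z hyz := by
    rcases h.edg y z hyz with ⟨s, e, e', p, q, h1, h2, h3, h4, h5⟩ | ⟨k, k', h1, h2, h3⟩
    · left
      refine ⟨s, e, e', p, q, h1, h2, h3, ?_, ?_⟩
      · rw [CSys.sub_ver h hne h1]
        exact h4
      · rw [CSys.sub_ver h hne h2]
        exact h5
    · right
      obtain ⟨h4, h5, _⟩ := h.ctm k k' h1
      exact ⟨⟨k, h4⟩, ⟨k', h5⟩, h1, h2, h3⟩
  a1 s e p hp := by
    have hp' : p + 1 < Y.n s := hp
    rw [CSys.sub_ver h hne (by omega), CSys.sub_ver h hne hp']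
    exact h.a1 s e p hp'
  a2 s e p hp hg hone := by
    have hp' : p < Y.n s := hp
    have hg' : ¬ Y.gr (Y.own s e p) := by
      rw [← CSys.sub_own h hne hp']
      exact hg
    obtain ⟨k, k', h1, h2, h3⟩ := h.a2 s e p hp' hg' (by
      intro s' e' p' hp'' he
      refine hone s' e' p' hp'' (Subtype.ext ?_)
      rw [CSys.sub_own h hne hp'', CSys.sub_own h hne hp', he])
    obtain ⟨_, h5, _⟩ := h.ctm _ _ h2
    obtain ⟨_, h7, _⟩ := h.ctm _ _ h3
    refine ⟨⟨k, h5⟩, ⟨k', h7⟩, fun he => h1 (congrArg Subtype.val he), ?_, ?_⟩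
    · show Y.ct (((Y.sub hne).own s e p : Y.all) : κ) k
      rw [CSys.sub_own h hne hp']
      exact h2
    · show Y.ct (((Y.sub hne).own s e p : Y.all) : κ) k'
      rw [CSys.sub_own h hne hp']
      exact h3
  a5 k A hA := by
    refine h.a5 k A (fun x hx => ?_)
    obtain ⟨h1, h2⟩ := hA x hx
    refine ⟨h1, ?_⟩
    rw [← CSys.sub_own h hne h1, h2]
  fgr k _ hp := by
    refine h.fgr k k.2 ?_
    rintro ⟨s, e, p, hp', he⟩
    exact hp ⟨s, e, p, hp', Subtype.ext ((CSys.sub_own h hne hp').trans he)⟩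

/-- vertices with a ported connector -/
def CSys.PV (Y : CSys σ X κ) : Set X := {y | ∃ k, Y.Pt k ∧ Y.ver k = y}

/-- the input of the merge -/
theorem CSys.Core.flt {Y : CSys σ X κ} {G : SimpleGraph X} (h : Y.Core G)
    (hall : ∀ k, k ∈ Y.all) : EN.Mrg.Flt G Y.ver Y.Pt Y.ct Y.gr where
  symm := h.cts
  adj k k' hk := (h.ctm k k' hk).2.2
  one k hk k' hkk := CSys.float_one h.con (hall k) hk (hall k') hkk
  edge k hk z hz := by
    rcases h.edg _ _ hz with ⟨s, e, e', p, q, h1, h2, h3, h4, h5⟩ | ⟨l, l', h1, h2, h3⟩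
    · exact absurd ⟨s, e, p, h1, CSys.float_one h.con (hall k) hk (hall _) h4⟩ hk
    · rw [CSys.float_one h.con (hall k) hk (hall l) h2] at h1
      exact ⟨l', h3, h1⟩
  fgr k hk := h.fgr k (hall k) hk

end Mdl

namespace EN

namespace Inst

open Mdl EN.Sweep EN.Mrg

/-! ### The line -/

/-- number of columns of the first `j` sheets -/
def off (m : ℕ → ℕ) (j : ℕ) : ℕ := ∑ i ∈ range j, m i

lemma off_succ (m : ℕ → ℕ) (j : ℕ) : off m (j + 1) = off m j + m j := Finset.sum_range_succ _ _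

lemma off_mono (m : ℕ → ℕ) {i j : ℕ} (h : i ≤ j) : off m i ≤ off m j := by
  induction j, h using Nat.le_induction with
  | base => exact le_rfl
  | succ j _ ih =>
    rw [off_succ]
    omega

/-- the sheet of a column -/
def shc (m : ℕ → ℕ) (S x : ℕ) : ℕ := ((range S).filter (fun j => off m (j + 1) ≤ x)).card

lemma shc_mono (m : ℕ → ℕ) (S : ℕ) {x y : ℕ} (h : x ≤ y) : shc m S x ≤ shc m S y := by
  unfold shc
  refine Finset.card_le_card (fun j hj => ?_)
  obtain ⟨h1, h2⟩ := Finset.mem_filter.1 hj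
  exact Finset.mem_filter.2 ⟨h1, h2.trans h⟩

lemma shc_off (m : ℕ → ℕ) {S j p : ℕ} (hj : j < S) (hp : p < m j) : shc m S (off m j + p) = j := by
  have h1 : (range S).filter (fun i => off m (i + 1) ≤ off m j + p) = range j := by
    ext i
    rw [Finset.mem_filter, Finset.mem_range, Finset.mem_range]
    constructor
    · rintro ⟨_, h2⟩
      by_contra h3
      have h4 := off_mono m (show j + 1 ≤ i + 1 by omega)
      rw [off_succ m j] at h4
      omega
    · intro h2
      have h4 := off_mono m (show i + 1 ≤ j by omega)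
      exact ⟨by omega, by omega⟩
  unfold shc
  rw [h1, Finset.card_range]

lemma exists_col (m : ℕ → ℕ) (S x : ℕ) (hx : x < off m S) : ∃ j < S, ∃ p < m j, x = off m j + p := by
  induction S with
  | zero => simp [off] at hx
  | succ S ih =>
    by_cases h : x < off m S
    · obtain ⟨j, h1, p, h2, h3⟩ := ih h
      exact ⟨j, by omega, p, h2, h3⟩
    · rw [off_succ] at hx
      exact ⟨S, by omega, x - off m S, by omega, by omega⟩

/-- the position of a column in its sheet -/
def idx (m : ℕ → ℕ) (S x : ℕ) : ℕ := x - off m (shc m S x)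

lemma idx_off (m : ℕ → ℕ) {S j p : ℕ} (hj : j < S) (hp : p < m j) : idx m S (off m j + p) = p := by
  unfold idx
  rw [shc_off m hj hp]
  omega

lemma shc_lt (m : ℕ → ℕ) {S x : ℕ} (hx : x < off m S) : shc m S x < S := by
  obtain ⟨j, h1, p, h2, rfl⟩ := exists_col m S x hx
  rw [shc_off m h1 h2]
  exact h1

lemma idx_lt (m : ℕ → ℕ) {S x : ℕ} (hx : x < off m S) : idx m S x < m (shc m S x) := by
  obtain ⟨j, h1, p, h2, rfl⟩ := exists_col m S x hx
  rw [shc_off m h1 h2, idx_off m h1 h2]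
  exact h2

lemma off_idx (m : ℕ → ℕ) {S x : ℕ} (hx : x < off m S) : off m (shc m S x) + idx m S x = x := by
  obtain ⟨j, h1, p, h2, rfl⟩ := exists_col m S x hx
  rw [shc_off m h1 h2, idx_off m h1 h2]

/-- neighbouring columns of one sheet -/
lemma shc_succ (m : ℕ → ℕ) {S x : ℕ} (hx : x + 1 < off m S) (h : shc m S x = shc m S (x + 1)) :
    idx m S (x + 1) = idx m S x + 1 := by
  have h1 := off_idx m (show x < off m S by omega)
  have h2 := off_idx m hx
  rw [← h] at h2
  omega

section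

variable {σ X κ : Type*}

/-- The system of ports on one line. -/
def lin (Y : CSys σ X κ) (sg : ℕ → σ) (S : ℕ) : EN.Sys κ where
  L := 2 * off (fun i => Y.n (sg i)) S
  R := 2 * S
  sh x := if x < off (fun i => Y.n (sg i)) S then shc (fun i => Y.n (sg i)) S x else
    S + shc (fun i => Y.n (sg i)) S (x - off (fun i => Y.n (sg i)) S)
  own x := if x < off (fun i => Y.n (sg i)) S then
      Y.own (sg (shc (fun i => Y.n (sg i)) S x)) false (idx (fun i => Y.n (sg i)) S x)
    else Y.own (sg (shc (fun i => Y.n (sg i)) S (x - off (fun i => Y.n (sg i)) S))) true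
      (idx (fun i => Y.n (sg i)) S (x - off (fun i => Y.n (sg i)) S))
  ct := Y.ct
  gr := Y.gr

/-- the real column of a port -/
def colL (Y : CSys σ X κ) (sg : ℕ → σ) (S x : ℕ) : ℕ :=
  if x < off (fun i => Y.n (sg i)) S then
      Y.col (sg (shc (fun i => Y.n (sg i)) S x)) (idx (fun i => Y.n (sg i)) S x)
    else Y.col (sg (shc (fun i => Y.n (sg i)) S (x - off (fun i => Y.n (sg i)) S)))
      (idx (fun i => Y.n (sg i)) S (x - off (fun i => Y.n (sg i)) S))

/-- the position of a port: sheet `j`, side `e`, column `p` -/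
def ps (Y : CSys σ X κ) (sg : ℕ → σ) (S j : ℕ) (e : Bool) (p : ℕ) : ℕ :=
  if e then off (fun i => Y.n (sg i)) S + (off (fun i => Y.n (sg i)) j + p)
  else off (fun i => Y.n (sg i)) j + p

/-- the position of a port in `Pt P` -/
def pos (P : ℕ) (p : EN.Sweep.Pt P) : ℕ := if p.2 then P + p.1.val else p.1.val

variable {Y : CSys σ X κ} {sg : ℕ → σ} {S : ℕ}

lemma off_lt {m : ℕ → ℕ} {S j p : ℕ} (hj : j < S) (hp : p < m j) : off m j + p < off m S := by
  have h1 := off_mono m (show j + 1 ≤ S by omega)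
  rw [off_succ] at h1
  omega

lemma ps_lt {j : ℕ} {e : Bool} {p : ℕ} (hj : j < S) (hp : p < Y.n (sg j)) :
    ps Y sg S j e p < (lin Y sg S).L := by
  have h1 : off (fun i => Y.n (sg i)) j + p < off (fun i => Y.n (sg i)) S :=
    off_lt (m := fun i => Y.n (sg i)) hj hp
  show ps Y sg S j e p < 2 * off (fun i => Y.n (sg i)) S
  unfold ps
  split_ifs <;> omega

lemma ps_false (j p : ℕ) : ps Y sg S j false p = off (fun i => Y.n (sg i)) j + p := rfl

lemma ps_true (j p : ℕ) : ps Y sg S j true p =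
    off (fun i => Y.n (sg i)) S + (off (fun i => Y.n (sg i)) j + p) := rfl

lemma own_ps {j : ℕ} {e : Bool} {p : ℕ} (hj : j < S) (hp : p < Y.n (sg j)) :
    (lin Y sg S).own (ps Y sg S j e p) = Y.own (sg j) e p := by
  have h1 : off (fun i => Y.n (sg i)) j + p < off (fun i => Y.n (sg i)) S :=
    off_lt (m := fun i => Y.n (sg i)) hj hp
  have h2 := shc_off (fun i => Y.n (sg i)) hj hp
  have h3 := idx_off (fun i => Y.n (sg i)) hj hp
  cases e
  · rw [ps_false]
    show (if off (fun i => Y.n (sg i)) j + p < off (fun i => Y.n (sg i)) S then _ else _) = _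
    rw [if_pos h1, h2, h3]
  · rw [ps_true]
    show (if off (fun i => Y.n (sg i)) S + (off (fun i => Y.n (sg i)) j + p) <
      off (fun i => Y.n (sg i)) S then _ else _) = _
    rw [if_neg (by omega), Nat.add_sub_cancel_left, h2, h3]

lemma sh_ps {j : ℕ} {e : Bool} {p : ℕ} (hj : j < S) (hp : p < Y.n (sg j)) :
    (lin Y sg S).sh (ps Y sg S j e p) = if e then S + j else j := by
  have h1 : off (fun i => Y.n (sg i)) j + p < off (fun i => Y.n (sg i)) S :=
    off_lt (m := fun i => Y.n (sg i)) hj hp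
  have h2 := shc_off (fun i => Y.n (sg i)) hj hp
  cases e
  · rw [ps_false]
    show (if off (fun i => Y.n (sg i)) j + p < off (fun i => Y.n (sg i)) S then _ else _) = _
    rw [if_pos h1, h2]
    simp
  · rw [ps_true]
    show (if off (fun i => Y.n (sg i)) S + (off (fun i => Y.n (sg i)) j + p) <
      off (fun i => Y.n (sg i)) S then _ else _) = _
    rw [if_neg (by omega), Nat.add_sub_cancel_left, h2]
    simp

lemma colL_ps {j : ℕ} {e : Bool} {p : ℕ} (hj : j < S) (hp : p < Y.n (sg j)) :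
    colL Y sg S (ps Y sg S j e p) = Y.col (sg j) p := by
  have h1 : off (fun i => Y.n (sg i)) j + p < off (fun i => Y.n (sg i)) S :=
    off_lt (m := fun i => Y.n (sg i)) hj hp
  have h2 := shc_off (fun i => Y.n (sg i)) hj hp
  have h3 := idx_off (fun i => Y.n (sg i)) hj hp
  cases e
  · rw [ps_false]
    show (if off (fun i => Y.n (sg i)) j + p < off (fun i => Y.n (sg i)) S then _ else _) = _
    rw [if_pos h1, h2, h3]
  · rw [ps_true]
    show (if off (fun i => Y.n (sg i)) S + (off (fun i => Y.n (sg i)) j + p) <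
      off (fun i => Y.n (sg i)) S then _ else _) = _
    rw [if_neg (by omega), Nat.add_sub_cancel_left, h2, h3]

/-- every position is the position of a port -/
lemma exists_ps {x : ℕ} (hx : x < (lin Y sg S).L) :
    ∃ j < S, ∃ e, ∃ p < Y.n (sg j), x = ps Y sg S j e p := by
  have hx' : x < 2 * off (fun i => Y.n (sg i)) S := hx
  by_cases h : x < off (fun i => Y.n (sg i)) S
  · obtain ⟨j, h1, p, h2, h3⟩ := exists_col _ _ _ h
    exact ⟨j, h1, false, p, h2, h3⟩
  · obtain ⟨j, h1, p, h2, h3⟩ := exists_col (fun i => Y.n (sg i)) S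
      (x - off (fun i => Y.n (sg i)) S) (by omega)
    refine ⟨j, h1, true, p, h2, ?_⟩
    show x = off (fun i => Y.n (sg i)) S + (off (fun i => Y.n (sg i)) j + p)
    omega

lemma ps_inj {j j' : ℕ} {e e' : Bool} {p p' : ℕ} (hj : j < S) (hp : p < Y.n (sg j))
    (hj' : j' < S) (hp' : p' < Y.n (sg j')) (h : ps Y sg S j e p = ps Y sg S j' e' p') :
    j = j' ∧ e = e' ∧ p = p' := by
  have h1 : off (fun i => Y.n (sg i)) j + p < off (fun i => Y.n (sg i)) S :=
    off_lt (m := fun i => Y.n (sg i)) hj hp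
  have h1' : off (fun i => Y.n (sg i)) j' + p' < off (fun i => Y.n (sg i)) S :=
    off_lt (m := fun i => Y.n (sg i)) hj' hp'
  have key : off (fun i => Y.n (sg i)) j + p = off (fun i => Y.n (sg i)) j' + p' ∧ e = e' := by
    unfold ps at h
    cases e <;> cases e' <;> simp at h ⊢ <;> omega
  have h2 := shc_off (fun i => Y.n (sg i)) hj hp
  have h3 := shc_off (fun i => Y.n (sg i)) hj' hp'
  rw [key.1, h3] at h2
  subst h2
  exact ⟨rfl, key.2, by omega⟩

/-- neighbouring positions of one shore -/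
lemma ps_next {x : ℕ} (hx : x + 1 < (lin Y sg S).L)
    (hs : (lin Y sg S).sh x = (lin Y sg S).sh (x + 1)) :
    ∃ j < S, ∃ e p, p + 1 < Y.n (sg j) ∧ x = ps Y sg S j e p ∧ x + 1 = ps Y sg S j e (p + 1) := by
  obtain ⟨j, hj, e, p, hp, h1⟩ := exists_ps (show x < (lin Y sg S).L by omega)
  obtain ⟨j', hj', e', p', hp', h1'⟩ := exists_ps hx
  have h2 := sh_ps (Y := Y) (sg := sg) (S := S) (e := e) hj hp
  have h2' := sh_ps (Y := Y) (sg := sg) (S := S) (e := e') hj' hp'
  rw [← h1] at h2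
  rw [← h1'] at h2'
  have h3 : j = j' ∧ e = e' := by
    rw [h2, h2'] at hs
    cases e <;> cases e' <;> simp at hs ⊢ <;> omega
  obtain ⟨rfl, rfl⟩ := h3
  have h4 : p' = p + 1 := by
    unfold ps at h1 h1'
    cases e <;> simp at h1 h1' <;> omega
  subst h4
  exact ⟨j, hj, e, p, hp', h1, h1'⟩

/-- the system with merged contacts and grounds -/
def mrg (Y : CSys σ X κ) (rt : κ → κ) : CSys σ X κ :=
  { Y with
    ct := Ct Y.ct rt
    gr := Gr Y.gr rt }

/-- The sheets `sg 0, …, sg (S - 1)` are all sheets, without repetition. -/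
structure Enum (sg : ℕ → σ) (S : ℕ) : Prop where
  surj : ∀ s, ∃ j < S, sg j = s
  inj : ∀ j < S, ∀ j' < S, sg j = sg j' → j = j'

lemma exists_enum_sheets [Finite σ] [Nonempty σ] : ∃ sg : ℕ → σ, Enum sg (Nat.card σ) := by
  classical
  have e := Finite.equivFin σ
  refine ⟨fun j => if h : j < Nat.card σ then e.symm ⟨j, h⟩ else Classical.arbitrary σ, ?_, ?_⟩
  · intro s
    refine ⟨(e s).val, (e s).isLt, ?_⟩
    simp only [dif_pos (e s).isLt, Fin.eta, Equiv.symm_apply_apply]
  · intro j hj j' hj' h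
    simp only [dif_pos hj, dif_pos hj'] at h
    have := e.symm.injective h
    simpa using this

lemma lin_own_pt {x : ℕ} (hx : x < (lin Y sg S).L) : Y.Pt ((lin Y sg S).own x) := by
  obtain ⟨j, hj, e, p, hp, rfl⟩ := exists_ps hx
  rw [own_ps hj hp]
  exact ⟨_, _, _, hp, rfl⟩

lemma exists_of_pt (hE : Enum sg S) {k : κ} (hk : Y.Pt k) :
    ∃ x < (lin Y sg S).L, (lin Y sg S).own x = k := by
  obtain ⟨s, e, p, hp, rfl⟩ := hk
  obtain ⟨j, hj, rfl⟩ := hE.surj s
  exact ⟨ps Y sg S j e p, ps_lt hj hp, own_ps hj hp⟩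

/-- neighbours of a vertex -/
lemma nb_fin {G : SimpleGraph X} [Finite X] {d : ℕ} (h3 : ∀ y, {z | G.Adj y z}.ncard ≤ d) (y : X) :
    ∃ A : Finset X, A.card ≤ d ∧ ∀ z, G.Adj y z → z ∈ A := by
  classical
  refine ⟨(Set.toFinite {z | G.Adj y z}).toFinset, ?_, fun z hz => ?_⟩
  · rw [← Set.ncard_eq_toFinset_card _ (Set.toFinite {z | G.Adj y z})]
    exact h3 y
  · rw [Set.Finite.mem_toFinset]
    exact hz

/-- contacts of a connector -/
lemma ct_fin {G : SimpleGraph X} [Finite X] {d : ℕ} (h3 : ∀ y, {z | G.Adj y z}.ncard ≤ d)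
    (h : Y.Core G) (hall : ∀ k, k ∈ Y.all) (k : κ) :
    ∃ A : Finset κ, A.card ≤ d ∧ ∀ k', Y.ct k k' → k' ∈ A := by
  classical
  have hfin : (Set.univ : Set κ).Finite := h.fin.subset (fun k _ => hall k)
  have hf : {k' | Y.ct k k'}.Finite := hfin.subset (Set.subset_univ _)
  refine ⟨hf.toFinset, ?_, fun z hz => ?_⟩
  · rw [← Set.ncard_eq_toFinset_card _ hf]
    refine le_trans ?_ (h3 (Y.ver k))
    refine Set.ncard_le_ncard_of_injOn Y.ver ?_ ?_ (Set.toFinite _)
    · intro k' hk'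
      exact (h.ctm k k' hk').2.2
    · intro k₁ h1 k₂ h2 he
      exact (h.ct1 k k₁ k k₂ h1 h2 rfl he).2
  · rw [Set.Finite.mem_toFinset]
    exact hz

/-- the bound for ports and partners -/
def dB (s : ℕ) : ℕ := max 7 (((3 + 1) ^ s + 1) * 3)

/-- **The axioms.** -/
theorem ax {G : SimpleGraph X} [Finite X] (h : Y.Core G) (hall : ∀ k, k ∈ Y.all) {s : ℕ}
    {rt nx : κ → κ} (hR : Root G Y.ver Y.Pt Y.ct s rt nx) (h3 : ∀ y, {z | G.Adj y z}.ncard ≤ 3)
    (hE : Enum sg S) : (lin (mrg Y rt) sg S).Ax (dB s) where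
  mono x y hxy hy := by
    have hy' : y < 2 * off (fun i => Y.n (sg i)) S := hy
    show (if x < off (fun i => Y.n (sg i)) S then _ else _) ≤
      (if y < off (fun i => Y.n (sg i)) S then _ else _)
    split_ifs with h1 h2
    · exact shc_mono _ _ hxy
    · have := shc_lt (fun i => Y.n (sg i)) h1
      show shc (fun i => Y.n (sg i)) S x ≤
        S + shc (fun i => Y.n (sg i)) S (y - off (fun i => Y.n (sg i)) S)
      omega
    · omega
    · exact Nat.add_le_add_left (shc_mono _ _ (by omega)) _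
  lt x hx := by
    have hx' : x < 2 * off (fun i => Y.n (sg i)) S := hx
    show (if x < off (fun i => Y.n (sg i)) S then _ else _) < 2 * S
    split_ifs with h1
    · have := shc_lt (fun i => Y.n (sg i)) h1
      show shc (fun i => Y.n (sg i)) S x < 2 * S
      omega
    · have := shc_lt (fun i => Y.n (sg i))
        (show x - off (fun i => Y.n (sg i)) S < off (fun i => Y.n (sg i)) S by omega)
      show S + shc (fun i => Y.n (sg i)) S (x - off (fun i => Y.n (sg i)) S) < 2 * S
      omega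
  symm := Root.ct_symm (h.flt hall)
  irr k := Root.ct_irr k
  a1 x hx hs := by
    obtain ⟨j, hj, e, p, hp, h1, h2⟩ := ps_next hx hs
    have hp0 : p < (mrg Y rt).n (sg j) := by
      have : p + 1 < (mrg Y rt).n (sg j) := hp
      omega
    have e1 : (lin (mrg Y rt) sg S).own x = Y.own (sg j) e p := by
      rw [h1]
      exact own_ps (Y := mrg Y rt) hj hp0
    have e2 : (lin (mrg Y rt) sg S).own (x + 1) = Y.own (sg j) e (p + 1) := by
      rw [h2]
      exact own_ps (Y := mrg Y rt) hj hp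
    rw [e1, e2]
    intro he
    exact h.a1 (sg j) e p hp (congrArg Y.ver he)
  a2 x hx hg hone := by
    obtain ⟨j, hj, e, p, hp, rfl⟩ := exists_ps hx
    have hp' : p < Y.n (sg j) := hp
    rw [own_ps (Y := mrg Y rt) hj hp] at hg hone ⊢
    have hg' : ¬ Gr Y.gr rt (Y.own (sg j) e p) := hg
    have hpt : Y.Pt (Y.own (sg j) e p) := ⟨_, _, _, hp', rfl⟩
    refine hR.a2 (h.flt hall) hpt hg' (h.a2 (sg j) e p hp' (fun hgr => hg' (hR.gr_of hpt hgr)) ?_)
    intro s' e' p' hp'' he
    obtain ⟨j', hj', rfl⟩ := hE.surj s'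
    have h1 := hone (ps (mrg Y rt) sg S j' e' p') (ps_lt hj' hp'')
      ((own_ps (Y := mrg Y rt) hj' hp'').trans he)
    obtain ⟨rfl, rfl, rfl⟩ := ps_inj (Y := mrg Y rt) hj' hp'' hj hp h1
    exact ⟨rfl, rfl, rfl⟩
  a3 x hx hs hct := by
    obtain ⟨j, hj, e, p, hp, h1, h2⟩ := ps_next hx hs
    have hp0 : p < (mrg Y rt).n (sg j) := by
      have : p + 1 < (mrg Y rt).n (sg j) := hp
      omega
    rw [h2, own_ps (Y := mrg Y rt) hj hp] at hct ⊢
    rw [h1, own_ps (Y := mrg Y rt) hj hp0] at hct ⊢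
    rcases hR.a3 (h.flt hall) hct with h4 | h4 | h4
    · exact absurd ⟨sg j, e, e, p, p + 1, hp0, hp, Or.inr (Or.inl rfl), rfl, rfl⟩ (h.ctE _ _ h4)
    · exact Or.inl h4
    · exact Or.inr h4
  a4 k k' hk := exists_of_pt (Y := mrg Y rt) hE (hR.ct_pt hk).2
  a5 k A hA := by
    classical
    refine le_trans ?_ (le_max_left _ _)
    -- choose the port of a position
    have hch : ∀ x, ∃ y : σ × Bool × ℕ, x ∈ A → y.2.2 < Y.n y.1 ∧
        Y.own y.1 y.2.1 y.2.2 = k ∧ ∃ j < S, sg j = y.1 ∧ x = ps (mrg Y rt) sg S j y.2.1 y.2.2 := by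
      intro x
      by_cases hx : x ∈ A
      · obtain ⟨h1, h2⟩ := hA x hx
        obtain ⟨j, hj, e, p, hp, rfl⟩ := exists_ps h1
        rw [own_ps (Y := mrg Y rt) hj hp] at h2
        exact ⟨(sg j, e, p), fun _ => ⟨hp, h2, j, hj, rfl, rfl⟩⟩
      · by_cases hS : ∃ x, x ∈ A
        · obtain ⟨x', hx'⟩ := hS
          obtain ⟨h1, h2⟩ := hA x' hx'
          obtain ⟨j, hj, e, p, hp, rfl⟩ := exists_ps h1
          exact ⟨(sg j, e, p), fun h => absurd h hx⟩
        · obtain ⟨j, _⟩ | h0 : (∃ j, j < S) ∨ ¬ ∃ j, j < S := Classical.em _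
          · exact ⟨(sg j, false, 0), fun h => absurd h hx⟩
          · exact ⟨(sg 0, false, 0), fun h => absurd h hx⟩
    choose f hf using hch
    have h1 : A.card = (A.image f).card := by
      rw [Finset.card_image_of_injOn]
      intro x hx y hy he
      rw [Finset.mem_coe] at hx hy
      obtain ⟨_, _, j, hj, e1, e2⟩ := hf x hx
      obtain ⟨_, _, j', hj', e1', e2'⟩ := hf y hy
      have he' : f x = f y := he
      rw [he'] at e1 e2
      have hjj := hE.inj j hj j' hj' (e1.trans e1'.symm)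
      subst hjj
      exact e2.trans e2'.symm
    rw [h1]
    refine h.a5 k _ (fun y hy => ?_)
    obtain ⟨x, hx, rfl⟩ := Finset.mem_image.1 hy
    exact ⟨(hf x hx).1, (hf x hx).2.1⟩
  a6 k A hA := by
    obtain ⟨B, hB, hB'⟩ := hR.card_ct (h.flt hall) (nb_fin h3) (ct_fin h3 h hall) k
    exact (Finset.card_le_card (fun k' hk' => hB' k' (hA k' hk'))).trans
      (hB.trans (le_max_right _ _))

/-- **The places of the columns.** -/
theorem place (Y : CSys σ X κ) (sg : ℕ → σ) (S : ℕ) : GlueS.Place (lin Y sg S)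
    (pos (off (fun i => Y.n (sg i)) S)) (4 * S) where
  inj := by
    rintro ⟨⟨a, ha⟩, e⟩ ⟨⟨b, hb⟩, e'⟩ h
    unfold pos at h
    cases e <;> cases e' <;> simp at h ⊢ <;> omega
  lt := by
    rintro ⟨⟨a, ha⟩, e⟩
    show pos (off (fun i => Y.n (sg i)) S) (⟨a, ha⟩, e) < 2 * off (fun i => Y.n (sg i)) S
    unfold pos
    cases e <;> simp <;> omega
  surj x hx := by
    have hx' : x < 2 * off (fun i => Y.n (sg i)) S := hx
    by_cases h : x < off (fun i => Y.n (sg i)) S
    · exact ⟨(⟨x, h⟩, false), rfl⟩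
    · refine ⟨(⟨x - off (fun i => Y.n (sg i)) S, by omega⟩, true), ?_⟩
      show off (fun i => Y.n (sg i)) S + (x - off (fun i => Y.n (sg i)) S) = x
      omega
  nb := by
    rintro ⟨⟨a, ha⟩, e⟩ ⟨⟨b, hb⟩, e'⟩ ⟨h1, h2⟩ _
    simp only at h1 h2
    subst h1
    unfold pos
    cases e <;> simp <;> omega
  nb' := by
    rintro ⟨⟨a, ha⟩, e⟩ ⟨⟨b, hb⟩, e'⟩ h1 h2
    unfold pos at h1
    cases e <;> cases e' <;> simp at h1
    · exact ⟨rfl, Or.inl h1.symm⟩
    · exfalso
      have h3 : (if a < off (fun i => Y.n (sg i)) S then shc (fun i => Y.n (sg i)) S a else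
        S + shc (fun i => Y.n (sg i)) S (a - off (fun i => Y.n (sg i)) S)) =
        (if off (fun i => Y.n (sg i)) S + b < off (fun i => Y.n (sg i)) S then
          shc (fun i => Y.n (sg i)) S (off (fun i => Y.n (sg i)) S + b) else
        S + shc (fun i => Y.n (sg i)) S
          (off (fun i => Y.n (sg i)) S + b - off (fun i => Y.n (sg i)) S)) := h2
      rw [if_pos ha, if_neg (by omega)] at h3
      have := shc_lt (fun i => Y.n (sg i)) ha
      omega
    · exfalso
      omega
    · exact ⟨rfl, Or.inl (by simp only; omega)⟩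
  brk := by
    classical
    set m := fun i => Y.n (sg i) with hm
    set T := (univ.filter (fun x : EN.Sweep.Pt (off m S) × EN.Sweep.Pt (off m S) => Nb x.1 x.2 ∧
      (lin Y sg S).sh (pos (off m S) x.1) ≠ (lin Y sg S).sh (pos (off m S) x.2))) with hT
    -- the data of a pair
    have hkey : ∀ x ∈ T, x.1.2 = x.2.2 ∧ ((x.1.1.val + 1 = x.2.1.val ∧
        shc m S x.1.1.val < shc m S x.2.1.val) ∨ (x.2.1.val + 1 = x.1.1.val ∧
        shc m S x.2.1.val < shc m S x.1.1.val)) := by
      rintro ⟨⟨⟨a, ha⟩, e⟩, ⟨⟨b, hb⟩, e'⟩⟩ hx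
      rw [hT, Finset.mem_filter] at hx
      obtain ⟨_, ⟨h1, h2⟩, h3⟩ := hx
      simp only at h1 h2 h3 ⊢
      subst h1
      have h4 : shc m S a ≠ shc m S b := by
        intro h5
        apply h3
        cases e
        · show (if a < off m S then shc m S a else S + shc m S (a - off m S)) =
            (if b < off m S then shc m S b else S + shc m S (b - off m S))
          rw [if_pos ha, if_pos hb, h5]
        · show (if off m S + a < off m S then shc m S (off m S + a) else
            S + shc m S (off m S + a - off m S)) =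
            (if off m S + b < off m S then shc m S (off m S + b) else
            S + shc m S (off m S + b - off m S))
          rw [if_neg (by omega), if_neg (by omega), Nat.add_sub_cancel_left,
            Nat.add_sub_cancel_left, h5]
      refine ⟨rfl, ?_⟩
      rcases h2 with h2 | h2
      · have := shc_mono m S (show a ≤ b by omega)
        exact Or.inl ⟨h2, by omega⟩
      · have := shc_mono m S (show b ≤ a by omega)
        exact Or.inr ⟨h2, by omega⟩
    set F : EN.Sweep.Pt (off m S) × EN.Sweep.Pt (off m S) → Bool × Bool × ℕ := fun x =>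
      (x.1.2, decide (x.1.1.val < x.2.1.val), min (shc m S x.1.1.val) (shc m S x.2.1.val)) with hF
    have h1 : T.card ≤ ((univ : Finset Bool) ×ˢ ((univ : Finset Bool) ×ˢ range S)).card := by
      refine Finset.card_le_card_of_injOn F ?_ ?_
      · rintro ⟨⟨⟨a, ha⟩, e⟩, ⟨⟨b, hb⟩, e'⟩⟩ _
        rw [Finset.mem_coe, Finset.mem_product, Finset.mem_product, Finset.mem_range]
        refine ⟨Finset.mem_univ _, Finset.mem_univ _, ?_⟩
        show min (shc m S a) (shc m S b) < S
        have := shc_lt m ha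
        omega
      · rintro ⟨⟨⟨a, ha⟩, e⟩, ⟨⟨b, hb⟩, e'⟩⟩ hx ⟨⟨⟨c, hc⟩, g⟩, ⟨⟨d, hd⟩, g'⟩⟩ hy he
        obtain ⟨h1, h2⟩ := hkey _ (Finset.mem_coe.1 hx)
        obtain ⟨h3, h4⟩ := hkey _ (Finset.mem_coe.1 hy)
        simp only [hF, Prod.mk.injEq] at h1 h2 h3 h4 he
        obtain ⟨h5, h6, h7⟩ := he
        subst h1 h3 h5
        rw [decide_eq_decide] at h6
        have key : ∀ a c, shc m S a < shc m S (a + 1) → shc m S c < shc m S (c + 1) →
            shc m S a = shc m S c → a = c := by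
          intro a c h1 h2 h3
          rcases lt_trichotomy a c with h | h | h
          · have := shc_mono m S (show a + 1 ≤ c from h)
            omega
          · exact h
          · have := shc_mono m S (show c + 1 ≤ a from h)
            omega
        rcases h2 with ⟨h8, h9⟩ | ⟨h8, h9⟩
        · rcases h4 with ⟨h10, h11⟩ | ⟨h10, h11⟩
          · subst h8 h10
            have := key a c h9 h11 (by omega)
            subst this
            rfl
          · omega
        · rcases h4 with ⟨h10, h11⟩ | ⟨h10, h11⟩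
          · omega
          · subst h8 h10
            have := key b d h9 h11 (by omega)
            subst this
            rfl
    refine h1.trans ?_
    rw [Finset.card_product, Finset.card_product, Finset.card_range]
    simp only [Finset.card_univ, Fintype.card_bool]
    omega

/-- the column of a port -/
lemma pos_ps (Y : CSys σ X κ) {j p : ℕ} (hj : j < S) (hp : p < Y.n (sg j)) (e : Bool) :
    pos (off (fun i => Y.n (sg i)) S) (⟨off (fun i => Y.n (sg i)) j + p,
      off_lt (m := fun i => Y.n (sg i)) hj hp⟩, e) = ps Y sg S j e p := by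
  unfold pos ps
  cases e <;> simp

/-- **Members and edges.** -/
theorem memb {G : SimpleGraph X} (h : Y.Core G) (hall : ∀ k, k ∈ Y.all) {s : ℕ}
    {rt nx : κ → κ} (hR : Root G Y.ver Y.Pt Y.ct s rt nx) (hE : Enum sg S)
    (hgnd : ∀ y, ∃ k, Y.gr k ∧ Y.ver k = y) :
    GlueS.Mem (lin (mrg Y rt) sg S) (pos (off (fun i => Y.n (sg i)) S)) G
      (fun y k => At Y.ver rt k y) where
  port y k hk := by
    obtain ⟨s, e, p, hp, rfl⟩ := hR.at_pt hk
    obtain ⟨j, hj, rfl⟩ := hE.surj s
    refine ⟨(⟨off (fun i => Y.n (sg i)) j + p, off_lt (m := fun i => Y.n (sg i)) hj hp⟩, e), ?_⟩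
    have h1 := pos_ps Y (S := S) hj hp e
    rw [h1]
    exact own_ps (Y := mrg Y rt) hj hp
  conn y T := by
    rintro ⟨k, h1, h2⟩ ⟨k', h3, h4⟩
    have hF := h.flt hall
    -- `y` is a vertex with ported connectors
    obtain ⟨k₀, hk₀, rfl⟩ : ∃ k₀, Y.Pt k₀ ∧ Y.ver k₀ = y := by
      obtain ⟨l, hl, hlk⟩ := h1
      by_cases hp : Y.Pt l
      · exact ⟨l, hp, hl⟩
      · exfalso
        rw [← hl] at h3
        rw [(Root.at_float hF hp k').1 h3, hlk] at h4
        exact h4 h2
    rw [hR.at_iff hF hk₀] at h1 h3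
    obtain ⟨s, p, hp, g1, g2, g3⟩ := h.con (Y.ver k₀) T ⟨k, hall k, h2, h1⟩ ⟨k', hall k', h4, h3⟩
    obtain ⟨j, hj, rfl⟩ := hE.surj s
    have hc := off_lt (m := fun i => Y.n (sg i)) hj hp
    have ho : ∀ e, (lin (mrg Y rt) sg S).own (pos (off (fun i => Y.n (sg i)) S)
        (⟨off (fun i => Y.n (sg i)) j + p, hc⟩, e)) = Y.own (sg j) e p := by
      intro e
      have h5 := pos_ps Y (S := S) hj hp e
      rw [h5]
      exact own_ps (Y := mrg Y rt) hj hp
    have hm : ∀ e, At Y.ver rt (Y.own (sg j) e p) (Y.ver k₀) := by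
      intro e
      rw [hR.at_iff hF hk₀]
      cases e
      · exact g1
      · exact g2
    by_cases hT : Y.own (sg j) false p ∈ T
    · have hT' : Y.own (sg j) true p ∉ T := fun h5 => g3 ⟨fun _ => h5, fun _ => hT⟩
      refine ⟨(⟨off (fun i => Y.n (sg i)) j + p, hc⟩, false), ?_, ?_, ?_, ?_⟩
      · rw [ho]; exact hm false
      · show At Y.ver rt ((lin (mrg Y rt) sg S).own (pos (off (fun i => Y.n (sg i)) S)
          (⟨off (fun i => Y.n (sg i)) j + p, hc⟩, true))) (Y.ver k₀)
        rw [ho]; exact hm true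
      · rw [ho]; exact hT
      · show (lin (mrg Y rt) sg S).own (pos (off (fun i => Y.n (sg i)) S)
          (⟨off (fun i => Y.n (sg i)) j + p, hc⟩, true)) ∉ T
        rw [ho]; exact hT'
    · have hT' : Y.own (sg j) true p ∈ T := by
        by_contra h5
        exact g3 ⟨fun h6 => absurd h6 hT, fun h6 => absurd h6 h5⟩
      refine ⟨(⟨off (fun i => Y.n (sg i)) j + p, hc⟩, true), ?_, ?_, ?_, ?_⟩
      · rw [ho]; exact hm true
      · show At Y.ver rt ((lin (mrg Y rt) sg S).own (pos (off (fun i => Y.n (sg i)) S)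
          (⟨off (fun i => Y.n (sg i)) j + p, hc⟩, false))) (Y.ver k₀)
        rw [ho]; exact hm false
      · rw [ho]; exact hT'
      · show (lin (mrg Y rt) sg S).own (pos (off (fun i => Y.n (sg i)) S)
          (⟨off (fun i => Y.n (sg i)) j + p, hc⟩, false)) ∉ T
        rw [ho]; exact hT
  ground y := by
    obtain ⟨k, h1, h2⟩ := hgnd y
    exact Root.ground ⟨k, h2, h1⟩
  edge y z hyz := by
    have ho : ∀ j (hj : j < S) p (hp : p < Y.n (sg j)) e,
        (lin (mrg Y rt) sg S).own (pos (off (fun i => Y.n (sg i)) S)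
        (⟨off (fun i => Y.n (sg i)) j + p, off_lt (m := fun i => Y.n (sg i)) hj hp⟩, e)) =
          Y.own (sg j) e p := by
      intro j hj p hp e
      have h5 := pos_ps Y (S := S) hj hp e
      rw [h5]
      exact own_ps (Y := mrg Y rt) hj hp
    have hat : ∀ j, j < S → ∀ p, p < Y.n (sg j) → ∀ e, At Y.ver rt (Y.own (sg j) e p)
        (Y.ver (Y.own (sg j) e p)) := fun j _ p hp e => hR.at_self ⟨_, _, _, hp, rfl⟩
    rcases h.edg y z hyz with ⟨s, e, e', p, q, h1, h2, h3, h4, h5⟩ | ⟨k, k', h1, rfl, rfl⟩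
    · obtain ⟨j, hj, rfl⟩ := hE.surj s
      right; right
      rcases h3 with h3 | h3 | h3
      · -- one column
        subst h3
        left
        have hee : e' = !e := by
          cases e <;> cases e'
          · exact absurd (h4.symm.trans h5) hyz.ne
          · rfl
          · rfl
          · exact absurd (h4.symm.trans h5) hyz.ne
        subst hee
        refine ⟨(⟨off (fun i => Y.n (sg i)) j + p, off_lt (m := fun i => Y.n (sg i)) hj h1⟩, e),
          ?_, ?_⟩
        · rw [ho j hj p h1 e, ← h4]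
          exact hat j hj p h1 e
        · show At Y.ver rt ((lin (mrg Y rt) sg S).own (pos (off (fun i => Y.n (sg i)) S)
            (⟨off (fun i => Y.n (sg i)) j + p, off_lt (m := fun i => Y.n (sg i)) hj h1⟩, !e))) z
          rw [ho j hj p h1 (!e), ← h5]
          exact hat j hj p h1 (!e)
      · right
        refine ⟨(⟨off (fun i => Y.n (sg i)) j + p, off_lt (m := fun i => Y.n (sg i)) hj h1⟩, e),
          (⟨off (fun i => Y.n (sg i)) j + q, off_lt (m := fun i => Y.n (sg i)) hj h2⟩, e),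
          ⟨rfl, Or.inl (by simp only; omega)⟩, ?_, ?_⟩
        · rw [ho j hj p h1 e, ← h4]
          exact hat j hj p h1 e
        · by_cases hee : e' = e
          · left
            subst hee
            rw [ho j hj q h2 e', ← h5]
            exact hat j hj q h2 e'
          · right
            have hee' : e' = !e := by
              cases e <;> cases e' <;> simp_all
            show At Y.ver rt ((lin (mrg Y rt) sg S).own (pos (off (fun i => Y.n (sg i)) S)
              (⟨off (fun i => Y.n (sg i)) j + q, off_lt (m := fun i => Y.n (sg i)) hj h2⟩, !e))) z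
            rw [ho j hj q h2 (!e), ← h5, ← hee']
            exact hat j hj q h2 e'
      · right
        refine ⟨(⟨off (fun i => Y.n (sg i)) j + p, off_lt (m := fun i => Y.n (sg i)) hj h1⟩, e),
          (⟨off (fun i => Y.n (sg i)) j + q, off_lt (m := fun i => Y.n (sg i)) hj h2⟩, e),
          ⟨rfl, Or.inr (by simp only; omega)⟩, ?_, ?_⟩
        · rw [ho j hj p h1 e, ← h4]
          exact hat j hj p h1 e
        · by_cases hee : e' = e
          · left
            subst hee
            rw [ho j hj q h2 e', ← h5]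
            exact hat j hj q h2 e'
          · right
            have hee' : e' = !e := by
              cases e <;> cases e' <;> simp_all
            show At Y.ver rt ((lin (mrg Y rt) sg S).own (pos (off (fun i => Y.n (sg i)) S)
              (⟨off (fun i => Y.n (sg i)) j + q, off_lt (m := fun i => Y.n (sg i)) hj h2⟩, !e))) z
            rw [ho j hj q h2 (!e), ← h5, ← hee']
            exact hat j hj q h2 e'
    · rcases Root.edge (ver := Y.ver) (rt := rt) h1 with ⟨l, h2, h3⟩ | ⟨l, l', h2, h3, h4⟩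
      · exact Or.inl ⟨l, h2, h3⟩
      · exact Or.inr (Or.inl ⟨l, l', h2, h3, h4⟩)

/-- few members -/
theorem card_memb {G : SimpleGraph X} [Finite X] {s : ℕ} {rt nx : κ → κ}
    (hR : Root G Y.ver Y.Pt Y.ct s rt nx) (h3 : ∀ y, {z | G.Adj y z}.ncard ≤ 3) (k : κ) :
    ∃ A : Finset X, A.card ≤ (3 + 1) ^ s ∧ ∀ y, At Y.ver rt k y → y ∈ A :=
  hR.card_at (nb_fin h3) k

/-- a merged connector with two vertices is grounded -/
theorem one {G : SimpleGraph X} (h : Y.Core G) (hall : ∀ k, k ∈ Y.all) {s : ℕ}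
    {rt nx : κ → κ} (hR : Root G Y.ver Y.Pt Y.ct s rt nx) {y z : X} {k : κ}
    (hy : At Y.ver rt k y) (hz : At Y.ver rt k z) (hyz : y ≠ z) :
    (lin (mrg Y rt) sg S).gr k := hR.two_at (h.flt hall) hy hz hyz

/-- every vertex has a member -/
theorem exists_memb (hne : ∀ y, ∃ k, Y.ver k = y) (rt : κ → κ) (y : X) :
    ∃ k, At Y.ver rt k y := by
  obtain ⟨k, hk⟩ := hne y
  exact ⟨rt k, k, hk, rfl⟩

open scoped Classical in
/-- **Grounded, or a closed line.** -/
theorem cyc {G : SimpleGraph X} (h : Y.Core G) (hall : ∀ k, k ∈ Y.all) {s : ℕ}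
    {rt nx : κ → κ} (hR : Root G Y.ver Y.Pt Y.ct s rt nx) (hE : Enum sg S) [Fintype κ]
    (hc : ∀ y, (∃ k, Y.gr k ∧ Y.ver k = y) ∨ {k | Y.ver k = y}.ncard ≤
      {x : σ × ℕ | x.2 < Y.n x.1 ∧ Y.ver (Y.own x.1 false x.2) = y ∧
        Y.ver (Y.own x.1 true x.2) = y}.ncard) (y : X) :
    (∃ k, At Y.ver rt k y ∧ (lin (mrg Y rt) sg S).gr k) ∨
      (univ.filter (fun k => At Y.ver rt k y)).card ≤
      (univ.filter (fun c : Fin (off (fun i => Y.n (sg i)) S) =>
        At Y.ver rt ((lin (mrg Y rt) sg S).own (pos (off (fun i => Y.n (sg i)) S) (c, false))) y ∧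
        At Y.ver rt ((lin (mrg Y rt) sg S).own
          (pos (off (fun i => Y.n (sg i)) S) (c, true))) y)).card := by
  have hF := h.flt hall
  rcases hc y with ⟨k, h1, h2⟩ | h1
  · exact Or.inl (Root.ground ⟨k, h2, h1⟩)
  by_cases hfl : ∃ k, ¬ Y.Pt k ∧ Y.ver k = y
  · obtain ⟨k, h2, h3⟩ := hfl
    exact Or.inl (Root.ground ⟨k, h3, hF.fgr k h2⟩)
  push Not at hfl
  have hpt : ∀ k, Y.ver k = y → Y.Pt k := fun k hk => by
    by_contra h2
    exact hfl k h2 hk
  have hat : ∀ k, At Y.ver rt k y ↔ Y.ver k = y := by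
    intro k
    constructor
    · rintro ⟨k₀, h2, h3⟩
      rw [hR.r2 k₀ (hpt k₀ h2)] at h3
      rw [← h3]
      exact h2
    · intro h2
      exact ⟨k, h2, hR.r2 k (hpt k h2)⟩
  right
  have e1 : (univ.filter (fun k => At Y.ver rt k y)).card = {k | Y.ver k = y}.ncard := by
    rw [← Set.ncard_coe_finset]
    congr 1
    ext k
    simp [hat]
  rw [e1]
  refine h1.trans ?_
  -- columns
  have hch : ∀ x : σ × ℕ, ∃ c : ℕ, x.2 < Y.n x.1 → ∃ j < S, sg j = x.1 ∧
      c = off (fun i => Y.n (sg i)) j + x.2 := by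
    intro x
    obtain ⟨j, hj, h2⟩ := hE.surj x.1
    exact ⟨off (fun i => Y.n (sg i)) j + x.2, fun _ => ⟨j, hj, h2, rfl⟩⟩
  choose f hf using hch
  set T := univ.filter (fun c : Fin (off (fun i => Y.n (sg i)) S) =>
        At Y.ver rt ((lin (mrg Y rt) sg S).own (pos (off (fun i => Y.n (sg i)) S) (c, false))) y ∧
        At Y.ver rt ((lin (mrg Y rt) sg S).own
          (pos (off (fun i => Y.n (sg i)) S) (c, true))) y) with hT
  have e2 : T.card = (T.image Fin.val).card :=
    (Finset.card_image_of_injective _ Fin.val_injective).symm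
  rw [e2, ← Set.ncard_coe_finset]
  refine Set.ncard_le_ncard_of_injOn f ?_ ?_ (Finset.finite_toSet _)
  · rintro ⟨s', p⟩ ⟨h2, h3, h4⟩
    obtain ⟨j, hj, rfl, h6⟩ := hf (s', p) h2
    simp only at h2 h3 h4 h6
    rw [Finset.mem_coe, Finset.mem_image]
    have hc' := off_lt (m := fun i => Y.n (sg i)) hj h2
    have ho : ∀ e, (lin (mrg Y rt) sg S).own (pos (off (fun i => Y.n (sg i)) S)
        (⟨off (fun i => Y.n (sg i)) j + p, hc'⟩, e)) = Y.own (sg j) e p := by
      intro e
      have h7 := pos_ps Y (S := S) hj h2 e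
      rw [h7]
      exact own_ps (Y := mrg Y rt) hj h2
    refine ⟨⟨off (fun i => Y.n (sg i)) j + p, hc'⟩, ?_, h6.symm⟩
    rw [hT, Finset.mem_filter]
    refine ⟨Finset.mem_univ _, ?_, ?_⟩
    · rw [ho, hat]
      exact h3
    · rw [ho, hat]
      exact h4
  · rintro ⟨s', p⟩ ⟨h2, _, _⟩ ⟨s'', q⟩ ⟨h3, _, _⟩ he
    obtain ⟨j, hj, rfl, h6⟩ := hf (s', p) h2
    obtain ⟨j', hj', rfl, h6'⟩ := hf (s'', q) h3
    simp only at h2 h3 h6 h6'
    rw [h6, h6'] at he
    have h7 := shc_off (fun i => Y.n (sg i)) hj h2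
    have h8 := shc_off (fun i => Y.n (sg i)) hj' h3
    rw [he, h8] at h7
    subst h7
    have : p = q := by omega
    rw [this]

end

end Inst

end EN
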