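import Pool.Agent.EN.Inst

/-!
# The real side of the instance: connectors as vertex sets of the host, after restriction and
merging (row C7 (b) of T-star; helper45)
-/

set_option autoImplicit false

open Relation

namespace Mdl

variable {V σ X κ : Type*}

/-- Connectors realized by vertex sets of the host. -/
structure CSys.ConnB (Y : CSys σ X κ) (B : κ → Set (HV V σ)) (H : Host V σ) (D K : ℤ) : Prop where
  mono : ∀ s p q, p < q → q < Y.n s → Y.col s p < Y.col s q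
  lt : ∀ s p, p < Y.n s → Y.col s p < H.len s
  fin : ∀ k, (B k).Finite
  out : ∀ k, ∀ u ∈ B k, Out K u
  bd : ∀ k, ∀ s c b, Sum.inr (s, c, b) ∈ B k → c < H.len s ∧ -D ≤ b ∧ b ≤ D
  conn : ∀ k, ∀ u ∈ B k, ∀ v ∈ B k,
    ReflTransGen (fun a b => H.Adj D a b ∧ a ∈ B k ∧ b ∈ B k) u v
  dis : ∀ k k', k ≠ k' → Disjoint (B k) (B k')
  left : ∀ s p, p < Y.n s → (Sum.inr (s, Y.col s p, -K) : HV V σ) ∈ B (Y.own s false p)
  right : ∀ s p, p < Y.n s → (Sum.inr (s, Y.col s p, K) : HV V σ) ∈ B (Y.own s true p)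
  ct : ∀ k k', Y.ct k k' → ∃ u ∈ B k, ∃ v ∈ B k', H.Adj D u v
  gr : ∀ k, Y.gr k → ∃ v, Sum.inl v ∈ B k ∧ H.gd v

/-- restriction to `all` -/
theorem CSys.Conn.sub {Y : CSys σ X (Set (HV V σ))} {G : SimpleGraph X} (h : Y.Core G)
    {H : Host V σ} {D K : ℤ} (hC : Y.Conn H D K) (hne : Nonempty Y.all) :
    (Y.sub hne).ConnB (fun k => (k : Set (HV V σ))) H D K where
  mono := hC.mono
  lt := hC.lt
  fin k := hC.fin k k.2
  out k := hC.out k k.2
  bd k := hC.bd k k.2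
  conn k := hC.conn k k.2
  dis k k' hkk := hC.dis k k.2 k' k'.2 (fun he => hkk (Subtype.ext he))
  left s p hp := by
    show _ ∈ (((Y.sub hne).own s false p : Y.all) : Set (HV V σ))
    rw [CSys.sub_own h hne hp]
    exact hC.left s p hp
  right s p hp := by
    show _ ∈ (((Y.sub hne).own s true p : Y.all) : Set (HV V σ))
    rw [CSys.sub_own h hne hp]
    exact hC.right s p hp
  ct k k' hk := hC.ct k k' hk
  gr k hk := hC.gr k hk

/-- monotonicity of walks -/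
lemma walk_mono {H : Host V σ} {D : ℤ} {A A' : Set (HV V σ)} (hA : A ⊆ A') {u v : HV V σ}
    (h : ReflTransGen (fun a b => H.Adj D a b ∧ a ∈ A ∧ b ∈ A) u v) :
    ReflTransGen (fun a b => H.Adj D a b ∧ a ∈ A' ∧ b ∈ A') u v := by
  induction h with
  | refl => exact ReflTransGen.refl
  | tail _ h2 ih => exact ih.tail ⟨h2.1, hA h2.2.1, hA h2.2.2⟩

/-- the merged connectors -/
def BM (B : κ → Set (HV V σ)) (rt : κ → κ) (k : κ) : Set (HV V σ) :=
  {v | ∃ k₀, rt k₀ = k ∧ v ∈ B k₀}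

/-- merging -/
theorem CSys.ConnB.mrg {Y : CSys σ X κ} {B : κ → Set (HV V σ)} {H : Host V σ} {D K : ℤ}
    (hC : Y.ConnB B H D K) [Finite κ] {G : SimpleGraph X} {s : ℕ} {rt nx : κ → κ}
    (hR : EN.Mrg.Root G Y.ver Y.Pt Y.ct s rt nx) :
    (EN.Inst.mrg Y rt).ConnB (BM B rt) H D K := by
  have hsub : ∀ k₀, B k₀ ⊆ BM B rt (rt k₀) := fun k₀ v hv => ⟨k₀, rfl, hv⟩
  have hsub' : ∀ k₀ k, rt k₀ = k → B k₀ ⊆ BM B rt k := fun k₀ k hk v hv => ⟨k₀, hk, hv⟩
  refine ⟨hC.mono, hC.lt, ?_, ?_, ?_, ?_, ?_, ?_, ?_, ?_, ?_⟩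
  · intro k
    refine (Set.finite_iUnion hC.fin).subset ?_
    rintro v ⟨k₀, _, hv⟩
    exact Set.mem_iUnion.2 ⟨k₀, hv⟩
  · rintro k u ⟨k₀, _, hu⟩
    exact hC.out k₀ u hu
  · rintro k s c b ⟨k₀, _, hu⟩
    exact hC.bd k₀ s c b hu
  · have key : ∀ j k₀, Y.Pt (nx^[j] k₀) → ∀ v ∈ B k₀, ∀ u ∈ B (rt k₀),
        ReflTransGen (fun x y => H.Adj D x y ∧ x ∈ BM B rt (rt k₀) ∧ y ∈ BM B rt (rt k₀)) v u ∧
        ReflTransGen (fun x y => H.Adj D x y ∧ x ∈ BM B rt (rt k₀) ∧ y ∈ BM B rt (rt k₀)) u v := by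
      intro j
      induction j with
      | zero =>
        intro k₀ hp v hv u hu
        have he : rt k₀ = k₀ := hR.r2 k₀ hp
        rw [he] at hu
        exact ⟨walk_mono (hsub k₀) (hC.conn k₀ v hv u hu),
          walk_mono (hsub k₀) (hC.conn k₀ u hu v hv)⟩
      | succ j ih =>
        intro k₀ hp v hv u hu
        by_cases hk : Y.Pt k₀
        · have he : rt k₀ = k₀ := hR.r2 k₀ hk
          rw [he] at hu
          exact ⟨walk_mono (hsub k₀) (hC.conn k₀ v hv u hu),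
            walk_mono (hsub k₀) (hC.conn k₀ u hu v hv)⟩
        · obtain ⟨a, ha, b, hb, hab⟩ := hC.ct _ _ (hR.r3 k₀ hk)
          have hrt := hR.r4 k₀
          rw [Function.iterate_succ_apply] at hp
          obtain ⟨i1, i2⟩ := ih (nx k₀) hp b hb u (by rwa [hrt])
          rw [hrt] at i1 i2
          have ha' : a ∈ BM B rt (rt k₀) := hsub k₀ ha
          have hb' : b ∈ BM B rt (rt k₀) := hsub' _ _ hrt hb
          exact ⟨((walk_mono (hsub k₀) (hC.conn k₀ v hv a ha)).tail ⟨hab, ha', hb'⟩).trans i1,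
            (i2.tail ⟨hab.symm, hb', ha'⟩).trans (walk_mono (hsub k₀) (hC.conn k₀ a ha v hv))⟩
    have hall : ∀ k₀, Y.Pt (nx^[s] k₀) := fun k₀ => by
      rw [hR.r5]
      exact hR.r1 k₀
    rintro k v ⟨k₀, rfl, hv⟩ u ⟨k₁, hk₁, hu⟩
    -- the root has a port, so it is not empty
    obtain ⟨x, hx⟩ : (B (rt k₀)).Nonempty := by
      obtain ⟨s', e, p, hp, h1⟩ := hR.r1 k₀
      rw [← h1]
      cases e
      · exact ⟨_, hC.left s' p hp⟩
      · exact ⟨_, hC.right s' p hp⟩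
    have h1 := (key s k₀ (hall k₀) v hv x hx).1
    have h2 := (key s k₁ (hall k₁) u hu x (by rwa [hk₁])).2
    rw [hk₁] at h2
    exact h1.trans h2
  · intro k k' hkk
    rw [Set.disjoint_left]
    rintro v ⟨k₀, h1, h2⟩ ⟨k₁, h3, h4⟩
    have hne : k₀ ≠ k₁ := by
      rintro rfl
      exact hkk (h1.symm.trans h3)
    exact Set.disjoint_left.1 (hC.dis k₀ k₁ hne) h2 h4
  · intro s' p hp
    have hp' : p < Y.n s' := hp
    exact hsub' _ _ (hR.r2 _ ⟨s', false, p, hp', rfl⟩) (hC.left s' p hp')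
  · intro s' p hp
    have hp' : p < Y.n s' := hp
    exact hsub' _ _ (hR.r2 _ ⟨s', true, p, hp', rfl⟩) (hC.right s' p hp')
  · rintro k k' ⟨_, k₀, k₁, h1, h2, h3⟩
    obtain ⟨u, hu, v, hv, huv⟩ := hC.ct k₀ k₁ h1
    exact ⟨u, hsub' _ _ h2 hu, v, hsub' _ _ h3 hv, huv⟩
  · rintro k ⟨k₀, h1, h2⟩
    obtain ⟨v, hv, hg⟩ := hC.gr k₀ h1
    exact ⟨v, hsub' _ _ h2 hv, hg⟩

/-- `all` is finite -/
lemma CSys.Taut.finite_all {Y : CSys σ X κ} {G : SimpleGraph X} (h : Y.Taut G) : Finite Y.all :=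
  h.fin

/-- `all` is not empty -/
lemma CSys.Taut.nonempty_all {Y : CSys σ X κ} {G : SimpleGraph X} (h : Y.Taut G) [Nonempty X] :
    Nonempty Y.all := by
  obtain ⟨k, h1, _⟩ := h.gnd (Classical.arbitrary X)
  exact ⟨⟨k, h.grm k h1⟩⟩

end Mdl
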