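import Pool.Agent.EN.MinSt
import Pool.Agent.EN.Forest

/-!
# From a minimal state to a taut system of connectors
-/

open Relation

namespace Mdl

variable {V σ X : Type*}

/-- Numbering of the used columns. -/
lemma exists_num {us : Set (σ × ℕ)} (hfin : us.Finite) : ∃ (n : σ → ℕ) (col : σ → ℕ → ℕ),
    (∀ s p, p < n s → (s, col s p) ∈ us) ∧ (∀ s p q, p < q → q < n s → col s p < col s q) ∧
      ∀ s c, (s, c) ∈ us → ∃ p < n s, col s p = c := by
  classical
  have hf : ∀ s : σ, {c | (s, c) ∈ us}.Finite := by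
    intro s
    refine hfin.preimage (f := fun c : ℕ => (s, c)) ?_
    intro a _ b _ hab
    exact (Prod.mk.inj hab).2
  refine ⟨fun s => (hf s).toFinset.card, fun s => Nat.nth (fun c => (s, c) ∈ us), ?_, ?_, ?_⟩
  · intro s p hp
    exact Nat.nth_mem_of_lt_card (hf s) hp
  · intro s p q hpq hq
    exact Nat.nth_strictMonoOn (hf s) (Set.mem_Iio.2 (lt_trans hpq hq)) (Set.mem_Iio.2 hq) hpq
  · intro s c hc
    obtain ⟨p, hp, hpc⟩ := Nat.exists_lt_card_finite_nth_eq (hf s) hc
    exact ⟨p, hp, hpc⟩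

/-- Facts about a numbering. -/
structure Num (us : Set (σ × ℕ)) (n : σ → ℕ) (col : σ → ℕ → ℕ) : Prop where
  mem : ∀ s p, p < n s → (s, col s p) ∈ us
  mono : ∀ s p q, p < q → q < n s → col s p < col s q
  surj : ∀ s c, (s, c) ∈ us → ∃ p < n s, col s p = c

section

variable {us : Set (σ × ℕ)} {n : σ → ℕ} {col : σ → ℕ → ℕ}

lemma Num.inj (hN : Num us n col) {s : σ} {p q : ℕ} (hp : p < n s) (hq : q < n s)
    (h : col s p = col s q) : p = q := by
  rcases Nat.lt_trichotomy p q with h1 | h1 | h1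
  · have := hN.mono s p q h1 hq; omega
  · exact h1
  · have := hN.mono s q p h1 hp; omega

lemma Num.cons (hN : Num us n col) {s : σ} {p : ℕ} (hp : p + 1 < n s) :
    Cons us s (col s p) (col s (p + 1)) := by
  refine ⟨hN.mono s p (p + 1) (by omega) hp, hN.mem s p (by omega), hN.mem s (p + 1) hp, ?_⟩
  intro k h1 h2 h3
  obtain ⟨q, hq, hqk⟩ := hN.surj s k h3
  rw [← hqk] at h1 h2
  rcases Nat.lt_or_ge p q with h4 | h4
  · rcases Nat.eq_or_lt_of_le h4 with h5 | h5
    · rw [← h5] at h2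
      exact lt_irrefl _ h2
    · have := hN.mono s (p + 1) q h5 hq; omega
  · rcases Nat.eq_or_lt_of_le h4 with h5 | h5
    · rw [h5] at h1
      exact lt_irrefl _ h1
    · have := hN.mono s q p h5 (by omega); omega

lemma Num.of_cons (hN : Num us n col) {s : σ} {i j : ℕ} (h : Cons us s i j) :
    ∃ p, p + 1 < n s ∧ col s p = i ∧ col s (p + 1) = j := by
  obtain ⟨h1, h2, h3, h4⟩ := h
  obtain ⟨p, hp, hpi⟩ := hN.surj s i h2
  obtain ⟨q, hq, hqj⟩ := hN.surj s j h3
  have hpq : p < q := by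
    by_contra hcon
    rcases Nat.eq_or_lt_of_le (not_lt.1 hcon) with h5 | h5
    · rw [← h5] at hpi; omega
    · have := hN.mono s q p h5 hp; omega
  have hq1 : q = p + 1 := by
    by_contra hne
    have h5 := hN.mono s p (p + 1) (by omega) (by omega)
    have h6 := hN.mono s (p + 1) q (by omega) hq
    exact h4 (col s (p + 1)) (by omega) (by omega) (hN.mem s (p + 1) (by omega))
  subst hq1
  exact ⟨p, hq, hpi, hqj⟩

end

section

variable {G : SimpleGraph X} {H : Host V σ} {D K : ℤ} {g : HV V σ → Option X}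
  {us : Set (σ × ℕ)} {y z : X}

/-- Existence of an assignment. -/
lemma State.exists_asg [Finite X] (hS : State G H D K g us) (w₀ : HV V σ) :
    ∃ cv : X → X → HV V σ, Asg G H D K g us cv := by
  classical
  obtain ⟨ι, hι⟩ := Countable.exists_injective_nat X
  have hex : ∀ y z, ∃ p : HV V σ × HV V σ, G.Adj y z → ¬ Ein K g us y z →
      Out K p.1 ∧ Out K p.2 ∧ H.Adj D p.1 p.2 ∧ g p.1 = some y ∧ g p.2 = some z := by
    intro y z
    by_cases h : G.Adj y z ∧ ¬ Ein K g us y z
    · rcases hS.edg y z h.1 with h1 | ⟨u, v, h1⟩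
      · exact absurd h1 h.2
      · exact ⟨(u, v), fun _ _ => h1⟩
    · exact ⟨(w₀, w₀), fun h1 h2 => absurd ⟨h1, h2⟩ h⟩
  choose P hP using hex
  have key : ∀ y z, G.Adj y z → ¬ Ein K g us y z → ι y < ι z ∨ ι z < ι y := by
    intro y z hyz _
    rcases Nat.lt_trichotomy (ι y) (ι z) with h | h | h
    · exact Or.inl h
    · exact absurd (hι h) hyz.ne
    · exact Or.inr h
  refine ⟨fun y z => if ι y < ι z then (P y z).1 else (P z y).2, ?_, ?_, ?_⟩
  · intro y z hyz hE
    rcases key y z hyz hE with h | h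
    · rw [if_pos h]
      exact (hP y z hyz hE).1
    · rw [if_neg (by omega)]
      exact (hP z y hyz.symm (fun h => hE h.symm)).2.1
  · intro y z hyz hE
    rcases key y z hyz hE with h | h
    · rw [if_pos h]
      exact (hP y z hyz hE).2.2.2.1
    · rw [if_neg (by omega)]
      exact (hP z y hyz.symm (fun h => hE h.symm)).2.2.2.2
  · intro y z hyz hE
    rcases key y z hyz hE with h | h
    · rw [if_pos h, if_neg (by omega)]
      exact (hP y z hyz hE).2.2.1
    · rw [if_neg (by omega), if_pos h]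
      exact (hP z y hyz.symm (fun h => hE h.symm)).2.2.1.symm

/-- Colour with a default value. -/
def cl (g : HV V σ → Option X) (x₀ : X) (w : HV V σ) : X := (g w).getD x₀

lemma cl_eq {x₀ : X} {w : HV V σ} (h : g w = some y) : cl g x₀ w = y := by
  unfold cl
  rw [h]
  rfl

/-- Connector of a vertex. -/
def cmp (H : Host V σ) (D K : ℤ) (g : HV V σ → Option X) (x₀ : X) (w : HV V σ) :
    Set (HV V σ) := Cp H D K g (cl g x₀ w) w

lemma cmp_self {x₀ : X} {w : HV V σ} : w ∈ cmp H D K g x₀ w := ReflTransGen.refl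

lemma OA.rsymm {u v : HV V σ} (h : ReflTransGen (OA H D K g y) u v) :
    ReflTransGen (OA H D K g y) v u := by
  induction h with
  | refl => exact ReflTransGen.refl
  | tail _ hbc ih => exact ReflTransGen.head hbc.symm ih

lemma cmp_col {x₀ : X} {u w : HV V σ} (hw : g w = some y) (hu : u ∈ cmp H D K g x₀ w) :
    g u = some y := by
  unfold cmp at hu
  rw [cl_eq hw] at hu
  exact Cp.col hw hu

lemma cmp_out {x₀ : X} {u w : HV V σ} (hw : Out K w) (hu : u ∈ cmp H D K g x₀ w) : Out K u :=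
  Cp.out hw hu

lemma cmp_eq {x₀ : X} {u w : HV V σ} (hw : g w = some y) (hu : u ∈ cmp H D K g x₀ w) :
    cmp H D K g x₀ u = cmp H D K g x₀ w := by
  have hgu := cmp_col hw hu
  unfold cmp at hu ⊢
  rw [cl_eq hw] at hu ⊢
  rw [cl_eq hgu]
  ext v
  exact ⟨fun hv => ReflTransGen.trans hu hv, fun hv => ReflTransGen.trans (OA.rsymm hu) hv⟩

open Classical in
/-- Vertex of a connector. -/
noncomputable def vr (g : HV V σ → Option X) (x₀ : X) (B : Set (HV V σ)) : X :=
  if h : B.Nonempty then cl g x₀ h.some else x₀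

lemma vr_cmp {x₀ : X} {w : HV V σ} (hw : g w = some y) :
    vr g x₀ (cmp H D K g x₀ w) = y := by
  have hne : (cmp H D K g x₀ w).Nonempty := ⟨w, cmp_self⟩
  unfold vr
  rw [dif_pos hne]
  exact cl_eq (cmp_col hw hne.some_mem)

/-- The system of connectors of a state. -/
noncomputable def sys (G : SimpleGraph X) (H : Host V σ) (D K : ℤ) (g : HV V σ → Option X)
    (us : Set (σ × ℕ))
    (x₀ : X) (n : σ → ℕ) (col : σ → ℕ → ℕ) (cv : X → X → HV V σ) (gv : X → V) :
    CSys σ X (Set (HV V σ)) where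
  n := n
  col := col
  own := fun s e p => cmp H D K g x₀ (pt K s (col s p) e)
  all := {B | ∃ w, Out K w ∧ g w ≠ none ∧ B = cmp H D K g x₀ w}
  ver := vr g x₀
  ct := fun B B' => ∃ y z, G.Adj y z ∧ ¬ Ein K g us y z ∧ B = cmp H D K g x₀ (cv y z) ∧
    B' = cmp H D K g x₀ (cv z y)
  gr := fun B => ∃ y, B = cmp H D K g x₀ (Sum.inl (gv y))

variable {x₀ : X} {n : σ → ℕ} {col : σ → ℕ → ℕ} {cv : X → X → HV V σ} {gv : X → V}

lemma State.pt_col (hS : State G H D K g us) {s : σ} {c : ℕ} (hc : (s, c) ∈ us) (e : Bool) :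
    ∃ y, g (pt K s c e) = some y := by
  obtain ⟨a, b, h1, h2, _⟩ := hS.own s c hc
  cases e
  · exact ⟨a, h1⟩
  · exact ⟨b, h2⟩

lemma Ow_iff {s : σ} {i : ℕ} : Ow K g us s i y ↔ (s, i) ∈ us ∧ ∃ e, g (pt K s i e) = some y := by
  constructor
  · rintro ⟨h1, h2 | h2⟩
    · exact ⟨h1, false, h2⟩
    · exact ⟨h1, true, h2⟩
  · rintro ⟨h1, e, h2⟩
    refine ⟨h1, ?_⟩
    cases e
    · exact Or.inl h2
    · exact Or.inr h2

/-- The two notions of internal pairs agree. -/
lemma sys_Ein (hS : State G H D K g us) (hN : Num us n col) :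
    (sys G H D K g us x₀ n col cv gv).Ein y z ↔ Ein K g us y z := by
  constructor
  · rintro ⟨s, e, e', p, q, hp, hq, hpq, h1, h2⟩
    have hp' := hN.mem s p hp
    have hq' := hN.mem s q hq
    obtain ⟨a, ha⟩ := hS.pt_col hp' e
    obtain ⟨b, hb⟩ := hS.pt_col hq' e'
    have h3 : a = y := by
      rw [← h1]
      exact (vr_cmp ha).symm
    have h4 : b = z := by
      rw [← h2]
      exact (vr_cmp hb).symm
    subst h3 h4
    refine ⟨s, col s p, col s q, ?_, Ow_iff.2 ⟨hp', e, ha⟩, Ow_iff.2 ⟨hq', e', hb⟩⟩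
    rcases hpq with rfl | rfl | rfl
    · exact Or.inl rfl
    · exact Or.inr (Or.inl (hN.cons hq))
    · exact Or.inr (Or.inr (hN.cons hp))
  · rintro ⟨s, i, j, h1, h2, h3⟩
    obtain ⟨hi, e, hy⟩ := Ow_iff.1 h2
    obtain ⟨hj, e', hz⟩ := Ow_iff.1 h3
    rcases h1 with rfl | h1 | h1
    · obtain ⟨p, hp, rfl⟩ := hN.surj s i hi
      exact ⟨s, e, e', p, p, hp, hp, Or.inl rfl, vr_cmp hy, vr_cmp hz⟩
    · obtain ⟨p, hp, rfl, rfl⟩ := hN.of_cons h1
      exact ⟨s, e, e', p, p + 1, (show p < n s by omega), hp, Or.inr (Or.inl rfl), vr_cmp hy,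
        vr_cmp hz⟩
    · obtain ⟨p, hp, rfl, rfl⟩ := hN.of_cons h1
      exact ⟨s, e, e', p + 1, p, hp, (show p < n s by omega), Or.inr (Or.inr rfl), vr_cmp hy,
        vr_cmp hz⟩

/-- Steps along connectors: if a property of connectors changes along a class, it changes at a
full column. -/
lemma State.change (hS : State G H D K g us) {u v : HV V σ} (hu : Out K u) (hv : Out K v)
    (hgu : g u = some y) (hgv : g v = some y) (T : Set (Set (HV V σ)))
    (h1 : cmp H D K g x₀ u ∈ T) (h2 : cmp H D K g x₀ v ∉ T) :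
    ∃ s c, (s, c) ∈ us ∧ g (pt K s c false) = some y ∧ g (pt K s c true) = some y ∧
      ¬ (cmp H D K g x₀ (pt K s c false) ∈ T ↔ cmp H D K g x₀ (pt K s c true) ∈ T) := by
  by_contra hcon
  have key : ∀ w, St H D K g us y u w → cmp H D K g x₀ w ∈ T := by
    intro w hw
    induction hw with
    | refl => exact h1
    | tail _ hbc ih =>
      rename_i b c _
      rcases hbc with h3 | ⟨s, d, h3, h4, h5, h6⟩
      · have h7 : cmp H D K g x₀ c = cmp H D K g x₀ b := by
          refine cmp_eq h3.2.2.2.1 ?_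
          unfold cmp
          rw [cl_eq h3.2.2.2.1]
          exact ReflTransGen.single h3
        rw [h7]
        exact ih
      · have h7 : cmp H D K g x₀ (pt K s d false) ∈ T ↔ cmp H D K g x₀ (pt K s d true) ∈ T := by
          by_contra h8
          exact hcon ⟨s, d, h3, h4, h5, h8⟩
        rcases h6 with ⟨rfl, rfl⟩ | ⟨rfl, rfl⟩
        · exact h7.1 ih
        · exact h7.2 ih
  exact h2 (key v (hS.con y u v hu hv hgu hgv))

/-- Geometric part. -/
theorem sys_conn (hS : State G H D K g us) (hN : Num us n col) (hA : Asg G H D K g us cv)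
    (hgv : ∀ y, g (Sum.inl (gv y)) = some y ∧ H.gd (gv y)) :
    (sys G H D K g us x₀ n col cv gv).Conn H D K where
  mono := hN.mono
  lt := fun s p hp => hS.lt (hN.mem s p hp)
  fin := by
    rintro B ⟨w, _, h2, rfl⟩
    obtain ⟨y, hy⟩ := Option.ne_none_iff_exists'.1 h2
    refine hS.fin.subset ?_
    intro u hu
    change g u ≠ none
    rw [cmp_col hy hu]
    simp
  ne := by
    rintro B ⟨w, _, _, rfl⟩
    exact ⟨w, cmp_self⟩
  out := by
    rintro B ⟨w, h1, _, rfl⟩ u hu
    exact cmp_out h1 hu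
  bd := by
    rintro B ⟨w, _, h2, rfl⟩ s c b hu
    obtain ⟨y, hy⟩ := Option.ne_none_iff_exists'.1 h2
    refine hS.sup s c b ?_
    rw [cmp_col hy hu]
    simp
  conn := by
    rintro B ⟨w, _, h2, rfl⟩ u hu v hv
    obtain ⟨y, hy⟩ := Option.ne_none_iff_exists'.1 h2
    have h3 : v ∈ cmp H D K g x₀ u := by
      rw [cmp_eq hy hu]
      exact hv
    have hgu := cmp_col hy hu
    have h4 : ReflTransGen (OA H D K g y) u v := by
      unfold cmp at h3
      rw [cl_eq hgu] at h3
      exact h3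
    have key : ∀ v, ReflTransGen (OA H D K g y) u v → v ∈ cmp H D K g x₀ w ∧
        ReflTransGen (fun a b => H.Adj D a b ∧ a ∈ cmp H D K g x₀ w ∧
          b ∈ cmp H D K g x₀ w) u v := by
      intro v hv
      induction hv with
      | refl => exact ⟨hu, ReflTransGen.refl⟩
      | tail _ hbc ih =>
        rename_i b c _
        have h5 : c ∈ cmp H D K g x₀ w := by
          rw [← cmp_eq hy ih.1]
          unfold cmp
          rw [cl_eq hbc.2.2.2.1]
          exact ReflTransGen.single hbc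
        exact ⟨h5, ReflTransGen.tail ih.2 ⟨hbc.2.2.1, ih.1, h5⟩⟩
    exact (key v h4).2
  dis := by
    rintro B ⟨w, _, h2, rfl⟩ B' ⟨w', _, h2', rfl⟩ hne
    obtain ⟨y, hy⟩ := Option.ne_none_iff_exists'.1 h2
    obtain ⟨y', hy'⟩ := Option.ne_none_iff_exists'.1 h2'
    rw [Set.disjoint_left]
    intro u hu hu'
    apply hne
    rw [← cmp_eq hy hu, ← cmp_eq hy' hu']
  left := fun s p _ => cmp_self
  right := fun s p _ => cmp_self
  ct := by
    rintro B B' ⟨y, z, h1, h2, rfl, rfl⟩
    exact ⟨_, cmp_self, _, cmp_self, hA.adj y z h1 h2⟩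
  gr := by
    rintro B ⟨y, rfl⟩
    exact ⟨gv y, cmp_self, (hgv y).2⟩

end

end Mdl
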