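import Pool.Agent.EN.JMin
import Pool.Agent.EN.TautSys

/-!
# Full columns and connectors of a class
-/

open Relation

namespace Mdj

open Mdl Mdu

variable {V σ X : Type*}

section

variable {G : SimpleGraph X} {H : Host V σ} {N D K : ℤ} {U : ℤ → (HV V σ → Option X) → Prop}
  {g : HV V σ → Option X} {us T T' : Set (σ × ℕ)} {x₀ y : X}

lemma st_symm {u v : HV V σ} (h : St H D K g T y u v) : St H D K g T y v u := by
  unfold St at h ⊢
  induction h with
  | refl => exact ReflTransGen.refl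
  | tail _ hbc ih =>
    refine ReflTransGen.head ?_ ih
    rcases hbc with h1 | ⟨s, c, h1, h2, h3, h4⟩
    · exact Or.inl h1.symm
    · exact Or.inr ⟨s, c, h1, h2, h3, h4.symm.imp (fun h => ⟨h.2, h.1⟩) (fun h => ⟨h.2, h.1⟩)⟩

lemma st_mono (hT : T ⊆ T') {u v : HV V σ} (h : St H D K g T y u v) : St H D K g T' y u v := by
  unfold St at h ⊢
  induction h with
  | refl => exact ReflTransGen.refl
  | tail _ hbc ih =>
    refine ReflTransGen.tail ih ?_
    rcases hbc with h1 | ⟨s, c, h1, h2, h3, h4⟩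
    · exact Or.inl h1
    · exact Or.inr ⟨s, c, hT h1, h2, h3, h4⟩

/-- Dropping a column which is not a bridge. -/
lemma st_drop {x : σ × ℕ}
    (h : St H D K g (T \ {x}) y (pt K x.1 x.2 false) (pt K x.1 x.2 true))
    {u v : HV V σ} (huv : St H D K g T y u v) : St H D K g (T \ {x}) y u v := by
  unfold St at huv
  induction huv with
  | refl => exact ReflTransGen.refl
  | tail _ hbc ih =>
    refine ReflTransGen.trans ih ?_
    rcases hbc with h1 | ⟨s', c, h1, h2, h3, h4⟩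
    · exact ReflTransGen.single (Or.inl h1)
    · by_cases h5 : (s', c) = x
      · rw [← h5] at h ⊢
        rcases h4 with ⟨rfl, rfl⟩ | ⟨rfl, rfl⟩
        · exact h
        · exact st_symm h
      · exact ReflTransGen.single (Or.inr ⟨s', c, ⟨h1, h5⟩, h2, h3, h4⟩)

lemma st_pa (hS : State G H D K g us) (hT : T ⊆ us) (hK : 0 < K) (hKD : K ≤ D) {u v : HV V σ}
    (h1 : St H D K g T y u v) : Pa H D (Wst K g T y) u v := by
  unfold St at h1
  induction h1 with
  | refl => exact ReflTransGen.refl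
  | tail _ hbc ih =>
    refine ih.trans ?_
    rcases hbc with h2 | ⟨s, c, h2, h3, h4, h5⟩
    · exact Pa.one h2.2.2.1 (wst_out h2.1 h2.2.2.2.1) (wst_out h2.2.1 h2.2.2.2.2)
    · have h6 : Pa H D (Wst K g T y) (Sum.inr (s, c, -K)) (Sum.inr (s, c, K)) := by
        refine Pa.vert (hS.lt (hT h2)) (by omega) hKD (by omega) ?_
        intro b hb hb'
        exact wst_col h2 h3 h4 hb hb'
      rcases h5 with ⟨rfl, rfl⟩ | ⟨rfl, rfl⟩
      · exact h6
      · exact h6.symm

/-- Connectedness of `Wst` for less columns. -/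
lemma wst_co' (hS : State G H D K g us) (hT : T ⊆ us) (hK : 0 < K) (hKD : K ≤ D)
    (hall : ∀ u v, Out K u → Out K v → g u = some y → g v = some y → St H D K g T y u v) :
    Co H D (Wst K g T y) := by
  have key : ∀ u ∈ Wst K g T y, ∃ p, Out K p ∧ g p = some y ∧ Pa H D (Wst K g T y) u p := by
    rintro u (⟨h1, h2⟩ | ⟨s, c, b, rfl, h1, h2, h3, h4, h5⟩)
    · exact ⟨u, h1, h2, ReflTransGen.refl⟩
    · refine ⟨_, pt_out, h3, ?_⟩
      refine Pa.vert (hS.lt (hT h1)) (by omega) hKD h5.le ?_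
      intro b' hb hb'
      exact wst_col h1 h2 h3 (by omega) hb'
  intro u hu v hv
  obtain ⟨p, h1, h2, h3⟩ := key u hu
  obtain ⟨q, h4, h5, h6⟩ := key v hv
  exact (h3.trans (st_pa hS hT hK hKD (hall p q h1 h4 h2 h5))).trans h6.symm

lemma cp_eq {u w : HV V σ} (hu : u ∈ Cp H D K g y w) : Cp H D K g y u = Cp H D K g y w := by
  ext v
  exact ⟨fun hv => ReflTransGen.trans hu hv, fun hv => ReflTransGen.trans (OA.rsymm hu) hv⟩

lemma cp_self {w : HV V σ} : w ∈ Cp H D K g y w := ReflTransGen.refl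

lemma st_of_cp {u w : HV V σ} (h : Cp H D K g y u = Cp H D K g y w) : St H D K g T y u w := by
  have h1 : w ∈ Cp H D K g y u := by
    rw [h]
    exact cp_self
  have h2 : ReflTransGen (OA H D K g y) u w := h1
  clear h1 h
  induction h2 with
  | refl => exact ReflTransGen.refl
  | tail _ hbc ih => exact ReflTransGen.tail ih (Or.inl hbc)

/-- A column which is not a bridge. -/
lemma exists_nonbridge (Nf : Finset (Set (HV V σ))) (F : Finset (σ × ℕ)) (hNe : Nf.Nonempty)
    (hF : ∀ x ∈ F, x ∈ T ∧ g (pt K x.1 x.2 false) = some y ∧ g (pt K x.1 x.2 true) = some y)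
    (hend : ∀ x ∈ F, ∀ e, Cp H D K g y (pt K x.1 x.2 e) ∈ Nf) (hcard : Nf.card ≤ F.card) :
    ∃ x ∈ F, St H D K g (T \ {x}) y (pt K x.1 x.2 false) (pt K x.1 x.2 true) := by
  classical
  by_contra hcon
  have h1 : F.card + 1 ≤ Nf.card := by
    refine forest Nf F (fun x => Cp H D K g y (pt K x.1 x.2 false))
      (fun x => Cp H D K g y (pt K x.1 x.2 true)) (fun x hx => hend x hx _)
      (fun x hx => hend x hx _) hNe ?_
    intro x hx hpath
    apply hcon
    refine ⟨x, hx, ?_⟩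
    have key : ∀ B, ReflTransGen (FSt {e' | e' ∈ F ∧ e' ≠ x}
        (fun x => Cp H D K g y (pt K x.1 x.2 false)) (fun x => Cp H D K g y (pt K x.1 x.2 true)))
        (Cp H D K g y (pt K x.1 x.2 false)) B → ∀ w, Cp H D K g y w = B →
        St H D K g (T \ {x}) y (pt K x.1 x.2 false) w := by
      intro B hB'
      induction hB' with
      | refl =>
        intro w hw
        exact st_of_cp hw.symm
      | tail _ hbc ih =>
        intro w hw
        obtain ⟨x', ⟨hj, hjne⟩, h1⟩ := hbc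
        obtain ⟨h2, h3, h4⟩ := hF x' hj
        have hjmp : ∀ a b : HV V σ, ((a = Sum.inr (x'.1, x'.2, -K) ∧ b = Sum.inr (x'.1, x'.2, K)) ∨
            (a = Sum.inr (x'.1, x'.2, K) ∧ b = Sum.inr (x'.1, x'.2, -K))) →
            St H D K g (T \ {x}) y (pt K x.1 x.2 false) a →
            St H D K g (T \ {x}) y (pt K x.1 x.2 false) b := by
          intro a b hab ha
          exact ReflTransGen.tail ha (Or.inr ⟨x'.1, x'.2, ⟨h2, hjne⟩, h3, h4, hab⟩)
        rcases h1 with ⟨h1, h5⟩ | ⟨h1, h5⟩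
        · have h6 := hjmp _ _ (Or.inl ⟨rfl, rfl⟩) (ih (pt K x'.1 x'.2 false) h1)
          exact ReflTransGen.trans h6 (st_of_cp (h5.trans hw.symm))
        · have h6 := hjmp _ _ (Or.inr ⟨rfl, rfl⟩) (ih (pt K x'.1 x'.2 true) h5)
          exact ReflTransGen.trans h6 (st_of_cp (h1.trans hw.symm))
    exact key _ hpath _ rfl
  omega

/-- **(F1')** A class has at most as many full columns as connectors. -/
theorem JMin.full_le [Finite σ] (hB : Jnt H N U) (hgd : ∀ v, H.gd v)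
    (h4 : ∀ a b c d, G.Adj a b → G.Adj b c → G.Adj c d → G.Adj d a → a = c ∨ b = d)
    (hM : JMin G H U D K g us) (hK : 2 * us.ncard + 4 ≤ K) (hKD : K ≤ D) (hDN : D ≤ N)
    (Nf : Finset (Set (HV V σ))) (F : Finset (σ × ℕ)) (hNe : Nf.Nonempty)
    (hF : ∀ x ∈ F, x ∈ us ∧ g (pt K x.1 x.2 false) = some y ∧ g (pt K x.1 x.2 true) = some y)
    (hend : ∀ x ∈ F, ∀ e, Cp H D K g y (pt K x.1 x.2 e) ∈ Nf) : F.card ≤ Nf.card := by
  classical
  by_contra hcon
  have hS := hM.st.st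
  obtain ⟨x, hx, hbx⟩ := exists_nonbridge (T := us) Nf F hNe hF hend (by omega)
  obtain ⟨x', hx', hbx'⟩ := exists_nonbridge (T := us \ {x}) Nf (F.erase x) hNe (by
      intro z hz
      rw [Finset.mem_erase] at hz
      obtain ⟨h1, h2⟩ := hF z hz.2
      exact ⟨⟨h1, hz.1⟩, h2⟩) (by
      intro z hz
      rw [Finset.mem_erase] at hz
      exact hend z hz.2) (by
      rw [Finset.card_erase_of_mem hx]
      omega)
  rw [Finset.mem_erase] at hx'
  obtain ⟨hxu, hx1, hx2⟩ := hF x hx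
  obtain ⟨hxu', hx1', hx2'⟩ := hF x' hx'.2
  have hsub2 : (us \ {x}) \ {x'} ⊆ us \ {x'} := fun z hz => ⟨hz.1.1, hz.2⟩
  have hall1 : ∀ u v, Out K u → Out K v → g u = some y → g v = some y →
      St H D K g (us \ {x}) y u v :=
    fun u v h1 h2 h3 h5 => st_drop hbx (hS.con y u v h1 h2 h3 h5)
  have hall12 : ∀ u v, Out K u → Out K v → g u = some y → g v = some y →
      St H D K g ((us \ {x}) \ {x'}) y u v :=
    fun u v h1 h2 h3 h5 => st_drop hbx' (hall1 u v h1 h2 h3 h5)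
  have hall2 : ∀ u v, Out K u → Out K v → g u = some y → g v = some y →
      St H D K g (us \ {x'}) y u v :=
    fun u v h1 h2 h3 h5 => st_mono hsub2 (hall12 u v h1 h2 h3 h5)
  have hok := wc_ok hS (by omega) hKD h4 hK
  have e1 : Wst K g (us \ {x}) y ∪ Wst K g (us \ {x'}) y = Wst K g us y := by
    ext w
    constructor
    · rintro ((h1 | ⟨s, c, b, h1, h2, h3⟩) | (h1 | ⟨s, c, b, h1, h2, h3⟩))
      · exact Or.inl h1
      · exact Or.inr ⟨s, c, b, h1, h2.1, h3⟩
      · exact Or.inl h1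
      · exact Or.inr ⟨s, c, b, h1, h2.1, h3⟩
    · rintro (h1 | ⟨s, c, b, h1, h2, h3⟩)
      · exact Or.inl (Or.inl h1)
      · by_cases h5 : (s, c) = x
        · refine Or.inr (Or.inr ⟨s, c, b, h1, ⟨h2, ?_⟩, h3⟩)
          intro h6
          exact hx'.1 ((show (s, c) = x' from h6).symm.trans h5)
        · exact Or.inl (Or.inr ⟨s, c, b, h1, ⟨h2, h5⟩, h3⟩)
  have e2 : Wst K g (us \ {x}) y ∩ Wst K g (us \ {x'}) y = Wst K g ((us \ {x}) \ {x'}) y := by
    ext w
    constructor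
    · rintro ⟨h1 | ⟨s, c, b, rfl, h2, h3, h5, h6⟩, h7 | ⟨s', c', b', h7, h8, _⟩⟩
      · exact Or.inl h1
      · exact Or.inl h1
      · exact Or.inl h7
      · simp only [Sum.inr.injEq, Prod.mk.injEq] at h7
        obtain ⟨rfl, rfl, rfl⟩ := h7
        exact Or.inr ⟨s, c, b, rfl, ⟨h2, h8.2⟩, h3, h5, h6⟩
    · rintro (h1 | ⟨s, c, b, rfl, h2, h3⟩)
      · exact ⟨Or.inl h1, Or.inl h1⟩
      · exact ⟨Or.inr ⟨s, c, b, rfl, h2.1, h3⟩, Or.inr ⟨s, c, b, rfl, ⟨h2.1.1, h2.2⟩, h3⟩⟩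
  have h5 := hB.modu D (wc K g us) y (Wst K g (us \ {x}) y) (Wst K g (us \ {x'}) y) (by omega)
    hDN hok (by rw [wc_set, e1]) (wst_co' hS (fun z hz => hz.1) (by omega) hKD hall1)
    (wst_co' hS (fun z hz => hz.1) (by omega) hKD hall2)
    (by rw [e2]; exact ⟨_, wst_out pt_out hx1⟩)
    (by rw [e2]; exact wst_co' hS (fun z hz => hz.1.1) (by omega) hKD hall12)
    (by
      have hint : ∀ z : σ × ℕ, ∀ a, a ∈ Wst K g us y → a ∉ Wst K g (us \ {z}) y →
          ∃ b, a = Sum.inr (z.1, z.2, b) ∧ -K < b ∧ b < K := by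
        rintro z a (h1 | ⟨s, c, b, rfl, h2, h3, h6, h7⟩) ha'
        · exact absurd (Or.inl h1) ha'
        · by_cases h5 : (s, c) = z
          · rw [← h5]
            exact ⟨b, rfl, h7⟩
          · exact absurd (Or.inr ⟨s, c, b, rfl, ⟨h2, h5⟩, h3, h6, h7⟩) ha'
      intro a ha b hb haB hbA hab
      obtain ⟨β, rfl, h6, h7⟩ := hint x' a (by rw [← e1]; exact Or.inl ha) haB
      obtain ⟨β', rfl, h8, h9⟩ := hint x b (by rw [← e1]; exact Or.inr hb) hbA
      obtain ⟨c', b', h10, h11⟩ := nb_mid hKD h8 h9 hab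
      simp only [Sum.inr.injEq, Prod.mk.injEq] at h10
      obtain ⟨h12, h13, h14⟩ := h10
      rcases h11 with ⟨h11, _⟩ | ⟨_, h11 | h11⟩
      · apply hx'.1
        exact Prod.ext h12 (h13.trans h11)
      · refine hM.a1 hB hgd h4 hK hKD hDN (s := x.1) (i := x.2) (j := x'.2) ⟨by omega, hxu, ?_,
          fun k hk hk' => by omega⟩ false hx1 ?_
        · rw [← h12]; exact hxu'
        · rw [← h12]; exact hx1'
      · refine hM.a1 hB hgd h4 hK hKD hDN (s := x.1) (i := x'.2) (j := x.2) ⟨by omega, ?_, hxu,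
          fun k hk hk' => by omega⟩ false ?_ hx1
        · rw [← h12]; exact hxu'
        · rw [← h12]; exact hx1')
    hM.st.unb
  rcases h5 with h5 | h5
  · exact hM.bridge hB hgd h4 hK hKD hDN (s := x.1) (i := x.2) hxu hx1 hx2 hbx h5
  · exact hM.bridge hB hgd h4 hK hKD hDN (s := x'.1) (i := x'.2) hxu' hx1' hx2'
      (st_mono hsub2 hbx') h5

end

end Mdj
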