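import Pool.Agent.EN.JCyc

/-!
# If no connector of a class is unbalanced then the class has a cycle
-/

open Relation

namespace Mdj

open Mdl Mdu

variable {V σ X : Type*}

/-- Part of a class: connectors and full columns. -/
def Wp (K : ℤ) (Nf : Finset (Set (HV V σ))) (F : Finset (σ × ℕ)) : Set (HV V σ) :=
  {w | (∃ B ∈ Nf, w ∈ B) ∨ ∃ s c b, w = Sum.inr (s, c, b) ∧ (s, c) ∈ F ∧ -K < b ∧ b < K}

/-- Connected part of a class. -/
structure Sub (H : Host V σ) (D K : ℤ) (g : HV V σ → Option X) (us : Set (σ × ℕ)) (y : X)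
    (Nf : Finset (Set (HV V σ))) (F : Finset (σ × ℕ)) : Prop where
  nf : ∀ B ∈ Nf, ∃ w, Out K w ∧ g w = some y ∧ B = Cp H D K g y w
  f : ∀ x ∈ F, x ∈ us ∧ g (pt K x.1 x.2 false) = some y ∧ g (pt K x.1 x.2 true) = some y
  en : ∀ x ∈ F, ∀ e, Cp H D K g y (pt K x.1 x.2 e) ∈ Nf
  cn : ∀ T : Set (Set (HV V σ)), (∃ B ∈ Nf, B ∈ T) → (∃ B ∈ Nf, B ∉ T) → ∃ x ∈ F,
    ¬ (Cp H D K g y (pt K x.1 x.2 false) ∈ T ↔ Cp H D K g y (pt K x.1 x.2 true) ∈ T)

section

variable {G : SimpleGraph X} {H : Host V σ} {N D K : ℤ} {U : ℤ → (HV V σ → Option X) → Prop}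
  {g : HV V σ → Option X} {us T T' : Set (σ × ℕ)} {x₀ y : X}
  {Nf Nf' : Finset (Set (HV V σ))} {F F' : Finset (σ × ℕ)}

lemma bool_not {e e' : Bool} (h : e' ≠ e) : e' = !e := by
  cases e <;> cases e' <;> simp_all

lemma pt_of {s : σ} {c : ℕ} {b : ℤ} (h : b ≤ -K ∨ K ≤ b) (h1 : -K ≤ b) (h2 : b ≤ K) :
    ∃ e, (Sum.inr (s, c, b) : HV V σ) = pt K s c e := by
  rcases h with h | h
  · refine ⟨false, ?_⟩
    have : b = -K := by omega
    rw [this]
    rfl
  · refine ⟨true, ?_⟩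
    have : b = K := by omega
    rw [this]
    rfl

lemma pt_ex {s : σ} {c : ℕ} (hK : 0 ≤ K) (e : Bool) :
    ∃ b, (pt K s c e : HV V σ) = Sum.inr (s, c, b) ∧ -K ≤ b ∧ b ≤ K := by
  cases e
  · exact ⟨-K, rfl, by omega, by omega⟩
  · exact ⟨K, rfl, by omega, by omega⟩

lemma Sub.sub (h : Sub H D K g us y Nf F) : Wp K Nf F ⊆ Wst K g us y := by
  rintro w (⟨B, hB, hw⟩ | ⟨s, c, b, rfl, h1, h2, h3⟩)
  · obtain ⟨p, h1, h2, rfl⟩ := h.nf B hB
    exact wst_out (Cp.out h1 hw) (Cp.col h2 hw)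
  · obtain ⟨h4, h5, h6⟩ := h.f _ h1
    exact wst_col h4 h5 h6 h2.le h3.le

lemma Sub.wc (h : Sub H D K g us y Nf F) : ∀ w ∈ Wp K Nf F, wc K g us w = some y :=
  fun _ hw => wc_iff.2 (h.sub hw)

lemma Sub.col (h : Sub H D K g us y Nf F) {s : σ} {c : ℕ} (hx : (s, c) ∈ F) {b : ℤ}
    (h1 : -K ≤ b) (h2 : b ≤ K) : (Sum.inr (s, c, b) : HV V σ) ∈ Wp K Nf F := by
  by_cases h3 : b ≤ -K ∨ K ≤ b
  · obtain ⟨e, he⟩ := pt_of (V := V) (s := s) (c := c) h3 h1 h2
    rw [he]
    exact Or.inl ⟨_, h.en _ hx e, cp_self⟩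
  · exact Or.inr ⟨s, c, b, rfl, hx, by omega, by omega⟩

lemma Sub.cp_sub {B : Set (HV V σ)} (hB : B ∈ Nf) : B ⊆ Wp K Nf F := fun _ hw => Or.inl ⟨B, hB, hw⟩

lemma Sub.co (h : Sub H D K g us y Nf F) (hS : State G H D K g us) (hK : 0 < K) (hKD : K ≤ D) :
    Co H D (Wp K Nf F) := by
  rcases Nf.eq_empty_or_nonempty with h0 | ⟨B₀, hB₀⟩
  · have h1 : Wp K Nf F = ∅ := by
      rw [Set.eq_empty_iff_forall_notMem]
      rintro w (⟨B, hB, _⟩ | ⟨s, c, b, _, h2, _⟩)
      · rw [h0] at hB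
        exact absurd hB (Finset.notMem_empty _)
      · have := h.en _ h2 false
        rw [h0] at this
        exact absurd this (Finset.notMem_empty _)
    rw [h1]
    intro u hu
    exact hu.elim
  · obtain ⟨p, hp1, hp2, rfl⟩ := h.nf B₀ hB₀
    apply Co.of (p := p)
    -- all connectors are reached
    have hcc : ∀ w u, Cp H D K g y w ∈ Nf → u ∈ Cp H D K g y w → ∀ v ∈ Cp H D K g y w,
        Pa H D (Wp K Nf F) u v := by
      intro w u hw hu v hv
      exact (cp_co u hu v hv).mono (Sub.cp_sub hw)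
    have hall : ∀ B ∈ Nf, ∃ u ∈ B, Pa H D (Wp K Nf F) p u := by
      by_contra hcon
      push Not at hcon
      obtain ⟨B, hB, hB'⟩ := hcon
      obtain ⟨x, hx, h1⟩ := h.cn {B | ∃ u ∈ B, Pa H D (Wp K Nf F) p u}
        ⟨_, hB₀, p, cp_self, ReflTransGen.refl⟩ ⟨B, hB, by
          rintro ⟨u, h1, h2⟩
          exact hB' u h1 h2⟩
      have hv : Pa H D (Wp K Nf F) (pt K x.1 x.2 false) (pt K x.1 x.2 true) := by
        refine Pa.vert (s := x.1) (c := x.2) (a := -K) (a' := K) (hS.lt (h.f x hx).1) (by omega)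
          hKD (by omega) ?_
        intro b h2 h3
        exact h.col hx h2 h3
      apply h1
      constructor
      · rintro ⟨u, h2, h3⟩
        exact ⟨_, cp_self, (h3.trans (hcc _ _ (h.en x hx false) h2 _ cp_self)).trans hv⟩
      · rintro ⟨u, h2, h3⟩
        exact ⟨_, cp_self, (h3.trans (hcc _ _ (h.en x hx true) h2 _ cp_self)).trans hv.symm⟩
    have hall' : ∀ B ∈ Nf, ∀ v ∈ B, Pa H D (Wp K Nf F) p v := by
      intro B hB v hv
      obtain ⟨u, h1, h2⟩ := hall B hB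
      obtain ⟨w, _, _, rfl⟩ := h.nf B hB
      exact h2.trans (hcc _ _ hB h1 v hv)
    rintro w (⟨B, hB, hw⟩ | ⟨s, c, b, rfl, h1, h2, h3⟩)
    · exact hall' B hB w hw
    · refine (hall' _ (h.en _ h1 true) _ cp_self).trans ?_
      refine (Pa.vert (s := s) (c := c) (a := b) (a' := K) (hS.lt (h.f _ h1).1) (by omega) hKD
        h3.le ?_).symm
      intro b' h4 h5
      exact h.col h1 (by omega) h5

/-- A leaf. -/
lemma Sub.leaf (h : Sub H D K g us y Nf F) (h1 : F.card + 1 ≤ Nf.card) (h2 : 2 ≤ Nf.card) :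
    ∃ x ∈ F, ∃ e, ∀ x' ∈ F, ∀ e', Cp H D K g y (pt K x'.1 x'.2 e') = Cp H D K g y (pt K x.1 x.2 e) →
      x' = x ∧ e' = e := by
  classical
  set P : Finset ((σ × ℕ) × Bool) := F ×ˢ (Finset.univ : Finset Bool) with hP
  set ow : (σ × ℕ) × Bool → Set (HV V σ) := fun p => Cp H D K g y (pt K p.1.1 p.1.2 p.2) with how
  have hsum : ∑ B ∈ Nf, (P.filter (fun p => ow p = B)).card = 2 * F.card := by
    rw [← Finset.card_eq_sum_card_fiberwise (f := ow) (s := P) (t := Nf), hP,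
      Finset.card_product]
    · simp only [Finset.card_univ, Fintype.card_bool]
      omega
    · intro p hp
      rw [Finset.mem_coe, hP, Finset.mem_product] at hp
      exact h.en _ hp.1 _
  have hex : ∃ B ∈ Nf, (P.filter (fun p => ow p = B)).card ≤ 1 := by
    by_contra hcon
    push Not at hcon
    have h3 : ∑ _B ∈ Nf, 2 ≤ ∑ B ∈ Nf, (P.filter (fun p => ow p = B)).card :=
      Finset.sum_le_sum (fun B hB => hcon B hB)
    rw [Finset.sum_const, smul_eq_mul, hsum] at h3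
    omega
  obtain ⟨B, hB, h3⟩ := hex
  obtain ⟨B', hB', hne⟩ := Finset.exists_mem_ne h2 B
  obtain ⟨x, hx, h4⟩ := h.cn {B} ⟨B, hB, rfl⟩ ⟨B', hB', hne⟩
  have h5 : ∃ e, ow (x, e) = B := by
    by_contra hcon
    push Not at hcon
    apply h4
    exact ⟨fun h5 => absurd h5 (hcon false), fun h5 => absurd h5 (hcon true)⟩
  obtain ⟨e, he⟩ := h5
  refine ⟨x, hx, e, ?_⟩
  intro x' hx' e' h6
  have h7 : (x, e) ∈ P.filter (fun p => ow p = B) := by
    rw [Finset.mem_filter, hP, Finset.mem_product]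
    exact ⟨⟨hx, Finset.mem_univ _⟩, he⟩
  have h8 : (x', e') ∈ P.filter (fun p => ow p = B) := by
    rw [Finset.mem_filter, hP, Finset.mem_product]
    exact ⟨⟨hx', Finset.mem_univ _⟩, h6.trans he⟩
  have h9 := Finset.card_le_one.1 h3 _ h8 _ h7
  exact Prod.mk.inj h9

/-- Removal of a leaf. -/
lemma Sub.erase [DecidableEq (Set (HV V σ))] [DecidableEq (σ × ℕ)]
    (h : Sub H D K g us y Nf F) {x : σ × ℕ} (hx : x ∈ F) {e : Bool}
    (hl : ∀ x' ∈ F, ∀ e', Cp H D K g y (pt K x'.1 x'.2 e') = Cp H D K g y (pt K x.1 x.2 e) →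
      x' = x ∧ e' = e) :
    Sub H D K g us y (Nf.erase (Cp H D K g y (pt K x.1 x.2 e))) (F.erase x) where
  nf := fun B hB => h.nf B (Finset.mem_of_mem_erase hB)
  f := fun z hz => h.f z (Finset.mem_of_mem_erase hz)
  en := by
    intro z hz e'
    rw [Finset.mem_erase] at hz
    rw [Finset.mem_erase]
    exact ⟨fun h1 => hz.1 (hl z hz.2 e' h1).1, h.en z hz.2 e'⟩
  cn := by
    intro T h1 h2
    set k := Cp H D K g y (pt K x.1 x.2 e) with hk
    set k' := Cp H D K g y (pt K x.1 x.2 (!e)) with hk'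
    have hkk : k' ≠ k := by
      intro h3
      have := (hl x hx (!e) h3).2
      cases e <;> simp at this
    obtain ⟨B, hB, hBT⟩ := h1
    obtain ⟨B', hB', hBT'⟩ := h2
    rw [Finset.mem_erase] at hB hB'
    -- the modified set
    set T' : Set (Set (HV V σ)) := {B | (B ≠ k ∧ B ∈ T) ∨ (B = k ∧ k' ∈ T)} with hT'
    have hT1 : ∀ B, B ≠ k → (B ∈ T' ↔ B ∈ T) := by
      intro B hBk
      constructor
      · rintro (h3 | h3)
        · exact h3.2
        · exact absurd h3.1 hBk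
      · intro h3
        exact Or.inl ⟨hBk, h3⟩
    have hT2 : k ∈ T' ↔ k' ∈ T := by
      constructor
      · rintro (h3 | h3)
        · exact absurd rfl h3.1
        · exact h3.2
      · intro h3
        exact Or.inr ⟨rfl, h3⟩
    obtain ⟨z, hz, h3⟩ := h.cn T' ⟨B, hB.2, (hT1 B hB.1).2 hBT⟩
      ⟨B', hB'.2, fun h3 => hBT' ((hT1 B' hB'.1).1 h3)⟩
    by_cases hzx : z = x
    · exfalso
      rw [hzx] at h3
      apply h3
      have h4 : k ∈ T' ↔ k' ∈ T' := hT2.trans (hT1 k' hkk).symm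
      cases e
      · exact h4
      · exact h4.symm
    · refine ⟨z, Finset.mem_erase.2 ⟨hzx, hz⟩, ?_⟩
      rw [hT1 _ (fun h4 => hzx (hl z hz false h4).1), hT1 _ (fun h4 => hzx (hl z hz true h4).1)]
        at h3
      exact h3

/-- The leaf step. -/
theorem leaf_step [Finite σ] (hB : Jnt H N U)
    (h4 : ∀ a b c d, G.Adj a b → G.Adj b c → G.Adj c d → G.Adj d a → a = c ∨ b = d)
    (hS : State G H D K g us) (hK : 2 * us.ncard + 4 ≤ K) (hKD : K ≤ D) (hDN : D ≤ N)
    (hA1 : ∀ s i j, Cons us s i j → g (pt K s i false) = some y → g (pt K s j false) ≠ some y)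
    [DecidableEq (Set (HV V σ))] [DecidableEq (σ × ℕ)]
    (h : Sub H D K g us y Nf F) {x : σ × ℕ} (hx : x ∈ F) {e : Bool}
    (hl : ∀ x' ∈ F, ∀ e', Cp H D K g y (pt K x'.1 x'.2 e') = Cp H D K g y (pt K x.1 x.2 e) →
      x' = x ∧ e' = e)
    (hU : U D (cut (wc K g us) y (Wp K Nf F))) :
    U D (cut (wc K g us) y
      (Wp K (Nf.erase (Cp H D K g y (pt K x.1 x.2 e))) (F.erase x))) ∨
      U D (cut (wc K g us) y (Cp H D K g y (pt K x.1 x.2 e))) := by
  have h' := h.erase hx hl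
  have hK0 : 4 ≤ K := by omega
  have hok := wc_ok hS (by omega) hKD h4 hK
  obtain ⟨hxu, hx1, hx2⟩ := h.f x hx
  have hxe : ∀ e', g (pt K x.1 x.2 e') = some y := by
    intro e'
    cases e'
    · exact hx1
    · exact hx2
  have hil := hS.lt (s := x.1) (c := x.2) hxu
  set κ := Cp H D K g y (pt K x.1 x.2 e) with hκ
  set W' := Wp K (Nf.erase κ) (F.erase x) with hW'
  set C : Set (HV V σ) := {w | ∃ b : ℤ, w = Sum.inr (x.1, x.2, b) ∧ -K ≤ b ∧ b ≤ K} with hC
  have hCm : ∀ b : ℤ, -K ≤ b → b ≤ K → (Sum.inr (x.1, x.2, b) : HV V σ) ∈ C :=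
    fun b h5 h6 => ⟨b, rfl, h5, h6⟩
  have hCp : ∀ e', (pt K x.1 x.2 e' : HV V σ) ∈ C := by
    intro e'
    obtain ⟨b, h5, h6, h7⟩ := pt_ex (V := V) (s := x.1) (c := x.2) (K := K) (by omega) e'
    rw [h5]
    exact hCm b h6 h7
  have hκN : κ ∈ Nf := h.en x hx e
  have hκo : ∀ w ∈ κ, Out K w := fun w hw => Cp.out pt_out hw
  have hκc : ∀ w ∈ κ, g w = some y := fun w hw => Cp.col (hxe e) hw
  have hCc : Co H D C := by
    apply Co.of (p := Sum.inr (x.1, x.2, -K))
    rintro w ⟨b, rfl, h5, h6⟩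
    refine Pa.vert hil (by omega) (by omega) h5 ?_
    intro b' h7 h8
    exact hCm b' h7 (by omega)
  have hκco : Co H D κ := cp_co
  have hpκ : (pt K x.1 x.2 e : HV V σ) ∈ κ := cp_self
  have hκCco : Co H D (κ ∪ C) := by
    apply Co.of (p := pt K x.1 x.2 e)
    rintro w (hw | hw)
    · exact (hκco _ hpκ w hw).mono Set.subset_union_left
    · exact (hCc _ (hCp e) w hw).mono Set.subset_union_right
  -- disjoint connectors
  have hdis : ∀ B ∈ Nf, ∀ w ∈ B, w ∈ κ → B = κ := by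
    intro B hB w hw hwk
    obtain ⟨p, _, _, rfl⟩ := h.nf B hB
    exact (cp_eq hw).symm.trans (cp_eq hwk)
  have hpn : (pt K x.1 x.2 (!e) : HV V σ) ∉ κ := by
    intro h5
    have h6 := (hl x hx (!e) (cp_eq h5)).2
    cases e <;> simp at h6
  have hpt' : ∀ e', (pt K x.1 x.2 e' : HV V σ) ∉ κ → e' = !e := by
    intro e' h5
    apply bool_not
    intro h6
    apply h5
    rw [h6]
    exact hpκ
  have hnW : (pt K x.1 x.2 (!e) : HV V σ) ∈ W' := by
    refine Or.inl ⟨_, Finset.mem_erase.2 ⟨?_, h.en x hx (!e)⟩, cp_self⟩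
    intro h5
    apply hpn
    rw [← h5]
    exact cp_self
  have hWo : ∀ w ∈ W', w ∉ κ := by
    rintro w (⟨B, h5, h6⟩ | ⟨s, c, b, rfl, h5, h6, h7⟩) hw
    · rw [Finset.mem_erase] at h5
      exact h5.1 (hdis B h5.2 w h6 hw)
    · have h8 : b ≤ -K ∨ K ≤ b := hκo _ hw
      omega
  have hWC : ∀ w ∈ W', w ∈ C → w = pt K x.1 x.2 (!e) := by
    rintro w hw ⟨b, rfl, h7, h8⟩
    rcases hw with ⟨B, h5, h6⟩ | ⟨s, c, b', h5, h6, _, _⟩
    · rw [Finset.mem_erase] at h5
      obtain ⟨p, hp1, _, rfl⟩ := h.nf B h5.2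
      have h9 : b ≤ -K ∨ K ≤ b := Cp.out hp1 h6
      obtain ⟨e', he'⟩ := pt_of (V := V) (s := x.1) (c := x.2) h9 h7 h8
      rw [he'] at h6 ⊢
      rw [hpt' e' (fun h10 => h5.1 (hdis _ h5.2 _ h6 h10))]
    · exfalso
      simp only [Sum.inr.injEq, Prod.mk.injEq] at h5
      rw [← h5.1, ← h5.2.1, Finset.mem_erase] at h6
      exact h6.1 rfl
  have e1 : W' ∪ (κ ∪ C) = Wp K Nf F := by
    ext w
    constructor
    · rintro (hw | hw | hw)
      · rcases hw with ⟨B, h5, h6⟩ | ⟨s, c, b, h5, h6, h7⟩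
        · exact Or.inl ⟨B, Finset.mem_of_mem_erase h5, h6⟩
        · exact Or.inr ⟨s, c, b, h5, Finset.mem_of_mem_erase h6, h7⟩
      · exact Or.inl ⟨κ, hκN, hw⟩
      · obtain ⟨b, rfl, h5, h6⟩ := hw
        exact h.col hx h5 h6
    · rintro (⟨B, h5, h6⟩ | ⟨s, c, b, rfl, h6, h7, h8⟩)
      · by_cases h9 : B = κ
        · rw [h9] at h6
          exact Or.inr (Or.inl h6)
        · exact Or.inl (Or.inl ⟨B, Finset.mem_erase.2 ⟨h9, h5⟩, h6⟩)
      · by_cases h9 : (s, c) = x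
        · rw [← h9] at hC
          rw [hC]
          exact Or.inr (Or.inr ⟨b, rfl, h7.le, h8.le⟩)
        · exact Or.inl (Or.inr ⟨s, c, b, rfl, Finset.mem_erase.2 ⟨h9, h6⟩, h7, h8⟩)
  have e2 : W' ∩ (κ ∪ C) = {pt K x.1 x.2 (!e)} := by
    ext w
    constructor
    · rintro ⟨h5, h6 | h6⟩
      · exact absurd h6 (hWo w h5)
      · exact hWC w h5 h6
    · rintro rfl
      exact ⟨hnW, Or.inr (hCp _)⟩
  have hsing : ∀ p : HV V σ, Co H D ({p} : Set (HV V σ)) := by
    rintro p u rfl v rfl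
    exact ReflTransGen.refl
  have hUf : ∀ w ∈ κ ∪ C, wc K g us w = some y := by
    intro w hw
    apply h.wc
    rw [← e1]
    exact Or.inr hw
  have hCW : κ ∪ C ⊆ Wp K Nf F := by
    intro w hw
    rw [← e1]
    exact Or.inr hw
  have hWW : W' ⊆ Wp K Nf F := by
    intro w hw
    rw [← e1]
    exact Or.inl hw
  have h5 := hB.modu D (cut (wc K g us) y (Wp K Nf F)) y W' (κ ∪ C) (by omega) hDN
    (hok.cut h.wc (h.co hS (by omega) hKD)) (by rw [cut_set h.wc, e1])
    (h'.co hS (by omega) hKD) hκCco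
    (by rw [e2]; exact Set.singleton_nonempty _) (by rw [e2]; exact hsing _)
    (by
      have hk : ∀ a ∈ W', ∀ b ∈ κ, ¬ H.Adj D a b := by
        rintro a (⟨B, h7, h8⟩ | ⟨s, c, β, rfl, h7, h8, h9⟩) b hb hab
        · rw [Finset.mem_erase] at h7
          obtain ⟨p, hp1, hp2, rfl⟩ := h.nf B h7.2
          apply h7.1
          have h10 : a ∈ κ := Cp.step hb ⟨hκo b hb, Cp.out hp1 h8, hab.symm, hκc b hb,
            Cp.col hp2 h8⟩
          exact hdis _ h7.2 a h8 h10
        · obtain ⟨c', b'', rfl, h14⟩ := nb_mid hKD h8 h9 hab.symm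
          have h15 : b'' ≤ -K ∨ K ≤ b'' := hκo _ hb
          rcases h14 with ⟨rfl, h14⟩ | ⟨rfl, _⟩
          · obtain ⟨e', he'⟩ := pt_of (V := V) (s := s) (c := c') h15 (by omega) (by omega)
            rw [he'] at hb
            rw [Finset.mem_erase] at h7
            exact h7.1 (hl _ h7.2 e' (cp_eq hb)).1
          · omega
      intro a ha b hb haB hbA hab
      rcases hb with hb | ⟨b₀, rfl, h7, h8⟩
      · exact hk a ha b hb hab
      · by_cases h9 : -K < b₀ ∧ b₀ < K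
        · obtain ⟨c', b', rfl, h10⟩ := nb_mid hKD h9.1 h9.2 hab
          rcases h10 with ⟨rfl, h10⟩ | ⟨rfl, h10⟩
          · exact haB (Or.inr (hCm b' (by omega) (by omega)))
          · rcases ha with ⟨B, h11, h12⟩ | ⟨s', c, b'', h11, h12, _, _⟩
            · rw [Finset.mem_erase] at h11
              obtain ⟨p, hp1, _, rfl⟩ := h.nf B h11.2
              have h13 : b' ≤ -K ∨ K ≤ b' := Cp.out hp1 h12
              omega
            · simp only [Sum.inr.injEq, Prod.mk.injEq] at h11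
              obtain ⟨h13, h14, _⟩ := h11
              rw [← h13, ← h14, Finset.mem_erase] at h12
              obtain ⟨h15, h16, _⟩ := h.f _ h12.2
              rcases h10 with h10 | h10
              · exact hA1 x.1 x.2 c' ⟨by omega, hxu, h15, fun k hk hk' => by omega⟩ hx1 h16
              · exact hA1 x.1 c' x.2 ⟨by omega, h15, hxu, fun k hk hk' => by omega⟩ h16 hx1
        · obtain ⟨e', he'⟩ := pt_of (V := V) (s := x.1) (c := x.2) (K := K) (b := b₀)
            (by omega) h7 h8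
          rw [he'] at hbA hab
          by_cases h10 : (pt K x.1 x.2 e' : HV V σ) ∈ κ
          · exact hk a ha _ h10 hab
          · rw [hpt' e' h10] at hbA
            exact hbA hnW)
    hU
  rw [cut_cut hWW, cut_cut hCW] at h5
  rcases h5 with h5 | h5
  · exact Or.inl h5
  · right
    have e3 : κ ∩ C = {pt K x.1 x.2 e} := by
      ext w
      constructor
      · rintro ⟨h6, b, rfl, h7, h8⟩
        have h9 : b ≤ -K ∨ K ≤ b := hκo _ h6
        obtain ⟨e', he'⟩ := pt_of (V := V) (s := x.1) (c := x.2) h9 h7 h8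
        rw [he'] at h6 ⊢
        have : e' = e := by
          by_contra h10
          have h11 : e' = !e := bool_not h10
          rw [h11] at h6
          exact hpn h6
        rw [this]
        rfl
      · rintro rfl
        exact ⟨hpκ, hCp e⟩
    have h6 := hB.modu D (cut (wc K g us) y (κ ∪ C)) y κ C (by omega) hDN
      (hok.cut hUf hκCco) (cut_set hUf) hκco hCc
      (by rw [e3]; exact Set.singleton_nonempty _) (by rw [e3]; exact hsing _)
      (by
        rintro a ha b ⟨b₀, rfl, h7, h8⟩ haC hbκ hab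
        by_cases h9 : -K < b₀ ∧ b₀ < K
        · obtain ⟨c', b', rfl, h10⟩ := nb_mid hKD h9.1 h9.2 hab
          have h11 : b' ≤ -K ∨ K ≤ b' := hκo _ ha
          rcases h10 with ⟨rfl, h10⟩ | ⟨rfl, _⟩
          · exact haC (hCm b' (by omega) (by omega))
          · omega
        · obtain ⟨e', he'⟩ := pt_of (V := V) (s := x.1) (c := x.2) (K := K) (b := b₀)
            (by omega) h7 h8
          rw [he'] at hbκ hab
          exact hbκ (Cp.step ha ⟨hκo a ha, pt_out, hab, hκc a ha, hxe e'⟩))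
      h5
    rw [cut_cut Set.subset_union_left, cut_cut Set.subset_union_right] at h6
    rcases h6 with h6 | h6
    · exact h6
    · exfalso
      have hCf : ∀ w ∈ C, wc K g us w = some y := fun w hw => hUf w (Or.inr hw)
      refine hB.page D _ y x.1 (by omega) hDN (hok.cut hCf hCc) h6 ?_
      intro w hw
      obtain ⟨b, rfl, _⟩ := (cut_eq hCf).1 hw
      exact ⟨x.2, b, rfl⟩

/-- **(CYC)** In an acyclic class some connector is unbalanced. -/
theorem cyc [Finite σ] (hB : Jnt H N U)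
    (h4 : ∀ a b c d, G.Adj a b → G.Adj b c → G.Adj c d → G.Adj d a → a = c ∨ b = d)
    (hS : State G H D K g us) (hK : 2 * us.ncard + 4 ≤ K) (hKD : K ≤ D) (hDN : D ≤ N)
    (hA1 : ∀ s i j, Cons us s i j → g (pt K s i false) = some y → g (pt K s j false) ≠ some y)
    (n : ℕ) : ∀ (Nf : Finset (Set (HV V σ))) (F : Finset (σ × ℕ)), Nf.card = n →
      Sub H D K g us y Nf F → F.card + 1 ≤ Nf.card → U D (cut (wc K g us) y (Wp K Nf F)) →
      ∃ B ∈ Nf, U D (cut (wc K g us) y B) := by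
  classical
  induction n with
  | zero =>
    intro Nf F h1 _ h3
    omega
  | succ n ih =>
    intro Nf F h1 h2 h3 h5
    by_cases hn : 2 ≤ Nf.card
    · obtain ⟨x, hx, e, hl⟩ := h2.leaf h3 hn
      rcases leaf_step hB h4 hS hK hKD hDN hA1 h2 hx hl h5 with h6 | h6
      · obtain ⟨B, hB', h7⟩ := ih _ _ (by
          rw [Finset.card_erase_of_mem (h2.en x hx e)]
          omega) (h2.erase hx hl) (by
          rw [Finset.card_erase_of_mem (h2.en x hx e), Finset.card_erase_of_mem hx]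
          have := Finset.card_pos.2 ⟨x, hx⟩
          omega) h6
        exact ⟨B, Finset.mem_of_mem_erase hB', h7⟩
      · exact ⟨_, h2.en x hx e, h6⟩
    · obtain ⟨B, hB'⟩ := Finset.card_pos.1 (show 0 < Nf.card by omega)
      have hF0 : F = ∅ := Finset.card_eq_zero.1 (by omega)
      have hN1 : ∀ B' ∈ Nf, B' = B := fun B' h6 => Finset.card_le_one.1 (by omega) B' h6 B hB'
      have e1 : Wp K Nf F = B := by
        ext w
        constructor
        · rintro (⟨B', h6, h7⟩ | ⟨s, c, b, _, h6, _⟩)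
          · rw [← hN1 B' h6]
            exact h7
          · rw [hF0] at h6
            exact absurd h6 (Finset.notMem_empty _)
        · intro h6
          exact Or.inl ⟨B, hB', h6⟩
      rw [e1] at h5
      exact ⟨B, hB', h5⟩

end

end Mdj
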