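import Pool.Agent.EN.ULeaf

/-!
# (A2) with unbalanced classes; the initial state
-/

open Relation

namespace Mdu

open Mdl

variable {V σ X : Type*}

section

variable {G : SimpleGraph X} {H : Host V σ} {N D K : ℤ} {U : ℤ → Set (HV V σ) → Prop}
  {g f : HV V σ → Option X} {us : Set (σ × ℕ)} {h : σ → ℕ → ℤ} {x y z : X}

lemma rs_ne (hB : Bal H N U) {s : σ} {i : ℕ} (hU : U D (Rs H D K g us s i y)) :
    (Rs H D K g us s i y).Nonempty := by
  rw [Set.nonempty_iff_ne_empty]
  intro h0
  rw [h0] at hU
  exact hB.ne D hU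

/-- **(A2)**, no contact. -/
theorem UState.leaf0 [Finite σ] (hB : Bal H N U) (hgd : ∀ v, H.gd v)
    (h4 : ∀ a b c d, G.Adj a b → G.Adj b c → G.Adj c d → G.Adj d a → a = c ∨ b = d)
    (hS : UState G H U D K g us) (hK : 2 * us.ncard + 4 ≤ K) (hKD : K ≤ D) (hDN : D ≤ N)
    {s : σ} {i : ℕ}
    (hi : (s, i) ∈ us) (hone : One H D K g us s i y)
    (h1 : g (Sum.inr (s, i, -K)) = some y) (hU : U D (Rs H D K g us s i y))
    (hct : ∀ z, G.Adj y z → Ein K g us y z ∨ ∃ u v, u ∉ Cp H D K g y (Sum.inr (s, i, -K)) ∧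
      Out K u ∧ Out K v ∧ H.Adj D u v ∧ g u = some y ∧ g v = some z) :
    ∃ f', UModel G H U D f' ∧ mm f' < us.ncard := by
  classical
  have h2 := rs_full' hS.st hone h1 (rs_ne hB hU)
  have hil := hS.st.lt hi
  obtain ⟨h, hh, hh0, hst⟩ := exists_hts h4 hS.st hK s i
    (fun s' j' => if s' = s ∧ j' = i then some (-2) else
      if s' = s ∧ Cons us s i j' then some 2 else none) (by
      intro s' i' j' x hc hx
      split_ifs at hx with h5 h6
      · rw [Option.some.injEq] at hx
        subst hx
        obtain ⟨rfl, rfl⟩ := h5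
        refine ⟨by norm_num, fun h3 => rfl, fun h3 => ?_⟩
        exfalso
        obtain ⟨a, a', b, b', _, _, h6, h7, _, _, h8, _, _⟩ := h3
        rw [h1, Option.some.injEq] at h6
        rw [h2, Option.some.injEq] at h7
        exact h8 (h6.symm.trans h7)
      · rw [Option.some.injEq] at hx
        subst hx
        obtain ⟨rfl, h6⟩ := h6
        have h7 := h6.uniq hc
        subst h7
        refine ⟨by norm_num, fun h3 => ?_, fun h3 => rfl⟩
        exfalso
        obtain ⟨a, a', b, b', h6, h7, _, _, _, h8, _, _, _⟩ := h3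
        rw [h1, Option.some.injEq] at h6
        rw [h2, Option.some.injEq] at h7
        exact h8 (h6.symm.trans h7))
  have hprev : ∀ j, Cons us s j i → h s j = 2 := by
    intro j hj
    have := hst s j i (-2) hj (if_pos ⟨rfl, rfl⟩)
    omega
  have hnext : ∀ j, Cons us s i j → h s j = 2 := by
    intro j hj
    have := hst s i j 2 hj (by
      rw [if_neg, if_pos ⟨rfl, hj⟩]
      rintro ⟨_, h5⟩
      have := hj.1
      omega)
    omega
  have he : Exc H K g us h (del (rz H K g us h) (Sum.inr (s, i, 0))) := exc_del hi hh0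
  have hlo : ∀ s i, (s, i) ∈ us → -K < h s i := fun s i hi => by have := hh.lo s i hi; omega
  have hhi : ∀ s i, (s, i) ∈ us → h s i ≤ K := fun s i hi => by have := hh.hi s i hi; omega
  have hK1 : 4 ≤ K := by omega
  have hcon : ∀ p, Out K p → g p = some y → p ∉ Cp H D K g y (Sum.inr (s, i, -K)) →
      Cn H D (del (rz H K g us h) (Sum.inr (s, i, 0))) y (Sum.inr (s, i, K)) p := by
    intro p hp hgp hpk
    exact St'.lift hS.st hh (by omega) hKD hi hh0
      ((leaf_split hone (hone s i hi).2 (hS.st.con y _ p out_right hp h2 hgp)).1 hpk)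
  have page : ∀ s' c k b, lu us s' c = some k → -K < b → b < K →
      rz H K g us h (Sum.inr (s', c, b)) = some y →
      ((s', k) ≠ (s, i) ∨ 0 < b) →
      Cn H D (del (rz H K g us h) (Sum.inr (s, i, 0))) y (Sum.inr (s, i, K))
        (Sum.inr (s', c, b)) := by
    intro s' c k b hl hb1 hb2 hr hne
    have hne' : (Sum.inr (s', c, b) : HV V σ) ≠ Sum.inr (s, i, 0) := by
      intro h5
      simp only [Sum.inr.injEq, Prod.mk.injEq] at h5
      rcases hne with h6 | h6
      · rw [h5.1, h5.2.1, lu_used hi, Option.some.injEq] at hl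
        exact h6 (by rw [h5.1, hl])
      · omega
    obtain ⟨k', h5, h6, _, h7⟩ := he.rep hKD hlo hhi hb1 hb2 c (by rw [del_ne hne']; exact hr)
      (del_ne hne')
    rw [hl, Option.some.injEq] at h5
    subst h5
    rcases h7 with ⟨h8, h9, h10⟩ | ⟨_, h9, h10⟩
    · have hne2 : (s', k) ≠ (s, i) := by
        rcases hne with h11 | h11
        · exact h11
        · intro h12
          obtain ⟨rfl, rfl⟩ := Prod.mk.inj h12
          omega
      exact (hcon _ out_left h9 (fun h11 => hne2 ((hone s' k h6).1 h11))).trans h10.symm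
    · exact (hcon _ out_right h9 (hone s' k h6).2).trans h10.symm
  have kiss : ∀ z, G.Adj y z → ∀ s' k, (s', k) ∈ us →
      ((g (Sum.inr (s', k, -K)) = some y ∧ g (Sum.inr (s', k, K)) = some z) ∨
        (g (Sum.inr (s', k, -K)) = some z ∧ g (Sum.inr (s', k, K)) = some y)) →
      ∃ v w, Cn H D (del (rz H K g us h) (Sum.inr (s, i, 0))) y (Sum.inr (s, i, K)) v ∧
        H.Adj D v w ∧ rz H K g us h w = some z := by
    intro z hyz s' k hk h5
    have hsk : (s', k) ≠ (s, i) := by
      intro h6
      obtain ⟨rfl, rfl⟩ := Prod.mk.inj h6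
      rcases h5 with ⟨_, h7⟩ | ⟨h7, _⟩
      · rw [h2, Option.some.injEq] at h7
        exact hyz.ne h7
      · rw [h1, Option.some.injEq] at h7
        exact hyz.ne h7
    have h6 := hh.lo s' k hk
    have h7 := hh.hi s' k hk
    rcases h5 with ⟨h5, h5'⟩ | ⟨h5, h5'⟩
    · obtain ⟨h8, h9, h10⟩ := edge_kiss hS.st hh hKD hk h5 h5'
      exact ⟨_, _, page s' k k _ (lu_used hk) (by omega) (by omega) h9 (Or.inl hsk), h8, h10⟩
    · obtain ⟨h8, h9, h10⟩ := edge_kiss hS.st hh hKD hk h5 h5'
      exact ⟨_, _, page s' k k _ (lu_used hk) (by omega) (by omega) h10 (Or.inl hsk),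
        h8.symm, h9⟩
  have hmod := hS.model hB hh (by omega) hKD hDN
  have hsub : {w | del (rz H K g us h) (Sum.inr (s, i, 0)) w = some y} ⊆
      {w | rz H K g us h w = some y ∧ w ≠ Sum.inr (s, i, 0)} := by
    intro w hw
    have hw' : del (rz H K g us h) (Sum.inr (s, i, 0)) w = some y := hw
    rcases eq_or_ne w (Sum.inr (s, i, 0)) with h5 | h5
    · rw [h5, del_self] at hw'
      exact absurd hw' (by simp)
    · rw [del_ne h5] at hw'
      exact ⟨hw', h5⟩
  have hbase : del (rz H K g us h) (Sum.inr (s, i, 0)) (Sum.inr (s, i, K)) = some y := by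
    rw [del_ne, rz_out out_right]
    · exact h2
    · intro h5
      simp only [Sum.inr.injEq, Prod.mk.injEq] at h5
      omega
  set Q : Set (HV V σ) := {w | Pa H D {w | del (rz H K g us h) (Sum.inr (s, i, 0)) w = some y}
    (Sum.inr (s, i, K)) w} with hQ
  have hQcl : ∀ w ∈ Q, rz H K g us h w = some y ∧ w ≠ Sum.inr (s, i, 0) := by
    intro w hw
    exact hsub (Pa.mem hw hbase)
  rw [← mm_rz hS.st (h := h) (by omega)]
  refine hmod.drop hB hgd (by omega) hDN (s := s) (c := i) (y := y) ?_ Q hQcl (Co.comp _) ?_ ?_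
  · rw [rz_right hi hil (hlo _ _ hi) (by omega) (by omega)]
    exact h2
  · -- imbalance
    refine hB.mono D (Rs H D K g us s i y) Q (by omega) hDN ?_ ?_ ?_ (rs_ne hB hU)
      (Co.comp _) hU
    · intro a b c hw
      exact Model.rg hmod.mod y a b c (hQcl _ hw).1
    · rintro w ⟨⟨h5, h6⟩ | ⟨s', c, b, rfl, h5, h6, h7, h8, h9⟩, h10⟩
      · exact Pa.of_cn (hcon w h5 h6 h10)
      · have h11 : (s', c) ≠ (s, i) := fun h12 => h5.2 (by rw [h12]; rfl)
        refine Pa.of_cn (page s' c c b (lu_used h5.1) h8 h9 ?_ (Or.inl h11))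
        exact wst_rz hS.st hh (wst_col h5.1 h6 h7 h8.le h9.le)
    · exact (Model.fin' hmod.mod y).subset (fun w hw => (hQcl w hw).1)
  · intro z hyz
    suffices hs : ∃ v w, Cn H D (del (rz H K g us h) (Sum.inr (s, i, 0))) y
        (Sum.inr (s, i, K)) v ∧ H.Adj D v w ∧ rz H K g us h w = some z by
      obtain ⟨v, w, h5, h6, h7⟩ := hs
      exact ⟨v, w, Pa.of_cn h5, h6, h7⟩
    rcases hct z hyz with h5 | ⟨u, v, h5, h6, h7, h8, h9, h10⟩
    · obtain ⟨s', i', j', h5 | h5 | h5, h6, h7⟩ := h5
      · subst h5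
        apply kiss z hyz s' i' h6.1
        rcases h6.2 with h8 | h8
        · rcases h7.2 with h9 | h9
          · rw [h8, Option.some.injEq] at h9
            exact absurd h9 hyz.ne
          · exact Or.inl ⟨h8, h9⟩
        · rcases h7.2 with h9 | h9
          · exact Or.inr ⟨h9, h8⟩
          · rw [h8, Option.some.injEq] at h9
            exact absurd h9 hyz.ne
      · by_cases hsi : (s', i') = (s, i)
        · obtain ⟨rfl, rfl⟩ := Prod.mk.inj hsi
          obtain ⟨c, hjc, hl⟩ := h5.lu
          have hjl := hS.st.lt h7.1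
          have hhj := hnext j' h5
          have hj2 := hh.hi s' j' h7.1
          subst hjc
          rcases h7.2 with h8 | h8
          · have e1 : rz H K g us h (Sum.inr (s', c, 1)) = some y := by
              rw [rz_hi (by omega) (by omega) (by omega) (Or.inl (by omega)) hl (by omega)]
              exact h2
            refine ⟨_, _, page s' c i' 1 hl (by omega) (by omega) e1 (Or.inr (by omega)),
              Host.hor hjl (by omega) (by omega) (by omega), ?_⟩
            rw [rz_lo (by omega) (by omega) hjl (Or.inr h7.1) (lu_used h7.1) (by omega)]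
            exact h8
          · have e1 : rz H K g us h (Sum.inr (s', c, K - 1)) = some y := by
              rw [rz_hi (by omega) (by omega) (by omega) (Or.inl (by omega)) hl (by omega)]
              exact h2
            refine ⟨_, _, page s' c i' (K - 1) hl (by omega) (by omega) e1 (Or.inr (by omega)),
              Host.hor hjl (by omega) (by omega) (by omega), ?_⟩
            rw [rz_hi (by omega) (by omega) hjl (Or.inr h7.1) (lu_used h7.1) (by omega)]
            exact h8
        · rcases edge_cons hS.st hh (by omega) h5 h6 h7 hyz with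
            ⟨c, b, rfl, hl, h8, h9, h10, h11, h12⟩ | h8
          · exact ⟨_, _, page s' c i' b hl h9 h10 h11 (Or.inl hsi),
              Host.hor (hS.st.lt h7.1) (by omega) (by omega) h8, h12⟩
          · obtain ⟨k, _, h8, h9⟩ := h8
            exact kiss z hyz s' k h8 h9
      · by_cases hsi : (s', i') = (s, i)
        · obtain ⟨rfl, rfl⟩ := Prod.mk.inj hsi
          obtain ⟨c, hjc, hl⟩ := h5.lu
          have hhj := hprev j' h5
          have hj2 := hh.hi s' j' h7.1
          subst hjc
          rcases h7.2 with h8 | h8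
          · have e1 : rz H K g us h (Sum.inr (s', c + 1, 1)) = some y := by
              rw [rz_right hi hil (hlo _ _ hi) (by omega) (by omega)]
              exact h2
            refine ⟨_, _, page s' (c + 1) (c + 1) 1 (lu_used hi) (by omega) (by omega) e1
              (Or.inr (by omega)),
              (Host.hor hil (by omega) (by omega) (by omega)).symm, ?_⟩
            rw [rz_lo (by omega) (by omega) (by omega) (Or.inl (by omega)) hl (by omega)]
            exact h8
          · have e1 : rz H K g us h (Sum.inr (s', c + 1, K - 1)) = some y := by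
              rw [rz_right hi hil (hlo _ _ hi) (by omega) (by omega)]
              exact h2
            refine ⟨_, _, page s' (c + 1) (c + 1) (K - 1) (lu_used hi) (by omega) (by omega) e1
              (Or.inr (by omega)),
              (Host.hor hil (by omega) (by omega) (by omega)).symm, ?_⟩
            rw [rz_hi (by omega) (by omega) (by omega) (Or.inl (by omega)) hl (by omega)]
            exact h8
        · rcases edge_cons hS.st hh (by omega) h5 h7 h6 hyz.symm with
            ⟨c, b, rfl, hl, h8, h9, h10, h11, h12⟩ | h8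
          · exact ⟨_, _, page s' (c + 1) (c + 1) b (lu_used h6.1) h9 h10 h12 (Or.inl hsi),
              (Host.hor (hS.st.lt h6.1) (by omega) (by omega) h8).symm, h11⟩
          · obtain ⟨k, _, h8, h9⟩ := h8
            exact kiss z hyz s' k h8 h9.symm
    · exact ⟨u, v, hcon u h6 h9 h5, h8, by rw [rz_out h7]; exact h10⟩

/-- **(A2)**, one contact. -/
theorem UState.leaf1 [Finite σ] [Finite X] (hB : Bal H N U) (hgd : ∀ v, H.gd v)
    (h4 : ∀ a b c d, G.Adj a b → G.Adj b c → G.Adj c d → G.Adj d a → a = c ∨ b = d)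
    (hS : UState G H U D K g us) (hK : 2 * us.ncard + 4 ≤ K) (hKD : K ≤ D) (hDN : D ≤ N)
    {s : σ} {i : ℕ}
    (hi : (s, i) ∈ us) (hone : One H D K g us s i y)
    (h1 : g (Sum.inr (s, i, -K)) = some y) (hU : U D (Rs H D K g us s i y))
    (hyx : G.Adj y x) (hE : ¬ Ein K g us y x) {p q : HV V σ}
    (hp : p ∈ Cp H D K g y (Sum.inr (s, i, -K))) (hq : Out K q) (hpq : H.Adj D p q)
    (hgq : g q = some x)
    (hct : ∀ z, z ≠ x → G.Adj y z → Ein K g us y z ∨ ∃ u v,
      u ∉ Cp H D K g y (Sum.inr (s, i, -K)) ∧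
      Out K u ∧ Out K v ∧ H.Adj D u v ∧ g u = some y ∧ g v = some z) :
    ∃ g', UState G H U D K g' us ∧ cc G K g' us < cc G K g us := by
  classical
  have h2 := rs_full' hS.st hone h1 (rs_ne hB hU)
  have hK1 : 4 ≤ K := by omega
  have hwf := wst_fin (y := y) hS.st (by omega) hKD h4 hK
  have hWf : Rg H D (Wst K g us y) := wst_rg hS.st hKD
  have hRW : Rs H D K g us s i y ⊆ Wst K g us y := fun w hw => wst_diff_sub hw.1
  have hRc : Co H D (Rs H D K g us s i y) :=
    Co.of (rs_base hS.st (by omega) hKD hone hi h2)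
  obtain ⟨v₀, hv₀⟩ := hB.inl (by omega) hDN (fun a b c hh => hWf a b c (hRW hh))
    (hwf.subset hRW) hRc hU
  have hv₁ : g (Sum.inl v₀) = some y := by
    rcases hv₀.1 with ⟨_, h5⟩ | ⟨s', c, b, h5, _⟩
    · exact h5
    · simp at h5
  obtain ⟨h5, h6⟩ := hS.st.leaf1 hi hone h1 hv₁ (hgd v₀) hv₀.2 hyx hE hp hq hpq hgq hct
  set κ := Cp H D K g y (Sum.inr (s, i, -K)) with hκ
  set g' := rcl g κ x with hg'
  have hκc : ∀ w ∈ κ, g w = some y := fun w hw => Cp.col h1 hw
  have hin : ∀ w ∈ κ, g' w = some x := fun w hw => rcl_in hw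
  have hout : ∀ w, w ∉ κ → g' w = g w := fun w hw => rcl_out hw
  have hxy : x ≠ y := hyx.ne'
  have hcol : ∀ w z, z ≠ y → g w = some z → g' w = some z := by
    intro w z hz hw
    rw [hout w]
    · exact hw
    · intro hwk
      rw [hκc w hwk, Option.some.injEq] at hw
      exact hz hw.symm
  refine ⟨g', ⟨h5, ?_⟩, h6⟩
  intro a
  by_cases hay : a = y
  · -- the class of `y`
    rw [hay]
    have e : Wst K g' us y = Rs H D K g us s i y := by
      ext w
      constructor
      · rintro (⟨h7, h8⟩ | ⟨s', c, b, rfl, h7, h8, h9, h10, h11⟩)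
        · have hwk : w ∉ κ := by
            intro hwk
            rw [hin w hwk, Option.some.injEq] at h8
            exact hxy h8
          rw [hout w hwk] at h8
          exact rs_out h7 h8 hwk
        · have hne : (s', c) ≠ (s, i) := by
            intro h12
            obtain ⟨rfl, rfl⟩ := Prod.mk.inj h12
            have h13 : g' (Sum.inr (s', c, -K)) = some x := hin _ ReflTransGen.refl
            have h14 : g' (Sum.inr (s', c, -K)) = some y := h8
            rw [h13, Option.some.injEq] at h14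
            exact hxy h14
          have h12 : (pt K s' c false : HV V σ) ∉ κ := fun h13 => hne ((hone s' c h7).1 h13)
          have h13 : (pt K s' c true : HV V σ) ∉ κ := (hone s' c h7).2
          rw [hout _ h12] at h8
          rw [hout _ h13] at h9
          exact rs_col hone h7 hne h8 h9 h10.le h11.le
      · rintro ⟨⟨h7, h8⟩ | ⟨s', c, b, rfl, h7, h8, h9, h10, h11⟩, h12⟩
        · exact Or.inl ⟨h7, by rw [hout w h12]; exact h8⟩
        · have hne : (s', c) ≠ (s, i) := fun h13 => h7.2 (by rw [h13]; rfl)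
          have h13 : (pt K s' c false : HV V σ) ∉ κ := fun h14 => hne ((hone s' c h7.1).1 h14)
          have h14 : (pt K s' c true : HV V σ) ∉ κ := (hone s' c h7.1).2
          refine Or.inr ⟨s', c, b, rfl, h7.1, ?_, ?_, h10, h11⟩
          · rw [hout _ h13]; exact h8
          · rw [hout _ h14]; exact h9
    rw [e]
    exact hU
  · -- the other classes
    have hsub : Wst K g us a ⊆ Wst K g' us a := by
      rintro w (⟨h7, h8⟩ | ⟨s', c, b, rfl, h7, h8, h9, h10, h11⟩)
      · exact Or.inl ⟨h7, hcol w a hay h8⟩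
      · exact Or.inr ⟨s', c, b, rfl, h7, hcol _ a hay h8, hcol _ a hay h9, h10, h11⟩
    exact hB.mono D _ _ (by omega) hDN (wst_rg h5 hKD) hsub
      (wst_fin h5 (by omega) hKD h4 hK) (wst_ne hS.st.gnd) (wst_co h5 (by omega) hKD) (hS.unb a)

/-! ### The initial state -/

/-- Neighbouring used columns of a minimal straight model have different colours. -/
theorem UModel.dif (hB : Bal H N U) (hgd : ∀ v, H.gd v) (hf : UModel G H U D f) (hK : 0 < K)
    (hKD : K ≤ D) (hDN : D ≤ N)
    (hst : ∀ s c (b : ℤ), -K ≤ b → b ≤ K → f (Sum.inr (s, c, b)) = f (Sum.inr (s, c, 0)))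
    (hmin : ∀ f', UModel G H U D f' → mm f ≤ mm f') :
    ∀ s c y, c + 1 < H.len s → f (Sum.inr (s, c, 0)) = some y →
      f (Sum.inr (s, c + 1, 0)) ≠ some y := by
  intro s c y hc h1 h2
  set u : HV V σ := Sum.inr (s, c + 1, 0) with hu
  have hcol1 : ∀ b : ℤ, -1 ≤ b → b ≤ 1 → f (Sum.inr (s, c, b)) = some y := by
    intro b h3 h4
    rw [hst s c b (by omega) (by omega)]
    exact h1
  have hcol2 : ∀ b : ℤ, -1 ≤ b → b ≤ 1 → f (Sum.inr (s, c + 1, b)) = some y := by
    intro b h3 h4
    rw [hst s (c + 1) b (by omega) (by omega)]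
    exact h2
  have hne : ∀ b : ℤ, b ≠ 0 → (Sum.inr (s, c + 1, b) : HV V σ) ≠ u := by
    intro b hb h3
    simp only [hu, Sum.inr.injEq, Prod.mk.injEq] at h3
    exact hb h3.2.2
  have hne' : ∀ b : ℤ, (Sum.inr (s, c, b) : HV V σ) ≠ u := by
    intro b h3
    simp only [hu, Sum.inr.injEq, Prod.mk.injEq] at h3
    omega
  -- the page set
  set Q : Set (HV V σ) := {w | ∃ (c' : ℕ) (b : ℤ), w = Sum.inr (s, c', b) ∧
    (c' = c ∨ c' = c + 1) ∧ -1 ≤ b ∧ b ≤ 1} with hQ
  have hQ1 : ∀ b : ℤ, -1 ≤ b → b ≤ 1 → (Sum.inr (s, c, b) : HV V σ) ∈ Q :=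
    fun b h3 h4 => ⟨c, b, rfl, Or.inl rfl, h3, h4⟩
  have hQ2 : ∀ b : ℤ, -1 ≤ b → b ≤ 1 → (Sum.inr (s, c + 1, b) : HV V σ) ∈ Q :=
    fun b h3 h4 => ⟨c + 1, b, rfl, Or.inr rfl, h3, h4⟩
  have hbase : ∀ w ∈ Q, w ≠ u → Pa H D {w | w ∈ Q ∧ w ≠ u} (Sum.inr (s, c, 0)) w := by
    have hv : ∀ b : ℤ, -1 ≤ b → b ≤ 1 →
        Pa H D {w | w ∈ Q ∧ w ≠ u} (Sum.inr (s, c, 0)) (Sum.inr (s, c, b)) := by
      intro b h3 h4
      rcases le_or_gt 0 b with h5 | h5
      · refine Pa.vert (by omega) (by omega) (by omega) h5 ?_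
        intro b' h6 h7
        exact ⟨hQ1 b' (by omega) (by omega), hne' b'⟩
      · refine (Pa.vert (by omega) (by omega) (by omega) h5.le ?_).symm
        intro b' h6 h7
        exact ⟨hQ1 b' (by omega) (by omega), hne' b'⟩
    rintro w ⟨c', b, rfl, rfl | rfl, h3, h4⟩ hwu
    · exact hv b h3 h4
    · have hb : b ≠ 0 := by
        intro hb
        apply hwu
        rw [hb]
      refine (hv b h3 h4).trans (Pa.one (Host.hor hc (by omega) (by omega) hb) ?_ ?_)
      · exact ⟨hQ1 b h3 h4, hne' b⟩
      · exact ⟨hQ2 b h3 h4, hne b hb⟩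
  have hQf : ∀ w ∈ Q, f w = some y := by
    rintro w ⟨c', b, rfl, rfl | rfl, h3, h4⟩
    · exact hcol1 b h3 h4
    · exact hcol2 b h3 h4
  -- the class without `u`
  have hdet : Pa H D {w | f w = some y ∧ w ≠ u} (Sum.inr (s, c + 1, -1))
      (Sum.inr (s, c + 1, 1)) := by
    have hsub : {w | w ∈ Q ∧ w ≠ u} ⊆ {w | f w = some y ∧ w ≠ u} :=
      fun w hw => ⟨hQf w hw.1, hw.2⟩
    exact ((hbase _ (hQ2 (-1) (by omega) (by omega)) (hne _ (by omega))).symm.trans
      (hbase _ (hQ2 1 (by omega) (by omega)) (hne _ (by omega)))).mono hsub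
  have hlift : ∀ v₀, f v₀ = some y → v₀ ≠ u → ∀ w, Cn H D f y v₀ w →
      (w ≠ u → Pa H D {w | f w = some y ∧ w ≠ u} v₀ w) ∧
      (w = u → Pa H D {w | f w = some y ∧ w ≠ u} v₀ (Sum.inr (s, c + 1, 1))) := by
    intro v₀ _ hv₀ w hw
    unfold Cn at hw
    induction hw with
    | refl => exact ⟨fun _ => ReflTransGen.refl, fun h3 => absurd h3 hv₀⟩
    | tail _ hbc ih =>
      rename_i b d _
      by_cases hb : b = u
      · have h3 := ih.2 hb
        refine ⟨fun hd => ?_, fun _ => h3⟩
        have h4 : H.Adj D d u := by rw [← hb]; exact hbc.1.symm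
        rcases nb0 (by omega) h4 with rfl | rfl
        · exact h3.trans hdet.symm
        · exact h3
      · have h3 := ih.1 hb
        refine ⟨fun hd => ?_, fun hd => ?_⟩
        · exact h3.trans (Pa.one hbc.1 ⟨hbc.2.1, hb⟩ ⟨hbc.2.2, hd⟩)
        · have h4 : H.Adj D b u := by rw [← hd]; exact hbc.1
          rcases nb0 (by omega) h4 with rfl | rfl
          · exact h3.trans hdet
          · exact h3
  have hCo : Co H D {w | f w = some y ∧ w ≠ u} := by
    intro a ha b hb
    exact (hlift a ha.1 ha.2 b (hf.mod.con y a b ha.1 hb.1)).1 hb.2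
  have hUd : U D {w | f w = some y ∧ w ≠ u} := by
    refine hf.unb_del hB (by omega) hDN (s := s) hCo Q (hQ2 0 (by omega) (by omega)) hQf ?_ ?_
      ?_ ⟨_, hQ1 0 (by omega) (by omega), hne' 0⟩ ?_
    · rintro w ⟨c', b, rfl, _⟩
      exact ⟨c', b, rfl⟩
    · apply Co.of (p := Sum.inr (s, c, 0))
      intro w hw
      by_cases hwu : w = u
      · rw [hwu]
        have h3 := hbase _ (hQ2 1 (by omega) (by omega)) (hne 1 (by omega))
        refine (h3.mono (fun w hw => hw.1)).trans ?_
        exact (Pa.one (Host.ver (b := 0) hc (by omega) (by omega))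
          (hQ2 0 (by omega) (by omega)) (hQ2 1 (by omega) (by omega))).symm
      · exact (hbase w hw hwu).mono (fun w hw => hw.1)
    · apply Co.of (p := Sum.inr (s, c, 0))
      intro w hw
      exact hbase w hw.1 hw.2
    · intro w _ hw
      rcases nb0 (by omega) hw with rfl | rfl
      · exact hQ2 (-1) (by omega) (by omega)
      · exact hQ2 1 (by omega) (by omega)
  obtain ⟨f', h3, h4⟩ := hf.drop hB hgd (by omega) hDN (s := s) (c := c + 1) (y := y) h2
    {w | f w = some y ∧ w ≠ u} (fun w hw => hw) hCo hUd (by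
    intro z hyz
    obtain ⟨v, w, h5, h6, h7⟩ := hf.mod.edg y z hyz
    refine ⟨v, w, ⟨h6, ?_⟩, h5, h7⟩
    intro h8
    rw [h8] at h5
    rcases nb0 (by omega) h5.symm with rfl | rfl
    · rw [hcol2 _ (by omega) (by omega), Option.some.injEq] at h7
      exact hyz.ne h7
    · rw [hcol2 _ (by omega) (by omega), Option.some.injEq] at h7
      exact hyz.ne h7)
  exact absurd h4 (not_lt.2 (hmin f' h3))

/-- A minimal straight model is a state. -/
theorem UModel.state (hB : Bal H N U) (hgd : ∀ v, H.gd v) (hf : UModel G H U D f) (hK : 0 < K)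
    (hKD : K ≤ D) (hDN : D ≤ N)
    (hst : ∀ s c (b : ℤ), -K ≤ b → b ≤ K → f (Sum.inr (s, c, b)) = f (Sum.inr (s, c, 0)))
    (hmin : ∀ f', UModel G H U D f' → mm f ≤ mm f') :
    UState G H U D K f {p : σ × ℕ | f (Sum.inr (p.1, p.2, 0)) ≠ none} where
  st := hf.mod.state' hK hKD hst (hf.dif hB hgd hK hKD hDN hst hmin)
  unb := by
    intro y
    have e : Wst K f {p : σ × ℕ | f (Sum.inr (p.1, p.2, 0)) ≠ none} y =
        {w | f w = some y} := by
      ext w
      constructor
      · rintro (⟨_, h2⟩ | ⟨s, c, b, rfl, _, h1, _, h3, h4⟩)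
        · exact h2
        · change f (Sum.inr (s, c, b)) = some y
          rw [hst s c b h3.le h4.le, ← hst s c (-K) (le_refl _) (by omega)]
          exact h1
      · intro hw
        have hw' : f w = some y := hw
        by_cases ho : Out K w
        · exact Or.inl ⟨ho, hw'⟩
        · rcases w with v | ⟨s, c, b⟩
          · exact absurd trivial ho
          · have hb : -K < b ∧ b < K := by
              by_contra hcon
              apply ho
              change b ≤ -K ∨ K ≤ b
              omega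
            have h0 : f (Sum.inr (s, c, 0)) = some y := by
              rw [← hst s c b hb.1.le hb.2.le]
              exact hw'
            refine Or.inr ⟨s, c, b, rfl, ?_, ?_, ?_, hb.1, hb.2⟩
            · change f (Sum.inr (s, c, 0)) ≠ none
              rw [h0]; simp
            · change f (Sum.inr (s, c, -K)) = some y
              rw [hst s c (-K) (le_refl _) (by omega)]
              exact h0
            · change f (Sum.inr (s, c, K)) = some y
              rw [hst s c K (by omega) (le_refl _)]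
              exact h0
    rw [e]
    exact hf.unb y

end

end Mdu
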