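import Pool.Agent.EN.JState
import Pool.Agent.EN.ULeaf2

/-!
# Leaves with jointly unbalanced classes; the initial state
-/

open Relation

namespace Mdj

open Mdl Mdu

variable {V σ X : Type*}

section

variable {G : SimpleGraph X} {H : Host V σ} {N D K : ℤ} {U : ℤ → (HV V σ → Option X) → Prop}
  {g f f' : HV V σ → Option X} {us : Set (σ × ℕ)} {h : σ → ℕ → ℤ} {x y z : X}

/-- Monotonicity of cuts. -/
lemma Jnt.up (hB : Jnt H N U) (hD : 0 ≤ D) (hDN : D ≤ N) (hok : Ok H D f')
    {A Q : Set (HV V σ)} (hQ : ∀ w ∈ Q, f' w = some y) (hc : Co H D Q) (hAQ : A ⊆ Q)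
    (hA : ∀ w ∈ A, f w = some y) (hle : ∀ w z, z ≠ y → f w = some z → f' w = some z)
    (hU : U D (cut f y A)) : U D (cut f' y Q) := by
  refine hB.mono D _ _ hD hDN (hok.cut hQ hc) ?_ hU
  intro w z hw
  by_cases hz : z = y
  · rw [hz] at hw ⊢
    rw [cut_eq hA] at hw
    rw [cut_eq hQ]
    exact hAQ hw
  · rw [cut_ne hz] at hw ⊢
    exact hle w z hz hw

lemma cut_id {A : Set (HV V σ)} (hA : ∀ w, f w = some y → w ∈ A) : cut f y A = f := by
  funext w
  unfold cut
  rw [if_neg]
  rintro ⟨h1, h2⟩
  exact h2 (hA w h1)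

/-- **Dichotomy**: a connector with one port is unbalanced or the rest of the class is. -/
theorem leaf_dich [Finite σ] (hB : Jnt H N U)
    (h4 : ∀ a b c d, G.Adj a b → G.Adj b c → G.Adj c d → G.Adj d a → a = c ∨ b = d)
    (hS : JState G H U D K g us) (hK : 2 * us.ncard + 4 ≤ K) (hKD : K ≤ D) (hDN : D ≤ N)
    (hA1 : ∀ s i j y, Cons us s i j → g (pt K s i false) = some y → g (pt K s j false) ≠ some y)
    {s : σ} {i : ℕ} (hi : (s, i) ∈ us) (hone : One H D K g us s i y)
    (h1 : g (Sum.inr (s, i, -K)) = some y) :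
    U D (cut (wc K g us) y (Rs H D K g us s i y)) ∨
      U D (cut (wc K g us) y (Cp H D K g y (Sum.inr (s, i, -K)))) := by
  have hS' := hS.st
  have hil := hS'.lt hi
  have hK0 : 4 ≤ K := by omega
  set κ := Cp H D K g y (Sum.inr (s, i, -K)) with hκ
  have hκo : ∀ w ∈ κ, Out K w := fun w hw => Cp.out out_left hw
  have hκc : ∀ w ∈ κ, g w = some y := fun w hw => Cp.col h1 hw
  have hp0 : (Sum.inr (s, i, -K) : HV V σ) ∈ κ := ReflTransGen.refl
  have hok := wc_ok hS' (by omega) hKD h4 hK
  have hWU := hS.unb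
  by_cases h2 : g (Sum.inr (s, i, K)) = some y
  · -- full column
    set C : Set (HV V σ) := {w | ∃ b : ℤ, w = Sum.inr (s, i, b) ∧ -K ≤ b ∧ b ≤ K} with hC
    have hCm : ∀ b : ℤ, -K ≤ b → b ≤ K → (Sum.inr (s, i, b) : HV V σ) ∈ C :=
      fun b h5 h6 => ⟨b, rfl, h5, h6⟩
    have hCW : C ⊆ Wst K g us y := by
      rintro w ⟨b, rfl, h5, h6⟩
      exact wst_col hi h1 h2 h5 h6
    have hκW : κ ⊆ Wst K g us y := fun w hw => wst_out (hκo w hw) (hκc w hw)
    have hRW : Rs H D K g us s i y ⊆ Wst K g us y := fun w hw => wst_diff_sub hw.1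
    have hCc : Co H D C := by
      apply Co.of (p := Sum.inr (s, i, -K))
      rintro w ⟨b, rfl, h5, h6⟩
      refine Pa.vert hil (by omega) (by omega) h5 ?_
      intro b' h7 h8
      exact hCm b' h7 (by omega)
    have hκco : Co H D κ := cp_co
    have hκCco : Co H D (κ ∪ C) := by
      apply Co.of (p := Sum.inr (s, i, -K))
      rintro w (hw | hw)
      · exact (hκco _ hp0 w hw).mono Set.subset_union_left
      · exact (hCc _ (hCm _ (by omega) (by omega)) w hw).mono Set.subset_union_right
    have hRc : Co H D (Rs H D K g us s i y) :=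
      Co.of (rs_base hS' (by omega) hKD hone hi h2)
    have hRn : (Sum.inr (s, i, K) : HV V σ) ∉ κ := (hone s i hi).2
    have hRm : (Sum.inr (s, i, K) : HV V σ) ∈ Rs H D K g us s i y := rs_out out_right h2 hRn
    have e1 : Rs H D K g us s i y ∪ (κ ∪ C) = Wst K g us y := by
      ext w
      constructor
      · rintro (hw | hw | hw)
        · exact hRW hw
        · exact hκW hw
        · exact hCW hw
      · intro hw
        by_cases hwk : w ∈ κ
        · exact Or.inr (Or.inl hwk)
        · rcases hw with ⟨h5, h6⟩ | ⟨s', c, b, rfl, h5, h6, h7, h8, h9⟩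
          · exact Or.inl (rs_out h5 h6 hwk)
          · by_cases h10 : (s', c) = (s, i)
            · obtain ⟨rfl, rfl⟩ := Prod.mk.inj h10
              exact Or.inr (Or.inr (hCm b h8.le h9.le))
            · exact Or.inl ⟨Or.inr ⟨s', c, b, rfl, ⟨h5, h10⟩, h6, h7, h8, h9⟩, hwk⟩
    have e2 : Rs H D K g us s i y ∩ (κ ∪ C) = {Sum.inr (s, i, K)} := by
      ext w
      constructor
      · rintro ⟨⟨h5, h6⟩, h7 | ⟨b, rfl, h7, h8⟩⟩
        · exact absurd h7 h6
        · rcases h5 with ⟨h5, _⟩ | ⟨s', c, b', h9, h10, _⟩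
          · have h5' : b ≤ -K ∨ K ≤ b := h5
            rcases h5' with h5' | h5'
            · have : b = -K := by omega
              rw [this] at h6
              exact absurd hp0 h6
            · have : b = K := by omega
              rw [this]
              rfl
          · simp only [Sum.inr.injEq, Prod.mk.injEq] at h9
            obtain ⟨rfl, rfl, _⟩ := h9
            exact absurd rfl h10.2
      · rintro rfl
        exact ⟨hRm, Or.inr (hCm K (by omega) (le_refl _))⟩
    have hsing : Co H D ({Sum.inr (s, i, K)} : Set (HV V σ)) := by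
      rintro u rfl v rfl
      exact ReflTransGen.refl
    have hκCf : ∀ w ∈ κ ∪ C, wc K g us w = some y :=
      fun w hw => wc_iff.2 (Set.union_subset hκW hCW hw)
    have h5 := hB.modu D (wc K g us) y (Rs H D K g us s i y) (κ ∪ C) (by omega) hDN hok
      (by rw [wc_set, e1]) hRc hκCco
      (by rw [e2]; exact Set.singleton_nonempty _) (by rw [e2]; exact hsing)
      (by
        intro a ha b hb haB hbA hab
        rcases hb with hb | ⟨b₀, rfl, h7, h8⟩
        · -- `b` in the connector
          rcases ha with ⟨⟨h7, h8⟩ | ⟨s', c, b', rfl, h9, h10, h11, h12, h13⟩, h6⟩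
          · exact h6 (Cp.step hb ⟨hκo b hb, h7, hab.symm, hκc b hb, h8⟩)
          · obtain ⟨c', b'', rfl, h14⟩ := nb_mid hKD h12 h13 hab.symm
            have h15 : b'' ≤ -K ∨ K ≤ b'' := hκo _ hb
            rcases h14 with ⟨rfl, h14⟩ | ⟨rfl, _⟩
            · rcases h15 with h15 | h15
              · have : b'' = -K := by omega
                rw [this] at hb
                exact h9.2 (by rw [(hone s' c' h9.1).1 hb]; rfl)
              · have : b'' = K := by omega
                rw [this] at hb
                exact (hone s' c' h9.1).2 hb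
            · omega
        · -- `b` in the column
          by_cases h9 : -K < b₀ ∧ b₀ < K
          · obtain ⟨c', b', rfl, h10⟩ := nb_mid hKD h9.1 h9.2 hab
            rcases h10 with ⟨rfl, h10⟩ | ⟨rfl, h10⟩
            · exact haB (Or.inr (hCm b' (by omega) (by omega)))
            · -- neighbouring column
              rcases ha with ⟨⟨h11, _⟩ | ⟨s', c, b'', h11, h12, h13, h14, _, _⟩, _⟩
              · have h11' : b' ≤ -K ∨ K ≤ b' := h11
                omega
              · simp only [Sum.inr.injEq, Prod.mk.injEq] at h11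
                obtain ⟨rfl, rfl, _⟩ := h11
                rcases h10 with rfl | h10
                · exact hA1 s i (i + 1) y ⟨by omega, hi, h12.1, fun k hk hk' => by omega⟩ h1 h13
                · subst h10
                  exact hA1 s c' (c' + 1) y ⟨by omega, h12.1, hi, fun k hk hk' => by omega⟩
                    h13 h1
          · rcases eq_or_lt_of_le h7 with h10 | h10
            · rw [← h10] at hab
              rcases ha with ⟨⟨h11, h12⟩ | ⟨s', c, b', rfl, h12, h13, h14, h15, h16⟩, h6⟩
              · exact h6 (Cp.step hp0 ⟨out_left, h11, hab.symm, h1, h12⟩)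
              · obtain ⟨c', b'', h17, h18⟩ := nb_mid hKD h15 h16 hab.symm
                simp only [Sum.inr.injEq, Prod.mk.injEq] at h17
                obtain ⟨rfl, rfl, rfl⟩ := h17
                rcases h18 with ⟨rfl, _⟩ | ⟨h18, _⟩
                · exact h12.2 rfl
                · omega
            · have : b₀ = K := by omega
              rw [this] at hbA
              exact hbA hRm)
      hWU
    rcases h5 with h5 | h5
    · exact Or.inl h5
    · right
      have e3 : κ ∩ C = {Sum.inr (s, i, -K)} := by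
        ext w
        constructor
        · rintro ⟨h6, b, rfl, h7, h8⟩
          have h9 : b ≤ -K ∨ K ≤ b := hκo _ h6
          rcases h9 with h9 | h9
          · have : b = -K := by omega
            rw [this]
            rfl
          · have : b = K := by omega
            rw [this] at h6
            exact absurd h6 hRn
        · rintro rfl
          exact ⟨hp0, hCm _ (le_refl _) (by omega)⟩
      have hsing' : Co H D ({Sum.inr (s, i, -K)} : Set (HV V σ)) := by
        rintro u rfl v rfl
        exact ReflTransGen.refl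
      have h6 := hB.modu D (cut (wc K g us) y (κ ∪ C)) y κ C (by omega) hDN
        (hok.cut hκCf hκCco) (cut_set hκCf) hκco hCc
        (by rw [e3]; exact Set.singleton_nonempty _) (by rw [e3]; exact hsing')
        (by
          rintro a ha b ⟨b₀, rfl, h7, h8⟩ haC hbκ hab
          by_cases h9 : -K < b₀ ∧ b₀ < K
          · obtain ⟨c', b', rfl, h10⟩ := nb_mid hKD h9.1 h9.2 hab
            have h11 : b' ≤ -K ∨ K ≤ b' := hκo _ ha
            rcases h10 with ⟨rfl, h10⟩ | ⟨rfl, _⟩
            · exact haC (hCm b' (by omega) (by omega))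
            · omega
          · rcases eq_or_lt_of_le h7 with h10 | h10
            · rw [← h10] at hbκ
              exact hbκ hp0
            · have : b₀ = K := by omega
              rw [this] at hab
              exact hRn (Cp.step ha ⟨hκo a ha, out_right, hab, hκc a ha, h2⟩))
        h5
      rw [cut_cut Set.subset_union_left, cut_cut Set.subset_union_right] at h6
      rcases h6 with h6 | h6
      · exact h6
      · exfalso
        have hCf : ∀ w ∈ C, wc K g us w = some y := fun w hw => wc_iff.2 (hCW hw)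
        refine hB.page D _ y s (by omega) hDN (hok.cut hCf hCc) h6 ?_
        intro w hw
        obtain ⟨b, rfl, _⟩ := (cut_eq hCf).1 hw
        exact ⟨i, b, rfl⟩
  · -- the class is the connector
    right
    have e : Wst K g us y = κ := by
      ext w
      constructor
      · intro hw
        by_contra hwk
        apply h2
        rcases hw with ⟨h5, h6⟩ | ⟨s', c, b, rfl, h5, h6, h7, h8, h9⟩
        · exact rs_full hS' hone h1 h5 h6 hwk
        · exact rs_full hS' hone h1 out_right h7 (hone s' c h5).2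
      · intro hw
        exact wst_out (hκo w hw) (hκc w hw)
    rw [cut_id (fun w hw => by rw [← e]; exact wc_iff.1 hw)]
    exact hWU

lemma rs_wc {s : σ} {i : ℕ} : ∀ w ∈ Rs H D K g us s i y, wc K g us w = some y :=
  fun _ hw => wc_iff.2 (wst_diff_sub hw.1)

lemma rs_ne (hB : Jnt H N U) (hD : 0 ≤ D) (hDN : D ≤ N) {s : σ} {i : ℕ} (hU : U D (cut (wc K g us) y (Rs H D K g us s i y))) :
    (Rs H D K g us s i y).Nonempty := by
  obtain ⟨w, hw⟩ := hB.ne D _ y hD hDN hU
  exact ⟨w, (cut_eq rs_wc).1 hw⟩

/-- **(A2)**, no contact. -/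
theorem JState.leaf0 [Finite σ] (hB : Jnt H N U) (hgd : ∀ v, H.gd v)
    (h4 : ∀ a b c d, G.Adj a b → G.Adj b c → G.Adj c d → G.Adj d a → a = c ∨ b = d)
    (hS : JState G H U D K g us) (hK : 2 * us.ncard + 4 ≤ K) (hKD : K ≤ D) (hDN : D ≤ N)
    {s : σ} {i : ℕ}
    (hi : (s, i) ∈ us) (hone : One H D K g us s i y)
    (h1 : g (Sum.inr (s, i, -K)) = some y) (hU : U D (cut (wc K g us) y (Rs H D K g us s i y)))
    (hct : ∀ z, G.Adj y z → Ein K g us y z ∨ ∃ u v, u ∉ Cp H D K g y (Sum.inr (s, i, -K)) ∧
      Out K u ∧ Out K v ∧ H.Adj D u v ∧ g u = some y ∧ g v = some z) :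
    ∃ f', JModel G H U D f' ∧ mm f' < us.ncard := by
  classical
  have h2 := rs_full' hS.st hone h1 (rs_ne hB (by omega) hDN hU)
  have hil := hS.st.lt hi
  obtain ⟨h, hh, hh0, hst⟩ := exists_hts h4 hS.st hK s i
    (fun s' j' => if s' = s ∧ j' = i then some (-2) else
      if s' = s ∧ Cons us s i j' then some 2 else none) (by
      intro s' i' j' x hc hx
      split_ifs at hx with h5 h6
      · rw [Option.some.injEq] at hx
        subst hx
        obtain ⟨rfl, rfl⟩ := h5
        refine ⟨by norm_num, fun h3 => rfl, fun h3 => ?_⟩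
        exfalso
        obtain ⟨a, a', b, b', _, _, h6, h7, _, _, h8, _, _⟩ := h3
        rw [h1, Option.some.injEq] at h6
        rw [h2, Option.some.injEq] at h7
        exact h8 (h6.symm.trans h7)
      · rw [Option.some.injEq] at hx
        subst hx
        obtain ⟨rfl, h6⟩ := h6
        have h7 := h6.uniq hc
        subst h7
        refine ⟨by norm_num, fun h3 => ?_, fun h3 => rfl⟩
        exfalso
        obtain ⟨a, a', b, b', h6, h7, _, _, _, h8, _, _, _⟩ := h3
        rw [h1, Option.some.injEq] at h6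
        rw [h2, Option.some.injEq] at h7
        exact h8 (h6.symm.trans h7))
  have hprev : ∀ j, Cons us s j i → h s j = 2 := by
    intro j hj
    have := hst s j i (-2) hj (if_pos ⟨rfl, rfl⟩)
    omega
  have hnext : ∀ j, Cons us s i j → h s j = 2 := by
    intro j hj
    have := hst s i j 2 hj (by
      rw [if_neg, if_pos ⟨rfl, hj⟩]
      rintro ⟨_, h5⟩
      have := hj.1
      omega)
    omega
  have he : Exc H K g us h (del (rz H K g us h) (Sum.inr (s, i, 0))) := exc_del hi hh0
  have hlo : ∀ s i, (s, i) ∈ us → -K < h s i := fun s i hi => by have := hh.lo s i hi; omega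
  have hhi : ∀ s i, (s, i) ∈ us → h s i ≤ K := fun s i hi => by have := hh.hi s i hi; omega
  have hK1 : 4 ≤ K := by omega
  have hcon : ∀ p, Out K p → g p = some y → p ∉ Cp H D K g y (Sum.inr (s, i, -K)) →
      Cn H D (del (rz H K g us h) (Sum.inr (s, i, 0))) y (Sum.inr (s, i, K)) p := by
    intro p hp hgp hpk
    exact St'.lift hS.st hh (by omega) hKD hi hh0
      ((leaf_split hone (hone s i hi).2 (hS.st.con y _ p out_right hp h2 hgp)).1 hpk)
  have page : ∀ s' c k b, lu us s' c = some k → -K < b → b < K →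
      rz H K g us h (Sum.inr (s', c, b)) = some y →
      ((s', k) ≠ (s, i) ∨ 0 < b) →
      Cn H D (del (rz H K g us h) (Sum.inr (s, i, 0))) y (Sum.inr (s, i, K))
        (Sum.inr (s', c, b)) := by
    intro s' c k b hl hb1 hb2 hr hne
    have hne' : (Sum.inr (s', c, b) : HV V σ) ≠ Sum.inr (s, i, 0) := by
      intro h5
      simp only [Sum.inr.injEq, Prod.mk.injEq] at h5
      rcases hne with h6 | h6
      · rw [h5.1, h5.2.1, lu_used hi, Option.some.injEq] at hl
        exact h6 (by rw [h5.1, hl])
      · omega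
    obtain ⟨k', h5, h6, _, h7⟩ := he.rep hKD hlo hhi hb1 hb2 c (by rw [del_ne hne']; exact hr)
      (del_ne hne')
    rw [hl, Option.some.injEq] at h5
    subst h5
    rcases h7 with ⟨h8, h9, h10⟩ | ⟨_, h9, h10⟩
    · have hne2 : (s', k) ≠ (s, i) := by
        rcases hne with h11 | h11
        · exact h11
        · intro h12
          obtain ⟨rfl, rfl⟩ := Prod.mk.inj h12
          omega
      exact (hcon _ out_left h9 (fun h11 => hne2 ((hone s' k h6).1 h11))).trans h10.symm
    · exact (hcon _ out_right h9 (hone s' k h6).2).trans h10.symm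
  have kiss : ∀ z, G.Adj y z → ∀ s' k, (s', k) ∈ us →
      ((g (Sum.inr (s', k, -K)) = some y ∧ g (Sum.inr (s', k, K)) = some z) ∨
        (g (Sum.inr (s', k, -K)) = some z ∧ g (Sum.inr (s', k, K)) = some y)) →
      ∃ v w, Cn H D (del (rz H K g us h) (Sum.inr (s, i, 0))) y (Sum.inr (s, i, K)) v ∧
        H.Adj D v w ∧ rz H K g us h w = some z := by
    intro z hyz s' k hk h5
    have hsk : (s', k) ≠ (s, i) := by
      intro h6
      obtain ⟨rfl, rfl⟩ := Prod.mk.inj h6
      rcases h5 with ⟨_, h7⟩ | ⟨h7, _⟩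
      · rw [h2, Option.some.injEq] at h7
        exact hyz.ne h7
      · rw [h1, Option.some.injEq] at h7
        exact hyz.ne h7
    have h6 := hh.lo s' k hk
    have h7 := hh.hi s' k hk
    rcases h5 with ⟨h5, h5'⟩ | ⟨h5, h5'⟩
    · obtain ⟨h8, h9, h10⟩ := edge_kiss hS.st hh hKD hk h5 h5'
      exact ⟨_, _, page s' k k _ (lu_used hk) (by omega) (by omega) h9 (Or.inl hsk), h8, h10⟩
    · obtain ⟨h8, h9, h10⟩ := edge_kiss hS.st hh hKD hk h5 h5'
      exact ⟨_, _, page s' k k _ (lu_used hk) (by omega) (by omega) h10 (Or.inl hsk),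
        h8.symm, h9⟩
  have hmod := hS.model hB hh (by omega) hKD hDN
  have hsub : {w | del (rz H K g us h) (Sum.inr (s, i, 0)) w = some y} ⊆
      {w | rz H K g us h w = some y ∧ w ≠ Sum.inr (s, i, 0)} := by
    intro w hw
    have hw' : del (rz H K g us h) (Sum.inr (s, i, 0)) w = some y := hw
    rcases eq_or_ne w (Sum.inr (s, i, 0)) with h5 | h5
    · rw [h5, del_self] at hw'
      exact absurd hw' (by simp)
    · rw [del_ne h5] at hw'
      exact ⟨hw', h5⟩
  have hbase : del (rz H K g us h) (Sum.inr (s, i, 0)) (Sum.inr (s, i, K)) = some y := by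
    rw [del_ne, rz_out out_right]
    · exact h2
    · intro h5
      simp only [Sum.inr.injEq, Prod.mk.injEq] at h5
      omega
  set Q : Set (HV V σ) := {w | Pa H D {w | del (rz H K g us h) (Sum.inr (s, i, 0)) w = some y}
    (Sum.inr (s, i, K)) w} with hQ
  have hQcl : ∀ w ∈ Q, rz H K g us h w = some y ∧ w ≠ Sum.inr (s, i, 0) := by
    intro w hw
    exact hsub (Pa.mem hw hbase)
  rw [← mm_rz hS.st (h := h) (by omega)]
  refine hmod.drop hB hgd (by omega) hDN (s := s) (c := i) (y := y) ?_ Q hQcl (Co.comp _) ?_ ?_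
  · rw [rz_right hi hil (hlo _ _ hi) (by omega) (by omega)]
    exact h2
  · -- imbalance
    refine hB.up (by omega) hDN (Model.ok hmod.mod) (fun w hw => (hQcl w hw).1)
      (Co.comp _) ?_ rs_wc (fun w z _ hw => wst_rz hS.st hh (wc_iff.1 hw)) hU
    · rintro w ⟨⟨h5, h6⟩ | ⟨s', c, b, rfl, h5, h6, h7, h8, h9⟩, h10⟩
      · exact Pa.of_cn (hcon w h5 h6 h10)
      · have h11 : (s', c) ≠ (s, i) := fun h12 => h5.2 (by rw [h12]; rfl)
        refine Pa.of_cn (page s' c c b (lu_used h5.1) h8 h9 ?_ (Or.inl h11))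
        exact wst_rz hS.st hh (wst_col h5.1 h6 h7 h8.le h9.le)
  · intro z hyz
    suffices hs : ∃ v w, Cn H D (del (rz H K g us h) (Sum.inr (s, i, 0))) y
        (Sum.inr (s, i, K)) v ∧ H.Adj D v w ∧ rz H K g us h w = some z by
      obtain ⟨v, w, h5, h6, h7⟩ := hs
      exact ⟨v, w, Pa.of_cn h5, h6, h7⟩
    rcases hct z hyz with h5 | ⟨u, v, h5, h6, h7, h8, h9, h10⟩
    · obtain ⟨s', i', j', h5 | h5 | h5, h6, h7⟩ := h5
      · subst h5
        apply kiss z hyz s' i' h6.1
        rcases h6.2 with h8 | h8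
        · rcases h7.2 with h9 | h9
          · rw [h8, Option.some.injEq] at h9
            exact absurd h9 hyz.ne
          · exact Or.inl ⟨h8, h9⟩
        · rcases h7.2 with h9 | h9
          · exact Or.inr ⟨h9, h8⟩
          · rw [h8, Option.some.injEq] at h9
            exact absurd h9 hyz.ne
      · by_cases hsi : (s', i') = (s, i)
        · obtain ⟨rfl, rfl⟩ := Prod.mk.inj hsi
          obtain ⟨c, hjc, hl⟩ := h5.lu
          have hjl := hS.st.lt h7.1
          have hhj := hnext j' h5
          have hj2 := hh.hi s' j' h7.1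
          subst hjc
          rcases h7.2 with h8 | h8
          · have e1 : rz H K g us h (Sum.inr (s', c, 1)) = some y := by
              rw [rz_hi (by omega) (by omega) (by omega) (Or.inl (by omega)) hl (by omega)]
              exact h2
            refine ⟨_, _, page s' c i' 1 hl (by omega) (by omega) e1 (Or.inr (by omega)),
              Host.hor hjl (by omega) (by omega) (by omega), ?_⟩
            rw [rz_lo (by omega) (by omega) hjl (Or.inr h7.1) (lu_used h7.1) (by omega)]
            exact h8
          · have e1 : rz H K g us h (Sum.inr (s', c, K - 1)) = some y := by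
              rw [rz_hi (by omega) (by omega) (by omega) (Or.inl (by omega)) hl (by omega)]
              exact h2
            refine ⟨_, _, page s' c i' (K - 1) hl (by omega) (by omega) e1 (Or.inr (by omega)),
              Host.hor hjl (by omega) (by omega) (by omega), ?_⟩
            rw [rz_hi (by omega) (by omega) hjl (Or.inr h7.1) (lu_used h7.1) (by omega)]
            exact h8
        · rcases edge_cons hS.st hh (by omega) h5 h6 h7 hyz with
            ⟨c, b, rfl, hl, h8, h9, h10, h11, h12⟩ | h8
          · exact ⟨_, _, page s' c i' b hl h9 h10 h11 (Or.inl hsi),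
              Host.hor (hS.st.lt h7.1) (by omega) (by omega) h8, h12⟩
          · obtain ⟨k, _, h8, h9⟩ := h8
            exact kiss z hyz s' k h8 h9
      · by_cases hsi : (s', i') = (s, i)
        · obtain ⟨rfl, rfl⟩ := Prod.mk.inj hsi
          obtain ⟨c, hjc, hl⟩ := h5.lu
          have hhj := hprev j' h5
          have hj2 := hh.hi s' j' h7.1
          subst hjc
          rcases h7.2 with h8 | h8
          · have e1 : rz H K g us h (Sum.inr (s', c + 1, 1)) = some y := by
              rw [rz_right hi hil (hlo _ _ hi) (by omega) (by omega)]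
              exact h2
            refine ⟨_, _, page s' (c + 1) (c + 1) 1 (lu_used hi) (by omega) (by omega) e1
              (Or.inr (by omega)),
              (Host.hor hil (by omega) (by omega) (by omega)).symm, ?_⟩
            rw [rz_lo (by omega) (by omega) (by omega) (Or.inl (by omega)) hl (by omega)]
            exact h8
          · have e1 : rz H K g us h (Sum.inr (s', c + 1, K - 1)) = some y := by
              rw [rz_right hi hil (hlo _ _ hi) (by omega) (by omega)]
              exact h2
            refine ⟨_, _, page s' (c + 1) (c + 1) (K - 1) (lu_used hi) (by omega) (by omega) e1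
              (Or.inr (by omega)),
              (Host.hor hil (by omega) (by omega) (by omega)).symm, ?_⟩
            rw [rz_hi (by omega) (by omega) (by omega) (Or.inl (by omega)) hl (by omega)]
            exact h8
        · rcases edge_cons hS.st hh (by omega) h5 h7 h6 hyz.symm with
            ⟨c, b, rfl, hl, h8, h9, h10, h11, h12⟩ | h8
          · exact ⟨_, _, page s' (c + 1) (c + 1) b (lu_used h6.1) h9 h10 h12 (Or.inl hsi),
              (Host.hor (hS.st.lt h6.1) (by omega) (by omega) h8).symm, h11⟩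
          · obtain ⟨k, _, h8, h9⟩ := h8
            exact kiss z hyz s' k h8 h9.symm
    · exact ⟨u, v, hcon u h6 h9 h5, h8, by rw [rz_out h7]; exact h10⟩

/-- **(A2)**, one contact. -/
theorem JState.leaf1 [Finite σ] [Finite X] (hB : Jnt H N U) (hgd : ∀ v, H.gd v)
    (h4 : ∀ a b c d, G.Adj a b → G.Adj b c → G.Adj c d → G.Adj d a → a = c ∨ b = d)
    (hS : JState G H U D K g us) (hK : 2 * us.ncard + 4 ≤ K) (hKD : K ≤ D) (hDN : D ≤ N)
    {s : σ} {i : ℕ}
    (hi : (s, i) ∈ us) (hone : One H D K g us s i y)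
    (h1 : g (Sum.inr (s, i, -K)) = some y) (hU : U D (cut (wc K g us) y (Rs H D K g us s i y)))
    (hyx : G.Adj y x) (hE : ¬ Ein K g us y x) {p q : HV V σ}
    (hp : p ∈ Cp H D K g y (Sum.inr (s, i, -K))) (hq : Out K q) (hpq : H.Adj D p q)
    (hgq : g q = some x)
    (hct : ∀ z, z ≠ x → G.Adj y z → Ein K g us y z ∨ ∃ u v,
      u ∉ Cp H D K g y (Sum.inr (s, i, -K)) ∧
      Out K u ∧ Out K v ∧ H.Adj D u v ∧ g u = some y ∧ g v = some z) :
    ∃ g', JState G H U D K g' us ∧ cc G K g' us < cc G K g us := by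
  classical
  have h2 := rs_full' hS.st hone h1 (rs_ne hB (by omega) hDN hU)
  have hK1 : 4 ≤ K := by omega
  have hok := wc_ok hS.st (by omega) hKD h4 hK
  have hRc : Co H D (Rs H D K g us s i y) :=
    Co.of (rs_base hS.st (by omega) hKD hone hi h2)
  obtain ⟨v₀, hv₀⟩ := hB.inl (by omega) hDN (hok.cut rs_wc hRc) hU y
  rw [cut_eq rs_wc] at hv₀
  have hv₁ : g (Sum.inl v₀) = some y := by
    rcases hv₀.1 with ⟨_, h5⟩ | ⟨s', c, b, h5, _⟩
    · exact h5
    · simp at h5
  obtain ⟨h5, h6⟩ := hS.st.leaf1 hi hone h1 hv₁ (hgd v₀) hv₀.2 hyx hE hp hq hpq hgq hct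
  set κ := Cp H D K g y (Sum.inr (s, i, -K)) with hκ
  set g' := rcl g κ x with hg'
  have hκc : ∀ w ∈ κ, g w = some y := fun w hw => Cp.col h1 hw
  have hin : ∀ w ∈ κ, g' w = some x := fun w hw => rcl_in hw
  have hout : ∀ w, w ∉ κ → g' w = g w := fun w hw => rcl_out hw
  have hxy : x ≠ y := hyx.ne'
  have hcol : ∀ w z, z ≠ y → g w = some z → g' w = some z := by
    intro w z hz hw
    rw [hout w]
    · exact hw
    · intro hwk
      rw [hκc w hwk, Option.some.injEq] at hw
      exact hz hw.symm
  have e : Wst K g' us y = Rs H D K g us s i y := by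
    ext w
    constructor
    · rintro (⟨h7, h8⟩ | ⟨s', c, b, rfl, h7, h8, h9, h10, h11⟩)
      · have hwk : w ∉ κ := by
          intro hwk
          rw [hin w hwk, Option.some.injEq] at h8
          exact hxy h8
        rw [hout w hwk] at h8
        exact rs_out h7 h8 hwk
      · have hne : (s', c) ≠ (s, i) := by
          intro h12
          obtain ⟨rfl, rfl⟩ := Prod.mk.inj h12
          have h13 : g' (Sum.inr (s', c, -K)) = some x := hin _ ReflTransGen.refl
          have h14 : g' (Sum.inr (s', c, -K)) = some y := h8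
          rw [h13, Option.some.injEq] at h14
          exact hxy h14
        have h12 : (pt K s' c false : HV V σ) ∉ κ := fun h13 => hne ((hone s' c h7).1 h13)
        have h13 : (pt K s' c true : HV V σ) ∉ κ := (hone s' c h7).2
        rw [hout _ h12] at h8
        rw [hout _ h13] at h9
        exact rs_col hone h7 hne h8 h9 h10.le h11.le
    · rintro ⟨⟨h7, h8⟩ | ⟨s', c, b, rfl, h7, h8, h9, h10, h11⟩, h12⟩
      · exact Or.inl ⟨h7, by rw [hout w h12]; exact h8⟩
      · have hne : (s', c) ≠ (s, i) := fun h13 => h7.2 (by rw [h13]; rfl)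
        have h13 : (pt K s' c false : HV V σ) ∉ κ := fun h14 => hne ((hone s' c h7.1).1 h14)
        have h14 : (pt K s' c true : HV V σ) ∉ κ := (hone s' c h7.1).2
        refine Or.inr ⟨s', c, b, rfl, h7.1, ?_, ?_, h10, h11⟩
        · rw [hout _ h13]; exact h8
        · rw [hout _ h14]; exact h9
  refine ⟨g', ⟨h5, ?_⟩, h6⟩
  refine hB.mono D _ _ (by omega) hDN (wc_ok h5 (by omega) hKD h4 hK) ?_ hU
  intro w a hw
  rw [wc_iff]
  by_cases hay : a = y
  · rw [hay] at hw ⊢
    rw [e]
    exact (cut_eq rs_wc).1 hw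
  · rw [cut_ne hay] at hw
    rcases wc_iff.1 hw with ⟨h7, h8⟩ | ⟨s', c, b, rfl, h7, h8, h9, h10, h11⟩
    · exact Or.inl ⟨h7, hcol w a hay h8⟩
    · exact Or.inr ⟨s', c, b, rfl, h7, hcol _ a hay h8, hcol _ a hay h9, h10, h11⟩

/-! ### The initial state -/

/-- Neighbouring used columns of a minimal straight model have different colours. -/
theorem JModel.dif (hB : Jnt H N U) (hgd : ∀ v, H.gd v) (hf : JModel G H U D f) (hK : 0 < K)
    (hKD : K ≤ D) (hDN : D ≤ N)
    (hst : ∀ s c (b : ℤ), -K ≤ b → b ≤ K → f (Sum.inr (s, c, b)) = f (Sum.inr (s, c, 0)))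
    (hmin : ∀ f', JModel G H U D f' → mm f ≤ mm f') :
    ∀ s c y, c + 1 < H.len s → f (Sum.inr (s, c, 0)) = some y →
      f (Sum.inr (s, c + 1, 0)) ≠ some y := by
  intro s c y hc h1 h2
  set u : HV V σ := Sum.inr (s, c + 1, 0) with hu
  have hcol1 : ∀ b : ℤ, -1 ≤ b → b ≤ 1 → f (Sum.inr (s, c, b)) = some y := by
    intro b h3 h4
    rw [hst s c b (by omega) (by omega)]
    exact h1
  have hcol2 : ∀ b : ℤ, -1 ≤ b → b ≤ 1 → f (Sum.inr (s, c + 1, b)) = some y := by
    intro b h3 h4
    rw [hst s (c + 1) b (by omega) (by omega)]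
    exact h2
  have hne : ∀ b : ℤ, b ≠ 0 → (Sum.inr (s, c + 1, b) : HV V σ) ≠ u := by
    intro b hb h3
    simp only [hu, Sum.inr.injEq, Prod.mk.injEq] at h3
    exact hb h3.2.2
  have hne' : ∀ b : ℤ, (Sum.inr (s, c, b) : HV V σ) ≠ u := by
    intro b h3
    simp only [hu, Sum.inr.injEq, Prod.mk.injEq] at h3
    omega
  -- the page set
  set Q : Set (HV V σ) := {w | ∃ (c' : ℕ) (b : ℤ), w = Sum.inr (s, c', b) ∧
    (c' = c ∨ c' = c + 1) ∧ -1 ≤ b ∧ b ≤ 1} with hQ
  have hQ1 : ∀ b : ℤ, -1 ≤ b → b ≤ 1 → (Sum.inr (s, c, b) : HV V σ) ∈ Q :=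
    fun b h3 h4 => ⟨c, b, rfl, Or.inl rfl, h3, h4⟩
  have hQ2 : ∀ b : ℤ, -1 ≤ b → b ≤ 1 → (Sum.inr (s, c + 1, b) : HV V σ) ∈ Q :=
    fun b h3 h4 => ⟨c + 1, b, rfl, Or.inr rfl, h3, h4⟩
  have hbase : ∀ w ∈ Q, w ≠ u → Pa H D {w | w ∈ Q ∧ w ≠ u} (Sum.inr (s, c, 0)) w := by
    have hv : ∀ b : ℤ, -1 ≤ b → b ≤ 1 →
        Pa H D {w | w ∈ Q ∧ w ≠ u} (Sum.inr (s, c, 0)) (Sum.inr (s, c, b)) := by
      intro b h3 h4
      rcases le_or_gt 0 b with h5 | h5
      · refine Pa.vert (by omega) (by omega) (by omega) h5 ?_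
        intro b' h6 h7
        exact ⟨hQ1 b' (by omega) (by omega), hne' b'⟩
      · refine (Pa.vert (by omega) (by omega) (by omega) h5.le ?_).symm
        intro b' h6 h7
        exact ⟨hQ1 b' (by omega) (by omega), hne' b'⟩
    rintro w ⟨c', b, rfl, rfl | rfl, h3, h4⟩ hwu
    · exact hv b h3 h4
    · have hb : b ≠ 0 := by
        intro hb
        apply hwu
        rw [hb]
      refine (hv b h3 h4).trans (Pa.one (Host.hor hc (by omega) (by omega) hb) ?_ ?_)
      · exact ⟨hQ1 b h3 h4, hne' b⟩
      · exact ⟨hQ2 b h3 h4, hne b hb⟩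
  have hQf : ∀ w ∈ Q, f w = some y := by
    rintro w ⟨c', b, rfl, rfl | rfl, h3, h4⟩
    · exact hcol1 b h3 h4
    · exact hcol2 b h3 h4
  -- the class without `u`
  have hdet : Pa H D {w | f w = some y ∧ w ≠ u} (Sum.inr (s, c + 1, -1))
      (Sum.inr (s, c + 1, 1)) := by
    have hsub : {w | w ∈ Q ∧ w ≠ u} ⊆ {w | f w = some y ∧ w ≠ u} :=
      fun w hw => ⟨hQf w hw.1, hw.2⟩
    exact ((hbase _ (hQ2 (-1) (by omega) (by omega)) (hne _ (by omega))).symm.trans
      (hbase _ (hQ2 1 (by omega) (by omega)) (hne _ (by omega)))).mono hsub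
  have hlift : ∀ v₀, f v₀ = some y → v₀ ≠ u → ∀ w, Cn H D f y v₀ w →
      (w ≠ u → Pa H D {w | f w = some y ∧ w ≠ u} v₀ w) ∧
      (w = u → Pa H D {w | f w = some y ∧ w ≠ u} v₀ (Sum.inr (s, c + 1, 1))) := by
    intro v₀ _ hv₀ w hw
    unfold Cn at hw
    induction hw with
    | refl => exact ⟨fun _ => ReflTransGen.refl, fun h3 => absurd h3 hv₀⟩
    | tail _ hbc ih =>
      rename_i b d _
      by_cases hb : b = u
      · have h3 := ih.2 hb
        refine ⟨fun hd => ?_, fun _ => h3⟩
        have h4 : H.Adj D d u := by rw [← hb]; exact hbc.1.symm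
        rcases nb0 (by omega) h4 with rfl | rfl
        · exact h3.trans hdet.symm
        · exact h3
      · have h3 := ih.1 hb
        refine ⟨fun hd => ?_, fun hd => ?_⟩
        · exact h3.trans (Pa.one hbc.1 ⟨hbc.2.1, hb⟩ ⟨hbc.2.2, hd⟩)
        · have h4 : H.Adj D b u := by rw [← hd]; exact hbc.1
          rcases nb0 (by omega) h4 with rfl | rfl
          · exact h3.trans hdet
          · exact h3
  have hCo : Co H D {w | f w = some y ∧ w ≠ u} := by
    intro a ha b hb
    exact (hlift a ha.1 ha.2 b (hf.mod.con y a b ha.1 hb.1)).1 hb.2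
  have hUd : U D (cut f y {w | f w = some y ∧ w ≠ u}) := by
    refine hf.unb_del hB (by omega) hDN (s := s) hCo Q (hQ2 0 (by omega) (by omega)) hQf ?_ ?_
      ?_ ⟨_, hQ1 0 (by omega) (by omega), hne' 0⟩ ?_
    · rintro w ⟨c', b, rfl, _⟩
      exact ⟨c', b, rfl⟩
    · apply Co.of (p := Sum.inr (s, c, 0))
      intro w hw
      by_cases hwu : w = u
      · rw [hwu]
        have h3 := hbase _ (hQ2 1 (by omega) (by omega)) (hne 1 (by omega))
        refine (h3.mono (fun w hw => hw.1)).trans ?_
        exact (Pa.one (Host.ver (b := 0) hc (by omega) (by omega))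
          (hQ2 0 (by omega) (by omega)) (hQ2 1 (by omega) (by omega))).symm
      · exact (hbase w hw hwu).mono (fun w hw => hw.1)
    · apply Co.of (p := Sum.inr (s, c, 0))
      intro w hw
      exact hbase w hw.1 hw.2
    · intro w _ hw
      rcases nb0 (by omega) hw with rfl | rfl
      · exact hQ2 (-1) (by omega) (by omega)
      · exact hQ2 1 (by omega) (by omega)
  obtain ⟨f', h3, h4⟩ := hf.drop hB hgd (by omega) hDN (s := s) (c := c + 1) (y := y) h2
    {w | f w = some y ∧ w ≠ u} (fun w hw => hw) hCo hUd (by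
    intro z hyz
    obtain ⟨v, w, h5, h6, h7⟩ := hf.mod.edg y z hyz
    refine ⟨v, w, ⟨h6, ?_⟩, h5, h7⟩
    intro h8
    rw [h8] at h5
    rcases nb0 (by omega) h5.symm with rfl | rfl
    · rw [hcol2 _ (by omega) (by omega), Option.some.injEq] at h7
      exact hyz.ne h7
    · rw [hcol2 _ (by omega) (by omega), Option.some.injEq] at h7
      exact hyz.ne h7)
  exact absurd h4 (not_lt.2 (hmin f' h3))

/-- A minimal straight model is a state. -/
theorem JModel.state (hB : Jnt H N U) (hgd : ∀ v, H.gd v) (hf : JModel G H U D f) (hK : 0 < K)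
    (hKD : K ≤ D) (hDN : D ≤ N)
    (hst : ∀ s c (b : ℤ), -K ≤ b → b ≤ K → f (Sum.inr (s, c, b)) = f (Sum.inr (s, c, 0)))
    (hmin : ∀ f', JModel G H U D f' → mm f ≤ mm f') :
    JState G H U D K f {p : σ × ℕ | f (Sum.inr (p.1, p.2, 0)) ≠ none} where
  st := hf.mod.state' hK hKD hst (hf.dif hB hgd hK hKD hDN hst hmin)
  unb := by
    have e : ∀ y, Wst K f {p : σ × ℕ | f (Sum.inr (p.1, p.2, 0)) ≠ none} y =
        {w | f w = some y} := by
      intro y
      ext w
      constructor
      · rintro (⟨_, h2⟩ | ⟨s, c, b, rfl, _, h1, _, h3, h4⟩)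
        · exact h2
        · change f (Sum.inr (s, c, b)) = some y
          rw [hst s c b h3.le h4.le, ← hst s c (-K) (le_refl _) (by omega)]
          exact h1
      · intro hw
        have hw' : f w = some y := hw
        by_cases ho : Out K w
        · exact Or.inl ⟨ho, hw'⟩
        · rcases w with v | ⟨s, c, b⟩
          · exact absurd trivial ho
          · have hb : -K < b ∧ b < K := by
              by_contra hcon
              apply ho
              change b ≤ -K ∨ K ≤ b
              omega
            have h0 : f (Sum.inr (s, c, 0)) = some y := by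
              rw [← hst s c b hb.1.le hb.2.le]
              exact hw'
            refine Or.inr ⟨s, c, b, rfl, ?_, ?_, ?_, hb.1, hb.2⟩
            · change f (Sum.inr (s, c, 0)) ≠ none
              rw [h0]; simp
            · change f (Sum.inr (s, c, -K)) = some y
              rw [hst s c (-K) (le_refl _) (by omega)]
              exact h0
            · change f (Sum.inr (s, c, K)) = some y
              rw [hst s c K (by omega) (le_refl _)]
              exact h0
    have e' : wc K f {p : σ × ℕ | f (Sum.inr (p.1, p.2, 0)) ≠ none} = f := by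
      funext w
      cases h1 : f w with
      | none =>
        by_contra h2
        obtain ⟨y, hy⟩ := wc_none h2
        rw [e] at hy
        rw [hy] at h1
        exact absurd h1 (by simp)
      | some y =>
        rw [wc_iff, e]
        exact h1
    rw [e']
    exact hf.unb

end

end Mdj
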