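import Pool.Agent.EN.ULeaf2

/-!
# Minimal states with unbalanced classes; mirror symmetry
-/

open Relation

namespace Mdu

open Mdl

variable {V σ X : Type*}

/-- The mirrored predicate. -/
def mU (U : ℤ → Set (HV V σ) → Prop) : ℤ → Set (HV V σ) → Prop := fun d A => U d {w | mir w ∈ A}

section

variable {G : SimpleGraph X} {H : Host V σ} {N d D K : ℤ} {U : ℤ → Set (HV V σ) → Prop}
  {g f : HV V σ → Option X} {us : Set (σ × ℕ)} {x y z : X} {A B : Set (HV V σ)}

lemma mir_pre_mir : {w : HV V σ | mir w ∈ {w | mir w ∈ A}} = A := by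
  ext w
  change mir (mir w) ∈ A ↔ w ∈ A
  rw [mir_mir]

lemma mir_fin (h : A.Finite) : {w : HV V σ | mir w ∈ A}.Finite := by
  have hinj : Function.Injective (mir : HV V σ → HV V σ) := fun _ _ h => mir_inj h
  exact h.preimage hinj.injOn

lemma mir_rg (h : Rg H.mir d A) : Rg H d {w | mir w ∈ A} := by
  intro s c b hw
  have := h s c (-b) hw
  exact ⟨this.1, by omega, by omega⟩

lemma mir_co (h : Co H.mir d A) : Co H d {w | mir w ∈ A} := by
  intro u hu v hv
  have h1 := h (mir u) hu (mir v) hv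
  have key : ∀ w, Pa H.mir d A (mir u) w → Pa H d {w | mir w ∈ A} u (mir w) := by
    intro w hw
    unfold Pa at hw
    induction hw with
    | refl => rw [mir_mir]; exact ReflTransGen.refl
    | tail _ hbc ih =>
      refine ih.trans (Pa.one (adjm' hbc.1) ?_ ?_)
      · change mir (mir _) ∈ A
        rw [mir_mir]; exact hbc.2.1
      · change mir (mir _) ∈ A
        rw [mir_mir]; exact hbc.2.2
  have h2 := key _ h1
  rw [mir_mir] at h2
  exact h2

lemma pz_opp {k b : ℤ} (hk : 0 ≤ k) : pz k (-b) = -pz k b := by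
  unfold pz
  split_ifs <;> omega

/-- Mirror image of the axioms. -/
theorem Bal.mirror (hB : Bal H N U) : Bal H.mir N (mU U) where
  ne := by
    intro d h
    exact hB.ne d h
  mono := by
    intro d A B h1 h2 h3 h4 h5 h6 h7 h8
    obtain ⟨a, ha⟩ := h6
    exact hB.mono d _ _ h1 h2 (mir_rg h3) (fun w hw => h4 hw) (mir_fin h5)
      ⟨mir a, by change mir (mir a) ∈ A; rw [mir_mir]; exact ha⟩ (mir_co h7) h8
  modu := by
    intro d A B h1 h2 h3 h4 h5 h6 h7 h8 h9 h10 h11 h12
    obtain ⟨a, ha⟩ := h9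
    refine hB.modu d {w | mir w ∈ A} {w | mir w ∈ B} h1 h2 (mir_rg h3) (mir_rg h4) (mir_fin h5)
      (mir_fin h6) (mir_co h7) (mir_co h8) ⟨mir a, ?_⟩ (mir_co h10) ?_ h12
    · change mir (mir a) ∈ A ∧ mir (mir a) ∈ B
      rw [mir_mir]; exact ha
    · intro a ha b hb haB hbA hab
      exact h11 (mir a) ha (mir b) hb haB hbA (adjm hab)
  page := by
    intro d s Q h1 h2 h3 h4 h5 h6 h7 h8
    obtain ⟨a, ha⟩ := h5
    refine hB.page d s {w | mir w ∈ Q} h1 h2 (mir_rg h3) (mir_fin h4)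
      ⟨mir a, by change mir (mir a) ∈ Q; rw [mir_mir]; exact ha⟩ (mir_co h6) ?_ h8
    intro u hu
    obtain ⟨c, b, h9⟩ := h7 (mir u) hu
    refine ⟨c, -b, ?_⟩
    rw [← mir_mir u, h9]
    rfl
  str := by
    intro d k A h1 h2 h3 h4 h5 h6 h7
    have h8 := hB.str d k _ h1 h2 h3 (mir_rg h4) (mir_fin h5) (mir_co h6) h7
    have e : {w : HV V σ | Pz k w ∈ {w | mir w ∈ A}} = {w | mir w ∈ {w | Pz k w ∈ A}} := by
      ext w
      change mir (Pz k w) ∈ A ↔ Pz k (mir w) ∈ A
      have e1 : mir (Pz k w) = Pz k (mir w) := by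
        rcases w with v | ⟨s, c, b⟩
        · rfl
        · simp only [Pz, mir]
          rw [pz_opp h2]
      rw [e1]
    rw [e] at h8
    exact h8

theorem UModel.mirror (hf : UModel G H U d f) : UModel G H.mir (mU U) d (fun u => f (mir u)) where
  mod := hf.mod.mirror
  unb := by
    intro y
    have h1 := hf.unb y
    change U d {w | f (mir (mir w)) = some y}
    simp only [mir_mir]
    exact h1

lemma wst_mir {w : HV V σ} : w ∈ Wst K (fun u => g (mir u)) us y ↔ mir w ∈ Wst K g us y := by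
  constructor
  · rintro (⟨h1, h2⟩ | ⟨s, c, b, rfl, h1, h2, h3, h4, h5⟩)
    · exact Or.inl ⟨out_mir h1, h2⟩
    · simp only [pt_mir, Bool.not_false, Bool.not_true] at h2 h3
      exact Or.inr ⟨s, c, -b, rfl, h1, h3, h2, by omega, by omega⟩
  · rintro (⟨h1, h2⟩ | ⟨s, c, b, h0, h1, h2, h3, h4, h5⟩)
    · refine Or.inl ⟨?_, h2⟩
      have := out_mir h1
      rw [mir_mir] at this
      exact this
    · refine Or.inr ⟨s, c, -b, ?_, h1, ?_, ?_, by omega, by omega⟩
      · rw [← mir_mir w, h0]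
        rfl
      · simp only [pt_mir, Bool.not_false]
        exact h3
      · simp only [pt_mir, Bool.not_true]
        exact h2

theorem UState.mirror (hS : UState G H U D K g us) :
    UState G H.mir (mU U) D K (fun u => g (mir u)) us where
  st := hS.st.mirror
  unb := by
    intro y
    have h1 := hS.unb y
    have e : {w : HV V σ | mir w ∈ Wst K (fun u => g (mir u)) us y} = Wst K g us y := by
      ext w
      change mir w ∈ Wst K (fun u => g (mir u)) us y ↔ _
      rw [wst_mir, mir_mir]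
    change U D {w : HV V σ | mir w ∈ Wst K (fun u => g (mir u)) us y}
    rw [e]
    exact h1

/-- Minimal states. -/
structure UMin (G : SimpleGraph X) (H : Host V σ) (U : ℤ → Set (HV V σ) → Prop) (D K : ℤ)
    (g : HV V σ → Option X) (us : Set (σ × ℕ)) : Prop where
  st : UState G H U D K g us
  m : ∀ f', UModel G H U D f' → us.ncard ≤ mm f'
  c : ∀ g', UState G H U D K g' us → cc G K g us ≤ cc G K g' us

lemma mU_mU (U : ℤ → Set (HV V σ) → Prop) : mU (mU U) = U := by
  funext d A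
  change U d {w | mir w ∈ {w | mir w ∈ A}} = U d A
  rw [mir_pre_mir]

theorem UMin.mirror (hM : UMin G H U D K g us) :
    UMin G H.mir (mU U) D K (fun u => g (mir u)) us where
  st := hM.st.mirror
  m := by
    intro f' hf'
    have h1 := hf'.mirror
    rw [mU_mU] at h1
    have h2 := hM.m _ h1
    rw [mm_mir] at h2
    exact h2
  c := by
    intro g' hg'
    have h1 := hg'.mirror
    rw [mU_mU] at h1
    have h2 := hM.c _ h1
    rw [cc_mir] at h2
    rw [cc_mir]
    exact h2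

/-- Existence of minimal states. -/
theorem exists_umin [Finite X] (hB : Bal H N U) (hgd : ∀ v, H.gd v) {K : ℤ} (hd : 0 ≤ d)
    (hf : UModel G H U d f) (hK : 0 < K) (hN : d + (mm f + 1) * K ≤ N) :
    ∃ (D : ℤ) (g : HV V σ → Option X) (us : Set (σ × ℕ)), d + K ≤ D ∧
      D ≤ d + (mm f + 1) * K ∧ us.ncard ≤ mm f ∧ UMin G H U D K g us := by
  classical
  obtain ⟨D, f', h1, h2, h3, h4, h5, h6⟩ :=
    exists_straight hB hK.le (mm f) d f hd hN hf (le_refl _)
  have h7 := h3.state hB hgd hK (by omega) (by omega) h5 h6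
  set us := {p : σ × ℕ | f' (Sum.inr (p.1, p.2, 0)) ≠ none} with hus
  have hex : ∃ n, ∃ g, UState G H U D K g us ∧ cc G K g us = n := ⟨_, f', h7, rfl⟩
  obtain ⟨g, h8, h9⟩ := Nat.find_spec hex
  refine ⟨D, g, us, h1, h2, h4, h8, h6, ?_⟩
  intro g' hg'
  rw [h9]
  exact Nat.find_min' hex ⟨g', hg', rfl⟩

/-- The rest of a class without the connector at the port `(s, i, e)` and the interior of the
column. -/
def RsE (H : Host V σ) (D K : ℤ) (g : HV V σ → Option X) (us : Set (σ × ℕ)) (s : σ) (i : ℕ)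
    (e : Bool) (y : X) : Set (HV V σ) :=
  {w | w ∈ Wst K g (us \ {(s, i)}) y ∧ w ∉ Cp H D K g y (pt K s i e)}

/-- The connector at the port `(s, i, e)` has no other port. -/
def OneE (H : Host V σ) (D K : ℤ) (g : HV V σ → Option X) (us : Set (σ × ℕ)) (s : σ) (i : ℕ)
    (e : Bool) (y : X) : Prop :=
  ∀ s' c' e', (s', c') ∈ us → (pt K s' c' e' : HV V σ) ∈ Cp H D K g y (pt K s i e) →
    s' = s ∧ c' = i ∧ e' = e

lemma OneE.one {s : σ} {i : ℕ} (h : OneE H D K g us s i false y) : One H D K g us s i y := by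
  intro s' c' hc
  refine ⟨fun h5 => ?_, fun h5 => ?_⟩
  · obtain ⟨h6, h7, _⟩ := h s' c' false hc h5
    rw [h6, h7]
  · obtain ⟨_, _, h8⟩ := h s' c' true hc h5
    exact absurd h8 (by simp)

lemma OneE.mirror {s : σ} {i : ℕ} (h : OneE H D K g us s i true y) :
    OneE H.mir D K (fun u => g (mir u)) us s i false y := by
  intro s' c' e' hc h5
  rw [Cp_mir, pt_mir, pt_mir] at h5
  obtain ⟨h6, h7, h8⟩ := h s' c' (!e') hc h5
  refine ⟨h6, h7, ?_⟩
  cases e'
  · rfl
  · simp at h8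

lemma rsE_mir {s : σ} {i : ℕ} :
    {w : HV V σ | mir w ∈ Rs H.mir D K (fun u => g (mir u)) us s i y} =
      RsE H D K g us s i true y := by
  ext w
  change (mir w ∈ Wst K (fun u => g (mir u)) (us \ {(s, i)}) y ∧
    mir w ∉ Cp H.mir D K (fun u => g (mir u)) y (Sum.inr (s, i, -K))) ↔ _
  rw [wst_mir, Cp_mir, mir_mir]
  have e : (mir (Sum.inr (s, i, -K)) : HV V σ) = pt K s i true := by
    simp only [mir, neg_neg]; rfl
  rw [e]
  exact Iff.rfl

lemma cp_mir {s : σ} {i : ℕ} :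
    {w : HV V σ | mir w ∈ Cp H.mir D K (fun u => g (mir u)) y (Sum.inr (s, i, -K))} =
      Cp H D K g y (pt K s i true) := by
  ext w
  change mir w ∈ Cp H.mir D K (fun u => g (mir u)) y (Sum.inr (s, i, -K)) ↔ _
  rw [Cp_mir, mir_mir]
  have e : (mir (Sum.inr (s, i, -K)) : HV V σ) = pt K s i true := by
    simp only [mir, neg_neg]; rfl
  rw [e]

section

variable [Finite σ]

/-- **(A1)** -/
theorem UMin.a1 (hB : Bal H N U) (hgd : ∀ v, H.gd v)
    (h4 : ∀ a b c d, G.Adj a b → G.Adj b c → G.Adj c d → G.Adj d a → a = c ∨ b = d)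
    (hM : UMin G H U D K g us) (hK : 2 * us.ncard + 4 ≤ K) (hKD : K ≤ D) (hDN : D ≤ N) {s : σ}
    {i j : ℕ} (hij : Cons us s i j) (e : Bool) (hi : g (pt K s i e) = some y) :
    g (pt K s j e) ≠ some y := by
  intro hj
  cases e
  · obtain ⟨f', h1, h2⟩ := hM.st.a1 hB hgd h4 hK hKD hDN hij hi hj
    exact absurd h2 (not_lt.2 (hM.m f' h1))
  · obtain ⟨f', h1, h2⟩ := hM.mirror.st.a1 hB.mirror hgd h4 hK hKD hDN hij (y := y)
      (by simp only [mir, neg_neg]; exact hi) (by simp only [mir, neg_neg]; exact hj)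
    exact absurd h2 (not_lt.2 (hM.mirror.m f' h1))

/-- Every edge is kissed at most once. -/
theorem UMin.kiss (hB : Bal H N U) (hgd : ∀ v, H.gd v)
    (h4 : ∀ a b c d, G.Adj a b → G.Adj b c → G.Adj c d → G.Adj d a → a = c ∨ b = d)
    (hM : UMin G H U D K g us) (hK : 2 * us.ncard + 4 ≤ K) (hKD : K ≤ D) (hDN : D ≤ N)
    {s s' : σ} {i j : ℕ}
    (hi : (s, i) ∈ us) (hj : (s', j) ∈ us) (hyz : y ≠ z) {e e' : Bool}
    (h1 : g (pt K s i e) = some z) (h2 : g (pt K s i (!e)) = some y)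
    (h3 : g (pt K s' j e') = some z) (h3' : g (pt K s' j (!e')) = some y) :
    (s, i) = (s', j) := by
  by_contra hne
  cases e
  · obtain ⟨f', h5, h6⟩ := hM.st.kiss1 hB hgd h4 hK hKD hDN hi hj hne hyz h1 h2 (by
      cases e'
      · exact Or.inr ⟨h3, h3'⟩
      · exact Or.inl ⟨h3', h3⟩)
    exact absurd h6 (not_lt.2 (hM.m f' h5))
  · obtain ⟨f', h5, h6⟩ := hM.st.kiss1 hB hgd h4 hK hKD hDN hi hj hne hyz.symm h2 h1 (by
      cases e'
      · exact Or.inl ⟨h3, h3'⟩
      · exact Or.inr ⟨h3', h3⟩)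
    exact absurd h6 (not_lt.2 (hM.m f' h5))

/-- A full column which is not a bridge is needed for the imbalance. -/
theorem UMin.bridge (hB : Bal H N U) (hgd : ∀ v, H.gd v)
    (h4 : ∀ a b c d, G.Adj a b → G.Adj b c → G.Adj c d → G.Adj d a → a = c ∨ b = d)
    (hM : UMin G H U D K g us) (hK : 2 * us.ncard + 4 ≤ K) (hKD : K ≤ D) (hDN : D ≤ N)
    {s : σ} {i : ℕ}
    (hi : (s, i) ∈ us) (h1 : g (pt K s i false) = some y) (h2 : g (pt K s i true) = some y)
    (h3 : St' H D K g us s i y (pt K s i false) (pt K s i true)) :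
    ¬ U D (Wst K g (us \ {(s, i)}) y) := by
  intro h7
  obtain ⟨f', h5, h6⟩ := hM.st.bridge hB hgd h4 hK hKD hDN hi h1 h2 h3 h7
  exact absurd h6 (not_lt.2 (hM.m f' h5))

/-- Dichotomy for connectors with one port. -/
theorem UMin.dich (hB : Bal H N U) (hgd : ∀ v, H.gd v)
    (h4 : ∀ a b c d, G.Adj a b → G.Adj b c → G.Adj c d → G.Adj d a → a = c ∨ b = d)
    (hM : UMin G H U D K g us) (hK : 2 * us.ncard + 4 ≤ K) (hKD : K ≤ D) (hDN : D ≤ N)
    {s : σ} {i : ℕ} {e : Bool} (hi : (s, i) ∈ us) (hone : OneE H D K g us s i e y)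
    (h1 : g (pt K s i e) = some y) :
    U D (RsE H D K g us s i e y) ∨ U D (Cp H D K g y (pt K s i e)) := by
  cases e
  · exact leaf_dich hB h4 hM.st hK hKD hDN
      (fun s i j y hc h5 => hM.a1 hB hgd h4 hK hKD hDN hc false h5) hi hone.one h1
  · have h2 := leaf_dich hB.mirror h4 hM.mirror.st hK hKD hDN
      (fun s i j y hc h5 => hM.mirror.a1 hB.mirror hgd h4 hK hKD hDN hc false h5) hi
      hone.mirror.one (by simp only [mir, neg_neg]; exact h1)
    unfold mU at h2
    rw [rsE_mir, cp_mir] at h2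
    exact h2

/-- If the rest is balanced then so are all its parts. -/
theorem UMin.rest (hB : Bal H N U)
    (h4 : ∀ a b c d, G.Adj a b → G.Adj b c → G.Adj c d → G.Adj d a → a = c ∨ b = d)
    (hM : UMin G H U D K g us) (hK : 2 * us.ncard + 4 ≤ K) (hKD : K ≤ D) (hDN : D ≤ N)
    {s : σ} {i : ℕ} {e : Bool} (hi : (s, i) ∈ us) (hone : OneE H D K g us s i e y)
    (h1 : g (pt K s i e) = some y) (h2 : ¬ U D (RsE H D K g us s i e y))
    (A : Set (HV V σ)) (hA : A ⊆ RsE H D K g us s i e y) (hne : A.Nonempty) : ¬ U D A := by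
  intro hUA
  apply h2
  have hwf := wst_fin (y := y) hM.st.st (by omega) hKD h4 hK
  have hWr : Rg H D (Wst K g us y) := wst_rg hM.st.st hKD
  have hsub : RsE H D K g us s i e y ⊆ Wst K g us y := fun w hw => wst_diff_sub hw.1
  refine hB.mono D A _ (by omega) hDN (fun a b c h => hWr a b c (hsub h)) hA
    (hwf.subset hsub) hne ?_ hUA
  cases e
  · have h5 := rs_full' hM.st.st hone.one h1 (hne.mono hA)
    exact Co.of (rs_base hM.st.st (by omega) hKD hone.one hi h5)
  · have hS' := hM.mirror.st.st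
    have hne' : (Rs H.mir D K (fun u => g (mir u)) us s i y).Nonempty := by
      obtain ⟨a, ha⟩ := hne
      have ha' := hA ha
      rw [← rsE_mir] at ha'
      exact ⟨mir a, ha'⟩
    have h5 := rs_full' hS' hone.mirror.one (by simp only [mir, neg_neg]; exact h1) hne'
    have h6 : Co H.mir D (Rs H.mir D K (fun u => g (mir u)) us s i y) :=
      Co.of (rs_base hS' (by omega) hKD hone.mirror.one hi h5)
    have h7 := mir_co h6
    rw [rsE_mir] at h7
    exact h7

/-- **(A2)** -/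
theorem UMin.a2 [Finite X] (hB : Bal H N U) (hgd : ∀ v, H.gd v)
    (h4 : ∀ a b c d, G.Adj a b → G.Adj b c → G.Adj c d → G.Adj d a → a = c ∨ b = d)
    (hM : UMin G H U D K g us) (hK : 2 * us.ncard + 4 ≤ K) (hKD : K ≤ D) (hDN : D ≤ N)
    {cv : X → X → HV V σ} (hA : Asg G H D K g us cv) {s : σ} {i : ℕ} {e : Bool}
    (hi : (s, i) ∈ us) (hone : OneE H D K g us s i e y)
    (h1 : g (pt K s i e) = some y) (hU : U D (RsE H D K g us s i e y)) :
    ∃ z z', z ≠ z' ∧ (G.Adj y z ∧ ¬ Ein K g us y z ∧ cv y z ∈ Cp H D K g y (pt K s i e)) ∧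
      (G.Adj y z' ∧ ¬ Ein K g us y z' ∧ cv y z' ∈ Cp H D K g y (pt K s i e)) := by
  -- left ports, for any minimal state
  have key : ∀ (H' : Host V σ) (U' : ℤ → Set (HV V σ) → Prop) (g' : HV V σ → Option X)
      (cv' : X → X → HV V σ), Bal H' N U' → (∀ v, H'.gd v) → UMin G H' U' D K g' us →
      Asg G H' D K g' us cv' → One H' D K g' us s i y → g' (Sum.inr (s, i, -K)) = some y →
      U' D (Rs H' D K g' us s i y) →
      ∃ z z', z ≠ z' ∧ (G.Adj y z ∧ ¬ Ein K g' us y z ∧
        cv' y z ∈ Cp H' D K g' y (Sum.inr (s, i, -K))) ∧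
      (G.Adj y z' ∧ ¬ Ein K g' us y z' ∧ cv' y z' ∈ Cp H' D K g' y (Sum.inr (s, i, -K))) := by
    intro H' U' g' cv' hB' hgd' hM' hA' hone' h1' hU'
    by_contra hcon
    have hct : ∀ z, G.Adj y z → ¬ Ein K g' us y z →
        cv' y z ∉ Cp H' D K g' y (Sum.inr (s, i, -K)) → ∃ u v,
          u ∉ Cp H' D K g' y (Sum.inr (s, i, -K)) ∧ Out K u ∧ Out K v ∧ H'.Adj D u v ∧
            g' u = some y ∧ g' v = some z := by
      intro z h5 h6 h7
      have h8 : ¬ Ein K g' us z y := fun h => h6 h.symm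
      exact ⟨_, _, h7, hA'.out y z h5 h6, hA'.out z y h5.symm h8, hA'.adj y z h5 h6,
        hA'.col y z h5 h6, hA'.col z y h5.symm h8⟩
    by_cases hex : ∃ x, G.Adj y x ∧ ¬ Ein K g' us y x ∧
        cv' y x ∈ Cp H' D K g' y (Sum.inr (s, i, -K))
    · obtain ⟨x, h5, h6, h7⟩ := hex
      have h8 : ¬ Ein K g' us x y := fun h => h6 h.symm
      obtain ⟨g'', h9, h10⟩ := hM'.st.leaf1 hB' hgd' h4 hK hKD hDN hi hone' h1' hU' h5 h6 h7
        (hA'.out x y h5.symm h8) (hA'.adj y x h5 h6) (hA'.col x y h5.symm h8) (by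
          intro z hzx hyz
          by_cases h11 : Ein K g' us y z
          · exact Or.inl h11
          · right
            apply hct z hyz h11
            intro h12
            exact hcon ⟨z, x, hzx, ⟨hyz, h11, h12⟩, ⟨h5, h6, h7⟩⟩)
      exact absurd h10 (not_lt.2 (hM'.c g'' h9))
    · obtain ⟨f', h5, h6⟩ := hM'.st.leaf0 hB' hgd' h4 hK hKD hDN hi hone' h1' hU' (by
        intro z hyz
        by_cases h11 : Ein K g' us y z
        · exact Or.inl h11
        · right
          apply hct z hyz h11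
          intro h12
          exact hex ⟨z, hyz, h11, h12⟩)
      exact absurd h6 (not_lt.2 (hM'.m f' h5))
  cases e
  · exact key H U g cv hB hgd hM hA hone.one h1 hU
  · -- mirror
    have hA' : Asg G H.mir D K (fun u => g (mir u)) us (fun a b => mir (cv a b)) := by
      refine ⟨?_, ?_, ?_⟩
      · intro a b hab h5
        exact out_mir (hA.out a b hab (fun h => h5 (Ein_mir.2 h)))
      · intro a b hab h5
        simp only [mir_mir]
        exact hA.col a b hab (fun h => h5 (Ein_mir.2 h))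
      · intro a b hab h5
        exact adjm (hA.adj a b hab (fun h => h5 (Ein_mir.2 h)))
    have hp : (mir (Sum.inr (s, i, -K)) : HV V σ) = pt K s i true := by
      simp only [mir, neg_neg]; rfl
    have hU' : mU U D (Rs H.mir D K (fun u => g (mir u)) us s i y) := by
      unfold mU
      rw [rsE_mir]
      exact hU
    obtain ⟨z, z', h5, ⟨h6, h7, h8⟩, h9, h10, h11⟩ := key H.mir (mU U) (fun u => g (mir u)) _
      hB.mirror hgd hM.mirror hA' hone.mirror.one (by rw [hp]; exact h1) hU'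
    rw [Cp_mir, hp, mir_mir] at h8 h11
    exact ⟨z, z', h5, ⟨h6, fun h => h7 (Ein_mir.2 h), h8⟩, h9, fun h => h10 (Ein_mir.2 h), h11⟩

end

end

end Mdu
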