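import Pool.Agent.EN.JLeaf
import Pool.Agent.EN.UMin

/-!
# Minimal states with jointly unbalanced classes; mirror symmetry
-/

open Relation

namespace Mdj

open Mdl Mdu

variable {V σ X : Type*}

/-- The mirrored predicate. -/
def mJ (U : ℤ → (HV V σ → Option X) → Prop) : ℤ → (HV V σ → Option X) → Prop :=
  fun d f => U d (fun w => f (mir w))

section

variable {G : SimpleGraph X} {H : Host V σ} {N d D K : ℤ} {U : ℤ → (HV V σ → Option X) → Prop}
  {g f : HV V σ → Option X} {us : Set (σ × ℕ)} {x y z : X} {A B : Set (HV V σ)}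

lemma ok_mir (h : Ok H.mir d f) : Ok H d (fun w => f (mir w)) where
  sup := by
    intro s c b h1
    have h2 := h.sup s c (-b) h1
    exact ⟨h2.1, by omega, by omega⟩
  fin := mir_fin h.fin
  con := fun y => mir_co (h.con y)

lemma cut_mir : cut (fun w => f (mir w)) y {w : HV V σ | mir w ∈ A} =
    fun w => cut f y A (mir w) := rfl

/-- Mirror image of the axioms. -/
theorem Jnt.mirror (hB : Jnt H N U) : Jnt H.mir N (mJ U) where
  ne := by
    intro d f y h1 h2 h3
    obtain ⟨w, hw⟩ := hB.ne d _ y h1 h2 h3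
    exact ⟨mir w, hw⟩
  mono := by
    intro d f f' h1 h2 h3 h4 h5
    exact hB.mono d _ _ h1 h2 (ok_mir h3) (fun w y hw => h4 (mir w) y hw) h5
  modu := by
    intro d f y A B h1 h2 h3 h4 h7 h8 h9 h10 h11 h12
    obtain ⟨a, ha⟩ := h9
    refine hB.modu d (fun w => f (mir w)) y {w | mir w ∈ A} {w | mir w ∈ B} h1 h2 (ok_mir h3) ?_
      (mir_co h7) (mir_co h8) ⟨mir a, ?_⟩ (mir_co h10) ?_ h12
    · ext w
      exact Set.ext_iff.1 h4 (mir w)
    · change mir (mir a) ∈ A ∧ mir (mir a) ∈ B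
      rw [mir_mir]; exact ha
    · intro a ha b hb haB hbA hab
      exact h11 (mir a) ha (mir b) hb haB hbA (adjm hab)
  page := by
    intro d f y s h1 h2 h3 h4 h5
    refine hB.page d (fun w => f (mir w)) y s h1 h2 (ok_mir h3) h4 ?_
    intro w hw
    obtain ⟨c, b, h9⟩ := h5 (mir w) hw
    refine ⟨c, -b, ?_⟩
    rw [← mir_mir w, h9]
    rfl
  str := by
    intro d k f h1 h2 h3 h4 h5
    have h8 := hB.str d k _ h1 h2 h3 (ok_mir h4) h5
    have e : (fun w : HV V σ => f (mir (Pz k w))) = fun w => f (Pz k (mir w)) := by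
      funext w
      have e1 : mir (Pz k w) = Pz k (mir w) := by
        rcases w with v | ⟨s, c, b⟩
        · rfl
        · simp only [Pz, mir]
          rw [pz_opp h2]
      rw [e1]
    change U (d + k) (fun w => f (Pz k (mir w)))
    rw [← e]
    exact h8
  loc := by
    intro d f A h1 h2 h3 h4 h5 h6 h7 f' h8
    refine hB.loc d (fun w => f (mir w)) (fun y => {w | mir w ∈ A y}) h1 h2 (ok_mir h3)
      (fun y w hw => h4 y (mir w) hw) ?_ (fun y => mir_co (h6 y)) (fun y => h7 y) _ ?_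
    · intro y
      obtain ⟨a, ha⟩ := h5 y
      exact ⟨mir a, by change mir (mir a) ∈ A y; rw [mir_mir]; exact ha⟩
    · intro w y
      exact h8 (mir w) y

theorem JModel.mirror (hf : JModel G H U d f) : JModel G H.mir (mJ U) d (fun u => f (mir u)) where
  mod := hf.mod.mirror
  unb := by
    have h1 := hf.unb
    change U d (fun w => f (mir (mir w)))
    simp only [mir_mir]
    exact h1

lemma wc_mir {w : HV V σ} : wc K (fun u => g (mir u)) us w = wc K g us (mir w) := by
  cases h1 : wc K g us (mir w) with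
  | none =>
    by_contra h2
    obtain ⟨y, hy⟩ := wc_none h2
    rw [wst_mir, ← wc_iff, h1] at hy
    exact absurd hy (by simp)
  | some y =>
    rw [wc_iff, wst_mir, ← wc_iff]
    exact h1

theorem JState.mirror (hS : JState G H U D K g us) :
    JState G H.mir (mJ U) D K (fun u => g (mir u)) us where
  st := hS.st.mirror
  unb := by
    have h1 := hS.unb
    change U D (fun w => wc K (fun u => g (mir u)) us (mir w))
    have e : (fun w => wc K (fun u => g (mir u)) us (mir w)) = wc K g us := by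
      funext w
      rw [wc_mir, mir_mir]
    rw [e]
    exact h1

/-- Minimal states. -/
structure JMin (G : SimpleGraph X) (H : Host V σ) (U : ℤ → (HV V σ → Option X) → Prop) (D K : ℤ)
    (g : HV V σ → Option X) (us : Set (σ × ℕ)) : Prop where
  st : JState G H U D K g us
  m : ∀ f', JModel G H U D f' → us.ncard ≤ mm f'
  c : ∀ g', JState G H U D K g' us → cc G K g us ≤ cc G K g' us

lemma mJ_mJ (U : ℤ → (HV V σ → Option X) → Prop) : mJ (mJ U) = U := by
  funext d f
  change U d (fun w => f (mir (mir w))) = U d f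
  simp only [mir_mir]

theorem JMin.mirror (hM : JMin G H U D K g us) :
    JMin G H.mir (mJ U) D K (fun u => g (mir u)) us where
  st := hM.st.mirror
  m := by
    intro f' hf'
    have h1 := hf'.mirror
    rw [mJ_mJ] at h1
    have h2 := hM.m _ h1
    rw [mm_mir] at h2
    exact h2
  c := by
    intro g' hg'
    have h1 := hg'.mirror
    rw [mJ_mJ] at h1
    have h2 := hM.c _ h1
    rw [cc_mir] at h2
    rw [cc_mir]
    exact h2

/-- Existence of minimal states. -/
theorem exists_jmin [Finite X] (hB : Jnt H N U) (hgd : ∀ v, H.gd v) {K : ℤ} (hd : 0 ≤ d)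
    (hf : JModel G H U d f) (hK : 0 < K) (hN : d + (mm f + 1) * K ≤ N) :
    ∃ (D : ℤ) (g : HV V σ → Option X) (us : Set (σ × ℕ)), d + K ≤ D ∧
      D ≤ d + (mm f + 1) * K ∧ us.ncard ≤ mm f ∧ JMin G H U D K g us := by
  classical
  obtain ⟨D, f', h1, h2, h3, h4, h5, h6⟩ :=
    exists_straight hB hK.le (mm f) d f hd hN hf (le_refl _)
  have h7 := h3.state hB hgd hK (by omega) (by omega) h5 h6
  set us := {p : σ × ℕ | f' (Sum.inr (p.1, p.2, 0)) ≠ none} with hus
  have hex : ∃ n, ∃ g, JState G H U D K g us ∧ cc G K g us = n := ⟨_, f', h7, rfl⟩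
  obtain ⟨g, h8, h9⟩ := Nat.find_spec hex
  refine ⟨D, g, us, h1, h2, h4, h8, h6, ?_⟩
  intro g' hg'
  rw [h9]
  exact Nat.find_min' hex ⟨g', hg', rfl⟩

lemma cutm (A : Set (HV V σ)) :
    (fun w => cut (wc K (fun u => g (mir u)) us) y A (mir w)) =
      cut (wc K g us) y {w | mir w ∈ A} := by
  funext w
  unfold cut
  rw [wc_mir, mir_mir]
  rfl

lemma cutm_rs {s : σ} {i : ℕ} :
    (fun w => cut (wc K (fun u => g (mir u)) us) y
      (Rs H.mir D K (fun u => g (mir u)) us s i y) (mir w)) =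
      cut (wc K g us) y (RsE H D K g us s i true y) := by
  rw [cutm, rsE_mir]

lemma cutm_cp {s : σ} {i : ℕ} :
    (fun w => cut (wc K (fun u => g (mir u)) us) y
      (Cp H.mir D K (fun u => g (mir u)) y (Sum.inr (s, i, -K))) (mir w)) =
      cut (wc K g us) y (Cp H D K g y (pt K s i true)) := by
  rw [cutm, cp_mir]

section

variable [Finite σ]

/-- **(A1)** -/
theorem JMin.a1 (hB : Jnt H N U) (hgd : ∀ v, H.gd v)
    (h4 : ∀ a b c d, G.Adj a b → G.Adj b c → G.Adj c d → G.Adj d a → a = c ∨ b = d)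
    (hM : JMin G H U D K g us) (hK : 2 * us.ncard + 4 ≤ K) (hKD : K ≤ D) (hDN : D ≤ N) {s : σ}
    {i j : ℕ} (hij : Cons us s i j) (e : Bool) (hi : g (pt K s i e) = some y) :
    g (pt K s j e) ≠ some y := by
  intro hj
  cases e
  · obtain ⟨f', h1, h2⟩ := hM.st.a1 hB hgd h4 hK hKD hDN hij hi hj
    exact absurd h2 (not_lt.2 (hM.m f' h1))
  · obtain ⟨f', h1, h2⟩ := hM.mirror.st.a1 hB.mirror hgd h4 hK hKD hDN hij (y := y)
      (by simp only [mir, neg_neg]; exact hi) (by simp only [mir, neg_neg]; exact hj)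
    exact absurd h2 (not_lt.2 (hM.mirror.m f' h1))

/-- Every edge is kissed at most once. -/
theorem JMin.kiss (hB : Jnt H N U) (hgd : ∀ v, H.gd v)
    (h4 : ∀ a b c d, G.Adj a b → G.Adj b c → G.Adj c d → G.Adj d a → a = c ∨ b = d)
    (hM : JMin G H U D K g us) (hK : 2 * us.ncard + 4 ≤ K) (hKD : K ≤ D) (hDN : D ≤ N)
    {s s' : σ} {i j : ℕ}
    (hi : (s, i) ∈ us) (hj : (s', j) ∈ us) (hyz : y ≠ z) {e e' : Bool}
    (h1 : g (pt K s i e) = some z) (h2 : g (pt K s i (!e)) = some y)
    (h3 : g (pt K s' j e') = some z) (h3' : g (pt K s' j (!e')) = some y) :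
    (s, i) = (s', j) := by
  by_contra hne
  cases e
  · obtain ⟨f', h5, h6⟩ := hM.st.kiss1 hB hgd h4 hK hKD hDN hi hj hne hyz h1 h2 (by
      cases e'
      · exact Or.inr ⟨h3, h3'⟩
      · exact Or.inl ⟨h3', h3⟩)
    exact absurd h6 (not_lt.2 (hM.m f' h5))
  · obtain ⟨f', h5, h6⟩ := hM.st.kiss1 hB hgd h4 hK hKD hDN hi hj hne hyz.symm h2 h1 (by
      cases e'
      · exact Or.inl ⟨h3, h3'⟩
      · exact Or.inr ⟨h3', h3⟩)
    exact absurd h6 (not_lt.2 (hM.m f' h5))

/-- A full column which is not a bridge is needed for the imbalance. -/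
theorem JMin.bridge (hB : Jnt H N U) (hgd : ∀ v, H.gd v)
    (h4 : ∀ a b c d, G.Adj a b → G.Adj b c → G.Adj c d → G.Adj d a → a = c ∨ b = d)
    (hM : JMin G H U D K g us) (hK : 2 * us.ncard + 4 ≤ K) (hKD : K ≤ D) (hDN : D ≤ N)
    {s : σ} {i : ℕ}
    (hi : (s, i) ∈ us) (h1 : g (pt K s i false) = some y) (h2 : g (pt K s i true) = some y)
    (h3 : St' H D K g us s i y (pt K s i false) (pt K s i true)) :
    ¬ U D (cut (wc K g us) y (Wst K g (us \ {(s, i)}) y)) := by
  intro h7
  obtain ⟨f', h5, h6⟩ := hM.st.bridge hB hgd h4 hK hKD hDN hi h1 h2 h3 h7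
  exact absurd h6 (not_lt.2 (hM.m f' h5))

/-- Dichotomy for connectors with one port. -/
theorem JMin.dich (hB : Jnt H N U) (hgd : ∀ v, H.gd v)
    (h4 : ∀ a b c d, G.Adj a b → G.Adj b c → G.Adj c d → G.Adj d a → a = c ∨ b = d)
    (hM : JMin G H U D K g us) (hK : 2 * us.ncard + 4 ≤ K) (hKD : K ≤ D) (hDN : D ≤ N)
    {s : σ} {i : ℕ} {e : Bool} (hi : (s, i) ∈ us) (hone : OneE H D K g us s i e y)
    (h1 : g (pt K s i e) = some y) :
    U D (cut (wc K g us) y (RsE H D K g us s i e y)) ∨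
      U D (cut (wc K g us) y (Cp H D K g y (pt K s i e))) := by
  cases e
  · exact leaf_dich hB h4 hM.st hK hKD hDN
      (fun s i j y hc h5 => hM.a1 hB hgd h4 hK hKD hDN hc false h5) hi hone.one h1
  · have h2 := leaf_dich hB.mirror h4 hM.mirror.st hK hKD hDN
      (fun s i j y hc h5 => hM.mirror.a1 hB.mirror hgd h4 hK hKD hDN hc false h5) hi
      hone.mirror.one (by simp only [mir, neg_neg]; exact h1)
    unfold mJ at h2
    rw [cutm_rs, cutm_cp] at h2
    exact h2

/-- If the rest is balanced then so are all its parts. -/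
theorem JMin.rest (hB : Jnt H N U)
    (h4 : ∀ a b c d, G.Adj a b → G.Adj b c → G.Adj c d → G.Adj d a → a = c ∨ b = d)
    (hM : JMin G H U D K g us) (hK : 2 * us.ncard + 4 ≤ K) (hKD : K ≤ D) (hDN : D ≤ N)
    {s : σ} {i : ℕ} {e : Bool} (hi : (s, i) ∈ us) (hone : OneE H D K g us s i e y)
    (h1 : g (pt K s i e) = some y) (h2 : ¬ U D (cut (wc K g us) y (RsE H D K g us s i e y)))
    (A : Set (HV V σ)) (hA : A ⊆ RsE H D K g us s i e y) (hne : A.Nonempty) :
    ¬ U D (cut (wc K g us) y A) := by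
  intro hUA
  apply h2
  have hok := wc_ok hM.st.st (by omega) hKD h4 hK
  have hsub : ∀ w ∈ RsE H D K g us s i e y, wc K g us w = some y :=
    fun w hw => wc_iff.2 (wst_diff_sub hw.1)
  refine hB.up (by omega) hDN hok hsub ?_ hA (fun w hw => hsub w (hA hw)) (fun w z _ hw => hw) hUA
  cases e
  · have h5 := rs_full' hM.st.st hone.one h1 (hne.mono hA)
    exact Co.of (rs_base hM.st.st (by omega) hKD hone.one hi h5)
  · have hS' := hM.mirror.st.st
    have hne' : (Rs H.mir D K (fun u => g (mir u)) us s i y).Nonempty := by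
      obtain ⟨a, ha⟩ := hne
      have ha' := hA ha
      rw [← rsE_mir] at ha'
      exact ⟨mir a, ha'⟩
    have h5 := rs_full' hS' hone.mirror.one (by simp only [mir, neg_neg]; exact h1) hne'
    have h6 : Co H.mir D (Rs H.mir D K (fun u => g (mir u)) us s i y) :=
      Co.of (rs_base hS' (by omega) hKD hone.mirror.one hi h5)
    have h7 := mir_co h6
    rw [rsE_mir] at h7
    exact h7

/-- **(A2)** -/
theorem JMin.a2 [Finite X] (hB : Jnt H N U) (hgd : ∀ v, H.gd v)
    (h4 : ∀ a b c d, G.Adj a b → G.Adj b c → G.Adj c d → G.Adj d a → a = c ∨ b = d)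
    (hM : JMin G H U D K g us) (hK : 2 * us.ncard + 4 ≤ K) (hKD : K ≤ D) (hDN : D ≤ N)
    {cv : X → X → HV V σ} (hA : Asg G H D K g us cv) {s : σ} {i : ℕ} {e : Bool}
    (hi : (s, i) ∈ us) (hone : OneE H D K g us s i e y)
    (h1 : g (pt K s i e) = some y) (hU : U D (cut (wc K g us) y (RsE H D K g us s i e y))) :
    ∃ z z', z ≠ z' ∧ (G.Adj y z ∧ ¬ Ein K g us y z ∧ cv y z ∈ Cp H D K g y (pt K s i e)) ∧
      (G.Adj y z' ∧ ¬ Ein K g us y z' ∧ cv y z' ∈ Cp H D K g y (pt K s i e)) := by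
  -- left ports, for any minimal state
  have key : ∀ (H' : Host V σ) (U' : ℤ → (HV V σ → Option X) → Prop) (g' : HV V σ → Option X)
      (cv' : X → X → HV V σ), Jnt H' N U' → (∀ v, H'.gd v) → JMin G H' U' D K g' us →
      Asg G H' D K g' us cv' → One H' D K g' us s i y → g' (Sum.inr (s, i, -K)) = some y →
      U' D (cut (wc K g' us) y (Rs H' D K g' us s i y)) →
      ∃ z z', z ≠ z' ∧ (G.Adj y z ∧ ¬ Ein K g' us y z ∧
        cv' y z ∈ Cp H' D K g' y (Sum.inr (s, i, -K))) ∧
      (G.Adj y z' ∧ ¬ Ein K g' us y z' ∧ cv' y z' ∈ Cp H' D K g' y (Sum.inr (s, i, -K))) := by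
    intro H' U' g' cv' hB' hgd' hM' hA' hone' h1' hU'
    by_contra hcon
    have hct : ∀ z, G.Adj y z → ¬ Ein K g' us y z →
        cv' y z ∉ Cp H' D K g' y (Sum.inr (s, i, -K)) → ∃ u v,
          u ∉ Cp H' D K g' y (Sum.inr (s, i, -K)) ∧ Out K u ∧ Out K v ∧ H'.Adj D u v ∧
            g' u = some y ∧ g' v = some z := by
      intro z h5 h6 h7
      have h8 : ¬ Ein K g' us z y := fun h => h6 h.symm
      exact ⟨_, _, h7, hA'.out y z h5 h6, hA'.out z y h5.symm h8, hA'.adj y z h5 h6,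
        hA'.col y z h5 h6, hA'.col z y h5.symm h8⟩
    by_cases hex : ∃ x, G.Adj y x ∧ ¬ Ein K g' us y x ∧
        cv' y x ∈ Cp H' D K g' y (Sum.inr (s, i, -K))
    · obtain ⟨x, h5, h6, h7⟩ := hex
      have h8 : ¬ Ein K g' us x y := fun h => h6 h.symm
      obtain ⟨g'', h9, h10⟩ := hM'.st.leaf1 hB' hgd' h4 hK hKD hDN hi hone' h1' hU' h5 h6 h7
        (hA'.out x y h5.symm h8) (hA'.adj y x h5 h6) (hA'.col x y h5.symm h8) (by
          intro z hzx hyz
          by_cases h11 : Ein K g' us y z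
          · exact Or.inl h11
          · right
            apply hct z hyz h11
            intro h12
            exact hcon ⟨z, x, hzx, ⟨hyz, h11, h12⟩, ⟨h5, h6, h7⟩⟩)
      exact absurd h10 (not_lt.2 (hM'.c g'' h9))
    · obtain ⟨f', h5, h6⟩ := hM'.st.leaf0 hB' hgd' h4 hK hKD hDN hi hone' h1' hU' (by
        intro z hyz
        by_cases h11 : Ein K g' us y z
        · exact Or.inl h11
        · right
          apply hct z hyz h11
          intro h12
          exact hex ⟨z, hyz, h11, h12⟩)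
      exact absurd h6 (not_lt.2 (hM'.m f' h5))
  cases e
  · exact key H U g cv hB hgd hM hA hone.one h1 hU
  · -- mirror
    have hA' : Asg G H.mir D K (fun u => g (mir u)) us (fun a b => mir (cv a b)) := by
      refine ⟨?_, ?_, ?_⟩
      · intro a b hab h5
        exact out_mir (hA.out a b hab (fun h => h5 (Ein_mir.2 h)))
      · intro a b hab h5
        simp only [mir_mir]
        exact hA.col a b hab (fun h => h5 (Ein_mir.2 h))
      · intro a b hab h5
        exact adjm (hA.adj a b hab (fun h => h5 (Ein_mir.2 h)))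
    have hp : (mir (Sum.inr (s, i, -K)) : HV V σ) = pt K s i true := by
      simp only [mir, neg_neg]; rfl
    have hU' : mJ U D (cut (wc K (fun u => g (mir u)) us) y
        (Rs H.mir D K (fun u => g (mir u)) us s i y)) := by
      unfold mJ
      rw [cutm_rs]
      exact hU
    obtain ⟨z, z', h5, ⟨h6, h7, h8⟩, h9, h10, h11⟩ := key H.mir (mJ U) (fun u => g (mir u)) _
      hB.mirror hgd hM.mirror hA' hone.mirror.one (by rw [hp]; exact h1) hU'
    rw [Cp_mir, hp, mir_mir] at h8 h11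
    exact ⟨z, z', h5, ⟨h6, fun h => h7 (Ein_mir.2 h), h8⟩, h9, fun h => h10 (Ein_mir.2 h), h11⟩

end

end

end Mdj
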