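import Pool.Agent.EN.JCyc2

/-!
# Choice of the grounded connectors; number of ports of a connector
-/

open Relation

namespace Mdj

open Mdl Mdu

variable {V σ X : Type*}

/-- The connectors of `y`. -/
def Cs (H : Host V σ) (D K : ℤ) (g : HV V σ → Option X) (y : X) : Set (Set (HV V σ)) :=
  {B | ∃ w, Out K w ∧ g w = some y ∧ B = Cp H D K g y w}

/-- The full columns of `y`. -/
def Fc (K : ℤ) (g : HV V σ → Option X) (us : Set (σ × ℕ)) (y : X) : Set (σ × ℕ) :=
  {x | x ∈ us ∧ g (pt K x.1 x.2 false) = some y ∧ g (pt K x.1 x.2 true) = some y}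

section

variable {G : SimpleGraph X} {H : Host V σ} {N D K : ℤ} {U : ℤ → (HV V σ → Option X) → Prop}
  {g : HV V σ → Option X} {us T T' : Set (σ × ℕ)} {x₀ y : X}
  {Nf Nf' : Finset (Set (HV V σ))} {F F' : Finset (σ × ℕ)}

lemma cs_fin (hS : State G H D K g us) : (Cs H D K g y).Finite := by
  have h1 : Cs H D K g y ⊆ (fun w => Cp H D K g y w) '' {w | g w ≠ none} := by
    rintro B ⟨w, _, h2, rfl⟩
    refine ⟨w, ?_, rfl⟩
    change g w ≠ none
    rw [h2]; simp
  exact (hS.fin.image _).subset h1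

lemma fc_fin (hS : State G H D K g us) : (Fc K g us y).Finite :=
  hS.usfin.subset (fun _ hx => hx.1)

lemma cs_dis {B B' : Set (HV V σ)} (h1 : B ∈ Cs H D K g y) (h2 : B' ∈ Cs H D K g y)
    {w : HV V σ} (hw : w ∈ B) (hw' : w ∈ B') : B = B' := by
  obtain ⟨p, _, _, rfl⟩ := h1
  obtain ⟨q, _, _, rfl⟩ := h2
  exact (cp_eq hw).symm.trans (cp_eq hw')

/-- Steps along connectors. -/
lemma cs_change (hS : State G H D K g us) (T : Set (Set (HV V σ)))
    (h1 : ∃ B ∈ Cs H D K g y, B ∈ T) (h2 : ∃ B ∈ Cs H D K g y, B ∉ T) :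
    ∃ x ∈ Fc K g us y, ¬ (Cp H D K g y (pt K x.1 x.2 false) ∈ T ↔
      Cp H D K g y (pt K x.1 x.2 true) ∈ T) := by
  obtain ⟨_, ⟨u, hu, hgu, rfl⟩, hT⟩ := h1
  obtain ⟨_, ⟨v, hv, hgv, rfl⟩, hT'⟩ := h2
  have hc : ∀ w, g w = some y → Mdl.cmp H D K g y w = Cp H D K g y w := by
    intro w hw
    unfold Mdl.cmp
    rw [cl_eq hw]
  obtain ⟨s, c, h3, h4, h5, h6⟩ := hS.change (x₀ := y) hu hv hgu hgv T
    (by rw [hc u hgu]; exact hT) (by rw [hc v hgv]; exact hT')
  rw [hc _ h4, hc _ h5] at h6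
  exact ⟨(s, c), ⟨h3, h4, h5⟩, h6⟩

/-- The whole class. -/
lemma sub_full (hS : State G H D K g us) (hN : ∀ B, B ∈ Nf ↔ B ∈ Cs H D K g y)
    (hF : ∀ x, x ∈ F ↔ x ∈ Fc K g us y) : Sub H D K g us y Nf F where
  nf := fun B hB => (hN B).1 hB
  f := fun x hx => (hF x).1 hx
  en := by
    intro x hx e
    rw [hN]
    obtain ⟨_, h1, h2⟩ := (hF x).1 hx
    refine ⟨_, pt_out, ?_, rfl⟩
    cases e
    · exact h1
    · exact h2
  cn := by
    rintro T ⟨B, hB, h1⟩ ⟨B', hB', h2⟩
    obtain ⟨x, hx, h3⟩ := cs_change hS T ⟨B, (hN B).1 hB, h1⟩ ⟨B', (hN B').1 hB', h2⟩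
    exact ⟨x, (hF x).2 hx, h3⟩

lemma wp_full (hN : ∀ B, B ∈ Nf ↔ B ∈ Cs H D K g y)
    (hF : ∀ x, x ∈ F ↔ x ∈ Fc K g us y) : Wp K Nf F = Wst K g us y := by
  ext w
  constructor
  · rintro (⟨B, hB, hw⟩ | ⟨s, c, b, rfl, h1, h2, h3⟩)
    · obtain ⟨p, h1, h2, rfl⟩ := (hN B).1 hB
      exact wst_out (Cp.out h1 hw) (Cp.col h2 hw)
    · obtain ⟨h4, h5, h6⟩ := (hF _).1 h1
      exact Or.inr ⟨s, c, b, rfl, h4, h5, h6, h2, h3⟩
  · rintro (⟨h1, h2⟩ | ⟨s, c, b, rfl, h1, h2, h3, h4, h5⟩)
    · exact Or.inl ⟨_, (hN _).2 ⟨w, h1, h2, rfl⟩, cp_self⟩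
    · exact Or.inr ⟨s, c, b, rfl, (hF _).2 ⟨h1, h2, h3⟩, h4, h5⟩

/-- **Choice of the grounded connector of `y`.** -/
theorem JMin.exists_gc [Finite σ] (hB : Jnt H N U) (hgd : ∀ v, H.gd v)
    (h4 : ∀ a b c d, G.Adj a b → G.Adj b c → G.Adj c d → G.Adj d a → a = c ∨ b = d)
    (hM : JMin G H U D K g us) (hK : 2 * us.ncard + 4 ≤ K) (hKD : K ≤ D) (hDN : D ≤ N) (y : X) :
    ∃ o : Option (Set (HV V σ)),
      (∀ B, o = some B → B ∈ Cs H D K g y ∧ U D (cut (wc K g us) y B)) ∧
      (o = none → ∀ (Nf : Finset (Set (HV V σ))) (F : Finset (σ × ℕ)),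
        (∀ B, B ∈ Nf ↔ B ∈ Cs H D K g y) → (∀ x, x ∈ F ↔ x ∈ Fc K g us y) →
        Nf.card ≤ F.card) ∧
      ∀ s i e, (s, i) ∈ us → OneE H D K g us s i e y → g (pt K s i e) = some y →
        o ≠ some (Cp H D K g y (pt K s i e)) →
        U D (cut (wc K g us) y (RsE H D K g us s i e y)) := by
  have hS := hM.st.st
  have hA1 : ∀ s i j, Cons us s i j → g (pt K s i false) = some y →
      g (pt K s j false) ≠ some y := fun s i j h => hM.a1 hB hgd h4 hK hKD hDN h false
  by_cases hess : ∃ s i e, (s, i) ∈ us ∧ OneE H D K g us s i e y ∧ g (pt K s i e) = some y ∧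
      ¬ U D (cut (wc K g us) y (RsE H D K g us s i e y))
  · obtain ⟨s, i, e, h1, h2, h3, h5⟩ := hess
    refine ⟨some (Cp H D K g y (pt K s i e)), ?_, fun h => absurd h (by simp), ?_⟩
    · intro B hB'
      rw [Option.some.injEq] at hB'
      rw [← hB']
      refine ⟨⟨_, pt_out, h3, rfl⟩, ?_⟩
      rcases hM.dich hB hgd h4 hK hKD hDN h1 h2 h3 with h6 | h6
      · exact absurd h6 h5
      · exact h6
    · intro s' i' e' h1' h2' h3' h6
      by_contra h7
      have h8 : U D (cut (wc K g us) y (Cp H D K g y (pt K s' i' e'))) := by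
        rcases hM.dich hB hgd h4 hK hKD hDN h1' h2' h3' with h8 | h8
        · exact absurd h8 h7
        · exact h8
      refine hM.rest hB h4 hK hKD hDN h1 h2 h3 h5 _ ?_ ⟨_, cp_self⟩ h8
      intro w hw
      refine ⟨wst_out (Cp.out pt_out hw) (Cp.col h3' hw), ?_⟩
      intro hw'
      apply h6
      rw [cs_dis ⟨_, pt_out, h3, rfl⟩ ⟨_, pt_out, h3', rfl⟩ hw' hw]
  · have hess' : ∀ s i e, (s, i) ∈ us → OneE H D K g us s i e y → g (pt K s i e) = some y →
        U D (cut (wc K g us) y (RsE H D K g us s i e y)) := by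
      intro s i e h1 h2 h3
      by_contra h5
      exact hess ⟨s, i, e, h1, h2, h3, h5⟩
    by_cases hex : ∃ B ∈ Cs H D K g y, U D (cut (wc K g us) y B)
    · obtain ⟨B, h1, h2⟩ := hex
      refine ⟨some B, ?_, fun h => absurd h (by simp), fun s i e h1 h2 h3 _ => hess' s i e h1 h2 h3⟩
      intro B' hB'
      rw [Option.some.injEq] at hB'
      rw [← hB']
      exact ⟨h1, h2⟩
    · refine ⟨none, fun B h => absurd h (by simp), ?_, fun s i e h1 h2 h3 _ => hess' s i e h1 h2 h3⟩
      intro _ Nf F hNf hF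
      by_contra hcon
      apply hex
      obtain ⟨B, h1, h2⟩ := cyc hB h4 hS hK hKD hDN hA1 _ Nf F rfl (sub_full hS hNf hF)
        (by omega) (by
          rw [wp_full hNf hF, cut_id (fun w hw => wc_iff.1 hw)]
          exact hM.st.unb)
      exact ⟨B, (hNf B).1 h1, h2⟩

/-- Bound for the number of ports of a connector. -/
theorem JMin.ports_le [Finite σ] [Finite X] (hB : Jnt H N U) (hgd : ∀ v, H.gd v)
    (h3 : ∀ y, {z | G.Adj y z}.ncard ≤ 3)
    (h4 : ∀ a b c d, G.Adj a b → G.Adj b c → G.Adj c d → G.Adj d a → a = c ∨ b = d)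
    (hM : JMin G H U D K g us) (hK : 2 * us.ncard + 4 ≤ K) (hKD : K ≤ D) (hDN : D ≤ N)
    {cv : X → X → HV V σ} (hA : Asg G H D K g us cv) {o : Option (Set (HV V σ))}
    (ho : ∀ s i e, (s, i) ∈ us → OneE H D K g us s i e y → g (pt K s i e) = some y →
        o ≠ some (Cp H D K g y (pt K s i e)) →
        U D (cut (wc K g us) y (RsE H D K g us s i e y)))
    {w₀ : HV V σ} (hw₀ : Out K w₀) (hgw : g w₀ = some y) (A : Finset (σ × ℕ × Bool))
    (hAp : ∀ x ∈ A, (x.1, x.2.1) ∈ us ∧
      pt K x.1 x.2.1 x.2.2 ∈ Cp H D K g y w₀) : A.card ≤ 7 := by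
  classical
  have hS := hM.st.st
  have husf := hS.usfin
  -- ports of `y`
  set U' : Finset (σ × ℕ) := husf.toFinset with hU
  have hUm : ∀ p, p ∈ U' ↔ p ∈ us := fun p => husf.mem_toFinset
  set cm : HV V σ → Set (HV V σ) := Cp H D K g y with hcm
  set PT : Finset (σ × ℕ × Bool) := (U' ×ˢ (Finset.univ : Finset Bool)).image
    (fun p => (p.1.1, p.1.2, p.2)) with hPT
  have hPTm : ∀ x : σ × ℕ × Bool, x ∈ PT ↔ (x.1, x.2.1) ∈ us := by
    rintro ⟨s, c, e⟩
    simp only [hPT, Finset.mem_image, Finset.mem_product, Finset.mem_univ, and_true, Prod.exists,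
      Prod.mk.injEq, Bool.exists_bool]
    constructor
    · rintro ⟨a, b, h | h⟩
      · obtain ⟨h1, rfl, rfl, _⟩ := h
        exact (hUm _).1 h1
      · obtain ⟨h1, rfl, rfl, _⟩ := h
        exact (hUm _).1 h1
    · intro h
      refine ⟨s, c, ?_⟩
      cases e
      · exact Or.inl ⟨(hUm _).2 h, rfl, rfl, rfl⟩
      · exact Or.inr ⟨(hUm _).2 h, rfl, rfl, rfl⟩
  set PY : Finset (σ × ℕ × Bool) := PT.filter (fun x => g (pt K x.1 x.2.1 x.2.2) = some y)
    with hPY
  set Kis : Finset (σ × ℕ × Bool) := PY.filter (fun x => g (pt K x.1 x.2.1 (!x.2.2)) ≠ some y)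
    with hKis
  set F : Finset (σ × ℕ) := U'.filter (fun x => g (pt K x.1 x.2 false) = some y ∧
    g (pt K x.1 x.2 true) = some y) with hF
  -- connectors of `y`
  have hNfin : (Cs H D K g y).Finite := cs_fin hS
  set Nf : Finset (Set (HV V σ)) := hNfin.toFinset with hN
  have hNm : ∀ B, B ∈ Nf ↔ ∃ w, Out K w ∧ g w = some y ∧ B = cm w := fun B => hNfin.mem_toFinset
  have hk : cm w₀ ∈ Nf := (hNm _).2 ⟨w₀, hw₀, hgw, rfl⟩
  -- (1) full columns
  have hforest : F.card ≤ Nf.card := by
    refine hM.full_le hB hgd h4 hK hKD hDN (y := y) Nf F ⟨_, hk⟩ ?_ ?_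
    · intro x hx
      rw [hF, Finset.mem_filter, hUm] at hx
      exact hx
    · intro x hx e
      rw [hF, Finset.mem_filter, hUm] at hx
      refine (hNm _).2 ⟨_, pt_out, ?_, rfl⟩
      cases e
      · exact hx.2.1
      · exact hx.2.2
  -- neighbours of `y`
  have hnbf : {z | G.Adj y z}.Finite := Set.toFinite _
  set Nb : Finset X := hnbf.toFinset with hNb
  have hNbm : ∀ z, z ∈ Nb ↔ G.Adj y z := fun z => hnbf.mem_toFinset
  have hNbc : Nb.card ≤ 3 := by
    rw [← Set.ncard_eq_toFinset_card _ hnbf]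
    exact h3 y
  -- (2) kisses
  have hkis : Kis.card ≤ 3 := by
    refine le_trans (Finset.card_le_card_of_injOn
      (fun x => cl g y (pt K x.1 x.2.1 (!x.2.2))) ?_ ?_) hNbc
    · rintro ⟨s, c, e⟩ hx
      rw [Finset.mem_coe, hKis, Finset.mem_filter, hPY, Finset.mem_filter, hPTm] at hx
      obtain ⟨⟨hx1, hx2⟩, hx3⟩ := hx
      obtain ⟨a, ha⟩ := hS.pt_col hx1 (!e)
      rw [Finset.mem_coe, hNbm]
      simp only
      rw [cl_eq ha]
      obtain ⟨p, q, hp, hq, hpq⟩ := hS.own s c hx1
      simp only at hx2 hx3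
      cases e
      · have e1 : p = y := by
          have := hp.symm.trans hx2
          exact Option.some.inj this
        have e2 : q = a := Option.some.inj (hq.symm.trans ha)
        subst e1 e2
        rcases hpq with h5 | h5
        · exfalso
          apply hx3
          rw [ha, h5]
        · exact h5
      · have e1 : q = y := Option.some.inj (hq.symm.trans hx2)
        have e2 : p = a := Option.some.inj (hp.symm.trans ha)
        subst e1 e2
        rcases hpq with h5 | h5
        · exfalso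
          apply hx3
          rw [ha, h5]
        · exact h5.symm
    · rintro ⟨s, c, e⟩ hx ⟨s', c', e'⟩ hx' heq
      rw [Finset.mem_coe, hKis, Finset.mem_filter, hPY, Finset.mem_filter, hPTm] at hx hx'
      obtain ⟨⟨hx1, hx2⟩, hx3⟩ := hx
      obtain ⟨⟨hx1', hx2'⟩, hx3'⟩ := hx'
      obtain ⟨a, ha⟩ := hS.pt_col hx1 (!e)
      obtain ⟨a', ha'⟩ := hS.pt_col hx1' (!e')
      simp only at heq hx2 hx3 hx1' hx2' hx3' hx1
      rw [cl_eq ha, cl_eq ha'] at heq
      subst heq
      have hay : a ≠ y := by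
        rintro rfl
        exact hx3 ha
      have h5 := hM.kiss hB hgd h4 hK hKD hDN hx1 hx1' (y := a) (z := y) hay hx2 ha hx2' ha'
      obtain ⟨rfl, rfl⟩ := Prod.mk.inj h5
      have h6 : e = e' := by
        by_contra hne
        have h7 : e' = !e := bool_not (fun h => hne h.symm)
        rw [h7] at hx2'
        rw [ha, Option.some.injEq] at hx2'
        exact hay hx2'
      rw [h6]
  -- (3) number of ports of `y`
  have hPYc : PY.card ≤ 2 * F.card + 3 := by
    have h1 : PY ⊆ Kis ∪ (F ×ˢ (Finset.univ : Finset Bool)).image (fun p => (p.1.1, p.1.2, p.2)) := by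
      rintro ⟨s, c, e⟩ hx
      rw [Finset.mem_union]
      by_cases h5 : g (pt K s c (!e)) = some y
      · right
        have hx' := hx
        rw [hPY, Finset.mem_filter, hPTm] at hx
        obtain ⟨hx1, hx2⟩ := hx
        simp only at hx1 hx2
        rw [Finset.mem_image]
        refine ⟨((s, c), e), ?_, rfl⟩
        rw [Finset.mem_product]
        refine ⟨?_, Finset.mem_univ _⟩
        rw [hF, Finset.mem_filter]
        refine ⟨(hUm _).2 hx1, ?_⟩
        cases e
        · exact ⟨hx2, h5⟩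
        · exact ⟨h5, hx2⟩
      · left
        rw [hKis, Finset.mem_filter]
        exact ⟨hx, h5⟩
    have h2 := Finset.card_le_card h1
    have h5 := Finset.card_union_le Kis
      ((F ×ˢ (Finset.univ : Finset Bool)).image (fun p => (p.1.1, p.1.2, p.2)))
    have h6 : ((F ×ˢ (Finset.univ : Finset Bool)).image (fun p => (p.1.1, p.1.2, p.2))).card ≤
        2 * F.card := by
      refine le_trans Finset.card_image_le ?_
      rw [Finset.card_product]
      simp only [Finset.card_univ, Fintype.card_bool]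
      omega
    omega
  -- (4) fibres
  set P : Set (HV V σ) → Finset (σ × ℕ × Bool) := fun B =>
    PY.filter (fun x => cm (pt K x.1 x.2.1 x.2.2) = B) with hP
  have hsum : ∑ B ∈ Nf, (P B).card = PY.card := by
    rw [Finset.card_eq_sum_card_fiberwise (f := fun x => cm (pt K x.1 x.2.1 x.2.2)) (t := Nf)]
    rintro ⟨s, c, e⟩ hx
    rw [Finset.mem_coe, hPY, Finset.mem_filter] at hx
    rw [Finset.mem_coe, hNm]
    exact ⟨_, pt_out, hx.2, rfl⟩
  have hAk : A.card ≤ (P (cm w₀)).card := by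
    apply Finset.card_le_card
    rintro ⟨s, c, e⟩ hx
    obtain ⟨h1, h2⟩ := hAp _ hx
    simp only at h1 h2
    rw [hP, Finset.mem_filter, hPY, Finset.mem_filter, hPTm]
    exact ⟨⟨h1, Cp.col hgw h2⟩, cp_eq h2⟩
  refine le_trans hAk ?_
  -- (5) one port
  set N1 : Finset (Set (HV V σ)) := Nf.filter (fun B => (P B).card ≤ 1) with hN1
  have hport : 2 ≤ Nf.card → ∀ B ∈ Nf, 1 ≤ (P B).card := by
    intro h2 B hB'
    obtain ⟨B', hB'', hne⟩ := Finset.exists_mem_ne h2 B
    obtain ⟨x, h5, h8⟩ := cs_change hS {B} ⟨B, (hNm B).1 hB', rfl⟩ ⟨B', (hNm B').1 hB'', hne⟩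
    obtain ⟨h5, h6, h7⟩ := h5
    rw [Nat.succ_le_iff, Finset.card_pos]
    by_cases h9 : Cp H D K g y (pt K x.1 x.2 false) ∈ ({B} : Set (Set (HV V σ)))
    · refine ⟨(x.1, x.2, false), ?_⟩
      rw [hP, Finset.mem_filter, hPY, Finset.mem_filter, hPTm]
      exact ⟨⟨h5, h6⟩, h9⟩
    · have h10 : Cp H D K g y (pt K x.1 x.2 true) ∈ ({B} : Set (Set (HV V σ))) := by
        by_contra h11
        exact h8 ⟨fun h => absurd h h9, fun h => absurd h h11⟩
      refine ⟨(x.1, x.2, true), ?_⟩
      rw [hP, Finset.mem_filter, hPY, Finset.mem_filter, hPTm]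
      exact ⟨⟨h5, h7⟩, h10⟩
  by_cases hN2 : 2 ≤ Nf.card
  · -- contacts used by one-port connectors
    set Z : Set (HV V σ) → Finset X := fun B =>
      Nb.filter (fun z => ¬ Ein K g us y z ∧ cv y z ∈ B) with hZ
    have hleaf : ∀ B ∈ N1, o ≠ some B → 2 ≤ (Z B).card := by
      intro B hB' hBg
      rw [hN1, Finset.mem_filter] at hB'
      have h1 : (P B).card = 1 := le_antisymm hB'.2 (hport hN2 B hB'.1)
      obtain ⟨⟨s, c, e⟩, hx⟩ := Finset.card_eq_one.1 h1
      have hxm : (s, c, e) ∈ P B := by rw [hx]; exact Finset.mem_singleton_self _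
      rw [hP, Finset.mem_filter, hPY, Finset.mem_filter, hPTm] at hxm
      obtain ⟨⟨h5, h6⟩, h7⟩ := hxm
      simp only at h5 h6 h7
      have h8 : Cp H D K g y (pt K s c e) = B := h7
      have hone : OneE H D K g us s c e y := by
        intro s' c' e' h16 h17
        have h18 : g (pt K s' c' e') = some y := Cp.col h6 h17
        have h19 : (s', c', e') ∈ P B := by
          rw [hP, Finset.mem_filter, hPY, Finset.mem_filter, hPTm]
          exact ⟨⟨h16, h18⟩, (cp_eq h17).trans h7⟩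
        rw [hx, Finset.mem_singleton] at h19
        simp only [Prod.mk.injEq] at h19
        exact h19
      obtain ⟨z, z', h9, ⟨h10, h11, h12⟩, h13, h14, h15⟩ := hM.a2 hB hgd h4 hK hKD hDN hA h5
        hone h6 (ho s c e h5 hone h6 (by rw [h7]; exact hBg))
      rw [h8] at h12 h15
      have h16 : ({z, z'} : Finset X) ⊆ Z B := by
        intro a ha
        rw [Finset.mem_insert, Finset.mem_singleton] at ha
        rw [hZ, Finset.mem_filter, hNbm]
        rcases ha with rfl | rfl
        · exact ⟨h10, h11, h12⟩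
        · exact ⟨h13, h14, h15⟩
      have h17 := Finset.card_le_card h16
      rw [Finset.card_pair h9] at h17
      exact h17
    have hN1c : N1.card ≤ 2 := by
      have h1 : (N1.filter (fun B => o ≠ some B)).card ≤ 1 := by
        by_contra hcon
        have h5 : 1 < (N1.filter (fun B => o ≠ some B)).card := not_le.1 hcon
        obtain ⟨B, hB', B', hB'', hne⟩ := Finset.one_lt_card.1 h5
        rw [Finset.mem_filter] at hB' hB''
        have h6 := hleaf B hB'.1 hB'.2
        have h7 := hleaf B' hB''.1 hB''.2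
        have h8 : Disjoint (Z B) (Z B') := by
          rw [Finset.disjoint_left]
          intro z hz hz'
          rw [hZ, Finset.mem_filter] at hz hz'
          apply hne
          have hBN := (Finset.mem_filter.1 hB'.1).1
          have hBN' := (Finset.mem_filter.1 hB''.1).1
          exact cs_dis ((hNm B).1 hBN) ((hNm B').1 hBN') hz.2.2 hz'.2.2
        have h9 : (Z B ∪ Z B').card ≤ Nb.card := by
          apply Finset.card_le_card
          intro z hz
          rw [Finset.mem_union] at hz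
          rcases hz with hz | hz
          · exact (Finset.mem_filter.1 hz).1
          · exact (Finset.mem_filter.1 hz).1
        rw [Finset.card_union_of_disjoint h8] at h9
        omega
      have h2 : (N1.filter (fun B => ¬ o ≠ some B)).card ≤ 1 := by
        rw [Finset.card_le_one]
        intro a ha b hb
        rw [Finset.mem_filter, not_not] at ha hb
        exact Option.some.inj (ha.2.symm.trans hb.2)
      have h5 := Finset.card_filter_add_card_filter_not (s := N1) (fun B => o ≠ some B)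
      omega
    -- count
    have h1 : ∑ B ∈ Nf, (P B).card = (P (cm w₀)).card + ∑ B ∈ Nf.erase (cm w₀), (P B).card :=
      (Finset.add_sum_erase Nf _ hk).symm
    have h2 : 2 * (Nf.erase (cm w₀)).card ≤ ∑ B ∈ Nf.erase (cm w₀), (P B).card + N1.card := by
      have h5 : ∀ B ∈ Nf.erase (cm w₀), 2 ≤ (P B).card + (if B ∈ N1 then 1 else 0) := by
        intro B hB'
        rw [Finset.mem_erase] at hB'
        split_ifs with h6
        · have := hport hN2 B hB'.2
          omega
        · by_contra h7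
          apply h6
          rw [hN1, Finset.mem_filter]
          exact ⟨hB'.2, by omega⟩
      have h6 := Finset.sum_le_sum h5
      rw [Finset.sum_const, smul_eq_mul, Finset.sum_add_distrib] at h6
      have h7 : ∑ B ∈ Nf.erase (cm w₀), (if B ∈ N1 then 1 else 0) ≤ N1.card := by
        rw [← Finset.sum_filter, Finset.sum_const, smul_eq_mul, mul_one]
        apply Finset.card_le_card
        intro B hB'
        exact (Finset.mem_filter.1 hB').2
      omega
    have h5 : (Nf.erase (cm w₀)).card = Nf.card - 1 := Finset.card_erase_of_mem hk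
    omega
  · have h1 : (P (cm w₀)).card ≤ PY.card := by
      rw [hP]
      exact Finset.card_filter_le _ _
    omega

end

end Mdj
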