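import Pool.Agent.EN.UState

/-!
# Leaves with unbalanced classes; the initial state
-/

open Relation

namespace Mdu

open Mdl

variable {V σ X : Type*}

/-- The rest of the class of `y` without the connector at the left end of `(s, i)` and without the
interior of this column. -/
def Rs (H : Host V σ) (D K : ℤ) (g : HV V σ → Option X) (us : Set (σ × ℕ)) (s : σ) (i : ℕ)
    (y : X) : Set (HV V σ) :=
  {w | w ∈ Wst K g (us \ {(s, i)}) y ∧ w ∉ Cp H D K g y (Sum.inr (s, i, -K))}

section

variable {G : SimpleGraph X} {H : Host V σ} {N D K : ℤ} {U : ℤ → Set (HV V σ) → Prop}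
  {g f : HV V σ → Option X} {us : Set (σ × ℕ)} {h : σ → ℕ → ℤ} {x y z : X}

lemma rs_out {s : σ} {i : ℕ} {w : HV V σ} (h1 : Out K w) (h2 : g w = some y)
    (h3 : w ∉ Cp H D K g y (Sum.inr (s, i, -K))) : w ∈ Rs H D K g us s i y :=
  ⟨Or.inl ⟨h1, h2⟩, h3⟩

lemma rs_col {s : σ} {i : ℕ} (hone : One H D K g us s i y) {s' : σ} {c : ℕ} {b : ℤ}
    (hc : (s', c) ∈ us) (hne : (s', c) ≠ (s, i)) (h1 : g (pt K s' c false) = some y)
    (h2 : g (pt K s' c true) = some y) (h3 : -K ≤ b) (h4 : b ≤ K) :
    (Sum.inr (s', c, b) : HV V σ) ∈ Rs H D K g us s i y := by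
  refine ⟨wst_col ⟨hc, hne⟩ h1 h2 h3 h4, ?_⟩
  intro h5
  have h6 : Out K (Sum.inr (s', c, b) : HV V σ) := Cp.out out_left h5
  have h7 : b ≤ -K ∨ K ≤ b := h6
  rcases h7 with h7 | h7
  · have : b = -K := by omega
    rw [this] at h5
    exact hne ((hone s' c hc).1 h5)
  · have : b = K := by omega
    rw [this] at h5
    exact (hone s' c hc).2 h5

/-- Connections outside of the leaf. -/
lemma rs_pa (hS : State G H D K g us) (hK : 0 < K) (hKD : K ≤ D) {s : σ} {i : ℕ}
    (hone : One H D K g us s i y) {u v : HV V σ}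
    (hu : u ∉ Cp H D K g y (Sum.inr (s, i, -K))) (huv : St' H D K g us s i y u v) :
    v ∉ Cp H D K g y (Sum.inr (s, i, -K)) ∧ Pa H D (Rs H D K g us s i y) u v := by
  unfold St' at huv
  induction huv with
  | refl => exact ⟨hu, ReflTransGen.refl⟩
  | tail _ hbc ih =>
    rename_i b c _
    rcases hbc with h7 | ⟨s', c', h7, h8, h9, h10⟩
    · have h11 : c ∉ Cp H D K g y (Sum.inr (s, i, -K)) := by
        intro h11
        exact ih.1 (Cp.step h11 h7.symm)
      refine ⟨h11, ih.2.trans (Pa.one h7.2.2.1 ?_ ?_)⟩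
      · exact rs_out h7.1 h7.2.2.2.1 ih.1
      · exact rs_out h7.2.1 h7.2.2.2.2 h11
    · have hne : (s', c') ≠ (s, i) := fun h12 => h7.2 (by rw [h12]; rfl)
      have h11 : (Sum.inr (s', c', -K) : HV V σ) ∉ Cp H D K g y (Sum.inr (s, i, -K)) :=
        fun h13 => hne ((hone s' c' h7.1).1 h13)
      have h12 := (hone s' c' h7.1).2
      have h13 : Pa H D (Rs H D K g us s i y) (Sum.inr (s', c', -K)) (Sum.inr (s', c', K)) := by
        refine Pa.vert (hS.lt h7.1) (by omega) hKD (by omega) ?_
        intro b' hb hb'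
        exact rs_col hone h7.1 hne h8 h9 hb hb'
      rcases h10 with ⟨rfl, rfl⟩ | ⟨rfl, rfl⟩
      · exact ⟨h12, ih.2.trans h13⟩
      · exact ⟨h11, ih.2.trans h13.symm⟩

/-- If something remains then the column is full. -/
lemma rs_full (hS : State G H D K g us) {s : σ} {i : ℕ} (hone : One H D K g us s i y)
    (h1 : g (Sum.inr (s, i, -K)) = some y) {w : HV V σ} (hwo : Out K w) (hw : g w = some y)
    (hwk : w ∉ Cp H D K g y (Sum.inr (s, i, -K))) : g (Sum.inr (s, i, K)) = some y := by
  by_contra hcon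
  apply hwk
  have h2 := hS.con y (Sum.inr (s, i, -K)) w out_left hwo h1 hw
  have key : ∀ p, St H D K g us y (Sum.inr (s, i, -K)) p →
      p ∈ Cp H D K g y (Sum.inr (s, i, -K)) := by
    intro p hp
    induction hp with
    | refl => exact ReflTransGen.refl
    | tail _ hbc ih =>
      rcases hbc with h3 | ⟨s', c', h3, h4, h5, h6⟩
      · exact Cp.step ih h3
      · rcases h6 with ⟨rfl, rfl⟩ | ⟨rfl, rfl⟩
        · obtain ⟨rfl, rfl⟩ := Prod.mk.inj ((hone s' c' h3).1 ih)
          exact absurd h5 hcon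
        · exact absurd ih (hone s' c' h3).2
  exact key _ h2

lemma rs_full' (hS : State G H D K g us) {s : σ} {i : ℕ} (hone : One H D K g us s i y)
    (h1 : g (Sum.inr (s, i, -K)) = some y) (hne : (Rs H D K g us s i y).Nonempty) :
    g (Sum.inr (s, i, K)) = some y := by
  obtain ⟨w, h2, h3⟩ := hne
  rcases h2 with ⟨h2, h4⟩ | ⟨s', c, b, rfl, h5, h6, h7, _, _⟩
  · exact rs_full hS hone h1 h2 h4 h3
  · exact rs_full hS hone h1 out_right h7 (hone s' c h5.1).2

/-- The rest is connected. -/
lemma rs_base (hS : State G H D K g us) (hK : 0 < K) (hKD : K ≤ D) {s : σ} {i : ℕ}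
    (hone : One H D K g us s i y) (hi : (s, i) ∈ us) (h2 : g (Sum.inr (s, i, K)) = some y) :
    ∀ w ∈ Rs H D K g us s i y, Pa H D (Rs H D K g us s i y) (Sum.inr (s, i, K)) w := by
  have hout : ∀ w, Out K w → g w = some y → w ∉ Cp H D K g y (Sum.inr (s, i, -K)) →
      Pa H D (Rs H D K g us s i y) (Sum.inr (s, i, K)) w := by
    intro w h3 h4 h5
    exact (rs_pa hS hK hKD hone (hone s i hi).2
      ((leaf_split hone (hone s i hi).2 (hS.con y _ w out_right h3 h2 h4)).1 h5)).2
  rintro w ⟨⟨h3, h4⟩ | ⟨s', c, b, rfl, h5, h6, h7, h8, h9⟩, h10⟩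
  · exact hout w h3 h4 h10
  · refine (hout _ out_right h7 (hone s' c h5.1).2).trans ?_
    refine (Pa.vert (hS.lt h5.1) (by omega) hKD h9.le ?_).symm
    intro b' hb hb'
    exact rs_col hone h5.1 (fun h11 => h5.2 (by rw [h11]; rfl)) h6 h7 (by omega) hb'

lemma cp_co {p : HV V σ} : Co H D (Cp H D K g y p) := by
  apply Co.of (p := p)
  intro w hw
  have hw' : ReflTransGen (OA H D K g y) p w := hw
  clear hw
  unfold Pa
  induction hw' with
  | refl => exact ReflTransGen.refl
  | tail hab hbc ih =>
    exact ReflTransGen.tail ih ⟨hbc.2.2.1, hab, ReflTransGen.tail hab hbc⟩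

lemma cp_rg (hS : State G H D K g us) {p : HV V σ} (hp : g p = some y) :
    Rg H D (Cp H D K g y p) := by
  intro s c b h1
  apply hS.sup
  rw [Cp.col hp h1]
  simp

lemma cp_fin (hS : State G H D K g us) {p : HV V σ} (hp : g p = some y) :
    (Cp H D K g y p).Finite := by
  refine hS.fin.subset ?_
  intro w hw
  change g w ≠ none
  rw [Cp.col hp hw]
  simp

lemma wst_fin [Finite σ] (hS : State G H D K g us) (hK : 2 ≤ K) (hKD : K ≤ D)
    (h4 : ∀ a b c d, G.Adj a b → G.Adj b c → G.Adj c d → G.Adj d a → a = c ∨ b = d)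
    (hKu : 2 * us.ncard + 4 ≤ K) : (Wst K g us y).Finite := by
  by_cases hne : us.Nonempty
  · obtain ⟨⟨s, c⟩, _⟩ := hne
    obtain ⟨h, hh, _, _⟩ := exists_hts h4 hS hKu s c (fun _ _ => none)
      (fun _ _ _ _ _ hx => absurd hx (by simp))
    exact (Model.fin' (hS.model hh hK hKD) y).subset (fun w hw => wst_rz hS hh hw)
  · rw [Set.not_nonempty_iff_eq_empty] at hne
    refine hS.fin.subset ?_
    rintro w (⟨_, h1⟩ | ⟨s, c, b, _, h1, _⟩)
    · change g w ≠ none
      rw [h1]; simp
    · rw [hne] at h1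
      exact h1.elim

/-- Neighbours of an interior vertex of a column. -/
lemma nb_mid (hKD : K ≤ D) {s : σ} {c : ℕ} {b : ℤ} (h1 : -K < b) (h2 : b < K) {w : HV V σ}
    (hw : H.Adj D w (Sum.inr (s, c, b))) : ∃ c' b', w = Sum.inr (s, c', b') ∧
      ((c' = c ∧ (b' = b + 1 ∨ b' = b - 1)) ∨ (b' = b ∧ (c' = c + 1 ∨ c = c' + 1))) := by
  rcases w with v | ⟨s', c', b'⟩
  · rcases hw with ⟨_, h3⟩ | h3
    · rcases h3 with ⟨h3, _⟩ | ⟨h3, _⟩ <;> omega
    · exact h3.elim
  · rcases hw with ⟨h3, _, _, _, h4⟩ | ⟨h3, _, _, _, h4⟩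
    · rcases h4 with ⟨h4, h5⟩ | ⟨h4, h5, h6⟩
      · exact ⟨c', b', by rw [h3], Or.inl ⟨h4, Or.inr (by omega)⟩⟩
      · exact ⟨c', b', by rw [h3], Or.inr ⟨h5.symm, Or.inr h4⟩⟩
    · rcases h4 with ⟨h4, h5⟩ | ⟨h4, h5, h6⟩
      · exact ⟨c', b', by rw [h3], Or.inl ⟨h4.symm, Or.inl (by omega)⟩⟩
      · exact ⟨c', b', by rw [h3], Or.inr ⟨h5, Or.inl h4⟩⟩

/-- **Dichotomy**: a connector with one port is unbalanced or the rest of the class is. -/
theorem leaf_dich [Finite σ] (hB : Bal H N U)
    (h4 : ∀ a b c d, G.Adj a b → G.Adj b c → G.Adj c d → G.Adj d a → a = c ∨ b = d)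
    (hS : UState G H U D K g us) (hK : 2 * us.ncard + 4 ≤ K) (hKD : K ≤ D) (hDN : D ≤ N)
    (hA1 : ∀ s i j y, Cons us s i j → g (pt K s i false) = some y → g (pt K s j false) ≠ some y)
    {s : σ} {i : ℕ} (hi : (s, i) ∈ us) (hone : One H D K g us s i y)
    (h1 : g (Sum.inr (s, i, -K)) = some y) :
    U D (Rs H D K g us s i y) ∨ U D (Cp H D K g y (Sum.inr (s, i, -K))) := by
  have hS' := hS.st
  have hil := hS'.lt hi
  have hK0 : 4 ≤ K := by omega
  set κ := Cp H D K g y (Sum.inr (s, i, -K)) with hκ
  have hκo : ∀ w ∈ κ, Out K w := fun w hw => Cp.out out_left hw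
  have hκc : ∀ w ∈ κ, g w = some y := fun w hw => Cp.col h1 hw
  have hp0 : (Sum.inr (s, i, -K) : HV V σ) ∈ κ := ReflTransGen.refl
  have hwf := wst_fin (y := y) hS' (by omega) hKD h4 hK
  have hWf : Rg H D (Wst K g us y) := wst_rg hS' hKD
  by_cases h2 : g (Sum.inr (s, i, K)) = some y
  · -- full column
    set C : Set (HV V σ) := {w | ∃ b : ℤ, w = Sum.inr (s, i, b) ∧ -K ≤ b ∧ b ≤ K} with hC
    have hCm : ∀ b : ℤ, -K ≤ b → b ≤ K → (Sum.inr (s, i, b) : HV V σ) ∈ C :=
      fun b h5 h6 => ⟨b, rfl, h5, h6⟩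
    have hCW : C ⊆ Wst K g us y := by
      rintro w ⟨b, rfl, h5, h6⟩
      exact wst_col hi h1 h2 h5 h6
    have hκW : κ ⊆ Wst K g us y := fun w hw => wst_out (hκo w hw) (hκc w hw)
    have hRW : Rs H D K g us s i y ⊆ Wst K g us y := fun w hw => wst_diff_sub hw.1
    have hCc : Co H D C := by
      apply Co.of (p := Sum.inr (s, i, -K))
      rintro w ⟨b, rfl, h5, h6⟩
      refine Pa.vert hil (by omega) (by omega) h5 ?_
      intro b' h7 h8
      exact hCm b' h7 (by omega)
    have hκco : Co H D κ := cp_co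
    have hκCco : Co H D (κ ∪ C) := by
      apply Co.of (p := Sum.inr (s, i, -K))
      rintro w (hw | hw)
      · exact (hκco _ hp0 w hw).mono Set.subset_union_left
      · exact (hCc _ (hCm _ (by omega) (by omega)) w hw).mono Set.subset_union_right
    have hRc : Co H D (Rs H D K g us s i y) :=
      Co.of (rs_base hS' (by omega) hKD hone hi h2)
    have hRn : (Sum.inr (s, i, K) : HV V σ) ∉ κ := (hone s i hi).2
    have hRm : (Sum.inr (s, i, K) : HV V σ) ∈ Rs H D K g us s i y := rs_out out_right h2 hRn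
    have e1 : Rs H D K g us s i y ∪ (κ ∪ C) = Wst K g us y := by
      ext w
      constructor
      · rintro (hw | hw | hw)
        · exact hRW hw
        · exact hκW hw
        · exact hCW hw
      · intro hw
        by_cases hwk : w ∈ κ
        · exact Or.inr (Or.inl hwk)
        · rcases hw with ⟨h5, h6⟩ | ⟨s', c, b, rfl, h5, h6, h7, h8, h9⟩
          · exact Or.inl (rs_out h5 h6 hwk)
          · by_cases h10 : (s', c) = (s, i)
            · obtain ⟨rfl, rfl⟩ := Prod.mk.inj h10
              exact Or.inr (Or.inr (hCm b h8.le h9.le))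
            · exact Or.inl ⟨Or.inr ⟨s', c, b, rfl, ⟨h5, h10⟩, h6, h7, h8, h9⟩, hwk⟩
    have e2 : Rs H D K g us s i y ∩ (κ ∪ C) = {Sum.inr (s, i, K)} := by
      ext w
      constructor
      · rintro ⟨⟨h5, h6⟩, h7 | ⟨b, rfl, h7, h8⟩⟩
        · exact absurd h7 h6
        · rcases h5 with ⟨h5, _⟩ | ⟨s', c, b', h9, h10, _⟩
          · have h5' : b ≤ -K ∨ K ≤ b := h5
            rcases h5' with h5' | h5'
            · have : b = -K := by omega
              rw [this] at h6
              exact absurd hp0 h6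
            · have : b = K := by omega
              rw [this]
              rfl
          · simp only [Sum.inr.injEq, Prod.mk.injEq] at h9
            obtain ⟨rfl, rfl, _⟩ := h9
            exact absurd rfl h10.2
      · rintro rfl
        exact ⟨hRm, Or.inr (hCm K (by omega) (le_refl _))⟩
    have hsing : Co H D ({Sum.inr (s, i, K)} : Set (HV V σ)) := by
      rintro u rfl v rfl
      exact ReflTransGen.refl
    have h5 := hB.modu D (Rs H D K g us s i y) (κ ∪ C) (by omega) hDN
      (fun a b c hh => hWf a b c (hRW hh))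
      (fun a b c hh => hWf a b c (Set.union_subset hκW hCW hh))
      (hwf.subset hRW) (hwf.subset (Set.union_subset hκW hCW)) hRc hκCco
      (by rw [e2]; exact Set.singleton_nonempty _) (by rw [e2]; exact hsing)
      (by
        intro a ha b hb haB hbA hab
        rcases hb with hb | ⟨b₀, rfl, h7, h8⟩
        · -- `b` in the connector
          rcases ha with ⟨⟨h7, h8⟩ | ⟨s', c, b', rfl, h9, h10, h11, h12, h13⟩, h6⟩
          · exact h6 (Cp.step hb ⟨hκo b hb, h7, hab.symm, hκc b hb, h8⟩)
          · obtain ⟨c', b'', rfl, h14⟩ := nb_mid hKD h12 h13 hab.symm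
            have h15 : b'' ≤ -K ∨ K ≤ b'' := hκo _ hb
            rcases h14 with ⟨rfl, h14⟩ | ⟨rfl, _⟩
            · rcases h15 with h15 | h15
              · have : b'' = -K := by omega
                rw [this] at hb
                exact h9.2 (by rw [(hone s' c' h9.1).1 hb]; rfl)
              · have : b'' = K := by omega
                rw [this] at hb
                exact (hone s' c' h9.1).2 hb
            · omega
        · -- `b` in the column
          by_cases h9 : -K < b₀ ∧ b₀ < K
          · obtain ⟨c', b', rfl, h10⟩ := nb_mid hKD h9.1 h9.2 hab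
            rcases h10 with ⟨rfl, h10⟩ | ⟨rfl, h10⟩
            · exact haB (Or.inr (hCm b' (by omega) (by omega)))
            · -- neighbouring column
              rcases ha with ⟨⟨h11, _⟩ | ⟨s', c, b'', h11, h12, h13, h14, _, _⟩, _⟩
              · have h11' : b' ≤ -K ∨ K ≤ b' := h11
                omega
              · simp only [Sum.inr.injEq, Prod.mk.injEq] at h11
                obtain ⟨rfl, rfl, _⟩ := h11
                rcases h10 with rfl | h10
                · exact hA1 s i (i + 1) y ⟨by omega, hi, h12.1, fun k hk hk' => by omega⟩ h1 h13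
                · subst h10
                  exact hA1 s c' (c' + 1) y ⟨by omega, h12.1, hi, fun k hk hk' => by omega⟩
                    h13 h1
          · rcases eq_or_lt_of_le h7 with h10 | h10
            · rw [← h10] at hab
              rcases ha with ⟨⟨h11, h12⟩ | ⟨s', c, b', rfl, h12, h13, h14, h15, h16⟩, h6⟩
              · exact h6 (Cp.step hp0 ⟨out_left, h11, hab.symm, h1, h12⟩)
              · obtain ⟨c', b'', h17, h18⟩ := nb_mid hKD h15 h16 hab.symm
                simp only [Sum.inr.injEq, Prod.mk.injEq] at h17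
                obtain ⟨rfl, rfl, rfl⟩ := h17
                rcases h18 with ⟨rfl, _⟩ | ⟨h18, _⟩
                · exact h12.2 rfl
                · omega
            · have : b₀ = K := by omega
              rw [this] at hbA
              exact hbA hRm)
      (by rw [e1]; exact hS.unb y)
    rcases h5 with h5 | h5
    · exact Or.inl h5
    · right
      have e3 : κ ∩ C = {Sum.inr (s, i, -K)} := by
        ext w
        constructor
        · rintro ⟨h6, b, rfl, h7, h8⟩
          have h9 : b ≤ -K ∨ K ≤ b := hκo _ h6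
          rcases h9 with h9 | h9
          · have : b = -K := by omega
            rw [this]
            rfl
          · have : b = K := by omega
            rw [this] at h6
            exact absurd h6 hRn
        · rintro rfl
          exact ⟨hp0, hCm _ (le_refl _) (by omega)⟩
      have hsing' : Co H D ({Sum.inr (s, i, -K)} : Set (HV V σ)) := by
        rintro u rfl v rfl
        exact ReflTransGen.refl
      have h6 := hB.modu D κ C (by omega) hDN (fun a b c hh => hWf a b c (hκW hh))
        (fun a b c hh => hWf a b c (hCW hh)) (hwf.subset hκW) (hwf.subset hCW) hκco hCc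
        (by rw [e3]; exact Set.singleton_nonempty _) (by rw [e3]; exact hsing')
        (by
          rintro a ha b ⟨b₀, rfl, h7, h8⟩ haC hbκ hab
          by_cases h9 : -K < b₀ ∧ b₀ < K
          · obtain ⟨c', b', rfl, h10⟩ := nb_mid hKD h9.1 h9.2 hab
            have h11 : b' ≤ -K ∨ K ≤ b' := hκo _ ha
            rcases h10 with ⟨rfl, h10⟩ | ⟨rfl, _⟩
            · exact haC (hCm b' (by omega) (by omega))
            · omega
          · rcases eq_or_lt_of_le h7 with h10 | h10
            · rw [← h10] at hbκ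
              exact hbκ hp0
            · have : b₀ = K := by omega
              rw [this] at hab
              exact hRn (Cp.step ha ⟨hκo a ha, out_right, hab, hκc a ha, h2⟩))
        h5
      rcases h6 with h6 | h6
      · exact h6
      · exfalso
        refine hB.page D s C (by omega) hDN (fun a b c hh => hWf a b c (hCW hh))
          (hwf.subset hCW) ⟨_, hCm 0 (by omega) (by omega)⟩ hCc ?_ h6
        rintro u ⟨b, rfl, _⟩
        exact ⟨i, b, rfl⟩
  · -- the class is the connector
    right
    have e : Wst K g us y = κ := by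
      ext w
      constructor
      · intro hw
        by_contra hwk
        apply h2
        rcases hw with ⟨h5, h6⟩ | ⟨s', c, b, rfl, h5, h6, h7, h8, h9⟩
        · exact rs_full hS' hone h1 h5 h6 hwk
        · exact rs_full hS' hone h1 out_right h7 (hone s' c h5).2
      · intro hw
        exact wst_out (hκo w hw) (hκc w hw)
    rw [← e]
    exact hS.unb y

end

end Mdu
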