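import Pool.Agent.EN.UModel

/-!
# States with unbalanced branch sets
-/

open Relation

namespace Mdu

open Mdl

variable {V σ X : Type*}

/-- The part of the class of `y` which does not depend on the heights: outside vertices and full
columns. -/
def Wst (K : ℤ) (g : HV V σ → Option X) (us : Set (σ × ℕ)) (y : X) : Set (HV V σ) :=
  {w | (Out K w ∧ g w = some y) ∨ ∃ s c b, w = Sum.inr (s, c, b) ∧ (s, c) ∈ us ∧
    g (pt K s c false) = some y ∧ g (pt K s c true) = some y ∧ -K < b ∧ b < K}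

/-- Kiss states with unbalanced classes. -/
structure UState (G : SimpleGraph X) (H : Host V σ) (U : ℤ → Set (HV V σ) → Prop) (D K : ℤ)
    (g : HV V σ → Option X) (us : Set (σ × ℕ)) : Prop where
  st : State G H D K g us
  unb : ∀ y, U D (Wst K g us y)

section

variable {G : SimpleGraph X} {H : Host V σ} {N D K : ℤ} {U : ℤ → Set (HV V σ) → Prop}
  {g f : HV V σ → Option X} {us : Set (σ × ℕ)} {h : σ → ℕ → ℤ} {y z : X}

lemma wst_out {w : HV V σ} (h1 : Out K w) (h2 : g w = some y) : w ∈ Wst K g us y :=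
  Or.inl ⟨h1, h2⟩

/-- Full columns. -/
lemma wst_col {s : σ} {c : ℕ} {b : ℤ} (hc : (s, c) ∈ us) (h1 : g (pt K s c false) = some y)
    (h2 : g (pt K s c true) = some y) (h3 : -K ≤ b) (h4 : b ≤ K) :
    (Sum.inr (s, c, b) : HV V σ) ∈ Wst K g us y := by
  rcases eq_or_lt_of_le h3 with h5 | h5
  · rw [← h5]
    exact Or.inl ⟨out_left, h1⟩
  · rcases eq_or_lt_of_le h4 with h6 | h6
    · rw [h6]
      exact Or.inl ⟨out_right, h2⟩
    · exact Or.inr ⟨s, c, b, rfl, hc, h1, h2, h5, h6⟩

/-- Connections of a state run inside of `Wst`. -/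
lemma St.pa (hS : State G H D K g us) (hK : 0 < K) (hKD : K ≤ D) {u v : HV V σ}
    (h1 : St H D K g us y u v) : Pa H D (Wst K g us y) u v := by
  unfold St at h1
  induction h1 with
  | refl => exact ReflTransGen.refl
  | tail _ hbc ih =>
    refine ih.trans ?_
    rcases hbc with h2 | ⟨s, c, h2, h3, h4, h5⟩
    · exact Pa.one h2.2.2.1 (wst_out h2.1 h2.2.2.2.1) (wst_out h2.2.1 h2.2.2.2.2)
    · have h6 : Pa H D (Wst K g us y) (Sum.inr (s, c, -K)) (Sum.inr (s, c, K)) := by
        refine Pa.vert (hS.lt h2) (by omega) hKD (by omega) ?_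
        intro b hb hb'
        exact wst_col h2 h3 h4 hb hb'
      rcases h5 with ⟨rfl, rfl⟩ | ⟨rfl, rfl⟩
      · exact h6
      · exact h6.symm

lemma wst_co (hS : State G H D K g us) (hK : 0 < K) (hKD : K ≤ D) :
    Co H D (Wst K g us y) := by
  have key : ∀ u ∈ Wst K g us y, ∃ p, Out K p ∧ g p = some y ∧ Pa H D (Wst K g us y) u p := by
    rintro u (⟨h1, h2⟩ | ⟨s, c, b, rfl, h1, h2, h3, h4, h5⟩)
    · exact ⟨u, h1, h2, ReflTransGen.refl⟩
    · refine ⟨_, pt_out, h3, ?_⟩
      refine Pa.vert (hS.lt h1) (by omega) hKD h5.le ?_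
      intro b' hb hb'
      exact wst_col h1 h2 h3 (by omega) hb'
  intro u hu v hv
  obtain ⟨p, h1, h2, h3⟩ := key u hu
  obtain ⟨q, h4, h5, h6⟩ := key v hv
  exact (h3.trans (St.pa hS hK hKD (hS.con y p q h1 h4 h2 h5))).trans h6.symm

lemma wst_rg (hS : State G H D K g us) (hKD : K ≤ D) : Rg H D (Wst K g us y) := by
  rintro s c b (⟨_, h2⟩ | ⟨s', c', b', h0, h1, _, _, h4, h5⟩)
  · exact hS.sup s c b (by rw [h2]; simp)
  · simp only [Sum.inr.injEq, Prod.mk.injEq] at h0
    obtain ⟨rfl, rfl, rfl⟩ := h0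
    exact ⟨hS.lt h1, by omega, by omega⟩

/-- `Wst` is contained in the class of the realization. -/
lemma wst_rz (hS : State G H D K g us) (hh : Hts G K g us h) {w : HV V σ}
    (hw : w ∈ Wst K g us y) : rz H K g us h w = some y := by
  rcases hw with ⟨h1, h2⟩ | ⟨s, c, b, rfl, h1, h2, h3, h4, h5⟩
  · rw [rz_out h1]; exact h2
  · have h6 := hh.lo s c h1
    have h7 := hh.hi s c h1
    rcases lt_or_ge b (h s c) with h8 | h8
    · rw [rz_left h1 (hS.lt h1) (by omega) h4.le h8]; exact h2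
    · rw [rz_right h1 (hS.lt h1) (by omega) h5.le h8]; exact h3

lemma wst_ne (hgd : ∀ y, ∃ v, g (Sum.inl v) = some y ∧ H.gd v) : (Wst K g us y).Nonempty := by
  obtain ⟨v, hv, _⟩ := hgd y
  exact ⟨Sum.inl v, wst_out trivial hv⟩

/-- The realization is a model. -/
theorem UState.model [Finite σ] (hB : Bal H N U) (hS : UState G H U D K g us)
    (hh : Hts G K g us h) (hK : 2 ≤ K) (hKD : K ≤ D) (hDN : D ≤ N) :
    UModel G H U D (rz H K g us h) where
  mod := hS.st.model hh hK hKD
  unb := by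
    intro y
    have hm := hS.st.model hh hK hKD
    exact hB.mono D _ _ (by omega) hDN (Model.rg hm y) (fun w hw => wst_rz hS.st hh hw)
      (Model.fin' hm y) (wst_ne hS.st.gnd) (Model.co hm y) (hS.unb y)

/-- Neighbours of a vertex of the window `0`. -/
lemma nb0 (hD : 0 < D) {s : σ} {c : ℕ} {w : HV V σ} (hw : H.Adj D w (Sum.inr (s, c, 0))) :
    w = Sum.inr (s, c, -1) ∨ w = Sum.inr (s, c, 1) := by
  rcases w with v | ⟨s', c', b'⟩
  · rcases hw with ⟨_, h3⟩ | h3
    · rcases h3 with ⟨h3, _⟩ | ⟨h3, _⟩ <;> omega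
    · exact h3.elim
  · rcases hw with ⟨h3, _, _, _, h4⟩ | ⟨h3, _, _, _, h4⟩
    · rcases h4 with ⟨h4, h5⟩ | ⟨_, h5, h6⟩
      · left
        rw [h3, h4]
        have : b' = -1 := by omega
        rw [this]
      · omega
    · rcases h4 with ⟨h4, h5⟩ | ⟨_, h5, h6⟩
      · right
        rw [← h3, ← h4, h5]
        simp
      · omega

/-- A pendant vertex of the window `0` can be removed. -/
lemma UModel.unb_pend (hB : Bal H N U) (hD : 0 < D) (hDN : D ≤ N) (hf : UModel G H U D f)
    {s : σ} {c : ℕ} (hc : c < H.len s) (h0 : f (Sum.inr (s, c, 0)) = some y)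
    (h1 : f (Sum.inr (s, c, 1)) = some y) (h2 : f (Sum.inr (s, c, -1)) ≠ some y)
    (hA : Co H D {w | f w = some y ∧ w ≠ Sum.inr (s, c, 0)}) :
    U D {w | f w = some y ∧ w ≠ Sum.inr (s, c, 0)} := by
  have hne : (Sum.inr (s, c, 1) : HV V σ) ≠ Sum.inr (s, c, 0) := by
    intro h
    simp only [Sum.inr.injEq, Prod.mk.injEq] at h
    exact absurd h.2.2 (by norm_num)
  set Q : Set (HV V σ) := {Sum.inr (s, c, 0), Sum.inr (s, c, 1)} with hQ
  have hQ0 : (Sum.inr (s, c, 0) : HV V σ) ∈ Q := Or.inl rfl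
  have hQ1 : (Sum.inr (s, c, 1) : HV V σ) ∈ Q := Or.inr rfl
  refine hf.unb_del hB hD.le hDN (s := s) hA Q hQ0 ?_ ?_ ?_ ?_ ⟨_, hQ1, hne⟩ ?_
  · rintro w (rfl | rfl)
    · exact h0
    · exact h1
  · rintro w (rfl | rfl)
    · exact ⟨_, _, rfl⟩
    · exact ⟨_, _, rfl⟩
  · apply Co.of (p := Sum.inr (s, c, 0))
    rintro w (rfl | rfl)
    · exact ReflTransGen.refl
    · exact Pa.one (Host.ver (b := 0) hc (by omega) (by omega)) hQ0 hQ1
  · apply Co.of (p := Sum.inr (s, c, 1))
    rintro w ⟨rfl | rfl, hw⟩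
    · exact absurd rfl hw
    · exact ReflTransGen.refl
  · intro w hw hadj
    rcases nb0 hD hadj with rfl | rfl
    · exact absurd hw h2
    · exact hQ1

/-- Dropping the vertex `(s₀, c₀, 0)` of a realization with height `0` at this column. -/
theorem UState.dropCol [Finite σ] (hB : Bal H N U) (hgd : ∀ v, H.gd v)
    (hS : UState G H U D K g us) (hh : Hts G K g us h) (hK : 2 ≤ K)
    (hKD : K ≤ D) (hDN : D ≤ N) {s₀ : σ} {c₀ : ℕ} (h0 : (s₀, c₀) ∈ us) (hh0 : h s₀ c₀ = 0)
    {y₀ : X} (hy₀ : g (Sum.inr (s₀, c₀, K)) = some y₀)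
    (hcon : ∀ p, Out K p → g p = some y₀ →
      Cn H D (del (rz H K g us h) (Sum.inr (s₀, c₀, 0))) y₀ (Sum.inr (s₀, c₀, K)) p)
    (hkiss : ∀ z, G.Adj y₀ z → g (Sum.inr (s₀, c₀, -K)) = some z → ∃ v w,
      Cn H D (del (rz H K g us h) (Sum.inr (s₀, c₀, 0))) y₀ (Sum.inr (s₀, c₀, K)) v ∧
        H.Adj D v w ∧ rz H K g us h w = some z)
    (hU : Co H D {w | rz H K g us h w = some y₀ ∧ w ≠ Sum.inr (s₀, c₀, 0)} →
      U D {w | rz H K g us h w = some y₀ ∧ w ≠ Sum.inr (s₀, c₀, 0)}) :
    ∃ f', UModel G H U D f' ∧ mm f' < us.ncard := by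
  have he : Exc H K g us h (del (rz H K g us h) (Sum.inr (s₀, c₀, 0))) := exc_del h0 hh0
  have hlo : ∀ s i, (s, i) ∈ us → -K < h s i :=
    fun s i hi => by have := hh.lo s i hi; omega
  have hhi : ∀ s i, (s, i) ∈ us → h s i ≤ K :=
    fun s i hi => by have := hh.hi s i hi; omega
  have hmod := hS.model hB hh hK hKD hDN
  have hK0 : 0 < K := by omega
  -- vertices of the page
  have page : ∀ s c b, -K < b → b < K → rz H K g us h (Sum.inr (s, c, b)) = some y₀ →
      (Sum.inr (s, c, b) : HV V σ) ≠ Sum.inr (s₀, c₀, 0) →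
      Cn H D (del (rz H K g us h) (Sum.inr (s₀, c₀, 0))) y₀ (Sum.inr (s₀, c₀, K))
        (Sum.inr (s, c, b)) := by
    intro s c b hb1 hb2 hr hne'
    obtain ⟨i, _, _, _, h5⟩ := he.rep hKD hlo hhi hb1 hb2 c
      (by rw [del_ne hne']; exact hr) (del_ne hne')
    rcases h5 with ⟨_, h5, h6⟩ | ⟨_, h5, h6⟩
    · exact (hcon _ out_left h5).trans h6.symm
    · exact (hcon _ out_right h5).trans h6.symm
  have hall : ∀ w, rz H K g us h w = some y₀ → w ≠ Sum.inr (s₀, c₀, 0) →
      Cn H D (del (rz H K g us h) (Sum.inr (s₀, c₀, 0))) y₀ (Sum.inr (s₀, c₀, K)) w := by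
    intro w hw hne
    by_cases ho : Out K w
    · rw [rz_out ho] at hw
      exact hcon w ho hw
    · rcases w with v | ⟨s, c, b⟩
      · exact absurd trivial ho
      · have hb : -K < b ∧ b < K := by
          by_contra hcon'
          apply ho
          change b ≤ -K ∨ K ≤ b
          omega
        exact page s c b hb.1 hb.2 hw hne
  have hsub : {w | del (rz H K g us h) (Sum.inr (s₀, c₀, 0)) w = some y₀} ⊆
      {w | rz H K g us h w = some y₀ ∧ w ≠ Sum.inr (s₀, c₀, 0)} := by
    intro w hw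
    have hw' : del (rz H K g us h) (Sum.inr (s₀, c₀, 0)) w = some y₀ := hw
    rcases eq_or_ne w (Sum.inr (s₀, c₀, 0)) with h1 | h1
    · rw [h1, del_self] at hw'
      exact absurd hw' (by simp)
    · rw [del_ne h1] at hw'
      exact ⟨hw', h1⟩
  have hCo : Co H D {w | rz H K g us h w = some y₀ ∧ w ≠ Sum.inr (s₀, c₀, 0)} := by
    apply Co.of (p := Sum.inr (s₀, c₀, K))
    intro w hw
    exact (Pa.of_cn (hall w hw.1 hw.2)).mono hsub
  have kiss : ∀ z, G.Adj y₀ z → ∀ s k, (s, k) ∈ us →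
      ((g (Sum.inr (s, k, -K)) = some y₀ ∧ g (Sum.inr (s, k, K)) = some z) ∨
        (g (Sum.inr (s, k, -K)) = some z ∧ g (Sum.inr (s, k, K)) = some y₀)) →
      ∃ v w, Cn H D (del (rz H K g us h) (Sum.inr (s₀, c₀, 0))) y₀ (Sum.inr (s₀, c₀, K)) v ∧
        H.Adj D v w ∧ rz H K g us h w = some z := by
    intro z hyz s k hk h2
    by_cases hsk : (s, k) = (s₀, c₀)
    · obtain ⟨rfl, rfl⟩ := Prod.mk.inj hsk
      rcases h2 with ⟨_, h3⟩ | ⟨h3, _⟩
      · rw [hy₀, Option.some.injEq] at h3
        exact absurd h3 hyz.ne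
      · exact hkiss z hyz h3
    · have h5 := hh.lo s k hk
      have h6 := hh.hi s k hk
      have hne : ∀ b : ℤ, (Sum.inr (s, k, b) : HV V σ) ≠ Sum.inr (s₀, c₀, 0) := by
        intro b hb
        simp only [Sum.inr.injEq, Prod.mk.injEq] at hb
        exact hsk (by rw [hb.1, hb.2.1])
      rcases h2 with ⟨h2, h3⟩ | ⟨h2, h3⟩
      · obtain ⟨h7, h8, h9⟩ := edge_kiss hS.st hh hKD hk h2 h3
        exact ⟨_, _, page s k _ (by omega) (by omega) h8 (hne _), h7, h9⟩
      · obtain ⟨h7, h8, h9⟩ := edge_kiss hS.st hh hKD hk h2 h3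
        exact ⟨_, _, page s k _ (by omega) (by omega) h9 (hne _), h7.symm, h8⟩
  have hb0 : ∀ (s : σ) (c : ℕ) (b : ℤ), b ≠ 0 →
      (Sum.inr (s, c, b) : HV V σ) ≠ Sum.inr (s₀, c₀, 0) := by
    intro s c b hb h1
    simp only [Sum.inr.injEq, Prod.mk.injEq] at h1
    exact hb h1.2.2
  rw [← mm_rz hS.st (h := h) (by omega)]
  refine hmod.drop hB hgd (by omega) hDN (s := s₀) (c := c₀) (y := y₀) ?_
    {w | rz H K g us h w = some y₀ ∧ w ≠ Sum.inr (s₀, c₀, 0)} (fun w hw => hw) hCo
    (hU hCo) ?_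
  · rw [rz_right h0 (hS.st.lt h0) (hlo _ _ h0) (by omega) (by omega)]
    exact hy₀
  · intro z hyz
    suffices hs : ∃ v w, Cn H D (del (rz H K g us h) (Sum.inr (s₀, c₀, 0))) y₀
        (Sum.inr (s₀, c₀, K)) v ∧ H.Adj D v w ∧ rz H K g us h w = some z by
      obtain ⟨v, w, h1, h2, h3⟩ := hs
      have hbase : del (rz H K g us h) (Sum.inr (s₀, c₀, 0)) (Sum.inr (s₀, c₀, K)) =
          some y₀ := by
        rw [del_ne (hb0 _ _ _ (by omega)), rz_out out_right]
        exact hy₀
      exact ⟨v, w, hsub (h1.col hbase), h2, h3⟩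
    rcases hS.st.edg y₀ z hyz with h1 | ⟨u, v, h1, h2, h3, h5, h6⟩
    · obtain ⟨s, i, j, h1 | h1 | h1, h2, h3⟩ := h1
      · subst h1
        apply kiss z hyz s i h2.1
        rcases h2.2 with h5 | h5
        · rcases h3.2 with h6 | h6
          · rw [h5, Option.some.injEq] at h6
            exact absurd h6 hyz.ne
          · exact Or.inl ⟨h5, h6⟩
        · rcases h3.2 with h6 | h6
          · exact Or.inr ⟨h6, h5⟩
          · rw [h5, Option.some.injEq] at h6
            exact absurd h6 hyz.ne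
      · rcases edge_cons hS.st hh hK h1 h2 h3 hyz with ⟨c, b, rfl, _, h5, h6, h7, h8, h9⟩ | h5
        · exact ⟨_, _, page _ _ _ h6 h7 h8 (hb0 _ _ _ h5),
            Host.hor (hS.st.lt h3.1) (by omega) (by omega) h5, h9⟩
        · obtain ⟨k, _, h5, h6⟩ := h5
          exact kiss z hyz s k h5 h6
      · rcases edge_cons hS.st hh hK h1 h3 h2 hyz.symm with
          ⟨c, b, rfl, _, h5, h6, h7, h8, h9⟩ | h5
        · exact ⟨_, _, page _ _ _ h6 h7 h9 (hb0 _ _ _ h5),
            (Host.hor (hS.st.lt h2.1) (by omega) (by omega) h5).symm, h8⟩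
        · obtain ⟨k, _, h5, h6⟩ := h5
          exact kiss z hyz s k h5 h6.symm
    · exact ⟨u, v, hcon u h1 h5, h3, by rw [rz_out h2]; exact h6⟩

/-- **(A1)** -/
theorem UState.a1 [Finite σ] (hB : Bal H N U) (hgd : ∀ v, H.gd v)
    (h4 : ∀ a b c d, G.Adj a b → G.Adj b c → G.Adj c d → G.Adj d a → a = c ∨ b = d)
    (hS : UState G H U D K g us) (hK : 2 * us.ncard + 4 ≤ K) (hKD : K ≤ D) (hDN : D ≤ N)
    {s : σ} {i j : ℕ} (hij : Cons us s i j) (hi : g (Sum.inr (s, i, -K)) = some y)
    (hj : g (Sum.inr (s, j, -K)) = some y) : ∃ f', UModel G H U D f' ∧ mm f' < us.ncard := by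
  classical
  have hiu := hij.2.1
  have hju := hij.2.2.1
  have hjl := hS.st.lt hju
  have hil := hS.st.lt hiu
  obtain ⟨c, hjc, hl⟩ := hij.lu
  have hcl : c < H.len s := by omega
  obtain ⟨h, hh, hh0, hst⟩ := exists_hts h4 hS.st hK s j
    (fun s' j' => if s' = s ∧ j' = j then some (-2) else none) (by
      intro s' i' j' x hc hx
      split_ifs at hx with h1
      rw [Option.some.injEq] at hx
      subst hx
      obtain ⟨rfl, rfl⟩ := h1
      have h2 := hc.uniq hij
      subst h2
      refine ⟨by norm_num, fun _ => rfl, fun h3 => ?_⟩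
      exfalso
      obtain ⟨a, a', b, b', h5, _, h6, _, _, _, _, _, h7⟩ := h3
      rw [hi, Option.some.injEq] at h5
      rw [hj, Option.some.injEq] at h6
      exact h7 (h5.symm.trans h6))
  have hhi : h s i = 2 := by
    have := hst s i j (-2) hij (if_pos ⟨rfl, rfl⟩)
    omega
  obtain ⟨_, y₀, _, hy₀, _⟩ := hS.st.own s j hju
  have he : Exc H K g us h (del (rz H K g us h) (Sum.inr (s, j, 0))) := exc_del hju hh0
  have hlo : ∀ s i, (s, i) ∈ us → -K < h s i := fun s i hi => by have := hh.lo s i hi; omega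
  have hhi' : ∀ s i, (s, i) ∈ us → h s i ≤ K := fun s i hi => by have := hh.hi s i hi; omega
  have hK1 : 4 ≤ K := by omega
  have hne : ∀ (c' : ℕ) (b : ℤ), b ≠ 0 →
      (Sum.inr (s, c', b) : HV V σ) ≠ Sum.inr (s, j, 0) := by
    intro c' b hb h1
    simp only [Sum.inr.injEq, Prod.mk.injEq] at h1
    exact hb h1.2.2
  -- the columns between `i` and `j` in the windows -1 and 1
  have hcb : ∀ c', i ≤ c' → c' < j → ∀ b : ℤ, b ≠ 0 → b < 2 → -K < b →
      rz H K g us h (Sum.inr (s, c', b)) = some y := by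
    intro c' h5 h6 b hb1 hb2 hb3
    have hl' : lu us s c' = some i :=
      lu_of h5 hiu (fun k hk hk' => hij.2.2.2 k hk (by omega))
    rw [rz_lo hb3 (by omega) (by omega) (Or.inl hb1) hl' (by omega)]
    exact hi
  have hi0 : ∀ b : ℤ, -K < b → b < 2 → rz H K g us h (Sum.inr (s, i, b)) = some y := by
    intro b hb1 hb2
    rw [rz_left hiu hil (hhi' s i hiu) hb1.le (by omega)]
    exact hi
  have hc1 : ∀ b : ℤ, b ≠ 0 → b < 2 → -K < b → rz H K g us h (Sum.inr (s, c, b)) = some y :=
    fun b hb1 hb2 hb3 => hcb c (by have := hij.1; omega) (by omega) b hb1 hb2 hb3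
  have hc2 : ∀ b : ℤ, b ≠ 0 → b < 2 → -K < b →
      Cn H D (del (rz H K g us h) (Sum.inr (s, j, 0))) y (Sum.inr (s, c, b))
        (Sum.inr (s, i, -K)) := by
    intro b hb1 hb2 hb3
    obtain ⟨i', h5, _, _, h6⟩ := he.rep hKD hlo hhi' hb3 (by omega) c
      (by rw [del_ne (hne c b hb1)]; exact hc1 b hb1 hb2 hb3) (del_ne (hne c b hb1))
    rw [hl, Option.some.injEq] at h5
    subst h5
    rcases h6 with ⟨_, _, h6⟩ | ⟨h6, _, _⟩
    · exact h6
    · omega
  have hjr : rz H K g us h (Sum.inr (s, j, 1)) = some y₀ := by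
    rw [rz_right hju hjl (hlo s j hju) (by omega) (by omega)]
    exact hy₀
  have hj0 : rz H K g us h (Sum.inr (s, j, 0)) = some y₀ := by
    rw [rz_right hju hjl (hlo s j hju) (by omega) (by omega)]
    exact hy₀
  have hjl1 : rz H K g us h (Sum.inr (s, j, -1)) = some y := by
    rw [rz_left hju hjl (hhi' s j hju) (by omega) (by omega)]
    exact hj
  have hjr' : Cn H D (del (rz H K g us h) (Sum.inr (s, j, 0))) y₀ (Sum.inr (s, j, 1))
      (Sum.inr (s, j, K)) :=
    he.right hKD hju hjl (hlo s j hju) (by omega) (by omega) hy₀ (del_ne (hne j 1 (by omega)))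
  have hjump : g (Sum.inr (s, j, -K)) = some y₀ → g (Sum.inr (s, j, K)) = some y₀ →
      Cn H D (del (rz H K g us h) (Sum.inr (s, j, 0))) y₀ (Sum.inr (s, j, -K))
        (Sum.inr (s, j, K)) := by
    intro h5 _
    rw [hj, Option.some.injEq] at h5
    subst h5
    have h6 : Cn H D (del (rz H K g us h) (Sum.inr (s, j, 0))) y (Sum.inr (s, j, -1))
        (Sum.inr (s, j, -K)) :=
      he.left hKD hju hjl (hhi' s j hju) (by omega) (by omega) hj
    have h7 : Cn H D (del (rz H K g us h) (Sum.inr (s, j, 0))) y (Sum.inr (s, c, -1))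
        (Sum.inr (s, j, -1)) := by
      subst hjc
      refine Cn.one (Host.hor hjl (by omega) (by omega) (by omega)) ?_ ?_
      · rw [del_ne (hne c (-1) (by omega))]
        exact hc1 (-1) (by omega) (by omega) (by omega)
      · rw [del_ne (hne (c + 1) (-1) (by omega))]
        exact hjl1
    have h8 : Cn H D (del (rz H K g us h) (Sum.inr (s, j, 0))) y (Sum.inr (s, c, 1))
        (Sum.inr (s, j, 1)) := by
      subst hjc
      refine Cn.one (Host.hor hjl (by omega) (by omega) (by omega)) ?_ ?_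
      · rw [del_ne (hne c 1 (by omega))]
        exact hc1 1 (by omega) (by omega) (by omega)
      · rw [del_ne (hne (c + 1) 1 (by omega))]
        exact hjr
    exact ((((h6.symm.trans h7.symm).trans (hc2 (-1) (by omega) (by omega) (by omega))).trans
      (hc2 1 (by omega) (by omega) (by omega)).symm).trans h8).trans hjr'
  have hcon : ∀ p, Out K p → g p = some y₀ →
      Cn H D (del (rz H K g us h) (Sum.inr (s, j, 0))) y₀ (Sum.inr (s, j, K)) p := by
    intro p hp hgp
    exact St.lift_del hS.st hh (by omega) hKD hju hh0 hjump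
      (hS.st.con y₀ (Sum.inr (s, j, K)) p out_right hp hy₀ hgp)
  refine hS.dropCol hB hgd hh (by omega) hKD hDN hju hh0 hy₀ hcon ?_ ?_
  · intro z _ hz
    rw [hj, Option.some.injEq] at hz
    subst hz
    refine ⟨Sum.inr (s, j, 1), Sum.inr (s, c, 1), hjr'.symm, ?_,
      hc1 1 (by omega) (by omega) (by omega)⟩
    subst hjc
    exact (Host.hor hjl (by omega) (by omega) (by omega)).symm
  · intro hCo
    have hmod := hS.model hB hh (by omega) hKD hDN
    by_cases hyy : y = y₀
    · -- full column: the rectangle between `i` and `j`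
      subst hyy
      set Q : Set (HV V σ) := {w | ∃ (c' : ℕ) (b : ℤ), w = Sum.inr (s, c', b) ∧ i ≤ c' ∧
        c' ≤ j ∧ -1 ≤ b ∧ b ≤ 1 ∧ (b ≠ 0 ∨ c' = i ∨ c' = j)} with hQ
      have hQm : ∀ (c' : ℕ) (b : ℤ), i ≤ c' → c' ≤ j → -1 ≤ b → b ≤ 1 →
          (b ≠ 0 ∨ c' = i ∨ c' = j) → (Sum.inr (s, c', b) : HV V σ) ∈ Q :=
        fun c' b h5 h6 h7 h8 h9 => ⟨c', b, rfl, h5, h6, h7, h8, h9⟩
      have hij' := hij.1
      -- connection to `(s, i, 0)` without `(s, j, 0)`
      have hbase : ∀ w ∈ Q, w ≠ Sum.inr (s, j, 0) →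
          Pa H D {w | w ∈ Q ∧ w ≠ Sum.inr (s, j, 0)} (Sum.inr (s, i, 0)) w := by
        rintro w ⟨c', b, rfl, h5, h6, h7, h8, h9⟩ hw
        have hin : ∀ (c'' : ℕ) (b' : ℤ), i ≤ c'' → c'' ≤ j → -1 ≤ b' → b' ≤ 1 →
            (b' ≠ 0 ∨ c'' = i) → (Sum.inr (s, c'', b') : HV V σ) ∈
            {w | w ∈ Q ∧ w ≠ Sum.inr (s, j, 0)} := by
          intro c'' b' h10 h11 h12 h13 h14
          refine ⟨hQm c'' b' h10 h11 h12 h13 (by
            rcases h14 with h14 | h14
            · exact Or.inl h14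
            · exact Or.inr (Or.inl h14)), ?_⟩
          intro h15
          simp only [Sum.inr.injEq, Prod.mk.injEq] at h15
          rcases h14 with h14 | h14
          · exact h14 h15.2.2
          · omega
        by_cases hb : b = 0
        · subst hb
          have hci : c' = i := by
            rcases h9 with h9 | h9 | h9
            · exact absurd rfl h9
            · exact h9
            · exfalso
              apply hw
              rw [h9]
          rw [hci]
          exact ReflTransGen.refl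
        · have h10 : Pa H D {w | w ∈ Q ∧ w ≠ Sum.inr (s, j, 0)} (Sum.inr (s, i, 0))
              (Sum.inr (s, i, b)) := by
            rcases lt_or_ge b 0 with h11 | h11
            · refine (Pa.vert hil (by omega) (by omega) h11.le ?_).symm
              intro b' h12 h13
              exact hin i b' (le_refl _) (by omega) (by omega) (by omega) (Or.inr rfl)
            · refine Pa.vert hil (by omega) (by omega) h11 ?_
              intro b' h12 h13
              exact hin i b' (le_refl _) (by omega) (by omega) (by omega) (Or.inr rfl)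
          refine h10.trans ?_
          obtain ⟨n, rfl⟩ : ∃ n, c' = i + n := ⟨c' - i, by omega⟩
          refine Pa.hor hb (by omega) (by omega) i n (by omega) ?_
          intro k hk hk'
          exact hin k b hk (by omega) h7 h8 (Or.inl hb)
      have hQsub : {w | w ∈ Q ∧ w ≠ Sum.inr (s, j, 0)} ⊆ Q := fun w hw => hw.1
      refine hmod.unb_del hB (by omega) hDN (s := s) hCo Q
        (hQm j 0 (by omega) (le_refl _) (by omega) (by omega) (Or.inr (Or.inr rfl))) ?_ ?_ ?_ ?_ ?_ ?_
      · rintro w ⟨c', b, rfl, h5, h6, h7, h8, h9⟩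
        by_cases hb : b = 0
        · subst hb
          rcases h9 with h9 | h9 | h9
          · exact absurd rfl h9
          · rw [h9]
            exact hi0 0 (by omega) (by omega)
          · rw [h9]
            exact hj0
        · rcases Nat.lt_or_ge c' j with h10 | h10
          · exact hcb c' h5 h10 b hb (by omega) (by omega)
          · have : c' = j := by omega
            subst this
            rcases lt_or_ge b 0 with h11 | h11
            · have : b = -1 := by omega
              rw [this]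
              exact hjl1
            · have : b = 1 := by omega
              rw [this]
              exact hjr
      · rintro w ⟨c', b, rfl, _⟩
        exact ⟨c', b, rfl⟩
      · apply Co.of (p := Sum.inr (s, i, 0))
        intro w hw
        by_cases hwj : w = Sum.inr (s, j, 0)
        · rw [hwj]
          have h5 := hbase (Sum.inr (s, j, 1)) (hQm j 1 (by omega) (le_refl _) (by omega)
            (by omega) (Or.inl (by omega))) (hne j 1 (by omega))
          refine (h5.mono hQsub).trans ?_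
          exact (Pa.one (Host.ver (b := 0) hjl (by omega) (by omega))
            (hQm j 0 (by omega) (le_refl _) (by omega) (by omega) (Or.inr (Or.inr rfl)))
            (hQm j 1 (by omega) (le_refl _) (by omega) (by omega) (Or.inl (by omega)))).symm
        · exact (hbase w hw hwj).mono hQsub
      · apply Co.of (p := Sum.inr (s, i, 0))
        intro w hw
        exact hbase w hw.1 hw.2
      · refine ⟨Sum.inr (s, i, 0), hQm i 0 (le_refl _) (by omega) (by omega) (by omega)
          (Or.inr (Or.inl rfl)), ?_⟩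
        intro h5
        simp only [Sum.inr.injEq, Prod.mk.injEq] at h5
        omega
      · intro w _ hw
        rcases nb0 (by omega) hw with rfl | rfl
        · exact hQm j (-1) (by omega) (le_refl _) (by omega) (by omega) (Or.inl (by omega))
        · exact hQm j 1 (by omega) (le_refl _) (by omega) (by omega) (Or.inl (by omega))
    · -- kiss
      refine hmod.unb_pend hB (by omega) hDN hjl hj0 hjr ?_ hCo
      rw [hjl1]
      intro h5
      exact hyy (Option.some.inj h5)

/-- Every edge is kissed at most once. -/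
theorem UState.kiss1 [Finite σ] (hB : Bal H N U) (hgd : ∀ v, H.gd v)
    (h4 : ∀ a b c d, G.Adj a b → G.Adj b c → G.Adj c d → G.Adj d a → a = c ∨ b = d)
    (hS : UState G H U D K g us) (hK : 2 * us.ncard + 4 ≤ K) (hKD : K ≤ D) (hDN : D ≤ N)
    {s s' : σ} {i j : ℕ}
    (hi : (s, i) ∈ us) (hj : (s', j) ∈ us) (hne : (s, i) ≠ (s', j)) (hyz : y ≠ z)
    (h1 : g (Sum.inr (s, i, -K)) = some z) (h2 : g (Sum.inr (s, i, K)) = some y)
    (h3 : (g (Sum.inr (s', j, -K)) = some y ∧ g (Sum.inr (s', j, K)) = some z) ∨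
      (g (Sum.inr (s', j, -K)) = some z ∧ g (Sum.inr (s', j, K)) = some y)) :
    ∃ f', UModel G H U D f' ∧ mm f' < us.ncard := by
  classical
  obtain ⟨h, hh, hh0, _⟩ := exists_hts h4 hS.st hK s i (fun _ _ => none)
    (fun _ _ _ _ _ hx => absurd hx (by simp))
  have he : Exc H K g us h (del (rz H K g us h) (Sum.inr (s, i, 0))) := exc_del hi hh0
  have hlo : ∀ s i, (s, i) ∈ us → -K < h s i := fun s i hi => by have := hh.lo s i hi; omega
  have hhi' : ∀ s i, (s, i) ∈ us → h s i ≤ K := fun s i hi => by have := hh.hi s i hi; omega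
  have hil := hS.st.lt hi
  have hcon : ∀ p, Out K p → g p = some y →
      Cn H D (del (rz H K g us h) (Sum.inr (s, i, 0))) y (Sum.inr (s, i, K)) p := by
    intro p hp hgp
    refine St.lift_del hS.st hh (by omega) hKD hi hh0 ?_
      (hS.st.con y (Sum.inr (s, i, K)) p out_right hp h2 hgp)
    intro h5 _
    rw [h1, Option.some.injEq] at h5
    exact absurd h5.symm hyz
  refine hS.dropCol hB hgd hh (by omega) hKD hDN hi hh0 h2 hcon ?_ ?_
  · intro z' _ hz'
    rw [h1, Option.some.injEq] at hz'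
    subst hz'
    have hjl := hS.st.lt hj
    have h5 := hh.lo s' j hj
    have h6 := hh.hi s' j hj
    have hdn : ∀ b : ℤ, (Sum.inr (s', j, b) : HV V σ) ≠ Sum.inr (s, i, 0) := by
      intro b h7
      simp only [Sum.inr.injEq, Prod.mk.injEq] at h7
      exact hne (by rw [h7.1, h7.2.1])
    rcases h3 with ⟨h3, h3'⟩ | ⟨h3, h3'⟩
    · obtain ⟨h7, h8, h9⟩ := edge_kiss hS.st hh hKD hj h3 h3'
      refine ⟨_, _, ?_, h7, h9⟩
      exact (hcon _ out_left h3).trans
        (he.left hKD hj hjl (hhi' _ _ hj) (by omega) (by omega) h3).symm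
    · obtain ⟨h7, h8, h9⟩ := edge_kiss hS.st hh hKD hj h3 h3'
      refine ⟨_, _, ?_, h7.symm, h8⟩
      exact (hcon _ out_right h3').trans
        (he.right hKD hj hjl (hlo _ _ hj) (by omega) (by omega) h3' (del_ne (hdn _))).symm
  · intro hCo
    have hmod := hS.model hB hh (by omega) hKD hDN
    refine hmod.unb_pend hB (by omega) hDN hil ?_ ?_ ?_ hCo
    · rw [rz_right hi hil (hlo _ _ hi) (by omega) (by omega)]
      exact h2
    · rw [rz_right hi hil (hlo _ _ hi) (by omega) (by omega)]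
      exact h2
    · rw [rz_left hi hil (hhi' _ _ hi) (by omega) (by omega), h1]
      intro h5
      exact hyz (Option.some.inj h5).symm

/-- `Wst` without the interior of a column. -/
lemma wst_diff_sub {s : σ} {i : ℕ} {w : HV V σ} (hw : w ∈ Wst K g (us \ {(s, i)}) y) :
    w ∈ Wst K g us y := by
  rcases hw with h1 | ⟨s', c, b, h1, h2, h3⟩
  · exact Or.inl h1
  · exact Or.inr ⟨s', c, b, h1, h2.1, h3⟩

/-- A full column which is not a bridge is needed for the imbalance. -/
theorem UState.bridge [Finite σ] (hB : Bal H N U) (hgd : ∀ v, H.gd v)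
    (h4 : ∀ a b c d, G.Adj a b → G.Adj b c → G.Adj c d → G.Adj d a → a = c ∨ b = d)
    (hS : UState G H U D K g us) (hK : 2 * us.ncard + 4 ≤ K) (hKD : K ≤ D) (hDN : D ≤ N)
    {s : σ} {i : ℕ}
    (hi : (s, i) ∈ us) (h1 : g (Sum.inr (s, i, -K)) = some y)
    (h2 : g (Sum.inr (s, i, K)) = some y)
    (h3 : St' H D K g us s i y (Sum.inr (s, i, -K)) (Sum.inr (s, i, K)))
    (h5 : U D (Wst K g (us \ {(s, i)}) y)) :
    ∃ f', UModel G H U D f' ∧ mm f' < us.ncard := by
  classical
  obtain ⟨h, hh, hh0, _⟩ := exists_hts h4 hS.st hK s i (fun _ _ => none)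
    (fun _ _ _ _ _ hx => absurd hx (by simp))
  refine hS.dropCol hB hgd hh (by omega) hKD hDN hi hh0 h2 ?_ ?_ ?_
  · intro p hp hgp
    refine St.lift_del hS.st hh (by omega) hKD hi hh0 ?_
      (hS.st.con y (Sum.inr (s, i, K)) p out_right hp h2 hgp)
    intro _ _
    exact h3.lift hS.st hh (by omega) hKD hi hh0
  · intro z hyz hz
    rw [h1, Option.some.injEq] at hz
    exact absurd hz hyz.ne
  · intro hCo
    have hmod := (hS.model hB hh (by omega) hKD hDN).mod
    refine hB.mono D (Wst K g (us \ {(s, i)}) y) _ (by omega) hDN ?_ ?_ ?_ ?_ hCo h5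
    · exact fun s' c' b' h => Model.rg hmod y s' c' b' h.1
    · intro w hw
      refine ⟨wst_rz hS.st hh (wst_diff_sub hw), ?_⟩
      rintro rfl
      rcases hw with ⟨h6, _⟩ | ⟨s', c, b, h6, h7, _⟩
      · have : (0 : ℤ) ≤ -K ∨ K ≤ 0 := h6
        omega
      · simp only [Sum.inr.injEq, Prod.mk.injEq] at h6
        obtain ⟨rfl, rfl, rfl⟩ := h6
        exact h7.2 rfl
    · exact (Model.fin' hmod y).subset (fun w hw => hw.1)
    · exact ⟨_, wst_out out_right h2⟩

end

end Mdu
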