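import Pool.Agent.EN.JModel
import Pool.Agent.EN.UState
import Pool.Agent.EN.ULeaf

/-!
# States with jointly unbalanced branch sets
-/

open Relation

namespace Mdj

open Mdl Mdu

variable {V σ X : Type*}

open Classical in
/-- The colouring whose classes are the sets `Wst`. -/
noncomputable def wc (K : ℤ) (g : HV V σ → Option X) (us : Set (σ × ℕ)) : HV V σ → Option X
  | Sum.inl v => g (Sum.inl v)
  | Sum.inr (s, c, b) =>
      if b ≤ -K ∨ K ≤ b then g (Sum.inr (s, c, b))
      else if (s, c) ∈ us ∧ g (pt K s c false) = g (pt K s c true) then g (pt K s c false)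
        else none

/-- Kiss states with jointly unbalanced classes. -/
structure JState (G : SimpleGraph X) (H : Host V σ) (U : ℤ → (HV V σ → Option X) → Prop)
    (D K : ℤ) (g : HV V σ → Option X) (us : Set (σ × ℕ)) : Prop where
  st : State G H D K g us
  unb : U D (wc K g us)

section

variable {G : SimpleGraph X} {H : Host V σ} {N D K : ℤ} {U : ℤ → (HV V σ → Option X) → Prop}
  {g f : HV V σ → Option X} {us : Set (σ × ℕ)} {h : σ → ℕ → ℤ} {y z : X}

open Classical in
lemma wc_inr {s : σ} {c : ℕ} {b : ℤ} : wc K g us (Sum.inr (s, c, b)) =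
    if b ≤ -K ∨ K ≤ b then g (Sum.inr (s, c, b))
      else if (s, c) ∈ us ∧ g (pt K s c false) = g (pt K s c true) then g (pt K s c false)
        else none := rfl

lemma wc_iff {w : HV V σ} : wc K g us w = some y ↔ w ∈ Wst K g us y := by
  rcases w with v | ⟨s, c, b⟩
  · constructor
    · intro h1
      exact Or.inl ⟨trivial, h1⟩
    · rintro (⟨_, h1⟩ | ⟨s, c, b, h1, _⟩)
      · exact h1
      · simp at h1
  · rw [wc_inr]
    by_cases h1 : b ≤ -K ∨ K ≤ b
    · rw [if_pos h1]
      constructor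
      · intro h2
        exact Or.inl ⟨h1, h2⟩
      · rintro (⟨_, h2⟩ | ⟨s', c', b', h2, _, _, _, h3, h4⟩)
        · exact h2
        · simp only [Sum.inr.injEq, Prod.mk.injEq] at h2
          obtain ⟨rfl, rfl, rfl⟩ := h2
          omega
    · rw [if_neg h1]
      constructor
      · intro h2
        split_ifs at h2 with h3
        exact Or.inr ⟨s, c, b, rfl, h3.1, h2, by rw [← h3.2]; exact h2, by omega, by omega⟩
      · rintro (⟨h2, _⟩ | ⟨s', c', b', h2, h3, h4, h5, _, _⟩)
        · exact absurd h2 h1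
        · simp only [Sum.inr.injEq, Prod.mk.injEq] at h2
          obtain ⟨rfl, rfl, rfl⟩ := h2
          rw [if_pos ⟨h3, by rw [h4, h5]⟩]
          exact h4

lemma wc_set : {w | wc K g us w = some y} = Wst K g us y := Set.ext (fun _ => wc_iff)

lemma wc_none {w : HV V σ} (h1 : wc K g us w ≠ none) : ∃ y, w ∈ Wst K g us y := by
  obtain ⟨y, hy⟩ := Option.ne_none_iff_exists'.1 h1
  exact ⟨y, wc_iff.1 hy⟩

lemma wc_fin [Finite σ] (hS : State G H D K g us) (hK : 2 ≤ K) (hKD : K ≤ D)
    (h4 : ∀ a b c d, G.Adj a b → G.Adj b c → G.Adj c d → G.Adj d a → a = c ∨ b = d)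
    (hKu : 2 * us.ncard + 4 ≤ K) : {w | wc K g us w ≠ none}.Finite := by
  by_cases hne : us.Nonempty
  · obtain ⟨⟨s, c⟩, _⟩ := hne
    obtain ⟨h, hh, _, _⟩ := exists_hts h4 hS hKu s c (fun _ _ => none)
      (fun _ _ _ _ _ hx => absurd hx (by simp))
    refine (hS.model hh hK hKD).fin.subset ?_
    intro w hw
    obtain ⟨y, hy⟩ := wc_none hw
    change rz H K g us h w ≠ none
    rw [wst_rz hS hh hy]
    simp
  · rw [Set.not_nonempty_iff_eq_empty] at hne
    refine hS.fin.subset ?_
    intro w hw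
    obtain ⟨y, hy⟩ := wc_none hw
    rcases hy with ⟨_, h1⟩ | ⟨s, c, b, _, h1, _⟩
    · change g w ≠ none
      rw [h1]; simp
    · rw [hne] at h1
      exact h1.elim

lemma wc_ok [Finite σ] (hS : State G H D K g us) (hK : 2 ≤ K) (hKD : K ≤ D)
    (h4 : ∀ a b c d, G.Adj a b → G.Adj b c → G.Adj c d → G.Adj d a → a = c ∨ b = d)
    (hKu : 2 * us.ncard + 4 ≤ K) : Ok H D (wc K g us) where
  sup := by
    intro s c b h1
    obtain ⟨y, hy⟩ := wc_none h1
    exact wst_rg hS hKD s c b hy
  fin := wc_fin hS hK hKD h4 hKu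
  con := by
    intro y
    rw [wc_set]
    exact wst_co hS (by omega) hKD

/-- The realization is a model. -/
theorem JState.model [Finite σ] (hB : Jnt H N U) (hS : JState G H U D K g us)
    (hh : Hts G K g us h) (hK : 2 ≤ K) (hKD : K ≤ D) (hDN : D ≤ N) :
    JModel G H U D (rz H K g us h) where
  mod := hS.st.model hh hK hKD
  unb := by
    have hm := hS.st.model hh hK hKD
    exact hB.mono D _ _ (by omega) hDN (Model.ok hm) (fun w y hw => wst_rz hS.st hh (wc_iff.1 hw))
      hS.unb

/-- A pendant vertex of the window `0` can be removed. -/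
lemma JModel.unb_pend (hB : Jnt H N U) (hD : 0 < D) (hDN : D ≤ N) (hf : JModel G H U D f)
    {s : σ} {c : ℕ} (hc : c < H.len s) (h0 : f (Sum.inr (s, c, 0)) = some y)
    (h1 : f (Sum.inr (s, c, 1)) = some y) (h2 : f (Sum.inr (s, c, -1)) ≠ some y)
    (hA : Co H D {w | f w = some y ∧ w ≠ Sum.inr (s, c, 0)}) :
    U D (cut f y {w | f w = some y ∧ w ≠ Sum.inr (s, c, 0)}) := by
  have hne : (Sum.inr (s, c, 1) : HV V σ) ≠ Sum.inr (s, c, 0) := by
    intro h
    simp only [Sum.inr.injEq, Prod.mk.injEq] at h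
    exact absurd h.2.2 (by norm_num)
  set Q : Set (HV V σ) := {Sum.inr (s, c, 0), Sum.inr (s, c, 1)} with hQ
  have hQ0 : (Sum.inr (s, c, 0) : HV V σ) ∈ Q := Or.inl rfl
  have hQ1 : (Sum.inr (s, c, 1) : HV V σ) ∈ Q := Or.inr rfl
  refine hf.unb_del hB hD.le hDN (s := s) hA Q hQ0 ?_ ?_ ?_ ?_ ⟨_, hQ1, hne⟩ ?_
  · rintro w (rfl | rfl)
    · exact h0
    · exact h1
  · rintro w (rfl | rfl)
    · exact ⟨_, _, rfl⟩
    · exact ⟨_, _, rfl⟩
  · apply Co.of (p := Sum.inr (s, c, 0))
    rintro w (rfl | rfl)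
    · exact ReflTransGen.refl
    · exact Pa.one (Host.ver (b := 0) hc (by omega) (by omega)) hQ0 hQ1
  · apply Co.of (p := Sum.inr (s, c, 1))
    rintro w ⟨rfl | rfl, hw⟩
    · exact absurd rfl hw
    · exact ReflTransGen.refl
  · intro w hw hadj
    rcases nb0 hD hadj with rfl | rfl
    · exact absurd hw h2
    · exact hQ1

/-- Dropping the vertex `(s₀, c₀, 0)` of a realization with height `0` at this column. -/
theorem JState.dropCol [Finite σ] (hB : Jnt H N U) (hgd : ∀ v, H.gd v)
    (hS : JState G H U D K g us) (hh : Hts G K g us h) (hK : 2 ≤ K)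
    (hKD : K ≤ D) (hDN : D ≤ N) {s₀ : σ} {c₀ : ℕ} (h0 : (s₀, c₀) ∈ us) (hh0 : h s₀ c₀ = 0)
    {y₀ : X} (hy₀ : g (Sum.inr (s₀, c₀, K)) = some y₀)
    (hcon : ∀ p, Out K p → g p = some y₀ →
      Cn H D (del (rz H K g us h) (Sum.inr (s₀, c₀, 0))) y₀ (Sum.inr (s₀, c₀, K)) p)
    (hkiss : ∀ z, G.Adj y₀ z → g (Sum.inr (s₀, c₀, -K)) = some z → ∃ v w,
      Cn H D (del (rz H K g us h) (Sum.inr (s₀, c₀, 0))) y₀ (Sum.inr (s₀, c₀, K)) v ∧
        H.Adj D v w ∧ rz H K g us h w = some z)
    (hU : Co H D {w | rz H K g us h w = some y₀ ∧ w ≠ Sum.inr (s₀, c₀, 0)} →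
      U D (cut (rz H K g us h) y₀
        {w | rz H K g us h w = some y₀ ∧ w ≠ Sum.inr (s₀, c₀, 0)})) :
    ∃ f', JModel G H U D f' ∧ mm f' < us.ncard := by
  have he : Exc H K g us h (del (rz H K g us h) (Sum.inr (s₀, c₀, 0))) := exc_del h0 hh0
  have hlo : ∀ s i, (s, i) ∈ us → -K < h s i :=
    fun s i hi => by have := hh.lo s i hi; omega
  have hhi : ∀ s i, (s, i) ∈ us → h s i ≤ K :=
    fun s i hi => by have := hh.hi s i hi; omega
  have hmod := hS.model hB hh hK hKD hDN
  have hK0 : 0 < K := by omega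
  -- vertices of the page
  have page : ∀ s c b, -K < b → b < K → rz H K g us h (Sum.inr (s, c, b)) = some y₀ →
      (Sum.inr (s, c, b) : HV V σ) ≠ Sum.inr (s₀, c₀, 0) →
      Cn H D (del (rz H K g us h) (Sum.inr (s₀, c₀, 0))) y₀ (Sum.inr (s₀, c₀, K))
        (Sum.inr (s, c, b)) := by
    intro s c b hb1 hb2 hr hne'
    obtain ⟨i, _, _, _, h5⟩ := he.rep hKD hlo hhi hb1 hb2 c
      (by rw [del_ne hne']; exact hr) (del_ne hne')
    rcases h5 with ⟨_, h5, h6⟩ | ⟨_, h5, h6⟩
    · exact (hcon _ out_left h5).trans h6.symm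
    · exact (hcon _ out_right h5).trans h6.symm
  have hall : ∀ w, rz H K g us h w = some y₀ → w ≠ Sum.inr (s₀, c₀, 0) →
      Cn H D (del (rz H K g us h) (Sum.inr (s₀, c₀, 0))) y₀ (Sum.inr (s₀, c₀, K)) w := by
    intro w hw hne
    by_cases ho : Out K w
    · rw [rz_out ho] at hw
      exact hcon w ho hw
    · rcases w with v | ⟨s, c, b⟩
      · exact absurd trivial ho
      · have hb : -K < b ∧ b < K := by
          by_contra hcon'
          apply ho
          change b ≤ -K ∨ K ≤ b
          omega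
        exact page s c b hb.1 hb.2 hw hne
  have hsub : {w | del (rz H K g us h) (Sum.inr (s₀, c₀, 0)) w = some y₀} ⊆
      {w | rz H K g us h w = some y₀ ∧ w ≠ Sum.inr (s₀, c₀, 0)} := by
    intro w hw
    have hw' : del (rz H K g us h) (Sum.inr (s₀, c₀, 0)) w = some y₀ := hw
    rcases eq_or_ne w (Sum.inr (s₀, c₀, 0)) with h1 | h1
    · rw [h1, del_self] at hw'
      exact absurd hw' (by simp)
    · rw [del_ne h1] at hw'
      exact ⟨hw', h1⟩
  have hCo : Co H D {w | rz H K g us h w = some y₀ ∧ w ≠ Sum.inr (s₀, c₀, 0)} := by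
    apply Co.of (p := Sum.inr (s₀, c₀, K))
    intro w hw
    exact (Pa.of_cn (hall w hw.1 hw.2)).mono hsub
  have kiss : ∀ z, G.Adj y₀ z → ∀ s k, (s, k) ∈ us →
      ((g (Sum.inr (s, k, -K)) = some y₀ ∧ g (Sum.inr (s, k, K)) = some z) ∨
        (g (Sum.inr (s, k, -K)) = some z ∧ g (Sum.inr (s, k, K)) = some y₀)) →
      ∃ v w, Cn H D (del (rz H K g us h) (Sum.inr (s₀, c₀, 0))) y₀ (Sum.inr (s₀, c₀, K)) v ∧
        H.Adj D v w ∧ rz H K g us h w = some z := by
    intro z hyz s k hk h2
    by_cases hsk : (s, k) = (s₀, c₀)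
    · obtain ⟨rfl, rfl⟩ := Prod.mk.inj hsk
      rcases h2 with ⟨_, h3⟩ | ⟨h3, _⟩
      · rw [hy₀, Option.some.injEq] at h3
        exact absurd h3 hyz.ne
      · exact hkiss z hyz h3
    · have h5 := hh.lo s k hk
      have h6 := hh.hi s k hk
      have hne : ∀ b : ℤ, (Sum.inr (s, k, b) : HV V σ) ≠ Sum.inr (s₀, c₀, 0) := by
        intro b hb
        simp only [Sum.inr.injEq, Prod.mk.injEq] at hb
        exact hsk (by rw [hb.1, hb.2.1])
      rcases h2 with ⟨h2, h3⟩ | ⟨h2, h3⟩
      · obtain ⟨h7, h8, h9⟩ := edge_kiss hS.st hh hKD hk h2 h3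
        exact ⟨_, _, page s k _ (by omega) (by omega) h8 (hne _), h7, h9⟩
      · obtain ⟨h7, h8, h9⟩ := edge_kiss hS.st hh hKD hk h2 h3
        exact ⟨_, _, page s k _ (by omega) (by omega) h9 (hne _), h7.symm, h8⟩
  have hb0 : ∀ (s : σ) (c : ℕ) (b : ℤ), b ≠ 0 →
      (Sum.inr (s, c, b) : HV V σ) ≠ Sum.inr (s₀, c₀, 0) := by
    intro s c b hb h1
    simp only [Sum.inr.injEq, Prod.mk.injEq] at h1
    exact hb h1.2.2
  rw [← mm_rz hS.st (h := h) (by omega)]
  refine hmod.drop hB hgd (by omega) hDN (s := s₀) (c := c₀) (y := y₀) ?_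
    {w | rz H K g us h w = some y₀ ∧ w ≠ Sum.inr (s₀, c₀, 0)} (fun w hw => hw) hCo
    (hU hCo) ?_
  · rw [rz_right h0 (hS.st.lt h0) (hlo _ _ h0) (by omega) (by omega)]
    exact hy₀
  · intro z hyz
    suffices hs : ∃ v w, Cn H D (del (rz H K g us h) (Sum.inr (s₀, c₀, 0))) y₀
        (Sum.inr (s₀, c₀, K)) v ∧ H.Adj D v w ∧ rz H K g us h w = some z by
      obtain ⟨v, w, h1, h2, h3⟩ := hs
      have hbase : del (rz H K g us h) (Sum.inr (s₀, c₀, 0)) (Sum.inr (s₀, c₀, K)) =
          some y₀ := by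
        rw [del_ne (hb0 _ _ _ (by omega)), rz_out out_right]
        exact hy₀
      exact ⟨v, w, hsub (h1.col hbase), h2, h3⟩
    rcases hS.st.edg y₀ z hyz with h1 | ⟨u, v, h1, h2, h3, h5, h6⟩
    · obtain ⟨s, i, j, h1 | h1 | h1, h2, h3⟩ := h1
      · subst h1
        apply kiss z hyz s i h2.1
        rcases h2.2 with h5 | h5
        · rcases h3.2 with h6 | h6
          · rw [h5, Option.some.injEq] at h6
            exact absurd h6 hyz.ne
          · exact Or.inl ⟨h5, h6⟩
        · rcases h3.2 with h6 | h6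
          · exact Or.inr ⟨h6, h5⟩
          · rw [h5, Option.some.injEq] at h6
            exact absurd h6 hyz.ne
      · rcases edge_cons hS.st hh hK h1 h2 h3 hyz with ⟨c, b, rfl, _, h5, h6, h7, h8, h9⟩ | h5
        · exact ⟨_, _, page _ _ _ h6 h7 h8 (hb0 _ _ _ h5),
            Host.hor (hS.st.lt h3.1) (by omega) (by omega) h5, h9⟩
        · obtain ⟨k, _, h5, h6⟩ := h5
          exact kiss z hyz s k h5 h6
      · rcases edge_cons hS.st hh hK h1 h3 h2 hyz.symm with
          ⟨c, b, rfl, _, h5, h6, h7, h8, h9⟩ | h5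
        · exact ⟨_, _, page _ _ _ h6 h7 h9 (hb0 _ _ _ h5),
            (Host.hor (hS.st.lt h2.1) (by omega) (by omega) h5).symm, h8⟩
        · obtain ⟨k, _, h5, h6⟩ := h5
          exact kiss z hyz s k h5 h6.symm
    · exact ⟨u, v, hcon u h1 h5, h3, by rw [rz_out h2]; exact h6⟩

/-- **(A1)** -/
theorem JState.a1 [Finite σ] (hB : Jnt H N U) (hgd : ∀ v, H.gd v)
    (h4 : ∀ a b c d, G.Adj a b → G.Adj b c → G.Adj c d → G.Adj d a → a = c ∨ b = d)
    (hS : JState G H U D K g us) (hK : 2 * us.ncard + 4 ≤ K) (hKD : K ≤ D) (hDN : D ≤ N)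
    {s : σ} {i j : ℕ} (hij : Cons us s i j) (hi : g (Sum.inr (s, i, -K)) = some y)
    (hj : g (Sum.inr (s, j, -K)) = some y) : ∃ f', JModel G H U D f' ∧ mm f' < us.ncard := by
  classical
  have hiu := hij.2.1
  have hju := hij.2.2.1
  have hjl := hS.st.lt hju
  have hil := hS.st.lt hiu
  obtain ⟨c, hjc, hl⟩ := hij.lu
  have hcl : c < H.len s := by omega
  obtain ⟨h, hh, hh0, hst⟩ := exists_hts h4 hS.st hK s j
    (fun s' j' => if s' = s ∧ j' = j then some (-2) else none) (by
      intro s' i' j' x hc hx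
      split_ifs at hx with h1
      rw [Option.some.injEq] at hx
      subst hx
      obtain ⟨rfl, rfl⟩ := h1
      have h2 := hc.uniq hij
      subst h2
      refine ⟨by norm_num, fun _ => rfl, fun h3 => ?_⟩
      exfalso
      obtain ⟨a, a', b, b', h5, _, h6, _, _, _, _, _, h7⟩ := h3
      rw [hi, Option.some.injEq] at h5
      rw [hj, Option.some.injEq] at h6
      exact h7 (h5.symm.trans h6))
  have hhi : h s i = 2 := by
    have := hst s i j (-2) hij (if_pos ⟨rfl, rfl⟩)
    omega
  obtain ⟨_, y₀, _, hy₀, _⟩ := hS.st.own s j hju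
  have he : Exc H K g us h (del (rz H K g us h) (Sum.inr (s, j, 0))) := exc_del hju hh0
  have hlo : ∀ s i, (s, i) ∈ us → -K < h s i := fun s i hi => by have := hh.lo s i hi; omega
  have hhi' : ∀ s i, (s, i) ∈ us → h s i ≤ K := fun s i hi => by have := hh.hi s i hi; omega
  have hK1 : 4 ≤ K := by omega
  have hne : ∀ (c' : ℕ) (b : ℤ), b ≠ 0 →
      (Sum.inr (s, c', b) : HV V σ) ≠ Sum.inr (s, j, 0) := by
    intro c' b hb h1
    simp only [Sum.inr.injEq, Prod.mk.injEq] at h1
    exact hb h1.2.2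
  -- the columns between `i` and `j` in the windows -1 and 1
  have hcb : ∀ c', i ≤ c' → c' < j → ∀ b : ℤ, b ≠ 0 → b < 2 → -K < b →
      rz H K g us h (Sum.inr (s, c', b)) = some y := by
    intro c' h5 h6 b hb1 hb2 hb3
    have hl' : lu us s c' = some i :=
      lu_of h5 hiu (fun k hk hk' => hij.2.2.2 k hk (by omega))
    rw [rz_lo hb3 (by omega) (by omega) (Or.inl hb1) hl' (by omega)]
    exact hi
  have hi0 : ∀ b : ℤ, -K < b → b < 2 → rz H K g us h (Sum.inr (s, i, b)) = some y := by
    intro b hb1 hb2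
    rw [rz_left hiu hil (hhi' s i hiu) hb1.le (by omega)]
    exact hi
  have hc1 : ∀ b : ℤ, b ≠ 0 → b < 2 → -K < b → rz H K g us h (Sum.inr (s, c, b)) = some y :=
    fun b hb1 hb2 hb3 => hcb c (by have := hij.1; omega) (by omega) b hb1 hb2 hb3
  have hc2 : ∀ b : ℤ, b ≠ 0 → b < 2 → -K < b →
      Cn H D (del (rz H K g us h) (Sum.inr (s, j, 0))) y (Sum.inr (s, c, b))
        (Sum.inr (s, i, -K)) := by
    intro b hb1 hb2 hb3
    obtain ⟨i', h5, _, _, h6⟩ := he.rep hKD hlo hhi' hb3 (by omega) c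
      (by rw [del_ne (hne c b hb1)]; exact hc1 b hb1 hb2 hb3) (del_ne (hne c b hb1))
    rw [hl, Option.some.injEq] at h5
    subst h5
    rcases h6 with ⟨_, _, h6⟩ | ⟨h6, _, _⟩
    · exact h6
    · omega
  have hjr : rz H K g us h (Sum.inr (s, j, 1)) = some y₀ := by
    rw [rz_right hju hjl (hlo s j hju) (by omega) (by omega)]
    exact hy₀
  have hj0 : rz H K g us h (Sum.inr (s, j, 0)) = some y₀ := by
    rw [rz_right hju hjl (hlo s j hju) (by omega) (by omega)]
    exact hy₀
  have hjl1 : rz H K g us h (Sum.inr (s, j, -1)) = some y := by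
    rw [rz_left hju hjl (hhi' s j hju) (by omega) (by omega)]
    exact hj
  have hjr' : Cn H D (del (rz H K g us h) (Sum.inr (s, j, 0))) y₀ (Sum.inr (s, j, 1))
      (Sum.inr (s, j, K)) :=
    he.right hKD hju hjl (hlo s j hju) (by omega) (by omega) hy₀ (del_ne (hne j 1 (by omega)))
  have hjump : g (Sum.inr (s, j, -K)) = some y₀ → g (Sum.inr (s, j, K)) = some y₀ →
      Cn H D (del (rz H K g us h) (Sum.inr (s, j, 0))) y₀ (Sum.inr (s, j, -K))
        (Sum.inr (s, j, K)) := by
    intro h5 _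
    rw [hj, Option.some.injEq] at h5
    subst h5
    have h6 : Cn H D (del (rz H K g us h) (Sum.inr (s, j, 0))) y (Sum.inr (s, j, -1))
        (Sum.inr (s, j, -K)) :=
      he.left hKD hju hjl (hhi' s j hju) (by omega) (by omega) hj
    have h7 : Cn H D (del (rz H K g us h) (Sum.inr (s, j, 0))) y (Sum.inr (s, c, -1))
        (Sum.inr (s, j, -1)) := by
      subst hjc
      refine Cn.one (Host.hor hjl (by omega) (by omega) (by omega)) ?_ ?_
      · rw [del_ne (hne c (-1) (by omega))]
        exact hc1 (-1) (by omega) (by omega) (by omega)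
      · rw [del_ne (hne (c + 1) (-1) (by omega))]
        exact hjl1
    have h8 : Cn H D (del (rz H K g us h) (Sum.inr (s, j, 0))) y (Sum.inr (s, c, 1))
        (Sum.inr (s, j, 1)) := by
      subst hjc
      refine Cn.one (Host.hor hjl (by omega) (by omega) (by omega)) ?_ ?_
      · rw [del_ne (hne c 1 (by omega))]
        exact hc1 1 (by omega) (by omega) (by omega)
      · rw [del_ne (hne (c + 1) 1 (by omega))]
        exact hjr
    exact ((((h6.symm.trans h7.symm).trans (hc2 (-1) (by omega) (by omega) (by omega))).trans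
      (hc2 1 (by omega) (by omega) (by omega)).symm).trans h8).trans hjr'
  have hcon : ∀ p, Out K p → g p = some y₀ →
      Cn H D (del (rz H K g us h) (Sum.inr (s, j, 0))) y₀ (Sum.inr (s, j, K)) p := by
    intro p hp hgp
    exact St.lift_del hS.st hh (by omega) hKD hju hh0 hjump
      (hS.st.con y₀ (Sum.inr (s, j, K)) p out_right hp hy₀ hgp)
  refine hS.dropCol hB hgd hh (by omega) hKD hDN hju hh0 hy₀ hcon ?_ ?_
  · intro z _ hz
    rw [hj, Option.some.injEq] at hz
    subst hz
    refine ⟨Sum.inr (s, j, 1), Sum.inr (s, c, 1), hjr'.symm, ?_,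
      hc1 1 (by omega) (by omega) (by omega)⟩
    subst hjc
    exact (Host.hor hjl (by omega) (by omega) (by omega)).symm
  · intro hCo
    have hmod := hS.model hB hh (by omega) hKD hDN
    by_cases hyy : y = y₀
    · -- full column: the rectangle between `i` and `j`
      subst hyy
      set Q : Set (HV V σ) := {w | ∃ (c' : ℕ) (b : ℤ), w = Sum.inr (s, c', b) ∧ i ≤ c' ∧
        c' ≤ j ∧ -1 ≤ b ∧ b ≤ 1 ∧ (b ≠ 0 ∨ c' = i ∨ c' = j)} with hQ
      have hQm : ∀ (c' : ℕ) (b : ℤ), i ≤ c' → c' ≤ j → -1 ≤ b → b ≤ 1 →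
          (b ≠ 0 ∨ c' = i ∨ c' = j) → (Sum.inr (s, c', b) : HV V σ) ∈ Q :=
        fun c' b h5 h6 h7 h8 h9 => ⟨c', b, rfl, h5, h6, h7, h8, h9⟩
      have hij' := hij.1
      -- connection to `(s, i, 0)` without `(s, j, 0)`
      have hbase : ∀ w ∈ Q, w ≠ Sum.inr (s, j, 0) →
          Pa H D {w | w ∈ Q ∧ w ≠ Sum.inr (s, j, 0)} (Sum.inr (s, i, 0)) w := by
        rintro w ⟨c', b, rfl, h5, h6, h7, h8, h9⟩ hw
        have hin : ∀ (c'' : ℕ) (b' : ℤ), i ≤ c'' → c'' ≤ j → -1 ≤ b' → b' ≤ 1 →
            (b' ≠ 0 ∨ c'' = i) → (Sum.inr (s, c'', b') : HV V σ) ∈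
            {w | w ∈ Q ∧ w ≠ Sum.inr (s, j, 0)} := by
          intro c'' b' h10 h11 h12 h13 h14
          refine ⟨hQm c'' b' h10 h11 h12 h13 (by
            rcases h14 with h14 | h14
            · exact Or.inl h14
            · exact Or.inr (Or.inl h14)), ?_⟩
          intro h15
          simp only [Sum.inr.injEq, Prod.mk.injEq] at h15
          rcases h14 with h14 | h14
          · exact h14 h15.2.2
          · omega
        by_cases hb : b = 0
        · subst hb
          have hci : c' = i := by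
            rcases h9 with h9 | h9 | h9
            · exact absurd rfl h9
            · exact h9
            · exfalso
              apply hw
              rw [h9]
          rw [hci]
          exact ReflTransGen.refl
        · have h10 : Pa H D {w | w ∈ Q ∧ w ≠ Sum.inr (s, j, 0)} (Sum.inr (s, i, 0))
              (Sum.inr (s, i, b)) := by
            rcases lt_or_ge b 0 with h11 | h11
            · refine (Pa.vert hil (by omega) (by omega) h11.le ?_).symm
              intro b' h12 h13
              exact hin i b' (le_refl _) (by omega) (by omega) (by omega) (Or.inr rfl)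
            · refine Pa.vert hil (by omega) (by omega) h11 ?_
              intro b' h12 h13
              exact hin i b' (le_refl _) (by omega) (by omega) (by omega) (Or.inr rfl)
          refine h10.trans ?_
          obtain ⟨n, rfl⟩ : ∃ n, c' = i + n := ⟨c' - i, by omega⟩
          refine Pa.hor hb (by omega) (by omega) i n (by omega) ?_
          intro k hk hk'
          exact hin k b hk (by omega) h7 h8 (Or.inl hb)
      have hQsub : {w | w ∈ Q ∧ w ≠ Sum.inr (s, j, 0)} ⊆ Q := fun w hw => hw.1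
      refine hmod.unb_del hB (by omega) hDN (s := s) hCo Q
        (hQm j 0 (by omega) (le_refl _) (by omega) (by omega) (Or.inr (Or.inr rfl))) ?_ ?_ ?_ ?_ ?_ ?_
      · rintro w ⟨c', b, rfl, h5, h6, h7, h8, h9⟩
        by_cases hb : b = 0
        · subst hb
          rcases h9 with h9 | h9 | h9
          · exact absurd rfl h9
          · rw [h9]
            exact hi0 0 (by omega) (by omega)
          · rw [h9]
            exact hj0
        · rcases Nat.lt_or_ge c' j with h10 | h10
          · exact hcb c' h5 h10 b hb (by omega) (by omega)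
          · have : c' = j := by omega
            subst this
            rcases lt_or_ge b 0 with h11 | h11
            · have : b = -1 := by omega
              rw [this]
              exact hjl1
            · have : b = 1 := by omega
              rw [this]
              exact hjr
      · rintro w ⟨c', b, rfl, _⟩
        exact ⟨c', b, rfl⟩
      · apply Co.of (p := Sum.inr (s, i, 0))
        intro w hw
        by_cases hwj : w = Sum.inr (s, j, 0)
        · rw [hwj]
          have h5 := hbase (Sum.inr (s, j, 1)) (hQm j 1 (by omega) (le_refl _) (by omega)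
            (by omega) (Or.inl (by omega))) (hne j 1 (by omega))
          refine (h5.mono hQsub).trans ?_
          exact (Pa.one (Host.ver (b := 0) hjl (by omega) (by omega))
            (hQm j 0 (by omega) (le_refl _) (by omega) (by omega) (Or.inr (Or.inr rfl)))
            (hQm j 1 (by omega) (le_refl _) (by omega) (by omega) (Or.inl (by omega)))).symm
        · exact (hbase w hw hwj).mono hQsub
      · apply Co.of (p := Sum.inr (s, i, 0))
        intro w hw
        exact hbase w hw.1 hw.2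
      · refine ⟨Sum.inr (s, i, 0), hQm i 0 (le_refl _) (by omega) (by omega) (by omega)
          (Or.inr (Or.inl rfl)), ?_⟩
        intro h5
        simp only [Sum.inr.injEq, Prod.mk.injEq] at h5
        omega
      · intro w _ hw
        rcases nb0 (by omega) hw with rfl | rfl
        · exact hQm j (-1) (by omega) (le_refl _) (by omega) (by omega) (Or.inl (by omega))
        · exact hQm j 1 (by omega) (le_refl _) (by omega) (by omega) (Or.inl (by omega))
    · -- kiss
      refine hmod.unb_pend hB (by omega) hDN hjl hj0 hjr ?_ hCo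
      rw [hjl1]
      intro h5
      exact hyy (Option.some.inj h5)

/-- Every edge is kissed at most once. -/
theorem JState.kiss1 [Finite σ] (hB : Jnt H N U) (hgd : ∀ v, H.gd v)
    (h4 : ∀ a b c d, G.Adj a b → G.Adj b c → G.Adj c d → G.Adj d a → a = c ∨ b = d)
    (hS : JState G H U D K g us) (hK : 2 * us.ncard + 4 ≤ K) (hKD : K ≤ D) (hDN : D ≤ N)
    {s s' : σ} {i j : ℕ}
    (hi : (s, i) ∈ us) (hj : (s', j) ∈ us) (hne : (s, i) ≠ (s', j)) (hyz : y ≠ z)
    (h1 : g (Sum.inr (s, i, -K)) = some z) (h2 : g (Sum.inr (s, i, K)) = some y)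
    (h3 : (g (Sum.inr (s', j, -K)) = some y ∧ g (Sum.inr (s', j, K)) = some z) ∨
      (g (Sum.inr (s', j, -K)) = some z ∧ g (Sum.inr (s', j, K)) = some y)) :
    ∃ f', JModel G H U D f' ∧ mm f' < us.ncard := by
  classical
  obtain ⟨h, hh, hh0, _⟩ := exists_hts h4 hS.st hK s i (fun _ _ => none)
    (fun _ _ _ _ _ hx => absurd hx (by simp))
  have he : Exc H K g us h (del (rz H K g us h) (Sum.inr (s, i, 0))) := exc_del hi hh0
  have hlo : ∀ s i, (s, i) ∈ us → -K < h s i := fun s i hi => by have := hh.lo s i hi; omega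
  have hhi' : ∀ s i, (s, i) ∈ us → h s i ≤ K := fun s i hi => by have := hh.hi s i hi; omega
  have hil := hS.st.lt hi
  have hcon : ∀ p, Out K p → g p = some y →
      Cn H D (del (rz H K g us h) (Sum.inr (s, i, 0))) y (Sum.inr (s, i, K)) p := by
    intro p hp hgp
    refine St.lift_del hS.st hh (by omega) hKD hi hh0 ?_
      (hS.st.con y (Sum.inr (s, i, K)) p out_right hp h2 hgp)
    intro h5 _
    rw [h1, Option.some.injEq] at h5
    exact absurd h5.symm hyz
  refine hS.dropCol hB hgd hh (by omega) hKD hDN hi hh0 h2 hcon ?_ ?_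
  · intro z' _ hz'
    rw [h1, Option.some.injEq] at hz'
    subst hz'
    have hjl := hS.st.lt hj
    have h5 := hh.lo s' j hj
    have h6 := hh.hi s' j hj
    have hdn : ∀ b : ℤ, (Sum.inr (s', j, b) : HV V σ) ≠ Sum.inr (s, i, 0) := by
      intro b h7
      simp only [Sum.inr.injEq, Prod.mk.injEq] at h7
      exact hne (by rw [h7.1, h7.2.1])
    rcases h3 with ⟨h3, h3'⟩ | ⟨h3, h3'⟩
    · obtain ⟨h7, h8, h9⟩ := edge_kiss hS.st hh hKD hj h3 h3'
      refine ⟨_, _, ?_, h7, h9⟩
      exact (hcon _ out_left h3).trans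
        (he.left hKD hj hjl (hhi' _ _ hj) (by omega) (by omega) h3).symm
    · obtain ⟨h7, h8, h9⟩ := edge_kiss hS.st hh hKD hj h3 h3'
      refine ⟨_, _, ?_, h7.symm, h8⟩
      exact (hcon _ out_right h3').trans
        (he.right hKD hj hjl (hlo _ _ hj) (by omega) (by omega) h3' (del_ne (hdn _))).symm
  · intro hCo
    have hmod := hS.model hB hh (by omega) hKD hDN
    refine hmod.unb_pend hB (by omega) hDN hil ?_ ?_ ?_ hCo
    · rw [rz_right hi hil (hlo _ _ hi) (by omega) (by omega)]
      exact h2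
    · rw [rz_right hi hil (hlo _ _ hi) (by omega) (by omega)]
      exact h2
    · rw [rz_left hi hil (hhi' _ _ hi) (by omega) (by omega), h1]
      intro h5
      exact hyz (Option.some.inj h5).symm

/-- A full column which is not a bridge is needed for the imbalance. -/
theorem JState.bridge [Finite σ] (hB : Jnt H N U) (hgd : ∀ v, H.gd v)
    (h4 : ∀ a b c d, G.Adj a b → G.Adj b c → G.Adj c d → G.Adj d a → a = c ∨ b = d)
    (hS : JState G H U D K g us) (hK : 2 * us.ncard + 4 ≤ K) (hKD : K ≤ D) (hDN : D ≤ N)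
    {s : σ} {i : ℕ}
    (hi : (s, i) ∈ us) (h1 : g (Sum.inr (s, i, -K)) = some y)
    (h2 : g (Sum.inr (s, i, K)) = some y)
    (h3 : St' H D K g us s i y (Sum.inr (s, i, -K)) (Sum.inr (s, i, K)))
    (h5 : U D (cut (wc K g us) y (Wst K g (us \ {(s, i)}) y))) :
    ∃ f', JModel G H U D f' ∧ mm f' < us.ncard := by
  classical
  obtain ⟨h, hh, hh0, _⟩ := exists_hts h4 hS.st hK s i (fun _ _ => none)
    (fun _ _ _ _ _ hx => absurd hx (by simp))
  refine hS.dropCol hB hgd hh (by omega) hKD hDN hi hh0 h2 ?_ ?_ ?_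
  · intro p hp hgp
    refine St.lift_del hS.st hh (by omega) hKD hi hh0 ?_
      (hS.st.con y (Sum.inr (s, i, K)) p out_right hp h2 hgp)
    intro _ _
    exact h3.lift hS.st hh (by omega) hKD hi hh0
  · intro z hyz hz
    rw [h1, Option.some.injEq] at hz
    exact absurd hz hyz.ne
  · intro hCo
    have hmod := (hS.model hB hh (by omega) hKD hDN).mod
    refine hB.mono D _ _ (by omega) hDN ((Model.ok hmod).cut (fun w hw => hw.1) hCo) ?_ h5
    intro w y' hw
    have hsub : ∀ w ∈ Wst K g (us \ {(s, i)}) y, wc K g us w = some y :=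
      fun w hw => wc_iff.2 (wst_diff_sub hw)
    by_cases hy : y' = y
    · rw [hy] at hw ⊢
      rw [cut_eq hsub] at hw
      rw [cut_eq (fun w hw => hw.1)]
      refine ⟨wst_rz hS.st hh (wst_diff_sub hw), ?_⟩
      rintro rfl
      rcases hw with ⟨h6, _⟩ | ⟨s', c, b, h6, h7, _⟩
      · have : (0 : ℤ) ≤ -K ∨ K ≤ 0 := h6
        omega
      · simp only [Sum.inr.injEq, Prod.mk.injEq] at h6
        obtain ⟨rfl, rfl, rfl⟩ := h6
        exact h7.2 rfl
    · rw [cut_ne hy] at hw ⊢
      exact wst_rz hS.st hh (wc_iff.1 hw)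

end

end Mdj
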