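import Pool.Agent.EN.JPorts

/-!
# Row C1, joint family version: every model with jointly unbalanced branch sets yields a taut
system of connectors
-/

open Relation

namespace Mdl

variable {σ X κ : Type*}

/-- Taut systems of connectors, version with joint ground. -/
structure CSys.TautJ (Y : CSys σ X κ) (G : SimpleGraph X) : Prop where
  fin : Y.all.Finite
  mem : ∀ s e p, p < Y.n s → Y.own s e p ∈ Y.all
  /-- every vertex has a connector -/
  hne : ∀ y, ∃ k ∈ Y.all, Y.ver k = y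
  /-- the two owners of a column -/
  kiss : ∀ s p, p < Y.n s → Y.ver (Y.own s false p) = Y.ver (Y.own s true p) ∨
    G.Adj (Y.ver (Y.own s false p)) (Y.ver (Y.own s true p))
  /-- contacts -/
  ctm : ∀ k k', Y.ct k k' → k ∈ Y.all ∧ k' ∈ Y.all ∧ G.Adj (Y.ver k) (Y.ver k')
  cts : ∀ k k', Y.ct k k' → Y.ct k' k
  ct1 : ∀ k k' l l', Y.ct k k' → Y.ct l l' → Y.ver k = Y.ver l → Y.ver k' = Y.ver l' →
    k = l ∧ k' = l'
  ctE : ∀ k k', Y.ct k k' → ¬ Y.Ein (Y.ver k) (Y.ver k')
  /-- at most one grounded connector for every vertex -/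
  grm : ∀ k, Y.gr k → k ∈ Y.all
  gr1 : ∀ k l, Y.gr k → Y.gr l → Y.ver k = Y.ver l → k = l
  /-- a vertex without grounded connector has at least as many full columns as connectors -/
  gndc : ∀ y, (∃ k, Y.gr k ∧ Y.ver k = y) ∨
    {k | k ∈ Y.all ∧ Y.ver k = y}.ncard ≤ {x : σ × ℕ | x.2 < Y.n x.1 ∧
      Y.ver (Y.own x.1 false x.2) = y ∧ Y.ver (Y.own x.1 true x.2) = y}.ncard
  /-- the connectors of a vertex are joined by its full columns -/
  con : ∀ y (T : Set κ), (∃ k ∈ Y.all, k ∈ T ∧ Y.ver k = y) → (∃ k ∈ Y.all, k ∉ T ∧ Y.ver k = y) →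
    ∃ s p, p < Y.n s ∧ Y.ver (Y.own s false p) = y ∧ Y.ver (Y.own s true p) = y ∧
      ¬ (Y.own s false p ∈ T ↔ Y.own s true p ∈ T)
  edg : ∀ y z, G.Adj y z → Y.Ein y z ∨ ∃ k k', Y.ct k k' ∧ Y.ver k = y ∧ Y.ver k' = z
  /-- (A1) -/
  a1 : ∀ s e p, p + 1 < Y.n s → Y.ver (Y.own s e p) ≠ Y.ver (Y.own s e (p + 1))
  /-- (A2) -/
  a2 : ∀ s e p, p < Y.n s → ¬ Y.gr (Y.own s e p) →
    (∀ s' e' p', p' < Y.n s' → Y.own s' e' p' = Y.own s e p → s' = s ∧ e' = e ∧ p' = p) →
    ∃ k k', k ≠ k' ∧ Y.ct (Y.own s e p) k ∧ Y.ct (Y.own s e p) k'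
  /-- (A5) -/
  a5 : ∀ k, ∀ A : Finset (σ × Bool × ℕ),
    (∀ x ∈ A, x.2.2 < Y.n x.1 ∧ Y.own x.1 x.2.1 x.2.2 = k) → A.card ≤ 7

end Mdl

namespace Mdj

open Mdl Mdu

variable {V σ X : Type*}

/-- The system of connectors of a state with given grounded connectors. -/
noncomputable def sysJ (G : SimpleGraph X) (H : Host V σ) (D K : ℤ) (g : HV V σ → Option X)
    (us : Set (σ × ℕ))
    (x₀ : X) (n : σ → ℕ) (col : σ → ℕ → ℕ) (cv : X → X → HV V σ)
    (gc : X → Option (Set (HV V σ))) : CSys σ X (Set (HV V σ)) where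
  n := n
  col := col
  own := fun s e p => Mdl.cmp H D K g x₀ (pt K s (col s p) e)
  all := {B | ∃ w, Out K w ∧ g w ≠ none ∧ B = Mdl.cmp H D K g x₀ w}
  ver := vr g x₀
  ct := fun B B' => ∃ y z, G.Adj y z ∧ ¬ Ein K g us y z ∧ B = Mdl.cmp H D K g x₀ (cv y z) ∧
    B' = Mdl.cmp H D K g x₀ (cv z y)
  gr := fun B => ∃ y, gc y = some B

section

variable {G : SimpleGraph X} {H : Host V σ} {N D K : ℤ} {U : ℤ → (HV V σ → Option X) → Prop}
  {g : HV V σ → Option X} {us : Set (σ × ℕ)} {y z : X} {x₀ : X} {n : σ → ℕ} {col : σ → ℕ → ℕ}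
  {cv : X → X → HV V σ} {gc : X → Option (Set (HV V σ))}

lemma cmp_cp {w : HV V σ} (hw : g w = some y) :
    Mdl.cmp H D K g x₀ w = Cp H D K g y w := by
  unfold Mdl.cmp
  rw [cl_eq hw]

lemma sysJ_Ein (hS : State G H D K g us) (hN : Num us n col) :
    (sysJ G H D K g us x₀ n col cv gc).Ein y z ↔ Ein K g us y z := by
  choose gv hgv using hS.gnd
  exact sys_Ein (x₀ := x₀) (cv := cv) (gv := gv) hS hN

lemma all_cs {B : Set (HV V σ)} : (B ∈ (sysJ G H D K g us x₀ n col cv gc).all ∧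
    (sysJ G H D K g us x₀ n col cv gc).ver B = y) ↔ B ∈ Cs H D K g y := by
  constructor
  · rintro ⟨⟨w, h1, h2, rfl⟩, h3⟩
    obtain ⟨a, ha⟩ := Option.ne_none_iff_exists'.1 h2
    have h4 : a = y := by
      rw [← h3]
      exact (vr_cmp ha).symm
    subst h4
    exact ⟨w, h1, ha, cmp_cp ha⟩
  · rintro ⟨w, h1, h2, rfl⟩
    rw [← cmp_cp (x₀ := x₀) h2]
    refine ⟨⟨w, h1, ?_, rfl⟩, vr_cmp h2⟩
    rw [h2]
    simp

/-- Geometric part. -/
theorem sysJ_conn (hS : State G H D K g us) (hN : Num us n col) (hA : Asg G H D K g us cv)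
    (hgc : ∀ y B, gc y = some B → ∃ v, Sum.inl v ∈ B ∧ H.gd v) :
    (sysJ G H D K g us x₀ n col cv gc).Conn H D K := by
  choose gv hgv using hS.gnd
  have h := sys_conn (x₀ := x₀) hS hN hA hgv
  exact
    { mono := h.mono
      lt := h.lt
      fin := h.fin
      ne := h.ne
      out := h.out
      bd := h.bd
      conn := h.conn
      dis := h.dis
      left := h.left
      right := h.right
      ct := h.ct
      gr := by
        rintro B ⟨y, hy⟩
        exact hgc y B hy }

/-- **Row C1, joint family version**, with the model behind the system. -/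
theorem taut2 [Finite σ] [Finite X] [Nonempty X] {G : SimpleGraph X} {H : Host V σ} {N : ℤ}
    {U : ℤ → (HV V σ → Option X) → Prop} (hB : Jnt H N U) (hgd : ∀ v, H.gd v)
    (h3 : ∀ y, {z | G.Adj y z}.ncard ≤ 3)
    (h4 : ∀ a b c d, G.Adj a b → G.Adj b c → G.Adj c d → G.Adj d a → a = c ∨ b = d)
    {d K : ℤ} {f : HV V σ → Option X} (hd : 0 ≤ d) (hf : JModel G H U d f)
    (hK : 2 * mm f + 4 ≤ K) (hDN : d + (mm f + 1) * K ≤ N) :
    ∃ (D : ℤ) (Y : CSys σ X (Set (HV V σ))), d + K ≤ D ∧ D ≤ d + (mm f + 1) * K ∧ Y.TautJ G ∧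
      Y.Conn H D K ∧ (∃ f' : HV V σ → Option X, Ok H D f' ∧ U D f' ∧
        ∀ B, Y.gr B → {w | f' w = some (Y.ver B)} = B) ∧
      ∃ g : HV V σ → Option X, JModel G H U D g ∧ ∀ B ∈ Y.all, ∀ u ∈ B, g u = some (Y.ver B) := by
  classical
  obtain ⟨D, g, us, h5, h6, h7, hM⟩ := exists_jmin (K := K) hB hgd hd hf (by omega) hDN
  have hS := hM.st.st
  have hK' : 2 * (us.ncard : ℤ) + 4 ≤ K := by
    have : (us.ncard : ℤ) ≤ mm f := by exact_mod_cast h7
    linarith
  have hKD : K ≤ D := by omega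
  have hDN' : D ≤ N := le_trans h6 hDN
  obtain ⟨n, col, hn1, hn2, hn3⟩ := exists_num hS.usfin
  have hN : Num us n col := ⟨hn1, hn2, hn3⟩
  obtain ⟨x₀⟩ := (inferInstance : Nonempty X)
  obtain ⟨gv₀, _⟩ := hS.gnd x₀
  obtain ⟨cv, hA⟩ := hS.exists_asg (Sum.inl gv₀)
  choose gc hgc1 hgc2 hgc3 using hM.exists_gc hB hgd h4 hK' hKD hDN'
  have hok := wc_ok hS (by omega) hKD h4 hK'
  have hcsW : ∀ y, ∀ B ∈ Cs H D K g y, ∀ w ∈ B, wc K g us w = some y := by
    rintro y _ ⟨p, h1, h2, rfl⟩ w hw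
    exact wc_iff.2 (wst_out (Cp.out h1 hw) (Cp.col h2 hw))
  have hcsc : ∀ y, ∀ B ∈ Cs H D K g y, Co H D B := by
    rintro y _ ⟨p, h1, h2, rfl⟩
    exact cp_co
  refine ⟨D, sysJ G H D K g us x₀ n col cv gc, h5, h6, ?_, sysJ_conn hS hN hA ?_, ?_, ?_⟩
  · -- taut
    have hcvv : ∀ y z, G.Adj y z → ¬ Ein K g us y z → vr g x₀ (Mdl.cmp H D K g x₀ (cv y z)) = y :=
      fun y z h1 h2 => vr_cmp (hA.col y z h1 h2)
    have hmem : ∀ y z, G.Adj y z → ¬ Ein K g us y z →
        Mdl.cmp H D K g x₀ (cv y z) ∈ (sysJ G H D K g us x₀ n col cv gc).all := by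
      intro y z h1 h2
      refine ⟨cv y z, hA.out y z h1 h2, ?_, rfl⟩
      rw [hA.col y z h1 h2]
      simp
    have hEs : ∀ y z, ¬ Ein K g us y z → ¬ Ein K g us z y := fun y z h h' => h h'.symm
    refine ⟨?_, ?_, ?_, ?_, ?_, ?_, ?_, ?_, ?_, ?_, ?_, ?_, ?_, ?_, ?_, ?_⟩
    · -- fin
      have h1 : (sysJ G H D K g us x₀ n col cv gc).all ⊆ Mdl.cmp H D K g x₀ '' {w | g w ≠ none} := by
        rintro B ⟨w, _, h2, rfl⟩
        exact ⟨w, h2, rfl⟩
      exact (hS.fin.image _).subset h1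
    · -- mem
      intro s e p hp
      obtain ⟨y, hy⟩ := hS.pt_col (hN.mem s p hp) e
      refine ⟨_, pt_out, ?_, rfl⟩
      rw [hy]
      simp
    · -- hne
      intro y
      obtain ⟨v, hv, _⟩ := hS.gnd y
      exact ⟨_, (all_cs (x₀ := x₀)).2 ⟨Sum.inl v, trivial, hv, rfl⟩⟩
    · -- kiss
      intro s p hp
      obtain ⟨a, b, h1, h2, h8⟩ := hS.own s _ (hN.mem s p hp)
      have e1 : (sysJ G H D K g us x₀ n col cv gc).ver
          ((sysJ G H D K g us x₀ n col cv gc).own s false p) = a :=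
        vr_cmp (w := pt K s (col s p) false) h1
      have e2 : (sysJ G H D K g us x₀ n col cv gc).ver
          ((sysJ G H D K g us x₀ n col cv gc).own s true p) = b :=
        vr_cmp (w := pt K s (col s p) true) h2
      rw [e1, e2]
      exact h8
    · -- ctm
      rintro k k' ⟨y, z, h1, h2, rfl, rfl⟩
      refine ⟨hmem y z h1 h2, hmem z y h1.symm (hEs _ _ h2), ?_⟩
      change G.Adj (vr g x₀ _) (vr g x₀ _)
      rw [hcvv y z h1 h2, hcvv z y h1.symm (hEs _ _ h2)]
      exact h1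
    · -- cts
      rintro k k' ⟨y, z, h1, h2, h8, h9⟩
      exact ⟨z, y, h1.symm, hEs _ _ h2, h9, h8⟩
    · -- ct1
      rintro k k' l l' ⟨y, z, h1, h2, rfl, rfl⟩ ⟨y', z', h1', h2', rfl, rfl⟩ h8 h9
      change vr g x₀ _ = vr g x₀ _ at h8 h9
      rw [hcvv y z h1 h2, hcvv y' z' h1' h2'] at h8
      rw [hcvv z y h1.symm (hEs _ _ h2), hcvv z' y' h1'.symm (hEs _ _ h2')] at h9
      rw [h8, h9]
      exact ⟨rfl, rfl⟩
    · -- ctE
      rintro k k' ⟨y, z, h1, h2, rfl, rfl⟩ h8
      change (sysJ G H D K g us x₀ n col cv gc).Ein (vr g x₀ _) (vr g x₀ _) at h8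
      rw [hcvv y z h1 h2, hcvv z y h1.symm (hEs _ _ h2), sysJ_Ein hS hN] at h8
      exact h2 h8
    · -- grm
      rintro k ⟨y, hy⟩
      exact ((all_cs (x₀ := x₀)).2 (hgc1 y k hy).1).1
    · -- gr1
      rintro k l ⟨y, hy⟩ ⟨z, hz⟩ h8
      have h9 := ((all_cs (G := G) (us := us) (n := n) (col := col) (cv := cv) (gc := gc)
        (x₀ := x₀)).2 (hgc1 y k hy).1).2
      have h10 := ((all_cs (G := G) (us := us) (n := n) (col := col) (cv := cv) (gc := gc)
        (x₀ := x₀)).2 (hgc1 z l hz).1).2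
      have h11 : y = z := h9.symm.trans (h8.trans h10)
      rw [h11, hz, Option.some.injEq] at hy
      exact hy.symm
    · -- gndc
      intro y
      cases ho : gc y with
      | some B =>
        left
        exact ⟨B, ⟨y, ho⟩, ((all_cs (x₀ := x₀)).2 (hgc1 y B ho).1).2⟩
      | none =>
        right
        have hcf : (Cs H D K g y).Finite := cs_fin hS
        have hff : (Fc K g us y).Finite := fc_fin hS
        have h8 := hgc2 y ho hcf.toFinset hff.toFinset (fun B => hcf.mem_toFinset)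
          (fun x => hff.mem_toFinset)
        rw [← Set.ncard_eq_toFinset_card _ hcf, ← Set.ncard_eq_toFinset_card _ hff] at h8
        have e1 : {k | k ∈ (sysJ G H D K g us x₀ n col cv gc).all ∧
            (sysJ G H D K g us x₀ n col cv gc).ver k = y} = Cs H D K g y :=
          Set.ext (fun B => all_cs)
        rw [e1]
        refine le_trans h8 (le_of_eq ?_)
        have hco : ∀ s p e, p < n s → ((sysJ G H D K g us x₀ n col cv gc).ver
            ((sysJ G H D K g us x₀ n col cv gc).own s e p) = y ↔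
              g (pt K s (col s p) e) = some y) := by
          intro s p e hp
          obtain ⟨a, ha⟩ := hS.pt_col (hN.mem s p hp) e
          have h9 : (sysJ G H D K g us x₀ n col cv gc).ver
              ((sysJ G H D K g us x₀ n col cv gc).own s e p) = a := vr_cmp ha
          rw [h9, ha, Option.some.injEq]
        have e2 : Fc K g us y = (fun x : σ × ℕ => (x.1, col x.1 x.2)) ''
            {x : σ × ℕ | x.2 < n x.1 ∧
              (sysJ G H D K g us x₀ n col cv gc).ver
                ((sysJ G H D K g us x₀ n col cv gc).own x.1 false x.2) = y ∧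
              (sysJ G H D K g us x₀ n col cv gc).ver
                ((sysJ G H D K g us x₀ n col cv gc).own x.1 true x.2) = y} := by
          ext ⟨s, c⟩
          constructor
          · rintro ⟨h9, h10, h11⟩
            obtain ⟨p, hp, rfl⟩ := hN.surj s c h9
            exact ⟨(s, p), ⟨hp, (hco s p false hp).2 h10, (hco s p true hp).2 h11⟩, rfl⟩
          · rintro ⟨⟨s', p⟩, ⟨hp, h9, h10⟩, h11⟩
            simp only [Prod.mk.injEq] at h11 hp h9 h10
            obtain ⟨rfl, rfl⟩ := h11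
            exact ⟨hN.mem _ _ hp, (hco _ _ false hp).1 h9, (hco _ _ true hp).1 h10⟩
        rw [e2]
        apply Set.InjOn.ncard_image
        rintro ⟨s, p⟩ hp ⟨s', p'⟩ hp' h9
        simp only [Prod.mk.injEq] at h9
        obtain ⟨rfl, h10⟩ := h9
        have h11 : p < n s := hp.1
        have h12 : p' < n s := hp'.1
        rw [hN.inj h11 h12 h10]
    · -- con
      rintro y T ⟨k, ⟨w, h1, h2, rfl⟩, h8, h9⟩ ⟨k', ⟨w', h1', h2', rfl⟩, h8', h9'⟩
      obtain ⟨a, ha⟩ := Option.ne_none_iff_exists'.1 h2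
      obtain ⟨a', ha'⟩ := Option.ne_none_iff_exists'.1 h2'
      change vr g x₀ _ = y at h9 h9'
      rw [vr_cmp ha] at h9
      rw [vr_cmp ha'] at h9'
      subst h9 h9'
      obtain ⟨s, c, h10, h11, h12, h13⟩ := hS.change (x₀ := x₀) h1 h1' ha ha' T h8 h8'
      obtain ⟨p, hp, rfl⟩ := hN.surj s c h10
      exact ⟨s, p, hp, vr_cmp h11, vr_cmp h12, h13⟩
    · -- edg
      intro y z hyz
      by_cases h8 : Ein K g us y z
      · exact Or.inl ((sysJ_Ein hS hN).2 h8)
      · exact Or.inr ⟨_, _, ⟨y, z, hyz, h8, rfl, rfl⟩, hcvv y z hyz h8,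
          hcvv z y hyz.symm (hEs _ _ h8)⟩
    · -- a1
      intro s e p hp h8
      have hp' : p < n s := Nat.lt_of_succ_lt hp
      obtain ⟨a, ha⟩ := hS.pt_col (hN.mem s p hp') e
      obtain ⟨b, hb⟩ := hS.pt_col (hN.mem s (p + 1) hp) e
      change vr g x₀ (Mdl.cmp H D K g x₀ _) = vr g x₀ (Mdl.cmp H D K g x₀ _) at h8
      rw [vr_cmp ha, vr_cmp hb] at h8
      subst h8
      exact hM.a1 hB hgd h4 hK' hKD hDN' (hN.cons hp) e ha hb
    · -- a2
      intro s e p hp hgr hone
      have hpu := hN.mem s p hp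
      obtain ⟨y, hy⟩ := hS.pt_col hpu e
      have hCp : Mdl.cmp H D K g x₀ (pt K s (col s p) e) = Cp H D K g y (pt K s (col s p) e) := by
        unfold Mdl.cmp
        rw [cl_eq hy]
      have hone' : OneE H D K g us s (col s p) e y := by
        intro s' c' e' h8 h9
        obtain ⟨q, hq, rfl⟩ := hN.surj s' c' h8
        rw [← hCp] at h9
        obtain ⟨h10, h11, h12⟩ := hone s' e' q hq (cmp_eq hy h9)
        subst h10
        exact ⟨rfl, by rw [h12], h11⟩
      obtain ⟨z, z', h8, ⟨h9, h10, h11⟩, h12, h13, h14⟩ := hM.a2 hB hgd h4 hK' hKD hDN' hA hpu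
        hone' hy (hgc3 y s (col s p) e hpu hone' hy (by
          intro h8
          apply hgr
          refine ⟨y, ?_⟩
          rw [h8]
          exact congrArg some hCp.symm))
      rw [← hCp] at h11 h14
      refine ⟨cmp H D K g x₀ (cv z y), Mdl.cmp H D K g x₀ (cv z' y), ?_, ?_, ?_⟩
      · intro h15
        have h16 := hcvv z y h9.symm (hEs _ _ h10)
        rw [h15, hcvv z' y h12.symm (hEs _ _ h13)] at h16
        exact h8 h16.symm
      · exact ⟨y, z, h9, h10, (cmp_eq hy h11).symm, rfl⟩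
      · exact ⟨y, z', h12, h13, (cmp_eq hy h14).symm, rfl⟩
    · -- a5
      intro k A hAp
      rcases A.eq_empty_or_nonempty with h8 | ⟨⟨s, e, p⟩, hx⟩
      · rw [h8]
        simp
      · obtain ⟨h9, h10⟩ := hAp _ hx
        simp only at h9 h10
        have hpu := hN.mem s p h9
        obtain ⟨y, hy⟩ := hS.pt_col hpu e
        have h11 : (A.image (fun x : σ × Bool × ℕ => (x.1, col x.1 x.2.2, x.2.1))).card =
            A.card := by
          apply Finset.card_image_of_injOn
          rintro ⟨s', e', p'⟩ hx' ⟨s'', e'', p''⟩ hx'' h12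
          simp only [Prod.mk.injEq] at h12
          obtain ⟨rfl, h13, rfl⟩ := h12
          have h14 := (hAp _ hx').1
          have h15 := (hAp _ hx'').1
          have h16 : p' = p'' := hN.inj h14 h15 h13
          rw [h16]
        rw [← h11]
        refine hM.ports_le hB hgd h3 h4 hK' hKD hDN' hA (hgc3 y)
          (w₀ := pt K s (col s p) e) pt_out hy _ ?_
        rintro ⟨s', c', e'⟩ hx'
        rw [Finset.mem_image] at hx'
        obtain ⟨⟨s'', e'', p''⟩, hx'', h12⟩ := hx'
        simp only [Prod.mk.injEq] at h12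
        obtain ⟨rfl, rfl, rfl⟩ := h12
        obtain ⟨h13, h14⟩ := hAp _ hx''
        simp only at h13 h14
        refine ⟨hN.mem _ _ h13, ?_⟩
        rw [← cmp_cp (x₀ := x₀) hy]
        have h15 : Mdl.cmp H D K g x₀ (pt K s'' (col s'' p'') e'') =
            Mdl.cmp H D K g x₀ (pt K s (col s p) e) := h14.trans h10.symm
        rw [← h15]
        exact cmp_self
  · -- grounded connectors contain an outside vertex
    intro y B hy
    obtain ⟨h8, h9⟩ := hgc1 y B hy
    obtain ⟨v, hv⟩ := hB.inl (by omega) hDN' (hok.cut (hcsW y B h8) (hcsc y B h8)) h9 y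
    exact ⟨v, (cut_eq (hcsW y B h8)).1 hv, hgd v⟩
  · -- joint ground
    set A : X → Set (HV V σ) := fun y => (gc y).getD (Wst K g us y) with hAdef
    have hA1 : ∀ y B, gc y = some B → A y = B := by
      intro y B h8
      rw [hAdef]
      simp only
      rw [h8]
      rfl
    have hA2 : ∀ y, gc y = none → A y = Wst K g us y := by
      intro y h8
      rw [hAdef]
      simp only
      rw [h8]
      rfl
    have hAw : ∀ y, ∀ w ∈ A y, wc K g us w = some y := by
      intro y w hw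
      cases ho : gc y with
      | some B =>
        rw [hA1 y B ho] at hw
        exact hcsW y B (hgc1 y B ho).1 w hw
      | none =>
        rw [hA2 y ho] at hw
        exact wc_iff.2 hw
    have hAc : ∀ y, Co H D (A y) := by
      intro y
      cases ho : gc y with
      | some B =>
        rw [hA1 y B ho]
        exact hcsc y B (hgc1 y B ho).1
      | none =>
        rw [hA2 y ho]
        exact wst_co hS (by omega) hKD
    set f' : HV V σ → Option X :=
      fun w => (wc K g us w).bind (fun y => if w ∈ A y then some y else none) with hf'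
    have hfe : ∀ w y, f' w = some y ↔ w ∈ A y := by
      intro w y
      constructor
      · intro h8
        obtain ⟨a, h9, h10⟩ := Option.bind_eq_some_iff.1 h8
        split_ifs at h10 with h11
        rw [Option.some.injEq] at h10
        rw [← h10]
        exact h11
      · intro h8
        exact Option.bind_eq_some_iff.2 ⟨y, hAw y w h8, if_pos h8⟩
    have hfle : ∀ w, f' w ≠ none → wc K g us w ≠ none := by
      intro w h8 h9
      apply h8
      rw [hf']
      simp only
      rw [h9]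
      rfl
    refine ⟨f', ⟨?_, ?_, ?_⟩, ?_, ?_⟩
    · intro s c b h8
      exact hok.sup s c b (hfle _ h8)
    · exact hok.fin.subset (fun w h8 => hfle w h8)
    · intro y
      have : {w | f' w = some y} = A y := Set.ext (fun w => hfe w y)
      rw [this]
      exact hAc y
    · refine hB.loc D (wc K g us) A (by omega) hDN' hok hAw ?_ hAc ?_ f' hfe
      · intro y
        cases ho : gc y with
        | some B =>
          rw [hA1 y B ho]
          obtain ⟨w, _, _, h8⟩ := (hgc1 y B ho).1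
          rw [h8]
          exact ⟨w, cp_self⟩
        | none =>
          rw [hA2 y ho]
          obtain ⟨v, hv, _⟩ := hS.gnd y
          exact ⟨Sum.inl v, wst_out trivial hv⟩
      · intro y
        cases ho : gc y with
        | some B =>
          rw [hA1 y B ho]
          exact (hgc1 y B ho).2
        | none =>
          rw [hA2 y ho, cut_id (fun w hw => wc_iff.1 hw)]
          exact hM.st.unb
    · rintro B ⟨y, hy⟩
      have h8 := ((all_cs (G := G) (us := us) (n := n) (col := col) (cv := cv) (gc := gc)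
        (x₀ := x₀)).2 (hgc1 y B hy).1).2
      rw [h8]
      ext w
      change f' w = some y ↔ w ∈ B
      rw [hfe, hA1 y B hy]
  · -- the model
    have hex : ∃ h, Hts G K g us h := by
      rcases us.eq_empty_or_nonempty with h8 | ⟨⟨s, c⟩, _⟩
      · refine ⟨fun _ _ => 0, ?_, ?_, ?_, ?_⟩
        · intro s i hi
          rw [h8] at hi
          exact hi.elim
        · intro s i hi
          rw [h8] at hi
          exact hi.elim
        · intro s i j hc
          rw [h8] at hc
          exact hc.2.1.elim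
        · intro s i j hc
          rw [h8] at hc
          exact hc.2.1.elim
      · obtain ⟨h, hh, _, _⟩ := exists_hts h4 hS hK' s c (fun _ _ => none)
          (fun _ _ _ _ _ hx => absurd hx (by simp))
        exact ⟨h, hh⟩
    obtain ⟨h, hh⟩ := hex
    refine ⟨rz H K g us h, hM.st.model hB hh (by omega) hKD hDN', ?_⟩
    rintro B ⟨w, h8, h9, rfl⟩ u hu
    obtain ⟨a, ha⟩ := Option.ne_none_iff_exists'.1 h9
    have h10 : (sysJ G H D K g us x₀ n col cv gc).ver (Mdl.cmp H D K g x₀ w) = a := vr_cmp ha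
    rw [h10, rz_out (cmp_out h8 hu)]
    exact cmp_col ha hu

/-- **Row C1, joint family version.** -/
theorem taut [Finite σ] [Finite X] [Nonempty X] {G : SimpleGraph X} {H : Host V σ} {N : ℤ}
    {U : ℤ → (HV V σ → Option X) → Prop} (hB : Jnt H N U) (hgd : ∀ v, H.gd v)
    (h3 : ∀ y, {z | G.Adj y z}.ncard ≤ 3)
    (h4 : ∀ a b c d, G.Adj a b → G.Adj b c → G.Adj c d → G.Adj d a → a = c ∨ b = d)
    {d K : ℤ} {f : HV V σ → Option X} (hd : 0 ≤ d) (hf : JModel G H U d f)
    (hK : 2 * mm f + 4 ≤ K) (hDN : d + (mm f + 1) * K ≤ N) :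
    ∃ (D : ℤ) (Y : CSys σ X (Set (HV V σ))), d + K ≤ D ∧ D ≤ d + (mm f + 1) * K ∧ Y.TautJ G ∧
      Y.Conn H D K ∧ ∃ f' : HV V σ → Option X, Ok H D f' ∧ U D f' ∧
        ∀ B, Y.gr B → {w | f' w = some (Y.ver B)} = B := by
  obtain ⟨D, Y, h1, h2, h5, h6, h7, _⟩ := taut2 hB hgd h3 h4 hd hf hK hDN
  exact ⟨D, Y, h1, h2, h5, h6, h7⟩

end

end Mdj
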