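import Pool.Agent.EN.Third

/-!
# A complete minor model gives the grid with joints (any gains)
-/

open Set
open scoped Matroid

namespace EN

open BIC Gad

variable {α V : Type*} {M : Matroid α} {S : Set α} {ends : α → Sym2 V}

/-- **`K_t` model, `t = (2w)² + 1`.** -/
theorem kt_jgrid {w t : ℕ} (hw : 1 ≤ w) (ht : (2 * w) * (2 * w) + 1 ≤ t)
    (B : ℕ → Set V) (hBf : ∀ i < t, (B i).Finite) (hBc : ∀ i < t, VConn S ends (B i))
    (hBB : ∀ i < t, ∀ j < t, i ≠ j → Disjoint (B i) (B j))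
    (hadj : ∀ i < t, ∀ j < t, i ≠ j → Lnk S ends (B i) (B j)) :
    GmZ S ends (2 * w) := by
  have hlt : ∀ c ∈ Cl (2 * w), idx (2 * w) c < (2 * w) * (2 * w) := fun c hc => idx_lt hc
  have hinj : ∀ c ∈ Cl (2 * w), ∀ c' ∈ Cl (2 * w), c ≠ c' → idx (2 * w) c ≠ idx (2 * w) c' :=
    fun c hc c' hc' hne h => hne (idx_inj hc hc' h)
  refine gmod_Z (fun c => B (idx (2 * w) c)) (B ((2 * w) * (2 * w)))
    (hBf _ (by omega)) (hBc _ (by omega)) (fun c hc => hBf _ (by have := hlt c hc; omega))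
    (fun c hc => hBc _ (by have := hlt c hc; omega)) ?_ ?_ ?_ ?_
  · intro c hc c' hc' hne
    have h1 := hlt c hc
    have h2 := hlt c' hc'
    exact hBB _ (by omega) _ (by omega) (hinj c hc c' hc' hne)
  · intro c hc
    have h1 := hlt c hc
    exact hBB _ (by omega) _ (by omega) (by omega)
  · intro c c' h
    have h1 := hlt c h.1
    have h2 := hlt c' h.2.1
    exact hadj _ (by omega) _ (by omega) (hinj c h.1 c' h.2.1 h.ne)
  · intro c hc
    have h1 := hlt c hc
    exact hadj _ (by omega) _ (by omega) (by omega)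

end EN
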