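import Pool.Agent.EN.LmPage
import Pool.Agent.EN.KgeCrt
import Pool.Agent.EN.LinkF
import Pool.Agent.EN.LinkF1
import Pool.Agent.EN.Lanes

/-!
# The `K_t` branch of LINK (helper88, MP_5165fa_co)

A real `K_t` model with a port in every set is cut in pieces of `t₀` sets.
-/

open Set
open scoped Matroid

namespace EN

open BIC Gad BICS

universe u v

section

variable {α V : Type*} {M : Matroid α} {S Sf : Set α} {ends : α → Sym2 V} {u : ℕ}

variable {P : ℕ → ℕ × ℕ → V} {lo hi : ℕ → ℕ} {n q t₀ : ℕ} {X : ℕ → Set V} {sg cx : ℕ → ℕ}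

/-- The vertices of the piece `p`. -/
def KtV (X : ℕ → Set V) (t₀ p : ℕ) : Set V := ⋃ i ∈ Finset.range t₀, X (p * t₀ + i)

lemma mem_KtV {v : V} {p : ℕ} : v ∈ KtV X t₀ p ↔ ∃ i < t₀, v ∈ X (p * t₀ + i) := by
  unfold KtV
  simp only [mem_iUnion, Finset.mem_range, exists_prop]

/-- The legs of the piece `p`: different sets of the model. -/
def OffK (X : ℕ → Set V) (t₀ t p : ℕ) (A : ℕ → Set V) : Prop :=
  ∃ f : ℕ → ℕ, (∀ b < t, f b < t₀ ∧ A b = X (p * t₀ + f b)) ∧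
    ∀ b < t, ∀ b' < t, b ≠ b' → f b ≠ f b'

lemma kt_lt {p i : ℕ} (hp : p < q) (hi : i < t₀) : p * t₀ + i < q * t₀ := by
  calc p * t₀ + i < p * t₀ + t₀ := by omega
    _ = (p + 1) * t₀ := by ring
    _ ≤ q * t₀ := Nat.mul_le_mul_right _ hp

lemma kt_ne {p p' i i' : ℕ} (hi : i < t₀) (hi' : i' < t₀) (hne : p ≠ p' ∨ i ≠ i') :
    p * t₀ + i ≠ p' * t₀ + i' := by
  intro h
  have ht : 0 < t₀ := by omega
  have h1 : (p * t₀ + i) / t₀ = (p' * t₀ + i') / t₀ := by rw [h]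
  rw [mul_comm p, mul_comm p', Nat.mul_add_div ht, Nat.mul_add_div ht, Nat.div_eq_of_lt hi,
    Nat.div_eq_of_lt hi', add_zero, add_zero] at h1
  subst h1
  rcases hne with h2 | h2
  · exact h2 rfl
  · omega

lemma LowC.disV (h : LowC S ends P lo hi n 1 (q * t₀) X sg cx) {p p' : ℕ} (hp : p < q)
    (hp' : p' < q) (hne : p ≠ p') : Disjoint (KtV X t₀ p) (KtV X t₀ p') := by
  rw [Set.disjoint_left]
  intro v hv hv'
  obtain ⟨i, hi', h1⟩ := mem_KtV.1 hv
  obtain ⟨j, hj, h2⟩ := mem_KtV.1 hv'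
  exact Set.disjoint_left.1 (h.dis _ (kt_lt hp hi') _ (kt_lt hp' hj)
    (kt_ne hi' hj (Or.inl hne))) h1 h2

/-- The pieces. -/
theorem KtR.pcs (h : KtR S ends P lo hi n (q * t₀) X sg cx) :
    Pcs S ends (Finset.range q) (KtV X t₀) where
  fin := fun p hp => Set.Finite.biUnion (Finset.range t₀).finite_toSet fun i hi =>
    h.low.fin _ (kt_lt (Finset.mem_range.1 hp) (Finset.mem_range.1 (Finset.mem_coe.1 hi)))
  con := by
    intro p hp
    rw [Finset.mem_range] at hp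
    have key : ∀ m ≤ t₀, VConn S ends (⋃ i ∈ Finset.range m, X (p * t₀ + i)) := by
      intro m
      induction m with
      | zero =>
        intro _
        simpa using vconn_empty
      | succ m ih =>
        intro hm
        have e : (⋃ i ∈ Finset.range (m + 1), X (p * t₀ + i)) =
            (⋃ i ∈ Finset.range m, X (p * t₀ + i)) ∪ X (p * t₀ + m) := by
          ext v
          simp only [mem_iUnion, Finset.mem_range, mem_union, exists_prop]
          constructor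
          · rintro ⟨i, hi', hv⟩
            rcases Nat.lt_succ_iff_lt_or_eq.1 hi' with h1 | h1
            · exact Or.inl ⟨i, h1, hv⟩
            · exact Or.inr (h1 ▸ hv)
          · rintro (⟨i, hi', hv⟩ | hv)
            · exact ⟨i, by omega, hv⟩
            · exact ⟨m, by omega, hv⟩
        rw [e]
        rcases Nat.eq_zero_or_pos m with h0 | h0
        · subst h0
          simpa using h.low.con _ (kt_lt hp hm)
        · refine vc_lnk (ih (by omega)) (h.low.con _ (kt_lt hp hm)) ?_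
          refine (h.lnk _ (kt_lt hp (i := 0) (by omega)) _ (kt_lt hp hm)
            (kt_ne (by omega) hm (Or.inr (by omega)))).mono (subset_refl _) ?_ (subset_refl _)
          intro v hv
          simp only [mem_iUnion, Finset.mem_range, exists_prop]
          exact ⟨0, h0, hv⟩
    exact key t₀ (le_refl _)
  dis := fun p hp p' hp' hne => h.low.disV (Finset.mem_range.1 hp) (Finset.mem_range.1 hp') hne

/-- **(lk)** for `K_t`: the edges between the branch sets. -/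
theorem KtR.lk (h : KtR S ends P lo hi n (q * t₀) X sg cx) {p p' : ℕ} (hp : p < q)
    (hp' : p' < q) (hne : p ≠ p') {t K₁ : ℕ} (hK : K₁ ≤ t) {A A' : ℕ → Set V}
    (hA : OffK X t₀ t p A) (hA' : OffK X t₀ t p' A') :
    ∃ (L : ℕ → Set V) (β γ : ℕ → ℕ),
      (∀ i < K₁, (L i).Finite ∧ VConn S ends (L i) ∧ β i < t ∧ γ i < t ∧
        (L i ∩ KtV X t₀ p).Nonempty ∧ L i ∩ KtV X t₀ p ⊆ A (β i) ∧
        (L i ∩ KtV X t₀ p').Nonempty ∧ L i ∩ KtV X t₀ p' ⊆ A' (γ i) ∧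
        ∀ r ∈ Finset.range q, r ≠ p → r ≠ p' → Disjoint (L i) (KtV X t₀ r)) ∧
      ∀ i < K₁, ∀ j < K₁, i ≠ j → Disjoint (L i) (L j) ∧ β i ≠ β j ∧ γ i ≠ γ j := by
  obtain ⟨f, f1, f2⟩ := hA
  obtain ⟨g, g1, g2⟩ := hA'
  have h0 : ∀ i, ∃ a b : V, i < t → a ∈ X (p * t₀ + f i) ∧ b ∈ X (p' * t₀ + g i) ∧
      GAdj S ends a b := by
    intro i
    by_cases hi' : i < t
    · obtain ⟨e, he, a, ha, b, hb, hab⟩ := h.lnk _ (kt_lt hp (f1 i hi').1) _
        (kt_lt hp' (g1 i hi').1) (kt_ne (f1 i hi').1 (g1 i hi').1 (Or.inl hne))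
      exact ⟨a, b, fun _ => ⟨ha, hb, e, he, hab⟩⟩
    · exact ⟨P (sg 0) (0, 0), P (sg 0) (0, 0), fun h' => absurd h' hi'⟩
  choose a b hab using h0
  have hVp : ∀ i < t, X (p * t₀ + f i) ⊆ KtV X t₀ p := fun i hi' v hv =>
    mem_KtV.2 ⟨f i, (f1 i hi').1, hv⟩
  have hVp' : ∀ i < t, X (p' * t₀ + g i) ⊆ KtV X t₀ p' := fun i hi' v hv =>
    mem_KtV.2 ⟨g i, (g1 i hi').1, hv⟩
  have hdV := h.low.disV hp hp' hne
  refine ⟨fun i => {a i} ∪ {b i}, fun i => i, fun i => i, fun i hi' => ?_, fun i hi' j hj hij => ?_⟩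
  · have hit : i < t := by omega
    obtain ⟨ha, hb, hadj⟩ := hab i hit
    refine ⟨(finite_singleton _).union (finite_singleton _), ?_, hit, hit, ?_, ?_, ?_, ?_, ?_⟩
    · obtain ⟨e, he, hee⟩ := hadj
      exact vc_lnk (vconn_singleton _) (vconn_singleton _) ⟨e, he, _, rfl, _, rfl, hee⟩
    · exact ⟨a i, Or.inl rfl, hVp i hit ha⟩
    · rintro v ⟨hv | hv, hv2⟩
      · rw [mem_singleton_iff.1 hv, (f1 i hit).2]
        exact ha
      · rw [mem_singleton_iff.1 hv] at hv2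
        exact absurd (hVp' i hit hb) (Set.disjoint_left.1 hdV hv2)
    · exact ⟨b i, Or.inr rfl, hVp' i hit hb⟩
    · rintro v ⟨hv | hv, hv2⟩
      · rw [mem_singleton_iff.1 hv] at hv2
        exact absurd hv2 (Set.disjoint_left.1 hdV (hVp i hit ha))
      · rw [mem_singleton_iff.1 hv, (g1 i hit).2]
        exact hb
    · intro r hr hrp hrp'
      rw [Finset.mem_range] at hr
      rw [Set.disjoint_left]
      rintro v (hv | hv) hv2
      · rw [mem_singleton_iff.1 hv] at hv2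
        exact Set.disjoint_left.1 (h.low.disV hr hp hrp) hv2 (hVp i hit ha)
      · rw [mem_singleton_iff.1 hv] at hv2
        exact Set.disjoint_left.1 (h.low.disV hr hp' hrp') hv2 (hVp' i hit hb)
  · have hit : i < t := by omega
    have hjt : j < t := by omega
    obtain ⟨ha, hb, _⟩ := hab i hit
    obtain ⟨ha', hb', _⟩ := hab j hjt
    refine ⟨?_, hij, hij⟩
    rw [Set.disjoint_left]
    rintro v (hv | hv) (hv2 | hv2)
    · rw [mem_singleton_iff.1 hv] at hv2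
      rw [mem_singleton_iff.1 hv2] at ha
      exact Set.disjoint_left.1 (h.low.dis _ (kt_lt hp (f1 i hit).1) _ (kt_lt hp (f1 j hjt).1)
        (kt_ne (f1 i hit).1 (f1 j hjt).1 (Or.inr (f2 i hit j hjt hij)))) ha ha'
    · rw [mem_singleton_iff.1 hv] at hv2
      rw [mem_singleton_iff.1 hv2] at ha
      exact Set.disjoint_left.1 hdV (hVp i hit ha) (hVp' j hjt hb')
    · rw [mem_singleton_iff.1 hv] at hv2
      rw [mem_singleton_iff.1 hv2] at hb
      exact Set.disjoint_left.1 hdV (hVp j hjt ha') (hVp' i hit hb)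
    · rw [mem_singleton_iff.1 hv] at hv2
      rw [mem_singleton_iff.1 hv2] at hb
      exact Set.disjoint_left.1 (h.low.dis _ (kt_lt hp' (g1 i hit).1) _ (kt_lt hp' (g1 j hjt).1)
        (kt_ne (g1 i hit).1 (g1 j hjt).1 (Or.inr (g2 i hit j hjt hij)))) hb hb'

/-- The picture of a piece. -/
theorem KtR.pcZ (h : KtR S ends P lo hi n (q * t₀) X sg cx) {p t : ℕ} (hp : p < q)
    (ht₀ : (2 * t) * (2 * t) + 1 ≤ t₀) :
    PcZ (ins S ends (KtV X t₀ p)) ends (KtV X t₀ p) t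
      (fun b => X (p * t₀ + idx (2 * t) (0, b))) := by
  have hlt : ∀ c ∈ Cl (2 * t), idx (2 * t) c < t₀ := fun c hc => by
    have := idx_lt hc
    omega
  have hinj : ∀ c ∈ Cl (2 * t), ∀ c' ∈ Cl (2 * t), c ≠ c' → idx (2 * t) c ≠ idx (2 * t) c' :=
    fun c hc c' hc' hne h => hne (idx_inj hc hc' h)
  have hsub : ∀ i < t₀, X (p * t₀ + i) ⊆ KtV X t₀ p := fun i hi' v hv => mem_KtV.2 ⟨i, hi', hv⟩
  refine ⟨fun c => X (p * t₀ + idx (2 * t) c), X (p * t₀ + (2 * t) * (2 * t)),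
    h.low.fin _ (kt_lt hp (by omega)), hsub _ (by omega),
    vconn_ins (h.low.con _ (kt_lt hp (by omega))) (hsub _ (by omega)), ?_, ?_, ?_, ?_, ?_, ?_⟩
  · intro c hc
    exact ⟨h.low.fin _ (kt_lt hp (hlt c hc)), hsub _ (hlt c hc),
      vconn_ins (h.low.con _ (kt_lt hp (hlt c hc))) (hsub _ (hlt c hc))⟩
  · intro c hc c' hc' hne
    exact h.low.dis _ (kt_lt hp (hlt c hc)) _ (kt_lt hp (hlt c' hc'))
      (kt_ne (hlt c hc) (hlt c' hc') (Or.inr (hinj c hc c' hc' hne)))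
  · intro c hc
    have h1 := idx_lt hc
    exact h.low.dis _ (kt_lt hp (hlt c hc)) _ (kt_lt hp (by omega))
      (kt_ne (hlt c hc) (by omega) (Or.inr (by omega)))
  · intro c c' hcc
    exact lnk_ins (h.lnk _ (kt_lt hp (hlt c hcc.1)) _ (kt_lt hp (hlt c' hcc.2.1))
      (kt_ne (hlt c hcc.1) (hlt c' hcc.2.1) (Or.inr (hinj c hcc.1 c' hcc.2.1 hcc.ne))))
      (hsub _ (hlt c hcc.1)) (hsub _ (hlt c' hcc.2.1))
  · intro c hc
    have h1 := idx_lt hc
    exact lnk_ins (h.lnk _ (kt_lt hp (hlt c hc)) _ (kt_lt hp (by omega))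
      (kt_ne (hlt c hc) (by omega) (Or.inr (by omega)))) (hsub _ (hlt c hc)) (hsub _ (by omega))
  · intro b _
    rfl

lemma Crt.mono_sf {V₀ : Set V} {A : ℕ → Set V} {t : ℕ} {C : Set α} {ed : ℕ × ℕ → ℕ × ℕ → α}
    (h : Crt S ends V₀ A t C ed) (hS : S ⊆ Sf) : Crt Sf ends V₀ A t C ed := by
  obtain ⟨U, τ, F, a1, a2, a3, a4, a5, a6, a7⟩ := h
  refine ⟨U, τ, F, fun c hc => ?_, a2, fun e he => ⟨hS (a3 he).1, (a3 he).2⟩, a4, a5,
    fun c c' hcc => ⟨hS (a6 c c' hcc).1, (a6 c c' hcc).2⟩, a7⟩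
  obtain ⟨h1, h2, h3, h4, h5⟩ := a1 c hc
  exact ⟨h1, h2, fun e he => ⟨hS (h3 he).1, (h3 he).2⟩, h4, h5⟩

end

/-- **The `K_t` branch, host-free form.** -/
theorem kt_main (k u : ℕ) : ∃ K₂ T n₁ y₀ : ℕ, ∀ n' ≥ y₀,
    ∀ {α : Type u} {V : Type v} (M : Matroid α) [M.Finite] (S Sf : Set α) (ends : α → Sym2 V)
      (E₂ D₂ : Set α) (P : ℕ → ℕ × ℕ → V) (lo hi : ℕ → ℕ) (n : ℕ) (X : ℕ → Set V)
      (sg cx : ℕ → ℕ), S ⊆ Sf → FrmU M Sf ends u → E₂ ⊆ M.E → D₂ ⊆ M.E \ E₂ →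
      PGrid (M✶ ／ D₂) E₂ n' → Disjoint S (E₂ ∪ D₂) → n₁ ≤ n → Pgs S ends P lo hi n →
      KtR S ends P lo hi n T X sg cx →
      (∀ X ⊆ M.E, Disjoint X E₂ →
        BIC.rk M X + BIC.rk M (M.E \ X) < BIC.rk M M.E + K₂ → ∃ (W : Set V) (B : Set α),
        W.Finite ∧ B ⊆ Sf ∧ Disjoint B X ∧ VConn B ends W ∧
        ∀ s x, lo s ≤ x → x ≤ hi s → ∃ c, lo s ≤ c ∧ c ≤ hi s ∧ ∀ b ≤ n, P s (c, b) ∈ W) →
      HasUniformMinor M k := by
  classical
  obtain ⟨K₁, K₂, t₁, n₀, hmain⟩ := link_main.{u, v} k u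
  obtain ⟨t, ht⟩ : ∃ t, t = t₁ + K₁ + K₂ + u + 2 := ⟨_, rfl⟩
  obtain ⟨t₀, ht₀⟩ : ∃ t₀, t₀ = (2 * t) * (2 * t) + 1 := ⟨_, rfl⟩
  obtain ⟨y₀, hy₀⟩ := hmain t (by omega)
  refine ⟨K₂, n₀ * t₀, 1 + (K₂ + u + 2), y₀, ?_⟩
  intro n' hn' α V M _ S Sf ends E₂ D₂ P lo hi n X sg cx hS hF hE₂ hD₂ hPG hdis hn hP hX hal
  have hFS := hF.subset hS
  have hcert : ∀ p < n₀, ∀ {A : ℕ → Set V} {C : Set α} {ed : ℕ × ℕ → ℕ × ℕ → α},
      OffK X t₀ t p A → Crt S ends (KtV X t₀ p) A t C ed → KGe M (Eds t ed) E₂ K₂ := by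
    rintro p hp A C ed ⟨f, f1, f2⟩ hC
    refine hC.kge_lm hF hS hP (a := 1) ?_ (fun i => sg (p * t₀ + f i))
      (fun i => cx (p * t₀ + f i)) ?_ (by omega) (by omega) ?_
    · intro s c hc hc1 hmem
      obtain ⟨i, hi', hv⟩ := mem_KtV.1 hmem
      exact hX.low.low _ (kt_lt hp hi') s c hc hc1 hv
    · intro i hi'
      have h1 := hX.low.rng _ (kt_lt hp (f1 i hi').1)
      refine ⟨h1.1, h1.2, ?_⟩
      rw [(f1 i hi').2]
      exact hX.low.mem _ (kt_lt hp (f1 i hi').1)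
    · intro X' h1 h2 h3
      obtain ⟨W, B, w1, w2, w3, w4, w5⟩ := hal X' h1 h2 h3
      refine ⟨W, B, w1, w2, w3, w4, fun s x hx hx' => ?_⟩
      obtain ⟨c, c1, c2, c3⟩ := w5 s x hx hx'
      exact ⟨c, c1, c2, fun b _ hb => c3 b hb⟩
  refine hy₀ n' hn' M S ends E₂ D₂ (Finset.range n₀) (KtV X t₀)
    (fun p C ed => ∃ A, OffK X t₀ t p A ∧ Crt S ends (KtV X t₀ p) A t C ed) hFS hX.pcs
    (by rw [Finset.card_range]) hE₂ hD₂ hPG (fun p _ => hdis.mono_left fun e he => he.1) ?_ ?_ ?_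
  · -- (LK)
    rintro p hp q hq hpq C C' ed ed' ⟨A, hA, hC⟩ ⟨A', hA', hC'⟩ R hR
    rw [Finset.mem_range] at hp hq
    obtain ⟨L, β, γ, hL, hd⟩ := hX.lk hp hq hpq (t := t) (K₁ := K₁ + u + 2) (by omega) hA hA'
    have hmem : ∀ s ∈ Finset.range n₀ \ {p, q}, s < n₀ ∧ s ≠ p ∧ s ≠ q := by
      intro s hs
      rw [Finset.mem_sdiff, Finset.mem_range, Finset.mem_insert, Finset.mem_singleton,
        not_or] at hs
      exact hs
    refine hFS.kge_crt (by omega) hC hC' (hX.low.disV hp hq hpq)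
      (hR.trans (Ufm_sub _ _)) (avd_Ufm hR fun s hs => ?_) (avd_Ufm hR fun s hs => ?_) L β γ
      (fun i hi' => ?_) hd
    · exact hX.low.disV hp (hmem s hs).1 (hmem s hs).2.1.symm
    · exact hX.low.disV hq (hmem s hs).1 (hmem s hs).2.2.symm
    · obtain ⟨e1, e2, e3, e4, e5, e6, e7, e8, e9⟩ := hL i hi'
      exact ⟨e1, e2, e3, e4, e5, e6, e7, e8, avd_Ufm hR fun s hs =>
        e9 s (Finset.mem_range.2 (hmem s hs).1) (hmem s hs).2.1 (hmem s hs).2.2⟩
  · -- (LM)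
    rintro p hp C ed ⟨A, hA, hC⟩
    exact hcert p (Finset.mem_range.1 hp) hA hC
  · -- (J)
    intro D hD hEx
    refine ⟨∅, Finset.empty_subset _, by simp, fun p hp hpD _ => ?_⟩
    rw [Finset.mem_range] at hp
    have hDE : Ufm S ends D (KtV X t₀) ⊆ M.E := (Ufm_sub _ _).trans hFS.sub
    have hfin : (M ／ Ufm S ends D (KtV X t₀)).Finite := BQ.fin_contract _
    have hfr := hEx.frm hFS hX.pcs hD (P := {p})
      (Finset.singleton_subset_iff.2 (Finset.mem_range.2 hp))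
      (Finset.disjoint_singleton_left.2 hpD)
    have e1 : Ufm S ends {p} (KtV X t₀) = ins S ends (KtV X t₀ p) := by
      ext e
      rw [mem_Ufm]
      constructor
      · rintro ⟨i, hi', he⟩
        rw [Finset.mem_singleton] at hi'
        rw [← hi']
        exact he
      · intro he
        exact ⟨p, Finset.mem_singleton_self _, he⟩
    rw [e1] at hfr
    obtain ⟨o, C, S', j, ed, ho, g1, g2, g3, g4, g5, g6⟩ := jgrid_crtZ hfr (by omega)
      (hX.pcZ hp (t := t) (by omega))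
    have hii : ins (ins S ends (KtV X t₀ p)) ends (KtV X t₀ p) ⊆ ins S ends (KtV X t₀ p) :=
      fun e he => he.1
    refine ⟨C, S', j, ed, ⟨_, ⟨fun b => idx (2 * t) (0, o + b), ?_, ?_⟩,
      g6.mono_sf fun e he => he.1⟩, g1.trans hii, g2.trans hii, g3, g4, g5⟩
    · intro b hb
      have hc : (0, o + b) ∈ Cl (2 * t) := ⟨by simp only; omega, by simp only; omega⟩
      have h1 := idx_lt hc
      refine ⟨?_, rfl⟩
      show idx (2 * t) (0, o + b) < t₀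
      omega
    · intro b hb b' hb' hne h
      have hc : (0, o + b) ∈ Cl (2 * t) := ⟨by simp only; omega, by simp only; omega⟩
      have hc' : (0, o + b') ∈ Cl (2 * t) := ⟨by simp only; omega, by simp only; omega⟩
      have := idx_inj hc hc' h
      rw [Prod.mk.injEq] at this
      exact hne (by omega)

end EN
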