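import Pool.Agent.EN.KtLink
import Pool.Agent.EN.MatchU

/-!
# `K_t` models with a port in every set (helper88, MP_5165fa_co)

`Sys.KT.ports`: half of the sets get ports.  `RealU.ktR`: the real sets, they live at the levels
`0`, `1` of the pages.  `LowC.lm`: linking to the other side through the pages.
-/

open Set
open scoped Matroid

namespace EN

open BIC Gad

variable {α V : Type*} {M : Matroid α} {S Sf : Set α} {ends : α → Sym2 V} {u : ℕ}

open scoped Classical in
/-- A model of the complete graph with a port in every set. -/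
def Sys.KTp {κ : Type*} (Y : Sys κ) (t : ℕ) : Prop :=
  ∃ K : Fin t → Finset (ℕ ⊕ κ), (∀ i, Mdr.Cn Y.adj (K i)) ∧
    (∀ i j, i ≠ j → Disjoint (K i) (K j)) ∧ (∀ i j, i ≠ j → Mdr.Lk Y.adj (K i) (K j)) ∧
    (∀ i, ∀ x, Sum.inl x ∈ K i → x < Y.L) ∧ ∀ i, ∃ x, Sum.inl x ∈ K i

/-- Half of the sets get ports. -/
theorem Sys.KT.ports {κ : Type*} {Y : Sys κ} {D t : ℕ} (hY : Y.Ax D) (ht : 1 ≤ t)
    (h : Y.KT (2 * t)) : Y.KTp t := by
  classical
  obtain ⟨K, h1, h2, h3, h4⟩ := h
  set Pt : Finset (Fin (2 * t)) := Finset.univ.filter (fun i => ∃ x, Sum.inl x ∈ K i) with hPt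
  have hinj : ∀ T : Finset (Fin (2 * t)), t ≤ T.card → ∃ f : Fin t → Fin (2 * t),
      Function.Injective f ∧ ∀ i, f i ∈ T := by
    intro T hT
    refine ⟨fun i => T.orderEmbOfFin rfl ⟨i.1, lt_of_lt_of_le i.2 hT⟩, ?_, ?_⟩
    · intro i j hij
      have := (T.orderEmbOfFin rfl).injective hij
      exact Fin.ext (by simpa using this)
    · intro i
      exact T.orderEmbOfFin_mem rfl _
  by_cases hc : t ≤ Pt.card
  · obtain ⟨f, hf, hfP⟩ := hinj Pt hc
    refine ⟨fun i => K (f i), fun i => h1 _, fun i j hij => h2 _ _ (fun e => hij (hf e)),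
      fun i j hij => h3 _ _ (fun e => hij (hf e)), fun i => h4 _, fun i => ?_⟩
    exact (Finset.mem_filter.1 (hfP i)).2
  · have hc' : t + 1 ≤ (Finset.univ \ Pt).card := by
      have e := Finset.card_sdiff_add_card_eq_card (Finset.subset_univ Pt)
      rw [Finset.card_univ, Fintype.card_fin] at e
      omega
    obtain ⟨f, hf, hfP⟩ := hinj (Finset.univ \ Pt) (by omega)
    have hno : ∀ i x, Sum.inl x ∉ K (f i) := by
      intro i x hx
      exact (Finset.mem_sdiff.1 (hfP i)).2 (Finset.mem_filter.2 ⟨Finset.mem_univ _, x, hx⟩)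
    have hpt : ∀ i, ∃ x k, x < Y.L ∧ Y.own x = k ∧ Sum.inr k ∈ K (f i) := by
      intro i
      obtain ⟨j, hj⟩ : ∃ j, j ≠ f i := by
        refine Fintype.exists_ne_of_one_lt_card ?_ (f i)
        rw [Fintype.card_fin]
        omega
      obtain ⟨a, ha, b, hb, hab⟩ := h3 (f i) j hj.symm
      cases a with
      | inl x => exact absurd ha (hno i x)
      | inr k =>
        cases b with
        | inl x => exact ⟨x, k, hab.1, hab.2, ha⟩
        | inr k' =>
          obtain ⟨x, hx, hxk⟩ := hY.a4 k' k (hY.symm _ _ hab)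
          exact ⟨x, k, hx, hxk, ha⟩
    choose x k hxL hxk hkK using hpt
    have hxne : ∀ i j, i ≠ j → x i ≠ x j := by
      intro i j hij hx
      have e : k i = k j := by rw [← hxk i, ← hxk j, hx]
      have h5 := h2 (f i) (f j) (fun e' => hij (hf e'))
      exact Finset.disjoint_left.1 h5 (hkK i) (e ▸ hkK j)
    refine ⟨fun i => {Sum.inl (x i)} ∪ K (f i), ?_, ?_, ?_, ?_, ?_⟩
    · intro i
      exact Mdr.Cn.join (Mdr.Cn.single _) (h1 _) ⟨_, Finset.mem_singleton_self _, _, hkK i,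
        ⟨hxL i, hxk i⟩⟩
    · intro i j hij
      rw [Finset.disjoint_left]
      intro a ha ha'
      rcases Finset.mem_union.1 ha with ha | ha <;> rcases Finset.mem_union.1 ha' with ha' | ha'
      · rw [Finset.mem_singleton] at ha ha'
        rw [ha] at ha'
        exact hxne i j hij (Sum.inl_injective ha')
      · rw [Finset.mem_singleton] at ha
        rw [ha] at ha'
        exact hno _ _ ha'
      · rw [Finset.mem_singleton] at ha'
        rw [ha'] at ha
        exact hno _ _ ha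
      · exact Finset.disjoint_left.1 (h2 (f i) (f j) (fun e => hij (hf e))) ha ha'
    · intro i j hij
      obtain ⟨a, ha, b, hb, hab⟩ := h3 (f i) (f j) (fun e => hij (hf e))
      exact ⟨a, Finset.mem_union_right _ ha, b, Finset.mem_union_right _ hb, hab⟩
    · intro i y hy
      rcases Finset.mem_union.1 hy with hy | hy
      · rw [Finset.mem_singleton] at hy
        rw [Sum.inl_injective hy]
        exact hxL i
      · exact h4 _ _ hy
    · intro i
      exact ⟨x i, Finset.mem_union_left _ (Finset.mem_singleton_self _)⟩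

/-- Low sets with columns: the set `X i` contains the vertex of the column `cx i` of the page
`sg i` in the window `a`, and no vertex above the window `a`. -/
structure LowC {σ : Type*} (S : Set α) (ends : α → Sym2 V) (P : σ → ℕ × ℕ → V) (lo hi : σ → ℕ)
    (n a t : ℕ) (X : ℕ → Set V) (sg : ℕ → σ) (cx : ℕ → ℕ) : Prop where
  fin : ∀ i < t, (X i).Finite
  con : ∀ i < t, VConn S ends (X i)
  dis : ∀ i < t, ∀ j < t, i ≠ j → Disjoint (X i) (X j)
  rng : ∀ i < t, lo (sg i) ≤ cx i ∧ cx i ≤ hi (sg i)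
  mem : ∀ i < t, P (sg i) (cx i, a) ∈ X i
  low : ∀ i < t, ∀ s, ∀ c ∈ Reg (lo s) (hi s) n, a < c.2 → P s c ∉ X i

/-- Real `K_t` model. -/
structure KtR (S : Set α) (ends : α → Sym2 V) (P : ℕ → ℕ × ℕ → V) (lo hi : ℕ → ℕ) (n t : ℕ)
    (X : ℕ → Set V) (sg cx : ℕ → ℕ) : Prop where
  low : LowC S ends P lo hi n 1 t X sg cx
  lnk : ∀ i < t, ∀ j < t, i ≠ j → Lnk S ends (X i) (X j)

section

variable {κ : Type*} {Y : Sys κ} {P : ℕ → ℕ × ℕ → V} {lo hi : ℕ → ℕ} {n t : ℕ}
  {G : Set V} {B : κ → Set V} {col : ℕ → ℕ}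

/-- The real sets. -/
theorem Real.ktR (h : Real Y S ends P lo hi n G B col) (hn : 1 ≤ n) (hp : Y.KTp t) :
    ∃ X sg cx, KtR S ends P lo hi n t X sg cx := by
  classical
  obtain ⟨K, h1, h2, h3, h4, h5⟩ := hp
  have hfin : ∀ a : ℕ ⊕ κ, (hset Y P B col a).Finite := by
    intro a
    cases a with
    | inl x =>
      refine Set.Finite.image _ ((vert_finite _ _ _).union ?_)
      refine (reg_finite (col x) (col (x + 1)) 1).subset ?_
      rintro c ⟨_, _, c1, c2, c3⟩
      rw [mem_Reg]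
      omega
    | inr k => exact h.fin k
  have hcn : ∀ A : Finset (ℕ ⊕ κ), Mdr.Cn Y.adj A →
      Mdr.Cn (fun a b => Lnk S ends (hset Y P B col a) (hset Y P B col b)) A := by
    intro A hA
    induction hA with
    | single a => exact Mdr.Cn.single a
    | join h5 h6 h7 ih1 ih2 =>
      obtain ⟨a, ha, b, hb, hab⟩ := h7
      exact Mdr.Cn.join ih1 ih2 ⟨a, ha, b, hb, h.hset_lnk hn hab⟩
  have hL : ∀ i : Fin t, ∀ a ∈ K i, ∀ x, a = Sum.inl x → x < Y.L := by
    intro i a ha x hx
    rw [hx] at ha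
    exact h4 i x ha
  choose x hx using h5
  refine ⟨fun i => if hi : i < t then Un (hset Y P B col) (K ⟨i, hi⟩) else ∅,
    fun i => if hi : i < t then Y.sh (x ⟨i, hi⟩) else 0,
    fun i => if hi : i < t then col (x ⟨i, hi⟩) else 0, ⟨?_, ?_, ?_, ?_, ?_, ?_⟩, ?_⟩
  · intro i hi
    simp only [dif_pos hi]
    exact Set.Finite.biUnion (K ⟨i, hi⟩).finite_toSet (fun a _ => hfin a)
  · intro i hi
    simp only [dif_pos hi]
    exact vconn_un (hcn _ (h1 _)) (fun a ha => h.hset_con hn a (hL _ a ha))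
  · intro i hi j hj hij
    simp only [dif_pos hi, dif_pos hj]
    have h5 := h2 ⟨i, hi⟩ ⟨j, hj⟩ (fun e => hij (by simpa using e))
    unfold Un
    rw [Set.disjoint_iUnion₂_left]
    intro a ha
    rw [Set.disjoint_iUnion₂_right]
    intro b hb
    exact h.hset_dis hn (fun e => Finset.disjoint_left.1 h5 ha (e ▸ hb)) (hL _ a ha) (hL _ b hb)
  · intro i hi
    simp only [dif_pos hi]
    have h6 := h.prt _ (h4 _ _ (hx ⟨i, hi⟩))
    exact ⟨h6.1, h6.2.1⟩
  · intro i hi
    simp only [dif_pos hi]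
    refine un_mono (hset Y P B col) (hx ⟨i, hi⟩) ?_
    exact ⟨_, Or.inl (vm (Nat.zero_le 1) (le_refl 1)), rfl⟩
  · intro i hi s c hc hc2
    simp only [dif_pos hi]
    intro hmem
    obtain ⟨a, ha, hv⟩ := mem_iUnion₂.1 hmem
    cases a with
    | inl y =>
      obtain ⟨c', hc', he⟩ := hv
      have h6 := (h.pset_reg (h4 _ _ ha) hc').1
      rw [mem_Reg] at h6 hc
      by_cases hs : Y.sh y = s
      · subst hs
        have h7 := (h.pgs.page (Y.sh y)).inj c' c h6.1 h6.2.1 (by omega) hc.1 hc.2.1 hc.2.2 he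
        rw [h7] at h6
        omega
      · exact h.pgs.dis _ _ hs c' (by rw [mem_Reg]; omega) c (by rw [mem_Reg]; omega) he
    | inr k => exact h.pB k s c hc hv
  · intro i hi j hj hij
    simp only [dif_pos hi, dif_pos hj]
    obtain ⟨a, ha, b, hb, hab⟩ := h3 ⟨i, hi⟩ ⟨j, hj⟩ (fun e => hij (by simpa using e))
    exact (h.hset_lnk hn hab).mono (subset_refl _) (un_mono _ ha) (un_mono _ hb)

end

section

variable {σ : Type*} {P : σ → ℕ × ℕ → V} {lo hi : σ → ℕ} {n a t : ℕ} {X : ℕ → Set V}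
  {sg : ℕ → σ} {cx : ℕ → ℕ}

/-- The extended sets: with the column above the window `a`. -/
def KtX {σ : Type*} (P : σ → ℕ × ℕ → V) (n a : ℕ) (X : ℕ → Set V) (sg : ℕ → σ) (cx : ℕ → ℕ)
    (i : ℕ) : Set V :=
  X i ∪ P (sg i) '' Vert (cx i) a n

lemma LowC.finX (h : LowC S ends P lo hi n a t X sg cx) {i : ℕ} (hi : i < t) :
    (KtX P n a X sg cx i).Finite :=
  (h.fin i hi).union ((vert_finite _ _ _).image _)

lemma LowC.conX (h : LowC S ends P lo hi n a t X sg cx) (hP : Pgs S ends P lo hi n)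
    (han : a ≤ n) {i : ℕ} (hi : i < t) : VConn S ends (KtX P n a X sg cx i) := by
  have h1 := h.rng i hi
  exact vc_union (h.con i hi) ((hP.page (sg i)).vconn_ver (b₁ := a) (b₂ := n) h1.1 h1.2
    (le_refl _)) (c := P (sg i) (cx i, a)) (h.mem i hi) ⟨_, vm (le_refl _) han, rfl⟩

lemma LowC.disX (h : LowC S ends P lo hi n a t X sg cx) (hP : Pgs S ends P lo hi n)
    (han : a ≤ n) {i j : ℕ} (hi' : i < t) (hj : j < t) (hij : i ≠ j) :
    Disjoint (KtX P n a X sg cx i) (KtX P n a X sg cx j) := by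
  have key : ∀ i < t, ∀ j < t, i ≠ j → ∀ b, a ≤ b → b ≤ n → P (sg i) (cx i, b) ∉ X j := by
    intro i hi' j hj hij b hab hb hmem
    rcases Nat.lt_or_ge a b with hb2 | hb2
    · refine h.low j hj (sg i) (cx i, b) ?_ hb2 hmem
      have := h.rng i hi'
      rw [mem_Reg]
      exact ⟨this.1, this.2, hb⟩
    · have e : b = a := by omega
      subst e
      exact Set.disjoint_left.1 (h.dis i hi' j hj hij) (h.mem i hi') hmem
  rw [Set.disjoint_left]
  rintro v (hv | ⟨c, hc, rfl⟩) (hv' | ⟨c', hc', hcc⟩)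
  · exact Set.disjoint_left.1 (h.dis i hi' j hj hij) hv hv'
  · rw [mem_Vert] at hc'
    refine key j hj i hi' hij.symm c'.2 (by omega) (by omega) ?_
    have e : (cx j, c'.2) = c' := Prod.ext hc'.1.symm rfl
    rw [e, hcc]
    exact hv
  · rw [mem_Vert] at hc
    refine key i hi' j hj hij c.2 (by omega) (by omega) ?_
    have e : (cx i, c.2) = c := Prod.ext hc.1.symm rfl
    rw [e]
    exact hv'
  · rw [mem_Vert] at hc hc'
    have r1 := h.rng i hi'
    have r2 := h.rng j hj
    by_cases hs : sg j = sg i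
    · rw [hs] at hcc r2
      have e := (hP.page (sg i)).inj c' c (by omega) (by omega) (by omega) (by omega) (by omega)
        (by omega) hcc
      have e2 : cx j = cx i := by rw [← hc'.1, ← hc.1, e]
      have h6 := h.mem j hj
      rw [hs, e2] at h6
      exact Set.disjoint_left.1 (h.dis i hi' j hj hij) (h.mem i hi') h6
    · refine hP.dis _ _ hs c' ?_ c ?_ hcc
      · rw [mem_Reg]; omega
      · rw [mem_Reg]; omega

/-- **Linking of low cells with columns to the other side.** -/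
theorem LowC.lm [M.Finite] (h : LowC S ends P lo hi n a t X sg cx) (hP : Pgs S ends P lo hi n)
    (hF : FrmU M Sf ends u) (hS : S ⊆ Sf) {J : Finset ℕ} (hJ : ∀ i ∈ J, i < t) {A : Set α}
    (hA : A ⊆ M.E) (hAc : Mdr.Cn (fun i j => Lnk (A ∩ Sf) ends (X i) (X j)) J) {W : Set V}
    (hWf : W.Finite) (hW : VConn ((M.E \ A) ∩ Sf) ends W) {m : ℕ}
    (hcol : ∀ i ∈ J, ∃ c, lo (sg i) ≤ c ∧ c ≤ hi (sg i) ∧
      ∀ b, a < b → b ≤ a + m → P (sg i) (c, b) ∈ W)
    (hm0 : 0 < m) (hmJ : m ≤ J.card) (hmn : a + m ≤ n) :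
    BIC.rk M M.E + m ≤ BIC.rk M A + BIC.rk M (M.E \ A) + u + 2 := by
  classical
  choose! d hd1 hd2 hd3 using hcol
  refine hF.lm_cells (J := J) (U := KtX P n a X sg cx) (fun i hi => h.finX (hJ i hi))
    (fun i hi => vconn_mono (h.conX hP (by omega) (hJ i hi)) hS)
    (fun i hi j hj hij => h.disX hP (by omega) (hJ i hi) (hJ j hj) hij) hA (cn_mono ?_ hAc) hWf hW
    hm0 hmJ
    (fun i b => P (sg i) '' HRow (min (cx i) (d i)) (max (cx i) (d i)) (a + 1 + b.1)) ?_ ?_ ?_ ?_
    ?_
  · intro i j hij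
    exact hij.mono (subset_refl _) subset_union_left subset_union_left
  · intro i hi b
    exact (hrow_finite _ _ _).image _
  · intro i hi b
    have r1 := h.rng i (hJ i hi)
    have r2 := hd1 i hi
    have r3 := hd2 i hi
    refine vconn_mono ((hP.page (sg i)).vconn_hor (by omega) (by omega) (by omega) ?_) hS
    have := b.2
    omega
  · intro i hi b
    refine ⟨P (sg i) (cx i, a + 1 + b.1), ⟨_, hm (min_le_left _ _) (le_max_left _ _), rfl⟩,
      Or.inr ⟨_, vm (by omega) ?_, rfl⟩⟩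
    have := b.2
    omega
  · intro i hi b
    refine ⟨P (sg i) (d i, a + 1 + b.1), ⟨_, hm (min_le_right _ _) (le_max_right _ _), rfl⟩,
      hd3 i hi _ (by omega) ?_⟩
    have := b.2
    omega
  · intro i hi b b' hbb
    rw [Set.disjoint_left]
    rintro _ ⟨c, hc, rfl⟩ ⟨c', hc', he⟩
    rw [mem_HRow] at hc hc'
    have r1 := h.rng i (hJ i hi)
    have r2 := hd1 i hi
    have r3 := hd2 i hi
    have := b.2
    have := b'.2
    have e := (hP.page (sg i)).inj c' c (by omega) (by omega) (by omega) (by omega) (by omega)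
      (by omega) he
    rw [e] at hc'
    exact hbb (Fin.ext (by omega))

end

end EN
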