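import Pool.Agent.EN.Select

/-!
# Ladders and their defects: grounds, crosses
-/

namespace EN

namespace Sys

variable {κ : Type*}

/-- A ladder: `n` disjoint rungs between two separated places. -/
structure Lad (Y : Sys κ) (n : ℕ) (x y : ℕ → ℕ) : Prop where
  lk : ∀ i < n, Y.Lk (x i) (y i)
  inc : ∀ i j, i < j → j < n → x i < x j
  mon : RamP.Mon n y
  far : (∀ i < n, ∀ j < n, x i < y j) ∨ ∀ i < n, ∀ j < n, y j < x i
  shx : ∀ i < n, Y.sh (x i) = Y.sh (x 0)
  shy : ∀ i < n, Y.sh (y i) = Y.sh (y 0)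
  dis : Y.Dis n (fun i => [x i, y i])

namespace Lad

variable {Y : Sys κ} {n : ℕ} {x y : ℕ → ℕ}

lemma le (h : Lad Y n x y) {i j : ℕ} (hij : i ≤ j) (hj : j < n) : x i ≤ x j := by
  rcases Nat.lt_or_ge i j with g | g
  · exact (h.inc i j g hj).le
  · rw [show i = j by omega]

lemma xL (h : Lad Y n x y) {i : ℕ} (hi : i < n) : x i < Y.L := (h.lk i hi).1

lemma yL (h : Lad Y n x y) {i : ℕ} (hi : i < n) : y i < Y.L := (h.lk i hi).2.1

lemma yne (h : Lad Y n x y) {i j : ℕ} (hi : i < n) (hj : j < n) (hij : i ≠ j) : y i ≠ y j := by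
  rcases Nat.lt_or_ge i j with g | g
  · rcases h.mon with hm | hm
    · exact (hm i j g hj).ne
    · exact (hm i j g hj).ne'
  · rcases h.mon with hm | hm
    · exact (hm j i (by omega) hi).ne'
    · exact (hm j i (by omega) hi).ne

lemma sh_eq (h : Lad Y n x y) {D : ℕ} (hY : Y.Ax D) {q i j : ℕ} (hi : i < n) (hj : j < n)
    (h1 : x i ≤ q) (h2 : q ≤ x j) : Y.sh q = Y.sh (x 0) := by
  rw [hY.sh_eq (a := x i) (b := x j) (by rw [h.shx i hi, h.shx j hj]) h1 h2 (h.xL hj)]
  exact h.shx i hi

/-- Points between feet are far from the other side. -/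
lemma far' (h : Lad Y n x y) :
    (∀ q, ∀ i < n, ∀ j < n, x i ≤ q → q ≤ x j → ∀ k < n, q < y k) ∨
      ∀ q, ∀ i < n, ∀ j < n, x i ≤ q → q ≤ x j → ∀ k < n, y k < q := by
  rcases h.far with hf | hf
  · left
    intro q i hi j hj h1 h2 k hk
    have := hf j hj k hk
    omega
  · right
    intro q i hi j hj h1 h2 k hk
    have := hf i hi k hk
    omega

/-- Blocks of eleven rungs. -/
lemma blk (h : Lad Y n x y) {n₂ : ℕ} (hn : n = 11 * n₂) {q q' i j : ℕ} (hij : i < j) (hj : j < n₂)
    (h1 : q ≤ x (11 * i + 10)) (h2 : x (11 * j) ≤ q') : q < q' := by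
  have := h.inc (11 * i + 10) (11 * j) (by omega) (by omega)
  omega

end Lad

/-- **Grounds next to a ladder.** -/
theorem patG (D N : ℕ) : ∃ n₂ : ℕ, ∀ {κ : Type*} (Y : Sys κ), Y.Ax D → ∀ (x y : ℕ → ℕ),
    Lad Y (11 * n₂) x y →
    (∀ j < n₂, ∃ q, x (11 * j) ≤ q ∧ q ≤ x (11 * j + 10) ∧ Y.gr (Y.own q)) →
    ∃ x z q, Y.PA N x z q := by
  obtain ⟨n₂, hn₂⟩ := select D 3 N Unit
  refine ⟨n₂, ?_⟩
  intro κ Y hY x y hl hq
  have hq' : ∀ j, ∃ q, j < n₂ → x (11 * j) ≤ q ∧ q ≤ x (11 * j + 10) ∧ Y.gr (Y.own q) := by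
    intro j
    by_cases hj : j < n₂
    · obtain ⟨q, h⟩ := hq j hj
      exact ⟨q, fun _ => h⟩
    · exact ⟨0, fun h => absurd h hj⟩
  choose q hq2 using hq'
  obtain ⟨f, hf1, hf2, -, hf4, hf5, hf6⟩ := hn₂ Y hY
    ![fun j => x (11 * j), fun j => y (11 * j), q] id (fun _ => ()) (by
      intro a j hj
      have h1 := hl.xL (i := 11 * j) (by omega)
      have h2 := hl.yL (i := 11 * j) (by omega)
      have h3 := hl.xL (i := 11 * j + 10) (by omega)
      have h4 := hq2 j hj
      fin_cases a
      · exact h1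
      · exact h2
      · exact lt_of_le_of_lt h4.2.1 h3) (by intro a j _; exact Or.inl rfl) (by
      intro a i hi j hj hij
      fin_cases a
      · rcases Nat.lt_or_ge i j with g | g
        · exact (hl.inc (11 * i) (11 * j) (by omega) (by omega)).ne
        · exact (hl.inc (11 * j) (11 * i) (by omega) (by omega)).ne'
      · exact hl.yne (by omega) (by omega) (by omega)
      · rcases Nat.lt_or_ge i j with g | g
        · exact (hl.blk rfl g hj (hq2 i hi).2.1 (hq2 j hj).1).ne
        · exact (hl.blk rfl (show j < i by omega) hi (hq2 j hj).2.1 (hq2 i hi).1).ne')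
  refine ⟨fun i => x (11 * f i), fun i => y (11 * f i), fun i => q (f i), ?_⟩
  have hb : ∀ i < N, f i < n₂ := hf1
  refine ⟨?_, ?_, ?_, hf5 1, ?_, ?_, ?_, ?_⟩
  · intro i hi
    exact hl.lk _ (by have := hb i hi; omega)
  · intro i hi
    exact (hq2 _ (hb i hi)).2.2
  · intro i j hij hj u hu v hv
    have h1 := hf2 i j hij hj
    have h2 := hb j hj
    have h3 := hq2 (f i) (hb i (by omega))
    have h4 := hq2 (f j) h2
    have h5 := hl.le (i := 11 * f i) (j := 11 * f i + 10) (by omega) (by omega)
    simp only [List.mem_cons, List.not_mem_nil, or_false] at hu hv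
    refine hl.blk rfl h1 h2 (q := u) (q' := v) ?_ ?_
    · rcases hu with rfl | rfl
      · exact h5
      · exact h3.2.1
    · rcases hv with rfl | rfl
      · exact le_rfl
      · exact h4.1
  · rcases hl.far' with hf | hf
    · left
      intro i hi j hj u hu v hv
      simp only [List.mem_cons, List.not_mem_nil, or_false] at hu hv
      subst hv
      have h2 := hb i hi
      have h3 := hb j hj
      have h5 := hl.le (i := 11 * f i) (j := 11 * f i + 10) (by omega) (by omega)
      have h6 := hq2 (f i) h2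
      refine hf u (11 * f i) (by omega) (11 * f i + 10) (by omega) ?_ ?_ (11 * f j) (by omega)
      · rcases hu with rfl | rfl
        · exact le_rfl
        · exact h6.1
      · rcases hu with rfl | rfl
        · exact h5
        · exact h6.2.1
    · right
      intro i hi j hj u hu v hv
      simp only [List.mem_cons, List.not_mem_nil, or_false] at hu hv
      subst hv
      have h2 := hb i hi
      have h3 := hb j hj
      have h5 := hl.le (i := 11 * f i) (j := 11 * f i + 10) (by omega) (by omega)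
      have h6 := hq2 (f i) h2
      refine hf u (11 * f i) (by omega) (11 * f i + 10) (by omega) ?_ ?_ (11 * f j) (by omega)
      · rcases hu with rfl | rfl
        · exact le_rfl
        · exact h6.1
      · rcases hu with rfl | rfl
        · exact h5
        · exact h6.2.1
  · refine ⟨Y.sh (x 0), ?_⟩
    intro i hi u hu
    simp only [List.mem_cons, List.not_mem_nil, or_false] at hu
    have h2 := hb i hi
    have h5 := hl.le (i := 11 * f i) (j := 11 * f i + 10) (by omega) (by omega)
    have h6 := hq2 (f i) h2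
    have h7 := hl.xL (i := 11 * f i + 10) (by omega)
    have h8 : x (11 * f i) ≤ u ∧ u ≤ x (11 * f i + 10) := by
      rcases hu with rfl | rfl
      · exact ⟨le_rfl, h5⟩
      · exact ⟨h6.1, h6.2.1⟩
    exact ⟨by omega, hl.sh_eq hY (i := 11 * f i) (j := 11 * f i + 10) (by omega) (by omega)
      h8.1 h8.2⟩
  · refine ⟨Y.sh (y 0), ?_⟩
    intro i hi u hu
    simp only [List.mem_cons, List.not_mem_nil, or_false] at hu
    subst hu
    have h2 := hb i hi
    exact ⟨hl.yL (by omega), hl.shy _ (by omega)⟩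
  · intro i hi j hj hij u hu v hv
    simp only [List.mem_cons, List.not_mem_nil, or_false] at hu hv
    have key := hf4 i hi j hj hij
    rcases hu with rfl | rfl | rfl <;> rcases hv with rfl | rfl | rfl
    · exact key 0 0
    · exact key 0 2
    · exact key 0 1
    · exact key 2 0
    · exact key 2 2
    · exact key 2 1
    · exact key 1 0
    · exact key 1 2
    · exact key 1 1

end Sys

end EN
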