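import Pool.Agent.EN.Lad
import Pool.Agent.EN.Fam

/-!
# Crosses next to a ladder
-/

namespace EN

open RamP

lemma colorA (A : Finset ℕ) (c : ℕ) (hA : A.card ≤ c) :
    ∃ g : ℕ → Fin (c + 1), ∀ s ∈ A, ∀ s' ∈ A, g s = g s' → s = s' := by
  refine ⟨fun s => ⟨min c (A.toList.idxOf s), by omega⟩, ?_⟩
  intro s hs s' hs' h
  have h1 : A.toList.idxOf s < A.toList.length := List.idxOf_lt_length_iff.2 (Finset.mem_toList.2 hs)
  have h2 : A.toList.idxOf s' < A.toList.length :=
    List.idxOf_lt_length_iff.2 (Finset.mem_toList.2 hs')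
  rw [Finset.length_toList] at h1 h2
  have h3 := Fin.ext_iff.1 h
  simp only at h3
  have h4 : A.toList.idxOf s = A.toList.idxOf s' := by omega
  exact (List.idxOf_inj (Finset.mem_toList.2 hs)).1 h4

namespace Sys

variable {κ : Type*}

lemma Dj.symm {Y : Sys κ} {l l' : List ℕ} (h : Y.Dj l l') : Y.Dj l' l :=
  fun x hx y hy => (h y hy x hx).symm

lemma Dj.swap {Y : Sys κ} {a b : ℕ} {l : List ℕ} (h : Y.Dj [a, b] l) : Y.Dj [b, a] l := by
  intro x hx y hy
  refine h x ?_ y hy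
  simp only [List.mem_cons, List.not_mem_nil, or_false] at hx ⊢
  tauto

/-- In block `j` of the first side. -/
def InB (x : ℕ → ℕ) (j u : ℕ) : Prop := x (11 * j) ≤ u ∧ u ≤ x (11 * j + 10)

namespace Lad

variable {Y : Sys κ} {n₂ : ℕ} {x y : ℕ → ℕ}

lemma inB_lt (h : Lad Y (11 * n₂) x y) {u v i j : ℕ} (hij : i < j) (hj : j < n₂) (hu : InB x i u)
    (hv : InB x j v) : u < v := h.blk rfl hij hj hu.2 hv.1

lemma inB_L (h : Lad Y (11 * n₂) x y) {u j : ℕ} (hj : j < n₂) (hu : InB x j u) : u < Y.L :=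
  lt_of_le_of_lt hu.2 (h.xL (by omega))

lemma inB_sh (h : Lad Y (11 * n₂) x y) {D : ℕ} (hY : Y.Ax D) {u j : ℕ} (hj : j < n₂)
    (hu : InB x j u) : Y.sh u = Y.sh (x 0) :=
  h.sh_eq hY (i := 11 * j) (j := 11 * j + 10) (by omega) (by omega) hu.1 hu.2

lemma inB_self (h : Lad Y (11 * n₂) x y) {j k : ℕ} (hj : j < n₂) (hk : k ≤ 10) :
    InB x j (x (11 * j + k)) :=
  ⟨h.le (by omega) (by omega), h.le (by omega) (by omega)⟩

lemma inB_far (h : Lad Y (11 * n₂) x y) :
    (∀ j < n₂, ∀ u, InB x j u → ∀ k < 11 * n₂, u < y k) ∨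
      ∀ j < n₂, ∀ u, InB x j u → ∀ k < 11 * n₂, y k < u := by
  rcases h.far' with hf | hf
  · left
    intro j hj u hu k hk
    exact hf u (11 * j) (by omega) (11 * j + 10) (by omega) hu.1 hu.2 k hk
  · right
    intro j hj u hu k hk
    exact hf u (11 * j) (by omega) (11 * j + 10) (by omega) hu.1 hu.2 k hk

lemma inB_ne (h : Lad Y (11 * n₂) x y) {u v i j : ℕ} (hij : i ≠ j) (hi : i < n₂) (hj : j < n₂)
    (hu : InB x i u) (hv : InB x j v) : u ≠ v := by
  rcases Nat.lt_or_ge i j with g | g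
  · exact (h.inB_lt g hj hu hv).ne
  · exact (h.inB_lt (show j < i by omega) hi hv hu).ne'

lemma near_of (h : Lad Y (11 * n₂) x y) {N : ℕ} {f : ℕ → ℕ} (hf : ∀ i < N, f i < n₂)
    (hf' : ∀ i j, i < j → j < N → f i < f j) {p q : ℕ → ℕ} (hp : ∀ i < N, InB x (f i) (p i))
    (hq : ∀ i < N, InB x (f i) (q i)) : Near N p q := by
  left
  intro r s hrs hs
  have h1 := hf' r s hrs hs
  have h2 := hf s hs
  exact ⟨h.inB_lt h1 h2 (hp r (by omega)) (hp s hs), h.inB_lt h1 h2 (hp r (by omega)) (hq s hs),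
    h.inB_lt h1 h2 (hq r (by omega)) (hp s hs), h.inB_lt h1 h2 (hq r (by omega)) (hq s hs)⟩

end Lad

/-- **Crosses next to a ladder.** -/
theorem patK (D N c : ℕ) : ∃ n₂ : ℕ, ∀ {κ : Type*} (Y : Sys κ), Y.Ax D → ∀ (x y : ℕ → ℕ),
    Lad Y (11 * n₂) x y →
    (∃ A : Finset ℕ, A.card ≤ c ∧ ∀ u v, Y.Lk u v → x 0 ≤ u → u ≤ x (11 * n₂ - 1) → Y.sh v ∈ A) →
    (∀ j < n₂, ∃ a b e d, InB x j a ∧ InB x j e ∧ a < b ∧ b < e ∧ (d < a ∨ e < d) ∧ Y.Lk a e ∧
      Y.Lk b d ∧ Y.Dj [a, e] [b, d]) →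
    (∃ a b y z v v', Y.PC N a b y z v v') ∨ ∃ p q y z, Y.PJ N p q y z := by
  set N' := 2 * N + 4 with hN'
  obtain ⟨n₂, hn₂⟩ := select D 6 N' (Fin (c + 1) × Bool)
  refine ⟨n₂, ?_⟩
  intro κ Y hY x y hl ⟨A, hAc, hA⟩ hd
  obtain ⟨g, hg⟩ := colorA A c hAc
  have hd' : ∀ j, ∃ a b e d, j < n₂ → InB x j a ∧ InB x j e ∧ a < b ∧ b < e ∧ (d < a ∨ e < d) ∧
      Y.Lk a e ∧ Y.Lk b d ∧ Y.Dj [a, e] [b, d] := by
    intro j
    by_cases hj : j < n₂
    · obtain ⟨a, b, e, d, h⟩ := hd j hj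
      exact ⟨a, b, e, d, fun _ => h⟩
    · exact ⟨0, 0, 0, 0, fun h => absurd h hj⟩
  choose a b e d hd2 using hd'
  have hab : ∀ j < n₂, InB x j (b j) := by
    intro j hj
    obtain ⟨h1, h2, h3, h4, _⟩ := hd2 j hj
    exact ⟨by have := h1.1; omega, by have := h2.2; omega⟩
  have hx0 : ∀ j < n₂, InB x j (x (11 * j)) := fun j hj => hl.inB_self hj (k := 0) (by omega)
  obtain ⟨f, hf1, hf2, ⟨col, hf3⟩, hf4, hf5, hf6⟩ := hn₂ Y hY
    ![fun j => x (11 * j), fun j => y (11 * j), a, b, e, d] ![0, 1, 2, 3, 4, 3]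
    (fun j => (g (Y.sh (d j)), decide (d j < a j))) (by
      intro i j hj
      obtain ⟨h1, h2, h3, h4, h5, h6, h7, _⟩ := hd2 j hj
      fin_cases i
      · exact hl.xL (by omega)
      · exact hl.yL (by omega)
      · exact h6.1
      · exact h7.1
      · exact h6.2.1
      · exact h7.2.1) (by
      intro i j hj
      obtain ⟨h1, h2, h3, h4, h5, h6, h7, _⟩ := hd2 j hj
      fin_cases i
      · exact Or.inl rfl
      · exact Or.inl rfl
      · exact Or.inl rfl
      · exact Or.inl rfl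
      · exact Or.inl rfl
      · rcases h7.2.2.2 with g | g
        · exact Or.inl g.symm
        · exact Or.inr g) (by
      intro s i hi j hj hij
      fin_cases s
      · exact hl.inB_ne hij hi hj (hx0 i hi) (hx0 j hj)
      · exact hl.yne (by omega) (by omega) (by omega)
      · exact hl.inB_ne hij hi hj (hd2 i hi).1 (hd2 j hj).1
      · exact hl.inB_ne hij hi hj (hab i hi) (hab j hj)
      · exact hl.inB_ne hij hi hj (hd2 i hi).2.1 (hd2 j hj).2.1
      · exact hl.inB_ne hij hi hj (hab i hi) (hab j hj))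
  set w : Fin 6 → ℕ → ℕ := fun s i =>
    (![fun j => x (11 * j), fun j => y (11 * j), a, b, e, d] : Fin 6 → ℕ → ℕ) s (f i) with hw
  have hfam : Fam N' w := ⟨hf5, hf6⟩
  have h3N : 3 ≤ N' := by omega
  have e0 : ∀ i, w 0 i = x (11 * f i) := fun _ => rfl
  have e1 : ∀ i, w 1 i = y (11 * f i) := fun _ => rfl
  have e2 : ∀ i, w 2 i = a (f i) := fun _ => rfl
  have e3 : ∀ i, w 3 i = b (f i) := fun _ => rfl
  have e4 : ∀ i, w 4 i = e (f i) := fun _ => rfl
  have e5 : ∀ i, w 5 i = d (f i) := fun _ => rfl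
  have hown : ∀ i < N', ∀ j < N', i ≠ j → ∀ a b, Y.own (w a i) ≠ Y.own (w b j) := hf4
  have hinc : Inc N' (w 0) := fun r s hrs hs =>
    hl.inB_lt (hf2 r s hrs hs) (hf1 s hs) (hx0 _ (hf1 r (by omega))) (hx0 _ (hf1 s hs))
  have n0 : ∀ i < N', InB x (f i) (w 0 i) := fun i hi => hx0 _ (hf1 i hi)
  have n2 : ∀ i < N', InB x (f i) (w 2 i) := fun i hi => (hd2 _ (hf1 i hi)).1
  have n3 : ∀ i < N', InB x (f i) (w 3 i) := fun i hi => hab _ (hf1 i hi)
  have n4 : ∀ i < N', InB x (f i) (w 4 i) := fun i hi => (hd2 _ (hf1 i hi)).2.1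
  have N0 : Near N' (w 0) (w 0) := hl.near_of hf1 hf2 n0 n0
  have N2 : Near N' (w 0) (w 2) := hl.near_of hf1 hf2 n0 n2
  have N3 : Near N' (w 0) (w 3) := hl.near_of hf1 hf2 n0 n3
  have N4 : Near N' (w 0) (w 4) := hl.near_of hf1 hf2 n0 n4
  have M1 : ¬ Near N' (w 0) (w 1) := by
    intro hcon
    have h1 := Fam.near_inc h3N hinc hcon 0 1 (by omega) (by omega)
    have h2 := hf1 0 (by omega)
    have h3 := hf1 1 (by omega)
    rcases hl.inB_far with hh | hh
    · have g1 := hh _ h3 _ (hx0 _ h3) (11 * f 0) (by omega)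
      have g2 : y (11 * f 0) < x (11 * f 1) := h1.2.1
      omega
    · have g1 := hh _ h2 _ (hx0 _ h2) (11 * f 1) (by omega)
      have g2 : x (11 * f 0) < y (11 * f 1) := h1.1
      omega
  have hsh : ∀ i < N', (∀ s : Fin 6, InB x (f i) (w s i) → w s i < Y.L ∧
      Y.sh (w s i) = Y.sh (x 0)) := by
    intro i hi s hs
    exact ⟨hl.inB_L (hf1 i hi) hs, hl.inB_sh hY (hf1 i hi) hs⟩
  have hLd : ∀ i < N', w 5 i < Y.L := fun i hi => (hd2 _ (hf1 i hi)).2.2.2.2.2.2.1.2.1
  by_cases h5 : Near N' (w 0) (w 5)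
  · -- crossing chords
    left
    have hS : ∀ s : Fin 6, s ≠ 1 → Near N' (w 0) (w s) := by
      intro s hs
      fin_cases s
      · exact N0
      · exact absurd rfl hs
      · exact N2
      · exact N3
      · exact N4
      · exact h5
    have hser : ∀ s s' : Fin 6, s ≠ 1 → s' ≠ 1 → ∀ r t, r < t → t < N' → w s r < w s' t :=
      fun s s' hs hs' r t hrt ht => hfam.inc h3N hinc (hS s hs) (hS s' hs') hrt ht
    have hshd : ∀ i, 1 ≤ i → i + 1 < N' → Y.sh (w 5 i) = Y.sh (x 0) := by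
      intro i hi hi'
      have h1 := hser 0 5 (by decide) (by decide) (i - 1) i (by omega) (by omega)
      have h2 := hser 5 0 (by decide) (by decide) i (i + 1) (by omega) hi'
      have h3 := hf1 (i - 1) (by omega)
      have h4 := hf1 (i + 1) hi'
      exact hl.sh_eq hY (i := 11 * f (i - 1)) (j := 11 * f (i + 1)) (by omega) (by omega)
        h1.le h2.le
    have hfar := hfam.far h3N (o := 0) (fun s => s ≠ 1) hS M1
    have hfar' : (∀ s s' : Fin 6, s ≠ 1 → s' = 1 → ∀ r < N', ∀ t < N', w s r < w s' t) ∨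
        ∀ s s' : Fin 6, s ≠ 1 → s' = 1 → ∀ r < N', ∀ t < N', w s' t < w s r := by
      rcases hfar with hh | hh
      · exact Or.inl fun s s' hs hs' => by subst hs'; exact hh s hs
      · exact Or.inr fun s s' hs hs' => by subst hs'; exact hh s hs
    have hon : ∀ i, 1 ≤ i → i + 1 < N' → ∀ s : Fin 6, s ≠ 1 →
        w s i < Y.L ∧ Y.sh (w s i) = Y.sh (x 0) := by
      intro i hi hi' s hs
      have hiN : i < N' := by omega
      fin_cases s
      · exact hsh i hiN 0 (n0 i hiN)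
      · exact absurd rfl hs
      · exact hsh i hiN 2 (n2 i hiN)
      · exact hsh i hiN 3 (n3 i hiN)
      · exact hsh i hiN 4 (n4 i hiN)
      · exact ⟨hLd i hiN, hshd i hi hi'⟩
    -- shift the times by one
    set v : Fin 6 → ℕ → ℕ := fun s i => w s (i + 1) with hv
    have hserv : ∀ s s' : Fin 6, s ≠ 1 → s' ≠ 1 → ∀ r t, r < t → t < 2 * N → v s r < v s' t :=
      fun s s' hs hs' r t hrt ht => hser s s' hs hs' (r + 1) (t + 1) (by omega) (by omega)
    have hfarv : (∀ s s' : Fin 6, s ≠ 1 → s' = 1 → ∀ r < 2 * N, ∀ t < 2 * N, v s r < v s' t) ∨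
        ∀ s s' : Fin 6, s ≠ 1 → s' = 1 → ∀ r < 2 * N, ∀ t < 2 * N, v s' t < v s r := by
      rcases hfar' with hh | hh
      · exact Or.inl fun s s' hs hs' r hr t ht => hh s s' hs hs' _ (by omega) _ (by omega)
      · exact Or.inr fun s s' hs hs' r hr t ht => hh s s' hs hs' _ (by omega) _ (by omega)
    have honv : ∀ s : Fin 6, s ≠ 1 → ∀ i < 2 * N, v s i < Y.L ∧ Y.sh (v s i) = Y.sh (x 0) :=
      fun s hs i hi => hon (i + 1) (by omega) (by omega) s hs
    have honv1 : ∀ s : Fin 6, s = 1 → ∀ i < 2 * N, v s i < Y.L ∧ Y.sh (v s i) = Y.sh (y 0) := by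
      rintro s rfl i hi
      have h2 := hf1 (i + 1) (by omega)
      exact ⟨hl.yL (by omega), hl.shy _ (by omega)⟩
    have hownv : ∀ i < 2 * N, ∀ j < 2 * N, i ≠ j → ∀ a b, Y.own (v a i) ≠ Y.own (v b j) :=
      fun i hi j hj hij s s' => hown (i + 1) (by omega) (j + 1) (by omega) (by omega) s s'
    have hmon1 : Mon (2 * N) (v 1) := by
      rcases hfam.mon 1 with hm | hm
      · exact Or.inl fun r s hrs hs => hm (r + 1) (s + 1) (by omega) (by omega)
      · exact Or.inr fun r s hrs hs => hm (r + 1) (s + 1) (by omega) (by omega)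
    have hrung : ∀ i < N, Y.Lk (v 0 (2 * i)) (v 1 (2 * i)) := by
      intro i hi
      have h2 := hf1 (2 * i + 1) (by omega)
      exact hl.lk (11 * f (2 * i + 1)) (by omega)
    have hfin : ∀ (α β γ δ : Fin 6), α ≠ 1 → β ≠ 1 → γ ≠ 1 → δ ≠ 1 →
        (∀ i < 2 * N, v α i < v β i ∧ v β i < v γ i ∧ v γ i < v δ i ∧ Y.Lk (v α i) (v γ i) ∧
          Y.Lk (v β i) (v δ i) ∧ Y.Dj [v α i, v γ i] [v β i, v δ i]) →
        Y.PC N (fun i => v 0 (2 * i)) (fun i => v 1 (2 * i)) (fun i => v α (2 * i + 1))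
          (fun i => v γ (2 * i + 1)) (fun i => v β (2 * i + 1)) (fun i => v δ (2 * i + 1)) := by
      intro α β γ δ hα hβ hγ hδ hh
      have hF : From v (fun s => s ≠ 1) N (fun i => [v 0 (2 * i), v α (2 * i + 1),
          v β (2 * i + 1), v γ (2 * i + 1), v δ (2 * i + 1)]) := by
        intro i hi u hu
        simp only [List.mem_cons, List.not_mem_nil, or_false] at hu
        rcases hu with rfl | rfl | rfl | rfl | rfl
        exacts [⟨_, 0, by decide, Or.inl rfl, rfl⟩, ⟨_, α, hα, Or.inr rfl, rfl⟩,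
          ⟨_, β, hβ, Or.inr rfl, rfl⟩, ⟨_, γ, hγ, Or.inr rfl, rfl⟩, ⟨_, δ, hδ, Or.inr rfl, rfl⟩]
      have hG : From v (fun s => s = 1) N (fun i => [v 1 (2 * i)]) := by
        intro i hi u hu
        simp only [List.mem_cons, List.not_mem_nil, or_false] at hu
        subst hu
        exact ⟨_, 1, rfl, Or.inl rfl, rfl⟩
      refine ⟨hrung, fun i hi => (hh _ (by omega)).2.2.2.1, fun i hi => (hh _ (by omega)).2.2.2.2.1,
        ?_, hF.ser (N' := 2 * N) le_rfl (fun s s' hs hs' => hserv s s' hs hs'),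
        mon_two hmon1 le_rfl, hF.far hG (N' := 2 * N) le_rfl hfarv,
        hF.onSh (N' := 2 * N) le_rfl honv, hG.onSh (N' := 2 * N) le_rfl honv1, ?_, ?_⟩
      · intro i hi
        obtain ⟨h1, h2, h3, _⟩ := hh (2 * i + 1) (by omega)
        exact ⟨hserv 0 α (by decide) hα _ _ (by omega) (by omega), h1, h2, h3⟩
      · have hT : From v (fun _ => True) N (fun i => [v 0 (2 * i), v 1 (2 * i), v α (2 * i + 1),
            v γ (2 * i + 1), v β (2 * i + 1), v δ (2 * i + 1)]) := by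
          intro i hi u hu
          simp only [List.mem_cons, List.not_mem_nil, or_false] at hu
          rcases hu with rfl | rfl | rfl | rfl | rfl | rfl
          exacts [⟨_, 0, trivial, Or.inl rfl, rfl⟩, ⟨_, 1, trivial, Or.inl rfl, rfl⟩,
            ⟨_, α, trivial, Or.inr rfl, rfl⟩, ⟨_, γ, trivial, Or.inr rfl, rfl⟩,
            ⟨_, β, trivial, Or.inr rfl, rfl⟩, ⟨_, δ, trivial, Or.inr rfl, rfl⟩]
        exact hT.dis (N' := 2 * N) le_rfl hownv
      · intro i hi u hu u' hu'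
        have h6 := (hh (2 * i + 1) (by omega)).2.2.2.2.2
        simp only [List.mem_cons, List.not_mem_nil, or_false] at hu hu'
        have ho := hownv (2 * i) (by omega) (2 * i + 1) (by omega) (by omega)
        rcases hu with rfl | rfl | rfl | rfl
        · rcases hu' with rfl | rfl
          · exact ho 0 β
          · exact ho 0 δ
        · rcases hu' with rfl | rfl
          · exact ho 1 β
          · exact ho 1 δ
        · rcases hu' with rfl | rfl
          · exact h6 _ (by simp) _ (by simp)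
          · exact h6 _ (by simp) _ (by simp)
        · rcases hu' with rfl | rfl
          · exact h6 _ (by simp) _ (by simp)
          · exact h6 _ (by simp) _ (by simp)
    by_cases hcol : col.2 = true
    · refine ⟨_, _, _, _, _, _, hfin 5 2 3 4 (by decide) (by decide) (by decide) (by decide) ?_⟩
      intro i hi
      have hi' := hf1 (i + 1) (by omega)
      obtain ⟨h1, h2, h3, h4, h5', h6, h7, h8⟩ := hd2 _ hi'
      have h9 := hf3 (i + 1) (by omega)
      have h10 : decide (d (f (i + 1)) < a (f (i + 1))) = true := by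
        rw [← hcol, ← h9]
      have h11 := of_decide_eq_true h10
      exact ⟨h11, h3, h4, h7.symm hY, h6, h8.symm.swap⟩
    · refine ⟨_, _, _, _, _, _, hfin 2 3 4 5 (by decide) (by decide) (by decide) (by decide) ?_⟩
      intro i hi
      have hi' := hf1 (i + 1) (by omega)
      obtain ⟨h1, h2, h3, h4, h5', h6, h7, h8⟩ := hd2 _ hi'
      have h9 := hf3 (i + 1) (by omega)
      have h10 : ¬ d (f (i + 1)) < a (f (i + 1)) := by
        intro hcon
        apply hcol
        rw [← h9]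
        exact decide_eq_true hcon
      exact ⟨h3, h4, h5'.resolve_left h10, h6, h7, h8⟩
  · -- a chord over the foot of a rung
    right
    have hS : ∀ s : Fin 6, (s ≠ 1 ∧ s ≠ 5) → Near N' (w 0) (w s) := by
      rintro s ⟨hs, hs'⟩
      fin_cases s
      · exact N0
      · exact absurd rfl hs
      · exact N2
      · exact N3
      · exact N4
      · exact absurd rfl hs'
    have hser : ∀ s s' : Fin 6, (s ≠ 1 ∧ s ≠ 5) → (s' ≠ 1 ∧ s' ≠ 5) → ∀ r t, r < t → t < N' →
        w s r < w s' t :=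
      fun s s' hs hs' r t hrt ht => hfam.inc h3N hinc (hS s hs) (hS s' hs') hrt ht
    have hfar := hfam.far h3N (o := 0) (fun s => s ≠ 1 ∧ s ≠ 5) hS h5
    have hfar' : (∀ s s' : Fin 6, (s ≠ 1 ∧ s ≠ 5) → s' = 5 → ∀ r < N', ∀ t < N',
        w s r < w s' t) ∨
        ∀ s s' : Fin 6, (s ≠ 1 ∧ s ≠ 5) → s' = 5 → ∀ r < N', ∀ t < N', w s' t < w s r := by
      rcases hfar with hh | hh
      · exact Or.inl fun s s' hs hs' => by subst hs'; exact hh s hs
      · exact Or.inr fun s s' hs hs' => by subst hs'; exact hh s hs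
    have hF : From w (fun s => s ≠ 1 ∧ s ≠ 5) N (fun i => [w 2 (2 * i), w 3 (2 * i),
        w 4 (2 * i)]) := by
      intro i hi u hu
      simp only [List.mem_cons, List.not_mem_nil, or_false] at hu
      rcases hu with rfl | rfl | rfl
      exacts [⟨_, 2, by decide, Or.inl rfl, rfl⟩, ⟨_, 3, by decide, Or.inl rfl, rfl⟩,
        ⟨_, 4, by decide, Or.inl rfl, rfl⟩]
    have hG : From w (fun s => s = 5) N (fun i => [w 5 (2 * i)]) := by
      intro i hi u hu
      simp only [List.mem_cons, List.not_mem_nil, or_false] at hu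
      subst hu
      exact ⟨_, 5, rfl, Or.inl rfl, rfl⟩
    have hshd : ∀ i < N', Y.sh (w 5 i) = Y.sh (w 5 0) := by
      intro i hi
      have hin : ∀ i < N', Y.sh (w 5 i) ∈ A := by
        intro i hi
        have hi' := hf1 i hi
        obtain ⟨h1, h2, h3, h4, h5', h6, h7, h8⟩ := hd2 _ hi'
        refine hA _ _ h7 ?_ ?_
        · have := hl.le (i := 0) (j := 11 * f i) (by omega) (by omega)
          have := (hab _ hi').1
          omega
        · have := hl.le (i := 11 * f i + 10) (j := 11 * n₂ - 1) (by omega) (by omega)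
          have := (hab _ hi').2
          omega
      refine hg _ (hin i hi) _ (hin 0 (by omega)) ?_
      have h1 := hf3 i hi
      have h2 := hf3 0 (by omega)
      have h3 := congrArg Prod.fst (h1.trans h2.symm)
      exact h3
    refine ⟨fun i => w 3 (2 * i), fun i => w 5 (2 * i), fun i => w 2 (2 * i),
      fun i => w 4 (2 * i), ?_⟩
    refine ⟨fun i hi => (hd2 _ (hf1 _ (by omega))).2.2.2.2.2.2.1,
      fun i hi => (hd2 _ (hf1 _ (by omega))).2.2.2.2.2.1,
      fun i hi => (hd2 _ (hf1 _ (by omega))).2.2.1,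
      fun i hi => (hd2 _ (hf1 _ (by omega))).2.2.2.1,
      hF.ser (N' := N') (by omega) (fun s s' hs hs' => hser s s' hs hs'),
      mon_two (hfam.mon 5) (by omega), hF.far hG (N' := N') (by omega) hfar',
      hF.onSh (N' := N') (s₀ := Y.sh (x 0)) (by omega) ?_,
      hG.onSh (N' := N') (s₀ := Y.sh (w 5 0)) (by omega) ?_, ?_, ?_⟩
    · rintro s ⟨hs, hs'⟩ i hi
      fin_cases s
      · exact hsh i hi 0 (n0 i hi)
      · exact absurd rfl hs
      · exact hsh i hi 2 (n2 i hi)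
      · exact hsh i hi 3 (n3 i hi)
      · exact hsh i hi 4 (n4 i hi)
      · exact absurd rfl hs'
    · rintro s rfl i hi
      exact ⟨hLd i hi, hshd i hi⟩
    · have hT : From w (fun _ => True) N (fun i => [w 3 (2 * i), w 5 (2 * i), w 2 (2 * i),
          w 4 (2 * i)]) := by
        intro i hi u hu
        simp only [List.mem_cons, List.not_mem_nil, or_false] at hu
        rcases hu with rfl | rfl | rfl | rfl
        exacts [⟨_, 3, trivial, Or.inl rfl, rfl⟩, ⟨_, 5, trivial, Or.inl rfl, rfl⟩,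
          ⟨_, 2, trivial, Or.inl rfl, rfl⟩, ⟨_, 4, trivial, Or.inl rfl, rfl⟩]
      exact hT.dis (N' := N') (by omega) hown
    · intro i hi
      exact (hd2 _ (hf1 (2 * i) (by omega))).2.2.2.2.2.2.2.symm

end Sys

end EN
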