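import Pool.Agent.EN.Lad2

/-!
# Leaving links next to a ladder, and crossing rungs
-/

namespace EN

open RamP

namespace Sys

variable {κ : Type*}

namespace Lad

variable {Y : Sys κ} {n₂ : ℕ} {x y : ℕ → ℕ}

/-- One of three rungs is disjoint from a given link. -/
lemma free3 {n : ℕ} (h : Lad Y n x y) {u v i j k : ℕ} (hi : i < n) (hj : j < n) (hk : k < n)
    (hij : i ≠ j) (hik : i ≠ k) (hjk : j ≠ k) :
    Y.Dj [x i, y i] [u, v] ∨ Y.Dj [x j, y j] [u, v] ∨ Y.Dj [x k, y k] [u, v] := by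
  have key : ∀ l, ¬ Y.Dj [x l, y l] [u, v] →
      (∃ a ∈ [x l, y l], Y.own a = Y.own u) ∨ ∃ a ∈ [x l, y l], Y.own a = Y.own v := by
    intro l hl
    by_contra hcon
    push Not at hcon
    apply hl
    intro a ha b hb
    simp only [List.mem_cons, List.not_mem_nil, or_false] at hb
    rcases hb with rfl | rfl
    · exact hcon.1 a ha
    · exact hcon.2 a ha
  have dis : ∀ l m, l < n → m < n → l ≠ m → ∀ c, (∃ a ∈ [x l, y l], Y.own a = c) →
      (∃ a ∈ [x m, y m], Y.own a = c) → False := by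
    rintro l m hl hm hlm c ⟨a, ha, ha'⟩ ⟨b, hb, hb'⟩
    exact h.dis l hl m hm hlm a ha b hb (ha'.trans hb'.symm)
  by_contra hcon
  push Not at hcon
  rcases key i hcon.1 with a | a <;> rcases key j hcon.2.1 with b | b <;>
    rcases key k hcon.2.2 with c | c
  · exact dis i j hi hj hij _ a b
  · exact dis i j hi hj hij _ a b
  · exact dis i k hi hk hik _ a c
  · exact dis j k hj hk hjk _ b c
  · exact dis j k hj hk hjk _ b c
  · exact dis i k hi hk hik _ a c
  · exact dis i j hi hj hij _ a b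
  · exact dis i j hi hj hij _ a b

end Lad

/-- In block `j` of the second side. -/
def InY (y : ℕ → ℕ) (j u : ℕ) : Prop :=
  (y (11 * j) ≤ u ∧ u ≤ y (11 * j + 10)) ∨ (y (11 * j + 10) ≤ u ∧ u ≤ y (11 * j))

namespace Lad

variable {Y : Sys κ} {n₂ : ℕ} {x y : ℕ → ℕ}

lemma inY_self (h : Lad Y (11 * n₂) x y) {j k : ℕ} (hj : j < n₂) (hk : k ≤ 10) :
    InY y j (y (11 * j + k)) := by
  rcases h.mon with hm | hm
  · left
    constructor
    · rcases Nat.eq_zero_or_pos k with g | g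
      · rw [g]; exact le_rfl
      · exact (hm (11 * j) (11 * j + k) (by omega) (by omega)).le
    · rcases Nat.lt_or_ge k 10 with g | g
      · exact (hm (11 * j + k) (11 * j + 10) (by omega) (by omega)).le
      · rw [show k = 10 by omega]
  · right
    constructor
    · rcases Nat.lt_or_ge k 10 with g | g
      · exact (hm (11 * j + k) (11 * j + 10) (by omega) (by omega)).le
      · rw [show k = 10 by omega]
    · rcases Nat.eq_zero_or_pos k with g | g
      · rw [g]; exact le_rfl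
      · exact (hm (11 * j) (11 * j + k) (by omega) (by omega)).le

lemma inY_L (h : Lad Y (11 * n₂) x y) {u j : ℕ} (hj : j < n₂) (hu : InY y j u) : u < Y.L := by
  rcases hu with hu | hu
  · exact lt_of_le_of_lt hu.2 (h.yL (by omega))
  · exact lt_of_le_of_lt hu.2 (h.yL (by omega))

lemma inY_sh (h : Lad Y (11 * n₂) x y) {D : ℕ} (hY : Y.Ax D) {u j : ℕ} (hj : j < n₂)
    (hu : InY y j u) : Y.sh u = Y.sh (y 0) := by
  have h1 := h.shy (11 * j) (by omega)
  have h2 := h.shy (11 * j + 10) (by omega)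
  rcases hu with hu | hu
  · rw [hY.sh_eq (h1.trans h2.symm) hu.1 hu.2 (h.yL (by omega)), h1]
  · rw [hY.sh_eq (h2.trans h1.symm) hu.1 hu.2 (h.yL (by omega)), h2]

/-- Blocks of the second side are in series. -/
lemma inY_lt (h : Lad Y (11 * n₂) x y) :
    (∀ i j u v, i < j → j < n₂ → InY y i u → InY y j v → u < v) ∨
      ∀ i j u v, i < j → j < n₂ → InY y i u → InY y j v → v < u := by
  rcases h.mon with hm | hm
  · left
    intro i j u v hij hj hu hv
    have h1 := hm (11 * i) (11 * i + 10) (by omega) (by omega)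
    have h2 := hm (11 * j) (11 * j + 10) (by omega) (by omega)
    have h3 := hm (11 * i + 10) (11 * j) (by omega) (by omega)
    rcases hu with hu | hu <;> rcases hv with hv | hv <;> omega
  · right
    intro i j u v hij hj hu hv
    have h1 := hm (11 * i) (11 * i + 10) (by omega) (by omega)
    have h2 := hm (11 * j) (11 * j + 10) (by omega) (by omega)
    have h3 := hm (11 * i + 10) (11 * j) (by omega) (by omega)
    rcases hu with hu | hu <;> rcases hv with hv | hv <;> omega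

lemma inY_ne (h : Lad Y (11 * n₂) x y) {u v i j : ℕ} (hij : i ≠ j) (hi : i < n₂) (hj : j < n₂)
    (hu : InY y i u) (hv : InY y j v) : u ≠ v := by
  rcases h.inY_lt with hm | hm
  · rcases Nat.lt_or_ge i j with g | g
    · exact (hm i j u v g hj hu hv).ne
    · exact (hm j i v u (by omega) hi hv hu).ne'
  · rcases Nat.lt_or_ge i j with g | g
    · exact (hm i j u v g hj hu hv).ne'
    · exact (hm j i v u (by omega) hi hv hu).ne

lemma near_ofY (h : Lad Y (11 * n₂) x y) {N : ℕ} {f : ℕ → ℕ} (hf : ∀ i < N, f i < n₂)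
    (hf' : ∀ i j, i < j → j < N → f i < f j) {p q : ℕ → ℕ} (hp : ∀ i < N, InY y (f i) (p i))
    (hq : ∀ i < N, InY y (f i) (q i)) : Near N p q := by
  rcases h.inY_lt with hm | hm
  · left
    intro r s hrs hs
    have h1 := hf' r s hrs hs
    have h2 := hf s hs
    exact ⟨hm _ _ _ _ h1 h2 (hp r (by omega)) (hp s hs), hm _ _ _ _ h1 h2 (hp r (by omega)) (hq s hs),
      hm _ _ _ _ h1 h2 (hq r (by omega)) (hp s hs), hm _ _ _ _ h1 h2 (hq r (by omega)) (hq s hs)⟩
  · right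
    intro r s hrs hs
    have h1 := hf' r s hrs hs
    have h2 := hf s hs
    exact ⟨hm _ _ _ _ h1 h2 (hp r (by omega)) (hp s hs), hm _ _ _ _ h1 h2 (hp r (by omega)) (hq s hs),
      hm _ _ _ _ h1 h2 (hq r (by omega)) (hp s hs), hm _ _ _ _ h1 h2 (hq r (by omega)) (hq s hs)⟩

lemma not_near (h : Lad Y (11 * n₂) x y) {N : ℕ} (hN : 3 ≤ N) {f : ℕ → ℕ}
    (hf : ∀ i < N, f i < n₂) (hf' : ∀ i j, i < j → j < N → f i < f j) {p q : ℕ → ℕ}
    (hp : ∀ i < N, InB x (f i) (p i)) (hq : ∀ i < N, InY y (f i) (q i)) : ¬ Near N p q := by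
  intro hcon
  have hinc : Inc N p := fun r s hrs hs =>
    h.inB_lt (hf' r s hrs hs) (hf s hs) (hp r (by omega)) (hp s hs)
  have h1 := Fam.near_inc hN hinc hcon 0 1 (by omega) (by omega)
  have h2 := hf 0 (by omega)
  have h3 := hf 1 (by omega)
  have q0 := hq 0 (by omega)
  have q1 := hq 1 (by omega)
  rcases h.inB_far with hh | hh
  · have g1 := hh _ h3 _ (hp 1 (by omega)) (11 * f 0) (by omega)
    have g2 := hh _ h3 _ (hp 1 (by omega)) (11 * f 0 + 10) (by omega)
    rcases q0 with q0 | q0 <;> omega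
  · have g1 := hh _ h2 _ (hp 0 (by omega)) (11 * f 1) (by omega)
    have g2 := hh _ h2 _ (hp 0 (by omega)) (11 * f 1 + 10) (by omega)
    rcases q1 with q1 | q1 <;> omega

end Lad

/-- **Crossing rungs.** -/
theorem patX (D N : ℕ) : ∃ n₂ : ℕ, ∀ {κ : Type*} (Y : Sys κ), Y.Ax D → ∀ (x y : ℕ → ℕ),
    Lad Y (11 * n₂) x y →
    (∀ j < n₂, ∃ u v u' v', InB x j u ∧ InB x j u' ∧ u < u' ∧ InY y j v ∧ InY y j v' ∧
      Y.Lk u v ∧ Y.Lk u' v' ∧ Y.Dj [u, v] [u', v'] ∧
      ((y (11 * j) < y (11 * j + 10) ∧ v' < v) ∨ (y (11 * j + 10) < y (11 * j) ∧ v < v'))) →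
    ∃ p q y z p' q', Y.PX N p q y z p' q' := by
  set N' := 2 * N + 4 with hN'
  obtain ⟨n₂, hn₂⟩ := select D 6 N' Unit
  refine ⟨n₂, ?_⟩
  intro κ Y hY x y hl hd
  have hd' : ∀ j, ∃ u v u' v', j < n₂ → InB x j u ∧ InB x j u' ∧ u < u' ∧ InY y j v ∧
      InY y j v' ∧ Y.Lk u v ∧ Y.Lk u' v' ∧ Y.Dj [u, v] [u', v'] ∧
      ((y (11 * j) < y (11 * j + 10) ∧ v' < v) ∨ (y (11 * j + 10) < y (11 * j) ∧ v < v')) := by
    intro j
    by_cases hj : j < n₂
    · obtain ⟨u, v, u', v', h⟩ := hd j hj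
      exact ⟨u, v, u', v', fun _ => h⟩
    · exact ⟨0, 0, 0, 0, fun h => absurd h hj⟩
  choose u v u' v' hd2 using hd'
  have hx0 : ∀ j < n₂, InB x j (x (11 * j)) := fun j hj => hl.inB_self hj (k := 0) (by omega)
  have hy0 : ∀ j < n₂, InY y j (y (11 * j)) := fun j hj => hl.inY_self hj (k := 0) (by omega)
  obtain ⟨f, hf1, hf2, -, hf4, hf5, hf6⟩ := hn₂ Y hY
    ![fun j => x (11 * j), fun j => y (11 * j), u, v, u', v'] id
    (fun _ => ()) (by
      intro i j hj
      obtain ⟨h1, h2, h3, h4, h5, h6, h7, h8, _⟩ := hd2 j hj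
      fin_cases i
      · exact hl.xL (by omega)
      · exact hl.yL (by omega)
      · exact h6.1
      · exact h6.2.1
      · exact h7.1
      · exact h7.2.1) (by intro i j _; exact Or.inl rfl) (by
      intro s i hi j hj hij
      fin_cases s
      · exact hl.inB_ne hij hi hj (hx0 i hi) (hx0 j hj)
      · exact hl.inY_ne hij hi hj (hy0 i hi) (hy0 j hj)
      · exact hl.inB_ne hij hi hj (hd2 i hi).1 (hd2 j hj).1
      · exact hl.inY_ne hij hi hj (hd2 i hi).2.2.2.1 (hd2 j hj).2.2.2.1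
      · exact hl.inB_ne hij hi hj (hd2 i hi).2.1 (hd2 j hj).2.1
      · exact hl.inY_ne hij hi hj (hd2 i hi).2.2.2.2.1 (hd2 j hj).2.2.2.2.1)
  set w : Fin 6 → ℕ → ℕ := fun s i =>
    (![fun j => x (11 * j), fun j => y (11 * j), u, v, u', v'] : Fin 6 → ℕ → ℕ) s (f i) with hw
  have hfam : Fam N' w := ⟨hf5, hf6⟩
  have h3N : 3 ≤ N' := by omega
  have hown : ∀ i < N', ∀ j < N', i ≠ j → ∀ a b, Y.own (w a i) ≠ Y.own (w b j) := hf4
  have n0 : ∀ i < N', InB x (f i) (w 0 i) := fun i hi => hx0 _ (hf1 i hi)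
  have n1 : ∀ i < N', InY y (f i) (w 1 i) := fun i hi => hy0 _ (hf1 i hi)
  have n2 : ∀ i < N', InB x (f i) (w 2 i) := fun i hi => (hd2 _ (hf1 i hi)).1
  have n3 : ∀ i < N', InY y (f i) (w 3 i) := fun i hi => (hd2 _ (hf1 i hi)).2.2.2.1
  have n4 : ∀ i < N', InB x (f i) (w 4 i) := fun i hi => (hd2 _ (hf1 i hi)).2.1
  have n5 : ∀ i < N', InY y (f i) (w 5 i) := fun i hi => (hd2 _ (hf1 i hi)).2.2.2.2.1
  have hinc : Inc N' (w 0) := fun r s hrs hs =>
    hl.inB_lt (hf2 r s hrs hs) (hf1 s hs) (n0 r (by omega)) (n0 s hs)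
  have hB : ∀ s : Fin 6, (s = 0 ∨ s = 2 ∨ s = 4) → ∀ i < N', InB x (f i) (w s i) := by
    rintro s (rfl | rfl | rfl)
    · exact n0
    · exact n2
    · exact n4
  have hYb : ∀ s : Fin 6, (s = 1 ∨ s = 3 ∨ s = 5) → ∀ i < N', InY y (f i) (w s i) := by
    rintro s (rfl | rfl | rfl)
    · exact n1
    · exact n3
    · exact n5
  have hNB : ∀ s : Fin 6, (s = 0 ∨ s = 2 ∨ s = 4) → Near N' (w 0) (w s) := fun s hs =>
    hl.near_of hf1 hf2 n0 (hB s hs)
  have hNY : ∀ s : Fin 6, (s = 1 ∨ s = 3 ∨ s = 5) → Near N' (w 1) (w s) := fun s hs =>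
    hl.near_ofY hf1 hf2 n1 (hYb s hs)
  have hM : ¬ Near N' (w 0) (w 1) := hl.not_near h3N hf1 hf2 n0 n1
  have hfar := hfam.far2 h3N (fun s => s = 0 ∨ s = 2 ∨ s = 4) (fun s => s = 1 ∨ s = 3 ∨ s = 5)
    (Or.inl rfl) hNB hNY hM
  have hF : From w (fun s => s = 0 ∨ s = 2 ∨ s = 4) N (fun i => [w 2 (2 * i), w 4 (2 * i),
      w 0 (2 * i + 1)]) := by
    intro i hi a ha
    simp only [List.mem_cons, List.not_mem_nil, or_false] at ha
    rcases ha with rfl | rfl | rfl
    exacts [⟨_, 2, by decide, Or.inl rfl, rfl⟩, ⟨_, 4, by decide, Or.inl rfl, rfl⟩,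
      ⟨_, 0, by decide, Or.inr rfl, rfl⟩]
  have hG : From w (fun s => s = 1 ∨ s = 3 ∨ s = 5) N (fun i => [w 5 (2 * i), w 3 (2 * i),
      w 1 (2 * i + 1)]) := by
    intro i hi a ha
    simp only [List.mem_cons, List.not_mem_nil, or_false] at ha
    rcases ha with rfl | rfl | rfl
    exacts [⟨_, 5, by decide, Or.inl rfl, rfl⟩, ⟨_, 3, by decide, Or.inl rfl, rfl⟩,
      ⟨_, 1, by decide, Or.inr rfl, rfl⟩]
  have hT : From w (fun _ => True) N (fun i => [w 4 (2 * i), w 5 (2 * i), w 2 (2 * i),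
      w 3 (2 * i), w 0 (2 * i + 1), w 1 (2 * i + 1)]) := by
    intro i hi a ha
    simp only [List.mem_cons, List.not_mem_nil, or_false] at ha
    rcases ha with rfl | rfl | rfl | rfl | rfl | rfl
    exacts [⟨_, 4, trivial, Or.inl rfl, rfl⟩, ⟨_, 5, trivial, Or.inl rfl, rfl⟩,
      ⟨_, 2, trivial, Or.inl rfl, rfl⟩, ⟨_, 3, trivial, Or.inl rfl, rfl⟩,
      ⟨_, 0, trivial, Or.inr rfl, rfl⟩, ⟨_, 1, trivial, Or.inr rfl, rfl⟩]
  have hser : ∀ s s' : Fin 6, (s = 0 ∨ s = 2 ∨ s = 4) → (s' = 0 ∨ s' = 2 ∨ s' = 4) →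
      ∀ r t, r < t → t < N' → w s r < w s' t :=
    fun s s' hs hs' r t hrt ht => hfam.inc h3N hinc (hNB s hs) (hNB s' hs') hrt ht
  refine ⟨fun i => w 4 (2 * i), fun i => w 5 (2 * i), fun i => w 2 (2 * i), fun i => w 3 (2 * i),
    fun i => w 0 (2 * i + 1), fun i => w 1 (2 * i + 1), ?_⟩
  refine ⟨fun i hi => (hd2 _ (hf1 _ (by omega))).2.2.2.2.2.2.1,
    fun i hi => (hd2 _ (hf1 _ (by omega))).2.2.2.2.2.1, ?_,
    fun i hi => (hd2 _ (hf1 _ (by omega))).2.2.1,
    fun i hi => hser 4 0 (by decide) (by decide) _ _ (by omega) (by omega),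
    hF.ser (N' := N') (by omega) hser, ?_, hF.far hG (N' := N') (by omega) hfar,
    hF.onSh (N' := N') (s₀ := Y.sh (x 0)) (by omega)
      (fun s hs i hi => ⟨hl.inB_L (hf1 i hi) (hB s hs i hi), hl.inB_sh hY (hf1 i hi) (hB s hs i hi)⟩),
    hG.onSh (N' := N') (s₀ := Y.sh (y 0)) (by omega)
      (fun s hs i hi => ⟨hl.inY_L (hf1 i hi) (hYb s hs i hi),
        hl.inY_sh hY (hf1 i hi) (hYb s hs i hi)⟩),
    hT.dis (N' := N') (by omega) hown, ?_, ?_⟩
  · intro i hi
    have h2 := hf1 (2 * i + 1) (by omega)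
    exact hl.lk (11 * f (2 * i + 1)) (by omega)
  · rcases hl.inY_lt with hm | hm
    · left
      have hs1 : ∀ s s' : Fin 6, (s = 1 ∨ s = 3 ∨ s = 5) → (s' = 1 ∨ s' = 3 ∨ s' = 5) →
          ∀ r t, r < t → t < N' → w s r < w s' t := fun s s' hs hs' r t hrt ht =>
        hm _ _ _ _ (hf2 r t hrt ht) (hf1 t ht) (hYb s hs r (by omega)) (hYb s' hs' t ht)
      refine ⟨?_, hG.ser (N' := N') (by omega) hs1⟩
      intro i hi
      refine ⟨?_, hs1 3 1 (by decide) (by decide) _ _ (by omega) (by omega)⟩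
      have h2 := hf1 (2 * i) (by omega)
      rcases (hd2 _ h2).2.2.2.2.2.2.2.2 with g | g
      · exact g.2
      · exfalso
        have e := hm (f (2 * i)) (f (2 * i + 1)) _ _ (hf2 _ _ (by omega) (by omega))
          (hf1 _ (by omega)) (hy0 _ h2)
          (hy0 _ (hf1 (2 * i + 1) (by omega)))
        have e' := hm (f (2 * i)) (f (2 * i + 1)) _ _ (hf2 _ _ (by omega) (by omega))
          (hf1 _ (by omega)) (hl.inY_self h2 (k := 10) (by omega))
          (hy0 _ (hf1 (2 * i + 1) (by omega)))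
        rcases hl.mon with hmm | hmm
        · have := hmm (11 * f (2 * i)) (11 * f (2 * i) + 10) (by omega) (by omega)
          omega
        · have h3 := hf2 (2 * i) (2 * i + 1) (by omega) (by omega)
          have h4 := hf1 (2 * i + 1) (by omega)
          have := hmm (11 * f (2 * i)) (11 * f (2 * i + 1)) (by omega) (by omega)
          omega
    · right
      have hs1 : ∀ s s' : Fin 6, (s = 1 ∨ s = 3 ∨ s = 5) → (s' = 1 ∨ s' = 3 ∨ s' = 5) →
          ∀ r t, r < t → t < N' → w s' t < w s r := fun s s' hs hs' r t hrt ht =>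
        hm _ _ _ _ (hf2 r t hrt ht) (hf1 t ht) (hYb s hs r (by omega)) (hYb s' hs' t ht)
      refine ⟨?_, hG.ser' (N' := N') (by omega) hs1⟩
      intro i hi
      refine ⟨hs1 3 1 (by decide) (by decide) _ _ (by omega) (by omega), ?_⟩
      have h2 := hf1 (2 * i) (by omega)
      rcases (hd2 _ h2).2.2.2.2.2.2.2.2 with g | g
      · exfalso
        have e := hm (f (2 * i)) (f (2 * i + 1)) _ _ (hf2 _ _ (by omega) (by omega))
          (hf1 _ (by omega)) (hy0 _ h2)
          (hy0 _ (hf1 (2 * i + 1) (by omega)))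
        rcases hl.mon with hmm | hmm
        · have h3 := hf2 (2 * i) (2 * i + 1) (by omega) (by omega)
          have h4 := hf1 (2 * i + 1) (by omega)
          have := hmm (11 * f (2 * i)) (11 * f (2 * i + 1)) (by omega) (by omega)
          omega
        · have := hmm (11 * f (2 * i)) (11 * f (2 * i) + 10) (by omega) (by omega)
          omega
      · exact g.2
  · intro i hi
    exact (hd2 _ (hf1 (2 * i) (by omega))).2.2.2.2.2.2.2.1.symm
  · intro i hi a ha b hb
    simp only [List.mem_cons, List.not_mem_nil, or_false] at ha hb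
    have ho := hown (2 * i) (by omega) (2 * i + 1) (by omega) (by omega)
    rcases ha with rfl | rfl <;> rcases hb with rfl | rfl
    · exact ho 4 0
    · exact ho 4 1
    · exact ho 5 0
    · exact ho 5 1

end Sys

end EN
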