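import Pool.Agent.EN.Lad3

/-!
# Leaving links next to a ladder: the homogeneous data and the three cases
-/

namespace EN

open RamP

set_option maxHeartbeats 1000000

namespace Sys

/-- Homogeneous data: slots `0, 1` a rung, `2, 3` the leaving link, `4, 5` a rung on the right,
`6, 7` a rung on the left, both disjoint from the link. -/
structure TD {κ : Type*} (Y : Sys κ) (N' n₂ : ℕ) (x y f : ℕ → ℕ) (w : Fin 8 → ℕ → ℕ) (c1 c2 : Bool) :
    Prop where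
  hl : Lad Y (11 * n₂) x y
  h3N : 3 ≤ N'
  hf1 : ∀ i < N', f i < n₂
  hf2 : ∀ i j, i < j → j < N' → f i < f j
  e0 : ∀ i, w 0 i = x (11 * f i)
  e1 : ∀ i, w 1 i = y (11 * f i)
  fam : Fam N' w
  own : ∀ i < N', ∀ j < N', i ≠ j → ∀ a b, Y.own (w a i) ≠ Y.own (w b j)
  hB : ∀ s : Fin 8, (s = 0 ∨ s = 2 ∨ s = 4 ∨ s = 6) → ∀ i < N', InB x (f i) (w s i)
  hYb : ∀ s : Fin 8, (s = 1 ∨ s = 5 ∨ s = 7) → ∀ i < N', InY y (f i) (w s i)
  lk : ∀ i < N', Y.Lk (w 2 i) (w 3 i)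
  rg : ∀ i < N', Y.Lk (w 0 i) (w 1 i)
  rR : ∀ i < N', Y.Lk (w 4 i) (w 5 i)
  rL : ∀ i < N', Y.Lk (w 6 i) (w 7 i)
  jR : ∀ i < N', Y.Dj [w 4 i, w 5 i] [w 2 i, w 3 i]
  jL : ∀ i < N', Y.Dj [w 6 i, w 7 i] [w 2 i, w 3 i]
  uR : ∀ i < N', w 2 i < w 4 i
  Lu : ∀ i < N', w 6 i < w 2 i
  shv : ∀ i < N', Y.sh (w 3 i) = Y.sh (w 3 0)
  out1 : ∀ i < N', (c1 = true → x (11 * f i + 10) < w 3 i) ∧ (c1 ≠ true → w 3 i < x (11 * f i))
  out2 : ∀ i < N', (c2 = true → y (11 * f i) < w 3 i ∧ y (11 * f i + 10) < w 3 i) ∧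
    (c2 ≠ true → w 3 i < y (11 * f i) ∧ w 3 i < y (11 * f i + 10))

namespace TD

variable {κ : Type*} {Y : Sys κ} {N' n₂ : ℕ} {x y f : ℕ → ℕ} {w : Fin 8 → ℕ → ℕ} {c1 c2 : Bool}

lemma inc (h : TD Y N' n₂ x y f w c1 c2) : Inc N' (w 0) := fun r s hrs hs =>
  h.hl.inB_lt (h.hf2 r s hrs hs) (h.hf1 s hs) (h.hB 0 (Or.inl rfl) r (by omega))
    (h.hB 0 (Or.inl rfl) s hs)

lemma nB (h : TD Y N' n₂ x y f w c1 c2) (s : Fin 8) (hs : s = 0 ∨ s = 2 ∨ s = 4 ∨ s = 6) :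
    Near N' (w 0) (w s) := h.hl.near_of h.hf1 h.hf2 (h.hB 0 (Or.inl rfl)) (h.hB s hs)

lemma nY (h : TD Y N' n₂ x y f w c1 c2) (s : Fin 8) (hs : s = 1 ∨ s = 5 ∨ s = 7) :
    Near N' (w 1) (w s) := h.hl.near_ofY h.hf1 h.hf2 (h.hYb 1 (Or.inl rfl)) (h.hYb s hs)

lemma hM (h : TD Y N' n₂ x y f w c1 c2) : ¬ Near N' (w 0) (w 1) :=
  h.hl.not_near h.h3N h.hf1 h.hf2 (h.hB 0 (Or.inl rfl)) (h.hYb 1 (Or.inl rfl))

lemma vL (h : TD Y N' n₂ x y f w c1 c2) : ∀ i < N', w 3 i < Y.L := fun i hi => (h.lk i hi).2.1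

lemma mA {s : Fin 8} (h : s = 2 ∨ s = 3) : s = 0 ∨ s = 2 ∨ s = 3 ∨ s = 4 ∨ s = 6 := by
  rcases h with rfl | rfl <;> decide

lemma mA' {s : Fin 8} (h : s = 4 ∨ s = 6) : s = 0 ∨ s = 2 ∨ s = 3 ∨ s = 4 ∨ s = 6 := by
  rcases h with rfl | rfl <;> decide

lemma mA2 {s : Fin 8} (h : s = 5 ∨ s = 7) : s = 1 ∨ s = 5 ∨ s = 7 := by
  rcases h with rfl | rfl <;> decide

lemma mA3 {s : Fin 8} (h : s = 0 ∨ s = 2 ∨ s = 3 ∨ s = 4 ∨ s = 6) (h' : ¬ s = 3) :
    s = 0 ∨ s = 2 ∨ s = 4 ∨ s = 6 := by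
  rcases h with rfl | rfl | rfl | rfl | rfl
  · decide
  · decide
  · exact absurd rfl h'
  · decide
  · decide

lemma mB {s : Fin 8} (h : s = 2 ∨ s = 6) : s = 0 ∨ s = 2 ∨ s = 4 ∨ s = 6 := by
  rcases h with rfl | rfl <;> decide

lemma mB' {s : Fin 8} (h : s = 2 ∨ s = 4) : s = 0 ∨ s = 2 ∨ s = 4 ∨ s = 6 := by
  rcases h with rfl | rfl <;> decide

lemma mB2 {s : Fin 8} (h : s = 3 ∨ s = 7) : s = 1 ∨ s = 3 ∨ s = 5 ∨ s = 7 := by
  rcases h with rfl | rfl <;> decide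

lemma mB3 {s : Fin 8} (h : s = 3 ∨ s = 5) : s = 1 ∨ s = 3 ∨ s = 5 ∨ s = 7 := by
  rcases h with rfl | rfl <;> decide

lemma mB4 {s : Fin 8} (h : s = 1 ∨ s = 3 ∨ s = 5 ∨ s = 7) (h' : ¬ s = 3) :
    s = 1 ∨ s = 5 ∨ s = 7 := by
  rcases h with rfl | rfl | rfl | rfl
  · decide
  · exact absurd rfl h'
  · decide
  · decide

/-- Case A. -/
theorem caseA {D N : ℕ} (hY : Y.Ax D) (hT0 : TD Y N' n₂ x y f w c1 c2) (hNN : 2 * N ≤ N')
    (h3 : Near N' (w 0) (w 3)) : ∃ p q y z, Y.PJ N p q y z := by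
  have hl := hT0.hl
  have h3N := hT0.h3N
  have hf1 := hT0.hf1
  have hf2 := hT0.hf2
  have hfam := hT0.fam
  have hown := hT0.own
  have hB := hT0.hB
  have hYb := hT0.hYb
  have hlk := hT0.lk
  have hrg := hT0.rg
  have hrR := hT0.rR
  have hrL := hT0.rL
  have hjR := hT0.jR
  have hjL := hT0.jL
  have huR := hT0.uR
  have hLu := hT0.Lu
  have hshv := hT0.shv
  have hinc := hT0.inc
  have hNB := hT0.nB
  have hNY := hT0.nY
  have hM := hT0.hM
  have hvL := hT0.vL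
  have hS : ∀ s : Fin 8, (s = 0 ∨ s = 2 ∨ s = 3 ∨ s = 4 ∨ s = 6) → Near N' (w 0) (w s) := by
    rintro s (rfl | rfl | rfl | rfl | rfl)
    · exact hNB 0 (by decide)
    · exact hNB 2 (by decide)
    · exact h3
    · exact hNB 4 (by decide)
    · exact hNB 6 (by decide)
  have hser : ∀ s s' : Fin 8, (s = 0 ∨ s = 2 ∨ s = 3 ∨ s = 4 ∨ s = 6) →
      (s' = 0 ∨ s' = 2 ∨ s' = 3 ∨ s' = 4 ∨ s' = 6) → ∀ r t, r < t → t < N' →
      w s r < w s' t :=
    fun s s' hs hs' r t hrt ht => hfam.inc h3N hinc (hS s hs) (hS s' hs') hrt ht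
  have hshx : ∀ i < N', Y.sh (w 3 i) = Y.sh (x 0) := by
    intro i hi
    rw [hshv i hi, ← hshv 1 (by omega)]
    have h1 := hser 0 3 (by decide) (by decide) 0 1 (by omega) (by omega)
    have h2 := hser 3 0 (by decide) (by decide) 1 2 (by omega) (by omega)
    have h4 := hf1 0 (by omega)
    have h5 := hf1 2 (by omega)
    rw [hT0.e0] at h1 h2
    exact hl.sh_eq hY (i := 11 * f 0) (j := 11 * f 2) (by omega) (by omega) h1.le h2.le
  have hfar := hfam.far2 h3N (fun s => s = 0 ∨ s = 2 ∨ s = 3 ∨ s = 4 ∨ s = 6)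
    (fun s => s = 1 ∨ s = 5 ∨ s = 7) (Or.inl rfl) hS hNY hM
  have hon : ∀ s : Fin 8, (s = 0 ∨ s = 2 ∨ s = 3 ∨ s = 4 ∨ s = 6) → ∀ i < N',
      w s i < Y.L ∧ Y.sh (w s i) = Y.sh (x 0) := by
    rintro s hs i hi
    by_cases h : s = 3
    · subst h
      exact ⟨hvL i hi, hshx i hi⟩
    · have hs' := mA3 hs h
      exact ⟨hl.inB_L (hf1 i hi) (hB s hs' i hi), hl.inB_sh hY (hf1 i hi) (hB s hs' i hi)⟩
  have hfin : ∀ (α β γ δ : Fin 8), (α = 2 ∨ α = 3) → (β = 4 ∨ β = 6) → (γ = 2 ∨ γ = 3) →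
      (δ = 5 ∨ δ = 7) →
      (∀ i < N', w α i < w β i ∧ w β i < w γ i ∧ Y.Lk (w β i) (w δ i) ∧
        Y.Lk (w α i) (w γ i) ∧ Y.Dj [w β i, w δ i] [w α i, w γ i]) →
      Y.PJ N (fun i => w β (2 * i)) (fun i => w δ (2 * i)) (fun i => w α (2 * i))
        (fun i => w γ (2 * i)) := by
    intro α β γ δ hα hβ hγ hδ hh
    have hα' := mA hα
    have hβ' := mA' hβ
    have hγ' := mA hγ
    have hδ' := mA2 hδ
    have hF : From w (fun s => s = 0 ∨ s = 2 ∨ s = 3 ∨ s = 4 ∨ s = 6) N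
        (fun i => [w α (2 * i), w β (2 * i), w γ (2 * i)]) := by
      intro i hi a ha
      simp only [List.mem_cons, List.not_mem_nil, or_false] at ha
      rcases ha with rfl | rfl | rfl
      exacts [⟨_, α, hα', Or.inl rfl, rfl⟩, ⟨_, β, hβ', Or.inl rfl, rfl⟩,
        ⟨_, γ, hγ', Or.inl rfl, rfl⟩]
    have hG : From w (fun s => s = 1 ∨ s = 5 ∨ s = 7) N (fun i => [w δ (2 * i)]) := by
      intro i hi a ha
      simp only [List.mem_cons, List.not_mem_nil, or_false] at ha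
      subst ha
      exact ⟨_, δ, hδ', Or.inl rfl, rfl⟩
    have hT : From w (fun _ => True) N (fun i => [w β (2 * i), w δ (2 * i), w α (2 * i),
        w γ (2 * i)]) := by
      intro i hi a ha
      simp only [List.mem_cons, List.not_mem_nil, or_false] at ha
      rcases ha with rfl | rfl | rfl | rfl
      exacts [⟨_, β, trivial, Or.inl rfl, rfl⟩, ⟨_, δ, trivial, Or.inl rfl, rfl⟩,
        ⟨_, α, trivial, Or.inl rfl, rfl⟩, ⟨_, γ, trivial, Or.inl rfl, rfl⟩]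
    exact ⟨fun i hi => (hh _ (by omega)).2.2.1, fun i hi => (hh _ (by omega)).2.2.2.1,
      fun i hi => (hh _ (by omega)).1, fun i hi => (hh _ (by omega)).2.1,
      hF.ser (N' := N') (by omega) hser, mon_two (hfam.mon δ) (by omega),
      hF.far hG (N' := N') (by omega) hfar, hF.onSh (N' := N') (by omega) hon,
      hG.onSh (N' := N') (s₀ := Y.sh (y 0)) (by omega)
        (fun s hs i hi => ⟨hl.inY_L (hf1 i hi) (hYb s hs i hi),
          hl.inY_sh hY (hf1 i hi) (hYb s hs i hi)⟩),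
      hT.dis (N' := N') (by omega) hown, fun i hi => (hh _ (by omega)).2.2.2.2⟩
  by_cases hc : c1 = true
  · refine ⟨_, _, _, _, hfin 2 4 3 5 (Or.inl rfl) (Or.inl rfl) (Or.inr rfl) (Or.inl rfl) ?_⟩
    intro i hi
    refine ⟨huR i hi, ?_, hrR i hi, hlk i hi, hjR i hi⟩
    exact lt_of_le_of_lt (hB 4 (by decide) i hi).2 ((hT0.out1 i hi).1 hc)
  · refine ⟨_, _, _, _, hfin 3 6 2 7 (Or.inr rfl) (Or.inr rfl) (Or.inl rfl) (Or.inr rfl) ?_⟩
    intro i hi
    refine ⟨?_, hLu i hi, hrL i hi, (hlk i hi).symm hY, (hjL i hi).symm.swap.symm⟩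
    have h5 := (hT0.out1 i hi).2 hc
    exact lt_of_lt_of_le h5 (hB 6 (by decide) i hi).1

/-- Case B. -/
theorem caseB {D N : ℕ} (hY : Y.Ax D) (hT0 : TD Y N' n₂ x y f w c1 c2) (hNN : 2 * N ≤ N')
    (h1 : Near N' (w 1) (w 3)) : ∃ p q y z p' q', Y.PX N p q y z p' q' := by
  have hl := hT0.hl
  have h3N := hT0.h3N
  have hf1 := hT0.hf1
  have hf2 := hT0.hf2
  have hfam := hT0.fam
  have hown := hT0.own
  have hB := hT0.hB
  have hYb := hT0.hYb
  have hlk := hT0.lk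
  have hrg := hT0.rg
  have hrR := hT0.rR
  have hrL := hT0.rL
  have hjR := hT0.jR
  have hjL := hT0.jL
  have huR := hT0.uR
  have hLu := hT0.Lu
  have hshv := hT0.shv
  have hinc := hT0.inc
  have hNB := hT0.nB
  have hNY := hT0.nY
  have hM := hT0.hM
  have hvL := hT0.vL
  have hS : ∀ s : Fin 8, (s = 1 ∨ s = 3 ∨ s = 5 ∨ s = 7) → Near N' (w 1) (w s) := by
    rintro s (rfl | rfl | rfl | rfl)
    · exact hNY 1 (by decide)
    · exact h1
    · exact hNY 5 (by decide)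
    · exact hNY 7 (by decide)
  have hfar := hfam.far2 h3N (fun s => s = 0 ∨ s = 2 ∨ s = 4 ∨ s = 6)
    (fun s => s = 1 ∨ s = 3 ∨ s = 5 ∨ s = 7) (Or.inl rfl) hNB hS hM
  have hser : ∀ s s' : Fin 8, (s = 0 ∨ s = 2 ∨ s = 4 ∨ s = 6) →
      (s' = 0 ∨ s' = 2 ∨ s' = 4 ∨ s' = 6) → ∀ r t, r < t → t < N' → w s r < w s' t :=
    fun s s' hs hs' r t hrt ht => hfam.inc h3N hinc (hNB s hs) (hNB s' hs') hrt ht
  -- the direction of the second side
  have hdir : (Inc N' (w 1) ∧ ∀ i < N', y (11 * f i) < y (11 * f i + 10)) ∨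
      (Dec N' (w 1) ∧ ∀ i < N', y (11 * f i + 10) < y (11 * f i)) := by
    rcases hl.mon with hmm | hmm
    · left
      constructor
      · intro r s hrs hs
        have e1 := hf2 r s hrs hs
        have e2 := hf1 s hs
        rw [hT0.e1, hT0.e1]
        exact hmm (11 * f r) (11 * f s) (by omega) (by omega)
      · intro i hi
        have e2 := hf1 i hi
        exact hmm _ _ (by omega) (by omega)
    · right
      constructor
      · intro r s hrs hs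
        have e1 := hf2 r s hrs hs
        have e2 := hf1 s hs
        rw [hT0.e1, hT0.e1]
        exact hmm (11 * f r) (11 * f s) (by omega) (by omega)
      · intro i hi
        have e2 := hf1 i hi
        exact hmm _ _ (by omega) (by omega)
  have hshy : ∀ i < N', Y.sh (w 3 i) = Y.sh (y 0) := by
    intro i hi
    rw [hshv i hi, ← hshv 1 (by omega)]
    have a0 : Y.sh (w 1 0) = Y.sh (y 0) :=
      hl.inY_sh hY (hf1 0 (by omega)) (hYb 1 (by decide) 0 (by omega))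
    have a2 : Y.sh (w 1 2) = Y.sh (y 0) :=
      hl.inY_sh hY (hf1 2 (by omega)) (hYb 1 (by decide) 2 (by omega))
    have l0 : w 1 0 < Y.L := hl.inY_L (hf1 0 (by omega)) (hYb 1 (by decide) 0 (by omega))
    have l2 : w 1 2 < Y.L := hl.inY_L (hf1 2 (by omega)) (hYb 1 (by decide) 2 (by omega))
    rcases hdir with ⟨hi1, _⟩ | ⟨hi1, _⟩
    · have b1 := hfam.inc h3N hi1 (hS 1 (by decide)) (hS 3 (by decide))
        (r := 0) (s := 1) (by omega) (by omega)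
      have b2 := hfam.inc h3N hi1 (hS 3 (by decide)) (hS 1 (by decide))
        (r := 1) (s := 2) (by omega) (by omega)
      rw [hY.sh_eq (a0.trans a2.symm) b1.le b2.le l2, a0]
    · have b1 := hfam.dec h3N hi1 (hS 1 (by decide)) (hS 3 (by decide))
        (r := 0) (s := 1) (by omega) (by omega)
      have b2 := hfam.dec h3N hi1 (hS 3 (by decide)) (hS 1 (by decide))
        (r := 1) (s := 2) (by omega) (by omega)
      rw [hY.sh_eq (a2.trans a0.symm) b2.le b1.le l0, a2]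
  have hon : ∀ s : Fin 8, (s = 1 ∨ s = 3 ∨ s = 5 ∨ s = 7) → ∀ i < N',
      w s i < Y.L ∧ Y.sh (w s i) = Y.sh (y 0) := by
    rintro s hs i hi
    by_cases h : s = 3
    · subst h
      exact ⟨hvL i hi, hshy i hi⟩
    · have hs' := mB4 hs h
      exact ⟨hl.inY_L (hf1 i hi) (hYb s hs' i hi), hl.inY_sh hY (hf1 i hi) (hYb s hs' i hi)⟩
  -- left foot `α – β`, right foot `γ – δ`
  have hfin : ∀ (α β γ δ : Fin 8), (α = 2 ∨ α = 6) → (β = 3 ∨ β = 7) → (γ = 2 ∨ γ = 4) →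
      (δ = 3 ∨ δ = 5) →
      (∀ i < N', w α i < w γ i ∧ Y.Lk (w α i) (w β i) ∧ Y.Lk (w γ i) (w δ i) ∧
        Y.Dj [w γ i, w δ i] [w α i, w β i] ∧
        ((y (11 * f i) < y (11 * f i + 10) ∧ w δ i < w β i) ∨
          (y (11 * f i + 10) < y (11 * f i) ∧ w β i < w δ i))) →
      Y.PX N (fun i => w γ (2 * i)) (fun i => w δ (2 * i)) (fun i => w α (2 * i))
        (fun i => w β (2 * i)) (fun i => w 0 (2 * i + 1)) (fun i => w 1 (2 * i + 1)) := by
    intro α β γ δ hα hβ hγ hδ hh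
    have hα' := mB hα
    have hγ' := mB' hγ
    have hβ' := mB2 hβ
    have hδ' := mB3 hδ
    have hF : From w (fun s => s = 0 ∨ s = 2 ∨ s = 4 ∨ s = 6) N
        (fun i => [w α (2 * i), w γ (2 * i), w 0 (2 * i + 1)]) := by
      intro i hi a ha
      simp only [List.mem_cons, List.not_mem_nil, or_false] at ha
      rcases ha with rfl | rfl | rfl
      exacts [⟨_, α, hα', Or.inl rfl, rfl⟩, ⟨_, γ, hγ', Or.inl rfl, rfl⟩,
        ⟨_, 0, Or.inl rfl, Or.inr rfl, rfl⟩]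
    have hG : From w (fun s => s = 1 ∨ s = 3 ∨ s = 5 ∨ s = 7) N
        (fun i => [w δ (2 * i), w β (2 * i), w 1 (2 * i + 1)]) := by
      intro i hi a ha
      simp only [List.mem_cons, List.not_mem_nil, or_false] at ha
      rcases ha with rfl | rfl | rfl
      exacts [⟨_, δ, hδ', Or.inl rfl, rfl⟩, ⟨_, β, hβ', Or.inl rfl, rfl⟩,
        ⟨_, 1, Or.inl rfl, Or.inr rfl, rfl⟩]
    have hT : From w (fun _ => True) N (fun i => [w γ (2 * i), w δ (2 * i), w α (2 * i),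
        w β (2 * i), w 0 (2 * i + 1), w 1 (2 * i + 1)]) := by
      intro i hi a ha
      simp only [List.mem_cons, List.not_mem_nil, or_false] at ha
      rcases ha with rfl | rfl | rfl | rfl | rfl | rfl
      exacts [⟨_, γ, trivial, Or.inl rfl, rfl⟩, ⟨_, δ, trivial, Or.inl rfl, rfl⟩,
        ⟨_, α, trivial, Or.inl rfl, rfl⟩, ⟨_, β, trivial, Or.inl rfl, rfl⟩,
        ⟨_, 0, trivial, Or.inr rfl, rfl⟩, ⟨_, 1, trivial, Or.inr rfl, rfl⟩]
    refine ⟨fun i hi => (hh _ (by omega)).2.2.1, fun i hi => (hh _ (by omega)).2.1,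
      fun i hi => hrg _ (by omega), fun i hi => (hh _ (by omega)).1,
      fun i hi => hser γ 0 hγ' (Or.inl rfl) _ _ (by omega) (by omega),
      hF.ser (N' := N') (by omega) hser, ?_, hF.far hG (N' := N') (by omega) hfar,
      hF.onSh (N' := N') (s₀ := Y.sh (x 0)) (by omega)
        (fun s hs i hi => ⟨hl.inB_L (hf1 i hi) (hB s hs i hi),
          hl.inB_sh hY (hf1 i hi) (hB s hs i hi)⟩),
      hG.onSh (N' := N') (by omega) hon, hT.dis (N' := N') (by omega) hown,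
      fun i hi => (hh _ (by omega)).2.2.2.1, ?_⟩
    · rcases hdir with ⟨hi1, hi2⟩ | ⟨hi1, hi2⟩
      · left
        have hs1 : ∀ s s' : Fin 8, (s = 1 ∨ s = 3 ∨ s = 5 ∨ s = 7) →
            (s' = 1 ∨ s' = 3 ∨ s' = 5 ∨ s' = 7) → ∀ r t, r < t → t < N' →
            w s r < w s' t := fun s s' hs hs' r t hrt ht =>
          hfam.inc h3N hi1 (hS s hs) (hS s' hs') hrt ht
        refine ⟨?_, hG.ser (N' := N') (by omega) hs1⟩
        intro i hi
        refine ⟨?_, hs1 β 1 hβ' (Or.inl rfl) _ _ (by omega) (by omega)⟩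
        rcases (hh (2 * i) (by omega)).2.2.2.2 with e | e
        · exact e.2
        · have := hi2 (2 * i) (by omega)
          omega
      · right
        have hs1 : ∀ s s' : Fin 8, (s = 1 ∨ s = 3 ∨ s = 5 ∨ s = 7) →
            (s' = 1 ∨ s' = 3 ∨ s' = 5 ∨ s' = 7) → ∀ r t, r < t → t < N' →
            w s' t < w s r := fun s s' hs hs' r t hrt ht =>
          hfam.dec h3N hi1 (hS s hs) (hS s' hs') hrt ht
        refine ⟨?_, hG.ser' (N' := N') (by omega) hs1⟩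
        intro i hi
        refine ⟨hs1 β 1 hβ' (Or.inl rfl) _ _ (by omega) (by omega), ?_⟩
        rcases (hh (2 * i) (by omega)).2.2.2.2 with e | e
        · have := hi2 (2 * i) (by omega)
          omega
        · exact e.2
    · intro i hi a ha b hb
      simp only [List.mem_cons, List.not_mem_nil, or_false] at ha hb
      have ho := hown (2 * i) (by omega) (2 * i + 1) (by omega) (by omega)
      rcases ha with rfl | rfl <;> rcases hb with rfl | rfl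
      · exact ho γ 0
      · exact ho γ 1
      · exact ho δ 0
      · exact ho δ 1
  have hR : (∀ i < N', (y (11 * f i) < y (11 * f i + 10) ∧ w 5 i < w 3 i) ∨
      (y (11 * f i + 10) < y (11 * f i) ∧ w 3 i < w 5 i)) →
      ∃ p q y z p' q', Y.PX N p q y z p' q' := fun hh =>
    ⟨_, _, _, _, _, _, hfin 2 3 4 5 (Or.inl rfl) (Or.inl rfl) (Or.inr rfl) (Or.inr rfl)
      (fun i hi => ⟨huR i hi, hlk i hi, hrR i hi, hjR i hi, hh i hi⟩)⟩
  have hL : (∀ i < N', (y (11 * f i) < y (11 * f i + 10) ∧ w 3 i < w 7 i) ∨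
      (y (11 * f i + 10) < y (11 * f i) ∧ w 7 i < w 3 i)) →
      ∃ p q y z p' q', Y.PX N p q y z p' q' := fun hh =>
    ⟨_, _, _, _, _, _, hfin 6 7 2 3 (Or.inr rfl) (Or.inr rfl) (Or.inl rfl) (Or.inl rfl)
      (fun i hi => ⟨hLu i hi, hrL i hi, hlk i hi, (hjL i hi).symm, hh i hi⟩)⟩
  have hab := hT0.out2
  have hQ : ∀ i < N', ∀ s : Fin 8, (s = 1 ∨ s = 5 ∨ s = 7) → (y (11 * f i) ≤ w s i ∧
      w s i ≤ y (11 * f i + 10)) ∨ (y (11 * f i + 10) ≤ w s i ∧ w s i ≤ y (11 * f i)) :=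
    fun i hi s hs => hYb s hs i hi
  by_cases hc : c2 = true
  · rcases hdir with ⟨hi1, hi2⟩ | ⟨hi1, hi2⟩
    · refine hR (fun i hi => Or.inl ⟨hi2 i hi, ?_⟩)
      have e1 := (hab i hi).1 hc
      have e2 := hQ i hi 5 (by decide)
      omega
    · refine hL (fun i hi => Or.inr ⟨hi2 i hi, ?_⟩)
      have e1 := (hab i hi).1 hc
      have e2 := hQ i hi 7 (by decide)
      omega
  · rcases hdir with ⟨hi1, hi2⟩ | ⟨hi1, hi2⟩
    · refine hL (fun i hi => Or.inl ⟨hi2 i hi, ?_⟩)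
      have e1 := (hab i hi).2 hc
      have e2 := hQ i hi 7 (by decide)
      omega
    · refine hR (fun i hi => Or.inr ⟨hi2 i hi, ?_⟩)
      have e1 := (hab i hi).2 hc
      have e2 := hQ i hi 5 (by decide)
      omega

/-- Case C. -/
theorem caseC {D N : ℕ} (hY : Y.Ax D) (hT0 : TD Y N' n₂ x y f w c1 c2) (hNN : 2 * N ≤ N')
    (h3 : ¬ Near N' (w 0) (w 3)) (h1 : ¬ Near N' (w 1) (w 3)) : ∃ x z c d, Y.PB N x z c d := by
  have hl := hT0.hl
  have h3N := hT0.h3N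
  have hf1 := hT0.hf1
  have hf2 := hT0.hf2
  have hfam := hT0.fam
  have hown := hT0.own
  have hB := hT0.hB
  have hYb := hT0.hYb
  have hlk := hT0.lk
  have hrg := hT0.rg
  have hrR := hT0.rR
  have hrL := hT0.rL
  have hjR := hT0.jR
  have hjL := hT0.jL
  have huR := hT0.uR
  have hLu := hT0.Lu
  have hshv := hT0.shv
  have hinc := hT0.inc
  have hNB := hT0.nB
  have hNY := hT0.nY
  have hM := hT0.hM
  have hvL := hT0.vL
  have hfar1 := hfam.far2 h3N (fun s => s = 0 ∨ s = 2 ∨ s = 4 ∨ s = 6)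
    (fun s => s = 1 ∨ s = 5 ∨ s = 7) (Or.inl rfl) hNB hNY hM
  have hfar2 := hfam.far2 (o' := 3) h3N (fun s => s = 0 ∨ s = 2 ∨ s = 4 ∨ s = 6)
    (fun s => s = 3) (Or.inl rfl) hNB (fun a ha => by subst ha; exact (hfam.mon 3).near) h3
  have hfar3 := hfam.far2 (o := 1) (o' := 3) h3N (fun s => s = 1 ∨ s = 5 ∨ s = 7)
    (fun s => s = 3) (Or.inl rfl) hNY (fun a ha => by subst ha; exact (hfam.mon 3).near) h1
  have hser : ∀ s s' : Fin 8, (s = 0 ∨ s = 2 ∨ s = 4 ∨ s = 6) →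
      (s' = 0 ∨ s' = 2 ∨ s' = 4 ∨ s' = 6) → ∀ r t, r < t → t < N' → w s r < w s' t :=
    fun s s' hs hs' r t hrt ht => hfam.inc h3N hinc (hNB s hs) (hNB s' hs') hrt ht
  have hF : From w (fun s => s = 0 ∨ s = 2 ∨ s = 4 ∨ s = 6) N
      (fun i => [w 0 (2 * i), w 2 (2 * i)]) := by
    intro i hi a ha
    simp only [List.mem_cons, List.not_mem_nil, or_false] at ha
    rcases ha with rfl | rfl
    exacts [⟨_, 0, by decide, Or.inl rfl, rfl⟩, ⟨_, 2, by decide, Or.inl rfl, rfl⟩]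
  have hG : From w (fun s => s = 1 ∨ s = 5 ∨ s = 7) N (fun i => [w 1 (2 * i)]) := by
    intro i hi a ha
    simp only [List.mem_cons, List.not_mem_nil, or_false] at ha
    subst ha
    exact ⟨_, 1, by decide, Or.inl rfl, rfl⟩
  have hH : From w (fun s => s = 3) N (fun i => [w 3 (2 * i)]) := by
    intro i hi a ha
    simp only [List.mem_cons, List.not_mem_nil, or_false] at ha
    subst ha
    exact ⟨_, 3, by decide, Or.inl rfl, rfl⟩
  have hT : From w (fun _ => True) N (fun i => [w 0 (2 * i), w 1 (2 * i), w 2 (2 * i),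
      w 3 (2 * i)]) := by
    intro i hi a ha
    simp only [List.mem_cons, List.not_mem_nil, or_false] at ha
    rcases ha with rfl | rfl | rfl | rfl
    exacts [⟨_, 0, trivial, Or.inl rfl, rfl⟩, ⟨_, 1, trivial, Or.inl rfl, rfl⟩,
      ⟨_, 2, trivial, Or.inl rfl, rfl⟩, ⟨_, 3, trivial, Or.inl rfl, rfl⟩]
  refine ⟨fun i => w 0 (2 * i), fun i => w 1 (2 * i), fun i => w 2 (2 * i),
    fun i => w 3 (2 * i), ?_⟩
  exact ⟨fun i hi => hrg _ (by omega), fun i hi => hlk _ (by omega),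
    hF.ser (N' := N') (by omega) hser, mon_two (hfam.mon 1) (by omega),
    mon_two (hfam.mon 3) (by omega), hF.far hG (N' := N') (by omega) hfar1,
    hF.far hH (N' := N') (by omega) hfar2, hG.far hH (N' := N') (by omega) hfar3,
    hF.onSh (N' := N') (s₀ := Y.sh (x 0)) (by omega)
      (fun s hs i hi => ⟨hl.inB_L (hf1 i hi) (hB s hs i hi),
        hl.inB_sh hY (hf1 i hi) (hB s hs i hi)⟩),
    hG.onSh (N' := N') (s₀ := Y.sh (y 0)) (by omega)
      (fun s hs i hi => ⟨hl.inY_L (hf1 i hi) (hYb s hs i hi),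
        hl.inY_sh hY (hf1 i hi) (hYb s hs i hi)⟩),
    hH.onSh (N' := N') (s₀ := Y.sh (w 3 0)) (by omega)
      (fun s hs i hi => by subst hs; exact ⟨hvL i hi, hshv i hi⟩),
    hT.dis (N' := N') (by omega) hown⟩

end TD

end Sys

end EN
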