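import Pool.Agent.EN.Lad4

/-!
# Leaving links next to a ladder: assembly
-/

namespace EN

open RamP

set_option maxHeartbeats 1000000

namespace Sys

/-- **Leaving links.** -/
theorem patT (D N c : ℕ) : ∃ n₂ : ℕ, ∀ {κ : Type*} (Y : Sys κ), Y.Ax D → ∀ (x y : ℕ → ℕ),
    Lad Y (11 * n₂) x y →
    (∃ A : Finset ℕ, A.card ≤ c ∧ ∀ u v, Y.Lk u v → x 0 ≤ u → u ≤ x (11 * n₂ - 1) → Y.sh v ∈ A) →
    (∀ j < n₂, ∃ u v, Y.Lk u v ∧ x (11 * j + 3) ≤ u ∧ u ≤ x (11 * j + 7) ∧
      (v < x (11 * j) ∨ x (11 * j + 10) < v) ∧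
      ((v < y (11 * j) ∧ v < y (11 * j + 10)) ∨ (y (11 * j) < v ∧ y (11 * j + 10) < v))) →
    (∃ p q y z, Y.PJ N p q y z) ∨ (∃ p q y z p' q', Y.PX N p q y z p' q') ∨
      ∃ x z c d, Y.PB N x z c d := by
  set N' := 2 * N + 4 with hN'
  obtain ⟨n₂, hn₂⟩ := select D 8 N' (Fin (c + 1) × Bool × Bool)
  refine ⟨n₂, ?_⟩
  intro κ Y hY x y hl ⟨A, hAc, hA⟩ hd
  obtain ⟨g, hg⟩ := colorA A c hAc
  have hd' : ∀ j, ∃ u v ρ τ, j < n₂ → (Y.Lk u v ∧ x (11 * j + 3) ≤ u ∧ u ≤ x (11 * j + 7) ∧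
      (v < x (11 * j) ∨ x (11 * j + 10) < v) ∧
      ((v < y (11 * j) ∧ v < y (11 * j + 10)) ∨ (y (11 * j) < v ∧ y (11 * j + 10) < v))) ∧
      (8 ≤ ρ ∧ ρ ≤ 10 ∧ Y.Dj [x (11 * j + ρ), y (11 * j + ρ)] [u, v]) ∧
      (τ ≤ 2 ∧ Y.Dj [x (11 * j + τ), y (11 * j + τ)] [u, v]) := by
    intro j
    by_cases hj : j < n₂
    · obtain ⟨u, v, h⟩ := hd j hj
      have h1 : ∃ ρ, 8 ≤ ρ ∧ ρ ≤ 10 ∧ Y.Dj [x (11 * j + ρ), y (11 * j + ρ)] [u, v] := by
        rcases hl.free3 (u := u) (v := v) (i := 11 * j + 8) (j := 11 * j + 9) (k := 11 * j + 10)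
          (by omega) (by omega) (by omega) (by omega) (by omega) (by omega) with g | g | g
        · exact ⟨8, by omega, by omega, g⟩
        · exact ⟨9, by omega, by omega, g⟩
        · exact ⟨10, by omega, by omega, g⟩
      have h2 : ∃ τ, τ ≤ 2 ∧ Y.Dj [x (11 * j + τ), y (11 * j + τ)] [u, v] := by
        rcases hl.free3 (u := u) (v := v) (i := 11 * j) (j := 11 * j + 1) (k := 11 * j + 2)
          (by omega) (by omega) (by omega) (by omega) (by omega) (by omega) with g | g | g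
        · exact ⟨0, by omega, g⟩
        · exact ⟨1, by omega, g⟩
        · exact ⟨2, by omega, g⟩
      obtain ⟨ρ, h1⟩ := h1
      obtain ⟨τ, h2⟩ := h2
      exact ⟨u, v, ρ, τ, fun _ => ⟨h, h1, h2⟩⟩
    · exact ⟨0, 0, 0, 0, fun h => absurd h hj⟩
  choose u v ρ τ hd2 using hd'
  have hx0 : ∀ j < n₂, InB x j (x (11 * j)) := fun j hj => hl.inB_self hj (k := 0) (by omega)
  have hy0 : ∀ j < n₂, InY y j (y (11 * j)) := fun j hj => hl.inY_self hj (k := 0) (by omega)
  have hub : ∀ j < n₂, InB x j (u j) := by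
    intro j hj
    obtain ⟨⟨_, h2, h3, _⟩, _⟩ := hd2 j hj
    have a1 := hl.le (i := 11 * j) (j := 11 * j + 3) (by omega) (by omega)
    have a2 := hl.le (i := 11 * j + 7) (j := 11 * j + 10) (by omega) (by omega)
    exact ⟨by omega, by omega⟩
  have hxR : ∀ j < n₂, InB x j (x (11 * j + ρ j)) := fun j hj =>
    hl.inB_self hj (hd2 j hj).2.1.2.1
  have hyR : ∀ j < n₂, InY y j (y (11 * j + ρ j)) := fun j hj =>
    hl.inY_self hj (hd2 j hj).2.1.2.1
  have hxL : ∀ j < n₂, InB x j (x (11 * j + τ j)) := fun j hj =>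
    hl.inB_self hj (by have := (hd2 j hj).2.2.1; omega)
  have hyL : ∀ j < n₂, InY y j (y (11 * j + τ j)) := fun j hj =>
    hl.inY_self hj (by have := (hd2 j hj).2.2.1; omega)
  obtain ⟨f, hf1, hf2, ⟨col, hf3⟩, hf4, hf5, hf6⟩ := hn₂ Y hY
    ![fun j => x (11 * j), fun j => y (11 * j), u, v, fun j => x (11 * j + ρ j),
      fun j => y (11 * j + ρ j), fun j => x (11 * j + τ j), fun j => y (11 * j + τ j)]
    ![0, 1, 2, 2, 4, 5, 6, 7]
    (fun j => (g (Y.sh (v j)), decide (x (11 * j + 10) < v j), decide (y (11 * j) < v j))) (by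
      intro i j hj
      obtain ⟨⟨h1, _⟩, _⟩ := hd2 j hj
      fin_cases i
      · exact hl.xL (by omega)
      · exact hl.yL (by omega)
      · exact h1.1
      · exact h1.2.1
      · exact hl.inB_L hj (hxR j hj)
      · exact hl.inY_L hj (hyR j hj)
      · exact hl.inB_L hj (hxL j hj)
      · exact hl.inY_L hj (hyL j hj)) (by
      intro i j hj
      obtain ⟨⟨h1, _⟩, _⟩ := hd2 j hj
      fin_cases i
      · exact Or.inl rfl
      · exact Or.inl rfl
      · exact Or.inl rfl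
      · rcases h1.2.2.2 with g | g
        · exact Or.inl g.symm
        · exact Or.inr g
      · exact Or.inl rfl
      · exact Or.inl rfl
      · exact Or.inl rfl
      · exact Or.inl rfl) (by
      intro s i hi j hj hij
      fin_cases s
      · exact hl.inB_ne hij hi hj (hx0 i hi) (hx0 j hj)
      · exact hl.inY_ne hij hi hj (hy0 i hi) (hy0 j hj)
      · exact hl.inB_ne hij hi hj (hub i hi) (hub j hj)
      · exact hl.inB_ne hij hi hj (hub i hi) (hub j hj)
      · exact hl.inB_ne hij hi hj (hxR i hi) (hxR j hj)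
      · exact hl.inY_ne hij hi hj (hyR i hi) (hyR j hj)
      · exact hl.inB_ne hij hi hj (hxL i hi) (hxL j hj)
      · exact hl.inY_ne hij hi hj (hyL i hi) (hyL j hj))
  set w : Fin 8 → ℕ → ℕ := fun s i =>
    (![fun j => x (11 * j), fun j => y (11 * j), u, v, fun j => x (11 * j + ρ j),
      fun j => y (11 * j + ρ j), fun j => x (11 * j + τ j), fun j => y (11 * j + τ j)] :
        Fin 8 → ℕ → ℕ) s (f i) with hw
  have hfam : Fam N' w := ⟨hf5, hf6⟩
  have h3N : 3 ≤ N' := by omega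
  have hown : ∀ i < N', ∀ j < N', i ≠ j → ∀ a b, Y.own (w a i) ≠ Y.own (w b j) := hf4
  have hB : ∀ s : Fin 8, (s = 0 ∨ s = 2 ∨ s = 4 ∨ s = 6) → ∀ i < N', InB x (f i) (w s i) := by
    rintro s (rfl | rfl | rfl | rfl) i hi
    · exact hx0 _ (hf1 i hi)
    · exact hub _ (hf1 i hi)
    · exact hxR _ (hf1 i hi)
    · exact hxL _ (hf1 i hi)
  have hYb : ∀ s : Fin 8, (s = 1 ∨ s = 5 ∨ s = 7) → ∀ i < N', InY y (f i) (w s i) := by
    rintro s (rfl | rfl | rfl) i hi
    · exact hy0 _ (hf1 i hi)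
    · exact hyR _ (hf1 i hi)
    · exact hyL _ (hf1 i hi)
  have hlk : ∀ i < N', Y.Lk (w 2 i) (w 3 i) := fun i hi => (hd2 _ (hf1 i hi)).1.1
  have hrg : ∀ i < N', Y.Lk (w 0 i) (w 1 i) := by
    intro i hi
    have h2 := hf1 i hi
    exact hl.lk (11 * f i) (by omega)
  have hrR : ∀ i < N', Y.Lk (w 4 i) (w 5 i) := by
    intro i hi
    have h2 := hf1 i hi
    have h3 := (hd2 _ h2).2.1.2.1
    exact hl.lk (11 * f i + ρ (f i)) (by omega)
  have hrL : ∀ i < N', Y.Lk (w 6 i) (w 7 i) := by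
    intro i hi
    have h2 := hf1 i hi
    have h3 := (hd2 _ h2).2.2.1
    exact hl.lk (11 * f i + τ (f i)) (by omega)
  have hjR : ∀ i < N', Y.Dj [w 4 i, w 5 i] [w 2 i, w 3 i] := fun i hi =>
    (hd2 _ (hf1 i hi)).2.1.2.2
  have hjL : ∀ i < N', Y.Dj [w 6 i, w 7 i] [w 2 i, w 3 i] := fun i hi =>
    (hd2 _ (hf1 i hi)).2.2.2
  have huR : ∀ i < N', w 2 i < w 4 i := by
    intro i hi
    have h2 := hf1 i hi
    obtain ⟨⟨_, _, h5, _⟩, ⟨h3, h4, _⟩, _⟩ := hd2 _ h2
    have h6 := hl.inc (11 * f i + 7) (11 * f i + ρ (f i)) (by omega) (by omega)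
    exact lt_of_le_of_lt h5 h6
  have hLu : ∀ i < N', w 6 i < w 2 i := by
    intro i hi
    have h2 := hf1 i hi
    obtain ⟨⟨_, h5, _, _⟩, _, ⟨h4, _⟩⟩ := hd2 _ h2
    have h6 := hl.inc (11 * f i + τ (f i)) (11 * f i + 3) (by omega) (by omega)
    exact lt_of_lt_of_le h6 h5
  -- one shore for `v`
  have hshv : ∀ i < N', Y.sh (w 3 i) = Y.sh (w 3 0) := by
    intro i hi
    have hin : ∀ i < N', Y.sh (w 3 i) ∈ A := by
      intro i hi
      have hi' := hf1 i hi
      refine hA _ _ (hlk i hi) ?_ ?_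
      · have := hl.le (i := 0) (j := 11 * f i) (by omega) (by omega)
        exact this.trans (hub _ hi').1
      · have := hl.le (i := 11 * f i + 10) (j := 11 * n₂ - 1) (by omega) (by omega)
        exact (hub _ hi').2.trans this
    refine hg _ (hin i hi) _ (hin 0 (by omega)) ?_
    have h1 := hf3 i hi
    have h2 := hf3 0 (by omega)
    exact congrArg Prod.fst (h1.trans h2.symm)
  -- colours
  have hc1 : ∀ i < N', (x (11 * f i + 10) < w 3 i ↔ col.2.1 = true) := by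
    intro i hi
    rw [← hf3 i hi]
    exact (decide_eq_true_iff).symm
  have hc2 : ∀ i < N', (y (11 * f i) < w 3 i ↔ col.2.2 = true) := by
    intro i hi
    rw [← hf3 i hi]
    exact (decide_eq_true_iff).symm
  have hT0 : TD Y N' n₂ x y f w col.2.1 col.2.2 := by
    refine ⟨hl, h3N, hf1, hf2, fun _ => rfl, fun _ => rfl, hfam, hown, hB, hYb, hlk, hrg, hrR, hrL,
      hjR, hjL, huR, hLu, hshv, ?_, ?_⟩
    · intro i hi
      constructor
      · intro hc
        exact (hc1 i hi).2 hc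
      · intro hc
        have h4 : ¬ x (11 * f i + 10) < w 3 i := fun hcon => hc ((hc1 i hi).1 hcon)
        exact (hd2 _ (hf1 i hi)).1.2.2.2.1.resolve_right h4
    · intro i hi
      have e1 := (hd2 _ (hf1 i hi)).1.2.2.2.2
      have e2 := hc2 i hi
      constructor
      · intro hc
        rcases e1 with e | e
        · have e3 := e2.2 hc
          have e4 : w 3 i < y (11 * f i) := e.1
          exact absurd e3 (by omega)
        · exact e
      · intro hc
        rcases e1 with e | e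
        · exact e
        · exact absurd (e2.1 e.1) hc
  by_cases h3 : Near N' (w 0) (w 3)
  · exact Or.inl (hT0.caseA hY (by omega) h3)
  · by_cases h1 : Near N' (w 1) (w 3)
    · exact Or.inr (Or.inl (hT0.caseB hY (by omega) h1))
    · exact Or.inr (Or.inr (hT0.caseC hY (by omega) h3 h1))

end Sys

end EN
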