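import Pool.Agent.EN.Axioms

/-!
# Leaves with one contact; the initial state; minimal states
-/

open Relation

namespace Mdl

variable {V σ X : Type*}

section

variable {G : SimpleGraph X} {H : Host V σ} {D K : ℤ} {g : HV V σ → Option X}
  {us : Set (σ × ℕ)} {h : σ → ℕ → ℤ} {f : HV V σ → Option X} {x y z : X}

open Classical in
/-- Recolouring a set. -/
noncomputable def rcl (g : HV V σ → Option X) (κ : Set (HV V σ)) (x : X) : HV V σ → Option X :=
  fun w => if w ∈ κ then some x else g w

lemma rcl_in {κ : Set (HV V σ)} {w : HV V σ} (hw : w ∈ κ) : rcl g κ x w = some x := by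
  unfold rcl
  rw [if_pos hw]

lemma rcl_out {κ : Set (HV V σ)} {w : HV V σ} (hw : w ∉ κ) : rcl g κ x w = g w := by
  unfold rcl
  rw [if_neg hw]

/-- Number of (ordered) edges which are not realized in the page. -/
noncomputable def cc (G : SimpleGraph X) (K : ℤ) (g : HV V σ → Option X) (us : Set (σ × ℕ)) : ℕ :=
  {p : X × X | G.Adj p.1 p.2 ∧ ¬ Ein K g us p.1 p.2}.ncard

/-- **(A2)**, one contact: the connector and the left part of the column are given to `x`. -/
theorem State.leaf1 [Finite X] (hS : State G H D K g us) {s : σ} {i : ℕ}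
    (hi : (s, i) ∈ us) (hone : One H D K g us s i y)
    (h1 : g (Sum.inr (s, i, -K)) = some y) {v₀ : V} (hv₀ : g (Sum.inl v₀) = some y)
    (hg : H.gd v₀) (hv₁ : (Sum.inl v₀ : HV V σ) ∉ Cp H D K g y (Sum.inr (s, i, -K)))
    (hyx : G.Adj y x) (hE : ¬ Ein K g us y x) {p q : HV V σ}
    (hp : p ∈ Cp H D K g y (Sum.inr (s, i, -K))) (hq : Out K q) (hpq : H.Adj D p q)
    (hgq : g q = some x)
    (hct : ∀ z, z ≠ x → G.Adj y z → Ein K g us y z ∨ ∃ u v,
      u ∉ Cp H D K g y (Sum.inr (s, i, -K)) ∧
      Out K u ∧ Out K v ∧ H.Adj D u v ∧ g u = some y ∧ g v = some z) :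
    State G H D K (rcl g (Cp H D K g y (Sum.inr (s, i, -K))) x) us ∧
      cc G K (rcl g (Cp H D K g y (Sum.inr (s, i, -K))) x) us < cc G K g us := by
  classical
  have h2 := leaf_full hS hone h1 hv₀ hv₁
  set κ := Cp H D K g y (Sum.inr (s, i, -K)) with hκ
  have hκc : ∀ w ∈ κ, g w = some y := fun w hw => Cp.col h1 hw
  have hκo : ∀ w ∈ κ, Out K w := fun w hw => Cp.out out_left hw
  have hno : ∀ w z, z ≠ y → g w = some z → w ∉ κ := by
    intro w z hz hw hwk
    rw [hκc w hwk, Option.some.injEq] at hw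
    exact hz hw.symm
  set g' := rcl g κ x with hg'
  have hin : ∀ w ∈ κ, g' w = some x := fun w hw => rcl_in hw
  have hout : ∀ w, w ∉ κ → g' w = g w := fun w hw => rcl_out hw
  have hcol : ∀ w z, z ≠ y → g w = some z → g' w = some z := by
    intro w z hz hw
    rw [hout w (hno w z hz hw)]
    exact hw
  have hL : (Sum.inr (s, i, -K) : HV V σ) ∈ κ := ReflTransGen.refl
  have hR : ∀ s' c', (s', c') ∈ us → (Sum.inr (s', c', K) : HV V σ) ∉ κ :=
    fun s' c' hc => (hone s' c' hc).2
  have hLn : ∀ s' c', (s', c') ∈ us → (s', c') ≠ (s, i) →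
      (Sum.inr (s', c', -K) : HV V σ) ∉ κ := fun s' c' hc hne h3 => hne ((hone s' c' hc).1 h3)
  have hOw : ∀ s' c' z, Ow K g us s' c' z → Ow K g' us s' c' z := by
    intro s' c' z hz
    refine ⟨hz.1, ?_⟩
    rw [hout _ (hR s' c' hz.1)]
    rcases hz.2 with h3 | h3
    · by_cases h5 : (s', c') = (s, i)
      · obtain ⟨rfl, rfl⟩ := Prod.mk.inj h5
        right
        rw [h2, ← h1]
        exact h3
      · left
        rw [hout _ (hLn s' c' hz.1 h5)]
        exact h3
    · exact Or.inr h3
  have hEin : ∀ a b, Ein K g us a b → Ein K g' us a b := by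
    rintro a b ⟨s', i', j', h3, h5, h6⟩
    exact ⟨s', i', j', h3, hOw _ _ _ h5, hOw _ _ _ h6⟩
  have hEyx : Ein K g' us y x := by
    refine ⟨s, i, i, Or.inl rfl, ⟨hi, Or.inr ?_⟩, ⟨hi, Or.inl (hin _ hL)⟩⟩
    rw [hout _ (hR s i hi)]
    exact h2
  have hxy : x ≠ y := hyx.ne'
  -- connections of the other classes
  have hmono : ∀ z u v, z ≠ y → St H D K g us z u v → St H D K g' us z u v := by
    intro z u v hz huv
    induction huv with
    | refl => exact ReflTransGen.refl
    | tail _ hbc ih =>
      refine ReflTransGen.tail ih ?_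
      rcases hbc with h3 | ⟨s', c', h3, h5, h6, h7⟩
      · exact Or.inl ⟨h3.1, h3.2.1, h3.2.2.1, hcol _ z hz h3.2.2.2.1, hcol _ z hz h3.2.2.2.2⟩
      · exact Or.inr ⟨s', c', h3, hcol _ z hz h5, hcol _ z hz h6, h7⟩
  refine ⟨⟨?_, ?_, ?_, ?_, ?_, ?_⟩, ?_⟩
  · intro s' c' b hn
    apply hS.sup
    by_cases hw : (Sum.inr (s', c', b) : HV V σ) ∈ κ
    · rw [hκc _ hw]; simp
    · rw [← hout _ hw]; exact hn
  · refine hS.fin.subset ?_
    intro w hw
    change g w ≠ none
    by_cases hw' : w ∈ κ
    · rw [hκc _ hw']; simp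
    · rw [← hout _ hw']; exact hw
  · intro s' c' hc
    by_cases h3 : (s', c') = (s, i)
    · obtain ⟨rfl, rfl⟩ := Prod.mk.inj h3
      exact ⟨x, y, hin _ hL, by rw [hout _ (hR _ _ hc)]; exact h2, Or.inr hyx.symm⟩
    · obtain ⟨a, b, h5, h6, h7⟩ := hS.own s' c' hc
      exact ⟨a, b, by rw [hout _ (hLn _ _ hc h3)]; exact h5,
        by rw [hout _ (hR _ _ hc)]; exact h6, h7⟩
  · intro a u v hu hv hgu hgv
    by_cases hay : a = y
    · subst hay
      have h3 : u ∉ κ := by
        intro h3
        rw [hin u h3, Option.some.injEq] at hgu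
        exact hxy hgu
      have h5 : v ∉ κ := by
        intro h5
        rw [hin v h5, Option.some.injEq] at hgv
        exact hxy hgv
      rw [hout u h3] at hgu
      rw [hout v h5] at hgv
      have h6 := (leaf_split hone h3 (hS.con a u v hu hv hgu hgv)).1 h5
      have key : ∀ w, St' H D K g us s i a u w → w ∉ κ ∧ St H D K g' us a u w := by
        intro w hw
        unfold St' at hw
        induction hw with
        | refl => exact ⟨h3, ReflTransGen.refl⟩
        | tail _ hbc ih =>
          rename_i b c _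
          rcases hbc with h7 | ⟨s', c', h7, h8, h9, h10⟩
          · have h11 : c ∉ κ := by
              intro h11
              exact ih.1 (Cp.step h11 h7.symm)
            refine ⟨h11, ReflTransGen.tail ih.2 (Or.inl ⟨h7.1, h7.2.1, h7.2.2.1, ?_, ?_⟩)⟩
            · rw [hout _ ih.1]; exact h7.2.2.2.1
            · rw [hout _ h11]; exact h7.2.2.2.2
          · have h11 := hLn s' c' h7.1 (fun h12 => h7.2 (by rw [h12]; rfl))
            have h12 := hR s' c' h7.1
            have h13 : Jmp K g' us a b c := by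
              refine ⟨s', c', h7.1, ?_, ?_, h10⟩
              · rw [hout _ h11]; exact h8
              · rw [hout _ h12]; exact h9
            refine ⟨?_, ReflTransGen.tail ih.2 (Or.inr h13)⟩
            rcases h10 with ⟨_, rfl⟩ | ⟨_, rfl⟩
            · exact h12
            · exact h11
      exact (key v h6).2
    · by_cases hax : a = x
      · subst hax
        -- all vertices of the class are connected to `q`
        have hqo : g' q = some a := hcol q a hay hgq
        have hpk : OA H D K g' a p q :=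
          ⟨hκo p hp, hq, hpq, hin p hp, hqo⟩
        have hk : ∀ w ∈ κ, St H D K g' us a (Sum.inr (s, i, -K)) w := by
          intro w hw
          have hw' : ReflTransGen (OA H D K g y) (Sum.inr (s, i, -K)) w := hw
          clear hw
          induction hw' with
          | refl => exact ReflTransGen.refl
          | tail hab hbc ih =>
            exact ReflTransGen.tail ih (Or.inl ⟨hbc.1, hbc.2.1, hbc.2.2.1, hin _ hab,
              hin _ (ReflTransGen.tail hab hbc)⟩)
        have hsym : ∀ u v, St H D K g' us a u v → St H D K g' us a v u := by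
          intro u v huv
          induction huv with
          | refl => exact ReflTransGen.refl
          | tail _ hbc ih =>
            refine ReflTransGen.head ?_ ih
            rcases hbc with h3 | ⟨s', c', h3, h5, h6, h7⟩
            · exact Or.inl h3.symm
            · refine Or.inr ⟨s', c', h3, h5, h6, ?_⟩
              rcases h7 with ⟨h7, h8⟩ | ⟨h7, h8⟩
              · exact Or.inr ⟨h8, h7⟩
              · exact Or.inl ⟨h8, h7⟩
        have hall : ∀ w, Out K w → g' w = some a → St H D K g' us a w q := by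
          intro w hw hgw
          by_cases hwk : w ∈ κ
          · refine ReflTransGen.trans (hsym _ _ (hk w hwk)) ?_
            exact ReflTransGen.tail (hk p hp) (Or.inl hpk)
          · rw [hout w hwk] at hgw
            exact hmono a w q hay (hS.con a w q hw hq hgw hgq)
        exact ReflTransGen.trans (hall u hu hgu) (hsym _ _ (hall v hv hgv))
      · have h3 : u ∉ κ := by
          intro h3
          rw [hin u h3, Option.some.injEq] at hgu
          exact hax hgu.symm
        have h5 : v ∉ κ := by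
          intro h5
          rw [hin v h5, Option.some.injEq] at hgv
          exact hax hgv.symm
        rw [hout u h3] at hgu
        rw [hout v h5] at hgv
        exact hmono a u v hay (hS.con a u v hu hv hgu hgv)
  · -- edges at `y`
    have key : ∀ b, G.Adj y b → Ein K g' us y b ∨
        ∃ u v, Out K u ∧ Out K v ∧ H.Adj D u v ∧ g' u = some y ∧ g' v = some b := by
      intro b hyb
      by_cases hbx : b = x
      · rw [hbx]
        exact Or.inl hEyx
      · rcases hct b hbx hyb with h3 | ⟨u, v, h3, h5, h6, h7, h8, h9⟩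
        · exact Or.inl (hEin y b h3)
        · exact Or.inr ⟨u, v, h5, h6, h7, by rw [hout u h3]; exact h8,
            hcol v b hyb.ne' h9⟩
    intro a b hab
    by_cases hay : a = y
    · subst hay
      exact key b hab
    · by_cases hby : b = y
      · subst hby
        rcases key a hab.symm with h3 | ⟨u, v, h3, h5, h6, h7, h8⟩
        · exact Or.inl h3.symm
        · exact Or.inr ⟨v, u, h5, h3, h6.symm, h8, h7⟩
      · rcases hS.edg a b hab with h3 | ⟨u, v, h3, h5, h6, h7, h8⟩
        · exact Or.inl (hEin a b h3)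
        · exact Or.inr ⟨u, v, h3, h5, h6, hcol u a hay h7, hcol v b hby h8⟩
  · intro a
    by_cases hay : a = y
    · rw [hay]
      exact ⟨v₀, by rw [hout _ hv₁]; exact hv₀, hg⟩
    · obtain ⟨v, h3, h5⟩ := hS.gnd a
      exact ⟨v, hcol _ a hay h3, h5⟩
  · unfold cc
    refine Set.ncard_lt_ncard ?_ (Set.toFinite _)
    rw [Set.ssubset_iff_of_subset]
    · exact ⟨(y, x), ⟨hyx, hE⟩, fun h3 => h3.2 hEyx⟩
    · rintro ⟨a, b⟩ ⟨h3, h5⟩
      exact ⟨h3, fun h6 => h5 (hEin a b h6)⟩

/-! ### The initial state -/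

/-- Neighbouring used columns of a minimal straight model have different colours. -/
theorem Model.dif (hf : Model G H D f) (hK : 0 < K) (hKD : K ≤ D)
    (hst : ∀ s c (b : ℤ), -K ≤ b → b ≤ K → f (Sum.inr (s, c, b)) = f (Sum.inr (s, c, 0)))
    (hmin : ∀ f', Model G H D f' → mm f ≤ mm f') :
    ∀ s c y, c + 1 < H.len s → f (Sum.inr (s, c, 0)) = some y →
      f (Sum.inr (s, c + 1, 0)) ≠ some y := by
  intro s c y hc h1 h2
  obtain ⟨v₀, hv₀, hg⟩ := hf.gnd y
  set u : HV V σ := Sum.inr (s, c + 1, 0) with hu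
  have hcol1 : ∀ b : ℤ, -1 ≤ b → b ≤ 1 → f (Sum.inr (s, c, b)) = some y := by
    intro b h3 h4
    rw [hst s c b (by omega) (by omega)]
    exact h1
  have hcol2 : ∀ b : ℤ, -1 ≤ b → b ≤ 1 → f (Sum.inr (s, c + 1, b)) = some y := by
    intro b h3 h4
    rw [hst s (c + 1) b (by omega) (by omega)]
    exact h2
  have hne : ∀ b : ℤ, b ≠ 0 → (Sum.inr (s, c + 1, b) : HV V σ) ≠ u := by
    intro b hb h3
    simp only [hu, Sum.inr.injEq, Prod.mk.injEq] at h3
    exact hb h3.2.2
  have hne' : ∀ b : ℤ, (Sum.inr (s, c, b) : HV V σ) ≠ u := by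
    intro b h3
    simp only [hu, Sum.inr.injEq, Prod.mk.injEq] at h3
    omega
  -- the detour
  have hdet : Cn H D (del f u) y (Sum.inr (s, c + 1, -1)) (Sum.inr (s, c + 1, 1)) := by
    have e1 : Cn H D (del f u) y (Sum.inr (s, c, -1)) (Sum.inr (s, c + 1, -1)) :=
      Cn.one (Host.hor hc (by omega) (by omega) (by omega))
        (by rw [del_ne (hne' _)]; exact hcol1 _ (by omega) (by omega))
        (by rw [del_ne (hne _ (by omega))]; exact hcol2 _ (by omega) (by omega))
    have e2 : Cn H D (del f u) y (Sum.inr (s, c, 1)) (Sum.inr (s, c + 1, 1)) :=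
      Cn.one (Host.hor hc (by omega) (by omega) (by omega))
        (by rw [del_ne (hne' _)]; exact hcol1 _ (by omega) (by omega))
        (by rw [del_ne (hne _ (by omega))]; exact hcol2 _ (by omega) (by omega))
    have e3 : Cn H D (del f u) y (Sum.inr (s, c, -1)) (Sum.inr (s, c, 1)) := by
      refine Cn.vert' (by omega) (by omega) (by omega) (by omega) ?_
      intro b h3 h4
      rw [del_ne (hne' _)]
      exact hcol1 b h3 h4
    exact (e1.symm.trans e3).trans e2
  -- neighbours of `u`
  have hnb : ∀ w, H.Adj D w u → w = Sum.inr (s, c + 1, -1) ∨ w = Sum.inr (s, c + 1, 1) := by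
    intro w hw
    rcases w with v | ⟨s', c', b'⟩
    · rcases hw with ⟨_, h3⟩ | h3
      · rcases h3 with ⟨h3, _⟩ | ⟨h3, _⟩ <;> omega
      · exact h3.elim
    · rcases hw with ⟨h3, _, _, _, h4⟩ | ⟨h3, _, _, _, h4⟩
      · rcases h4 with ⟨h4, h5⟩ | ⟨_, h5, h6⟩
        · left
          rw [h3, h4]
          have : b' = -1 := by omega
          rw [this]
        · omega
      · rcases h4 with ⟨h4, h5⟩ | ⟨_, h5, h6⟩
        · right
          rw [← h3, ← h4, h5]
          simp
        · omega
  have hlift : ∀ w, Cn H D f y (Sum.inl v₀) w →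
      (w ≠ u → Cn H D (del f u) y (Sum.inl v₀) w) ∧
      (w = u → Cn H D (del f u) y (Sum.inl v₀) (Sum.inr (s, c + 1, 1))) := by
    intro w hw
    induction hw with
    | refl => exact ⟨fun _ => ReflTransGen.refl, fun h3 => absurd h3 (by simp [hu])⟩
    | tail _ hbc ih =>
      rename_i b d _
      by_cases hb : b = u
      · have h3 := ih.2 hb
        refine ⟨fun hd => ?_, fun _ => h3⟩
        have h4 : H.Adj D d u := by rw [← hb]; exact hbc.1.symm
        rcases hnb d h4 with rfl | rfl
        · exact h3.trans hdet.symm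
        · exact h3
      · have h3 := ih.1 hb
        refine ⟨fun hd => ?_, fun hd => ?_⟩
        · refine h3.trans (Cn.one hbc.1 ?_ ?_)
          · rw [del_ne hb]; exact hbc.2.1
          · rw [del_ne hd]; exact hbc.2.2
        · have h4 : H.Adj D b u := by rw [← hd]; exact hbc.1
          rcases hnb b h4 with rfl | rfl
          · exact h3.trans hdet
          · exact h3
  obtain ⟨f', h3, h4⟩ := hf.drop (s := s) (c := c + 1) (y := y) (v₀ := v₀) h2 hv₀ hg (by
    intro z hyz
    obtain ⟨v, w, h5, h6, h7⟩ := hf.edg y z hyz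
    refine ⟨v, w, ?_, h5, h7⟩
    refine (hlift v (hf.con y _ _ hv₀ h6)).1 ?_
    intro h8
    rw [h8] at h5
    rcases hnb w h5.symm with rfl | rfl
    · rw [hcol2 _ (by omega) (by omega), Option.some.injEq] at h7
      exact hyz.ne h7
    · rw [hcol2 _ (by omega) (by omega), Option.some.injEq] at h7
      exact hyz.ne h7)
  exact absurd h4 (not_lt.2 (hmin f' h3))

/-- A straight model in which neighbouring used columns have different colours is a state. -/
theorem Model.state' (hf : Model G H D f) (hK : 0 < K) (hKD : K ≤ D)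
    (hst : ∀ s c (b : ℤ), -K ≤ b → b ≤ K → f (Sum.inr (s, c, b)) = f (Sum.inr (s, c, 0)))
    (hdif : ∀ s c y, c + 1 < H.len s → f (Sum.inr (s, c, 0)) = some y →
      f (Sum.inr (s, c + 1, 0)) ≠ some y) :
    State G H D K f {p : σ × ℕ | f (Sum.inr (p.1, p.2, 0)) ≠ none} := by
  classical
  -- horizontal contacts in the middle
  have hLr : ∀ s c, (s, c) ∈ {p : σ × ℕ | f (Sum.inr (p.1, p.2, 0)) ≠ none} →
      ∃ y, f (Sum.inr (s, c, -K)) = some y ∧ f (Sum.inr (s, c, K)) = some y ∧
        f (Sum.inr (s, c, 0)) = some y := by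
    intro s c hc
    obtain ⟨y, hy⟩ := Option.ne_none_iff_exists'.1 hc
    exact ⟨y, by rw [hst s c (-K) (le_refl _) (by omega)]; exact hy,
      by rw [hst s c K (by omega) (le_refl _)]; exact hy, hy⟩
  have hmid : ∀ s c (b : ℤ), ¬ Out K (Sum.inr (s, c, b) : HV V σ) → -K < b ∧ b < K := by
    intro s c b h1
    by_contra h2
    apply h1
    change b ≤ -K ∨ K ≤ b
    omega
  -- classification of the edges
  have hcls : ∀ u v, H.Adj D u v → ¬ (Out K u ∧ Out K v) →
      ∃ s c c' b b', u = Sum.inr (s, c, b) ∧ v = Sum.inr (s, c', b') ∧ -K ≤ b ∧ b ≤ K ∧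
        -K ≤ b' ∧ b' ≤ K ∧ (c = c' ∨ ((c' = c + 1 ∧ c + 1 < H.len s) ∨
          (c = c' + 1 ∧ c' + 1 < H.len s))) := by
    have key : ∀ u v, H.E D u v → ¬ (Out K u ∧ Out K v) →
      ∃ s c c' b b', u = Sum.inr (s, c, b) ∧ v = Sum.inr (s, c', b') ∧ -K ≤ b ∧ b ≤ K ∧
        -K ≤ b' ∧ b' ≤ K ∧ (c = c' ∨ ((c' = c + 1 ∧ c + 1 < H.len s) ∨
          (c = c' + 1 ∧ c' + 1 < H.len s))) := by
      rintro (u | ⟨s, c, b⟩) (v | ⟨s', c', b'⟩) h1 h2
      · exact absurd ⟨trivial, trivial⟩ h2
      · exfalso
        apply h2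
        refine ⟨trivial, ?_⟩
        obtain ⟨_, h1⟩ := h1
        rcases h1 with ⟨h1, _⟩ | ⟨h1, _⟩
        · left; omega
        · right; omega
      · exact h1.elim
      · obtain ⟨rfl, h3, h4, h5, h6⟩ := h1
        have h7 : (-K < b ∧ b < K) ∨ (-K < b' ∧ b' < K) := by
          by_contra h8
          apply h2
          have h9 : ¬ (-K < b ∧ b < K) ∧ ¬ (-K < b' ∧ b' < K) :=
            ⟨fun h => h8 (Or.inl h), fun h => h8 (Or.inr h)⟩
          refine ⟨?_, ?_⟩
          · change b ≤ -K ∨ K ≤ b
            omega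
          · change b' ≤ -K ∨ K ≤ b'
            omega
        refine ⟨s, c, c', b, b', rfl, rfl, ?_, ?_, ?_, ?_, ?_⟩
        · omega
        · omega
        · omega
        · omega
        · rcases h6 with ⟨h6, _⟩ | ⟨h6, _, _⟩
          · exact Or.inl h6
          · exact Or.inr (Or.inl ⟨h6, by omega⟩)
    intro u v h1 h2
    rcases h1 with h1 | h1
    · exact key u v h1 h2
    · obtain ⟨s, c, c', b, b', h3, h4, h5, h6, h7, h8, h9⟩ := key v u h1 (fun h3 => h2 h3.symm)
      refine ⟨s, c', c, b', b, h4, h3, h7, h8, h5, h6, ?_⟩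
      rcases h9 with h9 | h9 | h9
      · exact Or.inl h9.symm
      · exact Or.inr (Or.inr h9)
      · exact Or.inr (Or.inl h9)
  have hf0 : ∀ s c (b : ℤ) y, -K ≤ b → b ≤ K → f (Sum.inr (s, c, b)) = some y →
      f (Sum.inr (s, c, 0)) = some y := by
    intro s c b y h1 h2 h3
    rw [← hst s c b h1 h2]
    exact h3
  refine ⟨hf.sup, hf.fin, ?_, ?_, ?_, hf.gnd⟩
  · intro s c hc
    obtain ⟨y, h1, h2, _⟩ := hLr s c hc
    exact ⟨y, y, h1, h2, Or.inl rfl⟩
  · -- connections
    intro y u v hu hv hgu hgv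
    set us := {p : σ × ℕ | f (Sum.inr (p.1, p.2, 0)) ≠ none} with hus
    -- representative in the outside
    set ρ : HV V σ → HV V σ := fun w => match w with
      | Sum.inl v => Sum.inl v
      | Sum.inr (s, c, b) => if b < K then (if b ≤ -K then Sum.inr (s, c, b) else
          Sum.inr (s, c, -K)) else Sum.inr (s, c, b) with hρ
    have hρo : ∀ w, Out K w → ρ w = w := by
      rintro (w | ⟨s, c, b⟩) hw
      · rfl
      · have hw' : b ≤ -K ∨ K ≤ b := hw
        simp only [hρ]
        split_ifs with h1 h2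
        · rfl
        · omega
        · rfl
    have hρm : ∀ s c (b : ℤ), -K ≤ b → b < K → ρ (Sum.inr (s, c, b)) = Sum.inr (s, c, -K) := by
      intro s c b h1 h2
      simp only [hρ]
      rw [if_pos h2]
      split_ifs with h3
      · have : b = -K := by omega
        rw [this]
      · rfl
    have hcolumn : ∀ s c (b b' : ℤ), -K ≤ b → b ≤ K → -K ≤ b' → b' ≤ K →
        f (Sum.inr (s, c, b)) = some y →
        St H D K f us y (ρ (Sum.inr (s, c, b))) (ρ (Sum.inr (s, c, b'))) := by
      intro s c b b' h1 h2 h3 h4 h5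
      have h6 := hf0 s c b y h1 h2 h5
      have hcu : (s, c) ∈ us := by
        change f (Sum.inr (s, c, 0)) ≠ none
        rw [h6]; simp
      have h7 : f (Sum.inr (s, c, -K)) = some y := by
        rw [hst s c (-K) (le_refl _) (by omega)]; exact h6
      have h8 : f (Sum.inr (s, c, K)) = some y := by
        rw [hst s c K (by omega) (le_refl _)]; exact h6
      rcases lt_or_ge b K with h9 | h9
      · rw [hρm s c b h1 h9]
        rcases lt_or_ge b' K with h10 | h10
        · rw [hρm s c b' h3 h10]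
          exact ReflTransGen.refl
        · have e : b' = K := by omega
          rw [e, hρo _ out_right]
          exact ReflTransGen.single (Or.inr ⟨s, c, hcu, h7, h8, Or.inl ⟨rfl, rfl⟩⟩)
      · have e : b = K := by omega
        rw [e, hρo _ out_right]
        rcases lt_or_ge b' K with h10 | h10
        · rw [hρm s c b' h3 h10]
          exact ReflTransGen.single (Or.inr ⟨s, c, hcu, h7, h8, Or.inr ⟨rfl, rfl⟩⟩)
        · have e' : b' = K := by omega
          rw [e', hρo _ out_right]
          exact ReflTransGen.refl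
    have key : ∀ w, Cn H D f y u w → St H D K f us y (ρ u) (ρ w) := by
      intro w hw
      induction hw with
      | refl => exact ReflTransGen.refl
      | tail _ hbc ih =>
        rename_i b c _
        refine ReflTransGen.trans ih ?_
        by_cases ho : Out K b ∧ Out K c
        · rw [hρo _ ho.1, hρo _ ho.2]
          exact ReflTransGen.single (Or.inl ⟨ho.1, ho.2, hbc⟩)
        · obtain ⟨s, d, d', e, e', h1, h2, h3, h4, h5, h6, h7⟩ := hcls b c hbc.1 ho
          subst h1 h2
          have h8 := hf0 s d e y h3 h4 hbc.2.1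
          have h9 := hf0 s d' e' y h5 h6 hbc.2.2
          rcases h7 with rfl | ⟨rfl, h7⟩ | ⟨rfl, h7⟩
          · exact hcolumn s d e e' h3 h4 h5 h6 hbc.2.1
          · exact absurd h9 (hdif s d y h7 h8)
          · exact absurd h8 (hdif s d' y h7 h9)
    have h1 := key v (hf.con y u v hgu hgv)
    rw [hρo _ hu, hρo _ hv] at h1
    exact h1
  · intro y z hyz
    obtain ⟨u, v, h1, h2, h3⟩ := hf.edg y z hyz
    by_cases ho : Out K u ∧ Out K v
    · exact Or.inr ⟨u, v, ho.1, ho.2, h1, h2, h3⟩
    · left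
      obtain ⟨s, d, d', e, e', h4, h5, h6, h7, h8, h9, h10⟩ := hcls u v h1 ho
      subst h4 h5
      have h11 := hf0 s d e y h6 h7 h2
      have h12 := hf0 s d' e' z h8 h9 h3
      have ow : ∀ c a, f (Sum.inr (s, c, 0)) = some a →
          Ow K f {p : σ × ℕ | f (Sum.inr (p.1, p.2, 0)) ≠ none} s c a := by
        intro c a hca
        refine ⟨?_, Or.inl ?_⟩
        · change f (Sum.inr (s, c, 0)) ≠ none
          rw [hca]; simp
        · rw [hst s c (-K) (le_refl _) (by omega)]; exact hca
      rcases h10 with rfl | ⟨rfl, h10⟩ | ⟨rfl, h10⟩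
      · rw [h11, Option.some.injEq] at h12
        exact absurd h12 hyz.ne
      · refine ⟨s, d, d + 1, Or.inr (Or.inl ?_), ow _ _ h11, ow _ _ h12⟩
        exact ⟨by omega, (ow _ _ h11).1, (ow _ _ h12).1, fun k hk hk' => by omega⟩
      · refine ⟨s, d' + 1, d', Or.inr (Or.inr ?_), ow _ _ h11, ow _ _ h12⟩
        exact ⟨by omega, (ow _ _ h12).1, (ow _ _ h11).1, fun k hk hk' => by omega⟩

/-- A minimal straight model is a state. -/
theorem Model.state (hf : Model G H D f) (hK : 0 < K) (hKD : K ≤ D)
    (hst : ∀ s c (b : ℤ), -K ≤ b → b ≤ K → f (Sum.inr (s, c, b)) = f (Sum.inr (s, c, 0)))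
    (hmin : ∀ f', Model G H D f' → mm f ≤ mm f') :
    State G H D K f {p : σ × ℕ | f (Sum.inr (p.1, p.2, 0)) ≠ none} :=
  hf.state' hK hKD hst (hf.dif hK hKD hst hmin)

end

end Mdl
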