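import Pool.Agent.EN.LinkR
import Pool.Agent.EN.LinkDef2

/-!
# Legs (rows F4, F4b, F4c of LINK, helper8)
-/

open Set
open scoped Matroid

namespace EN

open BIC Gad K4R

variable {α V : Type*}

/-- **Row F4.** From weak exposure to legs (`Grid.rooted`): disjoint connected sets `U c`,
`c ∈ Cl W`, `W` large, inside of `V₀`, neighbours are adjacent; every `U c` contains a vertex
`P (x c, b)` of a page, the column `x c` between the levels `b` and `a₀` lies in `V₀` and avoids `Z`;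
the levels `a₀ + 1, …, a` of the page over `[l, r]` lie in `V₀` and avoid `Z`; `a₀ + m ≤ a`.
Then a subgrid of side `m` has legs to `m` different columns at level `a`. -/
theorem legs {S : Set α} {ends : α → Sym2 V} {P : ℕ × ℕ → V} {l r n a₀ a b m W : ℕ} {V₀ Z : Set V}
    (hP : Page S ends P l r n) (hm : 1 ≤ m) (hW : (4 * m + 1) * (3 * m) + 1 ≤ W)
    (hb : b ≤ a₀) (haa : a₀ + m ≤ a) (han : a ≤ n) (hV : V₀.Finite)
    (hlane : ∀ x j, l ≤ x → x ≤ r → a₀ < j → j ≤ a → P (x, j) ∈ V₀ ∧ P (x, j) ∉ Z)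
    (U : ℕ × ℕ → Set V) (hU : ∀ c ∈ Cl W, U c ⊆ V₀ ∧ VConn S ends (U c) ∧ Disjoint (U c) Z)
    (hd : ∀ c ∈ Cl W, ∀ c' ∈ Cl W, c ≠ c' → Disjoint (U c) (U c'))
    (hN : ∀ c c', Nb W c c' → Lnk S ends (U c) (U c')) (x : ℕ × ℕ → ℕ)
    (hx : ∀ c ∈ Cl W, l ≤ x c ∧ x c ≤ r ∧ P (x c, b) ∈ U c ∧
      ∀ j, b ≤ j → j ≤ a₀ → P (x c, j) ∈ V₀ ∧ P (x c, j) ∉ Z) :
    ∃ (ι : ℕ × ℕ → ℕ × ℕ) (G : ℕ → Set V) (y : ℕ → ℕ),
      (∀ c ∈ Cl m, ι c ∈ Cl W) ∧ InjOn ι (Cl m) ∧ (∀ c c', Nb m c c' → Nb W (ι c) (ι c')) ∧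
      (∀ i < m, G i ⊆ V₀ ∧ VConn S ends (G i) ∧ Disjoint (G i) Z ∧ (G i ∩ U (ι (0, i))).Nonempty ∧
        (∀ c ∈ Cl m, c ≠ (0, i) → Disjoint (G i) (U (ι c))) ∧ l ≤ y i ∧ y i ≤ r ∧
        P (y i, a) ∈ G i) ∧
      ∀ i < m, ∀ j < m, i ≠ j → Disjoint (G i) (G j) ∧ y i ≠ y j := by
  classical
  have hmul : 5 * (3 * m) ≤ (4 * m + 1) * (3 * m) := Nat.mul_le_mul_right _ (by omega)
  have hmW : m ≤ W := by omega
  have hinj : ∀ y j y' j', l ≤ y → y ≤ r → j ≤ n → l ≤ y' → y' ≤ r → j' ≤ n →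
      P (y, j) = P (y', j') → y = y' ∧ j = j' := by
    intro y j y' j' h1 h2 h3 h4 h5 h6 h7
    have := hP.inj (y, j) (y', j') h1 h2 h3 h4 h5 h6 h7
    exact Prod.mk.inj this
  have hxi : ∀ c ∈ Cl W, ∀ c' ∈ Cl W, x c = x c' → c = c' := by
    intro c hc c' hc' h
    by_contra hne
    have h1 := (hx c hc).2.2.1
    have h2 := (hx c' hc').2.2.1
    rw [← h] at h2
    exact (disjoint_left.1 (hd c hc c' hc' hne)) h1 h2
  set R : Set V := V₀ \ Z with hR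
  have hRf : R.Finite := hV.subset sdiff_subset
  have hUR : ∀ c ∈ Cl W, U c ⊆ R := fun c hc v hv =>
    ⟨(hU c hc).1 hv, fun hz => (disjoint_left.1 (hU c hc).2.2) hv hz⟩
  have c0 : ∀ i : Fin m, ((0, (i : ℕ)) : ℕ × ℕ) ∈ Cl W := fun i =>
    ⟨by simp only; omega, by have := i.2; simp only; omega⟩
  set ρ : Fin m → V := fun i => P (x (0, i), a) with hρ
  have hρinj : Function.Injective ρ := by
    intro i j hij
    have h1 := (hinj _ _ _ _ (hx _ (c0 i)).1 (hx _ (c0 i)).2.1 han (hx _ (c0 j)).1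
      (hx _ (c0 j)).2.1 han hij).1
    exact Fin.ext (Prod.mk.inj (hxi _ (c0 i) _ (c0 j) h1)).2
  have hlaneR : ∀ y j, l ≤ y → y ≤ r → a₀ < j → j ≤ a → P (y, j) ∈ R := fun y j h1 h2 h3 h4 =>
    hlane y j h1 h2 h3 h4
  have hρmem : ∀ i, ρ i ∈ R := fun i =>
    hlaneR _ _ (hx _ (c0 i)).1 (hx _ (c0 i)).2.1 (by omega) (le_refl _)
  have hsep : ∀ T : Finset V, T.card < m → ∃ (i : Fin m), ∃ c ∈ Cl W,
      (∀ v ∈ Un (BlobR U) (RowL W c.2), v ∉ T) ∧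
      ∃ A : Set V, VConn S ends A ∧ A ⊆ R ∩ (T : Set V)ᶜ ∧ ρ i ∈ A ∧ (A ∩ U c).Nonempty := by
    intro T hT
    -- a free root column
    obtain ⟨i, hi⟩ : ∃ i : Fin m, ∀ j, a₀ < j → j ≤ a → P (x (0, i), j) ∉ T := by
      by_contra hcon
      push Not at hcon
      choose t ht1 ht2 ht3 using hcon
      have h2 : (Finset.univ.image fun i : Fin m => P (x (0, i), t i)).card ≤ T.card := by
        refine Finset.card_le_card ?_
        intro u hu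
        rw [Finset.mem_image] at hu
        obtain ⟨i, _, rfl⟩ := hu
        exact ht3 i
      rw [Finset.card_image_of_injective, Finset.card_univ, Fintype.card_fin] at h2
      · omega
      · intro i j hij
        have h1 := (hinj _ _ _ _ (hx _ (c0 i)).1 (hx _ (c0 i)).2.1 ((ht2 i).trans han)
          (hx _ (c0 j)).1 (hx _ (c0 j)).2.1 ((ht2 j).trans han) hij).1
        exact Fin.ext (Prod.mk.inj (hxi _ (c0 i) _ (c0 j) h1)).2
    -- a free lane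
    obtain ⟨s, hs⟩ : ∃ s : Fin m, ∀ y, l ≤ y → y ≤ r → P (y, a₀ + 1 + s) ∉ T := by
      by_contra hcon
      push Not at hcon
      choose y hy1 hy2 hy3 using hcon
      have h2 : (Finset.univ.image fun i : Fin m => P (y i, a₀ + 1 + i)).card ≤ T.card := by
        refine Finset.card_le_card ?_
        intro v hv
        rw [Finset.mem_image] at hv
        obtain ⟨i, _, rfl⟩ := hv
        exact hy3 i
      rw [Finset.card_image_of_injective, Finset.card_univ, Fintype.card_fin] at h2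
      · omega
      · intro i j hij
        have h3 := (hinj _ _ _ _ (hy1 i) (hy2 i) (by have := i.2; omega) (hy1 j) (hy2 j)
          (by have := j.2; omega) hij).2
        exact Fin.ext (by omega)
    -- a free row
    obtain ⟨j, hj⟩ : ∃ j : Fin m, ∀ v ∈ Un (BlobR U) (RowL W j), v ∉ T := by
      by_contra hcon
      push Not at hcon
      choose v hv1 hv2 using hcon
      have h2 : (Finset.univ.image v).card ≤ T.card := by
        refine Finset.card_le_card ?_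
        intro u hu
        rw [Finset.mem_image] at hu
        obtain ⟨i, _, rfl⟩ := hu
        exact hv2 i
      rw [Finset.card_image_of_injective, Finset.card_univ, Fintype.card_fin] at h2
      · omega
      · intro i j hij
        have hi := i.2
        have hj := j.2
        have h3 := hv1 i
        have h4 := hv1 j
        rw [hij] at h3
        obtain ⟨⟨t, a, b⟩, ⟨h5, h6, h7⟩, h8, h9⟩ := h3
        obtain ⟨⟨t', a', b'⟩, ⟨h5', h6', h7'⟩, h8', h9'⟩ := h4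
        simp only at h5 h6 h5' h6' h9 h9'
        by_contra hne
        have h10 : ((a, b) : ℕ × ℕ) ≠ (a', b') := by
          intro h10
          apply hne
          have h11 := (Prod.mk.inj h10).2
          exact Fin.ext (by omega)
        exact (disjoint_left.1 (hd (a, b) ⟨h6, by simp only; omega⟩ (a', b')
          ⟨h6', by simp only; omega⟩ h10)) h9 h9'
    have hj2 := j.2
    have hs2 := s.2
    have hjW : (j : ℕ) < W := by omega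
    -- a free column
    obtain ⟨q, hq⟩ : ∃ q : Fin m, ∀ t, b ≤ t → t ≤ a → P (x (q, j), t) ∉ T := by
      by_contra hcon
      push Not at hcon
      choose t ht1 ht2 ht3 using hcon
      have h2 : (Finset.univ.image fun q : Fin m => P (x (q, j), t q)).card ≤ T.card := by
        refine Finset.card_le_card ?_
        intro u hu
        rw [Finset.mem_image] at hu
        obtain ⟨i, _, rfl⟩ := hu
        exact ht3 i
      rw [Finset.card_image_of_injective, Finset.card_univ, Fintype.card_fin] at h2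
      · omega
      · intro i i' hij
        have c1 : ((i : ℕ), (j : ℕ)) ∈ Cl W := ⟨lt_of_lt_of_le i.2 hmW, hjW⟩
        have c2 : ((i' : ℕ), (j : ℕ)) ∈ Cl W := ⟨lt_of_lt_of_le i'.2 hmW, hjW⟩
        have h3 := (hinj _ _ _ _ (hx _ c1).1 (hx _ c1).2.1 ((ht2 i).trans han) (hx _ c2).1
          (hx _ c2).2.1 ((ht2 i').trans han) hij).1
        have h4 := hxi _ c1 _ c2 h3
        exact Fin.ext (Prod.mk.inj h4).1
    have cq : ((q : ℕ), (j : ℕ)) ∈ Cl W := ⟨lt_of_lt_of_le q.2 hmW, hjW⟩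
    obtain ⟨hx1, hx2, hx3, hx4⟩ := hx _ cq
    obtain ⟨hy1, hy2, _, _⟩ := hx _ (c0 i)
    have h1 : VConn S ends (P '' Vert (x (0, i)) (a₀ + 1 + s) a) := hP.vconn_ver hy1 hy2 han
    have h2 : VConn S ends (P '' HRow (min (x (0, i)) (x (q, j))) (max (x (0, i)) (x (q, j)))
        (a₀ + 1 + s)) := hP.vconn_hor (le_min hy1 hx1) (max_le hy2 hx2) (by omega) (by omega)
    have h3 : VConn S ends (P '' Vert (x (q, j)) b (a₀ + 1 + s)) :=
      hP.vconn_ver hx1 hx2 (by omega)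
    have h4 := vc_union (vc_union h1 h2 (c := P (x (0, i), a₀ + 1 + s))
      ⟨_, vm (le_refl _) (by omega), rfl⟩ ⟨_, EN.hm (min_le_left _ _) (le_max_left _ _), rfl⟩) h3
      (c := P (x (q, j), a₀ + 1 + s)) (Or.inr ⟨_, EN.hm (min_le_right _ _) (le_max_right _ _), rfl⟩)
      ⟨_, vm (by omega) (le_refl _), rfl⟩
    refine ⟨i, (q, j), cq, hj, _, h4, ?_, ?_, ?_⟩
    · rintro v ((⟨⟨a', b'⟩, hab, rfl⟩ | ⟨⟨a', b'⟩, hab, rfl⟩) | ⟨⟨a', b'⟩, hab, rfl⟩)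
      · rw [mem_Vert] at hab
        obtain ⟨e1, e2, e3⟩ := hab
        simp only at e1 e2 e3
        subst e1
        exact ⟨hlaneR _ _ hy1 hy2 (by omega) e3, hi _ (by omega) e3⟩
      · obtain ⟨e1, e2, e3⟩ := hab
        simp only at e1 e2 e3
        subst e1
        have e4 := le_min hy1 hx1
        have e5 := max_le hy2 hx2
        exact ⟨hlaneR _ _ (e4.trans e2) (e3.trans e5) (by omega) (by omega),
          hs _ (e4.trans e2) (e3.trans e5)⟩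
      · rw [mem_Vert] at hab
        obtain ⟨e1, e2, e3⟩ := hab
        simp only at e1 e2 e3
        subst e1
        refine ⟨?_, hq _ e2 (by omega)⟩
        by_cases hba : b' ≤ a₀
        · exact hx4 _ e2 hba
        · exact hlaneR _ _ hx1 hx2 (by omega) (by omega)
    · exact Or.inl (Or.inl ⟨_, vm (by omega) (le_refl _), rfl⟩)
    · exact ⟨P (x (q, j), b), Or.inr ⟨_, vm (le_refl _) (by omega), rfl⟩, hx3⟩
  have hW' : (4 * m + 1) * (m + 2 * m) + 1 ≤ W := by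
    have e : m + 2 * m = 3 * m := by ring
    rw [e]
    exact hW
  obtain ⟨a', ha', Q, σ, hQ, hQd⟩ := rooted_gen hRf hUR (fun c hc => (hU c hc).2.1) hd hN ρ hρinj
    hρmem hsep hm hm hW' id (injOn_id _) (fun i hi => hi)
  refine ⟨fun c => (a' + m + c.2, a' + m + (m - 1 - c.1)),
    fun i => if h : i < m then Q ⟨i, h⟩ else ∅, fun i => if h : i < m then x (0, σ ⟨i, h⟩) else 0,
    ?_, ?_, ?_, ?_, ?_⟩
  · rintro ⟨c1, c2⟩ ⟨h1, h2⟩
    simp only at h1 h2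
    exact ⟨by simp only; omega, by simp only; omega⟩
  · rintro ⟨c1, c2⟩ ⟨h1, h2⟩ ⟨c1', c2'⟩ ⟨h1', h2'⟩ h3
    simp only at h1 h2 h1' h2' h3
    have h4 := Prod.mk.inj h3
    rw [Prod.mk.injEq]
    constructor <;> omega
  · rintro ⟨c1, c2⟩ ⟨c1', c2'⟩ ⟨⟨h1, h2⟩, ⟨h1', h2'⟩, h3⟩
    simp only at h1 h2 h1' h2' h3
    refine ⟨⟨by simp only; omega, by simp only; omega⟩, ⟨by simp only; omega,
      by simp only; omega⟩, ?_⟩
    simp only
    omega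
  · intro i hi
    simp only [hi, dif_pos]
    obtain ⟨h1, h2, h3, h4, h5, h6⟩ := hQ ⟨i, hi⟩
    refine ⟨h3.trans sdiff_subset, h2, ?_, ?_, ?_, (hx _ (c0 _)).1, (hx _ (c0 _)).2.1, ?_⟩
    · rw [disjoint_left]
      exact fun v hv => (h3 hv).2
    · have e : a' + m + (m - 1 - 0) = a' + m + m - 1 := by omega
      rw [e]
      exact h5
    · rintro ⟨c1, c2⟩ ⟨hc1, hc2⟩ hne
      simp only at hc1 hc2
      rw [disjoint_left]
      intro v hv hvU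
      have h7 := h6 (c2, m - 1 - c1) ⟨hc2, by simp only; omega⟩ ⟨v, hv, hvU⟩
      have h8 := Prod.mk.inj h7
      simp only [id_eq] at h8
      apply hne
      rw [Prod.mk.injEq]
      constructor <;> omega
    · exact (h4 _).2 rfl
  · intro i hi j hj hij
    simp only [hi, hj, dif_pos]
    have h1 : (⟨i, hi⟩ : Fin m) ≠ ⟨j, hj⟩ := fun h => hij (Fin.mk.inj h)
    refine ⟨hQd _ _ h1, fun h2 => h1 ?_⟩
    have h3 := (Prod.mk.inj (hxi _ (c0 _) _ (c0 _) h2)).2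
    exact σ.injective (Fin.ext h3)

/-- Cells with legs: the cell `(0, i)` is enlarged by `G i`. -/
lemma legs_cells {S : Set α} {ends : α → Sym2 V} {m W : ℕ} {V₀ Z : Set V}
    (U : ℕ × ℕ → Set V) (hU : ∀ c ∈ Cl W, U c ⊆ V₀ ∧ VConn S ends (U c) ∧ Disjoint (U c) Z)
    (hd : ∀ c ∈ Cl W, ∀ c' ∈ Cl W, c ≠ c' → Disjoint (U c) (U c'))
    (hN : ∀ c c', Nb W c c' → Lnk S ends (U c) (U c')) (ι : ℕ × ℕ → ℕ × ℕ) (G : ℕ → Set V)
    (h1 : ∀ c ∈ Cl m, ι c ∈ Cl W) (h2 : InjOn ι (Cl m))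
    (h3 : ∀ c c', Nb m c c' → Nb W (ι c) (ι c'))
    (h4 : ∀ i < m, G i ⊆ V₀ ∧ VConn S ends (G i) ∧ Disjoint (G i) Z ∧
      (G i ∩ U (ι (0, i))).Nonempty ∧ ∀ c ∈ Cl m, c ≠ (0, i) → Disjoint (G i) (U (ι c)))
    (h5 : ∀ i < m, ∀ j < m, i ≠ j → Disjoint (G i) (G j)) :
    ∃ U' : ℕ × ℕ → Set V, (∀ c, U (ι c) ⊆ U' c) ∧ (∀ i, G i ⊆ U' (0, i)) ∧
      (∀ c ∈ Cl m, U' c ⊆ V₀ ∧ VConn S ends (U' c) ∧ Disjoint (U' c) Z) ∧
      (∀ c ∈ Cl m, ∀ c' ∈ Cl m, c ≠ c' → Disjoint (U' c) (U' c')) ∧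
      ∀ c c', Nb m c c' → Lnk S ends (U' c) (U' c') := by
  classical
  set U' : ℕ × ℕ → Set V := fun c => U (ι c) ∪ {v | c.1 = 0 ∧ v ∈ G c.2} with hU'
  have key : ∀ c ∈ Cl m, ∀ v ∈ U' c, v ∈ U (ι c) ∨ (c.1 = 0 ∧ v ∈ G c.2) := fun c _ v hv => hv
  refine ⟨U', fun c v hv => Or.inl hv, fun i v hv => Or.inr ⟨rfl, hv⟩, ?_, ?_, ?_⟩
  · rintro ⟨c1, c2⟩ ⟨hc1, hc2⟩
    simp only at hc1 hc2
    have hc : ((c1, c2) : ℕ × ℕ) ∈ Cl m := ⟨hc1, hc2⟩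
    obtain ⟨g1, g2, g3⟩ := hU _ (h1 _ hc)
    by_cases h0 : c1 = 0
    · subst h0
      obtain ⟨k1, k2, k3, ⟨v, hvG, hvU⟩, _⟩ := h4 c2 hc2
      have e : U' (0, c2) = U (ι (0, c2)) ∪ G c2 := by
        ext v
        simp [hU']
      rw [e]
      exact ⟨union_subset g1 k1, vc_union g2 k2 hvU hvG, g3.union_left k3⟩
    · have e : U' (c1, c2) = U (ι (c1, c2)) := by
        ext v
        simp [hU', h0]
      rw [e]
      exact ⟨g1, g2, g3⟩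
  · rintro ⟨c1, c2⟩ hc ⟨c1', c2'⟩ hc' hne
    rw [disjoint_left]
    rintro v (hv | ⟨h0, hv⟩) (hv' | ⟨h0', hv'⟩)
    · exact (disjoint_left.1 (hd _ (h1 _ hc) _ (h1 _ hc') (fun h => hne (h2 hc hc' h)))) hv hv'
    · simp only at h0' hv'
      subst h0'
      exact (disjoint_left.1 ((h4 c2' hc'.2).2.2.2.2 _ hc hne)) hv' hv
    · simp only at h0 hv
      subst h0
      exact (disjoint_left.1 ((h4 c2 hc.2).2.2.2.2 _ hc' hne.symm)) hv hv'
    · simp only at h0 hv h0' hv'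
      subst h0 h0'
      refine (disjoint_left.1 (h5 c2 hc.2 c2' hc'.2 ?_)) hv hv'
      rintro rfl
      exact hne rfl
  · intro c c' hcc
    exact (hN _ _ (h3 c c' hcc)).mono (le_refl _) (fun v hv => Or.inl hv) (fun v hv => Or.inl hv)

/-- **Row F4b.** -/
theorem legsZ {S : Set α} {ends : α → Sym2 V} {P : ℕ × ℕ → V} {l r n a₀ a b t W : ℕ} {V₀ Z : Set V}
    (hP : Page S ends P l r n) (ht : 1 ≤ t) (hW : (8 * t + 1) * (6 * t) + 1 ≤ W)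
    (hb : b ≤ a₀) (haa : a₀ + 2 * t ≤ a) (han : a ≤ n) (hV : V₀.Finite)
    (hlane : ∀ x j, l ≤ x → x ≤ r → a₀ < j → j ≤ a → P (x, j) ∈ V₀ ∧ P (x, j) ∉ Z)
    (hZ : Z ⊆ V₀) (hZc : VConn S ends Z)
    (U : ℕ × ℕ → Set V) (hU : ∀ c ∈ Cl W, U c ⊆ V₀ ∧ VConn S ends (U c) ∧ Disjoint (U c) Z)
    (hd : ∀ c ∈ Cl W, ∀ c' ∈ Cl W, c ≠ c' → Disjoint (U c) (U c'))
    (hN : ∀ c c', Nb W c c' → Lnk S ends (U c) (U c'))
    (hL : ∀ c ∈ Cl W, Lnk S ends (U c) Z) (x : ℕ × ℕ → ℕ)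
    (hx : ∀ c ∈ Cl W, l ≤ x c ∧ x c ≤ r ∧ P (x c, b) ∈ U c ∧
      ∀ j, b ≤ j → j ≤ a₀ → P (x c, j) ∈ V₀ ∧ P (x c, j) ∉ Z) :
    ∃ (A : ℕ → Set V) (y : ℕ → ℕ), PcZ S ends V₀ t A ∧
      (∀ i < 2 * t, l ≤ y i ∧ y i ≤ r ∧ P (y i, a) ∈ A i) ∧
      ∀ i < 2 * t, ∀ j < 2 * t, i ≠ j → y i ≠ y j := by
  have hW' : (4 * (2 * t) + 1) * (3 * (2 * t)) + 1 ≤ W := by
    have e : (4 * (2 * t) + 1) * (3 * (2 * t)) = (8 * t + 1) * (6 * t) := by ring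
    omega
  obtain ⟨ι, G, y, h1, h2, h3, h4, h5⟩ := legs hP (by omega) hW' hb haa han hV hlane U hU hd hN x hx
  obtain ⟨U', g1, g2, g3, g4, g5⟩ := legs_cells U hU hd hN ι G h1 h2 h3
    (fun i hi => ⟨(h4 i hi).1, (h4 i hi).2.1, (h4 i hi).2.2.1, (h4 i hi).2.2.2.1,
      (h4 i hi).2.2.2.2.1⟩) (fun i hi j hj hij => (h5 i hi j hj hij).1)
  refine ⟨fun i => U' (0, i), y, ⟨U', Z, hV.subset hZ, hZ, hZc, fun c hc =>
    ⟨hV.subset (g3 c hc).1, (g3 c hc).1, (g3 c hc).2.1⟩, g4, fun c hc => (g3 c hc).2.2, g5,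
    fun c hc => (hL _ (h1 c hc)).mono (le_refl _) (g1 c) (le_refl _), fun _ _ => rfl⟩, ?_, ?_⟩
  · intro i hi
    obtain ⟨_, _, _, _, _, k1, k2, k3⟩ := h4 i hi
    exact ⟨k1, k2, g2 i k3⟩
  · exact fun i hi j hj hij => (h5 i hi j hj hij).2

/-- **Row F4c.** -/
theorem legsU {M : Matroid α} {S : Set α} {ends : α → Sym2 V} {P : ℕ × ℕ → V}
    {l r n a₀ a b t W : ℕ} {V₀ : Set V}
    (hP : Page S ends P l r n) (ht : 1 ≤ t) (hW : (4 * t + 1) * (3 * t) + 1 ≤ W)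
    (hb : b ≤ a₀) (haa : a₀ + t ≤ a) (han : a ≤ n) (hV : V₀.Finite)
    (hlane : ∀ x j, l ≤ x → x ≤ r → a₀ < j → j ≤ a → P (x, j) ∈ V₀)
    (U Z : ℕ × ℕ → Set V) (τ₀ : ℕ × ℕ → Set α) (j : ℕ × ℕ → α)
    (hU : ∀ c ∈ Cl W, U c ⊆ V₀ ∧ Z c ⊆ U c ∧ VConn S ends (U c))
    (hd : ∀ c ∈ Cl W, ∀ c' ∈ Cl W, c ≠ c' → Disjoint (U c) (U c'))
    (hτ : ∀ c ∈ Cl W, Arb S ends (Z c) (τ₀ c))
    (hj : ∀ c ∈ Cl W, j c ∈ ins S ends (Z c) ∧ j c ∉ τ₀ c)
    (hI : M.Indep (⋃ c ∈ ClF W, insert (j c) (τ₀ c)))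
    (hN : ∀ c c', Nb W c c' → Lnk S ends (U c) (U c')) (x : ℕ × ℕ → ℕ)
    (hx : ∀ c ∈ Cl W, l ≤ x c ∧ x c ≤ r ∧ P (x c, b) ∈ U c ∧
      ∀ j, b ≤ j → j ≤ a₀ → P (x c, j) ∈ V₀) :
    ∃ (A : ℕ → Set V) (y : ℕ → ℕ), PcU M S ends V₀ t A ∧
      (∀ i < t, l ≤ y i ∧ y i ≤ r ∧ P (y i, a) ∈ A i) ∧
      ∀ i < t, ∀ j < t, i ≠ j → y i ≠ y j := by
  have hU0 : ∀ c ∈ Cl W, U c ⊆ V₀ ∧ VConn S ends (U c) ∧ Disjoint (U c) ∅ :=
    fun c hc => ⟨(hU c hc).1, (hU c hc).2.2, disjoint_empty _⟩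
  obtain ⟨ι, G, y, h1, h2, h3, h4, h5⟩ := legs (Z := ∅) hP ht hW hb haa han hV
    (fun x j k1 k2 k3 k4 => ⟨hlane x j k1 k2 k3 k4, notMem_empty _⟩) U hU0 hd hN x
    (fun c hc => ⟨(hx c hc).1, (hx c hc).2.1, (hx c hc).2.2.1,
      fun j k1 k2 => ⟨(hx c hc).2.2.2 j k1 k2, notMem_empty _⟩⟩)
  obtain ⟨U', g1, g2, g3, g4, g5⟩ := legs_cells U hU0 hd hN ι G h1 h2 h3
    (fun i hi => ⟨(h4 i hi).1, (h4 i hi).2.1, (h4 i hi).2.2.1, (h4 i hi).2.2.2.1,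
      (h4 i hi).2.2.2.2.1⟩) (fun i hi j hj hij => (h5 i hi j hj hij).1)
  have mem_ClF : ∀ {w : ℕ} {c : ℕ × ℕ}, c ∈ ClF w ↔ c ∈ Cl w := by
    intro w c
    simp [ClF, Cl]
  refine ⟨fun i => U' (0, i), y, ⟨U', fun c => Z (ι c), fun c => τ₀ (ι c), fun c => j (ι c),
    fun c hc => ⟨hV.subset (g3 c hc).1, (g3 c hc).1, ((hU _ (h1 c hc)).2.1).trans (g1 c),
      (g3 c hc).2.1⟩, g4, fun c hc => hτ _ (h1 c hc), fun c hc => hj _ (h1 c hc), ?_, g5,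
    fun _ _ => rfl⟩, ?_, ?_⟩
  · refine hI.subset ?_
    intro e he
    simp only [mem_iUnion] at he ⊢
    obtain ⟨c, hc, he⟩ := he
    exact ⟨ι c, mem_ClF.2 (h1 c (mem_ClF.1 hc)), he⟩
  · intro i hi
    obtain ⟨_, _, _, _, _, k1, k2, k3⟩ := h4 i hi
    exact ⟨k1, k2, g2 i k3⟩
  · exact fun i hi j hj hij => (h5 i hi j hj hij).2

end EN
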