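import Pool.Agent.EN.Legs

/-!
# Legs for exposed pictures (helper8)
-/

open Set
open scoped Matroid

namespace EN

open BIC Gad

variable {α V : Type*}

lemma ins_vconn_sub {S : Set α} {ends : α → Sym2 V} {W A : Set V}
    (hA : VConn (ins S ends W) ends A) {a : V} (ha : a ∈ A) (haW : a ∈ W) : A ⊆ W := by
  intro u hu
  have h := hA a ha u hu
  rcases Relation.ReflTransGen.cases_tail h with h | ⟨c, _, ⟨⟨e, he, hee⟩, _, _⟩⟩
  · rw [h]; exact haW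
  · exact he.2 u (by rw [hee]; exact Sym2.mem_mk_right _ _)

lemma ins_lnk_left {S : Set α} {ends : α → Sym2 V} {W A B : Set V}
    (h : Lnk (ins S ends W) ends A B) : ∃ a ∈ A, a ∈ W := by
  obtain ⟨e, he, a, ha, b, _, hab⟩ := h
  exact ⟨a, ha, he.2 a (by rw [hab]; exact Sym2.mem_mk_left _ _)⟩

lemma ins_sub {S : Set α} {ends : α → Sym2 V} {W : Set V} : ins S ends W ⊆ S := fun _ h => h.1

lemma vconn_mono_edges {S S' : Set α} {ends : α → Sym2 V} {A : Set V} (hS : S ⊆ S')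
    (hA : VConn S ends A) : VConn S' ends A := by
  intro u hu v hv
  have h := hA u hu v hv
  induction h with
  | refl => exact Relation.ReflTransGen.refl
  | tail _ h2 ih =>
    obtain ⟨⟨e, he, hee⟩, h3, h4⟩ := h2
    exact (ih h3).tail ⟨⟨e, hS he, hee⟩, h3, h4⟩

lemma PcZ.sub {S : Set α} {ends : α → Sym2 V} {V₀ : Set V} {t : ℕ} {A : ℕ → Set V}
    (h : PcZ S ends V₀ t A) : ∀ b < 2 * t, A b ⊆ V₀ := by
  obtain ⟨U, Z, _, _, _, h1, _, _, _, _, h2⟩ := h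
  intro b hb
  rw [h2 b hb]
  exact (h1 (0, b) ⟨by simp only; omega, hb⟩).2.1

lemma PcU.sub {M : Matroid α} {S : Set α} {ends : α → Sym2 V} {V₀ : Set V} {t : ℕ}
    {A : ℕ → Set V} (h : PcU M S ends V₀ t A) : ∀ b < t, A b ⊆ V₀ := by
  obtain ⟨U, Z, τ₀, j, h1, _, _, _, _, _, h2⟩ := h
  intro b hb
  rw [h2 b hb]
  exact (h1 (0, b) ⟨by simp only; omega, hb⟩).2.1

/-- The vertex set of a piece: `W` and the levels `a₀ + 1, …, a` of the page over `[l, r]`. -/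
def PcV (W : Set V) (P : ℕ × ℕ → V) (l r a₀ a : ℕ) : Set V :=
  W ∪ P '' {c | l ≤ c.1 ∧ c.1 ≤ r ∧ a₀ < c.2 ∧ c.2 ≤ a}

/-- **Legs for exposed pictures (pieces with an apex).** -/
theorem GmE.legs {S : Set α} {ends : α → Sym2 V} {P : ℕ × ℕ → V} {l r n a₀ a t w : ℕ} {W : Set V}
    (hP : Page S ends P l r n) (ht : 1 ≤ t) (hw : (8 * t + 1) * (6 * t) + 1 ≤ w)
    (haa : a₀ + 2 * t ≤ a) (han : a ≤ n) (hW : W.Finite)
    (hWc : ∀ x j, l ≤ x → x ≤ r → j ≤ a₀ → P (x, j) ∈ W)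
    (hWn : ∀ x j, l ≤ x → x ≤ r → a₀ < j → j ≤ a → P (x, j) ∉ W)
    (h : GmE (ins S ends W) ends (Cols P l r) a₀ w) :
    ∃ (A : ℕ → Set V) (y : ℕ → ℕ), PcZ S ends (PcV W P l r a₀ a) t A ∧
      (∀ i < 2 * t, l ≤ y i ∧ y i ≤ r ∧ P (y i, a) ∈ A i) ∧
      ∀ i < 2 * t, ∀ j < 2 * t, i ≠ j → y i ≠ y j := by
  classical
  obtain ⟨U, Z, hZf, hZc, hUf, hUc, hUd, hUZ, hN, hL, b, hb, hx⟩ := h
  have hmul : 9 * (6 * t) ≤ (8 * t + 1) * (6 * t) := Nat.mul_le_mul_right _ (by omega)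
  have hUW : ∀ c ∈ Cl w, U c ⊆ W := by
    intro c hc
    obtain ⟨a, ha, haW⟩ := ins_lnk_left (hL c hc)
    exact ins_vconn_sub (hUc c hc) ha haW
  have hZW : Z ⊆ W := by
    have c0 : ((0, 0) : ℕ × ℕ) ∈ Cl w := ⟨by simp only; omega, by simp only; omega⟩
    obtain ⟨a, ha, haW⟩ := ins_lnk_left (hL _ c0).symm
    exact ins_vconn_sub hZc ha haW
  have hx' : ∀ c : ℕ × ℕ, ∃ x, c ∈ Cl w → l ≤ x ∧ x ≤ r ∧ P (x, b) ∈ U c ∧
      ∀ j, b ≤ j → j ≤ a₀ → P (x, j) ∉ Z := by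
    intro c
    by_cases hc : c ∈ Cl w
    · obtain ⟨f, ⟨x, h1, h2, rfl⟩, h3, h4⟩ := hx c hc
      exact ⟨x, fun _ => ⟨h1, h2, h3, h4⟩⟩
    · exact ⟨0, fun h => absurd h hc⟩
  choose x hx' using hx'
  have hfin : (PcV W P l r a₀ a).Finite := by
    refine hW.union (Finite.image _ ?_)
    refine (((Finset.range (r + 1) ×ˢ Finset.range (a + 1) : Finset (ℕ × ℕ)) :
      Set (ℕ × ℕ)).toFinite).subset ?_
    rintro ⟨c1, c2⟩ ⟨_, h2, _, h4⟩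
    simp only at h2 h4
    exact Finset.mem_coe.2 (Finset.mem_product.2 ⟨Finset.mem_range.2 (by simp only; omega),
      Finset.mem_range.2 (by simp only; omega)⟩)
  refine legsZ (V₀ := PcV W P l r a₀ a) (Z := Z) hP ht hw hb haa han hfin ?_
    (hZW.trans subset_union_left) (vconn_mono_edges ins_sub hZc) U ?_ hUd ?_ ?_ x ?_
  · intro y j h1 h2 h3 h4
    exact ⟨Or.inr ⟨(y, j), ⟨h1, h2, h3, h4⟩, rfl⟩, fun hz => hWn y j h1 h2 h3 h4 (hZW hz)⟩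
  · exact fun c hc => ⟨(hUW c hc).trans subset_union_left, vconn_mono_edges ins_sub (hUc c hc),
      hUZ c hc⟩
  · exact fun c c' hcc => (hN c c' hcc).mono ins_sub (le_refl _) (le_refl _)
  · exact fun c hc => (hL c hc).mono ins_sub (le_refl _) (le_refl _)
  · intro c hc
    obtain ⟨h1, h2, h3, h4⟩ := hx' c hc
    exact ⟨h1, h2, h3, fun j hj1 hj2 => ⟨Or.inl (hWc _ j h1 h2 hj2), h4 j hj1 hj2⟩⟩

lemma arb_mono_edges {S₁ S : Set α} {ends : α → Sym2 V} (h : S₁ ⊆ S) {W : Set V} {τ : Set α}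
    (hA : Arb S₁ ends W τ) : Arb S ends W τ :=
  ⟨fun _ he => ⟨h (hA.1 he).1, (hA.1 he).2⟩, hA.2⟩

/-- **Legs for exposed pictures with joints.** -/
theorem GmV.legs {M : Matroid α} {S : Set α} {ends : α → Sym2 V} {P : ℕ × ℕ → V}
    {l r n a₀ a t w : ℕ} {W : Set V}
    (hP : Page S ends P l r n) (ht : 1 ≤ t) (hw : (4 * t + 1) * (3 * t) + 1 ≤ w)
    (haa : a₀ + t ≤ a) (han : a ≤ n) (hW : W.Finite)
    (hWc : ∀ x j, l ≤ x → x ≤ r → j ≤ a₀ → P (x, j) ∈ W)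
    (h : GmV M (ins S ends W) ends P l r a₀ w) :
    ∃ (A : ℕ → Set V) (y : ℕ → ℕ), PcU M S ends (PcV W P l r a₀ a) t A ∧
      (∀ i < t, l ≤ y i ∧ y i ≤ r ∧ P (y i, a) ∈ A i) ∧
      ∀ i < t, ∀ j < t, i ≠ j → y i ≠ y j := by
  classical
  obtain ⟨U, Z, τ₀, j, hUf, hZU, hUc, hUd, hτ, hj, hI, hN, b, hb, hx⟩ := h
  have hmul : 5 * (3 * t) ≤ (4 * t + 1) * (3 * t) := Nat.mul_le_mul_right _ (by omega)
  have hUW : ∀ c ∈ Cl w, U c ⊆ W := by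
    intro c hc
    obtain ⟨x, h1, h2, h3⟩ := hx c hc
    exact ins_vconn_sub (hUc c hc) h3 (hWc x b h1 h2 hb)
  have hx' : ∀ c : ℕ × ℕ, ∃ x, c ∈ Cl w → l ≤ x ∧ x ≤ r ∧ P (x, b) ∈ U c := by
    intro c
    by_cases hc : c ∈ Cl w
    · obtain ⟨x, h1⟩ := hx c hc
      exact ⟨x, fun _ => h1⟩
    · exact ⟨0, fun h => absurd h hc⟩
  choose x hx' using hx'
  have hfin : (PcV W P l r a₀ a).Finite := by
    refine hW.union (Finite.image _ ?_)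
    refine (((Finset.range (r + 1) ×ˢ Finset.range (a + 1) : Finset (ℕ × ℕ)) :
      Set (ℕ × ℕ)).toFinite).subset ?_
    rintro ⟨c1, c2⟩ ⟨_, h2, _, h4⟩
    simp only at h2 h4
    exact Finset.mem_coe.2 (Finset.mem_product.2 ⟨Finset.mem_range.2 (by simp only; omega),
      Finset.mem_range.2 (by simp only; omega)⟩)
  refine legsU (V₀ := PcV W P l r a₀ a) hP ht hw hb haa han hfin ?_ U Z τ₀ j ?_ hUd ?_ ?_ hI ?_ x ?_
  · intro y j h1 h2 h3 h4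
    exact Or.inr ⟨(y, j), ⟨h1, h2, h3, h4⟩, rfl⟩
  · exact fun c hc => ⟨(hUW c hc).trans subset_union_left, hZU c hc,
      vconn_mono_edges ins_sub (hUc c hc)⟩
  · exact fun c hc => arb_mono_edges ins_sub (hτ c hc)
  · exact fun c hc => ⟨⟨(hj c hc).1.1.1, (hj c hc).1.2⟩, (hj c hc).2⟩
  · exact fun c c' hcc => (hN c c' hcc).mono ins_sub (le_refl _) (le_refl _)
  · intro c hc
    obtain ⟨h1, h2, h3⟩ := hx' c hc
    exact ⟨h1, h2, h3, fun j hj1 hj2 => Or.inl (hWc _ j h1 h2 hj2)⟩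

end EN
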