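import Pool.Agent.Helper53.BQ.Bq
import Pool.Agent.GL.FPlus2
import Pool.Agent.BICS.Asm

/-!
# F++: a cheap grid against a minor (helper51, MP_5165fa_co)

`Gad.thmFPlus` needs a grid with a joint at every vertex (restriction of `M`) and a bicircular grid
in the restriction of the dual.  Here the second side may be an arbitrary minor
`(M✶ ／ D₂) | E₂`: the grid with joints is a fixed set of bounded rank, hence the connectivity
is bounded, and the second side can be cleaned.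
-/

open Set BIC BICS
open scoped Matroid

namespace EN

universe u

/-- the rank of a grid with joints -/
lemma rk_jgrid {α : Type*} {M : Matroid α} {S : Set α} {t : ℕ} {j : ℕ × ℕ → α}
    {ed : ℕ × ℕ → ℕ × ℕ → α} (h : Gad.JGrid M S t j ed) : rk M S ≤ t * t := by
  have h1 : rk M S = (j '' Gad.Cl t).ncard := by
    unfold rk
    rw [← h.basis.encard_eq_eRk]; rfl
  have h2 : Gad.Cl t ⊆ ((Finset.range t ×ˢ Finset.range t : Finset (ℕ × ℕ)) : Set (ℕ × ℕ)) := by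
    rintro ⟨a, b⟩ ⟨ha, hb⟩
    exact Finset.mem_coe.2 (Finset.mem_product.2 ⟨Finset.mem_range.2 ha, Finset.mem_range.2 hb⟩)
  have hf : (Gad.Cl t).Finite := (Finset.finite_toSet _).subset h2
  have h3 : (Gad.Cl t).ncard ≤ t * t := by
    have h4 := Set.ncard_le_ncard h2 (Finset.finite_toSet _)
    rw [Set.ncard_coe_finset, Finset.card_product, Finset.card_range] at h4
    exact h4
  have h5 := Set.ncard_image_le (f := j) hf
  omega

/-- **F++.**  A grid with joints (side `t`, a restriction of `M`) and a plain grid of large side in a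
minor `(M✶ ／ D₂) | E₂` of the dual, `K`-linked in `M`, give `U_{k,2k}`. -/
theorem thmFpp (k : ℕ) : ∃ K t₀ : ℕ, ∀ t ≥ t₀, ∃ y₀ : ℕ, ∀ n' ≥ y₀,
    ∀ {α : Type u} (M : Matroid α) [M.Finite] (S E₂ D₂ : Set α) (j : ℕ × ℕ → α)
    (ed : ℕ × ℕ → ℕ × ℕ → α), Gad.JGrid M S t j ed → E₂ ⊆ M.E → Disjoint S E₂ →
    D₂ ⊆ M.E \ E₂ → PGrid (M✶ ／ D₂) E₂ n' → KGe M S E₂ K → HasUniformMinor M k := by
  obtain ⟨κ₀, t₀, N₀, hF⟩ := Gad.thmFPlus.{u} k
  set t2 := κ₀ + 12 * k with ht2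
  set N1 := N₀ + 4 * (t2 + 1) + 1 with hN1
  set w := 2 * 4 ^ k * N1 with hw
  have h4 : 1 ≤ 4 ^ k := Nat.one_le_pow _ _ (by norm_num)
  have hwN : 2 * N1 ≤ w := by
    rw [hw]
    exact Nat.mul_le_mul_right _ (by omega)
  have hw3 : 4 * (t2 + 1) < w := by omega
  refine ⟨t2 + 32 * (t2 + 1) ^ 2 + 1, t₀, ?_⟩
  intro t ht
  obtain ⟨m2, hm2⟩ := side3'.{u} k (t * t) w
  refine ⟨m2, ?_⟩
  intro n' hn' α M _ S E₂ D₂ j ed hj hE₂ hSE hD₂ hP hK
  have hS : S ⊆ M.E := hj.basis.subset_ground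
  obtain ⟨e₂, hB₂, hG₂⟩ := hP.toGrd
  obtain ⟨β, hβ1, hβ2, hβ3, hβ4⟩ := BQ.kge_exact hS hSE hK
  have hβ : β ≤ t * t := hβ2.trans (rk_jgrid hj)
  -- the first side is fixed
  obtain ⟨M₂, D₂', hMm, fin2, hS2, hE₂2, hD₂', hres, hlam, hK3, hN2⟩ :=
    fixset hS hE₂ hSE hD₂ hβ3 hβ4
  have hD₂E : D₂ ⊆ M.E := hD₂.trans sdiff_subset
  have hD₂'E : D₂' ⊆ M₂.E := hD₂'.trans sdiff_subset
  have fin1' : (M✶ ／ D₂).Finite := BQ.fin_contract D₂
  have fin2' : (M₂✶ ／ D₂').Finite := BQ.fin_contract D₂'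
  have hE₂D : E₂ ⊆ M₂✶.E \ D₂' := fun x hx => ⟨hE₂2 hx, fun h => (hD₂' h).2 hx⟩
  have hr2 : ∀ X ⊆ E₂, rk (M₂✶ ／ D₂') X = rk (M✶ ／ D₂) X := by
    intro X hX
    have h1 : rk ((M₂✶ ／ D₂') ↾ E₂) X = rk ((M✶ ／ D₂) ↾ E₂) X := by rw [hN2]
    unfold BIC.rk at h1 ⊢
    rwa [Matroid.restrict_eRk_eq _ hX, Matroid.restrict_eRk_eq _ hX] at h1
  have hB₂' : Bic (M₂✶ ／ D₂') E₂ e₂ := Bic_of_rk hB₂ hE₂D hr2
  -- the defect of side 2
  have hdef : rk M₂✶ E₂ ≤ rk (M₂✶ ／ D₂') E₂ + t * t := by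
    have h1 := BQ.rk_con (M := M₂✶) (C := D₂') (by exact hD₂'E) hE₂D
    have h2 := rk_dual (M := M₂) (X := E₂) hE₂2
    have h3 := rk_dual (M := M₂) (X := M₂.E \ E₂) sdiff_subset
    have h4 := rk_dual (M := M₂) (X := M₂.E) (subset_refl _)
    rw [sdiff_sdiff_cancel_left hE₂2] at h3
    have h5 : rk M₂ (M₂.E \ M₂.E) = 0 := by
      rw [sdiff_self]
      have : rk M₂ (∅ : Set α) ≤ (∅ : Set α).ncard := rk_le_ncard M₂ finite_empty
      simpa using this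
    have h6 := Set.ncard_sdiff_add_ncard_of_subset hE₂2 M₂.ground_finite
    have h7 : rk M₂✶ D₂' ≤ rk M₂✶ (M₂.E \ E₂) := rk_mono M₂✶ hD₂'
    have h8 := rk_submod M₂✶ (E₂ ∪ D₂') (M₂.E \ E₂)
    have h9 : (E₂ ∪ D₂') ∪ (M₂.E \ E₂) = M₂.E := by
      apply Subset.antisymm
      · exact union_subset (union_subset hE₂2 hD₂'E) sdiff_subset
      · intro z hz
        by_cases hz2 : z ∈ E₂
        · exact Or.inl (Or.inl hz2)
        · exact Or.inr ⟨hz, hz2⟩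
    have h10 : rk M₂✶ D₂' ≤ rk M₂✶ ((E₂ ∪ D₂') ∩ (M₂.E \ E₂)) :=
      rk_mono M₂✶ (fun z hz => ⟨Or.inr hz, hD₂' hz⟩)
    rw [h9] at h8
    omega
  -- side 2: clean
  rcases hm2 M₂✶ (M₂✶ ／ D₂') E₂ e₂ 0 0 n' hn' (by exact hE₂2) hB₂' hG₂
    (quo_contract (by exact hD₂'E) hE₂D) hdef with hU | ⟨Z', hZ', hZc', a', b', hrec', hdZ', hZX'⟩
  · exact hum_mono hMm (hum_dual hU)
  set W' := blk E₂ e₂ a' b' w with hWdef'
  have hWE₂ : W' ⊆ E₂ := blk_sub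
  have hW'2 : W' ⊆ M₂.E := hWE₂.trans hE₂2
  have hZ'2 : Z' ⊆ M₂.E := hZ'.trans hE₂2
  have dSW' : Disjoint S W' := hSE.mono_right hWE₂
  have dSZ' : Disjoint S Z' := hSE.mono_right hZ'
  -- connectivity
  have k1 : KGe M₂ S E₂ (t2 + 32 * (t2 + 1) ^ 2 + 1) := BQ.KGe.mono_n hK3 (by omega)
  have k2 : KGe M₂✶ E₂ S (t2 + 32 * (t2 + 1) ^ 2 + 1) := k1.dual hS2
  have k3 : KGe M₂✶ W' S (t2 + 1) := BQ.kge_blk (M := M₂✶) (by exact hD₂') (by exact hE₂2)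
    hSE.symm hB₂' hG₂ hrec' hw3 k2
  have k4 : KGe M₂ S W' (t2 + 1) := by
    have := k3.dual (by exact hW'2)
    rwa [Matroid.dual_dual] at this
  have k6 : KGe (M₂ ＼ Z') S W' κ₀ := by
    refine BQ.kge_delete hS2 hW'2 ?_ (BQ.KGe.mono_n k4 (by omega))
    intro z hz
    refine ⟨hZ'2 hz, ?_⟩
    rintro (hz2 | hz2)
    · exact Set.disjoint_left.1 dSZ' hz2 hz
    · exact Set.disjoint_left.1 hdZ' hz hz2
  have fin4 : (M₂ ＼ Z').Finite := BQ.fin_delete Z'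
  -- side 1 is a restriction
  have hS3 : S ⊆ (M₂ ＼ Z').E := by
    rw [Matroid.delete_ground]
    exact fun z hz => ⟨hS2 hz, fun h => Set.disjoint_left.1 dSZ' hz h⟩
  have b1 : Gad.JGrid (M₂ ＼ Z') S t j ed := by
    refine Gad.JGrid.of_restrict_eq hj hS3 ?_
    have h1 : S ⊆ M₂.E \ Z' := fun z hz => ⟨hS2 hz, fun h => Set.disjoint_left.1 dSZ' hz h⟩
    rw [← hres, Matroid.delete_eq_restrict, Matroid.restrict_restrict_eq _ h1]
  -- side 2 is a restriction of the dual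
  have b2 : Bic (M₂ ＼ Z')✶ W' e₂ := by
    have fin5 : (M₂✶ ／ Z').Finite := BQ.fin_contract Z'
    rw [Matroid.dual_delete]
    refine Bic_of_rk (Bic_sub hB₂' hWE₂) ?_ ?_
    · intro z hz
      exact ⟨hW'2 hz, fun h => Set.disjoint_left.1 hdZ' h hz⟩
    · intro X hX
      exact rk_con_of (by exact hZ'2) (by exact hW'2) hdZ' hZX' hX
  have hA := hF (M₂ ＼ Z') S W' dSW' t N1 ht (by omega) j ed b1
    (bicGrid_of_Grd (by omega) b2 (Grd_sub hG₂ hrec')) k6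
  refine hum_mono ?_ hA
  have h5 := Matroid.contract_delete_isMinor M₂ ∅ Z'
  rw [Matroid.contract_empty] at h5
  exact h5.trans hMm

end EN
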