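import Pool.Agent.EN.PieceV
import Pool.Agent.EN.LegsE
import Pool.Agent.EN.LinkF1
import Pool.Agent.EN.Lanes

/-!
# Pieces along one page: (J) of the linking theorem (row F7 of D2, T-star)
-/

open Set BIC
open scoped Matroid

namespace EN

open Gad

set_option maxHeartbeats 1000000

variable {α V : Type*}

/-- Pieces along one page `P`, columns `[l, r]`, levels `≤ n`. -/
structure Fm1 (S : Set α) (ends : α → Sym2 V) (P : ℕ × ℕ → V) (l r n a₀ : ℕ) (I : Finset ℕ)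
    (W : ℕ → Set V) (lp rp : ℕ → ℕ) : Prop where
  page : Page S ends P l r n
  fin : ∀ p ∈ I, (W p).Finite
  con : ∀ p ∈ I, VConn S ends (W p)
  dis : ∀ p ∈ I, ∀ q ∈ I, p ≠ q → Disjoint (W p) (W q)
  le : ∀ p ∈ I, l ≤ lp p ∧ lp p ≤ rp p ∧ rp p ≤ r
  sep : ∀ p ∈ I, ∀ q ∈ I, p ≠ q → rp p < lp q ∨ rp q < lp p
  low : ∀ p ∈ I, ∀ x j, lp p ≤ x → x ≤ rp p → j ≤ a₀ → P (x, j) ∈ W p
  high : ∀ p ∈ I, ∀ x j, l ≤ x → x ≤ r → a₀ < j → j ≤ n → P (x, j) ∉ W p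

/-- The pieces. -/
def Vp (P : ℕ × ℕ → V) (a₀ a : ℕ) (W : ℕ → Set V) (lp rp : ℕ → ℕ) (p : ℕ) : Set V :=
  PcV (W p) P (lp p) (rp p) a₀ a

/-- The certificates. -/
def Cr1 (S : Set α) (ends : α → Sym2 V) (P : ℕ × ℕ → V) (a₀ a t : ℕ) (W : ℕ → Set V)
    (lp rp : ℕ → ℕ) (p : ℕ) (C : Set α) (ed : ℕ × ℕ → ℕ × ℕ → α) : Prop :=
  ∃ A, OffP P a t lp rp (Vp P a₀ a W lp rp) p A ∧ Crt S ends (Vp P a₀ a W lp rp p) A t C ed

section

variable {S : Set α} {ends : α → Sym2 V} {P : ℕ × ℕ → V} {l r n a₀ a : ℕ} {I : Finset ℕ}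
  {W : ℕ → Set V} {lp rp : ℕ → ℕ}

lemma mem_Vp {p : ℕ} {v : V} : v ∈ Vp P a₀ a W lp rp p ↔
    v ∈ W p ∨ ∃ x j, lp p ≤ x ∧ x ≤ rp p ∧ a₀ < j ∧ j ≤ a ∧ P (x, j) = v := by
  unfold Vp PcV
  constructor
  · rintro (h | ⟨⟨x, j⟩, ⟨h1, h2, h3, h4⟩, h5⟩)
    · exact Or.inl h
    · exact Or.inr ⟨x, j, h1, h2, h3, h4, h5⟩
  · rintro (h | ⟨x, j, h1, h2, h3, h4, h5⟩)
    · exact Or.inl h
    · exact Or.inr ⟨(x, j), ⟨h1, h2, h3, h4⟩, h5⟩

lemma Fm1.up (h : Fm1 S ends P l r n a₀ I W lp rp) (han : a ≤ n) {p : ℕ} (hp : p ∈ I)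
    {c : ℕ × ℕ} (hc : c ∈ Reg l r n) (hca : a < c.2) (haa : a₀ ≤ a) :
    P c ∉ Vp P a₀ a W lp rp p := by
  rw [mem_Vp]
  rw [mem_Reg] at hc
  have hle := h.le p hp
  rintro (h1 | ⟨x, j, h1, h2, h3, h4, h5⟩)
  · exact h.high p hp c.1 c.2 hc.1 hc.2.1 (by omega) hc.2.2 h1
  · have h6 := h.page.inj (x, j) c (by simp only; omega) (by simp only; omega) (by simp only; omega)
      hc.1 hc.2.1 hc.2.2 h5
    rw [← h6] at hca
    simp only at hca
    omega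

theorem Fm1.pcs (h : Fm1 S ends P l r n a₀ I W lp rp) (haa : a₀ ≤ a) (ha : 1 ≤ a) (han : a ≤ n) :
    Pcs S ends I (Vp P a₀ a W lp rp) := by
  refine ⟨?_, ?_, ?_⟩
  · intro p hp
    refine (h.fin p hp).union (Finite.image _ ?_)
    refine (((Finset.range (rp p + 1) ×ˢ Finset.range (a + 1) : Finset (ℕ × ℕ)) :
      Set (ℕ × ℕ)).toFinite).subset ?_
    rintro ⟨c1, c2⟩ ⟨_, h2, _, h4⟩
    simp only at h2 h4
    exact Finset.mem_coe.2 (Finset.mem_product.2 ⟨Finset.mem_range.2 (by simp only; omega),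
      Finset.mem_range.2 (by simp only; omega)⟩)
  · intro p hp
    have hle := h.le p hp
    have h1 : VConn S ends (P '' Reg (lp p) (rp p) a) := by
      have h2 : Page S ends P (lp p) (rp p) n := h.page.sub_of (fun x h1 h2 => by omega)
      exact h2.vconn_reg ha han hle.2.1
    have h2 := vc_union (h.con p hp) h1 (c := P (lp p, 0))
      (h.low p hp _ _ le_rfl hle.2.1 (Nat.zero_le _)) ⟨(lp p, 0), ⟨le_rfl, hle.2.1, Nat.zero_le _⟩,
        rfl⟩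
    refine vconn_congr h2 ?_
    intro v
    rw [mem_Vp]
    constructor
    · rintro (h3 | ⟨c, hc, rfl⟩)
      · exact Or.inl h3
      · rw [mem_Reg] at hc
        rcases Nat.lt_or_ge a₀ c.2 with h4 | h4
        · exact Or.inr ⟨c.1, c.2, hc.1, hc.2.1, h4, hc.2.2, rfl⟩
        · exact Or.inl (h.low p hp c.1 c.2 hc.1 hc.2.1 h4)
    · rintro (h3 | ⟨x, j, h3, h4, h5, h6, rfl⟩)
      · exact Or.inl h3
      · exact Or.inr ⟨(x, j), ⟨h3, h4, h6⟩, rfl⟩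
  · intro p hp q hq hpq
    have hlp := h.le p hp
    have hlq := h.le q hq
    rw [Set.disjoint_left]
    intro v hv hv'
    rw [mem_Vp] at hv hv'
    rcases hv with hv | ⟨x, j, h1, h2, h3, h4, rfl⟩
    · rcases hv' with hv' | ⟨x', j', h1', h2', h3', h4', rfl⟩
      · exact Set.disjoint_left.1 (h.dis p hp q hq hpq) hv hv'
      · exact h.high p hp x' j' (by omega) (by omega) h3' (by omega) hv
    · rcases hv' with hv' | ⟨x', j', h1', h2', h3', h4', h5⟩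
      · exact h.high q hq x j (by omega) (by omega) h3 (by omega) hv'
      · have h6 := h.page.inj (x', j') (x, j) (by simp only; omega) (by simp only; omega)
          (by simp only; omega) (by simp only; omega) (by simp only; omega) (by simp only; omega) h5
        rw [Prod.mk.injEq] at h6
        rcases h.sep p hp q hq hpq with g | g <;> omega

/-- The models inside of a vertex set. -/
lemma PcZ.ins {V₀ : Set V} {t : ℕ} {A : ℕ → Set V} (h : PcZ S ends V₀ t A) :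
    PcZ (ins S ends V₀) ends V₀ t A := by
  obtain ⟨U, Z, hZf, hZV, hZc, hU, hUd, hUZ, hadj, hadjZ, hA⟩ := h
  refine ⟨U, Z, hZf, hZV, vconn_insW hZc hZV, fun c hc => ⟨(hU c hc).1, (hU c hc).2.1,
    vconn_insW (hU c hc).2.2 (hU c hc).2.1⟩, hUd, hUZ, ?_, ?_, hA⟩
  · intro c c' hcc
    exact lnk_insW (hadj c c' hcc) (hU c hcc.1).2.1 (hU c' hcc.2.1).2.1
  · intro c hc
    exact lnk_insW (hadjZ c hc) (hU c hc).2.1 hZV

lemma arb_ins {V₀ X : Set V} {τ : Set α} (h : Arb S ends X τ) (hX : X ⊆ V₀) :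
    Arb (BIC.ins S ends V₀) ends X τ :=
  ⟨fun e he => ⟨⟨(h.1 he).1, fun v hv => hX ((h.1 he).2 v hv)⟩, (h.1 he).2⟩, h.2⟩

lemma PcU.ins {M : Matroid α} {V₀ : Set V} {t : ℕ} {A : ℕ → Set V} (h : PcU M S ends V₀ t A) :
    PcU M (BIC.ins S ends V₀) ends V₀ t A := by
  obtain ⟨U, Z, τ₀, j, hU, hUd, hτ, hj, hI, hadj, hA⟩ := h
  refine ⟨U, Z, τ₀, j, fun c hc => ⟨(hU c hc).1, (hU c hc).2.1, (hU c hc).2.2.1,
    vconn_insW (hU c hc).2.2.2 (hU c hc).2.1⟩, hUd, ?_, ?_, hI, ?_, hA⟩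
  · intro c hc
    exact arb_ins (hτ c hc) ((hU c hc).2.2.1.trans (hU c hc).2.1)
  · intro c hc
    refine ⟨⟨⟨(hj c hc).1.1, fun v hv => ?_⟩, (hj c hc).1.2⟩, (hj c hc).2⟩
    exact (hU c hc).2.1 ((hU c hc).2.2.1 ((hj c hc).1.2 v hv))
  · intro c c' hcc
    exact lnk_insW (hadj c c' hcc) (hU c hcc.1).2.1 (hU c' hcc.2.1).2.1

lemma Crt.mono {S' : Set α} (hS : S' ⊆ S) {V₀ : Set V} {A : ℕ → Set V} {t : ℕ} {C : Set α}
    {ed : ℕ × ℕ → ℕ × ℕ → α} (h : Crt S' ends V₀ A t C ed) : Crt S ends V₀ A t C ed := by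
  obtain ⟨U, τ, F, hU, hUd, hF, hF', hC, hed, hA⟩ := h
  refine ⟨U, τ, F, fun c hc => ⟨(hU c hc).1, (hU c hc).2.1, arb_mono_edges hS (hU c hc).2.2⟩,
    hUd, fun e he => ⟨hS (hF he).1, (hF he).2⟩, hF', hC, fun c c' hcc =>
    ⟨hS (hed c c' hcc).1, (hed c c' hcc).2⟩, hA⟩

variable {M : Matroid α} {u t w : ℕ} {D : Finset ℕ}

lemma frm_piece [M.Finite] {F : ℕ → Set V} (hF : FrmU M S ends u) (h : Pcs S ends I F)
    (hDI : D ⊆ I) (hD : ExD M S ends I F D) {p : ℕ} (hp : p ∈ I) (hpD : p ∉ D) :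
    Frm (M ／ Ufm S ends D F) (BIC.ins S ends (F p)) ends := by
  have h1 := ExD.frm hF h hDI hD (P := {p}) (Finset.singleton_subset_iff.2 hp)
    (Finset.disjoint_singleton_left.2 hpD)
  have h2 : Ufm S ends {p} F = BIC.ins S ends (F p) := by
    ext e
    rw [mem_Ufm]
    simp
  rw [h2] at h1
  exact h1

/-- The conclusion of (J) for one piece. -/
def JOk (M : Matroid α) (S : Set α) (ends : α → Sym2 V) (P : ℕ × ℕ → V) (a₀ a t : ℕ)
    (W : ℕ → Set V) (lp rp : ℕ → ℕ) (D : Finset ℕ) (p : ℕ) : Prop :=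
  ∃ C S' j ed, Cr1 S ends P a₀ a t W lp rp p C ed ∧
    C ⊆ BIC.ins S ends (Vp P a₀ a W lp rp p) ∧ S' ⊆ BIC.ins S ends (Vp P a₀ a W lp rp p) ∧
    Disjoint C S' ∧ (M ／ Ufm S ends D (Vp P a₀ a W lp rp)).Indep (C ∪ j '' Cl t) ∧
    JGrid (M ／ Ufm S ends D (Vp P a₀ a W lp rp) ／ C) S' t j ed

lemma JOk.of_jc {p o : ℕ} {A : ℕ → Set V} {C S' : Set α} {j : ℕ × ℕ → α}
    {ed : ℕ × ℕ → ℕ × ℕ → α}
    (hJ : Jc (M ／ Ufm S ends D (Vp P a₀ a W lp rp)) (BIC.ins S ends (Vp P a₀ a W lp rp p)) ends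
      (Vp P a₀ a W lp rp p) t (fun b => A (o + b)) C S' j ed) {y : ℕ → ℕ}
    (hy : ∀ i < t, lp p ≤ y (o + i) ∧ y (o + i) ≤ rp p ∧ P (y (o + i), a) ∈ A (o + i) ∧
      A (o + i) ⊆ Vp P a₀ a W lp rp p)
    (hy' : ∀ i < t, ∀ j < t, i ≠ j → y (o + i) ≠ y (o + j)) :
    JOk M S ends P a₀ a t W lp rp D p := by
  obtain ⟨h1, h2, h3, h4, h5, h6⟩ := hJ
  exact ⟨C, S', j, ed, ⟨_, ⟨fun i => y (o + i), hy, hy'⟩, h6.mono ins_sub⟩,
    h1.trans ins_sub, h2.trans ins_sub, h3, h4, h5⟩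

/-- (J) for a piece with an apex. -/
theorem Fm1.jZ [M.Finite] (h : Fm1 S ends P l r n a₀ I W lp rp) (hF : FrmU M S ends u)
    (ht : 1 ≤ t) (hw : (8 * t + 1) * (6 * t) + 1 ≤ w) (haa : a₀ + 2 * t ≤ a) (han : a ≤ n)
    {p : ℕ} (hp : p ∈ I)
    (hpic : GmE (BIC.ins S ends (W p)) ends (Cols P (lp p) (rp p)) a₀ w)
    (hDI : D ⊆ I) (hD : ExD M S ends I (Vp P a₀ a W lp rp) D) (hpD : p ∉ D) :
    JOk M S ends P a₀ a t W lp rp D p := by
  have hpc := h.pcs (a := a) (by omega) (by omega) han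
  have hle := h.le p hp
  have hfr := frm_piece hF hpc hDI hD hp hpD
  have hpg : Page S ends P (lp p) (rp p) n := h.page.sub_of (fun x h1 h2 => by omega)
  have hfin : (M ／ Ufm S ends D (Vp P a₀ a W lp rp)).Finite := BQ.fin_contract _
  obtain ⟨A, y, h1, h2, h3⟩ := hpic.legs hpg ht hw haa han (h.fin p hp)
    (fun x j hx hx' hj => h.low p hp x j hx hx' hj)
    (fun x j hx hx' hj hj' => h.high p hp x j (by omega) (by omega) hj (by omega))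
  obtain ⟨o, C, S', j, ed, ho, hJ⟩ := jgrid_crtZ hfr ht h1.ins
  refine JOk.of_jc (o := o) hJ (y := y) ?_ ?_
  · intro i hi
    have hoi : o + i < 2 * t := by rcases ho with rfl | rfl <;> omega
    exact ⟨(h2 _ hoi).1, (h2 _ hoi).2.1, (h2 _ hoi).2.2, h1.sub _ hoi⟩
  · intro i hi i' hi' hne
    have hoi : o + i < 2 * t := by rcases ho with rfl | rfl <;> omega
    have hoi' : o + i' < 2 * t := by rcases ho with rfl | rfl <;> omega
    exact h3 _ hoi _ hoi' (by omega)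

/-- (J) for a piece with joint ground. -/
theorem Fm1.jU [M.Finite] (h : Fm1 S ends P l r n a₀ I W lp rp) (hF : FrmU M S ends u)
    (ht : 1 ≤ t) (hw : (8 * t + 1) * (6 * t) + 1 ≤ w) (haa : a₀ + 2 * t ≤ a) (han : a ≤ n)
    {p : ℕ} (hp : p ∈ I) (hDI : D ⊆ I) (hD : ExD M S ends I (Vp P a₀ a W lp rp) D) (hpD : p ∉ D)
    (hpic : GmV (M ／ Ufm S ends D (Vp P a₀ a W lp rp)) (BIC.ins S ends (W p)) ends P (lp p) (rp p)
      a₀ w) :
    JOk M S ends P a₀ a t W lp rp D p := by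
  have hpc := h.pcs (a := a) (by omega) (by omega) han
  have hle := h.le p hp
  have hfr := frm_piece hF hpc hDI hD hp hpD
  have hpg : Page S ends P (lp p) (rp p) n := h.page.sub_of (fun x h1 h2 => by omega)
  have hfin : (M ／ Ufm S ends D (Vp P a₀ a W lp rp)).Finite := BQ.fin_contract _
  have hw' : (4 * t + 1) * (3 * t) + 1 ≤ w := by
    have : (4 * t + 1) * (3 * t) ≤ (8 * t + 1) * (6 * t) := Nat.mul_le_mul (by omega) (by omega)
    omega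
  obtain ⟨A, y, h1, h2, h3⟩ := hpic.legs hpg ht hw' (by omega) han (h.fin p hp)
    (fun x j hx hx' hj => h.low p hp x j hx hx' hj)
  obtain ⟨C, S', j, ed, hJ⟩ := jgrid_crtU hfr ht h1.ins
  have e : A = fun b => A (0 + b) := by
    funext b
    rw [zero_add]
  rw [e] at hJ
  refine JOk.of_jc (o := 0) hJ (y := y) ?_ ?_
  · intro i hi
    rw [zero_add]
    exact ⟨(h2 i hi).1, (h2 i hi).2.1, (h2 i hi).2.2, h1.sub i hi⟩
  · intro i hi i' hi' hne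
    rw [zero_add, zero_add]
    exact h3 i hi i' hi' hne

end

end EN
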