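import Pool.Agent.EN.Groups8
import Pool.Agent.EN.PieceW
import Pool.Agent.EN.Far

/-!
# From a pattern to pieces along one page (row F7 of D2, T-star)
-/

open Set BIC
open scoped Matroid

namespace EN

open Gad

set_option maxHeartbeats 1000000

variable {α V κ : Type*}

namespace Sys

/-- The eight patterns without ground. -/
def PatZ (Y : Sys κ) (N m : ℕ) : Prop :=
  (∃ x z c d, Y.PB N x z c d) ∨ (∃ p q y z, Y.PJ N p q y z) ∨
  (∃ p q y z p' q', Y.PX N p q y z p' q') ∨ (∃ a b y z v v', Y.PC N a b y z v v') ∨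
  (∃ u v, Y.PM N m u v) ∨ (∃ a b x z, Y.PSF N m a b x z) ∨
  (∃ d a b x z, Y.PSG N m d a b x z) ∨ ∃ a b y z v v', Y.PSC N m a b y z v v'

/-- The two patterns with ground, exposed on the shore `s`. -/
def PatU (Y : Sys κ) (N m s : ℕ) : Prop :=
  (∃ x z q, Y.PA N x z q ∧ Y.sh (x 0) = s) ∨ ∃ a b x, Y.PS N m a b x ∧ Y.sh (a 0 0) = s

lemma Pat0.split {Y : Sys κ} {N m : ℕ} (h : Y.Pat0 N m) : Y.PatZ N m ∨ ∃ s, Y.PatU N m s := by
  rcases h with ⟨x, z, q, h⟩ | h | h | h | h | h | ⟨a, b, x, h⟩ | h | h | h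
  · exact Or.inr ⟨_, Or.inl ⟨x, z, q, h, rfl⟩⟩
  · exact Or.inl (Or.inl h)
  · exact Or.inl (Or.inr (Or.inl h))
  · exact Or.inl (Or.inr (Or.inr (Or.inl h)))
  · exact Or.inl (Or.inr (Or.inr (Or.inr (Or.inl h))))
  · exact Or.inl (Or.inr (Or.inr (Or.inr (Or.inr (Or.inl h)))))
  · exact Or.inr ⟨_, Or.inr ⟨a, b, x, h, rfl⟩⟩
  · exact Or.inl (Or.inr (Or.inr (Or.inr (Or.inr (Or.inr (Or.inl h))))))
  · exact Or.inl (Or.inr (Or.inr (Or.inr (Or.inr (Or.inr (Or.inr (Or.inl h)))))))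
  · exact Or.inl (Or.inr (Or.inr (Or.inr (Or.inr (Or.inr (Or.inr (Or.inr h)))))))

end Sys

variable {M : Matroid α} {S : Set α} {ends : α → Sym2 V} {Y : Sys κ}
  {P : ℕ → ℕ × ℕ → V} {lo hi : ℕ → ℕ} {n : ℕ} {B : κ → Set V} {col : ℕ → ℕ}

/-- Patterns without ground: a graph statement. -/
theorem RealU.patZ (h : RealU Y M S ends P lo hi n B col)
    {w N m : ℕ} (hA : Y.Mo) (hw : 1 ≤ w) (hN : 3 * ((2 * w) * (2 * w)) + 2 ≤ N)
    (hm' : 2 * w + 1 ≤ m) (hn : 4 * w + 3 ≤ n) (hp : Y.PatZ N m) :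
    Gm1 S ends P lo hi n (2 * w) := by
  obtain ⟨N₀, hN₀⟩ : ∃ N₀, N₀ = (2 * w) * (2 * w) := ⟨_, rfl⟩
  rw [← hN₀] at hN
  have hR := h.real
  rcases hp with ⟨x, z, c, d, hp⟩ | ⟨p, q, y, z, hp⟩ | ⟨p, q, y, z, p', q', hp⟩ |
    ⟨a, b, y, z, v, v', hp⟩ | ⟨u, v, hp⟩ | ⟨a, b, x, z, hp⟩ | ⟨d, a, b, x, z, hp⟩ |
    ⟨a, b, y, z, v, v', hp⟩
  · exact hR.pB' hw (by rw [← hN₀]; omega) (by omega)
      ⟨hp.lk, hp.lk', hp.ser, hp.mon, hp.mon', hp.far, hp.far', hp.far'', hp.onP, hp.onZ, hp.onD,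
        hp.dis⟩
  · exact hR.pJ hw (by rw [← hN₀]; omega) (by omega)
      ⟨hp.lk, hp.lk', hp.yp, hp.pz, hp.ser, hp.mon, hp.far, hp.onP, hp.onQ, hp.dis, hp.dj⟩
  · exact hR.pX hw (by rw [← hN₀]; omega) (by omega)
      ⟨hp.lk, hp.lk', hp.lk'', hp.yp, hp.pp, hp.ser, hp.cr, hp.far, hp.onP, hp.onQ, hp.dis,
        hp.dj, hp.dj'⟩
  · exact hR.pC hw (by rw [← hN₀]; omega) (by omega)
      ⟨hp.lk, hp.lk', hp.lk'', hp.ord, hp.ser, hp.mon, hp.far, hp.onP, hp.onQ, hp.dis, hp.dj⟩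
  · exact hR.pM hw (by rw [← hN₀]; omega) hm' (by omega)
      ⟨hp.lk, hp.um, hp.vm, hp.uv, hp.ser, hp.on, hp.dis⟩
  · exact hR.pSF hA hw (by rw [← hN₀]; omega) hm' (by omega)
      ⟨hp.ns.ng, hp.px, hp.lk, hp.mon, hp.far, hp.onQ, hp.dis, hp.dj⟩
  · exact hR.pSG hA hw (by rw [← hN₀]; omega) hm' (by omega)
      ⟨hp.ns.ng, hp.px, hp.lk, hp.sh, hp.out, hp.gap, hp.dis, hp.dj⟩
  · exact hR.pSC hA hw (by rw [← hN₀]; omega) hm' (by omega)
      ⟨hp.ns.ng, hp.lk, hp.lk', hp.ord, hp.dis, hp.djc, hp.dj⟩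

/-- Patterns with ground, the page is explicit. -/
theorem RealU.patU [M.Finite] (h : RealU Y M S ends P lo hi n B col) (hF : Frm M S ends)
    {w N m s : ℕ} (hA : Y.Mo) (hw : 1 ≤ w) (hN : w * w ≤ N) (hm' : w + 1 ≤ m)
    (hn : 2 * w + 2 ≤ n) (hp : Y.PatU N m s) : GmV M S ends (P s) (lo s) (hi s) n w := by
  rcases hp with ⟨x, z, q, hp, rfl⟩ | ⟨a, b, x, hp, rfl⟩
  · exact h.pA hF hw hN (by omega) hp
  · exact h.pS hF hA hw hN hm' hn hp

/-- The picture of the group `g` is exposed on the virtual shore `s`: with an apex (`true`) or with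
joints, for all matroids (`false`). -/
def Pic1 {κ' : Type*} (Z : Sys κ') (S : Set α) (ends : α → Sym2 V) (P : ℕ → ℕ × ℕ → V)
    (lo hi : ℕ → ℕ) (a₀ w N m : ℕ) (B : κ' → Set V) (b : Bool) (s : ℕ) : Prop :=
  lo s ≤ hi s ∧ if b then
    GmE (BIC.ins S ends (Wst P lo hi a₀ B)) ends (Cols (P s) (lo s) (hi s)) a₀ w
  else Z.PatU N m s

/-- Every group has a picture. -/
theorem RealU.pic1 {κ' : Type*} {Z : Sys κ'} {B' : κ' → Set V} {lo' hi' : ℕ → ℕ} {col' : ℕ → ℕ}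
    (h : RealU Z M S ends P lo' hi' n B' col') (hA : Z.Mo) {w N m : ℕ} (hw : 1 ≤ w)
    (hN : 3 * ((2 * w) * (2 * w)) + 2 ≤ N) (hm' : 2 * w + 1 ≤ m) (hn : 4 * w + 3 ≤ n)
    (h3 : ∀ i < Z.L, Z.sh i < 3)
    (hlo : ∀ s x, lo' s ≤ x → x ≤ hi' s → ∃ i < Z.L, Z.sh i = s) (hp : Z.Pat0 N m)
    (hJ : ∀ I : Finset κ', (∀ k ∈ I, Z.gr k) →
      JU M (BIC.ins S ends (Wst P lo' hi' (4 * w + 3) B')) ends I B') :
    ∃ (b : Bool) (s : ℕ), s < 3 ∧ Pic1 Z S ends P lo' hi' (4 * w + 3) (2 * w) N m B' b s := by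
  have hN1 : 0 < N := by omega
  rcases hp.split with hz | ⟨s, hs⟩
  · have h1 := (h.lev hn).res (M' := M) (W := Wst P lo' hi' (4 * w + 3) B')
      (fun s c hc => Wst.page hc) (fun k => Wst.con) hJ
    obtain ⟨s, h2⟩ := h1.patZ hA hw hN hm' le_rfl hz
    have hle : lo' s ≤ hi' s := by
      obtain ⟨U, Z', g1, g2, g3, g4, g5, g6, g7, g8, l', r', b, g9, g10, g11, g12, g13⟩ := h2
      obtain ⟨x, k1, k2, k3⟩ := g12 (0, 0) ⟨by simp only; omega, by simp only; omega⟩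
      omega
    obtain ⟨i, hi, hs⟩ := hlo s _ le_rfl hle
    refine ⟨true, s, hs ▸ h3 i hi, hle, ?_⟩
    simp only [if_true]
    exact h2.gmE
  · have hport : ∃ i < Z.L, Z.sh i = s := by
      rcases hs with ⟨x, z, q, hp, hs⟩ | ⟨a, b, x, hp, hs⟩
      · exact ⟨x 0, (hp.lk 0 hN1).1, hs⟩
      · exact ⟨a 0 0, (hp.ns.lk 0 hN1 0 (by omega)).1, hs⟩
    obtain ⟨i, hi, his⟩ := hport
    have h4 := h.prt i hi
    rw [his] at h4
    refine ⟨false, s, his ▸ h3 i hi, by omega, ?_⟩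
    simp only [Bool.false_eq_true, if_false]
    exact hs

lemma ju_ins {ι : Type*} {I : Finset ι} {F : ι → Set V} {W : Set V} (h : ∀ i ∈ I, F i ⊆ W) :
    JU M (BIC.ins S ends W) ends I F ↔ JU M S ends I F := by
  have h1 : Ufm (BIC.ins S ends W) ends I F = Ufm S ends I F := by
    ext e
    rw [mem_Ufm, mem_Ufm]
    constructor
    · rintro ⟨i, hi, h2⟩
      exact ⟨i, hi, h2.1.1, h2.2⟩
    · rintro ⟨i, hi, h2⟩
      exact ⟨i, hi, ⟨h2.1, fun v hv => h i hi (h2.2 v hv)⟩, h2.2⟩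
  show _ ≤ BIC.rk M (Ufm (BIC.ins S ends W) ends I F) ↔ _ ≤ BIC.rk M (Ufm S ends I F)
  rw [h1]

/-- **From a pattern to pieces along one page.** -/
theorem RealU.fm1 (h : RealU Y M S ends P lo hi n B col) (hA : Y.Mo) {w N m n₀ t' : ℕ}
    (hw : 1 ≤ w) (hN : 3 * ((2 * w) * (2 * w)) + 2 ≤ N) (hm' : 2 * w + 1 ≤ m)
    (hn : 4 * w + 3 ≤ n) (hn₀ : 1 ≤ n₀) (hp : Y.Pat (6 * n₀ * N) m t') :
    Y.KT t' ∨ ∃ (σ : ℕ) (W : ℕ → Set V) (lp rp : ℕ → ℕ),
      Fm1 S ends (P σ) (lo σ) (hi σ) n (4 * w + 3) (Finset.range n₀) W lp rp ∧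
      ((∀ p < n₀, GmE (BIC.ins S ends (W p)) ends (Cols (P σ) (lp p) (rp p)) (4 * w + 3) (2 * w)) ∨
        ∃ K : ℕ → Set κ, (∀ p < n₀, ∀ q < n₀, p ≠ q → Disjoint (K p) (K q)) ∧
          (∀ p < n₀, ∀ k ∈ K p, B k ⊆ W p) ∧
          ∀ p < n₀, ∀ (M' : Matroid α) [M'.Finite], Frm M' (BIC.ins S ends (W p)) ends →
            (∀ J : Finset κ, (∀ k ∈ J, Y.gr k ∧ k ∈ K p) →
              JU M' (BIC.ins S ends (W p)) ends J B) →
            GmV M' (BIC.ins S ends (W p)) ends (P σ) (lp p) (rp p) (4 * w + 3) w) := by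
  classical
  rcases Sys.Pat.groups (Y := Y) (m := 6 * n₀) (N := N) (mm := m) hA (by omega) (by omega) hp with
    h1 | ⟨ρ, K, Z, e, hG, hpat⟩
  · exact Or.inl h1
  right
  obtain ⟨lo', hi', h1, h2, h3⟩ := h.grp hG
  obtain ⟨a₀, ha₀⟩ : ∃ a₀, a₀ = 4 * w + 3 := ⟨_, rfl⟩
  rw [← ha₀]
  set W' : Fin (6 * n₀) → Set V := fun g => Wst (fun s => P (ρ s)) (lo' g) (hi' g) a₀
    (fun k : K g => B k) with hW'
  have hBW : ∀ g, ∀ k ∈ K g, B k ⊆ W' g := fun g k hk v hv => Or.inr ⟨(⟨k, hk⟩ : K g), hv⟩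
  have hlk : ∀ g s x, lo' g s ≤ x → x ≤ hi' g s → ∃ i < (Z g).L, (Z g).sh i = s :=
    fun g s x hx hx' => (h2 g s x hx hx').2.2.2
  have hpic : ∀ g, ∃ (b : Bool) (s : ℕ), s < 3 ∧ Pic1 (Z g) S ends (fun s => P (ρ s)) (lo' g)
      (hi' g) a₀ (2 * w) N m (fun k : K g => B k) b s := by
    intro g
    rw [ha₀]
    refine (h1 g).pic1 (hG.mono g) hw hN hm' hn (hG.sh3 g) (hlk g) (hpat g).1 ?_
    intro I hI
    exact (ju_ins (fun k _ => Wst.con)).2 ((h1 g).grd I hI)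
  choose bf sf hs3 hpic' using hpic
  obtain ⟨i, f, hf1, hf2⟩ := pigeon 5 n₀ (fun i j => ∃ hj : j < 6 * n₀,
    (if bf ⟨j, hj⟩ then 3 else 0) + sf ⟨j, hj⟩ = (i : ℕ)) (by
    intro j hj
    have h4 := hs3 ⟨j, hj⟩
    refine ⟨⟨(if bf ⟨j, hj⟩ then 3 else 0) + sf ⟨j, hj⟩, ?_⟩, hj, rfl⟩
    split <;> omega)
  have hF : ∃ F : ℕ → Fin (6 * n₀), ∀ p < n₀, (F p : ℕ) = f p := by
    refine ⟨fun p => if hp : p < n₀ then ⟨f p, (hf1 p hp).1⟩ else ⟨0, by omega⟩, ?_⟩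
    intro p hp
    simp only [dif_pos hp]
  obtain ⟨F, hF⟩ := hF
  have hFinj : ∀ p < n₀, ∀ q < n₀, p ≠ q → F p ≠ F q := by
    intro p hp q hq hpq hh
    have h4 : ((F p : Fin (6 * n₀)) : ℕ) = ((F q : Fin (6 * n₀)) : ℕ) := by rw [hh]
    rw [hF p hp, hF q hq] at h4
    rcases Nat.lt_or_ge p q with g | g
    · have := hf2 p q g hq
      omega
    · have := hf2 q p (by omega) hp
      omega
  obtain ⟨s₀, hs₀, b₀, hcode⟩ : ∃ s₀ < 3, ∃ b₀ : Bool, ∀ p < n₀, sf (F p) = s₀ ∧ bf (F p) = b₀ := by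
    refine ⟨(i : ℕ) % 3, Nat.mod_lt _ (by omega), decide (3 ≤ (i : ℕ)), ?_⟩
    intro p hp
    obtain ⟨h4, h5, h6⟩ := hf1 p hp
    have h7 : (⟨f p, h5⟩ : Fin (6 * n₀)) = F p := Fin.ext (hF p hp).symm
    rw [h7] at h6
    have h8 := hs3 (F p)
    cases hb : bf (F p)
    · rw [hb] at h6
      simp only [Bool.false_eq_true, if_false] at h6
      refine ⟨by omega, ?_⟩
      rw [eq_comm, decide_eq_false_iff_not]
      omega
    · rw [hb] at h6
      simp only [if_true] at h6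
      refine ⟨by omega, ?_⟩
      rw [eq_comm, decide_eq_true_iff]
      omega
  have hP1 : ∀ p < n₀, Pic1 (Z (F p)) S ends (fun s => P (ρ s)) (lo' (F p)) (hi' (F p)) a₀
      (2 * w) N m (fun k : K (F p) => B k) b₀ s₀ := by
    intro p hp
    have h4 := hpic' (F p)
    rw [(hcode p hp).1, (hcode p hp).2] at h4
    exact h4
  have hregsub : ∀ g s, ∀ c ∈ Reg (lo' g s) (hi' g s) a₀, c ∈ Reg (lo (ρ s)) (hi (ρ s)) n := by
    intro g s c hc
    rw [mem_Reg] at hc ⊢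
    have := h2 g s c.1 hc.1 hc.2.1
    exact ⟨this.1, this.2.1, by omega⟩
  refine ⟨ρ s₀, fun p => W' (F p), fun p => lo' (F p) s₀, fun p => hi' (F p) s₀, ?_, ?_⟩
  · refine ⟨h.pgs.page (ρ s₀), ?_, ?_, ?_, ?_, ?_, ?_, ?_⟩
    · intro p _
      exact (h1 (F p)).wfin (r := 3) (fun s x hx hx' => (h2 (F p) s x hx hx').2.2.1) (by
        rintro ⟨k, hk⟩
        obtain ⟨i, hi, hik⟩ := hG.used (F p) k hk
        exact ⟨i, hi, Subtype.ext ((hG.own (F p) i hi).trans hik)⟩)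
    · intro p _
      exact (h1 (F p)).vconn (hpat (F p)).2 (by omega) (by omega)
        (fun s x hx hx' => (h2 (F p) s x hx hx').2.2.2) (by
        rintro ⟨k, hk⟩
        obtain ⟨i, hi, hik⟩ := hG.used (F p) k hk
        exact ⟨i, hi, Subtype.ext ((hG.own (F p) i hi).trans hik)⟩)
    · intro p hp q hq hpq
      rw [Finset.mem_range] at hp hq
      have hne := hFinj p hp q hq hpq
      rw [Set.disjoint_left]
      rintro v (⟨s, c, hc, rfl⟩ | ⟨k, hk⟩) (⟨s', c', hc', hcc⟩ | ⟨k', hk'⟩)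
      · refine h3 (F p) (F q) s s' (fun hh => hne (congrArg Prod.fst hh)) c ?_ c' ?_ hcc
        · rw [mem_Reg] at hc ⊢
          exact ⟨hc.1, hc.2.1, by omega⟩
        · rw [mem_Reg] at hc' ⊢
          exact ⟨hc'.1, hc'.2.1, by omega⟩
      · exact h.pB k' (ρ s) c (hregsub _ _ c hc) hk'
      · rw [hcc] at hk
        exact h.pB k (ρ s') c' (hregsub _ _ c' hc') hk
      · refine Set.disjoint_left.1 (h.dis k k' ?_) hk hk'
        intro hkk
        exact Set.disjoint_left.1 (hG.dis (F p) (F q) hne) k.2 (hkk ▸ k'.2)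
    · intro p hp
      rw [Finset.mem_range] at hp
      have h4 := (hP1 p hp).1
      have h5 := h2 (F p) s₀ _ le_rfl h4
      have h6 := h2 (F p) s₀ _ h4 le_rfl
      exact ⟨h5.1, h4, h6.2.1⟩
    · intro p hp q hq hpq
      rw [Finset.mem_range] at hp hq
      by_contra hcon
      push Not at hcon
      have h4 := (hP1 p hp).1
      have h5 := (hP1 q hq).1
      have hne := hFinj p hp q hq hpq
      refine h3 (F p) (F q) s₀ s₀ (fun hh => hne (congrArg Prod.fst hh))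
        (max (lo' (F p) s₀) (lo' (F q) s₀), 0) ?_ (max (lo' (F p) s₀) (lo' (F q) s₀), 0) ?_ rfl
      · rw [mem_Reg]
        exact ⟨le_max_left _ _, max_le h4 hcon.1, Nat.zero_le _⟩
      · rw [mem_Reg]
        exact ⟨le_max_right _ _, max_le hcon.2 h5, Nat.zero_le _⟩
    · intro p _ x j hx hx' hj
      exact Wst.page (s := s₀) (c := (x, j)) ⟨hx, hx', hj⟩
    · intro p _ x j hx hx' hj hj'
      rintro (⟨s, c, hc, hcc⟩ | ⟨k, hk⟩)
      · have hcc : P (ρ s₀) (x, j) = P (ρ s) c := hcc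
        have h4 := hregsub _ _ c hc
        rw [mem_Reg] at h4 hc
        by_cases hs : ρ s₀ = ρ s
        · rw [← hs] at hcc h4
          have h5 := (h.pgs.page (ρ s₀)).inj (x, j) c hx hx' hj' h4.1 h4.2.1 h4.2.2 hcc
          rw [← h5] at hc
          simp only at hc
          omega
        · exact h.pgs.dis (ρ s₀) (ρ s) hs (x, j) ⟨hx, hx', hj'⟩ c h4 hcc
      · exact h.pB k (ρ s₀) (x, j) ⟨hx, hx', hj'⟩ hk
  · cases b₀ with
    | true =>
      left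
      intro p hp
      have h4 := (hP1 p hp).2
      simp only [if_true] at h4
      exact h4
    | false =>
      right
      refine ⟨fun p => K (F p), fun p hp q hq hpq => hG.dis _ _ (hFinj p hp q hq hpq),
        fun p _ k hk => hBW (F p) k hk, ?_⟩
      intro p hp M' _ hFr hJ
      have h4 := (hP1 p hp).2
      simp only [Bool.false_eq_true, if_false] at h4
      have h5 := ((h1 (F p)).lev (n' := a₀) (by omega)).res (M' := M') (W := W' (F p))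
        (fun s c hc => Wst.page hc) (fun k v hv => Or.inr ⟨k, hv⟩) (by
        intro I hI
        have h6 := hJ (I.image Subtype.val) (by
          intro k hk
          obtain ⟨k', hk', rfl⟩ := Finset.mem_image.1 hk
          exact ⟨(hG.gr (F p) k').1 (hI k' hk'), k'.2⟩)
        exact (JU.image (Subtype.val_injective.injOn)).1 h6)
      exact h5.patU hFr (hG.mono (F p)) hw (by nlinarith) (by omega) (by omega) h4

end EN
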