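import Pool.Agent.EN.KtPort
import Pool.Agent.EN.LinkDef2

/-!
# Certified pieces are linked to the other side through the pages (helper88, MP_5165fa_co)

`Crt.kge_lm`: row LM of LINK.
-/

open Set
open scoped Matroid

namespace EN

open BIC Gad

variable {α V : Type*} {M : Matroid α} {S Sf : Set α} {ends : α → Sym2 V} {u : ℕ}

/-- A spanning tree connects. -/
lemma arb_vconn {W : Set V} (hW : W.Finite) {τ : Set α} (h : Arb S ends W τ) :
    VConn τ ends W := by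
  intro a ha b hb
  by_contra hcon
  obtain ⟨R, hR⟩ : ∃ R : Set V, R = {v | Relation.ReflTransGen
    (fun x y => GAdj τ ends x y ∧ x ∈ W ∧ y ∈ W) a v} := ⟨_, rfl⟩
  have hmem : ∀ v, v ∈ R ↔ Relation.ReflTransGen
      (fun x y => GAdj τ ends x y ∧ x ∈ W ∧ y ∈ W) a v := by
    intro v
    rw [hR]
    rfl
  have hRW : R ⊆ W := by
    intro v hv
    rcases Relation.ReflTransGen.cases_tail ((hmem v).1 hv) with h2 | ⟨y, _, _, _, h3⟩
    · rw [h2]
      exact ha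
    · exact h3
  have haR : a ∈ R := (hmem a).2 Relation.ReflTransGen.refl
  have hbR : b ∉ R := fun hh => hcon ((hmem b).1 hh)
  have hclR : ∀ e ∈ τ, (∃ x ∈ ends e, x ∈ R) → ∀ y ∈ ends e, y ∈ R := by
    rintro e he ⟨x, hx, hxR⟩ y hy
    have hWe := (h.1 he).2
    revert hx hy hWe
    generalize hq : ends e = q
    induction q using Sym2.ind with
    | _ p r =>
      intro hx hy hWe
      have hp : p ∈ W := hWe p (Sym2.mem_mk_left _ _)
      have hr : r ∈ W := hWe r (Sym2.mem_mk_right _ _)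
      have hpr : GAdj τ ends p r := ⟨e, he, hq⟩
      have hRp : p ∈ R → r ∈ R := fun hh => (hmem r).2 (((hmem p).1 hh).tail ⟨hpr, hp, hr⟩)
      have hRr : r ∈ R → p ∈ R := fun hh =>
        (hmem p).2 (((hmem r).1 hh).tail ⟨hpr.symm, hr, hp⟩)
      rcases Sym2.mem_iff.1 hx with rfl | rfl <;> rcases Sym2.mem_iff.1 hy with rfl | rfl
      · exact hxR
      · exact hRp hxR
      · exact hRr hxR
      · exact hxR
  have hRf : R.Finite := hW.subset hRW
  obtain ⟨T, hT⟩ : ∃ T : Set α, T = {e | e ∈ τ ∧ ∃ x ∈ ends e, x ∈ R} := ⟨_, rfl⟩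
  have key : ∀ v ∈ W, T.ncard = (R \ {v}).ncard := by
    intro v hv
    obtain ⟨φ, hφ, hφe⟩ := h.2.2 v hv
    have himg : φ '' T = R \ {v} := by
      ext x
      constructor
      · rintro ⟨e, he, rfl⟩
        rw [hT] at he
        exact ⟨hclR e he.1 he.2 _ (hφe e he.1), (hφ.mapsTo he.1).2⟩
      · rintro ⟨hx, hxv⟩
        obtain ⟨e, he, rfl⟩ := hφ.surjOn (⟨hRW hx, hxv⟩ : x ∈ W \ {v})
        refine ⟨e, ?_, rfl⟩
        rw [hT]
        exact ⟨he, _, hφe e he, hx⟩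
    rw [← himg]
    refine (Set.InjOn.ncard_image ?_).symm
    refine hφ.injOn.mono ?_
    rw [hT]
    exact fun e he => he.1
  have k1 := key a ha
  have k2 := key b hb
  rw [sdiff_singleton_eq_self hbR] at k2
  have k3 := ncard_sdiff_singleton_add_one haR hRf
  omega

lemma pgs_mono {σ : Type*} {P : σ → ℕ × ℕ → V} {lo hi : σ → ℕ} {n : ℕ}
    (h : Pgs S ends P lo hi n) (hS : S ⊆ Sf) : Pgs Sf ends P lo hi n where
  page := fun s => ⟨(h.page s).inj, fun x b h1 h2 h3 => by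
      obtain ⟨e, he, hh⟩ := (h.page s).ver x b h1 h2 h3
      exact ⟨e, hS he, hh⟩, fun x b h1 h2 h3 h4 => by
      obtain ⟨e, he, hh⟩ := (h.page s).hor x b h1 h2 h3 h4
      exact ⟨e, hS he, hh⟩⟩
  dis := h.dis

/-- The cells `(0, b)`, `b < m`, are joined by the edges of the grid. -/
lemma row_cn {t : ℕ} {U : ℕ × ℕ → Set V} {ed : ℕ × ℕ → ℕ × ℕ → α} {A : Set α}
    (hU : ∀ c c', Nb t c c' → ed c c' ∈ S ∧ ∃ a ∈ U c, ∃ b ∈ U c', ends (ed c c') = s(a, b))
    (hA : Eds t ed ⊆ A) : ∀ m, 1 ≤ m → m ≤ t →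
    Mdr.Cn (fun i j => Lnk (A ∩ S) ends (U (0, i)) (U (0, j))) (Finset.range m) := by
  intro m
  induction m with
  | zero => intro h; omega
  | succ m ih =>
    intro _ hm
    rcases Nat.eq_zero_or_pos m with h0 | h0
    · subst h0
      exact Mdr.Cn.single 0
    · have h1 := ih (by omega) (by omega)
      have hn : Nb t (0, m - 1) (0, m) :=
        ⟨⟨by simp only; omega, by simp only; omega⟩, ⟨by simp only; omega, by simp only; omega⟩,
          Or.inl ⟨rfl, Or.inl (by simp only; omega)⟩⟩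
      obtain ⟨h2, a, ha, b, hb, hab⟩ := hU _ _ hn
      have e : Finset.range (m + 1) = Finset.range m ∪ {m} := by
        ext i
        simp only [Finset.mem_range, Finset.mem_union, Finset.mem_singleton]
        omega
      rw [e]
      exact Mdr.Cn.join h1 (Mdr.Cn.single m) ⟨m - 1, Finset.mem_range.2 (by omega), m,
        Finset.mem_singleton_self m, ⟨ed (0, m - 1) (0, m), ⟨hA ⟨_, _, hn, rfl⟩, h2⟩, a, ha, b, hb,
          hab⟩⟩

/-- **Row LM.**  A certified piece with legs in columns (they arrive at the window `a`, the piece has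
no vertex above it) is linked to `E₂` if every set `X` outside of `E₂` of small order leaves a
connected set of elements which contains a column of every page. -/
theorem Crt.kge_lm [M.Finite] {σ : Type*} {P : σ → ℕ × ℕ → V} {lo hi : σ → ℕ} {n a t : ℕ}
    {V₀ : Set V} {A : ℕ → Set V} {C : Set α} {ed : ℕ × ℕ → ℕ × ℕ → α}
    (hC : Crt S ends V₀ A t C ed) (hF : FrmU M Sf ends u) (hS : S ⊆ Sf)
    (hP : Pgs S ends P lo hi n)
    (hV : ∀ s, ∀ c ∈ Reg (lo s) (hi s) n, a < c.2 → P s c ∉ V₀) (sg : ℕ → σ) (cx : ℕ → ℕ)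
    (hx : ∀ i < t, lo (sg i) ≤ cx i ∧ cx i ≤ hi (sg i) ∧ P (sg i) (cx i, a) ∈ A i)
    {E₂ : Set α} {K : ℕ} (hKt : K + u + 2 ≤ t) (hn : a + (K + u + 2) ≤ n)
    (hal : ∀ X ⊆ M.E, Disjoint X E₂ →
      BIC.rk M X + BIC.rk M (M.E \ X) < BIC.rk M M.E + K → ∃ (W : Set V) (B : Set α),
      W.Finite ∧ B ⊆ Sf ∧ Disjoint B X ∧ VConn B ends W ∧
      ∀ s x, lo s ≤ x → x ≤ hi s → ∃ c, lo s ≤ c ∧ c ≤ hi s ∧
        ∀ b, a < b → b ≤ n → P s (c, b) ∈ W) :
    KGe M (Eds t ed) E₂ K := by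
  obtain ⟨U, τ, F, a1, a2, a3, a4, a5, a6, a7⟩ := hC
  intro X hX1 hX2
  by_contra hcon
  push Not at hcon
  have hXE : X ⊆ M.E := hX2.trans sdiff_subset
  obtain ⟨W, B, w1, w2, w3, w4, w5⟩ := hal X hXE
    (Set.disjoint_left.2 fun x hx hx' => (hX2 hx).2 hx') (by omega)
  have hcl : ∀ i < t, (0, i) ∈ Cl t := fun i hi => ⟨by simp only; omega, hi⟩
  have hL : LowC S ends P lo hi n a t (fun i => U (0, i)) sg cx := by
    refine ⟨fun i hi => (a1 _ (hcl i hi)).1, fun i hi => ?_, fun i hi j hj hij => ?_,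
      fun i hi => ⟨(hx i hi).1, (hx i hi).2.1⟩, fun i hi => a7 i hi (hx i hi).2.2,
      fun i hi s c hc hac hmem => hV s c hc hac ((a1 _ (hcl i hi)).2.1 hmem)⟩
    · have h1 := a1 _ (hcl i hi)
      exact vconn_mono (arb_vconn h1.1 h1.2.2) fun e he => (h1.2.2.1 he).1
    · refine a2 _ (hcl i hi) _ (hcl j hj) (fun h => hij ?_)
      rw [Prod.mk.injEq] at h
      exact h.2
  have h2 := hL.lm hP hF hS (J := Finset.range t) (fun i hi => Finset.mem_range.1 hi) hXE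
    (W := W) (m := K + u + 2) (cn_mono ?_ (row_cn a6 hX1 t (by omega) (le_refl t))) w1
    (vconn_mono w4 fun e he => ⟨⟨hF.sub (w2 he), Set.disjoint_left.1 w3 he⟩, w2 he⟩) ?_ (by omega)
    (by rw [Finset.card_range]; exact hKt) hn
  · omega
  · rintro i j ⟨e, he, h⟩
    exact ⟨e, ⟨he.1, hS he.2⟩, h⟩
  · intro i hi
    have h3 := hx i (Finset.mem_range.1 hi)
    obtain ⟨c, c1, c2, c3⟩ := w5 (sg i) (cx i) h3.1 h3.2.1
    exact ⟨c, c1, c2, fun b hb hb' => c3 b hb (by omega)⟩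

/-- Row LM for one page. -/
theorem Crt.kge_lm_page [M.Finite] {P : ℕ × ℕ → V} {l r n a t : ℕ}
    {V₀ : Set V} {A : ℕ → Set V} {C : Set α} {ed : ℕ × ℕ → ℕ × ℕ → α}
    (hC : Crt S ends V₀ A t C ed) (hF : FrmU M Sf ends u) (hS : S ⊆ Sf)
    (hP : Page S ends P l r n) (hV : ∀ c ∈ Reg l r n, a < c.2 → P c ∉ V₀) (y : ℕ → ℕ)
    (hy : ∀ i < t, l ≤ y i ∧ y i ≤ r ∧ P (y i, a) ∈ A i) {E₂ : Set α} {K : ℕ}
    (hKt : K + u + 2 ≤ t) (hn : a + (K + u + 2) ≤ n)
    (hal : ∀ X ⊆ M.E, Disjoint X E₂ →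
      BIC.rk M X + BIC.rk M (M.E \ X) < BIC.rk M M.E + K → ∃ (W : Set V) (B : Set α),
      W.Finite ∧ B ⊆ Sf ∧ Disjoint B X ∧ VConn B ends W ∧ ∃ c, l ≤ c ∧ c ≤ r ∧
        ∀ b, a < b → b ≤ n → P (c, b) ∈ W) :
    KGe M (Eds t ed) E₂ K := by
  refine hC.kge_lm (σ := Unit) (P := fun _ => P) (lo := fun _ => l) (hi := fun _ => r) hF hS
    ⟨fun _ => hP, fun s s' h => absurd (Subsingleton.elim s s') h⟩ (fun _ => hV) (fun _ => ())
    y hy hKt hn ?_
  intro X hX hd hr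
  obtain ⟨W, B, w1, w2, w3, w4, c, w5⟩ := hal X hX hd hr
  exact ⟨W, B, w1, w2, w3, w4, fun _ _ _ _ => ⟨c, w5⟩⟩

end EN
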