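import Pool.Agent.EN.LinkG
import Pool.Agent.EN.LinkF
import Pool.Agent.EN.KgeCrt
import Pool.Agent.EN.LmPage
import Pool.Agent.EN.AlphaE
import Pool.Agent.EN.PatDefs

/-!
# Row D2 of T-star, patterns (row F7): a pattern gives a uniform minor
-/

open Set BIC BICS
open scoped Matroid

namespace TSK

universe u

open Mdl Mdj EN Gad

set_option maxHeartbeats 1000000

/-- **Row D2, patterns other than the complete minor.** -/
theorem linkPat0 (k u : ℕ) : ∃ k₁ Nn mp n₁ y₀ : ℕ, ∀ {α : Type u} {V σ κ : Type}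
    (M : Matroid α) [M.Finite] (S Sf Q E₂ D₂ : Set α) (ends : α → Sym2 (HV V σ)) (H : Host V σ)
    (N : ℤ) (n' t' : ℕ) (Y : EN.Sys κ) (P : ℕ → ℕ × ℕ → HV V σ) (lo hi : ℕ → ℕ) (n : ℕ)
    (B : κ → Set (HV V σ)) (col : ℕ → ℕ),
    S ⊆ Sf → FrmU M Sf ends u → Q ⊆ M.E → Disjoint Q S → Disjoint Sf E₂ → Disjoint S D₂ →
    E₂ ⊆ M.E → D₂ ⊆ M.E \ E₂ → PGrid (M✶ ／ D₂) E₂ n' → AlphaC M E₂ Sf ends H N k₁ → y₀ ≤ n' →
    RealU Y (M ／ Q) S ends P lo hi n B col → Y.Mo → n₁ ≤ n → PgH H N P lo hi n →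
    Y.Pat Nn mp t' → Y.KT t' ∨ HasUniformMinor M k := by
  classical
  obtain ⟨K₁, K₂, t₀, n₀, hL⟩ := link_main.{u, 0} k u
  obtain ⟨t, ht⟩ : ∃ t, t = max (max t₀ 2) (max (K₁ + u + 2) (K₂ + u + 2)) := ⟨_, rfl⟩
  have ht0 : t₀ ≤ t := by rw [ht]; exact (le_max_left _ _).trans (le_max_left _ _)
  have ht2 : 2 ≤ t := by rw [ht]; exact (le_max_right _ _).trans (le_max_left _ _)
  have htK1 : K₁ + u + 2 ≤ t := by rw [ht]; exact (le_max_left _ _).trans (le_max_right _ _)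
  have htK2 : K₂ + u + 2 ≤ t := by rw [ht]; exact (le_max_right _ _).trans (le_max_right _ _)
  obtain ⟨y₀, hy⟩ := hL t ht0
  obtain ⟨w, hw⟩ : ∃ w, w = (8 * t + 1) * (6 * t) + 1 := ⟨_, rfl⟩
  have hw1 : (8 * t + 1) * (6 * t) + 1 ≤ w := hw.ge
  have hw2 : (8 * t + 1) * (6 * t) + 1 ≤ 2 * w := hw1.trans (by omega)
  obtain ⟨m₀, hm₀⟩ : ∃ m₀, m₀ = max n₀ 1 := ⟨_, rfl⟩
  obtain ⟨N₀, hN₀⟩ : ∃ N₀, N₀ = 3 * ((2 * w) * (2 * w)) + 2 := ⟨_, rfl⟩
  obtain ⟨a, ha⟩ : ∃ a, a = 4 * w + 3 + 2 * t := ⟨_, rfl⟩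
  refine ⟨K₂, 6 * m₀ * N₀, 2 * w + 1, a + (K₁ + u + 2) + (K₂ + u + 2), y₀, ?_⟩
  intro α V σ κ M _ S Sf Q E₂ D₂ ends H N n' t' Y P lo hi n B col hS hFf hQ hQS hSE hSD hE₂ hD₂
    hPG hal hy0 hR hMo hn hPg hpat
  have hF : FrmU M S ends u := hFf.subset hS
  rcases hR.fm1 hMo (w := w) (N := N₀) (m := 2 * w + 1) (n₀ := m₀) (t' := t') (by omega)
    (by rw [hN₀]) le_rfl (by omega) (by rw [hm₀]; exact le_max_right _ _) hpat with hKT |
    ⟨τ, W, lp, rp, hfm, hpic⟩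
  · exact Or.inl hKT
  right
  obtain ⟨I, hI⟩ : ∃ I, I = Finset.range m₀ := ⟨_, rfl⟩
  rw [← hI] at hfm
  have hmem : ∀ p, p ∈ I ↔ p < m₀ := fun p => by rw [hI, Finset.mem_range]
  have h0I : 0 ∈ I := (hmem 0).2 (by rw [hm₀]; exact lt_of_lt_of_le one_pos (le_max_right _ _))
  have han : a ≤ n := by omega
  have hpcs := hfm.pcs (a := a) (by omega) (by omega) han
  have hup : ∀ p ∈ I, ∀ c ∈ Reg (lo τ) (hi τ) n, a < c.2 →
      P τ c ∉ Vp (P τ) (4 * w + 3) a W lp rp p := fun p hp c hc hca =>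
    hfm.up han hp hc hca (by omega)
  refine hy n' hy0 M S ends E₂ D₂ I (Vp (P τ) (4 * w + 3) a W lp rp)
    (Cr1 S ends (P τ) (4 * w + 3) a t W lp rp) hF hpcs ?_ hE₂ hD₂ hPG ?_ ?_ ?_ ?_
  · rw [hI, Finset.card_range, hm₀]
    exact le_max_left _ _
  · intro p _
    rw [Set.disjoint_union_right]
    exact ⟨hSE.mono_left (ins_sub.trans hS), hSD.mono_left ins_sub⟩
  · -- (LK)
    rintro p hp q hq hpq C C' ed ed' ⟨A, hA, hc⟩ ⟨A', hA', hc'⟩ R hR'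
    exact lk_page_of (u := u) (K := K₁) (fun h₁ h₂ hV hR hR₁ hR₂ L β γ hL hd =>
      hF.kge_crt ht2 h₁ h₂ hV hR hR₁ hR₂ L β γ hL hd) hfm.page htK1 (by omega) hup hpcs.dis
      (fun p hp => ⟨(hfm.le p hp).1, (hfm.le p hp).2.2⟩) hfm.sep hp hq hpq hA hA' hc hc' hR'
  · -- (LM)
    rintro p hp C ed ⟨A, ⟨y, hy1, hy2⟩, hc⟩
    have hle := hfm.le p hp
    refine hc.kge_lm_page hFf hS hfm.page (hup p hp) y (fun i hi => ?_) htK2 (by omega) ?_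
    · have := hy1 i hi
      exact ⟨by omega, by omega, this.2.2.1⟩
    · intro X hX hd hr
      obtain ⟨VB, B', h1, h2, h3, h4, h5⟩ := hal X hX hd hr
      obtain ⟨s, hs1, hs2⟩ := hPg τ (lp p) hle.1 (hle.2.1.trans hle.2.2)
      obtain ⟨c, hc1, hc2⟩ := h5 s (by omega)
      obtain ⟨h6, h7, h8⟩ := hs2 c hc1
      refine ⟨VB, B', h1, h2, h3, h4, c, h6, h7, ?_⟩
      intro b _ hb
      obtain ⟨b', g1, g2, g3, g4⟩ := h8 b hb
      rw [g4]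
      exact hc2 b' g1 g2 g3
  · -- (J)
    intro D hDI hD
    rcases hpic with hZ | ⟨K, hK1, hK2, hK3⟩
    · refine ⟨∅, Finset.empty_subset _, by simp, ?_⟩
      intro p hp hpD _
      exact hfm.jZ hF (by omega) hw2 (by omega) han hp (hZ p ((hmem p).1 hp)) hDI hD hpD
    · obtain ⟨E, hE1, hE2, hE3⟩ := JU.pieces hF hpcs hDI (B := B) (K := K) (gr := Y.gr)
        (fun p hp q hq hpq => hK1 p ((hmem p).1 hp) q ((hmem q).1 hq) hpq)
        (fun p hp k hk => (hK2 p ((hmem p).1 hp) k hk).trans subset_union_left)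
        (fun J hJ => (hR.grd J hJ).of_contract hQ hQS.symm (hS.trans hFf.sub))
      refine ⟨E, hE1, hE2, ?_⟩
      intro p hp hpD hpE
      have hfr := frm_piece hF hpcs hDI hD hp hpD
      have hfin : (M ／ Ufm S ends D (Vp (P τ) (4 * w + 3) a W lp rp)).Finite :=
        BQ.fin_contract _
      have hsub : BIC.ins S ends (W p) ⊆
          BIC.ins S ends (Vp (P τ) (4 * w + 3) a W lp rp p) :=
        ins_mono subset_union_left
      refine hfm.jU hF (by omega) hw1 (by omega) han hp hDI hD hpD ?_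
      refine hK3 p ((hmem p).1 hp) _ (hfr.mono hsub) ?_
      intro J hJ
      have h1 := hE3 p hp hpD hpE J hJ
      have hJW : ∀ k ∈ J, B k ⊆ W p := fun k hk => hK2 p ((hmem p).1 hp) k (hJ k hk).2
      have hJV : ∀ k ∈ J, B k ⊆ Vp (P τ) (4 * w + 3) a W lp rp p := fun k hk =>
        (hJW k hk).trans subset_union_left
      exact (ju_ins hJW).2 ((ju_ins hJV).1 h1)

end TSK
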