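import Pool.Agent.K4.Root
import Pool.Agent.EN.Page

/-!
# Row R of LINK: rooted pictures

A grid model `U c`, `c ∈ Cl w`, with an apex `Z`; every branch set has its own column of a page
that avoids `Z` above the branch set, and the page has `k` further lanes above the picture. Then
for some full subgrid of side `h` there are `k` disjoint connected sets from the `k` lanes to `k`
prescribed branch sets of its top row. They avoid the rest of the subgrid and `Z`.
-/

open Set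
open scoped Matroid

namespace EN

open BIC Gad K4R

variable {α V : Type*} {S : Set α} {ends : α → Sym2 V}

/-- The simple graph of the elements of `S` inside `R`. -/
def RG (S : Set α) (ends : α → Sym2 V) (R : Set V) : SimpleGraph V where
  Adj u v := u ≠ v ∧ GAdj S ends u v ∧ u ∈ R ∧ v ∈ R
  symm := ⟨fun _ _ h => ⟨h.1.symm, h.2.1.symm, h.2.2.2, h.2.2.1⟩⟩
  loopless := ⟨fun _ h => h.1 rfl⟩

lemma nbR_symm {w : ℕ} {c c' : ℕ × ℕ} (h : Nb w c c') : Nb w c' c := by
  refine ⟨h.2.1, h.1, ?_⟩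
  rcases h.2.2 with ⟨h6, h7⟩ | ⟨h6, h7⟩
  · exact Or.inl ⟨h6.symm, h7.symm⟩
  · exact Or.inr ⟨h6.symm, h7.symm⟩

/-- The simple graph of the grid model. -/
def WG (S : Set α) (ends : α → Sym2 V) (w : ℕ) (U : ℕ × ℕ → Set V) : SimpleGraph V where
  Adj u v := u ≠ v ∧ GAdj S ends u v ∧ ∃ c ∈ Cl w, ∃ c' ∈ Cl w, (c = c' ∨ Nb w c c') ∧
    u ∈ U c ∧ v ∈ U c'
  symm := ⟨by
    rintro u v ⟨h1, h2, c, hc, c', hc', h3, h4, h5⟩
    refine ⟨h1.symm, h2.symm, c', hc', c, hc, ?_, h5, h4⟩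
    rcases h3 with h | h
    · exact Or.inl h.symm
    · exact Or.inr (nbR_symm h)⟩
  loopless := ⟨fun _ h => h.1 rfl⟩

lemma RG.fin {R : Set V} (hR : R.Finite) : (RG S ends R).edgeSet.Finite := by
  classical
  have h1 : ((fun q : V × V => s(q.1, q.2)) '' (R ×ˢ R)).Finite := (hR.prod hR).image _
  refine h1.subset ?_
  intro e he
  induction e using Sym2.ind with
  | _ x y =>
    have h2 : x ≠ y ∧ GAdj S ends x y ∧ x ∈ R ∧ y ∈ R := he
    exact ⟨(x, y), ⟨h2.2.2.1, h2.2.2.2⟩, rfl⟩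

/-- Connected sets are joined in every graph that contains their edges. -/
lemma VConn.joined {G : SimpleGraph V} {A B : Set V} (hA : VConn S ends A)
    (hG : ∀ u ∈ A, ∀ v ∈ A, u ≠ v → GAdj S ends u v → G.Adj u v) (hB : A ⊆ B)
    {u v : V} (hu : u ∈ A) (hv : v ∈ A) : K4R.Joined G B u v := by
  have key : ∀ v, Relation.ReflTransGen (fun x y => GAdj S ends x y ∧ x ∈ A ∧ y ∈ A) u v →
      K4R.Joined G B u v := by
    intro v h
    induction h with
    | refl => exact K4R.Joined.refl (hB hu)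
    | @tail b c _ h2 ih =>
      by_cases hbc : b = c
      · rw [← hbc]; exact ih
      · exact ih.trans (K4R.Joined.adj (hG _ h2.2.1 _ h2.2.2 hbc h2.1) (hB h2.2.1) (hB h2.2.2))
  exact key v (hA u hu v hv)

/-- The vertices of a walk form a connected set. -/
lemma walkR_vconn {G : SimpleGraph V} (hG : ∀ u v, G.Adj u v → GAdj S ends u v) {a b : V}
    (p : G.Walk a b) : VConn S ends {v | v ∈ p.support} := by
  induction p with
  | nil =>
    intro u hu v hv
    simp only [SimpleGraph.Walk.support_nil, List.mem_singleton, mem_ofPred_eq] at hu hv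
    rw [hu, hv]
  | @cons x y c hxy p ih =>
    have e : {v | v ∈ (SimpleGraph.Walk.cons hxy p).support} = {x} ∪ {v | v ∈ p.support} := by
      ext v
      simp
    rw [e]
    obtain ⟨e', he', hh⟩ := hG x y hxy
    exact vc_lnk (vconn_singleton x) ih ⟨e', he', x, rfl, y, by simp, hh⟩

lemma walkR_in {R : Set V} {a b : V} (p : (RG S ends R).Walk a b) (ha : a ∈ R) :
    ∀ v ∈ p.support, v ∈ R := by
  induction p with
  | nil =>
    intro v hv
    simp only [SimpleGraph.Walk.support_nil, List.mem_singleton] at hv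
    rw [hv]; exact ha
  | @cons x y c hxy p ih =>
    intro v hv
    rw [SimpleGraph.Walk.support_cons, List.mem_cons] at hv
    rcases hv with rfl | hv
    · exact ha
    · exact ih hxy.2.2.2 v hv

/-- The labelled blobs of a grid model. -/
def BlobR (U : ℕ × ℕ → Set V) (l : ℕ × ℕ × ℕ) : Set V := {v | l.1 = 0 ∧ v ∈ U (l.2.1, l.2.2)}

lemma blobR_zero (U : ℕ × ℕ → Set V) (x y : ℕ) : BlobR U (0, x, y) = U (x, y) := by
  ext v
  exact ⟨fun h => h.2, fun h => ⟨rfl, h⟩⟩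

lemma blobR_pos (U : ℕ × ℕ → Set V) {t : ℕ} (ht : t ≠ 0) (x y : ℕ) : BlobR U (t, x, y) = ∅ := by
  rw [eq_empty_iff_forall_notMem]
  intro v h
  exact ht h.1

lemma wgR_conn {w : ℕ} {U : ℕ × ℕ → Set V} {c c' : ℕ × ℕ} (hc : c ∈ Cl w) (hc' : c' ∈ Cl w)
    (hcc : Nb w c c') {A : Set V} (hA : VConn S ends A) (hAU : A ⊆ U c ∪ U c') :
    ConnIn (WG S ends w U) A := by
  intro u hu v hv
  refine VConn.joined hA ?_ (le_refl _) hu hv
  intro a ha b hb hab hg
  refine ⟨hab, hg, ?_⟩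
  rcases hAU ha with h1 | h1 <;> rcases hAU hb with h2 | h2
  · exact ⟨c, hc, c, hc, Or.inl rfl, h1, h2⟩
  · exact ⟨c, hc, c', hc', Or.inr hcc, h1, h2⟩
  · exact ⟨c', hc', c, hc, Or.inr (nbR_symm hcc), h1, h2⟩
  · exact ⟨c', hc', c', hc', Or.inl rfl, h1, h2⟩

lemma wgR_bgrid {w : ℕ} (hw : 2 ≤ w) {U : ℕ × ℕ → Set V} (hUc : ∀ c ∈ Cl w, VConn S ends (U c))
    (hUd : ∀ c ∈ Cl w, ∀ c' ∈ Cl w, c ≠ c' → Disjoint (U c) (U c'))
    (hadj : ∀ c c', Nb w c c' → Lnk S ends (U c) (U c')) :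
    ∃ up : ℕ → ℕ → V, BGrid (WG S ends w U) w (BlobR U) up := by
  classical
  have hne : ∀ c ∈ Cl w, (U c).Nonempty := by
    rintro ⟨x, y⟩ ⟨h1, h2⟩
    simp only at h1 h2
    by_cases h3 : y + 1 < w
    · obtain ⟨e, _, a, ha, _⟩ := hadj (x, y) (x, y + 1) ⟨⟨h1, h2⟩, ⟨h1, h3⟩, Or.inl ⟨rfl, Or.inl rfl⟩⟩
      exact ⟨a, ha⟩
    · obtain ⟨e, _, a, ha, _⟩ := hadj (x, y) (x, y - 1) ⟨⟨h1, h2⟩, ⟨h1, by simp only; omega⟩,
        Or.inl ⟨rfl, Or.inr (by simp only; omega)⟩⟩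
      exact ⟨a, ha⟩
  have h0 : ∀ x y, ∃ a, x < w → y + 1 < w →
      a ∈ U (x, y) ∧ Lnk S ends {a} (U (x, y + 1)) := by
    intro x y
    by_cases h : x < w ∧ y + 1 < w
    · obtain ⟨e, he, a, ha, b, hb, hab⟩ := hadj (x, y) (x, y + 1)
        ⟨⟨h.1, by simp only; omega⟩, ⟨h.1, h.2⟩, Or.inl ⟨rfl, Or.inl rfl⟩⟩
      exact ⟨a, fun _ _ => ⟨ha, e, he, a, rfl, b, hb, hab⟩⟩
    · obtain ⟨a, _⟩ := hne (0, 0) ⟨by simp only; omega, by simp only; omega⟩
      exact ⟨a, fun h1 h2 => absurd ⟨h1, h2⟩ h⟩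
  choose up hup using h0
  have key : ∀ u v : V, ∀ c ∈ Cl w, ∀ c' ∈ Cl w, (c = c' ∨ Nb w c c') → u ∈ U c → v ∈ U c' →
      (∃ x y, x + 1 < w ∧ y < w ∧ (u ∈ U (x, y) ∨ u ∈ U (x + 1, y)) ∧
        (v ∈ U (x, y) ∨ v ∈ U (x + 1, y))) ∨
      (∃ x y, x < w ∧ y + 1 < w ∧ (u ∈ U (x, y) ∨ u ∈ U (x, y + 1)) ∧
        (v ∈ U (x, y) ∨ v ∈ U (x, y + 1))) := by
    rintro u v ⟨x, y⟩ ⟨hx, hy⟩ ⟨x', y'⟩ ⟨hx', hy'⟩ hcc hu hv
    simp only at hx hy hx' hy'
    rcases hcc with hcc | hcc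
    · obtain ⟨rfl, rfl⟩ := Prod.mk.inj hcc
      by_cases h3 : x + 1 < w
      · exact Or.inl ⟨x, y, h3, hy, Or.inl hu, Or.inl hv⟩
      · obtain ⟨x', rfl⟩ : ∃ x', x = x' + 1 := ⟨x - 1, by omega⟩
        exact Or.inl ⟨x', y, hx, hy, Or.inr hu, Or.inr hv⟩
    · rcases hcc.2.2 with ⟨h1, h2 | h2⟩ | ⟨h1, h2 | h2⟩
      · simp only at h1 h2
        subst h1 h2
        exact Or.inr ⟨x, y, hx, hy', Or.inl hu, Or.inr hv⟩
      · simp only at h1 h2
        subst h1 h2
        exact Or.inr ⟨x, y', hx, hy, Or.inr hu, Or.inl hv⟩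
      · simp only at h1 h2
        subst h1 h2
        exact Or.inl ⟨x, y, hx', hy, Or.inl hu, Or.inr hv⟩
      · simp only at h1 h2
        subst h1 h2
        exact Or.inl ⟨x', y, hx, hy, Or.inr hu, Or.inl hv⟩
  refine ⟨up, ?_, ?_, ?_, ?_, ?_, ?_, ?_⟩
  · rintro ⟨t, x, y⟩ ⟨h1, h2, h3⟩ ⟨t', x', y'⟩ ⟨h1', h2', h3'⟩ v ⟨rfl, hv⟩ ⟨rfl, hv'⟩
    simp only at h1 h2 h1' h2' hv hv'
    by_contra hne
    have h4 : ((x, y) : ℕ × ℕ) ≠ (x', y') := by
      intro h4
      apply hne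
      rw [Prod.mk.injEq] at h4
      rw [h4.1, h4.2]
    exact (disjoint_left.1 (hUd _ ⟨h1, h2⟩ _ ⟨h1', h2'⟩ h4)) hv hv'
  · intro x hx y hy
    rw [blobR_zero]
    exact hne _ ⟨hx, hy⟩
  · intro x y hx hy
    rw [blobR_zero, blobR_zero, blobR_pos U one_ne_zero, union_empty]
    have h1 : Nb w (x, y) (x + 1, y) := ⟨⟨by simp only; omega, hy⟩, ⟨hx, hy⟩,
      Or.inr ⟨rfl, Or.inl rfl⟩⟩
    exact wgR_conn h1.1 h1.2.1 h1 (vc_lnk (hUc _ h1.1) (hUc _ h1.2.1) (hadj _ _ h1)) (le_refl _)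
  · intro x y hx hy
    rw [blobR_zero, blobR_zero, blobR_pos U two_ne_zero, union_empty]
    have h1 : Nb w (x, y) (x, y + 1) := ⟨⟨hx, by simp only; omega⟩, ⟨hx, hy⟩,
      Or.inl ⟨rfl, Or.inl rfl⟩⟩
    exact wgR_conn h1.1 h1.2.1 h1 (vc_lnk (hUc _ h1.1) (hUc _ h1.2.1) (hadj _ _ h1)) (le_refl _)
  · rintro u v ⟨_, _, c, hc, c', hc', hcc, hu, hv⟩
    rcases key u v c hc c' hc' hcc hu hv with ⟨x, y, h1, h2, h3, h4⟩ | ⟨x, y, h1, h2, h3, h4⟩
    · refine Or.inl ⟨x, y, h1, h2, ?_⟩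
      rw [blobR_zero, blobR_zero, blobR_pos U one_ne_zero, union_empty]
      exact ⟨h3, h4⟩
    · refine Or.inr ⟨x, y, h1, h2, ?_⟩
      rw [blobR_zero, blobR_zero, blobR_pos U two_ne_zero, union_empty]
      exact ⟨h3, h4⟩
  · intro x y hx hy
    rw [blobR_zero]
    exact (hup x y hx hy).1
  · intro x y hx hy
    rw [blobR_zero, blobR_pos U two_ne_zero, union_empty]
    have h1 : Nb w (x, y) (x, y + 1) := ⟨⟨hx, by simp only; omega⟩, ⟨hx, hy⟩,
      Or.inl ⟨rfl, Or.inl rfl⟩⟩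
    refine wgR_conn h1.1 h1.2.1 h1 (vc_lnk (vconn_singleton _) (hUc _ h1.2.1) (hup x y hx hy).2) ?_
    exact union_subset_union (singleton_subset_iff.2 (hup x y hx hy).1) (le_refl _)

/-- Rooted pictures, general form: `R` is a finite region that contains the grid model, `ρ` are
the roots. -/
theorem rooted_gen {w : ℕ} {U : ℕ × ℕ → Set V} {R : Set V} (hRf : R.Finite)
    (hUR : ∀ c ∈ Cl w, U c ⊆ R)
    (hUc : ∀ c ∈ Cl w, VConn S ends (U c))
    (hUd : ∀ c ∈ Cl w, ∀ c' ∈ Cl w, c ≠ c' → Disjoint (U c) (U c'))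
    (hadj : ∀ c c', Nb w c c' → Lnk S ends (U c) (U c')) {m : ℕ} (ρ : Fin m → V)
    (hρinj : Function.Injective ρ) (hρR : ∀ i, ρ i ∈ R)
    (hsep : ∀ T : Finset V, T.card < m → ∃ (i : Fin m), ∃ c ∈ Cl w,
      (∀ v ∈ Un (BlobR U) (RowL w c.2), v ∉ T) ∧
      ∃ A : Set V, VConn S ends A ∧ A ⊆ R ∩ (T : Set V)ᶜ ∧ ρ i ∈ A ∧ (A ∩ U c).Nonempty)
    (hm : 1 ≤ m) {h : ℕ} (hh : 1 ≤ h) (hw : (4 * m + 1) * (h + 2 * m) + 1 ≤ w)
    (f : ℕ → ℕ) (hf : InjOn f (Iio m)) (hfh : ∀ i < m, f i < h) :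
    ∃ a, a + (h + 2 * m) < w ∧ ∃ (Q : Fin m → Set V) (σ : Fin m ≃ Fin m),
      (∀ i, (Q i).Finite ∧ VConn S ends (Q i) ∧ Q i ⊆ R ∧
        (∀ j : Fin m, ρ j ∈ Q i ↔ j = σ i) ∧
        (Q i ∩ U (a + m + f i, a + m + h - 1)).Nonempty ∧
        (∀ c ∈ Cl h, (Q i ∩ U (a + m + c.1, a + m + c.2)).Nonempty → c = (f i, h - 1))) ∧
      ∀ i j, i ≠ j → Disjoint (Q i) (Q j) := by
  classical
  have hmul : 5 * (h + 2 * m) ≤ (4 * m + 1) * (h + 2 * m) := Nat.mul_le_mul_right _ (by omega)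
  have hw2 : 2 ≤ w := by omega
  obtain ⟨up, hB⟩ := wgR_bgrid hw2 hUc hUd hadj
  have hWG : WG S ends w U ≤ RG S ends R := by
    rintro u v ⟨h1, h2, c, hc, c', hc', _, h3, h4⟩
    exact ⟨h1, h2, hUR c hc h3, hUR c' hc' h4⟩
  set Zs : Finset V := Finset.univ.image ρ with hZs
  have hZk : Zs.card = m := by
    rw [hZs, Finset.card_image_of_injective _ hρinj, Finset.card_univ, Fintype.card_fin]
  have hsep' : ∀ T : Finset V, T.card < m → ∃ z ∈ Zs, ∃ j < w,
      (∀ v ∈ Un (BlobR U) (RowL w j), v ∉ T) ∧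
      ∃ y ∈ Un (BlobR U) (RowL w j), Joined (RG S ends R) (T : Set V)ᶜ z y := by
    intro T hT
    obtain ⟨i, c, hc, h1, A, hAc, hAR, hρA, y, hyA, hyU⟩ := hsep T hT
    refine ⟨ρ i, Finset.mem_image_of_mem _ (Finset.mem_univ _), c.2, hc.2, h1, y, ?_, ?_⟩
    · exact ⟨(0, c.1, c.2), ⟨rfl, hc.1, Or.inl rfl⟩, ⟨rfl, hyU⟩⟩
    · refine VConn.joined hAc ?_ (fun v hv => (hAR hv).2) hρA hyA
      intro u hu v hv huv hg
      exact ⟨huv, hg, (hAR hu).1, (hAR hv).1⟩
  obtain ⟨a, ha, z, p, hp1, hp2, hp3⟩ := K4R.rooted hB hWG (RG.fin hRf) hm hh hw hZk hsep' f hf hfh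
  have hz : ∀ i, ∃ j, ρ j = z i := by
    intro i
    have h1 := (hp1 i).1
    rw [hZs, Finset.mem_image] at h1
    obtain ⟨j, _, hj⟩ := h1
    exact ⟨j, hj⟩
  choose σ hσ using hz
  have hσi : Function.Injective σ := by
    intro i j hij
    by_contra hne
    have h1 : z i = z j := by rw [← hσ i, ← hσ j, hij]
    have h2 := hp3 i j hne (p i).start_mem_support
    apply h2
    rw [h1]
    exact (p j).start_mem_support
  have hQR : ∀ i, ∀ v ∈ (p i).support, v ∈ R := by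
    intro i
    refine walkR_in (p i) ?_
    rw [← hσ i]
    exact hρR _
  have hupU : ∀ i : Fin m, up (a + m + f i) (a + m + h - 1) ∈ U (a + m + f i, a + m + h - 1) := by
    intro i
    have := hfh i i.2
    have h1 := hB.up_mem (a + m + f i) (a + m + h - 1) (by omega) (by omega)
    rw [blobR_zero] at h1
    exact h1
  refine ⟨a, ha, fun i => {v | v ∈ (p i).support}, Equiv.ofBijective σ
    (Finite.injective_iff_bijective.1 hσi), fun i => ⟨?_, ?_, ?_, ?_, ?_, ?_⟩, ?_⟩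
  · exact (p i).support.finite_toSet
  · exact walkR_vconn (G := RG S ends R) (fun u v huv => huv.2.1) (p i)
  · exact fun v hv => hQR i v hv
  · intro j
    rw [Equiv.ofBijective_apply]
    constructor
    · intro hj
      have h1 := (hp2 i _ hj).1 (Finset.mem_image_of_mem ρ (Finset.mem_univ j))
      rw [← hσ i] at h1
      exact hρinj h1
    · rintro rfl
      have h1 : z i ∈ (p i).support := (p i).start_mem_support
      have h2 : ρ (σ i) ∈ (p i).support := by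
        rw [hσ i]
        exact h1
      exact h2
  · exact ⟨_, (p i).end_mem_support, hupU i⟩
  · rintro ⟨c1, c2⟩ ⟨hc1, hc2⟩ ⟨v, hv, hvU⟩
    simp only at hc1 hc2 hvU
    have := hfh i i.2
    have h1 : v ∈ Un (BlobR U) (RegL (a + m) (a + m) h h) :=
      ⟨(0, a + m + c1, a + m + c2), ⟨by simp only; omega, by simp only; omega, by simp only; omega,
        by simp only; omega, Or.inl rfl⟩, ⟨rfl, hvU⟩⟩
    have h2 := (hp2 i v hv).2 h1
    rw [h2] at hvU
    by_contra hne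
    have h3 : ((a + m + c1, a + m + c2) : ℕ × ℕ) ≠ (a + m + f i, a + m + h - 1) := by
      intro h3
      have h4 := Prod.mk.inj h3
      apply hne
      rw [Prod.mk.injEq]
      constructor <;> omega
    exact (disjoint_left.1 (hUd _ ⟨by simp only; omega, by simp only; omega⟩ _
      ⟨by simp only; omega, by simp only; omega⟩ h3)) hvU (hupU i)
  · intro i j hij
    rw [disjoint_left]
    exact fun v hv hv' => hp3 i j hij hv hv'

/-- The region of a rooted picture. -/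
def LReg (P : ℕ × ℕ → V) (l r N w : ℕ) (U : ℕ × ℕ → Set V) (Z : Set V) : Set V :=
  ((⋃ c ∈ Cl w, U c) ∪ P '' Reg l r N) \ Z

lemma lreg_fin {P : ℕ × ℕ → V} {l r N w : ℕ} {U : ℕ × ℕ → Set V} {Z : Set V}
    (hUf : ∀ c ∈ Cl w, (U c).Finite) : (LReg P l r N w U Z).Finite := by
  classical
  refine Finite.sdiff (Finite.union ?_ ?_)
  · refine Finite.biUnion ?_ hUf
    refine (((Finset.range w ×ˢ Finset.range w : Finset (ℕ × ℕ)) : Set (ℕ × ℕ)).toFinite).subset ?_
    rintro ⟨a, b⟩ ⟨ha, hb⟩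
    exact Finset.mem_coe.2 (Finset.mem_product.2 ⟨Finset.mem_range.2 ha, Finset.mem_range.2 hb⟩)
  · refine Finite.image _ ?_
    refine (((Finset.range (r + 1) ×ˢ Finset.range (N + 1) : Finset (ℕ × ℕ)) :
      Set (ℕ × ℕ)).toFinite).subset ?_
    rintro ⟨a, b⟩ ⟨_, ha, hb⟩
    simp only at ha hb
    exact Finset.mem_coe.2 (Finset.mem_product.2 ⟨Finset.mem_range.2 (by simp only; omega),
      Finset.mem_range.2 (by simp only; omega)⟩)

/-- **Row R, two sided.** Rooted pictures with roots at both ends of the lanes: the left roots are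
`P (l, n + 1 + i)`, the right roots `P (r, n + 1 + i)`, `i < k`. The sets `QL i`, `QR i` start at
these roots and end in `2 * k` different prescribed branch sets of the top row of one and the same
full subgrid. -/
theorem rooted_lanes2 {P : ℕ × ℕ → V} {l r n k : ℕ} (hP : Page S ends P l r (n + k)) {w : ℕ}
    {U : ℕ × ℕ → Set V} {Z : Set V} (hUf : ∀ c ∈ Cl w, (U c).Finite)
    (hUc : ∀ c ∈ Cl w, VConn S ends (U c))
    (hUd : ∀ c ∈ Cl w, ∀ c' ∈ Cl w, c ≠ c' → Disjoint (U c) (U c'))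
    (hUZ : ∀ c ∈ Cl w, Disjoint (U c) Z)
    (hadj : ∀ c c', Nb w c c' → Lnk S ends (U c) (U c'))
    {x lv : ℕ × ℕ → ℕ} (hx : ∀ c ∈ Cl w, l ≤ x c ∧ x c ≤ r)
    (hxi : ∀ c ∈ Cl w, ∀ c' ∈ Cl w, x c = x c' → c = c')
    (hlv : ∀ c ∈ Cl w, lv c ≤ n ∧ P (x c, lv c) ∈ U c)
    (hcol : ∀ c ∈ Cl w, ∀ j, lv c ≤ j → j ≤ n → P (x c, j) ∉ Z)
    (hlane : ∀ y j, l ≤ y → y ≤ r → n < j → j ≤ n + k → P (y, j) ∉ Z)
    (hk : 1 ≤ k) {h : ℕ} (hh : 1 ≤ h) (hw : (8 * k + 1) * (h + 4 * k) + 1 ≤ w)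
    (f : ℕ → ℕ) (hf : InjOn f (Iio (2 * k))) (hfh : ∀ i < 2 * k, f i < h) :
    ∃ a, a + (h + 4 * k) < w ∧ ∃ (QL QR : Fin k → Set V) (σL σR : Fin k → Fin (2 * k)),
      Function.Injective σL ∧ Function.Injective σR ∧ (∀ i j, σL i ≠ σR j) ∧
      (∀ i, (QL i).Finite ∧ VConn S ends (QL i) ∧ QL i ⊆ LReg P l r (n + k) w U Z ∧
        (∀ j : Fin k, (P (l, n + 1 + j) ∈ QL i ↔ j = i) ∧ P (r, n + 1 + j) ∉ QL i) ∧
        (QL i ∩ U (a + 2 * k + f (σL i), a + 2 * k + h - 1)).Nonempty ∧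
        (∀ c ∈ Cl h, (QL i ∩ U (a + 2 * k + c.1, a + 2 * k + c.2)).Nonempty →
          c = (f (σL i), h - 1))) ∧
      (∀ i, (QR i).Finite ∧ VConn S ends (QR i) ∧ QR i ⊆ LReg P l r (n + k) w U Z ∧
        (∀ j : Fin k, (P (r, n + 1 + j) ∈ QR i ↔ j = i) ∧ P (l, n + 1 + j) ∉ QR i) ∧
        (QR i ∩ U (a + 2 * k + f (σR i), a + 2 * k + h - 1)).Nonempty ∧
        (∀ c ∈ Cl h, (QR i ∩ U (a + 2 * k + c.1, a + 2 * k + c.2)).Nonempty →
          c = (f (σR i), h - 1))) ∧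
      (∀ i j, i ≠ j → Disjoint (QL i) (QL j)) ∧ (∀ i j, i ≠ j → Disjoint (QR i) (QR j)) ∧
      ∀ i j, Disjoint (QL i) (QR j) := by
  classical
  have hmul : 9 * (h + 4 * k) ≤ (8 * k + 1) * (h + 4 * k) := Nat.mul_le_mul_right _ (by omega)
  have hw1 : 2 * k + 1 < w := by omega
  have hinj : ∀ y j y' j', l ≤ y → y ≤ r → j ≤ n + k → l ≤ y' → y' ≤ r → j' ≤ n + k →
      P (y, j) = P (y', j') → y = y' ∧ j = j' := by
    intro y j y' j' h1 h2 h3 h4 h5 h6 h7
    have := hP.inj (y, j) (y', j') h1 h2 h3 h4 h5 h6 h7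
    exact Prod.mk.inj this
  have hlr : l < r := by
    have c1 : ((0, 0) : ℕ × ℕ) ∈ Cl w := ⟨by simp only; omega, by simp only; omega⟩
    have c2 : ((0, 1) : ℕ × ℕ) ∈ Cl w := ⟨by simp only; omega, by simp only; omega⟩
    have h1 := hx _ c1
    have h2 := hx _ c2
    have h3 : x (0, 0) ≠ x (0, 1) := by
      intro h3
      have h4 := (Prod.mk.inj (hxi _ c1 _ c2 h3)).2
      omega
    omega
  set R : Set V := LReg P l r (n + k) w U Z with hR
  have hRf : R.Finite := lreg_fin hUf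
  have hUR : ∀ c ∈ Cl w, U c ⊆ R := by
    intro c hc v hv
    exact ⟨Or.inl (mem_biUnion hc hv), fun hz => (disjoint_left.1 (hUZ c hc)) hv hz⟩
  -- the roots
  set ρ : Fin (2 * k) → V := fun i => if (i : ℕ) < k then P (l, n + 1 + i)
    else P (r, n + 1 + (i - k)) with hρ
  have hρL : ∀ i : Fin (2 * k), (i : ℕ) < k → ρ i = P (l, n + 1 + i) := fun i hi => if_pos hi
  have hρR : ∀ i : Fin (2 * k), ¬ (i : ℕ) < k → ρ i = P (r, n + 1 + (i - k)) :=
    fun i hi => if_neg hi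
  have hρinj : Function.Injective ρ := by
    intro i j hij
    have hi := i.2
    have hj := j.2
    by_cases h1 : (i : ℕ) < k <;> by_cases h2 : (j : ℕ) < k
    · rw [hρL i h1, hρL j h2] at hij
      have h3 := (hinj _ _ _ _ (le_refl _) hlr.le (by omega) (le_refl _) hlr.le (by omega) hij).2
      exact Fin.ext (by omega)
    · rw [hρL i h1, hρR j h2] at hij
      have h3 := (hinj _ _ _ _ (le_refl _) hlr.le (by omega) hlr.le (le_refl _) (by omega) hij).1
      omega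
    · rw [hρR i h1, hρL j h2] at hij
      have h3 := (hinj _ _ _ _ hlr.le (le_refl _) (by omega) (le_refl _) hlr.le (by omega) hij).1
      omega
    · rw [hρR i h1, hρR j h2] at hij
      have h3 := (hinj _ _ _ _ hlr.le (le_refl _) (by omega) hlr.le (le_refl _) (by omega) hij).2
      exact Fin.ext (by omega)
  have hlaneR : ∀ y j, l ≤ y → y ≤ r → n < j → j ≤ n + k → P (y, j) ∈ R := by
    intro y j h1 h2 h3 h4
    exact ⟨Or.inr ⟨(y, j), ⟨h1, h2, h4⟩, rfl⟩, hlane y j h1 h2 h3 h4⟩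
  have hρmem : ∀ i, ρ i ∈ R := by
    intro i
    have hi := i.2
    by_cases h1 : (i : ℕ) < k
    · rw [hρL i h1]; exact hlaneR _ _ (le_refl _) hlr.le (by omega) (by omega)
    · rw [hρR i h1]; exact hlaneR _ _ hlr.le (le_refl _) (by omega) (by omega)
  have hsep : ∀ T : Finset V, T.card < 2 * k → ∃ (i : Fin (2 * k)), ∃ c ∈ Cl w,
      (∀ v ∈ Un (BlobR U) (RowL w c.2), v ∉ T) ∧
      ∃ A : Set V, VConn S ends A ∧ A ⊆ R ∩ (T : Set V)ᶜ ∧ ρ i ∈ A ∧ (A ∩ U c).Nonempty := by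
    intro T hT
    -- a lane with at most one bad vertex
    obtain ⟨i, t, hi⟩ : ∃ (i : Fin k) (t : ℕ), ∀ y, l ≤ y → y ≤ r → y ≠ t →
        P (y, n + 1 + i) ∉ T := by
      by_contra hcon
      push Not at hcon
      have h0 : ∀ i : Fin k, ∃ y y', l ≤ y ∧ y ≤ r ∧ l ≤ y' ∧ y' ≤ r ∧ y ≠ y' ∧
          P (y, n + 1 + i) ∈ T ∧ P (y', n + 1 + i) ∈ T := by
        intro i
        obtain ⟨y, h1, h2, _, h3⟩ := hcon i (r + 1)
        obtain ⟨y', h4, h5, h6, h7⟩ := hcon i y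
        exact ⟨y, y', h1, h2, h4, h5, fun h => h6 h.symm, h3, h7⟩
      choose y y' h1 h2 h3 h4 h5 h6 h7 using h0
      have h8 : (Finset.univ.image fun q : Fin k × Bool =>
          P (if q.2 then y q.1 else y' q.1, n + 1 + q.1)).card ≤ T.card := by
        refine Finset.card_le_card ?_
        intro v hv
        rw [Finset.mem_image] at hv
        obtain ⟨⟨i, b⟩, _, rfl⟩ := hv
        cases b
        · exact h7 i
        · exact h6 i
      rw [Finset.card_image_of_injective, Finset.card_univ, Fintype.card_prod, Fintype.card_fin,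
        Fintype.card_bool] at h8
      · omega
      · rintro ⟨i, b⟩ ⟨j, b'⟩ hij
        simp only at hij
        have hi := i.2
        have hj := j.2
        have h9 := hinj _ _ _ _ (by cases b <;> simp [h1, h3]) (by cases b <;> simp [h2, h4])
          (by omega) (by cases b' <;> simp [h1, h3]) (by cases b' <;> simp [h2, h4]) (by omega) hij
        have h10 : i = j := Fin.ext (by omega)
        subst h10
        have h11 := h9.1
        rw [Prod.mk.injEq]
        refine ⟨rfl, ?_⟩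
        cases b <;> cases b' <;> simp only [if_true, if_false, Bool.false_eq_true] at h11
        · rfl
        · exact absurd h11.symm (h5 i)
        · exact absurd h11 (h5 i)
        · rfl
    -- a free row
    obtain ⟨j, hj⟩ : ∃ j : Fin (2 * k), ∀ v ∈ Un (BlobR U) (RowL w j), v ∉ T := by
      by_contra hcon
      push Not at hcon
      choose v hv1 hv2 using hcon
      have h2 : (Finset.univ.image v).card ≤ T.card := by
        refine Finset.card_le_card ?_
        intro u hu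
        rw [Finset.mem_image] at hu
        obtain ⟨i, _, rfl⟩ := hu
        exact hv2 i
      rw [Finset.card_image_of_injective, Finset.card_univ, Fintype.card_fin] at h2
      · omega
      · intro i j hij
        have h3 := hv1 i
        have h4 := hv1 j
        rw [hij] at h3
        obtain ⟨⟨t, a, b⟩, ⟨h5, h6, h7⟩, h8, h9⟩ := h3
        obtain ⟨⟨t', a', b'⟩, ⟨h5', h6', h7'⟩, h8', h9'⟩ := h4
        simp only at h5 h6 h5' h6' h9 h9'
        by_contra hne
        have h10 : ((a, b) : ℕ × ℕ) ≠ (a', b') := by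
          intro h10
          apply hne
          have h11 := (Prod.mk.inj h10).2
          exact Fin.ext (by omega)
        exact (disjoint_left.1 (hUd (a, b) ⟨h6, by simp only; omega⟩ (a', b')
          ⟨h6', by simp only; omega⟩ h10)) h9 h9'
    have hjw : (j : ℕ) < w := by omega
    -- a free column
    obtain ⟨q, hq, hqt⟩ : ∃ q : Fin (2 * k + 1), (∀ t, lv (q, j) ≤ t → t ≤ n + k →
        P (x (q, j), t) ∉ T) ∧ x (q, j) ≠ t := by
      by_contra hcon
      push Not at hcon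
      have h0 : ∀ q : Fin (2 * k + 1), ∃ v ∈ insert (P (t, n + 1 + i)) T,
          ∃ t', t' ≤ n + k ∧ v = P (x (q, j), t') := by
        intro q
        by_cases h1 : ∀ t, lv (q, j) ≤ t → t ≤ n + k → P (x (q, j), t) ∉ T
        · refine ⟨P (t, n + 1 + i), Finset.mem_insert_self _ _, n + 1 + i, by omega, ?_⟩
          rw [hcon q h1]
        · push Not at h1
          obtain ⟨t', _, h3, h4⟩ := h1
          exact ⟨_, Finset.mem_insert_of_mem h4, t', h3, rfl⟩
      choose v hv1 t' hv2 hv3 using h0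
      have h2 : (Finset.univ.image v).card ≤ (insert (P (t, n + 1 + i)) T).card := by
        refine Finset.card_le_card ?_
        intro u hu
        rw [Finset.mem_image] at hu
        obtain ⟨i, _, rfl⟩ := hu
        exact hv1 i
      have h2' := Finset.card_insert_le (P (t, n + 1 + i)) T
      rw [Finset.card_image_of_injective, Finset.card_univ, Fintype.card_fin] at h2
      · omega
      · intro i i' hij
        have hi := i.2
        have hi' := i'.2
        have c1 : ((i : ℕ), (j : ℕ)) ∈ Cl w := ⟨by simp only; omega, hjw⟩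
        have c2 : ((i' : ℕ), (j : ℕ)) ∈ Cl w := ⟨by simp only; omega, hjw⟩
        rw [hv3 i, hv3 i'] at hij
        have h3 := (hinj _ _ _ _ (hx _ c1).1 (hx _ c1).2 (hv2 i) (hx _ c2).1 (hx _ c2).2
          (hv2 i') hij).1
        have h4 := hxi _ c1 _ c2 h3
        exact Fin.ext (Prod.mk.inj h4).1
    have hq2 := q.2
    have cq : ((q : ℕ), (j : ℕ)) ∈ Cl w := ⟨by simp only; omega, hjw⟩
    obtain ⟨hx1, hx2⟩ := hx _ cq
    obtain ⟨hl1, hl2⟩ := hlv _ cq
    have hi2 := i.2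
    -- the vertical part
    have hV : P '' Vert (x (q, j)) (lv (q, j)) (n + 1 + i) ⊆ R ∩ (T : Set V)ᶜ := by
      rintro v ⟨⟨a, b⟩, hab, rfl⟩
      rw [mem_Vert] at hab
      obtain ⟨h1, h2, h3⟩ := hab
      simp only at h1 h2 h3
      subst h1
      refine ⟨⟨Or.inr ⟨(x (q, j), b), ⟨hx1, hx2, by simp only; omega⟩, rfl⟩, ?_⟩,
        hq b h2 (by omega)⟩
      by_cases hbn : b ≤ n
      · exact hcol _ cq b h2 hbn
      · exact hlane _ b hx1 hx2 (by omega) (by omega)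
    have hVc : VConn S ends (P '' Vert (x (q, j)) (lv (q, j)) (n + 1 + i)) :=
      hP.vconn_ver hx1 hx2 (by omega)
    have hVU : P (x (q, j), lv (q, j)) ∈ P '' Vert (x (q, j)) (lv (q, j)) (n + 1 + i) :=
      ⟨_, vm (le_refl _) (by omega), rfl⟩
    have hVt : P (x (q, j), n + 1 + i) ∈ P '' Vert (x (q, j)) (lv (q, j)) (n + 1 + i) :=
      ⟨_, vm (by omega) (le_refl _), rfl⟩
    rcases lt_or_gt_of_ne hqt with hlt | hgt
    · refine ⟨⟨i, by omega⟩, (q, j), cq, hj, P '' HRow l (x (q, j)) (n + 1 + i) ∪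
        P '' Vert (x (q, j)) (lv (q, j)) (n + 1 + i), ?_, ?_, ?_, ⟨_, Or.inr hVU, hl2⟩⟩
      · exact vc_union (hP.vconn_hor (le_refl _) hx2 (by omega) (by omega)) hVc
          ⟨_, hm hx1 (le_refl _), rfl⟩ hVt
      · refine union_subset ?_ hV
        rintro v ⟨⟨a, b⟩, ⟨h1, h2, h3⟩, rfl⟩
        simp only at h1 h2 h3
        subst h1
        exact ⟨hlaneR a _ h2 (by omega) (by omega) (by omega), hi a h2 (by omega) (by omega)⟩
      · rw [hρL _ hi2]
        exact Or.inl ⟨_, hm (le_refl _) hx1, rfl⟩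
    · refine ⟨⟨k + i, by omega⟩, (q, j), cq, hj, P '' HRow (x (q, j)) r (n + 1 + i) ∪
        P '' Vert (x (q, j)) (lv (q, j)) (n + 1 + i), ?_, ?_, ?_, ⟨_, Or.inr hVU, hl2⟩⟩
      · exact vc_union (hP.vconn_hor hx1 (le_refl _) (by omega) (by omega)) hVc
          ⟨_, hm (le_refl _) hx2, rfl⟩ hVt
      · refine union_subset ?_ hV
        rintro v ⟨⟨a, b⟩, ⟨h1, h2, h3⟩, rfl⟩
        simp only at h1 h2 h3
        subst h1
        exact ⟨hlaneR a _ (by omega) h3 (by omega) (by omega), hi a (by omega) h3 (by omega)⟩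
      · rw [hρR _ (by simp)]
        refine Or.inl ⟨(r, n + 1 + i), hm hx2 (le_refl _), ?_⟩
        simp
  have hw' : (4 * (2 * k) + 1) * (h + 2 * (2 * k)) + 1 ≤ w := by
    have e : (4 * (2 * k) + 1) * (h + 2 * (2 * k)) = (8 * k + 1) * (h + 4 * k) := by ring
    omega
  obtain ⟨a, ha, Q, σ, hQ, hQd⟩ := rooted_gen hRf hUR hUc hUd hadj ρ hρinj hρmem hsep (by omega)
    hh hw' f hf hfh
  have eL : ∀ i : Fin k, ρ ⟨i, by omega⟩ = P (l, n + 1 + i) := fun i => hρL _ i.2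
  have eR : ∀ i : Fin k, ρ ⟨k + i, by omega⟩ = P (r, n + 1 + i) := by
    intro i
    rw [hρR _ (by simp)]
    simp
  have hne : ∀ i j : Fin k, σ.symm ⟨i, by omega⟩ ≠ σ.symm ⟨k + j, by omega⟩ := by
    intro i j hij
    have h1 := Fin.mk.inj (σ.symm.injective hij)
    omega
  refine ⟨a, by omega, fun i => Q (σ.symm ⟨i, by omega⟩), fun i => Q (σ.symm ⟨k + i, by omega⟩),
    fun i => σ.symm ⟨i, by omega⟩, fun i => σ.symm ⟨k + i, by omega⟩, ?_, ?_, hne, ?_, ?_, ?_, ?_, ?_⟩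
  · intro i j hij
    have h1 := Fin.mk.inj (σ.symm.injective hij)
    exact Fin.ext h1
  · intro i j hij
    have h1 := Fin.mk.inj (σ.symm.injective hij)
    exact Fin.ext (by omega)
  · intro i
    obtain ⟨h1, h2, h3, h4, h5, h6⟩ := hQ (σ.symm ⟨i, by omega⟩)
    refine ⟨h1, h2, h3, fun j => ⟨?_, ?_⟩, h5, h6⟩
    · rw [← eL j, h4, Equiv.apply_symm_apply, Fin.mk.injEq, Fin.ext_iff]
    · rw [← eR j, h4, Equiv.apply_symm_apply, Fin.mk.injEq]
      omega
  · intro i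
    obtain ⟨h1, h2, h3, h4, h5, h6⟩ := hQ (σ.symm ⟨k + i, by omega⟩)
    refine ⟨h1, h2, h3, fun j => ⟨?_, ?_⟩, h5, h6⟩
    · rw [← eR j, h4, Equiv.apply_symm_apply, Fin.mk.injEq, Fin.ext_iff]
      omega
    · rw [← eL j, h4, Equiv.apply_symm_apply, Fin.mk.injEq]
      omega
  · intro i j hij
    refine hQd _ _ (fun h1 => hij ?_)
    have h2 := Fin.mk.inj (σ.symm.injective h1)
    exact Fin.ext h2
  · intro i j hij
    refine hQd _ _ (fun h1 => hij ?_)
    have h2 := Fin.mk.inj (σ.symm.injective h1)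
    exact Fin.ext (by omega)
  · intro i j
    exact hQd _ _ (hne i j)

/-- **Row R.** Rooted pictures. `P` is a page whose levels above `n` are `k` free lanes, `x c` is
the column of the cell `c` and `lv c` the level where it leaves `U c`; `x₀` is any column. -/
theorem rooted_lanes {P : ℕ × ℕ → V} {l r n k : ℕ} (hP : Page S ends P l r (n + k)) {w : ℕ}
    {U : ℕ × ℕ → Set V} {Z : Set V} (hUf : ∀ c ∈ Cl w, (U c).Finite)
    (hUc : ∀ c ∈ Cl w, VConn S ends (U c))
    (hUd : ∀ c ∈ Cl w, ∀ c' ∈ Cl w, c ≠ c' → Disjoint (U c) (U c'))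
    (hUZ : ∀ c ∈ Cl w, Disjoint (U c) Z)
    (hadj : ∀ c c', Nb w c c' → Lnk S ends (U c) (U c'))
    {x lv : ℕ × ℕ → ℕ} (hx : ∀ c ∈ Cl w, l ≤ x c ∧ x c ≤ r)
    (hxi : ∀ c ∈ Cl w, ∀ c' ∈ Cl w, x c = x c' → c = c')
    (hlv : ∀ c ∈ Cl w, lv c ≤ n ∧ P (x c, lv c) ∈ U c)
    (hcol : ∀ c ∈ Cl w, ∀ j, lv c ≤ j → j ≤ n → P (x c, j) ∉ Z)
    (hlane : ∀ y j, l ≤ y → y ≤ r → n < j → j ≤ n + k →
      P (y, j) ∉ Z ∧ ∀ c ∈ Cl w, P (y, j) ∉ U c)
    (hk : 1 ≤ k) {h : ℕ} (hh : 1 ≤ h) (hw : (4 * k + 1) * (h + 2 * k) + 1 ≤ w)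
    {x₀ : ℕ} (hx₀ : l ≤ x₀) (hx₀' : x₀ ≤ r)
    (f : ℕ → ℕ) (hf : InjOn f (Iio k)) (hfh : ∀ i < k, f i < h) :
    ∃ a, a + (h + 2 * k) < w ∧ ∃ (Q : Fin k → Set V) (σ : Fin k ≃ Fin k),
      (∀ i, (Q i).Finite ∧ VConn S ends (Q i) ∧ Disjoint (Q i) Z ∧
        (∀ j : Fin k, P (x₀, n + 1 + j) ∈ Q i ↔ j = σ i) ∧
        (Q i ∩ U (a + k + f i, a + k + h - 1)).Nonempty ∧
        (∀ c ∈ Cl h, (Q i ∩ U (a + k + c.1, a + k + c.2)).Nonempty → c = (f i, h - 1)) ∧
        Q i ⊆ (⋃ c ∈ Cl w, U c) ∪ P '' Reg l r (n + k)) ∧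
      ∀ i j, i ≠ j → Disjoint (Q i) (Q j) := by
  classical
  have hmul : 5 * (h + 2 * k) ≤ (4 * k + 1) * (h + 2 * k) := Nat.mul_le_mul_right _ (by omega)
  have hw2 : 2 ≤ w := by omega
  have hkw : k ≤ w := by omega
  obtain ⟨up, hB⟩ := wgR_bgrid hw2 hUc hUd hadj
  -- the region
  set R : Set V := ((⋃ c ∈ Cl w, U c) ∪ P '' Reg l r (n + k)) \ Z with hR
  have hRf : R.Finite := by
    refine Finite.sdiff (Finite.union ?_ ?_)
    · refine Finite.biUnion ?_ hUf
      refine (((Finset.range w ×ˢ Finset.range w : Finset (ℕ × ℕ)) : Set (ℕ × ℕ)).toFinite).subset ?_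
      rintro ⟨a, b⟩ ⟨ha, hb⟩
      exact Finset.mem_coe.2 (Finset.mem_product.2 ⟨Finset.mem_range.2 ha, Finset.mem_range.2 hb⟩)
    · refine Finite.image _ ?_
      refine (((Finset.range (r + 1) ×ˢ Finset.range (n + k + 1) : Finset (ℕ × ℕ)) :
        Set (ℕ × ℕ)).toFinite).subset ?_
      rintro ⟨a, b⟩ ⟨_, ha, hb⟩
      simp only at ha hb
      exact Finset.mem_coe.2 (Finset.mem_product.2 ⟨Finset.mem_range.2 (by simp only; omega),
        Finset.mem_range.2 (by simp only; omega)⟩)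
  have hWG : WG S ends w U ≤ RG S ends R := by
    rintro u v ⟨h1, h2, c, hc, c', hc', _, h3, h4⟩
    refine ⟨h1, h2, ⟨Or.inl (mem_biUnion hc h3), ?_⟩, ⟨Or.inl (mem_biUnion hc' h4), ?_⟩⟩
    · exact fun hz => (disjoint_left.1 (hUZ c hc)) h3 hz
    · exact fun hz => (disjoint_left.1 (hUZ c' hc')) h4 hz
  have hinj : ∀ y j y' j', l ≤ y → y ≤ r → j ≤ n + k → l ≤ y' → y' ≤ r → j' ≤ n + k →
      P (y, j) = P (y', j') → y = y' ∧ j = j' := by
    intro y j y' j' h1 h2 h3 h4 h5 h6 h7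
    have := hP.inj (y, j) (y', j') h1 h2 h3 h4 h5 h6 h7
    exact Prod.mk.inj this
  -- the roots
  set ρ : Fin k → V := fun i => P (x₀, n + 1 + i) with hρ
  have hρinj : Function.Injective ρ := by
    intro i j hij
    have h1 := (hinj _ _ _ _ hx₀ hx₀' (by have := i.2; omega) hx₀ hx₀'
      (by have := j.2; omega) hij).2
    exact Fin.ext (by omega)
  set Zs : Finset V := Finset.univ.image ρ with hZs
  have hZk : Zs.card = k := by
    rw [hZs, Finset.card_image_of_injective _ hρinj, Finset.card_univ, Fintype.card_fin]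
  have hρR : ∀ i, ρ i ∈ R := by
    intro i
    have hi := i.2
    refine ⟨Or.inr ⟨(x₀, n + 1 + i), ⟨hx₀, hx₀', by simp only; omega⟩, rfl⟩, ?_⟩
    exact (hlane x₀ (n + 1 + i) hx₀ hx₀' (by omega) (by omega)).1
  have hsep : ∀ T : Finset V, T.card < k → ∃ z ∈ Zs, ∃ j < w,
      (∀ v ∈ Un (BlobR U) (RowL w j), v ∉ T) ∧
      ∃ y ∈ Un (BlobR U) (RowL w j), Joined (RG S ends R) (T : Set V)ᶜ z y := by
    intro T hT
    -- a free lane
    obtain ⟨i, hi⟩ : ∃ i : Fin k, ∀ y, l ≤ y → y ≤ r → P (y, n + 1 + i) ∉ T := by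
      by_contra hcon
      push Not at hcon
      choose y hy1 hy2 hy3 using hcon
      have h1 : k ≤ T.card := by
        have h2 : (Finset.univ.image fun i : Fin k => P (y i, n + 1 + i)).card ≤ T.card := by
          refine Finset.card_le_card ?_
          intro v hv
          rw [Finset.mem_image] at hv
          obtain ⟨i, _, rfl⟩ := hv
          exact hy3 i
        rw [Finset.card_image_of_injective, Finset.card_univ, Fintype.card_fin] at h2
        · exact h2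
        · intro i j hij
          have h3 := (hinj _ _ _ _ (hy1 i) (hy2 i) (by have := i.2; omega) (hy1 j) (hy2 j)
            (by have := j.2; omega) hij).2
          exact Fin.ext (by omega)
      omega
    -- a free row
    obtain ⟨j, hj⟩ : ∃ j : Fin k, ∀ v ∈ Un (BlobR U) (RowL w j), v ∉ T := by
      by_contra hcon
      push Not at hcon
      choose v hv1 hv2 using hcon
      have h1 : k ≤ T.card := by
        have h2 : (Finset.univ.image v).card ≤ T.card := by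
          refine Finset.card_le_card ?_
          intro u hu
          rw [Finset.mem_image] at hu
          obtain ⟨i, _, rfl⟩ := hu
          exact hv2 i
        rw [Finset.card_image_of_injective, Finset.card_univ, Fintype.card_fin] at h2
        · exact h2
        · intro i j hij
          have hi := i.2
          have hj := j.2
          have h3 := hv1 i
          have h4 := hv1 j
          rw [hij] at h3
          have h5 := hB.line_inj (s := false) (by omega) (by omega) h3 h4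
          exact Fin.ext h5
      omega
    have hjw : (j : ℕ) < w := lt_of_lt_of_le j.2 hkw
    -- a free column
    obtain ⟨q, hq⟩ : ∃ q : Fin k, ∀ t, lv (q, j) ≤ t → t ≤ n + k → P (x (q, j), t) ∉ T := by
      by_contra hcon
      push Not at hcon
      choose t ht1 ht2 ht3 using hcon
      have h1 : k ≤ T.card := by
        have h2 : (Finset.univ.image fun q : Fin k => P (x (q, j), t q)).card ≤ T.card := by
          refine Finset.card_le_card ?_
          intro u hu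
          rw [Finset.mem_image] at hu
          obtain ⟨i, _, rfl⟩ := hu
          exact ht3 i
        rw [Finset.card_image_of_injective, Finset.card_univ, Fintype.card_fin] at h2
        · exact h2
        · intro i i' hij
          have c1 : ((i : ℕ), (j : ℕ)) ∈ Cl w := ⟨lt_of_lt_of_le i.2 hkw, hjw⟩
          have c2 : ((i' : ℕ), (j : ℕ)) ∈ Cl w := ⟨lt_of_lt_of_le i'.2 hkw, hjw⟩
          have h3 := (hinj _ _ _ _ (hx _ c1).1 (hx _ c1).2 (ht2 i) (hx _ c2).1 (hx _ c2).2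
            (ht2 i') hij).1
          have h4 := hxi _ c1 _ c2 h3
          exact Fin.ext (Prod.mk.inj h4).1
      omega
    have cq : ((q : ℕ), (j : ℕ)) ∈ Cl w := ⟨lt_of_lt_of_le q.2 hkw, hjw⟩
    obtain ⟨hx1, hx2⟩ := hx _ cq
    obtain ⟨hl1, hl2⟩ := hlv _ cq
    have hi2 := i.2
    refine ⟨ρ i, Finset.mem_image_of_mem _ (Finset.mem_univ _), j, hjw, hj,
      P (x (q, j), lv (q, j)), ?_, ?_⟩
    · exact ⟨(0, q, j), ⟨rfl, cq.1, Or.inl rfl⟩, ⟨rfl, hl2⟩⟩
    set A : Set V := P '' HRow (min x₀ (x (q, j))) (max x₀ (x (q, j))) (n + 1 + i) ∪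
      P '' Vert (x (q, j)) (lv (q, j)) (n + 1 + i) with hA
    have hm1 : l ≤ min x₀ (x (q, j)) := le_min hx₀ hx1
    have hm2 : max x₀ (x (q, j)) ≤ r := max_le hx₀' hx2
    have hAc : VConn S ends A := by
      refine vc_union (hP.vconn_hor hm1 hm2 (by omega) (by omega))
        (hP.vconn_ver hx1 hx2 (by omega)) (c := P (x (q, j), n + 1 + i)) ?_ ?_
      · exact ⟨_, hm (min_le_right _ _) (le_max_right _ _), rfl⟩
      · exact ⟨_, vm (by omega) (le_refl _), rfl⟩
    have hAR : A ⊆ R ∩ (T : Set V)ᶜ := by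
      rintro v (⟨⟨a, b⟩, hab, rfl⟩ | ⟨⟨a, b⟩, hab, rfl⟩)
      · obtain ⟨h1, h2, h3⟩ := hab
        simp only at h1 h2 h3
        subst h1
        exact ⟨⟨Or.inr ⟨(a, n + 1 + i), ⟨by simp only; omega, by simp only; omega,
          by simp only; omega⟩, rfl⟩, (hlane a _ (by omega) (by omega) (by omega) (by omega)).1⟩,
          hi a (by omega) (by omega)⟩
      · rw [mem_Vert] at hab
        obtain ⟨h1, h2, h3⟩ := hab
        simp only at h1 h2 h3
        subst h1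
        refine ⟨⟨Or.inr ⟨(x (q, j), b), ⟨hx1, hx2, by simp only; omega⟩, rfl⟩, ?_⟩,
          hq b h2 (by omega)⟩
        by_cases hbn : b ≤ n
        · exact hcol _ cq b h2 hbn
        · exact (hlane _ b hx1 hx2 (by omega) (by omega)).1
    refine VConn.joined hAc ?_ (fun v hv => (hAR hv).2) (Or.inl ⟨(x₀, n + 1 + i),
      hm (min_le_left _ _) (le_max_left _ _), rfl⟩) (Or.inr ⟨_, vm (le_refl _) (by omega), rfl⟩)
    intro u hu v hv huv hg
    exact ⟨huv, hg, (hAR hu).1, (hAR hv).1⟩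
  obtain ⟨a, ha, z, p, hp1, hp2, hp3⟩ := K4R.rooted hB hWG (RG.fin hRf) hk hh hw hZk hsep f hf hfh
  -- the bijection
  have hz : ∀ i, ∃ j, ρ j = z i := by
    intro i
    have h1 := (hp1 i).1
    rw [hZs, Finset.mem_image] at h1
    obtain ⟨j, _, hj⟩ := h1
    exact ⟨j, hj⟩
  choose σ hσ using hz
  have hσi : Function.Injective σ := by
    intro i j hij
    by_contra hne
    have h1 : z i = z j := by rw [← hσ i, ← hσ j, hij]
    have h2 := hp3 i j hne (p i).start_mem_support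
    apply h2
    rw [h1]
    exact (p j).start_mem_support
  have hQR : ∀ i, ∀ v ∈ (p i).support, v ∈ R := by
    intro i
    refine walkR_in (p i) ?_
    rw [← hσ i]
    exact hρR _
  have hupU : ∀ i : Fin k, up (a + k + f i) (a + k + h - 1) ∈ U (a + k + f i, a + k + h - 1) := by
    intro i
    have := hfh i i.2
    have h1 := hB.up_mem (a + k + f i) (a + k + h - 1) (by omega) (by omega)
    rw [blobR_zero] at h1
    exact h1
  refine ⟨a, ha, fun i => {v | v ∈ (p i).support}, Equiv.ofBijective σ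
    (Finite.injective_iff_bijective.1 hσi), fun i => ⟨?_, ?_, ?_, ?_, ?_, ?_, ?_⟩, ?_⟩
  · exact (p i).support.finite_toSet
  · exact walkR_vconn (G := RG S ends R) (fun u v huv => huv.2.1) (p i)
  · rw [disjoint_left]
    exact fun v hv => (hQR i v hv).2
  · intro j
    rw [Equiv.ofBijective_apply]
    constructor
    · intro hj
      have h1 := (hp2 i _ hj).1 (Finset.mem_image_of_mem ρ (Finset.mem_univ j))
      rw [← hσ i] at h1
      exact hρinj h1
    · rintro rfl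
      have h1 : z i ∈ (p i).support := (p i).start_mem_support
      have h2 : ρ (σ i) ∈ (p i).support := by
        rw [hσ i]
        exact h1
      exact h2
  · exact ⟨_, (p i).end_mem_support, hupU i⟩
  · rintro ⟨c1, c2⟩ ⟨hc1, hc2⟩ ⟨v, hv, hvU⟩
    simp only at hc1 hc2 hvU
    have := hfh i i.2
    have h1 : v ∈ Un (BlobR U) (RegL (a + k) (a + k) h h) :=
      ⟨(0, a + k + c1, a + k + c2), ⟨by simp only; omega, by simp only; omega, by simp only; omega,
        by simp only; omega, Or.inl rfl⟩, ⟨rfl, hvU⟩⟩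
    have h2 := (hp2 i v hv).2 h1
    rw [h2] at hvU
    by_contra hne
    have h3 : ((a + k + c1, a + k + c2) : ℕ × ℕ) ≠ (a + k + f i, a + k + h - 1) := by
      intro h3
      have h4 := Prod.mk.inj h3
      apply hne
      rw [Prod.mk.injEq]
      constructor <;> omega
    exact (disjoint_left.1 (hUd _ ⟨by simp only; omega, by simp only; omega⟩ _
      ⟨by simp only; omega, by simp only; omega⟩ h3)) hvU (hupU i)
  · exact fun v hv => (hQR i v hv).1
  · intro i j hij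
    rw [disjoint_left]
    exact fun v hv hv' => hp3 i j hij hv hv'

end EN
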