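import Pool.Agent.EN.Lanes
import Pool.Agent.EN.KgeCrt

/-!
# Row F3c: linking two pieces along a page (helper64, MP_5165fa_co)
-/

open Set
open scoped Matroid

namespace EN

open BIC Gad BICS

variable {α V : Type*}

/-- **Row F3c.** (LK) for pieces along a page: from `lanes_pair` and `FrmU.kge_crt`. -/
theorem lk_page {M : Matroid α} [M.Finite] {S : Set α} {ends : α → Sym2 V} {u K t : ℕ}
    (hF : FrmU M S ends u) (ht : 2 ≤ t) {I : Finset ℕ} {V₀ : ℕ → Set V} {P : ℕ × ℕ → V}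
    {l r n a : ℕ} {lp rp : ℕ → ℕ} (hP : Page S ends P l r n) (hK : K + u + 2 ≤ t)
    (ha : a + (K + u + 2) ≤ n)
    (hV : ∀ p ∈ I, ∀ c ∈ Reg l r n, a < c.2 → P c ∉ V₀ p)
    (hdis : ∀ p ∈ I, ∀ q ∈ I, p ≠ q → Disjoint (V₀ p) (V₀ q))
    (hI : ∀ p ∈ I, l ≤ lp p ∧ rp p ≤ r)
    (hsep : ∀ p ∈ I, ∀ q ∈ I, p ≠ q → rp p < lp q ∨ rp q < lp p)
    {p q : ℕ} (hp : p ∈ I) (hq : q ∈ I) (hpq : p ≠ q) {A A' : ℕ → Set V}
    (hA : OffP P a t lp rp V₀ p A) (hA' : OffP P a t lp rp V₀ q A') {C C' : Set α}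
    {ed ed' : ℕ × ℕ → ℕ × ℕ → α} (hc : Crt S ends (V₀ p) A t C ed)
    (hc' : Crt S ends (V₀ q) A' t C' ed') {R : Set α} (hR : R ⊆ Ufm S ends (I \ {p, q}) V₀) :
    KGe (M ／ (C ∪ R)) (Eds t ed) (Eds t ed') K :=
  lk_page_of (fun h1 h2 hV hR hR1 hR2 L β γ hL hd =>
    hF.kge_crt ht h1 h2 hV hR hR1 hR2 L β γ hL hd) hP hK ha hV hdis hI hsep hp hq hpq hA hA' hc hc'
    hR

end EN
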