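import Pool.Agent.EN.Pocket
import Pool.Agent.EN.Switch

/-!
# Local links: crossing bands and nests in one block; independent items
-/

namespace EN

namespace Sys

variable {κ : Type*} {Y : Sys κ}

/-- An increasing enumeration of `m` elements of a finite set. -/
lemma enum {A : Finset ℕ} {m : ℕ} (hm : m ≤ A.card) : ∃ f : ℕ → ℕ, (∀ i < m, f i ∈ A) ∧
    ∀ i j, i < j → j < m → f i < f j := by
  refine ⟨fun i => if h : i < A.card then A.orderEmbOfFin rfl ⟨i, h⟩ else 0, fun i hi => ?_,
    fun i j hij hj => ?_⟩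
  · simp only [dif_pos (lt_of_lt_of_le hi hm)]
    exact A.orderEmbOfFin_mem rfl _
  · simp only [dif_pos (lt_of_lt_of_le hj hm), dif_pos (lt_trans hij (lt_of_lt_of_le hj hm))]
    exact (A.orderEmbOfFin rfl).strictMono (by simpa using hij)

lemma Dj.symm {l l' : List ℕ} (h : Y.Dj l l') : Y.Dj l' l := fun x hx y hy e => h y hy x hx e.symm

lemma Dj.mono {l l' q q' : List ℕ} (h : Y.Dj l l') (h1 : ∀ x ∈ q, x ∈ l) (h2 : ∀ x ∈ q', x ∈ l') :
    Y.Dj q q' := fun x hx y hy => h x (h1 x hx) y (h2 y hy)

/-- A chord system in the open interval `(lo, hi)`. -/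
structure Ch (Y : Sys κ) (lo hi m : ℕ) (a b : ℕ → ℕ) : Prop where
  rg : ∀ k < m, lo < a k ∧ b k < hi
  lk : ∀ k < m, Y.Lk (a k) (b k)
  ab : ∀ k < m, ∀ k' < m, a k < b k'
  dis : ∀ k < m, ∀ k' < m, k ≠ k' → Y.Dj [a k, b k] [a k', b k']

/-- **Links of one block**: a crossing band or a nest. -/
theorem block (m : ℕ) : ∃ M : ℕ, ∀ {κ : Type*} (Y : Sys κ) (D : ℕ), Y.Ax D →
    ∀ (s e lo hi : ℕ) (u v : ℕ → ℕ), lo < s → e < hi →
    (∀ k < M, s ≤ u k ∧ u k ≤ e ∧ (v k < s ∨ e < v k) ∧ Y.Lk (u k) (v k) ∧ lo < v k ∧ v k < hi) →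
    Y.Dis M (fun k => [u k, v k]) →
    ∃ a b : ℕ → ℕ, Y.Ch lo hi m a b ∧
      ((∀ k, k + 1 < m → a k < a (k + 1) ∧ b k < b (k + 1)) ∨
        (∀ k, k + 1 < m → a (k + 1) < a k ∧ b k < b (k + 1))) := by
  obtain ⟨M, hM⟩ := RamP.ramsey_pairs (Bool × Bool × Bool) (m + 1)
  refine ⟨M, ?_⟩
  intro κ Y D hY s e lo hi u v hlo hhi hl hd
  obtain ⟨f, ⟨c1, c2, c3⟩, hf1, hf2, hf3⟩ := hM
    (fun k k' => (decide (v k < u k), decide (u k < u k'), decide (v k < v k')))
  have huu : ∀ i < m, ∀ j < m, i ≠ j → u (f i) ≠ u (f j) := by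
    intro i hi j hj hij h1
    have hne : f i ≠ f j := by
      rcases Nat.lt_or_gt_of_ne hij with h2 | h2
      · have := hf2 i j h2 (by omega); omega
      · have := hf2 j i h2 (by omega); omega
    exact hd (f i) (hf1 i (by omega)) (f j) (hf1 j (by omega)) hne (u (f i)) (by simp) (u (f j))
      (by simp) (by rw [h1])
  have hvv : ∀ i < m, ∀ j < m, i ≠ j → v (f i) ≠ v (f j) := by
    intro i hi j hj hij h1
    have hne : f i ≠ f j := by
      rcases Nat.lt_or_gt_of_ne hij with h2 | h2
      · have := hf2 i j h2 (by omega); omega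
      · have := hf2 j i h2 (by omega); omega
    exact hd (f i) (hf1 i (by omega)) (f j) (hf1 j (by omega)) hne (v (f i)) (by simp) (v (f j))
      (by simp) (by rw [h1])
  have hdd : ∀ i < m, ∀ j < m, i ≠ j → Y.Dj [u (f i), v (f i)] [u (f j), v (f j)] := by
    intro i hi j hj hij
    have hne : f i ≠ f j := by
      rcases Nat.lt_or_gt_of_ne hij with h2 | h2
      · have := hf2 i j h2 (by omega); omega
      · have := hf2 j i h2 (by omega); omega
    exact hd (f i) (hf1 i (by omega)) (f j) (hf1 j (by omega)) hne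
  have hc1 : ∀ i < m, decide (v (f i) < u (f i)) = c1 := fun i hi =>
    (Prod.ext_iff.1 (hf3 i m hi (Nat.lt_succ_self m))).1
  have hc2 : ∀ i j, i < j → j < m → decide (u (f i) < u (f j)) = c2 := fun i j hij hj =>
    (Prod.ext_iff.1 (Prod.ext_iff.1 (hf3 i j hij (by omega))).2).1
  have hc3 : ∀ i j, i < j → j < m → decide (v (f i) < v (f j)) = c3 := fun i j hij hj =>
    (Prod.ext_iff.1 (Prod.ext_iff.1 (hf3 i j hij (by omega))).2).2
  -- the chords, in the order of the indices
  have h0 : ∃ a b : ℕ → ℕ, Y.Ch lo hi m a b ∧ ((∀ i j, i < j → j < m → a i < a j) ∨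
      (∀ i j, i < j → j < m → a j < a i)) ∧ ((∀ i j, i < j → j < m → b i < b j) ∨
      (∀ i j, i < j → j < m → b j < b i)) := by
    have hU : (∀ i j, i < j → j < m → u (f i) < u (f j)) ∨
        (∀ i j, i < j → j < m → u (f j) < u (f i)) := by
      cases c2 with
      | true => exact Or.inl fun i j hij hj => of_decide_eq_true (hc2 i j hij hj)
      | false =>
        right
        intro i j hij hj
        have h1 := of_decide_eq_false (hc2 i j hij hj)
        have h2 := huu i (by omega) j hj (by omega)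
        omega
    have hV : (∀ i j, i < j → j < m → v (f i) < v (f j)) ∨
        (∀ i j, i < j → j < m → v (f j) < v (f i)) := by
      cases c3 with
      | true => exact Or.inl fun i j hij hj => of_decide_eq_true (hc3 i j hij hj)
      | false =>
        right
        intro i j hij hj
        have h1 := of_decide_eq_false (hc3 i j hij hj)
        have h2 := hvv i (by omega) j hj (by omega)
        omega
    cases c1 with
    | true =>
      have hs : ∀ i < m, v (f i) < s := by
        intro i hi
        have h1 := of_decide_eq_true (hc1 i hi)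
        have h2 := hl (f i) (hf1 i (by omega))
        omega
      refine ⟨fun i => v (f i), fun i => u (f i), ⟨?_, ?_, ?_, ?_⟩, hV, hU⟩
      · intro k hk
        have h2 := hl (f k) (hf1 k (by omega))
        exact ⟨h2.2.2.2.2.1, by omega⟩
      · intro k hk
        exact (hl (f k) (hf1 k (by omega))).2.2.2.1.symm hY
      · intro k hk k' hk'
        have h2 := hl (f k') (hf1 k' (by omega))
        have h3 := hs k hk
        omega
      · intro k hk k' hk' hne
        exact (hdd k hk k' hk' hne).mono (by simp) (by simp)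
    | false =>
      have hs : ∀ i < m, e < v (f i) := by
        intro i hi
        have h1 := of_decide_eq_false (hc1 i hi)
        have h2 := hl (f i) (hf1 i (by omega))
        omega
      refine ⟨fun i => u (f i), fun i => v (f i), ⟨?_, ?_, ?_, ?_⟩, hU, hV⟩
      · intro k hk
        have h2 := hl (f k) (hf1 k (by omega))
        exact ⟨by omega, h2.2.2.2.2.2⟩
      · intro k hk
        exact (hl (f k) (hf1 k (by omega))).2.2.2.1
      · intro k hk k' hk'
        have h2 := hl (f k) (hf1 k (by omega))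
        have h3 := hs k' hk'
        omega
      · intro k hk k' hk' hne
        exact hdd k hk k' hk' hne
  obtain ⟨a, b, hch, hA, hB⟩ := h0
  -- reversing the order
  have hrev : Y.Ch lo hi m (fun i => a (m - 1 - i)) (fun i => b (m - 1 - i)) :=
    ⟨fun k hk => hch.rg _ (by omega), fun k hk => hch.lk _ (by omega),
      fun k hk k' hk' => hch.ab _ (by omega) _ (by omega),
      fun k hk k' hk' hne => hch.dis _ (by omega) _ (by omega) (by omega)⟩
  rcases hA with hA | hA <;> rcases hB with hB | hB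
  · exact ⟨a, b, hch, Or.inl fun k hk => ⟨hA _ _ (by omega) hk, hB _ _ (by omega) hk⟩⟩
  · refine ⟨_, _, hrev, Or.inr fun k hk => ⟨?_, ?_⟩⟩
    · exact hA _ _ (by omega) (by omega)
    · exact hB _ _ (by omega) (by omega)
  · exact ⟨a, b, hch, Or.inr fun k hk => ⟨hA _ _ (by omega) hk, hB _ _ (by omega) hk⟩⟩
  · refine ⟨_, _, hrev, Or.inl fun k hk => ⟨?_, ?_⟩⟩
    · exact hA _ _ (by omega) (by omega)
    · exact hB _ _ (by omega) (by omega)

end Sys

end EN
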