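import Pool.Agent.EN.LocA

/-!
# Items: a nest and what the pocket lemma finds in its pocket
-/

namespace EN

namespace Sys

variable {κ : Type*} {Y : Sys κ}

/-- An item in the interval `(lo, hi)`: type `0`: a crossing band; types `1`–`4`: a nest with a
grounded connector / a cross / a link to the right / a link to the left from its pocket. -/
structure Itm (Y : Sys κ) (lo hi m : ℕ) (ty : Fin 5) (a b : ℕ → ℕ) (x z : ℕ) (p : ℕ → ℕ) :
    Prop where
  ch : Y.Ch lo hi m a b
  lx : lo < x ∧ x < hi ∧ x < Y.L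
  lz : z < Y.L ∧ (Y.own x = Y.own z ∨ Y.ct (Y.own x) (Y.own z))
  lp : ∀ k < 4, lo < p k ∧ p k < hi ∧ p k < Y.L
  o0 : ty = 0 → ∀ k, k + 1 < m → a k < a (k + 1) ∧ b k < b (k + 1)
  o1 : ty ≠ 0 → ∀ k, k + 1 < m → a (k + 1) < a k ∧ b k < b (k + 1)
  t1 : ty = 1 → a 0 < x ∧ x < b 0 ∧ Y.gr (Y.own x) ∧ ∀ k < m, Y.Dj [x] [a k, b k]
  t2 : ty = 2 → a 0 < p 0 ∧ p 0 < p 1 ∧ p 1 < p 2 ∧ p 2 < p 3 ∧ p 3 < b 0 ∧
    Y.Lk (p 0) (p 2) ∧ Y.Lk (p 1) (p 3) ∧ Y.Dj [p 0, p 2] [p 1, p 3] ∧
    ∀ k < m, Y.Dj [p 0, p 2, p 1, p 3] [a k, b k]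
  t3 : ty = 3 → a 0 < x ∧ x < b 0 ∧ Y.Lk x z ∧ (∀ k < m, b k < z) ∧
    ∀ k < m, Y.Dj [x, z] [a k, b k]
  t4 : ty = 4 → a 0 < x ∧ x < b 0 ∧ Y.Lk x z ∧ (∀ k < m, z < a k) ∧
    ∀ k < m, Y.Dj [x, z] [a k, b k]

lemma steps {f : ℕ → ℕ} {m : ℕ} (hf : ∀ k, k + 1 < m → f k < f (k + 1)) :
    ∀ k k', k < k' → k' < m → f k < f k' := by
  intro k k' h1 h2
  induction k' with
  | zero => omega
  | succ q ih =>
    rcases Nat.lt_or_ge k q with h3 | h3
    · exact (ih h3 (by omega)).trans (hf q h2)
    · have : k = q := by omega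
      rw [this]
      exact hf q h2

lemma steps' {f : ℕ → ℕ} {m : ℕ} (hf : ∀ k, k + 1 < m → f (k + 1) < f k) :
    ∀ k k', k < k' → k' < m → f k' < f k := by
  intro k k' h1 h2
  induction k' with
  | zero => omega
  | succ q ih =>
    rcases Nat.lt_or_ge k q with h3 | h3
    · exact (hf q h2).trans (ih h3 (by omega))
    · have : k = q := by omega
      rw [this]
      exact hf q h2

/-- All but `l.length` levels avoid the connectors of `l`. -/
lemma avoid {M : ℕ} {a b : ℕ → ℕ}
    (hd : ∀ k < M, ∀ k' < M, k ≠ k' → Y.Dj [a k, b k] [a k', b k']) (l : List ℕ) (A : Finset ℕ)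
    (hA : ∀ k ∈ A, k < M) : ∃ A' ⊆ A, A.card ≤ A'.card + l.length ∧
      ∀ k ∈ A', Y.Dj l [a k, b k] := by
  classical
  induction l with
  | nil =>
    exact ⟨A, subset_rfl, by simp, fun k _ x hx => absurd hx (by simp)⟩
  | cons x l ih =>
    obtain ⟨A', h1, h2, h3⟩ := ih
    refine ⟨A'.filter (fun k => Y.Dj [x] [a k, b k]), (Finset.filter_subset _ _).trans h1, ?_, ?_⟩
    · have h4 : (A'.filter (fun k => ¬ Y.Dj [x] [a k, b k])).card ≤ 1 := by
        rw [Finset.card_le_one]
        intro k hk k' hk'
        by_contra hne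
        have g1 := (Finset.mem_filter.1 hk).2
        have g2 := (Finset.mem_filter.1 hk').2
        unfold Sys.Dj at g1 g2
        push Not at g1 g2
        obtain ⟨x1, hx1, y1, hy1, e1⟩ := g1
        obtain ⟨x2, hx2, y2, hy2, e2⟩ := g2
        rw [List.mem_singleton] at hx1 hx2
        subst hx1
        subst hx2
        exact hd k (hA k (h1 (Finset.mem_filter.1 hk).1)) k' (hA k' (h1 (Finset.mem_filter.1 hk').1))
          hne y1 hy1 y2 hy2 (e1.symm.trans e2)
      have h5 := Finset.card_filter_add_card_filter_not (s := A') (fun k => Y.Dj [x] [a k, b k])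
      rw [List.length_cons]
      omega
    · intro k hk y hy y' hy'
      have h4 := Finset.mem_filter.1 hk
      rcases List.mem_cons.1 hy with rfl | hy
      · exact h4.2 _ (by simp) y' hy'
      · exact h3 k h4.1 y hy y' hy'

lemma Ch.sub {lo hi M m : ℕ} {a b : ℕ → ℕ} (h : Y.Ch lo hi M a b) {f : ℕ → ℕ}
    (hf : ∀ k < m, f k < M) (hf' : ∀ i j, i < j → j < m → f i < f j) :
    Y.Ch lo hi m (fun k => a (f k)) (fun k => b (f k)) := by
  refine ⟨fun k hk => h.rg _ (hf k hk), fun k hk => h.lk _ (hf k hk),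
    fun k hk k' hk' => h.ab _ (hf k hk) _ (hf k' hk'), fun k hk k' hk' hne =>
    h.dis _ (hf k hk) _ (hf k' hk') ?_⟩
  rcases Nat.lt_or_gt_of_ne hne with h1 | h1
  · have := hf' k k' h1 hk'
    omega
  · have := hf' k' k h1 hk
    omega

/-- **A nest gives an item.** -/
theorem nest_item {D : ℕ} (hY : Y.Ax D) {m lo hi : ℕ} (hm : 1 ≤ m) {a b : ℕ → ℕ}
    (hc : Y.Ch lo hi (2 * m + 10) a b)
    (ho : ∀ k, k + 1 < 2 * m + 10 → a (k + 1) < a k ∧ b k < b (k + 1))
    (hs : Y.sh (a 0) = Y.sh (b 0)) :
    ∃ (ty : Fin 5) (a' b' : ℕ → ℕ) (x z : ℕ) (p : ℕ → ℕ), ty ≠ 0 ∧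
      Y.Itm lo hi m ty a' b' x z p := by
  have ha := steps' (f := a) (m := 2 * m + 10) (fun k hk => (ho k hk).1)
  have hb := steps (f := b) (m := 2 * m + 10) (fun k hk => (ho k hk).2)
  have hab := hc.ab 0 (by omega) 0 (by omega)
  have hbL : b 0 < Y.L := (hc.lk 0 (by omega)).2.1
  have hr := hc.rg 0 (by omega)
  -- the selection
  have hsel : ∀ (l : List ℕ) (s t : ℕ), t ≤ 2 * m + 10 → 1 ≤ s → s + m + l.length ≤ t →
      ∃ f : ℕ → ℕ, (∀ k < m, s ≤ f k ∧ f k < t) ∧ (∀ i j, i < j → j < m → f i < f j) ∧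
        ∀ k < m, Y.Dj l [a (f k), b (f k)] := by
    intro l s t h1 h2 h3
    obtain ⟨A', g1, g2, g3⟩ := avoid hc.dis l (Finset.Ico s t)
      (fun k hk => by rw [Finset.mem_Ico] at hk; omega)
    rw [Nat.card_Ico] at g2
    obtain ⟨f, f1, f2⟩ := enum (A := A') (m := m) (by omega)
    exact ⟨f, fun k hk => Finset.mem_Ico.1 (g1 (f1 k hk)), f2, fun k hk => g3 _ (f1 k hk)⟩
  have hord : ∀ f : ℕ → ℕ, (∀ k < m, f k < 2 * m + 10) → (∀ i j, i < j → j < m → f i < f j) →
      ∀ k, k + 1 < m → a (f (k + 1)) < a (f k) ∧ b (f k) < b (f (k + 1)) := by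
    intro f h1 h2 k hk
    exact ⟨ha _ _ (h2 k (k + 1) (by omega) hk) (h1 _ hk),
      hb _ _ (h2 k (k + 1) (by omega) hk) (h1 _ hk)⟩
  have h5 : ∀ k ty : Fin 5, ty = k → ty ≠ k → False := fun k ty h1 h2 => h2 h1
  rcases pocket hY _ (a 0) (b 0) le_rfl hab (hc.lk 0 (by omega)) hs with
    ⟨q, hq1, hq2, hq3⟩ | ⟨a₁, b₁, c₁, d₁, g1, g2, g3, g4, g5, g6, g7, g8⟩
  · -- grounded connector
    obtain ⟨f, f1, f2, f3⟩ := hsel [q] 1 (2 * m + 10) le_rfl le_rfl (by simp; omega)
    refine ⟨1, fun k => a (f k), fun k => b (f k), q, q, fun _ => q, by decide,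
      hc.sub (fun k hk => (f1 k hk).2) f2, ⟨by omega, by omega, by omega⟩,
      ⟨by omega, Or.inl rfl⟩, fun _ _ => ⟨by omega, by omega, by omega⟩,
      fun h => absurd h (by decide), fun _ => hord f (fun k hk => (f1 k hk).2) f2, fun _ => ?_,
      fun h => absurd h (by decide), fun h => absurd h (by decide), fun h => absurd h (by decide)⟩
    have e1 := ha 0 (f 0) (by have := f1 0 (by omega); omega) (f1 0 (by omega)).2
    have e2 := hb 0 (f 0) (by have := f1 0 (by omega); omega) (f1 0 (by omega)).2
    exact ⟨by omega, by omega, hq3, f3⟩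
  · by_cases hin : a (m + 5) < d₁ ∧ d₁ < b (m + 5)
    · -- a cross in the pocket
      have hrh := hc.rg (m + 5) (by omega)
      rcases g5 with g5 | g5
      · obtain ⟨f, f1, f2, f3⟩ := hsel [d₁, b₁, a₁, c₁] (m + 5) (2 * m + 10) le_rfl (by omega)
          (by simp; omega)
        have e1 : a (f 0) ≤ a (m + 5) := by
          rcases Nat.lt_or_ge (m + 5) (f 0) with h1 | h1
          · exact (ha _ _ h1 (f1 0 (by omega)).2).le
          · have : f 0 = m + 5 := by have := f1 0 (by omega); omega
            rw [this]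
        have e2 : b (m + 5) ≤ b (f 0) := by
          rcases Nat.lt_or_ge (m + 5) (f 0) with h1 | h1
          · exact (hb _ _ h1 (f1 0 (by omega)).2).le
          · have : f 0 = m + 5 := by have := f1 0 (by omega); omega
            rw [this]
        have e3 := hb 0 (m + 5) (by omega) (by omega)
        refine ⟨2, fun k => a (f k), fun k => b (f k), a₁, a₁,
          fun i => if i = 0 then d₁ else if i = 1 then a₁ else if i = 2 then b₁ else c₁,
          by decide, hc.sub (fun k hk => (f1 k hk).2) f2, ⟨by omega, by omega, by omega⟩,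
          ⟨by omega, Or.inl rfl⟩, fun k _ => ?_,
          fun h => absurd h (by decide), fun _ => hord f (fun k hk => (f1 k hk).2) f2,
          fun h => absurd h (by decide), fun _ => ?_, fun h => absurd h (by decide),
          fun h => absurd h (by decide)⟩
        · split_ifs
          · exact ⟨by omega, by omega, by omega⟩
          · exact ⟨by omega, by omega, by omega⟩
          · exact ⟨by omega, by omega, by omega⟩
          · exact ⟨by omega, by omega, by omega⟩
        · refine ⟨by simp only [if_true]; omega, by simp; omega, by simp; omega, by simp; omega,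
            by simp; omega, ?_, ?_, ?_, ?_⟩
          · simpa using g7.symm hY
          · simpa using g6
          · simpa using (g8.mono (q := [a₁, c₁]) (q' := [d₁, b₁]) (by simp) (by simp)).symm
          · intro k hk
            simpa using f3 k hk
      · obtain ⟨f, f1, f2, f3⟩ := hsel [a₁, c₁, b₁, d₁] (m + 5) (2 * m + 10) le_rfl (by omega)
          (by simp; omega)
        have e1 : a (f 0) ≤ a (m + 5) := by
          rcases Nat.lt_or_ge (m + 5) (f 0) with h1 | h1
          · exact (ha _ _ h1 (f1 0 (by omega)).2).le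
          · have : f 0 = m + 5 := by have := f1 0 (by omega); omega
            rw [this]
        have e2 : b (m + 5) ≤ b (f 0) := by
          rcases Nat.lt_or_ge (m + 5) (f 0) with h1 | h1
          · exact (hb _ _ h1 (f1 0 (by omega)).2).le
          · have : f 0 = m + 5 := by have := f1 0 (by omega); omega
            rw [this]
        have e3 := ha 0 (m + 5) (by omega) (by omega)
        have e4 : d₁ < Y.L := g7.2.1
        refine ⟨2, fun k => a (f k), fun k => b (f k), a₁, a₁,
          fun i => if i = 0 then a₁ else if i = 1 then b₁ else if i = 2 then c₁ else d₁,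
          by decide, hc.sub (fun k hk => (f1 k hk).2) f2, ⟨by omega, by omega, by omega⟩,
          ⟨by omega, Or.inl rfl⟩, fun k _ => ?_,
          fun h => absurd h (by decide), fun _ => hord f (fun k hk => (f1 k hk).2) f2,
          fun h => absurd h (by decide), fun _ => ?_, fun h => absurd h (by decide),
          fun h => absurd h (by decide)⟩
        · split_ifs
          · exact ⟨by omega, by omega, by omega⟩
          · exact ⟨by omega, by omega, by omega⟩
          · exact ⟨by omega, by omega, by omega⟩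
          · exact ⟨by omega, by omega, by omega⟩
        · refine ⟨by simp only [if_true]; omega, by simp; omega, by simp; omega, by simp; omega,
            by simp; omega, ?_, ?_, ?_, ?_⟩
          · simpa using g6
          · simpa using g7
          · simpa using g8
          · intro k hk
            simpa using f3 k hk
    · -- a link leaving the pocket
      obtain ⟨f, f1, f2, f3⟩ := hsel [b₁, d₁] 1 (m + 5) (by omega) le_rfl (by simp; omega)
      have e1 := ha 0 (f 0) (by have := f1 0 (by omega); omega)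
        (by have := f1 0 (by omega); omega)
      have e2 := hb 0 (f 0) (by have := f1 0 (by omega); omega)
        (by have := f1 0 (by omega); omega)
      rcases Nat.lt_or_ge (a (m + 5)) d₁ with h1 | h1
      · have h2 : b (m + 5) ≤ d₁ := by
          by_contra h3
          exact hin ⟨h1, by omega⟩
        refine ⟨3, fun k => a (f k), fun k => b (f k), b₁, d₁, fun _ => b₁, by decide,
          hc.sub (fun k hk => by have := f1 k hk; omega) f2, ⟨by omega, by omega, by omega⟩,
          ⟨g7.2.1, g7.2.2.2⟩, fun _ _ => ⟨by omega, by omega, by omega⟩,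
          fun h => absurd h (by decide),
          fun _ => hord f (fun k hk => by have := f1 k hk; omega) f2,
          fun h => absurd h (by decide), fun h => absurd h (by decide), fun _ => ?_,
          fun h => absurd h (by decide)⟩
        refine ⟨by omega, by omega, g7, fun k hk => ?_, f3⟩
        have := hb (f k) (m + 5) (f1 k hk).2 (by omega)
        omega
      · refine ⟨4, fun k => a (f k), fun k => b (f k), b₁, d₁, fun _ => b₁, by decide,
          hc.sub (fun k hk => by have := f1 k hk; omega) f2, ⟨by omega, by omega, by omega⟩,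
          ⟨g7.2.1, g7.2.2.2⟩, fun _ _ => ⟨by omega, by omega, by omega⟩,
          fun h => absurd h (by decide),
          fun _ => hord f (fun k hk => by have := f1 k hk; omega) f2,
          fun h => absurd h (by decide), fun h => absurd h (by decide),
          fun h => absurd h (by decide), fun _ => ?_⟩
        refine ⟨by omega, by omega, g7, fun k hk => ?_, f3⟩
        have := ha (f k) (m + 5) (f1 k hk).2 (by omega)
        omega

end Sys

end EN
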