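import Pool.Agent.EN.LocB

/-!
# Row T4: local links in many blocks give a pattern
-/

namespace EN

namespace Sys

variable {κ : Type*} {Y : Sys κ}

/-- The ports whose connector is, or touches, the connector `k`. -/
lemma Ax.near_card {D : ℕ} (hY : Y.Ax D) (k : κ) (F : Finset ℕ)
    (hF : ∀ x ∈ F, x < Y.L ∧ (Y.own x = k ∨ Y.ct (Y.own x) k)) : F.card ≤ D + D * D := by
  classical
  have h1 : (F.filter (fun x => Y.own x = k)).card ≤ D :=
    hY.a5 k _ (fun x hx => ⟨(hF x (Finset.mem_filter.1 hx).1).1, (Finset.mem_filter.1 hx).2⟩)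
  have h2 : (F.filter (fun x => ¬ Y.own x = k)).card ≤ D * D := by
    refine (Finset.card_le_mul_card_image (f := Y.own) _ D ?_).trans
      (Nat.mul_le_mul_left D ?_)
    · intro b _
      refine hY.a5 b _ (fun x hx => ⟨?_, (Finset.mem_filter.1 hx).2⟩)
      exact (hF x (Finset.mem_filter.1 (Finset.mem_filter.1 hx).1).1).1
    · refine hY.a6 k _ (fun k' hk' => ?_)
      obtain ⟨x, hx, rfl⟩ := Finset.mem_image.1 hk'
      have h3 := Finset.mem_filter.1 hx
      rcases (hF x h3.1).2 with h4 | h4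
      · exact absurd h4 h3.2
      · exact hY.symm _ _ h4
  have h3 := Finset.card_filter_add_card_filter_not (s := F) (fun x => Y.own x = k)
  omega

/-- **Independent items.**  `X i`: disjoint sets of ports; every port of `Z i` is linked to (or has
the connector of) a port of `X i`. -/
theorem conf {D W n m : ℕ} (hY : Y.Ax D) (X Z : ℕ → Finset ℕ) (hX : ∀ i < n, ∀ x ∈ X i, x < Y.L)
    (hXX : ∀ i < n, ∀ j < n, i ≠ j → Disjoint (X i) (X j))
    (hZ : ∀ i < n, ∀ z ∈ Z i, ∃ x ∈ X i, Y.own x = Y.own z ∨ Y.ct (Y.own x) (Y.own z))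
    (hW : ∀ i < n, (Z i).card ≤ W) (hn : (2 * (W * (D + D * D)) + 1) * m ≤ n) :
    ∃ f : ℕ → ℕ, (∀ i < m, f i < n) ∧ (∀ i j, i < j → j < m → f i < f j) ∧
      ∀ i < m, ∀ j < m, i ≠ j → ∀ z ∈ Z (f i), ∀ z' ∈ Z (f j), Y.own z ≠ Y.own z' := by
  classical
  have hout : ∀ i ∈ Finset.range n, {j | j ∈ Finset.range n ∧ (i ≠ j ∧ ∃ z ∈ Z i, ∃ z' ∈ Z j,
      Y.own z = Y.own z')}.ncard ≤ W * (D + D * D) := by
    intro i hi
    rw [Finset.mem_range] at hi
    set T : Finset ℕ := (Finset.range n).filter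
      (fun j => i ≠ j ∧ ∃ z ∈ Z i, ∃ z' ∈ Z j, Y.own z = Y.own z') with hT
    have e1 : {j | j ∈ Finset.range n ∧ (i ≠ j ∧ ∃ z ∈ Z i, ∃ z' ∈ Z j, Y.own z = Y.own z')} =
        (T : Set ℕ) := by
      ext j
      simp [hT]
    rw [e1, Set.ncard_coe_finset]
    have h4 : ∀ j ∈ T, ∃ x, x ∈ X j ∧ ∃ z ∈ Z i, Y.own x = Y.own z ∨ Y.ct (Y.own x) (Y.own z) := by
      intro j hj
      obtain ⟨g1, g2, z, hz, z', hz', he⟩ := Finset.mem_filter.1 hj
      rw [Finset.mem_range] at g1
      obtain ⟨x, hx, hx'⟩ := hZ j g1 z' hz'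
      exact ⟨x, hx, z, hz, by rwa [he]⟩
    choose! x hx using h4
    have h5 : T.card ≤ ((Z i).biUnion (fun z => (Finset.range Y.L).filter
        (fun x => Y.own x = Y.own z ∨ Y.ct (Y.own x) (Y.own z)))).card := by
      refine Finset.card_le_card_of_injOn x ?_ ?_
      · intro j hj
        have hj' := Finset.mem_coe.1 hj
        obtain ⟨g1, z, hz, g2⟩ := hx j hj'
        have g3 := Finset.mem_range.1 (Finset.mem_filter.1 hj').1
        exact Finset.mem_coe.2 (Finset.mem_biUnion.2 ⟨z, hz, Finset.mem_filter.2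
          ⟨Finset.mem_range.2 (hX j g3 _ g1), g2⟩⟩)
      · intro j hj j' hj' he
        by_contra hne
        have g1 := (hx j (Finset.mem_coe.1 hj)).1
        have g2 := (hx j' (Finset.mem_coe.1 hj')).1
        rw [← he] at g2
        exact Finset.disjoint_left.1 (hXX j
          (Finset.mem_range.1 (Finset.mem_filter.1 (Finset.mem_coe.1 hj)).1) j'
          (Finset.mem_range.1 (Finset.mem_filter.1 (Finset.mem_coe.1 hj')).1) hne) g1 g2
    refine h5.trans (Finset.card_biUnion_le.trans ?_)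
    refine (Finset.sum_le_card_nsmul _ _ (D + D * D) (fun z _ => ?_)).trans ?_
    · refine hY.near_card (Y.own z) _ (fun x hx => ?_)
      have := Finset.mem_filter.1 hx
      exact ⟨Finset.mem_range.1 this.1, this.2⟩
    · rw [smul_eq_mul]
      exact Nat.mul_le_mul_right _ (hW i hi)
  obtain ⟨C, h1, h2, h3⟩ := Mdr.indep_of_out (W * (D + D * D))
    (fun i j => i ≠ j ∧ ∃ z ∈ Z i, ∃ z' ∈ Z j, Y.own z = Y.own z') m (Finset.range n) hout
    (by rwa [Finset.card_range])
  obtain ⟨f, f1, f2⟩ := enum (A := C) (m := m) (by omega)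
  refine ⟨f, fun i hi => Finset.mem_range.1 (h1 (f1 i hi)), f2, ?_⟩
  intro i hi j hj hij z hz z' hz' he
  have hne : f i ≠ f j := by
    rcases Nat.lt_or_gt_of_ne hij with h4 | h4
    · have := f2 i j h4 hj; omega
    · have := f2 j i h4 hi; omega
  exact h3 (f i) (f1 i hi) (f j) (f1 j hj) hne ⟨hne, z, hz, z', hz', he⟩

end Sys

end EN
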