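import Pool.Agent.EN.LocC

/-!
# Row T4: assembly
-/

namespace EN

namespace Sys

variable {κ : Type*} {Y : Sys κ}

/-- The ports of an item. -/
def InI (m : ℕ) (a b : ℕ → ℕ) (x z : ℕ) (p : ℕ → ℕ) (y : ℕ) : Prop :=
  (∃ k < m, y = a k ∨ y = b k) ∨ y = x ∨ y = z ∨ ∃ k < 4, y = p k

/-- A series of independent items of one type. -/
structure Series (Y : Sys κ) (N m : ℕ) (ty : Fin 5) (lo hi : ℕ → ℕ) (a b : ℕ → ℕ → ℕ)
    (x z : ℕ → ℕ) (p : ℕ → ℕ → ℕ) (s₀ s₁ : ℕ) : Prop where
  it : ∀ g < N, Y.Itm (lo g) (hi g) m ty (a g) (b g) (x g) (z g) (p g)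
  lh : ∀ g g', g < g' → g' < N → hi g ≤ lo g'
  sh : ∀ g < N, ∀ y, lo g < y → y < hi g → Y.sh y = s₀
  shz : (ty = 3 ∨ ty = 4) → ∀ g < N, Y.sh (z g) = s₁
  ind : ∀ g < N, ∀ g' < N, g ≠ g' → ∀ y y', InI m (a g) (b g) (x g) (z g) (p g) y →
    InI m (a g') (b g') (x g') (z g') (p g') y' → Y.own y ≠ Y.own y'

variable {N m : ℕ} {ty : Fin 5} {lo hi : ℕ → ℕ} {a b : ℕ → ℕ → ℕ}
    {x z : ℕ → ℕ} {p : ℕ → ℕ → ℕ} {s₀ s₁ : ℕ}

/-- Passing to a subsequence. -/
lemma Series.sub (h : Y.Series N m ty lo hi a b x z p s₀ s₁) {N' : ℕ} {f : ℕ → ℕ}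
    (hf : ∀ g < N', f g < N) (hf' : ∀ i j, i < j → j < N' → f i < f j) :
    Y.Series N' m ty (fun g => lo (f g)) (fun g => hi (f g)) (fun g => a (f g))
      (fun g => b (f g)) (fun g => x (f g)) (fun g => z (f g)) (fun g => p (f g)) s₀ s₁ where
  it := fun g hg => h.it _ (hf g hg)
  lh := fun g g' h1 h2 => h.lh _ _ (hf' g g' h1 h2) (hf _ h2)
  sh := fun g hg => h.sh _ (hf g hg)
  shz := fun ht g hg => h.shz ht _ (hf g hg)
  ind := by
    intro g hg g' hg' hne
    refine h.ind _ (hf g hg) _ (hf g' hg') ?_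
    rcases Nat.lt_or_gt_of_ne hne with h1 | h1
    · have := hf' g g' h1 hg'; omega
    · have := hf' g' g h1 hg; omega

/-- Ports of the chords. -/
lemma Series.loc (h : Y.Series N m ty lo hi a b x z p s₀ s₁) {g k : ℕ} (hg : g < N)
    (hk : k < m) : lo g < a g k ∧ a g k < b g k ∧ b g k < hi g ∧ Y.sh (a g k) = s₀ ∧
      Y.sh (b g k) = s₀ := by
  have h1 := (h.it g hg).ch.rg k hk
  have h2 := (h.it g hg).ch.ab k hk k hk
  exact ⟨h1.1, h2, h1.2, h.sh g hg _ h1.1 (by omega), h.sh g hg _ (by omega) h1.2⟩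

lemma Series.dj (h : Y.Series N m ty lo hi a b x z p s₀ s₁) {g g' k k' : ℕ} (hg : g < N)
    (hk : k < m) (hg' : g' < N) (hk' : k' < m) (hne : (g, k) ≠ (g', k')) :
    Y.Dj [a g k, b g k] [a g' k', b g' k'] := by
  by_cases hgg : g = g'
  · subst hgg
    exact (h.it g hg).ch.dis k hk k' hk' (fun e => hne (by rw [e]))
  · intro y hy y' hy'
    simp only [List.mem_cons, List.not_mem_nil, or_false] at hy hy'
    exact h.ind g hg g' hg' hgg y y' (Or.inl ⟨k, hk, hy⟩) (Or.inl ⟨k', hk', hy'⟩)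

/-- The nests of a series. -/
lemma Series.ns (h : Y.Series N m ty lo hi a b x z p s₀ s₁) (ht : ty ≠ 0) (hm : 1 ≤ m) :
    Y.Ns N m (fun k g => a g k) (fun k g => b g k) where
  lk := fun g hg k hk => (h.it g hg).ch.lk k hk
  am := fun g hg k hk => ((h.it g hg).o1 ht k hk).1
  bm := fun g hg k hk => ((h.it g hg).o1 ht k hk).2
  ab := fun g hg => (h.it g hg).ch.ab 0 hm 0 hm
  ser := by
    intro g g' h1 h2 k hk k' hk'
    have e1 := h.loc (g := g) (by omega) hk
    have e2 := h.loc h2 hk'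
    have e3 := h.lh g g' h1 h2
    omega
  on := ⟨s₀, fun g hg k hk => ⟨(h.loc hg hk).2.2.2.1, (h.loc hg hk).2.2.2.2⟩⟩
  dis := fun g hg k hk g' hg' k' hk' hne => h.dj hg hk hg' hk' hne

/-- Type `0`. -/
lemma Series.p0 (h : Y.Series N m 0 lo hi a b x z p s₀ s₁) : ∃ u v, Y.PM N m u v := by
  refine ⟨fun k g => a g k, fun k g => b g k, ?_, ?_, ?_, ?_, ?_, ?_, ?_⟩
  · exact fun g hg k hk => (h.it g hg).ch.lk k hk
  · exact fun g hg k hk => ((h.it g hg).o0 rfl k hk).1
  · exact fun g hg k hk => ((h.it g hg).o0 rfl k hk).2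
  · exact fun g hg k hk k' hk' => (h.it g hg).ch.ab k hk k' hk'
  · intro g g' h1 h2 k hk k' hk'
    have e1 := h.loc (g := g) (by omega) hk
    have e2 := h.loc h2 hk'
    have e3 := h.lh g g' h1 h2
    omega
  · exact ⟨s₀, fun g hg k hk => ⟨(h.loc hg hk).2.2.2.1, (h.loc hg hk).2.2.2.2⟩⟩
  · exact fun g hg k hk g' hg' k' hk' hne => h.dj hg hk hg' hk' hne

/-- Connectors of the extra ports and of the chords. -/
lemma Series.djx (h : Y.Series N m ty lo hi a b x z p s₀ s₁) {l : ℕ → List ℕ}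
    (hl : ∀ g < N, ∀ y ∈ l g, y = x g ∨ y = z g ∨ ∃ k < 4, y = p g k)
    (hd : ∀ g < N, ∀ k < m, Y.Dj (l g) [a g k, b g k]) :
    Y.Dis N l ∧ ∀ g < N, ∀ g' < N, ∀ k < m, Y.Dj (l g) [a g' k, b g' k] := by
  constructor
  · intro g hg g' hg' hne y hy y' hy'
    exact h.ind g hg g' hg' hne y y' (Or.inr (hl g hg y hy)) (Or.inr (hl g' hg' y' hy'))
  · intro g hg g' hg' k hk
    by_cases hgg : g = g'
    · subst hgg
      exact hd g hg k hk
    · intro y hy y' hy'
      simp only [List.mem_cons, List.not_mem_nil, or_false] at hy'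
      exact h.ind g hg g' hg' hgg y y' (Or.inr (hl g hg y hy)) (Or.inl ⟨k, hk, hy'⟩)

/-- Type `1`. -/
lemma Series.p1 (h : Y.Series N m 1 lo hi a b x z p s₀ s₁) (hm : 1 ≤ m) :
    ∃ a b x, Y.PS N m a b x := by
  obtain ⟨h1, h2⟩ := h.djx (l := fun g => [x g]) (fun g _ y hy => by
    simp only [List.mem_cons, List.not_mem_nil, or_false] at hy; exact Or.inl hy)
    (fun g hg => ((h.it g hg).t1 rfl).2.2.2)
  exact ⟨_, _, x, h.ns (by decide) hm,
    fun g hg => ⟨((h.it g hg).t1 rfl).1, ((h.it g hg).t1 rfl).2.1⟩,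
    fun g hg => ((h.it g hg).t1 rfl).2.2.1, h1, h2⟩

/-- Type `2`. -/
lemma Series.p2 (h : Y.Series N m 2 lo hi a b x z p s₀ s₁) (hm : 1 ≤ m) :
    ∃ a b y z v v', Y.PSC N m a b y z v v' := by
  obtain ⟨h1, h2⟩ := h.djx (l := fun g => [p g 0, p g 2, p g 1, p g 3]) (fun g _ y hy => by
    simp only [List.mem_cons, List.not_mem_nil, or_false] at hy
    rcases hy with hy | hy | hy | hy
    · exact Or.inr (Or.inr ⟨0, by omega, hy⟩)
    · exact Or.inr (Or.inr ⟨2, by omega, hy⟩)
    · exact Or.inr (Or.inr ⟨1, by omega, hy⟩)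
    · exact Or.inr (Or.inr ⟨3, by omega, hy⟩))
    (fun g hg => ((h.it g hg).t2 rfl).2.2.2.2.2.2.2.2)
  refine ⟨_, _, fun g => p g 0, fun g => p g 2, fun g => p g 1, fun g => p g 3,
    h.ns (by decide) hm, ?_, ?_, ?_, h1, ?_, h2⟩
  · exact fun g hg => ((h.it g hg).t2 rfl).2.2.2.2.2.1
  · exact fun g hg => ((h.it g hg).t2 rfl).2.2.2.2.2.2.1
  · intro g hg
    have := (h.it g hg).t2 rfl
    exact ⟨this.1, this.2.1, this.2.2.1, this.2.2.2.1, this.2.2.2.2.1⟩
  · exact fun g hg => ((h.it g hg).t2 rfl).2.2.2.2.2.2.2.1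

/-- The far pattern. -/
lemma Series.far (h : Y.Series N m ty lo hi a b x z p s₀ s₁) (ht : ty = 3 ∨ ty = 4) (hm : 1 ≤ m)
    (hz : RamP.Mon N z)
    (hf : (∀ g < N, ∀ g' < N, hi g ≤ z g') ∨ (∀ g < N, ∀ g' < N, z g' ≤ lo g)) :
    ∃ a b x z, Y.PSF N m a b x z := by
  have hx : ∀ g < N, a g 0 < x g ∧ x g < b g 0 ∧ Y.Lk (x g) (z g) ∧
      ∀ k < m, Y.Dj [x g, z g] [a g k, b g k] := by
    intro g hg
    rcases ht with ht | ht
    · have := (h.it g hg).t3 ht
      exact ⟨this.1, this.2.1, this.2.2.1, this.2.2.2.2⟩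
    · have := (h.it g hg).t4 ht
      exact ⟨this.1, this.2.1, this.2.2.1, this.2.2.2.2⟩
  obtain ⟨h1, h2⟩ := h.djx (l := fun g => [x g, z g]) (fun g _ y hy => by
    simp only [List.mem_cons, List.not_mem_nil, or_false] at hy
    rcases hy with hy | hy
    · exact Or.inl hy
    · exact Or.inr (Or.inl hy)) (fun g hg => (hx g hg).2.2.2)
  refine ⟨_, _, x, z, h.ns (by rcases ht with rfl | rfl <;> decide) hm,
    fun g hg => ⟨(hx g hg).1, (hx g hg).2.1⟩, fun g hg => (hx g hg).2.2.1, hz, ?_, ?_, h1, h2⟩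
  · intro k hk
    rcases hf with hf | hf
    · left
      intro i hi' j hj y hy y' hy'
      simp only [List.mem_cons, List.not_mem_nil, or_false] at hy hy'
      have e1 := h.loc hi' hk
      have e2 := hf i hi' j hj
      rcases hy with rfl | rfl <;> rw [hy'] <;> omega
    · right
      intro i hi' j hj y hy y' hy'
      simp only [List.mem_cons, List.not_mem_nil, or_false] at hy hy'
      have e1 := h.loc hi' hk
      have e2 := hf i hi' j hj
      rcases hy with rfl | rfl <;> rw [hy'] <;> omega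
  · refine ⟨s₁, fun i hi' y hy => ?_⟩
    simp only [List.mem_cons, List.not_mem_nil, or_false] at hy
    rw [hy]
    exact ⟨(hx i hi').2.2.1.2.1, h.shz ht i hi'⟩

/-- The gap patterns. -/
lemma Series.gap (h : Y.Series N m ty lo hi a b x z p s₀ s₁) (ht : ty = 3 ∨ ty = 4) (hm : 1 ≤ m)
    (hss : s₁ = s₀)
    (hf : ∀ g, g + 1 < N → z g ≤ lo (g + 1) ∧ hi g ≤ z (g + 1)) :
    ∃ d a b x z, Y.PSG N m d a b x z := by
  have hx : ∀ g < N, a g 0 < x g ∧ x g < b g 0 ∧ Y.Lk (x g) (z g) ∧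
      ∀ k < m, Y.Dj [x g, z g] [a g k, b g k] := by
    intro g hg
    rcases ht with ht | ht
    · have := (h.it g hg).t3 ht
      exact ⟨this.1, this.2.1, this.2.2.1, this.2.2.2.2⟩
    · have := (h.it g hg).t4 ht
      exact ⟨this.1, this.2.1, this.2.2.1, this.2.2.2.2⟩
  obtain ⟨h1, h2⟩ := h.djx (l := fun g => [x g, z g]) (fun g _ y hy => by
    simp only [List.mem_cons, List.not_mem_nil, or_false] at hy
    rcases hy with hy | hy
    · exact Or.inl hy
    · exact Or.inr (Or.inl hy)) (fun g hg => (hx g hg).2.2.2)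
  refine ⟨decide (ty = 3), _, _, x, z, h.ns (by rcases ht with rfl | rfl <;> decide) hm,
    fun g hg => ⟨(hx g hg).1, (hx g hg).2.1⟩, fun g hg => (hx g hg).2.2.1, ?_, ?_, ?_, h1, h2⟩
  · intro g hg
    rw [h.shz ht g hg, hss]
    have e1 := h.loc hg (k := 0) hm
    have e2 := hx g hg
    exact (h.sh g hg _ (by omega) (by omega)).symm
  · intro g hg k hk
    rcases ht with ht | ht
    · rw [if_pos (by simp [ht])]
      exact ((h.it g hg).t3 ht).2.2.2.1 k hk
    · rw [if_neg (by simp [ht])]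
      exact ((h.it g hg).t4 ht).2.2.2.1 k hk
  · intro g hg k hk
    have e0 := hf g hg
    rcases ht with ht | ht
    · rw [if_pos (by simp [ht])]
      have e1 := h.loc (g := g + 1) hg hk
      omega
    · rw [if_neg (by simp [ht])]
      have e1 := h.loc (g := g) (by omega) hk
      omega

/-- **Assembly.** -/
theorem Series.pat {D : ℕ} (hY : Y.Ax D) {N' : ℕ}
    (h : Y.Series (2 * N' + 2) m ty lo hi a b x z p s₀ s₁)
    (hm : 1 ≤ m) (hz : RamP.Mon (2 * N' + 2) z)
    (hxz : RamP.Near (2 * N' + 2) x z ∨ RamP.Sep (2 * N' + 2) x z) (t : ℕ) : Y.Pat N' m t := by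
  have hsub : Y.Series N' m ty (fun g => lo (g + 1)) (fun g => hi (g + 1)) (fun g => a (g + 1))
      (fun g => b (g + 1)) (fun g => x (g + 1)) (fun g => z (g + 1)) (fun g => p (g + 1)) s₀ s₁ :=
    h.sub (fun g hg => by omega) (fun i j h1 h2 => by omega)
  have hmon : RamP.Mon N' (fun g => z (g + 1)) := by
    rcases hz with hz | hz
    · exact Or.inl fun r s h1 h2 => hz _ _ (by omega) (by omega)
    · exact Or.inr fun r s h1 h2 => hz _ _ (by omega) (by omega)
  have hfar : (ty = 3 ∨ ty = 4) → (s₁ ≠ s₀ ∨ RamP.Sep (2 * N' + 2) x z) →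
      ∃ a b x z, Y.PSF N' m a b x z := by
    intro ht hs
    refine hsub.far ht hm hmon ?_
    rcases hs with hs | hs
    · have hzs : ∀ g < 2 * N' + 2, Y.sh (z g) = s₁ := h.shz ht
      have hzL : ∀ g < 2 * N' + 2, z g < Y.L := fun g hg => (h.it g hg).lz.1
      have hx0 : ∀ g < 2 * N' + 2, x g < Y.L ∧ Y.sh (x g) = s₀ := fun g hg =>
        ⟨(h.it g hg).lx.2.2, h.sh g hg _ (h.it g hg).lx.1 (h.it g hg).lx.2.1⟩
      rcases Nat.lt_or_gt_of_ne hs with h1 | h1
      · right
        intro g hg g' hg'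
        have e1 : z (g' + 1) < x g := by
          by_contra hcon
          have := hY.mono (x g) (z (g' + 1)) (by omega) (hzL _ (by omega))
          rw [hzs _ (by omega), (hx0 _ (by omega)).2] at this
          omega
        have e2 := h.lh g (g + 1) (by omega) (by omega)
        have e3 := (h.it g (by omega)).lx
        omega
      · left
        intro g hg g' hg'
        have e1 : x (g + 2) < z (g' + 1) := by
          by_contra hcon
          have := hY.mono (z (g' + 1)) (x (g + 2)) (by omega) (hx0 _ (by omega)).1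
          rw [hzs _ (by omega), (hx0 _ (by omega)).2] at this
          omega
        have e2 := h.lh (g + 1) (g + 2) (by omega) (by omega)
        have e3 := (h.it (g + 2) (by omega)).lx
        omega
    · rcases hs with hs | hs
      · left
        intro g hg g' hg'
        have e1 := hs (g + 2) (g' + 1) (by omega) (by omega)
        have e2 := h.lh (g + 1) (g + 2) (by omega) (by omega)
        have e3 := (h.it (g + 2) (by omega)).lx
        omega
      · right
        intro g hg g' hg'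
        have e1 := hs g (g' + 1) (by omega) (by omega)
        have e2 := h.lh g (g + 1) (by omega) (by omega)
        have e3 := (h.it g (by omega)).lx
        omega
  have h34 : (ty = 3 ∨ ty = 4) → (∃ a b x z, Y.PSF N' m a b x z) ∨
      ∃ d a b x z, Y.PSG N' m d a b x z := by
    intro ht
    by_cases hss : s₁ = s₀
    · rcases hxz with hxz | hxz
      · right
        have hinc : ∀ r s, r < s → s < 2 * N' + 2 → x r < z s ∧ z r < x s := by
          rcases hxz with h1 | h1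
          · exact fun r s h2 h3 => ⟨(h1 r s h2 h3).2.1, (h1 r s h2 h3).2.2.1⟩
          · intro r s h2 h3
            exfalso
            have e1 := (h1 r s h2 h3).1
            have e2 := (h.it r (by omega)).lx
            have e3 := (h.it s (by omega)).lx
            have e4 := h.lh r s h2 h3
            omega
        have hsub2 : Y.Series N' m ty (fun g => lo (2 * g)) (fun g => hi (2 * g))
            (fun g => a (2 * g)) (fun g => b (2 * g)) (fun g => x (2 * g)) (fun g => z (2 * g))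
            (fun g => p (2 * g)) s₀ s₁ :=
          h.sub (fun g hg => by omega) (fun i j h1 h2 => by omega)
        refine hsub2.gap ht hm hss (fun g hg => ?_)
        have e1 := (hinc (2 * g) (2 * g + 1) (by omega) (by omega)).2
        have e2 := (h.it (2 * g + 1) (by omega)).lx
        have e3 := h.lh (2 * g + 1) (2 * (g + 1)) (by omega) (by omega)
        have e4 := (hinc (2 * g + 1) (2 * (g + 1)) (by omega) (by omega)).1
        have e5 := h.lh (2 * g) (2 * g + 1) (by omega) (by omega)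
        omega
      · exact Or.inl (hfar ht (Or.inr hxz))
    · exact Or.inl (hfar ht (Or.inl hss))
  unfold Sys.Pat
  have hty : ty = 0 ∨ ty = 1 ∨ ty = 2 ∨ ty = 3 ∨ ty = 4 := by
    revert ty
    intro ty _ _ _ _
    fin_cases ty <;> simp
  rcases hty with rfl | rfl | rfl | ht
  · obtain ⟨u, v, hp⟩ := hsub.p0
    exact Or.inr (Or.inr (Or.inr (Or.inr (Or.inr (Or.inl ⟨u, v, hp⟩)))))
  · obtain ⟨a, b, x, hp⟩ := hsub.p1 hm
    exact Or.inr (Or.inr (Or.inr (Or.inr (Or.inr (Or.inr (Or.inl ⟨a, b, x, hp⟩))))))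
  · obtain ⟨a, b, y, z, v, v', hp⟩ := hsub.p2 hm
    exact Or.inr (Or.inr (Or.inr (Or.inr (Or.inr (Or.inr (Or.inr (Or.inr (Or.inr
      (Or.inl ⟨a, b, y, z, v, v', hp⟩)))))))))
  · rcases h34 ht with hp | hp
    · exact Or.inr (Or.inr (Or.inr (Or.inr (Or.inr (Or.inr (Or.inr (Or.inl hp)))))))
    · exact Or.inr (Or.inr (Or.inr (Or.inr (Or.inr (Or.inr (Or.inr (Or.inr (Or.inl hp))))))))

end Sys

end EN
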