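import Pool.Agent.EN.LocD

/-!
# Row T4: the theorem
-/

namespace EN

namespace Sys

/-- A colouring with `c + 1` colours which separates `c` given values. -/
lemma sepcol (A : Finset ℕ) {c : ℕ} (hA : A.card ≤ c) : ∃ idx : ℕ → Fin (c + 1),
    ∀ x ∈ A, ∀ y ∈ A, idx x = idx y → x = y := by
  classical
  refine ⟨fun x => if h : x ∈ A then
    ⟨(A.equivFin ⟨x, h⟩).val, lt_of_lt_of_le (A.equivFin ⟨x, h⟩).2 (by omega)⟩ else 0, ?_⟩
  intro x hx y hy h
  simp only [dif_pos hx, dif_pos hy, Fin.mk.injEq] at h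
  have h1 := A.equivFin.injective (Fin.ext h)
  exact congrArg Subtype.val h1

/-- **T4 (LOCAL).** -/
theorem loc (D N m c : ℕ) : ∃ n M : ℕ, ∀ {κ : Type*} (Y : Sys κ), Y.Ax D → ∀ (t : ℕ)
    (s e : ℕ → ℕ),
    (∀ i < n, s i ≤ e i ∧ e i < Y.L) →
    (∀ i, i + 1 < n → e i < s (i + 1)) → (∀ i < n, Y.sh (s i) = Y.sh (s 0) ∧ Y.sh (e i) = Y.sh (s 0)) →
    (∀ i, 1 ≤ i → i + 1 < n → ∃ u v : ℕ → ℕ,
      (∀ k < M, s i ≤ u k ∧ u k ≤ e i ∧ (v k < s i ∨ e i < v k) ∧ Y.Lk (u k) (v k) ∧
        e (i - 1) < v k ∧ v k < s (i + 1)) ∧ Y.Dis M (fun k => [u k, v k])) →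
    (∃ A : Finset ℕ, A.card ≤ c ∧ ∀ u v, Y.Lk u v → s 0 ≤ u → u ≤ e (n - 1) → Y.sh v ∈ A) →
    Y.Pat N m t := by
  classical
  rcases Nat.eq_zero_or_pos m with hm0 | hm
  · subst hm0
    refine ⟨0, 0, ?_⟩
    intro κ Y _ t s e _ _ _ _ _
    refine Or.inr (Or.inr (Or.inr (Or.inr (Or.inr (Or.inl ⟨fun _ _ => 0, fun _ _ => 0, ?_⟩)))))
    exact ⟨fun _ _ k hk => absurd hk (by omega), fun _ _ k hk => absurd hk (by omega),
      fun _ _ k hk => absurd hk (by omega), fun _ _ k hk => absurd hk (by omega),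
      fun _ _ _ _ k hk => absurd hk (by omega), ⟨0, fun _ _ k hk => absurd hk (by omega)⟩,
      fun _ _ k hk => absurd hk (by omega)⟩
  obtain ⟨M, hM⟩ := block (2 * m + 10)
  obtain ⟨n₂, hn₂⟩ := RamP.homog (Fin 2) (2 * N + 2) (Fin 5 × Fin (c + 1))
  obtain ⟨n₁, hn₁⟩ : ∃ n₁, n₁ = (2 * ((2 * m + 6) * (D + D * D)) + 1) * n₂ := ⟨_, rfl⟩
  refine ⟨2 * n₁ + 3, M, ?_⟩
  intro κ Y hY t s e hse hser hsh hlinks hA
  obtain ⟨A, hA1, hA2⟩ := hA
  obtain ⟨idx, hidx⟩ := sepcol A hA1
  have hemon : ∀ i j, i ≤ j → j < 2 * n₁ + 3 → e i ≤ e j := by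
    intro i j hij hj
    induction j with
    | zero =>
      have : i = 0 := by omega
      rw [this]
    | succ q ih =>
      rcases Nat.lt_or_ge i (q + 1) with h1 | h1
      · have h2 := ih (by omega) (by omega)
        have h3 := hser q hj
        have h4 := (hse (q + 1) hj).1
        omega
      · have : i = q + 1 := by omega
        rw [this]
  have hloc : ∀ g < n₁, ∀ y, e (2 * g) < y → y < s (2 * g + 2) →
      s 0 ≤ y ∧ y ≤ e (2 * n₁ + 3 - 1) ∧ Y.sh y = Y.sh (s 0) := by
    intro g hg y h1 h2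
    have h3 := hemon 0 (2 * g) (by omega) (by omega)
    have h4 := (hse 0 (by omega)).1
    have h5 := (hse (2 * g + 2) (by omega)).1
    have h6 := hemon (2 * g + 2) (2 * n₁ + 3 - 1) (by omega) (by omega)
    exact ⟨by omega, by omega, hY.sh_eq (hsh (2 * n₁ + 3 - 1) (by omega)).2.symm (by omega)
      (by omega) (hse _ (by omega)).2⟩
  -- the items
  have hitem : ∀ g, ∃ (ty : Fin 5) (a b : ℕ → ℕ) (x z : ℕ) (p : ℕ → ℕ), g < n₁ →
      Y.Itm (e (2 * g)) (s (2 * g + 2)) m ty a b x z p := by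
    intro g
    by_cases hg : g < n₁
    · obtain ⟨u, v, h1, h2⟩ := hlinks (2 * g + 1) (by omega) (by omega)
      obtain ⟨a, b, hch, hab⟩ := hM Y D hY (s (2 * g + 1)) (e (2 * g + 1)) (e (2 * g))
        (s (2 * g + 2)) u v (hser (2 * g) (by omega)) (hser (2 * g + 1) (by omega))
        (fun k hk => by
          have := h1 k hk
          exact ⟨this.1, this.2.1, this.2.2.1, this.2.2.2.1, this.2.2.2.2.1, this.2.2.2.2.2⟩) h2
      have hr := hch.rg 0 (by omega)
      have hr' := hch.ab 0 (by omega) 0 (by omega)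
      have hL := (hch.lk 0 (by omega)).1
      rcases hab with hab | hab
      · refine ⟨0, a, b, a 0, a 0, fun _ => a 0, fun _ => ?_⟩
        exact ⟨hch.sub (f := fun k => k) (fun k hk => by omega) (fun i j h _ => h),
          ⟨hr.1, by omega, hL⟩, ⟨hL, Or.inl rfl⟩, fun _ _ => ⟨hr.1, by omega, hL⟩,
          fun _ k hk => hab k (by omega), fun h => absurd rfl h, fun h => absurd h (by decide),
          fun h => absurd h (by decide), fun h => absurd h (by decide),
          fun h => absurd h (by decide)⟩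
      · obtain ⟨ty, a', b', x, z, p, _, h3⟩ := nest_item hY hm hch hab
          ((hloc g hg _ hr.1 (by omega)).2.2.trans (hloc g hg _ (by omega) hr.2).2.2.symm)
        exact ⟨ty, a', b', x, z, p, fun _ => h3⟩
    · exact ⟨0, id, id, 0, 0, id, fun h => absurd h hg⟩
  choose ty a b x z p hit using hitem
  have hlh : ∀ g g', g < g' → g' < n₁ → s (2 * g + 2) ≤ e (2 * g') := by
    intro g g' h1 h2
    exact (hse (2 * g + 2) (by omega)).1.trans (hemon _ _ (by omega) (by omega))
  -- independence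
  obtain ⟨φ, hφ1, hφ2, hφ3⟩ := conf (W := 2 * m + 6) (n := n₁) (m := n₂) hY
    (fun g => (Finset.range m).image (a g) ∪ ((Finset.range m).image (b g) ∪ ({x g} ∪
      (Finset.range 4).image (p g))))
    (fun g => (Finset.range m).image (a g) ∪ ((Finset.range m).image (b g) ∪ ({x g, z g} ∪
      (Finset.range 4).image (p g)))) (by
      intro g hg y hy
      have h1 := hit g hg
      simp only [Finset.mem_union, Finset.mem_image, Finset.mem_range, Finset.mem_singleton] at hy
      rcases hy with ⟨k, hk, rfl⟩ | ⟨k, hk, rfl⟩ | rfl | ⟨k, hk, rfl⟩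
      · exact (h1.ch.lk k hk).1
      · exact (h1.ch.lk k hk).2.1
      · exact h1.lx.2.2
      · exact (h1.lp k hk).2.2) (by
      have hin : ∀ g < n₁, ∀ y ∈ ((Finset.range m).image (a g) ∪ ((Finset.range m).image (b g) ∪
          ({x g} ∪ (Finset.range 4).image (p g)))), e (2 * g) < y ∧ y < s (2 * g + 2) := by
        intro g hg y hy
        have h1 := hit g hg
        simp only [Finset.mem_union, Finset.mem_image, Finset.mem_range,
          Finset.mem_singleton] at hy
        rcases hy with ⟨k, hk, rfl⟩ | ⟨k, hk, rfl⟩ | rfl | ⟨k, hk, rfl⟩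
        · have h2 := h1.ch.rg k hk
          have h3 := h1.ch.ab k hk k hk
          omega
        · have h2 := h1.ch.rg k hk
          have h3 := h1.ch.ab k hk k hk
          omega
        · have := h1.lx
          omega
        · have := h1.lp k hk
          omega
      intro g hg g' hg' hne
      rw [Finset.disjoint_left]
      intro y hy hy'
      have h1 := hin g hg y hy
      have h2 := hin g' hg' y hy'
      rcases Nat.lt_or_gt_of_ne hne with h3 | h3
      · have := hlh g g' h3 hg'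
        omega
      · have := hlh g' g h3 hg
        omega) (by
      intro g hg y hy
      simp only [Finset.mem_union, Finset.mem_image, Finset.mem_range, Finset.mem_singleton,
        Finset.mem_insert] at hy
      simp only [Finset.mem_union, Finset.mem_image, Finset.mem_range, Finset.mem_singleton]
      rcases hy with h1 | h1 | (h1 | h1) | h1
      · exact ⟨y, Or.inl h1, Or.inl rfl⟩
      · exact ⟨y, Or.inr (Or.inl h1), Or.inl rfl⟩
      · exact ⟨y, Or.inr (Or.inr (Or.inl h1)), Or.inl rfl⟩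
      · refine ⟨x g, Or.inr (Or.inr (Or.inl rfl)), ?_⟩
        rw [h1]
        exact (hit g hg).lz.2
      · exact ⟨y, Or.inr (Or.inr (Or.inr h1)), Or.inl rfl⟩) (by
      intro g _
      refine (Finset.card_union_le _ _).trans ?_
      have h1 := Finset.card_image_le (s := Finset.range m) (f := a g)
      have h2 := Finset.card_image_le (s := Finset.range m) (f := b g)
      have h3 := Finset.card_image_le (s := Finset.range 4) (f := p g)
      have h4 := Finset.card_union_le ((Finset.range m).image (b g))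
        ({x g, z g} ∪ (Finset.range 4).image (p g))
      have h5 := Finset.card_union_le ({x g, z g} : Finset ℕ) ((Finset.range 4).image (p g))
      have h6 := Finset.card_le_two (a := x g) (b := z g)
      rw [Finset.card_range] at h1 h2 h3
      omega) (by rw [hn₁])
  have hmem : ∀ g y, InI m (a g) (b g) (x g) (z g) (p g) y →
      y ∈ ((Finset.range m).image (a g) ∪ ((Finset.range m).image (b g) ∪ ({x g, z g} ∪
      (Finset.range 4).image (p g)))) := by
    intro g y hy
    simp only [Finset.mem_union, Finset.mem_image, Finset.mem_range, Finset.mem_singleton,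
      Finset.mem_insert]
    rcases hy with ⟨k, hk, rfl | rfl⟩ | rfl | rfl | ⟨k, hk, rfl⟩
    · exact Or.inl ⟨k, hk, rfl⟩
    · exact Or.inr (Or.inl ⟨k, hk, rfl⟩)
    · exact Or.inr (Or.inr (Or.inl (Or.inl rfl)))
    · exact Or.inr (Or.inr (Or.inl (Or.inr rfl)))
    · exact Or.inr (Or.inr (Or.inr ⟨k, hk, rfl⟩))
  have hind : ∀ i < n₂, ∀ j < n₂, i ≠ j → ∀ y y',
      InI m (a (φ i)) (b (φ i)) (x (φ i)) (z (φ i)) (p (φ i)) y →
      InI m (a (φ j)) (b (φ j)) (x (φ j)) (z (φ j)) (p (φ j)) y' → Y.own y ≠ Y.own y' :=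
    fun i hi j hj hij y y' hy hy' => hφ3 i hi j hj hij y (hmem _ _ hy) y' (hmem _ _ hy')
  -- homogenization
  have hne : ∀ (i j : Fin 2) (r r' : ℕ), r < n₂ → r' < n₂ → r ≠ r' →
      (if i = 0 then x (φ r) else z (φ r)) ≠ (if j = 0 then x (φ r') else z (φ r')) := by
    intro i j r r' hr hr' hrr h1
    refine hind r hr r' hr' hrr (if i = 0 then x (φ r) else z (φ r))
      (if j = 0 then x (φ r') else z (φ r')) ?_ ?_ (by rw [h1])
    · split_ifs
      · exact Or.inr (Or.inl rfl)
      · exact Or.inr (Or.inr (Or.inl rfl))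
    · split_ifs
      · exact Or.inr (Or.inl rfl)
      · exact Or.inr (Or.inr (Or.inl rfl))
  obtain ⟨f, hf1, hf2, ⟨⟨t₀, cc⟩, hf3⟩, hf4, hf5⟩ := hn₂
    (fun i r => if i = 0 then x (φ r) else z (φ r))
    (fun r => (ty (φ r), idx (Y.sh (z (φ r))))) hne
  have hF : ∀ g < 2 * N + 2, φ (f g) < n₁ := fun g hg => hφ1 _ (hf1 g hg)
  have hF' : ∀ i j, i < j → j < 2 * N + 2 → φ (f i) < φ (f j) := fun i j h1 h2 =>
    hφ2 _ _ (hf2 i j h1 h2) (hf1 j h2)
  have hty : ∀ g < 2 * N + 2, ty (φ (f g)) = t₀ := fun g hg => (Prod.ext_iff.1 (hf3 g hg)).1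
  have hcc : ∀ g < 2 * N + 2, idx (Y.sh (z (φ (f g)))) = cc := fun g hg =>
    (Prod.ext_iff.1 (hf3 g hg)).2
  have hS : Y.Series (2 * N + 2) m t₀ (fun g => e (2 * φ (f g))) (fun g => s (2 * φ (f g) + 2))
      (fun g => a (φ (f g))) (fun g => b (φ (f g))) (fun g => x (φ (f g)))
      (fun g => z (φ (f g))) (fun g => p (φ (f g))) (Y.sh (s 0)) (Y.sh (z (φ (f 0)))) := by
    refine ⟨?_, ?_, ?_, ?_, ?_⟩
    · intro g hg
      have h1 := hit _ (hF g hg)
      rwa [hty g hg] at h1
    · exact fun g g' h1 h2 => hlh _ _ (hF' g g' h1 h2) (hF g' h2)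
    · exact fun g hg y h1 h2 => (hloc _ (hF g hg) y h1 h2).2.2
    · intro ht g hg
      have hmemA : ∀ g < 2 * N + 2, Y.sh (z (φ (f g))) ∈ A := by
        intro g hg
        have h1 := hit _ (hF g hg)
        have h2 : Y.Lk (x (φ (f g))) (z (φ (f g))) := by
          rcases ht with ht | ht
          · exact (h1.t3 ((hty g hg).trans ht)).2.2.1
          · exact (h1.t4 ((hty g hg).trans ht)).2.2.1
        have h3 := hloc _ (hF g hg) _ h1.lx.1 h1.lx.2.1
        exact hA2 _ _ h2 h3.1 h3.2.1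
      exact hidx _ (hmemA g hg) _ (hmemA 0 (by omega))
        ((hcc g hg).trans (hcc 0 (by omega)).symm)
    · intro g hg g' hg' hgg
      refine hind _ (hf1 g hg) _ (hf1 g' hg') ?_
      rcases Nat.lt_or_gt_of_ne hgg with h1 | h1
      · have := hf2 g g' h1 hg'; omega
      · have := hf2 g' g h1 hg; omega
  exact hS.pat hY hm (hf4 1) (hf5 0 1) t

end Sys

end EN
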