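import Pool.Agent.EN.MatchN

/-!
# Patterns (PSF) and (K_t), and the matching theorem
-/

open Set
open scoped Matroid

namespace EN

open BIC Gad

variable {α V : Type*} {M : Matroid α} {S : Set α} {ends : α → Sym2 V}

lemma Nst.sub {P : ℕ × ℕ → V} {l r n w N : ℕ} {a b : ℕ → ℕ → ℕ} {J : ℕ → ℕ → Set V}
    (h : Nst S ends P l r n w N a b J) {l' r' : ℕ} (hl : l ≤ l') (hr : r' ≤ r)
    (ha : ∀ i < N, l' ≤ a (w + 1) i) (hb : ∀ i < N, b (w + 1) i ≤ r') :
    Nst S ends P l' r' n w N a b J where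
  page := h.page.sub hl hr (le_refl n)
  dep := h.dep
  la := ha
  rb := hb
  am := h.am
  bm := h.bm
  ab := h.ab
  ser := h.ser
  finJ := h.finJ
  conJ := h.conJ
  dJJ := h.dJJ
  pJ := fun s i h1 h2 h3 c hc => h.pJ s i h1 h2 h3 c (by rw [mem_Reg] at hc ⊢; omega)

section

variable {σ κ : Type*} {P : σ → ℕ × ℕ → V} {lo hi : σ → ℕ} {n : ℕ} {G : Set V} {B : κ → Set V}
  {port : σ → ℕ → κ → Prop} {ct : κ → κ → Prop} {gr : κ → Prop}

/-- **(PSJ)**, links from the pockets to another shore or to a separated interval. -/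
theorem Rlz.psQ (h : Rlz S ends P lo hi n G B port ct gr) {w N : ℕ}
    (hw : 1 ≤ w) (hN : N = (2 * w) * (2 * w)) (hd : 4 * w + 2 ≤ n) {s s' : σ}
    {a b : ℕ → ℕ → ℕ} {L : ℕ → ℕ → Finset κ} (hn : NstL port ct s (2 * w) N a b L) (x z : ℕ → ℕ)
    (hsep : s ≠ s' ∨ (∀ i < N, ∀ j < N, b (2 * w + 1) i < z j) ∨
      (∀ i < N, ∀ j < N, z j < a (2 * w + 1) i))
    (hx : ∀ i < N, a 1 i < x i ∧ x i < b 1 i) (K : ℕ → Finset κ)
    (hK : ∀ i < N, Lk port ct s (x i) s' (z i) (K i))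
    (hz : ∀ i < N, ∀ j < N, z i = z j → i = j)
    (hKK : ∀ i < N, ∀ j < N, i ≠ j → Disjoint (K i) (K j))
    (hKL : ∀ i < N, ∀ t j, 1 ≤ t → t ≤ 2 * w → j < N → Disjoint (K i) (L t j)) :
    Gm1 S ends P lo hi n (2 * w) := by
  have hNpos : 0 < N := by
    rw [hN]; exact Nat.mul_pos (by omega) (by omega)
  have hnst := hn.nst h (by omega)
  have hul := fun i (hi : i < N) => hnst.hul (i := i) (s := 2 * w + 1) hi (by omega) (le_refl _)
  obtain ⟨A, hA, hA0⟩ := vals3 N (a (2 * w + 1)) (b (2 * w + 1)) (b (2 * w + 1))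
  obtain ⟨A', hA', hA0'⟩ := vals3 N z z z
  have hr1 : ∀ x ∈ A, lo s ≤ x ∧ x ≤ hi s := by
    intro x hx
    obtain ⟨i, hi, e⟩ := (hA x).1 hx
    have := (hn.lk (2 * w + 1) i (by omega) (le_refl _) hi).rng h
    omega
  have hr2 : ∀ x ∈ A', lo s' ≤ x ∧ x ≤ hi s' := by
    intro x hx
    obtain ⟨i, hi, e⟩ := (hA' x).1 hx
    have := (hK i hi).rng h
    omega
  have hs1 : s ≠ s' ∨ (∀ x ∈ A, ∀ x' ∈ A', x < x') ∨ (∀ x ∈ A, ∀ x' ∈ A', x' < x) := by
    rcases hsep with h1 | h1 | h1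
    · exact Or.inl h1
    · right; left
      intro x hx x' hx'
      obtain ⟨i, hi, e⟩ := (hA x).1 hx
      obtain ⟨j, hj, e'⟩ := (hA' x').1 hx'
      have := h1 i hi j hj
      have := hul i hi
      omega
    · right; right
      intro x hx x' hx'
      obtain ⟨i, hi, e⟩ := (hA x).1 hx
      obtain ⟨j, hj, e'⟩ := (hA' x').1 hx'
      have := h1 i hi j hj
      have := hul i hi
      omega
  obtain ⟨l, r, l', r', g1, g2, g3, g4, g5, g6, g7⟩ := h.pgs.pair (s := s) (s' := s') (hA0 hNpos)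
    (hA0' hNpos) hr1 hr2 hs1
  have e0 := g1 _ ((hA _).2 ⟨0, hNpos, Or.inl rfl⟩)
  have hR1 := g5 (l, 0) (by rw [mem_Reg]; simp only; omega)
  have hR2 := g5 (r, 0) (by rw [mem_Reg]; simp only; omega)
  rw [mem_Reg] at hR1 hR2
  have hnst' := hnst.sub (l' := l) (r' := r) hR1.1 hR2.2.1
    (fun i hi => (g1 _ ((hA _).2 ⟨i, hi, Or.inl rfl⟩)).1)
    (fun i hi => (g1 _ ((hA _).2 ⟨i, hi, Or.inr (Or.inl rfl)⟩)).2)
  refine Gm1.of (by omega) (s := s) (l := l) (r := r) ?_ fun x h1 h2 => ?_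
  swap
  · have h3 := g5 (x, 0) (by rw [mem_Reg]; simp only; omega)
    rw [mem_Reg] at h3
    exact ⟨h3.1, h3.2.1⟩
  exact psj_page hw hN hnst' hd x hx g4 (by omega) g7 z
    (fun i hi => g2 _ ((hA' _).2 ⟨i, hi, Or.inl rfl⟩)) hz (fun i => JJ B (K i))
    (fun i _ => h.JJ_fin _) (fun i hi => h.link (hK i hi))
    (fun i hi j hj hij => h.JJ_dis (hKK i hi j hj hij)) (fun i _ c hc => h.JJ_page _ (g5 c hc))
    (fun i _ c hc => h.JJ_page _ (g6 c hc))
    (fun i hi t j h1 h2 h3 => h.JJ_dis (hKL i hi t j h1 h2 h3))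
    (fun t j _ _ _ c hc => h.JJ_page _ (g6 c hc))

end

section

variable {κ : Type*} {Y : Sys κ} {P : ℕ → ℕ × ℕ → V} {lo hi : ℕ → ℕ} {n : ℕ} {G : Set V}
  {B : κ → Set V} {col : ℕ → ℕ}

/-- **Pattern (PSF).** -/
theorem Real.pSF (h : Real Y S ends P lo hi n G B col) {w N m : ℕ}
    (hA : Y.Mo) (hw : 1 ≤ w) (hN : (2 * w) * (2 * w) ≤ N) (hm' : 2 * w + 1 ≤ m)
    (hn : 4 * w + 2 ≤ n) {a b : ℕ → ℕ → ℕ} {x z : ℕ → ℕ}
    (hp : Y.PSF N m a b x z) : Gm1 S ends P lo hi n (2 * w) := by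
  obtain ⟨s, hs⟩ := hp.ns.on
  obtain ⟨s', hs'⟩ := hp.onQ
  have hsa : ∀ g < N, ∀ k < m, a k g < Y.L ∧ Y.sh (a k g) = s := fun g hg k hk =>
    ⟨(hp.ns.lk g hg k hk).1, (hs g hg k hk).1⟩
  have hsb : ∀ g < N, ∀ k < m, b k g < Y.L ∧ Y.sh (b k g) = s := fun g hg k hk =>
    ⟨(hp.ns.lk g hg k hk).2.1, (hs g hg k hk).2⟩
  have hsx : ∀ g < N, x g < Y.L ∧ Y.sh (x g) = s := fun g hg =>
    hA.btw (hp.px g hg).1 (hp.px g hg).2 (hsa g hg 0 (by omega)) (hsb g hg 0 (by omega))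
  have hsz : ∀ i < N, z i < Y.L ∧ Y.sh (z i) = s' := fun i hi => hs' i hi _ (by simp)
  have hl : ∀ i < N, ∀ y ∈ [a (2 * w + 1 - 1) i, b (2 * w + 1 - 1) i], y < Y.L ∧ Y.sh y = s := by
    intro i hi y hy
    simp only [List.mem_cons, List.not_mem_nil, or_false] at hy
    rcases hy with rfl | rfl
    · exact hsa i hi _ (by omega)
    · exact hsb i hi _ (by omega)
  have hsep := h.sep (hp.far (2 * w + 1 - 1) (by omega)) hl hs'
  refine h.rlz.psQ hw rfl hn (h.nstL (w := 2 * w) hm' hN hp.ns hs) (fun g => col (x g))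
    (fun g => col (z g)) (s' := s') ?_ ?_ (fun g => Y.F (x g) (z g)) ?_
    (mon_ne (h.mon hN hp.mon hsz)) ?_ ?_
  · rcases hsep with h1 | h1 | h1
    · exact Or.inl h1
    · exact Or.inr (Or.inl fun i hi j hj => h1 i (by omega) j (by omega) _ (by simp) _ (by simp))
    · exact Or.inr (Or.inr fun i hi j hj => h1 i (by omega) j (by omega) _ (by simp) _ (by simp))
  · intro i hi
    exact ⟨(h.lt_iff (hsa _ (by omega) _ (by omega)) (hsx _ (by omega))).1 (hp.px i (by omega)).1,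
      (h.lt_iff (hsx _ (by omega)) (hsb _ (by omega) _ (by omega))).1 (hp.px i (by omega)).2⟩
  · intro i hi
    have h1 := lkOf (col := col) (hp.lk i (by omega))
    rwa [(hsx i (by omega)).2, (hsz i (by omega)).2] at h1
  · intro i hi j hj hij
    exact (hp.dis i (by omega) j (by omega) hij).dis (by simp) (by simp) (by simp) (by simp)
  · intro i hi t j h1 h2 h3
    exact (hp.dj i (by omega) j (by omega) (t - 1) (by omega)).dis (by simp) (by simp) (by simp)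
      (by simp)

/-- The vertex set of a port: its column in the windows `0`, `1`, and the row `1` up to the next
port of the shore. -/
def pset (Y : Sys κ) (P : ℕ → ℕ × ℕ → V) (col : ℕ → ℕ) (x : ℕ) : Set V :=
  P (Y.sh x) '' (Vert (col x) 0 1 ∪ {c | x + 1 < Y.L ∧ Y.sh (x + 1) = Y.sh x ∧ col x ≤ c.1 ∧
    c.1 < col (x + 1) ∧ c.2 = 1})

/-- Vertex sets of ports and connectors. -/
def hset (Y : Sys κ) (P : ℕ → ℕ × ℕ → V) (B : κ → Set V) (col : ℕ → ℕ) : ℕ ⊕ κ → Set V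
  | Sum.inl x => pset Y P col x
  | Sum.inr k => B k

lemma Real.pset_reg (h : Real Y S ends P lo hi n G B col) {x : ℕ} (hx : x < Y.L) {c : ℕ × ℕ}
    (hc : c ∈ Vert (col x) 0 1 ∪ {c : ℕ × ℕ | x + 1 < Y.L ∧ Y.sh (x + 1) = Y.sh x ∧
      col x ≤ c.1 ∧ c.1 < col (x + 1) ∧ c.2 = 1}) : c ∈ Reg (lo (Y.sh x)) (hi (Y.sh x)) 1 ∧
      col x ≤ c.1 ∧ (x + 1 < Y.L → Y.sh (x + 1) = Y.sh x → c.1 < col (x + 1)) ∧
      (¬ (x + 1 < Y.L ∧ Y.sh (x + 1) = Y.sh x) → c.1 = col x) := by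
  have h1 := h.prt x hx
  rcases hc with hc | hc
  · rw [mem_Vert] at hc
    refine ⟨?_, ?_, ?_, ?_⟩
    · rw [mem_Reg]; omega
    · omega
    · intro h2 h3
      have := h.cinc x (x + 1) (by omega) h2 h3.symm
      omega
    · omega
  · obtain ⟨h2, h3, h4, h5, h6⟩ := hc
    have h7 := h.prt (x + 1) h2
    rw [h3] at h7
    refine ⟨?_, h4, fun _ _ => h5, fun h8 => absurd ⟨h2, h3⟩ h8⟩
    rw [mem_Reg]; omega

lemma Real.pset_con (h : Real Y S ends P lo hi n G B col) (hn : 1 ≤ n) {x : ℕ} (hx : x < Y.L) :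
    VConn S ends (pset Y P col x) := by
  have h1 := h.prt x hx
  have hpg := h.pgs.page (Y.sh x)
  have c1 := hpg.vconn_ver (x := col x) (b₁ := 0) (b₂ := 1) h1.1 h1.2.1 hn
  by_cases hc : x + 1 < Y.L ∧ Y.sh (x + 1) = Y.sh x
  · have h7 := h.prt (x + 1) hc.1
    rw [hc.2] at h7
    have h8 := h.cinc x (x + 1) (by omega) hc.1 hc.2.symm
    have c2 := hpg.vconn_hor (x₁ := col x) (x₂ := col (x + 1) - 1) (b := 1) h1.1 (by omega)
      (le_refl _) hn
    refine vconn_congr (vc_union c1 c2 (c := P (Y.sh x) (col x, 1))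
      ⟨_, vm (by omega) (le_refl _), rfl⟩ ⟨_, hm (le_refl _) (by omega), rfl⟩) (fun v => ?_)
    constructor
    · rintro (⟨c, hc', rfl⟩ | ⟨c, hc', rfl⟩)
      · exact ⟨c, Or.inl hc', rfl⟩
      · refine ⟨c, Or.inr ⟨hc.1, hc.2, ?_⟩, rfl⟩
        rw [mem_HRow] at hc'
        omega
    · rintro ⟨c, hc' | hc', rfl⟩
      · exact Or.inl ⟨c, hc', rfl⟩
      · refine Or.inr ⟨c, ?_, rfl⟩
        obtain ⟨_, _, h4, h5, h6⟩ := hc'
        rw [mem_HRow]
        omega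
  · refine vconn_congr c1 (fun v => ?_)
    constructor
    · rintro ⟨c, hc', rfl⟩
      exact ⟨c, Or.inl hc', rfl⟩
    · rintro ⟨c, hc' | hc', rfl⟩
      · exact ⟨c, hc', rfl⟩
      · exact absurd ⟨hc'.1, hc'.2.1⟩ hc

lemma Real.pset_dis (h : Real Y S ends P lo hi n G B col) (hn : 1 ≤ n) {x y : ℕ} (hxy : x < y)
    (hy : y < Y.L) : Disjoint (pset Y P col x) (pset Y P col y) := by
  rw [Set.disjoint_left]
  rintro _ ⟨c, hc, rfl⟩ ⟨c', hc', h'⟩
  have g1 := h.pset_reg (by omega) hc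
  have g2 := h.pset_reg hy hc'
  by_cases hs : Y.sh x = Y.sh y
  · have r1 := g1.1
    have r2 := g2.1
    rw [← hs] at r2 h'
    rw [mem_Reg] at r1 r2
    have e := (h.pgs.page (Y.sh x)).inj c' c r2.1 r2.2.1 (by omega) r1.1 r1.2.1 (by omega) h'
    rw [e] at g2
    have g4 := g2.2.1
    have g5 := h.cinc x y hxy hy hs
    by_cases hc1 : x + 1 < Y.L ∧ Y.sh (x + 1) = Y.sh x
    · have g6 := g1.2.2.1 hc1.1 hc1.2
      rcases Nat.lt_or_ge (x + 1) y with h3 | h3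
      · have := h.cinc (x + 1) y h3 hy (hc1.2.trans hs)
        omega
      · have : y = x + 1 := by omega
        rw [this] at g4
        omega
    · have g6 := g1.2.2.2 hc1
      omega
  · refine h.pgs.dis _ _ hs c ?_ c' ?_ h'.symm
    · have := g1.1
      rw [mem_Reg] at this ⊢
      omega
    · have := g2.1
      rw [mem_Reg] at this ⊢
      omega

lemma Real.pset_lnk (h : Real Y S ends P lo hi n G B col) (hn : 1 ≤ n) {x : ℕ}
    (hx : x + 1 < Y.L) (hs : Y.sh x = Y.sh (x + 1)) :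
    Lnk S ends (pset Y P col x) (pset Y P col (x + 1)) := by
  have h1 := h.prt x (by omega)
  have h7 := h.prt (x + 1) hx
  rw [← hs] at h7
  have h8 := h.cinc x (x + 1) (by omega) hx hs
  obtain ⟨e, he, hee⟩ := (h.pgs.page (Y.sh x)).hor (col (x + 1) - 1) 1 (by omega) (by omega)
    (le_refl _) hn
  rw [Nat.sub_add_cancel (by omega)] at hee
  refine ⟨e, he, P (Y.sh x) (col (x + 1) - 1, 1), ⟨_, Or.inr ⟨hx, hs.symm, ?_⟩, rfl⟩,
    P (Y.sh x) (col (x + 1), 1), ?_, hee⟩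
  · exact ⟨Nat.le_sub_one_of_lt h8, Nat.sub_lt (by omega) (by omega), rfl⟩
  · unfold pset
    rw [← hs]
    exact ⟨_, Or.inl (vm (by omega) (le_refl _)), rfl⟩

lemma Real.hset_con (h : Real Y S ends P lo hi n G B col) (hn : 1 ≤ n) (a : ℕ ⊕ κ)
    (ha : ∀ x, a = Sum.inl x → x < Y.L) : VConn S ends (hset Y P B col a) := by
  cases a with
  | inl x => exact h.pset_con hn (ha x rfl)
  | inr k => exact h.con k

lemma Real.hset_dis (h : Real Y S ends P lo hi n G B col) (hn : 1 ≤ n) {a b : ℕ ⊕ κ}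
    (hab : a ≠ b) (ha : ∀ x, a = Sum.inl x → x < Y.L) (hb : ∀ x, b = Sum.inl x → x < Y.L) :
    Disjoint (hset Y P B col a) (hset Y P B col b) := by
  have key : ∀ x < Y.L, ∀ k, Disjoint (pset Y P col x) (B k) := by
    intro x hx k
    rw [Set.disjoint_left]
    rintro _ ⟨c, hc, rfl⟩ hv
    have := (h.pset_reg hx hc).1
    refine h.pB k _ c ?_ hv
    rw [mem_Reg] at this ⊢
    omega
  cases a with
  | inl x =>
    cases b with
    | inl y =>
      have hne : x ≠ y := fun e => hab (by rw [e])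
      rcases Nat.lt_or_gt_of_ne hne with h1 | h1
      · exact h.pset_dis hn h1 (hb y rfl)
      · exact (h.pset_dis hn h1 (ha x rfl)).symm
    | inr k => exact key x (ha x rfl) k
  | inr k =>
    cases b with
    | inl y => exact (key y (hb y rfl) k).symm
    | inr k' => exact h.dis k k' (fun e => hab (by rw [e]))

lemma Real.hset_lnk (h : Real Y S ends P lo hi n G B col) (hn : 1 ≤ n) {a b : ℕ ⊕ κ}
    (hab : Y.adj a b) : Lnk S ends (hset Y P B col a) (hset Y P B col b) := by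
  have key : ∀ x < Y.L, Lnk S ends (B (Y.own x)) (pset Y P col x) := by
    intro x hx
    refine (h.prt x hx).2.2.mono (subset_refl _) (subset_refl _) ?_
    rw [singleton_subset_iff]
    exact ⟨_, Or.inl (vm (le_refl 0) (by omega)), rfl⟩
  cases a with
  | inl x =>
    cases b with
    | inl y =>
      obtain ⟨h1, h2, h3, h4 | h4⟩ := hab
      · subst h4
        exact (h.pset_lnk hn h1 h3.symm).symm
      · subst h4
        exact h.pset_lnk hn h2 h3
    | inr k =>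
      obtain ⟨h1, rfl⟩ := hab
      exact (key x h1).symm
  | inr k =>
    cases b with
    | inl y =>
      obtain ⟨h1, rfl⟩ := hab
      exact key y h1
    | inr k' => exact h.cnt k k' hab

/-- **Pattern (K_t).** -/
theorem Real.pKT (h : Real Y S ends P lo hi n G B col) {w t : ℕ}
    (hw : 1 ≤ w) (ht : (2 * w) * (2 * w) + 1 ≤ t) (hn : 1 ≤ n) (hp : Y.KT t) :
    GmZ S ends (2 * w) := by
  classical
  obtain ⟨K, h1, h2, h3, h4⟩ := hp
  have hfin : ∀ a : ℕ ⊕ κ, (hset Y P B col a).Finite := by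
    intro a
    cases a with
    | inl x =>
      refine Set.Finite.image _ ((vert_finite _ _ _).union ?_)
      refine (reg_finite (col x) (col (x + 1)) 1).subset ?_
      rintro c ⟨_, _, c1, c2, c3⟩
      rw [mem_Reg]
      omega
    | inr k => exact h.fin k
  have hcn : ∀ A : Finset (ℕ ⊕ κ), Mdr.Cn Y.adj A →
      Mdr.Cn (fun a b => Lnk S ends (hset Y P B col a) (hset Y P B col b)) A := by
    intro A hA
    induction hA with
    | single a => exact Mdr.Cn.single a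
    | join h5 h6 h7 ih1 ih2 =>
      obtain ⟨a, ha, b, hb, hab⟩ := h7
      exact Mdr.Cn.join ih1 ih2 ⟨a, ha, b, hb, h.hset_lnk hn hab⟩
  have hL : ∀ i : Fin t, ∀ a ∈ K i, ∀ x, a = Sum.inl x → x < Y.L := by
    intro i a ha x hx
    rw [hx] at ha
    exact h4 i x ha
  refine kt_jgrid hw ht
    (fun i => if hi : i < t then Un (hset Y P B col) (K ⟨i, hi⟩) else ∅) ?_ ?_ ?_ ?_
  · intro i hi
    simp only [dif_pos hi]
    exact Set.Finite.biUnion (K ⟨i, hi⟩).finite_toSet (fun a _ => hfin a)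
  · intro i hi
    simp only [dif_pos hi]
    exact vconn_un (hcn _ (h1 _)) (fun a ha => h.hset_con hn a (hL _ a ha))
  · intro i hi j hj hij
    simp only [dif_pos hi, dif_pos hj]
    have h5 := h2 ⟨i, hi⟩ ⟨j, hj⟩ (fun e => hij (by simpa using e))
    unfold Un
    rw [Set.disjoint_iUnion₂_left]
    intro a ha
    rw [Set.disjoint_iUnion₂_right]
    intro b hb
    exact h.hset_dis hn (fun e => Finset.disjoint_left.1 h5 ha (e ▸ hb)) (hL _ a ha) (hL _ b hb)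
  · intro i hi j hj hij
    simp only [dif_pos hi, dif_pos hj]
    obtain ⟨a, ha, b, hb, hab⟩ := h3 ⟨i, hi⟩ ⟨j, hj⟩ (fun e => hij (by simpa using e))
    exact (h.hset_lnk hn hab).mono (subset_refl _) (un_mono _ ha) (un_mono _ hb)

/-- **The matching theorem.**  A pattern in a realized system gives the graph model. -/
theorem Real.patZ (h : Real Y S ends P lo hi n G B col) {D w N m t : ℕ}
    (hA : Y.Ax D) (hw : 1 ≤ w) (hN : 3 * ((2 * w) * (2 * w)) + 2 ≤ N) (hm' : 2 * w + 1 ≤ m)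
    (ht : (2 * w) * (2 * w) + 1 ≤ t) (hn : 4 * w + 3 ≤ n) (hp : Y.Pat N m t) :
    GmZ S ends (2 * w) := by
  obtain ⟨N₀, hN₀⟩ : ∃ N₀, N₀ = (2 * w) * (2 * w) := ⟨_, rfl⟩
  rw [← hN₀] at hN
  rcases hp with ⟨x, z, q, hp⟩ | ⟨x, z, c, d, hp⟩ | ⟨p, q, y, z, hp⟩ | ⟨p, q, y, z, p', q', hp⟩ |
    ⟨a, b, y, z, v, v', hp⟩ | ⟨u, v, hp⟩ | ⟨a, b, x, hp⟩ | ⟨a, b, x, z, hp⟩ | ⟨d, a, b, x, z, hp⟩ |
    ⟨a, b, y, z, v, v', hp⟩ | hp
  · exact (h.pA hw (by rw [← hN₀]; omega) (by omega) hp).gmZ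
  · exact (h.pB' hw (by rw [← hN₀]; omega) (by omega) hp).gmZ
  · exact (h.pJ hw (by rw [← hN₀]; omega) (by omega) hp).gmZ
  · exact (h.pX hw (by rw [← hN₀]; omega) (by omega) hp).gmZ
  · exact (h.pC hw (by rw [← hN₀]; omega) (by omega) hp).gmZ
  · exact (h.pM hw (by rw [← hN₀]; omega) hm' (by omega) hp).gmZ
  · exact (h.pS hA.mono hw (by rw [← hN₀]; omega) hm' (by omega) hp).gmZ
  · exact (h.pSF hA.mono hw (by rw [← hN₀]; omega) hm' (by omega) hp).gmZ
  · exact (h.pSG hA.mono hw (by rw [← hN₀]; omega) hm' (by omega) hp).gmZ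
  · exact (h.pSC hA.mono hw (by rw [← hN₀]; omega) hm' (by omega) hp).gmZ
  · exact h.pKT hw ht (by omega) hp

/-- The matching theorem with the conclusion `GMod`. -/
theorem Real.pat (h : Real Y S ends P lo hi n G B col) (_hF : Frm M S ends) {D w N m t : ℕ}
    (hA : Y.Ax D) (hw : 1 ≤ w) (hN : 3 * ((2 * w) * (2 * w)) + 2 ≤ N) (hm' : 2 * w + 1 ≤ m)
    (ht : (2 * w) * (2 * w) + 1 ≤ t) (hn : 4 * w + 3 ≤ n) (hp : Y.Pat N m t) :
    GMod M S ends w :=
  Or.inl (h.patZ hA hw hN hm' ht hn hp)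

end

end EN
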