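import Pool.Agent.EN.Match

/-!
# Patterns with nests and bands
-/

open Set
open scoped Matroid

namespace EN

open BIC Gad

variable {α V : Type*} {M : Matroid α} {S : Set α} {ends : α → Sym2 V}

section

variable {κ : Type*} {Y : Sys κ} {P : ℕ → ℕ × ℕ → V} {lo hi : ℕ → ℕ} {n : ℕ} {G : Set V}
  {B : κ → Set V} {col : ℕ → ℕ}

lemma step_lt {f : ℕ → ℕ} {m : ℕ} (hf : ∀ k, k + 1 < m → f k < f (k + 1)) :
    ∀ k k', k < k' → k' < m → f k < f k' := by
  intro k k' h1 h2
  induction k' with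
  | zero => omega
  | succ q ih =>
    rcases Nat.lt_or_ge k q with h3 | h3
    · exact (ih h3 (by omega)).trans (hf q h2)
    · have : k = q := by omega
      rw [this]
      exact hf q h2

/-- **Pattern (MS).** -/
theorem Real.pM (h : Real Y S ends P lo hi n G B col) {w N m : ℕ} (hw : 1 ≤ w)
    (hN : 3 * ((2 * w) * (2 * w)) + 1 ≤ N) (hm' : 2 * w + 1 ≤ m) (hn : 4 * w + 2 ≤ n)
    {u v : ℕ → ℕ → ℕ} (hp : Y.PM N m u v) : Gm1 S ends P lo hi n (2 * w) := by
  obtain ⟨s, hs⟩ := hp.on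
  have hsu : ∀ g < N, ∀ k < m, u k g < Y.L ∧ Y.sh (u k g) = s := fun g hg k hk =>
    ⟨(hp.lk g hg k hk).1, (hs g hg k hk).1⟩
  have hsv : ∀ g < N, ∀ k < m, v k g < Y.L ∧ Y.sh (v k g) = s := fun g hg k hk =>
    ⟨(hp.lk g hg k hk).2.1, (hs g hg k hk).2⟩
  obtain ⟨N₀, hN₀⟩ : ∃ N₀, N₀ = (2 * w) * (2 * w) := ⟨_, rfl⟩
  rw [← hN₀] at hN
  refine h.rlz.ms hw hN₀ (m := 2 * w + 1) (le_refl _) (by omega) s
    (fun k g => col (u (k - 1) (3 * (g / 2) + 1 + g % 2)))
    (fun k g => col (v (k - 1) (3 * (g / 2) + 1 + g % 2)))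
    (fun i => col (u 0 (3 * i)))
    (fun k g => Y.F (u (k - 1) (3 * (g / 2) + 1 + g % 2)) (v (k - 1) (3 * (g / 2) + 1 + g % 2)))
    ?_ ?_ ?_ ?_ ?_ ?_ ?_ ?_ ?_ ?_
  · intro k g h1 h2 h3
    have h4 := lkOf (col := col) (hp.lk (3 * (g / 2) + 1 + g % 2) (by omega) (k - 1) (by omega))
    rwa [(hsu _ (by omega) _ (by omega)).2, (hsv _ (by omega) _ (by omega)).2] at h4
  · have h1 := h.prt _ (hsu (3 * 0) (by omega) 0 (by omega)).1
    rw [(hsu (3 * 0) (by omega) 0 (by omega)).2] at h1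
    exact h1.1
  · have h1 := h.prt _ (hsu (3 * N₀) (by omega) 0 (by omega)).1
    rw [(hsu (3 * N₀) (by omega) 0 (by omega)).2] at h1
    exact h1.2.1
  · intro g hg k h1 h2
    refine (h.lt_iff (hsu _ (by omega) _ (by omega)) (hsu _ (by omega) _ (by omega))).1 ?_
    have := hp.um (3 * (g / 2) + 1 + g % 2) (by omega) (k - 1) (by omega)
    rwa [show k - 1 + 1 = k + 1 - 1 by omega] at this
  · intro g hg k h1 h2
    refine (h.lt_iff (hsv _ (by omega) _ (by omega)) (hsv _ (by omega) _ (by omega))).1 ?_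
    have := hp.vm (3 * (g / 2) + 1 + g % 2) (by omega) (k - 1) (by omega)
    rwa [show k - 1 + 1 = k + 1 - 1 by omega] at this
  · intro g hg
    exact (h.lt_iff (hsu _ (by omega) _ (by omega)) (hsv _ (by omega) _ (by omega))).1
      (hp.uv _ (by omega) _ (by omega) _ (by omega))
  · intro i hi
    refine (h.lt_iff (hsu _ (by omega) _ (by omega)) (hsu _ (by omega) _ (by omega))).1 ?_
    have h1 := hp.uv (3 * i) (by omega) 0 (by omega) 0 (by omega)
    have h2 := hp.ser (3 * i) (3 * (2 * i / 2) + 1 + 2 * i % 2) (by omega) (by omega) 0 (by omega)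
      (1 - 1) (by omega)
    omega
  · intro i hi
    refine (h.lt_iff (hsv _ (by omega) _ (by omega)) (hsu _ (by omega) _ (by omega))).1 ?_
    exact hp.ser _ _ (by omega) (by omega) _ (by omega) _ (by omega)
  · intro i hi
    refine (h.lt_iff (hsv _ (by omega) _ (by omega)) (hsu _ (by omega) _ (by omega))).1 ?_
    exact hp.ser _ _ (by omega) (by omega) _ (by omega) _ (by omega)
  · intro k g k' g' h1 h2 h3 h1' h2' h3' hne
    refine (hp.dis (3 * (g / 2) + 1 + g % 2) (by omega) (k - 1) (by omega)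
      (3 * (g' / 2) + 1 + g' % 2) (by omega) (k' - 1) (by omega) ?_).dis (by simp) (by simp)
      (by simp) (by simp)
    rw [Ne, Prod.mk.injEq] at hne ⊢
    omega

lemma Real.nstL (h : Real Y S ends P lo hi n G B col) {N m w N₀ : ℕ} (hm : w + 1 ≤ m)
    (hN : N₀ ≤ N) {a b : ℕ → ℕ → ℕ} (hp : Y.Ns N m a b) {s : ℕ}
    (hs : ∀ g < N, ∀ t < m, Y.sh (a t g) = s ∧ Y.sh (b t g) = s) :
    NstL (Y.prt col) Y.ct s w N₀ (fun t g => col (a (t - 1) g)) (fun t g => col (b (t - 1) g))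
      (fun t g => Y.F (a (t - 1) g) (b (t - 1) g)) := by
  have hsa : ∀ g < N, ∀ k < m, a k g < Y.L ∧ Y.sh (a k g) = s := fun g hg k hk =>
    ⟨(hp.lk g hg k hk).1, (hs g hg k hk).1⟩
  have hsb : ∀ g < N, ∀ k < m, b k g < Y.L ∧ Y.sh (b k g) = s := fun g hg k hk =>
    ⟨(hp.lk g hg k hk).2.1, (hs g hg k hk).2⟩
  refine ⟨?_, ?_, ?_, ?_, ?_, ?_⟩
  · intro t i h1 h2 h3
    have h4 := lkOf (col := col) (hp.lk i (by omega) (t - 1) (by omega))
    rwa [(hsa _ (by omega) _ (by omega)).2, (hsb _ (by omega) _ (by omega)).2] at h4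
  · intro i hi t h1 h2
    refine (h.lt_iff (hsa _ (by omega) _ (by omega)) (hsa _ (by omega) _ (by omega))).1 ?_
    have := hp.am i (by omega) (t - 1) (by omega)
    rwa [show t - 1 + 1 = t + 1 - 1 by omega] at this
  · intro i hi t h1 h2
    refine (h.lt_iff (hsb _ (by omega) _ (by omega)) (hsb _ (by omega) _ (by omega))).1 ?_
    have := hp.bm i (by omega) (t - 1) (by omega)
    rwa [show t - 1 + 1 = t + 1 - 1 by omega] at this
  · intro i hi
    exact (h.lt_iff (hsa _ (by omega) _ (by omega)) (hsb _ (by omega) _ (by omega))).1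
      (hp.ab i (by omega))
  · intro i hi
    exact (h.lt_iff (hsb _ (by omega) _ (by omega)) (hsa _ (by omega) _ (by omega))).1
      (hp.ser i (i + 1) (by omega) (by omega) _ (by omega) _ (by omega))
  · intro t i t' i' h1 h2 h3 h1' h2' h3' hne
    refine (hp.dis i (by omega) (t - 1) (by omega) i' (by omega) (t' - 1) (by omega) ?_).dis
      (by simp) (by simp) (by simp) (by simp)
    rw [Ne, Prod.mk.injEq] at hne ⊢
    omega

/-- The shores are in order. -/
def Sys.Mo {κ : Type*} (Y : Sys κ) : Prop := ∀ x y, x ≤ y → y < Y.L → Y.sh x ≤ Y.sh y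

/-- Ports between two ports of one shore. -/
lemma Sys.Mo.btw (hA : Y.Mo) {x y z s : ℕ} (hx : x < y) (hz : y < z)
    (hsx : x < Y.L ∧ Y.sh x = s) (hsz : z < Y.L ∧ Y.sh z = s) : y < Y.L ∧ Y.sh y = s := by
  have h1 := hA x y hx.le (by omega)
  have h2 := hA y z hz.le hsz.1
  refine ⟨by omega, ?_⟩
  omega

/-- **Pattern (PS).** -/
theorem Real.pS (h : Real Y S ends P lo hi n G B col) {w N m : ℕ}
    (hA : Y.Mo) (hw : 1 ≤ w) (hN : (2 * w) * (2 * w) ≤ N) (hm' : 2 * w + 1 ≤ m)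
    (hn : 4 * w + 2 ≤ n) {a b : ℕ → ℕ → ℕ} {x : ℕ → ℕ} (hp : Y.PS N m a b x) :
    Gm1 S ends P lo hi n (2 * w) := by
  obtain ⟨s, hs⟩ := hp.ns.on
  have hsa : ∀ g < N, ∀ k < m, a k g < Y.L ∧ Y.sh (a k g) = s := fun g hg k hk =>
    ⟨(hp.ns.lk g hg k hk).1, (hs g hg k hk).1⟩
  have hsb : ∀ g < N, ∀ k < m, b k g < Y.L ∧ Y.sh (b k g) = s := fun g hg k hk =>
    ⟨(hp.ns.lk g hg k hk).2.1, (hs g hg k hk).2⟩
  have hsx : ∀ g < N, x g < Y.L ∧ Y.sh (x g) = s := fun g hg =>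
    hA.btw (hp.px g hg).1 (hp.px g hg).2 (hsa g hg 0 (by omega)) (hsb g hg 0 (by omega))
  refine h.rlz.psG hw rfl hn (h.nstL (w := 2 * w) hm' hN hp.ns hs) (fun g => col (x g)) ?_
    (fun g => Y.F (x g) (x g)) ?_ ?_ ?_
  · intro i hi
    exact ⟨(h.lt_iff (hsa _ (by omega) _ (by omega)) (hsx _ (by omega))).1 (hp.px i (by omega)).1,
      (h.lt_iff (hsx _ (by omega)) (hsb _ (by omega) _ (by omega))).1 (hp.px i (by omega)).2⟩
  · intro i hi
    have h1 := glOf (col := col) (hsx i (by omega)).1 (hp.gr i (by omega))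
    rwa [(hsx i (by omega)).2] at h1
  · intro i hi j hj hij
    exact (hp.dis i (by omega) j (by omega) hij).dis (by simp) (by simp) (by simp) (by simp)
  · intro i hi t j h1 h2 h3
    exact (hp.dj i (by omega) j (by omega) (t - 1) (by omega)).dis (by simp) (by simp) (by simp)
      (by simp)

/-- **Pattern (PSC).** -/
theorem Real.pSC (h : Real Y S ends P lo hi n G B col) {w N m : ℕ}
    (hA : Y.Mo) (hw : 1 ≤ w) (hN : (2 * w) * (2 * w) ≤ N) (hm' : 2 * w + 1 ≤ m)
    (hn : 4 * w + 3 ≤ n) {a b : ℕ → ℕ → ℕ} {y z v v' : ℕ → ℕ} (hp : Y.PSC N m a b y z v v') :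
    Gm1 S ends P lo hi n (2 * w) := by
  obtain ⟨s, hs⟩ := hp.ns.on
  have hsa : ∀ g < N, ∀ k < m, a k g < Y.L ∧ Y.sh (a k g) = s := fun g hg k hk =>
    ⟨(hp.ns.lk g hg k hk).1, (hs g hg k hk).1⟩
  have hsb : ∀ g < N, ∀ k < m, b k g < Y.L ∧ Y.sh (b k g) = s := fun g hg k hk =>
    ⟨(hp.ns.lk g hg k hk).2.1, (hs g hg k hk).2⟩
  have hb : ∀ g < N, ∀ x, a 0 g < x → x < b 0 g → x < Y.L ∧ Y.sh x = s := fun g hg x h1 h2 =>
    hA.btw h1 h2 (hsa g hg 0 (by omega)) (hsb g hg 0 (by omega))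
  have hsy : ∀ g < N, y g < Y.L ∧ Y.sh (y g) = s := fun g hg => by
    have := hp.ord g hg; exact hb g hg _ (by omega) (by omega)
  have hsz : ∀ g < N, z g < Y.L ∧ Y.sh (z g) = s := fun g hg => by
    have := hp.ord g hg; exact hb g hg _ (by omega) (by omega)
  have hsv : ∀ g < N, v g < Y.L ∧ Y.sh (v g) = s := fun g hg => by
    have := hp.ord g hg; exact hb g hg _ (by omega) (by omega)
  have hsv' : ∀ g < N, v' g < Y.L ∧ Y.sh (v' g) = s := fun g hg => by
    have := hp.ord g hg; exact hb g hg _ (by omega) (by omega)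
  refine h.rlz.psC hw rfl hn (h.nstL (w := 2 * w) hm' hN hp.ns hs) (fun g => col (y g))
    (fun g => col (v g)) (fun g => col (z g)) (fun g => col (v' g)) ?_
    (fun g => Y.F (v g) (v' g)) (fun g => Y.F (y g) (z g)) ?_ ?_ ?_ ?_ ?_ ?_
  · intro i hi
    have o := hp.ord i (by omega)
    exact ⟨(h.lt_iff (hsa _ (by omega) _ (by omega)) (hsy _ (by omega))).1 o.1,
      (h.lt_iff (hsy _ (by omega)) (hsv _ (by omega))).1 o.2.1,
      (h.lt_iff (hsv _ (by omega)) (hsz _ (by omega))).1 o.2.2.1,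
      (h.lt_iff (hsz _ (by omega)) (hsv' _ (by omega))).1 o.2.2.2.1,
      (h.lt_iff (hsv' _ (by omega)) (hsb _ (by omega) _ (by omega))).1 o.2.2.2.2⟩
  · intro i hi
    have h1 := lkOf (col := col) (hp.lk' i (by omega))
    rwa [(hsv i (by omega)).2, (hsv' i (by omega)).2] at h1
  · intro i hi
    have h1 := lkOf (col := col) (hp.lk i (by omega))
    rwa [(hsy i (by omega)).2, (hsz i (by omega)).2] at h1
  · intro i hi j hj hij
    exact (hp.dis i (by omega) j (by omega) hij).dis (by simp) (by simp) (by simp) (by simp)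
  · intro i hi j hj
    by_cases hij : i = j
    · subst hij
      exact ((hp.djc i (by omega)).dis (by simp) (by simp) (by simp) (by simp)).symm
    · exact (hp.dis i (by omega) j (by omega) hij).dis (by simp) (by simp) (by simp) (by simp)
  · intro i hi t j h1 h2 h3
    exact (hp.dj i (by omega) j (by omega) (t - 1) (by omega)).dis (by simp) (by simp) (by simp)
      (by simp)
  · intro i hi t j h1 h2 h3
    exact (hp.dj i (by omega) j (by omega) (t - 1) (by omega)).dis (by simp) (by simp) (by simp)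
      (by simp)

/-- **Pattern (PSG).** -/
theorem Real.pSG (h : Real Y S ends P lo hi n G B col) {w N m : ℕ}
    (hA : Y.Mo) (hw : 1 ≤ w) (hN : (2 * w) * (2 * w) ≤ N) (hm' : 2 * w + 1 ≤ m)
    (hn : 4 * w + 2 ≤ n) {d : Bool} {a b : ℕ → ℕ → ℕ} {x z : ℕ → ℕ}
    (hp : Y.PSG N m d a b x z) : Gm1 S ends P lo hi n (2 * w) := by
  obtain ⟨s, hs⟩ := hp.ns.on
  have hsa : ∀ g < N, ∀ k < m, a k g < Y.L ∧ Y.sh (a k g) = s := fun g hg k hk =>
    ⟨(hp.ns.lk g hg k hk).1, (hs g hg k hk).1⟩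
  have hsb : ∀ g < N, ∀ k < m, b k g < Y.L ∧ Y.sh (b k g) = s := fun g hg k hk =>
    ⟨(hp.ns.lk g hg k hk).2.1, (hs g hg k hk).2⟩
  have hsx : ∀ g < N, x g < Y.L ∧ Y.sh (x g) = s := fun g hg =>
    hA.btw (hp.px g hg).1 (hp.px g hg).2 (hsa g hg 0 (by omega)) (hsb g hg 0 (by omega))
  have hsz : ∀ g < N, z g < Y.L ∧ Y.sh (z g) = s := fun g hg =>
    ⟨(hp.lk g hg).2.1, (hp.sh g hg).trans (hsx g hg).2⟩
  have hx : ∀ i < (2 * w) * (2 * w), col (a (1 - 1) i) < col (x i) ∧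
      col (x i) < col (b (1 - 1) i) := by
    intro i hi
    exact ⟨(h.lt_iff (hsa _ (by omega) _ (by omega)) (hsx _ (by omega))).1 (hp.px i (by omega)).1,
      (h.lt_iff (hsx _ (by omega)) (hsb _ (by omega) _ (by omega))).1 (hp.px i (by omega)).2⟩
  have hK : ∀ i < (2 * w) * (2 * w), Lk (Y.prt col) Y.ct s (col (x i)) s (col (z i))
      (Y.F (x i) (z i)) := by
    intro i hi
    have h1 := lkOf (col := col) (hp.lk i (by omega))
    rwa [(hsx i (by omega)).2, (hsz i (by omega)).2] at h1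
  have hKK : ∀ i < (2 * w) * (2 * w), ∀ j < (2 * w) * (2 * w), i ≠ j →
      Disjoint (Y.F (x i) (z i)) (Y.F (x j) (z j)) := by
    intro i hi j hj hij
    exact (hp.dis i (by omega) j (by omega) hij).dis (by simp) (by simp) (by simp) (by simp)
  have hKL : ∀ i < (2 * w) * (2 * w), ∀ t j, 1 ≤ t → t ≤ 2 * w + 1 → j < (2 * w) * (2 * w) →
      Disjoint (Y.F (x i) (z i)) (Y.F (a (t - 1) j) (b (t - 1) j)) := by
    intro i hi t j h1 h2 h3
    exact (hp.dj i (by omega) j (by omega) (t - 1) (by omega)).dis (by simp) (by simp) (by simp)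
      (by simp)
  cases d with
  | true =>
    refine h.rlz.psR hw rfl hn (h.nstL (w := 2 * w) hm' hN hp.ns hs) (fun g => col (x g))
      (fun g => col (z g)) hx ?_ ?_ (fun g => Y.F (x g) (z g)) hK hKK hKL
    · intro i hi
      have := hp.out i (by omega) (2 * w + 1 - 1) (by omega)
      rw [if_pos rfl] at this
      exact (h.lt_iff (hsb _ (by omega) _ (by omega)) (hsz _ (by omega))).1 this
    · intro i hi
      have := hp.gap i (by omega) (2 * w + 1 - 1) (by omega)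
      rw [if_pos rfl] at this
      exact (h.lt_iff (hsz _ (by omega)) (hsa _ (by omega) _ (by omega))).1 this
  | false =>
    refine h.rlz.psL hw rfl hn (h.nstL (w := 2 * w) hm' hN hp.ns hs) (fun g => col (x g))
      (fun g => col (z g)) hx ?_ ?_ (fun g => Y.F (x g) (z g)) hK hKK hKL
    · intro i hi
      have := hp.out i (by omega) (2 * w + 1 - 1) (by omega)
      rw [if_neg (by simp)] at this
      exact (h.lt_iff (hsz _ (by omega)) (hsa _ (by omega) _ (by omega))).1 this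
    · intro i hi
      have := hp.gap i (by omega) (2 * w + 1 - 1) (by omega)
      rw [if_neg (by simp)] at this
      exact (h.lt_iff (hsb _ (by omega) _ (by omega)) (hsz _ (by omega))).1 this

end

end EN
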