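import Pool.Agent.EN.Leaf

/-!
# Minimal states and the mirror symmetry
-/

open Relation

namespace Mdl

variable {V σ X : Type*}

/-- The mirrored host. -/
def Host.mir (H : Host V σ) : Host V σ where
  len := H.len
  A := H.A
  aL := H.aR
  aR := H.aL
  gd := H.gd

/-- The mirror. -/
def mir : HV V σ → HV V σ
  | Sum.inl v => Sum.inl v
  | Sum.inr (s, c, b) => Sum.inr (s, c, -b)

lemma mir_mir (u : HV V σ) : mir (mir u) = u := by
  rcases u with v | ⟨s, c, b⟩
  · rfl
  · simp only [mir, neg_neg]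

lemma mir_inj {u v : HV V σ} (h : mir u = mir v) : u = v := by
  rw [← mir_mir u, h, mir_mir]

lemma adjm {H : Host V σ} {d : ℤ} {u v : HV V σ} (h : H.Adj d u v) :
    H.mir.Adj d (mir u) (mir v) := by
  have key : ∀ u v : HV V σ, H.E d u v → H.mir.Adj d (mir u) (mir v) := by
    rintro (u | ⟨s, c, b⟩) (v | ⟨s', c', b'⟩) h
    · exact Or.inl h
    · obtain ⟨h1, h2⟩ := h
      left
      refine ⟨h1, ?_⟩
      rcases h2 with ⟨h2, h3⟩ | ⟨h2, h3⟩
      · exact Or.inr ⟨by omega, h3⟩
      · exact Or.inl ⟨by omega, h3⟩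
    · exact h.elim
    · obtain ⟨rfl, h2, h3, h4, h5⟩ := h
      rcases h5 with ⟨rfl, h5⟩ | ⟨h5, rfl, h6⟩
      · right
        exact ⟨rfl, h2, by omega, by omega, Or.inl ⟨rfl, by omega⟩⟩
      · left
        exact ⟨rfl, h2, by omega, by omega, Or.inr ⟨h5, rfl, by omega⟩⟩
  rcases h with h | h
  · exact key u v h
  · exact (key v u h).symm

lemma adjm' {H : Host V σ} {d : ℤ} {u v : HV V σ} (h : H.mir.Adj d u v) :
    H.Adj d (mir u) (mir v) := adjm (H := H.mir) h

lemma out_mir {K : ℤ} {u : HV V σ} (h : Out K u) : Out K (mir u) := by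
  rcases u with v | ⟨s, c, b⟩
  · trivial
  · have h' : b ≤ -K ∨ K ≤ b := h
    change -b ≤ -K ∨ K ≤ -b
    omega

section

variable {G : SimpleGraph X} {H : Host V σ} {D K d : ℤ} {g f : HV V σ → Option X}
  {us : Set (σ × ℕ)} {x y z : X}

lemma fin_mir (h : {u : HV V σ | f u ≠ none}.Finite) :
    {u : HV V σ | f (mir u) ≠ none}.Finite := by
  have hinj : Function.Injective (mir : HV V σ → HV V σ) := fun _ _ h => mir_inj h
  exact h.preimage hinj.injOn

theorem Model.mirror (hf : Model G H d f) : Model G H.mir d (fun u => f (mir u)) where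
  sup := by
    intro s c b h
    have := hf.sup s c (-b) h
    exact ⟨this.1, by omega, by omega⟩
  fin := fin_mir hf.fin
  con := by
    intro y u v hu hv
    have h1 := hf.con y _ _ hu hv
    have key : ∀ w, Cn H d f y (mir u) w → Cn H.mir d (fun u => f (mir u)) y u (mir w) := by
      intro w hw
      induction hw with
      | refl => rw [mir_mir]; exact ReflTransGen.refl
      | tail _ hbc ih =>
        refine ReflTransGen.tail ih ⟨adjm hbc.1, ?_, ?_⟩
        · simp only [mir_mir]; exact hbc.2.1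
        · simp only [mir_mir]; exact hbc.2.2
    have h2 := key _ h1
    rw [mir_mir] at h2
    exact h2
  edg := by
    intro y z hyz
    obtain ⟨u, v, h1, h2, h3⟩ := hf.edg y z hyz
    exact ⟨mir u, mir v, adjm h1, by rw [mir_mir]; exact h2, by rw [mir_mir]; exact h3⟩
  gnd := hf.gnd

lemma mm_mir : mm (fun u => f (mir u)) = mm f := by
  unfold mm
  congr 1

lemma Ow_mir {s : σ} {i : ℕ} : Ow K (fun u => g (mir u)) us s i y ↔ Ow K g us s i y := by
  unfold Ow
  simp only [mir, neg_neg]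
  constructor
  · rintro ⟨h1, h2⟩
    exact ⟨h1, h2.symm⟩
  · rintro ⟨h1, h2⟩
    exact ⟨h1, h2.symm⟩

lemma Ein_mir : Ein K (fun u => g (mir u)) us y z ↔ Ein K g us y z := by
  unfold Ein
  simp only [Ow_mir]

lemma cc_mir : cc G K (fun u => g (mir u)) us = cc G K g us := by
  unfold cc
  simp only [Ein_mir]

lemma OA_mir {u v : HV V σ} (h : OA H D K g y u v) :
    OA H.mir D K (fun u => g (mir u)) y (mir u) (mir v) :=
  ⟨out_mir h.1, out_mir h.2.1, adjm h.2.2.1, by simp only [mir_mir]; exact h.2.2.2.1,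
    by simp only [mir_mir]; exact h.2.2.2.2⟩

lemma OA_mir' {u v : HV V σ} (h : OA H.mir D K (fun u => g (mir u)) y u v) :
    OA H D K g y (mir u) (mir v) :=
  ⟨out_mir h.1, out_mir h.2.1, adjm' h.2.2.1, h.2.2.2.1, h.2.2.2.2⟩

lemma Cp_mir {p w : HV V σ} : w ∈ Cp H.mir D K (fun u => g (mir u)) y p ↔
    mir w ∈ Cp H D K g y (mir p) := by
  constructor
  · intro h
    have h' : ReflTransGen (OA H.mir D K (fun u => g (mir u)) y) p w := h
    clear h
    induction h' with
    | refl => exact ReflTransGen.refl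
    | tail _ hbc ih => exact ReflTransGen.tail ih (OA_mir' hbc)
  · intro h
    have key : ∀ w, ReflTransGen (OA H D K g y) (mir p) w →
        ReflTransGen (OA H.mir D K (fun u => g (mir u)) y) p (mir w) := by
      intro w hw
      induction hw with
      | refl => rw [mir_mir]
      | tail _ hbc ih => exact ReflTransGen.tail ih (OA_mir hbc)
    have h1 := key _ h
    rw [mir_mir] at h1
    exact h1

theorem State.mirror (hS : State G H D K g us) : State G H.mir D K (fun u => g (mir u)) us where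
  sup := by
    intro s c b h
    have := hS.sup s c (-b) h
    exact ⟨this.1, by omega, by omega⟩
  fin := fin_mir hS.fin
  own := by
    intro s c hc
    obtain ⟨a, b, h1, h2, h3⟩ := hS.own s c hc
    refine ⟨b, a, ?_, ?_, ?_⟩
    · simp only [mir, neg_neg]; exact h2
    · simp only [mir]; exact h1
    · rcases h3 with h3 | h3
      · exact Or.inl h3.symm
      · exact Or.inr h3.symm
  con := by
    intro y u v hu hv hgu hgv
    have h1 := hS.con y _ _ (out_mir hu) (out_mir hv) hgu hgv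
    have key : ∀ w, St H D K g us y (mir u) w →
        St H.mir D K (fun u => g (mir u)) us y u (mir w) := by
      intro w hw
      induction hw with
      | refl => rw [mir_mir]; exact ReflTransGen.refl
      | tail _ hbc ih =>
        refine ReflTransGen.tail ih ?_
        rcases hbc with h2 | ⟨s, c, h2, h3, h4, h5⟩
        · exact Or.inl (OA_mir h2)
        · right
          refine ⟨s, c, h2, ?_, ?_, ?_⟩
          · simp only [mir, neg_neg]; exact h4
          · simp only [mir]; exact h3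
          · rcases h5 with ⟨rfl, rfl⟩ | ⟨rfl, rfl⟩
            · right
              simp only [mir, neg_neg, and_self]
            · left
              simp only [mir, neg_neg, and_self]
    have h2 := key _ h1
    rw [mir_mir] at h2
    exact h2
  edg := by
    intro y z hyz
    rcases hS.edg y z hyz with h1 | ⟨u, v, h1, h2, h3, h4, h5⟩
    · exact Or.inl (Ein_mir.2 h1)
    · exact Or.inr ⟨mir u, mir v, out_mir h1, out_mir h2, adjm h3,
        by rw [mir_mir]; exact h4, by rw [mir_mir]; exact h5⟩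
  gnd := hS.gnd

/-- Minimal states. -/
structure MinState (G : SimpleGraph X) (H : Host V σ) (D K : ℤ) (g : HV V σ → Option X)
    (us : Set (σ × ℕ)) : Prop where
  st : State G H D K g us
  m : ∀ f', Model G H D f' → us.ncard ≤ mm f'
  c : ∀ g', State G H D K g' us → cc G K g us ≤ cc G K g' us

theorem MinState.mirror (hM : MinState G H D K g us) :
    MinState G H.mir D K (fun u => g (mir u)) us where
  st := hM.st.mirror
  m := by
    intro f' hf'
    have h1 := hM.m _ (hf'.mirror : Model G H D (fun u => f' (mir u)))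
    rw [mm_mir] at h1
    exact h1
  c := by
    intro g' hg'
    have h1 := hM.c _ (hg'.mirror : State G H D K (fun u => g' (mir u)) us)
    rw [cc_mir] at h1
    rw [cc_mir]
    exact h1

/-- Existence of minimal states. -/
theorem exists_min [Finite X] {K : ℤ} (hd : 0 ≤ d) (hf : Model G H d f) (hK : 0 < K) :
    ∃ (D : ℤ) (g : HV V σ → Option X) (us : Set (σ × ℕ)), d + K ≤ D ∧
      D ≤ d + (mm f + 1) * K ∧ us.ncard ≤ mm f ∧ MinState G H D K g us := by
  classical
  obtain ⟨D, f', h1, h2, h3, h4, h5, h6⟩ := exists_straight hK.le (mm f) d f hd hf (le_refl _)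
  have h7 := h3.state hK (by omega) h5 h6
  set us := {p : σ × ℕ | f' (Sum.inr (p.1, p.2, 0)) ≠ none} with hus
  have hex : ∃ n, ∃ g, State G H D K g us ∧ cc G K g us = n := ⟨_, f', h7, rfl⟩
  obtain ⟨g, h8, h9⟩ := Nat.find_spec hex
  refine ⟨D, g, us, h1, h2, h4, h8, h6, ?_⟩
  intro g' hg'
  rw [h9]
  exact Nat.find_min' hex ⟨g', hg', rfl⟩

/-- Port vertices. -/
def pt (K : ℤ) (s : σ) (c : ℕ) (e : Bool) : HV V σ := Sum.inr (s, c, if e then K else -K)

lemma pt_false {s : σ} {c : ℕ} : pt K s c false = (Sum.inr (s, c, -K) : HV V σ) := rfl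

lemma pt_true {s : σ} {c : ℕ} : pt K s c true = (Sum.inr (s, c, K) : HV V σ) := rfl

lemma pt_out {s : σ} {c : ℕ} {e : Bool} : Out K (pt K s c e : HV V σ) := by
  cases e
  · exact out_left
  · exact out_right

lemma pt_mir {s : σ} {c : ℕ} {e : Bool} : mir (pt K s c e : HV V σ) = pt K s c (!e) := by
  cases e
  · simp only [pt, mir, Bool.not_false, if_true, Bool.false_eq_true, if_false, neg_neg]
  · simp only [pt, mir, Bool.not_true, if_true, Bool.false_eq_true, if_false]

section

variable [Finite σ]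

/-- **(A1)** -/
theorem MinState.a1
    (h4 : ∀ a b c d, G.Adj a b → G.Adj b c → G.Adj c d → G.Adj d a → a = c ∨ b = d)
    (hM : MinState G H D K g us) (hK : 2 * us.ncard + 4 ≤ K) (hKD : K ≤ D) {s : σ} {i j : ℕ}
    (hij : Cons us s i j) (e : Bool) (hi : g (pt K s i e) = some y) :
    g (pt K s j e) ≠ some y := by
  intro hj
  cases e
  · obtain ⟨f', h1, h2⟩ := hM.st.a1 h4 hK hKD hij hi hj
    exact absurd h2 (not_lt.2 (hM.m f' h1))
  · obtain ⟨f', h1, h2⟩ := hM.mirror.st.a1 h4 hK hKD hij (y := y)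
      (by simp only [mir, neg_neg]; exact hi) (by simp only [mir, neg_neg]; exact hj)
    exact absurd h2 (not_lt.2 (hM.mirror.m f' h1))

/-- Every edge is kissed at most once. -/
theorem MinState.kiss
    (h4 : ∀ a b c d, G.Adj a b → G.Adj b c → G.Adj c d → G.Adj d a → a = c ∨ b = d)
    (hM : MinState G H D K g us) (hK : 2 * us.ncard + 4 ≤ K) (hKD : K ≤ D) {s s' : σ} {i j : ℕ}
    (hi : (s, i) ∈ us) (hj : (s', j) ∈ us) (hyz : y ≠ z) {e e' : Bool}
    (h1 : g (pt K s i e) = some z) (h2 : g (pt K s i (!e)) = some y)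
    (h3 : g (pt K s' j e') = some z) (h3' : g (pt K s' j (!e')) = some y) :
    (s, i) = (s', j) := by
  by_contra hne
  cases e
  · obtain ⟨f', h5, h6⟩ := hM.st.kiss1 h4 hK hKD hi hj hne hyz h1 h2 (by
      cases e'
      · exact Or.inr ⟨h3, h3'⟩
      · exact Or.inl ⟨h3', h3⟩)
    exact absurd h6 (not_lt.2 (hM.m f' h5))
  · obtain ⟨f', h5, h6⟩ := hM.st.kiss1 h4 hK hKD hi hj hne hyz.symm h2 h1 (by
      cases e'
      · exact Or.inl ⟨h3, h3'⟩
      · exact Or.inr ⟨h3', h3⟩)
    exact absurd h6 (not_lt.2 (hM.m f' h5))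

/-- Full columns are bridges. -/
theorem MinState.bridge
    (h4 : ∀ a b c d, G.Adj a b → G.Adj b c → G.Adj c d → G.Adj d a → a = c ∨ b = d)
    (hM : MinState G H D K g us) (hK : 2 * us.ncard + 4 ≤ K) (hKD : K ≤ D) {s : σ} {i : ℕ}
    (hi : (s, i) ∈ us) (h1 : g (pt K s i false) = some y) (h2 : g (pt K s i true) = some y) :
    ¬ St' H D K g us s i y (pt K s i false) (pt K s i true) := by
  intro h3
  obtain ⟨f', h5, h6⟩ := hM.st.bridge h4 hK hKD hi h1 h2 h3
  exact absurd h6 (not_lt.2 (hM.m f' h5))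

/-- Assigned contacts. -/
structure Asg (G : SimpleGraph X) (H : Host V σ) (D K : ℤ) (g : HV V σ → Option X)
    (us : Set (σ × ℕ)) (cv : X → X → HV V σ) : Prop where
  out : ∀ y z, G.Adj y z → ¬ Ein K g us y z → Out K (cv y z)
  col : ∀ y z, G.Adj y z → ¬ Ein K g us y z → g (cv y z) = some y
  adj : ∀ y z, G.Adj y z → ¬ Ein K g us y z → H.Adj D (cv y z) (cv z y)

/-- **(A2)**, left ports. -/
theorem MinState.a2l [Finite X]
    (h4 : ∀ a b c d, G.Adj a b → G.Adj b c → G.Adj c d → G.Adj d a → a = c ∨ b = d)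
    (hM : MinState G H D K g us) (hK : 2 * us.ncard + 4 ≤ K) (hKD : K ≤ D)
    {cv : X → X → HV V σ} (hA : Asg G H D K g us cv) {s : σ} {i : ℕ}
    (hi : (s, i) ∈ us) (hone : One H D K g us s i y)
    (h1 : g (Sum.inr (s, i, -K)) = some y) {v₀ : V} (hv₀ : g (Sum.inl v₀) = some y)
    (hg : H.gd v₀) (hv₁ : (Sum.inl v₀ : HV V σ) ∉ Cp H D K g y (Sum.inr (s, i, -K))) :
    ∃ z z', z ≠ z' ∧ (G.Adj y z ∧ ¬ Ein K g us y z ∧
        cv y z ∈ Cp H D K g y (Sum.inr (s, i, -K))) ∧
      (G.Adj y z' ∧ ¬ Ein K g us y z' ∧ cv y z' ∈ Cp H D K g y (Sum.inr (s, i, -K))) := by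
  by_contra hcon
  have hct : ∀ z, G.Adj y z → ¬ Ein K g us y z →
      cv y z ∉ Cp H D K g y (Sum.inr (s, i, -K)) → ∃ u v,
        u ∉ Cp H D K g y (Sum.inr (s, i, -K)) ∧ Out K u ∧ Out K v ∧ H.Adj D u v ∧
          g u = some y ∧ g v = some z := by
    intro z h5 h6 h7
    have h8 : ¬ Ein K g us z y := fun h => h6 h.symm
    exact ⟨_, _, h7, hA.out y z h5 h6, hA.out z y h5.symm h8, hA.adj y z h5 h6,
      hA.col y z h5 h6, hA.col z y h5.symm h8⟩
  by_cases hex : ∃ x, G.Adj y x ∧ ¬ Ein K g us y x ∧ cv y x ∈ Cp H D K g y (Sum.inr (s, i, -K))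
  · obtain ⟨x, h5, h6, h7⟩ := hex
    have h8 : ¬ Ein K g us x y := fun h => h6 h.symm
    obtain ⟨h9, h10⟩ := hM.st.leaf1 hi hone h1 hv₀ hg hv₁ h5 h6 h7
      (hA.out x y h5.symm h8) (hA.adj y x h5 h6) (hA.col x y h5.symm h8) (by
        intro z hzx hyz
        by_cases h11 : Ein K g us y z
        · exact Or.inl h11
        · right
          apply hct z hyz h11
          intro h12
          exact hcon ⟨z, x, hzx, ⟨hyz, h11, h12⟩, ⟨h5, h6, h7⟩⟩)
    exact absurd h10 (not_lt.2 (hM.c _ h9))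
  · obtain ⟨f', h5, h6⟩ := hM.st.leaf0 h4 hK hKD hi hone h1 hv₀ hg hv₁ (by
      intro z hyz
      by_cases h11 : Ein K g us y z
      · exact Or.inl h11
      · right
        apply hct z hyz h11
        intro h12
        exact hex ⟨z, hyz, h11, h12⟩)
    exact absurd h6 (not_lt.2 (hM.m f' h5))

/-- **(A2)** -/
theorem MinState.a2 [Finite X]
    (h4 : ∀ a b c d, G.Adj a b → G.Adj b c → G.Adj c d → G.Adj d a → a = c ∨ b = d)
    (hM : MinState G H D K g us) (hK : 2 * us.ncard + 4 ≤ K) (hKD : K ≤ D)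
    {cv : X → X → HV V σ} (hA : Asg G H D K g us cv) {s : σ} {i : ℕ} {e : Bool}
    (hi : (s, i) ∈ us)
    (hone : ∀ s' c' e', (s', c') ∈ us → (pt K s' c' e' : HV V σ) ∈ Cp H D K g y (pt K s i e) →
      s' = s ∧ c' = i ∧ e' = e)
    (h1 : g (pt K s i e) = some y) {v₀ : V} (hv₀ : g (Sum.inl v₀) = some y)
    (hg : H.gd v₀) (hv₁ : (Sum.inl v₀ : HV V σ) ∉ Cp H D K g y (pt K s i e)) :
    ∃ z z', z ≠ z' ∧ (G.Adj y z ∧ ¬ Ein K g us y z ∧ cv y z ∈ Cp H D K g y (pt K s i e)) ∧
      (G.Adj y z' ∧ ¬ Ein K g us y z' ∧ cv y z' ∈ Cp H D K g y (pt K s i e)) := by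
  cases e
  · refine hM.a2l h4 hK hKD hA hi ?_ h1 hv₀ hg hv₁
    intro s' c' hc
    refine ⟨fun h5 => ?_, fun h5 => ?_⟩
    · obtain ⟨h6, h7, _⟩ := hone s' c' false hc h5
      rw [h6, h7]
    · obtain ⟨_, _, h8⟩ := hone s' c' true hc h5
      exact absurd h8 (by simp)
  · -- mirror
    have hA' : Asg G H.mir D K (fun u => g (mir u)) us (fun a b => mir (cv a b)) := by
      refine ⟨?_, ?_, ?_⟩
      · intro a b hab h5
        exact out_mir (hA.out a b hab (fun h => h5 (Ein_mir.2 h)))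
      · intro a b hab h5
        simp only [mir_mir]
        exact hA.col a b hab (fun h => h5 (Ein_mir.2 h))
      · intro a b hab h5
        exact adjm (hA.adj a b hab (fun h => h5 (Ein_mir.2 h)))
    have hp : (mir (Sum.inr (s, i, -K)) : HV V σ) = pt K s i true := by
      simp only [mir, neg_neg]; rfl
    have hone' : One H.mir D K (fun u => g (mir u)) us s i y := by
      intro s' c' hc
      refine ⟨fun h5 => ?_, fun h5 => ?_⟩
      · rw [Cp_mir, hp] at h5
        have h6 : (mir (Sum.inr (s', c', -K)) : HV V σ) = pt K s' c' true := by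
          simp only [mir, neg_neg]; rfl
        rw [h6] at h5
        obtain ⟨h7, h8, _⟩ := hone s' c' true hc h5
        rw [h7, h8]
      · rw [Cp_mir, hp] at h5
        have h6 : (mir (Sum.inr (s', c', K)) : HV V σ) = pt K s' c' false := rfl
        rw [h6] at h5
        obtain ⟨_, _, h8⟩ := hone s' c' false hc h5
        exact absurd h8 (by simp)
    obtain ⟨z, z', h5, ⟨h6, h7, h8⟩, h9, h10, h11⟩ := hM.mirror.a2l h4 hK hKD hA' hi hone'
      (by rw [hp]; exact h1) (v₀ := v₀) hv₀ hg (by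
        rw [Cp_mir, hp]
        exact hv₁)
    rw [Cp_mir, hp, mir_mir] at h8 h11
    exact ⟨z, z', h5, ⟨h6, fun h => h7 (Ein_mir.2 h), h8⟩, h9, fun h => h10 (Ein_mir.2 h), h11⟩

end

end

end Mdl
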