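import Mathlib

/-!
# Minor models of a graph in a host with pages (page MP_5165fa_co_TAUT_h63.md)

The host consists of outside vertices `V` and of sheets `s : σ` with columns `c < len s` and
windows `-d ≤ b ≤ d`; there are no horizontal edges in the window `0`.  A model of the graph `G`
is a partial colouring `f` of the host vertices by the vertices of `G`: the colour classes are the
branch sets.
-/

open Relation

namespace Mdl

/-- Host vertices: outside vertices and page vertices (sheet, column, window). -/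
abbrev HV (V σ : Type*) := V ⊕ (σ × ℕ × ℤ)

/-- Host data: number of columns of the sheets, adjacency of the outside vertices, attachments of
the outside vertices to the left and the right ends of the columns, vertices next to the ground. -/
structure Host (V σ : Type*) where
  len : σ → ℕ
  A : V → V → Prop
  aL : V → σ → ℕ → Prop
  aR : V → σ → ℕ → Prop
  gd : V → Prop

variable {V σ X : Type*}

/-- Directed edges of the host with windows `-d ≤ b ≤ d`. -/
def Host.E (H : Host V σ) (d : ℤ) : HV V σ → HV V σ → Prop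
  | Sum.inl v, Sum.inl w => H.A v w
  | Sum.inl v, Sum.inr (s, c, b) =>
      c < H.len s ∧ ((b = -d ∧ H.aL v s c) ∨ (b = d ∧ H.aR v s c))
  | Sum.inr _, Sum.inl _ => False
  | Sum.inr (s, c, b), Sum.inr (s', c', b') => s = s' ∧ c' < H.len s ∧ -d ≤ b ∧ b' ≤ d ∧
      ((c = c' ∧ b' = b + 1) ∨ (c' = c + 1 ∧ b' = b ∧ b ≠ 0))

/-- Adjacency of the host. -/
def Host.Adj (H : Host V σ) (d : ℤ) (u v : HV V σ) : Prop := H.E d u v ∨ H.E d v u

lemma Host.Adj.symm {H : Host V σ} {d : ℤ} {u v : HV V σ} (h : H.Adj d u v) : H.Adj d v u :=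
  Or.symm h

/-- Connection inside of the colour class of `y`. -/
def Cn (H : Host V σ) (d : ℤ) (f : HV V σ → Option X) (y : X) : HV V σ → HV V σ → Prop :=
  ReflTransGen (fun a b => H.Adj d a b ∧ f a = some y ∧ f b = some y)

/-- A model of `G` with every branch set touching the ground. -/
structure Model (G : SimpleGraph X) (H : Host V σ) (d : ℤ) (f : HV V σ → Option X) : Prop where
  sup : ∀ s c b, f (Sum.inr (s, c, b)) ≠ none → c < H.len s ∧ -d ≤ b ∧ b ≤ d
  fin : {u | f u ≠ none}.Finite
  con : ∀ y u v, f u = some y → f v = some y → Cn H d f y u v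
  edg : ∀ y z, G.Adj y z → ∃ u v, H.Adj d u v ∧ f u = some y ∧ f v = some z
  gnd : ∀ y, ∃ v, f (Sum.inl v) = some y ∧ H.gd v

/-- Number of used vertices in the window `0`. -/
noncomputable def mm (f : HV V σ → Option X) : ℕ :=
  {p : σ × ℕ | f (Sum.inr (p.1, p.2, 0)) ≠ none}.ncard

lemma Model.fin0 {G : SimpleGraph X} {H : Host V σ} {d : ℤ} {f : HV V σ → Option X}
    (hf : Model G H d f) : {p : σ × ℕ | f (Sum.inr (p.1, p.2, 0)) ≠ none}.Finite := by
  have hinj : Function.Injective (fun p : σ × ℕ => (Sum.inr (p.1, p.2, 0) : HV V σ)) := by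
    rintro ⟨a, b⟩ ⟨c, d⟩ h
    simp only [Sum.inr.injEq, Prod.mk.injEq] at h
    rw [h.1, h.2.1]
  exact hf.fin.preimage hinj.injOn

section

variable {G : SimpleGraph X} {H : Host V σ} {d : ℤ} {f : HV V σ → Option X} {y : X}

lemma Cn.symm {u v : HV V σ} (h : Cn H d f y u v) : Cn H d f y v u := by
  unfold Cn at h ⊢
  induction h with
  | refl => exact ReflTransGen.refl
  | tail _ hbc ih => exact ReflTransGen.head ⟨hbc.1.symm, hbc.2.2, hbc.2.1⟩ ih

lemma Cn.trans {u v w : HV V σ} (h : Cn H d f y u v) (h' : Cn H d f y v w) : Cn H d f y u w :=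
  ReflTransGen.trans h h'

lemma Cn.col {u v : HV V σ} (h : Cn H d f y u v) (hu : f u = some y) : f v = some y := by
  rcases ReflTransGen.cases_tail h with h1 | ⟨w, _, h2⟩
  · rw [h1]; exact hu
  · exact h2.2.2

/-- Adjacent vertices in one class. -/
lemma Cn.one {u v : HV V σ} (h : H.Adj d u v) (hu : f u = some y) (hv : f v = some y) :
    Cn H d f y u v := ReflTransGen.single ⟨h, hu, hv⟩

lemma Cn.mono {f' : HV V σ → Option X} {u v : HV V σ} (h : Cn H d f y u v)
    (hh : ∀ w, f w = some y → f' w = some y) : Cn H d f' y u v := by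
  unfold Cn at h ⊢
  induction h with
  | refl => exact ReflTransGen.refl
  | tail _ hbc ih => exact ReflTransGen.tail ih ⟨hbc.1, hh _ hbc.2.1, hh _ hbc.2.2⟩

/-- Vertical adjacency. -/
lemma Host.ver {s : σ} {c : ℕ} {b : ℤ} (hc : c < H.len s) (h1 : -d ≤ b) (h2 : b + 1 ≤ d) :
    H.Adj d (Sum.inr (s, c, b)) (Sum.inr (s, c, b + 1)) :=
  Or.inl ⟨rfl, hc, h1, h2, Or.inl ⟨rfl, rfl⟩⟩

/-- Horizontal adjacency. -/
lemma Host.hor {s : σ} {c : ℕ} {b : ℤ} (hc : c + 1 < H.len s) (h1 : -d ≤ b) (h2 : b ≤ d)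
    (h3 : b ≠ 0) : H.Adj d (Sum.inr (s, c, b)) (Sum.inr (s, c + 1, b)) :=
  Or.inl ⟨rfl, hc, h1, h2, Or.inr ⟨rfl, rfl, h3⟩⟩

/-- Vertical paths. -/
lemma Cn.vert {s : σ} {c : ℕ} {a : ℤ} (hc : c < H.len s) (n : ℕ) (h1 : -d ≤ a)
    (h2 : a + n ≤ d) (hcol : ∀ b : ℤ, a ≤ b → b ≤ a + n → f (Sum.inr (s, c, b)) = some y) :
    Cn H d f y (Sum.inr (s, c, a)) (Sum.inr (s, c, a + n)) := by
  induction n with
  | zero => simp only [Nat.cast_zero, add_zero]; exact ReflTransGen.refl
  | succ n ih =>
    have h3 := ih (by push_cast at h2; omega) (fun b hb hb' => hcol b hb (by push_cast; omega))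
    refine h3.trans ?_
    have e : a + ((n + 1 : ℕ) : ℤ) = a + n + 1 := by push_cast; ring
    rw [e]
    exact Cn.one (Host.ver hc (by omega) (by push_cast at h2; omega))
      (hcol _ (by omega) (by push_cast; omega)) (hcol _ (by omega) (by push_cast; omega))

lemma Cn.vert' {s : σ} {c : ℕ} {a a' : ℤ} (hc : c < H.len s) (h1 : -d ≤ a) (h2 : a' ≤ d)
    (haa : a ≤ a') (hcol : ∀ b : ℤ, a ≤ b → b ≤ a' → f (Sum.inr (s, c, b)) = some y) :
    Cn H d f y (Sum.inr (s, c, a)) (Sum.inr (s, c, a')) := by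
  have e : a' = a + ((a' - a).toNat : ℕ) := by
    rw [Int.toNat_of_nonneg (by omega)]; ring
  rw [e]
  exact Cn.vert hc _ h1 (by rw [← e]; exact h2) (fun b hb hb' => hcol b hb (by rw [e]; exact hb'))

open Classical in
/-- Uncolouring a vertex. -/
noncomputable def del (f : HV V σ → Option X) (u : HV V σ) : HV V σ → Option X :=
  fun w => if w = u then none else f w

lemma del_ne {u w : HV V σ} (h : w ≠ u) : del f u w = f w := by
  unfold del
  rw [if_neg h]

lemma del_self {u : HV V σ} : del f u u = none := by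
  unfold del
  rw [if_pos rfl]

/-- Dropping a vertex of the window `0` together with everything which it cuts off from the ground
place of its class. -/
theorem Model.drop (hf : Model G H d f) {s : σ} {c : ℕ} {v₀ : V}
    (hu : f (Sum.inr (s, c, 0)) = some y) (hv : f (Sum.inl v₀) = some y) (hg : H.gd v₀)
    (hed : ∀ z, G.Adj y z → ∃ v w, Cn H d (del f (Sum.inr (s, c, 0))) y (Sum.inl v₀) v ∧ H.Adj d v w ∧ f w = some z) :
    ∃ f', Model G H d f' ∧ mm f' < mm f := by
  classical
  set u : HV V σ := Sum.inr (s, c, 0) with hu0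
  set f₁ : HV V σ → Option X := del f u with hf₁
  have hv1 : f₁ (Sum.inl v₀) = some y := by
    rw [hf₁, del_ne (by rw [hu0]; simp)]
    exact hv
  set f' : HV V σ → Option X := fun w =>
    if f₁ w = some y ∧ ¬ Cn H d f₁ y (Sum.inl v₀) w then none else f₁ w with hf'
  have h1 : ∀ w, f₁ w ≠ none → f w = f₁ w := by
    intro w hw
    rcases eq_or_ne w u with h | h
    · rw [h, hf₁, del_self] at hw
      exact absurd rfl hw
    · rw [hf₁, del_ne h]
  have h2 : ∀ w, f' w ≠ none → f₁ w = f' w := by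
    intro w hw
    simp only [hf'] at hw ⊢
    split_ifs at hw ⊢ with h
    · exact absurd rfl hw
    · rfl
  have h3 : ∀ w, f' w ≠ none → f w = f' w := by
    intro w hw
    have h4 := h2 w hw
    rw [← h4] at hw ⊢
    exact h1 w hw
  have h4 : ∀ w z, z ≠ y → f w = some z → f' w = some z := by
    intro w z hz hw
    have hwu : w ≠ u := by
      intro h
      rw [h, hu] at hw
      exact hz (Option.some.inj hw).symm
    have h5 : f₁ w = some z := by
      rw [hf₁, del_ne hwu]
      exact hw
    simp only [hf']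
    rw [if_neg, h5]
    rintro ⟨h6, _⟩
    rw [h5] at h6
    exact hz (Option.some.inj h6)
  have h5 : ∀ w, Cn H d f₁ y (Sum.inl v₀) w → f' w = some y := by
    intro w hw
    simp only [hf']
    rw [if_neg (fun h => h.2 hw)]
    exact hw.col hv1
  have h6 : ∀ w, f' w = some y → Cn H d f₁ y (Sum.inl v₀) w := by
    intro w hw
    by_contra hcon
    have h7 : f₁ w = some y := by rw [h2 w (by rw [hw]; simp), hw]
    have h8 : f' w = none := by
      simp only [hf']
      rw [if_pos ⟨h7, hcon⟩]
    rw [h8] at hw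
    exact absurd hw (by simp)
  have h7 : ∀ w, Cn H d f₁ y (Sum.inl v₀) w → Cn H d f' y (Sum.inl v₀) w := by
    intro w hw
    induction hw with
    | refl => exact ReflTransGen.refl
    | tail hab hbc ih =>
      exact ReflTransGen.tail ih ⟨hbc.1, h5 _ hab, h5 _ (ReflTransGen.tail hab hbc)⟩
  refine ⟨f', ⟨?_, ?_, ?_, ?_, ?_⟩, ?_⟩
  · intro s c b h
    apply hf.sup
    rw [h3 _ h]
    exact h
  · refine hf.fin.subset ?_
    intro w hw
    have hw' : f' w ≠ none := hw
    change f w ≠ none
    rw [h3 _ hw']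
    exact hw'
  · intro z a b ha hb
    by_cases hz : z = y
    · subst hz
      exact (h7 _ (h6 _ ha)).symm.trans (h7 _ (h6 _ hb))
    · refine (hf.con z a b ?_ ?_).mono (fun w hw => h4 w z hz hw)
      · rw [h3 _ (by rw [ha]; simp), ha]
      · rw [h3 _ (by rw [hb]; simp), hb]
  · have key : ∀ z, G.Adj y z → ∃ v w, H.Adj d v w ∧ f' v = some y ∧ f' w = some z := by
      intro z hz
      obtain ⟨v, w, hv', hvw, hw⟩ := hed z hz
      exact ⟨v, w, hvw, h5 v hv', h4 w z hz.ne' hw⟩
    intro a b hab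
    by_cases ha : a = y
    · subst ha
      exact key b hab
    · by_cases hb : b = y
      · subst hb
        obtain ⟨v, w, h8, h9, h10⟩ := key a hab.symm
        exact ⟨w, v, h8.symm, h10, h9⟩
      · obtain ⟨v, w, h8, h9, h10⟩ := hf.edg a b hab
        exact ⟨v, w, h8, h4 v a ha h9, h4 w b hb h10⟩
  · intro z
    by_cases hz : z = y
    · subst hz
      exact ⟨v₀, h5 _ ReflTransGen.refl, hg⟩
    · obtain ⟨v, h8, h9⟩ := hf.gnd z
      exact ⟨v, h4 _ z hz h8, h9⟩
  · unfold mm
    refine Set.ncard_lt_ncard ?_ hf.fin0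
    rw [Set.ssubset_iff_of_subset]
    · refine ⟨(s, c), ?_, ?_⟩
      · change f u ≠ none
        rw [hu]
        simp
      · change ¬ (f' u ≠ none)
        rw [not_not]
        have h8 : f₁ u = none := by
          rw [hf₁, del_self]
        by_contra h9
        exact h9 ((h2 u h9).symm.trans h8)
    · rintro ⟨a, b⟩ h
      change f' _ ≠ none at h
      change f _ ≠ none
      rw [h3 _ h]
      exact h

end

/-! ### Stretching the window `0` -/

/-- Contracting the windows `-k ≤ b ≤ k`. -/
def pz (k b : ℤ) : ℤ := if k < b then b - k else if b < -k then b + k else 0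

/-- Contracting the windows `-k ≤ b ≤ k`. -/
def Pz (k : ℤ) : HV V σ → HV V σ
  | Sum.inl v => Sum.inl v
  | Sum.inr (s, c, b) => Sum.inr (s, c, pz k b)

lemma pz_pos {k b : ℤ} (hk : 0 ≤ k) (hb : 0 ≤ b) : pz k (b + k) = b := by
  unfold pz
  split_ifs <;> omega

lemma pz_neg {k b : ℤ} (hk : 0 ≤ k) (hb : b ≤ 0) : pz k (b - k) = b := by
  unfold pz
  split_ifs <;> omega

lemma pz_mid {k b : ℤ} (h1 : -k ≤ b) (h2 : b ≤ k) : pz k b = 0 := by
  unfold pz
  split_ifs <;> omega

/-- Lifting of edges. -/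
lemma Host.lift (H : Host V σ) {d k : ℤ} (hd : 0 ≤ d) (hk : 0 ≤ k) {u v : HV V σ}
    (h : H.Adj d u v) : ∃ u' v', H.Adj (d + k) u' v' ∧ Pz k u' = u ∧ Pz k v' = v := by
  have key : ∀ u v : HV V σ, H.E d u v → ∃ u' v', H.E (d + k) u' v' ∧ Pz k u' = u ∧
      Pz k v' = v := by
    rintro (v | ⟨s, c, b⟩) (w | ⟨s', c', b'⟩) h
    · exact ⟨Sum.inl v, Sum.inl w, h, rfl, rfl⟩
    · obtain ⟨h1, h2⟩ := h
      rcases h2 with ⟨h2, h3⟩ | ⟨h2, h3⟩
      · refine ⟨Sum.inl v, Sum.inr (s', c', b' - k), ⟨h1, Or.inl ⟨by omega, h3⟩⟩, rfl, ?_⟩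
        simp only [Pz]
        rw [pz_neg hk (by omega)]
      · refine ⟨Sum.inl v, Sum.inr (s', c', b' + k), ⟨h1, Or.inr ⟨by omega, h3⟩⟩, rfl, ?_⟩
        simp only [Pz]
        rw [pz_pos hk (by omega)]
    · exact h.elim
    · obtain ⟨rfl, h2, h3, h4, h5⟩ := h
      rcases h5 with ⟨rfl, rfl⟩ | ⟨rfl, rfl, h5⟩
      · rcases le_or_gt 0 b with hb | hb
        · refine ⟨Sum.inr (s, c, b + k), Sum.inr (s, c, b + 1 + k),
            ⟨rfl, h2, by omega, by omega, Or.inl ⟨rfl, by ring⟩⟩, ?_, ?_⟩
          · simp only [Pz]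
            rw [pz_pos hk hb]
          · simp only [Pz]
            rw [pz_pos hk (by omega)]
        · refine ⟨Sum.inr (s, c, b - k), Sum.inr (s, c, b + 1 - k),
            ⟨rfl, h2, by omega, by omega, Or.inl ⟨rfl, by ring⟩⟩, ?_, ?_⟩
          · simp only [Pz]
            rw [pz_neg hk (by omega)]
          · simp only [Pz]
            rw [pz_neg hk (by omega)]
      · rcases le_or_gt 0 b' with hb | hb
        · refine ⟨Sum.inr (s, c, b' + k), Sum.inr (s, c + 1, b' + k),
            ⟨rfl, h2, by omega, by omega, Or.inr ⟨rfl, rfl, by omega⟩⟩, ?_, ?_⟩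
          · simp only [Pz]
            rw [pz_pos hk hb]
          · simp only [Pz]
            rw [pz_pos hk hb]
        · refine ⟨Sum.inr (s, c, b' - k), Sum.inr (s, c + 1, b' - k),
            ⟨rfl, h2, by omega, by omega, Or.inr ⟨rfl, rfl, by omega⟩⟩, ?_, ?_⟩
          · simp only [Pz]
            rw [pz_neg hk (by omega)]
          · simp only [Pz]
            rw [pz_neg hk (by omega)]
  rcases h with h | h
  · obtain ⟨u', v', h1, h2, h3⟩ := key u v h
    exact ⟨u', v', Or.inl h1, h2, h3⟩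
  · obtain ⟨u', v', h1, h2, h3⟩ := key v u h
    exact ⟨v', u', Or.inr h1, h3, h2⟩

section

variable {G : SimpleGraph X} {H : Host V σ} {d k : ℤ} {f : HV V σ → Option X} {y : X}

/-- The fibres are connected. -/
lemma Model.fib (hf : Model G H d f) (hd : 0 ≤ d) (hk : 0 ≤ k) {u v : HV V σ}
    (h : Pz k u = Pz k v) (hu : f (Pz k u) = some y) :
    Cn H (d + k) (fun w => f (Pz k w)) y u v := by
  rcases u with u | ⟨s, c, b⟩
  · rcases v with v | ⟨s', c', b'⟩
    · simp only [Pz, Sum.inl.injEq] at h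
      rw [h]
      exact ReflTransGen.refl
    · simp only [Pz, reduceCtorEq] at h
  · rcases v with v | ⟨s', c', b'⟩
    · simp only [Pz, reduceCtorEq] at h
    · have h0 := h
      simp only [Pz, Sum.inr.injEq, Prod.mk.injEq] at h
      obtain ⟨rfl, rfl, h3⟩ := h
      by_cases hb : b = b'
      · rw [hb]
        exact ReflTransGen.refl
      · have h4 : -k ≤ b ∧ b ≤ k ∧ -k ≤ b' ∧ b' ≤ k := by
          unfold pz at h3
          split_ifs at h3 <;> omega
        have hu' : f (Sum.inr (s, c, 0)) = some y := by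
          simp only [Pz] at hu
          rw [pz_mid h4.1 h4.2.1] at hu
          exact hu
        have hc := (hf.sup s c 0 (by rw [hu']; simp)).1
        have hcol : ∀ x : ℤ, -k ≤ x → x ≤ k →
            (fun w => f (Pz k w)) (Sum.inr (s, c, x) : HV V σ) = some y := by
          intro x h5 h6
          simp only [Pz]
          rw [pz_mid h5 h6]
          exact hu'
        rcases le_or_gt b b' with h5 | h5
        · exact Cn.vert' hc (by omega) (by omega) h5
            (fun x h6 h7 => hcol x (by omega) (by omega))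
        · exact (Cn.vert' hc (by omega) (by omega) h5.le
            (fun x h6 h7 => hcol x (by omega) (by omega))).symm

/-- Stretching of models. -/
theorem Model.stretch (hf : Model G H d f) (hd : 0 ≤ d) (hk : 0 ≤ k) :
    Model G H (d + k) (fun w => f (Pz k w)) where
  sup := by
    intro s c b h
    have h1 := hf.sup s c (pz k b) h
    refine ⟨h1.1, ?_⟩
    unfold pz at h1
    split_ifs at h1 <;> omega
  fin := by
    have h1 : {w : HV V σ | f (Pz k w) ≠ none} ⊆ ⋃ x ∈ Set.Icc (-k) k,
        (fun w : HV V σ => match w with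
          | Sum.inl v => (Sum.inl v : HV V σ)
          | Sum.inr (s, c, b) => Sum.inr (s, c, b + x)) '' {u | f u ≠ none} := by
      rintro (v | ⟨s, c, b⟩) hw
      · rw [Set.mem_iUnion₂]
        exact ⟨0, ⟨by omega, hk⟩, Sum.inl v, hw, rfl⟩
      · rw [Set.mem_iUnion₂]
        refine ⟨b - pz k b, ?_, Sum.inr (s, c, pz k b), hw, ?_⟩
        · unfold pz
          rw [Set.mem_Icc]
          split_ifs <;> omega
        · simp only
          rw [add_sub_cancel]
    refine Set.Finite.subset ?_ h1
    exact (Set.finite_Icc _ _).biUnion (fun x _ => hf.fin.image _)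
  con := by
    intro y u v hu hv
    have h1 := hf.con y (Pz k u) (Pz k v) hu hv
    have key : ∀ b, Cn H d f y (Pz k u) b → f b = some y → ∀ b', Pz k b' = b →
        Cn H (d + k) (fun w => f (Pz k w)) y u b' := by
      intro b hb
      induction hb with
      | refl =>
        intro _ b' h2
        exact hf.fib hd hk h2.symm hu
      | tail hab hbc ih =>
        rename_i b c
        intro hc c' hc'
        obtain ⟨p, q, h3, h4, h5⟩ := H.lift hd hk hbc.1
        have h6 := ih hbc.2.1 p h4
        have h7 : Cn H (d + k) (fun w => f (Pz k w)) y p q := by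
          refine Cn.one h3 ?_ ?_
          · rw [h4]
            exact hbc.2.1
          · rw [h5]
            exact hbc.2.2
        exact (h6.trans h7).trans (hf.fib hd hk (h5.trans hc'.symm) (by rw [h5]; exact hbc.2.2))
    exact key _ h1 hv v rfl
  edg := by
    intro y z hyz
    obtain ⟨u, v, h1, h2, h3⟩ := hf.edg y z hyz
    obtain ⟨u', v', h4, h5, h6⟩ := H.lift hd hk h1
    exact ⟨u', v', h4, by rw [h5]; exact h2, by rw [h6]; exact h3⟩
  gnd := hf.gnd

lemma mm_stretch (hk : 0 ≤ k) : mm (fun w => f (Pz k w)) = mm f := by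
  unfold mm
  congr 1
  ext ⟨s, c⟩
  change f (Sum.inr (s, c, pz k 0)) ≠ none ↔ f (Sum.inr (s, c, 0)) ≠ none
  rw [pz_mid (by omega) hk]

/-- A model which is straight in the windows `-K ≤ b ≤ K` and uses as few vertices of the window
`0` as possible. -/
theorem exists_straight {K : ℤ} (hK : 0 ≤ K) (n : ℕ) : ∀ (d : ℤ) (f : HV V σ → Option X), 0 ≤ d →
    Model G H d f → mm f ≤ n → ∃ (D : ℤ) (f' : HV V σ → Option X), d + K ≤ D ∧
      D ≤ d + (n + 1) * K ∧ Model G H D f' ∧ mm f' ≤ n ∧
      (∀ s c (b : ℤ), -K ≤ b → b ≤ K → f' (Sum.inr (s, c, b)) = f' (Sum.inr (s, c, 0))) ∧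
      ∀ f'', Model G H D f'' → mm f' ≤ mm f'' := by
  induction n with
  | zero =>
    intro d f hd hf hn
    refine ⟨d + K, _, le_refl _, by push_cast; linarith, hf.stretch hd hK, ?_, ?_, ?_⟩
    · rw [mm_stretch hK]; exact hn
    · intro s c b h1 h2
      simp only [Pz]
      rw [pz_mid h1 h2, pz_mid (by omega) hK]
    · intro f'' _
      rw [mm_stretch hK]
      omega
  | succ n ih =>
    intro d f hd hf hn
    by_cases h : ∃ f'', Model G H (d + K) f'' ∧ mm f'' ≤ n
    · obtain ⟨f'', h1, h2⟩ := h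
      obtain ⟨D, f', h3, h4, h5, h6, h7, h8⟩ := ih (d + K) f'' (by omega) h1 h2
      refine ⟨D, f', by omega, ?_, h5, by omega, h7, h8⟩
      push_cast at h4 ⊢
      linarith
    · push Not at h
      refine ⟨d + K, _, le_refl _, ?_, hf.stretch hd hK, ?_, ?_, ?_⟩
      · push_cast
        nlinarith
      · rw [mm_stretch hK]; exact hn
      · intro s c b h1 h2
        simp only [Pz]
        rw [pz_mid h1 h2, pz_mid (by omega) hK]
      · intro f'' h1
        rw [mm_stretch hK]
        have := h f'' h1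
        omega

end

end Mdl
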