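import Pool.Agent.EN.PicJ

/-!
# Nests in series on one page: the fat half plane

Nest number `i`: strands `a (w+1) i < … < a 1 i < b 1 i < … < b (w+1) i`, connectors `J s i`
joining `(a s i, 0)` and `(b s i, 0)`.  The lane of level `s` runs in the row `w + 2 - s` between
the nests.
-/

open Set
open scoped Matroid

namespace EN

open BIC Gad

variable {α V : Type*} {M : Matroid α} {S : Set α} {ends : α → Sym2 V}

/-- Nests in series. -/
structure Nst (S : Set α) (ends : α → Sym2 V) (P : ℕ × ℕ → V) (l r n w N : ℕ)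
    (a b : ℕ → ℕ → ℕ) (J : ℕ → ℕ → Set V) : Prop where
  page : Page S ends P l r n
  dep : w + 2 ≤ n
  la : ∀ i < N, l ≤ a (w + 1) i
  rb : ∀ i < N, b (w + 1) i ≤ r
  am : ∀ i < N, ∀ s, 1 ≤ s → s ≤ w → a (s + 1) i < a s i
  bm : ∀ i < N, ∀ s, 1 ≤ s → s ≤ w → b s i < b (s + 1) i
  ab : ∀ i < N, a 1 i < b 1 i
  ser : ∀ i, i + 1 < N → b (w + 1) i < a (w + 1) (i + 1)
  finJ : ∀ s i, 1 ≤ s → s ≤ w + 1 → i < N → (J s i).Finite
  conJ : ∀ s i, 1 ≤ s → s ≤ w + 1 → i < N → VConn S ends (J s i ∪ {P (a s i, 0), P (b s i, 0)})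
  dJJ : ∀ s i s' i', 1 ≤ s → s ≤ w + 1 → i < N → 1 ≤ s' → s' ≤ w + 1 → i' < N →
    (s, i) ≠ (s', i') → Disjoint (J s i) (J s' i')
  pJ : ∀ s i, 1 ≤ s → s ≤ w + 1 → i < N → ∀ c ∈ Reg l r n, P c ∉ J s i

/-- Coordinates of the post of level `s` at the nest `i`. -/
def tC (w : ℕ) (a b : ℕ → ℕ → ℕ) (s i : ℕ) : Set (ℕ × ℕ) :=
  Vert (a s i) 0 (w + 2 - s) ∪ (Vert (b s i) 0 (w + 2 - s) ∪ HRow (b s i) (b (s + 1) i - 1) 1)

/-- Coordinates of the piece of the lane of level `s` between the nests `i` and `i + 1`. -/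
def lC (w : ℕ) (a b : ℕ → ℕ → ℕ) (s i : ℕ) : Set (ℕ × ℕ) :=
  HRow (b s i + 1) (a s (i + 1) - 1) (w + 2 - s)

section

variable {P : ℕ × ℕ → V} {l r n w N : ℕ} {a b : ℕ → ℕ → ℕ} {J : ℕ → ℕ → Set V}

lemma Nst.aa (h : Nst S ends P l r n w N a b J) {i : ℕ} (hi : i < N) :
    ∀ s s', 1 ≤ s → s < s' → s' ≤ w + 1 → a s' i < a s i := by
  intro s s' h1 h2 h3
  induction s' with
  | zero => omega
  | succ t ih =>
    rcases Nat.lt_or_ge s t with h4 | h4
    · exact (h.am i hi t (by omega) (by omega)).trans (ih h4 (by omega))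
    · have : s = t := by omega
      rw [this]
      exact h.am i hi t (by omega) (by omega)

lemma Nst.bb (h : Nst S ends P l r n w N a b J) {i : ℕ} (hi : i < N) :
    ∀ s s', 1 ≤ s → s < s' → s' ≤ w + 1 → b s i < b s' i := by
  intro s s' h1 h2 h3
  induction s' with
  | zero => omega
  | succ t ih =>
    rcases Nat.lt_or_ge s t with h4 | h4
    · exact (ih h4 (by omega)).trans (h.bm i hi t (by omega) (by omega))
    · have : s = t := by omega
      rw [this]
      exact h.bm i hi t (by omega) (by omega)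

/-- All columns of a nest lie in its hull. -/
lemma Nst.hul (h : Nst S ends P l r n w N a b J) {i s : ℕ} (hi : i < N) (h1 : 1 ≤ s)
    (h2 : s ≤ w + 1) : a (w + 1) i ≤ a s i ∧ a s i ≤ a 1 i ∧ a 1 i < b 1 i ∧ b 1 i ≤ b s i ∧
      b s i ≤ b (w + 1) i := by
  have h3 := h.ab i hi
  have h4 : a (w + 1) i ≤ a s i := by
    rcases Nat.lt_or_ge s (w + 1) with h5 | h5
    · exact (h.aa hi s (w + 1) h1 h5 (le_refl _)).le
    · have : s = w + 1 := by omega
      rw [this]
  have h6 : a s i ≤ a 1 i := by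
    rcases Nat.lt_or_ge 1 s with h5 | h5
    · exact (h.aa hi 1 s (le_refl _) h5 h2).le
    · have : s = 1 := by omega
      rw [this]
  have h7 : b s i ≤ b (w + 1) i := by
    rcases Nat.lt_or_ge s (w + 1) with h5 | h5
    · exact (h.bb hi s (w + 1) h1 h5 (le_refl _)).le
    · have : s = w + 1 := by omega
      rw [this]
  have h8 : b 1 i ≤ b s i := by
    rcases Nat.lt_or_ge 1 s with h5 | h5
    · exact (h.bb hi 1 s (le_refl _) h5 h2).le
    · have : s = 1 := by omega
      rw [this]
  exact ⟨h4, h6, h3, h8, h7⟩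

lemma Nst.ser' (h : Nst S ends P l r n w N a b J) {i j : ℕ} (hij : i < j) (hj : j < N) :
    b (w + 1) i < a (w + 1) j := by
  induction j with
  | zero => omega
  | succ t ih =>
    rcases Nat.lt_or_ge i t with h4 | h4
    · have h5 := ih h4 (by omega)
      have h6 := h.hul (i := t) (s := w + 1) (by omega) (by omega) (le_refl _)
      have h7 := h.ser t hj
      omega
    · have : i = t := by omega
      rw [this]
      exact h.ser t hj

lemma Nst.tC_mem (h : Nst S ends P l r n w N a b J) {s i : ℕ} (hi : i < N) (h1 : 1 ≤ s)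
    (h2 : s ≤ w) {c : ℕ × ℕ} (hc : c ∈ tC w a b s i) :
    ((c.1 = a s i ∨ c.1 = b s i) ∧ c.2 + s ≤ w + 2) ∨
      (b s i ≤ c.1 ∧ c.1 < b (s + 1) i ∧ c.2 = 1) := by
  have h3 := h.bm i hi s h1 h2
  rcases hc with hc | hc | hc
  · rw [mem_Vert] at hc; omega
  · rw [mem_Vert] at hc; omega
  · rw [mem_HRow] at hc; omega

lemma Nst.lC_mem {w : ℕ} {a b : ℕ → ℕ → ℕ} {s i : ℕ} (h2 : s ≤ w) {c : ℕ × ℕ}
    (hc : c ∈ lC w a b s i) : b s i < c.1 ∧ (c.1 < a s (i + 1) ∨ a s (i + 1) = 0) ∧
      c.2 + s = w + 2 := by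
  unfold lC at hc
  rw [mem_HRow] at hc
  omega

lemma Nst.tC_reg (h : Nst S ends P l r n w N a b J) {s i : ℕ} (hi : i < N) (h1 : 1 ≤ s)
    (h2 : s ≤ w) : tC w a b s i ⊆ Reg l r n := by
  intro c hc
  have h3 := h.hul (i := i) (s := s) hi h1 (by omega)
  have h3' := h.hul (i := i) (s := s + 1) hi (by omega) (by omega)
  have h4 := h.la i hi
  have h5 := h.rb i hi
  have h6 := h.dep
  rw [mem_Reg]
  rcases h.tC_mem hi h1 h2 hc with h7 | h7 <;> omega

lemma Nst.lC_reg (h : Nst S ends P l r n w N a b J) {s i : ℕ} (hi : i + 1 < N) (h1 : 1 ≤ s)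
    (h2 : s ≤ w) : lC w a b s i ⊆ Reg l r n := by
  intro c hc
  have h3 := h.hul (i := i) (s := s) (by omega) h1 (by omega)
  have h3' := h.hul (i := i + 1) (s := s) hi h1 (by omega)
  have h4 := h.la i (by omega)
  have h5 := h.rb (i + 1) hi
  have h6 := h.dep
  have h7 := h.ser i hi
  rw [mem_Reg]
  have := Nst.lC_mem h2 hc
  omega

/-- **Nests in series form a fat half plane.** -/
theorem Nst.fat (h : Nst S ends P l r n w N a b J) :
    Fat S ends N w (fun s i => J s i ∪ P '' tC w a b s i) (fun s i => P '' lC w a b s i) := by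
  have hP := h.page
  have hdep := h.dep
  -- connectivity of the two coordinate pieces
  have hcon : ∀ s i, 1 ≤ s → s ≤ w → i < N → VConn S ends (J s i ∪ P '' tC w a b s i) := by
    intro s i h1 h2 hi
    have h3 := h.hul (i := i) (s := s) hi h1 (by omega)
    have h3' := h.hul (i := i) (s := s + 1) hi (by omega) (by omega)
    have h4 := h.la i hi
    have h5 := h.rb i hi
    have h6 := h.bm i hi s h1 h2
    have h7 := blob_jump (P := P) (Q := P) (h.conJ s i h1 (by omega) hi)
      (A := Vert (a s i) 0 (w + 2 - s))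
      (B := Vert (b s i) 0 (w + 2 - s) ∪ HRow (b s i) (b (s + 1) i - 1) 1)
      (vm (by omega) (by omega)) (Or.inl (vm (by omega) (by omega)))
      (hP.vconn_ver (by omega) (by omega) (by omega))
      (hP.strand_row (by omega) (by omega) (by omega) (by omega) (by omega) (by omega) (by omega)
        (by omega) (by omega) (by omega))
    refine vconn_congr h7 (fun v => ?_)
    rw [mem_blob]
    constructor
    · rintro (h8 | h8 | ⟨c, hc, _⟩)
      · exact Or.inl h8
      · exact Or.inr h8
      · exact absurd hc (by simp)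
    · rintro (h8 | h8)
      · exact Or.inl h8
      · exact Or.inr (Or.inl h8)
  have hmt : ∀ s i c, c ∈ Vert (a s i) 0 (w + 2 - s) → c ∈ tC w a b s i := fun s i c hc =>
    Or.inl hc
  have hmt' : ∀ s i c, c ∈ Vert (b s i) 0 (w + 2 - s) → c ∈ tC w a b s i := fun s i c hc =>
    Or.inr (Or.inl hc)
  refine ⟨?_, ?_, ?_, hcon, ?_, ?_, ?_, ?_, ?_, ?_, ?_, ?_⟩
  · intro s i h1 h2 hi
    exact (h.finJ s i h1 (by omega) hi).union (((reg_finite _ _ _).subset
      (h.tC_reg hi h1 h2)).image _)
  · intro s i h1 h2 hi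
    exact ((reg_finite _ _ _).subset (h.lC_reg hi h1 h2)).image _
  · intro s i h1 h2 hi
    exact ⟨_, Or.inr ⟨_, hmt s i _ (vm (le_refl 0) (by omega)), rfl⟩⟩
  · intro s i h1 h2 hi
    have h3 := h.hul (i := i) (s := s) (by omega) h1 (by omega)
    have h3' := h.hul (i := i + 1) (s := s) hi h1 (by omega)
    have h4 := h.la i (by omega)
    have h5 := h.rb (i + 1) hi
    have h6 := h.ser i hi
    have h7 := vc_union (hcon s i h1 h2 (by omega))
      (hP.vconn_hor (x₁ := b s i) (x₂ := a s (i + 1) - 1) (b := w + 2 - s) (by omega) (by omega)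
        (by omega) (by omega)) (c := P (b s i, w + 2 - s))
      (Or.inr ⟨_, hmt' s i _ (vm (by omega) (by omega)), rfl⟩) ⟨_, hm (by omega) (by omega), rfl⟩
    refine vconn_congr h7 (fun v => ?_)
    constructor
    · rintro (h8 | ⟨c, hc, rfl⟩)
      · exact Or.inl h8
      · rw [mem_HRow] at hc
        rcases Nat.lt_or_ge (b s i) c.1 with h9 | h9
        · exact Or.inr ⟨c, by unfold lC; rw [mem_HRow]; omega, rfl⟩
        · exact Or.inl (Or.inr ⟨c, hmt' s i _ (by rw [mem_Vert]; omega), rfl⟩)
    · rintro (h8 | ⟨c, hc, rfl⟩)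
      · exact Or.inl h8
      · unfold lC at hc
        rw [mem_HRow] at hc
        exact Or.inr ⟨c, by rw [mem_HRow]; omega, rfl⟩
  · intro s i h1 h2 hi
    have h3 := h.hul (i := i) (s := s) (by omega) h1 (by omega)
    have h3' := h.hul (i := i + 1) (s := s) hi h1 (by omega)
    have h4 := h.la i (by omega)
    have h5 := h.rb (i + 1) hi
    have h6 := h.ser i hi
    have h7 := vc_union (hP.vconn_hor (x₁ := b s i + 1) (x₂ := a s (i + 1)) (b := w + 2 - s)
      (by omega) (by omega) (by omega) (by omega)) (hcon s (i + 1) h1 h2 hi)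
      (c := P (a s (i + 1), w + 2 - s)) ⟨_, hm (by omega) (by omega), rfl⟩
      (Or.inr ⟨_, hmt s (i + 1) _ (vm (by omega) (by omega)), rfl⟩)
    refine vconn_congr h7 (fun v => ?_)
    constructor
    · rintro (⟨c, hc, rfl⟩ | h8)
      · rw [mem_HRow] at hc
        rcases Nat.lt_or_ge c.1 (a s (i + 1)) with h9 | h9
        · exact Or.inl ⟨c, by unfold lC; rw [mem_HRow]; omega, rfl⟩
        · exact Or.inr (Or.inr ⟨c, hmt s (i + 1) _ (by rw [mem_Vert]; omega), rfl⟩)
      · exact Or.inr h8
    · rintro (⟨c, hc, rfl⟩ | h8)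
      · unfold lC at hc
        rw [mem_HRow] at hc
        exact Or.inl ⟨c, by rw [mem_HRow]; omega, rfl⟩
      · exact Or.inr h8
  · intro s i h1 h2 hi
    have h3 := h.hul (i := i) (s := s) (by omega) h1 (by omega)
    have h3' := h.hul (i := i + 1) (s := s) hi h1 (by omega)
    have h4 := h.la i (by omega)
    have h5 := h.rb (i + 1) hi
    have h6 := h.ser i hi
    obtain ⟨e, he, hee⟩ := hP.hor (b s i) (w + 2 - s) (by omega) (by omega) (by omega) (by omega)
    refine ⟨e, he, _, Or.inr ⟨_, hmt' s i _ (vm (by omega) (by omega)), rfl⟩,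
      P (b s i + 1, w + 2 - s), ?_, hee⟩
    rcases Nat.lt_or_ge (b s i + 1) (a s (i + 1)) with h7 | h7
    · exact Or.inl ⟨_, by unfold lC; exact hm (by omega) (by omega), rfl⟩
    · have h8 : b s i + 1 = a s (i + 1) := by omega
      rw [h8]
      exact Or.inr (Or.inr ⟨_, hmt s (i + 1) _ (vm (by omega) (by omega)), rfl⟩)
  · intro s i h1 h2 hi
    have h3 := h.hul (i := i) (s := s) (by omega) h1 (by omega)
    have h3' := h.hul (i := i + 1) (s := s) hi h1 (by omega)
    have h4 := h.la i (by omega)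
    have h5 := h.rb (i + 1) hi
    have h6 := h.ser i hi
    obtain ⟨e, he, hee⟩ := hP.hor (a s (i + 1) - 1) (w + 2 - s) (by omega) (by omega) (by omega)
      (by omega)
    rw [Nat.sub_add_cancel (by omega)] at hee
    refine ⟨e, he, P (a s (i + 1) - 1, w + 2 - s), ?_, _,
      Or.inr ⟨_, hmt s (i + 1) _ (vm (by omega) (by omega)), rfl⟩, hee⟩
    rcases Nat.lt_or_ge (b s i) (a s (i + 1) - 1) with h7 | h7
    · exact Or.inr ⟨_, by unfold lC; exact hm (by omega) (by omega), rfl⟩
    · have h8 : a s (i + 1) - 1 = b s i := by omega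
      rw [h8]
      exact Or.inl (Or.inr ⟨_, hmt' s i _ (vm (by omega) (by omega)), rfl⟩)
  · intro s i h1 h2 hi
    have h3 := h.hul (i := i) (s := s) (by omega) h1 (by omega)
    have h3' := h.hul (i := i) (s := s + 1) (by omega) (by omega) (by omega)
    have h4 := h.la i (by omega)
    have h5 := h.rb i hi
    have h6 := h.bm i hi s h1 (by omega)
    obtain ⟨e, he, hee⟩ := hP.hor (b (s + 1) i - 1) 1 (by omega) (by omega) (by omega)
      (by omega)
    rw [Nat.sub_add_cancel (by omega)] at hee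
    refine ⟨e, he, _, Or.inr ⟨_, Or.inr (Or.inr (hm (by omega) (by omega))), rfl⟩, _,
      Or.inr ⟨_, hmt' (s + 1) i _ (vm (by omega) (by omega)), rfl⟩, hee⟩
  · intro s i s' i' h1 h2 h3 h1' h2' h3' hne
    rw [Set.disjoint_left]
    rintro v (hv | ⟨c, hc, rfl⟩) (hv' | ⟨c', hc', h'⟩)
    · exact Set.disjoint_left.1 (h.dJJ s i s' i' h1 (by omega) h3 h1' (by omega) h3' hne) hv hv'
    · rw [← h'] at hv
      exact h.pJ s i h1 (by omega) h3 c' (h.tC_reg h3' h1' h2' hc') hv
    · exact h.pJ s' i' h1' (by omega) h3' c (h.tC_reg h3 h1 h2 hc) hv'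
    · have g1 := h.tC_reg h3 h1 h2 hc
      have g2 := h.tC_reg h3' h1' h2' hc'
      have g3 := hP.inj c' c g2.1 g2.2.1 g2.2.2 g1.1 g1.2.1 g1.2.2 h'
      rw [g3] at hc'
      have k1 := h.tC_mem h3 h1 h2 hc
      have k2 := h.tC_mem h3' h1' h2' hc'
      have k3 := h.hul (i := i) (s := s) h3 h1 (by omega)
      have k3' := h.hul (i := i) (s := s + 1) h3 (by omega) (by omega)
      have k4 := h.hul (i := i') (s := s') h3' h1' (by omega)
      have k4' := h.hul (i := i') (s := s' + 1) h3' (by omega) (by omega)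
      rcases Nat.lt_trichotomy i i' with h7 | h7 | h7
      · have := h.ser' h7 h3'
        rcases k1 with k1 | k1 <;> rcases k2 with k2 | k2 <;> omega
      · subst h7
        have h8 : s ≠ s' := fun h8 => hne (by rw [h8])
        rcases Nat.lt_or_gt_of_ne h8 with h9 | h9
        · have m1 := h.aa h3 s s' h1 h9 (by omega)
          have m2 := h.bb h3 s s' h1 h9 (by omega)
          have m3 : b (s + 1) i ≤ b s' i := by
            rcases Nat.lt_or_ge (s + 1) s' with h10 | h10
            · exact (h.bb h3 (s + 1) s' (by omega) h10 (by omega)).le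
            · have : s + 1 = s' := by omega
              rw [this]
          rcases k1 with k1 | k1 <;> rcases k2 with k2 | k2 <;> omega
        · have m1 := h.aa h3 s' s h1' h9 (by omega)
          have m2 := h.bb h3 s' s h1' h9 (by omega)
          have m3 : b (s' + 1) i ≤ b s i := by
            rcases Nat.lt_or_ge (s' + 1) s with h10 | h10
            · exact (h.bb h3 (s' + 1) s (by omega) h10 (by omega)).le
            · have : s' + 1 = s := by omega
              rw [this]
          rcases k1 with k1 | k1 <;> rcases k2 with k2 | k2 <;> omega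
      · have := h.ser' h7 h3
        rcases k1 with k1 | k1 <;> rcases k2 with k2 | k2 <;> omega
  · intro s i s' i' h1 h2 h3 h1' h2' h3'
    rw [Set.disjoint_left]
    rintro v (hv | ⟨c, hc, rfl⟩) ⟨c', hc', h'⟩
    · rw [← h'] at hv
      exact h.pJ s i h1 (by omega) h3 c' (h.lC_reg h3' h1' h2' hc') hv
    · have g1 := h.tC_reg h3 h1 h2 hc
      have g2 := h.lC_reg h3' h1' h2' hc'
      have g3 := hP.inj c' c g2.1 g2.2.1 g2.2.2 g1.1 g1.2.1 g1.2.2 h'
      rw [g3] at hc'
      have k1 := h.tC_mem h3 h1 h2 hc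
      have k2 := Nst.lC_mem h2' hc'
      have k3 := h.hul (i := i) (s := s) h3 h1 (by omega)
      have k3' := h.hul (i := i) (s := s + 1) h3 (by omega) (by omega)
      have k4 := h.hul (i := i') (s := s') (by omega) h1' (by omega)
      have k5 := h.hul (i := i' + 1) (s := s') h3' h1' (by omega)
      have k6 := h.ser i' h3'
      rcases Nat.lt_trichotomy i i' with h7 | h7 | h7
      · have := h.ser' h7 (by omega : i' < N)
        rcases k1 with k1 | k1 <;> omega
      · subst h7
        rcases Nat.lt_trichotomy s s' with h8 | h8 | h8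
        · have m1 := h.aa h3 s s' h1 h8 (by omega)
          have m2 := h.bb h3 s s' h1 h8 (by omega)
          have m3 : b (s + 1) i ≤ b s' i := by
            rcases Nat.lt_or_ge (s + 1) s' with h10 | h10
            · exact (h.bb h3 (s + 1) s' (by omega) h10 (by omega)).le
            · have : s + 1 = s' := by omega
              rw [this]
          rcases k1 with k1 | k1 <;> omega
        · subst h8
          rcases k1 with k1 | k1 <;> omega
        · rcases k1 with k1 | k1 <;> omega
      · rcases Nat.lt_or_ge (i' + 1) i with h9 | h9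
        · have := h.ser' h9 h3
          rcases k1 with k1 | k1 <;> omega
        · have h10 : i = i' + 1 := by omega
          subst h10
          rcases Nat.lt_trichotomy s s' with h8 | h8 | h8
          · have m1 := h.aa h3 s s' h1 h8 (by omega)
            rcases k1 with k1 | k1 <;> omega
          · subst h8
            rcases k1 with k1 | k1 <;> omega
          · rcases k1 with k1 | k1 <;> omega
  · intro s i s' i' h1 h2 h3 h1' h2' h3' hne
    refine hP.disj (h.lC_reg h3 h1 h2) (h.lC_reg h3' h1' h2') (fun c hc hc' => ?_)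
    have k1 := Nst.lC_mem h2 hc
    have k2 := Nst.lC_mem h2' hc'
    have h8 : s = s' := by omega
    subst h8
    have h9 : i ≠ i' := fun h9 => hne (by rw [h9])
    have k3 := h.hul (i := i) (s := s) (by omega) h1 (by omega)
    have k3' := h.hul (i := i + 1) (s := s) h3 h1 (by omega)
    have k4 := h.hul (i := i') (s := s) (by omega) h1 (by omega)
    have k4' := h.hul (i := i' + 1) (s := s) h3' h1 (by omega)
    have k5 := h.ser i h3
    have k6 := h.ser i' h3'
    rcases Nat.lt_or_gt_of_ne h9 with h7 | h7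
    · rcases Nat.lt_or_ge (i + 1) i' with h10 | h10
      · have := h.ser' h10 (by omega : i' < N)
        omega
      · have : i' = i + 1 := by omega
        subst this
        omega
    · rcases Nat.lt_or_ge (i' + 1) i with h10 | h10
      · have := h.ser' h10 (by omega : i < N)
        omega
      · have : i = i' + 1 := by omega
        subst this
        omega

end

end EN
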