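import Pool.Agent.EN.GlueS

/-!
Numbering of the ports of all shores on one line (T-star): sheets `i < w` with `n i` columns, the
shore `(i, e)` has the number `2 i + e`.
-/

set_option autoImplicit false

open Finset EN.Walk EN.Sweep
open scoped Classical

namespace EN.Num

variable (n : ℕ → ℕ) (w : ℕ)

/-- the first column of a sheet -/
def off (i : ℕ) : ℕ := ∑ j ∈ range i, n j

/-- the sheet of a column -/
noncomputable def cs (x : ℕ) : ℕ := Nat.findGreatest (fun i => off n i ≤ x) w

/-- the sheet of a port -/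
noncomputable def st (x : ℕ) : ℕ := cs n w (x / 2)

/-- the side of a port -/
noncomputable def sd (x : ℕ) : Bool := decide (2 * off n (st n w x) + n (st n w x) ≤ x)

/-- the number of a port in its shore -/
noncomputable def ix (x : ℕ) : ℕ :=
  x - 2 * off n (st n w x) - (if sd n w x = true then n (st n w x) else 0)

/-- the shore of a port -/
noncomputable def sh (x : ℕ) : ℕ := 2 * st n w x + (if sd n w x = true then 1 else 0)

/-- the port -/
def pt (i : ℕ) (e : Bool) (p : ℕ) : ℕ := 2 * off n i + (if e = true then n i else 0) + p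

variable {n w}

theorem off_succ (i : ℕ) : off n (i + 1) = off n i + n i := sum_range_succ _ _

theorem off_mono {i j : ℕ} (h : i ≤ j) : off n i ≤ off n j := by
  induction h with
  | refl => exact le_refl _
  | step _ ih => rw [off_succ]; omega

theorem cs_mono {x y : ℕ} (h : x ≤ y) : cs n w x ≤ cs n w y :=
  Nat.findGreatest_mono_left (fun _ hi => le_trans hi h) w

theorem cs_spec {x : ℕ} (hx : x < off n w) : cs n w x < w ∧ off n (cs n w x) ≤ x ∧
    x < off n (cs n w x) + n (cs n w x) := by
  have h0 : off n 0 ≤ x := by simp [off]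
  have h1 : off n (cs n w x) ≤ x := Nat.findGreatest_spec (P := fun i => off n i ≤ x)
    (Nat.zero_le w) h0
  have h2 : cs n w x ≤ w := Nat.findGreatest_le _
  have h3 : cs n w x < w := by
    rcases Nat.lt_or_ge (cs n w x) w with h | h
    · exact h
    · have e : cs n w x = w := le_antisymm h2 h
      rw [e] at h1
      omega
  refine ⟨h3, h1, ?_⟩
  by_contra h
  rw [← off_succ] at h
  have h4 := Nat.le_findGreatest (P := fun i => off n i ≤ x) (n := w) (m := cs n w x + 1)
    (by omega) (by omega)
  have h5 : cs n w x + 1 ≤ cs n w x := h4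
  omega

theorem cs_eq {i x : ℕ} (hi : i < w) (h1 : off n i ≤ x) (h2 : x < off n i + n i) :
    cs n w x = i := by
  have hx : x < off n w := lt_of_lt_of_le (by rw [← off_succ] at h2; exact h2)
    (off_mono (Nat.succ_le_of_lt hi))
  obtain ⟨h3, h4, h5⟩ := cs_spec hx
  rcases lt_trichotomy (cs n w x) i with h | h | h
  · have := off_mono (n := n) (Nat.succ_le_of_lt h)
    rw [Nat.succ_eq_add_one, off_succ] at this
    omega
  · exact h
  · have := off_mono (n := n) (Nat.succ_le_of_lt h)
    rw [Nat.succ_eq_add_one, off_succ] at this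
    omega

theorem pt_spec {i p : ℕ} {e : Bool} (hi : i < w) (hp : p < n i) :
    pt n i e p < 2 * off n w ∧ st n w (pt n i e p) = i ∧ sd n w (pt n i e p) = e ∧
      ix n w (pt n i e p) = p := by
  have h0 : off n i + n i ≤ off n w := by
    rw [← off_succ]
    exact off_mono (Nat.succ_le_of_lt hi)
  have h1 : st n w (pt n i e p) = i := by
    apply cs_eq hi <;> unfold pt <;> split_ifs <;> omega
  have h2 : sd n w (pt n i e p) = e := by
    unfold sd
    rw [h1]
    unfold pt
    rcases e with _ | _
    · simp only [Bool.false_eq_true, if_false]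
      rw [decide_eq_false_iff_not]
      omega
    · simp only [if_true]
      rw [decide_eq_true_iff]
      omega
  refine ⟨?_, h1, h2, ?_⟩
  · unfold pt
    split_ifs <;> omega
  · unfold ix
    rw [h1, h2]
    unfold pt
    split_ifs <;> omega

theorem ix_spec {x : ℕ} (hx : x < 2 * off n w) : st n w x < w ∧ ix n w x < n (st n w x) ∧
    x = pt n (st n w x) (sd n w x) (ix n w x) := by
  have h0 : x / 2 < off n w := by omega
  obtain ⟨h1, h2, h3⟩ := cs_spec h0
  have h2' : off n (st n w x) ≤ x / 2 := h2
  have h3' : x / 2 < off n (st n w x) + n (st n w x) := h3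
  refine ⟨h1, ?_, ?_⟩
  · unfold ix
    by_cases h : sd n w x = true
    · rw [if_pos h]
      omega
    · rw [if_neg h]
      unfold sd at h
      rw [decide_eq_true_iff] at h
      omega
  · unfold ix pt
    by_cases h : sd n w x = true
    · rw [if_pos h]
      unfold sd at h
      rw [decide_eq_true_iff] at h
      omega
    · rw [if_neg h]
      omega

theorem sh_eq {x y : ℕ} (h : sh n w x = sh n w y) : st n w x = st n w y ∧ sd n w x = sd n w y := by
  unfold sh at h
  rcases h1 : sd n w x with _ | _ <;> rcases h2 : sd n w y with _ | _ <;> rw [h1, h2] at h <;>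
    simp only [Bool.false_eq_true, if_false, if_true] at h <;>
    first
    | exact ⟨by omega, rfl⟩
    | (exfalso; omega)

theorem sh_of {x y : ℕ} (h1 : st n w x = st n w y) (h2 : sd n w x = sd n w y) :
    sh n w x = sh n w y := by
  unfold sh
  rw [h1, h2]

theorem sh_lt {x : ℕ} (hx : x < 2 * off n w) : sh n w x < 2 * w := by
  have h1 := (ix_spec hx).1
  unfold sh
  split_ifs <;> omega

theorem sh_mono {x y : ℕ} (h : x ≤ y) : sh n w x ≤ sh n w y := by
  have h1 : st n w x ≤ st n w y := cs_mono (by omega)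
  unfold sh
  rcases Nat.eq_or_lt_of_le h1 with h2 | h2
  · rw [← h2]
    by_cases h3 : sd n w x = true
    · have h4 : sd n w y = true := by
        unfold sd at h3 ⊢
        rw [decide_eq_true_iff] at h3 ⊢
        rw [← h2]
        omega
      rw [if_pos h3, if_pos h4]
    · rw [if_neg h3]
      omega
  · split_ifs <;> omega

theorem step {x : ℕ} (hx : x + 1 < 2 * off n w) (h : sh n w x = sh n w (x + 1)) :
    st n w (x + 1) = st n w x ∧ sd n w (x + 1) = sd n w x ∧ ix n w (x + 1) = ix n w x + 1 := by
  obtain ⟨h1, h2⟩ := sh_eq h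
  refine ⟨h1.symm, h2.symm, ?_⟩
  have h3 := (ix_spec (n := n) (w := w) (x := x) (by omega)).2.2
  have h4 := (ix_spec hx).2.2
  rw [← h1, ← h2] at h4
  unfold pt at h3 h4
  omega

theorem lt_iff {x y : ℕ} (hx : x < 2 * off n w) (hy : y < 2 * off n w)
    (h : sh n w x = sh n w y) : x < y ↔ ix n w x < ix n w y := by
  obtain ⟨h1, h2⟩ := sh_eq h
  have h3 := (ix_spec hx).2.2
  have h4 := (ix_spec hy).2.2
  rw [← h1, ← h2] at h4
  unfold pt at h3 h4
  omega

variable (n w)

/-- the system of ports -/
noncomputable def sys {κ : Type*} (own : ℕ → Bool → ℕ → κ) (ct : κ → κ → Prop) (gr : κ → Prop) :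
    EN.Sys κ where
  L := 2 * off n w
  R := 2 * w
  sh := sh n w
  own := fun x => own (st n w x) (sd n w x) (ix n w x)
  ct := ct
  gr := gr

/-- the position of the port of a column -/
noncomputable def pos (p : Pt (off n w)) : ℕ :=
  pt n (cs n w p.1.val) p.2 (p.1.val - off n (cs n w p.1.val))

variable {n w}

theorem pos_spec (p : Pt (off n w)) : pos n w p < 2 * off n w ∧ st n w (pos n w p) = cs n w p.1.val ∧
    sd n w (pos n w p) = p.2 ∧ ix n w (pos n w p) = p.1.val - off n (cs n w p.1.val) := by
  obtain ⟨h1, h2, h3⟩ := cs_spec (n := n) (w := w) p.1.2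
  exact pt_spec h1 (by omega)

/-- the column of a port -/
theorem exists_pos {i p : ℕ} (e : Bool) (hi : i < w) (hp : p < n i) :
    ∃ q : Pt (off n w), q.1.val = off n i + p ∧ q.2 = e ∧ pos n w q = pt n i e p ∧
      pos n w (flp q) = pt n i (!e) p := by
  have h0 : off n i + n i ≤ off n w := by
    rw [← off_succ]
    exact off_mono (Nat.succ_le_of_lt hi)
  have h1 : cs n w (off n i + p) = i := cs_eq hi (by omega) (by omega)
  refine ⟨(⟨off n i + p, by omega⟩, e), rfl, rfl, ?_, ?_⟩
  · unfold pos
    simp only [h1]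
    congr 1
    omega
  · unfold pos flp
    simp only [h1]
    congr 1
    omega

theorem pos_inj : Function.Injective (pos n w) := by
  intro p q h
  obtain ⟨-, h2, h3, h4⟩ := pos_spec p
  obtain ⟨-, h6, h7, h8⟩ := pos_spec q
  rw [h] at h2 h3 h4
  have e1 : cs n w p.1.val = cs n w q.1.val := h2.symm.trans h6
  have e2 : p.2 = q.2 := h3.symm.trans h7
  have e3 := h4.symm.trans h8
  have c1 := cs_spec (n := n) (w := w) p.1.2
  have c2 := cs_spec (n := n) (w := w) q.1.2
  rw [e1] at e3 c1
  exact Prod.ext (Fin.ext (by omega)) e2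

theorem pos_surj {x : ℕ} (hx : x < 2 * off n w) : ∃ p, pos n w p = x := by
  obtain ⟨h1, h2, h3⟩ := ix_spec hx
  obtain ⟨q, -, -, h4, -⟩ := exists_pos (sd n w x) h1 h2
  exact ⟨q, h4.trans h3.symm⟩

theorem place {κ : Type*} (own : ℕ → Bool → ℕ → κ) (ct : κ → κ → Prop) (gr : κ → Prop) :
    EN.GlueS.Place (sys n w own ct gr) (pos n w) (4 * w) where
  inj := pos_inj
  lt := fun p => (pos_spec p).1
  surj := fun _ hx => pos_surj hx
  nb := by
    intro p p' h1 h2
    obtain ⟨e1, e2⟩ := sh_eq (n := n) (w := w) h2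
    obtain ⟨-, a2, a3, -⟩ := pos_spec p
    obtain ⟨-, b2, b3, -⟩ := pos_spec p'
    have c1 := cs_spec (n := n) (w := w) p.1.2
    have c2 := cs_spec (n := n) (w := w) p'.1.2
    have e3 : cs n w p'.1.val = cs n w p.1.val := by rw [← a2, ← b2, e1]
    rw [e3] at c2
    obtain ⟨h3, h4⟩ := h1
    unfold pos pt
    rw [e3, ← h3]
    rcases h4 with h4 | h4 <;> omega
  nb' := by
    intro p p' h1 h2
    obtain ⟨e1, e2⟩ := sh_eq (n := n) (w := w) h2
    obtain ⟨-, a2, a3, -⟩ := pos_spec p
    obtain ⟨-, b2, b3, -⟩ := pos_spec p'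
    have c1 := cs_spec (n := n) (w := w) p.1.2
    have c2 := cs_spec (n := n) (w := w) p'.1.2
    have e3 : cs n w p'.1.val = cs n w p.1.val := by rw [← a2, ← b2, e1]
    have e4 : p.2 = p'.2 := by rw [← a3, ← b3, e2]
    rw [e3] at c2
    unfold pos pt at h1
    rw [e3, ← e4] at h1
    exact ⟨e4, Or.inl (by omega)⟩
  brk := by
    have h1 : ((range w ×ˢ (univ : Finset Bool)) ×ˢ (univ : Finset Bool)).card = 4 * w := by
      rw [card_product, card_product, card_range, card_univ, Fintype.card_bool]
      ring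
    rw [← h1]
    refine card_le_card_of_injOn (fun x => ((cs n w (min x.1.1.val x.2.1.val), x.1.2),
      decide (x.1.1.val < x.2.1.val))) ?_ ?_
    · intro x _
      simp only [coe_product, Set.mem_prod, mem_coe, mem_range, mem_univ, and_true]
      refine (cs_spec ?_).1
      exact lt_of_le_of_lt (min_le_left _ _) x.1.1.2
    · rintro ⟨⟨⟨a, ha⟩, s⟩, ⟨⟨b, hb⟩, t⟩⟩ h2 ⟨⟨⟨a', ha'⟩, s'⟩, ⟨⟨b', hb'⟩, t'⟩⟩ h3 h4
      have h2' := (mem_filter.1 (mem_coe.1 h2)).2
      have h3' := (mem_filter.1 (mem_coe.1 h3)).2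
      simp only [Nb] at h2' h3'
      simp only [Prod.mk.injEq, decide_eq_decide] at h4
      obtain ⟨⟨e1, e2⟩, e3⟩ := h4
      obtain ⟨⟨e0, h5⟩, h6⟩ := h2'
      obtain ⟨⟨e0', h7⟩, h8⟩ := h3'
      subst e0 e0' e2
      -- jumps
      have key : ∀ c d : ℕ, ∀ hc : c < off n w, ∀ hd : d < off n w, c + 1 = d ∨ d + 1 = c →
          ¬ sh n w (pos n w (⟨c, hc⟩, s)) = sh n w (pos n w (⟨d, hd⟩, s)) →
          cs n w (min c d) < cs n w (min c d + 1) ∧ min c d + 1 = max c d := by
        intro c d hc hd h9 h10
        have h11 : min c d + 1 = max c d := by omega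
        refine ⟨?_, h11⟩
        refine lt_of_le_of_ne (cs_mono (by omega)) ?_
        intro h12
        apply h10
        obtain ⟨-, a2, a3, -⟩ := pos_spec (n := n) (w := w) (⟨c, hc⟩, s)
        obtain ⟨-, b2, b3, -⟩ := pos_spec (n := n) (w := w) (⟨d, hd⟩, s)
        refine sh_of ?_ (a3.trans b3.symm)
        rw [a2, b2]
        show cs n w c = cs n w d
        rw [h11] at h12
        rcases h9 with h9 | h9
        · rw [min_eq_left (by omega), max_eq_right (by omega)] at h12
          exact h12
        · rw [min_eq_right (by omega), max_eq_left (by omega)] at h12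
          exact h12.symm
      obtain ⟨k1, k2⟩ := key a b ha hb h5 h6
      obtain ⟨k3, k4⟩ := key a' b' ha' hb' h7 h8
      have e4 : min a b = min a' b' := by
        rcases lt_trichotomy (min a b) (min a' b') with h | h | h
        · have := cs_mono (n := n) (w := w) (Nat.succ_le_of_lt h)
          rw [Nat.succ_eq_add_one] at this
          omega
        · exact h
        · have := cs_mono (n := n) (w := w) (Nat.succ_le_of_lt h)
          rw [Nat.succ_eq_add_one] at this
          omega
      have e5 : a = a' := by omega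
      have e6 : b = b' := by omega
      subst e5 e6
      rfl

end EN.Num
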