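import Pool.Agent.EN.PatDefs
import Pool.Agent.EN.Final
import Pool.Agent.EN.CoreJ

/-!
# Row C7 of T-star: a wall in the host gives a pattern, or many floating rectangles
-/

set_option autoImplicit false

open Set BIC Relation
open scoped Matroid

namespace TSK

universe u

open Mdl Mdj EN Gad EN.Wall EN.Mrg EN.Inst

section

variable {α : Type u} {V σ : Type} {M' : Matroid α} {S Sf : Set α} {ends : α → Sym2 (HV V σ)}
  {H : Host V σ} {N D K : ℤ}

/-- The vertices of the host of depth `D`. -/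
def RZ (H : Host V σ) (D : ℤ) : HV V σ → Prop
  | Sum.inl _ => True
  | Sum.inr (s, c, b) => c < H.len s ∧ -D ≤ b ∧ b ≤ D

lemma nz_shf (hDN : D ≤ N) {v : HV V σ} (hv : NZ H D v) : NZ H N (shf (N - D) v) := by
  rcases v with v | ⟨s, c, b⟩
  · trivial
  · obtain ⟨h1, h2, h3, h4⟩ := hv
    show NZ H N (Sum.inr (s, c, if 0 < b then b + (N - D) else b - (N - D)))
    split_ifs with hb
    · exact ⟨h1, by omega, by omega, by omega⟩
    · exact ⟨h1, by omega, by omega, by omega⟩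

lemma pz_shf {k : ℤ} (hk : 0 ≤ k) {v : HV V σ} (hv : NZ H D v) : Pz k (shf k v) = v := by
  rcases v with v | ⟨s, c, b⟩
  · rfl
  · obtain ⟨_, _, _, hb⟩ := hv
    show (Sum.inr (s, c, pz k (if 0 < b then b + k else b - k)) : HV V σ) = Sum.inr (s, c, b)
    congr 3
    split_ifs with h1
    · exact pz_pos hk h1.le
    · exact pz_neg hk (by omega)

lemma gadj_mono (hS : S ⊆ Sf) {u v : HV V σ} (h : GAdj S ends u v) : GAdj Sf ends u v := by
  obtain ⟨e, he, h1⟩ := h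
  exact ⟨e, hS he, h1⟩

lemma vconn_mono (hS : S ⊆ Sf) {A : Set (HV V σ)} (h : VConn S ends A) : VConn Sf ends A := by
  intro u hu v hv
  have h1 := h u hu v hv
  clear hv
  induction h1 with
  | refl => exact ReflTransGen.refl
  | tail _ h3 ih => exact ih.tail ⟨gadj_mono hS h3.1, h3.2⟩

/-- The window `0` of a column is a connected set `{b = 0} ∪ {N < b ≤ N + m}` of vertices. -/
def Mid (N : ℤ) (s : σ) (c m : ℕ) : Set (HV V σ) :=
  {v | ∃ b : ℤ, v = Sum.inr (s, c, b) ∧ (b = 0 ∨ (N < b ∧ b ≤ N + m))}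

/-- Columns through the window `0`. -/
def Col0 (Sf : Set α) (ends : α → Sym2 (HV V σ)) (H : Host V σ) (N : ℤ) : Prop :=
  ∀ s c, c < H.len s → ∃ m : ℕ, VConn Sf ends (Mid N s c m) ∧
    Lnk Sf ends {Sum.inr (s, c, -1)} (Mid N s c m) ∧ Lnk Sf ends (Mid N s c m) {Sum.inr (s, c, 1)}

lemma mid_finite {s : σ} {c m : ℕ} : (Mid (V := V) N s c m).Finite := by
  refine ((Set.finite_Icc (0 : ℤ) (max 0 (N + m))).image (fun b : ℤ =>
    (Sum.inr (s, c, b) : HV V σ))).union ((Set.finite_Icc (N + 1) (N + m)).image (fun b : ℤ =>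
    (Sum.inr (s, c, b) : HV V σ))) |>.subset ?_
  rintro v ⟨b, rfl, h | ⟨h1, h2⟩⟩
  · exact Or.inl ⟨b, ⟨by omega, by omega⟩, rfl⟩
  · exact Or.inr ⟨b, ⟨by omega, by omega⟩, rfl⟩

/-- the fibre of a vertex of the host -/
def Fb (N : ℤ) (m : σ → ℕ → ℕ) : HV V σ → Set (HV V σ)
  | Sum.inl v => {Sum.inl v}
  | Sum.inr (s, c, b) => {v | (b ≠ 0 ∧ v = Sum.inr (s, c, b)) ∨ (b = 0 ∧ v ∈ Mid N s c (m s c))}

lemma fb_nz {m : σ → ℕ → ℕ} {u : HV V σ} (hu : NZ H N u) : Fb N m u = {u} := by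
  rcases u with u | ⟨s, c, b⟩
  · rfl
  · obtain ⟨_, _, _, hb⟩ := hu
    ext v
    constructor
    · rintro (⟨_, h⟩ | ⟨h, _⟩)
      · exact h
      · exact absurd h hb
    · intro h
      exact Or.inl ⟨hb, h⟩

lemma fb_zero {m : σ → ℕ → ℕ} {s : σ} {c : ℕ} :
    Fb N m (Sum.inr (s, c, 0) : HV V σ) = Mid N s c (m s c) := by
  ext v
  constructor
  · rintro (⟨h, _⟩ | ⟨_, h⟩)
    · exact absurd rfl h
    · exact h
  · intro h
    exact Or.inr ⟨rfl, h⟩

lemma fb_finite {m : σ → ℕ → ℕ} (u : HV V σ) : (Fb N m u).Finite := by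
  rcases u with u | ⟨s, c, b⟩
  · exact Set.finite_singleton _
  · by_cases hb : b = 0
    · subst hb
      rw [fb_zero]
      exact mid_finite
    · refine (Set.finite_singleton (Sum.inr (s, c, b) : HV V σ)).subset ?_
      rintro v (⟨_, h⟩ | ⟨h, _⟩)
      · exact h
      · exact absurd h hb

/-- the base point of a vertex -/
def rho (N : ℤ) : HV V σ → HV V σ
  | Sum.inl v => Sum.inl v
  | Sum.inr (s, c, b) => if N < b then Sum.inr (s, c, 0) else Sum.inr (s, c, b)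

lemma rho_fb {m : σ → ℕ → ℕ} {u v : HV V σ} (hN : 0 ≤ N) (hu : RZ H N u) (hv : v ∈ Fb N m u) :
    rho N v = u := by
  rcases u with u | ⟨s, c, b⟩
  · rw [show v = Sum.inl u from hv]
    rfl
  · obtain ⟨_, _, hb⟩ := hu
    rcases hv with ⟨_, rfl⟩ | ⟨h1, b', rfl, h2 | h2⟩
    · show (if N < b then _ else _) = _
      rw [if_neg (by omega)]
    · subst h1 h2
      show (if N < 0 then _ else _) = _
      rw [if_neg (by omega)]
    · subst h1
      show (if N < b' then _ else _) = _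
      rw [if_pos h2.1]

lemma zero_of_not_nz {u : HV V σ} (hu : RZ H N u) (h : ¬ NZ H N u) :
    ∃ s c, u = Sum.inr (s, c, 0) ∧ c < H.len s := by
  rcases u with u | ⟨s, c, b⟩
  · exact absurd trivial h
  · have hb : b = 0 := by
      by_contra hb
      exact h ⟨hu.1, hu.2.1, hu.2.2, hb⟩
    subst hb
    exact ⟨s, c, rfl, hu.1⟩

lemma fb_conn {m : σ → ℕ → ℕ} (hm : ∀ s c, c < H.len s → VConn Sf ends (Mid N s c (m s c)))
    {u : HV V σ} (hu : RZ H N u) : VConn Sf ends (Fb N m u) := by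
  by_cases h : NZ H N u
  · rw [fb_nz h]
    exact vconn_singleton u
  · obtain ⟨s, c, rfl, hc⟩ := zero_of_not_nz hu h
    rw [fb_zero]
    exact hm s c hc

/-- adjacent vertices of the host have linked fibres -/
lemma fb_lnk {m : σ → ℕ → ℕ} (hS : S ⊆ Sf) (hE : Emb S ends H N id) (hN : 0 < N)
    (hl : ∀ s c, c < H.len s → Lnk Sf ends {Sum.inr (s, c, -1)} (Mid N s c (m s c)) ∧
      Lnk Sf ends (Mid N s c (m s c)) {Sum.inr (s, c, 1)})
    {u v : HV V σ} (hu : RZ H N u) (hv : RZ H N v) (h : H.Adj N u v) :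
    Lnk Sf ends (Fb N m u) (Fb N m v) := by
  have key : ∀ u v : HV V σ, RZ H N u → RZ H N v → H.E N u v →
      Lnk Sf ends (Fb N m u) (Fb N m v) := by
    intro u v hu hv h
    by_cases hnu : NZ H N u
    · by_cases hnv : NZ H N v
      · rw [fb_nz hnu, fb_nz hnv]
        obtain ⟨e, he, heq⟩ := hE.adj u v hnu hnv (Or.inl h)
        exact ⟨e, hS he, u, rfl, v, rfl, heq⟩
      · obtain ⟨s', c', rfl, hc'⟩ := zero_of_not_nz hv hnv
        rcases u with u | ⟨s, c, b⟩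
        · obtain ⟨_, h3⟩ := h
          rcases h3 with ⟨h3, _⟩ | ⟨h3, _⟩ <;> omega
        · have hnu' := hnu
          obtain ⟨rfl, h2, h3, h4, h5⟩ := h
          obtain ⟨_, _, _, hb⟩ := hnu
          rcases h5 with ⟨rfl, h6⟩ | ⟨_, h6, h7⟩
          · have e1 : b = -1 := by omega
            subst e1
            rw [fb_nz hnu', fb_zero]
            exact (hl s c h2).1
          · omega
    · obtain ⟨s, c, rfl, hc⟩ := zero_of_not_nz hu hnu
      rcases v with v | ⟨s', c', b'⟩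
      · exact False.elim h
      · obtain ⟨rfl, h2, h3, h4, h5⟩ := h
        rcases h5 with ⟨rfl, h6⟩ | ⟨_, h6, h7⟩
        · have e1 : b' = 1 := by omega
          subst e1
          rw [fb_zero, fb_nz (show NZ H N (Sum.inr (s, c, 1)) from
            ⟨hv.1, hv.2.1, hv.2.2, by norm_num⟩)]
          exact (hl s c h2).2
        · exact absurd rfl h7
  rcases h with h | h
  · exact key u v hu hv h
  · exact (key v u hv hu h).symm

/-- The pages of the real system are halves of sheets. -/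
lemma pgH_pg (hDN : D ≤ N) (hK : 2 ≤ K) (hKD : K ≤ D) (sg : ℕ → σ) (m : ℕ) :
    PgH H N (Emb.pg (fun u => id (shf (N - D) u)) sg m K) (Emb.lo H sg m) (Emb.hi H sg m)
      (K - 2).toNat := by
  have hn : (((K - 2).toNat : ℕ) : ℤ) = K - 2 := Int.toNat_of_nonneg (by omega)
  intro j x h1 h2
  obtain ⟨g1, _, g2⟩ := Emb.mem_reg (H := H) (sg := sg) (m := m) (j := j) (n := 0)
    (c := (x, 0)) ⟨h1, h2, le_rfl⟩
  have hlo : Emb.lo H sg m j = 0 := by
    unfold Emb.lo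
    rw [if_pos (by omega)]
  have hhi : Emb.hi H sg m j = Emb.shl H sg m j - 1 := rfl
  by_cases hj : j < m
  · have hs : Emb.shl H sg m j = H.len (sg j) := by
      unfold Emb.shl
      rw [if_pos hj]
    refine ⟨sg j, by rw [← hs]; exact g1, fun c hc => ⟨by omega, by omega, fun b hb => ?_⟩⟩
    refine ⟨-K + 1 + (b : ℤ) - (N - D), by omega, by omega, by omega, ?_⟩
    unfold Emb.pg
    rw [if_pos hj]
    show (Sum.inr (sg j, c, if 0 < -K + 1 + (b : ℤ) then -K + 1 + (b : ℤ) + (N - D) else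
      -K + 1 + (b : ℤ) - (N - D)) : HV V σ) = _
    rw [if_neg (by omega)]
  · have hs : Emb.shl H sg m j = H.len (sg (j - m)) := by
      unfold Emb.shl
      rw [if_neg hj, if_pos g2]
    refine ⟨sg (j - m), by rw [← hs]; exact g1, fun c hc => ⟨by omega, by omega, fun b hb => ?_⟩⟩
    refine ⟨K - 1 - (b : ℤ) + (N - D), by omega, by omega, by omega, ?_⟩
    unfold Emb.pg
    rw [if_neg hj]
    show (Sum.inr (sg (j - m), c, if 0 < K - 1 - (b : ℤ) then K - 1 - (b : ℤ) + (N - D) else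
      K - 1 - (b : ℤ) - (N - D)) : HV V σ) = _
    rw [if_pos (by omega)]

/-- elements of connectors are away from the window `0` -/
lemma nz_conn {X : Type} {Y : CSys σ X (Set (HV V σ))} (hC : Y.Conn H D K) (hK : 1 ≤ K)
    {k : Set (HV V σ)} (hk : k ∈ Y.all) {v : HV V σ} (hv : v ∈ k) : NZ H D v := by
  rcases v with v | ⟨s, c, b⟩
  · trivial
  · obtain ⟨h1, h2, h3⟩ := hC.bd k hk s c b hv
    have h4 : b ≤ -K ∨ K ≤ b := hC.out k hk _ hv
    exact ⟨h1, h2, h3, by omega⟩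

/-- **The float alternative.** -/
theorem floatOut [M'.Finite] (hS : S ⊆ Sf) (hE : Emb S ends H N id)
    (hcol : Col0 Sf ends H N)
    {h : ℕ} {Z : Finset (WV h)} {Y : CSys σ (WZ Z) (Set (HV V σ))} (hDN : D ≤ N)
    (hK : 1 ≤ K) (hKD : K ≤ D) (hY : TautR M' S ends (fun u => id (shf (N - D) u)) Y H D K)
    {w w' q : ℕ} (hww : w ≤ w') (hw' : 1 ≤ w') {c : ℕ → ℕ × ℕ}
    (hdj : ∀ i < q, ∀ j < q, i ≠ j →
      Disjoint (Rct w' (c i).1 (c i).2) (Rct w' (c j).1 (c j).2))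
    (hg : ∀ i < q, GoodR Y.PV w' (c i)) : FloatOut M' S Sf ends H N Z q w := by
  classical
  obtain ⟨g, hgm, hgv⟩ := hY.mod
  obtain ⟨k, hk⟩ : ∃ k, k = N - D := ⟨_, rfl⟩
  have hk0 : 0 ≤ k := by omega
  have hgs : Model (GZ Z) H N (fun u => g (Pz k u)) := by
    have h1 := hgm.stretch (by omega : 0 ≤ D) hk0
    rwa [show D + k = N by omega] at h1
  have hE' := hE.shrink hDN
  rw [← hk] at hE'
  have hrz : ∀ u y, g (Pz k u) = some y → RZ H N u := by
    rintro (u | ⟨s, c, b⟩) y hu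
    · trivial
    · exact hgs.sup s c b (by
        show g (Pz k (Sum.inr (s, c, b))) ≠ none
        rw [hu]
        simp)
  have hcol' : ∃ m : σ → ℕ → ℕ, ∀ s c, c < H.len s → VConn Sf ends (Mid N s c (m s c)) ∧
      Lnk Sf ends {Sum.inr (s, c, -1)} (Mid N s c (m s c)) ∧
      Lnk Sf ends (Mid N s c (m s c)) {Sum.inr (s, c, 1)} := by
    have h1 : ∀ s c, ∃ m : ℕ, c < H.len s → VConn Sf ends (Mid N s c m) ∧
        Lnk Sf ends {Sum.inr (s, c, -1)} (Mid N s c m) ∧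
        Lnk Sf ends (Mid N s c m) {Sum.inr (s, c, 1)} := by
      intro s c
      by_cases hc : c < H.len s
      · obtain ⟨m, hm⟩ := hcol s c hc
        exact ⟨m, fun _ => hm⟩
      · exact ⟨0, fun h => absurd h hc⟩
    choose m hm using h1
    exact ⟨m, hm⟩
  obtain ⟨m, hm⟩ := hcol'
  choose kc hkc1 hkc2 using hY.ne
  have hnz : ∀ k₀ ∈ Y.all, ∀ v ∈ k₀, NZ H D v := fun k₀ h1 v h2 => nz_conn hY.conn hK h1 h2
  -- connectors in the classes
  have hsub : ∀ k₀ ∈ Y.all, ∀ v ∈ k₀, g (Pz k (shf k v)) = some (Y.ver k₀) := by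
    intro k₀ h1 v h2
    rw [pz_shf hk0 (hnz k₀ h1 v h2)]
    exact hgv k₀ h1 v h2
  set Bf : WZ Z → Set (HV V σ) := fun y => shf k '' (kc y) with hBf
  set Bc : WZ Z → Set (HV V σ) := fun y => {v | ∃ u, g (Pz k u) = some y ∧ v ∈ Fb N m u} with hBc
  have hfb : ∀ k₀ ∈ Y.all, ∀ v ∈ k₀, ∀ y, Y.ver k₀ = y → shf k v ∈ Bc y := by
    intro k₀ h1 v h2 y h3
    refine ⟨shf k v, ?_, ?_⟩
    · rw [hsub _ h1 v h2, h3]
    · have h4 : NZ H N (shf k v) := by
        rw [hk]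
        exact nz_shf hDN (hnz _ h1 v h2)
      rw [fb_nz h4]
      rfl
  set B : WZ Z → Set (HV V σ) := fun y => if y ∉ Y.PV then Bf y else Bc y with hB
  have hBf' : ∀ y, y ∉ Y.PV → B y = Bf y := fun y hy => if_pos hy
  have hBc' : ∀ y, y ∈ Y.PV → B y = Bc y := fun y hy => if_neg (not_not.2 hy)
  have hBsub : ∀ y, B y ⊆ Bc y := by
    intro y
    by_cases hy : y ∈ Y.PV
    · rw [hBc' y hy]
    · rw [hBf' y hy]
      rintro _ ⟨v, hv, rfl⟩
      exact hfb _ (hkc1 y) v hv y (hkc2 y)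
  have hnp : ∀ y, y ∉ Y.PV → ¬ Y.Pt (kc y) := fun y hy hp => hy ⟨kc y, hp, hkc2 y⟩
  have hgr : ∀ y, y ∉ Y.PV → Y.gr (kc y) := fun y hy => hY.core.fgr _ (hkc1 y) (hnp y hy)
  have hone : ∀ y, y ∉ Y.PV → ∀ k₀ ∈ Y.all, Y.ver k₀ = y → k₀ = kc y := fun y hy k₀ h1 h2 =>
    CSys.float_one hY.core.con (hkc1 y) (hnp y hy) h1 (by rw [h2, hkc2 y])
  have hcf : ∀ y, VConn S ends (Bf y) := by
    rintro y _ ⟨u, hu, rfl⟩ _ ⟨v, hv, rfl⟩
    have h1 := hY.conn.conn _ (hkc1 y) u hu v hv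
    clear hv
    induction h1 with
    | refl => exact ReflTransGen.refl
    | tail _ h3 ih =>
      exact ih.tail ⟨hE'.adj _ _ (hnz _ (hkc1 y) _ h3.2.1) (hnz _ (hkc1 y) _ h3.2.2) h3.1,
        ⟨_, h3.2.1, rfl⟩, ⟨_, h3.2.2, rfl⟩⟩
  have hcc : ∀ y, VConn Sf ends (Bc y) := by
    rintro y x ⟨u, hu, hxu⟩ z ⟨v, hv, hzv⟩
    have hin : ∀ u, g (Pz k u) = some y → Fb N m u ⊆ Bc y := fun u hu x hx => ⟨u, hu, hx⟩
    have hst : ∀ u, g (Pz k u) = some y → ∀ a ∈ Fb N m u, ∀ b ∈ Fb N m u,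
        ReflTransGen (fun x y' => GAdj Sf ends x y' ∧ x ∈ Bc y ∧ y' ∈ Bc y) a b :=
      fun u hu a ha b hb => rtg_mono (hin u hu)
        (fb_conn (fun s c hc => (hm s c hc).1) (hrz u y hu) a ha b hb)
    have h1 := hgs.con y u v hu hv
    unfold Cn at h1
    have h2 : ∀ z ∈ Fb N m v, ReflTransGen
        (fun x y' => GAdj Sf ends x y' ∧ x ∈ Bc y ∧ y' ∈ Bc y) x z := by
      clear hzv
      induction h1 with
      | refl => exact fun z hz => hst u hu x hxu z hz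
      | tail _ h3 ih =>
        rename_i p r _
        intro z hz
        obtain ⟨e, he, a, ha, b, hb, heq⟩ := fb_lnk (m := m) hS hE (by omega)
          (fun s c hc => (hm s c hc).2) (hrz _ y h3.2.1) (hrz _ y h3.2.2) h3.1
        exact ((ih h3.2.1 a ha).tail ⟨⟨e, he, heq⟩, hin _ h3.2.1 ha, hin _ h3.2.2 hb⟩).trans
          (hst _ h3.2.2 b hb z hz)
    exact h2 z hzv
  -- links of a float
  have hlf : ∀ y z, y ∉ Y.PV → (GZ Z).Adj y z → Lnk S ends (Bf y) (Bc z) ∧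
      (z ∉ Y.PV → Lnk S ends (Bf y) (Bf z)) := by
    intro y z hy hyz
    rcases hY.core.edg y z hyz with ⟨s, e, _, p, _, h1, _, _, h2, _⟩ | ⟨k₀, k₁, h1, h2, h3⟩
    · exact absurd ⟨_, ⟨s, e, p, h1, rfl⟩, h2⟩ hy
    · obtain ⟨h4, h5, _⟩ := hY.core.ctm k₀ k₁ h1
      obtain ⟨u, hu, v, hv, huv⟩ := hY.conn.ct k₀ k₁ h1
      obtain ⟨e, he, heq⟩ := hE'.adj u v (hnz _ h4 _ hu) (hnz _ h5 _ hv) huv
      have h6 := hone y hy k₀ h4 h2
      rw [h6] at hu
      refine ⟨⟨e, he, _, ⟨u, hu, rfl⟩, shf k v, hfb _ h5 v hv z h3, heq⟩, fun hz => ?_⟩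
      · have h7 := hone z hz k₁ h5 h3
        rw [h7] at hv
        exact ⟨e, he, _, ⟨u, hu, rfl⟩, _, ⟨v, hv, rfl⟩, heq⟩
  have hgood : ∀ i < q, ∀ y : WV h, (c i).1 ≤ y.1.val → y.1.val < (c i).1 + 2 * w →
      (c i).2 ≤ y.2.val → y.2.val < (c i).2 + w → ∃ u : WZ Z, u.1 = y ∧ u ∉ Y.PV := by
    intro i hi y h1 h2 h3 h4
    obtain ⟨u, hu, hu'⟩ := hg i hi (vl y) ⟨h1, by show y.1.val < (c i).1 + 2 * w'; omega, h3,
      by show y.2.val < (c i).2 + w'; omega⟩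
    exact ⟨u, vl_inj hu, hu'⟩
  refine ⟨B, c, ?_, ?_, ?_, ?_, ?_, ?_, ?_, ?_,
    Finset.univ.filter (fun y : WZ Z => ∃ i < q, (c i).1 ≤ y.1.1.val ∧
      y.1.1.val < (c i).1 + 2 * w ∧ (c i).2 ≤ y.1.2.val ∧ y.1.2.val < (c i).2 + w), ?_, ?_, ?_, ?_⟩
  · intro y
    refine Set.Finite.subset ?_ (hBsub y)
    have h1 : {u | g (Pz k u) = some y}.Finite := hgs.fin.subset
      fun u (hu : g (Pz k u) = some y) => by
        show g (Pz k u) ≠ none
        rw [hu]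
        simp
    refine (h1.biUnion fun u _ => fb_finite (N := N) (m := m) u).subset ?_
    rintro x ⟨u, hu, hx⟩
    exact Set.mem_biUnion hu hx
  · intro y
    by_cases hy : y ∈ Y.PV
    · rw [hBc' y hy]
      exact hcc y
    · rw [hBf' y hy]
      exact vconn_mono hS (hcf y)
  · intro y
    by_cases hy : y ∈ Y.PV
    · rw [hBc' y hy]
      obtain ⟨v, hv, _⟩ := hgs.gnd y
      exact ⟨v, Sum.inl v, hv, rfl⟩
    · rw [hBf' y hy]
      obtain ⟨v, hv, _⟩ := hY.conn.gr _ (hgr y hy)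
      exact ⟨v, _, hv, rfl⟩
  · intro y z hyz
    refine Disjoint.mono (hBsub y) (hBsub z) ?_
    rw [Set.disjoint_left]
    rintro x ⟨u, hu, hxu⟩ ⟨v, hv, hxv⟩
    have h1 : u = v := (rho_fb (by omega) (hrz _ _ hu) hxu).symm.trans
      (rho_fb (by omega) (hrz _ _ hv) hxv)
    rw [h1] at hu
    exact hyz (Option.some.inj (hu.symm.trans hv))
  · intro y z hyz
    by_cases hy : y ∈ Y.PV
    · by_cases hz : z ∈ Y.PV
      · rw [hBc' y hy, hBc' z hz]
        obtain ⟨u, v, h1, h2, h3⟩ := hgs.edg y z hyz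
        exact (fb_lnk (m := m) hS hE (by omega) (fun s c hc => (hm s c hc).2) (hrz _ _ h2)
          (hrz _ _ h3) h1).mono subset_rfl (fun x hx => ⟨u, h2, hx⟩) (fun x hx => ⟨v, h3, hx⟩)
      · rw [hBc' y hy, hBf' z hz]
        exact ((hlf z y hz hyz.symm).1.mono hS subset_rfl subset_rfl).symm
    · by_cases hz : z ∈ Y.PV
      · rw [hBf' y hy, hBc' z hz]
        exact (hlf y z hy hyz).1.mono hS subset_rfl subset_rfl
      · rw [hBf' y hy, hBf' z hz]
        exact ((hlf y z hy hyz).2 hz).mono hS subset_rfl subset_rfl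
  · intro i hi y h1 h2 h3 h4
    obtain ⟨u, hu, _⟩ := hgood i hi y h1 h2 h3 h4
    rw [← hu]
    exact u.2
  · intro i hi
    obtain ⟨u, hu, _⟩ := hg i hi ((c i).1 + 2 * w' - 1, (c i).2 + w' - 1)
      (mem_Rct.2 ⟨by omega, by omega, by omega, by omega⟩)
    have h1 : u.1.1.val = (c i).1 + 2 * w' - 1 := congrArg Prod.fst hu
    have h2 : u.1.2.val = (c i).2 + w' - 1 := congrArg Prod.snd hu
    have h3 := u.1.1.2
    have h4 := u.1.2.2
    omega
  · rintro i hi j hj hij y ⟨h1, h2, h3, h4, h5, h6, h7, h8⟩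
    have g1 : vl y ∈ Rct w' (c i).1 (c i).2 :=
      ⟨h1, by show y.1.val < (c i).1 + 2 * w'; omega, h3,
        by show y.2.val < (c i).2 + w'; omega⟩
    have g2 : vl y ∈ Rct w' (c j).1 (c j).2 :=
      ⟨h5, by show y.1.val < (c j).1 + 2 * w'; omega, h7,
        by show y.2.val < (c j).2 + w'; omega⟩
    exact Set.disjoint_left.1 (hdj i hi j hj hij) g1 g2
  · intro y
    rw [Finset.mem_filter]
    exact ⟨fun h1 => h1.2, fun h1 => ⟨Finset.mem_univ _, h1⟩⟩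
  all_goals
    have hR : ∀ y ∈ Finset.univ.filter (fun y : WZ Z => ∃ i < q, (c i).1 ≤ y.1.1.val ∧
        y.1.1.val < (c i).1 + 2 * w ∧ (c i).2 ≤ y.1.2.val ∧ y.1.2.val < (c i).2 + w),
        y ∉ Y.PV := by
      intro y hy
      obtain ⟨_, i, hi, h1, h2, h3, h4⟩ := Finset.mem_filter.1 hy
      obtain ⟨u, hu, hu'⟩ := hgood i hi y.1 h1 h2 h3 h4
      rwa [Subtype.ext hu] at hu'
  · intro y hy
    rw [hBf' y (hR y hy)]
    refine ⟨hcf y, ?_⟩
    rintro _ ⟨v, hv, rfl⟩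
    rw [hk]
    exact nz_shf hDN (hnz _ (hkc1 y) v hv)
  · intro y hy z hz hyz
    rw [hBf' y (hR y hy), hBf' z (hR z hz)]
    exact (hlf y z (hR y hy) hyz).2 (hR z hz)
  · have hinj : Set.InjOn kc (Finset.univ.filter (fun y : WZ Z => ∃ i < q, (c i).1 ≤ y.1.1.val ∧
        y.1.1.val < (c i).1 + 2 * w ∧ (c i).2 ≤ y.1.2.val ∧ y.1.2.val < (c i).2 + w) :
        Set (WZ Z)) := by
      intro y _ z _ he
      rw [← hkc2 y, ← hkc2 z, he]
    have h1 := hY.jnt (Finset.image kc (Finset.univ.filter (fun y : WZ Z =>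
        ∃ i < q, (c i).1 ≤ y.1.1.val ∧
        y.1.1.val < (c i).1 + 2 * w ∧ (c i).2 ≤ y.1.2.val ∧ y.1.2.val < (c i).2 + w))) (by
      intro k₀ hk₀
      obtain ⟨y, hy, rfl⟩ := Finset.mem_image.1 hk₀
      exact hgr y (hR y hy))
    rw [JU.image hinj] at h1
    refine h1.congr fun y hy => ?_
    rw [hBf' y (hR y hy), hBf, hk]
    rfl

/-- The output of module I in real form. -/
theorem tautR_of {h : ℕ} {Z : Finset (WV h)} {U : ℤ → (HV V σ → Option (WZ Z)) → Prop}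
    (hUL : ULast M' S ends H N U) (hD : 0 ≤ D) (hDN : D ≤ N) (hK : 1 ≤ K)
    {Y : CSys σ (WZ Z) (Set (HV V σ))} (hY : Y.TautJ (GZ Z)) (hC : Y.Conn H D K)
    {f' : HV V σ → Option (WZ Z)} (hU : U D f')
    (hcl : ∀ B, Y.gr B → {w | f' w = some (Y.ver B)} = B) {g : HV V σ → Option (WZ Z)}
    (hg : Model (GZ Z) H D g) (hgv : ∀ B ∈ Y.all, ∀ v ∈ B, g v = some (Y.ver B)) :
    TautR M' S ends (fun u => id (shf (N - D) u)) Y H D K := by
  classical
  refine ⟨hY.core, hC, hY.hne, hY.grm, hY.gndc, ?_, g, hg, hgv⟩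
  intro I hI
  have hinj : Set.InjOn Y.ver (I : Set (Set (HV V σ))) :=
    fun k hk l hl he => hY.gr1 k l (hI k hk) (hI l hl) he
  have h1 := hUL D f' hD hDN hU (I.image Y.ver) (by
    intro y hy w hw
    obtain ⟨k, hk, rfl⟩ := Finset.mem_image.1 hy
    have h2 : w ∈ k := by
      rw [← hcl k (hI k hk)]
      exact hw
    exact nz_conn hC hK (hY.grm k (hI k hk)) h2)
  rw [JU.image hinj] at h1
  refine h1.congr fun k hk => ?_
  rw [hcl k (hI k hk)]
  rfl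

end

/-- **Row C7**, the window `0` of a column is a connected set. -/
theorem patternExists0 (Nn mp t n₁ q w : ℕ) : ∃ (c h₀ : ℕ) (g : ℕ → ℕ), ∀ {α : Type u} {V σ : Type}
    [Finite V] [Finite σ] (M' : Matroid α) [M'.Finite] (S Sf : Set α) (ends : α → Sym2 (HV V σ))
    (H : Host V σ) (N d : ℤ) (h : ℕ) (Z : Finset (EN.Wall.WV h)) (f f' : HV V σ → Option (WZ Z))
    (U : ℤ → (HV V σ → Option (WZ Z)) → Prop),
    S ⊆ Sf → Frm M' S ends → (∀ v, H.gd v) → Emb S ends H N id →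
    Col0 Sf ends H N → h₀ ≤ h →
    c * (Nat.card σ + Z.card) ≤ h ^ 2 → WallD M' S ends H N d g Z f f' U →
    PatOut M' S ends H N Nn mp t n₁ ∨ FloatOut M' S Sf ends H N Z q w := by
  obtain ⟨w', hw'⟩ : ∃ w', w' = max w 1 := ⟨_, rfl⟩
  obtain ⟨c, h₀, hmain⟩ := pat_or_rct.{0, 0} w' q Nn mp t (by omega)
  refine ⟨max c 1, max h₀ 1, fun m => (m + 1) * (2 * m + 6 + n₁), ?_⟩
  intro α V σ _ _ M' _ S Sf ends H N d h Z f f' U hS hF hgd hE hcol hh hc hW
  have hh1 : h₀ ≤ h := (le_max_left _ _).trans hh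
  have hh2 : 1 ≤ h := (le_max_right _ _).trans hh
  have hZ : Z.card ≤ h ^ 2 := by
    refine le_trans ?_ hc
    calc Z.card ≤ 1 * (Nat.card σ + Z.card) := by omega
      _ ≤ _ := Nat.mul_le_mul_right _ (le_max_right _ _)
  have hne : Nonempty (WZ Z) := by
    by_contra hcon
    have h1 : Z = Finset.univ := by
      refine Finset.eq_univ_iff_forall.2 fun y => ?_
      by_contra hy
      exact hcon ⟨⟨y, hy⟩⟩
    have h2 : Z.card = 4 * h ^ 2 := by rw [h1, Finset.card_univ, card_WV]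
    have h3 : 0 < h ^ 2 := Nat.pow_pos hh2
    omega
  obtain ⟨K, hK⟩ : ∃ K : ℤ, K = 2 * mm f + 6 + n₁ := ⟨_, rfl⟩
  have hdeep : d + (mm f + 1) * K ≤ N := by
    have h1 := hW.deep
    push_cast at h1
    rw [hK]
    exact h1
  have hKpos : (0 : ℤ) ≤ (mm f + 1) * K := by rw [hK]; positivity
  have hdN : d ≤ N := by omega
  have hJM : JModel (GZ Z) H U d f := JModel.of_pre hW.jnt hW.d0 hdN hgd hW.pre hW.le hW.unb
  obtain ⟨D, Y, h1, h2, hY, hC, ⟨f₁, hf1, hf2, hf3⟩, g, hg1, hg2⟩ := Mdj.taut2 hW.jnt hgd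
    GZ_degree GZ_no_square hW.d0 hJM (K := K) (by omega) hdeep
  have hd0 := hW.d0
  have hKD : K ≤ D := by omega
  have hDN : D ≤ N := h2.trans hdeep
  have hTR : TautR M' S ends (fun u => id (shf (N - D) u)) Y H D K :=
    tautR_of hW.last (by omega) hDN (by omega) hY hC hf2 hf3 hg1.mod hg2
  rcases hmain h hh1 hF (hE.shrink hDN) (by omega) hKD hTR
    ((Nat.mul_le_mul_right _ (le_max_left _ _)).trans hc) with ⟨c', hc1, hc2⟩ |
    ⟨sg, hsg, κ, Y', B, col, hax, _, hreal, hpat⟩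
  · right
    exact floatOut hS hE hcol hDN (by omega) hKD hTR (by omega) (by omega) hc1 hc2
  · left
    refine ⟨κ, Y', _, _, _, _, B, col, dB (sDist w'), hax, hreal, by omega, ?_, hpat⟩
    exact pgH_pg hDN (by omega) hKD sg _

/-- **Row C7.** -/
theorem patternExists (Nn mp t n₁ q w : ℕ) : ∃ (c h₀ : ℕ) (g : ℕ → ℕ), ∀ {α : Type u} {V σ : Type}
    [Finite V] [Finite σ] (M' : Matroid α) [M'.Finite] (S Sf : Set α) (ends : α → Sym2 (HV V σ))
    (H : Host V σ) (N d : ℤ) (h : ℕ) (Z : Finset (EN.Wall.WV h)) (f f' : HV V σ → Option (WZ Z))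
    (U : ℤ → (HV V σ → Option (WZ Z)) → Prop),
    S ⊆ Sf → Frm M' S ends → (∀ v, H.gd v) → Emb S ends H N id →
    (∀ s c, c < H.len s → ∀ b : ℤ, -N ≤ b → b < N →
      GAdj Sf ends (Sum.inr (s, c, b)) (Sum.inr (s, c, b + 1))) → h₀ ≤ h →
    c * (Nat.card σ + Z.card) ≤ h ^ 2 → WallD M' S ends H N d g Z f f' U →
    PatOut M' S ends H N Nn mp t n₁ ∨ FloatOut M' S Sf ends H N Z q w := by
  obtain ⟨c, h₀, g, hmain⟩ := patternExists0 Nn mp t n₁ q w
  refine ⟨c, h₀, fun m => g m + 1, ?_⟩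
  intro α V σ _ _ M' _ S Sf ends H N d h Z f f' U hS hF hgd hE hcol hh hc hW
  have h1 := hW.deep
  have h2 := hW.d0
  push_cast at h1
  refine hmain M' S Sf ends H N d h Z f f' U hS hF hgd hE ?_ hh hc
    ⟨hW.d0, by omega, hW.pre, hW.le, hW.unb, hW.jnt, hW.last⟩
  intro s c hc
  have e1 : Mid N s c 0 = {(Sum.inr (s, c, 0) : HV V σ)} := by
    ext v
    constructor
    · rintro ⟨b, rfl, rfl | ⟨h3, h4⟩⟩
      · rfl
      · simp at h4
        omega
    · rintro rfl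
      exact ⟨0, rfl, Or.inl rfl⟩
  refine ⟨0, ?_, ?_, ?_⟩
  · rw [e1]
    exact vconn_singleton _
  · rw [e1]
    obtain ⟨e, he, heq⟩ := hcol s c hc (-1) (by omega) (by omega)
    exact ⟨e, he, _, rfl, _, rfl, heq⟩
  · rw [e1]
    obtain ⟨e, he, heq⟩ := hcol s c hc 0 (by omega) (by omega)
    exact ⟨e, he, _, rfl, _, rfl, heq⟩

end TSK
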