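import Pool.Agent.EN.Book

/-!
# Pictures with two pages: general form
-/

open Set
open scoped Matroid

namespace EN

open BIC Gad

variable {α V : Type*} {M : Matroid α} {S : Set α} {ends : α → Sym2 V}

lemma reg_finite (l r n : ℕ) : (Reg l r n).Finite := by
  refine ((Finset.Icc l r ×ˢ Finset.range (n + 1) : Finset (ℕ × ℕ)).finite_toSet).subset ?_
  intro c hc
  rw [mem_Reg] at hc
  simp only [Finset.coe_product, Finset.coe_Icc, Finset.coe_range, mem_prod, mem_Icc, mem_Iio]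
  omega

lemma vconn_chain {N : ℕ} (C : ℕ → Set V) (hC : ∀ i < N, VConn S ends (C i))
    (hl : ∀ i, i + 1 < N → Lnk S ends (C i) (C (i + 1))) :
    VConn S ends (⋃ i ∈ Finset.range N, C i) := by
  induction N with
  | zero => simpa using vconn_empty
  | succ N ih =>
    have e : (⋃ i ∈ Finset.range (N + 1), C i) = (⋃ i ∈ Finset.range N, C i) ∪ C N := by
      rw [Finset.range_add_one, Finset.set_biUnion_insert, union_comm]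
    rw [e]
    rcases Nat.eq_zero_or_pos N with h | h
    · subst h
      simpa using hC 0 (by omega)
    · refine vc_lnk (ih (fun i hi => hC i (by omega)) (fun i hi => hl i (by omega)))
        (hC N (by omega)) ?_
      have h1 := hl (N - 1) (by omega)
      rw [Nat.sub_add_cancel h] at h1
      exact h1.mono (subset_refl _)
        (fun v hv => mem_iUnion₂.2 ⟨N - 1, Finset.mem_range.2 (by omega), hv⟩) (subset_refl _)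

/-- Swapping the order of a union. -/
lemma vconn_congr {A B : Set V} (h : VConn S ends A) (e : ∀ v, v ∈ A ↔ v ∈ B) :
    VConn S ends B := by
  rw [← Set.ext e]
  exact h

/-- The data of a blob: a set `K` outside the pages and coordinates in the two pages. -/
def Blob (P Q : ℕ × ℕ → V) (K : Set V) (A A' : Set (ℕ × ℕ)) : Set V := K ∪ P '' A ∪ Q '' A'

/-- **Two pages, general picture.** -/
theorem pic2 {w N : ℕ} (hw : 1 ≤ w) (hN : N = w * w)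
    {P Q : ℕ × ℕ → V} {lP rP nP lQ rQ nQ : ℕ} (hP : Page S ends P lP rP nP)
    (hQ : Page S ends Q lQ rQ nQ)
    (hPQ : ∀ c ∈ Reg lP rP nP, ∀ c' ∈ Reg lQ rQ nQ, P c ≠ Q c') {b₀ b₁ : ℕ} (hb₀ : 1 ≤ b₀)
    (hn₀ : b₀ + w ≤ nP) (hn₁ : b₁ + w ≤ nQ) (lx rx q : ℕ → ℕ)
    (hlr : ∀ i < N, lP ≤ lx i ∧ lx i ≤ rx i ∧ rx i ≤ rP)
    (hmon : (∀ i j, i < j → j < N → rx i < lx j) ∨ (∀ i j, i < j → j < N → rx j < lx i))
    (hq : ∀ i < N, lQ ≤ q i ∧ q i ≤ rQ) (hqm : Mon N q)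
    (K : ℕ → Set V) (A A' : ℕ → Set (ℕ × ℕ)) (hKf : ∀ i < N, (K i).Finite)
    (hAR : ∀ i < N, A i ⊆ Reg lP rP nP) (hAR' : ∀ i < N, A' i ⊆ Reg lQ rQ nQ)
    (hXc : ∀ i < N, VConn S ends (Blob P Q (K i) (A i) (A' i)))
    (hA0 : ∀ i < N, (lx i, b₀) ∈ A i)
    (hA1 : ∀ i < N, ∀ c ∈ A i, b₀ ≤ c.2 → lx i ≤ c.1 ∧ c.1 ≤ rx i ∧ c.2 ≤ b₀)
    (hA'0 : ∀ i < N, (q i, b₁) ∈ A' i) (hA'1 : ∀ i < N, ∀ c ∈ A' i, c.2 ≤ b₁)
    (hKK : ∀ i < N, ∀ j < N, i ≠ j → Disjoint (K i) (K j))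
    (hKP : ∀ i < N, ∀ c ∈ Reg lP rP nP, P c ∉ K i) (hKQ : ∀ i < N, ∀ c ∈ Reg lQ rQ nQ, Q c ∉ K i)
    (hAA : ∀ i < N, ∀ j < N, i ≠ j → ∀ c ∈ A i, c ∉ A j)
    (hAA' : ∀ i < N, ∀ j < N, i ≠ j → ∀ c ∈ A' i, c ∉ A' j) :
    BookOut S ends w (fun i => Blob P Q (K i) (A i) (A' i))
      (P '' Upr lP rP nP b₀ ∪ Q '' Upr lQ rQ nQ (b₁ + 1)) := by
  refine book_two hw hN hP hQ hPQ hb₀ hn₀ hn₁ lx rx q hlr hmon hq hqm _ ?_ hXc ?_ ?_ ?_ ?_ ?_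
  · intro i hi
    exact ((hKf i hi).union (((reg_finite _ _ _).subset (hAR i hi)).image _)).union
      (((reg_finite _ _ _).subset (hAR' i hi)).image _)
  · intro i hi
    exact Or.inl (Or.inr ⟨_, hA0 i hi, rfl⟩)
  · intro i hi
    exact Or.inr ⟨_, hA'0 i hi, rfl⟩
  · intro i hi j hj hij
    rw [Set.disjoint_left]
    rintro u ((hu | ⟨c, hc, rfl⟩) | ⟨c, hc, rfl⟩) ((hu' | ⟨c', hc', h'⟩) | ⟨c', hc', h'⟩)
    · exact Set.disjoint_left.1 (hKK i hi j hj hij) hu hu'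
    · rw [← h'] at hu
      exact hKP i hi c' (hAR j hj hc') hu
    · rw [← h'] at hu
      exact hKQ i hi c' (hAR' j hj hc') hu
    · exact hKP j hj c (hAR i hi hc) hu'
    · have h1 := hAR i hi hc
      have h2 := hAR j hj hc'
      have h3 := hP.inj c' c h2.1 h2.2.1 h2.2.2 h1.1 h1.2.1 h1.2.2 h'
      rw [h3] at hc'
      exact hAA i hi j hj hij c hc hc'
    · exact hPQ c (hAR i hi hc) c' (hAR' j hj hc') h'.symm
    · exact hKQ j hj c (hAR' i hi hc) hu'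
    · exact hPQ c' (hAR j hj hc') c (hAR' i hi hc) h'
    · have h1 := hAR' i hi hc
      have h2 := hAR' j hj hc'
      have h3 := hQ.inj c' c h2.1 h2.2.1 h2.2.2 h1.1 h1.2.1 h1.2.2 h'
      rw [h3] at hc'
      exact hAA' i hi j hj hij c hc hc'
  · rintro i hi c hc ((hu | ⟨c', hc', h⟩) | ⟨c', hc', h⟩)
    · exact absurd hu (hKP i hi c hc.1)
    · have h2 := hAR i hi hc'
      have h3 := hP.inj c' c h2.1 h2.2.1 h2.2.2 hc.1.1 hc.1.2.1 hc.1.2.2 h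
      rw [← h3] at hc ⊢
      exact hA1 i hi c' hc' hc.2
    · exact absurd h.symm (hPQ c hc.1 c' (hAR' i hi hc'))
  · rintro i hi c hc ((hu | ⟨c', hc', h⟩) | ⟨c', hc', h⟩)
    · exact absurd hu (hKQ i hi c hc)
    · exact absurd h (hPQ c' (hAR i hi hc') c hc)
    · have h2 := hAR' i hi hc'
      have h3 := hQ.inj c' c h2.1 h2.2.1 h2.2.2 hc.1 hc.2.1 hc.2.2 h
      rw [← h3]
      exact hA'1 i hi c' hc'

/-- Disjointness of two blobs. -/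
lemma blob_disj {P Q : ℕ × ℕ → V} {lP rP nP lQ rQ nQ : ℕ} (hP : Page S ends P lP rP nP)
    (hQ : Page S ends Q lQ rQ nQ)
    (hPQ : ∀ c ∈ Reg lP rP nP, ∀ c' ∈ Reg lQ rQ nQ, P c ≠ Q c') {K K' : Set V}
    {A A' B B' : Set (ℕ × ℕ)} (hA : A ⊆ Reg lP rP nP) (hA' : A' ⊆ Reg lQ rQ nQ)
    (hB : B ⊆ Reg lP rP nP) (hB' : B' ⊆ Reg lQ rQ nQ) (hKK : Disjoint K K')
    (hKP : ∀ c ∈ Reg lP rP nP, P c ∉ K) (hKQ : ∀ c ∈ Reg lQ rQ nQ, Q c ∉ K)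
    (hKP' : ∀ c ∈ Reg lP rP nP, P c ∉ K') (hKQ' : ∀ c ∈ Reg lQ rQ nQ, Q c ∉ K')
    (hAB : ∀ c ∈ A, c ∉ B) (hAB' : ∀ c ∈ A', c ∉ B') :
    Disjoint (Blob P Q K A A') (Blob P Q K' B B') := by
  rw [Set.disjoint_left]
  rintro u ((hu | ⟨c, hc, rfl⟩) | ⟨c, hc, rfl⟩) ((hu' | ⟨c', hc', h'⟩) | ⟨c', hc', h'⟩)
  · exact Set.disjoint_left.1 hKK hu hu'
  · rw [← h'] at hu
    exact hKP c' (hB hc') hu
  · rw [← h'] at hu
    exact hKQ c' (hB' hc') hu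
  · exact hKP' c (hA hc) hu'
  · have h1 := hA hc
    have h2 := hB hc'
    have h3 := hP.inj c' c h2.1 h2.2.1 h2.2.2 h1.1 h1.2.1 h1.2.2 h'
    rw [h3] at hc'
    exact hAB c hc hc'
  · exact hPQ c (hA hc) c' (hB' hc') h'.symm
  · exact hKQ' c (hA' hc) hu'
  · exact hPQ c' (hB hc') c (hA' hc) h'
  · have h1 := hA' hc
    have h2 := hB' hc'
    have h3 := hQ.inj c' c h2.1 h2.2.1 h2.2.2 h1.1 h1.2.1 h1.2.2 h'
    rw [h3] at hc'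
    exact hAB' c hc hc'

/-- **Two pages with a connected set `Z`, general picture.** -/
theorem pic2Z {w N : ℕ} (hw : 1 ≤ w) (hN : N = (2 * w) * (2 * w))
    {P Q : ℕ × ℕ → V} {lP rP nP lQ rQ nQ : ℕ} (hP : Page S ends P lP rP nP)
    (hQ : Page S ends Q lQ rQ nQ)
    (hPQ : ∀ c ∈ Reg lP rP nP, ∀ c' ∈ Reg lQ rQ nQ, P c ≠ Q c') {b₀ b₁ : ℕ} (hb₀ : 1 ≤ b₀)
    (hn₀ : b₀ + 2 * w ≤ nP) (hn₁ : b₁ + 2 * w ≤ nQ) (lx rx q : ℕ → ℕ)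
    (hlr : ∀ i < N, lP ≤ lx i ∧ lx i ≤ rx i ∧ rx i ≤ rP)
    (hmon : (∀ i j, i < j → j < N → rx i < lx j) ∨ (∀ i j, i < j → j < N → rx j < lx i))
    (hq : ∀ i < N, lQ ≤ q i ∧ q i ≤ rQ) (hqm : Mon N q)
    (K : ℕ → Set V) (A A' : ℕ → Set (ℕ × ℕ)) (hKf : ∀ i < N, (K i).Finite)
    (hAR : ∀ i < N, A i ⊆ Reg lP rP nP) (hAR' : ∀ i < N, A' i ⊆ Reg lQ rQ nQ)
    (hXc : ∀ i < N, VConn S ends (Blob P Q (K i) (A i) (A' i)))
    (hA0 : ∀ i < N, (lx i, b₀) ∈ A i)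
    (hA1 : ∀ i < N, ∀ c ∈ A i, b₀ ≤ c.2 → lx i ≤ c.1 ∧ c.1 ≤ rx i ∧ c.2 ≤ b₀)
    (hA'0 : ∀ i < N, (q i, b₁) ∈ A' i) (hA'1 : ∀ i < N, ∀ c ∈ A' i, c.2 ≤ b₁)
    (hKK : ∀ i < N, ∀ j < N, i ≠ j → Disjoint (K i) (K j))
    (hKP : ∀ i < N, ∀ c ∈ Reg lP rP nP, P c ∉ K i) (hKQ : ∀ i < N, ∀ c ∈ Reg lQ rQ nQ, Q c ∉ K i)
    (hAA : ∀ i < N, ∀ j < N, i ≠ j → ∀ c ∈ A i, c ∉ A j)
    (hAA' : ∀ i < N, ∀ j < N, i ≠ j → ∀ c ∈ A' i, c ∉ A' j)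
    (KZ : Set V) (AZ AZ' : Set (ℕ × ℕ)) (hKZf : KZ.Finite)
    (hZR : AZ ⊆ Reg lP rP nP) (hZR' : AZ' ⊆ Reg lQ rQ nQ)
    (hZc : VConn S ends (Blob P Q KZ AZ AZ')) (hZ1 : ∀ c ∈ AZ, c.2 < b₀)
    (hZ'1 : ∀ c ∈ AZ', c.2 ≤ b₁) (hKZ : ∀ i < N, Disjoint (K i) KZ)
    (hZP : ∀ c ∈ Reg lP rP nP, P c ∉ KZ) (hZQ : ∀ c ∈ Reg lQ rQ nQ, Q c ∉ KZ)
    (hAZ : ∀ i < N, ∀ c ∈ A i, c ∉ AZ) (hAZ' : ∀ i < N, ∀ c ∈ A' i, c ∉ AZ')
    (hadj : ∀ i < N, Lnk S ends (Blob P Q (K i) (A i) (A' i)) (Blob P Q KZ AZ AZ')) :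
    GmF S ends P lP rP nP (2 * w) := by
  have h := pic2 (w := 2 * w) (by omega) hN hP hQ hPQ hb₀ hn₀ hn₁ lx rx q hlr hmon hq hqm K A A'
    hKf hAR hAR' hXc hA0 hA1 hA'0 hA'1 hKK hKP hKQ hAA hAA'
  subst hN
  refine h.jgridZ hw (Blob P Q KZ AZ AZ') ?_ hZc ?_ ?_ hadj (P := P) (l := lP) (r := rP)
    (n := nP) (b := b₀) (by omega) (fun i hi => ?_) ?_
  · exact (hKZf.union (((reg_finite _ _ _).subset hZR).image _)).union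
      (((reg_finite _ _ _).subset hZR').image _)
  · intro i hi
    exact blob_disj hP hQ hPQ (hAR i hi) (hAR' i hi) hZR hZR' (hKZ i hi) (hKP i hi) (hKQ i hi)
      hZP hZQ (hAZ i hi) (hAZ' i hi)
  · have e : P '' Upr lP rP nP b₀ ∪ Q '' Upr lQ rQ nQ (b₁ + 1) =
        Blob P Q ∅ (Upr lP rP nP b₀) (Upr lQ rQ nQ (b₁ + 1)) := by
      unfold Blob
      rw [empty_union]
    rw [e]
    refine blob_disj hP hQ hPQ (fun c hc => hc.1) (fun c hc => hc.1) hZR hZR'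
      (Set.empty_disjoint _) (fun c _ h => h) (fun c _ h => h) hZP hZQ ?_ ?_
    · intro c hc hcZ
      have := hZ1 c hcZ
      have := hc.2
      omega
    · intro c hc hcZ
      have := hZ'1 c hcZ
      have := hc.2
      omega
  · have g := hlr i hi
    exact ⟨lx i, g.1, by omega, Or.inl (Or.inr ⟨_, hA0 i hi, rfl⟩)⟩
  · intro x j g1 g2 h1 h2 hv
    have hreg : (x, j) ∈ Reg lP rP nP := by
      rw [mem_Reg]
      exact ⟨g1, g2, h2⟩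
    rcases hv with (hv | ⟨c, hc, e⟩) | ⟨c, hc, e⟩
    · exact hZP _ hreg hv
    · have h3 := hZR hc
      rw [mem_Reg] at h3
      have h4 := hP.inj c (x, j) h3.1 h3.2.1 h3.2.2 g1 g2 h2 e
      have h5 := hZ1 c hc
      rw [h4] at h5
      simp only at h5
      omega
    · exact hPQ _ hreg _ (hZR' hc) e.symm

end EN
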