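import Pool.Agent.EN.PicJ

/-!
# The pictures (A): a glued line with ground ends or unbalanced cycles near it
-/

open Set
open scoped Matroid

namespace EN

open BIC Gad

variable {α V : Type*} {M : Matroid α} {S : Set α} {ends : α → Sym2 V}

section

variable {P Q : ℕ × ℕ → V} {lP rP nP lQ rQ nQ : ℕ}

/-- A glued line; `K i` is the union of all connectors used by the member `i` (a rung from
`(y i, 0)` to `(z i, 0)` on the other page, and something at `(q i, 0)`, near `y i`). -/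
theorem pA_out {w N : ℕ} (hw : 1 ≤ w) (hN : N = w * w) (hP : Page S ends P lP rP nP)
    (hQ : Page S ends Q lQ rQ nQ)
    (hPQ : ∀ c ∈ Reg lP rP nP, ∀ c' ∈ Reg lQ rQ nQ, P c ≠ Q c')
    (hn₀ : 1 + w ≤ nP) (hn₁ : w ≤ nQ) (y q z : ℕ → ℕ)
    (hy : ∀ i < N, lP ≤ y i ∧ y i ≤ rP ∧ lP ≤ q i ∧ q i ≤ rP)
    (hmon : (∀ i j, i < j → j < N → max (y i) (q i) < min (y j) (q j)) ∨
      (∀ i j, i < j → j < N → max (y j) (q j) < min (y i) (q i)))
    (hz : ∀ i < N, lQ ≤ z i ∧ z i ≤ rQ) (hzm : Mon N z)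
    (K : ℕ → Set V) (hKf : ∀ i < N, (K i).Finite)
    (hXc : ∀ i < N, VConn S ends (Blob P Q (K i) (UU (y i) (q i)) {(z i, 0)}))
    (hKK : ∀ i < N, ∀ j < N, i ≠ j → Disjoint (K i) (K j))
    (hKP : ∀ i < N, ∀ c ∈ Reg lP rP nP, P c ∉ K i)
    (hKQ : ∀ i < N, ∀ c ∈ Reg lQ rQ nQ, Q c ∉ K i) :
    BookOut S ends w (fun i => Blob P Q (K i) (UU (y i) (q i)) {(z i, 0)})
      (P '' Upr lP rP nP 1 ∪ Q '' Upr lQ rQ nQ 1) := by
  refine pic2 hw hN hP hQ hPQ (b₀ := 1) (b₁ := 0) (le_refl _) hn₀ (by omega)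
    (fun i => min (y i) (q i)) (fun i => max (y i) (q i)) z
    (fun i hi => by have := hy i hi; omega) hmon hz hzm K (fun i => UU (y i) (q i))
    (fun i => {(z i, 0)}) hKf ?_ ?_ hXc (fun i hi => UU_min) ?_ (fun i hi => rfl) ?_ hKK hKP hKQ
    ?_ ?_
  · intro i hi c hc
    have h1 := UU_box hc
    have h2 := hy i hi
    rw [mem_Reg]
    omega
  · intro i hi c hc
    have h1 := hz i hi
    rw [mem_singleton_iff] at hc
    rw [hc, mem_Reg]
    simp only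
    omega
  · intro i hi c hc h
    have h1 := UU_box hc
    omega
  · intro i hi c hc
    rw [mem_singleton_iff] at hc
    rw [hc]
  · intro i hi j hj hij c hc hc'
    have h1 := UU_box hc
    have h2 := UU_box hc'
    rcases Nat.lt_or_gt_of_ne hij with h | h
    · rcases hmon with h3 | h3
      · have := h3 i j h hj; omega
      · have := h3 i j h hj; omega
    · rcases hmon with h3 | h3
      · have := h3 j i h hi; omega
      · have := h3 j i h hi; omega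
  · intro i hi j hj hij c hc hc'
    rw [mem_singleton_iff] at hc hc'
    rw [hc, Prod.mk.injEq] at hc'
    exact hij (mon_ne hzm i hi j hj hc'.1)

/-- **(A), ground.** The ground `G` is adjacent to the connectors or to the page piece. -/
theorem pA_ground {w N : ℕ} (hw : 1 ≤ w) (hN : N = (2 * w) * (2 * w))
    (hP : Page S ends P lP rP nP) (hQ : Page S ends Q lQ rQ nQ)
    (hPQ : ∀ c ∈ Reg lP rP nP, ∀ c' ∈ Reg lQ rQ nQ, P c ≠ Q c')
    (hn₀ : 1 + 2 * w ≤ nP) (hn₁ : 2 * w ≤ nQ) (y q z : ℕ → ℕ)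
    (hy : ∀ i < N, lP ≤ y i ∧ y i ≤ rP ∧ lP ≤ q i ∧ q i ≤ rP)
    (hmon : (∀ i j, i < j → j < N → max (y i) (q i) < min (y j) (q j)) ∨
      (∀ i j, i < j → j < N → max (y j) (q j) < min (y i) (q i)))
    (hz : ∀ i < N, lQ ≤ z i ∧ z i ≤ rQ) (hzm : Mon N z)
    (K : ℕ → Set V) (hKf : ∀ i < N, (K i).Finite)
    (hXc : ∀ i < N, VConn S ends (Blob P Q (K i) (UU (y i) (q i)) {(z i, 0)}))
    (hKK : ∀ i < N, ∀ j < N, i ≠ j → Disjoint (K i) (K j))
    (hKP : ∀ i < N, ∀ c ∈ Reg lP rP nP, P c ∉ K i) (hKQ : ∀ i < N, ∀ c ∈ Reg lQ rQ nQ, Q c ∉ K i)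
    (G : Set V) (hGf : G.Finite) (hGc : VConn S ends G) (hGP : ∀ c ∈ Reg lP rP nP, P c ∉ G)
    (hGQ : ∀ c ∈ Reg lQ rQ nQ, Q c ∉ G) (hKG : ∀ i < N, Disjoint (K i) G)
    (hlG : ∀ i < N, Lnk S ends (Blob P Q (K i) (UU (y i) (q i)) {(z i, 0)}) G) :
    GmF S ends P lP rP nP (2 * w) := by
  have ho := pA_out (w := 2 * w) (by omega) hN hP hQ hPQ hn₀ hn₁ y q z hy hmon hz hzm K hKf hXc
    hKK hKP hKQ
  subst hN
  refine ho.jgridZ hw G hGf hGc (fun i hi => ?_) ?_ hlG (b := 1) (by omega) (fun i hi => ?_)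
    (fun x j g1 g2 _ g4 => hGP _ (by rw [mem_Reg]; exact ⟨g1, g2, g4⟩))
  · rw [Set.disjoint_left]
    intro v hv hvG
    rcases mem_blob.1 hv with h | ⟨c, hc, rfl⟩ | ⟨c, hc, rfl⟩
    · exact Set.disjoint_left.1 (hKG i hi) h hvG
    · have h1 := UU_box hc
      have h2 := hy i hi
      exact hGP c (by rw [mem_Reg]; omega) hvG
    · have h1 := hz i hi
      rw [mem_singleton_iff] at hc
      exact hGQ c (by rw [hc, mem_Reg]; simp only; omega) hvG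
  · rw [Set.disjoint_left]
    rintro v (⟨c, hc, rfl⟩ | ⟨c, hc, rfl⟩) hvG
    · exact hGP c hc.1 hvG
    · exact hGQ c hc.1 hvG
  · have g := hy i hi
    exact ⟨y i, g.1, g.2.1, mem_blob.2 (Or.inr (Or.inl ⟨_, UU_left (le_refl 1), rfl⟩))⟩

/-- **(A), unbalanced cycles `Y i` in the connectors.** -/
theorem pA_cycle (hF : Frm M S ends) {w N : ℕ} (hw : 1 ≤ w) (hN : N = w * w)
    (hP : Page S ends P lP rP nP) (hQ : Page S ends Q lQ rQ nQ)
    (hPQ : ∀ c ∈ Reg lP rP nP, ∀ c' ∈ Reg lQ rQ nQ, P c ≠ Q c')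
    (hn₀ : 1 + w ≤ nP) (hn₁ : w ≤ nQ) (y q z : ℕ → ℕ)
    (hy : ∀ i < N, lP ≤ y i ∧ y i ≤ rP ∧ lP ≤ q i ∧ q i ≤ rP)
    (hmon : (∀ i j, i < j → j < N → max (y i) (q i) < min (y j) (q j)) ∨
      (∀ i j, i < j → j < N → max (y j) (q j) < min (y i) (q i)))
    (hz : ∀ i < N, lQ ≤ z i ∧ z i ≤ rQ) (hzm : Mon N z)
    (K : ℕ → Set V) (hKf : ∀ i < N, (K i).Finite)
    (hXc : ∀ i < N, VConn S ends (Blob P Q (K i) (UU (y i) (q i)) {(z i, 0)}))
    (hKK : ∀ i < N, ∀ j < N, i ≠ j → Disjoint (K i) (K j))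
    (hKP : ∀ i < N, ∀ c ∈ Reg lP rP nP, P c ∉ K i) (hKQ : ∀ i < N, ∀ c ∈ Reg lQ rQ nQ, Q c ∉ K i)
    (Y : ℕ → Set V) (τ₀ : ℕ → Set α) (j : ℕ → α)
    (hY : ∀ i < N, Y i ⊆ K i) (hτ₀ : ∀ i < N, Arb S ends (Y i) (τ₀ i))
    (hj : ∀ i < N, j i ∈ ins S ends (Y i) ∧ j i ∉ τ₀ i)
    (hI : M.Indep (⋃ i ∈ Finset.range N, insert (j i) (τ₀ i))) :
    GmV M S ends P lP rP nP w := by
  have ho := pA_out hw hN hP hQ hPQ hn₀ hn₁ y q z hy hmon hz hzm K hKf hXc hKK hKP hKQ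
  subst hN
  exact ho.jgridU hF Y τ₀ j (fun i hi v hv => mem_blob.2 (Or.inl (hY i hi hv))) hτ₀ hj hI
    (b := 1) (by omega) fun i hi => ⟨y i, (hy i hi).1, (hy i hi).2.1,
      mem_blob.2 (Or.inr (Or.inl ⟨_, UU_left (le_refl 1), rfl⟩))⟩

/-- Connectivity of the blob: a rung connector `B` and a connector `B'` at `(q, 0)`. -/
lemma pA_conn (hP : Page S ends P lP rP nP) (hn : 1 ≤ nP) {B B' : Set V} {y q z : ℕ}
    (h1 : lP ≤ y) (h2 : y ≤ rP) (h3 : lP ≤ q) (h4 : q ≤ rP)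
    (hB : VConn S ends (B ∪ {P (y, 0), Q (z, 0)})) (hB' : VConn S ends (B' ∪ {P (q, 0)})) :
    VConn S ends (Blob P Q (B ∪ B') (UU y q) {(z, 0)}) := by
  have g1 := UU_conn hP hn h1 h2 h3 h4
  have g2 := blob_conn (A := UU y q) (A' := {(z, 0)}) hB (UU_left (by omega)) rfl g1 (by
    rw [image_singleton]; exact vconn_singleton _)
  refine vconn_congr (vc_union g2 hB' (c := P (q, 0)) (mem_blob.2 (Or.inr (Or.inl ⟨_,
    UU_right (by omega), rfl⟩))) (Or.inr rfl)) (fun v => ?_)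
  rw [mem_union, mem_blob, mem_blob]
  constructor
  · rintro ((h | h | h) | (h | h))
    · exact Or.inl (Or.inl h)
    · exact Or.inr (Or.inl h)
    · exact Or.inr (Or.inr h)
    · exact Or.inl (Or.inr h)
    · exact Or.inr (Or.inl ⟨_, UU_right (by omega), (mem_singleton_iff.1 h).symm⟩)
  · rintro ((h | h) | h | h)
    · exact Or.inl (Or.inl h)
    · exact Or.inr (Or.inl h)
    · exact Or.inl (Or.inr (Or.inl h))
    · exact Or.inl (Or.inr (Or.inr h))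

end

end EN
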