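import Pool.Agent.EN.PicJ

/-!
# The picture (CR): a glued line with crossing chords
-/

open Set
open scoped Matroid

namespace EN

open BIC Gad

variable {α V : Type*} {M : Matroid α} {S : Set α} {ends : α → Sym2 V}

/-- **(CR), increasing: rungs `a – b`, crossing chords `y – z` and `v – v'` on the page `P`.** -/
theorem cr_inc {w N : ℕ} (hw : 1 ≤ w) (hN : N = (2 * w) * (2 * w))
    {P Q : ℕ × ℕ → V} {lP rP nP lQ rQ nQ : ℕ} (hP : Page S ends P lP rP nP)
    (hQ : Page S ends Q lQ rQ nQ)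
    (hPQ : ∀ c ∈ Reg lP rP nP, ∀ c' ∈ Reg lQ rQ nQ, P c ≠ Q c')
    (hn₀ : 3 + 2 * w ≤ nP) (hn₁ : 2 * w ≤ nQ) (a b y z v v' : ℕ → ℕ)
    (hord : ∀ i < N, lP ≤ a i ∧ a i < y i ∧ y i < v i ∧ v i < z i ∧ z i < v' i ∧ v' i ≤ rP)
    (hord' : ∀ i, i + 1 < N → v' i < a (i + 1))
    (hb : ∀ i < N, lQ ≤ b i ∧ b i ≤ rQ) (hbm : Mon N b)
    (B J J' : ℕ → Set V) (hBf : ∀ i < N, (B i).Finite) (hJf : ∀ i < N, (J i).Finite)
    (hJf' : ∀ i < N, (J' i).Finite)
    (hB : ∀ i < N, VConn S ends (B i ∪ {P (a i, 0), Q (b i, 0)}))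
    (hJ : ∀ i < N, VConn S ends (J i ∪ {P (y i, 0), P (z i, 0)}))
    (hJ' : ∀ i < N, VConn S ends (J' i ∪ {P (v i, 0), P (v' i, 0)}))
    (hBB : ∀ i < N, ∀ j < N, i ≠ j → Disjoint (B i ∪ J i) (B j ∪ J j))
    (hBJ : ∀ i < N, ∀ j < N, Disjoint (B i ∪ J i) (J' j))
    (hBP : ∀ i < N, ∀ c ∈ Reg lP rP nP, P c ∉ B i ∪ J i ∪ J' i)
    (hBQ : ∀ i < N, ∀ c ∈ Reg lQ rQ nQ, Q c ∉ B i ∪ J i ∪ J' i) :
    GmF S ends P lP rP nP (2 * w) := by
  -- order
  have hstep : ∀ i j, i < j → j < N → v' i < a j := by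
    intro i j hij hj
    induction j with
    | zero => omega
    | succ j ih =>
      rcases Nat.lt_or_ge i j with h | h
      · have h1 := ih h (by omega)
        have h2 := hord j (by omega)
        have h3 := hord' j hj
        omega
      · have : i = j := by omega
        rw [this]
        exact hord' j hj
  have hstv : ∀ i k, i < k → k < N → v (i + 1) ≤ v k := by
    intro i k hik hk
    rcases Nat.lt_or_ge (i + 1) k with h | h
    · have h1 := hstep (i + 1) k h hk
      have h2 := hord (i + 1) (by omega)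
      have h3 := hord k hk
      omega
    · have : i + 1 = k := by omega
      rw [this]
  set A : ℕ → Set (ℕ × ℕ) := fun i => UU (a i) (y i) ∪
    (UU (a i) (y i) ∪ (Vert (z i) 0 3 ∪ HRow (z i) (v' i - 1) 1)) with hA
  set zC : ℕ → Set (ℕ × ℕ) := fun i => Vert (v i) 0 2 ∪
    (Vert (v' i) 0 2 ∪ HRow (v' i) (if i + 1 < N then v (i + 1) - 1 else v' i) 2) with hzC
  have hAmem : ∀ i < N, ∀ c ∈ A i, (a i ≤ c.1 ∧ c.1 ≤ y i ∧ c.2 ≤ 1) ∨ (c.1 = z i ∧ c.2 ≤ 3) ∨
      (z i ≤ c.1 ∧ c.1 < v' i ∧ c.2 = 1) := by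
    intro i hi c hc
    have h1 := hord i hi
    rcases hc with hc | hc | hc | hc
    · have := UU_box hc; omega
    · have := UU_box hc; omega
    · rw [mem_Vert] at hc; omega
    · rw [mem_HRow] at hc; omega
  have hzmem : ∀ i < N, ∀ c ∈ zC i, (c.1 = v i ∧ c.2 ≤ 2) ∨ (c.1 = v' i ∧ c.2 ≤ 2) ∨
      (v' i < c.1 ∧ c.2 = 2 ∧ i + 1 < N ∧ c.1 < v (i + 1)) := by
    intro i hi c hc
    rcases hc with hc | hc | hc
    · rw [mem_Vert] at hc; omega
    · rw [mem_Vert] at hc; omega
    · rw [mem_HRow] at hc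
      split_ifs at hc with h
      · have h1 := hord' i h
        have h2 := hord (i + 1) h
        omega
      · omega
  have hzR : ∀ i < N, zC i ⊆ Reg lP rP nP := by
    intro i hi c hc
    have h1 := hord i hi
    rw [mem_Reg]
    rcases hzmem i hi c hc with h | h | ⟨h2, h3, h4, h5⟩
    · omega
    · omega
    · have h6 := hord (i + 1) h4
      omega
  have hAR : ∀ i < N, A i ⊆ Reg lP rP nP := by
    intro i hi c hc
    have h1 := hord i hi
    rw [mem_Reg]
    rcases hAmem i hi c hc with h | h | h <;> omega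
  have key : ∀ i < N, ∀ c ∈ zC i, ∀ k < N, c ∉ A k := by
    intro i hi c hc k hk hck
    have h1 := hord i hi
    have h2 := hord k hk
    rcases Nat.lt_trichotomy i k with h | h | h
    · have h4 := hstep i k h hk
      have h5 := hstv i k h hk
      rcases hzmem i hi c hc with h6 | h6 | h6 <;> rcases hAmem k hk c hck with h7 | h7 | h7 <;>
        omega
    · subst h
      rcases hzmem i hi c hc with h6 | h6 | h6 <;> rcases hAmem i hk c hck with h7 | h7 | h7 <;>
        omega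
    · have h4 := hstep k i h hi
      rcases hzmem i hi c hc with h6 | h6 | h6 <;> rcases hAmem k hk c hck with h7 | h7 | h7 <;>
        omega
  have hd1 : ∀ i < N, ∀ c ∈ Reg lP rP nP, P c ∉ B i ∪ J i := fun i hi c hc h =>
    hBP i hi c hc (Or.inl h)
  have hd2 : ∀ i < N, ∀ c ∈ Reg lQ rQ nQ, Q c ∉ B i ∪ J i := fun i hi c hc h =>
    hBQ i hi c hc (Or.inl h)
  refine pic2Z hw hN hP hQ hPQ (b₀ := 3) (b₁ := 0) (by norm_num) hn₀ (by omega) z z b
    (fun i hi => by have := hord i hi; omega)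
    (Or.inl fun i j hij hj => by
      have h1 := hord i (by omega)
      have h2 := hord j hj
      have h3 := hstep i j hij hj
      omega) hb hbm (fun i => B i ∪ J i) A
    (fun i => {(b i, 0)} ∪ ∅) (fun i hi => (hBf i hi).union (hJf i hi)) hAR ?_ ?_ ?_ ?_ ?_ ?_ hBB
    hd1 hd2 ?_ ?_
    (⋃ i ∈ Finset.range N, J' i) (⋃ i ∈ Finset.range N, zC i) ∅ ?_ ?_ ?_ ?_ ?_ ?_ ?_ ?_ ?_
    ?_ ?_ ?_
  · intro i hi c hc
    have h1 := hb i hi
    rw [union_empty, mem_singleton_iff] at hc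
    rw [hc, mem_Reg]
    simp only
    omega
  · intro i hi
    have h1 := hord i hi
    have h2 := hb i hi
    have h3 := UU_conn hP (by omega) (a := a i) (b := y i) (by omega) (by omega) (by omega)
        (by omega)
    refine blob_union (blob_conn (hB i hi) (UU_left (by omega)) rfl h3 ?_)
      (blob_jump (hJ i hi) (UU_right (by omega)) (Or.inl (vm (by omega) (by omega))) h3
        (hP.strand_row (by omega) (by omega) (by omega) (by omega) (by omega) (by omega) (by omega)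
        (by omega) (by omega) (by omega)))
      (UU_left (c := 0) (by omega)) (Or.inl (UU_left (c := 0) (by omega)))
    rw [image_singleton]
    exact vconn_singleton _
  · intro i hi
    exact Or.inr (Or.inr (Or.inl (vm (by omega) (by omega))))
  · intro i hi c hc h
    have h1 := hord i hi
    rcases hAmem i hi c hc with h2 | h2 | h2 <;> omega
  · intro i hi
    exact Or.inl rfl
  · intro i hi c hc
    rw [union_empty, mem_singleton_iff] at hc
    rw [hc]
  · intro i hi j hj hij c hc hc'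
    have h1 := hord i hi
    have h2 := hord j hj
    have h3 : a i ≤ c.1 ∧ c.1 < v' i := by
      rcases hAmem i hi c hc with h2 | h2 | h2 <;> omega
    have h4 : a j ≤ c.1 ∧ c.1 < v' j := by
      rcases hAmem j hj c hc' with h2 | h2 | h2 <;> omega
    rcases Nat.lt_or_gt_of_ne hij with h | h
    · have := hstep i j h hj; omega
    · have := hstep j i h hi; omega
  · intro i hi j hj hij c hc hc'
    rw [union_empty, mem_singleton_iff] at hc hc'
    rw [hc, Prod.mk.injEq] at hc'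
    exact hij (mon_ne hbm i hi j hj hc'.1)
  · exact Set.Finite.biUnion (Finset.range N).finite_toSet (fun i hi => hJf' i (by
      simpa using hi))
  · intro c hc
    obtain ⟨i, hi, hci⟩ := mem_iUnion₂.1 hc
    exact hzR i (Finset.mem_range.1 hi) hci
  · exact empty_subset _
  · -- connectivity of `Z`
    have e : (∅ : Set (ℕ × ℕ)) = ⋃ i ∈ Finset.range N, (∅ : Set (ℕ × ℕ)) := by simp
    rw [e, blob_iUnion]
    refine vconn_chain _ (fun i hi => ?_) (fun i hi => ?_)
    · have h1 := hord i hi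
      refine blob_jump (hJ' i hi) (vm (by omega) (by omega)) (Or.inl (vm (by omega) (by omega)))
        (hP.vconn_ver (by omega) (by omega) (by omega)) ?_
      refine hP.strand_row (by omega) (by omega) (by omega) (by omega) ?_ (by omega) (by omega)
        (by omega) (le_refl _) ?_
      · split_ifs with h
        · have h2 := hord (i + 1) h; omega
        · omega
      · split_ifs with h
        · have h2 := hord' i h
          have h3 := hord (i + 1) h
          omega
        · omega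
    · have h1 := hord i (by omega)
      have h2 := hord (i + 1) hi
      have h3 := hord' i hi
      obtain ⟨e, he, hee⟩ := hP.hor (v (i + 1) - 1) 2 (by omega) (by omega) (by omega) (by omega)
      rw [Nat.sub_add_cancel (by omega)] at hee
      refine ⟨e, he, _, mem_blob.2 (Or.inr (Or.inl ⟨(v (i + 1) - 1, 2), ?_, rfl⟩)), _,
        mem_blob.2 (Or.inr (Or.inl ⟨(v (i + 1), 2), ?_, rfl⟩)), hee⟩
      · simp only [hzC]
        rw [if_pos hi]
        exact Or.inr (Or.inr (hm (by omega) (by omega)))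
      · exact Or.inl (vm (by omega) (by omega))
  · intro c hc
    obtain ⟨i, hi, hci⟩ := mem_iUnion₂.1 hc
    rcases hzmem i (Finset.mem_range.1 hi) c hci with h | h | h <;> omega
  · intro c hc
    exact absurd hc (by simp)
  · intro i hi
    rw [Set.disjoint_iUnion₂_right]
    exact fun j hj => hBJ i hi j (Finset.mem_range.1 hj)
  · intro c hc h
    obtain ⟨i, hi, hci⟩ := mem_iUnion₂.1 h
    exact hBP i (Finset.mem_range.1 hi) c hc (Or.inr hci)
  · intro c hc h
    obtain ⟨i, hi, hci⟩ := mem_iUnion₂.1 h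
    exact hBQ i (Finset.mem_range.1 hi) c hc (Or.inr hci)
  · intro k hk c hc hcZ
    obtain ⟨i, hi, hci⟩ := mem_iUnion₂.1 hcZ
    exact key i (Finset.mem_range.1 hi) c hci k hk hc
  · intro i _ c _ h
    exact absurd h (by simp)
  · intro i hi
    have h1 := hord i hi
    obtain ⟨e, he, hee⟩ := hP.hor (v' i - 1) 1 (by omega) (by omega) (by omega) (by omega)
    rw [Nat.sub_add_cancel (by omega)] at hee
    exact ⟨e, he, _, mem_blob.2 (Or.inr (Or.inl ⟨(v' i - 1, 1),
      Or.inr (Or.inr (Or.inr (hm (by omega) (by omega)))),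
      rfl⟩)), _, mem_blob.2 (Or.inr (Or.inl ⟨(v' i, 1), mem_iUnion₂.2 ⟨i, Finset.mem_range.2 hi,
      Or.inr (Or.inl (vm (by omega) (by omega)))⟩, rfl⟩)), hee⟩

/-- **(CR).** -/
theorem cr {w N : ℕ} (hw : 1 ≤ w) (hN : N = (2 * w) * (2 * w))
    {P Q : ℕ × ℕ → V} {lP rP nP lQ rQ nQ : ℕ} (hP : Page S ends P lP rP nP)
    (hQ : Page S ends Q lQ rQ nQ)
    (hPQ : ∀ c ∈ Reg lP rP nP, ∀ c' ∈ Reg lQ rQ nQ, P c ≠ Q c')
    (hn₀ : 3 + 2 * w ≤ nP) (hn₁ : 2 * w ≤ nQ) (σ : Bool) (a b y z v v' : ℕ → ℕ)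
    (haR : ∀ i < N, lP ≤ a i ∧ a i ≤ rP) (hyR : ∀ i < N, lP ≤ y i ∧ y i ≤ rP)
    (hzR : ∀ i < N, lP ≤ z i ∧ z i ≤ rP) (hvR : ∀ i < N, lP ≤ v i ∧ v i ≤ rP)
    (hvR' : ∀ i < N, lP ≤ v' i ∧ v' i ≤ rP)
    (hord : ∀ i < N, Ord σ (a i) (y i) ∧ Ord σ (y i) (v i) ∧ Ord σ (v i) (z i) ∧
      Ord σ (z i) (v' i))
    (hord' : ∀ i, i + 1 < N → Ord σ (v' i) (a (i + 1)))
    (hb : ∀ i < N, lQ ≤ b i ∧ b i ≤ rQ) (hbm : Mon N b)
    (B J J' : ℕ → Set V) (hBf : ∀ i < N, (B i).Finite) (hJf : ∀ i < N, (J i).Finite)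
    (hJf' : ∀ i < N, (J' i).Finite)
    (hB : ∀ i < N, VConn S ends (B i ∪ {P (a i, 0), Q (b i, 0)}))
    (hJ : ∀ i < N, VConn S ends (J i ∪ {P (y i, 0), P (z i, 0)}))
    (hJ' : ∀ i < N, VConn S ends (J' i ∪ {P (v i, 0), P (v' i, 0)}))
    (hBB : ∀ i < N, ∀ j < N, i ≠ j → Disjoint (B i ∪ J i) (B j ∪ J j))
    (hBJ : ∀ i < N, ∀ j < N, Disjoint (B i ∪ J i) (J' j))
    (hBP : ∀ i < N, ∀ c ∈ Reg lP rP nP, P c ∉ B i ∪ J i ∪ J' i)
    (hBQ : ∀ i < N, ∀ c ∈ Reg lQ rQ nQ, Q c ∉ B i ∪ J i ∪ J' i) :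
    GmF S ends P lP rP nP (2 * w) := by
  cases σ with
  | true =>
    simp only [ord_true] at hord hord'
    refine cr_inc hw hN hP hQ hPQ hn₀ hn₁ a b y z v v' (fun i hi => ?_) hord' hb hbm B J J' hBf
      hJf hJf' hB hJ hJ' hBB hBJ hBP hBQ
    have h1 := hord i hi
    exact ⟨(haR i hi).1, h1.1, h1.2.1, h1.2.2.1, h1.2.2.2, (hvR' i hi).2⟩
  | false =>
    simp only [ord_false] at hord hord'
    refine GmF.mirror (by omega) ?_
    refine cr_inc hw hN hP.mirror hQ (fun c hc c' hc' => hPQ _ (mirror_reg hc) c' hc') hn₀ hn₁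
      (fun i => lP + rP - a i) b (fun i => lP + rP - y i) (fun i => lP + rP - z i)
      (fun i => lP + rP - v i) (fun i => lP + rP - v' i)
      (fun i hi => ?_) (fun i hi => ?_) hb hbm B J J' hBf hJf hJf' (fun i hi => ?_)
      (fun i hi => ?_) (fun i hi => ?_) hBB hBJ
      (fun i hi c hc => hBP i hi _ (mirror_reg hc)) hBQ
    · have h1 := haR i hi
      have h2 := hyR i hi
      have h3 := hzR i hi
      have h4 := hvR i hi
      have h5 := hvR' i hi
      have h6 := hord i hi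
      omega
    · have h1 := hvR' i (by omega)
      have h2 := haR (i + 1) hi
      have h3 := hord' i hi
      omega
    · simp only
      rw [mirror_at (P := P) (haR i hi).1 (haR i hi).2]
      exact hB i hi
    · simp only
      rw [mirror_at (P := P) (hyR i hi).1 (hyR i hi).2,
        mirror_at (P := P) (hzR i hi).1 (hzR i hi).2]
      exact hJ i hi
    · simp only
      rw [mirror_at (P := P) (hvR i hi).1 (hvR i hi).2,
        mirror_at (P := P) (hvR' i hi).1 (hvR' i hi).2]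
      exact hJ' i hi

end EN
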