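import Pool.Agent.EN.Pic

/-!
# The pictures (SJ), (SJ'), (CR)
-/

open Set
open scoped Matroid

namespace EN

open BIC Gad

variable {α V : Type*} {M : Matroid α} {S : Set α} {ends : α → Sym2 V}

lemma mem_blob {P Q : ℕ × ℕ → V} {K : Set V} {A A' : Set (ℕ × ℕ)} {v : V} :
    v ∈ Blob P Q K A A' ↔ v ∈ K ∨ (∃ c ∈ A, P c = v) ∨ ∃ c ∈ A', Q c = v := by
  unfold Blob
  simp only [mem_union, mem_image]
  rw [or_assoc]

lemma blob_iUnion {P Q : ℕ × ℕ → V} {ι : Type*} (I : Finset ι) (K : ι → Set V)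
    (A A' : ι → Set (ℕ × ℕ)) : Blob P Q (⋃ i ∈ I, K i) (⋃ i ∈ I, A i) (⋃ i ∈ I, A' i) =
      ⋃ i ∈ I, Blob P Q (K i) (A i) (A' i) := by
  ext v
  rw [mem_blob]
  simp only [mem_iUnion, mem_blob, exists_prop]
  constructor
  · rintro (⟨i, hi, h⟩ | ⟨c, ⟨i, hi, h⟩, h'⟩ | ⟨c, ⟨i, hi, h⟩, h'⟩)
    · exact ⟨i, hi, Or.inl h⟩
    · exact ⟨i, hi, Or.inr (Or.inl ⟨c, h, h'⟩)⟩
    · exact ⟨i, hi, Or.inr (Or.inr ⟨c, h, h'⟩)⟩
  · rintro ⟨i, hi, h | ⟨c, h, h'⟩ | ⟨c, h, h'⟩⟩
    · exact Or.inl ⟨i, hi, h⟩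
    · exact Or.inr (Or.inl ⟨c, ⟨i, hi, h⟩, h'⟩)
    · exact Or.inr (Or.inr ⟨c, ⟨i, hi, h⟩, h'⟩)

/-- A rung with a piece of each page. -/
lemma blob_conn {P Q : ℕ × ℕ → V} {K : Set V} {A A' : Set (ℕ × ℕ)} {a a' : ℕ × ℕ}
    (hK : VConn S ends (K ∪ {P a, Q a'})) (ha : a ∈ A) (ha' : a' ∈ A')
    (hA : VConn S ends (P '' A)) (hA' : VConn S ends (Q '' A')) :
    VConn S ends (Blob P Q K A A') := by
  have h1 := vc_union (vc_union hK hA (c := P a) (Or.inr (Or.inl rfl)) ⟨_, ha, rfl⟩) hA'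
    (c := Q a') (Or.inl (Or.inr (Or.inr rfl))) ⟨_, ha', rfl⟩
  refine vconn_congr h1 (fun v => ?_)
  rw [mem_blob]
  constructor
  · rintro (((h | h | h) | ⟨c, hc, h⟩) | ⟨c, hc, h⟩)
    · exact Or.inl h
    · exact Or.inr (Or.inl ⟨a, ha, h.symm⟩)
    · exact Or.inr (Or.inr ⟨a', ha', (mem_singleton_iff.1 h).symm⟩)
    · exact Or.inr (Or.inl ⟨c, hc, h⟩)
    · exact Or.inr (Or.inr ⟨c, hc, h⟩)
  · rintro (h | ⟨c, hc, h⟩ | ⟨c, hc, h⟩)
    · exact Or.inl (Or.inl (Or.inl h))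
    · exact Or.inl (Or.inr ⟨c, hc, h⟩)
    · exact Or.inr ⟨c, hc, h⟩

/-- A jump with two pieces of the first page. -/
lemma blob_jump {P Q : ℕ × ℕ → V} {K : Set V} {A B : Set (ℕ × ℕ)} {a b : ℕ × ℕ}
    (hK : VConn S ends (K ∪ {P a, P b})) (ha : a ∈ A) (hb : b ∈ B)
    (hA : VConn S ends (P '' A)) (hB : VConn S ends (P '' B)) :
    VConn S ends (Blob P Q K (A ∪ B) ∅) := by
  have h1 := vc_union (vc_union hK hA (c := P a) (Or.inr (Or.inl rfl)) ⟨_, ha, rfl⟩) hB
    (c := P b) (Or.inl (Or.inr (Or.inr rfl))) ⟨_, hb, rfl⟩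
  refine vconn_congr h1 (fun v => ?_)
  rw [mem_blob]
  constructor
  · rintro (((h | h | h) | ⟨c, hc, h⟩) | ⟨c, hc, h⟩)
    · exact Or.inl h
    · exact Or.inr (Or.inl ⟨a, Or.inl ha, h.symm⟩)
    · exact Or.inr (Or.inl ⟨b, Or.inr hb, (mem_singleton_iff.1 h).symm⟩)
    · exact Or.inr (Or.inl ⟨c, Or.inl hc, h⟩)
    · exact Or.inr (Or.inl ⟨c, Or.inr hc, h⟩)
  · rintro (h | ⟨c, hc | hc, h⟩ | ⟨c, hc, h⟩)
    · exact Or.inl (Or.inl (Or.inl h))
    · exact Or.inl (Or.inr ⟨c, hc, h⟩)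
    · exact Or.inr ⟨c, hc, h⟩
    · exact absurd hc (by simp)

lemma blob_union {P Q : ℕ × ℕ → V} {K K₁ : Set V} {A A₁ A' A₁' : Set (ℕ × ℕ)}
    (h : VConn S ends (Blob P Q K A A')) (h₁ : VConn S ends (Blob P Q K₁ A₁ A₁'))
    {a : ℕ × ℕ} (ha : a ∈ A) (ha₁ : a ∈ A₁) :
    VConn S ends (Blob P Q (K ∪ K₁) (A ∪ A₁) (A' ∪ A₁')) := by
  have h1 := vc_union h h₁ (c := P a) (mem_blob.2 (Or.inr (Or.inl ⟨a, ha, rfl⟩)))
    (mem_blob.2 (Or.inr (Or.inl ⟨a, ha₁, rfl⟩)))
  refine vconn_congr h1 (fun v => ?_)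
  rw [mem_union, mem_blob, mem_blob, mem_blob]
  constructor
  · rintro ((h | ⟨c, hc, h⟩ | ⟨c, hc, h⟩) | (h | ⟨c, hc, h⟩ | ⟨c, hc, h⟩))
    · exact Or.inl (Or.inl h)
    · exact Or.inr (Or.inl ⟨c, Or.inl hc, h⟩)
    · exact Or.inr (Or.inr ⟨c, Or.inl hc, h⟩)
    · exact Or.inl (Or.inr h)
    · exact Or.inr (Or.inl ⟨c, Or.inr hc, h⟩)
    · exact Or.inr (Or.inr ⟨c, Or.inr hc, h⟩)
  · rintro ((h | h) | ⟨c, hc | hc, h⟩ | ⟨c, hc | hc, h⟩)
    · exact Or.inl (Or.inl h)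
    · exact Or.inr (Or.inl h)
    · exact Or.inl (Or.inr (Or.inl ⟨c, hc, h⟩))
    · exact Or.inr (Or.inr (Or.inl ⟨c, hc, h⟩))
    · exact Or.inl (Or.inr (Or.inr ⟨c, hc, h⟩))
    · exact Or.inr (Or.inr (Or.inr ⟨c, hc, h⟩))

/-- `VConn` of a strand and a piece of a row, joined. -/
lemma Page.strand_row {P : ℕ × ℕ → V} {l r n : ℕ} (hP : Page S ends P l r n) {x b₁ b₂ x₁ x₂ b : ℕ}
    (h1 : l ≤ x) (h2 : x ≤ r) (h3 : b₂ ≤ n) (h4 : l ≤ x₁) (h5 : x₂ ≤ r) (h6 : 1 ≤ b)
    (h7 : b₁ ≤ b) (h8 : b ≤ b₂) (h9 : x₁ ≤ x) (h10 : x ≤ x₂) :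
    VConn S ends (P '' (Vert x b₁ b₂ ∪ HRow x₁ x₂ b)) := by
  rw [image_union]
  exact vc_union (hP.vconn_ver h1 h2 h3) (hP.vconn_hor h4 h5 h6 (by omega)) (c := P (x, b))
    ⟨_, vm h7 h8, rfl⟩ ⟨_, hm h9 h10, rfl⟩

/-- Coordinates of the connected set `Z` of (SJ) near the member `i`. -/
def zSJ (N : ℕ) (y z : ℕ → ℕ) (i : ℕ) : Set (ℕ × ℕ) :=
  Vert (y i) 0 1 ∪ (Vert (z i) 0 1 ∪ HRow (z i) (if i + 1 < N then y (i + 1) - 1 else z i) 1)

/-- **(SJ), increasing on the page `P`: a local chord over the foot of a rung.** -/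
theorem sj_inc {w N : ℕ} (hw : 1 ≤ w) (hN : N = (2 * w) * (2 * w))
    {P Q : ℕ × ℕ → V} {lP rP nP lQ rQ nQ : ℕ} (hP : Page S ends P lP rP nP)
    (hQ : Page S ends Q lQ rQ nQ)
    (hPQ : ∀ c ∈ Reg lP rP nP, ∀ c' ∈ Reg lQ rQ nQ, P c ≠ Q c')
    (hn₀ : 2 + 2 * w ≤ nP) (hn₁ : 2 * w ≤ nQ) (p q y z : ℕ → ℕ)
    (hord : ∀ i < N, lP ≤ y i ∧ y i < p i ∧ p i < z i ∧ z i ≤ rP)
    (hord' : ∀ i, i + 1 < N → z i < y (i + 1))
    (hq : ∀ i < N, lQ ≤ q i ∧ q i ≤ rQ) (hqm : Mon N q)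
    (B J : ℕ → Set V) (hBf : ∀ i < N, (B i).Finite) (hJf : ∀ i < N, (J i).Finite)
    (hB : ∀ i < N, VConn S ends (B i ∪ {P (p i, 0), Q (q i, 0)}))
    (hJ : ∀ i < N, VConn S ends (J i ∪ {P (y i, 0), P (z i, 0)}))
    (hBB : ∀ i < N, ∀ j < N, i ≠ j → Disjoint (B i) (B j))
    (hBJ : ∀ i < N, ∀ j < N, Disjoint (B i) (J j))
    (hBP : ∀ i < N, ∀ c ∈ Reg lP rP nP, P c ∉ B i) (hBQ : ∀ i < N, ∀ c ∈ Reg lQ rQ nQ, Q c ∉ B i)
    (hJP : ∀ i < N, ∀ c ∈ Reg lP rP nP, P c ∉ J i)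
    (hJQ : ∀ i < N, ∀ c ∈ Reg lQ rQ nQ, Q c ∉ J i) :
    GmF S ends P lP rP nP (2 * w) := by
  -- order
  have hstep : ∀ i j, i < j → j < N → z i < y j := by
    intro i j hij hj
    induction j with
    | zero => omega
    | succ j ih =>
      rcases Nat.lt_or_ge i j with h | h
      · have h1 := ih h (by omega)
        have h2 := hord j (by omega)
        have h3 := hord' j hj
        omega
      · have : i = j := by omega
        rw [this]
        exact hord' j hj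
  have hzmem : ∀ i < N, ∀ c ∈ zSJ N y z i, (c.1 = y i ∧ c.2 ≤ 1) ∨ (z i ≤ c.1 ∧ c.2 ≤ 1 ∧
      (c.1 = z i ∨ (i + 1 < N ∧ c.1 < y (i + 1)))) := by
    intro i hi c hc
    unfold zSJ at hc
    rcases hc with hc | hc | hc
    · rw [mem_Vert] at hc; omega
    · rw [mem_Vert] at hc; omega
    · rw [mem_HRow] at hc
      split_ifs at hc with h
      · have h1 := hord' i h; omega
      · omega
  have hzR : ∀ i < N, zSJ N y z i ⊆ Reg lP rP nP := by
    intro i hi c hc
    have h1 := hord i hi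
    rw [mem_Reg]
    rcases hzmem i hi c hc with h | ⟨h2, h3, h | ⟨h4, h5⟩⟩
    · omega
    · omega
    · have h6 := hord (i + 1) h4
      omega
  have key : ∀ i < N, ∀ c ∈ zSJ N y z i, ∀ k < N, c ∉ Vert (p k) 0 2 ∪ HRow (y k + 1) (p k) 1 := by
    intro i hi c hc k hk hck
    have h1 := hord i hi
    have h2 := hord k hk
    have h3 : (c.1 = p k ∨ (y k < c.1 ∧ c.1 ≤ p k)) := by
      rcases hck with h | h
      · rw [mem_Vert] at h; omega
      · rw [mem_HRow] at h; omega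
    rcases Nat.lt_trichotomy i k with h | h | h
    · have h4 := hstep i k h hk
      rcases hzmem i hi c hc with h5 | ⟨h6, h7, h8 | ⟨h8, h9⟩⟩
      · omega
      · omega
      · have h10 : y (i + 1) ≤ y k := by
          rcases Nat.lt_or_ge (i + 1) k with h11 | h11
          · have h12 := hstep (i + 1) k h11 hk
            have h13 := hord (i + 1) (by omega)
            omega
          · have : i + 1 = k := by omega
            rw [this]
        omega
    · subst h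
      rcases hzmem i hi c hc with h5 | ⟨h6, h7, h8⟩
      · omega
      · omega
    · have h4 := hstep k i h hi
      rcases hzmem i hi c hc with h5 | ⟨h6, h7, h8⟩
      · omega
      · omega
  refine pic2Z hw hN hP hQ hPQ (b₀ := 2) (b₁ := 0) (by norm_num) hn₀ (by omega) p p q
    (fun i hi => by have := hord i hi; omega)
    (Or.inl fun i j hij hj => by
      have h1 := hord i (by omega)
      have h2 := hord j hj
      have h3 := hstep i j hij hj
      omega) hq hqm B (fun i => Vert (p i) 0 2 ∪ HRow (y i + 1) (p i) 1)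
    (fun i => {(q i, 0)}) hBf ?_ ?_ ?_ ?_ ?_ ?_ ?_ hBB hBP hBQ ?_ ?_
    (⋃ i ∈ Finset.range N, J i) (⋃ i ∈ Finset.range N, zSJ N y z i) ∅ ?_ ?_ ?_ ?_ ?_ ?_ ?_ ?_ ?_
    ?_ ?_ ?_
  · intro i hi c hc
    have h1 := hord i hi
    rw [mem_Reg]
    rcases hc with h | h
    · rw [mem_Vert] at h; omega
    · rw [mem_HRow] at h; omega
  · intro i hi c hc
    have h1 := hq i hi
    rw [mem_singleton_iff] at hc
    rw [hc, mem_Reg]
    simp only
    omega
  · intro i hi
    have h1 := hord i hi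
    refine blob_conn (hB i hi) (Or.inl (vm (by omega) (by omega))) rfl
      (hP.strand_row (by omega) (by omega) (by omega) (by omega) (by omega) (by omega) (by omega)
        (by omega) (by omega) (by omega)) ?_
    rw [image_singleton]
    exact vconn_singleton _
  · intro i hi
    exact Or.inl (vm (by omega) (by omega))
  · intro i hi c hc h
    rcases hc with h1 | h1
    · rw [mem_Vert] at h1; omega
    · rw [mem_HRow] at h1; omega
  · intro i hi
    exact rfl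
  · intro i hi c hc
    rw [mem_singleton_iff] at hc
    rw [hc]
  · intro i hi j hj hij c hc hc'
    have h1 := hord i hi
    have h2 := hord j hj
    have h3 : y i < c.1 ∧ c.1 < z i := by
      rcases hc with h | h
      · rw [mem_Vert] at h; omega
      · rw [mem_HRow] at h; omega
    have h4 : y j < c.1 ∧ c.1 < z j := by
      rcases hc' with h | h
      · rw [mem_Vert] at h; omega
      · rw [mem_HRow] at h; omega
    rcases Nat.lt_or_gt_of_ne hij with h | h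
    · have := hstep i j h hj; omega
    · have := hstep j i h hi; omega
  · intro i hi j hj hij c hc hc'
    rw [mem_singleton_iff] at hc hc'
    rw [hc, Prod.mk.injEq] at hc'
    exact hij (mon_ne hqm i hi j hj hc'.1)
  · exact Set.Finite.biUnion (Finset.range N).finite_toSet (fun i hi => hJf i (by
      simpa using hi))
  · intro c hc
    obtain ⟨i, hi, hci⟩ := mem_iUnion₂.1 hc
    exact hzR i (Finset.mem_range.1 hi) hci
  · exact empty_subset _
  · -- connectivity of `Z`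
    have e : (∅ : Set (ℕ × ℕ)) = ⋃ i ∈ Finset.range N, (∅ : Set (ℕ × ℕ)) := by simp
    rw [e, blob_iUnion]
    refine vconn_chain _ (fun i hi => ?_) (fun i hi => ?_)
    · have h1 := hord i hi
      refine blob_jump (hJ i hi) (vm (by omega) (by omega)) (Or.inl (vm (by omega) (by omega)))
        (hP.vconn_ver (by omega) (by omega) (by omega)) ?_
      refine hP.strand_row (by omega) (by omega) (by omega) (by omega) ?_ (by omega) (by omega)
        (by omega) (le_refl _) ?_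
      · split_ifs with h
        · have h2 := hord (i + 1) h; omega
        · omega
      · split_ifs with h
        · have h2 := hord' i h; omega
        · omega
    · have h1 := hord i (by omega)
      have h2 := hord (i + 1) hi
      have h3 := hord' i hi
      obtain ⟨e, he, hee⟩ := hP.hor (y (i + 1) - 1) 1 (by omega) (by omega) (by omega) (by omega)
      rw [Nat.sub_add_cancel (by omega)] at hee
      refine ⟨e, he, _, mem_blob.2 (Or.inr (Or.inl ⟨(y (i + 1) - 1, 1), ?_, rfl⟩)), _,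
        mem_blob.2 (Or.inr (Or.inl ⟨(y (i + 1), 1), ?_, rfl⟩)), hee⟩
      · unfold zSJ
        rw [if_pos hi]
        exact Or.inr (Or.inr (hm (by omega) (by omega)))
      · exact Or.inl (vm (by omega) (by omega))
  · intro c hc
    obtain ⟨i, hi, hci⟩ := mem_iUnion₂.1 hc
    rcases hzmem i (Finset.mem_range.1 hi) c hci with h | h <;> omega
  · intro c hc
    exact absurd hc (by simp)
  · intro i hi
    rw [Set.disjoint_iUnion₂_right]
    exact fun j hj => hBJ i hi j (Finset.mem_range.1 hj)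
  · intro c hc h
    obtain ⟨i, hi, hci⟩ := mem_iUnion₂.1 h
    exact hJP i (Finset.mem_range.1 hi) c hc hci
  · intro c hc h
    obtain ⟨i, hi, hci⟩ := mem_iUnion₂.1 h
    exact hJQ i (Finset.mem_range.1 hi) c hc hci
  · intro k hk c hc hcZ
    obtain ⟨i, hi, hci⟩ := mem_iUnion₂.1 hcZ
    exact key i (Finset.mem_range.1 hi) c hci k hk hc
  · intro i _ c _ h
    exact absurd h (by simp)
  · intro i hi
    have h1 := hord i hi
    obtain ⟨e, he, hee⟩ := hP.hor (y i) 1 (by omega) (by omega) (by omega) (by omega)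
    refine ⟨e, he, _, mem_blob.2 (Or.inr (Or.inl ⟨(y i + 1, 1), Or.inr (hm (by omega) (by omega)),
      rfl⟩)), _, mem_blob.2 (Or.inr (Or.inl ⟨(y i, 1), mem_iUnion₂.2 ⟨i, Finset.mem_range.2 hi,
      Or.inl (vm (by omega) (by omega))⟩, rfl⟩)), by rw [hee, Sym2.eq_swap]⟩

/-! ### Orientation -/

/-- `a` before `b` in the direction `σ`. -/
def Ord (σ : Bool) (a b : ℕ) : Prop := if σ then a < b else b < a

lemma ord_true {a b : ℕ} : Ord true a b ↔ a < b := by unfold Ord; simp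

lemma ord_false {a b : ℕ} : Ord false a b ↔ b < a := by unfold Ord; simp

lemma mirror_reg {l r n : ℕ} {c : ℕ × ℕ} (hc : c ∈ Reg l r n) :
    (l + r - c.1, c.2) ∈ Reg l r n := by
  rw [mem_Reg] at hc ⊢
  simp only
  omega

lemma mirror_at {P : ℕ × ℕ → V} {l r x b : ℕ} (h1 : l ≤ x) (h2 : x ≤ r) :
    P (l + r - (l + r - x), b) = P (x, b) := by
  rw [show l + r - (l + r - x) = x by omega]

/-- **(SJ).** A local chord over the foot of a rung. -/
theorem sj {w N : ℕ} (hw : 1 ≤ w) (hN : N = (2 * w) * (2 * w))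
    {P Q : ℕ × ℕ → V} {lP rP nP lQ rQ nQ : ℕ} (hP : Page S ends P lP rP nP)
    (hQ : Page S ends Q lQ rQ nQ)
    (hPQ : ∀ c ∈ Reg lP rP nP, ∀ c' ∈ Reg lQ rQ nQ, P c ≠ Q c')
    (hn₀ : 2 + 2 * w ≤ nP) (hn₁ : 2 * w ≤ nQ) (σ : Bool) (p q y z : ℕ → ℕ)
    (hpR : ∀ i < N, lP ≤ p i ∧ p i ≤ rP) (hyR : ∀ i < N, lP ≤ y i ∧ y i ≤ rP)
    (hzR : ∀ i < N, lP ≤ z i ∧ z i ≤ rP)
    (hord : ∀ i < N, Ord σ (y i) (p i) ∧ Ord σ (p i) (z i))
    (hord' : ∀ i, i + 1 < N → Ord σ (z i) (y (i + 1)))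
    (hq : ∀ i < N, lQ ≤ q i ∧ q i ≤ rQ) (hqm : Mon N q)
    (B J : ℕ → Set V) (hBf : ∀ i < N, (B i).Finite) (hJf : ∀ i < N, (J i).Finite)
    (hB : ∀ i < N, VConn S ends (B i ∪ {P (p i, 0), Q (q i, 0)}))
    (hJ : ∀ i < N, VConn S ends (J i ∪ {P (y i, 0), P (z i, 0)}))
    (hBB : ∀ i < N, ∀ j < N, i ≠ j → Disjoint (B i) (B j))
    (hBJ : ∀ i < N, ∀ j < N, Disjoint (B i) (J j))
    (hBP : ∀ i < N, ∀ c ∈ Reg lP rP nP, P c ∉ B i) (hBQ : ∀ i < N, ∀ c ∈ Reg lQ rQ nQ, Q c ∉ B i)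
    (hJP : ∀ i < N, ∀ c ∈ Reg lP rP nP, P c ∉ J i)
    (hJQ : ∀ i < N, ∀ c ∈ Reg lQ rQ nQ, Q c ∉ J i) :
    GmF S ends P lP rP nP (2 * w) := by
  cases σ with
  | true =>
    simp only [ord_true] at hord hord'
    refine sj_inc hw hN hP hQ hPQ hn₀ hn₁ p q y z (fun i hi => ?_) hord' hq hqm B J hBf hJf hB
      hJ hBB hBJ hBP hBQ hJP hJQ
    exact ⟨(hyR i hi).1, (hord i hi).1, (hord i hi).2, (hzR i hi).2⟩
  | false =>
    simp only [ord_false] at hord hord'
    refine GmF.mirror (by omega) ?_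
    refine sj_inc hw hN hP.mirror hQ (fun c hc c' hc' => hPQ _ (mirror_reg hc) c' hc') hn₀ hn₁
      (fun i => lP + rP - p i) q (fun i => lP + rP - y i) (fun i => lP + rP - z i)
      (fun i hi => ?_) (fun i hi => ?_) hq hqm B J hBf hJf (fun i hi => ?_) (fun i hi => ?_) hBB hBJ
      (fun i hi c hc => hBP i hi _ (mirror_reg hc)) hBQ
      (fun i hi c hc => hJP i hi _ (mirror_reg hc)) hJQ
    · have h1 := hyR i hi
      have h2 := hpR i hi
      have h3 := hzR i hi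
      have h4 := hord i hi
      omega
    · have h1 := hzR i (by omega)
      have h2 := hyR (i + 1) hi
      have h3 := hord' i hi
      omega
    · simp only
      rw [mirror_at (P := P) (hpR i hi).1 (hpR i hi).2]
      exact hB i hi
    · simp only
      rw [mirror_at (P := P) (hyR i hi).1 (hyR i hi).2,
        mirror_at (P := P) (hzR i hi).1 (hzR i hi).2]
      exact hJ i hi

lemma blob_union' {P Q : ℕ × ℕ → V} {K K₁ : Set V} {A A₁ A' A₁' : Set (ℕ × ℕ)}
    (h : VConn S ends (Blob P Q K A A')) (h₁ : VConn S ends (Blob P Q K₁ A₁ A₁'))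
    {a : ℕ × ℕ} (ha : a ∈ A') (ha₁ : a ∈ A₁') :
    VConn S ends (Blob P Q (K ∪ K₁) (A ∪ A₁) (A' ∪ A₁')) := by
  have h1 := vc_union h h₁ (c := Q a) (mem_blob.2 (Or.inr (Or.inr ⟨a, ha, rfl⟩)))
    (mem_blob.2 (Or.inr (Or.inr ⟨a, ha₁, rfl⟩)))
  refine vconn_congr h1 (fun v => ?_)
  rw [mem_union, mem_blob, mem_blob, mem_blob]
  constructor
  · rintro ((h | ⟨c, hc, h⟩ | ⟨c, hc, h⟩) | (h | ⟨c, hc, h⟩ | ⟨c, hc, h⟩))
    · exact Or.inl (Or.inl h)
    · exact Or.inr (Or.inl ⟨c, Or.inl hc, h⟩)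
    · exact Or.inr (Or.inr ⟨c, Or.inl hc, h⟩)
    · exact Or.inl (Or.inr h)
    · exact Or.inr (Or.inl ⟨c, Or.inr hc, h⟩)
    · exact Or.inr (Or.inr ⟨c, Or.inr hc, h⟩)
  · rintro ((h | h) | ⟨c, hc | hc, h⟩ | ⟨c, hc | hc, h⟩)
    · exact Or.inl (Or.inl h)
    · exact Or.inr (Or.inl h)
    · exact Or.inl (Or.inr (Or.inl ⟨c, hc, h⟩))
    · exact Or.inr (Or.inr (Or.inl ⟨c, hc, h⟩))
    · exact Or.inl (Or.inr (Or.inr ⟨c, hc, h⟩))
    · exact Or.inr (Or.inr (Or.inr ⟨c, hc, h⟩))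

/-! ### Crossing rungs -/

/-- **(SJ'), increasing: a rung `y – z` crossing the rung `p – q`, and a return rung `p' – q'`.** -/
theorem sx_inc {w N : ℕ} (hw : 1 ≤ w) (hN : N = (2 * w) * (2 * w))
    {P Q : ℕ × ℕ → V} {lP rP nP lQ rQ nQ : ℕ} (hP : Page S ends P lP rP nP)
    (hQ : Page S ends Q lQ rQ nQ)
    (hPQ : ∀ c ∈ Reg lP rP nP, ∀ c' ∈ Reg lQ rQ nQ, P c ≠ Q c')
    (hn₀ : 2 + 2 * w ≤ nP) (hn₁ : 1 + 2 * w ≤ nQ) (p q y z p' q' : ℕ → ℕ)
    (hord : ∀ i < N, lP ≤ y i ∧ y i < p i ∧ p i < p' i ∧ p' i ≤ rP)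
    (hord' : ∀ i, i + 1 < N → p' i < y (i + 1))
    (hoq : ∀ i < N, lQ ≤ q i ∧ q i < z i ∧ z i < q' i ∧ q' i ≤ rQ)
    (hoq' : ∀ i, i + 1 < N → q' i < q (i + 1))
    (B J R : ℕ → Set V) (hBf : ∀ i < N, (B i).Finite) (hJf : ∀ i < N, (J i).Finite)
    (hRf : ∀ i < N, (R i).Finite)
    (hB : ∀ i < N, VConn S ends (B i ∪ {P (p i, 0), Q (q i, 0)}))
    (hJ : ∀ i < N, VConn S ends (J i ∪ {P (y i, 0), Q (z i, 0)}))
    (hR : ∀ i < N, VConn S ends (R i ∪ {P (p' i, 0), Q (q' i, 0)}))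
    (hBB : ∀ i < N, ∀ j < N, i ≠ j → Disjoint (B i) (B j))
    (hBJ : ∀ i < N, ∀ j < N, Disjoint (B i) (J j)) (hBR : ∀ i < N, ∀ j < N, Disjoint (B i) (R j))
    (hBP : ∀ i < N, ∀ c ∈ Reg lP rP nP, P c ∉ B i) (hBQ : ∀ i < N, ∀ c ∈ Reg lQ rQ nQ, Q c ∉ B i)
    (hJP : ∀ i < N, ∀ c ∈ Reg lP rP nP, P c ∉ J i) (hJQ : ∀ i < N, ∀ c ∈ Reg lQ rQ nQ, Q c ∉ J i)
    (hRP : ∀ i < N, ∀ c ∈ Reg lP rP nP, P c ∉ R i)
    (hRQ : ∀ i < N, ∀ c ∈ Reg lQ rQ nQ, Q c ∉ R i) :
    GmF S ends P lP rP nP (2 * w) := by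
  -- order
  have hstep : ∀ i j, i < j → j < N → p' i < y j := by
    intro i j hij hj
    induction j with
    | zero => omega
    | succ j ih =>
      rcases Nat.lt_or_ge i j with h | h
      · have h1 := ih h (by omega)
        have h2 := hord j (by omega)
        have h3 := hord' j hj
        omega
      · have : i = j := by omega
        rw [this]
        exact hord' j hj
  have hstq : ∀ i j, i < j → j < N → q' i < q j := by
    intro i j hij hj
    induction j with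
    | zero => omega
    | succ j ih =>
      rcases Nat.lt_or_ge i j with h | h
      · have h1 := ih h (by omega)
        have h2 := hoq j (by omega)
        have h3 := hoq' j hj
        omega
      · have : i = j := by omega
        rw [this]
        exact hoq' j hj
  have hqm : Mon N q := Or.inl fun i j hij hj => by
    have h1 := hoq i (by omega)
    have h2 := hstq i j hij hj
    omega
  set zP : ℕ → Set (ℕ × ℕ) := fun i => Vert (y i) 0 1 ∪
    (Vert (p' i) 0 1 ∪ HRow (p' i) (if i + 1 < N then y (i + 1) - 1 else p' i) 1) with hzP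
  have hzmem : ∀ i < N, ∀ c ∈ zP i, (c.1 = y i ∧ c.2 ≤ 1) ∨ (p' i ≤ c.1 ∧ c.2 ≤ 1 ∧
      (c.1 = p' i ∨ (i + 1 < N ∧ c.1 < y (i + 1)))) := by
    intro i hi c hc
    rcases hc with hc | hc | hc
    · rw [mem_Vert] at hc; omega
    · rw [mem_Vert] at hc; omega
    · rw [mem_HRow] at hc
      split_ifs at hc with h
      · have h1 := hord' i h; omega
      · omega
  have hzR : ∀ i < N, zP i ⊆ Reg lP rP nP := by
    intro i hi c hc
    have h1 := hord i hi
    rw [mem_Reg]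
    rcases hzmem i hi c hc with h | ⟨h2, h3, h | ⟨h4, h5⟩⟩
    · omega
    · omega
    · have h6 := hord (i + 1) h4
      omega
  have key : ∀ i < N, ∀ c ∈ zP i, ∀ k < N, c ∉ Vert (p k) 0 2 ∪ HRow (y k + 1) (p k) 1 := by
    intro i hi c hc k hk hck
    have h1 := hord i hi
    have h2 := hord k hk
    have h3 : (c.1 = p k ∨ (y k < c.1 ∧ c.1 ≤ p k)) := by
      rcases hck with h | h
      · rw [mem_Vert] at h; omega
      · rw [mem_HRow] at h; omega
    rcases Nat.lt_trichotomy i k with h | h | h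
    · have h4 := hstep i k h hk
      rcases hzmem i hi c hc with h5 | ⟨h6, h7, h8 | ⟨h8, h9⟩⟩
      · omega
      · omega
      · have h10 : y (i + 1) ≤ y k := by
          rcases Nat.lt_or_ge (i + 1) k with h11 | h11
          · have h12 := hstep (i + 1) k h11 hk
            have h13 := hord (i + 1) (by omega)
            omega
          · have : i + 1 = k := by omega
            rw [this]
        omega
    · subst h
      rcases hzmem i hi c hc with h5 | ⟨h6, h7, h8⟩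
      · omega
      · omega
    · have h4 := hstep k i h hi
      rcases hzmem i hi c hc with h5 | ⟨h6, h7, h8⟩
      · omega
      · omega
  refine pic2Z hw hN hP hQ hPQ (b₀ := 2) (b₁ := 1) (by norm_num) hn₀ hn₁ p p q
    (fun i hi => by have := hord i hi; omega)
    (Or.inl fun i j hij hj => by
      have h1 := hord i (by omega)
      have h2 := hord j hj
      have h3 := hstep i j hij hj
      omega) (fun i hi => by have := hoq i hi; omega) hqm B
    (fun i => Vert (p i) 0 2 ∪ HRow (y i + 1) (p i) 1)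
    (fun i => Vert (q i) 0 1) hBf ?_ ?_ ?_ ?_ ?_ ?_ ?_ hBB hBP hBQ ?_ ?_
    (⋃ i ∈ Finset.range N, (J i ∪ R i)) (⋃ i ∈ Finset.range N, zP i)
    (⋃ i ∈ Finset.range N, (UU (z i) (q' i) ∪ UU (z i) (q' i))) ?_ ?_ ?_ ?_ ?_ ?_ ?_ ?_ ?_
    ?_ ?_ ?_
  · intro i hi c hc
    have h1 := hord i hi
    rw [mem_Reg]
    rcases hc with h | h
    · rw [mem_Vert] at h; omega
    · rw [mem_HRow] at h; omega
  · intro i hi c hc
    have h1 := hoq i hi
    rw [mem_Vert] at hc
    rw [mem_Reg]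
    omega
  · intro i hi
    have h1 := hord i hi
    have h2 := hoq i hi
    exact blob_conn (hB i hi) (Or.inl (vm (by omega) (by omega))) (vm (by omega) (by omega))
      (hP.strand_row (by omega) (by omega) (by omega) (by omega) (by omega) (by omega) (by omega)
        (by omega) (by omega) (by omega)) (hQ.vconn_ver (by omega) (by omega) (by omega))
  · intro i hi
    exact Or.inl (vm (by omega) (by omega))
  · intro i hi c hc h
    rcases hc with h1 | h1
    · rw [mem_Vert] at h1; omega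
    · rw [mem_HRow] at h1; omega
  · intro i hi
    exact vm (by omega) (by omega)
  · intro i hi c hc
    rw [mem_Vert] at hc
    omega
  · intro i hi j hj hij c hc hc'
    have h1 := hord i hi
    have h2 := hord j hj
    have h3 : y i < c.1 ∧ c.1 < p' i := by
      rcases hc with h | h
      · rw [mem_Vert] at h; omega
      · rw [mem_HRow] at h; omega
    have h4 : y j < c.1 ∧ c.1 < p' j := by
      rcases hc' with h | h
      · rw [mem_Vert] at h; omega
      · rw [mem_HRow] at h; omega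
    rcases Nat.lt_or_gt_of_ne hij with h | h
    · have := hstep i j h hj; omega
    · have := hstep j i h hi; omega
  · intro i hi j hj hij c hc hc'
    rw [mem_Vert] at hc hc'
    exact hij (mon_ne hqm i hi j hj (by omega))
  · exact Set.Finite.biUnion (Finset.range N).finite_toSet (fun i hi => (hJf i (by
      simpa using hi)).union (hRf i (by simpa using hi)))
  · intro c hc
    obtain ⟨i, hi, hci⟩ := mem_iUnion₂.1 hc
    exact hzR i (Finset.mem_range.1 hi) hci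
  · intro c hc
    obtain ⟨i, hi, hci⟩ := mem_iUnion₂.1 hc
    have h1 := hoq i (Finset.mem_range.1 hi)
    have h2 : c ∈ UU (z i) (q' i) := by
      rcases hci with h | h <;> exact h
    have h3 := UU_box h2
    rw [mem_Reg]
    omega
  · -- connectivity of `Z`
    rw [blob_iUnion]
    refine vconn_chain _ (fun i hi => ?_) (fun i hi => ?_)
    · have h1 := hord i hi
      have h2 := hoq i hi
      have h3 := UU_conn hQ (by omega) (a := z i) (b := q' i) (by omega) (by omega) (by omega)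
        (by omega)
      refine blob_union' (blob_conn (hJ i hi) (vm (by omega) (by omega)) (UU_left (by omega))
        (hP.vconn_ver (by omega) (by omega) (by omega)) h3)
        (blob_conn (hR i hi) (Or.inl (vm (by omega) (by omega))) (UU_right (by omega)) ?_ h3)
        (UU_left (c := 0) (by omega)) (UU_left (c := 0) (by omega))
      refine hP.strand_row (by omega) (by omega) (by omega) (by omega) ?_ (by omega) (by omega)
        (by omega) (le_refl _) ?_
      · split_ifs with h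
        · have h2 := hord (i + 1) h; omega
        · omega
      · split_ifs with h
        · have h2 := hord' i h; omega
        · omega
    · have h1 := hord i (by omega)
      have h2 := hord (i + 1) hi
      have h3 := hord' i hi
      obtain ⟨e, he, hee⟩ := hP.hor (y (i + 1) - 1) 1 (by omega) (by omega) (by omega) (by omega)
      rw [Nat.sub_add_cancel (by omega)] at hee
      refine ⟨e, he, _, mem_blob.2 (Or.inr (Or.inl ⟨(y (i + 1) - 1, 1), ?_, rfl⟩)), _,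
        mem_blob.2 (Or.inr (Or.inl ⟨(y (i + 1), 1), ?_, rfl⟩)), hee⟩
      · simp only [hzP]
        rw [if_pos hi]
        exact Or.inr (Or.inr (hm (by omega) (by omega)))
      · exact Or.inl (vm (by omega) (by omega))
  · intro c hc
    obtain ⟨i, hi, hci⟩ := mem_iUnion₂.1 hc
    rcases hzmem i (Finset.mem_range.1 hi) c hci with h | h <;> omega
  · intro c hc
    obtain ⟨i, hi, hci⟩ := mem_iUnion₂.1 hc
    have h2 : c ∈ UU (z i) (q' i) := by
      rcases hci with h | h <;> exact h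
    exact (UU_box h2).2.2
  · intro i hi
    rw [Set.disjoint_iUnion₂_right]
    intro j hj
    rw [Set.disjoint_union_right]
    exact ⟨hBJ i hi j (Finset.mem_range.1 hj), hBR i hi j (Finset.mem_range.1 hj)⟩
  · intro c hc h
    obtain ⟨i, hi, hci | hci⟩ := mem_iUnion₂.1 h
    · exact hJP i (Finset.mem_range.1 hi) c hc hci
    · exact hRP i (Finset.mem_range.1 hi) c hc hci
  · intro c hc h
    obtain ⟨i, hi, hci | hci⟩ := mem_iUnion₂.1 h
    · exact hJQ i (Finset.mem_range.1 hi) c hc hci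
    · exact hRQ i (Finset.mem_range.1 hi) c hc hci
  · intro k hk c hc hcZ
    obtain ⟨i, hi, hci⟩ := mem_iUnion₂.1 hcZ
    exact key i (Finset.mem_range.1 hi) c hci k hk hc
  · intro k hk c hc hcZ
    obtain ⟨i, hi, hci⟩ := mem_iUnion₂.1 hcZ
    have h2 : c ∈ UU (z i) (q' i) := by
      rcases hci with h | h <;> exact h
    have h3 := UU_box h2
    have h4 := hoq i (Finset.mem_range.1 hi)
    have h5 := hoq k hk
    rw [mem_Vert] at hc
    rcases Nat.lt_trichotomy i k with h | h | h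
    · have := hstq i k h hk; omega
    · subst h; omega
    · have := hstq k i h (Finset.mem_range.1 hi); omega
  · intro i hi
    have h1 := hord i hi
    obtain ⟨e, he, hee⟩ := hP.hor (y i) 1 (by omega) (by omega) (by omega) (by omega)
    refine ⟨e, he, _, mem_blob.2 (Or.inr (Or.inl ⟨(y i + 1, 1), Or.inr (hm (by omega) (by omega)),
      rfl⟩)), _, mem_blob.2 (Or.inr (Or.inl ⟨(y i, 1), mem_iUnion₂.2 ⟨i, Finset.mem_range.2 hi,
      Or.inl (vm (by omega) (by omega))⟩, rfl⟩)), by rw [hee, Sym2.eq_swap]⟩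

/-- **(SJ').** Two crossing rungs and a return rung. -/
theorem sx {w N : ℕ} (hw : 1 ≤ w) (hN : N = (2 * w) * (2 * w))
    {P Q : ℕ × ℕ → V} {lP rP nP lQ rQ nQ : ℕ} (hP : Page S ends P lP rP nP)
    (hQ : Page S ends Q lQ rQ nQ)
    (hPQ : ∀ c ∈ Reg lP rP nP, ∀ c' ∈ Reg lQ rQ nQ, P c ≠ Q c')
    (hn₀ : 2 + 2 * w ≤ nP) (hn₁ : 1 + 2 * w ≤ nQ) (σ τ : Bool) (p q y z p' q' : ℕ → ℕ)
    (hpR : ∀ i < N, lP ≤ p i ∧ p i ≤ rP) (hyR : ∀ i < N, lP ≤ y i ∧ y i ≤ rP)
    (hpR' : ∀ i < N, lP ≤ p' i ∧ p' i ≤ rP) (hqR : ∀ i < N, lQ ≤ q i ∧ q i ≤ rQ)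
    (hzR : ∀ i < N, lQ ≤ z i ∧ z i ≤ rQ) (hqR' : ∀ i < N, lQ ≤ q' i ∧ q' i ≤ rQ)
    (hord : ∀ i < N, Ord σ (y i) (p i) ∧ Ord σ (p i) (p' i))
    (hord' : ∀ i, i + 1 < N → Ord σ (p' i) (y (i + 1)))
    (hoq : ∀ i < N, Ord τ (q i) (z i) ∧ Ord τ (z i) (q' i))
    (hoq' : ∀ i, i + 1 < N → Ord τ (q' i) (q (i + 1)))
    (B J R : ℕ → Set V) (hBf : ∀ i < N, (B i).Finite) (hJf : ∀ i < N, (J i).Finite)
    (hRf : ∀ i < N, (R i).Finite)
    (hB : ∀ i < N, VConn S ends (B i ∪ {P (p i, 0), Q (q i, 0)}))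
    (hJ : ∀ i < N, VConn S ends (J i ∪ {P (y i, 0), Q (z i, 0)}))
    (hR : ∀ i < N, VConn S ends (R i ∪ {P (p' i, 0), Q (q' i, 0)}))
    (hBB : ∀ i < N, ∀ j < N, i ≠ j → Disjoint (B i) (B j))
    (hBJ : ∀ i < N, ∀ j < N, Disjoint (B i) (J j)) (hBR : ∀ i < N, ∀ j < N, Disjoint (B i) (R j))
    (hBP : ∀ i < N, ∀ c ∈ Reg lP rP nP, P c ∉ B i) (hBQ : ∀ i < N, ∀ c ∈ Reg lQ rQ nQ, Q c ∉ B i)
    (hJP : ∀ i < N, ∀ c ∈ Reg lP rP nP, P c ∉ J i) (hJQ : ∀ i < N, ∀ c ∈ Reg lQ rQ nQ, Q c ∉ J i)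
    (hRP : ∀ i < N, ∀ c ∈ Reg lP rP nP, P c ∉ R i)
    (hRQ : ∀ i < N, ∀ c ∈ Reg lQ rQ nQ, Q c ∉ R i) :
    GmF S ends P lP rP nP (2 * w) := by
  have key : ∀ (P : ℕ × ℕ → V) (p y p' : ℕ → ℕ), Page S ends P lP rP nP →
      (∀ c ∈ Reg lP rP nP, ∀ c' ∈ Reg lQ rQ nQ, P c ≠ Q c') →
      (∀ i < N, lP ≤ y i ∧ y i < p i ∧ p i < p' i ∧ p' i ≤ rP) →
      (∀ i, i + 1 < N → p' i < y (i + 1)) →
      (∀ i < N, VConn S ends (B i ∪ {P (p i, 0), Q (q i, 0)})) →
      (∀ i < N, VConn S ends (J i ∪ {P (y i, 0), Q (z i, 0)})) →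
      (∀ i < N, VConn S ends (R i ∪ {P (p' i, 0), Q (q' i, 0)})) →
      (∀ i < N, ∀ c ∈ Reg lP rP nP, P c ∉ B i) → (∀ i < N, ∀ c ∈ Reg lP rP nP, P c ∉ J i) →
      (∀ i < N, ∀ c ∈ Reg lP rP nP, P c ∉ R i) →
      GmF S ends P lP rP nP (2 * w) := by
    intro P p y p' hP hPQ ho ho' hB hJ hR hBP hJP hRP
    cases τ with
    | true =>
      simp only [ord_true] at hoq hoq'
      refine sx_inc hw hN hP hQ hPQ hn₀ hn₁ p q y z p' q' ho ho' (fun i hi => ?_) hoq' B J R hBf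
        hJf hRf hB hJ hR hBB hBJ hBR hBP hBQ hJP hJQ hRP hRQ
      exact ⟨(hqR i hi).1, (hoq i hi).1, (hoq i hi).2, (hqR' i hi).2⟩
    | false =>
      simp only [ord_false] at hoq hoq'
      refine sx_inc hw hN hP hQ.mirror (fun c hc c' hc' => hPQ c hc _ (mirror_reg hc')) hn₀ hn₁
        p (fun i => lQ + rQ - q i) y (fun i => lQ + rQ - z i) p' (fun i => lQ + rQ - q' i) ho ho'
        (fun i hi => ?_) (fun i hi => ?_) B J R hBf
        hJf hRf (fun i hi => ?_) (fun i hi => ?_) (fun i hi => ?_) hBB hBJ hBR hBP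
        (fun i hi c hc => hBQ i hi _ (mirror_reg hc)) hJP
        (fun i hi c hc => hJQ i hi _ (mirror_reg hc)) hRP
        (fun i hi c hc => hRQ i hi _ (mirror_reg hc))
      · have h1 := hqR i hi
        have h2 := hzR i hi
        have h3 := hqR' i hi
        have h4 := hoq i hi
        omega
      · have h1 := hqR' i (by omega)
        have h2 := hqR (i + 1) hi
        have h3 := hoq' i hi
        omega
      · simp only
        rw [mirror_at (P := Q) (hqR i hi).1 (hqR i hi).2]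
        exact hB i hi
      · simp only
        rw [mirror_at (P := Q) (hzR i hi).1 (hzR i hi).2]
        exact hJ i hi
      · simp only
        rw [mirror_at (P := Q) (hqR' i hi).1 (hqR' i hi).2]
        exact hR i hi
  cases σ with
  | true =>
    simp only [ord_true] at hord hord'
    exact key P p y p' hP hPQ (fun i hi => ⟨(hyR i hi).1, (hord i hi).1, (hord i hi).2,
      (hpR' i hi).2⟩) hord' hB hJ hR hBP hJP hRP
  | false =>
    simp only [ord_false] at hord hord'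
    refine GmF.mirror (by omega) ?_
    refine key (fun c => P (lP + rP - c.1, c.2)) (fun i => lP + rP - p i)
      (fun i => lP + rP - y i) (fun i => lP + rP - p' i) hP.mirror
      (fun c hc c' hc' => hPQ _ (mirror_reg hc) c' hc') (fun i hi => ?_) (fun i hi => ?_)
      (fun i hi => ?_) (fun i hi => ?_) (fun i hi => ?_)
      (fun i hi c hc => hBP i hi _ (mirror_reg hc)) (fun i hi c hc => hJP i hi _ (mirror_reg hc))
      (fun i hi c hc => hRP i hi _ (mirror_reg hc))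
    · have h1 := hyR i hi
      have h2 := hpR i hi
      have h3 := hpR' i hi
      have h4 := hord i hi
      omega
    · have h1 := hpR' i (by omega)
      have h2 := hyR (i + 1) hi
      have h3 := hord' i hi
      omega
    · simp only
      rw [mirror_at (P := P) (hpR i hi).1 (hpR i hi).2]
      exact hB i hi
    · simp only
      rw [mirror_at (P := P) (hyR i hi).1 (hyR i hi).2]
      exact hJ i hi
    · simp only
      rw [mirror_at (P := P) (hpR' i hi).1 (hpR' i hi).2]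
      exact hR i hi

end EN
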