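import Pool.Agent.EN.Nest

/-!
# The pictures with nests in series: (PS), (PSJ), (PSC)
-/

open Set
open scoped Matroid

namespace EN

open BIC Gad

variable {α V : Type*} {M : Matroid α} {S : Set α} {ends : α → Sym2 V}

/-- All vertices used by the lanes. -/
def nestD (P : ℕ × ℕ → V) (w N : ℕ) (a b : ℕ → ℕ → ℕ) (J : ℕ → ℕ → Set V) : Set V :=
  {v | ∃ s i, 1 ≤ s ∧ s ≤ w ∧ i < N ∧ (v ∈ J s i ∪ P '' tC w a b s i ∨
    (i + 1 < N ∧ v ∈ P '' lC w a b s i))}

section

variable {P : ℕ × ℕ → V} {l r n w N : ℕ} {a b : ℕ → ℕ → ℕ} {J : ℕ → ℕ → Set V}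

lemma Nst.nestD_page (h : Nst S ends P l r n w N a b J) {c : ℕ × ℕ} (hc : c ∈ Reg l r n)
    (hv : P c ∈ nestD P w N a b J) : ∃ s i, 1 ≤ s ∧ s ≤ w ∧ i < N ∧ (c ∈ tC w a b s i ∨
      (i + 1 < N ∧ c ∈ lC w a b s i)) := by
  obtain ⟨s, i, h1, h2, h3, (h4 | ⟨c', hc', h'⟩) | ⟨h4, c', hc', h'⟩⟩ := hv
  · exact absurd h4 (h.pJ s i h1 (by omega) h3 c hc)
  · have g2 := h.tC_reg h3 h1 h2 hc'
    have g3 := h.page.inj c' c g2.1 g2.2.1 g2.2.2 hc.1 hc.2.1 hc.2.2 h'
    rw [g3] at hc'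
    exact ⟨s, i, h1, h2, h3, Or.inl hc'⟩
  · have g2 := h.lC_reg h4 h1 h2 hc'
    have g3 := h.page.inj c' c g2.1 g2.2.1 g2.2.2 hc.1 hc.2.1 hc.2.2 h'
    rw [g3] at hc'
    exact ⟨s, i, h1, h2, h3, Or.inr ⟨h4, hc'⟩⟩

/-- Lanes stay below the row `w + 2`. -/
lemma Nst.row_lt (h : Nst S ends P l r n w N a b J) {c : ℕ × ℕ} (hc : c ∈ Reg l r n)
    (hv : P c ∈ nestD P w N a b J) : c.2 < w + 2 := by
  obtain ⟨s, i, h1, h2, h3, h4 | ⟨h4, h5⟩⟩ := h.nestD_page hc hv
  · rcases h.tC_mem h3 h1 h2 h4 with h6 | h6 <;> omega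
  · have := Nst.lC_mem h2 h5
    omega

/-- The pockets are free. -/
lemma Nst.pocket (h : Nst S ends P l r n w N a b J) {c : ℕ × ℕ} (hc : c ∈ Reg l r n) {k : ℕ}
    (hk : k < N) (h1 : a 1 k < c.1) (h2 : c.1 < b 1 k) : P c ∉ nestD P w N a b J := by
  intro hv
  have k1 := h.hul (i := k) (s := w + 1) hk (by omega) (le_refl _)
  obtain ⟨s, i, g1, g2, g3, g4 | ⟨g4, g5⟩⟩ := h.nestD_page hc hv
  · have k2 := h.hul (i := i) (s := s) g3 g1 (by omega)
    have k3 := h.hul (i := i) (s := s + 1) g3 (by omega) (by omega)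
    rcases Nat.lt_trichotomy i k with h7 | h7 | h7
    · have := h.ser' h7 hk
      rcases h.tC_mem g3 g1 g2 g4 with h6 | h6 <;> omega
    · subst h7
      rcases h.tC_mem g3 g1 g2 g4 with h6 | h6 <;> omega
    · have := h.ser' h7 g3
      rcases h.tC_mem g3 g1 g2 g4 with h6 | h6 <;> omega
  · have k2 := h.hul (i := i) (s := s) g3 g1 (by omega)
    have k3 := h.hul (i := i + 1) (s := s) g4 g1 (by omega)
    have k4 := Nst.lC_mem g2 g5
    have k5 := h.ser i g4
    rcases Nat.lt_or_ge i k with h7 | h7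
    · rcases Nat.lt_or_ge (i + 1) k with h8 | h8
      · have := h.ser' h8 hk
        omega
      · have : k = i + 1 := by omega
        subst this
        omega
    · rcases Nat.lt_or_ge k i with h8 | h8
      · have := h.ser' h8 g3
        omega
      · have : k = i := by omega
        subst this
        omega

/-- The shore between the nests is free. -/
lemma Nst.shore (h : Nst S ends P l r n w N a b J) {c : ℕ × ℕ} (hc : c ∈ Reg l r n)
    (h0 : c.2 = 0) (h1 : ∀ i < N, c.1 < a (w + 1) i ∨ b (w + 1) i < c.1) :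
    P c ∉ nestD P w N a b J := by
  intro hv
  obtain ⟨s, i, g1, g2, g3, g4 | ⟨g4, g5⟩⟩ := h.nestD_page hc hv
  · have k2 := h.hul (i := i) (s := s) g3 g1 (by omega)
    have k3 := h.hul (i := i) (s := s + 1) g3 (by omega) (by omega)
    have k4 := h1 i g3
    rcases h.tC_mem g3 g1 g2 g4 with h6 | h6 <;> omega
  · have := Nst.lC_mem g2 g5
    omega

/-- The lane `w + 1` is free. -/
lemma Nst.outer (h : Nst S ends P l r n w N a b J) {c : ℕ × ℕ} (hc : c ∈ Reg l r n)
    (h0 : c.2 ≤ 1) (h1 : ∀ i < N, c.1 ≤ a (w + 1) i ∨ b (w + 1) i ≤ c.1) :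
    P c ∉ nestD P w N a b J := by
  intro hv
  obtain ⟨s, i, g1, g2, g3, g4 | ⟨g4, g5⟩⟩ := h.nestD_page hc hv
  · have k2 := h.hul (i := i) (s := s) g3 g1 (by omega)
    have k3 := h.hul (i := i) (s := s + 1) g3 (by omega) (by omega)
    have k4 := h1 i g3
    have k5 := h.am i g3
    have k6 : a (w + 1) i < a s i := h.aa g3 s (w + 1) g1 (by omega) (le_refl _)
    have k7 : b s i < b (w + 1) i := h.bb g3 s (w + 1) g1 (by omega) (le_refl _)
    rcases h.tC_mem g3 g1 g2 g4 with h6 | h6 <;> omega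
  · have := Nst.lC_mem g2 g5
    omega

/-- **Nests in series, general picture.** -/
theorem nest_out (hw : 1 ≤ w) (hN : N = w * w) (h : Nst S ends P l r n w N a b J) {b₀ : ℕ}
    (hb₀ : w + 2 ≤ b₀) (hn : b₀ + w ≤ n) (x : ℕ → ℕ) (hx : ∀ i < N, a 1 i < x i ∧ x i < b 1 i)
    (K : ℕ → Set V) (A : ℕ → Set (ℕ × ℕ)) (hKf : ∀ i < N, (K i).Finite)
    (hAR : ∀ i < N, A i ⊆ Reg l r n) (hXc : ∀ i < N, VConn S ends (K i ∪ P '' A i))
    (hA0 : ∀ i < N, (x i, b₀) ∈ A i) (hA1 : ∀ i < N, (b 1 i - 1, 1) ∈ A i)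
    (hA2 : ∀ i < N, ∀ c ∈ A i, b₀ ≤ c.2 → c = (x i, b₀))
    (hA3 : ∀ i < N, ∀ c ∈ A i, P c ∉ nestD P w N a b J)
    (hKK : ∀ i < N, ∀ j < N, i ≠ j → Disjoint (K i) (K j))
    (hKP : ∀ i < N, ∀ c ∈ Reg l r n, P c ∉ K i)
    (hKJ : ∀ i < N, ∀ s j, 1 ≤ s → s ≤ w → j < N → Disjoint (K i) (J s j))
    (hAA : ∀ i < N, ∀ j < N, i ≠ j → ∀ c ∈ A i, c ∉ A j) :
    BookOut S ends w (fun i => K i ∪ P '' A i) (P '' Upr l r n b₀ ∪ nestD P w N a b J) := by
  have hNpos : 0 < N := by
    rw [hN]; exact Nat.mul_pos hw hw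
  have hxs : ∀ i j, i < j → j < N → x i < x j := by
    intro i j hij hj
    have h1 := h.ser' hij hj
    have h2 := hx i (by omega)
    have h3 := hx j hj
    have h4 := h.hul (i := i) (s := w + 1) (by omega) (by omega) (le_refl _)
    have h5 := h.hul (i := j) (s := w + 1) hj (by omega) (le_refl _)
    omega
  have hxR : ∀ i < N, l ≤ x i ∧ x i ≤ r := by
    intro i hi
    have h2 := hx i hi
    have h4 := h.hul (i := i) (s := w + 1) hi (by omega) (le_refl _)
    have h5 := h.la i hi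
    have h6 := h.rb i hi
    omega
  set p : ℕ → ℕ := fun i => if i < N then x i else r + 1 with hp
  have hp1 : ∀ i < N, p i = x i := fun i hi => if_pos hi
  have hp2 : p N = r + 1 := if_neg (lt_irrefl _)
  have hp3 : ∀ i < N, x i < p (i + 1) := by
    intro i hi
    rcases Nat.lt_or_ge (i + 1) N with h1 | h1
    · rw [hp1 _ h1]
      exact hxs i (i + 1) (by omega) h1
    · have : i + 1 = N := by omega
      rw [this, hp2]
      have := hxR i hi
      omega
  subst hN
  refine Exists.elim (book_fat hw h.page (by omega) hn p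
      (fun i hi => by rw [hp1 i hi]; exact hp3 i hi)
      (by rw [hp1 0 hNpos]; exact (hxR 0 hNpos).1) hp2.le h.fat (nestD P w (w * w) a b J) ?_ ?_ ?_
      (fun i => K i ∪ P '' A i) ?_ hXc ?_ ?_ ?_ ?_ ?_) ?_
  · intro s i h1 h2 h3 v hv
    exact ⟨s, i, h1, h2, h3, Or.inl hv⟩
  · intro s i h1 h2 h3 v hv
    exact ⟨s, i, h1, h2, by omega, Or.inr ⟨h3, hv⟩⟩
  · intro c hc hv
    have h1 := h.row_lt hc.1 hv
    have h2 := hc.2
    omega
  · intro i hi
    exact (hKf i hi).union (((reg_finite _ _ _).subset (hAR i hi)).image _)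
  · intro i hi
    rw [hp1 i hi]
    exact Or.inr ⟨_, hA0 i hi, rfl⟩
  · intro i hi j hj hij
    rw [Set.disjoint_left]
    rintro u (hu | ⟨c, hc, rfl⟩) (hu' | ⟨c', hc', h'⟩)
    · exact Set.disjoint_left.1 (hKK i hi j hj hij) hu hu'
    · rw [← h'] at hu
      exact hKP i hi c' (hAR j hj hc') hu
    · exact hKP j hj c (hAR i hi hc) hu'
    · have h1 := hAR i hi hc
      have h2 := hAR j hj hc'
      have h3 := h.page.inj c' c h2.1 h2.2.1 h2.2.2 h1.1 h1.2.1 h1.2.2 h'
      rw [h3] at hc'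
      exact hAA i hi j hj hij c hc hc'
  · rintro i hi c hc (hu | ⟨c', hc', h'⟩)
    · exact absurd hu (hKP i hi c hc.1)
    · have h2 := hAR i hi hc'
      have h3 := h.page.inj c' c h2.1 h2.2.1 h2.2.2 hc.1.1 hc.1.2.1 hc.1.2.2 h'
      rw [h3] at hc'
      have h4 := hA2 i hi c hc' hc.2
      have h5 := hp3 i hi
      rw [h4, hp1 i hi]
      exact ⟨le_refl _, h5, le_refl _⟩
  · intro i hi
    rw [Set.disjoint_left]
    rintro u (hu | ⟨c, hc, rfl⟩) hu'
    · obtain ⟨s, j, h1, h2, h3, (h4 | ⟨c', hc', h'⟩) | ⟨h4, c', hc', h'⟩⟩ := hu'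
      · exact Set.disjoint_left.1 (hKJ i hi s j h1 h2 h3) hu h4
      · rw [← h'] at hu
        exact hKP i hi c' (h.tC_reg h3 h1 h2 hc') hu
      · rw [← h'] at hu
        exact hKP i hi c' (h.lC_reg h4 h1 h2 hc') hu
    · exact hA3 i hi c hc hu'
  · intro i hi
    have h1 := hx i hi
    have h2 := hxR i hi
    have h4 := h.hul (i := i) (s := 1) hi (by omega) (by omega)
    have h5 := h.rb i hi
    have h6 := h.dep
    obtain ⟨e, he, hee⟩ := h.page.hor (b 1 i - 1) 1 (by omega) (by omega) (by omega) (by omega)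
    rw [Nat.sub_add_cancel (by omega)] at hee
    exact ⟨e, he, _, Or.inr ⟨_, hA1 i hi, rfl⟩, _,
      Or.inr ⟨_, Or.inr (Or.inl (vm (by omega) (by omega))), rfl⟩, hee⟩
  · rintro Vs ⟨As, h1, h2, h3⟩
    exact ⟨Vs, As, id, h1, fun i hi => ⟨hi, (h2 i hi).1, (h2 i hi).2.2⟩, fun i _ j _ h => h, h3⟩

/-- The set used in the pocket: the strand `x i` and the row `1` to the right end of the pocket. -/
def pk (b : ℕ → ℕ → ℕ) (x : ℕ → ℕ) (b₀ i : ℕ) : Set (ℕ × ℕ) :=
  Vert (x i) 0 b₀ ∪ HRow (x i) (b 1 i - 1) 1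

lemma Nst.pk_facts (h : Nst S ends P l r n w N a b J) {b₀ : ℕ} (hb₀ : w + 2 ≤ b₀)
    (hn : b₀ + w ≤ n) (x : ℕ → ℕ) (hx : ∀ i < N, a 1 i < x i ∧ x i < b 1 i) :
    (∀ i < N, pk b x b₀ i ⊆ Reg l r n) ∧ (∀ i < N, VConn S ends (P '' pk b x b₀ i)) ∧
      (∀ i < N, (x i, b₀) ∈ pk b x b₀ i) ∧ (∀ i < N, (x i, 0) ∈ pk b x b₀ i) ∧
      (∀ i < N, (b 1 i - 1, 1) ∈ pk b x b₀ i) ∧
      (∀ i < N, ∀ c ∈ pk b x b₀ i, b₀ ≤ c.2 → c = (x i, b₀)) ∧
      (∀ i < N, ∀ c ∈ pk b x b₀ i, a 1 i < c.1 ∧ c.1 < b 1 i) ∧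
      (∀ i < N, ∀ j < N, i ≠ j → ∀ c ∈ pk b x b₀ i, c ∉ pk b x b₀ j) ∧
      (∀ i < N, l ≤ x i ∧ x i ≤ r) := by
  have hxR : ∀ i < N, l ≤ a 1 i ∧ b 1 i ≤ r := by
    intro i hi
    have h4 := h.hul (i := i) (s := w + 1) hi (by omega) (le_refl _)
    have h5 := h.la i hi
    have h6 := h.rb i hi
    omega
  have hin : ∀ i < N, ∀ c ∈ pk b x b₀ i, (a 1 i < c.1 ∧ c.1 < b 1 i) ∧ c.2 ≤ b₀ := by
    intro i hi c hc
    have h1 := hx i hi
    rcases hc with hc | hc
    · rw [mem_Vert] at hc; omega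
    · rw [mem_HRow] at hc; omega
  refine ⟨?_, ?_, ?_, ?_, ?_, ?_, fun i hi c hc => (hin i hi c hc).1, ?_, ?_⟩
  · intro i hi c hc
    have h1 := hin i hi c hc
    have h2 := hxR i hi
    rw [mem_Reg]
    omega
  · intro i hi
    have h1 := hx i hi
    have h2 := hxR i hi
    exact h.page.strand_row (by omega) (by omega) (by omega) (by omega) (by omega) (by omega)
      (by omega) (by omega) (by omega) (by omega)
  · intro i hi
    exact Or.inl (vm (by omega) (le_refl _))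
  · intro i hi
    exact Or.inl (vm (le_refl _) (by omega))
  · intro i hi
    have h1 := hx i hi
    exact Or.inr (hm (by omega) (by omega))
  · intro i hi c hc h1
    rcases hc with hc | hc
    · rw [mem_Vert] at hc
      exact Prod.ext hc.1 (by omega)
    · rw [mem_HRow] at hc
      omega
  · intro i hi j hj hij c hc hc'
    have h1 := (hin i hi c hc).1
    have h2 := (hin j hj c hc').1
    have h3 := h.hul (i := i) (s := w + 1) hi (by omega) (le_refl _)
    have h4 := h.hul (i := j) (s := w + 1) hj (by omega) (le_refl _)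
    rcases Nat.lt_or_gt_of_ne hij with h5 | h5
    · have := h.ser' h5 hj; omega
    · have := h.ser' h5 hi; omega
  · intro i hi
    have h1 := hx i hi
    have h2 := hxR i hi
    omega

/-- A pocket connector `K` at `(x i, 0)`. -/
lemma pk_conn {K : Set V} {A : Set (ℕ × ℕ)} {c : ℕ × ℕ} (hA : VConn S ends (P '' A))
    (hc : c ∈ A) (hK : VConn S ends (K ∪ {P c})) : VConn S ends (K ∪ P '' A) := by
  refine vconn_congr (vc_union hK hA (c := P c) (Or.inr rfl) ⟨_, hc, rfl⟩) (fun v => ?_)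
  constructor
  · rintro ((h | h) | h)
    · exact Or.inl h
    · exact Or.inr ⟨c, hc, (mem_singleton_iff.1 h).symm⟩
    · exact Or.inr h
  · rintro (h | h)
    · exact Or.inl (Or.inl h)
    · exact Or.inr h

/-- **(PS) with ground ends in the pockets.** -/
theorem ps_ground {w N : ℕ} (hw : 1 ≤ w) (hN : N = (2 * w) * (2 * w))
    (h : Nst S ends P l r n (2 * w) N a b J) (hn : 4 * w + 2 ≤ n) (x : ℕ → ℕ)
    (hx : ∀ i < N, a 1 i < x i ∧ x i < b 1 i) (K : ℕ → Set V) (hKf : ∀ i < N, (K i).Finite)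
    (hK : ∀ i < N, VConn S ends (K i ∪ {P (x i, 0)}))
    (hKK : ∀ i < N, ∀ j < N, i ≠ j → Disjoint (K i) (K j))
    (hKP : ∀ i < N, ∀ c ∈ Reg l r n, P c ∉ K i)
    (hKJ : ∀ i < N, ∀ s j, 1 ≤ s → s ≤ 2 * w → j < N → Disjoint (K i) (J s j))
    (G : Set V) (hGf : G.Finite) (hGc : VConn S ends G) (hGP : ∀ c ∈ Reg l r n, P c ∉ G)
    (hKG : ∀ i < N, Disjoint (K i) G)
    (hJG : ∀ s j, 1 ≤ s → s ≤ 2 * w → j < N → Disjoint (J s j) G)
    (hlG : ∀ i < N, Lnk S ends (K i ∪ {P (x i, 0)}) G) :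
    GmF S ends P l r n (2 * w) := by
  obtain ⟨f1, f2, f3, f4, f5, f6, f7, f8, f9⟩ := h.pk_facts (b₀ := 2 * w + 2) (le_refl _)
    (by omega) x hx
  have ho := nest_out (w := 2 * w) (by omega) hN h (b₀ := 2 * w + 2) (le_refl _) (by omega) x hx K
    (pk b x (2 * w + 2)) hKf f1 (fun i hi => pk_conn (f2 i hi) (f4 i hi) (hK i hi)) f3 f5 f6
    (fun i hi c hc => h.pocket (f1 i hi hc) hi (f7 i hi c hc).1 (f7 i hi c hc).2) hKK hKP hKJ f8
  subst hN
  refine ho.jgridE hw (by omega) x (fun i hi => ⟨(f1 i hi (f3 i hi)).1, (f1 i hi (f3 i hi)).2.1⟩)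
    (fun i hi => Or.inr ⟨_, f3 i hi, rfl⟩) G hGf hGc (fun i hi => ?_) ?_ (fun i hi => ?_)
  · rw [Set.disjoint_union_left]
    refine ⟨hKG i hi, ?_⟩
    rw [Set.disjoint_left]
    rintro _ ⟨c, hc, rfl⟩ hv
    exact hGP c (f1 i hi hc) hv
  · rw [Set.disjoint_left]
    rintro v (⟨c, hc, rfl⟩ | ⟨s, i, g1, g2, g3, (g4 | ⟨c, hc, rfl⟩) | ⟨g4, c, hc, rfl⟩⟩) hv
    · exact hGP c hc.1 hv
    · exact Set.disjoint_left.1 (hJG s i g1 g2 g3) g4 hv
    · exact hGP c (h.tC_reg g3 g1 g2 hc) hv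
    · exact hGP c (h.lC_reg g4 g1 g2 hc) hv
  · refine (hlG i hi).mono (subset_refl _) ?_ (subset_refl _)
    rintro v (hv | hv)
    · exact Or.inl hv
    · exact Or.inr ⟨_, f4 i hi, (mem_singleton_iff.1 hv).symm⟩

/-- **(PS) with unbalanced cycles in the pockets.** -/
theorem ps_cycle (hF : Frm M S ends) {w N : ℕ} (hw : 1 ≤ w) (hN : N = w * w)
    (h : Nst S ends P l r n w N a b J) (hn : 2 * w + 2 ≤ n) (x : ℕ → ℕ)
    (hx : ∀ i < N, a 1 i < x i ∧ x i < b 1 i) (K : ℕ → Set V) (hKf : ∀ i < N, (K i).Finite)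
    (hK : ∀ i < N, VConn S ends (K i ∪ {P (x i, 0)}))
    (hKK : ∀ i < N, ∀ j < N, i ≠ j → Disjoint (K i) (K j))
    (hKP : ∀ i < N, ∀ c ∈ Reg l r n, P c ∉ K i)
    (hKJ : ∀ i < N, ∀ s j, 1 ≤ s → s ≤ w → j < N → Disjoint (K i) (J s j))
    (Y : ℕ → Set V) (τ₀ : ℕ → Set α) (j : ℕ → α)
    (hY : ∀ i < N, Y i ⊆ K i) (hτ₀ : ∀ i < N, Arb S ends (Y i) (τ₀ i))
    (hj : ∀ i < N, j i ∈ ins S ends (Y i) ∧ j i ∉ τ₀ i)
    (hI : M.Indep (⋃ i ∈ Finset.range N, insert (j i) (τ₀ i))) :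
    GmV M S ends P l r n w := by
  obtain ⟨f1, f2, f3, f4, f5, f6, f7, f8, f9⟩ := h.pk_facts (b₀ := w + 2) (le_refl _)
    (by omega) x hx
  have ho := nest_out hw hN h (b₀ := w + 2) (le_refl _) (by omega) x hx K
    (pk b x (w + 2)) hKf f1 (fun i hi => pk_conn (f2 i hi) (f4 i hi) (hK i hi)) f3 f5 f6
    (fun i hi c hc => h.pocket (f1 i hi hc) hi (f7 i hi c hc).1 (f7 i hi c hc).2) hKK hKP hKJ f8
  subst hN
  refine ho.jgridU hF Y τ₀ j (fun i hi => (hY i hi).trans subset_union_left) hτ₀ hj hI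
    (b := w + 2) (by omega) fun i hi => ?_
  exact ⟨x i, (f1 i hi (f3 i hi)).1, (f1 i hi (f3 i hi)).2.1, Or.inr ⟨_, f3 i hi, rfl⟩⟩

/-- Two connectors ends: a pocket connector with a second port `v`. -/
lemma pk_conn2 {K : Set V} {A : Set (ℕ × ℕ)} {c : ℕ × ℕ} {v : V} (hA : VConn S ends (P '' A))
    (hc : c ∈ A) (hK : VConn S ends (K ∪ {P c, v})) : VConn S ends (K ∪ {v} ∪ P '' A) := by
  refine vconn_congr (vc_union hK hA (c := P c) (Or.inr (Or.inl rfl)) ⟨_, hc, rfl⟩) (fun u => ?_)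
  constructor
  · rintro ((h | h | h) | h)
    · exact Or.inl (Or.inl h)
    · exact Or.inr ⟨c, hc, h.symm⟩
    · exact Or.inl (Or.inr h)
    · exact Or.inr h
  · rintro ((h | h) | h)
    · exact Or.inl (Or.inl h)
    · exact Or.inl (Or.inr (Or.inr h))
    · exact Or.inr h

/-- **(PSJ) with the far ends on another page.** -/
theorem psj_page {w N : ℕ} (hw : 1 ≤ w) (hN : N = (2 * w) * (2 * w))
    (h : Nst S ends P l r n (2 * w) N a b J) (hn : 4 * w + 2 ≤ n) (x : ℕ → ℕ)
    (hx : ∀ i < N, a 1 i < x i ∧ x i < b 1 i) {Q : ℕ × ℕ → V} {lQ rQ nQ : ℕ}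
    (hQ : Page S ends Q lQ rQ nQ) (hnQ : 1 ≤ nQ)
    (hPQ : ∀ c ∈ Reg l r n, ∀ c' ∈ Reg lQ rQ nQ, P c ≠ Q c') (z : ℕ → ℕ)
    (hz : ∀ i < N, lQ ≤ z i ∧ z i ≤ rQ) (hzi : ∀ i < N, ∀ j < N, z i = z j → i = j)
    (K : ℕ → Set V) (hKf : ∀ i < N, (K i).Finite)
    (hK : ∀ i < N, VConn S ends (K i ∪ {P (x i, 0), Q (z i, 0)}))
    (hKK : ∀ i < N, ∀ j < N, i ≠ j → Disjoint (K i) (K j))
    (hKP : ∀ i < N, ∀ c ∈ Reg l r n, P c ∉ K i) (hKQ : ∀ i < N, ∀ c ∈ Reg lQ rQ nQ, Q c ∉ K i)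
    (hKJ : ∀ i < N, ∀ s j, 1 ≤ s → s ≤ 2 * w → j < N → Disjoint (K i) (J s j))
    (hJQ : ∀ s j, 1 ≤ s → s ≤ 2 * w → j < N → ∀ c ∈ Reg lQ rQ nQ, Q c ∉ J s j) :
    GmF S ends P l r n (2 * w) := by
  obtain ⟨f1, f2, f3, f4, f5, f6, f7, f8, f9⟩ := h.pk_facts (b₀ := 2 * w + 2) (le_refl _)
    (by omega) x hx
  have hzR : ∀ i < N, (z i, 0) ∈ Reg lQ rQ nQ := fun i hi => by
    have := hz i hi
    rw [mem_Reg]; simp only; omega
  have hrow : HRow lQ rQ 1 ⊆ Reg lQ rQ nQ := by
    intro c hc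
    rw [mem_HRow] at hc
    rw [mem_Reg]
    omega
  have ho := nest_out (w := 2 * w) (by omega) hN h (b₀ := 2 * w + 2) (le_refl _) (by omega) x hx
    (fun i => K i ∪ {Q (z i, 0)})
    (pk b x (2 * w + 2)) (fun i hi => (hKf i hi).union (finite_singleton _)) f1
    (fun i hi => pk_conn2 (f2 i hi) (f4 i hi) (hK i hi)) f3 f5 f6
    (fun i hi c hc => h.pocket (f1 i hi hc) hi (f7 i hi c hc).1 (f7 i hi c hc).2) ?_ ?_ ?_ f8
  · subst hN
    refine ho.jgridE hw (by omega) x
      (fun i hi => ⟨(f1 i hi (f3 i hi)).1, (f1 i hi (f3 i hi)).2.1⟩)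
      (fun i hi => Or.inr ⟨_, f3 i hi, rfl⟩) (Q '' HRow lQ rQ 1) ((hrow_finite _ _ _).image _)
      (hQ.vconn_hor (le_refl _) (le_refl _) (le_refl _) hnQ) (fun i hi => ?_) ?_ (fun i hi => ?_)
    · rw [Set.disjoint_left]
      rintro v ((hv | hv) | ⟨c, hc, rfl⟩) ⟨c', hc', h'⟩
      · rw [← h'] at hv
        exact hKQ i hi c' (hrow hc') hv
      · rw [mem_singleton_iff] at hv
        have g1 := hrow hc'
        have g2 := hzR i hi
        have g3 := hQ.inj _ _ g1.1 g1.2.1 g1.2.2 g2.1 g2.2.1 g2.2.2 (h'.trans hv)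
        rw [g3, mem_HRow] at hc'
        simp only at hc'
        omega
      · exact hPQ c (f1 i hi hc) c' (hrow hc') h'.symm
    · rw [Set.disjoint_left]
      rintro v (⟨c, hc, rfl⟩ | ⟨s, i, g1, g2, g3, (g4 | ⟨c, hc, rfl⟩) | ⟨g4, c, hc, rfl⟩⟩)
        ⟨c', hc', h'⟩
      · exact hPQ c hc.1 c' (hrow hc') h'.symm
      · rw [← h'] at g4
        exact hJQ s i g1 g2 g3 c' (hrow hc') g4
      · exact hPQ c (h.tC_reg g3 g1 g2 hc) c' (hrow hc') h'.symm
      · exact hPQ c (h.lC_reg g4 g1 g2 hc) c' (hrow hc') h'.symm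
    · have g1 := hz i hi
      obtain ⟨e, he, hee⟩ := hQ.ver (z i) 0 g1.1 g1.2 (by omega)
      exact ⟨e, he, _, Or.inl (Or.inr rfl), _, ⟨(z i, 0 + 1), hm g1.1 g1.2, rfl⟩, hee⟩
  · intro i hi j hj hij
    rw [Set.disjoint_union_left, Set.disjoint_union_right, Set.disjoint_union_right]
    refine ⟨⟨hKK i hi j hj hij, ?_⟩, ?_, ?_⟩
    · rw [Set.disjoint_singleton_right]
      exact hKQ i hi _ (hzR j hj)
    · rw [Set.disjoint_singleton_left]
      exact hKQ j hj _ (hzR i hi)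
    · rw [Set.disjoint_singleton]
      intro h'
      have g1 := hzR i hi
      have g2 := hzR j hj
      have g3 := hQ.inj _ _ g1.1 g1.2.1 g1.2.2 g2.1 g2.2.1 g2.2.2 h'
      rw [Prod.mk.injEq] at g3
      exact hij (hzi i hi j hj g3.1)
  · rintro i hi c hc (h' | h')
    · exact hKP i hi c hc h'
    · exact hPQ c hc _ (hzR i hi) h'
  · intro i hi s j h1 h2 h3
    rw [Set.disjoint_union_left]
    refine ⟨hKJ i hi s j h1 h2 h3, ?_⟩
    rw [Set.disjoint_singleton_left]
    exact hJQ s j h1 h2 h3 _ (hzR i hi)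

/-- Coordinates of the outer lane near the nest `i`. -/
def zN (w N : ℕ) (a b : ℕ → ℕ → ℕ) (f : ℕ → ℕ) (i : ℕ) : Set (ℕ × ℕ) :=
  Vert (a (w + 1) i) 0 1 ∪ (Vert (b (w + 1) i) 0 1 ∪
    HRow (b (w + 1) i) (if i + 1 < N then a (w + 1) (i + 1) - 1 else f i) 1)

/-- **(PSJ): connectors from the pocket to the next gap.** -/
theorem psj {w N : ℕ} (hw : 1 ≤ w) (hN : N = (2 * w) * (2 * w))
    (h : Nst S ends P l r n (2 * w) N a b J) (hn : 4 * w + 2 ≤ n) (x f : ℕ → ℕ)
    (hx : ∀ i < N, a 1 i < x i ∧ x i < b 1 i)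
    (hf : ∀ i < N, b (2 * w + 1) i < f i ∧ f i ≤ r)
    (hf' : ∀ i, i + 1 < N → f i < a (2 * w + 1) (i + 1))
    (K : ℕ → Set V) (hKf : ∀ i < N, (K i).Finite)
    (hK : ∀ i < N, VConn S ends (K i ∪ {P (x i, 0), P (f i, 0)}))
    (hKK : ∀ i < N, ∀ j < N, i ≠ j → Disjoint (K i) (K j))
    (hKP : ∀ i < N, ∀ c ∈ Reg l r n, P c ∉ K i)
    (hKJ : ∀ i < N, ∀ s j, 1 ≤ s → s ≤ 2 * w + 1 → j < N → Disjoint (K i) (J s j)) :
    GmF S ends P l r n (2 * w) := by
  obtain ⟨f1, f2, f3, f4, f5, f6, f7, f8, f9⟩ := h.pk_facts (b₀ := 2 * w + 2) (le_refl _)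
    (by omega) x hx
  have hsh : ∀ i < N, ∀ k < N, f i < a (2 * w + 1) k ∨ b (2 * w + 1) k < f i := by
    intro i hi k hk
    have h1 := hf i hi
    rcases Nat.lt_or_ge i k with h2 | h2
    · left
      have h3 := hf' i (by omega)
      rcases Nat.lt_or_ge (i + 1) k with h4 | h4
      · have h5 := h.ser' h4 hk
        have h6 := h.hul (i := i + 1) (s := 2 * w + 1) (by omega) (by omega) (le_refl _)
        omega
      · have : k = i + 1 := by omega
        rw [this]
        exact h3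
    · right
      rcases Nat.lt_or_ge k i with h4 | h4
      · have h5 := h.ser' h4 hi
        have h6 := h.hul (i := i) (s := 2 * w + 1) (by omega) (by omega) (le_refl _)
        omega
      · have : k = i := by omega
        rw [this]
        exact h1.1
  have hfR : ∀ i < N, (f i, 0) ∈ Reg l r n := by
    intro i hi
    have h1 := hf i hi
    have h2 := h.hul (i := i) (s := 2 * w + 1) hi (by omega) (le_refl _)
    have h3 := h.la i hi
    rw [mem_Reg]
    simp only
    omega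
  have hfi : ∀ i < N, ∀ j < N, f i = f j → i = j := by
    intro i hi j hj hij
    rcases Nat.lt_trichotomy i j with h1 | h1 | h1
    · have h2 := hf' i (by omega)
      have h3 := hf j hj
      have h4 := h.hul (i := j) (s := 2 * w + 1) hj (by omega) (le_refl _)
      rcases Nat.lt_or_ge (i + 1) j with h5 | h5
      · have h6 := h.ser' h5 hj
        have h7 := h.hul (i := i + 1) (s := 2 * w + 1) (by omega) (by omega) (le_refl _)
        omega
      · have : j = i + 1 := by omega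
        subst this
        omega
    · exact h1
    · have h2 := hf' j (by omega)
      have h3 := hf i hi
      have h4 := h.hul (i := i) (s := 2 * w + 1) hi (by omega) (le_refl _)
      rcases Nat.lt_or_ge (j + 1) i with h5 | h5
      · have h6 := h.ser' h5 hi
        have h7 := h.hul (i := j + 1) (s := 2 * w + 1) (by omega) (by omega) (le_refl _)
        omega
      · have : i = j + 1 := by omega
        subst this
        omega
  -- coordinates of `Z`
  have hzmem : ∀ i < N, ∀ c ∈ zN (2 * w) N a b f i, (c.1 = a (2 * w + 1) i ∧ c.2 ≤ 1) ∨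
      (c.1 = b (2 * w + 1) i ∧ c.2 ≤ 1) ∨ (b (2 * w + 1) i < c.1 ∧ c.2 = 1 ∧
      ((i + 1 < N ∧ c.1 < a (2 * w + 1) (i + 1)) ∨ (i + 1 = N ∧ c.1 ≤ r))) := by
    intro i hi c hc
    have h1 := hf i hi
    rcases hc with hc | hc | hc
    · rw [mem_Vert] at hc; omega
    · rw [mem_Vert] at hc; omega
    · rw [mem_HRow] at hc
      split_ifs at hc with h2
      · have h3 := h.ser i h2; omega
      · omega
  have hzR : ∀ i < N, zN (2 * w) N a b f i ⊆ Reg l r n := by
    intro i hi c hc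
    have h2 := h.hul (i := i) (s := 2 * w + 1) hi (by omega) (le_refl _)
    have h3 := h.la i hi
    have h4 := h.rb i hi
    rw [mem_Reg]
    rcases hzmem i hi c hc with h5 | h5 | ⟨h5, h6, ⟨h7, h8⟩ | h7⟩
    · omega
    · omega
    · have h9 := h.rb (i + 1) h7
      have h10 := h.hul (i := i + 1) (s := 2 * w + 1) h7 (by omega) (le_refl _)
      omega
    · omega
  -- columns of `Z` are outside of the open hulls
  have hzcol : ∀ i < N, ∀ c ∈ zN (2 * w) N a b f i, ∀ k < N,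
      c.1 ≤ a (2 * w + 1) k ∨ b (2 * w + 1) k ≤ c.1 := by
    intro i hi c hc k hk
    have h2 := h.hul (i := i) (s := 2 * w + 1) hi (by omega) (le_refl _)
    have h2' := h.hul (i := k) (s := 2 * w + 1) hk (by omega) (le_refl _)
    rcases Nat.lt_trichotomy i k with h3 | h3 | h3
    · left
      have h4 := h.ser' h3 hk
      have h5 : a (2 * w + 1) (i + 1) ≤ a (2 * w + 1) k := by
        rcases Nat.lt_or_ge (i + 1) k with h6 | h6
        · have h7 := h.ser' h6 hk
          have h8 := h.hul (i := i + 1) (s := 2 * w + 1) (by omega) (by omega) (le_refl _)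
          omega
        · have : i + 1 = k := by omega
          rw [this]
      rcases hzmem i hi c hc with h6 | h6 | ⟨h6, h7, ⟨h8, h9⟩ | h8⟩ <;> omega
    · subst h3
      rcases hzmem i hi c hc with h6 | h6 | h6 <;> omega
    · right
      have h4 := h.ser' h3 hi
      rcases hzmem i hi c hc with h6 | h6 | h6 <;> omega
  have ho := nest_out (w := 2 * w) (by omega) hN h (b₀ := 2 * w + 2) (le_refl _) (by omega) x hx
    K (fun i => pk b x (2 * w + 2) i ∪ {(f i, 0)}) hKf ?_ ?_ (fun i hi => Or.inl (f3 i hi))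
    (fun i hi => Or.inl (f5 i hi)) ?_ ?_ hKK hKP
    (fun i hi s j h1 h2 h3 => hKJ i hi s j h1 (by omega) h3) ?_
  · subst hN
    refine ho.jgridE hw (by omega) x
      (fun i hi => ⟨(f1 i hi (f3 i hi)).1, (f1 i hi (f3 i hi)).2.1⟩)
      (fun i hi => Or.inr ⟨_, Or.inl (f3 i hi), rfl⟩)
      (⋃ i ∈ Finset.range (2 * w * (2 * w)), (J (2 * w + 1) i ∪
        P '' zN (2 * w) (2 * w * (2 * w)) a b f i)) ?_ ?_ (fun i hi => ?_) ?_ (fun i hi => ?_)
    · refine Set.Finite.biUnion (Finset.range _).finite_toSet (fun i hi => ?_)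
      have hi' : i < 2 * w * (2 * w) := by simpa using hi
      exact (h.finJ _ i (by omega) (le_refl _) hi').union
        (((reg_finite _ _ _).subset (hzR i hi')).image _)
    · refine vconn_chain _ (fun i hi => ?_) (fun i hi => ?_)
      · have h2 := h.hul (i := i) (s := 2 * w + 1) hi (by omega) (le_refl _)
        have h3 := h.la i hi
        have h4 := h.rb i hi
        have h5 := hf i hi
        have h7 := blob_jump (P := P) (Q := P) (h.conJ (2 * w + 1) i (by omega) (le_refl _) hi)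
          (A := Vert (a (2 * w + 1) i) 0 1)
          (B := Vert (b (2 * w + 1) i) 0 1 ∪ HRow (b (2 * w + 1) i)
            (if i + 1 < 2 * w * (2 * w) then a (2 * w + 1) (i + 1) - 1 else f i) 1)
          (vm (by omega) (by omega)) (Or.inl (vm (by omega) (by omega)))
          (h.page.vconn_ver (by omega) (by omega) (by omega))
          (h.page.strand_row (by omega) (by omega) (by omega) (by omega) (by
            split_ifs with h6
            · have h8 := h.rb (i + 1) h6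
              have h10 := h.hul (i := i + 1) (s := 2 * w + 1) h6 (by omega) (le_refl _)
              omega
            · omega) (by omega) (by omega)
            (by omega) (by omega) (by
            split_ifs with h6
            · have h8 := h.ser i h6
              omega
            · omega))
        refine vconn_congr h7 (fun v => ?_)
        rw [mem_blob]
        constructor
        · rintro (h8 | h8 | ⟨c, hc, _⟩)
          · exact Or.inl h8
          · exact Or.inr h8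
          · exact absurd hc (by simp)
        · rintro (h8 | h8)
          · exact Or.inl h8
          · exact Or.inr (Or.inl h8)
      · have h2 := h.hul (i := i) (s := 2 * w + 1) (by omega) (by omega) (le_refl _)
        have h2' := h.hul (i := i + 1) (s := 2 * w + 1) hi (by omega) (le_refl _)
        have h3 := h.la i (by omega)
        have h4 := h.rb (i + 1) hi
        have h5 := h.ser i hi
        obtain ⟨e, he, hee⟩ := h.page.hor (a (2 * w + 1) (i + 1) - 1) 1 (by omega) (by omega)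
          (by omega) (by omega)
        rw [Nat.sub_add_cancel (by omega)] at hee
        refine ⟨e, he, _, Or.inr ⟨(a (2 * w + 1) (i + 1) - 1, 1), ?_, rfl⟩, _,
          Or.inr ⟨(a (2 * w + 1) (i + 1), 1), Or.inl (vm (by omega) (by omega)), rfl⟩, hee⟩
        unfold zN
        rw [if_pos hi]
        exact Or.inr (Or.inr (hm (by omega) (by omega)))
    · -- blobs and `Z`
      rw [Set.disjoint_left]
      rintro v (hv | ⟨c, hc, rfl⟩) hv'
      · obtain ⟨k, hk, hv' | ⟨c', hc', h'⟩⟩ := mem_iUnion₂.1 hv'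
        · exact Set.disjoint_left.1 (hKJ i hi _ k (by omega) (le_refl _) (Finset.mem_range.1 hk))
            hv hv'
        · rw [← h'] at hv
          exact hKP i hi c' (hzR k (Finset.mem_range.1 hk) hc') hv
      · have hcR : c ∈ Reg l r n := by
          rcases hc with hc | hc
          · exact f1 i hi hc
          · rw [mem_singleton_iff] at hc
            rw [hc]; exact hfR i hi
        obtain ⟨k, hk, hv' | ⟨c', hc', h'⟩⟩ := mem_iUnion₂.1 hv'
        · exact h.pJ _ k (by omega) (le_refl _) (Finset.mem_range.1 hk) c hcR hv'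
        · have g1 := hzR k (Finset.mem_range.1 hk) hc'
          have g3 := h.page.inj c' c g1.1 g1.2.1 g1.2.2 hcR.1 hcR.2.1 hcR.2.2 h'
          rw [g3] at hc'
          rcases hc with hc | hc
          · have g4 := f7 i hi c hc
            have g5 := hzcol k (Finset.mem_range.1 hk) c hc' i hi
            have g6 := h.hul (i := i) (s := 2 * w + 1) hi (by omega) (le_refl _)
            omega
          · rw [mem_singleton_iff] at hc
            rw [hc] at hc'
            have g4 := hsh i hi k (Finset.mem_range.1 hk)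
            have g6 := h.hul (i := k) (s := 2 * w + 1) (Finset.mem_range.1 hk) (by omega)
              (le_refl _)
            rcases hzmem k (Finset.mem_range.1 hk) _ hc' with g5 | g5 | g5 <;>
              simp only at g5 <;> omega
    · -- `D` and `Z`
      rw [Set.disjoint_left]
      rintro v hv hv'
      obtain ⟨k, hk, hv' | ⟨c', hc', h'⟩⟩ := mem_iUnion₂.1 hv'
      · have hk' := Finset.mem_range.1 hk
        rcases hv with ⟨c, hc, rfl⟩ | ⟨s, i, g1, g2, g3, (g4 | ⟨c, hc, rfl⟩) | ⟨g4, c, hc, rfl⟩⟩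
        · exact h.pJ _ k (by omega) (le_refl _) hk' c hc.1 hv'
        · refine Set.disjoint_left.1 (h.dJJ s i (2 * w + 1) k g1 (by omega) g3 (by omega)
            (le_refl _) hk' ?_) g4 hv'
          intro h8
          rw [Prod.mk.injEq] at h8
          omega
        · exact h.pJ _ k (by omega) (le_refl _) hk' c (h.tC_reg g3 g1 g2 hc) hv'
        · exact h.pJ _ k (by omega) (le_refl _) hk' c (h.lC_reg g4 g1 g2 hc) hv'
      · have hk' := Finset.mem_range.1 hk
        have g1 := hzR k hk' hc'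
        rw [← h'] at hv
        rcases hv with ⟨c, hc, h''⟩ | hv
        · have g3 := h.page.inj c c' hc.1.1 hc.1.2.1 hc.1.2.2 g1.1 g1.2.1 g1.2.2 h''
          rw [g3] at hc
          have g4 := hc.2
          rcases hzmem k hk' c' hc' with g5 | g5 | g5 <;> omega
        · refine h.outer g1 ?_ (fun i hi => hzcol k hk' c' hc' i hi) hv
          rcases hzmem k hk' c' hc' with g5 | g5 | g5 <;> omega
    · have h1 := hf i hi
      have h2 := h.hul (i := i) (s := 2 * w + 1) hi (by omega) (le_refl _)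
      have h3 := h.la i hi
      obtain ⟨e, he, hee⟩ := h.page.ver (f i) 0 (by omega) (by omega) (by omega)
      refine ⟨e, he, _, Or.inr ⟨(f i, 0), Or.inr rfl, rfl⟩, P (f i, 0 + 1),
        mem_iUnion₂.2 ⟨i, Finset.mem_range.2 hi, Or.inr ⟨(f i, 0 + 1), ?_, rfl⟩⟩, hee⟩
      refine Or.inr (Or.inr (hm (by omega) ?_))
      split_ifs with h4
      · have := hf' i h4; omega
      · exact le_refl _
  · rintro i hi c (hc | hc)
    · exact f1 i hi hc
    · rw [mem_singleton_iff] at hc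
      rw [hc]; exact hfR i hi
  · intro i hi
    refine vconn_congr (pk_conn2 (f2 i hi) (f4 i hi) (hK i hi)) (fun v => ?_)
    rw [image_union, image_singleton]
    simp only [mem_union]
    rw [or_right_comm, or_assoc]
  · rintro i hi c (hc | hc) hc0
    · exact f6 i hi c hc hc0
    · rw [mem_singleton_iff] at hc
      rw [hc] at hc0
      simp only at hc0
      omega
  · rintro i hi c (hc | hc)
    · exact h.pocket (f1 i hi hc) hi (f7 i hi c hc).1 (f7 i hi c hc).2
    · rw [mem_singleton_iff] at hc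
      rw [hc]
      exact h.shore (hfR i hi) rfl (fun k hk => hsh i hi k hk)
  · rintro i hi j hj hij c (hc | hc) (hc' | hc')
    · exact f8 i hi j hj hij c hc hc'
    · rw [mem_singleton_iff] at hc'
      rw [hc'] at hc
      have g1 := f7 i hi _ hc
      have g2 := hsh j hj i hi
      have g3 := h.hul (i := i) (s := 2 * w + 1) hi (by omega) (le_refl _)
      simp only at g1
      omega
    · rw [mem_singleton_iff] at hc
      rw [hc] at hc'
      have g1 := f7 j hj _ hc'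
      have g2 := hsh i hi j hj
      have g3 := h.hul (i := j) (s := 2 * w + 1) hj (by omega) (le_refl _)
      simp only at g1
      omega
    · rw [mem_singleton_iff] at hc hc'
      rw [hc, Prod.mk.injEq] at hc'
      exact hij (hfi i hi j hj hc'.1)

end

end EN
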