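import Pool.Agent.EN.PicN

/-!
# The picture (PSC): nests in series with a cross in the pocket; mirror image of (PSJ)
-/

open Set
open scoped Matroid

namespace EN

open BIC Gad

variable {α V : Type*} {M : Matroid α} {S : Set α} {ends : α → Sym2 V}

section

variable {P : ℕ × ℕ → V} {l r n w N : ℕ} {a b : ℕ → ℕ → ℕ} {J : ℕ → ℕ → Set V}

/-- Coordinates of the spine blob of (PSC). -/
def xC (b : ℕ → ℕ → ℕ) (v v' : ℕ → ℕ) (b₀ i : ℕ) : Set (ℕ × ℕ) :=
  Vert (v i) 0 b₀ ∪ (Vert (v' i) 0 1 ∪ HRow (v' i) (b 1 i - 1) 1)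

/-- Coordinates of `Z` of (PSC). -/
def zX (N : ℕ) (y z v : ℕ → ℕ) (R i : ℕ) : Set (ℕ × ℕ) :=
  (Vert (y i) 0 R ∪ HRow (y i) (v i - 1) R) ∪
    (Vert (z i) 0 R ∪ HRow (z i) (if i + 1 < N then y (i + 1) - 1 else z i) R)

/-- **(PSC): crossing connectors `y – z` and `v – v'` in the pockets.** -/
theorem psc {w N : ℕ} (hw : 1 ≤ w) (hN : N = (2 * w) * (2 * w))
    (h : Nst S ends P l r n (2 * w) N a b J) (hn : 4 * w + 3 ≤ n) (y v z v' : ℕ → ℕ)
    (hx : ∀ i < N, a 1 i < y i ∧ y i < v i ∧ v i < z i ∧ z i < v' i ∧ v' i < b 1 i)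
    (K J' : ℕ → Set V) (hKf : ∀ i < N, (K i).Finite) (hJf' : ∀ i < N, (J' i).Finite)
    (hK : ∀ i < N, VConn S ends (K i ∪ {P (v i, 0), P (v' i, 0)}))
    (hJ' : ∀ i < N, VConn S ends (J' i ∪ {P (y i, 0), P (z i, 0)}))
    (hKK : ∀ i < N, ∀ j < N, i ≠ j → Disjoint (K i) (K j))
    (hKJ' : ∀ i < N, ∀ j < N, Disjoint (K i) (J' j))
    (hKP : ∀ i < N, ∀ c ∈ Reg l r n, P c ∉ K i) (hJP' : ∀ i < N, ∀ c ∈ Reg l r n, P c ∉ J' i)
    (hKJ : ∀ i < N, ∀ s j, 1 ≤ s → s ≤ 2 * w → j < N → Disjoint (K i) (J s j))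
    (hJJ' : ∀ i < N, ∀ s j, 1 ≤ s → s ≤ 2 * w → j < N → Disjoint (J' i) (J s j)) :
    GmF S ends P l r n (2 * w) := by
  have hR : ∀ i < N, l ≤ a 1 i ∧ b 1 i ≤ r := by
    intro i hi
    have h4 := h.hul (i := i) (s := 2 * w + 1) hi (by omega) (le_refl _)
    have h5 := h.la i hi
    have h6 := h.rb i hi
    omega
  have hser : ∀ i j, i < j → j < N → b 1 i < a 1 j := by
    intro i j hij hj
    have h1 := h.ser' hij hj
    have h4 := h.hul (i := i) (s := 2 * w + 1) (by omega) (by omega) (le_refl _)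
    have h5 := h.hul (i := j) (s := 2 * w + 1) hj (by omega) (le_refl _)
    omega
  have hxmem : ∀ i < N, ∀ c ∈ xC b v v' (2 * w + 3) i, (c.1 = v i ∧ c.2 ≤ 2 * w + 3) ∨
      (v' i ≤ c.1 ∧ c.1 < b 1 i ∧ c.2 ≤ 1) := by
    intro i hi c hc
    have h1 := hx i hi
    rcases hc with hc | hc | hc
    · rw [mem_Vert] at hc; omega
    · rw [mem_Vert] at hc; omega
    · rw [mem_HRow] at hc; omega
  have hxR : ∀ i < N, xC b v v' (2 * w + 3) i ⊆ Reg l r n := by
    intro i hi c hc
    have h1 := hx i hi
    have h2 := hR i hi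
    rw [mem_Reg]
    rcases hxmem i hi c hc with h3 | h3 <;> omega
  have hxin : ∀ i < N, ∀ c ∈ xC b v v' (2 * w + 3) i, a 1 i < c.1 ∧ c.1 < b 1 i := by
    intro i hi c hc
    have h1 := hx i hi
    rcases hxmem i hi c hc with h3 | h3 <;> omega
  have hzmem : ∀ i < N, ∀ c ∈ zX N y z v (2 * w + 2) i, (c.1 = y i ∧ c.2 ≤ 2 * w + 2) ∨
      (y i < c.1 ∧ c.1 < v i ∧ c.2 = 2 * w + 2) ∨ (c.1 = z i ∧ c.2 ≤ 2 * w + 2) ∨
      (z i < c.1 ∧ c.2 = 2 * w + 2 ∧ i + 1 < N ∧ c.1 < y (i + 1)) := by
    intro i hi c hc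
    have h1 := hx i hi
    rcases hc with (hc | hc) | (hc | hc)
    · rw [mem_Vert] at hc; omega
    · rw [mem_HRow] at hc; omega
    · rw [mem_Vert] at hc; omega
    · rw [mem_HRow] at hc
      split_ifs at hc with h2
      · have h3 := hser i (i + 1) (by omega) h2
        have h4 := hx (i + 1) h2
        omega
      · omega
  have hzR : ∀ i < N, zX N y z v (2 * w + 2) i ⊆ Reg l r n := by
    intro i hi c hc
    have h1 := hx i hi
    have h2 := hR i hi
    rw [mem_Reg]
    rcases hzmem i hi c hc with h3 | h3 | h3 | ⟨h3, h4, h5, h6⟩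
    · omega
    · omega
    · omega
    · have h7 := hx (i + 1) h5
      have h8 := hR (i + 1) h5
      omega
  have ho := nest_out (w := 2 * w) (by omega) hN h (b₀ := 2 * w + 3) (by omega) (by omega) v
    (fun i hi => by have := hx i hi; omega) K (xC b v v' (2 * w + 3)) hKf hxR ?_ ?_ ?_ ?_
    (fun i hi c hc => h.pocket (hxR i hi hc) hi (hxin i hi c hc).1 (hxin i hi c hc).2) hKK hKP hKJ
    ?_
  · subst hN
    refine ho.jgridE hw (by omega) v (fun i hi => ?_) (fun i hi => ?_)
      (⋃ i ∈ Finset.range (2 * w * (2 * w)), (J' i ∪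
        P '' zX (2 * w * (2 * w)) y z v (2 * w + 2) i)) ?_ ?_ (fun i hi => ?_) ?_ (fun i hi => ?_)
    · have h1 := hx i hi
      have h2 := hR i hi
      omega
    · exact Or.inr ⟨_, Or.inl (vm (by omega) (by omega)), rfl⟩
    · refine Set.Finite.biUnion (Finset.range _).finite_toSet (fun i hi => ?_)
      have hi' : i < 2 * w * (2 * w) := by simpa using hi
      exact (hJf' i hi').union (((reg_finite _ _ _).subset (hzR i hi')).image _)
    · refine vconn_chain _ (fun i hi => ?_) (fun i hi => ?_)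
      · have h1 := hx i hi
        have h2 := hR i hi
        have h7 := blob_jump (P := P) (Q := P) (hJ' i hi)
          (A := Vert (y i) 0 (2 * w + 2) ∪ HRow (y i) (v i - 1) (2 * w + 2))
          (B := Vert (z i) 0 (2 * w + 2) ∪ HRow (z i)
            (if i + 1 < 2 * w * (2 * w) then y (i + 1) - 1 else z i) (2 * w + 2))
          (Or.inl (vm (by omega) (by omega))) (Or.inl (vm (by omega) (by omega)))
          (h.page.strand_row (by omega) (by omega) (by omega) (by omega) (by omega) (by omega)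
            (by omega) (by omega) (by omega) (by omega))
          (h.page.strand_row (by omega) (by omega) (by omega) (by omega) (by
            split_ifs with h6
            · have h8 := hx (i + 1) h6
              have h10 := hR (i + 1) h6
              omega
            · omega) (by omega) (by omega)
            (by omega) (by omega) (by
            split_ifs with h6
            · have h8 := hser i (i + 1) (by omega) h6
              have h9 := hx (i + 1) h6
              omega
            · omega))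
        refine vconn_congr h7 (fun v => ?_)
        rw [mem_blob]
        constructor
        · rintro (h8 | h8 | ⟨c, hc, _⟩)
          · exact Or.inl h8
          · exact Or.inr h8
          · exact absurd hc (by simp)
        · rintro (h8 | h8)
          · exact Or.inl h8
          · exact Or.inr (Or.inl h8)
      · have h1 := hx i (by omega)
        have h2 := hx (i + 1) hi
        have h3 := hR i (by omega)
        have h4 := hR (i + 1) hi
        have h5 := hser i (i + 1) (by omega) hi
        obtain ⟨e, he, hee⟩ := h.page.hor (y (i + 1) - 1) (2 * w + 2) (by omega) (by omega)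
          (by omega) (by omega)
        rw [Nat.sub_add_cancel (by omega)] at hee
        refine ⟨e, he, _, Or.inr ⟨(y (i + 1) - 1, 2 * w + 2), ?_, rfl⟩, _,
          Or.inr ⟨(y (i + 1), 2 * w + 2), Or.inl (Or.inl (vm (by omega) (by omega))), rfl⟩, hee⟩
        unfold zX
        rw [if_pos hi]
        exact Or.inr (Or.inr (hm (by omega) (by omega)))
    · rw [Set.disjoint_left]
      rintro u (hv | ⟨c, hc, rfl⟩) hv'
      · obtain ⟨k, hk, hv' | ⟨c', hc', h'⟩⟩ := mem_iUnion₂.1 hv'
        · exact Set.disjoint_left.1 (hKJ' i hi k (Finset.mem_range.1 hk)) hv hv'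
        · rw [← h'] at hv
          exact hKP i hi c' (hzR k (Finset.mem_range.1 hk) hc') hv
      · obtain ⟨k, hk, hv' | ⟨c', hc', h'⟩⟩ := mem_iUnion₂.1 hv'
        · exact hJP' k (Finset.mem_range.1 hk) c (hxR i hi hc) hv'
        · have hk' := Finset.mem_range.1 hk
          have g1 := hzR k hk' hc'
          have g2 := hxR i hi hc
          have g3 := h.page.inj c' c g1.1 g1.2.1 g1.2.2 g2.1 g2.2.1 g2.2.2 h'
          rw [g3] at hc'
          have g4 := hx i hi
          have g5 := hx k hk'
          rcases Nat.lt_trichotomy i k with g6 | g6 | g6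
          · have g7 := hser i k g6 hk'
            rcases hxmem i hi c hc with g8 | g8 <;> rcases hzmem k hk' c hc' with g9 | g9 | g9 | g9
              <;> omega
          · subst g6
            rcases hxmem i hi c hc with g8 | g8 <;> rcases hzmem i hk' c hc' with g9 | g9 | g9 | g9
              <;> omega
          · have g7 := hser k i g6 hi
            rcases hxmem i hi c hc with g8 | g8
            · rcases hzmem k hk' c hc' with g9 | g9 | g9 | ⟨g9, g10, g11, g12⟩
              · omega
              · omega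
              · omega
              · have g13 : y (k + 1) ≤ y i := by
                  rcases Nat.lt_or_ge (k + 1) i with g14 | g14
                  · have g15 := hser (k + 1) i g14 hi
                    have g16 := hx (k + 1) g11
                    omega
                  · have : i = k + 1 := by omega
                    rw [this]
                omega
            · rcases hzmem k hk' c hc' with g9 | g9 | g9 | g9 <;> omega
    · rw [Set.disjoint_left]
      rintro u hv hv'
      obtain ⟨k, hk, hv' | ⟨c', hc', h'⟩⟩ := mem_iUnion₂.1 hv'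
      · have hk' := Finset.mem_range.1 hk
        rcases hv with ⟨c, hc, rfl⟩ | ⟨s, i, g1, g2, g3, (g4 | ⟨c, hc, rfl⟩) | ⟨g4, c, hc, rfl⟩⟩
        · exact hJP' k hk' c hc.1 hv'
        · exact Set.disjoint_left.1 (hJJ' k hk' s i g1 g2 g3) hv' g4
        · exact hJP' k hk' c (h.tC_reg g3 g1 g2 hc) hv'
        · exact hJP' k hk' c (h.lC_reg g4 g1 g2 hc) hv'
      · have hk' := Finset.mem_range.1 hk
        have g1 := hzR k hk' hc'
        have g0 := hx k hk'
        rw [← h'] at hv
        rcases hv with ⟨c, hc, h''⟩ | hv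
        · have g3 := h.page.inj c c' hc.1.1 hc.1.2.1 hc.1.2.2 g1.1 g1.2.1 g1.2.2 h''
          rw [g3] at hc
          have g4 := hc.2
          rcases hzmem k hk' c' hc' with g5 | g5 | g5 | g5 <;> omega
        · have g2 := h.row_lt g1 hv
          rcases hzmem k hk' c' hc' with g5 | g5 | g5 | g5
          · exact h.pocket g1 hk' (by omega) (by omega) hv
          · omega
          · exact h.pocket g1 hk' (by omega) (by omega) hv
          · omega
    · have h1 := hx i hi
      have h2 := hR i hi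
      obtain ⟨e, he, hee⟩ := h.page.hor (v i - 1) (2 * w + 2) (by omega) (by omega) (by omega)
        (by omega)
      rw [Nat.sub_add_cancel (by omega)] at hee
      exact ⟨e, he, _, Or.inr ⟨(v i, 2 * w + 2), Or.inl (vm (by omega) (by omega)), rfl⟩,
        P (v i - 1, 2 * w + 2), mem_iUnion₂.2 ⟨i, Finset.mem_range.2 hi,
        Or.inr ⟨(v i - 1, 2 * w + 2), Or.inl (Or.inr (hm (by omega) (by omega))), rfl⟩⟩,
        by rw [hee, Sym2.eq_swap]⟩
  · intro i hi
    have h1 := hx i hi
    have h2 := hR i hi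
    have h7 := blob_jump (P := P) (Q := P) (hK i hi)
      (A := Vert (v i) 0 (2 * w + 3))
      (B := Vert (v' i) 0 1 ∪ HRow (v' i) (b 1 i - 1) 1)
      (vm (by omega) (by omega)) (Or.inl (vm (by omega) (by omega)))
      (h.page.vconn_ver (by omega) (by omega) (by omega))
      (h.page.strand_row (by omega) (by omega) (by omega) (by omega) (by omega) (by omega)
        (by omega) (by omega) (by omega) (by omega))
    refine vconn_congr h7 (fun v => ?_)
    rw [mem_blob]
    constructor
    · rintro (h8 | h8 | ⟨c, hc, _⟩)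
      · exact Or.inl h8
      · exact Or.inr h8
      · exact absurd hc (by simp)
    · rintro (h8 | h8)
      · exact Or.inl h8
      · exact Or.inr (Or.inl h8)
  · intro i hi
    exact Or.inl (vm (by omega) (by omega))
  · intro i hi
    have h1 := hx i hi
    exact Or.inr (Or.inr (hm (by omega) (by omega)))
  · intro i hi c hc h0
    rcases hc with hc | hc | hc
    · rw [mem_Vert] at hc
      exact Prod.ext hc.1 (by omega)
    · rw [mem_Vert] at hc; omega
    · rw [mem_HRow] at hc; omega
  · intro i hi j hj hij c hc hc'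
    have h1 := hxin i hi c hc
    have h2 := hxin j hj c hc'
    rcases Nat.lt_or_gt_of_ne hij with h3 | h3
    · have := hser i j h3 hj; omega
    · have := hser j i h3 hi; omega

/-- Mirror image of nests in series. -/
lemma Nst.mirror (h : Nst S ends P l r n w N a b J) :
    Nst S ends (fun c => P (l + r - c.1, c.2)) l r n w N (fun s i => l + r - b s (N - 1 - i))
      (fun s i => l + r - a s (N - 1 - i)) (fun s i => J s (N - 1 - i)) := by
  have hlt : ∀ i < N, N - 1 - i < N := fun i _ => by omega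
  have hbd : ∀ s i, 1 ≤ s → s ≤ w + 1 → i < N → l ≤ a s i ∧ a s i ≤ r ∧ l ≤ b s i ∧ b s i ≤ r := by
    intro s i h1 h2 hi
    have h3 := h.hul (i := i) (s := s) hi h1 h2
    have h4 := h.la i hi
    have h5 := h.rb i hi
    omega
  refine ⟨h.page.mirror, h.dep, ?_, ?_, ?_, ?_, ?_, ?_, ?_, ?_, ?_, ?_⟩
  · intro i hi
    have h1 := hbd (w + 1) _ (by omega) (le_refl _) (hlt i hi)
    omega
  · intro i hi
    have h1 := hbd (w + 1) _ (by omega) (le_refl _) (hlt i hi)
    omega
  · intro i hi s h1 h2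
    have h3 := hbd s _ h1 (by omega) (hlt i hi)
    have h4 := hbd (s + 1) _ (by omega) (by omega) (hlt i hi)
    have h5 := h.bm _ (hlt i hi) s h1 h2
    omega
  · intro i hi s h1 h2
    have h3 := hbd s _ h1 (by omega) (hlt i hi)
    have h4 := hbd (s + 1) _ (by omega) (by omega) (hlt i hi)
    have h5 := h.am _ (hlt i hi) s h1 h2
    omega
  · intro i hi
    have h3 := hbd 1 _ (by omega) (by omega) (hlt i hi)
    have h5 := h.ab _ (hlt i hi)
    omega
  · intro i hi
    have h1 := hbd (w + 1) _ (by omega) (le_refl _) (hlt i (by omega))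
    have h2 := hbd (w + 1) _ (by omega) (le_refl _) (hlt (i + 1) hi)
    have h3 := h.ser' (i := N - 1 - (i + 1)) (j := N - 1 - i) (by omega) (by omega)
    omega
  · intro s i h1 h2 hi
    exact h.finJ s _ h1 h2 (hlt i hi)
  · intro s i h1 h2 hi
    have h3 := hbd s _ h1 h2 (hlt i hi)
    simp only
    rw [mirror_at (P := P) h3.1 h3.2.1, mirror_at (P := P) h3.2.2.1 h3.2.2.2, Set.pair_comm]
    exact h.conJ s _ h1 h2 (hlt i hi)
  · intro s i s' i' h1 h2 h3 h1' h2' h3' hne
    refine h.dJJ s _ s' _ h1 h2 (hlt i h3) h1' h2' (hlt i' h3') (fun h4 => hne ?_)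
    rw [Prod.mk.injEq] at h4
    rw [h4.1, Prod.mk.injEq]
    exact ⟨rfl, by omega⟩
  · intro s i h1 h2 hi c hc
    exact h.pJ s _ h1 h2 (hlt i hi) _ (mirror_reg hc)

/-- **(PSJ), mirror image: connectors from the pocket to the previous gap.** -/
theorem psj' {w N : ℕ} (hw : 1 ≤ w) (hN : N = (2 * w) * (2 * w))
    (h : Nst S ends P l r n (2 * w) N a b J) (hn : 4 * w + 2 ≤ n) (x f : ℕ → ℕ)
    (hx : ∀ i < N, a 1 i < x i ∧ x i < b 1 i)
    (hf : ∀ i < N, l ≤ f i ∧ f i < a (2 * w + 1) i)
    (hf' : ∀ i, i + 1 < N → b (2 * w + 1) i < f (i + 1))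
    (K : ℕ → Set V) (hKf : ∀ i < N, (K i).Finite)
    (hK : ∀ i < N, VConn S ends (K i ∪ {P (x i, 0), P (f i, 0)}))
    (hKK : ∀ i < N, ∀ j < N, i ≠ j → Disjoint (K i) (K j))
    (hKP : ∀ i < N, ∀ c ∈ Reg l r n, P c ∉ K i)
    (hKJ : ∀ i < N, ∀ s j, 1 ≤ s → s ≤ 2 * w + 1 → j < N → Disjoint (K i) (J s j)) :
    GmF S ends P l r n (2 * w) := by
  have hlt : ∀ i < N, N - 1 - i < N := fun i _ => by omega
  have hbd : ∀ i < N, l ≤ a 1 i ∧ b 1 i ≤ r ∧ l ≤ a (2 * w + 1) i ∧ a (2 * w + 1) i ≤ r ∧
      l ≤ b (2 * w + 1) i ∧ b (2 * w + 1) i ≤ r := by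
    intro i hi
    have h3 := h.hul (i := i) (s := 2 * w + 1) hi (by omega) (le_refl _)
    have h4 := h.la i hi
    have h5 := h.rb i hi
    omega
  refine GmF.mirror (by omega) ?_
  refine psj hw hN h.mirror hn (fun i => l + r - x (N - 1 - i)) (fun i => l + r - f (N - 1 - i))
    ?_ ?_ ?_ (fun i => K (N - 1 - i)) (fun i hi => hKf _ (hlt i hi)) ?_
    (fun i hi j hj hij => hKK _ (hlt i hi) _ (hlt j hj) (by omega))
    (fun i hi c hc => hKP _ (hlt i hi) _ (mirror_reg hc))
    (fun i hi s j h1 h2 h3 => hKJ _ (hlt i hi) s _ h1 h2 (hlt j h3))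
  · intro i hi
    have h1 := hx _ (hlt i hi)
    have h2 := hbd _ (hlt i hi)
    omega
  · intro i hi
    have h1 := hf _ (hlt i hi)
    have h2 := hbd _ (hlt i hi)
    omega
  · intro i hi
    have h1 := hf' (N - 1 - (i + 1)) (by omega)
    have h2 := hf _ (hlt i (by omega))
    have h3 := hbd _ (hlt (i + 1) hi)
    have h4 := hbd _ (hlt i (by omega))
    have e : N - 1 - (i + 1) + 1 = N - 1 - i := by omega
    rw [e] at h1
    omega
  · intro i hi
    have h1 := hx _ (hlt i hi)
    have h2 := hf _ (hlt i hi)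
    have h3 := hbd _ (hlt i hi)
    simp only
    rw [mirror_at (P := P) (by omega) (by omega), mirror_at (P := P) h2.1 (by omega)]
    exact hK _ (hlt i hi)

end

end EN
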