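import Pool.Agent.EN.LinkE
import Pool.Agent.EN.MatchU

/-!
# Joint ground modulo some pieces (row F6 of D2, T-star)
-/

open Set BIC
open scoped Matroid

namespace EN

open Gad

set_option maxHeartbeats 1000000

variable {α V : Type*} {M : Matroid α} {S : Set α} {ends : α → Sym2 V} {u : ℕ}
  {I D : Finset ℕ} {F : ℕ → Set V}

/-- The contraction of a set lowers the joint ground. -/
lemma JU.of_contract {ι : Type*} [M.Finite] {Q : Set α} (hQ : Q ⊆ M.E) {J : Finset ι}
    {B : ι → Set V} (hS : Disjoint S Q) (hSE : S ⊆ M.E) (h : JU (M ／ Q) S ends J B) :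
    JU M S ends J B := by
  have h1 : Ufm S ends J B ⊆ M.E \ Q := fun e he =>
    ⟨hSE (Ufm_sub _ _ he), Set.disjoint_left.1 hS (Ufm_sub _ _ he)⟩
  have h2 := BQ.rk_con hQ h1
  have h3 := rk_union_two (M := M) (Ufm S ends J B) Q
  show _ ≤ BIC.rk M (Ufm S ends J B)
  have h4 : _ ≤ BIC.rk (M ／ Q) (Ufm S ends J B) := h
  omega

/-- **Row F6.**  Joint ground modulo the pieces of `D`, for all but few pieces. -/
theorem JU.pieces [M.Finite] (hF : FrmU M S ends u) (h : Pcs S ends I F) (hD : D ⊆ I)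
    {κ : Type*} {B : κ → Set V} {K : ℕ → Set κ}
    (hK : ∀ p ∈ I, ∀ q ∈ I, p ≠ q → Disjoint (K p) (K q)) (hB : ∀ p ∈ I, ∀ k ∈ K p, B k ⊆ F p)
    {gr : κ → Prop} (hJ : ∀ J : Finset κ, (∀ k ∈ J, gr k) → JU M S ends J B) :
    ∃ E ⊆ I, E.card ≤ u + D.card ∧ ∀ p ∈ I, p ∉ D → p ∉ E → ∀ J : Finset κ,
      (∀ k ∈ J, gr k ∧ k ∈ K p) → JU (M ／ Ufm S ends D F) (ins S ends (F p)) ends J B := by
  classical
  set Bad : ℕ → Prop := fun p => ∃ J : Finset κ, (∀ k ∈ J, gr k ∧ k ∈ K p) ∧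
    ¬ JU (M ／ Ufm S ends D F) (ins S ends (F p)) ends J B with hBad
  set E : Finset ℕ := I.filter (fun p => p ∉ D ∧ Bad p) with hE
  have hEI : E ⊆ I := Finset.filter_subset _ _
  have hED : Disjoint E D := by
    rw [Finset.disjoint_left]
    intro p hp
    exact (Finset.mem_filter.1 hp).2.1
  refine ⟨E, hEI, ?_, ?_⟩
  swap
  · intro p hp hpD hpE J hJp
    by_contra hcon
    exact hpE (Finset.mem_filter.2 ⟨hp, hpD, J, hJp, hcon⟩)
  have hDE : Ufm S ends D F ⊆ M.E := (Ufm_sub _ _).trans hF.sub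
  have hfin : (M ／ Ufm S ends D F).Finite := BQ.fin_contract _
  have hch : ∀ p, ∃ J : Finset κ, p ∈ E → (∀ k ∈ J, gr k ∧ k ∈ K p) ∧
      ¬ JU (M ／ Ufm S ends D F) (ins S ends (F p)) ends J B := by
    intro p
    by_cases hp : p ∈ E
    · obtain ⟨J, h1, h2⟩ := (Finset.mem_filter.1 hp).2.2
      exact ⟨J, fun _ => ⟨h1, h2⟩⟩
    · exact ⟨∅, fun h => absurd h hp⟩
  choose Jp hJp using hch
  -- the ranks in the contraction
  have key : ∀ G : Finset ℕ, G ⊆ E →
      BIC.rk (M ／ Ufm S ends D F) (Ufm S ends (G.biUnion Jp) B) + G.card ≤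
        ∑ k ∈ G.biUnion Jp, (B k).ncard := by
    intro G
    induction G using Finset.induction_on with
    | empty =>
      intro _
      have h1 : Ufm S ends ((∅ : Finset ℕ).biUnion Jp) B = ∅ := by
        ext e
        rw [mem_Ufm]
        simp
      have h2 := BIC.rk_le_ncard (M ／ Ufm S ends D F) (finite_empty (α := α))
      rw [h1]
      simp at h2 ⊢
      omega
    | insert p G hp ih =>
      intro hG
      have hpE : p ∈ E := hG (Finset.mem_insert_self _ _)
      have hGE : G ⊆ E := fun q hq => hG (Finset.mem_insert_of_mem hq)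
      have h1 := ih hGE
      obtain ⟨h2, h3⟩ := hJp p hpE
      have hdis : Disjoint (Jp p) (G.biUnion Jp) := by
        rw [Finset.disjoint_left]
        intro k hk hk'
        obtain ⟨q, hq, hkq⟩ := Finset.mem_biUnion.1 hk'
        refine Set.disjoint_left.1 (hK p (hEI hpE) q (hEI (hGE hq)) (fun e => hp (e ▸ hq)))
          (h2 k hk).2 ((hJp q (hGE hq)).1 k hkq).2
      rw [Finset.biUnion_insert, Finset.sum_union hdis, Finset.card_insert_of_notMem hp]
      have h4 : Ufm S ends (Jp p ∪ G.biUnion Jp) B ⊆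
          Ufm (ins S ends (F p)) ends (Jp p) B ∪ Ufm S ends (G.biUnion Jp) B := by
        intro e he
        obtain ⟨k, hk, hek⟩ := mem_Ufm.1 he
        rcases Finset.mem_union.1 hk with hk | hk
        · left
          refine mem_Ufm.2 ⟨k, hk, ⟨hek.1, fun v hv => hB p (hEI hpE) k (h2 k hk).2 (hek.2 v hv)⟩,
            hek.2⟩
        · right
          exact mem_Ufm.2 ⟨k, hk, hek⟩
      have h5 := BIC.rk_mono (M ／ Ufm S ends D F) h4
      have h6 := rk_union_two (M := M ／ Ufm S ends D F) (Ufm (ins S ends (F p)) ends (Jp p) B)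
        (Ufm S ends (G.biUnion Jp) B)
      have h7 : ¬ (∑ k ∈ Jp p, (B k).ncard ≤
          BIC.rk (M ／ Ufm S ends D F) (Ufm (ins S ends (F p)) ends (Jp p) B)) := h3
      omega
  have h1 := key E (Finset.Subset.refl _)
  have h2 : ∑ k ∈ E.biUnion Jp, (B k).ncard ≤ BIC.rk M (Ufm S ends (E.biUnion Jp) B) :=
    hJ _ (by
      intro k hk
      obtain ⟨p, hp, hkp⟩ := Finset.mem_biUnion.1 hk
      exact ((hJp p hp).1 k hkp).1)
  have hsub : Ufm S ends (E.biUnion Jp) B ⊆ Ufm S ends E F := by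
    intro e he
    obtain ⟨k, hk, hek⟩ := mem_Ufm.1 he
    obtain ⟨p, hp, hkp⟩ := Finset.mem_biUnion.1 hk
    exact mem_Ufm.2 ⟨p, hp, hek.1, fun v hv => hB p (hEI hp) k ((hJp p hp).1 k hkp).2 (hek.2 v hv)⟩
  have hdisj := h.disj hEI hD hED
  have h3 : Ufm S ends (E.biUnion Jp) B ⊆ M.E \ Ufm S ends D F := fun e he =>
    ⟨hF.sub (Ufm_sub _ _ he), Set.disjoint_left.1 hdisj (hsub he)⟩
  have h4 := BQ.rk_con hDE h3
  have h5 := hF.conn_le h hD hEI hED.symm
  -- local connectivity is monotone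
  have h6 := rk_submod M (Ufm S ends (E.biUnion Jp) B ∪ Ufm S ends D F) (Ufm S ends E F)
  have h7 : BIC.rk M (Ufm S ends (E.biUnion Jp) B) ≤
      BIC.rk M ((Ufm S ends (E.biUnion Jp) B ∪ Ufm S ends D F) ∩ Ufm S ends E F) :=
    rk_mono M (subset_inter subset_union_left hsub)
  have h8 : BIC.rk M (Ufm S ends E F ∪ Ufm S ends D F) ≤
      BIC.rk M (Ufm S ends (E.biUnion Jp) B ∪ Ufm S ends D F ∪ Ufm S ends E F) :=
    rk_mono M (union_subset subset_union_right (subset_union_right.trans subset_union_left))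
  omega

end EN
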