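import Pool.Agent.EN.RlzN

/-!
# Realized systems: `K_t` from separated intervals with pairwise links
-/

open Set
open scoped Matroid

namespace EN

open BIC Gad

variable {α V : Type*} {M : Matroid α} {S : Set α} {ends : α → Sym2 V}

/-- A connected core and connected sets meeting it. -/
lemma vconn_core {ι : Type*} {A : Set V} (hA : VConn S ends A) {x₀ : V} (hx₀ : x₀ ∈ A)
    (C : ι → Set V) (hC : ∀ i, VConn S ends (C i)) (hm : ∀ i, ∃ c, c ∈ A ∧ c ∈ C i) :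
    VConn S ends (A ∪ ⋃ i, C i) := by
  have h1 : ∀ u ∈ A ∪ ⋃ i, C i,
      Relation.ReflTransGen (fun x y => GAdj S ends x y ∧ x ∈ A ∪ ⋃ i, C i ∧
        y ∈ A ∪ ⋃ i, C i) u x₀ ∧
      Relation.ReflTransGen (fun x y => GAdj S ends x y ∧ x ∈ A ∪ ⋃ i, C i ∧
        y ∈ A ∪ ⋃ i, C i) x₀ u := by
    rintro u (hu | hu)
    · exact ⟨rtg_mono subset_union_left (hA u hu x₀ hx₀),
        rtg_mono subset_union_left (hA x₀ hx₀ u hu)⟩
    · obtain ⟨i, hi⟩ := mem_iUnion.1 hu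
      obtain ⟨c, hc, hc'⟩ := hm i
      have hs : C i ⊆ A ∪ ⋃ i, C i := (subset_iUnion C i).trans subset_union_right
      exact ⟨(rtg_mono hs (hC i u hi c hc')).trans (rtg_mono subset_union_left (hA c hc x₀ hx₀)),
        (rtg_mono subset_union_left (hA x₀ hx₀ c hc)).trans (rtg_mono hs (hC i c hc' u hi))⟩
  intro u hu v hv
  exact (h1 u hu).1.trans (h1 v hv).2

lemma Page.vconn_reg {P : ℕ × ℕ → V} {l r n k : ℕ} (hP : Page S ends P l r n) (hk : 1 ≤ k)
    (hkn : k ≤ n) (hlr : l ≤ r) : VConn S ends (P '' Reg l r k) := by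
  have h1 := hP.vconn_hor (x₁ := l) (x₂ := r) (b := 1) (le_refl _) (le_refl _) (le_refl _)
    (hk.trans hkn)
  have h2 := vconn_core h1 (x₀ := P (l, 1)) ⟨_, hm (le_refl _) hlr, rfl⟩
    (fun x : {x : ℕ // l ≤ x ∧ x ≤ r} => P '' Vert x.1 0 k)
    (fun x => hP.vconn_ver x.2.1 x.2.2 hkn)
    (fun x => ⟨P (x.1, 1), ⟨_, hm x.2.1 x.2.2, rfl⟩, ⟨_, vm (by omega) hk, rfl⟩⟩)
  refine vconn_congr h2 (fun v => ?_)
  constructor
  · rintro (⟨c, hc, rfl⟩ | hv)
    · refine ⟨c, ?_, rfl⟩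
      rw [mem_HRow] at hc
      rw [mem_Reg]
      omega
    · obtain ⟨x, c, hc, rfl⟩ := mem_iUnion.1 hv
      refine ⟨c, ?_, rfl⟩
      have := x.2
      rw [mem_Vert] at hc
      rw [mem_Reg]
      omega
  · rintro ⟨c, hc, rfl⟩
    rw [mem_Reg] at hc
    refine Or.inr (mem_iUnion.2 ⟨⟨c.1, hc.1, hc.2.1⟩, c, ?_, rfl⟩)
    rw [mem_Vert]
    exact ⟨rfl, Nat.zero_le _, hc.2.2⟩

section

variable {σ κ : Type*} {P : σ → ℕ × ℕ → V} {lo hi : σ → ℕ} {n : ℕ} {G : Set V} {B : κ → Set V}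
  {port : σ → ℕ → κ → Prop} {ct : κ → κ → Prop} {gr : κ → Prop}

/-- **`K_t` in a realized system**: separated intervals with pairwise disjoint links. -/
theorem Rlz.kt (h : Rlz S ends P lo hi n G B port ct gr) {w t : ℕ}
    (hw : 1 ≤ w) (ht : (2 * w) * (2 * w) + 1 ≤ t) (hn : 1 ≤ n) (s : ℕ → σ) (l r : ℕ → ℕ)
    (hl : ∀ i < t, lo (s i) ≤ l i ∧ l i ≤ r i ∧ r i ≤ hi (s i))
    (hsep : ∀ i < t, ∀ j < t, i ≠ j → s i ≠ s j ∨ r i < l j ∨ r j < l i)
    (x : ℕ → ℕ → ℕ) (L : ℕ → ℕ → Finset κ)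
    (hL : ∀ i j, i < j → j < t → Lk port ct (s i) (x i j) (s j) (x j i) (L i j))
    (hx : ∀ i < t, ∀ j < t, i ≠ j → l i ≤ x i j ∧ x i j ≤ r i)
    (hLL : ∀ i j i' j', i < j → j < t → i' < j' → j' < t → (i, j) ≠ (i', j') →
      Disjoint (L i j) (L i' j')) : GmZ S ends (2 * w) := by
  have hreg : ∀ i < t, ∀ c ∈ Reg (l i) (r i) 1, c ∈ Reg (lo (s i)) (hi (s i)) n := by
    intro i hi c hc
    have := hl i hi
    rw [mem_Reg] at hc ⊢
    omega
  refine kt_jgrid hw ht (fun i => P (s i) '' Reg (l i) (r i) 1 ∪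
    ⋃ j : {j : ℕ // i < j ∧ j < t}, (JJ B (L i j.1) ∪ {P (s i) (x i j.1, 0)})) ?_ ?_ ?_ ?_
  · intro i hi
    have : Finite {j : ℕ // i < j ∧ j < t} :=
      Set.Finite.to_subtype ((Set.finite_lt_nat t).subset (fun j hj => hj.2))
    exact ((reg_finite _ _ _).image _).union (Set.finite_iUnion (fun j =>
      (h.JJ_fin _).union (finite_singleton _)))
  · intro i hi
    have h1 := hl i hi
    have hpg := (h.pgs.page (s i)).sub h1.1 h1.2.2 (le_refl n)
    refine vconn_core (hpg.vconn_reg (le_refl 1) hn h1.2.1) (x₀ := P (s i) (l i, 0))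
      ⟨_, by rw [mem_Reg]; simp only; omega, rfl⟩ _ (fun j => ?_) (fun j => ?_)
    · have h2 := h.lcon (hL i j.1 j.2.1 j.2.2)
      exact vc_lnk h2.1 (vconn_singleton _) h2.2.1
    · have h3 := hx i hi j.1 j.2.2 (by have := j.2.1; omega)
      exact ⟨P (s i) (x i j.1, 0), ⟨_, by rw [mem_Reg]; simp only; omega, rfl⟩, Or.inr rfl⟩
  · have key : ∀ i < t, ∀ u, u ∈ P (s i) '' Reg (l i) (r i) 1 ∪
        ⋃ j : {j : ℕ // i < j ∧ j < t}, (JJ B (L i j.1) ∪ {P (s i) (x i j.1, 0)}) →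
        u ∈ P (s i) '' Reg (l i) (r i) 1 ∨ ∃ j, i < j ∧ j < t ∧ u ∈ JJ B (L i j) := by
      rintro i hi u (hu | hu)
      · exact Or.inl hu
      · obtain ⟨j, hu | hu⟩ := mem_iUnion.1 hu
        · exact Or.inr ⟨j.1, j.2.1, j.2.2, hu⟩
        · left
          have h1 := hx i hi j.1 j.2.2 (by have := j.2.1; omega)
          exact ⟨_, by rw [mem_Reg]; simp only; omega, (mem_singleton_iff.1 hu).symm⟩
    intro i hi j hj hij
    rw [Set.disjoint_left]
    intro u hu hu'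
    rcases key i hi u hu with ⟨c, hc, hcu⟩ | ⟨a, ha, ha', hau⟩
    · rcases key j hj u hu' with ⟨c', hc', hcu'⟩ | ⟨a', ha, ha', hau'⟩
      · have h1 := hl i hi
        have h2 := hl j hj
        refine h.pgs.ne (l := l i) (r := r i) (l' := l j) (r' := r j) h1.1 h1.2.2 h2.1 h2.2.2
          (hsep i hi j hj hij) c ?_ c' ?_ (hcu.trans hcu'.symm)
        · rw [mem_Reg] at hc ⊢; omega
        · rw [mem_Reg] at hc' ⊢; omega
      · rw [← hcu] at hau'
        exact h.JJ_page _ (hreg i hi c hc) hau'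
    · rcases key j hj u hu' with ⟨c', hc', hcu'⟩ | ⟨a', hb, hb', hau'⟩
      · rw [← hcu'] at hau
        exact h.JJ_page _ (hreg j hj c' hc') hau
      · exact Set.disjoint_left.1 (h.JJ_dis (hLL i a j a' ha ha' hb hb' (by
          rw [Ne, Prod.mk.injEq]; omega))) hau hau'
  · have key : ∀ i j, i < j → j < t → Lnk S ends (P (s i) '' Reg (l i) (r i) 1 ∪
        ⋃ j : {j : ℕ // i < j ∧ j < t}, (JJ B (L i j.1) ∪ {P (s i) (x i j.1, 0)}))
        (P (s j) '' Reg (l j) (r j) 1 ∪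
        ⋃ k : {k : ℕ // j < k ∧ k < t}, (JJ B (L j k.1) ∪ {P (s j) (x j k.1, 0)})) := by
      intro i j hij hj
      have h1 := (h.lcon (hL i j hij hj)).2.2
      refine h1.mono (subset_refl _) ?_ ?_
      · intro u hu
        exact Or.inr (mem_iUnion.2 ⟨⟨j, hij, hj⟩, Or.inl hu⟩)
      · rw [singleton_subset_iff]
        have h2 := hx j hj i (by omega) (by omega)
        exact Or.inl ⟨_, by rw [mem_Reg]; simp only; omega, rfl⟩
    intro i hi j hj hij
    rcases Nat.lt_or_gt_of_ne hij with h1 | h1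
    · exact key i j h1 hj
    · exact (key j i h1 hi).symm

end

end EN
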