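import Pool.Agent.EN.MatchU

/-!
# Subsystems of a realized system (row G of D2, T-star; helper45)

`Sys.sub Y Q A cls R`: only the ports with `Q` are kept (renumbered), only the connectors in `A`,
the new shore of the port `x` is `cls x`.
`RealU.sub`: the subsystem is realized inside of a set `Vs` of vertices: columns between kept ports
of one class, up to level `n'`, and the connectors of `A`.
-/

set_option autoImplicit false

open Set
open scoped Matroid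

namespace EN

open BIC Gad

variable {κ : Type*}

namespace Sys

/-- kept ports -/
def Kp (Y : Sys κ) (Q : ℕ → Prop) (x : ℕ) : Prop := x < Y.L ∧ Q x

open scoped Classical in
/-- the new number of a kept port -/
noncomputable def rnk (Y : Sys κ) (Q : ℕ → Prop) (x : ℕ) : ℕ := Nat.count (Y.Kp Q) x

open scoped Classical in
/-- The subsystem. -/
noncomputable def sub (Y : Sys κ) (Q : ℕ → Prop) (A : Set κ) (cls : ℕ → ℕ) (R' : ℕ) : Sys κ where
  L := Nat.count (Y.Kp Q) Y.L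
  R := R'
  sh := fun i => cls (Nat.nth (Y.Kp Q) i)
  own := fun i => Y.own (Nat.nth (Y.Kp Q) i)
  ct := fun k k' => Y.ct k k' ∧ k ∈ A ∧ k' ∈ A
  gr := fun k => Y.gr k ∧ k ∈ A

section

variable {Y : Sys κ} {Q : ℕ → Prop} {A : Set κ} {cls : ℕ → ℕ} {R' : ℕ} {x y : ℕ}

lemma nth_rnk (hx : Y.Kp Q x) : Nat.nth (Y.Kp Q) (Y.rnk Q x) = x := by
  classical exact Nat.nth_count hx

lemma rnk_lt (hx : Y.Kp Q x) : Y.rnk Q x < (Y.sub Q A cls R').L := by
  classical exact Nat.count_strict_mono hx hx.1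

lemma rnk_mono (hx : Y.Kp Q x) (hxy : x < y) : Y.rnk Q x < Y.rnk Q y := by
  classical exact Nat.count_strict_mono hx hxy

lemma rnk_le (hxy : x ≤ y) : Y.rnk Q x ≤ Y.rnk Q y := by
  classical exact Nat.count_monotone _ hxy

lemma rnk_lt_iff (hx : Y.Kp Q x) : Y.rnk Q x < Y.rnk Q y ↔ x < y := by
  refine ⟨fun h => ?_, rnk_mono hx⟩
  by_contra h1
  have := rnk_le (Y := Y) (Q := Q) (not_lt.1 h1)
  omega

lemma rnk_inj (hx : Y.Kp Q x) (hy : Y.Kp Q y) (h : Y.rnk Q x = Y.rnk Q y) : x = y := by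
  rw [← nth_rnk hx, ← nth_rnk hy, h]

lemma exists_rnk {i : ℕ} (hi : i < (Y.sub Q A cls R').L) : ∃ x, Y.Kp Q x ∧ Y.rnk Q x = i := by
  classical
  have hf : (Set.ofPred (Y.Kp Q)).Finite := (Set.finite_Iio Y.L).subset fun x hx => hx.1
  have h1 : i < hf.toFinset.card := lt_of_lt_of_le hi (Nat.count_le_card hf _)
  exact ⟨Nat.nth (Y.Kp Q) i, Nat.nth_mem_of_lt_card hf h1, Nat.count_nth_of_lt_card_finite hf h1⟩

lemma own_sub (hx : Y.Kp Q x) : (Y.sub Q A cls R').own (Y.rnk Q x) = Y.own x := by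
  show Y.own _ = _
  rw [nth_rnk hx]

lemma sh_sub (hx : Y.Kp Q x) : (Y.sub Q A cls R').sh (Y.rnk Q x) = cls x := by
  show cls _ = _
  rw [nth_rnk hx]

/-- the shores stay in order -/
lemma mo_sub (hm : ∀ x y, x ≤ y → y < Y.L → cls x ≤ cls y) : (Y.sub Q A cls R').Mo := by
  intro i j hij hj
  obtain ⟨y, hy, rfl⟩ := exists_rnk hj
  obtain ⟨x, hx, rfl⟩ := exists_rnk (lt_of_le_of_lt hij hj)
  rw [sh_sub hx, sh_sub hy]
  refine hm x y ?_ hy.1
  by_contra h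
  have := rnk_mono (Q := Q) hy (not_le.1 h)
  omega

end

/-- the kept ports of a class -/
def Cls (Y : Sys κ) (Q : ℕ → Prop) (cls : ℕ → ℕ) (j : ℕ) : Set ℕ := {x | Y.Kp Q x ∧ cls x = j}

open scoped Classical in
/-- first column of a class -/
noncomputable def loC (Y : Sys κ) (Q : ℕ → Prop) (cls : ℕ → ℕ) (col : ℕ → ℕ) (j : ℕ) : ℕ :=
  if (Y.Cls Q cls j).Nonempty then sInf (col '' Y.Cls Q cls j) else 1

/-- last column of a class -/
noncomputable def hiC (Y : Sys κ) (Q : ℕ → Prop) (cls : ℕ → ℕ) (col : ℕ → ℕ) (j : ℕ) : ℕ :=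
  sSup (col '' Y.Cls Q cls j)

section

variable {Y : Sys κ} {Q : ℕ → Prop} {cls col : ℕ → ℕ} {j : ℕ}

lemma cls_fin : (Y.Cls Q cls j).Finite := (Set.finite_Iio Y.L).subset fun _ hx => hx.1.1

lemma mem_lohi {x : ℕ} (hx : Y.Kp Q x) :
    Y.loC Q cls col (cls x) ≤ col x ∧ col x ≤ Y.hiC Q cls col (cls x) := by
  have h1 : x ∈ Y.Cls Q cls (cls x) := ⟨hx, rfl⟩
  constructor
  · unfold loC
    rw [if_pos ⟨x, h1⟩]
    exact Nat.sInf_le ⟨x, h1, rfl⟩
  · exact le_csSup (cls_fin.image col).bddAbove ⟨x, h1, rfl⟩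

lemma exists_lohi {c : ℕ} (h1 : Y.loC Q cls col j ≤ c) (h2 : c ≤ Y.hiC Q cls col j) :
    ∃ x y, Y.Kp Q x ∧ Y.Kp Q y ∧ cls x = j ∧ cls y = j ∧ col x ≤ c ∧ c ≤ col y ∧
      Y.loC Q cls col j = col x ∧ Y.hiC Q cls col j = col y := by
  by_cases hne : (Y.Cls Q cls j).Nonempty
  · unfold loC at h1 ⊢
    rw [if_pos hne] at h1 ⊢
    obtain ⟨x, hx, hx2⟩ := Nat.sInf_mem (hne.image col)
    obtain ⟨y, hy, hy2⟩ := Nat.sSup_mem (hne.image col) (cls_fin.image col).bddAbove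
    refine ⟨x, y, hx.1, hy.1, hx.2, hy.2, by rw [hx2]; exact h1, ?_, hx2.symm, hy2.symm⟩
    rw [hy2]
    exact h2
  · exfalso
    unfold loC at h1
    unfold hiC at h2
    rw [if_neg hne] at h1
    rw [Set.not_nonempty_iff_eq_empty] at hne
    rw [hne, Set.image_empty, csSup_empty, Nat.bot_eq_zero] at h2
    omega

end

end Sys

variable {α V : Type*} {M : Matroid α} {S : Set α} {ends : α → Sym2 V}

/-- The vertices of a subsystem. -/
def VsP (Y : Sys κ) (Q : ℕ → Prop) (cls : ℕ → ℕ) (P : ℕ → ℕ × ℕ → V) (n' : ℕ) (col : ℕ → ℕ) :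
    Set V :=
  {v | ∃ x y c b, Y.Kp Q x ∧ Y.Kp Q y ∧ cls x = cls y ∧ Y.sh x = Y.sh y ∧ col x ≤ c ∧ c ≤ col y ∧
    b ≤ n' ∧ v = P (Y.sh x) (c, b)}

/-- The vertices of a subsystem. -/
def Vs (Y : Sys κ) (Q : ℕ → Prop) (A : Set κ) (cls : ℕ → ℕ) (P : ℕ → ℕ × ℕ → V) (n' : ℕ)
    (B : κ → Set V) (col : ℕ → ℕ) : Set V :=
  VsP Y Q cls P n' col ∪ {v | ∃ k ∈ A, v ∈ B k}

lemma VsP_fin (Y : Sys κ) (Q : ℕ → Prop) (cls : ℕ → ℕ) (P : ℕ → ℕ × ℕ → V) (n' : ℕ)
    (col : ℕ → ℕ) : (VsP Y Q cls P n' col).Finite := by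
  have h1 : (⋃ x ∈ Set.Iio Y.L, ⋃ y ∈ Set.Iio Y.L,
      P (Y.sh x) '' Reg (col x) (col y) n').Finite := by
    refine (Set.finite_Iio _).biUnion fun x _ => (Set.finite_Iio _).biUnion fun y _ => ?_
    exact (reg_finite _ _ _).image _
  refine h1.subset ?_
  rintro v ⟨x, y, c, b, hx, hy, _, _, h2, h3, h4, rfl⟩
  simp only [mem_iUnion]
  exact ⟨x, hx.1, y, hy.1, _, ⟨h2, h3, h4⟩, rfl⟩

lemma Vs_fin {Y : Sys κ} {Q : ℕ → Prop} {A : Set κ} {cls : ℕ → ℕ} {P : ℕ → ℕ × ℕ → V} {n' : ℕ}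
    {B : κ → Set V} {col : ℕ → ℕ} (hA : A.Finite) (hB : ∀ k, (B k).Finite) :
    (Vs Y Q A cls P n' B col).Finite := by
  refine (VsP_fin Y Q cls P n' col).union ?_
  refine (hA.biUnion fun k _ => hB k).subset ?_
  rintro v ⟨k, hk, hv⟩
  exact mem_biUnion hk hv

lemma gadj_insW {u v : V} {W : Set V} (h : GAdj S ends u v) (hu : u ∈ W) (hv : v ∈ W) :
    GAdj (BIC.ins S ends W) ends u v := by
  obtain ⟨e, he, hee⟩ := h
  refine ⟨e, ⟨he, ?_⟩, hee⟩
  intro w hw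
  rw [hee, Sym2.mem_iff] at hw
  rcases hw with rfl | rfl
  · exact hu
  · exact hv

lemma vconn_insW {A W : Set V} (h : VConn S ends A) (hA : A ⊆ W) :
    VConn (BIC.ins S ends W) ends A := by
  intro u hu v hv
  have h1 := h u hu v hv
  induction h1 with
  | refl => exact Relation.ReflTransGen.refl
  | tail _ h3 ih => exact (ih h3.2.1).tail ⟨gadj_insW h3.1 (hA h3.2.1) (hA h3.2.2), h3.2⟩

lemma lnk_insW {A B W : Set V} (h : Lnk S ends A B) (hA : A ⊆ W) (hB : B ⊆ W) :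
    Lnk (BIC.ins S ends W) ends A B := by
  obtain ⟨e, he, a, ha, b, hb, hab⟩ := h
  refine ⟨e, ⟨he, ?_⟩, a, ha, b, hb, hab⟩
  intro w hw
  rw [hab, Sym2.mem_iff] at hw
  rcases hw with rfl | rfl
  · exact hA ha
  · exact hB hb

lemma ins_ins {W W' : Set V} (h : W ⊆ W') : BIC.ins (BIC.ins S ends W') ends W =
    BIC.ins S ends W := by
  ext e
  constructor
  · rintro ⟨⟨h1, _⟩, h2⟩
    exact ⟨h1, h2⟩
  · rintro ⟨h1, h2⟩
    exact ⟨⟨h1, fun v hv => h (h2 v hv)⟩, h2⟩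

section

variable {Y : Sys κ} {P : ℕ → ℕ × ℕ → V} {lo hi : ℕ → ℕ} {n : ℕ} {B : κ → Set V} {col : ℕ → ℕ}

open scoped Classical in
/-- **Restriction of a realized system.** -/
theorem RealU.sub (h : RealU Y M S ends P lo hi n B col) {Q : ℕ → Prop} {A : Set κ}
    {cls : ℕ → ℕ} {R' n' : ℕ} (hn : n' ≤ n) (hA : ∀ x, Y.Kp Q x → Y.own x ∈ A)
    (hc : ∀ x, Y.Kp Q x → cls x / 4 = Y.sh x) (hm : ∀ x y, x ≤ y → y < Y.L → cls x ≤ cls y) :
    RealU (Y.sub Q A cls R') M (BIC.ins S ends (Vs Y Q A cls P n' B col)) ends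
      (fun j => P (j / 4)) (Y.loC Q cls col) (Y.hiC Q cls col) n'
      (fun k => if k ∈ A then B k else ∅) (fun i => col (Nat.nth (Y.Kp Q) i)) := by
  -- the columns of a class
  have hreg : ∀ j c b, Y.loC Q cls col j ≤ c → c ≤ Y.hiC Q cls col j → b ≤ n' →
      (c, b) ∈ Reg (lo (j / 4)) (hi (j / 4)) n ∧ P (j / 4) (c, b) ∈ Vs Y Q A cls P n' B col := by
    intro j c b h1 h2 h3
    obtain ⟨x, y, hx, hy, rfl, hxy, h6, h7, _, _⟩ := Sys.exists_lohi h1 h2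
    have e1 := hc x hx
    have e2 := hc y hy
    rw [hxy] at e2
    have hsx := h.prt x hx.1
    have hsy := h.prt y hy.1
    rw [← e1] at hsx
    rw [← e2] at hsy
    refine ⟨⟨by show _ ≤ c; omega, by show c ≤ _; omega, by show b ≤ n; omega⟩, Or.inl ?_⟩
    exact ⟨x, y, c, b, hx, hy, hxy.symm, by rw [← e1, ← e2], h6, h7, h3, by rw [e1]⟩
  have hBV : ∀ k, (if k ∈ A then B k else ∅) ⊆ Vs Y Q A cls P n' B col := by
    intro k v hv
    split_ifs at hv with hk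
    · exact Or.inr ⟨k, hk, hv⟩
    · exact absurd hv (notMem_empty v)
  have hBB : ∀ k, (if k ∈ A then B k else ∅) ⊆ B k := by
    intro k v hv
    split_ifs at hv with hk
    · exact hv
    · exact absurd hv (notMem_empty v)
  refine ⟨⟨fun j => ⟨?_, ?_, ?_⟩, ?_⟩, ?_, ?_, ?_, ?_, ?_, ?_, ?_, ?_⟩
  · rintro ⟨c, b⟩ ⟨c', b'⟩ h1 h2 h3 h4 h5 h6 he
    simp only at h1 h2 h3 h4 h5 h6
    obtain ⟨g1, g2, g3⟩ := (hreg j c b h1 h2 h3).1
    obtain ⟨g4, g5, g6⟩ := (hreg j c' b' h4 h5 h6).1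
    exact (h.pgs.page (j / 4)).inj _ _ g1 g2 g3 g4 g5 g6 he
  · intro x b h1 h2 h3
    obtain ⟨⟨g1, g2, g3⟩, g4⟩ := hreg j x b h1 h2 (by omega)
    exact gadj_insW ((h.pgs.page (j / 4)).ver x b g1 g2 (by omega)) g4 (hreg j x (b + 1) h1 h2 h3).2
  · intro x b h1 h2 h3 h4
    obtain ⟨⟨g1, g2, g3⟩, g4⟩ := hreg j x b h1 (by omega) h4
    obtain ⟨⟨g5, g6, g7⟩, g8⟩ := hreg j (x + 1) b (by omega) h2 h4
    exact gadj_insW ((h.pgs.page (j / 4)).hor x b g1 (by simp only at g6; omega) h3 (by omega)) g4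
      g8
  · intro j j' hjj
    have key : ∀ j j' : ℕ, j < j' → ∀ c ∈ Reg (Y.loC Q cls col j) (Y.hiC Q cls col j) n',
        ∀ c' ∈ Reg (Y.loC Q cls col j') (Y.hiC Q cls col j') n', P (j / 4) c ≠ P (j' / 4) c' := by
      rintro j j' hjj ⟨c, b⟩ ⟨h1, h2, h3⟩ ⟨c', b'⟩ ⟨h1', h2', h3'⟩
      simp only at h1 h2 h3 h1' h2' h3'
      have g := (hreg j c b h1 h2 h3).1
      have g' := (hreg j' c' b' h1' h2' h3').1
      by_cases hs : j / 4 = j' / 4
      · obtain ⟨x, y, hx, hy, hxc, hyc, h6, h7, _, _⟩ := Sys.exists_lohi h1 h2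
        obtain ⟨x', y', hx', hy', hxc', hyc', h6', h7', _, _⟩ := Sys.exists_lohi h1' h2'
        have hlt : y < x' := by
          by_contra hno
          have := hm x' y (not_lt.1 hno) hy.1
          omega
        have e1 := hc y hy
        have e2 := hc x' hx'
        rw [hyc] at e1
        rw [hxc'] at e2
        have hcl := h.cinc y x' hlt hx'.1 (by rw [← e1, ← e2, hs])
        intro he
        rw [← hs] at he g'
        have := (h.pgs.page (j / 4)).inj _ _ g.1 g.2.1 g.2.2 g'.1 g'.2.1 g'.2.2 he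
        simp only [Prod.mk.injEq] at this
        omega
      · exact h.pgs.dis _ _ hs _ g _ g'
    intro c hc1 c' hc2
    rcases lt_or_gt_of_ne hjj with h1 | h1
    · exact key j j' h1 c hc1 c' hc2
    · exact (key j' j h1 c' hc2 c hc1).symm
  · intro k
    exact (h.fin k).subset (hBB k)
  · intro k
    show VConn _ ends (if k ∈ A then B k else ∅)
    by_cases hk : k ∈ A
    · rw [if_pos hk]
      refine vconn_insW (h.con k) ?_
      intro v hv
      exact Or.inr ⟨k, hk, hv⟩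
    · rw [if_neg hk]
      exact vconn_empty
  · intro k k' hkk
    exact (h.dis k k' hkk).mono (hBB k) (hBB k')
  · rintro k j ⟨c, b⟩ ⟨h1, h2, h3⟩ hv
    simp only at h1 h2 h3
    exact h.pB k (j / 4) _ (hreg j c b h1 h2 h3).1 (hBB k hv)
  · intro i hi
    obtain ⟨x, hx, rfl⟩ := Sys.exists_rnk hi
    rw [Sys.sh_sub hx, Sys.own_sub hx]
    simp only [Sys.nth_rnk hx]
    obtain ⟨h1, h2⟩ := Sys.mem_lohi (cls := cls) (col := col) hx
    refine ⟨h1, h2, ?_⟩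
    have h3 := (hreg (cls x) (col x) 0 h1 h2 (Nat.zero_le _)).2
    have h4 := (h.prt x hx.1).2.2
    rw [if_pos (hA x hx), hc x hx]
    rw [hc x hx] at h3
    refine lnk_insW h4 ?_ ?_
    · intro v hv
      exact Or.inr ⟨_, hA x hx, hv⟩
    · rw [singleton_subset_iff]
      exact h3
  · rintro k k' ⟨h1, h2, h3⟩
    show Lnk _ ends (if k ∈ A then B k else ∅) (if k' ∈ A then B k' else ∅)
    rw [if_pos h2, if_pos h3]
    exact lnk_insW (h.cnt k k' h1) (fun v hv => Or.inr ⟨k, h2, hv⟩)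
      (fun v hv => Or.inr ⟨k', h3, hv⟩)
  · intro i i' hii hi' hs
    obtain ⟨y, hy, rfl⟩ := Sys.exists_rnk hi'
    obtain ⟨x, hx, rfl⟩ := Sys.exists_rnk (lt_trans hii hi')
    rw [Sys.sh_sub hx, Sys.sh_sub hy] at hs
    simp only [Sys.nth_rnk hx, Sys.nth_rnk hy]
    refine h.cinc x y ((Sys.rnk_lt_iff hx).1 hii) hy.1 ?_
    rw [← hc x hx, ← hc y hy, hs]
  · intro I hI
    have h1 := h.grd I fun k hk => (hI k hk).1
    have e1 : ∀ k ∈ I, B k = (if k ∈ A then B k else ∅) := fun k hk => by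
      rw [if_pos (hI k hk).2]
    have h2 := JU.congr e1 h1
    rw [JU_def] at h2 ⊢
    refine h2.trans (le_of_eq ?_)
    congr 1
    ext e
    rw [mem_Ufm, mem_Ufm]
    constructor
    · rintro ⟨k, hk, h3⟩
      refine ⟨k, hk, ?_⟩
      rw [ins_ins (hBV k)]
      exact h3
    · rintro ⟨k, hk, h3⟩
      refine ⟨k, hk, ?_⟩
      rw [ins_ins (hBV k)] at h3
      exact h3

/-- The vertex sets of separated subsystems are disjoint. -/
theorem RealU.dis_sub (h : RealU Y M S ends P lo hi n B col) {Q Q' : ℕ → Prop} {A A' : Set κ}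
    {cls : ℕ → ℕ} {n' : ℕ} (hn : n' ≤ n) (hAA : Disjoint A A')
    (hs : ∀ x y x' y', Y.Kp Q x → Y.Kp Q y → Y.Kp Q' x' → Y.Kp Q' y' → cls x = cls y →
      cls x' = cls y' → Y.sh x = Y.sh x' → y < x' ∨ y' < x) :
    Disjoint (Vs Y Q A cls P n' B col) (Vs Y Q' A' cls P n' B col) := by
  have hreg : ∀ x y c b, x < Y.L → y < Y.L → Y.sh x = Y.sh y → col x ≤ c → c ≤ col y → b ≤ n' →
      (c, b) ∈ Reg (lo (Y.sh x)) (hi (Y.sh x)) n := by
    intro x y c b hx hy hxy h1 h2 h3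
    have e1 := h.prt x hx
    have e2 := h.prt y hy
    rw [← hxy] at e2
    exact ⟨by show _ ≤ c; omega, by show c ≤ _; omega, by show b ≤ n; omega⟩
  have hcl : ∀ x y, x < y → y < Y.L → Y.sh x = Y.sh y → col x < col y := h.cinc
  rw [Set.disjoint_left]
  rintro v (⟨x, y, c, b, hx, hy, h1, h2, h3, h4, h5, rfl⟩ | ⟨k, hk, hv⟩) hv'
  · have g := hreg x y c b hx.1 hy.1 h2 h3 h4 h5
    rcases hv' with ⟨x', y', c', b', hx', hy', h1', h2', h3', h4', h5', he⟩ | ⟨k, _, hv'⟩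
    · have g' := hreg x' y' c' b' hx'.1 hy'.1 h2' h3' h4' h5'
      by_cases hss : Y.sh x = Y.sh x'
      · rw [← hss] at he g'
        have := (h.pgs.page (Y.sh x)).inj _ _ g.1 g.2.1 g.2.2 g'.1 g'.2.1 g'.2.2 he
        simp only [Prod.mk.injEq] at this
        rcases hs x y x' y' hx hy hx' hy' h1 h1' hss with h6 | h6
        · have := hcl y x' h6 hx'.1 (by rw [← h2, hss])
          omega
        · have := hcl y' x h6 hx.1 (by rw [← h2', hss])
          omega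
      · exact h.pgs.dis _ _ hss _ g _ g' he
    · exact h.pB k _ _ g hv'
  · rcases hv' with ⟨x', y', c', b', hx', hy', h1', h2', h3', h4', h5', rfl⟩ | ⟨k', hk', hv'⟩
    · exact h.pB k _ _ (hreg x' y' c' b' hx'.1 hy'.1 h2' h3' h4' h5') hv
    · have hkk : k ≠ k' := by
        rintro rfl
        exact Set.disjoint_left.1 hAA hk hk'
      exact Set.disjoint_left.1 (h.dis k k' hkk) hv hv'

end

end EN
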