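import Pool.Agent.EN.Groups7
import Pool.Agent.EN.SubSys
import Pool.Agent.EN.PieceJ
import Pool.Agent.EN.RlzK

/-!
# The pieces of the groups: finite, connected, disjoint vertex sets (row F7a of D2, T-star)
-/

open Set BIC
open scoped Matroid

namespace EN

open Gad

set_option maxHeartbeats 1000000

variable {α V κ : Type*} {M : Matroid α} {S : Set α} {ends : α → Sym2 V} {Y : Sys κ}
  {P : ℕ → ℕ × ℕ → V} {lo hi : ℕ → ℕ} {n : ℕ} {B : κ → Set V} {col : ℕ → ℕ}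

/-- The vertices of a realized system, pages up to level `a`. -/
def Wst (P : ℕ → ℕ × ℕ → V) (lo hi : ℕ → ℕ) (a : ℕ) (B : κ → Set V) : Set V :=
  {v | ∃ s, ∃ c ∈ Reg (lo s) (hi s) a, v = P s c} ∪ {v | ∃ k, v ∈ B k}

lemma Wst.page {s : ℕ} {c : ℕ × ℕ} {a : ℕ} (hc : c ∈ Reg (lo s) (hi s) a) :
    P s c ∈ Wst P lo hi a B := Or.inl ⟨s, c, hc, rfl⟩

lemma Wst.con {k : κ} {a : ℕ} : B k ⊆ Wst P lo hi a B := fun _ hv => Or.inr ⟨k, hv⟩

lemma gadj_symm' {u v : V} (h : GAdj S ends u v) : GAdj S ends v u := by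
  obtain ⟨e, he, hee⟩ := h
  exact ⟨e, he, by rw [hee, Sym2.eq_swap]⟩

lemma rtg_symm {A : Set V} {u v : V}
    (h : Relation.ReflTransGen (fun x y => GAdj S ends x y ∧ x ∈ A ∧ y ∈ A) u v) :
    Relation.ReflTransGen (fun x y => GAdj S ends x y ∧ x ∈ A ∧ y ∈ A) v u := by
  induction h with
  | refl => exact Relation.ReflTransGen.refl
  | tail _ h2 ih => exact Relation.ReflTransGen.head ⟨gadj_symm' h2.1, h2.2.2, h2.2.1⟩ ih

/-- **The vertex set of a realized system is connected**, if its ports are. -/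
theorem RealU.vconn (h : RealU Y M S ends P lo hi n B col) (hc : Y.Cnd) {a : ℕ} (ha : 1 ≤ a)
    (han : a ≤ n) (hs : ∀ s x, lo s ≤ x → x ≤ hi s → ∃ i < Y.L, Y.sh i = s)
    (hk : ∀ k, ∃ i < Y.L, Y.own i = k) : VConn S ends (Wst P lo hi a B) := by
  set W := Wst P lo hi a B with hW
  set C : V → V → Prop := Relation.ReflTransGen (fun x y => GAdj S ends x y ∧ x ∈ W ∧ y ∈ W) with hC
  have hsub : ∀ A : Set V, A ⊆ W → VConn S ends A → ∀ u ∈ A, ∀ v ∈ A, C u v :=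
    fun A hA hAc u hu v hv => rtg_mono hA (hAc u hu v hv)
  set v : ℕ → V := fun i => P (Y.sh i) (col i, 0) with hv
  have hreg : ∀ s, lo s ≤ hi s → VConn S ends (P s '' Reg (lo s) (hi s) a) := fun s hs =>
    (h.pgs.page s).vconn_reg ha han hs
  have hregW : ∀ s, P s '' Reg (lo s) (hi s) a ⊆ W := by
    rintro s _ ⟨c, hc, rfl⟩
    exact Wst.page hc
  have hvreg : ∀ i < Y.L, v i ∈ P (Y.sh i) '' Reg (lo (Y.sh i)) (hi (Y.sh i)) a := by
    intro i hi
    have h1 := h.prt i hi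
    exact ⟨(col i, 0), ⟨h1.1, h1.2.1, Nat.zero_le _⟩, rfl⟩
  have hvB : ∀ i < Y.L, ∀ u ∈ B (Y.own i), C u (v i) := by
    intro i hi u hu
    have h1 := (h.prt i hi).2.2
    have h2 := vc_lnk (h.con (Y.own i)) (vconn_singleton (v i)) h1
    refine hsub _ ?_ h2 u (Or.inl hu) (v i) (Or.inr rfl)
    rintro x (hx | hx)
    · exact Wst.con hx
    · rw [mem_singleton_iff.1 hx]
      exact hregW _ (hvreg i hi)
  have hsame : ∀ i < Y.L, ∀ j < Y.L, Y.sh i = Y.sh j → C (v i) (v j) := by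
    intro i hi j hj hij
    have h1 := h.prt i hi
    refine hsub _ (hregW (Y.sh i)) (hreg _ (by omega)) _ (hvreg i hi) _ ?_
    have := hvreg j hj
    rw [← hij] at this
    exact this
  have hlk : ∀ i j, Y.Lk i j → C (v i) (v j) := by
    rintro i j ⟨hi, hj, _, hl⟩
    obtain ⟨_, _, a', ha', b', hb', _⟩ := (h.prt i hi).2.2
    rcases hl with hl | hl
    · have h1 := hvB i hi a' ha'
      have h2 := hvB j hj a' (by rw [← hl]; exact ha')
      exact (rtg_symm h1).trans h2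
    · have h1 := h.cnt _ _ hl
      have h2 := vc_lnk (h.con (Y.own i)) (h.con (Y.own j)) h1
      obtain ⟨_, _, c₁, hc₁, c₂, hc₂, _⟩ := h1
      have h3 : C c₁ c₂ := hsub _ (union_subset Wst.con Wst.con) h2 _ (Or.inl hc₁) _ (Or.inr hc₂)
      exact ((rtg_symm (hvB i hi c₁ hc₁)).trans h3).trans (hvB j hj c₂ hc₂)
  have hall : ∀ i < Y.L, ∀ j < Y.L, C (v i) (v j) := by
    intro i hi j hj
    have h1 := hc i j hi hj
    clear hj
    induction h1 with
    | refl => exact Relation.ReflTransGen.refl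
    | @tail x y _ h2 ih =>
      refine ih.trans ?_
      obtain ⟨hx, hy, h3 | h3 | h3⟩ := h2
      · exact hsame x hx y hy h3
      · exact hlk x y h3
      · exact rtg_symm (hlk y x h3)
  have hany : ∀ u ∈ W, ∃ i < Y.L, C u (v i) := by
    rintro u (⟨s, c, hc, rfl⟩ | ⟨k, hu⟩)
    · rw [mem_Reg] at hc
      obtain ⟨i, hi, rfl⟩ := hs s c.1 hc.1 hc.2.1
      refine ⟨i, hi, ?_⟩
      exact hsub _ (hregW (Y.sh i)) (hreg _ (by omega)) _ ⟨c, hc, rfl⟩ _ (hvreg i hi)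
    · obtain ⟨i, hi, rfl⟩ := hk k
      exact ⟨i, hi, hvB i hi u hu⟩
  intro u hu w hw
  obtain ⟨i, hi, h1⟩ := hany u hu
  obtain ⟨j, hj, h2⟩ := hany w hw
  exact (h1.trans (hall i hi j hj)).trans (rtg_symm h2)

lemma RealU.wfin (h : RealU Y M S ends P lo hi n B col) {a r : ℕ}
    (hs : ∀ s x, lo s ≤ x → x ≤ hi s → s < r) (hk : ∀ k, ∃ i < Y.L, Y.own i = k) :
    (Wst P lo hi a B).Finite := by
  refine Set.Finite.union ?_ ?_
  · have h1 : (⋃ s ∈ Set.Iio r, P s '' Reg (lo s) (hi s) a).Finite :=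
      (Set.finite_Iio r).biUnion fun s _ => (reg_finite _ _ _).image _
    refine h1.subset ?_
    rintro v ⟨s, c, hc, rfl⟩
    rw [mem_Reg] at hc
    exact mem_biUnion (hs s c.1 hc.1 hc.2.1) ⟨c, hc, rfl⟩
  · have h1 : (⋃ i ∈ Set.Iio Y.L, B (Y.own i)).Finite :=
      (Set.finite_Iio _).biUnion fun i _ => h.fin _
    refine h1.subset ?_
    rintro v ⟨k, hv⟩
    obtain ⟨i, hi, rfl⟩ := hk k
    exact mem_biUnion hi hv

/-- Lower pages. -/
lemma RealU.lev (h : RealU Y M S ends P lo hi n B col) {n' : ℕ} (hn : n' ≤ n) :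
    RealU Y M S ends P lo hi n' B col where
  pgs := by
    refine ⟨fun s => ⟨?_, ?_, ?_⟩, ?_⟩
    · intro c c' h1 h2 h3 h4 h5 h6 h7
      exact (h.pgs.page s).inj c c' h1 h2 (by omega) h4 h5 (by omega) h7
    · intro x b h1 h2 h3
      exact (h.pgs.page s).ver x b h1 h2 (by omega)
    · intro x b h1 h2 h3 h4
      exact (h.pgs.page s).hor x b h1 h2 h3 (by omega)
    · intro s s' hs c hc c' hc'
      refine h.pgs.dis s s' hs c ?_ c' ?_
      · rw [mem_Reg] at hc ⊢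
        exact ⟨hc.1, hc.2.1, by omega⟩
      · rw [mem_Reg] at hc' ⊢
        exact ⟨hc'.1, hc'.2.1, by omega⟩
  fin := h.fin
  con := h.con
  dis := h.dis
  pB k s c hc := h.pB k s c (by
    rw [mem_Reg] at hc ⊢
    exact ⟨hc.1, hc.2.1, by omega⟩)
  prt := h.prt
  cnt := h.cnt
  cinc := h.cinc
  grd := h.grd

/-- Restriction to a vertex set, with a new matroid. -/
lemma RealU.res {M' : Matroid α} (h : RealU Y M S ends P lo hi n B col) {W : Set V}
    (hP : ∀ s, ∀ c ∈ Reg (lo s) (hi s) n, P s c ∈ W) (hB : ∀ k, B k ⊆ W)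
    (hJ : ∀ I : Finset κ, (∀ k ∈ I, Y.gr k) → JU M' (ins S ends W) ends I B) :
    RealU Y M' (ins S ends W) ends P lo hi n B col where
  pgs := by
    refine ⟨fun s => ⟨(h.pgs.page s).inj, ?_, ?_⟩, h.pgs.dis⟩
    · intro x b h1 h2 h3
      exact gadj_insW ((h.pgs.page s).ver x b h1 h2 h3) (hP s _ ⟨h1, h2, h3.le⟩)
        (hP s _ ⟨h1, h2, h3⟩)
    · intro x b h1 h2 h3 h4
      exact gadj_insW ((h.pgs.page s).hor x b h1 h2 h3 h4) (hP s _ ⟨h1, h2.le, h4⟩)
        (hP s _ ⟨by simp only; omega, h2, h4⟩)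
  fin := h.fin
  con k := vconn_insW (h.con k) (hB k)
  dis := h.dis
  pB := h.pB
  prt x hx := by
    obtain ⟨h1, h2, h3⟩ := h.prt x hx
    refine ⟨h1, h2, lnk_insW h3 (hB _) ?_⟩
    intro v hv
    rw [mem_singleton_iff.1 hv]
    exact hP _ _ ⟨h1, h2, Nat.zero_le _⟩
  cnt k k' hk := lnk_insW (h.cnt k k' hk) (hB k) (hB k')
  cinc := h.cinc
  grd := hJ

end EN
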