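import Pool.Agent.EN.StripDefs

/-!
# The pocket lemma

A chord (a link with both ports on one shore) has in its span a grounded connector, or a cross: a
chord `a – c` and a disjoint link from `b` between `a` and `c` to a port outside `[a, c]`.
-/

namespace EN

namespace Sys

variable {κ : Type*} {Y : Sys κ}

lemma Lk.symm {D : ℕ} (hY : Y.Ax D) {x y : ℕ} (h : Y.Lk x y) : Y.Lk y x := by
  obtain ⟨h1, h2, h3, h4⟩ := h
  refine ⟨h2, h1, h3.symm, ?_⟩
  rcases h4 with h4 | h4
  · exact Or.inl h4.symm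
  · exact Or.inr (hY.symm _ _ h4)

lemma Ax.sh_eq {D : ℕ} (hY : Y.Ax D) {a b x : ℕ} (hab : Y.sh a = Y.sh b) (h1 : a ≤ x) (h2 : x ≤ b)
    (hb : b < Y.L) : Y.sh x = Y.sh a := by
  have h3 := hY.mono a x h1 (by omega)
  have h4 := hY.mono x b h2 hb
  omega

/-- A connector without ground has another port, or a contact with a port. -/
lemma Ax.exists_lk {D : ℕ} (hY : Y.Ax D) {b : ℕ} (hb : b < Y.L) (hg : ¬ Y.gr (Y.own b)) :
    ∃ d, Y.Lk b d ∧ (Y.own d = Y.own b ∨ Y.ct (Y.own b) (Y.own d)) := by
  by_cases h : ∀ y < Y.L, Y.own y = Y.own b → y = b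
  · have h1 : ∃ k, Y.ct (Y.own b) k := by
      rcases hY.a2 b hb hg h with ⟨k, _, _, hk, _⟩ | ⟨k, hk, _⟩
      · exact ⟨k, hk⟩
      · exact ⟨k, hk⟩
    obtain ⟨k, hk⟩ := h1
    obtain ⟨d, hd, rfl⟩ := hY.a4 _ _ hk
    refine ⟨d, ⟨hb, hd, ?_, Or.inr hk⟩, Or.inr hk⟩
    rintro rfl
    exact hY.irr _ hk
  · push Not at h
    obtain ⟨d, hd, h1, h2⟩ := h
    exact ⟨d, ⟨hb, hd, h2.symm, Or.inl h1.symm⟩, Or.inl h1⟩

/-- **Pocket lemma.** -/
theorem pocket {D : ℕ} (hY : Y.Ax D) :
    ∀ (n i j : ℕ), j - i ≤ n → i < j → Y.Lk i j → Y.sh i = Y.sh j →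
      (∃ q, i ≤ q ∧ q ≤ j ∧ Y.gr (Y.own q)) ∨
      ∃ a b c d, i ≤ a ∧ a < b ∧ b < c ∧ c ≤ j ∧ (d < a ∨ c < d) ∧ Y.Lk a c ∧ Y.Lk b d ∧
        Y.Dj [a, c] [b, d] := by
  intro n
  induction n with
  | zero => intro i j h1 h2; omega
  | succ n ih =>
    intro i j hn hij hl hs
    have hjL : j < Y.L := hl.2.1
    by_cases hsh : ∃ a c, i ≤ a ∧ a < c ∧ c ≤ j ∧ Y.Lk a c ∧ c - a < j - i
    · obtain ⟨a, c, h1, h2, h3, h4, h5⟩ := hsh
      have h6 : Y.sh a = Y.sh c := by
        rw [hY.sh_eq hs h1 (by omega) hjL, hY.sh_eq hs (x := c) (by omega) h3 hjL]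
      rcases ih a c (by omega) h2 h4 h6 with ⟨q, hq1, hq2, hq3⟩ | ⟨a', b', c', d', g1, g2, g3, g4, g5⟩
      · exact Or.inl ⟨q, by omega, by omega, hq3⟩
      · exact Or.inr ⟨a', b', c', d', by omega, g2, g3, by omega, g5⟩
    · have hmin : ∀ a c, i ≤ a → a < c → c ≤ j → c - a < j - i → ¬ Y.Lk a c :=
        fun a c h1 h2 h3 h4 h5 => hsh ⟨a, c, h1, h2, h3, h5, h4⟩
      rcases Nat.lt_or_ge (i + 1) j with h1 | h1
      · -- a port between
        by_cases hg : Y.gr (Y.own (i + 1))
        · exact Or.inl ⟨i + 1, by omega, by omega, hg⟩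
        · obtain ⟨d, hd, hd'⟩ := hY.exists_lk (b := i + 1) (by omega) hg
          have hdo : d < i ∨ j < d := by
            by_contra hcon
            push Not at hcon
            rcases Nat.lt_or_ge (i + 1) d with h2 | h2
            · exact hmin (i + 1) d (by omega) h2 (by omega) (by omega) hd
            · have h3 : d ≠ i + 1 := fun h => hd.2.2.1 h.symm
              exact hmin d (i + 1) (by omega) (by omega) (by omega) (by omega) (hd.symm hY)
          have hib : Y.own i ≠ Y.own (i + 1) := fun h =>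
            hmin i (i + 1) le_rfl (by omega) (by omega) (by omega) ⟨hl.1, by omega, by omega,
              Or.inl h⟩
          have hjb : Y.own j ≠ Y.own (i + 1) := fun h =>
            hmin (i + 1) j (by omega) h1 le_rfl (by omega) ⟨by omega, hjL, by omega,
              Or.inl h.symm⟩
          have hid : Y.own i ≠ Y.own d := by
            intro h
            rcases hd' with h2 | h2
            · exact hib (h.trans h2)
            · rw [← h] at h2
              exact hmin i (i + 1) le_rfl (by omega) (by omega) (by omega)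
                ⟨hl.1, by omega, by omega, Or.inr (hY.symm _ _ h2)⟩
          have hjd : Y.own j ≠ Y.own d := by
            intro h
            rcases hd' with h2 | h2
            · exact hjb (h.trans h2)
            · rw [← h] at h2
              exact hmin (i + 1) j (by omega) h1 le_rfl (by omega) ⟨by omega, hjL, by omega,
                Or.inr h2⟩
          refine Or.inr ⟨i, i + 1, j, d, le_rfl, by omega, h1, le_rfl, hdo, hl, hd, ?_⟩
          intro x hx y hy
          simp only [List.mem_cons, List.not_mem_nil, or_false] at hx hy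
          rcases hx with rfl | rfl <;> rcases hy with rfl | rfl <;> assumption
      · have h2 : j = i + 1 := by omega
        subst h2
        rcases hl.2.2.2 with h3 | h3
        · exact absurd h3 (hY.a1 i hjL hs)
        · rcases hY.a3 i hjL hs h3 with h4 | h4
          · exact Or.inl ⟨i, le_rfl, by omega, h4⟩
          · exact Or.inl ⟨i + 1, by omega, le_rfl, h4⟩

end Sys

end EN
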