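import Pool.Agent.EN.Calm2
import Pool.Agent.EN.Lad5

/-!
# A region which is not clean has a defect
-/

namespace EN

open RamP

set_option maxHeartbeats 1000000

namespace Sys

variable {κ : Type*} {Y : Sys κ}

/-- Grounded connector in `[a, b]`. -/
def DG (Y : Sys κ) (a b : ℕ) : Prop := ∃ z, a ≤ z ∧ z ≤ b ∧ Y.gr (Y.own z)

/-- A cross with a chord in `[a, b]`. -/
def DK (Y : Sys κ) (a b : ℕ) : Prop :=
  ∃ i j k l, (a ≤ i ∧ i ≤ b) ∧ (a ≤ k ∧ k ≤ b) ∧ i < j ∧ j < k ∧ (l < i ∨ k < l) ∧ Y.Lk i k ∧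
    Y.Lk j l ∧ Y.Dj [i, k] [j, l]

/-- A link from `[a1, a4]` outside `[a0, a5]` and `[b0, b5]`. -/
def DT (Y : Sys κ) (a0 a1 a4 a5 b0 b5 : ℕ) : Prop :=
  ∃ u v, Y.Lk u v ∧ a1 ≤ u ∧ u ≤ a4 ∧ (v < a0 ∨ a5 < v) ∧ (v < b0 ∨ b5 < v)

/-- Crossing rungs. -/
def DX (Y : Sys κ) (a0 a5 b0 b5 : ℕ) (up : Prop) : Prop :=
  ∃ u v u' v', (a0 ≤ u ∧ u ≤ a5) ∧ (a0 ≤ u' ∧ u' ≤ a5) ∧ u < u' ∧ (b0 ≤ v ∧ v ≤ b5) ∧
    (b0 ≤ v' ∧ v' ≤ b5) ∧ Y.Lk u v ∧ Y.Lk u' v' ∧ Y.Dj [u, v] [u', v'] ∧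
    ((up ∧ v' < v) ∨ (¬ up ∧ v < v'))

/-- Chords give grounds or crosses. -/
lemma chord_defect {D : ℕ} (hY : Y.Ax D) {a b u v : ℕ} (hab : Y.sh a = Y.sh b) (hb : b < Y.L)
    (h1 : a ≤ u) (h2 : u < v) (h3 : v ≤ b) (hl : Y.Lk u v) : DG Y a b ∨ DK Y a b := by
  have e1 := hY.sh_eq hab (x := u) h1 (by omega) hb
  have e2 := hY.sh_eq hab (x := v) (by omega) h3 hb
  rcases pocket hY (v - u) u v le_rfl h2 hl (by rw [e1, e2]) with ⟨q, g1, g2, g3⟩ |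
    ⟨i, j, k, l, g1, g2, g3, g4, g5, g6, g7, g8⟩
  · exact Or.inl ⟨q, by omega, by omega, g3⟩
  · exact Or.inr ⟨i, j, k, l, ⟨by omega, by omega⟩, ⟨by omega, by omega⟩, g2, g3, g5, g6, g7, g8⟩

/-- **A region has a defect or is clean.**  Increasing second side. -/
theorem region_inc {D : ℕ} (hY : Y.Ax D) {a0 a1 a4 a5 b0 b1 b4 b5 a b : ℕ}
    (h01 : a0 ≤ a1) (h45 : a4 ≤ a5) (h5L : a5 < Y.L) (sha : Y.sh a0 = Y.sh a5)
    (hb01 : b0 ≤ b1) (hb14 : b1 ≤ b4) (hb45 : b4 ≤ b5) (hb5L : b5 < Y.L) (shb : Y.sh b0 = Y.sh b5)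
    (far : a5 < b0 ∨ b5 < a0) (r1 : Y.Lk a1 b1) (r4 : Y.Lk a4 b4) (hcl : ¬ Y.Clean a b)
    (h1 : a1 + 2 ≤ a) (h2 : b + 2 ≤ a4) :
    DG Y a0 a5 ∨ DG Y b0 b5 ∨ DK Y a0 a5 ∨ DK Y b0 b5 ∨ DT Y a0 a1 a4 a5 b0 b5 ∨
      DT Y b0 b1 b4 b5 a0 a5 ∨ DX Y a0 a5 b0 b5 True := by
  by_contra hcon
  simp only [not_or] at hcon
  obtain ⟨g1, g2, k1, k2, t1, t2, x1⟩ := hcon
  have hC : Y.Calm a0 a1 a4 a5 b0 b5 (b5 - b0) (b1 - b0) (b4 - b0) (fun k => b0 + k) := by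
    refine ⟨h01, h45, h5L, sha, hb5L, shb, far, ?_, ?_, ?_, ?_, by omega, by omega, ?_, ?_, ?_, ?_,
      ?_, ?_, ?_, ?_⟩
    · intro k hk
      exact ⟨by omega, by omega⟩
    · intro w hw1 hw2
      exact ⟨w - b0, by omega, by omega⟩
    · intro k _ k' _ h
      have h' := h
      omega
    · left
      intro k _
      omega
    · rintro z (⟨z1, z2⟩ | ⟨z1, z2⟩) hz
      · exact g1 ⟨z, z1, z2, hz⟩
      · exact g2 ⟨z, z1, z2, hz⟩
    · intro u v hu huv hv hl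
      rcases chord_defect hY sha h5L hu huv hv hl with g | g
      · exact g1 g
      · exact k1 g
    · intro u v hu huv hv hl
      rcases chord_defect hY shb hb5L hu huv hv hl with g | g
      · exact g2 g
      · exact k2 g
    · intro u v hl hu hu'
      by_contra hc
      simp only [not_or, not_and_or, not_le] at hc
      exact t1 ⟨u, v, hl, hu, hu', hc.1, hc.2⟩
    · intro k v hk hk' hl
      by_contra hc
      simp only [not_or, not_and_or, not_le] at hc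
      exact t2 ⟨b0 + k, v, hl, by omega, by omega, hc.2, hc.1⟩
    · intro u u' k k' hu huu hu' hk hk' hl hl' hd
      by_contra hc
      have hne : k ≠ k' := by
        rintro rfl
        exact hd (b0 + k) (by simp) (b0 + k) (by simp) rfl
      exact x1 ⟨u, b0 + k, u', b0 + k', ⟨hu, by omega⟩, ⟨by omega, hu'⟩, huu,
        ⟨by omega, by omega⟩, ⟨by omega, by omega⟩, hl, hl', hd, Or.inl ⟨trivial, by omega⟩⟩
    · rw [show b0 + (b1 - b0) = b1 by omega]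
      exact r1
    · rw [show b0 + (b4 - b0) = b4 by omega]
      exact r4
  exact hcl (hC.clean hY h1 h2)

/-- **A region has a defect or is clean.**  Decreasing second side. -/
theorem region_dec {D : ℕ} (hY : Y.Ax D) {a0 a1 a4 a5 b0 b1 b4 b5 a b : ℕ}
    (h01 : a0 ≤ a1) (h45 : a4 ≤ a5) (h5L : a5 < Y.L) (sha : Y.sh a0 = Y.sh a5)
    (hb01 : b0 ≤ b1) (hb14 : b1 ≤ b4) (hb45 : b4 ≤ b5) (hb5L : b5 < Y.L) (shb : Y.sh b0 = Y.sh b5)
    (far : a5 < b0 ∨ b5 < a0) (r1 : Y.Lk a1 b4) (r4 : Y.Lk a4 b1) (hcl : ¬ Y.Clean a b)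
    (h1 : a1 + 2 ≤ a) (h2 : b + 2 ≤ a4) :
    DG Y a0 a5 ∨ DG Y b0 b5 ∨ DK Y a0 a5 ∨ DK Y b0 b5 ∨ DT Y a0 a1 a4 a5 b0 b5 ∨
      DT Y b0 b1 b4 b5 a0 a5 ∨ DX Y a0 a5 b0 b5 False := by
  by_contra hcon
  simp only [not_or] at hcon
  obtain ⟨g1, g2, k1, k2, t1, t2, x1⟩ := hcon
  have hC : Y.Calm a0 a1 a4 a5 b0 b5 (b5 - b0) (b5 - b4) (b5 - b1) (fun k => b5 - k) := by
    refine ⟨h01, h45, h5L, sha, hb5L, shb, far, ?_, ?_, ?_, ?_, by omega, by omega, ?_, ?_, ?_, ?_,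
      ?_, ?_, ?_, ?_⟩
    · intro k hk
      exact ⟨by omega, by omega⟩
    · intro w hw1 hw2
      exact ⟨b5 - w, by omega, by omega⟩
    · intro k hk k' hk' h
      omega
    · right
      intro k _
      omega
    · rintro z (⟨z1, z2⟩ | ⟨z1, z2⟩) hz
      · exact g1 ⟨z, z1, z2, hz⟩
      · exact g2 ⟨z, z1, z2, hz⟩
    · intro u v hu huv hv hl
      rcases chord_defect hY sha h5L hu huv hv hl with g | g
      · exact g1 g
      · exact k1 g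
    · intro u v hu huv hv hl
      rcases chord_defect hY shb hb5L hu huv hv hl with g | g
      · exact g2 g
      · exact k2 g
    · intro u v hl hu hu'
      by_contra hc
      simp only [not_or, not_and_or, not_le] at hc
      exact t1 ⟨u, v, hl, hu, hu', hc.1, hc.2⟩
    · intro k v hk hk' hl
      by_contra hc
      simp only [not_or, not_and_or, not_le] at hc
      exact t2 ⟨b5 - k, v, hl, by omega, by omega, hc.2, hc.1⟩
    · intro u u' k k' hu huu hu' hk hk' hl hl' hd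
      by_contra hc
      have hne : k ≠ k' := by
        rintro rfl
        exact hd (b5 - k) (by simp) (b5 - k) (by simp) rfl
      exact x1 ⟨u, b5 - k, u', b5 - k', ⟨hu, by omega⟩, ⟨by omega, hu'⟩, huu,
        ⟨by omega, by omega⟩, ⟨by omega, by omega⟩, hl, hl', hd, Or.inr ⟨id, by omega⟩⟩
    · rw [show b5 - (b5 - b4) = b4 by omega]
      exact r1
    · rw [show b5 - (b5 - b1) = b1 by omega]
      exact r4
  exact hcl (hC.clean hY h1 h2)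

end Sys

end EN
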