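import Mathlib

/-!
# The good region lemma (TAUT_h63, section 2; helper45)

Pure combinatorics.  `R` = the ports of the region, `pos` = their positions on the circle
`K + A` (first `K`, then `A`), `own p` = the connector of the port `p`, `Ct` = the assigned
contacts between connectors.  In a good region every connector has exactly one port in `K` and
one in `A`, the bijection is monotone (decreasing on the circle), and there are no contacts.
-/

namespace EN

variable {P C : Type*}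

/-- `p`, `q` are the ports of a link: a connector or a contact pair -/
def RLk (own : P → C) (Ct : C → C → Prop) (p q : P) : Prop :=
  own p = own q ∨ Ct (own p) (own q)

/-- **Good region.** -/
structure Reg (R : Finset P) (pos : P → ℤ) (K : P → Prop) (own : P → C) (Ct : C → C → Prop) :
    Prop where
  inj : ∀ p ∈ R, ∀ q ∈ R, pos p = pos q → p = q
  down : ∀ p ∈ R, ∀ q ∈ R, K q → pos p ≤ pos q → K p
  symm : ∀ k l, Ct k l → Ct l k
  irr : ∀ k, ¬ Ct k k
  /-- (A1) -/
  a1 : ∀ p ∈ R, ∀ q ∈ R, (K p ↔ K q) → pos p < pos q →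
    (∀ r ∈ R, pos p < pos r → pos q ≤ pos r) → own p ≠ own q
  /-- (A3) -/
  a3 : ∀ p ∈ R, ∀ q ∈ R, (K p ↔ K q) → pos p < pos q →
    (∀ r ∈ R, pos p < pos r → pos q ≤ pos r) → ¬ Ct (own p) (own q)
  /-- (A2) -/
  a2 : ∀ p ∈ R, (∀ q ∈ R, own q = own p → q = p) →
    ∃ k l, k ≠ l ∧ Ct (own p) k ∧ Ct (own p) l
  /-- closed -/
  cl : ∀ p ∈ R, ∀ k, Ct (own p) k → ∃ q ∈ R, own q = k
  /-- no cross -/
  nc : ∀ p ∈ R, ∀ q ∈ R, ∀ r ∈ R, ∀ s ∈ R, pos p < pos r → pos r < pos q → pos q < pos s →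
    RLk own Ct p q → RLk own Ct r s → own p ≠ own r → own p ≠ own s → own q ≠ own r →
    own q ≠ own s → False

namespace Reg

variable {R : Finset P} {pos : P → ℤ} {K : P → Prop} {own : P → C} {Ct : C → C → Prop}

lemma lk_symm (h : Reg R pos K own Ct) {p q : P} (hpq : RLk own Ct p q) : RLk own Ct q p :=
  hpq.imp Eq.symm (h.symm _ _)

/-- the next port -/
lemma next (_ : Reg R pos K own Ct) {c e : P} (he : e ∈ R) (hce : pos c < pos e) :
    ∃ r ∈ R, pos c < pos r ∧ pos r ≤ pos e ∧ ∀ t ∈ R, pos c < pos t → pos r ≤ pos t := by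
  classical
  obtain ⟨r, hr, hmin⟩ := Finset.exists_min_image (R.filter fun t => pos c < pos t) pos
    ⟨e, Finset.mem_filter.2 ⟨he, hce⟩⟩
  rw [Finset.mem_filter] at hr
  exact ⟨r, hr.1, hr.2, hmin e (Finset.mem_filter.2 ⟨he, hce⟩),
    fun t ht hct => hmin t (Finset.mem_filter.2 ⟨ht, hct⟩)⟩

/-- the previous port -/
lemma prev (_ : Reg R pos K own Ct) {c e : P} (he : e ∈ R) (hce : pos e < pos c) :
    ∃ r ∈ R, pos r < pos c ∧ pos e ≤ pos r ∧ ∀ t ∈ R, pos t < pos c → pos t ≤ pos r := by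
  classical
  obtain ⟨r, hr, hmin⟩ := Finset.exists_max_image (R.filter fun t => pos t < pos c) pos
    ⟨e, Finset.mem_filter.2 ⟨he, hce⟩⟩
  rw [Finset.mem_filter] at hr
  exact ⟨r, hr.1, hr.2, hmin e (Finset.mem_filter.2 ⟨he, hce⟩),
    fun t ht hct => hmin t (Finset.mem_filter.2 ⟨ht, hct⟩)⟩

/-- consecutive in the other direction -/
lemma cons_rev (_ : Reg R pos K own Ct) {p q : P}
    (h1 : ∀ r ∈ R, pos r < pos q → pos r ≤ pos p) :
    ∀ r ∈ R, pos p < pos r → pos q ≤ pos r := by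
  intro r hr hpr
  by_contra hlt
  have := h1 r hr (not_le.1 hlt)
  omega

/-- the region read backwards -/
lemma rev (h : Reg R pos K own Ct) : Reg R (fun p => - pos p) (fun p => ¬ K p) own Ct where
  inj p hp q hq hpq := h.inj p hp q hq (by simpa using hpq)
  down p hp q hq hKq hle hKp := hKq (h.down q hq p hp hKp (by omega))
  symm := h.symm
  irr := h.irr
  a1 p hp q hq hK hlt hcons := by
    have h1 : ∀ r ∈ R, pos q < pos r → pos p ≤ pos r := by
      intro r hr hqr
      by_contra hc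
      have := hcons r hr (by omega)
      omega
    exact (h.a1 q hq p hp (by tauto) (by omega) h1).symm
  a3 p hp q hq hK hlt hcons hct := by
    have h1 : ∀ r ∈ R, pos q < pos r → pos p ≤ pos r := by
      intro r hr hqr
      by_contra hc
      have := hcons r hr (by omega)
      omega
    exact h.a3 q hq p hp (by tauto) (by omega) h1 (h.symm _ _ hct)
  a2 := h.a2
  cl := h.cl
  nc p hp q hq r hr s hs h1 h2 h3 hpq hrs e1 e2 e3 e4 :=
    h.nc s hs r hr q hq p hp (by omega) (by omega) (by omega) (h.lk_symm hrs) (h.lk_symm hpq)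
      e4.symm e2.symm e3.symm e1.symm

/-- (1) No connector has two ports in `K`. -/
lemma oneK (h : Reg R pos K own Ct) : ∀ p ∈ R, ∀ q ∈ R, K p → K q → own p = own q → p = q := by
  classical
  by_contra hcon
  push Not at hcon
  obtain ⟨p₀, hp₀, q₀, hq₀, hKp₀, hKq₀, hpq₀, hne₀⟩ := hcon
  have hS : ((R ×ˢ R).filter fun x => K x.2 ∧ pos x.1 < pos x.2 ∧ own x.1 = own x.2).Nonempty := by
    rcases lt_trichotomy (pos p₀) (pos q₀) with hlt | heq | hgt
    · exact ⟨(p₀, q₀), Finset.mem_filter.2 ⟨Finset.mk_mem_product hp₀ hq₀, hKq₀, hlt, hpq₀⟩⟩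
    · exact absurd (h.inj _ hp₀ _ hq₀ heq) hne₀
    · exact ⟨(q₀, p₀), Finset.mem_filter.2 ⟨Finset.mk_mem_product hq₀ hp₀, hKp₀, hgt, hpq₀.symm⟩⟩
  obtain ⟨⟨i, j⟩, hij, hmin⟩ := Finset.exists_min_image _ (fun x : P × P => pos x.2 - pos x.1) hS
  simp only [Finset.mem_filter, Finset.mem_product] at hij
  obtain ⟨⟨hi, hj⟩, hKj, hlt, hown⟩ := hij
  have hmin' : ∀ c ∈ R, ∀ e ∈ R, K e → pos c < pos e → own c = own e →
      pos j - pos i ≤ pos e - pos c := fun c hc e he hKe hce hoe =>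
    hmin (c, e) (Finset.mem_filter.2 ⟨Finset.mk_mem_product hc he, hKe, hce, hoe⟩)
  have hKin : ∀ c ∈ R, pos c < pos j → K c := fun c hc hcj => h.down c hc j hj hKj hcj.le
  -- F1
  have F1 : ∀ c ∈ R, pos i < pos c → pos c < pos j → own c ≠ own i := by
    intro c hc hic hcj hoc
    have := hmin' i hi c hc (hKin c hc hcj) hic hoc.symm
    omega
  -- F2
  have F2 : ∀ c ∈ R, pos i < pos c → pos c < pos j → ∀ t ∈ R, own t = own c → t = c := by
    intro c hc hic hcj t ht hot
    have hc1 := F1 c hc hic hcj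
    by_contra hne
    have hne' : pos t ≠ pos c := fun e => hne (h.inj _ ht _ hc e)
    rcases lt_trichotomy (pos t) (pos i) with h1 | h1 | h1
    · exact h.nc t ht c hc i hi j hj h1 hic hcj (Or.inl hot) (Or.inl hown)
        (hot.trans_ne hc1) (by rw [← hown]; exact hot.trans_ne hc1) hc1 (by rw [← hown]; exact hc1)
    · rw [h.inj _ ht _ hi h1] at hot
      exact hc1 hot.symm
    · rcases lt_trichotomy (pos t) (pos j) with h2 | h2 | h2
      · rcases lt_or_gt_of_ne hne' with h3 | h3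
        · have := hmin' t ht c hc (hKin c hc hcj) h3 hot
          omega
        · have := hmin' c hc t ht (hKin t ht h2) h3 hot.symm
          omega
      · rw [h.inj _ ht _ hj h2] at hot
        exact hc1 (hot.symm.trans hown.symm)
      · exact h.nc i hi j hj c hc t ht hic hcj h2 (Or.inl hown) (Or.inl hot.symm)
          hc1.symm (by rw [hot]; exact hc1.symm) (by rw [← hown]; exact hc1.symm)
          (by rw [← hown, hot]; exact hc1.symm)
  -- F3
  have F3 : ∀ c ∈ R, pos i < pos c → pos c < pos j → ∀ f ∈ R, Ct (own c) (own f) →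
      own f ≠ own i → pos i < pos f ∧ pos f < pos j := by
    intro c hc hic hcj f hf hct hof
    have hc1 := F1 c hc hic hcj
    rcases lt_trichotomy (pos f) (pos i) with h1 | h1 | h1
    · exact (h.nc f hf c hc i hi j hj h1 hic hcj (Or.inr (h.symm _ _ hct)) (Or.inl hown)
        hof (by rw [← hown]; exact hof) hc1 (by rw [← hown]; exact hc1)).elim
    · rw [h.inj _ hf _ hi h1] at hof
      exact absurd rfl hof
    · rcases lt_trichotomy (pos f) (pos j) with h2 | h2 | h2
      · exact ⟨h1, h2⟩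
      · rw [h.inj _ hf _ hj h2] at hof
        exact absurd hown.symm hof
      · exact (h.nc i hi j hj c hc f hf hic hcj h2 (Or.inl hown) (Or.inr hct)
          hc1.symm hof.symm (by rw [← hown]; exact hc1.symm)
          (by rw [← hown]; exact hof.symm)).elim
  -- a port in the pocket
  obtain ⟨c₀, hc₀, hic₀, hc₀j⟩ : ∃ c ∈ R, pos i < pos c ∧ pos c < pos j := by
    obtain ⟨r, hr, h1, h2, h3⟩ := h.next hj hlt
    rcases h2.lt_or_eq with h4 | h4
    · exact ⟨r, hr, h1, h4⟩
    · have : r = j := h.inj _ hr _ hj h4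
      subst this
      exact absurd hown (h.a1 i hi r hr ⟨fun _ => hKj, fun _ => h.down i hi r hr hKj h1.le⟩ h1 h3)
  -- a contact inside the pocket
  have hS2 : ((R ×ˢ R).filter fun x => (pos i < pos x.1 ∧ pos x.2 < pos j) ∧
      pos x.1 < pos x.2 ∧ Ct (own x.1) (own x.2)).Nonempty := by
    obtain ⟨k, l, hkl, hk, hl⟩ := h.a2 c₀ hc₀ (F2 c₀ hc₀ hic₀ hc₀j)
    obtain ⟨m, hm, hmi⟩ : ∃ m, Ct (own c₀) m ∧ m ≠ own i := by
      by_cases hki : k = own i
      · exact ⟨l, hl, fun hli => hkl (hki.trans hli.symm)⟩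
      · exact ⟨k, hk, hki⟩
    obtain ⟨f, hf, rfl⟩ := h.cl c₀ hc₀ m hm
    obtain ⟨h1, h2⟩ := F3 c₀ hc₀ hic₀ hc₀j f hf hm hmi
    rcases lt_trichotomy (pos c₀) (pos f) with h3 | h3 | h3
    · exact ⟨(c₀, f), Finset.mem_filter.2 ⟨Finset.mk_mem_product hc₀ hf, ⟨hic₀, h2⟩, h3, hm⟩⟩
    · rw [h.inj _ hc₀ _ hf h3] at hm
      exact absurd hm (h.irr _)
    · exact ⟨(f, c₀), Finset.mem_filter.2 ⟨Finset.mk_mem_product hf hc₀, ⟨h1, hc₀j⟩, h3,
        h.symm _ _ hm⟩⟩
  obtain ⟨⟨c, e⟩, hce, hmin2⟩ := Finset.exists_min_image _ (fun x : P × P => pos x.2 - pos x.1) hS2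
  simp only [Finset.mem_filter, Finset.mem_product] at hce
  obtain ⟨⟨hc, he⟩, ⟨hic, hej⟩, hlt2, hct⟩ := hce
  have hmin2' : ∀ c' ∈ R, ∀ e' ∈ R, pos i < pos c' → pos e' < pos j → pos c' < pos e' →
      Ct (own c') (own e') → pos e - pos c ≤ pos e' - pos c' :=
    fun c' hc' e' he' h1 h2 h3 h4 =>
      hmin2 (c', e') (Finset.mem_filter.2 ⟨Finset.mk_mem_product hc' he', ⟨h1, h2⟩, h3, h4⟩)
  have hcj : pos c < pos j := hlt2.trans hej
  have hie : pos i < pos e := hic.trans hlt2
  obtain ⟨n, hn, hcn, hne, hnext⟩ := h.next he hlt2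
  have hKc := hKin c hc hcj
  have hKn : K n := hKin n hn (by omega)
  have hne2 : pos n < pos e := by
    rcases hne.lt_or_eq with h4 | h4
    · exact h4
    · have : n = e := h.inj _ hn _ he h4
      subst this
      exact absurd hct (h.a3 c hc n hn ⟨fun _ => hKn, fun _ => hKc⟩ hcn hnext)
  have hin : pos i < pos n := hic.trans hcn
  have hnj : pos n < pos j := hne2.trans hej
  have hnc : own n ≠ own c := fun e1 => by
    have := F2 c hc hic hcj n hn e1
    subst this
    omega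
  have hnoe : own n ≠ own e := fun e1 => by
    have := F2 e he hie hej n hn e1
    subst this
    omega
  have hni := F1 n hn hin hnj
  obtain ⟨m, _, _, hm, _⟩ := h.a2 n hn (F2 n hn hin hnj)
  obtain ⟨f, hf, rfl⟩ := h.cl n hn m hm
  by_cases hfi : own f = own i
  · refine h.nc i hi n hn c hc e he hic hcn hne2 (Or.inr ?_) (Or.inr hct)
      (F1 c hc hic hcj).symm (F1 e he hie hej).symm hnc hnoe
    rw [← hfi]
    exact h.symm _ _ hm
  obtain ⟨hif, hfj⟩ := F3 n hn hin hnj f hf hm hfi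
  by_cases hfc : own f = own c
  · rw [hfc] at hm
    exact h.a3 c hc n hn ⟨fun _ => hKn, fun _ => hKc⟩ hcn hnext (h.symm _ _ hm)
  by_cases hfe : own f = own e
  · rw [hfe] at hm
    have := hmin2' n hn e he hin hej hne2 hm
    omega
  rcases lt_trichotomy (pos f) (pos c) with h1 | h1 | h1
  · exact h.nc f hf n hn c hc e he h1 hcn hne2 (Or.inr (h.symm _ _ hm)) (Or.inr hct) hfc hfe
      hnc hnoe
  · exact hfc (by rw [h.inj _ hf _ hc h1])
  · rcases lt_trichotomy (pos f) (pos e) with h2 | h2 | h2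
    · have h3 := hnext f hf h1
      rcases h3.lt_or_eq with h4 | h4
      · have := hmin2' n hn f hf hin hfj h4 hm
        omega
      · rw [← h.inj _ hn _ hf h4] at hm
        exact h.irr _ hm
    · exact hfe (by rw [h.inj _ hf _ he h2])
    · exact h.nc c hc e he n hn f hf hcn hne2 h2 (Or.inr hct) (Or.inr hm) hnc.symm
        (Ne.symm hfc) hnoe.symm (Ne.symm hfe)

/-- (2) No contact between connectors with ports in `K`. -/
lemma noK (h : Reg R pos K own Ct) : ∀ p ∈ R, ∀ q ∈ R, K p → K q → ¬ Ct (own p) (own q) := by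
  classical
  have hA := h.oneK
  by_contra hcon
  push Not at hcon
  obtain ⟨p₀, hp₀, q₀, hq₀, hKp₀, hKq₀, hpq₀⟩ := hcon
  have hS : ((R ×ˢ R).filter fun x => K x.2 ∧ pos x.1 < pos x.2 ∧
      Ct (own x.1) (own x.2)).Nonempty := by
    rcases lt_trichotomy (pos p₀) (pos q₀) with hlt | heq | hgt
    · exact ⟨(p₀, q₀), Finset.mem_filter.2 ⟨Finset.mk_mem_product hp₀ hq₀, hKq₀, hlt, hpq₀⟩⟩
    · rw [h.inj _ hp₀ _ hq₀ heq] at hpq₀
      exact absurd hpq₀ (h.irr _)
    · exact ⟨(q₀, p₀), Finset.mem_filter.2 ⟨Finset.mk_mem_product hq₀ hp₀, hKp₀, hgt,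
        h.symm _ _ hpq₀⟩⟩
  obtain ⟨⟨c, e⟩, hce, hmin⟩ := Finset.exists_min_image _ (fun x : P × P => pos x.2 - pos x.1) hS
  simp only [Finset.mem_filter, Finset.mem_product] at hce
  obtain ⟨⟨hc, he⟩, hKe, hlt, hct⟩ := hce
  have hmin' : ∀ c' ∈ R, ∀ e' ∈ R, K e' → pos c' < pos e' → Ct (own c') (own e') →
      pos e - pos c ≤ pos e' - pos c' := fun c' hc' e' he' hKe' hce' hoe' =>
    hmin (c', e') (Finset.mem_filter.2 ⟨Finset.mk_mem_product hc' he', hKe', hce', hoe'⟩)
  have hKc : K c := h.down c hc e he hKe hlt.le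
  obtain ⟨n, hn, hcn, hne, hnext⟩ := h.next he hlt
  have hKn : K n := h.down n hn e he hKe hne
  have hne2 : pos n < pos e := by
    rcases hne.lt_or_eq with h4 | h4
    · exact h4
    · have : n = e := h.inj _ hn _ he h4
      subst this
      exact absurd hct (h.a3 c hc n hn ⟨fun _ => hKn, fun _ => hKc⟩ hcn hnext)
  have hnc : own n ≠ own c := fun e1 => by
    have := hA n hn c hc hKn hKc e1
    subst this
    omega
  have hnoe : own n ≠ own e := fun e1 => by
    have := hA n hn e he hKn hKe e1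
    subst this
    omega
  have hone : ∀ t ∈ R, own t = own n → t = n := by
    intro t ht hot
    by_cases hKt : K t
    · exact hA t ht n hn hKt hKn hot
    · have h1 : pos e < pos t := by
        by_contra hle
        exact hKt (h.down t ht e he hKe (not_lt.1 hle))
      exact (h.nc c hc e he n hn t ht hcn hne2 h1 (Or.inr hct) (Or.inl hot.symm) hnc.symm
        (by rw [hot]; exact hnc.symm) hnoe.symm (by rw [hot]; exact hnoe.symm)).elim
  obtain ⟨m, _, _, hm, _⟩ := h.a2 n hn hone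
  obtain ⟨f, hf, rfl⟩ := h.cl n hn m hm
  by_cases hfc : own f = own c
  · rw [hfc] at hm
    exact h.a3 c hc n hn ⟨fun _ => hKn, fun _ => hKc⟩ hcn hnext (h.symm _ _ hm)
  by_cases hfe : own f = own e
  · rw [hfe] at hm
    have := hmin' n hn e he hKe hne2 hm
    omega
  rcases lt_trichotomy (pos f) (pos c) with h1 | h1 | h1
  · exact h.nc f hf n hn c hc e he h1 hcn hne2 (Or.inr (h.symm _ _ hm)) (Or.inr hct) hfc hfe
      hnc hnoe
  · exact hfc (by rw [h.inj _ hf _ hc h1])
  · rcases lt_trichotomy (pos f) (pos e) with h2 | h2 | h2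
    · have h3 := hnext f hf h1
      rcases h3.lt_or_eq with h4 | h4
      · have := hmin' n hn f hf (h.down f hf e he hKe h2.le) h4 hm
        omega
      · rw [← h.inj _ hn _ hf h4] at hm
        exact h.irr _ hm
    · exact hfe (by rw [h.inj _ hf _ he h2])
    · exact h.nc c hc e he n hn f hf hcn hne2 h2 (Or.inr hct) (Or.inr hm) hnc.symm
        (Ne.symm hfc) hnoe.symm (Ne.symm hfe)

/-- **Every connector with a port in `K` has a port in `A`.** -/
lemma exA (h : Reg R pos K own Ct) : ∀ p ∈ R, K p → ∃ q ∈ R, ¬ K q ∧ own q = own p := by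
  classical
  have hA := h.oneK
  have hA' := h.rev.oneK
  have hB := h.noK
  have hB' := h.rev.noK
  by_contra hcon
  push Not at hcon
  obtain ⟨p₀, hp₀, hKp₀, hall₀⟩ := hcon
  have hS : (R.filter fun p => K p ∧ ∀ q ∈ R, own q = own p → K q).Nonempty :=
    ⟨p₀, Finset.mem_filter.2 ⟨hp₀, hKp₀, fun q hq hoq => by
      by_contra hKq
      exact hall₀ q hq hKq hoq⟩⟩
  obtain ⟨c, hc, hmin⟩ := Finset.exists_min_image _ pos hS
  rw [Finset.mem_filter] at hc
  obtain ⟨hc, hKc, honly⟩ := hc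
  obtain ⟨k, l, hkl, hk, hl⟩ := h.a2 c hc fun q hq hoq => hA q hq c hc (honly q hq hoq) hKc hoq
  obtain ⟨a, ha, rfl⟩ := h.cl c hc k hk
  obtain ⟨b, hb, rfl⟩ := h.cl c hc l hl
  have key : ∀ a ∈ R, ∀ b ∈ R, own a ≠ own b → Ct (own c) (own a) → Ct (own c) (own b) →
      pos a < pos b → False := by
    intro a ha b hb hab hca hcb hlt
    have hKa : ¬ K a := fun hKa => hB c hc a ha hKc hKa hca
    have hbonly : ∀ t ∈ R, own t = own b → ¬ K t := by
      intro t ht hot hKt
      refine hB c hc t ht hKc hKt ?_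
      rw [hot]
      exact hcb
    obtain ⟨k', l', hkl', hk', hl'⟩ := h.a2 b hb fun q hq hoq =>
      hA' q hq b hb (hbonly q hq hoq) (hbonly b hb rfl) hoq
    obtain ⟨m, hm, hmc⟩ : ∃ m, Ct (own b) m ∧ m ≠ own c := by
      by_cases hkc : k' = own c
      · exact ⟨l', hl', fun hlc => hkl' (hkc.trans hlc.symm)⟩
      · exact ⟨k', hk', hkc⟩
    obtain ⟨d, hd, rfl⟩ := h.cl b hb m hm
    have hdonly : ∀ t ∈ R, own t = own d → K t := by
      intro t ht hot
      by_contra hKt
      refine hB' b hb t ht (hbonly b hb rfl) hKt ?_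
      rw [hot]
      exact hm
    have hKd := hdonly d hd rfl
    have hcd : pos c ≤ pos d := hmin d (Finset.mem_filter.2 ⟨hd, hKd, hdonly⟩)
    have hcd' : pos c < pos d := by
      rcases hcd.lt_or_eq with h1 | h1
      · exact h1
      · exact absurd (by rw [h.inj _ hc _ hd h1]) hmc
    have hda : pos d < pos a := by
      by_contra hle
      exact hKa (h.down a ha d hd hKd (not_lt.1 hle))
    exact h.nc c hc a ha d hd b hb hcd' hda hlt (Or.inr hca) (Or.inr (h.symm _ _ hm)) hmc.symm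
      (fun e1 => hbonly c hc e1 hKc) (fun e1 => hKa (hdonly a ha e1)) hab
  rcases lt_trichotomy (pos a) (pos b) with h1 | h1 | h1
  · exact key a ha b hb hkl hk hl h1
  · exact hkl (by rw [h.inj _ ha _ hb h1])
  · exact key b hb a ha hkl.symm hl hk h1

/-- every connector with a port in `A` has a port in `K` -/
lemma exK (h : Reg R pos K own Ct) : ∀ q ∈ R, ¬ K q → ∃ p ∈ R, K p ∧ own p = own q := by
  intro q hq hKq
  obtain ⟨p, hp, hKp, hop⟩ := h.rev.exA q hq hKq
  exact ⟨p, hp, not_not.1 hKp, hop⟩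

/-- no contacts -/
lemma no_ct (h : Reg R pos K own Ct) : ∀ p ∈ R, ∀ k, ¬ Ct (own p) k := by
  intro p hp k hk
  obtain ⟨q, hq, rfl⟩ := h.cl p hp k hk
  obtain ⟨p', hp', hKp', hop'⟩ : ∃ p' ∈ R, K p' ∧ own p' = own p := by
    by_cases hKp : K p
    · exact ⟨p, hp, hKp, rfl⟩
    · exact h.exK p hp hKp
  obtain ⟨q', hq', hKq', hoq'⟩ : ∃ q' ∈ R, K q' ∧ own q' = own q := by
    by_cases hKq : K q
    · exact ⟨q, hq, hKq, rfl⟩
    · exact h.exK q hq hKq
  exact h.noK p' hp' q' hq' hKp' hKq' (by rw [hop', hoq']; exact hk)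

/-- **THE GOOD REGION LEMMA, two intervals.** Every connector has exactly one port in `K` and
exactly one in `A`; the bijection is decreasing on the circle; there are no contacts. -/
theorem two (h : Reg R pos K own Ct) :
    (∀ p ∈ R, K p → ∃ q ∈ R, ¬ K q ∧ own q = own p) ∧
    (∀ q ∈ R, ¬ K q → ∃ p ∈ R, K p ∧ own p = own q) ∧
    (∀ p ∈ R, ∀ q ∈ R, (K p ↔ K q) → own p = own q → p = q) ∧
    (∀ p ∈ R, ∀ k, ¬ Ct (own p) k) ∧
    (∀ p ∈ R, ∀ q ∈ R, ∀ r ∈ R, ∀ s ∈ R, K p → K r → ¬ K q → ¬ K s → own q = own p →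
      own s = own r → pos p < pos r → pos s < pos q) := by
  refine ⟨h.exA, h.exK, ?_, h.no_ct, ?_⟩
  · intro p hp q hq hK hpq
    by_cases hKp : K p
    · exact h.oneK p hp q hq hKp (hK.1 hKp) hpq
    · exact h.rev.oneK p hp q hq hKp (fun hKq => hKp (hK.2 hKq)) hpq
  · intro p hp q hq r hr s hs hKp hKr hKq hKs hqp hsr hlt
    have hpr : own p ≠ own r := fun e1 => by
      have := h.oneK p hp r hr hKp hKr e1
      subst this
      omega
    by_contra hle
    rcases (not_lt.1 hle).lt_or_eq with h1 | h1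
    · have hrq : pos r < pos q := by
        by_contra hle'
        exact hKq (h.down q hq r hr hKr (not_lt.1 hle'))
      exact h.nc p hp q hq r hr s hs hlt hrq h1 (Or.inl hqp.symm) (Or.inl hsr.symm) hpr
        (by rw [hsr]; exact hpr) (by rw [hqp]; exact hpr) (by rw [hqp, hsr]; exact hpr)
    · rw [h.inj _ hq _ hs h1, hsr] at hqp
      exact hpr hqp.symm

/-- **THE GOOD REGION LEMMA, one interval.** There is no port. -/
theorem one (h : Reg R pos (fun _ => True) own Ct) : R = ∅ := by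
  refine Finset.eq_empty_of_forall_notMem fun p hp => ?_
  obtain ⟨q, -, hq, -⟩ := h.exA p hp trivial
  exact hq trivial

end Reg

end EN
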