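import Pool.Agent.EN.Single
import Pool.Agent.EN.PicX
import Pool.Agent.EN.PicA
import Pool.Agent.EN.PicC
import Pool.Agent.EN.Band
import Pool.Agent.EN.Kt

/-!
# Realized systems of connectors

A system of disjoint pages (one for each shore), a connected ground `G`, disjoint connected sets
`B k` (connectors) with ports on the shores, contacts between connectors, grounded connectors.
A link is a connector, or two connectors with a contact, together with two ports.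
-/

open Set
open scoped Matroid

namespace EN

open BIC Gad

variable {α V : Type*} {M : Matroid α} {S : Set α} {ends : α → Sym2 V}

/-- A realized system. -/
structure Rlz (S : Set α) (ends : α → Sym2 V) {σ κ : Type*} (P : σ → ℕ × ℕ → V) (lo hi : σ → ℕ)
    (n : ℕ) (G : Set V) (B : κ → Set V) (port : σ → ℕ → κ → Prop) (ct : κ → κ → Prop)
    (gr : κ → Prop) : Prop where
  pgs : Pgs S ends P lo hi n
  finG : G.Finite
  conG : VConn S ends G
  pG : ∀ s, ∀ c ∈ Reg (lo s) (hi s) n, P s c ∉ G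
  fin : ∀ k, (B k).Finite
  con : ∀ k, VConn S ends (B k)
  dis : ∀ k k', k ≠ k' → Disjoint (B k) (B k')
  pB : ∀ k s, ∀ c ∈ Reg (lo s) (hi s) n, P s c ∉ B k
  dG : ∀ k, Disjoint (B k) G
  prt : ∀ s x k, port s x k → lo s ≤ x ∧ x ≤ hi s ∧ Lnk S ends (B k) {P s (x, 0)}
  cnt : ∀ k k', ct k k' → Lnk S ends (B k) (B k')
  grd : ∀ k, gr k → Lnk S ends (B k) G

/-- The vertex set of a finite set of connectors. -/
def JJ {κ : Type*} (B : κ → Set V) (L : Finset κ) : Set V := {v | ∃ k ∈ L, v ∈ B k}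

/-- A link with the connectors `L` between the ports `(s, x)` and `(s', x')`. -/
def Lk {σ κ : Type*} (port : σ → ℕ → κ → Prop) (ct : κ → κ → Prop) (s : σ) (x : ℕ) (s' : σ)
    (x' : ℕ) (L : Finset κ) : Prop :=
  ∃ k k', port s x k ∧ port s' x' k' ∧ (k = k' ∨ ct k k') ∧ ∀ a, a ∈ L ↔ a = k ∨ a = k'

section

variable {σ κ : Type*} {P : σ → ℕ × ℕ → V} {lo hi : σ → ℕ} {n : ℕ} {G : Set V} {B : κ → Set V}
  {port : σ → ℕ → κ → Prop} {ct : κ → κ → Prop} {gr : κ → Prop}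

lemma Rlz.JJ_fin (h : Rlz S ends P lo hi n G B port ct gr) (L : Finset κ) : (JJ B L).Finite := by
  have e : JJ B L = ⋃ k ∈ L, B k := by
    ext v
    simp only [JJ, mem_iUnion, exists_prop, mem_ofPred_eq]
  rw [e]
  exact Set.Finite.biUnion L.finite_toSet (fun k _ => h.fin k)

lemma Rlz.JJ_dis (h : Rlz S ends P lo hi n G B port ct gr) {L L' : Finset κ}
    (hL : Disjoint L L') : Disjoint (JJ B L) (JJ B L') := by
  rw [Set.disjoint_left]
  rintro v ⟨k, hk, hv⟩ ⟨k', hk', hv'⟩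
  exact Set.disjoint_left.1 (h.dis k k' (fun e => Finset.disjoint_left.1 hL hk (e ▸ hk'))) hv hv'

lemma Rlz.JJ_page (h : Rlz S ends P lo hi n G B port ct gr) (L : Finset κ) {s : σ} {c : ℕ × ℕ}
    (hc : c ∈ Reg (lo s) (hi s) n) : P s c ∉ JJ B L := by
  rintro ⟨k, _, hv⟩
  exact h.pB k s c hc hv

lemma Rlz.JJ_G (h : Rlz S ends P lo hi n G B port ct gr) (L : Finset κ) :
    Disjoint (JJ B L) G := by
  rw [Set.disjoint_left]
  rintro v ⟨k, _, hv⟩ hv'
  exact Set.disjoint_left.1 (h.dG k) hv hv'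

/-- A link is connected. -/
lemma Rlz.link (h : Rlz S ends P lo hi n G B port ct gr) {s s' : σ} {x x' : ℕ} {L : Finset κ}
    (hL : Lk port ct s x s' x' L) : VConn S ends (JJ B L ∪ {P s (x, 0), P s' (x', 0)}) := by
  obtain ⟨k, k', h1, h2, h3, h4⟩ := hL
  have g1 := (h.prt _ _ _ h1).2.2
  have g2 := (h.prt _ _ _ h2).2.2
  have c1 := vc_lnk (h.con k) (vconn_singleton (P s (x, 0))) g1
  have c2 := vc_lnk (h.con k') (vconn_singleton (P s' (x', 0))) g2
  have c3 : VConn S ends (B k ∪ {P s (x, 0)} ∪ (B k' ∪ {P s' (x', 0)})) := by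
    rcases h3 with h3 | h3
    · subst h3
      obtain ⟨e, he, u, hu, v, hv, hee⟩ := g1
      exact vc_union c1 c2 (c := u) (Or.inl hu) (Or.inl hu)
    · exact vc_lnk c1 c2 ((h.cnt k k' h3).mono (subset_refl _) subset_union_left
        subset_union_left)
  refine vconn_congr c3 (fun v => ?_)
  constructor
  · rintro ((g | g) | (g | g))
    · exact Or.inl ⟨k, (h4 k).2 (Or.inl rfl), g⟩
    · exact Or.inr (Or.inl g)
    · exact Or.inl ⟨k', (h4 k').2 (Or.inr rfl), g⟩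
    · exact Or.inr (Or.inr g)
  · rintro (⟨a, ha, g⟩ | g | g)
    · rcases (h4 a).1 ha with e | e
      · rw [e] at g; exact Or.inl (Or.inl g)
      · rw [e] at g; exact Or.inr (Or.inl g)
    · exact Or.inl (Or.inr g)
    · exact Or.inr (Or.inr g)

lemma Lk.rng (h : Rlz S ends P lo hi n G B port ct gr) {s s' : σ} {x x' : ℕ} {L : Finset κ}
    (hL : Lk port ct s x s' x' L) : lo s ≤ x ∧ x ≤ hi s ∧ lo s' ≤ x' ∧ x' ≤ hi s' := by
  obtain ⟨k, k', h1, h2, h3, h4⟩ := hL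
  have g1 := h.prt _ _ _ h1
  have g2 := h.prt _ _ _ h2
  exact ⟨g1.1, g1.2.1, g2.1, g2.2.1⟩

/-- Two families of columns. -/
lemma Pgs.pair (hP : Pgs S ends P lo hi n) {s s' : σ} {A A' : Finset ℕ} (hA : A.Nonempty)
    (hA' : A'.Nonempty) (hr : ∀ x ∈ A, lo s ≤ x ∧ x ≤ hi s)
    (hr' : ∀ x ∈ A', lo s' ≤ x ∧ x ≤ hi s')
    (hsep : s ≠ s' ∨ (∀ x ∈ A, ∀ x' ∈ A', x < x') ∨ (∀ x ∈ A, ∀ x' ∈ A', x' < x)) :
    ∃ l r l' r', (∀ x ∈ A, l ≤ x ∧ x ≤ r) ∧ (∀ x ∈ A', l' ≤ x ∧ x ≤ r') ∧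
      Page S ends (P s) l r n ∧ Page S ends (P s') l' r' n ∧
      (∀ c ∈ Reg l r n, c ∈ Reg (lo s) (hi s) n) ∧ (∀ c ∈ Reg l' r' n, c ∈ Reg (lo s') (hi s') n) ∧
      (∀ c ∈ Reg l r n, ∀ c' ∈ Reg l' r' n, P s c ≠ P s' c') := by
  have a1 := A.min'_mem hA
  have a2 := A.max'_mem hA
  have a3 := A'.min'_mem hA'
  have a4 := A'.max'_mem hA'
  refine ⟨A.min' hA, A.max' hA, A'.min' hA', A'.max' hA', fun x hx => ⟨A.min'_le x hx,
    A.le_max' x hx⟩, fun x hx => ⟨A'.min'_le x hx, A'.le_max' x hx⟩,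
    (hP.page s).sub (hr _ a1).1 (hr _ a2).2 (le_refl n),
    (hP.page s').sub (hr' _ a3).1 (hr' _ a4).2 (le_refl n), ?_, ?_,
    hP.ne (hr _ a1).1 (hr _ a2).2 (hr' _ a3).1 (hr' _ a4).2 ?_⟩
  · intro c hc
    have := hr _ a1
    have := hr _ a2
    rw [mem_Reg] at hc ⊢; omega
  · intro c hc
    have := hr' _ a3
    have := hr' _ a4
    rw [mem_Reg] at hc ⊢; omega
  · rcases hsep with h | h | h
    · exact Or.inl h
    · exact Or.inr (Or.inl (h _ a2 _ a3))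
    · exact Or.inr (Or.inr (h _ a1 _ a4))

/-- The finite set of the values of three functions. -/
lemma vals3 (N : ℕ) (f g k : ℕ → ℕ) : ∃ A : Finset ℕ, (∀ x, x ∈ A ↔ ∃ i < N, x = f i ∨ x = g i ∨
    x = k i) ∧ (0 < N → A.Nonempty) := by
  classical
  refine ⟨(Finset.range N).image f ∪ ((Finset.range N).image g ∪ (Finset.range N).image k),
    fun x => ?_, fun h => ⟨f 0, ?_⟩⟩
  · simp only [Finset.mem_union, Finset.mem_image, Finset.mem_range]
    constructor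
    · rintro (⟨i, hi, rfl⟩ | ⟨i, hi, rfl⟩ | ⟨i, hi, rfl⟩)
      · exact ⟨i, hi, Or.inl rfl⟩
      · exact ⟨i, hi, Or.inr (Or.inl rfl)⟩
      · exact ⟨i, hi, Or.inr (Or.inr rfl)⟩
    · rintro ⟨i, hi, h | h | h⟩
      · exact Or.inl ⟨i, hi, h.symm⟩
      · exact Or.inr (Or.inl ⟨i, hi, h.symm⟩)
      · exact Or.inr (Or.inr ⟨i, hi, h.symm⟩)
  · exact Finset.mem_union_left _ (Finset.mem_image.2 ⟨0, Finset.mem_range.2 h, rfl⟩)

lemma ord_lt {τ : Bool} {a b : ℕ} (h : Ord τ a b) : a ≠ b := by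
  cases τ with
  | true => rw [ord_true] at h; omega
  | false => rw [ord_false] at h; omega

/-- **(SJ) in a realized system.** -/
theorem Rlz.sj (h : Rlz S ends P lo hi n G B port ct gr) {w N : ℕ}
    (hw : 1 ≤ w) (hN : N = (2 * w) * (2 * w)) (hn : 2 + 2 * w ≤ n) (s s' : σ) (τ : Bool)
    (p q y z : ℕ → ℕ) (L L' : ℕ → Finset κ)
    (hL : ∀ i < N, Lk port ct s (p i) s' (q i) (L i))
    (hL' : ∀ i < N, Lk port ct s (y i) s (z i) (L' i))
    (hord : ∀ i < N, Ord τ (y i) (p i) ∧ Ord τ (p i) (z i))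
    (hord' : ∀ i, i + 1 < N → Ord τ (z i) (y (i + 1))) (hqm : Mon N q)
    (hsep : s ≠ s' ∨ (∀ i < N, ∀ j < N, y i < q j ∧ z i < q j) ∨
      (∀ i < N, ∀ j < N, q j < y i ∧ q j < z i))
    (hLL : ∀ i < N, ∀ j < N, i ≠ j → Disjoint (L i) (L j))
    (hLL' : ∀ i < N, ∀ j < N, Disjoint (L i) (L' j)) : Gm1 S ends P lo hi n (2 * w) := by
  have hNpos : 0 < N := by
    rw [hN]; exact Nat.mul_pos (by omega) (by omega)
  obtain ⟨A, hA, hA0⟩ := vals3 N p y z
  obtain ⟨A', hA', hA0'⟩ := vals3 N q q q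
  have hbet : ∀ i < N, (y i < p i ∧ p i < z i) ∨ (z i < p i ∧ p i < y i) := by
    intro i hi
    have h1 := hord i hi
    cases τ with
    | true => simp only [ord_true] at h1; omega
    | false => simp only [ord_false] at h1; omega
  have hr1 : ∀ x ∈ A, lo s ≤ x ∧ x ≤ hi s := by
    intro x hx
    obtain ⟨i, hi, e | e | e⟩ := (hA x).1 hx
    · have := (hL i hi).rng h; omega
    · have := (hL' i hi).rng h; omega
    · have := (hL' i hi).rng h; omega
  have hr2 : ∀ x ∈ A', lo s' ≤ x ∧ x ≤ hi s' := by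
    intro x hx
    obtain ⟨i, hi, e | e | e⟩ := (hA' x).1 hx
    all_goals have := (hL i hi).rng h; omega
  have hs1 : s ≠ s' ∨ (∀ x ∈ A, ∀ x' ∈ A', x < x') ∨ (∀ x ∈ A, ∀ x' ∈ A', x' < x) := by
    rcases hsep with h1 | h1 | h1
    · exact Or.inl h1
    · right; left
      intro x hx x' hx'
      obtain ⟨i, hi, e⟩ := (hA x).1 hx
      obtain ⟨j, hj, e'⟩ := (hA' x').1 hx'
      have := h1 i hi j hj
      have := hbet i hi
      omega
    · right; right
      intro x hx x' hx'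
      obtain ⟨i, hi, e⟩ := (hA x).1 hx
      obtain ⟨j, hj, e'⟩ := (hA' x').1 hx'
      have := h1 i hi j hj
      have := hbet i hi
      omega
  obtain ⟨l, r, l', r', g1, g2, g3, g4, g5, g6, g7⟩ := h.pgs.pair (s := s) (s' := s') (hA0 hNpos)
    (hA0' hNpos) hr1 hr2 hs1
  refine Gm1.of (by omega) (s := s) (l := l) (r := r) ?_ fun x h1 h2 => ?_
  swap
  · have h3 := g5 (x, 0) (by rw [mem_Reg]; simp only; omega)
    rw [mem_Reg] at h3
    exact ⟨h3.1, h3.2.1⟩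
  exact EN.sj hw hN g3 g4 g7 (by omega) (by omega) τ p q y z
    (fun i hi => g1 _ ((hA _).2 ⟨i, hi, Or.inl rfl⟩))
      (fun i hi => g1 _ ((hA _).2 ⟨i, hi, Or.inr (Or.inl rfl)⟩))
      (fun i hi => g1 _ ((hA _).2 ⟨i, hi, Or.inr (Or.inr rfl)⟩)) hord hord'
      (fun i hi => g2 _ ((hA' _).2 ⟨i, hi, Or.inl rfl⟩)) hqm (fun i => JJ B (L i))
      (fun i => JJ B (L' i)) (fun i _ => h.JJ_fin _) (fun i _ => h.JJ_fin _)
      (fun i hi => h.link (hL i hi)) (fun i hi => h.link (hL' i hi))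
      (fun i hi j hj hij => h.JJ_dis (hLL i hi j hj hij))
      (fun i hi j hj => h.JJ_dis (hLL' i hi j hj)) (fun i _ c hc => h.JJ_page _ (g5 c hc))
      (fun i _ c hc => h.JJ_page _ (g6 c hc)) (fun i _ c hc => h.JJ_page _ (g5 c hc))
      (fun i _ c hc => h.JJ_page _ (g6 c hc))

/-- **(SJ') in a realized system.** -/
theorem Rlz.sx (h : Rlz S ends P lo hi n G B port ct gr) {w N : ℕ}
    (hw : 1 ≤ w) (hN : N = (2 * w) * (2 * w)) (hn : 2 + 2 * w ≤ n) (s s' : σ) (τ τ' : Bool)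
    (p q y z p' q' : ℕ → ℕ) (L L' L'' : ℕ → Finset κ)
    (hL : ∀ i < N, Lk port ct s (p i) s' (q i) (L i))
    (hL' : ∀ i < N, Lk port ct s (y i) s' (z i) (L' i))
    (hL'' : ∀ i < N, Lk port ct s (p' i) s' (q' i) (L'' i))
    (hord : ∀ i < N, Ord τ (y i) (p i) ∧ Ord τ (p i) (p' i))
    (hord' : ∀ i, i + 1 < N → Ord τ (p' i) (y (i + 1)))
    (hoq : ∀ i < N, Ord τ' (q i) (z i) ∧ Ord τ' (z i) (q' i))
    (hoq' : ∀ i, i + 1 < N → Ord τ' (q' i) (q (i + 1)))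
    (hsep : s ≠ s' ∨ (∀ i < N, ∀ j < N, max (y i) (p' i) < min (q j) (q' j)) ∨
      (∀ i < N, ∀ j < N, max (q j) (q' j) < min (y i) (p' i)))
    (hLL : ∀ i < N, ∀ j < N, i ≠ j → Disjoint (L i) (L j))
    (hLL' : ∀ i < N, ∀ j < N, Disjoint (L i) (L' j))
    (hLL'' : ∀ i < N, ∀ j < N, Disjoint (L i) (L'' j)) : Gm1 S ends P lo hi n (2 * w) := by
  have hNpos : 0 < N := by
    rw [hN]; exact Nat.mul_pos (by omega) (by omega)
  obtain ⟨A, hA, hA0⟩ := vals3 N p y p'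
  obtain ⟨A', hA', hA0'⟩ := vals3 N q z q'
  have hbet : ∀ i < N, min (y i) (p' i) ≤ p i ∧ p i ≤ max (y i) (p' i) := by
    intro i hi
    have h1 := hord i hi
    cases τ with
    | true => simp only [ord_true] at h1; omega
    | false => simp only [ord_false] at h1; omega
  have hbet' : ∀ i < N, min (q i) (q' i) ≤ z i ∧ z i ≤ max (q i) (q' i) := by
    intro i hi
    have h1 := hoq i hi
    cases τ' with
    | true => simp only [ord_true] at h1; omega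
    | false => simp only [ord_false] at h1; omega
  have hr1 : ∀ x ∈ A, lo s ≤ x ∧ x ≤ hi s := by
    intro x hx
    obtain ⟨i, hi, e | e | e⟩ := (hA x).1 hx
    · have := (hL i hi).rng h; omega
    · have := (hL' i hi).rng h; omega
    · have := (hL'' i hi).rng h; omega
  have hr2 : ∀ x ∈ A', lo s' ≤ x ∧ x ≤ hi s' := by
    intro x hx
    obtain ⟨i, hi, e | e | e⟩ := (hA' x).1 hx
    · have := (hL i hi).rng h; omega
    · have := (hL' i hi).rng h; omega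
    · have := (hL'' i hi).rng h; omega
  have hs1 : s ≠ s' ∨ (∀ x ∈ A, ∀ x' ∈ A', x < x') ∨ (∀ x ∈ A, ∀ x' ∈ A', x' < x) := by
    rcases hsep with h1 | h1 | h1
    · exact Or.inl h1
    · right; left
      intro x hx x' hx'
      obtain ⟨i, hi, e⟩ := (hA x).1 hx
      obtain ⟨j, hj, e'⟩ := (hA' x').1 hx'
      have := h1 i hi j hj
      have := hbet i hi
      have := hbet' j hj
      omega
    · right; right
      intro x hx x' hx'
      obtain ⟨i, hi, e⟩ := (hA x).1 hx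
      obtain ⟨j, hj, e'⟩ := (hA' x').1 hx'
      have := h1 i hi j hj
      have := hbet i hi
      have := hbet' j hj
      omega
  obtain ⟨l, r, l', r', g1, g2, g3, g4, g5, g6, g7⟩ := h.pgs.pair (s := s) (s' := s') (hA0 hNpos)
    (hA0' hNpos) hr1 hr2 hs1
  refine Gm1.of (by omega) (s := s) (l := l) (r := r) ?_ fun x h1 h2 => ?_
  swap
  · have h3 := g5 (x, 0) (by rw [mem_Reg]; simp only; omega)
    rw [mem_Reg] at h3
    exact ⟨h3.1, h3.2.1⟩
  exact EN.sx hw hN g3 g4 g7 (by omega) (by omega) τ τ' p q y z p' q'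
    (fun i hi => g1 _ ((hA _).2 ⟨i, hi, Or.inl rfl⟩))
      (fun i hi => g1 _ ((hA _).2 ⟨i, hi, Or.inr (Or.inl rfl)⟩))
      (fun i hi => g1 _ ((hA _).2 ⟨i, hi, Or.inr (Or.inr rfl)⟩))
      (fun i hi => g2 _ ((hA' _).2 ⟨i, hi, Or.inl rfl⟩))
      (fun i hi => g2 _ ((hA' _).2 ⟨i, hi, Or.inr (Or.inl rfl)⟩))
      (fun i hi => g2 _ ((hA' _).2 ⟨i, hi, Or.inr (Or.inr rfl)⟩)) hord hord' hoq hoq'
      (fun i => JJ B (L i)) (fun i => JJ B (L' i)) (fun i => JJ B (L'' i))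
      (fun i _ => h.JJ_fin _) (fun i _ => h.JJ_fin _) (fun i _ => h.JJ_fin _)
      (fun i hi => h.link (hL i hi)) (fun i hi => h.link (hL' i hi))
      (fun i hi => h.link (hL'' i hi))
      (fun i hi j hj hij => h.JJ_dis (hLL i hi j hj hij))
      (fun i hi j hj => h.JJ_dis (hLL' i hi j hj)) (fun i hi j hj => h.JJ_dis (hLL'' i hi j hj))
      (fun i _ c hc => h.JJ_page _ (g5 c hc)) (fun i _ c hc => h.JJ_page _ (g6 c hc))
      (fun i _ c hc => h.JJ_page _ (g5 c hc)) (fun i _ c hc => h.JJ_page _ (g6 c hc))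
      (fun i _ c hc => h.JJ_page _ (g5 c hc)) (fun i _ c hc => h.JJ_page _ (g6 c hc))

/-- The finite set of the values of five functions. -/
lemma vals5 (N : ℕ) (f g k p q : ℕ → ℕ) : ∃ A : Finset ℕ, (∀ x, x ∈ A ↔ ∃ i < N, x = f i ∨
    x = g i ∨ x = k i ∨ x = p i ∨ x = q i) ∧ (0 < N → A.Nonempty) := by
  classical
  obtain ⟨A, hA, hA0⟩ := vals3 N f g k
  obtain ⟨A', hA', hA0'⟩ := vals3 N p q q
  refine ⟨A ∪ A', fun x => ?_, fun h => ?_⟩
  · rw [Finset.mem_union, hA, hA']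
    constructor
    · rintro (⟨i, hi, e⟩ | ⟨i, hi, e⟩)
      · exact ⟨i, hi, by tauto⟩
      · exact ⟨i, hi, by tauto⟩
    · rintro ⟨i, hi, e⟩
      by_cases h1 : x = f i ∨ x = g i ∨ x = k i
      · exact Or.inl ⟨i, hi, h1⟩
      · exact Or.inr ⟨i, hi, by tauto⟩
  · obtain ⟨x, hx⟩ := hA0 h
    exact ⟨x, Finset.mem_union_left _ hx⟩

/-- **(CR) in a realized system.** -/
theorem Rlz.cr (h : Rlz S ends P lo hi n G B port ct gr) {w N : ℕ}
    (hw : 1 ≤ w) (hN : N = (2 * w) * (2 * w)) (hn : 3 + 2 * w ≤ n) (s s' : σ) (τ : Bool)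
    (a b y z v v' : ℕ → ℕ) (L L' L'' : ℕ → Finset κ)
    (hL : ∀ i < N, Lk port ct s (a i) s' (b i) (L i))
    (hL' : ∀ i < N, Lk port ct s (y i) s (z i) (L' i))
    (hL'' : ∀ i < N, Lk port ct s (v i) s (v' i) (L'' i))
    (hord : ∀ i < N, Ord τ (a i) (y i) ∧ Ord τ (y i) (v i) ∧ Ord τ (v i) (z i) ∧
      Ord τ (z i) (v' i))
    (hord' : ∀ i, i + 1 < N → Ord τ (v' i) (a (i + 1))) (hbm : Mon N b)
    (hsep : s ≠ s' ∨ (∀ i < N, ∀ j < N, max (a i) (v' i) < b j) ∨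
      (∀ i < N, ∀ j < N, b j < min (a i) (v' i)))
    (hLL : ∀ i < N, ∀ j < N, i ≠ j → Disjoint (L i) (L j) ∧ Disjoint (L i) (L' j) ∧
      Disjoint (L' i) (L' j))
    (hLL'' : ∀ i < N, ∀ j < N, Disjoint (L i) (L'' j) ∧ Disjoint (L' i) (L'' j)) :
    Gm1 S ends P lo hi n (2 * w) := by
  classical
  have hNpos : 0 < N := by
    rw [hN]; exact Nat.mul_pos (by omega) (by omega)
  obtain ⟨A, hA, hA0⟩ := vals5 N a y z v v'
  obtain ⟨A', hA', hA0'⟩ := vals3 N b b b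
  have hbet : ∀ i < N, min (a i) (v' i) ≤ y i ∧ y i ≤ max (a i) (v' i) ∧
      min (a i) (v' i) ≤ z i ∧ z i ≤ max (a i) (v' i) ∧
      min (a i) (v' i) ≤ v i ∧ v i ≤ max (a i) (v' i) := by
    intro i hi
    have h1 := hord i hi
    cases τ with
    | true => simp only [ord_true] at h1; omega
    | false => simp only [ord_false] at h1; omega
  have hr1 : ∀ x ∈ A, lo s ≤ x ∧ x ≤ hi s := by
    intro x hx
    obtain ⟨i, hi, e⟩ := (hA x).1 hx
    have := (hL i hi).rng h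
    have := (hL' i hi).rng h
    have := (hL'' i hi).rng h
    omega
  have hr2 : ∀ x ∈ A', lo s' ≤ x ∧ x ≤ hi s' := by
    intro x hx
    obtain ⟨i, hi, e⟩ := (hA' x).1 hx
    have := (hL i hi).rng h
    omega
  have hs1 : s ≠ s' ∨ (∀ x ∈ A, ∀ x' ∈ A', x < x') ∨ (∀ x ∈ A, ∀ x' ∈ A', x' < x) := by
    rcases hsep with h1 | h1 | h1
    · exact Or.inl h1
    · right; left
      intro x hx x' hx'
      obtain ⟨i, hi, e⟩ := (hA x).1 hx
      obtain ⟨j, hj, e'⟩ := (hA' x').1 hx'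
      have := h1 i hi j hj
      have := hbet i hi
      omega
    · right; right
      intro x hx x' hx'
      obtain ⟨i, hi, e⟩ := (hA x).1 hx
      obtain ⟨j, hj, e'⟩ := (hA' x').1 hx'
      have := h1 i hi j hj
      have := hbet i hi
      omega
  obtain ⟨l, r, l', r', g1, g2, g3, g4, g5, g6, g7⟩ := h.pgs.pair (s := s) (s' := s') (hA0 hNpos)
    (hA0' hNpos) hr1 hr2 hs1
  refine Gm1.of (by omega) (s := s) (l := l) (r := r) ?_ fun x h1 h2 => ?_
  swap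
  · have h3 := g5 (x, 0) (by rw [mem_Reg]; simp only; omega)
    rw [mem_Reg] at h3
    exact ⟨h3.1, h3.2.1⟩
  refine EN.cr hw hN g3 g4 g7 (by omega) (by omega) τ a b y z v v'
    (fun i hi => g1 _ ((hA _).2 ⟨i, hi, by tauto⟩)) (fun i hi => g1 _ ((hA _).2 ⟨i, hi, by tauto⟩))
    (fun i hi => g1 _ ((hA _).2 ⟨i, hi, by tauto⟩)) (fun i hi => g1 _ ((hA _).2 ⟨i, hi, by tauto⟩))
    (fun i hi => g1 _ ((hA _).2 ⟨i, hi, by tauto⟩)) hord hord'
    (fun i hi => g2 _ ((hA' _).2 ⟨i, hi, by tauto⟩)) hbm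
    (fun i => JJ B (L i)) (fun i => JJ B (L' i)) (fun i => JJ B (L'' i))
    (fun i _ => h.JJ_fin _) (fun i _ => h.JJ_fin _) (fun i _ => h.JJ_fin _)
    (fun i hi => h.link (hL i hi)) (fun i hi => h.link (hL' i hi))
    (fun i hi => h.link (hL'' i hi)) ?_ ?_ ?_ ?_
  · intro i hi j hj hij
    have e1 := hLL i hi j hj hij
    have e2 := hLL j hj i hi (Ne.symm hij)
    rw [Set.disjoint_union_left, Set.disjoint_union_right, Set.disjoint_union_right]
    exact ⟨⟨h.JJ_dis e1.1, h.JJ_dis e1.2.1⟩, (h.JJ_dis e2.2.1).symm, h.JJ_dis e1.2.2⟩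
  · intro i hi j hj
    have e1 := hLL'' i hi j hj
    rw [Set.disjoint_union_left]
    exact ⟨h.JJ_dis e1.1, h.JJ_dis e1.2⟩
  · rintro i _ c hc ((hx | hx) | hx)
    · exact h.JJ_page _ (g5 c hc) hx
    · exact h.JJ_page _ (g5 c hc) hx
    · exact h.JJ_page _ (g5 c hc) hx
  · rintro i _ c hc ((hx | hx) | hx)
    · exact h.JJ_page _ (g6 c hc) hx
    · exact h.JJ_page _ (g6 c hc) hx
    · exact h.JJ_page _ (g6 c hc) hx

/-- A ground link: connectors `L` joining the port `(s, x)` to the ground. -/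
def Gl {σ κ : Type*} (port : σ → ℕ → κ → Prop) (ct : κ → κ → Prop) (gr : κ → Prop) (s : σ)
    (x : ℕ) (L : Finset κ) : Prop :=
  ∃ k k', port s x k ∧ gr k' ∧ (k = k' ∨ ct k k') ∧ ∀ a, a ∈ L ↔ a = k ∨ a = k'

lemma Rlz.glink (h : Rlz S ends P lo hi n G B port ct gr) {s : σ} {x : ℕ} {L : Finset κ}
    (hL : Gl port ct gr s x L) : VConn S ends (JJ B L ∪ {P s (x, 0)}) ∧
      Lnk S ends (JJ B L) G ∧ lo s ≤ x ∧ x ≤ hi s := by
  obtain ⟨k, k', h1, h2, h3, h4⟩ := hL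
  have g0 := h.prt _ _ _ h1
  have g1 := g0.2.2
  have c1 := vc_lnk (h.con k) (vconn_singleton (P s (x, 0))) g1
  have c3 : VConn S ends (B k ∪ {P s (x, 0)} ∪ B k') := by
    rcases h3 with h3 | h3
    · subst h3
      refine vconn_congr c1 (fun v => ?_)
      constructor
      · exact fun g => Or.inl g
      · rintro (g | g)
        · exact g
        · exact Or.inl g
    · exact vc_lnk c1 (h.con k') ((h.cnt k k' h3).mono (subset_refl _) subset_union_left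
        (subset_refl _))
  refine ⟨vconn_congr c3 (fun v => ?_), (h.grd k' h2).mono (subset_refl _) ?_ (subset_refl _),
    g0.1, g0.2.1⟩
  · constructor
    · rintro ((g | g) | g)
      · exact Or.inl ⟨k, (h4 k).2 (Or.inl rfl), g⟩
      · exact Or.inr g
      · exact Or.inl ⟨k', (h4 k').2 (Or.inr rfl), g⟩
    · rintro (⟨a, ha, g⟩ | g)
      · rcases (h4 a).1 ha with e | e
        · rw [e] at g; exact Or.inl (Or.inl g)
        · rw [e] at g; exact Or.inr g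
      · exact Or.inl (Or.inr g)
  · intro v hv
    exact ⟨k', (h4 k').2 (Or.inr rfl), hv⟩

/-- **(A) in a realized system**, ground. -/
theorem Rlz.gA (h : Rlz S ends P lo hi n G B port ct gr) {w N : ℕ}
    (hw : 1 ≤ w) (hN : N = (2 * w) * (2 * w)) (hn : 1 + 2 * w ≤ n) (s s' : σ)
    (y q z : ℕ → ℕ) (L L' : ℕ → Finset κ)
    (hL : ∀ i < N, Lk port ct s (y i) s' (z i) (L i))
    (hL' : ∀ i < N, Gl port ct gr s (q i) (L' i))
    (hmon : (∀ i j, i < j → j < N → max (y i) (q i) < min (y j) (q j)) ∨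
      (∀ i j, i < j → j < N → max (y j) (q j) < min (y i) (q i))) (hzm : Mon N z)
    (hsep : s ≠ s' ∨ (∀ i < N, ∀ j < N, max (y i) (q i) < z j) ∨
      (∀ i < N, ∀ j < N, z j < min (y i) (q i)))
    (hLL : ∀ i < N, ∀ j < N, i ≠ j → Disjoint (L i) (L j) ∧ Disjoint (L i) (L' j) ∧
      Disjoint (L' i) (L' j)) : Gm1 S ends P lo hi n (2 * w) := by
  classical
  have hNpos : 0 < N := by
    rw [hN]; exact Nat.mul_pos (by omega) (by omega)
  obtain ⟨A, hA, hA0⟩ := vals3 N y q q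
  obtain ⟨A', hA', hA0'⟩ := vals3 N z z z
  have hr1 : ∀ x ∈ A, lo s ≤ x ∧ x ≤ hi s := by
    intro x hx
    obtain ⟨i, hi, e⟩ := (hA x).1 hx
    have := (hL i hi).rng h
    have := h.glink (hL' i hi)
    omega
  have hr2 : ∀ x ∈ A', lo s' ≤ x ∧ x ≤ hi s' := by
    intro x hx
    obtain ⟨i, hi, e⟩ := (hA' x).1 hx
    have := (hL i hi).rng h
    omega
  have hs1 : s ≠ s' ∨ (∀ x ∈ A, ∀ x' ∈ A', x < x') ∨ (∀ x ∈ A, ∀ x' ∈ A', x' < x) := by
    rcases hsep with h1 | h1 | h1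
    · exact Or.inl h1
    · right; left
      intro x hx x' hx'
      obtain ⟨i, hi, e⟩ := (hA x).1 hx
      obtain ⟨j, hj, e'⟩ := (hA' x').1 hx'
      have := h1 i hi j hj
      omega
    · right; right
      intro x hx x' hx'
      obtain ⟨i, hi, e⟩ := (hA x).1 hx
      obtain ⟨j, hj, e'⟩ := (hA' x').1 hx'
      have := h1 i hi j hj
      omega
  obtain ⟨l, r, l', r', g1, g2, g3, g4, g5, g6, g7⟩ := h.pgs.pair (s := s) (s' := s') (hA0 hNpos)
    (hA0' hNpos) hr1 hr2 hs1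
  have hyr : ∀ i < N, l ≤ y i ∧ y i ≤ r ∧ l ≤ q i ∧ q i ≤ r := by
    intro i hi
    have e1 := g1 _ ((hA _).2 ⟨i, hi, Or.inl rfl⟩)
    have e2 := g1 _ ((hA _).2 ⟨i, hi, Or.inr (Or.inl rfl)⟩)
    exact ⟨e1.1, e1.2, e2.1, e2.2⟩
  refine Gm1.of (by omega) (s := s) (l := l) (r := r) ?_ fun x h1 h2 => ?_
  swap
  · have h3 := g5 (x, 0) (by rw [mem_Reg]; simp only; omega)
    rw [mem_Reg] at h3
    exact ⟨h3.1, h3.2.1⟩
  refine pA_ground hw hN g3 g4 g7 (by omega) (by omega) y q z hyr hmon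
    (fun i hi => g2 _ ((hA' _).2 ⟨i, hi, Or.inl rfl⟩)) hzm (fun i => JJ B (L i ∪ L' i))
    (fun i _ => h.JJ_fin _) ?_ ?_ (fun i _ c hc => h.JJ_page _ (g5 c hc))
    (fun i _ c hc => h.JJ_page _ (g6 c hc)) G h.finG h.conG (fun c hc => h.pG _ c (g5 c hc))
    (fun c hc => h.pG _ c (g6 c hc)) (fun i _ => h.JJ_G _) ?_
  · intro i hi
    have e0 := hyr i hi
    have c1 := h.link (hL i hi)
    have c2 := (h.glink (hL' i hi)).1
    have c3 := UU_conn g3 (by omega) e0.1 e0.2.1 e0.2.2.1 e0.2.2.2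
    have c4 := vc_union c1 c3 (c := P s (y i, 0)) (Or.inr (Or.inl rfl)) ⟨_, UU_left (by omega), rfl⟩
    have c5 := vc_union c4 c2 (c := P s (q i, 0)) (Or.inr ⟨_, UU_right (by omega), rfl⟩)
      (Or.inr rfl)
    refine vconn_congr c5 (fun u => ?_)
    rw [mem_blob]
    constructor
    · rintro (((⟨k, hk, g⟩ | g | g) | g) | (⟨k, hk, g⟩ | g))
      · exact Or.inl ⟨k, Finset.mem_union_left _ hk, g⟩
      · exact Or.inr (Or.inl ⟨_, UU_left (by omega), g.symm⟩)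
      · exact Or.inr (Or.inr ⟨_, rfl, g.symm⟩)
      · exact Or.inr (Or.inl g)
      · exact Or.inl ⟨k, Finset.mem_union_right _ hk, g⟩
      · exact Or.inr (Or.inl ⟨_, UU_right (by omega), g.symm⟩)
    · rintro (⟨k, hk, g⟩ | g | ⟨c, hc, g⟩)
      · rcases Finset.mem_union.1 hk with hk | hk
        · exact Or.inl (Or.inl (Or.inl ⟨k, hk, g⟩))
        · exact Or.inr (Or.inl ⟨k, hk, g⟩)
      · exact Or.inl (Or.inr g)
      · rw [mem_singleton_iff] at hc
        rw [hc] at g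
        exact Or.inl (Or.inl (Or.inr (Or.inr g.symm)))
  · intro i hi j hj hij
    refine h.JJ_dis ?_
    have e1 := hLL i hi j hj hij
    have e2 := hLL j hj i hi (Ne.symm hij)
    rw [Finset.disjoint_union_left, Finset.disjoint_union_right, Finset.disjoint_union_right]
    exact ⟨⟨e1.1, e1.2.1⟩, e2.2.1.symm, e1.2.2⟩
  · intro i hi
    refine (h.glink (hL' i hi)).2.1.mono (subset_refl _) ?_ (subset_refl _)
    rintro u ⟨k, hk, g⟩
    rw [mem_blob]
    exact Or.inl ⟨k, Finset.mem_union_right _ hk, g⟩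

end

end EN
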