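import Pool.Agent.EN.Rlz

/-!
# Realized systems: outcome (B), nests, bands, `K_t`
-/

open Set
open scoped Matroid

namespace EN

open BIC Gad

variable {α V : Type*} {M : Matroid α} {S : Set α} {ends : α → Sym2 V}

section

variable {σ κ : Type*} {P : σ → ℕ × ℕ → V} {lo hi : σ → ℕ} {n : ℕ} {G : Set V} {B : κ → Set V}
  {port : σ → ℕ → κ → Prop} {ct : κ → κ → Prop} {gr : κ → Prop}

lemma Rlz.lcon (h : Rlz S ends P lo hi n G B port ct gr) {s s' : σ} {x x' : ℕ} {L : Finset κ}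
    (hL : Lk port ct s x s' x' L) : VConn S ends (JJ B L) ∧ Lnk S ends (JJ B L) {P s (x, 0)} ∧
      Lnk S ends (JJ B L) {P s' (x', 0)} := by
  obtain ⟨k, k', h1, h2, h3, h4⟩ := hL
  have g1 := (h.prt _ _ _ h1).2.2
  have g2 := (h.prt _ _ _ h2).2.2
  have c3 : VConn S ends (B k ∪ B k') := by
    rcases h3 with h3 | h3
    · subst h3
      rw [union_self]
      exact h.con k
    · exact vc_lnk (h.con k) (h.con k') (h.cnt k k' h3)
  refine ⟨vconn_congr c3 (fun v => ?_), g1.mono (subset_refl _) ?_ (subset_refl _),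
    g2.mono (subset_refl _) ?_ (subset_refl _)⟩
  · constructor
    · rintro (g | g)
      · exact ⟨k, (h4 k).2 (Or.inl rfl), g⟩
      · exact ⟨k', (h4 k').2 (Or.inr rfl), g⟩
    · rintro ⟨a, ha, g⟩
      rcases (h4 a).1 ha with e | e
      · rw [e] at g; exact Or.inl g
      · rw [e] at g; exact Or.inr g
  · exact fun v hv => ⟨k, (h4 k).2 (Or.inl rfl), hv⟩
  · exact fun v hv => ⟨k', (h4 k').2 (Or.inr rfl), hv⟩

/-- **(B) in a realized system.** -/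
theorem Rlz.gB (h : Rlz S ends P lo hi n G B port ct gr) {w N : ℕ}
    (hw : 1 ≤ w) (hN : N = (2 * w) * (2 * w)) (hn : 2 * w + 1 ≤ n) (s₀ s₁ s₂ : σ)
    (y z c d : ℕ → ℕ) (L L' : ℕ → Finset κ)
    (hL : ∀ i < N + 2, Lk port ct s₀ (y i) s₁ (z i) (L i))
    (hL' : ∀ i < N + 2, Lk port ct s₀ (c i) s₂ (d i) (L' i))
    (hyc : (∀ i j, i < j → j < N + 2 → max (y i) (c i) < min (y j) (c j)) ∨
      (∀ i j, i < j → j < N + 2 → max (y j) (c j) < min (y i) (c i)))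
    (hzm : Mon (N + 2) z) (hdm : Mon (N + 2) d)
    (hyz : Sepd (N + 2) s₀ y s₁ z) (hyd : Sepd (N + 2) s₀ y s₂ d)
    (hzd : Sepd (N + 2) s₁ z s₂ d)
    (hLL : ∀ i < N + 2, ∀ j < N + 2, i ≠ j → Disjoint (L i) (L j) ∧ Disjoint (L i) (L' j) ∧
      Disjoint (L' i) (L' j)) : Gm1 S ends P lo hi n (2 * w) := by
  refine EN.gB hw hN h.pgs hn (fun i => JJ B (L i)) (fun i => JJ B (L' i))
    (fun i _ => h.JJ_fin _) (fun i hi => (h.lcon (hL i hi)).1) (fun i _ => h.JJ_fin _)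
    (fun i hi => (h.lcon (hL' i hi)).1) ?_ ?_ s₀ s₁ s₂ y z c d
    (fun i hi => ⟨((hL i hi).rng h).1, ((hL i hi).rng h).2.1⟩)
    (fun i hi => ⟨((hL' i hi).rng h).1, ((hL' i hi).rng h).2.1⟩)
    (fun i hi => ⟨((hL i hi).rng h).2.2.1, ((hL i hi).rng h).2.2.2⟩)
    (fun i hi => ⟨((hL' i hi).rng h).2.2.1, ((hL' i hi).rng h).2.2.2⟩) hyc hzm hdm
    (fun i hi => (h.lcon (hL i hi)).2.1) (fun i hi => (h.lcon (hL i hi)).2.2)
    (fun i hi => (h.lcon (hL' i hi)).2.1) (fun i hi => (h.lcon (hL' i hi)).2.2) hyz hyd hzd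
  · intro i hi j hj hij
    have e1 := hLL i hi j hj hij
    have e2 := hLL j hj i hi (Ne.symm hij)
    rw [Set.disjoint_union_left, Set.disjoint_union_right, Set.disjoint_union_right]
    exact ⟨⟨h.JJ_dis e1.1, h.JJ_dis e1.2.1⟩, (h.JJ_dis e2.2.1).symm, h.JJ_dis e1.2.2⟩
  · rintro i _ s c hc (hx | hx)
    · exact h.JJ_page _ hc hx
    · exact h.JJ_page _ hc hx

/-- Nests in series in a realized system. -/
lemma Rlz.nst (h : Rlz S ends P lo hi n G B port ct gr) {w N : ℕ} (hn : w + 2 ≤ n) (s : σ)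
    (a b : ℕ → ℕ → ℕ) (L : ℕ → ℕ → Finset κ)
    (hL : ∀ t i, 1 ≤ t → t ≤ w + 1 → i < N → Lk port ct s (a t i) s (b t i) (L t i))
    (ham : ∀ i < N, ∀ t, 1 ≤ t → t ≤ w → a (t + 1) i < a t i)
    (hbm : ∀ i < N, ∀ t, 1 ≤ t → t ≤ w → b t i < b (t + 1) i)
    (hab : ∀ i < N, a 1 i < b 1 i)
    (hser : ∀ i, i + 1 < N → b (w + 1) i < a (w + 1) (i + 1))
    (hLL : ∀ t i t' i', 1 ≤ t → t ≤ w + 1 → i < N → 1 ≤ t' → t' ≤ w + 1 → i' < N →
      (t, i) ≠ (t', i') → Disjoint (L t i) (L t' i')) :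
    Nst S ends (P s) (lo s) (hi s) n w N a b (fun t i => JJ B (L t i)) where
  page := h.pgs.page s
  dep := hn
  la := fun i hi => ((hL _ i (by omega) (le_refl _) hi).rng h).1
  rb := fun i hi => ((hL _ i (by omega) (le_refl _) hi).rng h).2.2.2
  am := ham
  bm := hbm
  ab := hab
  ser := hser
  finJ := fun t i _ _ _ => h.JJ_fin _
  conJ := fun t i h1 h2 h3 => h.link (hL t i h1 h2 h3)
  dJJ := fun t i t' i' h1 h2 h3 h1' h2' h3' hne => h.JJ_dis (hLL t i t' i' h1 h2 h3 h1' h2' h3' hne)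
  pJ := fun t i _ _ _ c hc => h.JJ_page _ hc

/-- Crossing bands in series in a realized system. -/
lemma Rlz.bnd (h : Rlz S ends P lo hi n G B port ct gr) {m N : ℕ} (hn : m ≤ n) (s : σ)
    (u v : ℕ → ℕ → ℕ) (t : ℕ → ℕ) (L : ℕ → ℕ → Finset κ)
    (hL : ∀ k g, 1 ≤ k → k ≤ m → g < 2 * N → Lk port ct s (u k g) s (v k g) (L k g))
    (h0 : lo s ≤ t 0) (h1 : t N ≤ hi s)
    (hum : ∀ g < 2 * N, ∀ k, 1 ≤ k → k < m → u k g < u (k + 1) g)
    (hvm : ∀ g < 2 * N, ∀ k, 1 ≤ k → k < m → v k g < v (k + 1) g)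
    (huv : ∀ g < 2 * N, u m g < v 1 g) (htu : ∀ i < N, t i < u 1 (2 * i))
    (hvu : ∀ i < N, v m (2 * i) < u 1 (2 * i + 1)) (hvt : ∀ i < N, v m (2 * i + 1) < t (i + 1))
    (hLL : ∀ k g k' g', 1 ≤ k → k ≤ m → g < 2 * N → 1 ≤ k' → k' ≤ m → g' < 2 * N →
      (k, g) ≠ (k', g') → Disjoint (L k g) (L k' g')) :
    Bnd S ends (P s) (lo s) (hi s) n m N u v t (fun k g => JJ B (L k g)) where
  page := h.pgs.page s
  dep := hn
  lt0 := h0
  rt0 := h1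
  um := hum
  vm' := hvm
  uv := huv
  tu := htu
  vu := hvu
  vt := hvt
  finJ := fun k g _ _ _ => h.JJ_fin _
  conJ := fun k g h1 h2 h3 => h.link (hL k g h1 h2 h3)
  dJJ := fun t i t' i' h1 h2 h3 h1' h2' h3' hne => h.JJ_dis (hLL t i t' i' h1 h2 h3 h1' h2' h3' hne)
  pJ := fun t i _ _ _ c hc => h.JJ_page _ hc

/-- Data of nests in series. -/
structure NstL {σ κ : Type*} (port : σ → ℕ → κ → Prop) (ct : κ → κ → Prop) (s : σ) (w N : ℕ)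
    (a b : ℕ → ℕ → ℕ) (L : ℕ → ℕ → Finset κ) : Prop where
  lk : ∀ t i, 1 ≤ t → t ≤ w + 1 → i < N → Lk port ct s (a t i) s (b t i) (L t i)
  am : ∀ i < N, ∀ t, 1 ≤ t → t ≤ w → a (t + 1) i < a t i
  bm : ∀ i < N, ∀ t, 1 ≤ t → t ≤ w → b t i < b (t + 1) i
  ab : ∀ i < N, a 1 i < b 1 i
  ser : ∀ i, i + 1 < N → b (w + 1) i < a (w + 1) (i + 1)
  dis : ∀ t i t' i', 1 ≤ t → t ≤ w + 1 → i < N → 1 ≤ t' → t' ≤ w + 1 → i' < N →
      (t, i) ≠ (t', i') → Disjoint (L t i) (L t' i')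

lemma NstL.nst {w N : ℕ} {s : σ} {a b : ℕ → ℕ → ℕ} {L : ℕ → ℕ → Finset κ}
    (hn : NstL port ct s w N a b L) (h : Rlz S ends P lo hi n G B port ct gr) (hd : w + 2 ≤ n) :
    Nst S ends (P s) (lo s) (hi s) n w N a b (fun t i => JJ B (L t i)) :=
  h.nst hd s a b L hn.lk hn.am hn.bm hn.ab hn.ser hn.dis

/-- **(PS)**, ground links in the pockets. -/
theorem Rlz.psG (h : Rlz S ends P lo hi n G B port ct gr) {w N : ℕ}
    (hw : 1 ≤ w) (hN : N = (2 * w) * (2 * w)) (hd : 4 * w + 2 ≤ n) {s : σ} {a b : ℕ → ℕ → ℕ}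
    {L : ℕ → ℕ → Finset κ} (hn : NstL port ct s (2 * w) N a b L) (x : ℕ → ℕ)
    (hx : ∀ i < N, a 1 i < x i ∧ x i < b 1 i) (K : ℕ → Finset κ)
    (hK : ∀ i < N, Gl port ct gr s (x i) (K i))
    (hKK : ∀ i < N, ∀ j < N, i ≠ j → Disjoint (K i) (K j))
    (hKL : ∀ i < N, ∀ t j, 1 ≤ t → t ≤ 2 * w → j < N → Disjoint (K i) (L t j)) : Gm1 S ends P lo hi n (2 * w) := by
  refine ⟨s, ?_⟩
  exact ps_ground hw hN (hn.nst h (by omega)) hd x hx (fun i => JJ B (K i)) (fun i _ => h.JJ_fin _)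
    (fun i hi => (h.glink (hK i hi)).1) (fun i hi j hj hij => h.JJ_dis (hKK i hi j hj hij))
    (fun i _ c hc => h.JJ_page _ hc) (fun i hi t j h1 h2 h3 => h.JJ_dis (hKL i hi t j h1 h2 h3))
    G h.finG h.conG (fun c hc => h.pG _ c hc) (fun i _ => h.JJ_G _) (fun t j _ _ _ => h.JJ_G _)
    (fun i hi => (h.glink (hK i hi)).2.1.mono (subset_refl _) subset_union_left (subset_refl _))

/-- **(PSJ)**, links from the pockets to another shore or interval. -/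
theorem Rlz.psP (h : Rlz S ends P lo hi n G B port ct gr) {w N : ℕ}
    (hw : 1 ≤ w) (hN : N = (2 * w) * (2 * w)) (hd : 4 * w + 2 ≤ n) {s s' : σ} (hs : s ≠ s')
    {a b : ℕ → ℕ → ℕ} {L : ℕ → ℕ → Finset κ} (hn : NstL port ct s (2 * w) N a b L) (x z : ℕ → ℕ)
    (hx : ∀ i < N, a 1 i < x i ∧ x i < b 1 i) (K : ℕ → Finset κ)
    (hK : ∀ i < N, Lk port ct s (x i) s' (z i) (K i))
    (hz : ∀ i < N, ∀ j < N, z i = z j → i = j)
    (hKK : ∀ i < N, ∀ j < N, i ≠ j → Disjoint (K i) (K j))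
    (hKL : ∀ i < N, ∀ t j, 1 ≤ t → t ≤ 2 * w → j < N → Disjoint (K i) (L t j)) : Gm1 S ends P lo hi n (2 * w) := by
  refine ⟨s, ?_⟩
  exact psj_page hw hN (hn.nst h (by omega)) hd x hx (h.pgs.page s') (by omega)
    (h.pgs.dis s s' hs) z
    (fun i hi => ⟨((hK i hi).rng h).2.2.1, ((hK i hi).rng h).2.2.2⟩) hz (fun i => JJ B (K i))
    (fun i _ => h.JJ_fin _) (fun i hi => h.link (hK i hi))
    (fun i hi j hj hij => h.JJ_dis (hKK i hi j hj hij)) (fun i _ c hc => h.JJ_page _ hc)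
    (fun i _ c hc => h.JJ_page _ hc)
    (fun i hi t j h1 h2 h3 => h.JJ_dis (hKL i hi t j h1 h2 h3)) (fun t j _ _ _ c hc => h.JJ_page _ hc)

/-- **(PSJ)**, links from the pockets to the next gap. -/
theorem Rlz.psR (h : Rlz S ends P lo hi n G B port ct gr) {w N : ℕ}
    (hw : 1 ≤ w) (hN : N = (2 * w) * (2 * w)) (hd : 4 * w + 2 ≤ n) {s : σ}
    {a b : ℕ → ℕ → ℕ} {L : ℕ → ℕ → Finset κ} (hn : NstL port ct s (2 * w) N a b L) (x f : ℕ → ℕ)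
    (hx : ∀ i < N, a 1 i < x i ∧ x i < b 1 i) (hf : ∀ i < N, b (2 * w + 1) i < f i)
    (hf' : ∀ i, i + 1 < N → f i < a (2 * w + 1) (i + 1)) (K : ℕ → Finset κ)
    (hK : ∀ i < N, Lk port ct s (x i) s (f i) (K i))
    (hKK : ∀ i < N, ∀ j < N, i ≠ j → Disjoint (K i) (K j))
    (hKL : ∀ i < N, ∀ t j, 1 ≤ t → t ≤ 2 * w + 1 → j < N → Disjoint (K i) (L t j)) :
    Gm1 S ends P lo hi n (2 * w) := by
  refine ⟨s, ?_⟩
  exact psj hw hN (hn.nst h (by omega)) hd x f hx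
    (fun i hi => ⟨hf i hi, ((hK i hi).rng h).2.2.2⟩) hf' (fun i => JJ B (K i))
    (fun i _ => h.JJ_fin _) (fun i hi => h.link (hK i hi))
    (fun i hi j hj hij => h.JJ_dis (hKK i hi j hj hij)) (fun i _ c hc => h.JJ_page _ hc)
    (fun i hi t j h1 h2 h3 => h.JJ_dis (hKL i hi t j h1 h2 h3))

/-- **(PSJ)**, links from the pockets to the previous gap. -/
theorem Rlz.psL (h : Rlz S ends P lo hi n G B port ct gr) {w N : ℕ}
    (hw : 1 ≤ w) (hN : N = (2 * w) * (2 * w)) (hd : 4 * w + 2 ≤ n) {s : σ}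
    {a b : ℕ → ℕ → ℕ} {L : ℕ → ℕ → Finset κ} (hn : NstL port ct s (2 * w) N a b L) (x f : ℕ → ℕ)
    (hx : ∀ i < N, a 1 i < x i ∧ x i < b 1 i) (hf : ∀ i < N, f i < a (2 * w + 1) i)
    (hf' : ∀ i, i + 1 < N → b (2 * w + 1) i < f (i + 1)) (K : ℕ → Finset κ)
    (hK : ∀ i < N, Lk port ct s (x i) s (f i) (K i))
    (hKK : ∀ i < N, ∀ j < N, i ≠ j → Disjoint (K i) (K j))
    (hKL : ∀ i < N, ∀ t j, 1 ≤ t → t ≤ 2 * w + 1 → j < N → Disjoint (K i) (L t j)) :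
    Gm1 S ends P lo hi n (2 * w) := by
  refine ⟨s, ?_⟩
  exact psj' hw hN (hn.nst h (by omega)) hd x f hx
    (fun i hi => ⟨((hK i hi).rng h).2.2.1, hf i hi⟩) hf' (fun i => JJ B (K i))
    (fun i _ => h.JJ_fin _) (fun i hi => h.link (hK i hi))
    (fun i hi j hj hij => h.JJ_dis (hKK i hi j hj hij)) (fun i _ c hc => h.JJ_page _ hc)
    (fun i hi t j h1 h2 h3 => h.JJ_dis (hKL i hi t j h1 h2 h3))

/-- **(PSC)**, crossing links in the pockets. -/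
theorem Rlz.psC (h : Rlz S ends P lo hi n G B port ct gr) {w N : ℕ}
    (hw : 1 ≤ w) (hN : N = (2 * w) * (2 * w)) (hd : 4 * w + 3 ≤ n) {s : σ}
    {a b : ℕ → ℕ → ℕ} {L : ℕ → ℕ → Finset κ} (hn : NstL port ct s (2 * w) N a b L)
    (y v z v' : ℕ → ℕ)
    (hx : ∀ i < N, a 1 i < y i ∧ y i < v i ∧ v i < z i ∧ z i < v' i ∧ v' i < b 1 i)
    (K K' : ℕ → Finset κ) (hK : ∀ i < N, Lk port ct s (v i) s (v' i) (K i))
    (hK' : ∀ i < N, Lk port ct s (y i) s (z i) (K' i))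
    (hKK : ∀ i < N, ∀ j < N, i ≠ j → Disjoint (K i) (K j))
    (hKK' : ∀ i < N, ∀ j < N, Disjoint (K i) (K' j))
    (hKL : ∀ i < N, ∀ t j, 1 ≤ t → t ≤ 2 * w → j < N → Disjoint (K i) (L t j))
    (hKL' : ∀ i < N, ∀ t j, 1 ≤ t → t ≤ 2 * w → j < N → Disjoint (K' i) (L t j)) :
    Gm1 S ends P lo hi n (2 * w) := by
  refine ⟨s, ?_⟩
  exact psc hw hN (hn.nst h (by omega)) hd y v z v' hx (fun i => JJ B (K i)) (fun i => JJ B (K' i))
    (fun i _ => h.JJ_fin _) (fun i _ => h.JJ_fin _) (fun i hi => h.link (hK i hi))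
    (fun i hi => h.link (hK' i hi)) (fun i hi j hj hij => h.JJ_dis (hKK i hi j hj hij))
    (fun i hi j hj => h.JJ_dis (hKK' i hi j hj)) (fun i _ c hc => h.JJ_page _ hc)
    (fun i _ c hc => h.JJ_page _ hc)
    (fun i hi t j h1 h2 h3 => h.JJ_dis (hKL i hi t j h1 h2 h3))
    (fun i hi t j h1 h2 h3 => h.JJ_dis (hKL' i hi t j h1 h2 h3))

/-- **(MS)**, crossing bands in series. -/
theorem Rlz.ms (h : Rlz S ends P lo hi n G B port ct gr) {w N m : ℕ}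
    (hw : 1 ≤ w) (hN : N = (2 * w) * (2 * w)) (hm' : 2 * w + 1 ≤ m) (hn : m + 1 + 2 * w ≤ n)
    (s : σ) (u v : ℕ → ℕ → ℕ) (t : ℕ → ℕ) (L : ℕ → ℕ → Finset κ)
    (hL : ∀ k g, 1 ≤ k → k ≤ m → g < 2 * N → Lk port ct s (u k g) s (v k g) (L k g))
    (h0 : lo s ≤ t 0) (h1 : t N ≤ hi s)
    (hum : ∀ g < 2 * N, ∀ k, 1 ≤ k → k < m → u k g < u (k + 1) g)
    (hvm : ∀ g < 2 * N, ∀ k, 1 ≤ k → k < m → v k g < v (k + 1) g)
    (huv : ∀ g < 2 * N, u m g < v 1 g) (htu : ∀ i < N, t i < u 1 (2 * i))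
    (hvu : ∀ i < N, v m (2 * i) < u 1 (2 * i + 1)) (hvt : ∀ i < N, v m (2 * i + 1) < t (i + 1))
    (hLL : ∀ k g k' g', 1 ≤ k → k ≤ m → g < 2 * N → 1 ≤ k' → k' ≤ m → g' < 2 * N →
      (k, g) ≠ (k', g') → Disjoint (L k g) (L k' g')) : Gm1 S ends P lo hi n (2 * w) := by
  refine ⟨s, ?_⟩
  exact EN.ms hw hN hm' (h.bnd (by omega) s u v t L hL h0 h1 hum hvm huv htu hvu hvt hLL) hn

end

end EN
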