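import Pool.Agent.EN.Pocket

/-!
# Selection: disjoint connectors, monotone positions, near or separated

`select`: from many objects (each a tuple of ports, every port anchored at a port which is different
for different objects) one gets `N` objects with different connectors at different times, every
coordinate strictly monotone, every two coordinates near or separated, constant unary colour.
-/

namespace RamP

/-- A digraph with out-degrees at most `d` on at least `(2 d + 1) m` vertices contains `m`
independent vertices. -/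
theorem indep_out {ι : Type*} (d : ℕ) (r : ι → ι → Prop) (m : ℕ) :
    ∀ B : Finset ι, (∀ i ∈ B, {j | j ∈ B ∧ r i j}.ncard ≤ d) → (2 * d + 1) * m ≤ B.card →
      ∃ C ⊆ B, C.card = m ∧ ∀ i ∈ C, ∀ j ∈ C, i ≠ j → ¬ r i j := by
  classical
  induction m with
  | zero =>
    intro B _ _
    exact ⟨∅, Finset.empty_subset _, rfl, by simp⟩
  | succ m ih =>
    intro B hd hB
    have hout : ∀ i ∈ B, (B.filter (fun j => r i j)).card ≤ d := by
      intro i hi
      have h1 := hd i hi
      rw [← Set.ncard_coe_finset]
      refine le_trans (le_of_eq (congrArg Set.ncard ?_)) h1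
      ext j
      simp
    have hBpos : 0 < B.card := by
      have : 0 < (2 * d + 1) * (m + 1) := Nat.mul_pos (by omega) (by omega)
      omega
    -- a vertex of small in-degree
    obtain ⟨j, hj, hjd⟩ : ∃ j ∈ B, (B.filter (fun i => r i j)).card ≤ d := by
      by_contra hcon
      push Not at hcon
      have h1 : ∑ j ∈ B, d < ∑ j ∈ B, (B.filter (fun i => r i j)).card :=
        Finset.sum_lt_sum_of_nonempty (Finset.card_pos.1 hBpos) hcon
      have h2 : ∑ j ∈ B, (B.filter (fun i => r i j)).card =
          ∑ i ∈ B, (B.filter (fun j => r i j)).card := by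
        simp only [Finset.card_filter]
        exact Finset.sum_comm
      have h3 : ∑ i ∈ B, (B.filter (fun j => r i j)).card ≤ ∑ i ∈ B, d :=
        Finset.sum_le_sum hout
      omega
    set B' := B.filter (fun i => i ≠ j ∧ ¬ r i j ∧ ¬ r j i) with hB'
    have hcov : B ⊆ B' ∪ ({j} ∪ (B.filter (fun i => r i j) ∪ B.filter (fun i => r j i))) := by
      intro i hi
      simp only [hB', Finset.mem_union, Finset.mem_filter, Finset.mem_singleton]
      by_cases h1 : i = j
      · exact Or.inr (Or.inl h1)
      · by_cases h2 : r i j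
        · exact Or.inr (Or.inr (Or.inl ⟨hi, h2⟩))
        · by_cases h3 : r j i
          · exact Or.inr (Or.inr (Or.inr ⟨hi, h3⟩))
          · exact Or.inl ⟨hi, h1, h2, h3⟩
    have h1 := Finset.card_le_card hcov
    have h2 := Finset.card_union_le B'
      ({j} ∪ (B.filter (fun i => r i j) ∪ B.filter (fun i => r j i)))
    have h3 := Finset.card_union_le {j} (B.filter (fun i => r i j) ∪ B.filter (fun i => r j i))
    have h4 := Finset.card_union_le (B.filter (fun i => r i j)) (B.filter (fun i => r j i))
    have h5 := hout j hj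
    rw [Finset.card_singleton] at h3
    have h6 : (2 * d + 1) * (m + 1) = (2 * d + 1) * m + (2 * d + 1) := by ring
    obtain ⟨C, hC, hCm, hCi⟩ := ih B' (by
      intro i hi
      refine le_trans (Set.ncard_le_ncard ?_ ?_) (hd i (Finset.mem_filter.1 hi).1)
      · intro x hx
        exact ⟨(Finset.mem_filter.1 hx.1).1, hx.2⟩
      · exact B.finite_toSet.subset (fun x hx => hx.1)) (by omega)
    have hjC : j ∉ C := fun h => (Finset.mem_filter.1 (hC h)).2.1 rfl
    refine ⟨insert j C, ?_, ?_, ?_⟩
    · refine Finset.insert_subset hj (hC.trans (Finset.filter_subset _ _))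
    · rw [Finset.card_insert_of_notMem hjC, hCm]
    · intro a ha b hb hab
      rw [Finset.mem_insert] at ha hb
      rcases ha with rfl | ha
      · rcases hb with rfl | hb
        · exact absurd rfl hab
        · exact (Finset.mem_filter.1 (hC hb)).2.2.2
      · rcases hb with rfl | hb
        · exact (Finset.mem_filter.1 (hC ha)).2.2.1
        · exact hCi a ha b hb hab

end RamP

namespace EN

namespace Sys

variable {κ : Type*} {Y : Sys κ}

/-- Few ports are at or in contact with a given connector. -/
lemma few_ports {D : ℕ} (hY : Y.Ax D) (k : κ) (A : Finset ℕ)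
    (hA : ∀ w ∈ A, w < Y.L ∧ (Y.own w = k ∨ Y.ct (Y.own w) k)) : A.card ≤ D + D * D := by
  classical
  have h1 : A ⊆ A.filter (fun w => Y.own w = k) ∪ A.filter (fun w => Y.ct (Y.own w) k) := by
    intro w hw
    rw [Finset.mem_union, Finset.mem_filter, Finset.mem_filter]
    rcases (hA w hw).2 with h | h
    · exact Or.inl ⟨hw, h⟩
    · exact Or.inr ⟨hw, h⟩
  have h2 : (A.filter (fun w => Y.own w = k)).card ≤ D := by
    refine hY.a5 k _ ?_
    intro x hx
    obtain ⟨h3, h4⟩ := Finset.mem_filter.1 hx
    exact ⟨(hA x h3).1, h4⟩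
  have h3 : (A.filter (fun w => Y.ct (Y.own w) k)).card ≤ D * D := by
    set F := A.filter (fun w => Y.ct (Y.own w) k) with hF
    have h4 : F.card ≤ D * (F.image Y.own).card := by
      refine Finset.card_le_mul_card_image _ D ?_
      intro c _
      refine hY.a5 c _ ?_
      intro x hx
      obtain ⟨h5, h6⟩ := Finset.mem_filter.1 hx
      exact ⟨(hA x (Finset.mem_filter.1 h5).1).1, h6⟩
    have h5 : (F.image Y.own).card ≤ D := by
      refine hY.a6 k _ ?_
      intro c hc
      obtain ⟨w, hw, rfl⟩ := Finset.mem_image.1 hc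
      exact hY.symm _ _ (Finset.mem_filter.1 hw).2
    exact h4.trans (Nat.mul_le_mul_left _ h5)
  exact (Finset.card_le_card h1).trans ((Finset.card_union_le _ _).trans (by omega))

/-- **Selection.** -/
theorem select (D r N : ℕ) (U : Type) [Fintype U] :
    ∃ n : ℕ, ∀ {κ : Type*} (Y : Sys κ), Y.Ax D → ∀ (z : Fin r → ℕ → ℕ) (al : Fin r → Fin r)
    (u : ℕ → U), (∀ a, ∀ j < n, z a j < Y.L) →
    (∀ a, ∀ j < n, Y.own (z a j) = Y.own (z (al a) j) ∨
      Y.ct (Y.own (z (al a) j)) (Y.own (z a j))) →
    (∀ a, ∀ i < n, ∀ j < n, i ≠ j → z (al a) i ≠ z (al a) j) →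
    ∃ f : ℕ → ℕ, (∀ i < N, f i < n) ∧ (∀ i j, i < j → j < N → f i < f j) ∧
      (∃ c, ∀ i < N, u (f i) = c) ∧
      (∀ i < N, ∀ j < N, i ≠ j → ∀ a b, Y.own (z a (f i)) ≠ Y.own (z b (f j))) ∧
      (∀ a, RamP.Mon N (fun i => z a (f i))) ∧
      ∀ a b, RamP.Near N (fun i => z a (f i)) (fun i => z b (f i)) ∨
        RamP.Sep N (fun i => z a (f i)) (fun i => z b (f i)) := by
  classical
  obtain ⟨n₁, hn₁⟩ := RamP.homog (Fin r) N U
  set d := r * r * (D + D * D) with hd
  refine ⟨(2 * d + 1) * n₁, ?_⟩
  intro κ Y hY z al u hzL hal hinj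
  set n := (2 * d + 1) * n₁ with hn
  -- few conflicts
  obtain ⟨C, hCs, hCc, hCi⟩ := RamP.indep_out d
    (fun i j => i ≠ j ∧ ∃ a b, Y.own (z a i) = Y.own (z b j)) n₁ (Finset.range n) (by
      intro i hi
      have hi' := Finset.mem_range.1 hi
      have h1 : {j | j ∈ Finset.range n ∧ (i ≠ j ∧ ∃ a b, Y.own (z a i) = Y.own (z b j))} ⊆
          ((Finset.univ : Finset (Fin r × Fin r)).biUnion (fun p => (Finset.range n).filter
            (fun j => Y.own (z p.1 i) = Y.own (z p.2 j))) : Set ℕ) := by
        rintro j ⟨hj, _, a, b, hab⟩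
        rw [Finset.mem_coe, Finset.mem_biUnion]
        exact ⟨(a, b), Finset.mem_univ _, Finset.mem_filter.2 ⟨hj, hab⟩⟩
      refine (Set.ncard_le_ncard h1 (Finset.finite_toSet _)).trans ?_
      rw [Set.ncard_coe_finset]
      refine Finset.card_biUnion_le.trans ?_
      refine (Finset.sum_le_card_nsmul _ _ (D + D * D) ?_).trans ?_
      · rintro ⟨a, b⟩ _
        have h2 : ((Finset.range n).filter (fun j => Y.own (z a i) = Y.own (z b j))).card =
            (((Finset.range n).filter (fun j => Y.own (z a i) = Y.own (z b j))).image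
              (fun j => z (al b) j)).card := by
          rw [Finset.card_image_of_injOn]
          intro j hj j' hj' h
          by_contra hne
          have g1 := Finset.mem_range.1 (Finset.mem_filter.1 (Finset.mem_coe.1 hj)).1
          have g2 := Finset.mem_range.1 (Finset.mem_filter.1 (Finset.mem_coe.1 hj')).1
          exact hinj b j g1 j' g2 hne h
        rw [h2]
        refine few_ports hY (Y.own (z a i)) _ ?_
        intro w hw
        obtain ⟨j, hj, rfl⟩ := Finset.mem_image.1 hw
        obtain ⟨g1, g2⟩ := Finset.mem_filter.1 hj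
        have g3 := Finset.mem_range.1 g1
        refine ⟨hzL _ _ g3, ?_⟩
        rcases hal b j g3 with g | g
        · exact Or.inl (g2.trans g).symm
        · rw [g2]; exact Or.inr g
      · rw [smul_eq_mul, Finset.card_univ, Fintype.card_prod, Fintype.card_fin])
    (by rw [Finset.card_range])
  -- enumerate
  set e := C.orderEmbOfFin hCc with he
  set g : ℕ → ℕ := fun i => if h : i < n₁ then e ⟨i, h⟩ else 0 with hg
  have hgC : ∀ i < n₁, g i ∈ C := by
    intro i hi
    simp only [hg, dif_pos hi]
    exact Finset.orderEmbOfFin_mem C hCc ⟨i, hi⟩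
  have hglt : ∀ i j, i < j → j < n₁ → g i < g j := by
    intro i j hij hj
    simp only [hg, dif_pos hj, dif_pos (show i < n₁ by omega)]
    exact e.strictMono (by simpa using hij)
  have hgn : ∀ i < n₁, g i < n := fun i hi => Finset.mem_range.1 (hCs (hgC i hi))
  have hown : ∀ i < n₁, ∀ j < n₁, i ≠ j → ∀ a b, Y.own (z a (g i)) ≠ Y.own (z b (g j)) := by
    intro i hi j hj hij a b hab
    have hne : g i ≠ g j := by
      rcases Nat.lt_or_ge i j with h | h
      · exact (hglt i j h hj).ne
      · exact (hglt j i (by omega) hi).ne'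
    exact hCi _ (hgC i hi) _ (hgC j hj) hne ⟨hne, a, b, hab⟩
  obtain ⟨f, hf1, hf2, hf3, hf4, hf5⟩ := hn₁ (fun a i => z a (g i)) (fun i => u (g i)) (by
    intro a b i j hi hj hij h
    exact hown i hi j hj hij a b (congrArg Y.own h))
  refine ⟨fun i => g (f i), fun i hi => hgn _ (hf1 i hi), fun i j hij hj =>
    hglt _ _ (hf2 i j hij hj) (hf1 j hj), hf3, ?_, hf4, hf5⟩
  intro i hi j hj hij a b
  have hne : f i ≠ f j := by
    rcases Nat.lt_or_ge i j with h | h
    · exact (hf2 i j h hj).ne
    · exact (hf2 j i (by omega) hi).ne'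
  exact hown _ (hf1 i hi) _ (hf1 j hj) hne a b

end Sys

end EN
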