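import Pool.Agent.EN.Model

/-!
# Kiss states and their realizations

A state is a colouring `g` of the part of the host outside of the windows `-K < b < K` together
with a set `us` of used columns; the left and the right part of a used column belong to the
colours of `(s, c, -K)` and `(s, c, K)`, which are equal or adjacent.
-/

open Relation

namespace Mdl

variable {V σ X : Type*}

/-- The part outside of the windows `-K < b < K`. -/
def Out (K : ℤ) : HV V σ → Prop
  | Sum.inl _ => True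
  | Sum.inr (_, _, b) => b ≤ -K ∨ K ≤ b

/-- Adjacency in the outside, inside of a class. -/
def OA (H : Host V σ) (D K : ℤ) (g : HV V σ → Option X) (y : X) (u v : HV V σ) : Prop :=
  Out K u ∧ Out K v ∧ H.Adj D u v ∧ g u = some y ∧ g v = some y

/-- Jump along a full column. -/
def Jmp (K : ℤ) (g : HV V σ → Option X) (us : Set (σ × ℕ)) (y : X) (u v : HV V σ) : Prop :=
  ∃ s c, (s, c) ∈ us ∧ g (Sum.inr (s, c, -K)) = some y ∧ g (Sum.inr (s, c, K)) = some y ∧
    ((u = Sum.inr (s, c, -K) ∧ v = Sum.inr (s, c, K)) ∨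
      (u = Sum.inr (s, c, K) ∧ v = Sum.inr (s, c, -K)))

/-- Connection in a class of a state. -/
def St (H : Host V σ) (D K : ℤ) (g : HV V σ → Option X) (us : Set (σ × ℕ)) (y : X) :
    HV V σ → HV V σ → Prop :=
  ReflTransGen (fun u v => OA H D K g y u v ∨ Jmp K g us y u v)

/-- Consecutive used columns. -/
def Cons (us : Set (σ × ℕ)) (s : σ) (i j : ℕ) : Prop :=
  i < j ∧ (s, i) ∈ us ∧ (s, j) ∈ us ∧ ∀ k, i < k → k < j → (s, k) ∉ us

/-- `y` is an owner of the column `i`. -/
def Ow (K : ℤ) (g : HV V σ → Option X) (us : Set (σ × ℕ)) (s : σ) (i : ℕ) (y : X) : Prop :=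
  (s, i) ∈ us ∧ (g (Sum.inr (s, i, -K)) = some y ∨ g (Sum.inr (s, i, K)) = some y)

/-- Pairs which are in contact inside of the page. -/
def Ein (K : ℤ) (g : HV V σ → Option X) (us : Set (σ × ℕ)) (y z : X) : Prop :=
  ∃ s i j, (i = j ∨ Cons us s i j ∨ Cons us s j i) ∧ Ow K g us s i y ∧ Ow K g us s j z

lemma Ein.symm {K : ℤ} {g : HV V σ → Option X} {us : Set (σ × ℕ)} {y z : X}
    (h : Ein K g us y z) : Ein K g us z y := by
  obtain ⟨s, i, j, h1, h2, h3⟩ := h
  refine ⟨s, j, i, ?_, h3, h2⟩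
  rcases h1 with h1 | h1 | h1
  · exact Or.inl h1.symm
  · exact Or.inr (Or.inr h1)
  · exact Or.inr (Or.inl h1)

/-- Kiss states. -/
structure State (G : SimpleGraph X) (H : Host V σ) (D K : ℤ) (g : HV V σ → Option X)
    (us : Set (σ × ℕ)) : Prop where
  sup : ∀ s c b, g (Sum.inr (s, c, b)) ≠ none → c < H.len s ∧ -D ≤ b ∧ b ≤ D
  fin : {u | g u ≠ none}.Finite
  own : ∀ s c, (s, c) ∈ us → ∃ y z, g (Sum.inr (s, c, -K)) = some y ∧
    g (Sum.inr (s, c, K)) = some z ∧ (y = z ∨ G.Adj y z)
  con : ∀ y u v, Out K u → Out K v → g u = some y → g v = some y → St H D K g us y u v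
  edg : ∀ y z, G.Adj y z → Ein K g us y z ∨
    ∃ u v, Out K u ∧ Out K v ∧ H.Adj D u v ∧ g u = some y ∧ g v = some z
  gnd : ∀ y, ∃ v, g (Sum.inl v) = some y ∧ H.gd v

/-! ### The last used column -/

open Classical in
/-- The last used column up to `c`. -/
noncomputable def lu (us : Set (σ × ℕ)) (s : σ) : ℕ → Option ℕ
  | 0 => if (s, 0) ∈ us then some 0 else none
  | c + 1 => if (s, c + 1) ∈ us then some (c + 1) else lu us s c

section

variable {us : Set (σ × ℕ)} {s : σ}

lemma lu_used {c : ℕ} (h : (s, c) ∈ us) : lu us s c = some c := by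
  cases c with
  | zero => unfold lu; rw [if_pos h]
  | succ c => unfold lu; rw [if_pos h]

lemma lu_unused {c : ℕ} (h : (s, c + 1) ∉ us) : lu us s (c + 1) = lu us s c := by
  rw [lu, if_neg h]

lemma lu_some {c i : ℕ} (h : lu us s c = some i) :
    i ≤ c ∧ (s, i) ∈ us ∧ ∀ k, i < k → k ≤ c → (s, k) ∉ us := by
  induction c with
  | zero =>
    unfold lu at h
    split_ifs at h with h1
    · rw [Option.some.injEq] at h
      rw [← h]
      exact ⟨le_refl _, h1, fun k h2 h3 => by omega⟩
  | succ c ih =>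
    by_cases h1 : (s, c + 1) ∈ us
    · rw [lu_used h1, Option.some.injEq] at h
      rw [← h]
      exact ⟨le_refl _, h1, fun k h2 h3 => by omega⟩
    · rw [lu_unused h1] at h
      obtain ⟨h2, h3, h4⟩ := ih h
      refine ⟨by omega, h3, fun k h5 h6 => ?_⟩
      rcases Nat.lt_or_ge k (c + 1) with h7 | h7
      · exact h4 k h5 (by omega)
      · have : k = c + 1 := by omega
        rw [this]
        exact h1

lemma lu_cons {c i : ℕ} (h : lu us s c = some i) (h' : (s, c + 1) ∈ us) :
    Cons us s i (c + 1) := by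
  obtain ⟨h1, h2, h3⟩ := lu_some h
  exact ⟨by omega, h2, h', fun k h4 h5 => h3 k h4 (by omega)⟩

lemma lu_of {c i : ℕ} (h1 : i ≤ c) (h2 : (s, i) ∈ us) (h3 : ∀ k, i < k → k ≤ c → (s, k) ∉ us) :
    lu us s c = some i := by
  induction c with
  | zero =>
    have : i = 0 := by omega
    subst this
    exact lu_used h2
  | succ c ih =>
    rcases Nat.eq_or_lt_of_le h1 with h4 | h4
    · rw [← h4]
      exact lu_used h2
    · rw [lu_unused (h3 (c + 1) h4 (le_refl _))]
      exact ih (by omega) (fun k h5 h6 => h3 k h5 (by omega))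

lemma Cons.lu {i j : ℕ} (h : Cons us s i j) : ∃ c, j = c + 1 ∧ lu us s c = some i := by
  obtain ⟨h1, h2, h3, h4⟩ := h
  refine ⟨j - 1, by omega, lu_of (by omega) h2 (fun k h5 h6 => h4 k h5 (by omega))⟩

end

/-! ### Realization -/

open Classical in
/-- The colouring given by a state and heights. -/
noncomputable def rz (H : Host V σ) (K : ℤ) (g : HV V σ → Option X) (us : Set (σ × ℕ))
    (h : σ → ℕ → ℤ) : HV V σ → Option X
  | Sum.inl v => g (Sum.inl v)
  | Sum.inr (s, c, b) =>
    if b ≤ -K ∨ K ≤ b then g (Sum.inr (s, c, b)) else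
      if c < H.len s ∧ (b ≠ 0 ∨ (s, c) ∈ us) then
        match lu us s c with
        | none => none
        | some i => if b < h s i then g (Sum.inr (s, i, -K)) else g (Sum.inr (s, i, K))
      else none

/-- The left part of `i` and the right part of `j` want a contact. -/
def C1 (G : SimpleGraph X) (K : ℤ) (g : HV V σ → Option X) (s : σ) (i j : ℕ) : Prop :=
  ∃ y y' z z', g (Sum.inr (s, i, -K)) = some y ∧ g (Sum.inr (s, i, K)) = some y' ∧
    g (Sum.inr (s, j, -K)) = some z' ∧ g (Sum.inr (s, j, K)) = some z ∧ G.Adj y z ∧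
    y ≠ y' ∧ z ≠ z' ∧ y ≠ z' ∧ y' ≠ z

/-- The right part of `i` and the left part of `j` want a contact. -/
def C2 (G : SimpleGraph X) (K : ℤ) (g : HV V σ → Option X) (s : σ) (i j : ℕ) : Prop :=
  ∃ y y' z z', g (Sum.inr (s, i, -K)) = some y' ∧ g (Sum.inr (s, i, K)) = some y ∧
    g (Sum.inr (s, j, -K)) = some z ∧ g (Sum.inr (s, j, K)) = some z' ∧ G.Adj y z ∧
    y ≠ y' ∧ z ≠ z' ∧ y ≠ z' ∧ y' ≠ z

/-- Conditions for the heights. -/
structure Hts (G : SimpleGraph X) (K : ℤ) (g : HV V σ → Option X) (us : Set (σ × ℕ))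
    (h : σ → ℕ → ℤ) : Prop where
  lo : ∀ s i, (s, i) ∈ us → -K + 2 ≤ h s i
  hi : ∀ s i, (s, i) ∈ us → h s i ≤ K - 2
  c1 : ∀ s i j, Cons us s i j → C1 G K g s i j → h s j + 2 ≤ h s i
  c2 : ∀ s i j, Cons us s i j → C2 G K g s i j → h s i + 2 ≤ h s j

section

variable {H : Host V σ} {D K : ℤ} {g : HV V σ → Option X} {us : Set (σ × ℕ)} {h : σ → ℕ → ℤ}
  {y : X}

lemma rz_out {u : HV V σ} (hu : Out K u) : rz H K g us h u = g u := by
  rcases u with v | ⟨s, c, b⟩
  · rfl
  · have : b ≤ -K ∨ K ≤ b := hu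
    simp only [rz]
    rw [if_pos this]

lemma rz_lo {s : σ} {c i : ℕ} {b : ℤ} (h1 : -K < b) (h2 : b < K) (hc : c < H.len s)
    (hb : b ≠ 0 ∨ (s, c) ∈ us) (hl : lu us s c = some i) (hh : b < h s i) :
    rz H K g us h (Sum.inr (s, c, b)) = g (Sum.inr (s, i, -K)) := by
  simp only [rz]
  rw [if_neg (by omega), if_pos ⟨hc, hb⟩, hl]
  simp only
  rw [if_pos hh]

lemma rz_hi {s : σ} {c i : ℕ} {b : ℤ} (h1 : -K < b) (h2 : b < K) (hc : c < H.len s)
    (hb : b ≠ 0 ∨ (s, c) ∈ us) (hl : lu us s c = some i) (hh : h s i ≤ b) :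
    rz H K g us h (Sum.inr (s, c, b)) = g (Sum.inr (s, i, K)) := by
  simp only [rz]
  rw [if_neg (by omega), if_pos ⟨hc, hb⟩, hl]
  simp only
  rw [if_neg (by omega)]

lemma rz_inv {s : σ} {c : ℕ} {b : ℤ} (h1 : -K < b) (h2 : b < K)
    (hy : rz H K g us h (Sum.inr (s, c, b)) = some y) :
    c < H.len s ∧ (b ≠ 0 ∨ (s, c) ∈ us) ∧ ∃ i, lu us s c = some i ∧
      ((b < h s i ∧ g (Sum.inr (s, i, -K)) = some y) ∨
        (h s i ≤ b ∧ g (Sum.inr (s, i, K)) = some y)) := by
  simp only [rz] at hy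
  rw [if_neg (by omega)] at hy
  split_ifs at hy with h3
  · rcases hl : lu us s c with _ | i
    · rw [hl] at hy
      simp at hy
    · rw [hl] at hy
      simp only at hy
      refine ⟨h3.1, h3.2, i, rfl, ?_⟩
      split_ifs at hy with h4
      · exact Or.inl ⟨h4, hy⟩
      · exact Or.inr ⟨by omega, hy⟩

/-- The left part of a used column. -/
lemma rz_left {s : σ} {c : ℕ} {b : ℤ} (hu : (s, c) ∈ us) (hc : c < H.len s) (hhK : h s c ≤ K)
    (h1 : -K ≤ b) (h2 : b < h s c) : rz H K g us h (Sum.inr (s, c, b)) = g (Sum.inr (s, c, -K)) := by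
  rcases eq_or_lt_of_le h1 with h3 | h3
  · rw [← h3]
    exact rz_out (Or.inl (le_refl _))
  · exact rz_lo h3 (by omega) hc (Or.inr hu) (lu_used hu) h2

/-- The right part of a used column. -/
lemma rz_right {s : σ} {c : ℕ} {b : ℤ} (hu : (s, c) ∈ us) (hc : c < H.len s) (hhK : -K < h s c)
    (h1 : b ≤ K) (h2 : h s c ≤ b) : rz H K g us h (Sum.inr (s, c, b)) = g (Sum.inr (s, c, K)) := by
  rcases eq_or_lt_of_le h1 with h3 | h3
  · rw [h3]
    exact rz_out (Or.inr (le_refl _))
  · exact rz_hi (by omega) h3 hc (Or.inr hu) (lu_used hu) h2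

/-- Exceptions. -/
def Exc (H : Host V σ) (K : ℤ) (g : HV V σ → Option X) (us : Set (σ × ℕ)) (h : σ → ℕ → ℤ)
    (f : HV V σ → Option X) : Prop :=
  ∀ w, f w ≠ rz H K g us h w → ∃ s c, w = Sum.inr (s, c, 0) ∧ (s, c) ∈ us ∧ h s c = 0

lemma Exc.eq {f : HV V σ → Option X} (he : Exc H K g us h f) {s : σ} {c : ℕ} {b : ℤ}
    (hb : b ≠ 0) : f (Sum.inr (s, c, b)) = rz H K g us h (Sum.inr (s, c, b)) := by
  by_contra hcon
  obtain ⟨s', c', h1, _⟩ := he _ hcon
  simp only [Sum.inr.injEq, Prod.mk.injEq] at h1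
  exact hb h1.2.2

lemma Exc.out {f : HV V σ → Option X} (he : Exc H K g us h f) (hK : 0 < K) {u : HV V σ}
    (hu : Out K u) : f u = g u := by
  rw [← rz_out (H := H) (g := g) (us := us) (h := h) hu]
  by_contra hcon
  obtain ⟨s', c', h1, _⟩ := he _ hcon
  rw [h1] at hu
  have : (0 : ℤ) ≤ -K ∨ K ≤ 0 := hu
  omega

/-- The left part of a column is connected to its left end. -/
lemma Exc.left {f : HV V σ → Option X} (he : Exc H K g us h f) (hKD : K ≤ D) {s : σ}
    {c : ℕ} {b : ℤ} (hu : (s, c) ∈ us) (hc : c < H.len s) (hhK : h s c ≤ K)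
    (h1 : -K ≤ b) (h2 : b < h s c) (hy : g (Sum.inr (s, c, -K)) = some y) :
    Cn H D f y (Sum.inr (s, c, b)) (Sum.inr (s, c, -K)) := by
  refine (Cn.vert' hc (by omega) (by omega) h1 ?_).symm
  intro b' h3 h4
  rw [← hy, ← rz_left (H := H) (g := g) hu hc hhK h3 (by omega)]
  by_contra hcon
  obtain ⟨s', c', h5, _, h7⟩ := he _ hcon
  simp only [Sum.inr.injEq, Prod.mk.injEq] at h5
  obtain ⟨rfl, rfl, rfl⟩ := h5
  omega

/-- The right part of a column is connected to its right end. -/
lemma Exc.right {f : HV V σ → Option X} (he : Exc H K g us h f) (hKD : K ≤ D) {s : σ}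
    {c : ℕ} {b : ℤ} (hu : (s, c) ∈ us) (hc : c < H.len s) (hhK : -K < h s c)
    (h1 : b ≤ K) (h2 : h s c ≤ b) (hy : g (Sum.inr (s, c, K)) = some y)
    (hf : f (Sum.inr (s, c, b)) = rz H K g us h (Sum.inr (s, c, b))) :
    Cn H D f y (Sum.inr (s, c, b)) (Sum.inr (s, c, K)) := by
  refine Cn.vert' hc (by omega) (by omega) h1 ?_
  intro b' h3 h4
  rw [← hy, ← rz_right (H := H) (g := g) hu hc hhK h4 (by omega)]
  by_contra hcon
  obtain ⟨s', c', h5, _, h7⟩ := he _ hcon
  simp only [Sum.inr.injEq, Prod.mk.injEq] at h5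
  obtain ⟨rfl, rfl, rfl⟩ := h5
  have h8 : b = 0 := by omega
  rw [h8] at hf
  exact hcon hf

/-- Every coloured vertex of the page is connected to an end of a used column. -/
lemma Exc.rep {f : HV V σ → Option X} (he : Exc H K g us h f) (hKD : K ≤ D)
    (hlo : ∀ s i, (s, i) ∈ us → -K < h s i) (hhi : ∀ s i, (s, i) ∈ us → h s i ≤ K)
    {s : σ} {b : ℤ} (h1 : -K < b) (h2 : b < K) (c : ℕ) :
    f (Sum.inr (s, c, b)) = some y →
    f (Sum.inr (s, c, b)) = rz H K g us h (Sum.inr (s, c, b)) →
    ∃ i, lu us s c = some i ∧ (s, i) ∈ us ∧ i < H.len s ∧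
      ((b < h s i ∧ g (Sum.inr (s, i, -K)) = some y ∧
          Cn H D f y (Sum.inr (s, c, b)) (Sum.inr (s, i, -K))) ∨
        (h s i ≤ b ∧ g (Sum.inr (s, i, K)) = some y ∧
          Cn H D f y (Sum.inr (s, c, b)) (Sum.inr (s, i, K)))) := by
  -- the case of a used column
  have base : ∀ c, (s, c) ∈ us → f (Sum.inr (s, c, b)) = some y →
      f (Sum.inr (s, c, b)) = rz H K g us h (Sum.inr (s, c, b)) →
      ∃ i, lu us s c = some i ∧ (s, i) ∈ us ∧ i < H.len s ∧
      ((b < h s i ∧ g (Sum.inr (s, i, -K)) = some y ∧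
          Cn H D f y (Sum.inr (s, c, b)) (Sum.inr (s, i, -K))) ∨
        (h s i ≤ b ∧ g (Sum.inr (s, i, K)) = some y ∧
          Cn H D f y (Sum.inr (s, c, b)) (Sum.inr (s, i, K)))) := by
    intro c hc hy hf
    have hy' := hf.symm.trans hy
    obtain ⟨h3, _, i, h4, h5⟩ := rz_inv h1 h2 hy'
    rw [lu_used hc, Option.some.injEq] at h4
    subst h4
    refine ⟨c, lu_used hc, hc, h3, ?_⟩
    rcases h5 with ⟨h5, h6⟩ | ⟨h5, h6⟩
    · exact Or.inl ⟨h5, h6, he.left hKD hc h3 (hhi s c hc) h1.le h5 h6⟩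
    · exact Or.inr ⟨h5, h6, he.right hKD hc h3 (hlo s c hc) h2.le h5 h6 hf⟩
  induction c with
  | zero =>
    intro hy hf
    by_cases hc : (s, 0) ∈ us
    · exact base 0 hc hy hf
    · exfalso
      obtain ⟨_, _, i, h4, _⟩ := rz_inv h1 h2 (hf.symm.trans hy)
      unfold lu at h4
      rw [if_neg hc] at h4
      exact absurd h4 (by simp)
  | succ c ih =>
    intro hy hf
    by_cases hc : (s, c + 1) ∈ us
    · exact base (c + 1) hc hy hf
    · obtain ⟨h3, h4, i, h5, h6⟩ := rz_inv h1 h2 (hf.symm.trans hy)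
      have hb : b ≠ 0 := by
        rcases h4 with h4 | h4
        · exact h4
        · exact absurd h4 hc
      have h5' := h5
      rw [lu_unused hc] at h5'
      have hy' : f (Sum.inr (s, c, b)) = some y := by
        rw [he.eq hb]
        rcases h6 with ⟨h6, h7⟩ | ⟨h6, h7⟩
        · rw [rz_lo h1 h2 (by omega) (Or.inl hb) h5' h6]
          exact h7
        · rw [rz_hi h1 h2 (by omega) (Or.inl hb) h5' h6]
          exact h7
      obtain ⟨j, h8, h9, h10, h11⟩ := ih hy' (he.eq hb)
      have hcn : Cn H D f y (Sum.inr (s, c + 1, b)) (Sum.inr (s, c, b)) :=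
        (Cn.one (Host.hor h3 (by omega) (by omega) hb) hy' hy).symm
      refine ⟨j, by rw [lu_unused hc]; exact h8, h9, h10, ?_⟩
      rcases h11 with ⟨h11, h12, h13⟩ | ⟨h11, h12, h13⟩
      · exact Or.inl ⟨h11, h12, hcn.trans h13⟩
      · exact Or.inr ⟨h11, h12, hcn.trans h13⟩

end

/-! ### Lifting connections and contacts -/

section

variable {G : SimpleGraph X} {H : Host V σ} {D K : ℤ} {g : HV V σ → Option X}
  {us : Set (σ × ℕ)} {h : σ → ℕ → ℤ} {f : HV V σ → Option X} {y z : X}

lemma State.lt (hS : State G H D K g us) {s : σ} {c : ℕ} (hc : (s, c) ∈ us) : c < H.len s := by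
  obtain ⟨a, b, h1, _⟩ := hS.own s c hc
  exact (hS.sup s c (-K) (by rw [h1]; simp)).1

lemma Exc.oa (he : Exc H K g us h f) (hK : 0 < K) {u v : HV V σ} (h1 : OA H D K g y u v) :
    Cn H D f y u v := by
  obtain ⟨h2, h3, h4, h5, h6⟩ := h1
  exact Cn.one h4 (by rw [he.out hK h2]; exact h5) (by rw [he.out hK h3]; exact h6)

lemma Exc.jump (he : Exc H K g us h f) (hS : State G H D K g us) (hh : Hts G K g us h)
    (hK : 0 < K) (hKD : K ≤ D) {s : σ} {c : ℕ} (hc : (s, c) ∈ us)
    (h1 : g (Sum.inr (s, c, -K)) = some y) (h2 : g (Sum.inr (s, c, K)) = some y)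
    (h0 : f (Sum.inr (s, c, 0)) = rz H K g us h (Sum.inr (s, c, 0))) :
    Cn H D f y (Sum.inr (s, c, -K)) (Sum.inr (s, c, K)) := by
  have hcl := hS.lt hc
  refine Cn.vert' hcl (by omega) hKD (by omega) ?_
  intro b h3 h4
  have e : f (Sum.inr (s, c, b)) = rz H K g us h (Sum.inr (s, c, b)) := by
    rcases eq_or_ne b 0 with h5 | h5
    · rw [h5]; exact h0
    · exact he.eq h5
  rw [e]
  have h6 := hh.lo s c hc
  have h7 := hh.hi s c hc
  rcases lt_or_ge b (h s c) with h5 | h5
  · rw [rz_left hc hcl (by omega) h3 h5]; exact h1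
  · rw [rz_right hc hcl (by omega) h4 h5]; exact h2

/-- Contacts between consecutive columns. -/
lemma edge_cons (hS : State G H D K g us) (hh : Hts G K g us h) (hK : 2 ≤ K) {s : σ} {i j : ℕ}
    (hij : Cons us s i j) (hy : Ow K g us s i y) (hz : Ow K g us s j z) (hyz : G.Adj y z) :
    (∃ c b, j = c + 1 ∧ lu us s c = some i ∧ b ≠ 0 ∧ -K < b ∧ b < K ∧
      rz H K g us h (Sum.inr (s, c, b)) = some y ∧ rz H K g us h (Sum.inr (s, j, b)) = some z) ∨
    (∃ k, (k = i ∨ k = j) ∧ (s, k) ∈ us ∧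
      ((g (Sum.inr (s, k, -K)) = some y ∧ g (Sum.inr (s, k, K)) = some z) ∨
        (g (Sum.inr (s, k, -K)) = some z ∧ g (Sum.inr (s, k, K)) = some y))) := by
  obtain ⟨c, hjc, hl⟩ := hij.lu
  have hi := hij.2.1
  have hj := hij.2.2.1
  have hjl := hS.lt hj
  have hcl : c < H.len s := by omega
  obtain ⟨a, a', ha, ha', haa⟩ := hS.own s i hi
  obtain ⟨e, e', he, he', hee⟩ := hS.own s j hj
  have h1 := hh.lo s i hi
  have h2 := hh.hi s i hi
  have h3 := hh.lo s j hj
  have h4 := hh.hi s j hj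
  have hll := lu_used hj
  -- realizations on one side
  have left : y = a → z = e → ∃ c b, j = c + 1 ∧ lu us s c = some i ∧ b ≠ 0 ∧ -K < b ∧ b < K ∧
      rz H K g us h (Sum.inr (s, c, b)) = some y ∧
      rz H K g us h (Sum.inr (s, j, b)) = some z := by
    intro h5 h6
    refine ⟨c, -K + 1, hjc, hl, by omega, by omega, by omega, ?_, ?_⟩
    · rw [rz_lo (by omega) (by omega) hcl (Or.inl (by omega)) hl (by omega), ha, h5]
    · rw [rz_lo (by omega) (by omega) hjl (Or.inr hj) hll (by omega), he, h6]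
  have right : y = a' → z = e' → ∃ c b, j = c + 1 ∧ lu us s c = some i ∧ b ≠ 0 ∧ -K < b ∧ b < K ∧
      rz H K g us h (Sum.inr (s, c, b)) = some y ∧
      rz H K g us h (Sum.inr (s, j, b)) = some z := by
    intro h5 h6
    refine ⟨c, K - 1, hjc, hl, by omega, by omega, by omega, ?_, ?_⟩
    · rw [rz_hi (by omega) (by omega) hcl (Or.inl (by omega)) hl (by omega), ha', h5]
    · rw [rz_hi (by omega) (by omega) hjl (Or.inr hj) hll (by omega), he', h6]
  have hya : y = a ∨ y = a' := by
    rcases hy.2 with h5 | h5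
    · rw [ha, Option.some.injEq] at h5; exact Or.inl h5.symm
    · rw [ha', Option.some.injEq] at h5; exact Or.inr h5.symm
  have hze : z = e ∨ z = e' := by
    rcases hz.2 with h5 | h5
    · rw [he, Option.some.injEq] at h5; exact Or.inl h5.symm
    · rw [he', Option.some.injEq] at h5; exact Or.inr h5.symm
  rcases hya with hya | hya
  · rcases hze with hze | hze
    · exact Or.inl (left hya hze)
    · by_cases h5 : a = a'
      · exact Or.inl (right (hya.trans h5) hze)
      · by_cases h6 : e = e'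
        · exact Or.inl (left hya (hze.trans h6.symm))
        · by_cases h7 : a = e
          · right
            refine ⟨j, Or.inr rfl, hj, Or.inl ⟨?_, ?_⟩⟩
            · rw [he, hya, h7]
            · rw [he', hze]
          · by_cases h8 : a' = e'
            · right
              refine ⟨i, Or.inl rfl, hi, Or.inl ⟨?_, ?_⟩⟩
              · rw [ha, hya]
              · rw [ha', hze, h8]
            · left
              have h9 := hh.c1 s i j hij ⟨a, a', e', e, ha, ha', he, he',
                by rw [← hya, ← hze]; exact hyz, h5, fun h => h6 h.symm, h7, h8⟩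
              have key : ∀ b : ℤ, b ≠ 0 → h s j ≤ b → b < h s i →
                  ∃ c b, j = c + 1 ∧ lu us s c = some i ∧ b ≠ 0 ∧ -K < b ∧ b < K ∧
                    rz H K g us h (Sum.inr (s, c, b)) = some y ∧
                    rz H K g us h (Sum.inr (s, j, b)) = some z := by
                intro b hb0 hb1 hb2
                refine ⟨c, b, hjc, hl, hb0, by omega, by omega, ?_, ?_⟩
                · rw [rz_lo (by omega) (by omega) hcl (Or.inl hb0) hl (by omega), ha, hya]
                · rw [rz_hi (by omega) (by omega) hjl (Or.inr hj) hll (by omega), he', hze]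
              by_cases h10 : h s j = 0
              · exact key 1 (by omega) (by omega) (by omega)
              · exact key (h s j) h10 (le_refl _) (by omega)
  · rcases hze with hze | hze
    · by_cases h5 : a = a'
      · exact Or.inl (left (hya.trans h5.symm) hze)
      · by_cases h6 : e = e'
        · exact Or.inl (right hya (hze.trans h6))
        · by_cases h7 : a' = e'
          · right
            refine ⟨j, Or.inr rfl, hj, Or.inr ⟨?_, ?_⟩⟩
            · rw [he, hze]
            · rw [he', hya, h7]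
          · by_cases h8 : a = e
            · right
              refine ⟨i, Or.inl rfl, hi, Or.inr ⟨?_, ?_⟩⟩
              · rw [ha, hze, h8]
              · rw [ha', hya]
            · left
              have h9 := hh.c2 s i j hij ⟨a', a, e, e', ha, ha', he, he',
                by rw [← hya, ← hze]; exact hyz, fun h => h5 h.symm, h6, h7, h8⟩
              have key : ∀ b : ℤ, b ≠ 0 → h s i ≤ b → b < h s j →
                  ∃ c b, j = c + 1 ∧ lu us s c = some i ∧ b ≠ 0 ∧ -K < b ∧ b < K ∧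
                    rz H K g us h (Sum.inr (s, c, b)) = some y ∧
                    rz H K g us h (Sum.inr (s, j, b)) = some z := by
                intro b hb0 hb1 hb2
                refine ⟨c, b, hjc, hl, hb0, by omega, by omega, ?_, ?_⟩
                · rw [rz_hi (by omega) (by omega) hcl (Or.inl hb0) hl (by omega), ha', hya]
                · rw [rz_lo (by omega) (by omega) hjl (Or.inr hj) hll (by omega), he, hze]
              by_cases h10 : h s i = 0
              · exact key 1 (by omega) (by omega) (by omega)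
              · exact key (h s i) h10 (le_refl _) (by omega)
    · exact Or.inl (right hya hze)

/-- Realization of a kiss. -/
lemma edge_kiss (hS : State G H D K g us) (hh : Hts G K g us h) (hKD : K ≤ D) {s : σ} {i : ℕ}
    (hi : (s, i) ∈ us) (h1 : g (Sum.inr (s, i, -K)) = some y)
    (h2 : g (Sum.inr (s, i, K)) = some z) :
    H.Adj D (Sum.inr (s, i, h s i - 1)) (Sum.inr (s, i, h s i)) ∧
      rz H K g us h (Sum.inr (s, i, h s i - 1)) = some y ∧
      rz H K g us h (Sum.inr (s, i, h s i)) = some z := by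
  have h3 := hh.lo s i hi
  have h4 := hh.hi s i hi
  have hl := hS.lt hi
  refine ⟨?_, ?_, ?_⟩
  · have := Host.ver (H := H) (d := D) (s := s) (c := i) (b := h s i - 1) hl (by omega) (by omega)
    rw [sub_add_cancel] at this
    exact this
  · rw [rz_left hi hl (by omega) (by omega) (by omega), h1]
  · rw [rz_right hi hl (by omega) (by omega) (by omega), h2]

/-- The realization is a model. -/
theorem State.model [Finite σ] (hS : State G H D K g us) (hh : Hts G K g us h) (hK : 2 ≤ K)
    (hKD : K ≤ D) : Model G H D (rz H K g us h) := by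
  have he : Exc H K g us h (rz H K g us h) := fun w hw => absurd rfl hw
  have hlo : ∀ s i, (s, i) ∈ us → -K < h s i := fun s i hi => by have := hh.lo s i hi; omega
  have hhi : ∀ s i, (s, i) ∈ us → h s i ≤ K := fun s i hi => by have := hh.hi s i hi; omega
  have hst : ∀ y u v, St H D K g us y u v → Cn H D (rz H K g us h) y u v := by
    intro y u v huv
    induction huv with
    | refl => exact ReflTransGen.refl
    | tail _ hbc ih =>
      refine ih.trans ?_
      rcases hbc with h1 | ⟨s, c, h1, h2, h3, h4⟩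
      · exact he.oa (by omega) h1
      · have h5 := he.jump hS hh (by omega) hKD h1 h2 h3 rfl
        rcases h4 with ⟨rfl, rfl⟩ | ⟨rfl, rfl⟩
        · exact h5
        · exact h5.symm
  have hrep : ∀ y u, rz H K g us h u = some y → ∃ v, Out K v ∧ g v = some y ∧
      Cn H D (rz H K g us h) y u v := by
    intro y u hu
    by_cases ho : Out K u
    · exact ⟨u, ho, by rw [← rz_out (H := H) (g := g) (us := us) (h := h) ho]; exact hu,
        ReflTransGen.refl⟩
    · rcases u with v | ⟨s, c, b⟩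
      · exact absurd trivial ho
      · have hb : -K < b ∧ b < K := by
          by_contra hcon
          apply ho
          change b ≤ -K ∨ K ≤ b
          omega
        obtain ⟨i, _, _, _, h1⟩ := he.rep hKD hlo hhi hb.1 hb.2 c hu rfl
        rcases h1 with ⟨_, h1, h2⟩ | ⟨_, h1, h2⟩
        · exact ⟨Sum.inr (s, i, -K), Or.inl (le_refl _), h1, h2⟩
        · exact ⟨Sum.inr (s, i, K), Or.inr (le_refl _), h1, h2⟩
  refine ⟨?_, ?_, ?_, ?_, ?_⟩
  · intro s c b hn
    by_cases ho : b ≤ -K ∨ K ≤ b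
    · exact hS.sup s c b (by rw [← rz_out (H := H) (g := g) (us := us) (h := h)
        (u := Sum.inr (s, c, b)) ho]; exact hn)
    · obtain ⟨y, hy⟩ := Option.ne_none_iff_exists'.1 hn
      obtain ⟨h1, _⟩ := rz_inv (by omega) (by omega) hy
      exact ⟨h1, by omega, by omega⟩
  · have h1 : {u : HV V σ | rz H K g us h u ≠ none} ⊆ {u | g u ≠ none} ∪
        ⋃ s : σ, (fun p : ℕ × ℤ => (Sum.inr (s, p.1, p.2) : HV V σ)) ''
          (Set.Iio (H.len s) ×ˢ Set.Icc (-K) K) := by
      intro u hu
      have hu' : rz H K g us h u ≠ none := hu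
      by_cases ho : Out K u
      · left
        rw [rz_out ho] at hu'
        exact hu'
      · right
        rcases u with v | ⟨s, c, b⟩
        · exact absurd trivial ho
        · have hb : -K < b ∧ b < K := by
            by_contra hcon
            apply ho
            change b ≤ -K ∨ K ≤ b
            omega
          obtain ⟨y, hy⟩ := Option.ne_none_iff_exists'.1 hu'
          obtain ⟨h1, _⟩ := rz_inv hb.1 hb.2 hy
          rw [Set.mem_iUnion]
          exact ⟨s, (c, b), ⟨h1, ⟨hb.1.le, hb.2.le⟩⟩, rfl⟩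
    refine Set.Finite.subset ?_ h1
    refine hS.fin.union (Set.finite_iUnion (fun s => ?_))
    exact ((Set.finite_Iio _).prod (Set.finite_Icc _ _)).image _
  · intro y u v hu hv
    obtain ⟨u', h1, h2, h3⟩ := hrep y u hu
    obtain ⟨v', h4, h5, h6⟩ := hrep y v hv
    exact (h3.trans (hst y u' v' (hS.con y u' v' h1 h4 h2 h5))).trans h6.symm
  · intro y z hyz
    rcases hS.edg y z hyz with h1 | ⟨u, v, h1, h2, h3, h4, h5⟩
    · have kiss : ∀ s k, (s, k) ∈ us →
          ((g (Sum.inr (s, k, -K)) = some y ∧ g (Sum.inr (s, k, K)) = some z) ∨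
            (g (Sum.inr (s, k, -K)) = some z ∧ g (Sum.inr (s, k, K)) = some y)) →
          ∃ u v, H.Adj D u v ∧ rz H K g us h u = some y ∧ rz H K g us h v = some z := by
        intro s k hk h2
        rcases h2 with ⟨h2, h3⟩ | ⟨h2, h3⟩
        · obtain ⟨h4, h5, h6⟩ := edge_kiss hS hh hKD hk h2 h3
          exact ⟨_, _, h4, h5, h6⟩
        · obtain ⟨h4, h5, h6⟩ := edge_kiss hS hh hKD hk h2 h3
          exact ⟨_, _, h4.symm, h6, h5⟩
      obtain ⟨s, i, j, h1 | h1 | h1, h2, h3⟩ := h1
      · subst h1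
        apply kiss s i h2.1
        rcases h2.2 with h4 | h4
        · rcases h3.2 with h5 | h5
          · rw [h4, Option.some.injEq] at h5
            exact absurd h5 hyz.ne
          · exact Or.inl ⟨h4, h5⟩
        · rcases h3.2 with h5 | h5
          · exact Or.inr ⟨h5, h4⟩
          · rw [h4, Option.some.injEq] at h5
            exact absurd h5 hyz.ne
      · rcases edge_cons hS hh hK h1 h2 h3 hyz with ⟨c, b, rfl, _, h5, h6, h7, h8, h9⟩ | h4
        · exact ⟨_, _, Host.hor (hS.lt h3.1) (by omega) (by omega) h5, h8, h9⟩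
        · obtain ⟨k, _, h4, h5⟩ := h4
          exact kiss s k h4 h5
      · rcases edge_cons hS hh hK h1 h3 h2 hyz.symm with ⟨c, b, rfl, _, h5, h6, h7, h8, h9⟩ | h4
        · exact ⟨_, _, (Host.hor (hS.lt h2.1) (by omega) (by omega) h5).symm, h9, h8⟩
        · obtain ⟨k, _, h4, h5⟩ := h4
          exact kiss s k h4 h5.symm
    · exact ⟨u, v, h3, by rw [rz_out h1]; exact h4, by rw [rz_out h2]; exact h5⟩
  · exact hS.gnd

lemma mm_rz (hS : State G H D K g us) (hK : 0 < K) : mm (rz H K g us h) = us.ncard := by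
  unfold mm
  congr 1
  ext ⟨s, c⟩
  change rz H K g us h (Sum.inr (s, c, 0)) ≠ none ↔ _
  constructor
  · intro h1
    obtain ⟨y, hy⟩ := Option.ne_none_iff_exists'.1 h1
    obtain ⟨_, h2, _⟩ := rz_inv (by omega) hK hy
    rcases h2 with h2 | h2
    · exact absurd rfl h2
    · exact h2
  · intro h1
    obtain ⟨a, b, h2, h3, _⟩ := hS.own s c h1
    rcases lt_or_ge 0 (h s c) with h4 | h4
    · rw [rz_lo (by omega) hK (hS.lt h1) (Or.inr h1) (lu_used h1) h4, h2]
      simp
    · rw [rz_hi (by omega) hK (hS.lt h1) (Or.inr h1) (lu_used h1) h4, h3]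
      simp

end

end Mdl
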