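import Pool.Agent.EN.Sys

/-!
# Thick intervals, clean pairs, clean and bad intervals
-/

namespace EN

namespace Sys

variable {κ : Type*} (Y : Sys κ)

/-- `M` pairwise disjoint links leave the interval `[a, b]`. -/
def Thick (M a b : ℕ) : Prop :=
  ∃ u v : ℕ → ℕ, (∀ k < M, a ≤ u k ∧ u k ≤ b ∧ (v k < a ∨ b < v k) ∧ Y.Lk (u k) (v k)) ∧
    Y.Dis M (fun k => [u k, v k])

/-- Clean pair of type D: a connector with exactly two ports and no contact. -/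
structure DP (x y : ℕ) : Prop where
  xL : x < Y.L
  yL : y < Y.L
  ne : x ≠ y
  own : Y.own x = Y.own y
  only : ∀ z < Y.L, Y.own z = Y.own x → z = x ∨ z = y
  noct : ∀ k, ¬ Y.ct (Y.own x) k
  ngr : ¬ Y.gr (Y.own x)

/-- Clean pair of type Z, `u < w`: in a zigzag the contacts of `own u` are `own w` and
`own (w + 1)`, the contacts of `own w` are `own u` and `own u'`, where `u' = u ± 1` and `own u'` is
also in contact with `own (w - 1)`; all these connectors have one port only. -/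
structure ZP (u w : ℕ) : Prop where
  uw : u < w
  w1 : 1 ≤ w
  wL : w + 1 < Y.L
  shw : Y.sh (w - 1) = Y.sh w
  shw' : Y.sh (w + 1) = Y.sh w
  pu : ∀ z < Y.L, Y.own z = Y.own u → z = u
  pw : ∀ z < Y.L, Y.own z = Y.own w → z = w
  pw1 : ∀ z < Y.L, Y.own z = Y.own (w - 1) → z = w - 1
  pw2 : ∀ z < Y.L, Y.own z = Y.own (w + 1) → z = w + 1
  ngu : ¬ Y.gr (Y.own u)
  ngw : ¬ Y.gr (Y.own w)
  cu : ∀ k, Y.ct (Y.own u) k ↔ k = Y.own w ∨ k = Y.own (w + 1)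
  cw : ∃ u', (u' + 1 = u ∨ u' = u + 1) ∧ u' < Y.L ∧ Y.sh u' = Y.sh u ∧
    (∀ k, Y.ct (Y.own w) k ↔ k = Y.own u ∨ k = Y.own u') ∧
    Y.ct (Y.own u') (Y.own (w - 1)) ∧ ∀ z < Y.L, Y.own z = Y.own u' → z = u'

/-- Clean pairs. -/
def Pr (x y : ℕ) : Prop := Y.DP x y ∨ Y.ZP x y ∨ Y.ZP y x

/-- The interval `[a, b]` belongs to a strip. -/
def Clean (a b : ℕ) : Prop :=
  (∀ x, a ≤ x → x ≤ b → ∃ y, Y.Pr x y) ∧
    ∀ x, a ≤ x → x < b → ∃ y y', Y.Pr x y ∧ Y.Pr (x + 1) y' ∧ (y' = y + 1 ∨ y = y' + 1) ∧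
      Y.sh y = Y.sh y'

/-- Bad intervals: not clean, with a thick subinterval. -/
structure Bad (M a b : ℕ) : Prop where
  ab : a ≤ b
  bL : b < Y.L
  sh : Y.sh a = Y.sh b
  dirty : ¬ Y.Clean a b
  thick : ∃ a' b', a ≤ a' ∧ a' ≤ b' ∧ b' ≤ b ∧ Y.Thick M a' b'

/-- Runs: `rc` is monotone and refines the shores; all links from a run, its last port excepted,
end on at most two shores. -/
structure Runs (rc : ℕ → ℕ) : Prop where
  mono : ∀ x y, x ≤ y → rc x ≤ rc y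
  sh : ∀ x y, x < Y.L → y < Y.L → rc x = rc y → Y.sh x = Y.sh y
  two : ∀ r, ∃ A : Finset ℕ, A.card ≤ 2 ∧
    ∀ x y, Y.Lk x y → rc x = r → rc (x + 1) = r → x + 1 < Y.L → Y.sh y ∈ A

end Sys

end EN
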