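import Pool.Agent.EN.Walk

/-!
Module III of T-star (MP_5165fa_co): lines, bands and the sweep.  Pure: ports, clean bijections,
connectors, owners, contacts, isoperimetry.
-/

set_option autoImplicit false

open Finset EN.Walk
open scoped Classical

namespace EN.Sweep

/-- a port: a column and a side -/
abbrev Pt (P : ℕ) := Fin P × Bool

/-- the other side of the column -/
def flp {P : ℕ} (p : Pt P) : Pt P := (p.1, !p.2)

/-- neighbouring ports of one side -/
def Nb {P : ℕ} (p p' : Pt P) : Prop :=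
  p.2 = p'.2 ∧ (p.1.val + 1 = p'.1.val ∨ p'.1.val + 1 = p.1.val)

/-- an interval of ports -/
def iv (P : ℕ) (s : Bool) (a b : ℕ) : Finset (Pt P) :=
  univ.filter (fun p => p.2 = s ∧ a ≤ p.1.val ∧ p.1.val ≤ b)

/-- the system: `C` clean ports with the bijection `φ` (strips of type D: `con (φ p) = con p`, or of
type Z: two connectors with one port each in contact), `J` joined neighbours (same interval of the
partition), `con` the connector at a port, `mem y κ`: the vertex `y` is a member of the connector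
`κ`, `ct` contacts of connectors -/
structure Sys {V K : Type*} (G : SimpleGraph V) (P : ℕ) (C : Set (Pt P)) (φ : Pt P → Pt P)
    (J : Pt P → Pt P → Prop) (con : Pt P → K) (mem : V → K → Prop) (ct : K → K → Prop) :
    Prop where
  mem_C : ∀ p, p ∈ C → φ p ∈ C
  inv : ∀ p, p ∈ C → φ (φ p) = p
  /-- a clean connector has only the ports `p` and `φ p` -/
  two : ∀ p, p ∈ C → ∀ p', con p' = con p → p' = p ∨ p' = φ p
  /-- contacts of a clean connector: only at the port `φ p` and its neighbours (zigzag strips) -/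
  noct : ∀ p, p ∈ C → ∀ κ, ct (con p) κ → κ = con (φ p) ∨ ∃ p', Nb (φ p) p' ∧ κ = con p'
  J_nb : ∀ p p', J p p' → Nb p p'
  J_symm : ∀ p p', J p p' → J p' p
  J_C : ∀ p p', J p p' → p ∈ C → p' ∈ C
  J_phi : ∀ p p', J p p' → p ∈ C → J (φ p) (φ p')
  /-- every connector has a port -/
  port : ∀ y κ, mem y κ → ∃ p, con p = κ
  /-- the branch sets are connected -/
  conn : ∀ y κ κ', mem y κ → mem y κ' →
    Relation.ReflTransGen (fun a b => mem y a ∧ mem y b ∧ ∃ p, con p = a ∧ con (flp p) = b) κ κ'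
  /-- every branch set has a residual connector -/
  res : ∀ y, ∃ p, mem y (con p) ∧ p ∉ C
  /-- the edges -/
  edge : ∀ y z, G.Adj y z → (∃ κ, mem y κ ∧ mem z κ) ∨
    (∃ κ κ', mem y κ ∧ mem z κ' ∧ ct κ κ') ∨
    (∃ p, mem y (con p) ∧ mem z (con (flp p))) ∨
    (∃ p p', Nb p p' ∧ mem y (con p) ∧ (mem z (con p') ∨ mem z (con (flp p'))))

/-- a residual interval -/
def Res {P : ℕ} (C : Set (Pt P)) (J : Pt P → Pt P → Prop) (s : Bool) (a b : ℕ) : Prop :=
  (∀ p, p ∈ iv P s a b → p ∉ C) ∧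
    ∀ p p', p ∈ iv P s a b → p' ∈ iv P s a b → Nb p p' → J p p'

/-- connectors that leave the interval -/
noncomputable def lv1 {P : ℕ} {K : Type*} [Fintype K] (con : Pt P → K) (s : Bool) (a b : ℕ) :
    Finset K :=
  univ.filter (fun κ => (∃ p, p ∈ iv P s a b ∧ con p = κ) ∧ ∃ p, p ∉ iv P s a b ∧ con p = κ)

/-- contacts that leave the interval -/
noncomputable def lv2 {P : ℕ} {K : Type*} [Fintype K] (con : Pt P → K) (ct : K → K → Prop)
    (s : Bool) (a b : ℕ) : Finset (K × K) :=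
  univ.filter (fun x => ct x.1 x.2 ∧ (∃ p, p ∈ iv P s a b ∧ con p = x.1) ∧
    ∀ p, p ∈ iv P s a b → con p ≠ x.2)

/-- `conn` from cuts -/
theorem conn_of_cut {V K : Type*} {P : ℕ} {con : Pt P → K} {mem : V → K → Prop} {y : V}
    (h : ∀ T : Set K, (∃ κ, mem y κ ∧ κ ∈ T) → (∃ κ, mem y κ ∧ κ ∉ T) →
      ∃ p : Pt P, mem y (con p) ∧ mem y (con (flp p)) ∧ con p ∈ T ∧ con (flp p) ∉ T)
    (κ κ' : K) (h1 : mem y κ) (h2 : mem y κ') :
    Relation.ReflTransGen (fun a b => mem y a ∧ mem y b ∧ ∃ p, con p = a ∧ con (flp p) = b)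
      κ κ' := by
  by_contra hcon
  obtain ⟨p, h3, h4, h5, h6⟩ := h
    {κ1 | Relation.ReflTransGen (fun a b => mem y a ∧ mem y b ∧ ∃ p, con p = a ∧ con (flp p) = b)
      κ κ1} ⟨κ, h1, Relation.ReflTransGen.refl⟩ ⟨κ', h2, hcon⟩
  exact h6 (Relation.ReflTransGen.tail h5 ⟨h3, h4, p, rfl, rfl⟩)

theorem flp_flp {P : ℕ} (p : Pt P) : flp (flp p) = p := by
  simp [flp]

theorem Nb.symm {P : ℕ} {p p' : Pt P} (h : Nb p p') : Nb p' p := ⟨h.1.symm, h.2.symm⟩

theorem Nb.flp {P : ℕ} {p p' : Pt P} (h : Nb p p') : Nb (flp p) (flp p') :=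
  ⟨by simp [EN.Sweep.flp, h.1], h.2⟩

theorem mem_iv {P : ℕ} {s : Bool} {a b : ℕ} {p : Pt P} :
    p ∈ iv P s a b ↔ p.2 = s ∧ a ≤ p.1.val ∧ p.1.val ≤ b := by
  simp [iv]

/-- two different neighbours are all neighbours -/
theorem Nb.third {P : ℕ} {p q r t : Pt P} (h1 : Nb p q) (h2 : Nb p r) (h3 : q ≠ r)
    (h4 : Nb p t) : t = q ∨ t = r := by
  obtain ⟨⟨p1, hp⟩, ps⟩ := p
  obtain ⟨⟨q1, hq⟩, qs⟩ := q
  obtain ⟨⟨r1, hr⟩, rs⟩ := r
  obtain ⟨⟨t1, ht⟩, ts⟩ := t
  obtain ⟨a1, a2⟩ := h1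
  obtain ⟨b1, b2⟩ := h2
  obtain ⟨c1, c2⟩ := h4
  simp only at a1 a2 b1 b2 c1 c2
  subst a1 b1 c1
  have h5 : q1 ≠ r1 := fun h => h3 (by subst h; rfl)
  have h6 : t1 = q1 ∨ t1 = r1 := by omega
  rcases h6 with h6 | h6
  · subst h6; exact Or.inl rfl
  · subst h6; exact Or.inr rfl

section Main

variable {V K : Type*} {G : SimpleGraph V} {P : ℕ} {C : Set (Pt P)} {φ : Pt P → Pt P}
  {J : Pt P → Pt P → Prop} {con : Pt P → K} {mem : V → K → Prop} {ct : K → K → Prop}

theorem Sys.mat (hS : Sys G P C φ J con mem ct) : Mat flp φ C :=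
  ⟨flp_flp, hS.mem_C, hS.inv⟩

/-- parallel lines of neighbouring residual ports -/
structure Good (C : Set (Pt P)) (φ : Pt P → Pt P) (J : Pt P → Pt P → Prop) (q q' : Pt P) :
    Prop where
  j : J q q'
  r : q ∉ C
  r' : q' ∉ C
  e : J (ed flp φ C q) (ed flp φ C q')
  l : len flp φ C q = len flp φ C q'
  n : ∀ k, k ≤ len flp φ C q → Nb (wk flp φ q k) (wk flp φ q' k)

theorem good_or_cut (hS : Sys G P C φ J con mem ct) {q q' : Pt P} (hJ : J q q') (hq : q ∉ C) :
    Good C φ J q q' ∨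
      (Nb (ed (Prod.map flp flp) (Prod.map φ φ) {x : Pt P × Pt P | J x.1 x.2 ∧ x.1 ∈ C} (q, q')).1
        (ed (Prod.map flp flp) (Prod.map φ φ) {x : Pt P × Pt P | J x.1 x.2 ∧ x.1 ∈ C} (q, q')).2 ∧
      ¬ J (ed (Prod.map flp flp) (Prod.map φ φ) {x : Pt P × Pt P | J x.1 x.2 ∧ x.1 ∈ C} (q, q')).1
        (ed (Prod.map flp flp) (Prod.map φ φ)
          {x : Pt P × Pt P | J x.1 x.2 ∧ x.1 ∈ C} (q, q')).2) := by
  have hM := hS.mat
  set C2 : Set (Pt P × Pt P) := {x | J x.1 x.2 ∧ x.1 ∈ C} with hC2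
  have hM2 : Mat (Prod.map flp flp) (Prod.map φ φ) C2 := hM.pair hS.J_C hS.J_phi
  have hx : (q, q') ∉ C2 := fun h => hq h.2
  have hq' : q' ∉ C := fun h => hq (hS.J_C _ _ (hS.J_symm _ _ hJ) h)
  set n := len (Prod.map flp flp) (Prod.map φ φ) C2 (q, q') with hn
  have hok := len_ok hM2 hx
  have hJk : ∀ k, k ≤ n → J (wk flp φ q k) (wk flp φ q' k) := by
    intro k hk
    rcases Nat.eq_zero_or_pos k with h0 | h0
    · subst h0; exact hJ
    · have h1 := hok.mem hM2 h0 hk
      rw [wk_pair] at h1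
      exact h1.1
  have he : ed (Prod.map flp flp) (Prod.map φ φ) C2 (q, q')
      = (flp (wk flp φ q n), flp (wk flp φ q' n)) := by
    unfold ed
    rw [wk_pair]
    rfl
  rw [he]
  by_cases hJe : J (flp (wk flp φ q n)) (flp (wk flp φ q' n))
  · left
    have hnC : flp (wk flp φ q n) ∉ C := by
      intro h
      have h1 := ed_notMem hM2 hx
      rw [he] at h1
      exact h1 ⟨hJe, h⟩
    have hnC' : flp (wk flp φ q' n) ∉ C :=
      fun h => hnC (hS.J_C _ _ (hS.J_symm _ _ hJe) h)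
    have hok1 : Ok flp φ C q n := by
      intro k hk
      have h1 := hok k hk
      rw [wk_pair] at h1
      exact h1.2
    have hok2 : Ok flp φ C q' n := by
      intro k hk
      have h1 := hok k hk
      rw [wk_pair] at h1
      exact hS.J_C _ _ h1.1 h1.2
    have l1 := len_unique hM hq hok1 hnC
    have l2 := len_unique hM hq' hok2 hnC'
    refine ⟨hJ, hq, hq', ?_, by rw [l1, l2], ?_⟩
    · unfold ed
      rw [l1, l2]
      exact hJe
    · intro k hk
      rw [l1] at hk
      exact hS.J_nb _ _ (hJk k hk)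
  · right
    exact ⟨(hS.J_nb _ _ (hJk n (le_refl _))).flp, hJe⟩

/-- few residual joined neighbours are not parallel to the end -/
theorem card_bad (hS : Sys G P C φ J con mem ct) :
    (univ.filter (fun x : Pt P × Pt P => J x.1 x.2 ∧ x.1 ∉ C ∧ ¬ Good C φ J x.1 x.2)).card
      ≤ (univ.filter (fun x : Pt P × Pt P => Nb x.1 x.2 ∧ ¬ J x.1 x.2)).card := by
  have hM := hS.mat
  have hM2 : Mat (Prod.map flp flp) (Prod.map φ φ) {x : Pt P × Pt P | J x.1 x.2 ∧ x.1 ∈ C} :=
    hM.pair hS.J_C hS.J_phi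
  refine Finset.card_le_card_of_injOn
    (ed (Prod.map flp flp) (Prod.map φ φ) {x : Pt P × Pt P | J x.1 x.2 ∧ x.1 ∈ C}) ?_ ?_
  · rintro ⟨q, q'⟩ hx
    simp only [coe_filter, Set.mem_ofPred_eq, mem_univ, true_and] at hx ⊢
    rcases good_or_cut hS hx.1 hx.2.1 with h | h
    · exact absurd h hx.2.2
    · exact h
  · rintro x hx y hy hxy
    simp only [coe_filter, Set.mem_ofPred_eq, mem_univ, true_and] at hx hy
    exact ed_inj hM2 (fun h => hx.2.1 h.2) (fun h => hy.2.1 h.2) hxy

/-- the region of an interval: all its lines -/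
def Reg (C : Set (Pt P)) (φ : Pt P → Pt P) (s : Bool) (a b : ℕ) : Set (Pt P) :=
  {p | ∃ q, q ∈ iv P s a b ∧ p ∈ Ln flp φ C q}

/-- a run -/
def Run (C : Set (Pt P)) (φ : Pt P → Pt P) (J : Pt P → Pt P → Prop) (s : Bool) (a b : ℕ) :
    Prop :=
  a ≤ b ∧ b < P ∧ (∀ p, p ∈ iv P s a b → p ∉ C) ∧
    ∀ p p', p ∈ iv P s a b → p' ∈ iv P s a b → p.1.val + 1 = p'.1.val → Good C φ J p p'

theorem Good.symm (hS : Sys G P C φ J con mem ct) {q q' : Pt P} (h : Good C φ J q q') :
    Good C φ J q' q :=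
  ⟨hS.J_symm _ _ h.j, h.r', h.r, hS.J_symm _ _ h.e, h.l.symm,
    fun k hk => (h.n k (by rw [h.l]; exact hk)).symm⟩

theorem Run.good (hS : Sys G P C φ J con mem ct) {s : Bool} {a b : ℕ} (h : Run C φ J s a b)
    {p p' : Pt P} (hp : p ∈ iv P s a b) (hp' : p' ∈ iv P s a b) (hN : Nb p p') :
    Good C φ J p p' := by
  rcases hN.2 with h1 | h1
  · exact h.2.2.2 p p' hp hp' h1
  · exact (h.2.2.2 p' p hp' hp h1).symm hS

theorem Run.res (hS : Sys G P C φ J con mem ct) {s : Bool} {a b : ℕ} (h : Run C φ J s a b) :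
    Res C J s a b :=
  ⟨h.2.2.1, fun _ _ hp hp' hN => (h.good hS hp hp' hN).j⟩

theorem Run.mono {s : Bool} {a b b' : ℕ} (h : Run C φ J s a b) (h1 : a ≤ b') (h2 : b' ≤ b) :
    Run C φ J s a b' := by
  have h3 : ∀ p, p ∈ iv P s a b' → p ∈ iv P s a b := by
    intro p hp
    rw [mem_iv] at hp ⊢
    exact ⟨hp.1, hp.2.1, hp.2.2.trans h2⟩
  exact ⟨h1, lt_of_le_of_lt h2 h.2.1, fun p hp => h.2.2.1 p (h3 p hp),
    fun p p' hp hp' => h.2.2.2 p p' (h3 p hp) (h3 p' hp')⟩

/-- the other ends of a run form an interval -/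
theorem Run.image (hS : Sys G P C φ J con mem ct) {s : Bool} {a : ℕ} (n : ℕ) :
    Run C φ J s a (a + n) → ∃ (s' : Bool) (lo hi : ℕ),
      (∀ p : Pt P, p ∈ iv P s' lo hi ↔ ∃ q, q ∈ iv P s a (a + n) ∧ p = ed flp φ C q) ∧
      Res C J s' lo hi ∧ lo ≤ hi ∧
      (∀ q : Pt P, q.2 = s → q.1.val = a + n →
        (ed flp φ C q).1.val = lo ∨ (ed flp φ C q).1.val = hi) := by
  have hM := hS.mat
  induction n with
  | zero =>
    intro h
    have ha : a < P := h.2.1
    set q0 : Pt P := (⟨a, ha⟩, s) with hq0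
    have huniq : ∀ q : Pt P, q ∈ iv P s a (a + 0) → q = q0 := by
      rintro ⟨⟨q1, hq1⟩, qs⟩ hq
      rw [mem_iv] at hq
      obtain ⟨h1, h2, h3⟩ := hq
      simp only at h1 h2 h3
      have h4 : q1 = a := by omega
      subst h4 h1
      rfl
    have hq0m : q0 ∈ iv P s a (a + 0) := by
      rw [mem_iv]
      exact ⟨rfl, le_refl _, by simp [hq0]⟩
    have hq0C : q0 ∉ C := h.2.2.1 _ hq0m
    refine ⟨(ed flp φ C q0).2, (ed flp φ C q0).1.val, (ed flp φ C q0).1.val, ?_, ?_, le_refl _,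
      ?_⟩
    · intro p
      constructor
      · intro hp
        rw [mem_iv] at hp
        refine ⟨q0, hq0m, Prod.ext (Fin.ext (le_antisymm hp.2.2 hp.2.1)) hp.1⟩
      · rintro ⟨q, hq, rfl⟩
        rw [huniq q hq, mem_iv]
        exact ⟨rfl, le_refl _, le_refl _⟩
    · constructor
      · intro p hp
        rw [mem_iv] at hp
        have : p = ed flp φ C q0 := Prod.ext (Fin.ext (le_antisymm hp.2.2 hp.2.1)) hp.1
        rw [this]
        exact ed_notMem hM hq0C
      · intro p p' hp hp' hN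
        rw [mem_iv] at hp hp'
        exfalso
        have := hN.2
        omega
    · intro q hq1 hq2
      left
      rw [huniq q (by rw [mem_iv]; exact ⟨hq1, by omega, by omega⟩)]
  | succ n ih =>
    intro h
    obtain ⟨s', lo, hi, h1, h2, h3, h4⟩ := ih (h.mono (by omega) (by omega))
    have hbP : a + (n + 1) < P := h.2.1
    set q : Pt P := (⟨a + n, by omega⟩, s) with hq
    set q' : Pt P := (⟨a + (n + 1), hbP⟩, s) with hq'
    have hqm : q ∈ iv P s a (a + (n + 1)) := by
      rw [mem_iv]; exact ⟨rfl, by simp [hq], by simp [hq]⟩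
    have hqm0 : q ∈ iv P s a (a + n) := by
      rw [mem_iv]; exact ⟨rfl, by simp [hq], by simp [hq]⟩
    have hqm' : q' ∈ iv P s a (a + (n + 1)) := by
      rw [mem_iv]; exact ⟨rfl, by simp [hq'], by simp [hq']⟩
    have hg : Good C φ J q q' := h.2.2.2 q q' hqm hqm' (by simp [hq, hq']; omega)
    set e := ed flp φ C q with he
    set e' := ed flp φ C q' with he'
    have hee : Nb e e' := hS.J_nb _ _ hg.e
    have hem : e ∈ iv P s' lo hi := (h1 e).2 ⟨q, hqm0, rfl⟩
    have hem' : e' ∉ iv P s' lo hi := by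
      intro hcon
      obtain ⟨r, hr, hr'⟩ := (h1 e').1 hcon
      have hrC : r ∉ C := by
        refine h.2.2.1 r ?_
        rw [mem_iv] at hr ⊢
        exact ⟨hr.1, hr.2.1, by omega⟩
      have h5 : q' = r := ed_inj hM hg.r' hrC hr'
      rw [← h5, mem_iv] at hr
      simp [hq'] at hr
    have hes : e.2 = s' := (mem_iv.1 hem).1
    have hes' : e'.2 = s' := by rw [← hee.1]; exact hes
    have heC : e' ∉ C := ed_notMem hM hg.r'
    have hsplit : ∀ r : Pt P, r ∈ iv P s a (a + (n + 1)) ↔ r ∈ iv P s a (a + n) ∨ r = q' := by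
      rintro ⟨⟨r1, hr1⟩, rs⟩
      rw [mem_iv, mem_iv]
      constructor
      · rintro ⟨b1, b2, b3⟩
        simp only at b1 b2 b3
        by_cases hc : r1 = a + (n + 1)
        · right; subst hc b1; rfl
        · left; exact ⟨b1, b2, by simp only; omega⟩
      · rintro (⟨b1, b2, b3⟩ | b)
        · exact ⟨b1, b2, by omega⟩
        · rw [b]; exact ⟨rfl, by simp [hq'], by simp [hq']⟩
    have hme : lo ≤ e.1.val ∧ e.1.val ≤ hi := (mem_iv.1 hem).2
    have hne : ¬ (lo ≤ e'.1.val ∧ e'.1.val ≤ hi) := fun hc => hem' (mem_iv.2 ⟨hes', hc⟩)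
    -- the new interval
    have key : ∀ lo' hi' : ℕ, (lo' = lo ∧ hi' = hi + 1 ∧ e'.1.val = hi + 1 ∧ e.1.val = hi) ∨
        (lo' + 1 = lo ∧ hi' = hi ∧ e'.1.val + 1 = lo ∧ e.1.val = lo) →
        ∃ (s' : Bool) (lo hi : ℕ),
      (∀ p : Pt P, p ∈ iv P s' lo hi ↔
        ∃ q, q ∈ iv P s a (a + (n + 1)) ∧ p = ed flp φ C q) ∧
      Res C J s' lo hi ∧ lo ≤ hi ∧
      (∀ q : Pt P, q.2 = s → q.1.val = a + (n + 1) →
        (ed flp φ C q).1.val = lo ∨ (ed flp φ C q).1.val = hi) := by
      intro lo' hi' hc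
      have hsp : ∀ p : Pt P, p ∈ iv P s' lo' hi' ↔ p ∈ iv P s' lo hi ∨ p = e' := by
        intro p
        rw [mem_iv, mem_iv]
        constructor
        · rintro ⟨b1, b2, b3⟩
          by_cases hc2 : p.1.val = e'.1.val
          · right
            exact Prod.ext (Fin.ext hc2) (b1.trans hes'.symm)
          · left
            refine ⟨b1, ?_, ?_⟩ <;> omega
        · rintro (⟨b1, b2, b3⟩ | b)
          · refine ⟨b1, ?_, ?_⟩ <;> omega
          · rw [b]
            refine ⟨hes', ?_, ?_⟩ <;> omega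
      refine ⟨s', lo', hi', ?_, ⟨?_, ?_⟩, by omega, ?_⟩
      · intro p
        rw [hsp p, h1 p]
        constructor
        · rintro (⟨r, hr, hr'⟩ | hp)
          · exact ⟨r, (hsplit r).2 (Or.inl hr), hr'⟩
          · exact ⟨q', hqm', hp⟩
        · rintro ⟨r, hr, hr'⟩
          rcases (hsplit r).1 hr with hr2 | hr2
          · exact Or.inl ⟨r, hr2, hr'⟩
          · right; rw [hr', hr2]
      · intro p hp
        rcases (hsp p).1 hp with h5 | h5
        · exact h2.1 p h5
        · rw [h5]; exact heC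
      · intro p p' hp hp' hN
        rcases (hsp p).1 hp with h5 | h5
        · rcases (hsp p').1 hp' with h6 | h6
          · exact h2.2 p p' h5 h6 hN
          · -- p in old interval, p' = e'
            have : p = e := by
              have b := (mem_iv.1 h5)
              have b2 := hN.2
              rw [h6] at b2
              refine Prod.ext (Fin.ext ?_) (b.1.trans hes.symm)
              omega
            rw [this, h6]
            exact hg.e
        · rcases (hsp p').1 hp' with h6 | h6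
          · have : p' = e := by
              have b := (mem_iv.1 h6)
              have b2 := hN.2
              rw [h5] at b2
              refine Prod.ext (Fin.ext ?_) (b.1.trans hes.symm)
              omega
            rw [this, h5]
            exact hS.J_symm _ _ hg.e
          · exfalso
            rw [h5, h6] at hN
            have := hN.2
            omega
      · intro r hr1 hr2
        have : r = q' := Prod.ext (Fin.ext hr2) hr1
        rw [this, ← he']
        omega
    have h4' := h4 q rfl rfl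
    rw [← he] at h4'
    rcases h4' with h5 | h5
    · rcases hee.2 with h6 | h6
      · -- e' = e + 1
        by_cases hc : lo = hi
        · exact key lo (hi + 1) (Or.inl ⟨rfl, rfl, by omega, by omega⟩)
        · exfalso; apply hne; omega
      · exact key (lo - 1) hi (Or.inr ⟨by omega, rfl, by omega, by omega⟩)
    · rcases hee.2 with h6 | h6
      · exact key lo (hi + 1) (Or.inl ⟨rfl, rfl, by omega, by omega⟩)
      · by_cases hc : lo = hi
        · exact key (lo - 1) hi (Or.inr ⟨by omega, rfl, by omega, by omega⟩)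
        · exfalso; apply hne; omega

/-- a vertex that touches a line is a member of one of its two end connectors -/
theorem touch (hS : Sys G P C φ J con mem ct) {q : Pt P} (hq : q ∉ C) {y : V} {p : Pt P}
    (hy : mem y (con p)) (hp : p ∈ Ln flp φ C q) :
    mem y (con q) ∨ mem y (con (ed flp φ C q)) := by
  have hM := hS.mat
  obtain ⟨p1, hp1, hp1C⟩ := hS.res y
  have hch := hS.conn y _ _ hy hp1
  have key : ∀ κ, Relation.ReflTransGen
      (fun a b => mem y a ∧ mem y b ∧ ∃ p, con p = a ∧ con (flp p) = b) κ (con p1) →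
      (∃ p, p ∈ Ln flp φ C q ∧ con p = κ) → mem y κ →
      mem y (con q) ∨ mem y (con (ed flp φ C q)) := by
    intro κ hκ
    induction hκ using Relation.ReflTransGen.head_induction_on with
    | refl =>
      rintro ⟨p, hp, hpc⟩ hm
      by_cases hpC : p ∈ C
      · exfalso
        rcases hS.two p hpC p1 hpc.symm with h | h
        · exact hp1C (h ▸ hpC)
        · exact hp1C (h ▸ hS.mem_C _ hpC)
      · rw [← hpc] at hm
        rcases Ln_res hM hq hp hpC with h | h
        · left; rw [← h]; exact hm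
        · right; rw [← h]; exact hm
    | head hab _ ih =>
      rintro ⟨p, hp, hpc⟩ hm
      obtain ⟨-, hb, p2, hp2, hp2'⟩ := hab
      by_cases hpC : p ∈ C
      · have hp2L : p2 ∈ Ln flp φ C q := by
          rcases hS.two p hpC p2 (hp2.trans hpc.symm) with h | h
          · rw [h]; exact hp
          · rw [h]; exact Ln_phi hM hq hp hpC
        exact ih ⟨flp p2, Ln_fl hM hp2L, hp2'⟩ hb
      · rw [← hpc] at hm
        rcases Ln_res hM hq hp hpC with h | h
        · left; rw [← h]; exact hm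
        · right; rw [← h]; exact hm
  exact key _ hch ⟨p, hp, rfl⟩ hy

/-- a vertex with ports inside and outside of a saturated set has a residual connector with ports
inside and outside -/
theorem crossing (hS : Sys G P C φ J con mem ct) {S : Set (Pt P)} (h1 : ∀ p, p ∈ S → flp p ∈ S)
    (h2 : ∀ p, p ∈ S → p ∈ C → φ p ∈ S) {y : V} {p p' : Pt P} (hy : mem y (con p))
    (hy' : mem y (con p')) (hp : p ∈ S) (hp' : p' ∉ S) :
    ∃ p1 p2 : Pt P, con p1 = con p2 ∧ mem y (con p1) ∧ p1 ∈ S ∧ p2 ∉ S ∧ p1 ∉ C ∧ p2 ∉ C := by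
  have hfin : ∀ p1 p2 : Pt P, con p1 = con p2 → mem y (con p1) → p1 ∈ S → p2 ∉ S →
      ∃ p1 p2 : Pt P, con p1 = con p2 ∧ mem y (con p1) ∧ p1 ∈ S ∧ p2 ∉ S ∧ p1 ∉ C ∧ p2 ∉ C := by
    intro p1 p2 h3 h4 h5 h6
    refine ⟨p1, p2, h3, h4, h5, h6, ?_, ?_⟩
    · intro hC
      rcases hS.two p1 hC p2 h3.symm with h | h
      · exact h6 (h ▸ h5)
      · exact h6 (h ▸ h2 _ h5 hC)
    · intro hC
      rcases hS.two p2 hC p1 h3 with h | h
      · exact h6 (h ▸ h5)
      · apply h6
        have h7 : φ p1 = p2 := by rw [h, hS.inv _ hC]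
        rw [← h7]
        exact h2 _ h5 (by rw [h]; exact hS.mem_C _ hC)
  have hch := hS.conn y _ _ hy hy'
  have key : ∀ κ, Relation.ReflTransGen
      (fun a b => mem y a ∧ mem y b ∧ ∃ p, con p = a ∧ con (flp p) = b) κ (con p') →
      (∃ p, p ∈ S ∧ con p = κ) → mem y κ →
      ∃ p1 p2 : Pt P, con p1 = con p2 ∧ mem y (con p1) ∧ p1 ∈ S ∧ p2 ∉ S ∧ p1 ∉ C ∧ p2 ∉ C := by
    intro κ hκ
    induction hκ using Relation.ReflTransGen.head_induction_on with
    | refl =>
      rintro ⟨p, hp, hpc⟩ hm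
      exact hfin p p' hpc (by rw [hpc]; exact hm) hp hp'
    | head hab _ ih =>
      rintro ⟨p, hp, hpc⟩ hm
      obtain ⟨-, hb, p2, hp2, hp2'⟩ := hab
      by_cases hS2 : p2 ∈ S
      · exact ih ⟨flp p2, h1 _ hS2, hp2'⟩ hb
      · exact hfin p p2 (hpc.trans hp2.symm) (by rw [hpc]; exact hm) hp hS2
  exact key _ hch ⟨p, hp, rfl⟩ hy

theorem Reg_fl (hS : Sys G P C φ J con mem ct) {s : Bool} {a b : ℕ} {p : Pt P}
    (h : p ∈ Reg C φ s a b) : flp p ∈ Reg C φ s a b := by
  obtain ⟨q, hq, hp⟩ := h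
  exact ⟨q, hq, Ln_fl hS.mat hp⟩

theorem Reg_phi (hS : Sys G P C φ J con mem ct) {s : Bool} {a b : ℕ}
    (hr : ∀ p, p ∈ iv P s a b → p ∉ C) {p : Pt P}
    (h : p ∈ Reg C φ s a b) (hC : p ∈ C) : φ p ∈ Reg C φ s a b := by
  obtain ⟨q, hq, hp⟩ := h
  exact ⟨q, hq, Ln_phi hS.mat (hr q hq) hp hC⟩

/-- the neighbours of an inner line are in the region -/
theorem Run.inner (hS : Sys G P C φ J con mem ct) {s : Bool} {a b : ℕ} (h : Run C φ J s a b)
    {q p p' : Pt P} (hq : q.2 = s) (h1 : a < q.1.val) (h2 : q.1.val < b)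
    (hp : p ∈ Ln flp φ C q) (hN : Nb p p') : p' ∈ Reg C φ s a b := by
  have hM := hS.mat
  have hbP : b < P := h.2.1
  set q1 : Pt P := (⟨q.1.val - 1, by omega⟩, s) with hq1
  set q2 : Pt P := (⟨q.1.val + 1, by omega⟩, s) with hq2
  have m0 : q ∈ iv P s a b := mem_iv.2 ⟨hq, by omega, by omega⟩
  have m1 : q1 ∈ iv P s a b := mem_iv.2 ⟨rfl, by simp [hq1]; omega, by simp [hq1]; omega⟩
  have m2 : q2 ∈ iv P s a b := mem_iv.2 ⟨rfl, by simp [hq2]; omega, by simp [hq2]; omega⟩
  have g1 : Good C φ J q q1 := by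
    refine h.good hS m0 m1 ⟨hq, Or.inr ?_⟩
    show q.1.val - 1 + 1 = q.1.val
    omega
  have g2 : Good C φ J q q2 := h.good hS m0 m2 ⟨hq, Or.inl (by simp [hq2])⟩
  have hne : q1 ≠ q2 := by
    intro hcon
    have h9 : q.1.val - 1 = q.1.val + 1 := congrArg (fun x : Pt P => x.1.val) hcon
    omega
  have hqC : q ∉ C := g1.r
  obtain ⟨k, hk, hpk⟩ := hp
  have n1 := g1.n k hk
  have n2 := g2.n k hk
  have hk1 : k ≤ len flp φ C q1 := by rw [← g1.l]; exact hk
  have hk2 : k ≤ len flp φ C q2 := by rw [← g2.l]; exact hk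
  have hne2 : wk flp φ q1 k ≠ wk flp φ q2 k := by
    intro hcon
    exact hne (wk_inj hM ((len_ok hM g1.r').mono hk1) ((len_ok hM g2.r').mono hk2) hcon)
  rcases hpk with hpk | hpk
  · rw [hpk] at hN
    rcases n1.third n2 hne2 hN with h3 | h3
    · exact ⟨q1, m1, k, hk1, Or.inl h3⟩
    · exact ⟨q2, m2, k, hk2, Or.inl h3⟩
  · rw [hpk] at hN
    have hne3 : flp (wk flp φ q1 k) ≠ flp (wk flp φ q2 k) := by
      intro hcon
      apply hne2
      rw [← flp_flp (wk flp φ q1 k), hcon, flp_flp]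
    rcases n1.flp.third n2.flp hne3 hN with h3 | h3
    · exact ⟨q1, m1, k, hk1, Or.inr h3⟩
    · exact ⟨q2, m2, k, hk2, Or.inr h3⟩

/-- the vertices inside the region -/
noncomputable def inn [Fintype V] (C : Set (Pt P)) (φ : Pt P → Pt P) (con : Pt P → K)
    (mem : V → K → Prop) (s : Bool) (a b : ℕ) : Finset V :=
  univ.filter (fun y => ∀ p, mem y (con p) → p ∈ Reg C φ s a b)

/-- the vertices of a connector set -/
noncomputable def members [Fintype V] (mem : V → K → Prop) (κ : K) : Finset V :=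
  univ.filter (fun y => mem y κ)

/-- a crossing vertex of a run is a member of a leaving connector -/
theorem Run.cross [Fintype V] [Fintype K] (hS : Sys G P C φ J con mem ct) {s s' : Bool}
    {a b lo hi : ℕ} (h : Run C φ J s a b)
    (hI : ∀ p : Pt P, p ∈ iv P s' lo hi ↔ ∃ q, q ∈ iv P s a b ∧ p = ed flp φ C q)
    {y : V} {p p' : Pt P} (hy : mem y (con p)) (hy' : mem y (con p'))
    (hp : p ∈ Reg C φ s a b) (hp' : p' ∉ Reg C φ s a b) :
    y ∈ (lv1 con s a b ∪ lv1 con s' lo hi).biUnion (members mem) := by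
  have hM := hS.mat
  obtain ⟨p1, p2, h1, h2, h3, h4, h5, h6⟩ := crossing hS
    (S := Reg C φ s a b) (fun p => Reg_fl hS) (fun p => Reg_phi hS h.2.2.1) hy hy' hp hp'
  rw [mem_biUnion]
  refine ⟨con p1, ?_, by simp [members, h2]⟩
  rw [mem_union]
  obtain ⟨q, hq, hqL⟩ := h3
  have hqC := h.2.2.1 q hq
  have hself : ∀ r, r ∈ iv P s a b → r ∈ Reg C φ s a b := fun r hr => ⟨r, hr, Ln_self r⟩
  have hend : ∀ r, r ∈ iv P s' lo hi → r ∈ Reg C φ s a b := by
    intro r hr
    obtain ⟨t, ht, rfl⟩ := (hI r).1 hr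
    exact ⟨t, ht, ed_Ln t⟩
  rcases Ln_res hM hqC hqL h5 with h7 | h7
  · left
    simp only [lv1, mem_filter, mem_univ, true_and]
    exact ⟨⟨p1, h7 ▸ hq, rfl⟩, ⟨p2, fun hc => h4 (hself _ hc), h1.symm⟩⟩
  · right
    simp only [lv1, mem_filter, mem_univ, true_and]
    exact ⟨⟨p1, (hI p1).2 ⟨q, hq, h7⟩, rfl⟩, ⟨p2, fun hc => h4 (hend _ hc), h1.symm⟩⟩

/-- crossing vertices of a region -/
noncomputable def crs [Fintype V] (C : Set (Pt P)) (φ : Pt P → Pt P) (con : Pt P → K)
    (mem : V → K → Prop) (s : Bool) (a b : ℕ) : Finset V :=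
  univ.filter (fun y => (∃ p, mem y (con p) ∧ p ∈ Reg C φ s a b) ∧
    ∃ p, mem y (con p) ∧ p ∉ Reg C φ s a b)

theorem card_biUnion_le' {α β : Type*} [DecidableEq β] (S : Finset α) (F : α → Finset β) (n m : ℕ)
    (h1 : S.card ≤ n) (h2 : ∀ x, (F x).card ≤ m) : (S.biUnion F).card ≤ n * m :=
  (card_biUnion_le_card_mul S F m (fun x _ => h2 x)).trans (Nat.mul_le_mul_right m h1)

section Count

variable [Fintype V] [Fintype K] {d Δ M R f : ℕ}

theorem Run.card_crs (hS : Sys G P C φ J con mem ct)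
    (hΔ : ∀ κ, (members mem κ : Finset V).card ≤ Δ)
    (h1 : ∀ s a b, Res C J s a b → (lv1 con s a b).card ≤ M) {s : Bool} {a b : ℕ}
    (h : Run C φ J s a b) : (crs C φ con mem s a b).card ≤ (M + M) * Δ := by
  obtain ⟨n, rfl⟩ : ∃ n, b = a + n := ⟨b - a, by have := h.1; omega⟩
  obtain ⟨s', lo, hi, hI, hR', -, -⟩ := h.image hS n
  refine (card_le_card (t := (lv1 con s a (a + n) ∪ lv1 con s' lo hi).biUnion (members mem))
    ?_).trans (card_biUnion_le' _ _ _ _ ?_ hΔ)
  · intro y hy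
    simp only [crs, mem_filter, mem_univ, true_and] at hy
    obtain ⟨⟨p, hp1, hp2⟩, p', hp1', hp2'⟩ := hy
    exact h.cross hS hI hp1 hp1' hp2 hp2'
  · exact (card_union_le _ _).trans (Nat.add_le_add (h1 _ _ _ (h.res hS)) (h1 _ _ _ hR'))

/-- the boundary of the inside of a run -/
theorem Run.boundary (hS : Sys G P C φ J con mem ct)
    (hd : ∀ y, (univ.filter (fun z => G.Adj y z)).card ≤ d)
    (hΔ : ∀ κ, (members mem κ : Finset V).card ≤ Δ)
    (h1 : ∀ s a b, Res C J s a b → (lv1 con s a b).card ≤ M)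
    (h2 : ∀ s a b, Res C J s a b → (lv2 con ct s a b).card ≤ M) {s : Bool} {a b : ℕ}
    (h : Run C φ J s a b) :
    (univ.filter (fun x : V × V => G.Adj x.1 x.2 ∧ x.1 ∈ inn C φ con mem s a b ∧
      x.2 ∉ inn C φ con mem s a b)).card
      ≤ (M + M) * Δ * d + (M + M) * (Δ * Δ) + 4 * Δ * d := by
  have hM := hS.mat
  obtain ⟨n, rfl⟩ : ∃ n, b = a + n := ⟨b - a, by have := h.1; omega⟩
  obtain ⟨s', lo, hi, hI, hR', -, -⟩ := h.image hS n
  have hbP : a + n < P := h.2.1
  set qa : Pt P := (⟨a, by omega⟩, s) with hqa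
  set qb : Pt P := (⟨a + n, hbP⟩, s) with hqb
  set E1 : Finset (V × V) := (crs C φ con mem s a (a + n)).biUnion
    (fun z => (univ.filter (fun y => G.Adj z y)).image (fun y => (y, z))) with hE1
  set E2 : Finset (V × V) := (lv2 con ct s a (a + n) ∪ lv2 con ct s' lo hi).biUnion
    (fun x => members mem x.1 ×ˢ members mem x.2) with hE2
  set Y : Finset V := (members mem (con qa) ∪ members mem (con (ed flp φ C qa))) ∪
    (members mem (con qb) ∪ members mem (con (ed flp φ C qb))) with hY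
  set E3 : Finset (V × V) := Y.biUnion
    (fun y => (univ.filter (fun z => G.Adj y z)).image (fun z => (y, z))) with hE3
  have hself : ∀ r, r ∈ iv P s a (a + n) → r ∈ Reg C φ s a (a + n) := fun r hr => ⟨r, hr, Ln_self r⟩
  have hend : ∀ r, r ∈ iv P s' lo hi → r ∈ Reg C φ s a (a + n) := by
    intro r hr
    obtain ⟨t, ht, rfl⟩ := (hI r).1 hr
    exact ⟨t, ht, ed_Ln t⟩
  have hsub : (univ.filter (fun x : V × V => G.Adj x.1 x.2 ∧ x.1 ∈ inn C φ con mem s a (a + n) ∧
      x.2 ∉ inn C φ con mem s a (a + n))) ⊆ E1 ∪ E2 ∪ E3 := by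
    rintro ⟨y, z⟩ hx
    simp only [mem_filter, mem_univ, true_and] at hx
    obtain ⟨hadj, hy, hz⟩ := hx
    simp only [inn, mem_filter, mem_univ, true_and] at hy hz
    push Not at hz
    obtain ⟨p0, hp0, hp0'⟩ := hz
    by_cases hz2 : ∃ p, mem z (con p) ∧ p ∈ Reg C φ s a (a + n)
    · refine mem_union_left _ (mem_union_left _ ?_)
      rw [hE1, mem_biUnion]
      refine ⟨z, ?_, ?_⟩
      · simp only [crs, mem_filter, mem_univ, true_and]
        exact ⟨hz2, p0, hp0, hp0'⟩
      · simp [hadj.symm]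
    · push Not at hz2
      have hYm : ∀ p q : Pt P, mem y (con p) → q ∈ iv P s a (a + n) → p ∈ Ln flp φ C q →
          (q = qa ∨ q = qb) → (y, z) ∈ E3 := by
        intro p q hp1 hq hqL hqab
        rw [hE3, mem_biUnion]
        refine ⟨y, ?_, by simp [hadj]⟩
        have ht := touch hS (h.2.2.1 q hq) hp1 hqL
        rw [hY, mem_union, mem_union, mem_union]
        simp only [members, mem_filter, mem_univ, true_and]
        rcases hqab with hqq | hqq
        · rw [hqq] at ht; exact Or.inl ht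
        · rw [hqq] at ht; exact Or.inr ht
      have hqab : ∀ p p' q : Pt P, q ∈ iv P s a (a + n) → p ∈ Ln flp φ C q → Nb p p' →
          p' ∉ Reg C φ s a (a + n) → q = qa ∨ q = qb := by
        intro p p' q hq hqL hN hp'R
        have hqm := mem_iv.1 hq
        by_cases c1 : q.1.val = a
        · left; exact Prod.ext (Fin.ext c1) hqm.1
        by_cases c2 : q.1.val = a + n
        · right; exact Prod.ext (Fin.ext c2) hqm.1
        exfalso
        exact hp'R (h.inner hS hqm.1 (by omega) (by omega) hqL hN)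
      by_cases hzz : ∃ p, p ∈ C ∧ ∃ κ', ct (con p) κ' ∧ mem y (con p) ∧ mem z κ'
      · refine mem_union_right _ ?_
        obtain ⟨p, hpC, κ', hct, hκ1, hκ2⟩ := hzz
        have hpR := hy p hκ1
        rcases hS.noct p hpC κ' hct with h3 | ⟨p', hN, h3⟩
        · exfalso
          rw [h3] at hκ2
          exact hz2 _ hκ2 (Reg_phi hS h.2.2.1 hpR hpC)
        · rw [h3] at hκ2
          obtain ⟨q, hq, hqL⟩ := hpR
          exact hYm p q hκ1 hq hqL (hqab (φ p) p' q hq
            (Ln_phi hM (h.2.2.1 q hq) hqL hpC) hN (hz2 p' hκ2))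
      rcases hS.edge y z hadj with ⟨κ, hκ1, hκ2⟩ | ⟨κ, κ', hκ1, hκ2, hct⟩ | ⟨p, hp1, hp2⟩ |
        ⟨p, p', hN, hp1, hp2⟩
      · exfalso
        obtain ⟨p, rfl⟩ := hS.port _ _ hκ1
        exact hz2 p hκ2 (hy p hκ1)
      · refine mem_union_left _ (mem_union_right _ ?_)
        obtain ⟨p, rfl⟩ := hS.port _ _ hκ1
        have hpR := hy p hκ1
        have hpC : p ∉ C := fun hc => hzz ⟨p, hc, κ', hct, hκ1, hκ2⟩
        obtain ⟨q, hq, hqL⟩ := hpR
        rw [hE2, mem_biUnion]
        refine ⟨(con p, κ'), ?_, by simp [members, hκ1, hκ2]⟩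
        rw [mem_union]
        rcases Ln_res hM (h.2.2.1 q hq) hqL hpC with h7 | h7
        · left
          simp only [lv2, mem_filter, mem_univ, true_and]
          refine ⟨hct, ⟨p, h7 ▸ hq, rfl⟩, ?_⟩
          intro r hr hrc
          exact hz2 r (by rw [hrc]; exact hκ2) (hself r hr)
        · right
          simp only [lv2, mem_filter, mem_univ, true_and]
          refine ⟨hct, ⟨p, (hI p).2 ⟨q, hq, h7⟩, rfl⟩, ?_⟩
          intro r hr hrc
          exact hz2 r (by rw [hrc]; exact hκ2) (hend r hr)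
      · exfalso
        exact hz2 _ hp2 (Reg_fl hS (hy p hp1))
      · refine mem_union_right _ ?_
        have hp'R : p' ∉ Reg C φ s a (a + n) := by
          rcases hp2 with hp2 | hp2
          · exact hz2 p' hp2
          · intro hc
            exact hz2 _ hp2 (Reg_fl hS hc)
        obtain ⟨q, hq, hqL⟩ := hy p hp1
        exact hYm p q hp1 hq hqL (hqab p p' q hq hqL hN hp'R)
  refine (card_le_card hsub).trans ((card_union_le _ _).trans (Nat.add_le_add
    ((card_union_le _ _).trans (Nat.add_le_add ?_ ?_)) ?_))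
  · rw [hE1]
    refine card_biUnion_le' _ _ _ _ (h.card_crs hS hΔ h1) (fun z => ?_)
    exact card_image_le.trans (hd z)
  · rw [hE2]
    refine card_biUnion_le' _ _ _ _ ((card_union_le _ _).trans (Nat.add_le_add
      (h2 _ _ _ (h.res hS)) (h2 _ _ _ hR'))) (fun x => ?_)
    rw [card_product]
    exact Nat.mul_le_mul (hΔ _) (hΔ _)
  · rw [hE3]
    refine card_biUnion_le' _ _ (4 * Δ) _ ?_ (fun z => ?_)
    swap
    · exact card_image_le.trans (hd z)
    calc Y.card ≤ (members mem (con qa) ∪ members mem (con (ed flp φ C qa))).card +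
        (members mem (con qb) ∪ members mem (con (ed flp φ C qb))).card := card_union_le _ _
      _ ≤ (Δ + Δ) + (Δ + Δ) := Nat.add_le_add
          ((card_union_le _ _).trans (Nat.add_le_add (hΔ _) (hΔ _)))
          ((card_union_le _ _).trans (Nat.add_le_add (hΔ _) (hΔ _)))
      _ = 4 * Δ := by ring

/-- the sweep -/
theorem Run.small (hS : Sys G P C φ J con mem ct)
    (hd : ∀ y, (univ.filter (fun z => G.Adj y z)).card ≤ d)
    (hΔ : ∀ κ, (members mem κ : Finset V).card ≤ Δ)
    (h1 : ∀ s a b, Res C J s a b → (lv1 con s a b).card ≤ M)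
    (h2 : ∀ s a b, Res C J s a b → (lv2 con ct s a b).card ≤ M)
    (hiso : ∀ A : Finset V, (univ.filter (fun x : V × V => G.Adj x.1 x.2 ∧ x.1 ∈ A ∧
      x.2 ∉ A)).card ≤ (M + M) * Δ * d + (M + M) * (Δ * Δ) + 4 * Δ * d →
      A.card ≤ f ∨ Aᶜ.card ≤ f)
    (hbig : 2 * f + 2 * Δ < Fintype.card V) {s : Bool} {a : ℕ} (n : ℕ) :
    Run C φ J s a (a + n) → (inn C φ con mem s a (a + n)).card ≤ f := by
  have hstep : ∀ (b : ℕ) (A : Finset V), Run C φ J s a b → A.card ≤ f →
      (∀ y, y ∈ inn C φ con mem s a b → y ∈ A ∨ ∃ q : Pt P, q = (q.1, s) ∧ q.1.val = b ∧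
        q ∉ C ∧ (mem y (con q) ∨ mem y (con (ed flp φ C q)))) →
      (inn C φ con mem s a b).card ≤ f := by
    intro b A hr hA hin
    rcases hiso _ (hr.boundary hS hd hΔ h1 h2) with h3 | h3
    · exact h3
    · exfalso
      have hbP : b < P := hr.2.1
      have h4 : (inn C φ con mem s a b) ⊆ A ∪ (members mem (con ((⟨b, hbP⟩, s) : Pt P)) ∪
          members mem (con (ed flp φ C ((⟨b, hbP⟩, s) : Pt P)))) := by
        intro y hy
        rcases hin y hy with h5 | ⟨q, hq1, hq2, -, hq3⟩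
        · exact mem_union_left _ h5
        · have hqe : q = ((⟨b, hbP⟩, s) : Pt P) := by
            rw [hq1]; exact Prod.ext (Fin.ext hq2) rfl
          rw [hqe] at hq3
          refine mem_union_right _ ?_
          rw [mem_union]
          simp only [members, mem_filter, mem_univ, true_and]
          exact hq3
      have h5 : (inn C φ con mem s a b).card ≤ f + (Δ + Δ) :=
        (card_le_card h4).trans ((card_union_le _ _).trans (Nat.add_le_add hA
          ((card_union_le _ _).trans (Nat.add_le_add (hΔ _) (hΔ _)))))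
      have h6 := card_add_card_compl (inn C φ con mem s a b)
      omega
  induction n with
  | zero =>
    intro h
    refine hstep _ ∅ h (by simp) ?_
    intro y hy
    right
    simp only [inn, mem_filter, mem_univ, true_and] at hy
    obtain ⟨p, hp, -⟩ := hS.res y
    obtain ⟨q, hq, hqL⟩ := hy p hp
    have hqm := mem_iv.1 hq
    refine ⟨q, Prod.ext rfl hqm.1, by omega, h.2.2.1 q hq, touch hS (h.2.2.1 q hq) hp hqL⟩
  | succ n ih =>
    intro h
    have h0 : Run C φ J s a (a + n) := h.mono (by omega) (by omega)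
    refine hstep _ _ h (ih h0) ?_
    intro y hy
    by_cases hc : y ∈ inn C φ con mem s a (a + n)
    · exact Or.inl hc
    · right
      simp only [inn, mem_filter, mem_univ, true_and] at hy hc
      push Not at hc
      obtain ⟨p, hp, hpR⟩ := hc
      obtain ⟨q, hq, hqL⟩ := hy p hp
      have hqm := mem_iv.1 hq
      have hqv : q.1.val = a + (n + 1) := by
        by_contra hne
        exact hpR ⟨q, mem_iv.2 ⟨hqm.1, hqm.2.1, by omega⟩, hqL⟩
      exact ⟨q, Prod.ext rfl hqm.1, hqv, h.2.2.1 q hq, touch hS (h.2.2.1 q hq) hp hqL⟩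

/-- the starts of runs -/
noncomputable def starts (C : Set (Pt P)) (φ : Pt P → Pt P) (J : Pt P → Pt P → Prop) :
    Finset (Pt P) :=
  univ.filter (fun p => p ∉ C ∧ ∀ p' : Pt P, p'.2 = p.2 → p'.1.val + 1 = p.1.val →
    ¬ Good C φ J p' p)

omit [Fintype V] [Fintype K] in
theorem card_starts (hS : Sys G P C φ J con mem ct)
    (hR : (univ.filter (fun x : Pt P × Pt P => Nb x.1 x.2 ∧ ¬ J x.1 x.2)).card ≤ R) :
    (starts C φ J).card ≤ 2 + (R + R) := by
  have h1 : starts C φ J ⊆ (univ.filter (fun p : Pt P => p.1.val = 0)) ∪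
      ((univ.filter (fun x : Pt P × Pt P => Nb x.1 x.2 ∧ ¬ J x.1 x.2)) ∪
      (univ.filter (fun x : Pt P × Pt P => J x.1 x.2 ∧ x.1 ∉ C ∧ ¬ Good C φ J x.1 x.2))).image
        Prod.snd := by
    intro p hp
    simp only [starts, mem_filter, mem_univ, true_and] at hp
    obtain ⟨hpC, hpg⟩ := hp
    by_cases h0 : p.1.val = 0
    · exact mem_union_left _ (by simp [h0])
    · refine mem_union_right _ ?_
      set p' : Pt P := (⟨p.1.val - 1, by omega⟩, p.2) with hp'
      have hv : p'.1.val + 1 = p.1.val := by simp only [hp']; omega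
      have hN : Nb p' p := ⟨rfl, Or.inl hv⟩
      rw [mem_image]
      refine ⟨(p', p), ?_, rfl⟩
      rw [mem_union]
      simp only [mem_filter, mem_univ, true_and]
      by_cases hJ : J p' p
      · right
        exact ⟨hJ, fun hc => hpC (hS.J_C _ _ hJ hc), hpg p' rfl hv⟩
      · left
        exact ⟨hN, hJ⟩
  refine (card_le_card h1).trans ((card_union_le _ _).trans (Nat.add_le_add ?_
    (card_image_le.trans ((card_union_le _ _).trans (Nat.add_le_add hR
      ((card_bad hS).trans hR))))))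
  refine (card_le_card_of_injOn (t := (univ : Finset Bool)) Prod.snd
    (fun x _ => mem_coe.2 (mem_univ _)) ?_).trans (by simp)
  intro p hp q hq hpq
  simp only [coe_filter, mem_univ, true_and, Set.mem_ofPred_eq] at hp hq
  exact Prod.ext (Fin.ext (by omega)) hpq

/-- **Module III.** -/
theorem sweep (hS : Sys G P C φ J con mem ct)
    (hd : ∀ y, (univ.filter (fun z => G.Adj y z)).card ≤ d)
    (hΔ : ∀ κ, (members mem κ : Finset V).card ≤ Δ)
    (hR : (univ.filter (fun x : Pt P × Pt P => Nb x.1 x.2 ∧ ¬ J x.1 x.2)).card ≤ R)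
    (h1 : ∀ s a b, Res C J s a b → (lv1 con s a b).card ≤ M)
    (h2 : ∀ s a b, Res C J s a b → (lv2 con ct s a b).card ≤ M)
    (hiso : ∀ A : Finset V, (univ.filter (fun x : V × V => G.Adj x.1 x.2 ∧ x.1 ∈ A ∧
      x.2 ∉ A)).card ≤ (M + M) * Δ * d + (M + M) * (Δ * Δ) + 4 * Δ * d →
      A.card ≤ f ∨ Aᶜ.card ≤ f) :
    Fintype.card V ≤ 2 * f + 2 * Δ ∨
      Fintype.card V ≤ (2 + (R + R)) * (f + (M + M) * Δ) := by
  rcases Nat.lt_or_ge (2 * f + 2 * Δ) (Fintype.card V) with hbig | hsm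
  swap
  · exact Or.inl hsm
  right
  -- the last port of the run that starts at `p`
  have hmax : ∀ p : Pt P, p ∉ C → ∃ b, Run C φ J p.2 p.1.val b ∧
      ∀ b', Run C φ J p.2 p.1.val b' → b' ≤ b := by
    intro p hp
    have h0 : Run C φ J p.2 p.1.val p.1.val := by
      refine ⟨le_refl _, p.1.2, ?_, ?_⟩
      · intro q hq
        have hq' := mem_iv.1 hq
        have : q = p := Prod.ext (Fin.ext (le_antisymm hq'.2.2 hq'.2.1)) hq'.1
        rw [this]; exact hp
      · intro q q' hq hq' hqq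
        have e1 := mem_iv.1 hq
        have e2 := mem_iv.1 hq'
        omega
    have hex : ∃ n, Run C φ J p.2 p.1.val (P - n) := ⟨P - p.1.val, by
      have := p.1.2
      rw [show P - (P - p.1.val) = p.1.val by omega]
      exact h0⟩
    refine ⟨P - Nat.find hex, Nat.find_spec hex, ?_⟩
    intro b' hb'
    have hb'P : b' < P := hb'.2.1
    have : Nat.find hex ≤ P - b' := Nat.find_min' hex (by
      rw [show P - (P - b') = b' by omega]; exact hb')
    omega
  have hch : ∀ p : Pt P, ∃ b, p ∉ C → (Run C φ J p.2 p.1.val b ∧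
      ∀ b', Run C φ J p.2 p.1.val b' → b' ≤ b) := by
    intro p
    by_cases hp : p ∉ C
    · obtain ⟨b, hb⟩ := hmax p hp
      exact ⟨b, fun _ => hb⟩
    · exact ⟨0, fun h => absurd h hp⟩
  choose e he using hch
  have hcov : (univ : Finset V) ⊆ (starts C φ J).biUnion (fun p =>
      if p ∈ C then ∅ else inn C φ con mem p.2 p.1.val (e p) ∪
        crs C φ con mem p.2 p.1.val (e p)) := by
    intro y _
    obtain ⟨p, hp, hpC⟩ := hS.res y
    -- the start of the run of p
    have hex : ∃ a, Run C φ J p.2 a p.1.val := by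
      refine ⟨p.1.val, le_refl _, p.1.2, ?_, ?_⟩
      · intro q hq
        have hq' := mem_iv.1 hq
        have : q = p := Prod.ext (Fin.ext (le_antisymm hq'.2.2 hq'.2.1)) hq'.1
        rw [this]; exact hpC
      · intro q q' hq hq' hqq
        have e1 := mem_iv.1 hq
        have e2 := mem_iv.1 hq'
        omega
    set a := Nat.find hex with ha
    have hrun : Run C φ J p.2 a p.1.val := Nat.find_spec hex
    have haP : a < P := lt_of_le_of_lt hrun.1 hrun.2.1
    set p0 : Pt P := (⟨a, haP⟩, p.2) with hp0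
    have hp0C : p0 ∉ C := hrun.2.2.1 p0 (mem_iv.2 ⟨rfl, le_refl _, hrun.1⟩)
    have hst : p0 ∈ starts C φ J := by
      simp only [starts, mem_filter, mem_univ, true_and]
      refine ⟨hp0C, ?_⟩
      intro p' hp's hp'v hg
      have hp'v2 : p'.1.val + 1 = a := hp'v
      have : Run C φ J p.2 p'.1.val p.1.val := by
        have hle := hrun.1
        refine ⟨by omega, p.1.2, ?_, ?_⟩
        · intro q hq
          have hq' := mem_iv.1 hq
          by_cases hc : q.1.val = p'.1.val
          · have : q = p' := Prod.ext (Fin.ext hc) (hq'.1.trans hp's.symm)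
            rw [this]; exact hg.r
          · exact hrun.2.2.1 q (mem_iv.2 ⟨hq'.1, by omega, hq'.2.2⟩)
        · intro q q' hq hq' hqq
          have e1 := mem_iv.1 hq
          have e2 := mem_iv.1 hq'
          by_cases hc : q.1.val = p'.1.val
          · have t1 : q = p' := Prod.ext (Fin.ext hc) (e1.1.trans hp's.symm)
            have t2 : q' = p0 := Prod.ext (Fin.ext (by simp only [hp0]; omega)) e2.1
            rw [t1, t2]; exact hg
          · exact hrun.2.2.2 q q' (mem_iv.2 ⟨e1.1, by omega, e1.2.2⟩)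
              (mem_iv.2 ⟨e2.1, by omega, e2.2.2⟩) hqq
      have h3 : a ≤ p'.1.val := Nat.find_min' hex this
      omega
    have hb := he p0 hp0C
    have hle : p.1.val ≤ e p0 := hb.2 _ hrun
    rw [mem_biUnion]
    refine ⟨p0, hst, ?_⟩
    rw [if_neg hp0C, mem_union]
    have hpR : p ∈ Reg C φ p0.2 p0.1.val (e p0) :=
      ⟨p, mem_iv.2 ⟨rfl, hrun.1, hle⟩, Ln_self p⟩
    by_cases hc : ∀ p', mem y (con p') → p' ∈ Reg C φ p0.2 p0.1.val (e p0)
    · left
      simp only [inn, mem_filter, mem_univ, true_and]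
      exact hc
    · right
      push Not at hc
      obtain ⟨p', hp', hp'R⟩ := hc
      simp only [crs, mem_filter, mem_univ, true_and]
      exact ⟨⟨p, hp, hpR⟩, p', hp', hp'R⟩
  have hcard : (univ : Finset V).card ≤ (2 + (R + R)) * (f + (M + M) * Δ) := by
    refine (card_le_card hcov).trans (card_biUnion_le' _ _ _ _ (card_starts hS hR) ?_)
    intro p
    by_cases hp : p ∈ C
    · rw [if_pos hp]; simp
    · rw [if_neg hp]
      have hb := (he p hp).1
      refine (card_union_le _ _).trans (Nat.add_le_add ?_ (hb.card_crs hS hΔ h1))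
      obtain ⟨n, hn⟩ : ∃ n, e p = p.1.val + n := ⟨e p - p.1.val, by have := hb.1; omega⟩
      rw [hn] at hb ⊢
      exact Run.small hS hd hΔ h1 h2 hiso hbig n hb
  rwa [card_univ] at hcard

end Count

end Main

end EN.Sweep
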