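import Pool.Agent.EN.TautSys

/-!
# Row C1: every model yields a taut system of connectors
-/

open Relation

namespace Mdl

variable {V σ X : Type*}

section

variable {G : SimpleGraph X} {H : Host V σ} {D K : ℤ} {g : HV V σ → Option X}
  {us : Set (σ × ℕ)} {y z : X} {x₀ : X} {n : σ → ℕ} {col : σ → ℕ → ℕ} {cv : X → X → HV V σ}
  {gv : X → V}

/-- Bound for the number of ports of a connector. -/
theorem ports_le [Finite σ] [Finite X] (h3 : ∀ y, {z | G.Adj y z}.ncard ≤ 3)
    (h4 : ∀ a b c d, G.Adj a b → G.Adj b c → G.Adj c d → G.Adj d a → a = c ∨ b = d)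
    (hM : MinState G H D K g us) (hK : 2 * us.ncard + 4 ≤ K) (hKD : K ≤ D)
    (hA : Asg G H D K g us cv) (hgv : ∀ y, g (Sum.inl (gv y)) = some y ∧ H.gd (gv y))
    {w₀ : HV V σ} (hw₀ : Out K w₀) (hgw : g w₀ = some y) (A : Finset (σ × ℕ × Bool))
    (hAp : ∀ x ∈ A, (x.1, x.2.1) ∈ us ∧
      cmp H D K g x₀ (pt K x.1 x.2.1 x.2.2) = cmp H D K g x₀ w₀) : A.card ≤ 5 := by
  classical
  have hS := hM.st
  have husf := hS.usfin
  -- ports of `y`
  set U : Finset (σ × ℕ) := husf.toFinset with hU
  have hUm : ∀ p, p ∈ U ↔ p ∈ us := fun p => husf.mem_toFinset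
  set cm : HV V σ → Set (HV V σ) := cmp H D K g x₀ with hcm
  set PT : Finset (σ × ℕ × Bool) := (U ×ˢ (Finset.univ : Finset Bool)).image
    (fun p => (p.1.1, p.1.2, p.2)) with hPT
  have hPTm : ∀ x : σ × ℕ × Bool, x ∈ PT ↔ (x.1, x.2.1) ∈ us := by
    rintro ⟨s, c, e⟩
    simp only [hPT, Finset.mem_image, Finset.mem_product, Finset.mem_univ, and_true, Prod.exists,
      Prod.mk.injEq, Bool.exists_bool]
    constructor
    · rintro ⟨a, b, h | h⟩
      · obtain ⟨h1, rfl, rfl, _⟩ := h
        exact (hUm _).1 h1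
      · obtain ⟨h1, rfl, rfl, _⟩ := h
        exact (hUm _).1 h1
    · intro h
      refine ⟨s, c, ?_⟩
      cases e
      · exact Or.inl ⟨(hUm _).2 h, rfl, rfl, rfl⟩
      · exact Or.inr ⟨(hUm _).2 h, rfl, rfl, rfl⟩
  set PY : Finset (σ × ℕ × Bool) := PT.filter (fun x => g (pt K x.1 x.2.1 x.2.2) = some y)
    with hPY
  set Kis : Finset (σ × ℕ × Bool) := PY.filter (fun x => g (pt K x.1 x.2.1 (!x.2.2)) ≠ some y)
    with hKis
  set F : Finset (σ × ℕ) := U.filter (fun x => g (pt K x.1 x.2 false) = some y ∧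
    g (pt K x.1 x.2 true) = some y) with hF
  -- connectors of `y`
  have hNfin : {B : Set (HV V σ) | ∃ w, Out K w ∧ g w = some y ∧ B = cm w}.Finite := by
    have h1 : {B : Set (HV V σ) | ∃ w, Out K w ∧ g w = some y ∧ B = cm w} ⊆
        cm '' {w | g w ≠ none} := by
      rintro B ⟨w, _, h2, rfl⟩
      refine ⟨w, ?_, rfl⟩
      change g w ≠ none
      rw [h2]; simp
    exact (hS.fin.image _).subset h1
  set N : Finset (Set (HV V σ)) := hNfin.toFinset with hN
  have hNm : ∀ B, B ∈ N ↔ ∃ w, Out K w ∧ g w = some y ∧ B = cm w := fun B => hNfin.mem_toFinset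
  have hk : cm w₀ ∈ N := (hNm _).2 ⟨w₀, hw₀, hgw, rfl⟩
  -- (1) forest
  have hforest : F.card + 1 ≤ N.card := by
    refine forest N F (fun x => cm (pt K x.1 x.2 false)) (fun x => cm (pt K x.1 x.2 true))
      ?_ ?_ ⟨_, hk⟩ ?_
    · intro x hx
      rw [hF, Finset.mem_filter] at hx
      exact (hNm _).2 ⟨_, pt_out, hx.2.1, rfl⟩
    · intro x hx
      rw [hF, Finset.mem_filter] at hx
      exact (hNm _).2 ⟨_, pt_out, hx.2.2, rfl⟩
    · rintro ⟨s, i⟩ hx hcon
      have hx' := hx
      rw [hF, Finset.mem_filter] at hx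
      have hiu : (s, i) ∈ us := (hUm _).1 hx.1
      apply hM.bridge h4 hK hKD hiu hx.2.1 hx.2.2
      -- paths of connectors give connections without the jump
      have key : ∀ B, ReflTransGen (FSt {e' | e' ∈ F ∧ e' ≠ (s, i)}
          (fun x => cm (pt K x.1 x.2 false)) (fun x => cm (pt K x.1 x.2 true)))
          (cm (pt K s i false)) B → ∀ w, Out K w → g w = some y → cm w = B →
          St' H D K g us s i y (pt K s i false) w := by
        have hcc : ∀ u w, g u = some y → g w = some y → cm u = cm w →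
            St' H D K g us s i y u w := by
          intro u w hu hw huw
          have h1 : w ∈ cm u := by
            rw [huw]
            exact cmp_self
          rw [hcm] at h1
          unfold cmp at h1
          rw [cl_eq hu] at h1
          have h2 : ReflTransGen (OA H D K g y) u w := h1
          clear h1 huw hw
          induction h2 with
          | refl => exact ReflTransGen.refl
          | tail _ hbc ih => exact ReflTransGen.tail ih (Or.inl hbc)
        intro B hB
        induction hB with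
        | refl =>
          intro w _ hgw' hw
          exact hcc _ _ hx.2.1 hgw' hw.symm
        | tail _ hbc ih =>
          rename_i B C _
          intro w hwo hgw' hw
          obtain ⟨⟨s', j⟩, ⟨hj, hjne⟩, h1⟩ := hbc
          rw [hF, Finset.mem_filter] at hj
          have hju : (s', j) ∈ us := (hUm _).1 hj.1
          have hjmp : ∀ a b : HV V σ, ((a = Sum.inr (s', j, -K) ∧ b = Sum.inr (s', j, K)) ∨
              (a = Sum.inr (s', j, K) ∧ b = Sum.inr (s', j, -K))) →
              St' H D K g us s i y (pt K s i false) a →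
              St' H D K g us s i y (pt K s i false) b := by
            intro a b hab ha
            exact ReflTransGen.tail ha (Or.inr ⟨s', j, ⟨hju, hjne⟩, hj.2.1, hj.2.2, hab⟩)
          rcases h1 with ⟨h1, h2⟩ | ⟨h1, h2⟩
          · have h5 := ih (pt K s' j false) pt_out hj.2.1 h1
            have h6 := hjmp _ _ (Or.inl ⟨rfl, rfl⟩) h5
            exact ReflTransGen.trans h6 (hcc _ _ hj.2.2 hgw' (h2.trans hw.symm))
          · have h5 := ih (pt K s' j true) pt_out hj.2.2 h2
            have h6 := hjmp _ _ (Or.inr ⟨rfl, rfl⟩) h5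
            exact ReflTransGen.trans h6 (hcc _ _ hj.2.1 hgw' (h1.trans hw.symm))
      exact key _ hcon _ pt_out hx.2.2 rfl
  -- neighbours of `y`
  have hnbf : {z | G.Adj y z}.Finite := Set.toFinite _
  set Nb : Finset X := hnbf.toFinset with hNb
  have hNbm : ∀ z, z ∈ Nb ↔ G.Adj y z := fun z => hnbf.mem_toFinset
  have hNbc : Nb.card ≤ 3 := by
    rw [← Set.ncard_eq_toFinset_card _ hnbf]
    exact h3 y
  -- (2) kisses
  have hkis : Kis.card ≤ 3 := by
    refine le_trans (Finset.card_le_card_of_injOn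
      (fun x => cl g x₀ (pt K x.1 x.2.1 (!x.2.2))) ?_ ?_) hNbc
    · rintro ⟨s, c, e⟩ hx
      rw [Finset.mem_coe, hKis, Finset.mem_filter, hPY, Finset.mem_filter, hPTm] at hx
      obtain ⟨⟨hx1, hx2⟩, hx3⟩ := hx
      obtain ⟨a, ha⟩ := hS.pt_col hx1 (!e)
      rw [Finset.mem_coe, hNbm]
      simp only
      rw [cl_eq ha]
      obtain ⟨p, q, hp, hq, hpq⟩ := hS.own s c hx1
      simp only at hx2 hx3
      cases e
      · have e1 : p = y := by
          have := hp.symm.trans hx2
          exact Option.some.inj this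
        have e2 : q = a := Option.some.inj (hq.symm.trans ha)
        subst e1 e2
        rcases hpq with h5 | h5
        · exfalso
          apply hx3
          rw [ha, h5]
        · exact h5
      · have e1 : q = y := Option.some.inj (hq.symm.trans hx2)
        have e2 : p = a := Option.some.inj (hp.symm.trans ha)
        subst e1 e2
        rcases hpq with h5 | h5
        · exfalso
          apply hx3
          rw [ha, h5]
        · exact h5.symm
    · rintro ⟨s, c, e⟩ hx ⟨s', c', e'⟩ hx' heq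
      rw [Finset.mem_coe, hKis, Finset.mem_filter, hPY, Finset.mem_filter, hPTm] at hx hx'
      obtain ⟨⟨hx1, hx2⟩, hx3⟩ := hx
      obtain ⟨⟨hx1', hx2'⟩, hx3'⟩ := hx'
      obtain ⟨a, ha⟩ := hS.pt_col hx1 (!e)
      obtain ⟨a', ha'⟩ := hS.pt_col hx1' (!e')
      simp only at heq hx2 hx3 hx1' hx2' hx3' hx1
      rw [cl_eq ha, cl_eq ha'] at heq
      subst heq
      have hay : a ≠ y := by
        rintro rfl
        exact hx3 ha
      have h5 := hM.kiss h4 hK hKD hx1 hx1' (y := a) (z := y) hay hx2 ha hx2' ha'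
      obtain ⟨rfl, rfl⟩ := Prod.mk.inj h5
      have h6 : e = e' := by
        by_contra hne
        have h7 : e' = !e := by
          cases e <;> cases e' <;> simp_all
        rw [h7] at hx2'
        rw [ha, Option.some.injEq] at hx2'
        exact hay hx2'
      rw [h6]
  -- (3) number of ports of `y`
  have hPYc : PY.card ≤ 2 * F.card + 3 := by
    have h1 : PY ⊆ Kis ∪ (F ×ˢ (Finset.univ : Finset Bool)).image (fun p => (p.1.1, p.1.2, p.2)) := by
      rintro ⟨s, c, e⟩ hx
      rw [Finset.mem_union]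
      by_cases h5 : g (pt K s c (!e)) = some y
      · right
        have hx' := hx
        rw [hPY, Finset.mem_filter, hPTm] at hx
        obtain ⟨hx1, hx2⟩ := hx
        simp only at hx1 hx2
        rw [Finset.mem_image]
        refine ⟨((s, c), e), ?_, rfl⟩
        rw [Finset.mem_product]
        refine ⟨?_, Finset.mem_univ _⟩
        rw [hF, Finset.mem_filter]
        refine ⟨(hUm _).2 hx1, ?_⟩
        cases e
        · exact ⟨hx2, h5⟩
        · exact ⟨h5, hx2⟩
      · left
        rw [hKis, Finset.mem_filter]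
        exact ⟨hx, h5⟩
    have h2 := Finset.card_le_card h1
    have h5 := Finset.card_union_le Kis
      ((F ×ˢ (Finset.univ : Finset Bool)).image (fun p => (p.1.1, p.1.2, p.2)))
    have h6 : ((F ×ˢ (Finset.univ : Finset Bool)).image (fun p => (p.1.1, p.1.2, p.2))).card ≤
        2 * F.card := by
      refine le_trans Finset.card_image_le ?_
      rw [Finset.card_product]
      simp only [Finset.card_univ, Fintype.card_bool]
      omega
    omega
  -- (4) fibres
  set P : Set (HV V σ) → Finset (σ × ℕ × Bool) := fun B =>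
    PY.filter (fun x => cm (pt K x.1 x.2.1 x.2.2) = B) with hP
  have hsum : ∑ B ∈ N, (P B).card = PY.card := by
    rw [Finset.card_eq_sum_card_fiberwise (f := fun x => cm (pt K x.1 x.2.1 x.2.2)) (t := N)]
    rintro ⟨s, c, e⟩ hx
    rw [Finset.mem_coe, hPY, Finset.mem_filter] at hx
    rw [Finset.mem_coe, hNm]
    exact ⟨_, pt_out, hx.2, rfl⟩
  have hAk : A.card ≤ (P (cm w₀)).card := by
    apply Finset.card_le_card
    rintro ⟨s, c, e⟩ hx
    obtain ⟨h1, h2⟩ := hAp _ hx
    simp only at h1 h2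
    rw [hP, Finset.mem_filter, hPY, Finset.mem_filter, hPTm]
    refine ⟨⟨h1, ?_⟩, h2⟩
    have h5 : pt K s c e ∈ cm w₀ := by
      rw [← h2]
      exact cmp_self
    exact cmp_col hgw h5
  refine le_trans hAk ?_
  -- (5) one port
  set N1 : Finset (Set (HV V σ)) := N.filter (fun B => (P B).card ≤ 1) with hN1
  have hport : 2 ≤ N.card → ∀ B ∈ N, 1 ≤ (P B).card := by
    intro h2 B hB
    obtain ⟨w, hw, hgw', rfl⟩ := (hNm B).1 hB
    obtain ⟨B', hB', hne⟩ := Finset.exists_mem_ne h2 (cm w)
    obtain ⟨w', hw', hgw'', rfl⟩ := (hNm B').1 hB'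
    obtain ⟨s, c, h5, h6, h7, h8⟩ := hS.change (x₀ := x₀) hw hw' hgw' hgw'' {cm w} rfl hne
    rw [Nat.succ_le_iff, Finset.card_pos]
    by_cases h9 : cmp H D K g x₀ (pt K s c false) ∈ ({cm w} : Set (Set (HV V σ)))
    · refine ⟨(s, c, false), ?_⟩
      rw [hP, Finset.mem_filter, hPY, Finset.mem_filter, hPTm]
      exact ⟨⟨h5, h6⟩, h9⟩
    · have h10 : cmp H D K g x₀ (pt K s c true) ∈ ({cm w} : Set (Set (HV V σ))) := by
        by_contra h11
        exact h8 ⟨fun h => absurd h h9, fun h => absurd h h11⟩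
      refine ⟨(s, c, true), ?_⟩
      rw [hP, Finset.mem_filter, hPY, Finset.mem_filter, hPTm]
      exact ⟨⟨h5, h7⟩, h10⟩
  by_cases hN2 : 2 ≤ N.card
  · -- contacts used by one-port connectors
    set Z : Set (HV V σ) → Finset X := fun B =>
      Nb.filter (fun z => ¬ Ein K g us y z ∧ cv y z ∈ B) with hZ
    have hleaf : ∀ B ∈ N1, B ≠ cm (Sum.inl (gv y)) → 2 ≤ (Z B).card := by
      intro B hB hBg
      rw [hN1, Finset.mem_filter] at hB
      have h1 : (P B).card = 1 := le_antisymm hB.2 (hport hN2 B hB.1)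
      obtain ⟨⟨s, c, e⟩, hx⟩ := Finset.card_eq_one.1 h1
      have hxm : (s, c, e) ∈ P B := by rw [hx]; exact Finset.mem_singleton_self _
      rw [hP, Finset.mem_filter, hPY, Finset.mem_filter, hPTm] at hxm
      obtain ⟨⟨h5, h6⟩, h7⟩ := hxm
      simp only at h5 h6 h7
      have h8 : Cp H D K g y (pt K s c e) = B := by
        rw [← h7, hcm]
        unfold cmp
        rw [cl_eq h6]
      obtain ⟨z, z', h9, ⟨h10, h11, h12⟩, h13, h14, h15⟩ := hM.a2 h4 hK hKD hA h5
        (by
          intro s' c' e' h16 h17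
          have h18 : g (pt K s' c' e') = some y := Cp.col h6 h17
          have h19 : (s', c', e') ∈ P B := by
            rw [hP, Finset.mem_filter, hPY, Finset.mem_filter, hPTm]
            refine ⟨⟨h16, h18⟩, ?_⟩
            rw [← h7]
            apply cmp_eq h6
            unfold cmp
            rw [cl_eq h6]
            exact h17
          rw [hx, Finset.mem_singleton] at h19
          simp only [Prod.mk.injEq] at h19
          exact h19) h6 (v₀ := gv y) (hgv y).1 (hgv y).2 (by
          intro h16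
          apply hBg
          rw [← h7]
          symm
          apply cmp_eq h6
          unfold cmp
          rw [cl_eq h6]
          exact h16)
      rw [h8] at h12 h15
      have h16 : ({z, z'} : Finset X) ⊆ Z B := by
        intro a ha
        rw [Finset.mem_insert, Finset.mem_singleton] at ha
        rw [hZ, Finset.mem_filter, hNbm]
        rcases ha with rfl | rfl
        · exact ⟨h10, h11, h12⟩
        · exact ⟨h13, h14, h15⟩
      have h17 := Finset.card_le_card h16
      rw [Finset.card_pair h9] at h17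
      exact h17
    have hN1c : N1.card ≤ 2 := by
      have h1 : (N1.erase (cm (Sum.inl (gv y)))).card ≤ 1 := by
        by_contra hcon
        have h5 : 1 < (N1.erase (cm (Sum.inl (gv y)))).card := not_le.1 hcon
        obtain ⟨B, hB, B', hB', hne⟩ := Finset.one_lt_card.1 h5
        rw [Finset.mem_erase] at hB hB'
        have h6 := hleaf B hB.2 hB.1
        have h7 := hleaf B' hB'.2 hB'.1
        have h8 : Disjoint (Z B) (Z B') := by
          rw [Finset.disjoint_left]
          intro z hz hz'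
          rw [hZ, Finset.mem_filter] at hz hz'
          apply hne
          have hBN := (Finset.mem_filter.1 hB.2).1
          have hBN' := (Finset.mem_filter.1 hB'.2).1
          obtain ⟨w, _, hw, rfl⟩ := (hNm B).1 hBN
          obtain ⟨w', _, hw', rfl⟩ := (hNm B').1 hBN'
          have h9 : cmp H D K g x₀ (cv y z) = cm w := cmp_eq hw hz.2.2
          have h10 : cmp H D K g x₀ (cv y z) = cm w' := cmp_eq hw' hz'.2.2
          rw [← h9, ← h10]
        have h9 : (Z B ∪ Z B').card ≤ Nb.card := by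
          apply Finset.card_le_card
          intro z hz
          rw [Finset.mem_union] at hz
          rcases hz with hz | hz
          · exact (Finset.mem_filter.1 hz).1
          · exact (Finset.mem_filter.1 hz).1
        rw [Finset.card_union_of_disjoint h8] at h9
        omega
      have h2 := Finset.pred_card_le_card_erase (s := N1) (a := cm (Sum.inl (gv y)))
      omega
    -- count
    have h1 : ∑ B ∈ N, (P B).card = (P (cm w₀)).card + ∑ B ∈ N.erase (cm w₀), (P B).card :=
      (Finset.add_sum_erase N _ hk).symm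
    have h2 : 2 * (N.erase (cm w₀)).card ≤ ∑ B ∈ N.erase (cm w₀), (P B).card + N1.card := by
      have h5 : ∀ B ∈ N.erase (cm w₀), 2 ≤ (P B).card + (if B ∈ N1 then 1 else 0) := by
        intro B hB
        rw [Finset.mem_erase] at hB
        split_ifs with h6
        · have := hport hN2 B hB.2
          omega
        · by_contra h7
          apply h6
          rw [hN1, Finset.mem_filter]
          exact ⟨hB.2, by omega⟩
      have h6 := Finset.sum_le_sum h5
      rw [Finset.sum_const, smul_eq_mul, Finset.sum_add_distrib] at h6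
      have h7 : ∑ B ∈ N.erase (cm w₀), (if B ∈ N1 then 1 else 0) ≤ N1.card := by
        rw [← Finset.sum_filter, Finset.sum_const, smul_eq_mul, mul_one]
        apply Finset.card_le_card
        intro B hB
        exact (Finset.mem_filter.1 hB).2
      omega
    have h5 : (N.erase (cm w₀)).card = N.card - 1 := Finset.card_erase_of_mem hk
    omega
  · have h1 : (P (cm w₀)).card ≤ PY.card := by
      rw [hP]
      exact Finset.card_filter_le _ _
    omega

/-- **Row C1.** -/
theorem taut [Finite σ] [Finite X] [Nonempty X] {G : SimpleGraph X} {H : Host V σ}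
    (h3 : ∀ y, {z | G.Adj y z}.ncard ≤ 3)
    (h4 : ∀ a b c d, G.Adj a b → G.Adj b c → G.Adj c d → G.Adj d a → a = c ∨ b = d)
    {d K : ℤ} {f : HV V σ → Option X} (hd : 0 ≤ d) (hf : Model G H d f) (hK : 2 * mm f + 4 ≤ K) :
    ∃ (D : ℤ) (Y : CSys σ X (Set (HV V σ))), d + K ≤ D ∧ D ≤ d + (mm f + 1) * K ∧ Y.Taut G ∧
      Y.Conn H D K := by
  classical
  obtain ⟨D, g, us, h5, h6, h7, hM⟩ := exists_min (K := K) hd hf (by omega)
  have hS := hM.st
  have hK' : 2 * (us.ncard : ℤ) + 4 ≤ K := by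
    have : (us.ncard : ℤ) ≤ mm f := by exact_mod_cast h7
    linarith
  have hKD : K ≤ D := by omega
  obtain ⟨n, col, hn1, hn2, hn3⟩ := exists_num hS.usfin
  have hN : Num us n col := ⟨hn1, hn2, hn3⟩
  obtain ⟨x₀⟩ := (inferInstance : Nonempty X)
  choose gv hgv using hS.gnd
  obtain ⟨cv, hA⟩ := hS.exists_asg (Sum.inl (gv x₀))
  refine ⟨D, sys G H D K g us x₀ n col cv gv, h5, h6, ?_, sys_conn hS hN hA hgv⟩
  have hcvv : ∀ y z, G.Adj y z → ¬ Ein K g us y z → vr g x₀ (cmp H D K g x₀ (cv y z)) = y :=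
    fun y z h1 h2 => vr_cmp (hA.col y z h1 h2)
  have hmem : ∀ y z, G.Adj y z → ¬ Ein K g us y z →
      cmp H D K g x₀ (cv y z) ∈ (sys G H D K g us x₀ n col cv gv).all := by
    intro y z h1 h2
    refine ⟨cv y z, hA.out y z h1 h2, ?_, rfl⟩
    rw [hA.col y z h1 h2]
    simp
  have hEs : ∀ y z, ¬ Ein K g us y z → ¬ Ein K g us z y := fun y z h h' => h h'.symm
  refine ⟨?_, ?_, ?_, ?_, ?_, ?_, ?_, ?_, ?_, ?_, ?_, ?_, ?_, ?_, ?_⟩
  · -- fin
    have h1 : (sys G H D K g us x₀ n col cv gv).all ⊆ cmp H D K g x₀ '' {w | g w ≠ none} := by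
      rintro B ⟨w, _, h2, rfl⟩
      exact ⟨w, h2, rfl⟩
    exact (hS.fin.image _).subset h1
  · -- mem
    intro s e p hp
    obtain ⟨y, hy⟩ := hS.pt_col (hN.mem s p hp) e
    refine ⟨_, pt_out, ?_, rfl⟩
    rw [hy]
    simp
  · -- kiss
    intro s p hp
    obtain ⟨a, b, h1, h2, h8⟩ := hS.own s _ (hN.mem s p hp)
    have e1 : (sys G H D K g us x₀ n col cv gv).ver
        ((sys G H D K g us x₀ n col cv gv).own s false p) = a :=
      vr_cmp (w := pt K s (col s p) false) h1
    have e2 : (sys G H D K g us x₀ n col cv gv).ver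
        ((sys G H D K g us x₀ n col cv gv).own s true p) = b :=
      vr_cmp (w := pt K s (col s p) true) h2
    rw [e1, e2]
    exact h8
  · -- ctm
    rintro k k' ⟨y, z, h1, h2, rfl, rfl⟩
    refine ⟨hmem y z h1 h2, hmem z y h1.symm (hEs _ _ h2), ?_⟩
    change G.Adj (vr g x₀ _) (vr g x₀ _)
    rw [hcvv y z h1 h2, hcvv z y h1.symm (hEs _ _ h2)]
    exact h1
  · -- cts
    rintro k k' ⟨y, z, h1, h2, h8, h9⟩
    exact ⟨z, y, h1.symm, hEs _ _ h2, h9, h8⟩
  · -- ct1
    rintro k k' l l' ⟨y, z, h1, h2, rfl, rfl⟩ ⟨y', z', h1', h2', rfl, rfl⟩ h8 h9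
    change vr g x₀ _ = vr g x₀ _ at h8 h9
    rw [hcvv y z h1 h2, hcvv y' z' h1' h2'] at h8
    rw [hcvv z y h1.symm (hEs _ _ h2), hcvv z' y' h1'.symm (hEs _ _ h2')] at h9
    rw [h8, h9]
    exact ⟨rfl, rfl⟩
  · -- ctE
    rintro k k' ⟨y, z, h1, h2, rfl, rfl⟩ h8
    change (sys G H D K g us x₀ n col cv gv).Ein (vr g x₀ _) (vr g x₀ _) at h8
    rw [hcvv y z h1 h2, hcvv z y h1.symm (hEs _ _ h2), sys_Ein hS hN] at h8
    exact h2 h8
  · -- grm
    rintro k ⟨y, rfl⟩
    refine ⟨Sum.inl (gv y), trivial, ?_, rfl⟩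
    rw [(hgv y).1]
    simp
  · -- gr1
    rintro k l ⟨y, rfl⟩ ⟨z, rfl⟩ h8
    change vr g x₀ _ = vr g x₀ _ at h8
    rw [vr_cmp (hgv y).1, vr_cmp (hgv z).1] at h8
    rw [h8]
  · -- gnd
    intro y
    exact ⟨_, ⟨y, rfl⟩, vr_cmp (hgv y).1⟩
  · -- con
    rintro y T ⟨k, ⟨w, h1, h2, rfl⟩, h8, h9⟩ ⟨k', ⟨w', h1', h2', rfl⟩, h8', h9'⟩
    obtain ⟨a, ha⟩ := Option.ne_none_iff_exists'.1 h2
    obtain ⟨a', ha'⟩ := Option.ne_none_iff_exists'.1 h2'
    change vr g x₀ _ = y at h9 h9'
    rw [vr_cmp ha] at h9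
    rw [vr_cmp ha'] at h9'
    subst h9 h9'
    obtain ⟨s, c, h10, h11, h12, h13⟩ := hS.change (x₀ := x₀) h1 h1' ha ha' T h8 h8'
    obtain ⟨p, hp, rfl⟩ := hN.surj s c h10
    exact ⟨s, p, hp, vr_cmp h11, vr_cmp h12, h13⟩
  · -- edg
    intro y z hyz
    by_cases h8 : Ein K g us y z
    · exact Or.inl ((sys_Ein hS hN).2 h8)
    · exact Or.inr ⟨_, _, ⟨y, z, hyz, h8, rfl, rfl⟩, hcvv y z hyz h8,
        hcvv z y hyz.symm (hEs _ _ h8)⟩
  · -- a1
    intro s e p hp h8
    have hp' : p < n s := Nat.lt_of_succ_lt hp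
    obtain ⟨a, ha⟩ := hS.pt_col (hN.mem s p hp') e
    obtain ⟨b, hb⟩ := hS.pt_col (hN.mem s (p + 1) hp) e
    change vr g x₀ (cmp H D K g x₀ _) = vr g x₀ (cmp H D K g x₀ _) at h8
    rw [vr_cmp ha, vr_cmp hb] at h8
    subst h8
    exact hM.a1 h4 hK' hKD (hN.cons hp) e ha hb
  · -- a2
    intro s e p hp hgr hone
    have hpu := hN.mem s p hp
    obtain ⟨y, hy⟩ := hS.pt_col hpu e
    have hCp : cmp H D K g x₀ (pt K s (col s p) e) = Cp H D K g y (pt K s (col s p) e) := by
      unfold cmp
      rw [cl_eq hy]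
    obtain ⟨z, z', h8, ⟨h9, h10, h11⟩, h12, h13, h14⟩ := hM.a2 h4 hK' hKD hA hpu (by
        intro s' c' e' h8 h9
        obtain ⟨q, hq, rfl⟩ := hN.surj s' c' h8
        rw [← hCp] at h9
        obtain ⟨h10, h11, h12⟩ := hone s' e' q hq (cmp_eq hy h9)
        subst h10
        exact ⟨rfl, by rw [h12], h11⟩) hy (hgv y).1 (hgv y).2 (by
        intro h8
        rw [← hCp] at h8
        exact hgr ⟨y, (cmp_eq hy h8).symm⟩)
    rw [← hCp] at h11 h14
    refine ⟨cmp H D K g x₀ (cv z y), cmp H D K g x₀ (cv z' y), ?_, ?_, ?_⟩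
    · intro h15
      have h16 := hcvv z y h9.symm (hEs _ _ h10)
      rw [h15, hcvv z' y h12.symm (hEs _ _ h13)] at h16
      exact h8 h16.symm
    · exact ⟨y, z, h9, h10, (cmp_eq hy h11).symm, rfl⟩
    · exact ⟨y, z', h12, h13, (cmp_eq hy h14).symm, rfl⟩
  · -- a5
    intro k A hAp
    rcases A.eq_empty_or_nonempty with h8 | ⟨⟨s, e, p⟩, hx⟩
    · rw [h8]
      simp
    · obtain ⟨h9, h10⟩ := hAp _ hx
      simp only at h9 h10
      have hpu := hN.mem s p h9
      obtain ⟨y, hy⟩ := hS.pt_col hpu e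
      have h11 : (A.image (fun x : σ × Bool × ℕ => (x.1, col x.1 x.2.2, x.2.1))).card = A.card := by
        apply Finset.card_image_of_injOn
        rintro ⟨s', e', p'⟩ hx' ⟨s'', e'', p''⟩ hx'' h12
        simp only [Prod.mk.injEq] at h12
        obtain ⟨rfl, h13, rfl⟩ := h12
        have h14 := (hAp _ hx').1
        have h15 := (hAp _ hx'').1
        have h16 : p' = p'' := hN.inj h14 h15 h13
        rw [h16]
      rw [← h11]
      refine ports_le h3 h4 hM hK' hKD hA hgv (x₀ := x₀) (w₀ := pt K s (col s p) e) pt_out hy _ ?_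
      rintro ⟨s', c', e'⟩ hx'
      rw [Finset.mem_image] at hx'
      obtain ⟨⟨s'', e'', p''⟩, hx'', h12⟩ := hx'
      simp only [Prod.mk.injEq] at h12
      obtain ⟨rfl, rfl, rfl⟩ := h12
      obtain ⟨h13, h14⟩ := hAp _ hx''
      simp only at h13 h14
      exact ⟨hN.mem _ _ h13, h14.trans h10.symm⟩

end

end Mdl
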