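import Pool.Agent.EN.State

/-!
# Output of module I (row C1): taut systems of connectors

Shores are pairs (sheet `s : σ`, side `e : Bool`, `false` = left); the used columns of the sheet
`s` are numbered `0, …, n s - 1` and `col s p` is the real column; `own s e p` is the connector at
the port `(s, e, p)`; `all` is the finite set of all connectors; `ver k` is the vertex of `G` whose
branch set contains the connector `k`.
-/

namespace Mdl

variable {V σ X κ : Type*}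

/-- Data of a system of connectors. -/
structure CSys (σ X κ : Type*) where
  /-- number of used columns -/
  n : σ → ℕ
  /-- real column -/
  col : σ → ℕ → ℕ
  /-- connector at a port -/
  own : σ → Bool → ℕ → κ
  /-- all connectors -/
  all : Set κ
  /-- vertex of a connector -/
  ver : κ → X
  /-- assigned contacts -/
  ct : κ → κ → Prop
  /-- connectors with an assigned ground place -/
  gr : κ → Prop

/-- Pairs of owners of one column or of two consecutive columns. -/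
def CSys.Ein (Y : CSys σ X κ) (y z : X) : Prop :=
  ∃ s e e' p q, p < Y.n s ∧ q < Y.n s ∧ (p = q ∨ q = p + 1 ∨ p = q + 1) ∧
    Y.ver (Y.own s e p) = y ∧ Y.ver (Y.own s e' q) = z

/-- Taut systems of connectors. -/
structure CSys.Taut (Y : CSys σ X κ) (G : SimpleGraph X) : Prop where
  fin : Y.all.Finite
  mem : ∀ s e p, p < Y.n s → Y.own s e p ∈ Y.all
  /-- the two owners of a column -/
  kiss : ∀ s p, p < Y.n s → Y.ver (Y.own s false p) = Y.ver (Y.own s true p) ∨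
    G.Adj (Y.ver (Y.own s false p)) (Y.ver (Y.own s true p))
  /-- contacts -/
  ctm : ∀ k k', Y.ct k k' → k ∈ Y.all ∧ k' ∈ Y.all ∧ G.Adj (Y.ver k) (Y.ver k')
  cts : ∀ k k', Y.ct k k' → Y.ct k' k
  ct1 : ∀ k k' l l', Y.ct k k' → Y.ct l l' → Y.ver k = Y.ver l → Y.ver k' = Y.ver l' →
    k = l ∧ k' = l'
  ctE : ∀ k k', Y.ct k k' → ¬ Y.Ein (Y.ver k) (Y.ver k')
  /-- exactly one grounded connector for every vertex -/
  grm : ∀ k, Y.gr k → k ∈ Y.all
  gr1 : ∀ k l, Y.gr k → Y.gr l → Y.ver k = Y.ver l → k = l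
  gnd : ∀ y, ∃ k, Y.gr k ∧ Y.ver k = y
  /-- the connectors of a vertex are joined by its full columns -/
  con : ∀ y (T : Set κ), (∃ k ∈ Y.all, k ∈ T ∧ Y.ver k = y) → (∃ k ∈ Y.all, k ∉ T ∧ Y.ver k = y) →
    ∃ s p, p < Y.n s ∧ Y.ver (Y.own s false p) = y ∧ Y.ver (Y.own s true p) = y ∧
      ¬ (Y.own s false p ∈ T ↔ Y.own s true p ∈ T)
  edg : ∀ y z, G.Adj y z → Y.Ein y z ∨ ∃ k k', Y.ct k k' ∧ Y.ver k = y ∧ Y.ver k' = z
  /-- (A1) -/
  a1 : ∀ s e p, p + 1 < Y.n s → Y.ver (Y.own s e p) ≠ Y.ver (Y.own s e (p + 1))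
  /-- (A2) -/
  a2 : ∀ s e p, p < Y.n s → ¬ Y.gr (Y.own s e p) →
    (∀ s' e' p', p' < Y.n s' → Y.own s' e' p' = Y.own s e p → s' = s ∧ e' = e ∧ p' = p) →
    ∃ k k', k ≠ k' ∧ Y.ct (Y.own s e p) k ∧ Y.ct (Y.own s e p) k'
  /-- (A5) -/
  a5 : ∀ k, ∀ A : Finset (σ × Bool × ℕ),
    (∀ x ∈ A, x.2.2 < Y.n x.1 ∧ Y.own x.1 x.2.1 x.2.2 = k) → A.card ≤ 5

/-- The connectors as vertex sets of the host: connected, disjoint, in the windows
`K ≤ |b| ≤ D` or outside of the sheets, attached to their columns. -/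
structure CSys.Conn (Y : CSys σ X (Set (HV V σ))) (H : Host V σ) (D K : ℤ) : Prop where
  mono : ∀ s p q, p < q → q < Y.n s → Y.col s p < Y.col s q
  lt : ∀ s p, p < Y.n s → Y.col s p < H.len s
  fin : ∀ B ∈ Y.all, B.Finite
  ne : ∀ B ∈ Y.all, B.Nonempty
  out : ∀ B ∈ Y.all, ∀ u ∈ B, Out K u
  bd : ∀ B ∈ Y.all, ∀ s c b, Sum.inr (s, c, b) ∈ B → c < H.len s ∧ -D ≤ b ∧ b ≤ D
  conn : ∀ B ∈ Y.all, ∀ u ∈ B, ∀ v ∈ B,
    Relation.ReflTransGen (fun a b => H.Adj D a b ∧ a ∈ B ∧ b ∈ B) u v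
  dis : ∀ B ∈ Y.all, ∀ B' ∈ Y.all, B ≠ B' → Disjoint B B'
  left : ∀ s p, p < Y.n s → (Sum.inr (s, Y.col s p, -K) : HV V σ) ∈ Y.own s false p
  right : ∀ s p, p < Y.n s → (Sum.inr (s, Y.col s p, K) : HV V σ) ∈ Y.own s true p
  ct : ∀ B B', Y.ct B B' → ∃ u ∈ B, ∃ v ∈ B', H.Adj D u v
  gr : ∀ B, Y.gr B → ∃ v, Sum.inl v ∈ B ∧ H.gd v

end Mdl
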