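import Pool.Agent.EN.Page

/-!
# Apex forms of row R1; third page, any gains
-/

open Set
open scoped Matroid

namespace EN

open BIC Gad

variable {α V : Type*} {M : Matroid α} {S : Set α} {ends : α → Sym2 V}

lemma tree_joinδ (hF : Frm M S ends) {δ : ℕ∞} {A B : Set V} (hA : A.Finite)
    (hAB : Disjoint A B)
    {τ F : Set α} (hτ : Arb S ends A τ)
    (hFB : F ⊆ ins S ends B ∧ M.Indep F ∧ F.encard + δ = B.encard) {f : α} (hf : f ∈ S) {a b : V}
    (ha : a ∈ A) (hb : b ∈ B) (hab : ends f = s(a, b)) :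
    insert f F ∪ τ ⊆ ins S ends (A ∪ B) ∧ M.Indep (insert f F ∪ τ) ∧
      (insert f F ∪ τ).encard + δ = (A ∪ B).encard := by
  obtain ⟨h1, h2, h3⟩ := hFB
  have hFa : ∀ e ∈ F, ∀ v ∈ ends e, v ∉ A := by
    intro e he v hv hvA
    exact Set.disjoint_left.1 hAB hvA ((h1 he).2 v hv)
  have h4 : M.Indep (insert f F) :=
    hF.leaf h2 (h1.trans (fun e he => he.1)) (v := a) (fun e he hae => hFa e he a hae ha) hf
      (by rw [hab]; simp)
  have h5 : M.Indep (insert f F ∪ τ) := by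
    refine hF.indep_arb hA hτ ha h4 (insert_subset hf (h1.trans (fun e he => he.1))) ?_
    rintro e (rfl | he) v hv hvA
    · rw [hab] at hv
      rcases Sym2.mem_iff.1 hv with h5 | h5
      · exact h5
      · rw [h5] at hvA
        exact absurd hb (Set.disjoint_left.1 hAB hvA)
    · exact absurd hvA (hFa e he v hv)
  have hfF : f ∉ F := fun h => hFa f h a (by rw [hab]; simp) ha
  have hd : Disjoint (insert f F) τ := by
    rw [Set.disjoint_left]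
    rintro e (rfl | he) he'
    · have h6 := (hτ.1 he').2 b (by rw [hab]; simp)
      exact Set.disjoint_left.1 hAB h6 hb
    · exact Set.disjoint_left.1 (ins_disj (S := S) (ends := ends) hAB) (hτ.1 he') (h1 he)
  refine ⟨union_subset (insert_subset ⟨hf, ?_⟩ (h1.trans (ins_mono subset_union_right)))
    (hτ.1.trans (ins_mono subset_union_left)), h5, ?_⟩
  · intro v hv
    rw [hab] at hv
    rcases Sym2.mem_iff.1 hv with rfl | rfl
    · exact Or.inl ha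
    · exact Or.inr hb
  · rw [encard_union_eq hd, encard_insert_of_notMem hfF, encard_union_eq hAB, ← h3,
      ← arb_encard hτ]
    ring

/-- **Row R1, apex form.** One more set `Z` adjacent to everything; `δ = 1`: balanced,
`δ = 0`: `Z` is full. -/
theorem jgrid_apex (hF : Frm M S ends) (δ : ℕ∞) {t : ℕ} (ht : 1 ≤ t)
    (U : ℕ × ℕ → Set V)
    (Z : Set V) (hZf : Z.Finite)
    (hsp : ∀ W : Set V, W.Finite → W.Nonempty → Z ⊆ W → ∀ F ⊆ ins S ends W, M.Indep F →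
      F.encard + δ = W.encard → ins S ends W ⊆ M.closure F)
    (τZ : Set α) (hτZ : τZ ⊆ ins S ends Z ∧ M.Indep τZ ∧ τZ.encard + δ = Z.encard)
    (hUf : ∀ c ∈ Cl t, (U c).Finite)
    (hUc : ∀ c ∈ Cl t, VConn S ends (U c))
    (hUd : ∀ c ∈ Cl t, ∀ c' ∈ Cl t, c ≠ c' → Disjoint (U c) (U c'))
    (hUZ : ∀ c ∈ Cl t, Disjoint (U c) Z)
    (hadj : ∀ c c', Nb t c c' → Lnk S ends (U c) (U c'))
    (hadjZ : ∀ c ∈ Cl t, Lnk S ends (U c) Z) :
    ∃ (C S' : Set α) (j : ℕ × ℕ → α) (ed : ℕ × ℕ → ℕ × ℕ → α), C ⊆ S ∧ S' ⊆ S ∧ Disjoint C S' ∧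
      M.Indep (C ∪ j '' Cl t) ∧ JGrid (M ／ C) S' t j ed := by
  classical
  -- joints
  have hj : ∀ c : ℕ × ℕ, ∃ x : α × V × V, c ∈ Cl t → x.1 ∈ S ∧ x.2.1 ∈ U c ∧ x.2.2 ∈ Z ∧
      ends x.1 = s(x.2.1, x.2.2) := by
    intro c
    by_cases hc : c ∈ Cl t
    · obtain ⟨e, he, a, ha, b, hb, hab⟩ := hadjZ c hc
      exact ⟨(e, a, b), fun _ => ⟨he, ha, hb, hab⟩⟩
    · obtain ⟨e, he, a, ha, b, hb, hab⟩ := hadjZ (0, 0) ⟨ht, ht⟩
      exact ⟨(e, a, b), fun h => absurd h hc⟩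
  choose x hx using hj
  obtain ⟨j, hjd⟩ : ∃ j : ℕ × ℕ → α, ∀ c, j c = (x c).1 := ⟨_, fun _ => rfl⟩
  obtain ⟨a, had⟩ : ∃ a : ℕ × ℕ → V, ∀ c, a c = (x c).2.1 := ⟨_, fun _ => rfl⟩
  obtain ⟨b, hbd⟩ : ∃ b : ℕ × ℕ → V, ∀ c, b c = (x c).2.2 := ⟨_, fun _ => rfl⟩
  have hjS : ∀ c ∈ Cl t, j c ∈ S := fun c hc => by rw [hjd]; exact (hx c hc).1
  have haU : ∀ c ∈ Cl t, a c ∈ U c := fun c hc => by rw [had]; exact (hx c hc).2.1
  have hbZ : ∀ c ∈ Cl t, b c ∈ Z := fun c hc => by rw [hbd]; exact (hx c hc).2.2.1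
  have hjab : ∀ c ∈ Cl t, ends (j c) = s(a c, b c) := fun c hc => by
    rw [hjd, had, hbd]; exact (hx c hc).2.2.2
  -- trees
  have hτ : ∀ c : ℕ × ℕ, ∃ τ : Set α, c ∈ Cl t → Arb S ends (U c) τ := by
    intro c
    by_cases hc : c ∈ Cl t
    · obtain ⟨E, _, _, _, h4, _⟩ := grow (hUf c hc) (singleton_subset_iff.2 (haU c hc))
        (singleton_nonempty _) (hUc c hc)
      exact ⟨_, fun _ => h4 ∅ (Arb.single _)⟩
    · exact ⟨∅, fun h => absurd h hc⟩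
  choose τ hτ using hτ
  have hτS : ∀ c ∈ Cl t, τ c ⊆ S := fun c hc e he => ((hτ c hc).1 he).1
  have hUv : ∀ c ∈ Cl t, ∀ c' ∈ Cl t, ∀ v, v ∈ U c → v ∈ U c' → c = c' := by
    intro c hc c' hc' v hv hv'
    by_contra hne
    exact Set.disjoint_left.1 (hUd c hc c' hc' hne) hv hv'
  have hUZv : ∀ c ∈ Cl t, ∀ v, v ∈ U c → v ∉ Z :=
    fun c hc v hv hv' => Set.disjoint_left.1 (hUZ c hc) hv hv'
  set C : Set α := τZ ∪ ⋃ c ∈ ClF t, τ c with hC
  have hmC : ∀ e, e ∈ C ↔ e ∈ τZ ∨ ∃ c ∈ Cl t, e ∈ τ c := by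
    intro e
    rw [hC]
    simp only [mem_union, mem_iUnion, mem_ClF, exists_prop]
  have hCS : C ⊆ S := by
    intro e he
    rcases (hmC e).1 he with h | ⟨c, hc, hec⟩
    · exact (hτZ.1 h).1
    · exact hτS c hc hec
  have hstep : ∀ I : Finset (ℕ × ℕ), (∀ c ∈ I, c ∈ Cl t) →
      M.Indep (τZ ∪ ⋃ c ∈ I, insert (j c) (τ c)) := by
    intro I
    induction I using Finset.induction_on with
    | empty => intro _; simpa using hτZ.2.1
    | insert d I hd ih =>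
      intro hIt
      have h1 := ih (fun c hc => hIt c (Finset.mem_insert_of_mem hc))
      have hdt := hIt d (Finset.mem_insert_self d I)
      have hKS : τZ ∪ ⋃ c ∈ I, insert (j c) (τ c) ⊆ S := by
        refine union_subset (fun e he => (hτZ.1 he).1) ?_
        intro e he
        obtain ⟨c, hc, hec⟩ := mem_iUnion₂.1 he
        have hc' := hIt c (Finset.mem_insert_of_mem hc)
        rcases hec with rfl | hec
        · exact hjS c hc'
        · exact hτS c hc' hec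
      have hKU : ∀ e ∈ τZ ∪ ⋃ c ∈ I, insert (j c) (τ c), ∀ v ∈ ends e, v ∉ U d := by
        rintro e (he | he) v hv hvU
        · exact hUZv d hdt v hvU ((hτZ.1 he).2 v hv)
        · obtain ⟨c, hc, hec⟩ := mem_iUnion₂.1 he
          have hc' := hIt c (Finset.mem_insert_of_mem hc)
          have hne : d ≠ c := by
            rintro rfl; exact hd hc
          rcases hec with rfl | hec
          · rw [hjab c hc'] at hv
            rcases Sym2.mem_iff.1 hv with rfl | rfl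
            · exact hne (hUv d hdt c hc' _ hvU (haU c hc'))
            · exact hUZv d hdt _ hvU (hbZ c hc')
          · exact hne (hUv d hdt c hc' v hvU (((hτ c hc').1 hec).2 v hv))
      have h2 : M.Indep (insert (j d) (τZ ∪ ⋃ c ∈ I, insert (j c) (τ c))) :=
        hF.leaf h1 hKS (v := a d) (fun e he hv => hKU e he _ hv (haU d hdt)) (hjS d hdt)
          (by rw [hjab d hdt]; simp)
      have h3 := hF.indep_arb (hUf d hdt) (hτ d hdt) (haU d hdt) h2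
        (insert_subset (hjS d hdt) hKS) ?_
      · rw [Finset.set_biUnion_insert]
        refine h3.subset ?_
        rintro e (he | (rfl | he) | he)
        · exact Or.inl (Or.inr (Or.inl he))
        · exact Or.inl (Or.inl rfl)
        · exact Or.inr he
        · exact Or.inl (Or.inr (Or.inr he))
      · rintro e (rfl | he) v hv hvU
        · rw [hjab d hdt] at hv
          rcases Sym2.mem_iff.1 hv with h4 | h4
          · exact h4
          · rw [h4] at hvU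
            exact absurd (hbZ d hdt) (hUZv d hdt _ hvU)
        · exact absurd hvU (hKU e he v hv)
  have hfull : M.Indep (C ∪ j '' Cl t) := by
    refine (hstep (ClF t) (fun c hc => mem_ClF.1 hc)).subset ?_
    rintro e (he | ⟨c, hc, rfl⟩)
    · rcases (hmC e).1 he with h | ⟨c, hc, hec⟩
      · exact Or.inl h
      · exact Or.inr (mem_iUnion₂.2 ⟨c, mem_ClF.2 hc, Or.inr hec⟩)
    · exact Or.inr (mem_iUnion₂.2 ⟨c, mem_ClF.2 hc, Or.inl rfl⟩)
  -- the connecting elements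
  have hed : ∀ c c' : ℕ × ℕ, ∃ e : α, Nb t c c' → e ∈ S ∧ ∃ a ∈ U c, ∃ b ∈ U c',
      ends e = s(a, b) := by
    intro c c'
    by_cases h : Nb t c c'
    · obtain ⟨e, he, h1⟩ := hadj c c' h
      exact ⟨e, fun _ => ⟨he, h1⟩⟩
    · exact ⟨j (0, 0), fun h' => absurd h' h⟩
  choose ed hed using hed
  have hjC : ∀ c ∈ Cl t, j c ∉ C := by
    intro c hc h
    rcases (hmC _).1 h with h | ⟨c', hc', h⟩
    · exact hUZv c hc _ (haU c hc) ((hτZ.1 h).2 _ (by rw [hjab c hc]; simp))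
    · exact hUZv c' hc' _ (((hτ c' hc').1 h).2 _ (by rw [hjab c hc]; simp)) (hbZ c hc)
  have hedC : ∀ c c', Nb t c c' → ed c c' ∉ C := by
    intro c c' h hC'
    obtain ⟨_, p, hp, q, hq, hpq⟩ := hed c c' h
    rcases (hmC _).1 hC' with h1 | ⟨c'', hc'', h1⟩
    · exact hUZv c h.1 _ hp ((hτZ.1 h1).2 _ (by rw [hpq]; simp))
    · have h2 := ((hτ c'' hc'').1 h1).2 p (by rw [hpq]; simp)
      have h3 := ((hτ c'' hc'').1 h1).2 q (by rw [hpq]; simp)
      exact h.ne ((hUv c h.1 c'' hc'' p hp h2).trans (hUv c' h.2.1 c'' hc'' q hq h3).symm)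
  set S' : Set α := j '' Cl t ∪ {e | ∃ c c', Nb t c c' ∧ e = ed c c'} with hS'
  have hCi : M.Indep C := hfull.subset subset_union_left
  have hcl : ∀ X e, e ∉ C → e ∈ M.closure (X ∪ C) → e ∈ (M ／ C).closure X := by
    intro X e h1 h2
    rw [M.contract_closure_eq]
    exact ⟨h2, h1⟩
  -- the basic span
  have hspan : ∀ c ∈ Cl t, ∀ c' ∈ Cl t, c ≠ c' → ∀ f ∈ S, ∀ p ∈ U c, ∀ q ∈ U c' ∪ Z,
      ends f = s(p, q) → ins S ends (U c ∪ (U c' ∪ Z)) ⊆ M.closure ({j c', f} ∪ C) := by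
    intro c hc c' hc' hne f hfS p hp q hq hpq
    have h1 := tree_joinδ hF (hUf c' hc') (hUZ c' hc') (hτ c' hc') hτZ
      (hjS c' hc') (haU c' hc') (hbZ c' hc') (hjab c' hc')
    have hdis : Disjoint (U c) (U c' ∪ Z) := by
      rw [Set.disjoint_union_right]
      exact ⟨hUd c hc c' hc' hne, hUZ c hc⟩
    have h2 := tree_joinδ hF (hUf c hc) hdis (hτ c hc) h1 hfS hp hq hpq
    have h3 := hsp _ ((hUf c hc).union ((hUf c' hc').union hZf))
      ⟨_, Or.inl (haU c hc)⟩ (fun v hv => Or.inr (Or.inr hv)) _ h2.1 h2.2.1 h2.2.2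
    refine h3.trans (M.closure_subset_closure ?_)
    rintro e ((rfl | (rfl | he) | he) | he)
    · exact Or.inl (Or.inr rfl)
    · exact Or.inl (Or.inl rfl)
    · exact Or.inr ((hmC e).2 (Or.inl he))
    · exact Or.inr ((hmC e).2 (Or.inr ⟨c', hc', he⟩))
    · exact Or.inr ((hmC e).2 (Or.inr ⟨c, hc, he⟩))
  have hh1 : ∀ c c', Nb t c c' → ed c c' ∈ (M ／ C).closure {j c, j c'} := by
    intro c c' h
    obtain ⟨heS, p, hp, q, hq, hpq⟩ := hed c c' h
    refine hcl _ _ (hedC c c' h) ?_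
    rw [pair_comm]
    refine hspan c h.1 c' h.2.1 h.ne (j c) (hjS c h.1) _ (haU c h.1) _ (Or.inr (hbZ c h.1))
      (hjab c h.1) ⟨heS, fun v hv => ?_⟩
    rw [hpq] at hv
    rcases Sym2.mem_iff.1 hv with rfl | rfl
    · exact Or.inl hp
    · exact Or.inr (Or.inl hq)
  have hh2 : ∀ c ∈ Cl t, ∀ c' ∈ Cl t, c ≠ c' → ∀ f ∈ S, ∀ p ∈ U c, ∀ q ∈ U c',
      ends f = s(p, q) → j c ∈ (M ／ C).closure {j c', f} := by
    intro c hc c' hc' hne f hfS p hp q hq hpq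
    refine hcl _ _ (hjC c hc) ?_
    refine hspan c hc c' hc' hne f hfS p hp q (Or.inl hq) hpq ⟨hjS c hc, fun v hv => ?_⟩
    rw [hjab c hc] at hv
    rcases Sym2.mem_iff.1 hv with rfl | rfl
    · exact Or.inl (haU c hc)
    · exact Or.inr (Or.inr (hbZ c hc))
  refine ⟨C, S', j, ed, hCS, ?_, ?_, hfull, ?_⟩
  · rintro e (⟨c, hc, rfl⟩ | ⟨c, c', h, rfl⟩)
    · exact hjS c hc
    · exact (hed c c' h).1
  · rw [Set.disjoint_left]
    rintro e he (⟨c, hc, rfl⟩ | ⟨c, c', h, rfl⟩)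
    · exact hjC c hc he
    · exact hedC c c' h he
  · refine ⟨?_, ?_, ?_, hh1, ?_, ?_⟩
    · intro c hc c' hc' hcc
      have h1 : a c ∈ ends (j c') := by rw [← hcc, hjab c hc]; simp
      rw [hjab c' hc'] at h1
      rcases Sym2.mem_iff.1 h1 with h2 | h2
      · exact hUv c hc c' hc' _ (haU c hc) (by rw [h2]; exact haU c' hc')
      · exact absurd (by rw [h2]; exact hbZ c' hc') (hUZv c hc _ (haU c hc))
    · have hind : (M ／ C).Indep (j '' Cl t) := by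
        rw [hCi.contract_indep_iff]
        refine ⟨?_, by rw [union_comm]; exact hfull⟩
        rw [Set.disjoint_left]
        rintro e ⟨c, hc, rfl⟩
        exact hjC c hc
      refine hind.isBasis_of_subset_of_subset_closure subset_union_left ?_
      rintro e (⟨c, hc, rfl⟩ | ⟨c, c', h, rfl⟩)
      · exact (M ／ C).mem_closure_of_mem' ⟨c, hc, rfl⟩ (hind.subset_ground ⟨c, hc, rfl⟩)
      · refine (M ／ C).closure_subset_closure ?_ (hh1 c c' h)
        rintro x (rfl | rfl)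
        · exact ⟨c, h.1, rfl⟩
        · exact ⟨c', h.2.1, rfl⟩
    · intro c c' h
      exact Or.inr ⟨c, c', h, rfl⟩
    · intro c c' h
      obtain ⟨heS, p, hp, q, hq, hpq⟩ := hed c c' h
      exact hh2 c h.1 c' h.2.1 h.ne _ heS p hp q hq hpq
    · intro c c' h
      obtain ⟨heS, p, hp, q, hq, hpq⟩ := hed c c' h
      exact hh2 c' h.2.1 c h.1 h.ne.symm _ heS q hq p hp (by rw [hpq, Sym2.eq_swap])

/-- The grounded form: `Z` is full. -/
theorem jgrid_of_ground (hF : Frm M S ends) {t : ℕ} (ht : 1 ≤ t) (U : ℕ × ℕ → Set V)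
    (Z : Set V) (hZf : Z.Finite) (F : Set α) (hFZ : F ⊆ ins S ends Z) (hFi : M.Indep F)
    (hFc : F.encard = Z.encard) (hUf : ∀ c ∈ Cl t, (U c).Finite)
    (hUc : ∀ c ∈ Cl t, VConn S ends (U c))
    (hUd : ∀ c ∈ Cl t, ∀ c' ∈ Cl t, c ≠ c' → Disjoint (U c) (U c'))
    (hUZ : ∀ c ∈ Cl t, Disjoint (U c) Z)
    (hadj : ∀ c c', Nb t c c' → Lnk S ends (U c) (U c'))
    (hadjZ : ∀ c ∈ Cl t, Lnk S ends (U c) Z) :
    ∃ (C S' : Set α) (j : ℕ × ℕ → α) (ed : ℕ × ℕ → ℕ × ℕ → α), C ⊆ S ∧ S' ⊆ S ∧ Disjoint C S' ∧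
      M.Indep (C ∪ j '' Cl t) ∧ JGrid (M ／ C) S' t j ed := by
  refine jgrid_apex hF 0 ht U Z hZf ?_ F ⟨hFZ, hFi, by rw [hFc, add_zero]⟩ hUf hUc hUd hUZ hadj
    hadjZ
  intro W hW _ _ G hG hGi hGc
  exact hF.span hW hG hGi (by rw [← hGc, add_zero])

lemma vconn_ins {A W : Set V} (hA : VConn S ends A) (hAW : A ⊆ W) :
    VConn (ins S ends W) ends A := by
  intro u hu v hv
  have h := hA u hu v hv
  induction h with
  | refl => exact Relation.ReflTransGen.refl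
  | @tail y z _ h2 ih =>
    obtain ⟨⟨e, he, hee⟩, hy, hz⟩ := h2
    refine (ih hy).tail ⟨⟨e, ⟨he, fun x hx => ?_⟩, hee⟩, hy, hz⟩
    rw [hee] at hx
    rcases Sym2.mem_iff.1 hx with rfl | rfl
    · exact hAW hy
    · exact hAW hz

lemma lnk_ins {A B W : Set V} (h : Lnk S ends A B) (hA : A ⊆ W) (hB : B ⊆ W) :
    Lnk (ins S ends W) ends A B := by
  obtain ⟨e, he, a, ha, b, hb, hab⟩ := h
  refine ⟨e, ⟨he, fun x hx => ?_⟩, a, ha, b, hb, hab⟩
  rw [hab] at hx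
  rcases Sym2.mem_iff.1 hx with rfl | rfl
  · exact hA ha
  · exact hB hb

lemma vconn_star {κ : Type*} [DecidableEq κ] (I : Finset κ) (U : κ → Set V) {Z : Set V}
    (hZ : VConn S ends Z) (hU : ∀ c ∈ I, VConn S ends (U c))
    (hl : ∀ c ∈ I, Lnk S ends (U c) Z) : VConn S ends (Z ∪ ⋃ c ∈ I, U c) := by
  induction I using Finset.induction_on with
  | empty => simpa using hZ
  | insert a I _ ih =>
    rw [Finset.set_biUnion_insert, union_comm (U a), ← union_assoc]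
    exact vc_lnk (ih (fun c hc => hU c (Finset.mem_insert_of_mem hc))
      (fun c hc => hl c (Finset.mem_insert_of_mem hc))) (hU a (Finset.mem_insert_self _ _))
      ((hl a (Finset.mem_insert_self _ _)).symm.mono (subset_refl _) subset_union_left
        (subset_refl _))

/-- **The apex lemma for any gains.** -/
theorem jgrid_Z (hF : Frm M S ends) {w : ℕ} (hw : 1 ≤ w) (U : ℕ × ℕ → Set V)
    (Z : Set V) (hZf : Z.Finite) (hZc : VConn S ends Z)
    (hUf : ∀ c ∈ Cl (2 * w), (U c).Finite)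
    (hUc : ∀ c ∈ Cl (2 * w), VConn S ends (U c))
    (hUd : ∀ c ∈ Cl (2 * w), ∀ c' ∈ Cl (2 * w), c ≠ c' → Disjoint (U c) (U c'))
    (hUZ : ∀ c ∈ Cl (2 * w), Disjoint (U c) Z)
    (hadj : ∀ c c', Nb (2 * w) c c' → Lnk S ends (U c) (U c'))
    (hadjZ : ∀ c ∈ Cl (2 * w), Lnk S ends (U c) Z) :
    ∃ (C S' : Set α) (j : ℕ × ℕ → α) (ed : ℕ × ℕ → ℕ × ℕ → α), C ⊆ S ∧ S' ⊆ S ∧ Disjoint C S' ∧
      M.Indep (C ∪ j '' Cl w) ∧ JGrid (M ／ C) S' w j ed := by
  classical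
  have hcl : ∀ c ∈ Cl w, c ∈ Cl (2 * w) := by
    rintro c ⟨h1, h2⟩
    exact ⟨by omega, by omega⟩
  have hcl' : ∀ c ∈ Cl w, (c.1, c.2 + w) ∈ Cl (2 * w) := by
    rintro c ⟨h1, h2⟩
    exact ⟨by simp only; omega, by simp only; omega⟩
  have hnb : ∀ c c', Nb w c c' → Nb (2 * w) c c' := by
    rintro c c' ⟨h1, h2, h3⟩
    exact ⟨hcl c h1, hcl c' h2, h3⟩
  have hnb' : ∀ c c', Nb w c c' → Nb (2 * w) (c.1, c.2 + w) (c'.1, c'.2 + w) := by
    rintro c c' ⟨h1, h2, h3⟩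
    refine ⟨hcl' c h1, hcl' c' h2, ?_⟩
    simp only
    omega
  set W₁ : Set V := Z ∪ ⋃ c ∈ ClF w, U c with hW₁
  have hW₁f : W₁.Finite := by
    refine hZf.union ?_
    exact Set.Finite.biUnion (ClF w).finite_toSet (fun c hc => hUf c (hcl c (mem_ClF.1
      (Finset.mem_coe.1 hc))))
  have hW₁c : VConn S ends W₁ := vconn_star (ClF w) U hZc
    (fun c hc => hUc c (hcl c (mem_ClF.1 hc))) (fun c hc => hadjZ c (hcl c (mem_ClF.1 hc)))
  have hUW : ∀ c ∈ Cl w, U c ⊆ W₁ := fun c hc v hv =>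
    Or.inr (mem_iUnion₂.2 ⟨c, mem_ClF.2 hc, hv⟩)
  set S₁ : Set α := ins S ends W₁ with hS₁
  have hS₁S : S₁ ⊆ S := fun e he => he.1
  have hF₁ : Frm M S₁ ends := hF.mono hS₁S
  by_cases hr : M.eRk S₁ + 1 ≤ W₁.encard
  · have hbal : Bal M S₁ ends := hF₁.bal_of hW₁f (vconn_ins hW₁c (subset_refl _))
      (fun e he v hv => he.2 v hv) hr
    obtain ⟨C, S', j, ed, h1, h2, h3, h4, h5⟩ := jgrid_of_bal hF₁ hbal hw U Z hZf
      (vconn_ins hZc subset_union_left) (fun c hc => hUf c (hcl c hc))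
      (fun c hc => vconn_ins (hUc c (hcl c hc)) (hUW c hc))
      (fun c hc c' hc' hne => hUd c (hcl c hc) c' (hcl c' hc') hne)
      (fun c hc => hUZ c (hcl c hc))
      (fun c c' h => lnk_ins (hadj c c' (hnb c c' h)) (hUW c h.1) (hUW c' h.2.1))
      (fun c hc => lnk_ins (hadjZ c (hcl c hc)) (hUW c hc) subset_union_left)
    exact ⟨C, S', j, ed, h1.trans hS₁S, h2.trans hS₁S, h3, h4, h5⟩
  · obtain ⟨F, hFb⟩ := M.exists_isBasis S₁ hF₁.sub
    have h1 : F.encard = W₁.encard := by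
      rw [hFb.encard_eq_eRk]
      have h2 := hF.rk W₁
      have h3 : M.eRk S₁ ≠ ⊤ := ne_top_of_le_ne_top hW₁f.encard_lt_top.ne h2
      refine le_antisymm h2 ?_
      push Not at hr
      exact Order.le_of_lt_add_one hr
    refine jgrid_of_ground hF hw (fun c => U (c.1, c.2 + w)) W₁ hW₁f F hFb.subset hFb.indep h1
      (fun c hc => hUf _ (hcl' c hc)) (fun c hc => hUc _ (hcl' c hc)) ?_ ?_
      (fun c c' h => hadj _ _ (hnb' c c' h))
      (fun c hc => (hadjZ _ (hcl' c hc)).mono (subset_refl _) (subset_refl _) subset_union_left)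
    · intro c hc c' hc' hne
      refine hUd _ (hcl' c hc) _ (hcl' c' hc') (fun h => hne ?_)
      rw [Prod.mk.injEq] at h
      exact Prod.ext h.1 (by omega)
    · intro c hc
      rw [hW₁, Set.disjoint_union_right]
      refine ⟨hUZ _ (hcl' c hc), ?_⟩
      rw [Set.disjoint_iUnion₂_right]
      intro c' hc'
      refine hUd _ (hcl' c hc) _ (hcl c' (mem_ClF.1 hc')) (fun h => ?_)
      have h2 := (mem_ClF.1 hc').2
      rw [← h] at h2
      simp only at h2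
      omega

/-- **From the graph model to the grid with joints.** -/
theorem GMod.jgrid {w : ℕ} (h : GMod M S ends w) (hF : Frm M S ends) (hw : 1 ≤ w) :
    ∃ (C S' : Set α) (j : ℕ × ℕ → α) (ed : ℕ × ℕ → ℕ × ℕ → α), C ⊆ S ∧ S' ⊆ S ∧ Disjoint C S' ∧
      M.Indep (C ∪ j '' Cl w) ∧ JGrid (M ／ C) S' w j ed := by
  rcases h with ⟨U, Z, h1, h2, h3, h4, h5, h6, h7, h8⟩ | ⟨U, Z, τ₀, j, h1, h2, h3, h4, h5, h6, h7,
    h8⟩
  · exact jgrid_Z hF hw U Z h1 h2 h3 h4 h5 h6 h7 h8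
  · obtain ⟨C, S', ed, g⟩ := jgrid_of hF U Z τ₀ j h1 h2 h3 h4 h5 h6 h7 h8
    exact ⟨C, S', j, ed, g⟩

/-- **Two pages, blobs, and one more connected set `Z` adjacent to all blobs; any gains.** -/
theorem book_Z {w : ℕ} (hw : 1 ≤ w) {P Q : ℕ × ℕ → V}
    {lP rP nP lQ rQ nQ : ℕ} (hP : Page S ends P lP rP nP) (hQ : Page S ends Q lQ rQ nQ)
    (hPQ : ∀ c ∈ Reg lP rP nP, ∀ c' ∈ Reg lQ rQ nQ, P c ≠ Q c') {b₀ b₁ : ℕ} (hb₀ : 1 ≤ b₀)
    (hn₀ : b₀ + 2 * w ≤ nP) (hn₁ : b₁ + 2 * w ≤ nQ) (p q : ℕ → ℕ)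
    (hp : ∀ i < (2 * w) * (2 * w), p i < p (i + 1))
    (hq : ∀ i, i + 1 < (2 * w) * (2 * w) → q i < q (i + 1)) (hp0 : lP ≤ p 0)
    (hp1 : p ((2 * w) * (2 * w)) ≤ rP + 1)
    (hq0 : lQ ≤ q 0) (hq1 : q ((2 * w) * (2 * w) - 1) ≤ rQ) (X : ℕ → Set V)
    (hXf : ∀ i < (2 * w) * (2 * w), (X i).Finite)
    (hXc : ∀ i < (2 * w) * (2 * w), VConn S ends (X i))
    (hXp : ∀ i < (2 * w) * (2 * w), P (p i, b₀) ∈ X i)
    (hXq : ∀ i < (2 * w) * (2 * w), Q (q i, b₁) ∈ X i)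
    (hXX : ∀ i < (2 * w) * (2 * w), ∀ j < (2 * w) * (2 * w), i ≠ j → Disjoint (X i) (X j))
    (hXP : ∀ i < (2 * w) * (2 * w), ∀ c ∈ Reg lP rP nP, P c ∈ X i →
      p i ≤ c.1 ∧ c.1 < p (i + 1) ∧ c.2 ≤ b₀)
    (hXQ : ∀ i < (2 * w) * (2 * w), ∀ c ∈ Reg lQ rQ nQ, Q c ∈ X i →
      c.2 ≤ b₁ ∧ (c.2 = b₁ → c.1 = q i))
    (Z : Set V) (hZf : Z.Finite) (hZc : VConn S ends Z) (hZP : ∀ c ∈ Reg lP rP nP, P c ∉ Z)
    (hZQ : ∀ c ∈ Reg lQ rQ nQ, Q c ∉ Z) (hXZ : ∀ i < (2 * w) * (2 * w), Disjoint (X i) Z)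
    (hadj : ∀ i < (2 * w) * (2 * w), Lnk S ends (X i) Z) :
    GmF S ends P lP rP nP (2 * w) := by
  have h := book_spine (w := 2 * w) (by omega) hP hQ hPQ hb₀ hn₀ hn₁ p q hp hq hp0 hp1 hq0 hq1 X
    hXf hXc hXp hXq hXX hXP hXQ
  have hps := strict_of_step hp
  have hqs : ∀ i j, i < j → j < (2 * w) * (2 * w) → q i < q j := by
    intro i j hij hj
    exact strict_of_step (m := (2 * w) * (2 * w) - 1) (fun i hi => hq i (by omega)) i j hij
      (by omega)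
  have hpm : ∀ i, i ≤ (2 * w) * (2 * w) → lP ≤ p i := by
    intro i hi
    rcases Nat.eq_zero_or_pos i with h | h
    · rw [h]; exact hp0
    · exact hp0.trans (hps 0 i h hi).le
  have hpM' : ∀ i ≤ (2 * w) * (2 * w), p i ≤ rP + 1 := by
    intro i hi
    rcases Nat.lt_or_ge i ((2 * w) * (2 * w)) with h | h
    · exact (hps i _ h (le_refl _)).le.trans hp1
    · have : i = (2 * w) * (2 * w) := by omega
      rw [this]; exact hp1
  have hqm : ∀ i, i < (2 * w) * (2 * w) → lQ ≤ q i := by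
    intro i hi
    rcases Nat.eq_zero_or_pos i with h | h
    · rw [h]; exact hq0
    · exact hq0.trans (hqs 0 i h hi).le
  have hqM : ∀ i < (2 * w) * (2 * w), q i ≤ rQ := by
    intro i hi
    rcases Nat.lt_or_ge i ((2 * w) * (2 * w) - 1) with h | h
    · exact (hqs i _ h (by omega)).le.trans hq1
    · have : i = (2 * w) * (2 * w) - 1 := by omega
      rw [this]; exact hq1
  have hww : 0 < (2 * w) * (2 * w) := Nat.mul_pos (by omega) (by omega)
  have hPZ : ∀ A ⊆ Reg lP rP nP, Disjoint (P '' A) Z := by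
    intro A hA
    rw [Set.disjoint_left]
    rintro _ ⟨c, hc, rfl⟩
    exact hZP c (hA hc)
  have hQZ : ∀ A ⊆ Reg lQ rQ nQ, Disjoint (Q '' A) Z := by
    intro A hA
    rw [Set.disjoint_left]
    rintro _ ⟨c, hc, rfl⟩
    exact hZQ c (hA hc)
  obtain ⟨U, h1, h2, h3⟩ := h.grid
  refine gmod_F U Z hZf hZc (fun c hc => (h1 c hc).1) (fun c hc => (h1 c hc).2.1) h2 ?_
    h3 ?_ (b := b₀) (by omega) ?_ (fun x j g1 g2 g3 g4 => hZP _ (by rw [mem_Reg]; exact ⟨g1, g2, g4⟩))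
  · intro c hc
    rw [Set.disjoint_left]
    intro v hv hvZ
    rcases (h1 c hc).2.2.2 hv with h4 | h4
    · obtain ⟨i, hi, h5⟩ := mem_iUnion₂.1 h4
      rw [Finset.mem_range] at hi
      have h6 := hp i hi
      have h7 := hpm i hi.le
      have h8 := hpM' (i + 1) hi
      have h9 := (lv_le (w := 2 * w) (i := i) (by omega))
      rcases h5 with (h5 | h5) | h5
      · exact Set.disjoint_left.1 (hXZ i hi) h5 hvZ
      · refine Set.disjoint_left.1 (hPZ (up p (2 * w) b₀ i) ?_) h5 hvZ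
        rintro c (hc | hc)
        · rw [mem_HRow] at hc
          rw [mem_Reg]
          omega
        · rw [mem_Vert] at hc
          rw [mem_Reg]
          omega
      · refine Set.disjoint_left.1 (hQZ (Vert (q i) b₁ (b₁ + lvL (2 * w) i)) ?_) h5 hvZ
        intro c hc
        have h10 := hqm i hi
        have h11 := hqM i hi
        rw [mem_Vert] at hc
        rw [mem_Reg]
        omega
    · obtain ⟨r, hr, h5⟩ := mem_iUnion₂.1 h4
      obtain ⟨s, hs, h6⟩ := mem_iUnion₂.1 h5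
      rw [Finset.mem_Ico] at hr
      rw [Finset.mem_Icc] at hs
      have h7 := arc_idx hr.1 hr.2 hs.1 hs.2
      split_ifs at h6 with h8
      · refine Set.disjoint_left.1 (hPZ _ ?_) h6 hvZ
        intro c hc
        have h9 := hpm (r * (2 * w) - s) (by omega)
        have h10 := hpM' (r * (2 * w) + s - 1) (by omega)
        unfold arc at hc
        rw [mem_HRow] at hc
        rw [mem_Reg]
        omega
      · refine Set.disjoint_left.1 (hQZ _ ?_) h6 hvZ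
        intro c hc
        have h9 := hqm (r * (2 * w) - s) (by omega)
        have h10 := hqM (r * (2 * w) + s - 1) (by omega)
        unfold arc at hc
        rw [mem_HRow] at hc
        rw [mem_Reg]
        omega
  · intro c hc
    exact (hadj _ (idx_lt hc)).mono (subset_refl _)
      (fun v hv => (h1 c hc).2.2.1 (Or.inl (Or.inl hv))) (subset_refl _)
  · intro c hc
    have g1 := idx_lt hc
    have g2 := hpm _ g1.le
    have g3 : p (idx (2 * w) c + 1) ≤ rP + 1 := hpM' _ g1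
    have g4 : p (idx (2 * w) c) < p (idx (2 * w) c + 1) := hp _ g1
    exact ⟨p (idx (2 * w) c), g2, by omega, (h1 c hc).2.2.1 (Or.inl (Or.inl (hXp _ g1)))⟩

/-- **Third page.** Blobs touching three pages; any gains. -/
theorem third_page {w : ℕ} (hw : 1 ≤ w) {P Q R : ℕ × ℕ → V}
    {lP rP nP lQ rQ nQ lR rR nR : ℕ} (hP : Page S ends P lP rP nP)
    (hQ : Page S ends Q lQ rQ nQ) (hR : Page S ends R lR rR nR)
    (hPQ : ∀ c ∈ Reg lP rP nP, ∀ c' ∈ Reg lQ rQ nQ, P c ≠ Q c')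
    (hPR : ∀ c ∈ Reg lP rP nP, ∀ c' ∈ Reg lR rR nR, P c ≠ R c')
    (hQR : ∀ c ∈ Reg lQ rQ nQ, ∀ c' ∈ Reg lR rR nR, Q c ≠ R c') {b₀ b₁ b₂ : ℕ} (hb₀ : 1 ≤ b₀)
    (hn₀ : b₀ + 2 * w ≤ nP) (hn₁ : b₁ + 2 * w ≤ nQ) (hn₂ : b₂ + 1 ≤ nR) (p q t : ℕ → ℕ)
    (hp : ∀ i < (2 * w) * (2 * w), p i < p (i + 1))
    (hq : ∀ i, i + 1 < (2 * w) * (2 * w) → q i < q (i + 1)) (hp0 : lP ≤ p 0)
    (hp1 : p ((2 * w) * (2 * w)) ≤ rP + 1)
    (hq0 : lQ ≤ q 0) (hq1 : q ((2 * w) * (2 * w) - 1) ≤ rQ)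
    (ht : ∀ i < (2 * w) * (2 * w), lR ≤ t i ∧ t i ≤ rR) (X : ℕ → Set V)
    (hXf : ∀ i < (2 * w) * (2 * w), (X i).Finite)
    (hXc : ∀ i < (2 * w) * (2 * w), VConn S ends (X i))
    (hXp : ∀ i < (2 * w) * (2 * w), P (p i, b₀) ∈ X i)
    (hXq : ∀ i < (2 * w) * (2 * w), Q (q i, b₁) ∈ X i)
    (hXt : ∀ i < (2 * w) * (2 * w), R (t i, b₂) ∈ X i)
    (hXX : ∀ i < (2 * w) * (2 * w), ∀ j < (2 * w) * (2 * w), i ≠ j → Disjoint (X i) (X j))
    (hXP : ∀ i < (2 * w) * (2 * w), ∀ c ∈ Reg lP rP nP, P c ∈ X i →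
      p i ≤ c.1 ∧ c.1 < p (i + 1) ∧ c.2 ≤ b₀)
    (hXQ : ∀ i < (2 * w) * (2 * w), ∀ c ∈ Reg lQ rQ nQ, Q c ∈ X i →
      c.2 ≤ b₁ ∧ (c.2 = b₁ → c.1 = q i))
    (hXR : ∀ i < (2 * w) * (2 * w), ∀ c ∈ Reg lR rR nR, R c ∈ X i → c.2 ≤ b₂) :
    GmF S ends P lP rP nP (2 * w) := by
  have hrow : HRow lR rR (b₂ + 1) ⊆ Reg lR rR nR := by
    intro c hc
    rw [mem_HRow] at hc
    rw [mem_Reg]
    omega
  refine book_Z hw hP hQ hPQ hb₀ hn₀ hn₁ p q hp hq hp0 hp1 hq0 hq1 X hXf hXc hXp hXq hXX hXP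
    hXQ (R '' HRow lR rR (b₂ + 1)) ((hrow_finite _ _ _).image _)
    (hR.vconn_hor (le_refl _) (le_refl _) (by omega) hn₂) ?_ ?_ ?_ ?_
  · rintro c hc ⟨c', hc', h⟩
    exact hPR c hc c' (hrow hc') h.symm
  · rintro c hc ⟨c', hc', h⟩
    exact hQR c hc c' (hrow hc') h.symm
  · intro i hi
    rw [Set.disjoint_left]
    rintro _ hv ⟨c, hc, rfl⟩
    have h1 := hXR i hi c (hrow hc) hv
    rw [mem_HRow] at hc
    omega
  · intro i hi
    have h1 := ht i hi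
    obtain ⟨e, he, hee⟩ := hR.ver (t i) b₂ h1.1 h1.2 (by omega)
    exact ⟨e, he, _, hXt i hi, _, ⟨(t i, b₂ + 1), hm h1.1 h1.2, rfl⟩, hee⟩

end EN
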