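import Pool.Agent.EN.KPath

/-!
# Two links per piece (T-star, row D2)

`VB` is a component of the graph of the elements outside of `X`.  Every connected piece outside of
`VB` with two links to `VB` costs one unit of the order of `X`.
-/

open Set
open scoped Matroid

namespace EN

open BIC Gad

variable {α V : Type*} {M : Matroid α} {S : Set α} {ends : α → Sym2 V} {u : ℕ}

/-- Disjoint trees are independent together. -/
lemma FrmU.indep_trees (hF : FrmU M S ends u) {ι : Type*} [DecidableEq ι] (s : Finset ι)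
    {U : ι → Set V} {τ : ι → Set α} (hU : ∀ i ∈ s, (U i).Finite)
    (hA : ∀ i ∈ s, Arb S ends (U i) (τ i)) (hd : ∀ i ∈ s, ∀ j ∈ s, i ≠ j → Disjoint (U i) (U j))
    {VB : Set V} {K : Set α} (hK : M.Indep K) (hKS : K ⊆ ins S ends VB)
    (hKU : ∀ i ∈ s, Disjoint (U i) VB) : M.Indep (K ∪ ⋃ i ∈ s, τ i) := by
  induction s using Finset.induction_on with
  | empty => simpa using hK
  | insert i s his ih =>
    have h1 := ih (fun j hj => hU j (Finset.mem_insert_of_mem hj))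
      (fun j hj => hA j (Finset.mem_insert_of_mem hj))
      (fun j hj k hk => hd j (Finset.mem_insert_of_mem hj) k (Finset.mem_insert_of_mem hk))
      (fun j hj => hKU j (Finset.mem_insert_of_mem hj))
    have hii := Finset.mem_insert_self i s
    obtain ⟨b, hb⟩ := (hA i hii).2.1
    have h2 := hF.indep_arb (hU i hii) (hA i hii) hb h1 (union_subset (fun e he => (hKS he).1)
      (iUnion₂_subset fun j hj e he => ((hA j (Finset.mem_insert_of_mem hj)).1 he).1)) (by
      rintro e (he | he) v hv hvU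
      · exact absurd ((hKS he).2 v hv) (Set.disjoint_left.1 (hKU i hii) hvU)
      · obtain ⟨j, hj, he⟩ := mem_iUnion₂.1 he
        have h3 := ((hA j (Finset.mem_insert_of_mem hj)).1 he).2 v hv
        exact absurd h3 (Set.disjoint_left.1 (hd i hii j (Finset.mem_insert_of_mem hj)
          (by rintro rfl; exact his hj)) hvU))
    rw [Finset.set_biUnion_insert, union_comm (τ i), ← union_assoc]
    exact h2

/-- **Two links.** -/
theorem FrmU.two_links [M.Finite] (hF : FrmU M S ends u) {X : Set α} (hX : X ⊆ M.E) {VB : Set V}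
    (hBf : VB.Finite) (hBne : VB.Nonempty) (hB : VConn (S \ X) ends VB) {ι : Type*}
    [DecidableEq ι] (s : Finset ι) {P : ι → Set V} (hPf : ∀ i ∈ s, (P i).Finite)
    (hPn : ∀ i ∈ s, (P i).Nonempty) (hPc : ∀ i ∈ s, VConn S ends (P i))
    (hPd : ∀ i ∈ s, ∀ j ∈ s, i ≠ j → Disjoint (P i) (P j)) (hPB : ∀ i ∈ s, Disjoint (P i) VB)
    {x y : ι → α} {a a' b b' : ι → V}
    (hx : ∀ i ∈ s, x i ∈ S ∧ x i ∈ X ∧ ends (x i) = s(a i, b i) ∧ a i ∈ P i ∧ b i ∈ VB)
    (hy : ∀ i ∈ s, y i ∈ S ∧ y i ∈ X ∧ ends (y i) = s(a' i, b' i) ∧ a' i ∈ P i ∧ b' i ∈ VB)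
    (hbb : ∀ i ∈ s, b i ≠ b' i)
    (hbd : ∀ i ∈ s, ∀ j ∈ s, i ≠ j → b i ≠ b j ∧ b i ≠ b' j ∧ b' i ≠ b' j) :
    s.card + BIC.rk M M.E ≤ BIC.rk M X + BIC.rk M (M.E \ X) + (u + 1) := by
  classical
  -- the trees
  have htr : ∀ i, ∃ τ, i ∈ s → Arb S ends (P i) τ := by
    intro i
    by_cases hi : i ∈ s
    · obtain ⟨τ, hτ⟩ := exists_arb (hPf i hi) (hPn i hi) (hPc i hi)
      exact ⟨τ, fun _ => hτ⟩
    · exact ⟨∅, fun h => absurd h hi⟩
  choose τ hτ using htr
  obtain ⟨τB, hτB⟩ := exists_arb hBf hBne hB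
  have hτBS : Arb S ends VB τB :=
    ⟨fun e he => ⟨(hτB.1 he).1.1, (hτB.1 he).2⟩, hτB.2.1, hτB.2.2⟩
  have hnB : ∀ i ∈ s, ∀ v ∈ P i, v ∉ VB := fun i hi v hv => Set.disjoint_left.1 (hPB i hi) hv
  set U : ι → Set V := fun i => P i ∪ {b i} ∪ {b' i} with hU
  set T : ι → Set α := fun i => insert (y i) (insert (x i) (τ i ∪ ∅) ∪ ∅) with hT
  have hTA : ∀ i ∈ s, Arb S ends (U i) (T i) := by
    intro i hi
    obtain ⟨x1, _, x3, x4, x5⟩ := hx i hi
    obtain ⟨y1, _, y3, y4, y5⟩ := hy i hi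
    have h1 := Arb.join (Set.disjoint_singleton_right.2 fun h => hnB i hi _ h x5) (hτ i hi)
      (Arb.single (S := S) (ends := ends) (b i)) x1 x3 x4 rfl
    refine Arb.join (Set.disjoint_singleton_right.2 ?_) h1
      (Arb.single (S := S) (ends := ends) (b' i)) y1 y3 (Or.inl y4) rfl
    rintro (h | h)
    · exact hnB i hi _ h y5
    · exact hbb i hi (mem_singleton_iff.1 h).symm
  have hUf : ∀ i ∈ s, (U i).Finite := fun i hi =>
    ((hPf i hi).union (finite_singleton _)).union (finite_singleton _)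
  have hUc : ∀ i ∈ s, (U i).ncard = (P i).ncard + 2 := by
    intro i hi
    obtain ⟨_, _, _, _, x5⟩ := hx i hi
    obtain ⟨_, _, _, _, y5⟩ := hy i hi
    have e1 : U i = insert (b' i) (insert (b i) (P i)) := by
      rw [hU]
      simp only [union_singleton]
    rw [e1, ncard_insert_of_notMem (by
      rintro (h | h)
      · exact hbb i hi h.symm
      · exact hnB i hi _ h y5) ((hPf i hi).insert _),
      ncard_insert_of_notMem (fun h => hnB i hi _ h x5) (hPf i hi)]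
  have hUd : ∀ i ∈ s, ∀ j ∈ s, i ≠ j → Disjoint (U i) (U j) := by
    intro i hi j hj hij
    obtain ⟨h1, h2, h3⟩ := hbd i hi j hj hij
    obtain ⟨_, h2', _⟩ := hbd j hj i hi (Ne.symm hij)
    have xi := (hx i hi).2.2.2.2
    have yi := (hy i hi).2.2.2.2
    have xj := (hx j hj).2.2.2.2
    have yj := (hy j hj).2.2.2.2
    rw [Set.disjoint_left]
    rintro v ((hv | hv) | hv) ((hw | hw) | hw)
    · exact Set.disjoint_left.1 (hPd i hi j hj hij) hv hw
    · rw [mem_singleton_iff.1 hw] at hv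
      exact hnB i hi _ hv xj
    · rw [mem_singleton_iff.1 hw] at hv
      exact hnB i hi _ hv yj
    · rw [mem_singleton_iff.1 hv] at hw
      exact hnB j hj _ hw xi
    · exact h1 ((mem_singleton_iff.1 hv).symm.trans (mem_singleton_iff.1 hw))
    · exact h2 ((mem_singleton_iff.1 hv).symm.trans (mem_singleton_iff.1 hw))
    · rw [mem_singleton_iff.1 hv] at hw
      exact hnB j hj _ hw yi
    · exact h2' ((mem_singleton_iff.1 hw).symm.trans (mem_singleton_iff.1 hv))
    · exact h3 ((mem_singleton_iff.1 hv).symm.trans (mem_singleton_iff.1 hw))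
  have hTf : ∀ i ∈ s, (T i).Finite ∧ (T i).ncard = (P i).ncard + 1 := by
    intro i hi
    obtain ⟨h1, h2⟩ := arb_ncard (hUf i hi) (hTA i hi)
    rw [hUc i hi] at h2
    exact ⟨h1, by omega⟩
  set TT : Set α := ⋃ i ∈ s, T i with hTT
  have hTTf : TT.Finite := s.finite_toSet.biUnion fun i hi => (hTf i hi).1
  have hTd : ∀ i ∈ s, ∀ j ∈ s, i ≠ j → Disjoint (T i) (T j) := fun i hi j hj hij =>
    (ins_disj (S := S) (ends := ends) (hUd i hi j hj hij)).mono (hTA i hi).1 (hTA j hj).1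
  have hTTc : TT.ncard = ∑ i ∈ s, ((P i).ncard + 1) := by
    have key : ∀ t ⊆ s, (⋃ i ∈ t, T i).ncard = ∑ i ∈ t, ((P i).ncard + 1) := by
      intro t
      induction t using Finset.induction_on with
      | empty => simp
      | insert i t hit ih =>
        intro hts
        have hi : i ∈ s := hts (Finset.mem_insert_self _ _)
        have hts' : t ⊆ s := fun j hj => hts (Finset.mem_insert_of_mem hj)
        have hfin : (⋃ j ∈ t, T j).Finite :=
          t.finite_toSet.biUnion fun j hj => (hTf j (hts' hj)).1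
        rw [Finset.set_biUnion_insert, Finset.sum_insert hit, ncard_union_eq ?_ (hTf i hi).1
          hfin, ih hts', (hTf i hi).2]
        rw [Set.disjoint_left]
        intro e he he'
        obtain ⟨j, hj, he'⟩ := mem_iUnion₂.1 he'
        exact Set.disjoint_left.1 (hTd i hi j (hts' hj) (by rintro rfl; exact hit hj)) he he'
    exact key s (Finset.Subset.refl _)
  -- independence
  have hI : M.Indep TT := by
    have h1 := hF.indep_trees s hUf hTA hUd (VB := ∅) (K := ∅) M.empty_indep (empty_subset _)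
      (fun i _ => disjoint_empty _)
    rwa [empty_union] at h1
  have hτBi : M.Indep τB := by
    obtain ⟨v, hv⟩ := hBne
    have h1 := hF.indep_arb hBf hτBS hv M.empty_indep (empty_subset _)
      (fun e he => absurd he (notMem_empty e))
    rwa [empty_union] at h1
  have hJ0 : M.Indep (τB ∪ ⋃ i ∈ s, τ i) :=
    hF.indep_trees s hPf (fun i hi => hτ i hi) hPd hτBi hτBS.1 hPB
  have hxX : ∀ i ∈ s, ∀ e ∈ T i, e ∉ X → e ∈ τ i := by
    rintro i hi e (rfl | (rfl | h | h) | h) heX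
    · exact absurd (hy i hi).2.1 heX
    · exact absurd (hx i hi).2.1 heX
    · exact h
    · exact absurd h (notMem_empty e)
    · exact absurd h (notMem_empty e)
  have hJ : M.Indep (τB ∪ (TT \ X)) := by
    refine hJ0.subset (union_subset subset_union_left ?_)
    rintro e ⟨he, heX⟩
    obtain ⟨i, hi, he⟩ := mem_iUnion₂.1 he
    exact Or.inr (mem_iUnion₂.2 ⟨i, hi, hxX i hi e he heX⟩)
  have hTTS : TT ⊆ S := iUnion₂_subset fun i hi e he => ((hTA i hi).1 he).1
  have hτBf := arb_ncard hBf hτBS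
  -- trees of the pieces and of `VB` are disjoint
  have hdj : Disjoint τB TT := by
    rw [Set.disjoint_left]
    intro e he he'
    obtain ⟨i, hi, he'⟩ := mem_iUnion₂.1 he'
    have h1 := (hτBS.1 he).2
    rcases he' with rfl | (rfl | h | h) | h
    · obtain ⟨_, _, y3, y4, _⟩ := hy i hi
      exact hnB i hi _ y4 (h1 _ (by rw [y3]; simp))
    · obtain ⟨_, _, x3, x4, _⟩ := hx i hi
      exact hnB i hi _ x4 (h1 _ (by rw [x3]; simp))
    · obtain ⟨v, hv⟩ := exists_mem_ends ends e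
      exact hnB i hi _ (((hτ i hi).1 h).2 v hv) (h1 v hv)
    · exact h
    · exact h
  set R : Set α := τB ∪ TT with hR
  have hRE : R ⊆ M.E := union_subset (fun e he => hF.sub (hτBS.1 he).1)
    (fun e he => hF.sub (hTTS he))
  set W : Set V := VB ∪ ⋃ i ∈ s, P i with hW
  have hWf : W.Finite := hBf.union (s.finite_toSet.biUnion fun i hi => hPf i hi)
  have hWc : W.ncard ≤ VB.ncard + ∑ i ∈ s, (P i).ncard := by
    refine (ncard_union_le _ _).trans (Nat.add_le_add_left ?_ _)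
    have key : ∀ t : Finset ι, (⋃ i ∈ t, P i).ncard ≤ ∑ i ∈ t, (P i).ncard := by
      intro t
      induction t using Finset.induction_on with
      | empty => simp
      | insert i t hit ih =>
        rw [Finset.set_biUnion_insert, Finset.sum_insert hit]
        exact (ncard_union_le _ _).trans (Nat.add_le_add_left ih _)
    exact key s
  have hRW : R ⊆ ins S ends W := by
    rintro e (he | he)
    · exact ⟨(hτBS.1 he).1, fun v hv => Or.inl ((hτBS.1 he).2 v hv)⟩
    · obtain ⟨i, hi, he⟩ := mem_iUnion₂.1 he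
      refine ⟨((hTA i hi).1 he).1, fun v hv => ?_⟩
      rcases ((hTA i hi).1 he).2 v hv with (h | h) | h
      · exact Or.inr (mem_iUnion₂.2 ⟨i, hi, h⟩)
      · rw [mem_singleton_iff.1 h]
        exact Or.inl (hx i hi).2.2.2.2
      · rw [mem_singleton_iff.1 h]
        exact Or.inl (hy i hi).2.2.2.2
  have hrk : BIC.rk M R ≤ W.ncard + u := (rk_mono M hRW).trans (hF.rk W hWf)
  -- both sides
  have hA : (TT ∩ X).ncard ≤ BIC.rk M (X ∩ R) := by
    rw [← rk_indep (hI.subset inter_subset_left)]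
    exact rk_mono M fun e he => ⟨he.2, Or.inr he.1⟩
  have hB' : τB.ncard + (TT \ X).ncard ≤ BIC.rk M ((M.E \ X) ∩ R) := by
    have h1 : (τB ∪ (TT \ X)).ncard = τB.ncard + (TT \ X).ncard :=
      ncard_union_eq (hdj.mono_right sdiff_subset) hτBf.1 (hTTf.subset sdiff_subset)
    rw [← h1, ← rk_indep hJ]
    refine rk_mono M ?_
    rintro e (he | he)
    · exact ⟨⟨hF.sub (hτBS.1 he).1, (hτB.1 he).1.2⟩, Or.inl he⟩
    · exact ⟨⟨hF.sub (hTTS he.1), he.2⟩, Or.inr he.1⟩
  have hsplit : (TT ∩ X).ncard + (TT \ X).ncard = TT.ncard := ncard_inter_add_ncard_sdiff_eq_ncard TT X hTTf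
  have hsum : ∑ i ∈ s, ((P i).ncard + 1) = ∑ i ∈ s, (P i).ncard + s.card := by
    rw [Finset.sum_add_distrib, Finset.sum_const, smul_eq_mul, mul_one]
  by_cases hle : s.card ≤ u + 1
  · have h1 : BIC.rk M M.E ≤ BIC.rk M X + BIC.rk M (M.E \ X) := by
      have h2 := rk_submod M (X := X) (Y := M.E \ X)
      rw [union_sdiff_cancel hX] at h2
      omega
    omega
  · have h1 := kge_restr (M := M) (X := X) (R := R) hX hRE (K := s.card - (u + 1))
      (c := W.ncard + u) hrk (by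
        rw [hsum] at hTTc
        have := hτBf.2
        omega)
    omega

/-- The part of a connected set before it reaches `VB`. -/
lemma reach {VB Q : Set V} {p : V} (hp : p ∈ Q) (hpB : p ∉ VB) (hQ : VConn S ends Q)
    (hQB : (Q ∩ VB).Nonempty) : ∃ (P : Set V) (x : α) (a b : V), P ⊆ Q ∧ p ∈ P ∧
      Disjoint P VB ∧ VConn S ends P ∧ x ∈ S ∧ ends x = s(a, b) ∧ a ∈ P ∧ b ∈ Q ∧ b ∈ VB := by
  set P : Set V := {v | Relation.ReflTransGen (fun x y => GAdj S ends x y ∧ x ∈ Q \ VB ∧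
    y ∈ Q \ VB) p v} with hP
  have hPQ : ∀ v ∈ P, v ∈ Q \ VB := by
    intro v hv
    rcases Relation.ReflTransGen.cases_tail hv with h | ⟨w, _, h⟩
    · rw [h]
      exact ⟨hp, hpB⟩
    · exact h.2.2
  have hpc : ∀ v ∈ P, Relation.ReflTransGen (fun x y => GAdj S ends x y ∧ x ∈ P ∧ y ∈ P) p v := by
    intro v hv
    induction hv with
    | refl => exact Relation.ReflTransGen.refl
    | tail h1 h2 ih => exact ih.tail ⟨h2.1, h1, h1.tail h2⟩
  have hsym : ∀ v ∈ P, Relation.ReflTransGen (fun x y => GAdj S ends x y ∧ x ∈ P ∧ y ∈ P) v p := by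
    intro v hv
    have h1 := hpc v hv
    clear hv
    induction h1 with
    | refl => exact Relation.ReflTransGen.refl
    | tail _ h2 ih => exact Relation.ReflTransGen.head ⟨h2.1.symm, h2.2.2, h2.2.1⟩ ih
  obtain ⟨q, hqQ, hqB⟩ := hQB
  obtain ⟨a, ha, b, hb, ⟨⟨e, he, hee⟩, haQ, hbQ⟩⟩ := exit (R := P) (hQ p hp q hqQ)
    Relation.ReflTransGen.refl (fun h => (hPQ q h).2 hqB)
  refine ⟨P, e, a, b, fun v hv => (hPQ v hv).1, Relation.ReflTransGen.refl,
    Set.disjoint_left.2 fun v hv => (hPQ v hv).2, fun v hv w hw => (hsym v hv).trans (hpc w hw),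
    he, hee, ha, hbQ, ?_⟩
  by_contra hbB
  exact hb (Relation.ReflTransGen.tail ha ⟨⟨e, he, hee⟩, hPQ a ha, hbQ, hbB⟩)

/-- **Two paths.** -/
theorem FrmU.two_paths [M.Finite] (hF : FrmU M S ends u) {X : Set α} (hX : X ⊆ M.E) {VB : Set V}
    (hBf : VB.Finite) (hBne : VB.Nonempty) (hB : VConn (S \ X) ends VB)
    (hmax : ∀ e ∈ S, e ∉ X → ∀ v ∈ ends e, v ∈ VB → ∀ w ∈ ends e, w ∈ VB) {ι : Type*}
    [DecidableEq ι] (s : Finset ι) {Q Q' : ι → Set V} (hQf : ∀ i ∈ s, (Q i).Finite)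
    (hQf' : ∀ i ∈ s, (Q' i).Finite) (hQ : ∀ i ∈ s, VConn S ends (Q i))
    (hQ' : ∀ i ∈ s, VConn S ends (Q' i)) (hQB : ∀ i ∈ s, (Q i ∩ VB).Nonempty)
    (hQB' : ∀ i ∈ s, (Q' i ∩ VB).Nonempty) {p p' : ι → V} (hp : ∀ i ∈ s, p i ∈ Q i ∧ p i ∉ VB)
    (hp' : ∀ i ∈ s, p' i ∈ Q' i ∧ p' i ∉ VB)
    (hpp : ∀ i ∈ s, p i = p' i ∨ GAdj S ends (p i) (p' i))
    (hdd : ∀ i ∈ s, ∀ v ∈ Q i, v ∈ Q' i → v ∉ VB)
    (hd : ∀ i ∈ s, ∀ j ∈ s, i ≠ j → Disjoint (Q i ∪ Q' i) (Q j ∪ Q' j)) :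
    s.card + BIC.rk M M.E ≤ BIC.rk M X + BIC.rk M (M.E \ X) + (u + 1) := by
  classical
  rcases s.eq_empty_or_nonempty with hs | ⟨i₀, hi₀⟩
  · subst hs
    have h2 := rk_submod M (X := X) (Y := M.E \ X)
    rw [union_sdiff_cancel hX] at h2
    rw [Finset.card_empty]
    omega
  have key : ∀ i, ∃ (P : Set V) (x y : α) (a a' b b' : V), i ∈ s → P.Finite ∧ P.Nonempty ∧
      VConn S ends P ∧ P ⊆ Q i ∪ Q' i ∧ Disjoint P VB ∧
      (x ∈ S ∧ x ∈ X ∧ ends x = s(a, b) ∧ a ∈ P ∧ b ∈ VB) ∧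
      (y ∈ S ∧ y ∈ X ∧ ends y = s(a', b') ∧ a' ∈ P ∧ b' ∈ VB) ∧ b ∈ Q i ∧ b' ∈ Q' i := by
    intro i
    by_cases hi : i ∈ s
    · obtain ⟨P₁, x, a, b, h1, h2, h3, h4, h5, h6, h7, h8, h9⟩ :=
        reach (hp i hi).1 (hp i hi).2 (hQ i hi) (hQB i hi)
      obtain ⟨P₂, y, a', b', g1, g2, g3, g4, g5, g6, g7, g8, g9⟩ :=
        reach (hp' i hi).1 (hp' i hi).2 (hQ' i hi) (hQB' i hi)
      refine ⟨P₁ ∪ P₂, x, y, a, a', b, b', fun _ => ⟨((hQf i hi).subset h1).union
        ((hQf' i hi).subset g1), ⟨_, Or.inl h2⟩, ?_, union_subset_union h1 g1,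
        Disjoint.union_left h3 g3, ⟨h5, ?_, h6, Or.inl h7, h9⟩,
        ⟨g5, ?_, g6, Or.inr g7, g9⟩, h8, g8⟩⟩
      · rcases hpp i hi with h | ⟨e, he, hee⟩
        · exact vc_union h4 g4 h2 (by rw [h]; exact g2)
        · exact vc_lnk h4 g4 ⟨e, he, _, h2, _, g2, hee⟩
      · by_contra hxX
        exact Set.disjoint_left.1 h3 h7 (hmax x h5 hxX b (by rw [h6]; simp) h9 a
          (by rw [h6]; simp))
      · by_contra hyX
        exact Set.disjoint_left.1 g3 g7 (hmax y g5 hyX b' (by rw [g6]; simp) g9 a'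
          (by rw [g6]; simp))
    · have hV : Nonempty V := ⟨p i₀⟩
      have hα : Nonempty α := by
        obtain ⟨_, x, _⟩ := reach (hp i₀ hi₀).1 (hp i₀ hi₀).2 (hQ i₀ hi₀) (hQB i₀ hi₀)
        exact ⟨x⟩
      exact ⟨∅, Classical.choice hα, Classical.choice hα, Classical.choice hV,
        Classical.choice hV, Classical.choice hV, Classical.choice hV, fun h => absurd h hi⟩
  choose P x y a a' b b' hk using key
  refine hF.two_links hX hBf hBne hB s (P := P) (x := x) (y := y) (a := a) (a' := a') (b := b)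
    (b' := b') (fun i hi => (hk i hi).1) (fun i hi => (hk i hi).2.1)
    (fun i hi => (hk i hi).2.2.1) ?_ (fun i hi => (hk i hi).2.2.2.2.1)
    (fun i hi => (hk i hi).2.2.2.2.2.1) (fun i hi => (hk i hi).2.2.2.2.2.2.1) ?_ ?_
  · intro i hi j hj hij
    exact (hd i hi j hj hij).mono (hk i hi).2.2.2.1 (hk j hj).2.2.2.1
  · intro i hi he
    obtain ⟨h1, h2⟩ := (hk i hi).2.2.2.2.2.2.2
    rw [← he] at h2
    exact hdd i hi _ h1 h2 (hk i hi).2.2.2.2.2.1.2.2.2.2
  · intro i hi j hj hij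
    obtain ⟨h1, h2⟩ := (hk i hi).2.2.2.2.2.2.2
    obtain ⟨h3, h4⟩ := (hk j hj).2.2.2.2.2.2.2
    have h5 := Set.disjoint_left.1 (hd i hi j hj hij)
    refine ⟨fun he => h5 (Or.inl h1) (by rw [he]; exact Or.inl h3),
      fun he => h5 (Or.inl h1) (by rw [he]; exact Or.inr h4),
      fun he => h5 (Or.inr h2) (by rw [he]; exact Or.inr h4)⟩

end EN
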