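import Pool.Agent.EN.Taut

/-!
# Models with unbalanced branch sets

`U d A` says that the vertex set `A` of the host of depth `d` is unbalanced.  In the applications
this is a statement about ranks; only the five properties in `Bal` are used.  The predicate `gd` of
the host is not used here: it is assumed to hold everywhere (`H.gd v` for all `v`).
-/

open Relation

namespace Mdu

open Mdl

variable {V σ X : Type*}

/-- Paths inside of a vertex set. -/
def Pa (H : Host V σ) (d : ℤ) (A : Set (HV V σ)) : HV V σ → HV V σ → Prop :=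
  ReflTransGen (fun a b => H.Adj d a b ∧ a ∈ A ∧ b ∈ A)

/-- Connected vertex sets of the host. -/
def Co (H : Host V σ) (d : ℤ) (A : Set (HV V σ)) : Prop := ∀ u ∈ A, ∀ v ∈ A, Pa H d A u v

/-- Vertex sets in the region of depth `d`. -/
def Rg (H : Host V σ) (d : ℤ) (A : Set (HV V σ)) : Prop :=
  ∀ s c b, (Sum.inr (s, c, b) : HV V σ) ∈ A → c < H.len s ∧ -d ≤ b ∧ b ≤ d

/-- Properties of unbalanced vertex sets. -/
structure Bal (H : Host V σ) (N : ℤ) (U : ℤ → Set (HV V σ) → Prop) : Prop where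
  ne : ∀ d, ¬ U d ∅
  mono : ∀ d A B, 0 ≤ d → d ≤ N → Rg H d B → A ⊆ B → B.Finite → A.Nonempty → Co H d B →
    U d A → U d B
  modu : ∀ d A B, 0 ≤ d → d ≤ N → Rg H d A → Rg H d B → A.Finite → B.Finite → Co H d A →
    Co H d B → (A ∩ B).Nonempty → Co H d (A ∩ B) →
    (∀ a ∈ A, ∀ b ∈ B, a ∉ B → b ∉ A → ¬ H.Adj d a b) → U d (A ∪ B) → U d A ∨ U d B
  page : ∀ d s Q, 0 ≤ d → d ≤ N → Rg H d Q → Q.Finite → Q.Nonempty → Co H d Q →
    (∀ u ∈ Q, ∃ c b, u = Sum.inr (s, c, b)) → ¬ U d Q
  str : ∀ d k A, 0 ≤ d → 0 ≤ k → d + k ≤ N → Rg H d A → A.Finite → Co H d A → U d A →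
    U (d + k) {w | Pz k w ∈ A}

section

variable {G : SimpleGraph X} {H : Host V σ} {N d k : ℤ} {U : ℤ → Set (HV V σ) → Prop}
  {f : HV V σ → Option X} {y : X} {A B : Set (HV V σ)}

lemma Pa.trans {u v w : HV V σ} (h : Pa H d A u v) (h' : Pa H d A v w) : Pa H d A u w :=
  ReflTransGen.trans h h'

lemma Pa.symm {u v : HV V σ} (h : Pa H d A u v) : Pa H d A v u := by
  unfold Pa at h ⊢
  induction h with
  | refl => exact ReflTransGen.refl
  | tail _ hbc ih => exact ReflTransGen.head ⟨hbc.1.symm, hbc.2.2, hbc.2.1⟩ ih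

lemma Pa.mono {u v : HV V σ} (h : Pa H d A u v) (hAB : A ⊆ B) : Pa H d B u v := by
  unfold Pa at h ⊢
  induction h with
  | refl => exact ReflTransGen.refl
  | tail _ hbc ih => exact ReflTransGen.tail ih ⟨hbc.1, hAB hbc.2.1, hAB hbc.2.2⟩

lemma Pa.one {u v : HV V σ} (h : H.Adj d u v) (hu : u ∈ A) (hv : v ∈ A) : Pa H d A u v :=
  ReflTransGen.single ⟨h, hu, hv⟩

lemma Pa.mem {u v : HV V σ} (h : Pa H d A u v) (hu : u ∈ A) : v ∈ A := by
  rcases ReflTransGen.cases_tail h with h1 | ⟨w, _, h2⟩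
  · rw [h1]; exact hu
  · exact h2.2.2

lemma Pa.of_cn {u v : HV V σ} (h : Cn H d f y u v) : Pa H d {w | f w = some y} u v := h

lemma Pa.cn {u v : HV V σ} (h : Pa H d {w | f w = some y} u v) : Cn H d f y u v := h

/-- A set connected to one of its points. -/
lemma Co.of {p : HV V σ} (h : ∀ u ∈ A, Pa H d A p u) : Co H d A :=
  fun u hu v hv => (h u hu).symm.trans (h v hv)

/-- Components are connected. -/
lemma Co.comp (p : HV V σ) : Co H d {w | Pa H d A p w} := by
  apply Co.of (p := p)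
  intro u hu
  have hu' : Pa H d A p u := hu
  clear hu
  unfold Pa at hu' ⊢
  induction hu' with
  | refl => exact ReflTransGen.refl
  | tail hab hbc ih =>
    exact ReflTransGen.tail ih ⟨hbc.1, hab, ReflTransGen.tail hab hbc⟩

/-- Vertical paths. -/
lemma Pa.vert {s : σ} {c : ℕ} {a a' : ℤ} (hc : c < H.len s) (h1 : -d ≤ a) (h2 : a' ≤ d)
    (haa : a ≤ a') (hA : ∀ b : ℤ, a ≤ b → b ≤ a' → (Sum.inr (s, c, b) : HV V σ) ∈ A) :
    Pa H d A (Sum.inr (s, c, a)) (Sum.inr (s, c, a')) := by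
  classical
  have h3 : Cn H d (fun w => if w ∈ A then some () else none) () (Sum.inr (s, c, a))
      (Sum.inr (s, c, a')) := by
    refine Cn.vert' hc h1 h2 haa ?_
    intro b hb hb'
    rw [if_pos (hA b hb hb')]
  refine Pa.mono (Pa.of_cn h3) ?_
  intro w hw
  have hw' : (if w ∈ A then some () else none) = some () := hw
  by_contra hcon
  rw [if_neg hcon] at hw'
  exact absurd hw' (by simp)

/-- Horizontal paths. -/
lemma Pa.hor {s : σ} {b : ℤ} (hb0 : b ≠ 0) (h1 : -d ≤ b) (h2 : b ≤ d) (c n : ℕ)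
    (hc : c + n < H.len s)
    (hA : ∀ k, c ≤ k → k ≤ c + n → (Sum.inr (s, k, b) : HV V σ) ∈ A) :
    Pa H d A (Sum.inr (s, c, b)) (Sum.inr (s, c + n, b)) := by
  induction n with
  | zero => exact ReflTransGen.refl
  | succ n ih =>
    refine (ih (by omega) (fun k hk hk' => hA k hk (by omega))).trans ?_
    exact Pa.one (Host.hor (by omega) h1 h2 hb0) (hA _ (by omega) (by omega))
      (hA _ (by omega) (by omega))

/-- A connected unbalanced set contains an outside vertex. -/
lemma Bal.inl (hB : Bal H N U) (hd : 0 ≤ d) (hdN : d ≤ N) (hR : Rg H d A) (hfin : A.Finite)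
    (hc : Co H d A) (hU : U d A) : ∃ v, Sum.inl v ∈ A := by
  by_contra hcon
  have hall : ∀ u ∈ A, ∃ s c b, u = Sum.inr (s, c, b) := by
    rintro (v | ⟨s, c, b⟩) hu
    · exact absurd ⟨v, hu⟩ hcon
    · exact ⟨s, c, b, rfl⟩
  rcases A.eq_empty_or_nonempty with h0 | ⟨u, hu⟩
  · rw [h0] at hU
    exact hB.ne d hU
  · obtain ⟨s, c, b, rfl⟩ := hall u hu
    refine hB.page d s A hd hdN hR hfin ⟨_, hu⟩ hc ?_ hU
    intro v hv
    have h1 := hc _ hu v hv
    unfold Pa at h1
    induction h1 with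
    | refl => exact ⟨c, b, rfl⟩
    | tail _ hbc ih =>
      rename_i p q _
      obtain ⟨c', b', rfl⟩ := ih hbc.2.1
      obtain ⟨s'', c'', b'', rfl⟩ := hall q hbc.2.2
      rcases hbc.1 with h2 | h2
      · rw [← h2.1]
        exact ⟨c'', b'', rfl⟩
      · rw [h2.1]
        exact ⟨c'', b'', rfl⟩

/-- Models with unbalanced branch sets. -/
structure UModel (G : SimpleGraph X) (H : Host V σ) (U : ℤ → Set (HV V σ) → Prop) (d : ℤ)
    (f : HV V σ → Option X) : Prop where
  mod : Model G H d f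
  unb : ∀ y, U d {w | f w = some y}

lemma Model.rg (hf : Model G H d f) (y : X) : Rg H d {w | f w = some y} := by
  intro s c b h
  apply hf.sup
  have h' : f (Sum.inr (s, c, b)) = some y := h
  rw [h']
  simp

lemma Model.fin' (hf : Model G H d f) (y : X) : {w | f w = some y}.Finite := by
  refine hf.fin.subset ?_
  intro w hw
  have hw' : f w = some y := hw
  change f w ≠ none
  rw [hw']
  simp

lemma Model.co (hf : Model G H d f) (y : X) : Co H d {w | f w = some y} :=
  fun u hu v hv => Pa.of_cn (hf.con y u v hu hv)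

/-- Dropping. -/
theorem UModel.drop (hB : Bal H N U) (hgd : ∀ v, H.gd v) (hd : 0 ≤ d) (hdN : d ≤ N)
    (hf : UModel G H U d f) {s : σ} {c : ℕ} (hu : f (Sum.inr (s, c, 0)) = some y)
    (Q : Set (HV V σ)) (hQ : ∀ w ∈ Q, f w = some y ∧ w ≠ Sum.inr (s, c, 0)) (hc : Co H d Q)
    (hUQ : U d Q)
    (hed : ∀ z, G.Adj y z → ∃ v w, v ∈ Q ∧ H.Adj d v w ∧ f w = some z) :
    ∃ f', UModel G H U d f' ∧ mm f' < mm f := by
  classical
  set f' : HV V σ → Option X := fun w => if f w = some y ∧ w ∉ Q then none else f w with hf'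
  have h1 : ∀ w, f' w ≠ none → f w = f' w := by
    intro w hw
    simp only [hf'] at hw ⊢
    split_ifs at hw ⊢ with h
    · exact absurd rfl hw
    · rfl
  have h2 : ∀ w z, z ≠ y → (f' w = some z ↔ f w = some z) := by
    intro w z hz
    simp only [hf']
    split_ifs with h
    · rw [h.1]
      constructor
      · intro h3; exact absurd h3 (by simp)
      · intro h3; exact absurd (Option.some.inj h3).symm hz
    · exact Iff.rfl
  have h3 : ∀ w, f' w = some y ↔ w ∈ Q := by
    intro w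
    simp only [hf']
    split_ifs with h
    · constructor
      · intro h4; exact absurd h4 (by simp)
      · intro h4; exact absurd h4 h.2
    · constructor
      · intro h4
        by_contra h5
        exact h ⟨h4, h5⟩
      · intro h4
        exact (hQ w h4).1
  have hset : {w | f' w = some y} = Q := Set.ext h3
  have hset' : ∀ z, z ≠ y → {w | f' w = some z} = {w | f w = some z} :=
    fun z hz => Set.ext (fun w => h2 w z hz)
  have hRQ : Rg H d Q := by
    intro s' c' b' h
    exact Model.rg hf.mod y s' c' b' (hQ _ h).1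
  have hQf : Q.Finite := (Model.fin' hf.mod y).subset (fun w hw => (hQ w hw).1)
  refine ⟨f', ⟨⟨?_, ?_, ?_, ?_, ?_⟩, ?_⟩, ?_⟩
  · intro s' c' b' h
    apply hf.mod.sup
    rw [h1 _ h]
    exact h
  · refine hf.mod.fin.subset ?_
    intro w hw
    have hw' : f' w ≠ none := hw
    change f w ≠ none
    rw [h1 _ hw']
    exact hw'
  · intro z a b ha hb
    apply Pa.cn
    by_cases hz : z = y
    · rw [hz] at ha hb ⊢
      rw [hset]
      exact hc a ((h3 a).1 ha) b ((h3 b).1 hb)
    · rw [hset' z hz]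
      exact Model.co hf.mod z a ((h2 a z hz).1 ha) b ((h2 b z hz).1 hb)
  · have key : ∀ z, G.Adj y z → ∃ v w, H.Adj d v w ∧ f' v = some y ∧ f' w = some z := by
      intro z hz
      obtain ⟨v, w, hv', hvw, hw⟩ := hed z hz
      exact ⟨v, w, hvw, (h3 v).2 hv', (h2 w z hz.ne').2 hw⟩
    intro a b hab
    by_cases ha : a = y
    · rw [ha] at hab ⊢
      exact key b hab
    · by_cases hb : b = y
      · rw [hb] at hab ⊢
        obtain ⟨v, w, h8, h9, h10⟩ := key a hab.symm
        exact ⟨w, v, h8.symm, h10, h9⟩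
      · obtain ⟨v, w, h8, h9, h10⟩ := hf.mod.edg a b hab
        exact ⟨v, w, h8, (h2 v a ha).2 h9, (h2 w b hb).2 h10⟩
  · intro z
    by_cases hz : z = y
    · obtain ⟨v, hv⟩ := hB.inl hd hdN hRQ hQf hc hUQ
      rw [hz]
      exact ⟨v, (h3 _).2 hv, hgd v⟩
    · obtain ⟨v, h8, h9⟩ := hf.mod.gnd z
      exact ⟨v, (h2 _ z hz).2 h8, h9⟩
  · intro z
    by_cases hz : z = y
    · rw [hz, hset]
      exact hUQ
    · rw [hset' z hz]
      exact hf.unb z
  · unfold mm
    refine Set.ncard_lt_ncard ?_ hf.mod.fin0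
    rw [Set.ssubset_iff_of_subset]
    · refine ⟨(s, c), ?_, ?_⟩
      · change f (Sum.inr (s, c, 0)) ≠ none
        rw [hu]
        simp
      · change ¬ (f' (Sum.inr (s, c, 0)) ≠ none)
        rw [not_not]
        by_contra h9
        have h10 := h1 _ h9
        rw [hu] at h10
        exact (hQ _ ((h3 _).1 h10.symm)).2 rfl
    · rintro ⟨a, b⟩ h
      change f' _ ≠ none at h
      change f _ ≠ none
      rw [h1 _ h]
      exact h

/-- The class stays unbalanced if a vertex inside of a page set is removed. -/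
lemma UModel.unb_del (hB : Bal H N U) (hd : 0 ≤ d) (hdN : d ≤ N)
    (hf : UModel G H U d f) {s : σ} {u : HV V σ}
    (hA : Co H d {w | f w = some y ∧ w ≠ u}) (Q : Set (HV V σ)) (huQ : u ∈ Q)
    (hQ : ∀ w ∈ Q, f w = some y) (hQs : ∀ w ∈ Q, ∃ c b, w = Sum.inr (s, c, b))
    (hQc : Co H d Q) (hQc' : Co H d {w | w ∈ Q ∧ w ≠ u}) (hne : ∃ w ∈ Q, w ≠ u)
    (hnb : ∀ w, f w = some y → H.Adj d w u → w ∈ Q) :
    U d {w | f w = some y ∧ w ≠ u} := by
  have hRQ : Rg H d Q := fun s' c' b' h => Model.rg hf.mod y s' c' b' (hQ _ h)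
  have hRA : Rg H d {w | f w = some y ∧ w ≠ u} :=
    fun s' c' b' h => Model.rg hf.mod y s' c' b' h.1
  have hQf : Q.Finite := (Model.fin' hf.mod y).subset (fun w hw => hQ w hw)
  have hAf : {w | f w = some y ∧ w ≠ u}.Finite :=
    (Model.fin' hf.mod y).subset (fun w hw => hw.1)
  have e1 : {w | f w = some y ∧ w ≠ u} ∪ Q = {w | f w = some y} := by
    ext w
    constructor
    · rintro (h | h)
      · exact h.1
      · exact hQ w h
    · intro h
      by_cases hwu : w = u
      · right; rw [hwu]; exact huQ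
      · left; exact ⟨h, hwu⟩
  have e2 : {w | f w = some y ∧ w ≠ u} ∩ Q = {w | w ∈ Q ∧ w ≠ u} := by
    ext w
    constructor
    · rintro ⟨h1, h2⟩
      exact ⟨h2, h1.2⟩
    · rintro ⟨h1, h2⟩
      exact ⟨⟨hQ w h1, h2⟩, h1⟩
  obtain ⟨w₀, hw₀, hw₀'⟩ := hne
  have h1 := hB.modu d {w | f w = some y ∧ w ≠ u} Q hd hdN hRA hRQ hAf hQf hA hQc
    (by rw [e2]; exact ⟨w₀, hw₀, hw₀'⟩) (by rw [e2]; exact hQc')
    (by
      intro a ha b hb haQ hbA hab
      have hbu : b = u := by
        by_contra hbu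
        exact hbA ⟨hQ b hb, hbu⟩
      rw [hbu] at hab
      exact haQ (hnb a ha.1 hab))
    (by rw [e1]; exact hf.unb y)
  rcases h1 with h1 | h1
  · exact h1
  · exact absurd h1 (hB.page d s Q hd hdN hRQ hQf ⟨u, huQ⟩ hQc hQs)

/-- Stretching. -/
theorem UModel.stretch (hB : Bal H N U) (hf : UModel G H U d f) (hd : 0 ≤ d) (hk : 0 ≤ k)
    (hN : d + k ≤ N) : UModel G H U (d + k) (fun w => f (Pz k w)) where
  mod := hf.mod.stretch hd hk
  unb := by
    intro y
    exact hB.str d k _ hd hk hN (Model.rg hf.mod y) (Model.fin' hf.mod y) (Model.co hf.mod y)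
      (hf.unb y)

/-- A model which is straight in the windows `-K ≤ b ≤ K` and uses as few vertices of the window
`0` as possible. -/
theorem exists_straight (hB : Bal H N U) {K : ℤ} (hK : 0 ≤ K) (n : ℕ) :
    ∀ (d : ℤ) (f : HV V σ → Option X), 0 ≤ d → d + (n + 1) * K ≤ N →
    UModel G H U d f → mm f ≤ n → ∃ (D : ℤ) (f' : HV V σ → Option X), d + K ≤ D ∧
      D ≤ d + (n + 1) * K ∧ UModel G H U D f' ∧ mm f' ≤ n ∧
      (∀ s c (b : ℤ), -K ≤ b → b ≤ K → f' (Sum.inr (s, c, b)) = f' (Sum.inr (s, c, 0))) ∧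
      ∀ f'', UModel G H U D f'' → mm f' ≤ mm f'' := by
  induction n with
  | zero =>
    intro d f hd hN hf hn
    refine ⟨d + K, _, le_refl _, by push_cast; linarith, hf.stretch hB hd hK (by
      push_cast at hN; linarith), ?_, ?_, ?_⟩
    · rw [mm_stretch hK]; exact hn
    · intro s c b h1 h2
      simp only [Pz]
      rw [pz_mid h1 h2, pz_mid (by omega) hK]
    · intro f'' _
      rw [mm_stretch hK]
      omega
  | succ n ih =>
    intro d f hd hN hf hn
    have hN' : d + K ≤ N := by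
      push_cast at hN
      nlinarith
    by_cases h : ∃ f'', UModel G H U (d + K) f'' ∧ mm f'' ≤ n
    · obtain ⟨f'', h1, h2⟩ := h
      obtain ⟨D, f', h3, h4, h5, h6, h7, h8⟩ := ih (d + K) f'' (by omega) (by
        push_cast at hN ⊢
        linarith) h1 h2
      refine ⟨D, f', by omega, ?_, h5, by omega, h7, h8⟩
      push_cast at h4 ⊢
      linarith
    · push Not at h
      refine ⟨d + K, _, le_refl _, ?_, hf.stretch hB hd hK hN', ?_, ?_, ?_⟩
      · push_cast
        nlinarith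
      · rw [mm_stretch hK]; exact hn
      · intro s c b h1 h2
        simp only [Pz]
        rw [pz_mid h1 h2, pz_mid (by omega) hK]
      · intro f'' h1
        rw [mm_stretch hK]
        have := h f'' h1
        omega

end

end Mdu
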