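import Mathlib

/-!
Walks of the union of a perfect matching `fl` and a partial matching `φ` (on the clean set `C`):
from every element outside `C` the walk `q, φ (fl q), ..` ends at `ed q` outside `C`, and `ed` is an
involution.  (T-star, module III: lines and bands.)
-/

set_option autoImplicit false

namespace EN.Walk

variable {T : Type*}

/-- the walk -/
def wk (fl φ : T → T) (q : T) (k : ℕ) : T := (fun p => φ (fl p))^[k] q

/-- a perfect matching and a partial matching on `C` -/
structure Mat (fl φ : T → T) (C : Set T) : Prop where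
  fl_fl : ∀ p, fl (fl p) = p
  mem : ∀ p, p ∈ C → φ p ∈ C
  inv : ∀ p, p ∈ C → φ (φ p) = p

variable {fl φ : T → T} {C : Set T}

theorem wk_zero (q : T) : wk fl φ q 0 = q := rfl

theorem wk_succ (q : T) (k : ℕ) : wk fl φ q (k + 1) = φ (fl (wk fl φ q k)) := by
  unfold wk
  rw [Function.iterate_succ_apply']

/-- `n` steps are possible -/
def Ok (fl φ : T → T) (C : Set T) (q : T) (n : ℕ) : Prop := ∀ k, k < n → fl (wk fl φ q k) ∈ C

theorem Ok.mono {q : T} {n m : ℕ} (h : Ok fl φ C q n) (hm : m ≤ n) : Ok fl φ C q m :=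
  fun k hk => h k (lt_of_lt_of_le hk hm)

theorem Ok.mem (hM : Mat fl φ C) {q : T} {n k : ℕ} (h : Ok fl φ C q n) (h1 : 1 ≤ k) (h2 : k ≤ n) :
    wk fl φ q k ∈ C := by
  obtain ⟨j, rfl⟩ : ∃ j, k = j + 1 := ⟨k - 1, by omega⟩
  rw [wk_succ]
  exact hM.mem _ (h j (by omega))

/-- going back -/
theorem Ok.back (hM : Mat fl φ C) {q : T} {n k : ℕ} (h : Ok fl φ C q n) (h2 : k + 1 ≤ n) :
    φ (wk fl φ q (k + 1)) = fl (wk fl φ q k) := by
  rw [wk_succ]
  exact hM.inv _ (h k (by omega))

theorem wk_inj (hM : Mat fl φ C) {q q' : T} {k : ℕ} (h : Ok fl φ C q k) (h' : Ok fl φ C q' k)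
    (he : wk fl φ q k = wk fl φ q' k) : q = q' := by
  induction k with
  | zero => exact he
  | succ j ih =>
    refine ih (h.mono (Nat.le_succ j)) (h'.mono (Nat.le_succ j)) ?_
    have h1 := h.back hM (le_refl _)
    have h2 := h'.back hM (le_refl _)
    rw [he] at h1
    have h3 : fl (wk fl φ q j) = fl (wk fl φ q' j) := h1.symm.trans h2
    calc wk fl φ q j = fl (fl (wk fl φ q j)) := (hM.fl_fl _).symm
      _ = fl (fl (wk fl φ q' j)) := by rw [h3]
      _ = wk fl φ q' j := hM.fl_fl _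

/-- two walks from outside `C` that meet are equal and meet at the same time -/
theorem wk_time (hM : Mat fl φ C) {q q' : T} {k k' : ℕ} (hq : q ∉ C) (hk : k ≤ k')
    (h : Ok fl φ C q k) (h' : Ok fl φ C q' k') (he : wk fl φ q k = wk fl φ q' k') :
    k = k' := by
  by_contra hne
  obtain ⟨d, hd⟩ : ∃ d, k' = k + (d + 1) := ⟨k' - k - 1, by omega⟩
  subst hd
  have key : ∀ j, j ≤ k → wk fl φ q (k - j) = wk fl φ q' (k + (d + 1) - j) := by
    intro j
    induction j with
    | zero => intro _; simpa using he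
    | succ j ih =>
      intro hj
      have h0 := ih (by omega)
      have e1 : k - j = (k - (j + 1)) + 1 := by omega
      have e2 : k + (d + 1) - j = (k + (d + 1) - (j + 1)) + 1 := by omega
      rw [e1, e2] at h0
      have h1 := h.back hM (k := k - (j + 1)) (by omega)
      have h2 := h'.back hM (k := k + (d + 1) - (j + 1)) (by omega)
      rw [h0] at h1
      have h3 := h1.symm.trans h2
      rw [← hM.fl_fl (wk fl φ q (k - (j + 1))), h3, hM.fl_fl]
  have h4 := key k (le_refl _)
  rw [Nat.sub_self, wk_zero] at h4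
  have h5 : wk fl φ q' (k + (d + 1) - k) ∈ C := h'.mem hM (by omega) (by omega)
  rw [← h4] at h5
  exact hq h5

theorem exists_end [Finite T] (hM : Mat fl φ C) {q : T} (hq : q ∉ C) :
    ∃ n, fl (wk fl φ q n) ∉ C := by
  by_contra hcon
  push Not at hcon
  have hok : ∀ n, Ok fl φ C q n := fun n k _ => hcon k
  have hinj : Function.Injective (wk fl φ q) := by
    intro k k' he
    rcases le_total k k' with h | h
    · exact wk_time hM hq h (hok k) (hok k') he
    · exact (wk_time hM hq h (hok k') (hok k) he.symm).symm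
  exact not_injective_infinite_finite _ hinj

open Classical in
/-- the length of the walk -/
noncomputable def len (fl φ : T → T) (C : Set T) (q : T) : ℕ :=
  if h : ∃ n, fl (wk fl φ q n) ∉ C then Nat.find h else 0

/-- the end of the walk -/
noncomputable def ed (fl φ : T → T) (C : Set T) (q : T) : T := fl (wk fl φ q (len fl φ C q))

theorem len_ok [Finite T] (hM : Mat fl φ C) {q : T} (hq : q ∉ C) :
    Ok fl φ C q (len fl φ C q) := by
  classical
  intro k hk
  have h := exists_end hM hq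
  unfold len at hk
  rw [dif_pos h] at hk
  have := Nat.find_min h hk
  push Not at this
  exact this

theorem ed_notMem [Finite T] (hM : Mat fl φ C) {q : T} (hq : q ∉ C) : ed fl φ C q ∉ C := by
  classical
  have h := exists_end hM hq
  unfold ed len
  rw [dif_pos h]
  exact Nat.find_spec h

theorem len_unique [Finite T] (hM : Mat fl φ C) {q : T} (hq : q ∉ C) {n : ℕ}
    (h1 : Ok fl φ C q n) (h2 : fl (wk fl φ q n) ∉ C) : len fl φ C q = n := by
  rcases lt_trichotomy (len fl φ C q) n with h | h | h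
  · exact absurd (h1 _ h) (ed_notMem hM hq)
  · exact h
  · exact absurd (len_ok hM hq _ h) h2

/-- the walk from the other end -/
theorem wk_ed [Finite T] (hM : Mat fl φ C) {q : T} (hq : q ∉ C) {k : ℕ}
    (hk : k ≤ len fl φ C q) :
    wk fl φ (ed fl φ C q) k = fl (wk fl φ q (len fl φ C q - k)) := by
  induction k with
  | zero => rfl
  | succ j ih =>
    rw [wk_succ, ih (by omega), hM.fl_fl]
    have e : len fl φ C q - j = (len fl φ C q - (j + 1)) + 1 := by omega
    rw [e]
    exact (len_ok hM hq).back hM (by omega)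

theorem len_ed [Finite T] (hM : Mat fl φ C) {q : T} (hq : q ∉ C) :
    len fl φ C (ed fl φ C q) = len fl φ C q := by
  refine len_unique hM (ed_notMem hM hq) ?_ ?_
  · intro k hk
    rw [wk_ed hM hq hk.le, hM.fl_fl]
    exact (len_ok hM hq).mem hM (by omega) (by omega)
  · rw [wk_ed hM hq (le_refl _), hM.fl_fl, Nat.sub_self]
    exact hq

theorem ed_ed [Finite T] (hM : Mat fl φ C) {q : T} (hq : q ∉ C) :
    ed fl φ C (ed fl φ C q) = q := by
  have h : ed fl φ C (ed fl φ C q)
      = fl (wk fl φ (ed fl φ C q) (len fl φ C (ed fl φ C q))) := rfl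
  rw [h, len_ed hM hq, wk_ed hM hq (le_refl _), hM.fl_fl, Nat.sub_self]
  rfl

theorem ed_inj [Finite T] (hM : Mat fl φ C) {q q' : T} (hq : q ∉ C) (hq' : q' ∉ C)
    (h : ed fl φ C q = ed fl φ C q') : q = q' := by
  rw [← ed_ed hM hq, h, ed_ed hM hq']

/-- the line of `q` -/
def Ln (fl φ : T → T) (C : Set T) (q : T) : Set T :=
  {p | ∃ k, k ≤ len fl φ C q ∧ (p = wk fl φ q k ∨ p = fl (wk fl φ q k))}

theorem Ln_self (q : T) : q ∈ Ln fl φ C q := ⟨0, Nat.zero_le _, Or.inl rfl⟩

theorem Ln_fl (hM : Mat fl φ C) {q p : T} (h : p ∈ Ln fl φ C q) : fl p ∈ Ln fl φ C q := by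
  obtain ⟨k, hk, h | h⟩ := h
  · exact ⟨k, hk, Or.inr (by rw [h])⟩
  · exact ⟨k, hk, Or.inl (by rw [h, hM.fl_fl])⟩

theorem Ln_phi [Finite T] (hM : Mat fl φ C) {q p : T} (hq : q ∉ C) (h : p ∈ Ln fl φ C q)
    (hp : p ∈ C) : φ p ∈ Ln fl φ C q := by
  obtain ⟨k, hk, h | h⟩ := h
  · rcases Nat.eq_zero_or_pos k with h0 | h0
    · subst h0
      rw [h, wk_zero] at hp
      exact absurd hp hq
    · obtain ⟨j, rfl⟩ : ∃ j, k = j + 1 := ⟨k - 1, by omega⟩
      refine ⟨j, by omega, Or.inr ?_⟩
      rw [h]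
      exact (len_ok hM hq).back hM hk
  · rcases Nat.lt_or_ge k (len fl φ C q) with h0 | h0
    · refine ⟨k + 1, by omega, Or.inl ?_⟩
      rw [h, wk_succ]
    · have h1 : k = len fl φ C q := by omega
      rw [h, h1] at hp
      exact absurd hp (ed_notMem hM hq)

/-- the elements of a line outside `C` are its two ends -/
theorem Ln_res [Finite T] (hM : Mat fl φ C) {q p : T} (hq : q ∉ C) (h : p ∈ Ln fl φ C q)
    (hp : p ∉ C) : p = q ∨ p = ed fl φ C q := by
  obtain ⟨k, hk, h | h⟩ := h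
  · rcases Nat.eq_zero_or_pos k with h0 | h0
    · subst h0
      exact Or.inl h
    · exact absurd ((len_ok hM hq).mem hM h0 hk) (by rw [← h]; exact hp)
  · rcases Nat.lt_or_ge k (len fl φ C q) with h0 | h0
    · exact absurd (len_ok hM hq k h0) (by rw [← h]; exact hp)
    · have h1 : k = len fl φ C q := by omega
      subst h1
      exact Or.inr h

theorem ed_Ln (q : T) : ed fl φ C q ∈ Ln fl φ C q := ⟨len fl φ C q, le_refl _, Or.inr rfl⟩

/-! ### pairs -/

/-- the matching of pairs -/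
theorem Mat.pair (hM : Mat fl φ C) {J : T → T → Prop}
    (hJC : ∀ p p', J p p' → p ∈ C → p' ∈ C)
    (hJφ : ∀ p p', J p p' → p ∈ C → J (φ p) (φ p')) :
    Mat (Prod.map fl fl) (Prod.map φ φ) {x : T × T | J x.1 x.2 ∧ x.1 ∈ C} where
  fl_fl := by
    rintro ⟨p, p'⟩
    simp [hM.fl_fl]
  mem := by
    rintro ⟨p, p'⟩ ⟨h1, h2⟩
    exact ⟨hJφ _ _ h1 h2, hM.mem _ h2⟩
  inv := by
    rintro ⟨p, p'⟩ ⟨h1, h2⟩
    exact Prod.ext (hM.inv _ h2) (hM.inv _ (hJC _ _ h1 h2))

theorem wk_pair (q q' : T) (k : ℕ) :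
    wk (Prod.map fl fl) (Prod.map φ φ) (q, q') k = (wk fl φ q k, wk fl φ q' k) := by
  induction k with
  | zero => rfl
  | succ k ih => rw [wk_succ, ih, wk_succ, wk_succ]; rfl

end EN.Walk
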