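import Pool.Agent.GL.Iso

/-!
# The brick wall as a graph

Degrees, 4-cycles, isoperimetry, and the partition of a brick wall into square blocks, which gives
a model of a smaller brick wall.
-/

open Relation

namespace EN.Wall

/-- Vertices of the brick wall. -/
abbrev WV (h : ℕ) := Fin (2 * h) × Fin (2 * h)

variable {h : ℕ}

/-- The coordinates. -/
def vl (u : WV h) : ℕ × ℕ := (u.1.val, u.2.val)

lemma vl_inj : Function.Injective (vl (h := h)) := by
  intro u v huv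
  have h1 := congrArg Prod.fst huv
  have h2 := congrArg Prod.snd huv
  exact Prod.ext (Fin.ext h1) (Fin.ext h2)

/-- The brick wall. -/
def Wl (h : ℕ) : SimpleGraph (WV h) where
  Adj u v := Iso.WAdj (vl u) (vl v)
  symm := ⟨fun _ _ huv => Iso.WAdj.symm huv⟩
  loopless := ⟨fun u hu => by
    unfold Iso.WAdj at hu
    omega⟩

lemma adj_iff {u v : WV h} : (Wl h).Adj u v ↔ Iso.WAdj (vl u) (vl v) := Iff.rfl

/-- The only possible vertical neighbour. -/
lemma wadj_iff {u v : ℕ × ℕ} (huv : Iso.WAdj u v) : v = (u.1 + 1, u.2) ∨ v = (u.1 - 1, u.2) ∨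
    v = (u.1, if (u.1 + u.2) % 2 = 0 then u.2 + 1 else u.2 - 1) := by
  obtain ⟨a, b⟩ := u
  obtain ⟨c, d⟩ := v
  unfold Iso.WAdj at huv
  simp only [Prod.mk.injEq] at huv ⊢
  split_ifs <;> omega

theorem degree_le (y : WV h) : {z | (Wl h).Adj y z}.ncard ≤ 3 := by
  classical
  have h1 : vl '' {z | (Wl h).Adj y z} ⊆ (({((vl y).1 + 1, (vl y).2), ((vl y).1 - 1, (vl y).2),
      ((vl y).1, if ((vl y).1 + (vl y).2) % 2 = 0 then (vl y).2 + 1 else (vl y).2 - 1)} :
      Finset (ℕ × ℕ)) : Set (ℕ × ℕ)) := by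
    rintro _ ⟨z, hz, rfl⟩
    have h2 := wadj_iff (adj_iff.1 hz)
    simpa using h2
  rw [← Set.ncard_image_of_injective _ vl_inj]
  refine (Set.ncard_le_ncard h1 (Finset.finite_toSet _)).trans ?_
  rw [Set.ncard_coe_finset]
  exact Finset.card_le_three

theorem no_square (a b c d : WV h) (h1 : (Wl h).Adj a b) (h2 : (Wl h).Adj b c)
    (h3 : (Wl h).Adj c d) (h4 : (Wl h).Adj d a) : a = c ∨ b = d := by
  obtain ⟨⟨a1, ha1⟩, ⟨a2, ha2⟩⟩ := a
  obtain ⟨⟨b1, hb1⟩, ⟨b2, hb2⟩⟩ := b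
  obtain ⟨⟨c1, hc1⟩, ⟨c2, hc2⟩⟩ := c
  obtain ⟨⟨d1, hd1⟩, ⟨d2, hd2⟩⟩ := d
  simp only [adj_iff, Iso.WAdj, vl] at h1 h2 h3 h4
  simp only [Prod.mk.injEq, Fin.mk.injEq]
  rcases h1 with ⟨e1, e1' | e1'⟩ | ⟨e1, ⟨e1', p1⟩ | ⟨e1', p1⟩⟩ <;>
  rcases h3 with ⟨e3, e3' | e3'⟩ | ⟨e3, ⟨e3', p3⟩ | ⟨e3', p3⟩⟩ <;>
  rcases h2 with ⟨e2, e2' | e2'⟩ | ⟨e2, ⟨e2', p2⟩ | ⟨e2', p2⟩⟩ <;>
  omega

open Classical in
/-- The isoperimetric inequality. -/
theorem iso (T : ℕ) (A : Finset (WV h)) (hA : (Finset.univ.filter (fun x : WV h × WV h =>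
    (Wl h).Adj x.1 x.2 ∧ x.1 ∈ A ∧ x.2 ∉ A)).card ≤ T) :
    A.card ≤ 2 * (T + 1) ^ 2 ∨ Aᶜ.card ≤ 2 * (T + 1) ^ 2 := by
  by_contra hcon
  push Not at hcon
  set S : Set (ℕ × ℕ) := vl '' (A : Set (WV h)) with hS
  have hmem : ∀ u : WV h, vl u ∈ S ↔ u ∈ A := fun u => by
    rw [hS, vl_inj.mem_set_image]
    exact Finset.mem_coe
  have hlift : ∀ v ∈ Iso.box h, ∃ u : WV h, vl u = v := by
    intro v hv
    unfold Iso.box at hv
    rw [Finset.mem_product, Finset.mem_range, Finset.mem_range] at hv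
    exact ⟨(⟨v.1, hv.1⟩, ⟨v.2, hv.2⟩), rfl⟩
  have hbox : ∀ u : WV h, vl u ∈ Iso.box h := by
    intro u
    unfold Iso.box
    rw [Finset.mem_product, Finset.mem_range, Finset.mem_range]
    exact ⟨u.1.2, u.2.2⟩
  have c1 : A.card = ((Iso.box h).filter (· ∈ S)).card := by
    refine Finset.card_bij (fun u _ => vl u) ?_ ?_ ?_
    · intro u hu
      exact Finset.mem_filter.2 ⟨hbox u, (hmem u).2 hu⟩
    · intro u _ v _ huv
      exact vl_inj huv
    · intro v hv
      obtain ⟨h1, h2⟩ := Finset.mem_filter.1 hv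
      obtain ⟨u, rfl⟩ := hlift v h1
      exact ⟨u, (hmem u).1 h2, rfl⟩
  have c2 : Aᶜ.card = ((Iso.box h).filter (· ∉ S)).card := by
    refine Finset.card_bij (fun u _ => vl u) ?_ ?_ ?_
    · intro u hu
      exact Finset.mem_filter.2 ⟨hbox u, fun h1 => (Finset.mem_compl.1 hu) ((hmem u).1 h1)⟩
    · intro u _ v _ huv
      exact vl_inj huv
    · intro v hv
      obtain ⟨h1, h2⟩ := Finset.mem_filter.1 hv
      obtain ⟨u, rfl⟩ := hlift v h1
      exact ⟨u, Finset.mem_compl.2 fun h3 => h2 ((hmem u).2 h3), rfl⟩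
  rw [c1, c2] at hcon
  have hleave : ∀ u v, Iso.Leaves S h u v → ∃ x : WV h × WV h,
      x ∈ Finset.univ.filter (fun x : WV h × WV h => (Wl h).Adj x.1 x.2 ∧ x.1 ∈ A ∧ x.2 ∉ A) ∧
      vl x.1 = u := by
    rintro u v ⟨h1, h2, h3, h4, h5, h6, h7⟩
    refine ⟨((⟨u.1, h4⟩, ⟨u.2, h5⟩), (⟨v.1, h6⟩, ⟨v.2, h7⟩)), ?_, rfl⟩
    rw [Finset.mem_filter]
    refine ⟨Finset.mem_univ _, h1, ?_, ?_⟩
    · exact (hmem _).1 h2
    · exact fun h8 => h3 ((hmem _).2 h8)
  rcases Iso.many_mixed (A := S) (h := h) (M := T + 1) (by omega) hcon.1.le hcon.2.le with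
    h3 | h3
  · have h4 : ((Finset.range (2 * h)).filter (Iso.MixR S h)).card ≤
        (Finset.univ.filter (fun x : WV h × WV h =>
          (Wl h).Adj x.1 x.2 ∧ x.1 ∈ A ∧ x.2 ∉ A)).card := by
      have h5 : (Finset.range (2 * h)).filter (Iso.MixR S h) ⊆
          (Finset.univ.filter (fun x : WV h × WV h =>
            (Wl h).Adj x.1 x.2 ∧ x.1 ∈ A ∧ x.2 ∉ A)).image (fun x => (vl x.1).2) := by
        intro j hj
        obtain ⟨h6, h7⟩ := Finset.mem_filter.1 hj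
        obtain ⟨u, v, h8, h9, _⟩ := Iso.row_leaves (Finset.mem_range.1 h6) h7
        obtain ⟨x, hx, hx1⟩ := hleave u v h8
        refine Finset.mem_image.2 ⟨x, hx, ?_⟩
        rw [hx1, h9]
      exact (Finset.card_le_card h5).trans Finset.card_image_le
    omega
  · have h4 : ((Finset.range h).filter (Iso.MixC S h)).card ≤
        (Finset.univ.filter (fun x : WV h × WV h =>
          (Wl h).Adj x.1 x.2 ∧ x.1 ∈ A ∧ x.2 ∉ A)).card := by
      have h5 : (Finset.range h).filter (Iso.MixC S h) ⊆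
          (Finset.univ.filter (fun x : WV h × WV h =>
            (Wl h).Adj x.1 x.2 ∧ x.1 ∈ A ∧ x.2 ∉ A)).image (fun x => (vl x.1).1 / 2) := by
        intro j hj
        obtain ⟨h6, h7⟩ := Finset.mem_filter.1 hj
        obtain ⟨u, v, h8, h9, _⟩ := Iso.col_leaves (Finset.mem_range.1 h6) h7
        obtain ⟨x, hx, hx1⟩ := hleave u v h8
        refine Finset.mem_image.2 ⟨x, hx, ?_⟩
        rw [hx1, h9]
      exact (Finset.card_le_card h5).trans Finset.card_image_le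
    omega

/-! ### Blocks -/

/-- The square block. -/
def Bl (L I J : ℕ) : Set (ℕ × ℕ) :=
  {v | L * I ≤ v.1 ∧ v.1 < L * I + L ∧ L * J ≤ v.2 ∧ v.2 < L * J + L}

lemma mem_Bl {L I J x y : ℕ} : (x, y) ∈ Bl L I J ↔
    L * I ≤ x ∧ x < L * I + L ∧ L * J ≤ y ∧ y < L * J + L := Iff.rfl

/-- Connection inside of the block. -/
def Rb (L I J : ℕ) : ℕ × ℕ → ℕ × ℕ → Prop :=
  ReflTransGen (fun a b => Iso.WAdj a b ∧ a ∈ Bl L I J ∧ b ∈ Bl L I J)

lemma Rb.symm {L I J : ℕ} {a b : ℕ × ℕ} (hab : Rb L I J a b) : Rb L I J b a := by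
  unfold Rb at hab ⊢
  induction hab with
  | refl => exact ReflTransGen.refl
  | tail _ hbc ih => exact ReflTransGen.head ⟨hbc.1.symm, hbc.2.2, hbc.2.1⟩ ih

lemma rb_hor {L I J x y : ℕ} (n : ℕ) (h1 : (x, y) ∈ Bl L I J) (h2 : (x + n, y) ∈ Bl L I J) :
    Rb L I J (x, y) (x + n, y) := by
  induction n with
  | zero => exact ReflTransGen.refl
  | succ n ih =>
    rw [mem_Bl] at h1 h2
    have h3 : (x + n, y) ∈ Bl L I J := by
      rw [mem_Bl]
      omega
    refine (ih h3).tail ⟨Or.inl ⟨rfl, Or.inl rfl⟩, h3, ?_⟩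
    rw [mem_Bl]
    omega

lemma rb_hor' {L I J x x' y : ℕ} (h1 : (x, y) ∈ Bl L I J) (h2 : (x', y) ∈ Bl L I J) :
    Rb L I J (x, y) (x', y) := by
  rcases Nat.le_total x x' with hx | hx
  · obtain ⟨n, rfl⟩ := Nat.exists_eq_add_of_le hx
    exact rb_hor n h1 h2
  · obtain ⟨n, rfl⟩ := Nat.exists_eq_add_of_le hx
    exact (rb_hor n h2 h1).symm

/-- One step upwards. -/
lemma rb_up {L I J x y : ℕ} (hL : 2 ≤ L) (h1 : (x, y) ∈ Bl L I J) (h2 : (x, y + 1) ∈ Bl L I J) :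
    Rb L I J (x, y) (x, y + 1) := by
  have key : ∃ x', (x', y) ∈ Bl L I J ∧ (x', y + 1) ∈ Bl L I J ∧ (x' + y) % 2 = 0 := by
    simp only [mem_Bl] at h1 h2 ⊢
    by_cases hp : (x + y) % 2 = 0
    · exact ⟨x, h1, h2, hp⟩
    · by_cases hx : x + 1 < L * I + L
      · exact ⟨x + 1, by omega, by omega, by omega⟩
      · exact ⟨x - 1, by omega, by omega, by omega⟩
  obtain ⟨x', h3, h4, h5⟩ := key
  refine (rb_hor' h1 h3).trans (ReflTransGen.head (b := (x', y + 1)) ⟨?_, h3, h4⟩ (rb_hor' h4 h2))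
  exact Or.inr ⟨rfl, Or.inl ⟨rfl, h5⟩⟩

lemma rb_ver {L I J x y : ℕ} (hL : 2 ≤ L) (n : ℕ) (h1 : (x, y) ∈ Bl L I J)
    (h2 : (x, y + n) ∈ Bl L I J) : Rb L I J (x, y) (x, y + n) := by
  induction n with
  | zero => exact ReflTransGen.refl
  | succ n ih =>
    have h3 : (x, y + n) ∈ Bl L I J := by
      rw [mem_Bl] at h1 h2 ⊢
      omega
    exact (ih h3).trans (rb_up hL h3 h2)

/-- Blocks are connected. -/
theorem rb_all {L I J : ℕ} (hL : 2 ≤ L) {a b : ℕ × ℕ} (ha : a ∈ Bl L I J) (hb : b ∈ Bl L I J) :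
    Rb L I J a b := by
  obtain ⟨x, y⟩ := a
  obtain ⟨x', y'⟩ := b
  have h3 : (x', y) ∈ Bl L I J := by
    rw [mem_Bl] at ha hb ⊢
    omega
  refine (rb_hor' ha h3).trans ?_
  rcases Nat.le_total y y' with hy | hy
  · obtain ⟨n, rfl⟩ := Nat.exists_eq_add_of_le hy
    exact rb_ver hL n h3 hb
  · obtain ⟨n, rfl⟩ := Nat.exists_eq_add_of_le hy
    exact (rb_ver hL n hb h3).symm

lemma div_lt {L h a : ℕ} (ha : a < 2 * (L * h)) : a / L < 2 * h := by
  refine Nat.div_lt_of_lt_mul ?_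
  have h1 : L * (2 * h) = 2 * (L * h) := by ring
  rw [h1]
  exact ha

/-- The block of a vertex. -/
def blk (L h : ℕ) (u : WV (L * h)) : WV h := (⟨u.1.val / L, div_lt u.1.2⟩,
  ⟨u.2.val / L, div_lt u.2.2⟩)

lemma blk_eq_iff {L h : ℕ} (hL : 0 < L) {u : WV (L * h)} {y : WV h} :
    blk L h u = y ↔ vl u ∈ Bl L y.1.val y.2.val := by
  have key : ∀ a b : ℕ, a / L = b ↔ L * b ≤ a ∧ a < L * b + L := by
    intro a b
    rw [Nat.div_eq_iff hL]
    constructor
    · intro h1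
      have := Nat.mul_comm b L
      constructor <;> omega
    · intro h1
      have := Nat.mul_comm b L
      constructor <;> omega
  unfold blk vl
  rw [Prod.ext_iff, Fin.ext_iff, Fin.ext_iff, mem_Bl]
  show u.1.val / L = y.1.val ∧ u.2.val / L = y.2.val ↔ _
  rw [key, key]
  tauto

/-- Blocks are connected in the graph. -/
theorem blk_conn {L h : ℕ} (hL : 2 ≤ L) {u v : WV (L * h)} {y : WV h} (hu : blk L h u = y)
    (hv : blk L h v = y) :
    ReflTransGen (fun a b => (Wl (L * h)).Adj a b ∧ blk L h a = y ∧ blk L h b = y) u v := by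
  rw [blk_eq_iff (by omega)] at hu hv
  have hbox : ∀ w ∈ Bl L y.1.val y.2.val, w.1 < 2 * (L * h) ∧ w.2 < 2 * (L * h) := by
    rintro ⟨w1, w2⟩ hw
    rw [mem_Bl] at hw
    have h1 := y.1.2
    have h2 := y.2.2
    have h3 : L * (y.1.val + 1) ≤ L * (2 * h) := Nat.mul_le_mul_left L h1
    have h4 : L * (y.2.val + 1) ≤ L * (2 * h) := Nat.mul_le_mul_left L h2
    have h5 : L * (2 * h) = 2 * (L * h) := by ring
    rw [mul_add, mul_one] at h3 h4
    constructor <;> simp only <;> omega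
  classical
  set g : ℕ × ℕ → WV (L * h) := fun w => if hw : w.1 < 2 * (L * h) ∧ w.2 < 2 * (L * h) then
    (⟨w.1, hw.1⟩, ⟨w.2, hw.2⟩) else u with hg
  have hgv : ∀ w, w.1 < 2 * (L * h) ∧ w.2 < 2 * (L * h) → vl (g w) = w := by
    intro w hw
    rw [hg]
    simp only [dif_pos hw]
    rfl
  have hgu : ∀ w : WV (L * h), g (vl w) = w := by
    intro w
    refine vl_inj (hgv _ ⟨w.1.2, w.2.2⟩)
  have h1 := rb_all hL hu hv
  unfold Rb at h1
  have hstep : ∀ a b, (Iso.WAdj a b ∧ a ∈ Bl L y.1.val y.2.val ∧ b ∈ Bl L y.1.val y.2.val) →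
      ((Wl (L * h)).Adj (g a) (g b) ∧ blk L h (g a) = y ∧ blk L h (g b) = y) := by
    rintro a b ⟨h3, h4, h5⟩
    refine ⟨?_, ?_, ?_⟩
    · rw [adj_iff, hgv _ (hbox a h4), hgv _ (hbox b h5)]
      exact h3
    · rw [blk_eq_iff (by omega), hgv _ (hbox a h4)]
      exact h4
    · rw [blk_eq_iff (by omega), hgv _ (hbox b h5)]
      exact h5
  have h2 : ReflTransGen (fun a b => (Wl (L * h)).Adj a b ∧ blk L h a = y ∧ blk L h b = y)
      (g (vl u)) (g (vl v)) := by
    generalize vl u = a at h1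
    generalize vl v = b at h1
    induction h1 with
    | refl => exact ReflTransGen.refl
    | tail _ hbc ih => exact ih.tail (hstep _ _ hbc)
  rwa [hgu, hgu] at h2

/-- Adjacent blocks are linked. -/
theorem blk_edge {L h : ℕ} (hL : 2 ≤ L) {y z : WV h} (hyz : (Wl h).Adj y z) :
    ∃ u v, (Wl (L * h)).Adj u v ∧ blk L h u = y ∧ blk L h v = z := by
  -- the directed form
  have key : ∀ y z : WV h, ((vl y).2 = (vl z).2 ∧ (vl y).1 + 1 = (vl z).1) ∨
      ((vl y).1 = (vl z).1 ∧ (vl y).2 + 1 = (vl z).2) →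
      ∃ u v, (Wl (L * h)).Adj u v ∧ blk L h u = y ∧ blk L h v = z := by
    rintro ⟨⟨y1, hy1⟩, ⟨y2, hy2⟩⟩ ⟨⟨z1, hz1⟩, ⟨z2, hz2⟩⟩ hyz
    simp only [vl] at hyz
    have hb : ∀ a, a < 2 * h → L * a + L ≤ 2 * (L * h) := by
      intro a ha
      have h3 : L * (a + 1) ≤ L * (2 * h) := Nat.mul_le_mul_left L ha
      have h5 : L * (2 * h) = 2 * (L * h) := by ring
      rw [mul_add, mul_one] at h3
      omega
    have b1 := hb y1 hy1
    have b2 := hb y2 hy2
    have b3 := hb z1 hz1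
    have b4 := hb z2 hz2
    rcases hyz with ⟨rfl, rfl⟩ | ⟨rfl, rfl⟩
    · rw [mul_add, mul_one] at b3
      refine ⟨(⟨L * y1 + (L - 1), by omega⟩, ⟨L * y2, by omega⟩),
        (⟨L * y1 + L, by omega⟩, ⟨L * y2, by omega⟩), ?_, ?_, ?_⟩
      · exact Or.inl ⟨rfl, Or.inl (by show L * y1 + (L - 1) + 1 = L * y1 + L; omega)⟩
      · rw [blk_eq_iff (by omega), vl, mem_Bl]
        simp only
        omega
      · rw [blk_eq_iff (by omega), vl, mem_Bl]
        simp only [mul_add, mul_one]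
        omega
    · rw [mul_add, mul_one] at b4
      obtain ⟨x, hx1, hx2, hx3⟩ : ∃ x, L * y1 ≤ x ∧ x < L * y1 + L ∧
          (x + (L * y2 + (L - 1))) % 2 = 0 := by
        by_cases hp : (L * y1 + (L * y2 + (L - 1))) % 2 = 0
        · exact ⟨L * y1, le_rfl, by omega, hp⟩
        · exact ⟨L * y1 + 1, by omega, by omega, by omega⟩
      refine ⟨(⟨x, by omega⟩, ⟨L * y2 + (L - 1), by omega⟩),
        (⟨x, by omega⟩, ⟨L * y2 + L, by omega⟩), ?_, ?_, ?_⟩
      · exact Or.inr ⟨rfl, Or.inl ⟨by show L * y2 + (L - 1) + 1 = L * y2 + L; omega, hx3⟩⟩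
      · rw [blk_eq_iff (by omega), vl, mem_Bl]
        simp only
        omega
      · rw [blk_eq_iff (by omega), vl, mem_Bl]
        simp only [mul_add, mul_one]
        omega
  have hyz' := hyz
  rw [adj_iff] at hyz'
  unfold Iso.WAdj at hyz'
  have h1 : (((vl y).2 = (vl z).2 ∧ (vl y).1 + 1 = (vl z).1) ∨
      ((vl y).1 = (vl z).1 ∧ (vl y).2 + 1 = (vl z).2)) ∨
      (((vl z).2 = (vl y).2 ∧ (vl z).1 + 1 = (vl y).1) ∨
      ((vl z).1 = (vl y).1 ∧ (vl z).2 + 1 = (vl y).2)) := by omega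
  rcases h1 with h1 | h1
  · exact key y z h1
  · obtain ⟨u, v, h2, h3, h4⟩ := key z y h1
    exact ⟨v, u, h2.symm, h4, h3⟩

open Classical in
/-- The size of the blocks. -/
lemma card_blk_le {L h : ℕ} (hL : 0 < L) (y : WV h) :
    (Finset.univ.filter (fun u : WV (L * h) => blk L h u = y)).card ≤ L * L := by
  have h1 : (Finset.univ.filter (fun u : WV (L * h) => blk L h u = y)).card ≤
      (Finset.Ico (L * y.1.val) (L * y.1.val + L) ×ˢ
        Finset.Ico (L * y.2.val) (L * y.2.val + L)).card := by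
    refine Finset.card_le_card_of_injOn vl ?_ vl_inj.injOn
    intro u hu
    rw [Finset.mem_coe, Finset.mem_filter, blk_eq_iff hL] at hu
    have h2 := hu.2
    rw [vl, mem_Bl] at h2
    rw [vl, Finset.mem_coe, Finset.mem_product, Finset.mem_Ico, Finset.mem_Ico]
    omega
  refine h1.trans ?_
  rw [Finset.card_product, Nat.card_Ico, Nat.card_Ico]
  simp

lemma card_WV (h : ℕ) : Fintype.card (WV h) = 4 * h ^ 2 := by
  rw [Fintype.card_prod, Fintype.card_fin]
  ring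

/-! ### Vertices of small degree -/

open Classical in
lemma degree_le' (y : WV h) : (Finset.univ.filter (fun z => (Wl h).Adj y z)).card ≤ 3 := by
  have h1 := degree_le y
  rw [Set.ncard_eq_toFinset_card'] at h1
  convert h1 using 2
  ext z
  simp

open Classical in
/-- Inner vertices have three neighbours. -/
lemma three_le {v : WV h} (h1 : 0 < v.1.val) (h2 : v.1.val + 1 < 2 * h) (h3 : 0 < v.2.val)
    (h4 : v.2.val + 1 < 2 * h) : 3 ≤ (Finset.univ.filter (fun z => (Wl h).Adj v z)).card := by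
  obtain ⟨⟨x, hx⟩, ⟨y, hy⟩⟩ := v
  simp only at h1 h2 h3 h4
  set a : WV h := (⟨x + 1, h2⟩, ⟨y, hy⟩) with ha
  set b : WV h := (⟨x - 1, by omega⟩, ⟨y, hy⟩) with hb
  set c : WV h := (⟨x, hx⟩, if (x + y) % 2 = 0 then ⟨y + 1, h4⟩ else ⟨y - 1, by omega⟩) with hc
  have hab : a ≠ b := by
    intro he
    have := congrArg (fun w : WV h => w.1.val) he
    simp only [ha, hb] at this
    omega
  have hac : a ≠ c := by
    intro he
    have := congrArg (fun w : WV h => w.1.val) he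
    simp only [ha, hc] at this
    omega
  have hbc : b ≠ c := by
    intro he
    have := congrArg (fun w : WV h => w.1.val) he
    simp only [hb, hc] at this
    omega
  have hsub : ({a, b, c} : Finset (WV h)) ⊆
      Finset.univ.filter (fun z => (Wl h).Adj (⟨x, hx⟩, ⟨y, hy⟩) z) := by
    intro z hz
    simp only [Finset.mem_insert, Finset.mem_singleton] at hz
    rw [Finset.mem_filter]
    refine ⟨Finset.mem_univ _, ?_⟩
    rw [adj_iff]
    rcases hz with rfl | rfl | rfl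
    · exact Or.inl ⟨rfl, Or.inl rfl⟩
    · refine Or.inl ⟨rfl, Or.inr ?_⟩
      show x - 1 + 1 = x
      omega
    · refine Or.inr ⟨rfl, ?_⟩
      by_cases hp : (x + y) % 2 = 0
      · left
        simp only [hc, vl, if_pos hp]
        exact ⟨trivial, hp⟩
      · right
        simp only [hc, vl, if_neg hp]
        omega
  calc 3 = ({a, b, c} : Finset (WV h)).card := (Finset.card_eq_three.2 ⟨a, b, c, hab, hac, hbc, rfl⟩).symm
    _ ≤ _ := Finset.card_le_card hsub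

open Classical in
/-- There are few vertices of degree at most two. -/
theorem card_low : (Finset.univ.filter (fun v : WV h =>
    (Finset.univ.filter (fun z => (Wl h).Adj v z)).card ≤ 2)).card ≤ 8 * h := by
  rcases Nat.eq_zero_or_pos h with rfl | hh
  · simp
  have hsub : Finset.univ.filter (fun v : WV h =>
      (Finset.univ.filter (fun z => (Wl h).Adj v z)).card ≤ 2) ⊆
      ((({⟨0, by omega⟩, ⟨2 * h - 1, by omega⟩} : Finset (Fin (2 * h))) ×ˢ Finset.univ) ∪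
        (Finset.univ ×ˢ ({⟨0, by omega⟩, ⟨2 * h - 1, by omega⟩} : Finset (Fin (2 * h))))) := by
    intro v hv
    have h1 := (Finset.mem_filter.1 hv).2
    rw [Finset.mem_union, Finset.mem_product, Finset.mem_product, Finset.mem_insert,
      Finset.mem_singleton, Finset.mem_insert, Finset.mem_singleton]
    by_contra hcon
    push Not at hcon
    obtain ⟨hc1, hc2⟩ := hcon
    have e1 : v.1.val ≠ 0 ∧ v.1.val ≠ 2 * h - 1 := by
      constructor <;> intro h0
      · exact hc1 (Or.inl (Fin.ext h0)) (Finset.mem_univ _)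
      · exact hc1 (Or.inr (Fin.ext h0)) (Finset.mem_univ _)
    have e2 : v.2.val ≠ 0 ∧ v.2.val ≠ 2 * h - 1 := by
      have h3 := hc2 (Finset.mem_univ _)
      constructor <;> intro h0
      · exact h3.1 (Fin.ext h0)
      · exact h3.2 (Fin.ext h0)
    have hx := v.1.2
    have hy := v.2.2
    have := three_le (v := v) (by omega) (by omega) (by omega) (by omega)
    omega
  refine (Finset.card_le_card hsub).trans ((Finset.card_union_le _ _).trans ?_)
  rw [Finset.card_product, Finset.card_product, Finset.card_univ, Fintype.card_fin]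
  have h3 : ({⟨0, by omega⟩, ⟨2 * h - 1, by omega⟩} : Finset (Fin (2 * h))).card ≤ 2 :=
    Finset.card_le_two
  nlinarith

end EN.Wall
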