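import Pool.Agent.EN.BoundR
import Pool.Agent.EN.Wall

/-!
The numeric end of T-star: the robust bound for the brick wall.
-/

set_option autoImplicit false

open Finset EN.Walk EN.Sweep EN.Wall
open scoped Classical

namespace EN.GlueS

theorem num1 (D M K S R' z h : ℕ) (hR : R' ≤ 2 * S) :
    (2 + 2 * ((4 * S + 2 * ((K + 1) * R' * (5 + 2 * M))) +
      4 * (2 * ((4 * S + 2 * ((K + 1) * R' * (5 + 2 * M))) + (8 * h + z * 3)) +
        z * (3 * D) + 2 * z))) ≤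
    2 + 128 * h + (18 * (4 + 4 * ((K + 1) * (5 + 2 * M))) + 64 + 24 * D) * (S + z) := by
  have e1 : (K + 1) * R' * (5 + 2 * M) ≤ (K + 1) * (2 * S) * (5 + 2 * M) :=
    Nat.mul_le_mul_right _ (Nat.mul_le_mul_left _ hR)
  obtain ⟨b, hb⟩ : ∃ b, b = (K + 1) * (5 + 2 * M) := ⟨_, rfl⟩
  have e2 : (K + 1) * (2 * S) * (5 + 2 * M) = 2 * (b * S) := by
    rw [hb]
    ring
  have e3 : (18 * (4 + 4 * ((K + 1) * (5 + 2 * M))) + 64 + 24 * D) * (S + z) =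
      72 * S + 72 * z + 72 * (b * S) + 72 * (b * z) + 64 * S + 64 * z + 24 * (D * S) +
        24 * (D * z) := by
    rw [hb]
    ring
  have e4 : z * (3 * D) = 3 * (D * z) := by ring
  rw [e3, e4]
  rw [e2] at e1
  omega

theorem num2 (F f Δ c S z h X : ℕ) (hh : 130 * F + 2 * f + 2 * Δ + 1 ≤ h)
    (hX : X ≤ 2 + 128 * h + c * (S + z)) (hc : c * F * (S + z) ≤ h ^ 2)
    (h1 : 4 * h ^ 2 ≤ 2 * f + 2 * Δ ∨ 4 * h ^ 2 ≤ X * F) : False := by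
  have h2 : h ≤ h ^ 2 := by nlinarith
  rcases h1 with h1 | h1
  · omega
  · have h3 : X * F ≤ (2 + 128 * h + c * (S + z)) * F := Nat.mul_le_mul_right _ hX
    have h4 : (2 + 128 * h + c * (S + z)) * F = 2 * F + 128 * (F * h) + c * F * (S + z) := by ring
    have h5 : (130 * F + 1) * h ≤ h * h := Nat.mul_le_mul_right _ (by omega)
    have h6 : (130 * F + 1) * h = 130 * (F * h) + h := by ring
    have h7 : F ≤ F * h := Nat.le_mul_of_pos_right _ (by omega)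
    have h8 : h ^ 2 = h * h := by ring
    rw [h4] at h3
    omega

theorem wall_end (D M K Δ : ℕ) (hM : 1 ≤ M) (hΔ1 : 1 ≤ Δ) : ∃ c h0 : ℕ, ∀ h ≥ h0, ∀ (S : ℕ)
    {κ : Type*} [Fintype κ] (Y : EN.Sys κ) {P : ℕ} (pos : Pt P → ℕ) (Z : Finset (WV h))
    (mem : {v : WV h // v ∉ Z} → κ → Prop), Y.Ax D →
    (∀ (n : ℕ) (s e : ℕ → ℕ), (∀ i < n, Y.Bad M (s i) (e i)) →
      (∀ i, i + 1 < n → e i < s (i + 1)) → n ≤ K * Y.R) →
    Y.R ≤ 2 * S → Place Y pos (4 * S) →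
    Mem2 Y pos ((Wl h).comap (Subtype.val : {v : WV h // v ∉ Z} → WV h)) mem →
    (∀ k, ∀ A : Finset {v : WV h // v ∉ Z}, (∀ y ∈ A, mem y k) → A.card ≤ Δ) →
    c * (S + Z.card) ≤ h ^ 2 → False := by
  obtain ⟨M', hM'⟩ : ∃ M', M' = 2 * M * (4 * D + 1) + (D + Δ * 3 + 3 + 1) := ⟨_, rfl⟩
  obtain ⟨T, hT⟩ : ∃ T, T = (M' + M') * Δ * 3 + (M' + M') * (Δ * Δ) + 4 * Δ * 3 := ⟨_, rfl⟩
  obtain ⟨f, hf⟩ : ∃ f, f = 2 * (T + 1) ^ 2 := ⟨_, rfl⟩
  obtain ⟨F, hF⟩ : ∃ F, F = f + 2 * M' * Δ := ⟨_, rfl⟩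
  refine ⟨(18 * (4 + 4 * ((K + 1) * (5 + 2 * M))) + 64 + 24 * D) * F,
    130 * F + 2 * f + 2 * Δ + 1, ?_⟩
  intro h hh S κ _ Y P pos Z mem hY hcore hRS hP hG hΔ hc
  have hdeg : ∀ y, ∀ A : Finset (WV h), (∀ z ∈ A, (Wl h).Adj y z) → A.card ≤ 3 := by
    intro y A hA
    exact (card_le_card (fun z hz => mem_filter.2 ⟨mem_univ _, hA z hz⟩)).trans
      (Wall.degree_le' y)
  have hlow : ∀ A : Finset (WV h), (∀ y ∈ A, ∀ A' : Finset (WV h), (∀ z ∈ A', (Wl h).Adj y z) →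
      A'.card ≤ 2) → A.card ≤ 8 * h := by
    intro A hA
    refine (card_le_card ?_).trans (Wall.card_low (h := h))
    intro y hy
    exact mem_filter.2 ⟨mem_univ _, hA y hy _ (fun z hz => (mem_filter.1 hz).2)⟩
  have hiso : ∀ A : Finset (WV h), (∀ E : Finset (WV h × WV h), (∀ x ∈ E, (Wl h).Adj x.1 x.2 ∧
      x.1 ∈ A ∧ x.2 ∉ A) → E.card ≤ T) → A.card ≤ f ∨ Fintype.card (WV h) - A.card ≤ f := by
    intro A hA
    have h1 := Wall.iso T A (hA _ (fun x hx => (mem_filter.1 hx).2))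
    rw [card_compl, ← hf] at h1
    exact h1
  rw [hT] at hiso
  rw [hM'] at hiso
  have key := bound_rob' hY hM hcore hP hG hdeg hΔ hΔ1 hlow hiso
  rw [← hM', ← hF, card_WV] at key
  exact num2 F f Δ _ S Z.card h _ hh (num1 D M K S Y.R Z.card h hRS) hc key

end EN.GlueS
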