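import Pool.Agent.EN.Model
import Pool.Agent.EN.Wall

/-!
# Models of the coarse wall

A partial colouring of the host by the vertices of a graph `G₀` with connected classes and all edges
realised gives a model of every graph `G` which is a contraction of `G₀`; in particular a model of
a brick wall gives a model of the wall of its square blocks.
-/

open Relation

namespace Mdl

variable {V σ X X₀ : Type*}

/-- Coarser classes. -/
theorem Model.coarse {G₀ : SimpleGraph X₀} {G : SimpleGraph X} {q : X₀ → Option X}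
    (hq : ∀ x x' y, q x = some y → q x' = some y →
      ReflTransGen (fun a b => G₀.Adj a b ∧ q a = some y ∧ q b = some y) x x')
    (hqe : ∀ y z, G.Adj y z → ∃ a b, G₀.Adj a b ∧ q a = some y ∧ q b = some z)
    {H : Host V σ} {d : ℤ} {f₀ : HV V σ → Option X₀}
    (sup : ∀ s c b, f₀ (Sum.inr (s, c, b)) ≠ none → c < H.len s ∧ -d ≤ b ∧ b ≤ d)
    (fin : {u | f₀ u ≠ none}.Finite)
    (con : ∀ y u v, f₀ u = some y → f₀ v = some y → Cn H d f₀ y u v)
    (edg : ∀ y z, G₀.Adj y z → ∃ u v, H.Adj d u v ∧ f₀ u = some y ∧ f₀ v = some z)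
    (gnd : ∀ y, ∃ x v, q x = some y ∧ f₀ (Sum.inl v) = some x ∧ H.gd v) :
    Model G H d (fun u => (f₀ u).bind q) := by
  have hbind : ∀ u y, (f₀ u).bind q = some y ↔ ∃ x, f₀ u = some x ∧ q x = some y := by
    intro u y
    rw [Option.bind_eq_some_iff]
  have hne : ∀ u, (f₀ u).bind q ≠ none → f₀ u ≠ none := by
    intro u hu h
    rw [h] at hu
    exact hu rfl
  have hcn : ∀ x y u v, q x = some y → f₀ u = some x → f₀ v = some x →
      Cn H d (fun u => (f₀ u).bind q) y u v := by
    intro x y u v hx hu hv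
    have h1 := con x u v hu hv
    unfold Cn at h1 ⊢
    clear hu hv
    induction h1 with
    | refl => exact ReflTransGen.refl
    | tail _ hbc ih =>
      exact ih.tail ⟨hbc.1, (hbind _ _).2 ⟨x, hbc.2.1, hx⟩, (hbind _ _).2 ⟨x, hbc.2.2, hx⟩⟩
  refine ⟨fun s c b hb => sup s c b (hne _ hb), fin.subset fun u hu => hne u hu, ?_, ?_, ?_⟩
  · intro y u v hu hv
    obtain ⟨x, hux, hxy⟩ := (hbind _ _).1 hu
    obtain ⟨x', hvx, hxy'⟩ := (hbind _ _).1 hv
    have h1 := hq x x' y hxy hxy'
    have key : ∀ x', ReflTransGen (fun a b => G₀.Adj a b ∧ q a = some y ∧ q b = some y) x x' →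
        ∀ v, f₀ v = some x' → q x' = some y → Cn H d (fun u => (f₀ u).bind q) y u v := by
      intro x' h2
      induction h2 with
      | refl => exact fun v hv hx => hcn x y u v hxy hux hv
      | tail _ hbc ih =>
        intro v hv hx
        obtain ⟨a, b, h3, h4, h5⟩ := edg _ _ hbc.1
        refine (ih a h4 hbc.2.1).trans (Cn.trans (Cn.one h3 ?_ ?_) (hcn _ y b v hbc.2.2 h5 hv))
        · exact (hbind _ _).2 ⟨_, h4, hbc.2.1⟩
        · exact (hbind _ _).2 ⟨_, h5, hbc.2.2⟩
    exact key x' h1 v hvx hxy'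
  · intro y z hyz
    obtain ⟨a, b, h1, h2, h3⟩ := hqe y z hyz
    obtain ⟨u, v, h4, h5, h6⟩ := edg a b h1
    exact ⟨u, v, h4, (hbind _ _).2 ⟨a, h5, h2⟩, (hbind _ _).2 ⟨b, h6, h3⟩⟩
  · intro y
    obtain ⟨x, v, h1, h2, h3⟩ := gnd y
    exact ⟨v, (hbind _ _).2 ⟨x, h2, h1⟩, h3⟩

open EN.Wall in
/-- The model of the wall of the blocks. -/
theorem Model.blocks {L h : ℕ} (hL : 2 ≤ L) {H : Host V σ} {d : ℤ}
    {f₀ : HV V σ → Option (WV (L * h))}
    (sup : ∀ s c b, f₀ (Sum.inr (s, c, b)) ≠ none → c < H.len s ∧ -d ≤ b ∧ b ≤ d)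
    (fin : {u | f₀ u ≠ none}.Finite)
    (con : ∀ y u v, f₀ u = some y → f₀ v = some y → Cn H d f₀ y u v)
    (edg : ∀ y z, (Wl (L * h)).Adj y z → ∃ u v, H.Adj d u v ∧ f₀ u = some y ∧ f₀ v = some z)
    (gnd : ∀ y : WV h, ∃ x v, blk L h x = y ∧ f₀ (Sum.inl v) = some x ∧ H.gd v) :
    Model (Wl h) H d (fun u => (f₀ u).map (blk L h)) := by
  have h1 := Model.coarse (G₀ := Wl (L * h)) (G := Wl h) (q := fun x => some (blk L h x))
    (fun x x' y hx hx' => by
      have h3 := blk_conn (h := h) hL (Option.some.inj hx) (Option.some.inj hx')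
      clear hx hx'
      induction h3 with
      | refl => exact ReflTransGen.refl
      | tail _ hab ih =>
        exact ih.tail ⟨hab.1, congrArg some hab.2.1, congrArg some hab.2.2⟩)
    (fun y z hyz => by
      obtain ⟨u, v, h3, h4, h5⟩ := blk_edge hL hyz
      exact ⟨u, v, h3, congrArg some h4, congrArg some h5⟩)
    sup fin con edg (fun y => by
      obtain ⟨x, v, h3, h4, h5⟩ := gnd y
      exact ⟨x, v, congrArg some h3, h4, h5⟩)
  have h3 : (fun u => (f₀ u).map (blk L h)) = fun u => (f₀ u).bind fun x => some (blk L h x) := by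
    funext u
    rw [Option.map_eq_bind]
    rfl
  rw [h3]
  exact h1

end Mdl
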