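import Pool.Agent.EN.UModel
import Pool.Agent.EN.WallModel

/-!
# Models of the coarse wall with unbalanced branch sets
-/

open Relation

namespace Mdu

open Mdl

variable {V σ X X₀ : Type*}

/-- Coarser classes. -/
theorem UModel.coarse {G₀ : SimpleGraph X₀} {G : SimpleGraph X} {q : X₀ → Option X}
    (hq : ∀ x x' y, q x = some y → q x' = some y →
      ReflTransGen (fun a b => G₀.Adj a b ∧ q a = some y ∧ q b = some y) x x')
    (hqe : ∀ y z, G.Adj y z → ∃ a b, G₀.Adj a b ∧ q a = some y ∧ q b = some z)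
    {H : Host V σ} {N d : ℤ} {U : ℤ → Set (HV V σ) → Prop} (hB : Bal H N U) (hd : 0 ≤ d)
    (hdN : d ≤ N) (hgd : ∀ v, H.gd v) {f₀ : HV V σ → Option X₀}
    (sup : ∀ s c b, f₀ (Sum.inr (s, c, b)) ≠ none → c < H.len s ∧ -d ≤ b ∧ b ≤ d)
    (fin : {u | f₀ u ≠ none}.Finite)
    (con : ∀ y u v, f₀ u = some y → f₀ v = some y → Cn H d f₀ y u v)
    (edg : ∀ y z, G₀.Adj y z → ∃ u v, H.Adj d u v ∧ f₀ u = some y ∧ f₀ v = some z)
    (unb : ∀ y, ∃ A : Set (HV V σ), A.Nonempty ∧ U d A ∧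
      ∀ w ∈ A, ∃ x, f₀ w = some x ∧ q x = some y) :
    UModel G H U d (fun u => (f₀ u).bind q) := by
  have hbind : ∀ u y, (f₀ u).bind q = some y ↔ ∃ x, f₀ u = some x ∧ q x = some y := by
    intro u y
    rw [Option.bind_eq_some_iff]
  -- the model for a ground which holds everywhere, vertices of the pages included
  have hne : ∀ u, (f₀ u).bind q ≠ none → f₀ u ≠ none := by
    intro u hu h
    rw [h] at hu
    exact hu rfl
  have hcn : ∀ x y u v, q x = some y → f₀ u = some x → f₀ v = some x →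
      Cn H d (fun u => (f₀ u).bind q) y u v := by
    intro x y u v hx hu hv
    have h1 := con x u v hu hv
    unfold Cn at h1 ⊢
    clear hu hv
    induction h1 with
    | refl => exact ReflTransGen.refl
    | tail _ hbc ih =>
      exact ih.tail ⟨hbc.1, (hbind _ _).2 ⟨x, hbc.2.1, hx⟩, (hbind _ _).2 ⟨x, hbc.2.2, hx⟩⟩
  have hcon : ∀ y u v, (f₀ u).bind q = some y → (f₀ v).bind q = some y →
      Cn H d (fun u => (f₀ u).bind q) y u v := by
    intro y u v hu hv
    obtain ⟨x, hux, hxy⟩ := (hbind _ _).1 hu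
    obtain ⟨x', hvx, hxy'⟩ := (hbind _ _).1 hv
    have h1 := hq x x' y hxy hxy'
    have key : ∀ x', ReflTransGen (fun a b => G₀.Adj a b ∧ q a = some y ∧ q b = some y) x x' →
        ∀ v, f₀ v = some x' → q x' = some y → Cn H d (fun u => (f₀ u).bind q) y u v := by
      intro x' h2
      induction h2 with
      | refl => exact fun v hv hx => hcn x y u v hxy hux hv
      | tail _ hbc ih =>
        intro v hv hx
        obtain ⟨a, b, h3, h4, h5⟩ := edg _ _ hbc.1
        refine (ih a h4 hbc.2.1).trans (Cn.trans (Cn.one h3 ?_ ?_) (hcn _ y b v hbc.2.2 h5 hv))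
        · exact (hbind _ _).2 ⟨_, h4, hbc.2.1⟩
        · exact (hbind _ _).2 ⟨_, h5, hbc.2.2⟩
    exact key x' h1 v hvx hxy'
  have hfin : {u | (f₀ u).bind q ≠ none}.Finite := fin.subset fun u hu => hne u hu
  have hcl : ∀ y, {w | (f₀ w).bind q = some y}.Finite := fun y =>
    hfin.subset fun w (hw : (f₀ w).bind q = some y) => by
      show (f₀ w).bind q ≠ none
      rw [hw]
      simp
  have hco : ∀ y, Co H d {w | (f₀ w).bind q = some y} := fun y u hu v hv => hcon y u v hu hv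
  have hrg : ∀ y, Rg H d {w | (f₀ w).bind q = some y} := fun y s c b hw => by
    refine sup s c b (hne _ ?_)
    rw [show (f₀ (Sum.inr (s, c, b))).bind q = some y from hw]
    simp
  have hunb : ∀ y, U d {w | (f₀ w).bind q = some y} := by
    intro y
    obtain ⟨A, hA1, hA2, hA3⟩ := unb y
    exact hB.mono d A _ hd hdN (hrg y) (fun w hw => (hbind w y).2 (hA3 w hw)) (hcl y) hA1 (hco y)
      hA2
  refine ⟨⟨fun s c b hb => sup s c b (hne _ hb), hfin, hcon, ?_, ?_⟩, hunb⟩
  · intro y z hyz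
    obtain ⟨a, b, h1, h2, h3⟩ := hqe y z hyz
    obtain ⟨u, v, h4, h5, h6⟩ := edg a b h1
    exact ⟨u, v, h4, (hbind _ _).2 ⟨a, h5, h2⟩, (hbind _ _).2 ⟨b, h6, h3⟩⟩
  · intro y
    obtain ⟨v, hv⟩ := hB.inl hd hdN (hrg y) (hcl y) (hco y) (hunb y)
    exact ⟨v, hv, hgd v⟩

open EN.Wall in
/-- The model of the wall of the blocks. -/
theorem UModel.blocks {L h : ℕ} (hL : 2 ≤ L) {H : Host V σ} {N d : ℤ}
    {U : ℤ → Set (HV V σ) → Prop} (hB : Bal H N U) (hd : 0 ≤ d) (hdN : d ≤ N)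
    (hgd : ∀ v, H.gd v) {f₀ : HV V σ → Option (WV (L * h))}
    (sup : ∀ s c b, f₀ (Sum.inr (s, c, b)) ≠ none → c < H.len s ∧ -d ≤ b ∧ b ≤ d)
    (fin : {u | f₀ u ≠ none}.Finite)
    (con : ∀ y u v, f₀ u = some y → f₀ v = some y → Cn H d f₀ y u v)
    (edg : ∀ y z, (Wl (L * h)).Adj y z → ∃ u v, H.Adj d u v ∧ f₀ u = some y ∧ f₀ v = some z)
    (unb : ∀ y : WV h, ∃ A : Set (HV V σ), A.Nonempty ∧ U d A ∧
      ∀ w ∈ A, ∃ x, f₀ w = some x ∧ blk L h x = y) :
    UModel (Wl h) H U d (fun u => (f₀ u).map (blk L h)) := by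
  have h1 := UModel.coarse (G₀ := Wl (L * h)) (G := Wl h) (q := fun x => some (blk L h x))
    (fun x x' y hx hx' => by
      have h3 := blk_conn (h := h) hL (Option.some.inj hx) (Option.some.inj hx')
      clear hx hx'
      induction h3 with
      | refl => exact ReflTransGen.refl
      | tail _ hab ih =>
        exact ih.tail ⟨hab.1, congrArg some hab.2.1, congrArg some hab.2.2⟩)
    (fun y z hyz => by
      obtain ⟨u, v, h3, h4, h5⟩ := blk_edge hL hyz
      exact ⟨u, v, h3, congrArg some h4, congrArg some h5⟩)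
    hB hd hdN hgd sup fin con edg (fun y => by
      obtain ⟨A, h3, h4, h5⟩ := unb y
      refine ⟨A, h3, h4, fun w hw => ?_⟩
      obtain ⟨x, h6, h7⟩ := h5 w hw
      exact ⟨x, h6, congrArg some h7⟩)
  have h3 : (fun u => (f₀ u).map (blk L h)) = fun u => (f₀ u).bind fun x => some (blk L h x) := by
    funext u
    rw [Option.map_eq_bind]
    rfl
  rw [h3]
  exact h1

end Mdu
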